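import Pool.Agent.helper31.EQB.Cst
import Pool.Agent.helper71.FG.Reg
import Pool.Agent.helper12.FF.Struct

/-!
# EQB: entry of the links into the far field

`R0 = exp (-(2 κ (49/10)))`, `49/5 sinh κ ≤ exp (2 κ (49/10)) - 1`, so `sinh κ · R0/(1-R0) ≤ 5/49`.
-/

namespace Pool.Agent.helper31.EQB

open Complex ComplexConjugate Set Filter Topology
open Pool.Agent.helper31.EQ.Y Pool.Agent.helper31.EQ.R
open Pool.Agent.helper12.EQL Pool.Agent.helper12.RP Pool.Agent.helper12.FF Pool.Agent.helper12.RS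
open Pool.Agent.helper63.FF Pool.Agent.helper71.FG

variable {e κ : ℝ}

private theorem exp_neg_le {x : ℝ} (hx : 0 ≤ x) : Real.exp (-x) ≤ 1 - x + x ^ 2 / 2 := by
  have h1 := Real.quadratic_le_exp_of_nonneg hx
  have h2 : 0 ≤ 1 - x + x ^ 2 / 2 := by nlinarith [sq_nonneg (x - 1)]
  have h3 : 0 < Real.exp x := Real.exp_pos x
  have h4 : Real.exp (-x) * Real.exp x = 1 := by rw [← Real.exp_add]; simp
  have h5 : 1 ≤ (1 - x + x ^ 2 / 2) * Real.exp x := by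
    have h6 := mul_le_mul_of_nonneg_left h1 h2
    have h7 : (1 - x + x ^ 2 / 2) * (1 + x + x ^ 2 / 2) = 1 + x ^ 4 / 4 := by ring
    have h8 : 0 ≤ x ^ 4 := by positivity
    linarith
  by_contra hcon
  push Not at hcon
  have h6 := mul_lt_mul_of_pos_right hcon h3
  linarith

/-- `49/5 sinh κ ≤ exp (2 κ (49/10)) - 1` -/
theorem sinh_le_R0 (hκ : 0 < κ) :
    49 / 5 * Real.sinh κ ≤ Real.exp (2 * κ * (49 / 10)) - 1 := by
  have h1 := exp_neg_le hκ.le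
  have h2 : 1 + 44 / 5 * κ + (44 / 5 * κ) ^ 2 / 2 ≤ Real.exp (44 / 5 * κ) :=
    Real.quadratic_le_exp_of_nonneg (by positivity)
  have h3 : 0 < Real.exp κ := Real.exp_pos κ
  have h4 : Real.exp (2 * κ * (49 / 10)) = Real.exp κ * Real.exp (44 / 5 * κ) := by
    rw [← Real.exp_add]; congr 1; ring
  have h5 : Real.exp κ * Real.exp (-κ) = 1 := by rw [← Real.exp_add]; simp
  have h6 : Real.sinh κ ≤ κ * Real.exp κ := by
    rw [Real.sinh_eq]
    have h7 := Real.add_one_le_exp (-(2 * κ))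
    have h8 : Real.exp κ * Real.exp (-(2 * κ)) = Real.exp (-κ) := by
      rw [← Real.exp_add]; congr 1; ring
    have h9 := mul_le_mul_of_nonneg_left h7 h3.le
    rw [h8] at h9
    linarith
  have h7 : 49 / 5 * κ ≤ Real.exp (44 / 5 * κ) - Real.exp (-κ) := by
    nlinarith [sq_nonneg κ]
  have h8 := mul_le_mul_of_nonneg_left h7 h3.le
  have h9 : Real.exp κ * (Real.exp (44 / 5 * κ) - Real.exp (-κ)) =
      Real.exp (2 * κ * (49 / 10)) - 1 := by rw [mul_sub, h5, h4]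
  rw [h9] at h8
  linarith

/-- the constant of the radii at the entry -/
theorem R0_fac (hκ : 0 < κ) : 0 < Real.exp (-(2 * κ * (49 / 10))) ∧
    0 < 1 - Real.exp (-(2 * κ * (49 / 10))) ∧
    Real.sinh κ * (Real.exp (-(2 * κ * (49 / 10))) / (1 - Real.exp (-(2 * κ * (49 / 10))))) ≤
      5 / 49 := by
  have h0 := Real.exp_pos (-(2 * κ * (49 / 10)))
  have h1 : Real.exp (-(2 * κ * (49 / 10))) < 1 := Real.exp_lt_one_iff.2 (by nlinarith)
  refine ⟨h0, by linarith, ?_⟩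
  have h2 := sinh_le_R0 hκ
  have h3 : Real.exp (-(2 * κ * (49 / 10))) * Real.exp (2 * κ * (49 / 10)) = 1 := by
    rw [← Real.exp_add]; simp
  have h4 := mul_le_mul_of_nonneg_left h2 h0.le
  rw [← mul_div_assoc, div_le_iff₀ (by linarith)]
  nlinarith

/-- the square of the norm -/
private theorem nrm_sq (e κ : ℝ) (τ : ℂ) :
    (e ^ 2 * Real.sinh κ ^ 2 * ‖τ ^ 2 - 1‖) ^ 2 =
      (rz e κ τ ^ 2 - yz e κ τ ^ 2 - bet e κ ^ 2) ^ 2 + 4 * rz e κ τ ^ 2 * yz e κ τ ^ 2 := by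
  have h1 : ‖τ ^ 2 - 1‖ ^ 2 = (τ.re ^ 2 - τ.im ^ 2 - 1) ^ 2 + 4 * τ.re ^ 2 * τ.im ^ 2 := by
    rw [Complex.sq_norm, Complex.normSq_apply]
    have e1 : (τ ^ 2 - 1).re = τ.re ^ 2 - τ.im ^ 2 - 1 := by
      rw [sq, Complex.sub_re, Complex.mul_re, Complex.one_re]; ring
    have e2 : (τ ^ 2 - 1).im = 2 * τ.re * τ.im := by
      rw [sq, Complex.sub_im, Complex.mul_im, Complex.one_im]; ring
    rw [e1, e2]; ring
  rw [mul_pow, h1]
  unfold rz yz bet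
  ring

private theorem le_of_sq {a b : ℝ} (hb : 0 ≤ b) (h : a ^ 2 ≤ b ^ 2) : a ≤ b := by
  exact (le_abs_self a).trans (abs_le_of_sq_le_sq h hb)

/-- chart A: the norm is at most `r² + S` -/
private theorem nrm_A (e κ : ℝ) (τ : ℂ) :
    e ^ 2 * Real.sinh κ ^ 2 * ‖τ ^ 2 - 1‖ ≤
      rz e κ τ ^ 2 + (bet e κ ^ 2 + yz e κ τ ^ 2) := by
  refine le_of_sq (by positivity) ?_
  rw [nrm_sq]
  have h : 0 ≤ 4 * rz e κ τ ^ 2 * bet e κ ^ 2 := by positivity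
  nlinarith

/-- chart B: the norm is at most `S` -/
private theorem nrm_B {τ : ℂ} (hr0 : 0 ≤ rz e κ τ)
    (hr : rz e κ τ ≤ bet e κ) (hy : 2 * yz e κ τ ^ 2 ≤ bet e κ ^ 2) :
    e ^ 2 * Real.sinh κ ^ 2 * ‖τ ^ 2 - 1‖ ≤ bet e κ ^ 2 + yz e κ τ ^ 2 := by
  refine le_of_sq (by positivity) ?_
  rw [nrm_sq]
  have h1 : rz e κ τ ^ 2 ≤ bet e κ ^ 2 := pow_le_pow_left₀ hr0 hr 2
  have h : 0 ≤ rz e κ τ ^ 2 * (2 * bet e κ ^ 2 - 2 * yz e κ τ ^ 2 - rz e κ τ ^ 2) :=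
    mul_nonneg (sq_nonneg _) (by linarith)
  nlinarith

/-- the position -/
private theorem pos_ent (hκ : 0 < κ) {x : ℝ} (hx : 39 / 10 < x) {τ : ℂ} (hτ : 0 < τ.re)
    (h : om κ x τ) :
    ‖τ - 1‖ < Real.exp (2 * κ) * Real.exp (-(2 * κ * (49 / 10))) * ‖τ + 1‖ := by
  unfold om at h
  refine lt_of_le_of_lt h ?_
  rw [← Real.exp_add]
  have h1 : 0 < ‖τ + 1‖ := by
    rw [norm_pos_iff]
    intro h0
    have h2 := congrArg Complex.re h0
    rw [Complex.add_re, Complex.one_re, Complex.zero_re] at h2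
    linarith
  refine mul_lt_mul_of_pos_right (Real.exp_lt_exp.2 ?_) h1
  nlinarith

/-- the radii -/
private theorem rad_ent (he : 0 < e) (hκ : 0 < κ) (τ : ℂ) :
    ‖Xr κ (2 * (e / (4 + e * Real.sinh κ)) * Real.sinh κ ^ 2) (Real.exp (-(2 * κ * (49 / 10)))) τ‖
      ≤ ‖Rx e κ (419 / 8192) τ‖ := by
  have hK : 0 < Real.sinh κ := Real.sinh_pos_iff.2 hκ
  obtain ⟨h0, h1, h2⟩ := R0_fac hκ
  unfold Xr Rx
  rw [norm_mul, norm_mul, Complex.norm_real, Complex.norm_real]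
  refine mul_le_mul_of_nonneg_right ?_ (norm_nonneg _)
  unfold bet
  rw [Real.norm_of_nonneg (by positivity), Real.norm_of_nonneg (by positivity)]
  have h3 : 2 * (e / (4 + e * Real.sinh κ)) * Real.sinh κ ^ 2 * Real.exp (-(2 * κ * (49 / 10))) /
      (1 - Real.exp (-(2 * κ * (49 / 10)))) = (2 * (e * Real.sinh κ) / (4 + e * Real.sinh κ)) *
      (Real.sinh κ * (Real.exp (-(2 * κ * (49 / 10))) /
        (1 - Real.exp (-(2 * κ * (49 / 10)))))) := by ring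
  have h4 : 419 / 8192 * (4 / (4 + e * Real.sinh κ)) * (e * Real.sinh κ) =
      (2 * (e * Real.sinh κ) / (4 + e * Real.sinh κ)) * (419 / 4096) := by ring
  rw [h3, h4]
  refine mul_le_mul_of_nonneg_left ?_ (by positivity)
  exact h2.trans (by norm_num)

/-- the region from a bound of the norm -/
private theorem reg_ent (hκ : 0 < κ) {τ : ℂ}
    (h : e ^ 2 * Real.sinh κ ^ 2 * ‖τ ^ 2 - 1‖ < bet e κ ^ 2 + 39 / 2) :
    τ ∈ RE e κ (Real.exp (-(2 * κ * (49 / 10)))) := by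
  obtain ⟨h0, h1, h2⟩ := R0_fac hκ
  unfold RE
  rw [Set.mem_ofPred_eq]
  refine lt_of_lt_of_le h ?_
  have h3 : C2f e κ = 13 / 10 * bet e κ ^ 2 + 25 := by unfold C2f bet; ring
  rw [h3]
  have h4 : 39 / 49 ≤ 1 - 2 * Real.sinh κ * (Real.exp (-(2 * κ * (49 / 10))) /
      (1 - Real.exp (-(2 * κ * (49 / 10))))) := by linarith
  have h5 : 0 ≤ bet e κ ^ 2 := sq_nonneg _
  have h6 := mul_le_mul_of_nonneg_left h4 (by linarith : 0 ≤ 13 / 10 * bet e κ ^ 2 + 25)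
  linarith

private theorem num_A {b y r e : ℝ} (he : 500 ≤ e) (hb : b ^ 2 ≤ 25) (hy : y ^ 2 ≤ 10566 / 1000)
    (hr0 : 0 ≤ r) (hr : r ≤ 8111 / 1024 * (b ^ 2 + y ^ 2) / e) :
    r ^ 2 + (b ^ 2 + y ^ 2) < b ^ 2 + 39 / 2 := by
  have h1 : 8111 / 1024 * (b ^ 2 + y ^ 2) / e ≤ 6 / 10 := by
    rw [div_le_iff₀ (by linarith)]
    linarith
  have h2 : r ≤ 6 / 10 := hr.trans h1
  have h3 : r ^ 2 ≤ (6 / 10) ^ 2 := pow_le_pow_left₀ hr0 h2 2
  linarith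

/-- **Entry, chart A.** -/
theorem ent_A (he : 500 ≤ e) (hκ : 0 < κ) (hb : bet e κ ≤ 5) {τ : ℂ}
    (T : St e κ (xA 5) (LamA 5) (ynA 5) τ) :
    τ ∈ OmR κ (Real.exp (-(2 * κ * (49 / 10)))) (RE e κ (Real.exp (-(2 * κ * (49 / 10))))) ∧
    ‖Xr κ (2 * (e / (4 + e * Real.sinh κ)) * Real.sinh κ ^ 2)
      (Real.exp (-(2 * κ * (49 / 10)))) τ‖ ≤ ‖Rx e κ (aA 5) τ‖ := by
  have he0 : 0 < e := by linarith
  have hK : 0 < Real.sinh κ := Real.sinh_pos_iff.2 hκ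
  have hb0 : 0 < bet e κ := mul_pos he0 hK
  have c1 : xA 5 = 17491 / 4096 := rfl
  have c2 : LamA 5 = 8111 / 1024 := rfl
  have c3 : ynA 5 = 13313 / 4096 := rfl
  have c4 : aA 5 = 419 / 8192 := rfl
  have hre := T.re
  have hom := T.om
  have hy := T.y
  have hr := T.r
  rw [c1] at hom
  rw [c3] at hy
  rw [c2] at hr
  unfold Sz at hr
  have hr0 : 0 ≤ rz e κ τ := by unfold rz; positivity
  have hy2 : yz e κ τ ^ 2 ≤ 10566 / 1000 := by
    have h1 := sq_le_sq' (abs_le.1 hy).1 (abs_le.1 hy).2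
    linarith
  have hb2 : bet e κ ^ 2 ≤ 25 := by nlinarith
  refine ⟨⟨pos_ent hκ (by norm_num) hre hom, reg_ent hκ ?_⟩, ?_⟩
  · exact lt_of_le_of_lt (nrm_A e κ τ) (num_A he hb2 hy2 hr0 hr)
  · rw [c4]
    exact rad_ent he0 hκ τ

private theorem num_B {b y e : ℝ} (he : 200 ≤ e) (hb : 5 ≤ b) (hD : b ^ 2 ≤ 152 / 100 * e)
    (hy : y ^ 2 ≤ 11673 / 1000) :
    7951 / 1024 * (b ^ 2 + y ^ 2) / e ≤ b := by
  have h1 : 7951 / 1024 * b ≤ 7 / 10 * e := by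
    refine le_of_sq (by linarith) ?_
    have h2 : (7951 / 1024 * b) ^ 2 = (7951 / 1024) ^ 2 * b ^ 2 := by ring
    rw [h2]
    nlinarith
  rw [div_le_iff₀ (by linarith)]
  have h3 := mul_le_mul_of_nonneg_left h1 (by linarith : 0 ≤ b)
  nlinarith

/-- **Entry, chart B.** -/
theorem ent_B (he : 200 ≤ e) (hκ : 0 < κ) (hb : 5 ≤ bet e κ)
    (hD : bet e κ ^ 2 ≤ e * (13864 / 10000 + 7 / 4 * (√e)⁻¹)) {τ : ℂ}
    (T : St e κ (xB 5) (LamB 5) (ynB κ 5) τ) :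
    τ ∈ OmR κ (Real.exp (-(2 * κ * (49 / 10)))) (RE e κ (Real.exp (-(2 * κ * (49 / 10))))) ∧
    ‖Xr κ (2 * (e / (4 + e * Real.sinh κ)) * Real.sinh κ ^ 2)
      (Real.exp (-(2 * κ * (49 / 10)))) τ‖ ≤ ‖Rx e κ (aB e κ 5) τ‖ := by
  have he0 : 0 < e := by linarith
  have hK : 0 < Real.sinh κ := Real.sinh_pos_iff.2 hκ
  have hb0 : 0 < bet e κ := mul_pos he0 hK
  have c1 : xB 5 = 19127 / 4096 := rfl
  have c2 : LamB 5 = 7951 / 1024 := rfl
  have c3 : ynB κ 5 = 6997 / 2048 := by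
    unfold ynB
    have h1 : ynB0 5 = 6997 / 2048 := rfl
    have h2 : ynB1 5 = 0 := rfl
    rw [h1, h2]; ring
  have c4 : aB e κ 5 = 419 / 8192 := by
    unfold aB
    have h1 : aB0 5 = 419 / 8192 := rfl
    have h2 : aB1 5 = 0 := rfl
    rw [h1, h2]; ring
  have hre := T.re
  have hom := T.om
  have hy := T.y
  have hr := T.r
  rw [c1] at hom
  rw [c3] at hy
  rw [c2] at hr
  unfold Sz at hr
  have hr0 : 0 ≤ rz e κ τ := by unfold rz; positivity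
  have hy2 : yz e κ τ ^ 2 ≤ 11673 / 1000 := by
    have h1 := sq_le_sq' (abs_le.1 hy).1 (abs_le.1 hy).2
    linarith
  have hs14 : 14 ≤ √e := by
    refine Real.le_sqrt_of_sq_le ?_
    linarith
  have hsi : (√e)⁻¹ ≤ 1 / 14 := by
    rw [one_div]
    exact inv_anti₀ (by norm_num) hs14
  have hD2 : bet e κ ^ 2 ≤ 152 / 100 * e := by
    refine hD.trans ?_
    nlinarith
  have hb2 : 25 ≤ bet e κ ^ 2 := by nlinarith
  have hrb := hr.trans (num_B he hb hD2 hy2)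
  refine ⟨⟨pos_ent hκ (by norm_num) hre hom, reg_ent hκ ?_⟩, ?_⟩
  · refine lt_of_le_of_lt (nrm_B hr0 hrb (by linarith)) ?_
    linarith
  · rw [c4]
    exact rad_ent he0 hκ τ

end Pool.Agent.helper31.EQB
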