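import Pool.Agent.helper31.EQB.Reg
import Pool.Agent.helper31.EQB.Ent

/-!
# EQB-44: the whole region: `e ≥ 200`, and `e ≥ 500` if `e sinh κ ≤ 5`
-/

namespace Pool.Agent.helper31.EQB

open Complex ComplexConjugate Set Filter Topology
open Pool.Agent.helper31.EQ.Y Pool.Agent.helper31.EQ.R
open Pool.Agent.helper12.EQL Pool.Agent.helper12.RP Pool.Agent.helper12.FF Pool.Agent.helper12.RS
open Pool.Agent.helper71.FG (RE)

variable {e κ : ℝ}

/-- The region, from a far field with the announced first domain and radius. -/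
theorem trap_reg (he : 200 ≤ e) (hκ : 0 < κ) (hreg : bet e κ ≤ 5 → 500 ≤ e)
    (h : 2 * (Real.cosh κ - 1) / Real.cosh (e * κ / 2) ^ (2 / e) < 4 ^ (1 / e) - 1)
    (far : FarN e κ (1 - Real.sinh κ / 1024))
    (hΩ : far.Ω 0 = OmR κ (Real.exp (-(2 * κ * (49 / 10))))
      (RE e κ (Real.exp (-(2 * κ * (49 / 10))))))
    (hX : far.X 0 = Xr κ (2 * (e / (4 + e * Real.sinh κ)) * Real.sinh κ ^ 2)
      (Real.exp (-(2 * κ * (49 / 10))))) :
    Nonempty (Pool.Agent.helper31.EQ.SeqTrap e (Real.exp κ)) := by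
  rcases le_total (bet e κ) 5 with hb | hb
  · refine trap_A (hreg hb) hκ hb far fun τ T => ?_
    rw [hΩ, hX]
    exact ent_A (hreg hb) hκ hb T
  · refine trap_B he hκ hb h far fun τ T => ?_
    rw [hΩ, hX]
    exact ent_B he hκ hb (dom_B he hκ h) T

end Pool.Agent.helper31.EQB
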