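import Pool.Agent.helper31.EQB.Lam

/-!
# EQB-6: the value `1 - f(t0)` at `β t0 = iπ`

`t0 = iπ/β`, `β = e K`, `K = sinh κ`; `Hr = Q(t0)^(-e) f(shf t0)`.  Series (definition of `fT`, and
`Q(t0) (cosh κj + (shf t0) sinh κj) = cosh κ(j+1) + t0 sinh κ(j+1)`, all factors have positive real part and the
arguments add up): `-Hr = Σ_{k ≥ 1} R_k e^(i Δ_k)`, with
`R_k = (cosh² κk + (π²/β²) sinh² κk)^(-e/2) = (1 + (1 + π²/β²) sinh² κk)^(-e/2)`,
`Δ_k = πk - e arctan ((π/β) tanh κk)`.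

BOUNDS (`W = (β² + π²)/e ≤ 8/5`, `K² ≤ W/e`):
* `0 ≤ Δ_k` (`arctan x ≤ x`, `tanh κk ≤ κk`, `κ ≤ K`), and `Δ_k ≤ (πW/(3e)) (k³ + k/2)`:
  `arctan x ≥ x - x³/3`, `tanh x ≥ x - x³/3`, `κ/K ≥ 1 - K²/6`:
  `Δ_k ≤ πk (K²/6 + K² k²/3 + π² k²/(3e²)) = πk K²/6 + πk³ W/(3e)`.
* `R_k ≤ (1 + W' k²/16)^(-8)`, `W' = W (κ/K)² ≥ 0.99 W`: `(1 + π²/β²) sinh² κk ≥ W' k²/e` and
  `(1 + x/e)^(e/2) = ((1 + x/e)^(e/16))^8 ≥ (1 + x/16)^8` (Bernoulli, `e ≥ 16`).
* `k⁶ (1 + X)^(-8) ≤ (16/W')³ (1/64) (1 + X)^(-2)` for `X = W' k²/16` (`X³/(1+X)⁶ ≤ 1/64`).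
* `Σ_{k ≥ 1} (1 + δ² k²)^(-2) ≤ 4/(3δ)` (`1 + δ²k² ≥ (1 + δk)²/2`, `(1+δk)^(-4) ≤ (1/(3δ)) ((1+δ(k-1))^(-3) - (1+δk)^(-3))`),
  `δ = √W'/4`.
* `P = Σ_{k ≥ 1} R_k ≥ 0.28/√W`: `R_k ≥ exp (-W'' k²/2)`, `W''` close to `W` for `k ≤ 1/√W` (for `W ≥ 1` take `k = 1` only).
* `(k³ + k/2)² ≤ (9/4) k⁶`; better `k³ + k/2 ≤ 1.5 k³`.
RESULT: `Σ R_k Δ_k²/2 ≤ 0.158 P ≤ 0.2 P` if `9000 ≤ e (β² + π²)` (now `4900`, with the exponent `13` instead of `7`, `δ = (49/250) √W κ/K`) (true sizes: `0.001 P`), hence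
`Re (-Hr) ≥ Σ R_k (1 - Δ_k²/2) ≥ 0.8 P ≥ 0.8 |Hr|`.
(If a constant does not fit use a sharper one: e.g. the exponent `12` instead of `8`, the integral instead of `4/(3δ)`;
the claim itself is true with `0.99`.)
-/

namespace Pool.Agent.helper31.EQB

open Complex ComplexConjugate Set Filter Topology
open Pool.Agent.helper31.EQ.Y Pool.Agent.helper31.EQ.R
open Pool.Agent.helper12.EQL Pool.Agent.helper12.RP Pool.Agent.helper12.FF

variable {e κ : ℝ}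

/-! ### Elementary inequalities -/

private theorem ts_mono {f f' : ℝ → ℝ} (hf : ∀ x, HasDerivAt f (f' x) x) (h0 : f 0 = 0)
    (hd : ∀ x, 0 ≤ x → 0 ≤ f' x) {x : ℝ} (hx : 0 ≤ x) : 0 ≤ f x := by
  have hm : MonotoneOn f (Set.Ici 0) := by
    apply monotoneOn_of_deriv_nonneg (convex_Ici 0)
    · exact fun x _ => (hf x).continuousAt.continuousWithinAt
    · exact fun x _ => (hf x).differentiableAt.differentiableWithinAt
    · intro x hx
      rw [interior_Ici] at hx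
      rw [(hf x).deriv]
      exact hd x (le_of_lt hx)
  have h1 : f 0 ≤ f x := hm Set.self_mem_Ici hx hx
  linarith

private theorem ts_atan_le {x : ℝ} (hx : 0 ≤ x) : Real.arctan x ≤ x := by
  have h := ts_mono (f := fun x => x - Real.arctan x) (f' := fun x => 1 - 1 / (1 + x ^ 2))
    (fun x => (hasDerivAt_id x).sub (Real.hasDerivAt_arctan x)) (by simp)
    (fun x _ => by
      have h1 : 1 / (1 + x ^ 2) ≤ 1 := by
        rw [div_le_one (by positivity)]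
        nlinarith [sq_nonneg x]
      show 0 ≤ 1 - 1 / (1 + x ^ 2)
      linarith) hx
  linarith

private theorem ts_atan_ge {x : ℝ} (hx : 0 ≤ x) : x - x ^ 3 / 3 ≤ Real.arctan x := by
  have h := ts_mono (f := fun x => Real.arctan x - x + x ^ 3 / 3)
    (f' := fun x => 1 / (1 + x ^ 2) - 1 + x ^ 2)
    (fun x => by
      have h3 : HasDerivAt (fun x : ℝ => x ^ 3 / 3) (x ^ 2) x := by
        have := (hasDerivAt_pow 3 x).div_const 3
        refine this.congr_deriv ?_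
        norm_num
      exact ((Real.hasDerivAt_arctan x).sub (hasDerivAt_id x)).add h3) (by simp)
    (fun x _ => by
      have h1 : 1 - x ^ 2 ≤ 1 / (1 + x ^ 2) := by
        rw [le_div_iff₀ (by positivity)]
        nlinarith [sq_nonneg (x ^ 2)]
      show 0 ≤ 1 / (1 + x ^ 2) - 1 + x ^ 2
      linarith) hx
  linarith

private theorem ts_tanh_deriv (x : ℝ) : HasDerivAt Real.tanh (1 / Real.cosh x ^ 2) x := by
  have hc := (Real.cosh_pos x).ne'
  have h := (Real.hasDerivAt_sinh x).div (Real.hasDerivAt_cosh x) hc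
  have he : (fun x => Real.sinh x / Real.cosh x) = Real.tanh := by
    funext y; rw [Real.tanh_eq_sinh_div_cosh]
  have h' : HasDerivAt (fun x => Real.sinh x / Real.cosh x)
      ((Real.cosh x * Real.cosh x - Real.sinh x * Real.sinh x) / Real.cosh x ^ 2) x := h
  rw [he] at h'
  refine h'.congr_deriv ?_
  congr 1
  have := Real.cosh_sq x
  nlinarith

private theorem ts_tanh_le {x : ℝ} (hx : 0 ≤ x) : Real.tanh x ≤ x := by
  have h := ts_mono (f := fun x => x - Real.tanh x) (f' := fun x => 1 - 1 / Real.cosh x ^ 2)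
    (fun x => (hasDerivAt_id x).sub (ts_tanh_deriv x)) (by simp)
    (fun x _ => by
      have h1 : 1 / Real.cosh x ^ 2 ≤ 1 := by
        rw [div_le_one (by positivity)]
        nlinarith [Real.one_le_cosh x]
      show 0 ≤ 1 - 1 / Real.cosh x ^ 2
      linarith) hx
  linarith

private theorem ts_tanh_nonneg {x : ℝ} (hx : 0 ≤ x) : 0 ≤ Real.tanh x := by
  rw [Real.tanh_eq_sinh_div_cosh]
  exact div_nonneg (Real.sinh_nonneg_iff.2 hx) (Real.cosh_pos x).le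

private theorem ts_tanh_ge {x : ℝ} (hx : 0 ≤ x) : x - x ^ 3 / 3 ≤ Real.tanh x := by
  have h := ts_mono (f := fun x => Real.tanh x - x + x ^ 3 / 3)
    (f' := fun x => 1 / Real.cosh x ^ 2 - 1 + x ^ 2)
    (fun x => by
      have h3 : HasDerivAt (fun x : ℝ => x ^ 3 / 3) (x ^ 2) x := by
        have := (hasDerivAt_pow 3 x).div_const 3
        refine this.congr_deriv ?_
        norm_num
      exact ((ts_tanh_deriv x).sub (hasDerivAt_id x)).add h3) (by simp)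
    (fun x hx => by
      have hc := Real.cosh_pos x
      have h1 : 1 / Real.cosh x ^ 2 = 1 - Real.tanh x ^ 2 := by
        rw [Real.tanh_eq_sinh_div_cosh]
        have := Real.cosh_sq x
        field_simp
        linarith
      have h2 := ts_tanh_le hx
      have h3 := ts_tanh_nonneg hx
      show 0 ≤ 1 / Real.cosh x ^ 2 - 1 + x ^ 2
      rw [h1]
      nlinarith) hx
  linarith

private theorem ts_sinh {x : ℝ} (hx : 0 ≤ x) : Real.sinh x - Real.sinh x ^ 3 / 6 ≤ x := by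
  have h := ts_mono (f := fun x => x - Real.sinh x + Real.sinh x ^ 3 / 6)
    (f' := fun x => 1 - Real.cosh x + Real.sinh x ^ 2 * Real.cosh x / 2)
    (fun x => by
      have h3 : HasDerivAt (fun x : ℝ => Real.sinh x ^ 3 / 6)
          (Real.sinh x ^ 2 * Real.cosh x / 2) x := by
        have := ((Real.hasDerivAt_sinh x).pow 3).div_const 6
        refine this.congr_deriv ?_
        norm_num
        ring
      exact ((hasDerivAt_id x).sub (Real.hasDerivAt_sinh x)).add h3) (by simp)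
    (fun x _ => by
      have h1 := Real.one_le_cosh x
      have h2 := Real.cosh_sq x
      have h3 : Real.sinh x ^ 2 = Real.cosh x ^ 2 - 1 := by linarith
      show 0 ≤ 1 - Real.cosh x + Real.sinh x ^ 2 * Real.cosh x / 2
      rw [h3]
      have h4 : 1 - Real.cosh x + (Real.cosh x ^ 2 - 1) * Real.cosh x / 2 =
        (Real.cosh x - 1) * ((Real.cosh x + 1) * Real.cosh x / 2 - 1) := by ring
      rw [h4]
      apply mul_nonneg (by linarith)
      nlinarith) hx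
  linarith

/-! ### The terms -/

/-- `|cosh κn + i p sinh κn|²` -/
noncomputable def tsN (κ p n : ℝ) : ℝ := 1 + (1 + p ^ 2) * Real.sinh (κ * n) ^ 2

/-- `R` -/
noncomputable def tsR (e κ p n : ℝ) : ℝ := tsN κ p n ^ (-(e / 2))

/-- `Δ` -/
noncomputable def tsD (e κ p n : ℝ) : ℝ :=
  Real.pi * n - e * Real.arctan (p * Real.tanh (κ * n))

/-- the term -/
noncomputable def tsA (e κ : ℝ) (t : ℂ) (k : ℕ) : ℂ :=
  (-1 : ℂ) ^ k * ((Real.cosh (κ * (k + 1 : ℕ)) : ℂ) + t * (Real.sinh (κ * (k + 1 : ℕ)) : ℂ)) ^ (-(e : ℂ))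

theorem tsN_pos (κ p n : ℝ) : 1 ≤ tsN κ p n := by
  unfold tsN
  nlinarith [mul_nonneg (by positivity : (0:ℝ) ≤ 1 + p ^ 2) (sq_nonneg (Real.sinh (κ * n)))]

theorem tsR_pos (e κ p n : ℝ) : 0 < tsR e κ p n :=
  Real.rpow_pos_of_pos (lt_of_lt_of_le one_pos (tsN_pos κ p n)) _

private theorem ts_term (e κ p : ℝ) (k : ℕ) :
    ‖tsA e κ ((p : ℂ) * I) k‖ = tsR e κ p (k + 1) ∧
      (tsA e κ ((p : ℂ) * I) k).re = -(tsR e κ p (k + 1) * Real.cos (tsD e κ p (k + 1))) := by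
  have hk : ((k + 1 : ℕ) : ℝ) = (k : ℝ) + 1 := by push_cast; rfl
  obtain ⟨c, hc⟩ : ∃ c, c = Real.cosh (κ * ((k : ℝ) + 1)) := ⟨_, rfl⟩
  obtain ⟨s, hs⟩ : ∃ s, s = Real.sinh (κ * ((k : ℝ) + 1)) := ⟨_, rfl⟩
  have hc0 : 0 < c := by rw [hc]; exact Real.cosh_pos _
  have hcs : c ^ 2 = s ^ 2 + 1 := by rw [hc, hs]; exact Real.cosh_sq _
  obtain ⟨z, hz⟩ : ∃ z : ℂ, z = (c : ℂ) + (p : ℂ) * I * (s : ℂ) := ⟨_, rfl⟩
  have hre : z.re = c := by rw [hz]; simp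
  have him : z.im = p * s := by rw [hz]; simp
  have hz0 : z ≠ 0 := by
    intro h
    rw [h, Complex.zero_re] at hre
    linarith
  have hN : ‖z‖ ^ 2 = tsN κ p (k + 1) := by
    rw [Complex.sq_norm, Complex.normSq_apply, hre, him]
    unfold tsN
    rw [← hs]
    nlinarith
  have hN1 := tsN_pos κ p (k + 1)
  have hnz : 0 < ‖z‖ := norm_pos_iff.2 hz0
  have hR : ‖z‖ ^ (-e) = tsR e κ p (k + 1) := by
    unfold tsR
    rw [← hN, ← Real.rpow_natCast, ← Real.rpow_mul (norm_nonneg _)]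
    congr 1
    push_cast
    ring
  have hA : tsA e κ ((p : ℂ) * I) k = (((-1 : ℝ) ^ k : ℝ) : ℂ) * z ^ (((-e : ℝ)) : ℂ) := by
    unfold tsA
    rw [hk, ← hc, ← hs, ← hz]
    push_cast
    rfl
  have harg : Complex.arg z = Real.arctan (p * Real.tanh (κ * ((k : ℝ) + 1))) := by
    have h1 := abs_lt.1 (abs_arg_lt_pi_div_two_iff.2 (Or.inl (by rw [hre]; exact hc0)))
    rw [← Real.arctan_tan h1.1 h1.2, Complex.tan_arg, hre, him, Real.tanh_eq_sinh_div_cosh, ← hc, ← hs]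
    congr 1
    ring
  constructor
  · rw [hA, norm_mul, Complex.norm_real, norm_pow, norm_neg, norm_one, one_pow, one_mul,
      norm_cpow_real, hR]
  · rw [hA, Complex.re_ofReal_mul, cpow_def_of_ne_zero hz0, Complex.exp_re]
    have h1 : (Complex.log z * ((-e : ℝ) : ℂ)).re = Real.log ‖z‖ * -e := by
      rw [Complex.re_mul_ofReal, Complex.log_re]
    have h2 : (Complex.log z * ((-e : ℝ) : ℂ)).im = -(e * Complex.arg z) := by
      rw [Complex.im_mul_ofReal, Complex.log_im]; ring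
    rw [h1, h2, ← Real.rpow_def_of_pos hnz, hR, Real.cos_neg, harg]
    unfold tsD
    rw [Real.cos_sub]
    have h3 : Real.cos (Real.pi * ((k : ℝ) + 1)) = (-1) ^ (k + 1) := by
      have := Real.cos_nat_mul_pi (k + 1)
      rw [← this]
      congr 1
      push_cast
      ring
    have h4 : Real.sin (Real.pi * ((k : ℝ) + 1)) = 0 := by
      have := Real.sin_nat_mul_pi (k + 1)
      rw [← this]
      congr 1
      push_cast
      ring
    rw [h3, h4]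
    ring

/-! ### The bounds of `Δ` -/

/-- `W` -/
noncomputable def tsW (e κ : ℝ) : ℝ := ((e * Real.sinh κ) ^ 2 + Real.pi ^ 2) / e

private theorem ts_delta (he : 0 < e) (hκ : 0 < κ) {n : ℝ} (hn : 1 ≤ n) :
    0 ≤ tsD e κ (Real.pi / (e * Real.sinh κ)) n ∧
      tsD e κ (Real.pi / (e * Real.sinh κ)) n ≤
        Real.pi * tsW e κ / (2 * e) * n ^ 3 := by
  obtain ⟨K, hK⟩ : ∃ K, K = Real.sinh κ := ⟨_, rfl⟩
  have hK0 : 0 < K := by rw [hK]; exact Real.sinh_pos_iff.2 hκ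
  have hκK : κ ≤ K := by rw [hK]; exact Real.self_le_sinh_iff.2 hκ.le
  have hK6 : K - K ^ 3 / 6 ≤ κ := by rw [hK]; exact ts_sinh hκ.le
  have hpi := Real.pi_pos
  obtain ⟨p, hp⟩ : ∃ p, p = Real.pi / (e * K) := ⟨_, rfl⟩
  have hp0 : 0 < p := by rw [hp]; positivity
  have hpK : e * (p * K) = Real.pi := by rw [hp]; field_simp
  have hW : tsW e κ = e * (K ^ 2 + p ^ 2 * K ^ 2) := by
    unfold tsW
    rw [← hK, hp]
    field_simp
  obtain ⟨y, hy⟩ : ∃ y, y = κ * n := ⟨_, rfl⟩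
  have hn0 : 0 < n := by linarith
  have hy0 : 0 < y := by rw [hy]; positivity
  have hyK : y ≤ K * n := by rw [hy]; exact mul_le_mul_of_nonneg_right hκK hn0.le
  obtain ⟨T, hT⟩ : ∃ T, T = Real.tanh y := ⟨_, rfl⟩
  have hT0 : 0 ≤ T := by rw [hT]; exact ts_tanh_nonneg hy0.le
  have hT1 : T ≤ y := by rw [hT]; exact ts_tanh_le hy0.le
  have hT2 : y - y ^ 3 / 3 ≤ T := by rw [hT]; exact ts_tanh_ge hy0.le
  obtain ⟨θ, hθ⟩ : ∃ θ, θ = Real.arctan (p * T) := ⟨_, rfl⟩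
  have hpT : 0 ≤ p * T := by positivity
  have hθ1 : θ ≤ p * T := by rw [hθ]; exact ts_atan_le hpT
  have hθ2 : p * T - (p * T) ^ 3 / 3 ≤ θ := by rw [hθ]; exact ts_atan_ge hpT
  unfold tsD
  rw [← hK, ← hp, ← hy, ← hT, ← hθ]
  constructor
  · have h1 : θ ≤ p * (K * n) := hθ1.trans (mul_le_mul_of_nonneg_left (hT1.trans hyK) hp0.le)
    have h2 : e * θ ≤ e * (p * (K * n)) := mul_le_mul_of_nonneg_left h1 he.le
    have h3 : e * (p * (K * n)) = Real.pi * n := by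
      rw [← hpK]; ring
    linarith
  · have h1 : (p * T) ^ 3 ≤ p ^ 3 * y ^ 3 := by
      rw [← mul_pow]
      exact pow_le_pow_left₀ hpT (mul_le_mul_of_nonneg_left hT1 hp0.le) 3
    have h2 : p * (y - y ^ 3 / 3) ≤ p * T := mul_le_mul_of_nonneg_left hT2 hp0.le
    have h3 : p * y - (p + p ^ 3) * y ^ 3 / 3 ≤ θ := by
      have : p * y - (p + p ^ 3) * y ^ 3 / 3 = p * (y - y ^ 3 / 3) - p ^ 3 * y ^ 3 / 3 := by ring
      linarith
    have h4 : e * (p * y - (p + p ^ 3) * y ^ 3 / 3) ≤ e * θ := mul_le_mul_of_nonneg_left h3 he.le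
    have h5 : y ^ 3 ≤ (K * n) ^ 3 := pow_le_pow_left₀ hy0.le hyK 3
    have h6 : Real.pi * n - e * p * y ≤ Real.pi * n * K ^ 2 / 6 := by
      have : e * p * y = e * p * n * κ := by rw [hy]; ring
      rw [this, ← hpK]
      have h7 : e * p * n * (K - K ^ 3 / 6) ≤ e * p * n * κ :=
        mul_le_mul_of_nonneg_left hK6 (by positivity)
      have h7' : e * p * n * (K - K ^ 3 / 6) =
        e * (p * K) * n - e * (p * K) * n * K ^ 2 / 6 := by ring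
      linarith
    have h8 : e * (p + p ^ 3) / 3 * y ^ 3 ≤ e * (p + p ^ 3) / 3 * (K * n) ^ 3 :=
      mul_le_mul_of_nonneg_left h5 (by positivity)
    have h9 : e * (p + p ^ 3) / 3 * (K * n) ^ 3 = Real.pi / 3 * n ^ 3 * (K ^ 2 + p ^ 2 * K ^ 2) := by
      rw [← hpK]; ring
    have h10 : Real.pi * tsW e κ / (2 * e) * n ^ 3 = Real.pi / 2 * n ^ 3 * (K ^ 2 + p ^ 2 * K ^ 2) := by
      rw [hW]; field_simp
    rw [h10]
    have h11 : n ≤ n ^ 3 := by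
      have : 0 ≤ n * (n - 1) * (n + 1) := by
        have h0 : 0 ≤ n - 1 := by linarith
        positivity
      linarith [show n * (n - 1) * (n + 1) = n ^ 3 - n by ring]
    have h13 : Real.pi * K ^ 2 / 6 * n ≤ Real.pi * K ^ 2 / 6 * n ^ 3 :=
      mul_le_mul_of_nonneg_left h11 (by positivity)
    have h14 : 0 ≤ Real.pi / 6 * n ^ 3 * (p ^ 2 * K ^ 2) := by positivity
    have h15 : e * (p * y - (p + p ^ 3) * y ^ 3 / 3) = e * p * y - e * (p + p ^ 3) / 3 * y ^ 3 := by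
      ring
    have h16 : Real.pi / 2 * n ^ 3 * (K ^ 2 + p ^ 2 * K ^ 2) =
      Real.pi * K ^ 2 / 6 * n ^ 3 + Real.pi / 6 * n ^ 3 * (p ^ 2 * K ^ 2) +
        Real.pi / 3 * n ^ 3 * (K ^ 2 + p ^ 2 * K ^ 2) := by ring
    have h17 : Real.pi * n * K ^ 2 / 6 = Real.pi * K ^ 2 / 6 * n := by ring
    rw [h15] at h4
    rw [h9] at h8
    rw [h17] at h6
    rw [h16]
    linarith

/-! ### The bounds of `R` -/

/-- `δ` -/
noncomputable def tsd (e κ : ℝ) : ℝ := 49 / 250 * √(tsW e κ) * (κ / Real.sinh κ)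

private theorem ts_N_eq (he : 0 < e) (hκ : 0 < κ) (n : ℝ) :
    tsN κ (Real.pi / (e * Real.sinh κ)) n =
      1 + tsW e κ / e * (Real.sinh (κ * n) / Real.sinh κ) ^ 2 := by
  have hK0 : 0 < Real.sinh κ := Real.sinh_pos_iff.2 hκ
  unfold tsN tsW
  field_simp

private theorem ts_W_pos (he : 0 < e) : 0 < tsW e κ := by
  have := Real.pi_pos
  unfold tsW
  positivity

private theorem ts_R_up (he : 200 ≤ e) (hκ : 0 < κ) {n : ℝ} (hn : 1 ≤ n) :
    tsR e κ (Real.pi / (e * Real.sinh κ)) n ≤ ((1 + tsd e κ ^ 2 * n ^ 2) ^ 13)⁻¹ := by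
  have he0 : 0 < e := by linarith
  have hK0 : 0 < Real.sinh κ := Real.sinh_pos_iff.2 hκ
  have hW := ts_W_pos (κ := κ) he0
  obtain ⟨W, hWd⟩ : ∃ W, W = tsW e κ := ⟨_, rfl⟩
  rw [← hWd] at hW
  have hd : tsd e κ ^ 2 = 2401 / 62500 * W * (κ / Real.sinh κ) ^ 2 := by
    unfold tsd
    rw [mul_pow, mul_pow, ← hWd, Real.sq_sqrt hW.le]
    ring
  obtain ⟨ρ, hρ⟩ : ∃ ρ, ρ = κ / Real.sinh κ := ⟨_, rfl⟩
  have hρ0 : 0 < ρ := by rw [hρ]; positivity
  rw [← hρ] at hd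
  have hn0 : 0 < n := by linarith
  -- N ≥ 1 + W ρ² n² / e
  have h1 : 1 + W * ρ ^ 2 * n ^ 2 / e ≤ tsN κ (Real.pi / (e * Real.sinh κ)) n := by
    rw [ts_N_eq he0 hκ, ← hWd]
    have h2 : κ * n ≤ Real.sinh (κ * n) := Real.self_le_sinh_iff.2 (by positivity)
    have h3 : ρ * n ≤ Real.sinh (κ * n) / Real.sinh κ := by
      rw [hρ, div_mul_eq_mul_div]
      exact div_le_div_of_nonneg_right h2 hK0.le
    have h4 : (ρ * n) ^ 2 ≤ (Real.sinh (κ * n) / Real.sinh κ) ^ 2 :=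
      pow_le_pow_left₀ (by positivity) h3 2
    have h5 := mul_le_mul_of_nonneg_left h4 (by positivity : 0 ≤ W / e)
    have h6 : W / e * (ρ * n) ^ 2 = W * ρ ^ 2 * n ^ 2 / e := by ring
    linarith
  have hy0 : 0 ≤ W * ρ ^ 2 * n ^ 2 / e := by positivity
  have hb0 : 0 < 1 + W * ρ ^ 2 * n ^ 2 / e := by linarith
  unfold tsR
  calc tsN κ (Real.pi / (e * Real.sinh κ)) n ^ (-(e / 2))
      ≤ (1 + W * ρ ^ 2 * n ^ 2 / e) ^ (-(e / 2)) :=
        Real.rpow_le_rpow_of_nonpos hb0 h1 (by linarith)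
    _ = (((1 + W * ρ ^ 2 * n ^ 2 / e) ^ (e / 26)) ^ 13)⁻¹ := by
        rw [Real.rpow_neg hb0.le, ← Real.rpow_mul_natCast hb0.le]
        congr 2
        push_cast
        ring
    _ ≤ _ := by
        have h7 : 1 + e / 26 * (W * ρ ^ 2 * n ^ 2 / e) ≤ (1 + W * ρ ^ 2 * n ^ 2 / e) ^ (e / 26) :=
          one_add_mul_self_le_rpow_one_add (by linarith) (by linarith)
        have h8 : e / 26 * (W * ρ ^ 2 * n ^ 2 / e) = 1 / 26 * (W * ρ ^ 2 * n ^ 2) := by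
          field_simp
        have h9 : 1 + tsd e κ ^ 2 * n ^ 2 ≤ (1 + W * ρ ^ 2 * n ^ 2 / e) ^ (e / 26) := by
          rw [hd]
          rw [h8] at h7
          have : 0 ≤ W * ρ ^ 2 * n ^ 2 := by positivity
          nlinarith
        apply inv_anti₀ (by positivity)
        exact pow_le_pow_left₀ (by positivity) h9 13

private theorem ts_R_low (he : 200 ≤ e) (hκ : 0 < κ) {n : ℝ} (hn : 1 ≤ n)
    (hWn : tsW e κ * n ^ 2 ≤ 8 / 5) :
    Real.exp (-(1009 / 2000 * (tsW e κ * n ^ 2))) ≤ tsR e κ (Real.pi / (e * Real.sinh κ)) n := by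
  have he0 : 0 < e := by linarith
  have hK0 : 0 < Real.sinh κ := Real.sinh_pos_iff.2 hκ
  have hκK : κ ≤ Real.sinh κ := Real.self_le_sinh_iff.2 hκ.le
  have hW := ts_W_pos (κ := κ) he0
  have hKW : Real.sinh κ ^ 2 ≤ tsW e κ / e := by
    unfold tsW
    rw [div_div, le_div_iff₀ (by positivity)]
    have := Real.pi_pos
    nlinarith [sq_nonneg Real.pi]
  obtain ⟨W, hWd⟩ : ∃ W, W = tsW e κ := ⟨_, rfl⟩
  rw [← hWd] at hW hKW hWn ⊢
  obtain ⟨K, hK⟩ : ∃ K, K = Real.sinh κ := ⟨_, rfl⟩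
  rw [← hK] at hK0 hκK hKW
  have hn0 : 0 < n := by linarith
  have hy : (κ * n) ^ 2 ≤ 1 / 125 := by
    have h1 : (κ * n) ^ 2 ≤ (K * n) ^ 2 :=
      pow_le_pow_left₀ (by positivity) (mul_le_mul_of_nonneg_right hκK hn0.le) 2
    have h2 : (K * n) ^ 2 ≤ W / e * n ^ 2 := by
      rw [mul_pow]; exact mul_le_mul_of_nonneg_right hKW (by positivity)
    have h3 : W / e * n ^ 2 = W * n ^ 2 / e := by ring
    have h4 : W * n ^ 2 / e ≤ 1 / 125 := by
      rw [div_le_iff₀ he0]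
      nlinarith
    linarith
  have hs : Real.sinh (κ * n) ^ 2 ≤ (κ * n) ^ 2 * (1009 / 1000) := by
    have hx0 : 0 ≤ κ * n := by positivity
    have h1 := ts_tanh_le hx0
    rw [Real.tanh_eq_sinh_div_cosh, div_le_iff₀ (Real.cosh_pos _)] at h1
    have h2 : Real.cosh (κ * n) ≤ Real.exp ((κ * n) ^ 2 / 2) := Real.cosh_le_exp_half_sq _
    have h3 : 0 ≤ Real.sinh (κ * n) := Real.sinh_nonneg_iff.2 hx0
    have h4 : Real.sinh (κ * n) ^ 2 ≤ (κ * n * Real.cosh (κ * n)) ^ 2 := pow_le_pow_left₀ h3 h1 2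
    have h5 : Real.cosh (κ * n) ^ 2 ≤ Real.exp ((κ * n) ^ 2 / 2) ^ 2 :=
      pow_le_pow_left₀ (Real.cosh_pos _).le h2 2
    have h6 : Real.exp ((κ * n) ^ 2 / 2) ^ 2 = Real.exp ((κ * n) ^ 2) := by
      rw [← Real.exp_nat_mul]; congr 1; push_cast; ring
    have h7 : Real.exp ((κ * n) ^ 2) ≤ 1009 / 1000 := by
      have h8 : Real.exp ((κ * n) ^ 2) ≤ Real.exp (1 / 125) := Real.exp_le_exp.2 hy
      have h9 : (1 : ℝ) - 1 / 125 ≤ Real.exp (-(1 / 125)) := by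
        have := Real.add_one_le_exp (-(1 / 125 : ℝ))
        linarith
      have h10 : Real.exp (1 / 125) * Real.exp (-(1 / 125)) = 1 := by
        rw [← Real.exp_add]; norm_num
      have h11 := Real.exp_pos (1 / 125 : ℝ)
      nlinarith
    calc Real.sinh (κ * n) ^ 2 ≤ (κ * n) ^ 2 * Real.cosh (κ * n) ^ 2 := by
          rw [← mul_pow]; exact h4
      _ ≤ (κ * n) ^ 2 * (1009 / 1000) := by
          apply mul_le_mul_of_nonneg_left _ (by positivity)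
          linarith
  have hN : tsN κ (Real.pi / (e * Real.sinh κ)) n ≤ Real.exp (1009 / 1000 * (W * n ^ 2) / e) := by
    rw [ts_N_eq he0 hκ, ← hWd, ← hK]
    have h1 : (Real.sinh (κ * n) / K) ^ 2 ≤ n ^ 2 * (1009 / 1000) := by
      rw [div_pow, div_le_iff₀ (by positivity)]
      have h2 : (κ * n) ^ 2 ≤ (K * n) ^ 2 :=
        pow_le_pow_left₀ (by positivity) (mul_le_mul_of_nonneg_right hκK hn0.le) 2
      nlinarith
    have h3 := mul_le_mul_of_nonneg_left h1 (by positivity : 0 ≤ W / e)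
    have h4 : W / e * (n ^ 2 * (1009 / 1000)) = 1009 / 1000 * (W * n ^ 2) / e := by ring
    have h5 := Real.add_one_le_exp (1009 / 1000 * (W * n ^ 2) / e)
    linarith
  unfold tsR
  have hNp := tsN_pos κ (Real.pi / (e * Real.sinh κ)) n
  have h1 : Real.exp (-(1009 / 2000 * (W * n ^ 2))) =
      Real.exp (1009 / 1000 * (W * n ^ 2) / e) ^ (-(e / 2)) := by
    rw [← Real.exp_mul]
    congr 1
    field_simp
    ring
  rw [h1]
  exact Real.rpow_le_rpow_of_nonpos (by linarith) hN (by linarith)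

/-! ### The sums -/

private theorem ts_geo {δ : ℝ} (hδ : 0 < δ) (N : ℕ) :
    ∑ k ∈ Finset.range N, (1 + δ ^ 2 * ((k : ℝ) + 1) ^ 2)⁻¹ ≤ 2 / δ := by
  have key : ∑ k ∈ Finset.range N, (1 + δ ^ 2 * ((k : ℝ) + 1) ^ 2)⁻¹ ≤
      2 / δ * (1 - (1 + δ * N)⁻¹) := by
    induction N with
    | zero => simp
    | succ N ih =>
      rw [Finset.sum_range_succ]
      have ha : 0 < 1 + δ * (N : ℝ) := by positivity
      have hb : 0 < 1 + δ * ((N : ℝ) + 1) := by positivity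
      have h1 : (1 + δ ^ 2 * ((N : ℝ) + 1) ^ 2)⁻¹ ≤
          2 / δ * ((1 + δ * N)⁻¹ - (1 + δ * ((N : ℝ) + 1))⁻¹) := by
        have h2 : 2 / δ * ((1 + δ * (N : ℝ))⁻¹ - (1 + δ * ((N : ℝ) + 1))⁻¹) =
            2 / ((1 + δ * N) * (1 + δ * ((N : ℝ) + 1))) := by
          field_simp
          ring
        rw [h2, inv_eq_one_div, div_le_div_iff₀ (by positivity) (by positivity)]
        have h3 : (1 + δ * (N : ℝ)) * (1 + δ * ((N : ℝ) + 1)) ≤
            (1 + δ * ((N : ℝ) + 1)) * (1 + δ * ((N : ℝ) + 1)) :=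
          mul_le_mul_of_nonneg_right (by nlinarith) hb.le
        nlinarith [sq_nonneg (1 - δ * ((N : ℝ) + 1))]
      have h4 : 2 / δ * (1 - (1 + δ * ((N + 1 : ℕ) : ℝ))⁻¹) =
          2 / δ * (1 - (1 + δ * N)⁻¹) +
            2 / δ * ((1 + δ * N)⁻¹ - (1 + δ * ((N : ℝ) + 1))⁻¹) := by
        push_cast
        ring
      rw [h4]
      linarith
  refine key.trans ?_
  have h1 : 0 ≤ (1 + δ * (N : ℝ))⁻¹ := by positivity
  have h2 : 0 ≤ 2 / δ := by positivity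
  nlinarith

private theorem ts_six {δ n : ℝ} (hδ : 0 < δ) (hn : 0 < n) :
    n ^ 6 * ((1 + δ ^ 2 * n ^ 2) ^ 13)⁻¹ ≤ ((256 / 27) ^ 3 * δ ^ 6)⁻¹ * (1 + δ ^ 2 * n ^ 2)⁻¹ := by
  obtain ⟨X, hXd⟩ : ∃ X, X = δ ^ 2 * n ^ 2 := ⟨_, rfl⟩
  have hX0 : 0 < X := by rw [hXd]; positivity
  have h1 : 256 / 27 * X ≤ (1 + X) ^ 4 := by
    have h2 : (1 + X) ^ 4 - 256 / 27 * X = (3 * X - 1) ^ 2 * (3 * X ^ 2 + 14 * X + 27) / 27 := by
      ring
    have h3 : 0 ≤ (3 * X - 1) ^ 2 * (3 * X ^ 2 + 14 * X + 27) / 27 := by positivity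
    linarith
  have h2 : (256 / 27 * X) ^ 3 ≤ ((1 + X) ^ 4) ^ 3 := pow_le_pow_left₀ (by positivity) h1 3
  rw [← mul_inv, ← div_eq_mul_inv, inv_eq_one_div, ← hXd,
    div_le_div_iff₀ (by positivity) (by positivity)]
  have h3 : n ^ 6 * ((256 / 27) ^ 3 * δ ^ 6 * (1 + X)) = (256 / 27 * X) ^ 3 * (1 + X) := by
    rw [hXd]; ring
  have h4 : 1 * (1 + X) ^ 13 = ((1 + X) ^ 4) ^ 3 * (1 + X) := by
    ring
  rw [h3, h4]
  exact mul_le_mul_of_nonneg_right h2 (by positivity)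

private theorem ts_sum (he : 200 ≤ e) (hκ : 0 < κ) (N : ℕ) :
    ∑ k ∈ Finset.range N, tsR e κ (Real.pi / (e * Real.sinh κ)) (k + 1) *
      (tsD e κ (Real.pi / (e * Real.sinh κ)) (k + 1) ^ 2 / 2) ≤
      Real.pi ^ 2 * tsW e κ ^ 2 / (4 * (256 / 27) ^ 3 * e ^ 2 * tsd e κ ^ 7) := by
  have he0 : 0 < e := by linarith
  have hK0 : 0 < Real.sinh κ := Real.sinh_pos_iff.2 hκ
  have hW := ts_W_pos (κ := κ) he0
  have hd : 0 < tsd e κ := by
    unfold tsd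
    have := Real.sqrt_pos.2 hW
    positivity
  have hpi := Real.pi_pos
  have h1 : ∀ k : ℕ, tsR e κ (Real.pi / (e * Real.sinh κ)) (k + 1) *
      (tsD e κ (Real.pi / (e * Real.sinh κ)) (k + 1) ^ 2 / 2) ≤
      Real.pi ^ 2 * tsW e κ ^ 2 / (8 * e ^ 2) * ((256 / 27) ^ 3 * tsd e κ ^ 6)⁻¹ *
        (1 + tsd e κ ^ 2 * ((k : ℝ) + 1) ^ 2)⁻¹ := by
    intro k
    have hn : 1 ≤ (k : ℝ) + 1 := by
      have : (0 : ℝ) ≤ k := Nat.cast_nonneg k
      linarith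
    obtain ⟨hD0, hD1⟩ := ts_delta he0 hκ hn
    have hR := ts_R_up he hκ hn
    have h2 : tsD e κ (Real.pi / (e * Real.sinh κ)) (k + 1) ^ 2 ≤
        (Real.pi * tsW e κ / (2 * e) * ((k : ℝ) + 1) ^ 3) ^ 2 := pow_le_pow_left₀ hD0 hD1 2
    have h3 := ts_six hd (by linarith : 0 < (k : ℝ) + 1)
    calc _ ≤ ((1 + tsd e κ ^ 2 * ((k : ℝ) + 1) ^ 2) ^ 13)⁻¹ *
          ((Real.pi * tsW e κ / (2 * e) * ((k : ℝ) + 1) ^ 3) ^ 2 / 2) := by
            apply mul_le_mul hR (by linarith) (by positivity) (by positivity)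
      _ = Real.pi ^ 2 * tsW e κ ^ 2 / (8 * e ^ 2) *
          (((k : ℝ) + 1) ^ 6 * ((1 + tsd e κ ^ 2 * ((k : ℝ) + 1) ^ 2) ^ 13)⁻¹) := by
            field_simp
            ring
      _ ≤ Real.pi ^ 2 * tsW e κ ^ 2 / (8 * e ^ 2) * (((256 / 27) ^ 3 * tsd e κ ^ 6)⁻¹ *
        (1 + tsd e κ ^ 2 * ((k : ℝ) + 1) ^ 2)⁻¹) := mul_le_mul_of_nonneg_left h3 (by positivity)
      _ = _ := by ring
  calc _ ≤ ∑ k ∈ Finset.range N, Real.pi ^ 2 * tsW e κ ^ 2 / (8 * e ^ 2) *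
        ((256 / 27) ^ 3 * tsd e κ ^ 6)⁻¹ * (1 + tsd e κ ^ 2 * ((k : ℝ) + 1) ^ 2)⁻¹ :=
        Finset.sum_le_sum (fun k _ => h1 k)
    _ = Real.pi ^ 2 * tsW e κ ^ 2 / (8 * e ^ 2) * ((256 / 27) ^ 3 * tsd e κ ^ 6)⁻¹ *
        ∑ k ∈ Finset.range N, (1 + tsd e κ ^ 2 * ((k : ℝ) + 1) ^ 2)⁻¹ := by
        rw [Finset.mul_sum]
    _ ≤ Real.pi ^ 2 * tsW e κ ^ 2 / (8 * e ^ 2) * ((256 / 27) ^ 3 * tsd e κ ^ 6)⁻¹ * (2 / tsd e κ) :=
        mul_le_mul_of_nonneg_left (ts_geo hd N) (by positivity)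
    _ = _ := by
        field_simp
        ring

private theorem ts_num (he : 200 ≤ e) (hκ : 0 < κ) (hW1 : tsW e κ ≤ 8 / 5)
    (h9 : 4900 ≤ e ^ 2 * tsW e κ) :
    Real.pi ^ 2 * tsW e κ ^ 2 / (4 * (256 / 27) ^ 3 * e ^ 2 * tsd e κ ^ 7) ≤ 29 / 500 / √(tsW e κ) := by
  have he0 : 0 < e := by linarith
  have hK0 : 0 < Real.sinh κ := Real.sinh_pos_iff.2 hκ
  have hW := ts_W_pos (κ := κ) he0
  have hKW : Real.sinh κ ^ 2 ≤ tsW e κ / e := by
    unfold tsW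
    rw [div_div, le_div_iff₀ (by positivity)]
    nlinarith [sq_nonneg Real.pi]
  have hρ1 : 998 / 1000 ≤ κ / Real.sinh κ := by
    rw [le_div_iff₀ hK0]
    have h1 := ts_sinh hκ.le
    have h2 : tsW e κ / e ≤ 1 / 125 := by
      rw [div_le_iff₀ he0]
      linarith
    have h3 : Real.sinh κ ^ 3 ≤ 1 / 125 * Real.sinh κ := by
      have : Real.sinh κ ^ 3 = Real.sinh κ ^ 2 * Real.sinh κ := by ring
      rw [this]
      exact mul_le_mul_of_nonneg_right (by linarith) hK0.le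
    linarith
  have hδ : tsd e κ = 49 / 250 * √(tsW e κ) * (κ / Real.sinh κ) := rfl
  obtain ⟨ρ, hρ⟩ : ∃ ρ, ρ = κ / Real.sinh κ := ⟨_, rfl⟩
  obtain ⟨s, hs⟩ : ∃ s, s = √(tsW e κ) := ⟨_, rfl⟩
  have hs0 : 0 < s := by rw [hs]; exact Real.sqrt_pos.2 hW
  have hs2 : tsW e κ = s ^ 2 := by rw [hs, Real.sq_sqrt hW.le]
  rw [← hρ] at hρ1 hδ
  rw [← hs] at hδ
  rw [← hs, hδ, hs2]
  rw [hs2] at h9
  have hρ7 : (998 / 1000 : ℝ) ^ 7 ≤ ρ ^ 7 := pow_le_pow_left₀ (by norm_num) hρ1 7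
  have hρ0 : 0 < ρ := by linarith
  have hpi : Real.pi ^ 2 ≤ 9.87 := by
    have h1 := Real.pi_lt_d4
    have h2 := Real.pi_pos
    nlinarith
  rw [div_div, div_le_div_iff₀ (by positivity) (by positivity)]
  have h1 : 29 * (4 * (256 / 27) ^ 3 * e ^ 2 * (49 / 250 * s * ρ) ^ 7) =
      29 * (4 * (256 / 27) ^ 3) * (49 / 250) ^ 7 * (e ^ 2 * s ^ 2) * ρ ^ 7 * s ^ 5 := by ring
  have h2 : Real.pi ^ 2 * (s ^ 2) ^ 2 * (500 * s) = 500 * Real.pi ^ 2 * s ^ 5 := by ring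
  rw [h1, h2]
  apply mul_le_mul_of_nonneg_right _ (by positivity)
  have h3 : (4900 : ℝ) * (998 / 1000) ^ 7 ≤ e ^ 2 * s ^ 2 * ρ ^ 7 :=
    mul_le_mul h9 hρ7 (by positivity) (by positivity)
  have h4 : 500 * Real.pi ^ 2 ≤ 500 * 9.87 := by linarith
  have h5 : 29 * (4 * (256 / 27) ^ 3) * (49 / 250) ^ 7 * (e ^ 2 * s ^ 2) * ρ ^ 7 =
      29 * (4 * (256 / 27) ^ 3) * (49 / 250) ^ 7 * (e ^ 2 * s ^ 2 * ρ ^ 7) := by ring
  rw [h5]
  have h6 : (29 * (4 * (256 / 27) ^ 3) * (49 / 250) ^ 7 : ℝ) * (4900 * (998 / 1000) ^ 7) ≤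
      29 * (4 * (256 / 27) ^ 3) * (49 / 250) ^ 7 * (e ^ 2 * s ^ 2 * ρ ^ 7) :=
    mul_le_mul_of_nonneg_left h3 (by norm_num)
  refine le_trans (h4.trans ?_) h6
  norm_num

private theorem ts_exp1 : (59 / 100 : ℝ) ≤ Real.exp (-(1009 / 2000)) := by
  have h1 : (93693 / 100000 : ℝ) ≤ Real.exp (-(1009 / 16000)) := by
    have := Real.add_one_le_exp (-(1009 / 16000 : ℝ))
    linarith
  have h2 : Real.exp (-(1009 / 2000)) = Real.exp (-(1009 / 16000)) ^ 8 := by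
    rw [← Real.exp_nat_mul]; norm_num
  rw [h2]
  calc (59 / 100 : ℝ) ≤ (93693 / 100000) ^ 8 := by norm_num
    _ ≤ _ := pow_le_pow_left₀ (by norm_num) h1 8

private theorem ts_exp2 : (3 / 10 : ℝ) ≤ Real.exp (-(8072 / 10000)) := by
  have h1 : (5964 / 10000 : ℝ) ≤ Real.exp (-(4036 / 10000)) := by
    have := Real.add_one_le_exp (-(4036 / 10000 : ℝ))
    linarith
  have h2 : Real.exp (-(8072 / 10000)) = Real.exp (-(4036 / 10000)) ^ 2 := by
    rw [← Real.exp_nat_mul]; norm_num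
  rw [h2]
  calc (3 / 10 : ℝ) ≤ (5964 / 10000) ^ 2 := by norm_num
    _ ≤ _ := pow_le_pow_left₀ (by norm_num) h1 2

private theorem ts_P (he : 200 ≤ e) (hκ : 0 < κ) (hW1 : tsW e κ ≤ 8 / 5) :
    ∃ N : ℕ, 29 / 100 / √(tsW e κ) ≤
      ∑ k ∈ Finset.range N, tsR e κ (Real.pi / (e * Real.sinh κ)) (k + 1) := by
  have he0 : 0 < e := by linarith
  have hW := ts_W_pos (κ := κ) he0
  have hs0 : 0 < √(tsW e κ) := Real.sqrt_pos.2 hW
  have hs2 : √(tsW e κ) ^ 2 = tsW e κ := Real.sq_sqrt hW.le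
  rcases le_or_gt (tsW e κ) 1 with h | h
  · obtain ⟨s, hs⟩ : ∃ s, s = √(tsW e κ) := ⟨_, rfl⟩
    rw [← hs] at hs0 hs2 ⊢
    have hs1 : s ≤ 1 := by nlinarith
    refine ⟨⌊1 / s⌋₊, ?_⟩
    have hN1 : (⌊1 / s⌋₊ : ℝ) ≤ 1 / s := Nat.floor_le (by positivity)
    have hN2 : 1 / s < ⌊1 / s⌋₊ + 1 := Nat.lt_floor_add_one _
    have hN3 : 1 ≤ ⌊1 / s⌋₊ := by
      rw [Nat.one_le_floor_iff]
      rw [le_div_iff₀ hs0]; linarith
    have hN4 : (1 : ℝ) ≤ ⌊1 / s⌋₊ := by exact_mod_cast hN3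
    have hterm : ∀ k ∈ Finset.range ⌊1 / s⌋₊, (59 / 100 : ℝ) ≤
        tsR e κ (Real.pi / (e * Real.sinh κ)) (k + 1) := by
      intro k hk
      rw [Finset.mem_range] at hk
      have hk1 : (k : ℝ) + 1 ≤ ⌊1 / s⌋₊ := by exact_mod_cast hk
      have hk0 : (0 : ℝ) ≤ k := Nat.cast_nonneg k
      have hk2 : s * ((k : ℝ) + 1) ≤ 1 := by
        have := hk1.trans hN1
        rw [le_div_iff₀ hs0] at this
        linarith
      have hk3 : tsW e κ * ((k : ℝ) + 1) ^ 2 ≤ 1 := by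
        rw [← hs2, ← mul_pow]
        exact pow_le_one₀ (by positivity) hk2
      have h1 := ts_R_low he hκ (by linarith : 1 ≤ (k : ℝ) + 1) (by linarith)
      have h2 : Real.exp (-(1009 / 2000)) ≤
          Real.exp (-(1009 / 2000 * (tsW e κ * ((k : ℝ) + 1) ^ 2))) :=
        Real.exp_le_exp.2 (by linarith)
      linarith [ts_exp1]
    have h3 := Finset.card_nsmul_le_sum _ _ _ hterm
    rw [Finset.card_range, nsmul_eq_mul] at h3
    refine le_trans ?_ h3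
    rw [div_le_iff₀ hs0]
    have h4 : 1 ≤ 2 * (⌊1 / s⌋₊ : ℝ) * s := by
      rw [div_lt_iff₀ hs0] at hN2
      nlinarith
    nlinarith
  · refine ⟨1, ?_⟩
    rw [Finset.sum_range_one]
    have h1 := ts_R_low he hκ (le_refl (1 : ℝ)) (by linarith)
    have h2 : Real.exp (-(8072 / 10000)) ≤
        Real.exp (-(1009 / 2000 * (tsW e κ * 1 ^ 2))) :=
      Real.exp_le_exp.2 (by linarith)
    have h3 : 29 / 100 / √(tsW e κ) ≤ 3 / 10 := by
      have : 1 ≤ √(tsW e κ) := by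
        rw [Real.one_le_sqrt]; exact h.le
      rw [div_le_iff₀ hs0]
      linarith
    have h4 := ts_exp2
    have h5 : ((0 : ℕ) : ℝ) + 1 = 1 := by simp
    rw [h5]
    linarith

/-! ### The series -/

private theorem ts_mul_cpow {x y : ℂ} (hx : 0 < x.re) (hy : 0 < y.re) (c : ℂ) :
    (x * y) ^ c = x ^ c * y ^ c := by
  have hx0 : x ≠ 0 := by
    intro h
    rw [h, zero_re] at hx
    exact lt_irrefl _ hx
  have hy0 : y ≠ 0 := by
    intro h
    rw [h, zero_re] at hy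
    exact lt_irrefl _ hy
  have a1 := abs_lt.1 (abs_arg_lt_pi_div_two_iff.2 (Or.inl hx))
  have a2 := abs_lt.1 (abs_arg_lt_pi_div_two_iff.2 (Or.inl hy))
  have hl := Complex.log_mul hx0 hy0 ⟨by linarith [a1.1, a2.1], by linarith [a1.2, a2.2]⟩
  rw [cpow_def_of_ne_zero (mul_ne_zero hx0 hy0), cpow_def_of_ne_zero hx0,
    cpow_def_of_ne_zero hy0, hl, add_mul, exp_add]

private theorem ts_base_succ {κ : ℝ} (hκ : 0 < κ) {τ : ℂ} (h : 0 ≤ τ.re) (k : ℕ) :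
    (Real.cosh (κ * (k + 1 : ℕ)) : ℂ) + τ * (Real.sinh (κ * (k + 1 : ℕ)) : ℂ) =
      Qk κ τ * ((Real.cosh (κ * k) : ℂ) + shf κ τ * (Real.sinh (κ * k) : ℂ)) := by
  have hd := shf_den hκ h
  have hc : (Real.cosh κ : ℂ) ≠ 0 := ofReal_ne_zero.2 (Real.cosh_pos κ).ne'
  have hQ : Qk κ τ = (Real.cosh κ : ℂ) * (1 + (Real.tanh κ : ℂ) * τ) := by
    unfold Qk
    rw [Real.tanh_eq_sinh_div_cosh]
    push_cast at hc ⊢
    field_simp
  have hQs : Qk κ τ * shf κ τ = (Real.cosh κ : ℂ) * τ + (Real.sinh κ : ℂ) := by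
    rw [hQ]
    unfold shf
    rw [mul_assoc, mul_div_cancel₀ _ hd, Real.tanh_eq_sinh_div_cosh]
    push_cast at hc ⊢
    field_simp
  have e1 : κ * ((k + 1 : ℕ) : ℝ) = κ * k + κ := by
    push_cast
    ring
  rw [mul_add, ← mul_assoc, hQs, e1, Real.cosh_add, Real.sinh_add]
  unfold Qk
  push_cast
  ring

private theorem ts_series (he : 0 < e) (hκ : 0 < κ) {t : ℂ} (h : 0 ≤ t.re) :
    Summable (fun k => ‖tsA e κ t k‖) ∧
      exp (-(e * log (Qk κ t))) * fT e κ (shf κ t) = ∑' k, tsA e κ t k := by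
  have hQ : 0 < (Qk κ t).re := lt_of_lt_of_le (Real.cosh_pos _) (Qk_re hκ h)
  have hQ0 : Qk κ t ≠ 0 := by
    intro h0
    rw [h0, zero_re] at hQ
    exact lt_irrefl _ hQ
  have hs := shf_re hκ h
  constructor
  · have h1 : Summable (fun k : ℕ => ‖(-1 : ℂ) ^ k *
        ((Real.cosh (κ * k) : ℂ) + t * (Real.sinh (κ * k) : ℂ)) ^ (-(e : ℂ))‖) :=
      Summable.of_nonneg_of_le (fun _ => norm_nonneg _) (fun k => norm_term_le he hκ h k)
        (summable_bound he hκ)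
    have h2 := (summable_nat_add_iff 1).2 h1
    refine h2.congr (fun k => ?_)
    unfold tsA
    rw [norm_mul, norm_mul, norm_pow, norm_pow, norm_neg, norm_one, one_pow, one_pow]
  · have h1 : exp (-(e * log (Qk κ t))) = Qk κ t ^ (-(e : ℂ)) := by
      rw [cpow_def_of_ne_zero hQ0]
      congr 1
      ring
    rw [h1]
    unfold fT
    rw [← tsum_mul_left]
    apply tsum_congr
    intro k
    unfold tsA
    have hb : 0 < ((Real.cosh (κ * k) : ℂ) + shf κ t * (Real.sinh (κ * k) : ℂ)).re :=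
      lt_of_lt_of_le (Real.cosh_pos _) (re_base hκ hs.le k)
    rw [ts_base_succ hκ h k, ts_mul_cpow hQ hb]
    ring

/-- **The value at `β t0 = iπ`.** -/
theorem test_re (he : 200 ≤ e) (hκ : 0 < κ)
    (hW : (e * Real.sinh κ) ^ 2 + Real.pi ^ 2 ≤ 8 / 5 * e)
    (h9 : 4900 ≤ e * ((e * Real.sinh κ) ^ 2 + Real.pi ^ 2)) {t0 : ℂ}
    (ht0 : t0 = ((Real.pi / (e * Real.sinh κ) : ℝ) : ℂ) * I) :
    (exp (-(e * log (Qk κ t0))) * fT e κ (shf κ t0)).re ≤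
      -(4 / 5) * ‖exp (-(e * log (Qk κ t0))) * fT e κ (shf κ t0)‖ := by
  have he0 : 0 < e := by linarith
  have hre : t0.re = 0 := by rw [ht0, re_ofReal_mul, I_re, mul_zero]
  have hW1 : tsW e κ ≤ 8 / 5 := by
    unfold tsW
    rw [div_le_iff₀ he0]
    exact hW
  have h9' : 4900 ≤ e ^ 2 * tsW e κ := by
    have : e ^ 2 * tsW e κ = e * ((e * Real.sinh κ) ^ 2 + Real.pi ^ 2) := by
      unfold tsW
      field_simp
    rw [this]
    exact h9
  obtain ⟨hS, hH⟩ := ts_series he0 hκ (t := t0) (by rw [hre])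
  rw [hH]
  obtain ⟨p, hp⟩ : ∃ p : ℝ, p = Real.pi / (e * Real.sinh κ) := ⟨_, rfl⟩
  have hn : ∀ k, ‖tsA e κ t0 k‖ = tsR e κ p (k + 1) := by
    intro k
    rw [ht0, ← hp]
    exact (ts_term e κ p k).1
  have hr : ∀ k, (tsA e κ t0 k).re = -(tsR e κ p (k + 1) * Real.cos (tsD e κ p (k + 1))) := by
    intro k
    rw [ht0, ← hp]
    exact (ts_term e κ p k).2
  have hS' : Summable (fun k : ℕ => tsR e κ p (k + 1)) := hS.congr (fun k => hn k)
  have hnorm : ‖∑' k, tsA e κ t0 k‖ ≤ ∑' k : ℕ, tsR e κ p (k + 1) := by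
    refine (norm_tsum_le_tsum_norm hS).trans ?_
    rw [tsum_congr hn]
  have hSA : Summable (tsA e κ t0) := hS.of_norm
  have hHre : HasSum (fun k => (tsA e κ t0 k).re) (∑' k, tsA e κ t0 k).re :=
    Complex.hasSum_re hSA.hasSum
  have hlim1 := hHre.tendsto_sum_nat
  have hlim2 := hS'.hasSum.tendsto_sum_nat
  have hs0 : 0 < √(tsW e κ) := Real.sqrt_pos.2 (ts_W_pos he0)
  have hfin : ∀ N : ℕ, ∑ k ∈ Finset.range N, (tsA e κ t0 k).re +
      ∑ k ∈ Finset.range N, tsR e κ p (k + 1) ≤ 29 / 500 / √(tsW e κ) := by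
    intro N
    rw [← Finset.sum_add_distrib]
    have h1 := (ts_sum he hκ N).trans (ts_num he hκ hW1 h9')
    rw [← hp] at h1
    refine le_trans (Finset.sum_le_sum fun k _ => ?_) h1
    rw [hr k]
    have h2 := Real.one_sub_sq_div_two_le_cos (x := tsD e κ p (k + 1))
    have h3 := tsR_pos e κ p (k + 1)
    nlinarith
  have hlim : (∑' k, tsA e κ t0 k).re + ∑' k : ℕ, tsR e κ p (k + 1) ≤ 29 / 500 / √(tsW e κ) :=
    le_of_tendsto' (hlim1.add hlim2) hfin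
  obtain ⟨N, hN⟩ := ts_P he hκ hW1
  rw [← hp] at hN
  have hP : ∑ k ∈ Finset.range N, tsR e κ p (k + 1) ≤ ∑' k : ℕ, tsR e κ p (k + 1) :=
    hS'.sum_le_tsum _ (fun k _ => (tsR_pos e κ p (k + 1)).le)
  have h5 : 29 / 500 / √(tsW e κ) = (29 / 100 / √(tsW e κ)) / 5 := by ring
  rw [h5] at hlim
  linarith

end Pool.Agent.helper31.EQB
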