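import Pool.Agent.helper31.EQB.FirstC
import Pool.Agent.helper31.EQB.TestS

/-!
# EQB-15: the test at the end of the segment (`v = π`) and `|ρ| < 1` at its start

`s0 = shf κ t0`, `t0 = iπ/β = t00 e κ π`, `Hr = exp (-e log Q(t0)) f(s0)` (`test_re`: `Re Hr ≤ -(4/5)|Hr|`).
`F = Fc e κ c χ = f(c)(1 + qq χ) = exp (LF c χ - LA)`, `f(s0) = exp (LF s0 0 - LA)`; `radH = N²`, `N = D - √h γ i v/e`
(`first_alg`; `γ = ga c χ = e^(-x)`, `x = LF c χ/e`, `|x| ≤ f ≤ 1/18`), `Re N > 0`, so `radH^(e/2) = exp (e log N)` and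
`H0 = F radH^(e/2) = Hr exp (δ + e log (N Q0))`, `δ = LF c χ - LF s0 0`, `|δ| ≤ ΔF`, `Q0 = Qk κ t0 = c + i v/e`
(`log (N Q0) = log N + log Q0`: both have positive real part and small argument).
`ξ = N Q0 - 1`, `e ξ = v²/(2e) + i v x + e (D c - 1) + (v²/e)(√h γ - 1/2) + i v (D - √h γ c - x)`:
* `|v²/(2e) + i v x| = (v/e) |v/2 + i LF| ≤ (v/e)(√(v²/4 + F²) + ΔF)` (`LF = LF0 + δ`, `Im LF0 ∈ [0, v]`, `0 ≤ Re LF0 ≤ F`);
* `D - √h γ c - x = (D-1) + (1-γ-x) + γ (1 - √h c)`: `|D-1| ≤ .562 V/e`, `|1-γ-x| ≤ (f²/2) e^f ≤ .53 f²`, `|1-√h c| ≤ 2/5 K²`;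
* `e (D c - 1)`: `D = 1 - G/2 - δ1`, `|δ1| ≤ .158 V²/e²`, `(D-1)c + (c-1) = (h/2)[K² (1 - c γ²) - c γ² v²/e²] - c δ1`
  (`c - 1 = h K²/2`, `G = h γ² (K² + v²/e²)`), `|1 - cγ²| ≤ 2.12 f + .56 K²`;
* the `v²` terms: `|√h γ - (h/2) c γ² - 1/2| ≤ .56 f² + .3 K²` (`γ - γ²/2 - 1/2 = -(1-γ)²/2`, `|1-√h| ≤ K²/7`, `|hc - 1| ≤ K²/4`).
`|log (1+ξ)| ≤ (101/100)|ξ|`.
Finally `Re w ≤ -(4/5)|w|`, `w ≠ 0`, `|δ'| ≤ 9/10` imply `Re (w e^δ') < 0` (`arccos (4/5) + 9/10 < π/2`).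
-/

namespace Pool.Agent.helper31.EQB

open Complex ComplexConjugate Set Filter Topology
open Pool.Agent.helper31.EQ.Y Pool.Agent.helper31.EQ.R
open Pool.Agent.helper12.EQL Pool.Agent.helper12.RP Pool.Agent.helper12.FF Pool.Agent.helper12.RS

variable {e κ : ℝ}

private theorem cos_gt {θ : ℝ} (h : |θ| ≤ 9 / 10) : 3 / 5 < Real.cos θ := by
  have h1 : Real.cos (9 / 10) ≤ Real.cos θ := by
    rw [← Real.cos_abs θ]
    apply Real.cos_le_cos_of_nonneg_of_le_pi (abs_nonneg _) _ h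
    have := Real.pi_gt_three
    linarith
  have h2 : (0.896 : ℝ) ≤ Real.cos (9 / 20) := by
    have := (abs_le.1 (Real.cos_bound (x := 9 / 20) (by rw [abs_of_nonneg] <;> norm_num))).1
    rw [abs_of_nonneg (by norm_num)] at this
    norm_num at this ⊢
    linarith
  have h3 : Real.cos (9 / 10) = 2 * Real.cos (9 / 20) ^ 2 - 1 := by
    rw [← Real.cos_two_mul]
    norm_num
  have h4 : (0.896 : ℝ) ^ 2 ≤ Real.cos (9 / 20) ^ 2 := by gcongr
  rw [h3] at h1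
  norm_num at h4
  linarith

/-- rotation by less than `π/2 - arccos (4/5)` -/
theorem rot_neg {w δ : ℂ} (hw : w ≠ 0) (h : w.re ≤ -(4 / 5) * ‖w‖) (hδ : ‖δ‖ ≤ 9 / 10) :
    (w * exp δ).re < 0 := by
  have hn : 0 < ‖w‖ := norm_pos_iff.2 hw
  have hθ : |δ.im| ≤ 9 / 10 := (Complex.abs_im_le_norm δ).trans hδ
  have hc := cos_gt hθ
  have hs : |Real.sin δ.im| < 4 / 5 := by
    rw [← sq_lt_sq₀ (abs_nonneg _) (by norm_num), sq_abs]
    have := Real.sin_sq_add_cos_sq δ.im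
    nlinarith
  have hi : |w.im| ≤ 3 / 5 * ‖w‖ := by
    rw [← sq_le_sq₀ (abs_nonneg _) (by positivity), sq_abs]
    have h1 : ‖w‖ ^ 2 = w.re ^ 2 + w.im ^ 2 := by
      rw [← Complex.normSq_eq_norm_sq, Complex.normSq_apply]; ring
    have h2 : (4 / 5 * ‖w‖) ^ 2 ≤ w.re ^ 2 := by
      rw [← neg_sq w.re]
      apply pow_le_pow_left₀ (by positivity)
      linarith
    nlinarith
  rw [Complex.mul_re, Complex.exp_re, Complex.exp_im]
  have hE := Real.exp_pos δ.re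
  have h1 : w.re * Real.cos δ.im - w.im * Real.sin δ.im < 0 := by
    have h2 : w.re * Real.cos δ.im ≤ -(4 / 5) * ‖w‖ * Real.cos δ.im :=
      mul_le_mul_of_nonneg_right h (by linarith)
    have h3 : -(w.im * Real.sin δ.im) ≤ 3 / 5 * ‖w‖ * (4 / 5) := by
      refine (neg_le_abs _).trans ?_
      rw [abs_mul]
      exact mul_le_mul hi hs.le (abs_nonneg _) (by positivity)
    have h4 : 4 / 5 * ‖w‖ * (3 / 5) < 4 / 5 * ‖w‖ * Real.cos δ.im :=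
      mul_lt_mul_of_pos_left hc (by positivity)
    linarith
  have h5 : w.re * (Real.exp δ.re * Real.cos δ.im) - w.im * (Real.exp δ.re * Real.sin δ.im) =
      Real.exp δ.re * (w.re * Real.cos δ.im - w.im * Real.sin δ.im) := by ring
  rw [h5]
  exact mul_neg_of_pos_of_neg hE h1

/-- `|ρ| < 1` -/
theorem rho_lt {v a : ℝ} {c χ : ℂ} (H : FH e κ v a c χ) : ‖rho e κ (Fc e κ c χ)‖ < 1 := by
  have he : 0 < e := by linarith [H.he]
  obtain ⟨h1, h2, h3, -, h5, h6, -⟩ := hh_facts H.hκ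
  rw [rho_Fc he H.hκ H.hs H.hχ, norm_mul, Complex.norm_real, Real.norm_of_nonneg h5.le]
  have hK0 : 0 < Real.sinh κ := Real.sinh_pos_iff.2 H.hκ
  have h7 : k2 κ ≤ 1 / 10 := by
    rw [h6]
    have h8 : √(hh κ) ≤ 1 := Real.sqrt_le_one.2 h3
    calc √(hh κ) * Real.sinh κ ≤ 1 * (1 / 10) :=
          mul_le_mul h8 H.hK hK0.le (by norm_num)
      _ = _ := by norm_num
  have h9 : ‖ga e κ c χ‖ ≤ 1.0572 := fh_norm he H.hF H.a1
  calc k2 κ * ‖ga e κ c χ‖ ≤ 1 / 10 * 1.0572 := mul_le_mul h7 h9 (norm_nonneg _) (by norm_num)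
    _ < 1 := by norm_num

/-! ### the test -/

private theorem exp_two {u : ℝ} (h0 : 0 ≤ u) (h1 : u ≤ 1 / 18) :
    Real.exp u - 1 - u ≤ 53 / 100 * u ^ 2 := by
  have h := Real.exp_bound' h0 (by linarith) (n := 3) (by norm_num)
  simp only [Finset.sum_range_succ, Finset.sum_range_zero, Nat.factorial] at h
  norm_num at h
  have h2 : u ^ 3 ≤ 1 / 18 * u ^ 2 := by
    have : u ^ 3 = u * u ^ 2 := by ring
    rw [this]
    exact mul_le_mul_of_nonneg_right h1 (by positivity)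
  nlinarith [sq_nonneg u]

private theorem exp_lin {x : ℂ} {f : ℝ} (hx : ‖x‖ ≤ f) (hf : f ≤ 1 / 18) :
    ‖1 - exp (-x) - x‖ ≤ 53 / 100 * f ^ 2 := by
  have h := norm_exp_sub_sum_le_exp_norm_sub_sum (-x) 2
  simp only [Finset.sum_range_succ, Finset.sum_range_zero, Nat.factorial] at h
  norm_num at h
  have h1 : 1 - exp (-x) - x = -(exp (-x) - (1 + -x)) := by ring
  have h2 := exp_two (norm_nonneg x) (hx.trans hf)
  have h3 : ‖x‖ ^ 2 ≤ f ^ 2 := pow_le_pow_left₀ (norm_nonneg x) hx 2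
  rw [h1, norm_neg]
  have h4 : exp (-x) - (1 + -x) = cexp (-x) - (1 + -x) := rfl
  linarith

private theorem five (a b c d f : ℂ) : ‖a + b + c + d - f‖ ≤ ‖a‖ + ‖b‖ + ‖c‖ + ‖d‖ + ‖f‖ := by
  have h1 := norm_sub_le (a + b + c + d) f
  have h2 := norm_add_le (a + b + c) d
  have h3 := norm_add_le (a + b) c
  have h4 := norm_add_le a b
  linarith

/-- the estimate of `e ξ` -/
private theorem ft_core {e K C h q ν v V f F2 ΔF : ℝ} {x γ D G L0 δ : ℂ} (he : 0 < e)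
    (hν : v = e * ν) (hv : 0 ≤ v) (hV : V = e * (K ^ 2 + ν ^ 2)) (hVe : K ^ 2 + ν ^ 2 ≤ 1 / 100)
    (hC1 : 1 ≤ C) (hhK : C - 1 = h * K ^ 2 / 2) (hh : h = 2 / (C + 1)) (hq0 : 0 < q)
    (hq : q ^ 2 = h) (hx : ‖x‖ ≤ f) (hf1 : f ≤ 1 / 18) (hγ : γ = exp (-x))
    (hG : G = ((h * (K ^ 2 + ν ^ 2) : ℝ) : ℂ) * γ ^ 2) (hD : D ^ 2 = 1 - G) (hDre : 0 ≤ D.re)
    (hxL : (e : ℂ) * x = L0 + δ) (hL0 : ‖(v : ℂ) / 2 + I * L0‖ ≤ F2) (hδ : ‖δ‖ ≤ ΔF) :
    e * ‖(D - (q : ℂ) * γ * ((ν : ℂ) * I)) * ((C : ℂ) + (ν : ℂ) * I) - 1‖ ≤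
      v / e * (F2 + ΔF) + v * (562 / 1000 * V / e + 53 / 100 * f ^ 2 + 43 / 100 * K ^ 2) +
      16 / 100 * V ^ 2 / e + (e * K) ^ 2 / e * (106 / 100 * f + 28 / 100 * K ^ 2) +
      v ^ 2 / e * (56 / 100 * f ^ 2 + 3 / 10 * K ^ 2) := by
  have hf0 : 0 ≤ f := (norm_nonneg _).trans hx
  obtain ⟨g, hg⟩ : ∃ g, g = K ^ 2 + ν ^ 2 := ⟨_, rfl⟩
  rw [← hg] at hV hVe hG
  have hg0 : 0 ≤ g := by rw [hg]; positivity
  have hK2 : K ^ 2 ≤ g := by rw [hg]; nlinarith [sq_nonneg ν]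
  have hh0 : 0 < h := by rw [hh]; positivity
  have hh1 : h ≤ 1 := by rw [hh, div_le_one (by linarith)]; linarith
  have hC2 : C ≤ 201 / 200 := by nlinarith
  have hCK : C - 1 ≤ K ^ 2 / 2 := by nlinarith [sq_nonneg K]
  have hq1 : q ≤ 1 := by
    by_contra hc
    push Not at hc
    nlinarith
  -- the numbers
  have h1h : 1 - h ≤ K ^ 2 / 4 := by
    have : 1 - h = (C - 1) / (C + 1) := by rw [hh]; field_simp; ring
    rw [this, div_le_iff₀ (by linarith)]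
    nlinarith [sq_nonneg K]
  have hqn : |q - 1| ≤ 1 / 7 * K ^ 2 := by
    have h7 : (99 / 100 : ℝ) ≤ q := by
      by_contra hc
      push Not at hc
      nlinarith
    rw [abs_of_nonpos (by linarith)]
    have h8 : (1 - q) * (1 + q) = 1 - h := by rw [← hq]; ring
    have h9 : 0 ≤ 1 - q := by linarith
    nlinarith
  have hqC : |1 - q * C| ≤ 4 / 10 * K ^ 2 := by
    have h7 : 1 ≤ q * C := by
      have h8 : 1 ≤ (q * C) ^ 2 := by
        rw [mul_pow, hq, hh, div_mul_eq_mul_div, le_div_iff₀ (by linarith)]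
        nlinarith
      by_contra hc
      push Not at hc
      have : 0 ≤ q * C := by positivity
      nlinarith
    rw [abs_of_nonpos (by linarith)]
    have h9 : q * C ≤ C := mul_le_of_le_one_left (by linarith) hq1
    have h10 : (q * C - 1) * (q * C + 1) = (2 * C + 1) * (C - 1) / (C + 1) := by
      have : (q * C - 1) * (q * C + 1) = q ^ 2 * C ^ 2 - 1 := by ring
      rw [this, hq, hh]
      field_simp
      ring
    have h11 : (2 * C + 1) * (C - 1) / (C + 1) ≤ 3 / 2 * (1001 / 1000) * (C - 1) := by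
      rw [div_le_iff₀ (by linarith)]
      have : 0 ≤ C - 1 := by linarith
      nlinarith
    have h12 : 0 ≤ q * C - 1 := by linarith
    nlinarith
  have hhC : |h * C - 1| ≤ 1 / 4 * K ^ 2 := by
    have h8 : h * C - 1 = (C - 1) / (C + 1) := by rw [hh]; field_simp; ring
    rw [h8, abs_of_nonneg (div_nonneg (by linarith) (by linarith)), div_le_iff₀ (by linarith)]
    nlinarith [sq_nonneg K]
  -- γ
  have hγn : ‖γ‖ ≤ 1.0572 := by
    rw [hγ, Complex.norm_exp]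
    refine (Real.exp_le_exp.2 ?_).trans (fh_exp hf1)
    refine (Complex.re_le_norm _).trans ?_
    rwa [norm_neg]
  have hγ2 : ‖γ ^ 2‖ ≤ 1.1177 := by
    rw [norm_pow]
    have : ‖γ‖ ^ 2 ≤ 1.0572 ^ 2 := pow_le_pow_left₀ (norm_nonneg _) hγn 2
    norm_num at this ⊢
    linarith
  have hγx : ‖1 - γ - x‖ ≤ 53 / 100 * f ^ 2 := by rw [hγ]; exact exp_lin hx hf1
  have hf2 : f ^ 2 ≤ 1 / 18 * f := by rw [sq]; exact mul_le_mul_of_nonneg_right hf1 hf0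
  have hγ1 : ‖1 - γ‖ ≤ 10295 / 10000 * f := by
    have : 1 - γ = (1 - γ - x) + x := by ring
    rw [this]
    refine (norm_add_le _ _).trans ?_
    linarith
  have hγp : ‖1 + γ‖ ≤ 20572 / 10000 := by
    have : 1 + γ = 2 - (1 - γ) := by ring
    rw [this]
    refine (norm_sub_le _ _).trans ?_
    rw [Complex.norm_ofNat]
    linarith
  have hγγ : ‖1 - γ ^ 2‖ ≤ 2118 / 1000 * f := by
    have : 1 - γ ^ 2 = (1 - γ) * (1 + γ) := by ring
    rw [this, norm_mul]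
    calc ‖1 - γ‖ * ‖1 + γ‖ ≤ (10295 / 10000 * f) * (20572 / 10000) :=
          mul_le_mul hγ1 hγp (norm_nonneg _) (by positivity)
      _ ≤ _ := by linarith
  -- G, D
  have hGn : ‖G‖ ≤ 1.1177 * g := by
    rw [hG, norm_mul, Complex.norm_real, Real.norm_of_nonneg (by positivity)]
    calc h * g * ‖γ ^ 2‖ ≤ 1 * g * 1.1177 := by gcongr
      _ = _ := by ring
  have hDn := (fh_D hD hDre hGn (by norm_num; linarith)).2
  have hD1 : 1.9943 ≤ ‖D + 1‖ := by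
    have : (2 : ℂ) = (D + 1) - (D - 1) := by ring
    have h6 : ‖(2 : ℂ)‖ ≤ ‖D + 1‖ + ‖D - 1‖ := by
      rw [this]; exact norm_sub_le _ _
    rw [Complex.norm_ofNat] at h6
    norm_num at hDn ⊢
    linarith
  have hDD : (D - 1) * (D + 1) = -G := by linear_combination hD
  have hDne : D + 1 ≠ 0 := by
    intro h0
    rw [h0, norm_zero] at hD1
    norm_num at hD1
  have hD2 : ‖D - 1‖ ≤ 5605 / 10000 * g := by
    have h7 : ‖D - 1‖ * ‖D + 1‖ = ‖G‖ := by rw [← norm_mul, hDD, norm_neg]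
    have h8 : ‖D - 1‖ * 1.9943 ≤ 1.1177 * g := by
      rw [← h7] at hGn
      refine le_trans ?_ hGn
      exact mul_le_mul_of_nonneg_left hD1 (norm_nonneg _)
    norm_num at h8
    linarith
  obtain ⟨δ1, hδ1⟩ : ∃ δ1, δ1 = 1 - G / 2 - D := ⟨_, rfl⟩
  have hδn : ‖δ1‖ ≤ 1571 / 10000 * g ^ 2 := by
    have h7 : δ1 * (2 * (D + 1) ^ 2) = G ^ 2 := by
      have : G = -((D - 1) * (D + 1)) := by rw [hDD, neg_neg]
      rw [hδ1, this]
      ring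
    have h8 : ‖δ1‖ * (2 * ‖D + 1‖ ^ 2) = ‖G‖ ^ 2 := by
      rw [← norm_pow G, ← h7, norm_mul, norm_mul, norm_pow, Complex.norm_ofNat]
    have h9 : ‖δ1‖ * (2 * 1.9943 ^ 2) ≤ (1.1177 * g) ^ 2 := by
      calc ‖δ1‖ * (2 * 1.9943 ^ 2) ≤ ‖δ1‖ * (2 * ‖D + 1‖ ^ 2) := by gcongr
        _ = ‖G‖ ^ 2 := h8
        _ ≤ _ := pow_le_pow_left₀ (norm_nonneg _) hGn 2
    norm_num [mul_pow] at h9
    linarith [sq_nonneg g]
  -- the decomposition
  have heC : (e : ℂ) ≠ 0 := by exact_mod_cast he.ne'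
  have key : (e : ℂ) * ((D - (q : ℂ) * γ * ((ν : ℂ) * I)) * ((C : ℂ) + (ν : ℂ) * I) - 1) =
      ((v / e : ℝ) : ℂ) * (((v : ℂ) / 2 + I * L0) + I * δ) +
      (v : ℂ) * (I * ((D - 1) + (1 - γ - x) + ((1 - q * C : ℝ) : ℂ) * γ)) +
      ((e * K ^ 2 : ℝ) : ℂ) * (((h / 2 : ℝ) : ℂ) * ((1 - γ ^ 2) - ((C - 1 : ℝ) : ℂ) * γ ^ 2)) +
      ((v ^ 2 / e : ℝ) : ℂ) * (-((1 - γ) ^ 2 / 2) + ((q - 1 : ℝ) : ℂ) * γ -
        ((h * C - 1 : ℝ) : ℂ) * γ ^ 2 / 2) - (e : ℂ) * ((C : ℂ) * δ1) := by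
    have hν' : (v : ℂ) = e * ν := by rw [hν]; push_cast; ring
    have h7 : ((v / e : ℝ) : ℂ) = (ν : ℂ) := by rw [hν]; push_cast; field_simp
    have h8 : ((v ^ 2 / e : ℝ) : ℂ) = (e : ℂ) * (ν : ℂ) ^ 2 := by
      rw [hν]; push_cast; field_simp
    have hhKc : (C : ℂ) - 1 = h * K ^ 2 / 2 := by
      have := congrArg (fun z : ℝ => (z : ℂ)) hhK
      push_cast at this
      exact this
    have hGc : G = (h : ℂ) * ((K : ℂ) ^ 2 + (ν : ℂ) ^ 2) * γ ^ 2 := by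
      rw [hG, hg]; push_cast; ring
    rw [h7, h8, hν', hδ1, hGc]
    push_cast
    linear_combination (-(e : ℂ) * q * γ * ν ^ 2) * I_sq + (ν : ℂ) * I * hxL + (e : ℂ) * hhKc
  have hn : e * ‖(D - (q : ℂ) * γ * ((ν : ℂ) * I)) * ((C : ℂ) + (ν : ℂ) * I) - 1‖ =
      ‖(e : ℂ) * ((D - (q : ℂ) * γ * ((ν : ℂ) * I)) * ((C : ℂ) + (ν : ℂ) * I) - 1)‖ := by
    rw [norm_mul (e : ℂ), Complex.norm_real, Real.norm_of_nonneg he.le]
  rw [hn, key]
  have t1 : ‖((v / e : ℝ) : ℂ) * (((v : ℂ) / 2 + I * L0) + I * δ)‖ ≤ v / e * (F2 + ΔF) := by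
    rw [norm_mul, Complex.norm_real, Real.norm_of_nonneg (by positivity)]
    apply mul_le_mul_of_nonneg_left _ (by positivity)
    refine (norm_add_le _ _).trans ?_
    rw [norm_mul I δ, Complex.norm_I, one_mul]
    linarith
  have t2 : ‖(v : ℂ) * (I * ((D - 1) + (1 - γ - x) + ((1 - q * C : ℝ) : ℂ) * γ))‖ ≤
      v * (562 / 1000 * V / e + 53 / 100 * f ^ 2 + 43 / 100 * K ^ 2) := by
    rw [norm_mul, norm_mul, Complex.norm_I, one_mul, Complex.norm_real, Real.norm_of_nonneg hv]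
    apply mul_le_mul_of_nonneg_left _ hv
    refine (norm_add₃_le).trans ?_
    have h7 : ‖((1 - q * C : ℝ) : ℂ) * γ‖ ≤ 43 / 100 * K ^ 2 := by
      rw [norm_mul, Complex.norm_real, Real.norm_eq_abs]
      calc |1 - q * C| * ‖γ‖ ≤ (4 / 10 * K ^ 2) * 1.0572 :=
            mul_le_mul hqC hγn (norm_nonneg _) (by positivity)
        _ ≤ _ := by linarith [sq_nonneg K]
    have h8 : 562 / 1000 * V / e = 562 / 1000 * g := by rw [hV]; field_simp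
    rw [h8]
    linarith
  have t3 : ‖((e * K ^ 2 : ℝ) : ℂ) * (((h / 2 : ℝ) : ℂ) * ((1 - γ ^ 2) -
      ((C - 1 : ℝ) : ℂ) * γ ^ 2))‖ ≤ (e * K) ^ 2 / e * (106 / 100 * f + 28 / 100 * K ^ 2) := by
    rw [norm_mul, norm_mul, Complex.norm_real, Complex.norm_real,
      Real.norm_of_nonneg (by positivity), Real.norm_of_nonneg (by positivity)]
    have h7 : (e * K) ^ 2 / e = e * K ^ 2 := by field_simp
    rw [h7]
    apply mul_le_mul_of_nonneg_left _ (by positivity)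
    have h8 : ‖(1 - γ ^ 2) - ((C - 1 : ℝ) : ℂ) * γ ^ 2‖ ≤
        2118 / 1000 * f + K ^ 2 / 2 * 1.1177 := by
      refine (norm_sub_le _ _).trans ?_
      rw [norm_mul, Complex.norm_real, Real.norm_of_nonneg (by linarith)]
      have : (C - 1) * ‖γ ^ 2‖ ≤ K ^ 2 / 2 * 1.1177 :=
        mul_le_mul hCK hγ2 (norm_nonneg _) (by positivity)
      linarith
    calc h / 2 * ‖(1 - γ ^ 2) - ((C - 1 : ℝ) : ℂ) * γ ^ 2‖ ≤
          1 / 2 * (2118 / 1000 * f + K ^ 2 / 2 * 1.1177) := by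
          apply mul_le_mul (by linarith) h8 (norm_nonneg _) (by norm_num)
      _ ≤ _ := by linarith [sq_nonneg K]
  have t4 : ‖((v ^ 2 / e : ℝ) : ℂ) * (-((1 - γ) ^ 2 / 2) + ((q - 1 : ℝ) : ℂ) * γ -
        ((h * C - 1 : ℝ) : ℂ) * γ ^ 2 / 2)‖ ≤
      v ^ 2 / e * (56 / 100 * f ^ 2 + 3 / 10 * K ^ 2) := by
    rw [norm_mul, Complex.norm_real, Real.norm_of_nonneg (by positivity)]
    apply mul_le_mul_of_nonneg_left _ (by positivity)
    refine (norm_sub_le _ _).trans ?_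
    have h7 := norm_add_le (-((1 - γ) ^ 2 / 2)) (((q - 1 : ℝ) : ℂ) * γ)
    have h8 : ‖-((1 - γ) ^ 2 / 2)‖ ≤ 53 / 100 * f ^ 2 := by
      rw [norm_neg, norm_div, norm_pow, Complex.norm_ofNat]
      have h9 : ‖1 - γ‖ ^ 2 ≤ (10295 / 10000 * f) ^ 2 := pow_le_pow_left₀ (norm_nonneg _) hγ1 2
      have h10 := sq_nonneg f
      rw [mul_pow] at h9
      norm_num at h9 ⊢
      linarith
    have h9 : ‖((q - 1 : ℝ) : ℂ) * γ‖ ≤ 1 / 7 * K ^ 2 * 1.0572 := by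
      rw [norm_mul, Complex.norm_real, Real.norm_eq_abs]
      exact mul_le_mul hqn hγn (norm_nonneg _) (by positivity)
    have h10 : ‖((h * C - 1 : ℝ) : ℂ) * γ ^ 2 / 2‖ ≤ 1 / 4 * K ^ 2 * 1.1177 / 2 := by
      rw [norm_div, norm_mul, Complex.norm_real, Real.norm_eq_abs, Complex.norm_ofNat]
      apply div_le_div_of_nonneg_right _ (by norm_num)
      exact mul_le_mul hhC hγ2 (norm_nonneg _) (by positivity)
    linarith [sq_nonneg K, sq_nonneg f]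
  have t5 : ‖(e : ℂ) * ((C : ℂ) * δ1)‖ ≤ 16 / 100 * V ^ 2 / e := by
    rw [norm_mul, norm_mul, Complex.norm_real, Complex.norm_real, Real.norm_of_nonneg he.le,
      Real.norm_of_nonneg (by linarith)]
    have h7 : 16 / 100 * V ^ 2 / e = e * (16 / 100 * g ^ 2) := by rw [hV]; field_simp
    rw [h7]
    apply mul_le_mul_of_nonneg_left _ he.le
    have h9 := sq_nonneg g
    calc C * ‖δ1‖ ≤ 201 / 200 * (1571 / 10000 * g ^ 2) :=
          mul_le_mul hC2 hδn (norm_nonneg _) (by norm_num)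
      _ ≤ _ := by linarith
  refine (five _ _ _ _ _).trans ?_
  linarith

/-- Numbers of the test (`v = π`). -/
structure TN (e K V F F2 ft ΔF f tn : ℝ) : Prop where
  F20 : 0 ≤ F2
  hF2 : Real.pi ^ 2 / 4 + F ^ 2 ≤ F2 ^ 2
  hf : ft + ΔF ≤ f * e
  f1 : f ≤ 1 / 18
  htn : 101 / 100 * (Real.pi / e * (F2 + ΔF) +
    Real.pi * (562 / 1000 * V / e + 53 / 100 * f ^ 2 + 43 / 100 * K ^ 2) + 16 / 100 * V ^ 2 / e +
    (e * K) ^ 2 / e * (106 / 100 * f + 28 / 100 * K ^ 2) +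
    Real.pi ^ 2 / e * (56 / 100 * f ^ 2 + 3 / 10 * K ^ 2)) ≤ tn
  h9 : ΔF + tn ≤ 9 / 10

private theorem log_small {ξ : ℂ} (h : ‖ξ‖ ≤ 1 / 100) : ‖log (1 + ξ)‖ ≤ 101 / 100 * ‖ξ‖ := by
  have h0 := norm_nonneg ξ
  have h1 := Complex.norm_log_one_add_le (z := ξ) (by linarith)
  have h2 : (1 - ‖ξ‖)⁻¹ ≤ 100 / 99 := by
    rw [inv_le_comm₀ (by linarith) (by norm_num)]
    norm_num
    linarith
  have h3 : ‖ξ‖ ^ 2 * (1 - ‖ξ‖)⁻¹ / 2 ≤ 1 / 100 * ‖ξ‖ := by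
    have h4 : ‖ξ‖ ^ 2 ≤ 1 / 100 * ‖ξ‖ := by
      rw [sq]; exact mul_le_mul_of_nonneg_right h h0
    have h5 : ‖ξ‖ ^ 2 * (1 - ‖ξ‖)⁻¹ ≤ (1 / 100 * ‖ξ‖) * (100 / 99) :=
      mul_le_mul h4 h2 (inv_nonneg.2 (by linarith)) (by positivity)
    linarith
  linarith

/-- **The test.** `c` is any centre with the stated bounds. -/
theorem test_neg {p c χ : ℂ} {a F F2 ft ΔF f tn : ℝ} (H : FH e κ Real.pi a c χ)
    (hT : tanh (κ * p) = t00 e κ Real.pi)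
    (h0 : (LF e κ (shf κ (t00 e κ Real.pi)) 0).re ≤ F)
    (h1 : 0 ≤ (LF e κ (shf κ (t00 e κ Real.pi)) 0).re)
    (h2 : 0 ≤ (LF e κ (shf κ (t00 e κ Real.pi)) 0).im)
    (h3 : (LF e κ (shf κ (t00 e κ Real.pi)) 0).im ≤ Real.pi)
    (h4 : ‖LF e κ (shf κ (t00 e κ Real.pi)) 0‖ ≤ ft)
    (h5 : ‖LF e κ c χ - LF e κ (shf κ (t00 e κ Real.pi)) 0‖ ≤ ΔF)
    (N : TN e (Real.sinh κ) (Vv e κ Real.pi) F F2 ft ΔF f tn)
    (hW : (e * Real.sinh κ) ^ 2 + Real.pi ^ 2 ≤ 8 / 5 * e)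
    (h9 : 4900 ≤ e * ((e * Real.sinh κ) ^ 2 + Real.pi ^ 2)) :
    (H0 e κ p (Fc e κ c χ)).re < 0 := by
  have he := H.he
  have he0 : 0 < e := by linarith
  have hκ := H.hκ
  have hπ := Real.pi_pos
  have hK0 : 0 < Real.sinh κ := Real.sinh_pos_iff.2 hκ
  have hβ : 0 < bet e κ := mul_pos he0 hK0
  have heC : (e : ℂ) ≠ 0 := by exact_mod_cast he0.ne'
  obtain ⟨-, hh0, hh1, -, -, -, hcK⟩ := hh_facts hκ
  obtain ⟨g1, -⟩ := s0_pos (v := Real.pi) he0 hκ hπ.le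
  obtain ⟨t, ht⟩ : ∃ t, t = t00 e κ Real.pi := ⟨_, rfl⟩
  obtain ⟨s, hs⟩ : ∃ s, s = shf κ (t00 e κ Real.pi) := ⟨_, rfl⟩
  rw [← hs] at g1 h0 h1 h2 h3 h4 h5
  have hft0 : 0 ≤ ft := (norm_nonneg _).trans h4
  have hΔ0 : 0 ≤ ΔF := (norm_nonneg _).trans h5
  -- V
  have hVe : Vv e κ Real.pi / e = Real.sinh κ ^ 2 + (Real.pi / e) ^ 2 := by
    unfold Vv bet
    field_simp
  have hV : Vv e κ Real.pi = e * (Real.sinh κ ^ 2 + (Real.pi / e) ^ 2) := by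
    rw [← hVe]; field_simp
  have hV1 : Real.sinh κ ^ 2 + (Real.pi / e) ^ 2 ≤ 1 / 100 := by
    rw [← hVe, div_le_iff₀ he0]
    linarith [H.V1]
  have hγn : ‖ga e κ c χ‖ ≤ 1.0572 := fh_norm he0 H.hF H.a1
  have hGn : ‖GG e κ Real.pi c χ‖ ≤ 0.0112 := by
    unfold GG
    rw [norm_mul, norm_pow, Complex.norm_real, Real.norm_of_nonneg (by rw [hVe]; positivity), hVe]
    have h6 : ‖ga e κ c χ‖ ^ 2 ≤ 1.0572 ^ 2 := pow_le_pow_left₀ (norm_nonneg _) hγn 2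
    calc hh κ * (Real.sinh κ ^ 2 + (Real.pi / e) ^ 2) * ‖ga e κ c χ‖ ^ 2 ≤
          1 * (1 / 100) * 1.0572 ^ 2 := by gcongr
      _ ≤ _ := by norm_num
  have hG1 : ‖GG e κ Real.pi c χ‖ < 1 := by
    refine lt_of_le_of_lt hGn (by norm_num)
  have hT' : tanh (κ * p) = ((Real.pi / bet e κ : ℝ) : ℂ) * I := hT
  obtain ⟨-, -, hrad, -⟩ := first_alg he0 hκ H.hs H.hχ hT' hG1
  have hGne : 1 - GG e κ Real.pi c χ ≠ 0 := by
    intro h6
    have h7 : GG e κ Real.pi c χ = 1 := by linear_combination -h6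
    rw [h7, norm_one] at hG1
    exact lt_irrefl _ hG1
  have hD : DD e κ Real.pi c χ ^ 2 = 1 - GG e κ Real.pi c χ := fh_sq hGne
  have hDre : 0 ≤ (DD e κ Real.pi c χ).re := fh_re hGne
  have hD1 := (fh_D hD hDre hGn le_rfl).2
  -- N
  obtain ⟨n, hn⟩ : ∃ n, n = DD e κ Real.pi c χ -
      ((√(hh κ) : ℝ) : ℂ) * ga e κ c χ * (((Real.pi / e : ℝ) : ℂ) * I) := ⟨_, rfl⟩
  rw [← hn] at hrad
  have hq1 : √(hh κ) ≤ 1 := Real.sqrt_le_one.2 hh1
  have hnre : 0 < n.re := by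
    have h6 : ‖((√(hh κ) : ℝ) : ℂ) * ga e κ c χ * (((Real.pi / e : ℝ) : ℂ) * I)‖ ≤
        1 * 1.0572 * (1 / 60) := by
      rw [norm_mul, norm_mul, norm_mul, Complex.norm_I, mul_one, Complex.norm_real,
        Complex.norm_real, Real.norm_of_nonneg (Real.sqrt_nonneg _),
        Real.norm_of_nonneg (by positivity)]
      have h7 : Real.pi / e ≤ 1 / 60 := by
        rw [div_le_iff₀ he0]
        linarith [H.v1]
      gcongr
    have h7 : n = 1 + (DD e κ Real.pi c χ - 1) -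
      ((√(hh κ) : ℝ) : ℂ) * ga e κ c χ * (((Real.pi / e : ℝ) : ℂ) * I) := by rw [hn]; ring
    have h8 := (abs_le.1 (Complex.abs_re_le_norm (DD e κ Real.pi c χ - 1))).1
    have h10 := (abs_le.1 (Complex.abs_re_le_norm
      (((√(hh κ) : ℝ) : ℂ) * ga e κ c χ * (((Real.pi / e : ℝ) : ℂ) * I)))).2
    rw [h7, sub_re, add_re, one_re]
    have h11 := h6.trans (by norm_num : (1 : ℝ) * 1.0572 * (1 / 60) ≤ 1 / 50)
    have h12 := hD1.trans (by norm_num : (0.0057 : ℝ) ≤ 1 / 100)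
    linarith
  -- Q0
  have hQ0 : Qk κ t = (Real.cosh κ : ℂ) + ((Real.pi / e : ℝ) : ℂ) * I := by
    unfold Qk
    rw [ht]
    unfold t00
    have h6 : (Real.sinh κ : ℂ) * (((Real.pi / bet e κ : ℝ) : ℂ) * I) =
        ((Real.sinh κ * (Real.pi / bet e κ) : ℝ) : ℂ) * I := by
      rw [ofReal_mul]; ring
    have h7 : Real.sinh κ * (Real.pi / bet e κ) = Real.pi / e := by
      unfold bet; field_simp
    rw [h6, h7]
  have hQre : 0 < (Qk κ t).re := by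
    rw [hQ0, add_re, ofReal_re, re_ofReal_mul, I_re, mul_zero, add_zero]
    exact Real.cosh_pos κ
  have hlog : log (n * Qk κ t) = log n + log (Qk κ t) := log_mul_re hnre hQre
  have hn0 : n ≠ 0 := by intro h6; rw [h6] at hnre; simp at hnre
  -- values
  have hf0 : fT e κ s ≠ 0 := fT_ne he0 hκ g1
  have hL0 : exp (LF e κ s 0 - (LA e κ : ℂ)) = fT e κ s := by
    unfold LF
    rw [mul_zero, add_zero, log_one, add_zero, add_sub_cancel_left, exp_log hf0]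
  have hLc : exp (LF e κ c χ - (LA e κ : ℂ)) = Fc e κ c χ := by
    have h6 := node_F he0 hκ H.hs H.hχ
    have h7 : 1 + qq e κ c * χ ≠ 0 := by
      intro h8
      rw [h8] at h6
      simp at h6
    unfold LF Fc
    rw [add_sub_cancel_left, exp_add, exp_log (fT_ne he0 hκ H.hs), exp_log h7]
  have hpow : radH e κ p (Fc e κ c χ) ^ ((e / 2 : ℝ) : ℂ) = exp (e * log n) := by
    rw [hrad, cpow_def_of_ne_zero (pow_ne_zero 2 hn0), sq, log_mul_re hnre hnre]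
    congr 1
    push_cast
    ring
  obtain ⟨w, hw⟩ : ∃ w, w = exp (-(e * log (Qk κ t))) * fT e κ s := ⟨_, rfl⟩
  have hw0 : w ≠ 0 := by rw [hw]; exact mul_ne_zero (exp_ne_zero _) hf0
  obtain ⟨δ, hδ⟩ : ∃ δ, δ = LF e κ c χ - LF e κ s 0 := ⟨_, rfl⟩
  have hH : H0 e κ p (Fc e κ c χ) = w * exp (δ + e * log (n * Qk κ t)) := by
    unfold H0
    rw [hpow, ← hLc, hw, ← hL0, hδ, hlog, ← exp_add, ← exp_add, ← exp_add]
    congr 1
    ring
  have htest := test_re he hκ hW h9 (t0 := t) (by rw [ht]; rfl)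
  have hst : shf κ t = s := by rw [hs, ht]
  rw [hst, ← hw] at htest
  rw [hH]
  refine rot_neg hw0 htest ?_
  -- the bound
  obtain ⟨ξ, hξ⟩ : ∃ ξ, ξ = n * Qk κ t - 1 := ⟨_, rfl⟩
  have hF2 : ‖(Real.pi : ℂ) / 2 + I * LF e κ s 0‖ ≤ F2 := by
    rw [← sq_le_sq₀ (norm_nonneg _) N.F20, ← Complex.normSq_eq_norm_sq, Complex.normSq_apply]
    have r1 : ((Real.pi : ℂ) / 2 + I * LF e κ s 0).re = Real.pi / 2 - (LF e κ s 0).im := by
      rw [add_re, I_mul_re, Complex.div_ofNat_re, ofReal_re]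
      ring
    have r2 : ((Real.pi : ℂ) / 2 + I * LF e κ s 0).im = (LF e κ s 0).re := by
      rw [add_im, I_mul_im, Complex.div_ofNat_im, ofReal_im]
      ring
    rw [r1, r2]
    have h6 := N.hF2
    have h7 : (LF e κ s 0).re * (LF e κ s 0).re ≤ F ^ 2 := by
      rw [← sq]; exact pow_le_pow_left₀ h1 h0 2
    nlinarith [mul_nonneg h2 (sub_nonneg.2 h3)]
  have hx : ‖LF e κ c χ / e‖ ≤ f := by
    rw [norm_div, Complex.norm_real, Real.norm_of_nonneg he0.le, div_le_iff₀ he0]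
    refine le_trans ?_ N.hf
    have : LF e κ c χ = LF e κ s 0 + (LF e κ c χ - LF e κ s 0) := by ring
    rw [this]
    exact (norm_add_le _ _).trans (add_le_add h4 h5)
  have hcore := ft_core (e := e) (K := Real.sinh κ) (C := Real.cosh κ) (h := hh κ)
    (q := √(hh κ)) (ν := Real.pi / e) (v := Real.pi) (V := Vv e κ Real.pi) (f := f) (F2 := F2)
    (ΔF := ΔF) (x := LF e κ c χ / e) (γ := ga e κ c χ) (D := DD e κ Real.pi c χ)
    (G := GG e κ Real.pi c χ) (L0 := LF e κ s 0) (δ := δ) he0 (by field_simp) hπ.le hV hV1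
    (Real.one_le_cosh κ) hcK rfl (Real.sqrt_pos.2 hh0) (Real.sq_sqrt hh0.le) hx N.f1 rfl
    (by unfold GG; rw [hVe]) hD hDre (by rw [hδ, mul_div_cancel₀ _ heC]; ring) hF2
    (by rw [hδ]; exact h5)
  rw [← hn, ← hQ0, ← hξ] at hcore
  have htn := N.htn
  have h99 := N.h9
  have hξe : e * ‖ξ‖ ≤ 100 / 101 * tn := by linarith
  have hξ1 : ‖ξ‖ ≤ 1 / 100 := by
    have h6 : 200 * ‖ξ‖ ≤ e * ‖ξ‖ := mul_le_mul_of_nonneg_right he (norm_nonneg _)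
    linarith
  have hl := log_small hξ1
  have hnQ : n * Qk κ t = 1 + ξ := by rw [hξ]; ring
  rw [hnQ]
  refine (norm_add_le _ _).trans ?_
  rw [norm_mul, Complex.norm_real, Real.norm_of_nonneg he0.le]
  have h6 : e * ‖log (1 + ξ)‖ ≤ e * (101 / 100 * ‖ξ‖) := mul_le_mul_of_nonneg_left hl he0.le
  have h7 : ‖δ‖ ≤ ΔF := by rw [hδ]; exact h5
  linarith

end Pool.Agent.helper31.EQB
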