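import Pool.Agent.helper12.RS.Rig
import Pool.Agent.helper12.RP.AssemblyN

/-!
# EQB-3: rigid near nodes with a general centre of the first node

Node `1`: `1 - F = (1 - f(c p))(1 - χ)`, `χ = X p * x 0`, `c p` an arbitrary point.  Node `n + 2` with
`n < L`: rigid, centre `shf τ`, radius `R.X n τ`.  Then the far field `far` (plain scheme).
-/

namespace Pool.Agent.helper31.EQB

open Complex ComplexConjugate Set Filter Topology
open Pool.Agent.helper31.EQ.Y Pool.Agent.helper31.EQ.R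
open Pool.Agent.helper12.RP Pool.Agent.helper12.FF Pool.Agent.helper12.RS

noncomputable section

/-- radicand of the first link for the node value `(1 - f(s))(1 - χ)` -/
def rdc (e κ : ℝ) (p s χ : ℂ) : ℂ :=
  rad0F e κ p ((e : ℂ) * log (Qk κ s)) (fT e κ (shf κ s) * (1 - χ))

/-- first link -/
def nxc (e κ : ℝ) (p s χ : ℂ) : ℂ :=
  step0F e κ p ((e : ℂ) * log (Qk κ s)) (fT e κ (shf κ s) * (1 - χ))

/-- node value -/
def Fc (e κ : ℝ) (s χ : ℂ) : ℂ := fT e κ s * (1 + qq e κ s * χ)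

end

variable {e κ θ : ℝ}

/-- Data of the first node. -/
structure Cen (e κ : ℝ) where
  DN : Set ℂ
  isOpen_DN : IsOpen DN
  conj_DN : ∀ p ∈ DN, conj p ∈ DN
  strip : ∀ p ∈ DN, |p.im| < Real.pi / (2 * κ)
  c : ℂ → ℂ
  c_diff : DifferentiableOn ℂ c DN
  c_conj : ∀ p ∈ DN, c (conj p) = conj (c p)
  c_re : ∀ p ∈ DN, 0 < (c p).re
  X : ℂ → ℂ
  X_diff : DifferentiableOn ℂ X DN
  X_conj : ∀ p ∈ DN, X (conj p) = conj (X p)

/-- Radii of the rigid near nodes. -/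
structure Rad where
  X : ℕ → ℂ → ℂ
  diff : ∀ n, ∀ τ : ℂ, 0 < τ.re → DifferentiableAt ℂ (X n) τ
  cj : ∀ n, ∀ τ : ℂ, 0 < τ.re → X n (conj τ) = conj (X n τ)

/-- the radius of the node `n + 2` -/
noncomputable def rX (far : FarN e κ θ) (R : Rad) (L n : ℕ) (τ : ℂ) : ℂ :=
  if n < L then R.X n τ else far.X (n - L) τ

/-- **Pointwise conditions** at the start `p`; `S n` contains all possible links `n`. -/
structure CenPt (far : FarN e κ θ) (D : Cen e κ) (R : Rad) (L : ℕ) (p : ℂ) (S : ℕ → Set ℂ) :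
    Prop where
  mem : p ∈ D.DN
  X_ne : D.X p ≠ 0
  X_lt : ‖D.X p‖ < 1
  w0 : ∀ χ : ℂ, ‖χ‖ ≤ ‖D.X p‖ →
    1 - rho e κ (Fc e κ (D.c p) χ) ^ 2 * (1 - tanh (κ * p) ^ 2) ∈ slitPlane
  rad0 : ∀ χ : ℂ, ‖χ‖ ≤ ‖D.X p‖ → rdc e κ p (D.c p) χ ∈ slitPlane
  rH : ∀ χ : ℂ, ‖χ‖ ≤ ‖D.X p‖ → radH e κ p (Fc e κ (D.c p) χ) ∈ slitPlane
  pos0 : ∀ χ : ℂ, ‖χ‖ ≤ ‖D.X p‖ → nxc e κ p (D.c p) χ ∈ S 0
  re : ∀ n, n ≤ L → ∀ τ ∈ S n, 0 < τ.re
  XR_ne : ∀ n, n < L → ∀ τ ∈ S n, R.X n τ ≠ 0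
  XR_lt : ∀ n, n < L → ∀ τ ∈ S n, ‖R.X n τ‖ < 1
  rad : ∀ n, n < L → ∀ τ ∈ S n, ∀ χ : ℂ, ‖χ‖ ≤ ‖R.X n τ‖ → rd e κ τ χ ∈ slitPlane
  step : ∀ n, n < L → ∀ τ ∈ S n, ∀ χ : ℂ, ‖χ‖ ≤ ‖R.X n τ‖ → nxt e κ τ χ ∈ S (n + 1)
  ent : ∀ τ ∈ S L, τ ∈ far.Ω 0
  close0 : ∀ χ χ' : ℂ, ‖χ‖ ≤ ‖D.X p‖ → ‖χ'‖ ≤ ‖rX far R L 0 (nxc e κ p (D.c p) χ)‖ →
    ‖1 - (1 - fT e κ (nxc e κ p (D.c p) χ)) / (1 - fT e κ (D.c p)) *
      (1 + qq e κ (shf κ (nxc e κ p (D.c p) χ)) * χ')‖ < θ * ‖D.X p‖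
  close : ∀ n, n < L → ∀ τ ∈ S n, ∀ χ χ' : ℂ, ‖χ‖ ≤ ‖R.X n τ‖ →
    ‖χ'‖ ≤ ‖rX far R L (n + 1) (nxt e κ τ χ)‖ →
    ‖1 - R1 e κ τ (nxt e κ τ χ) * (1 + qq e κ (shf κ (nxt e κ τ χ)) * χ')‖ < θ * ‖R.X n τ‖

/-! ### the record -/

theorem radF_mul {τ C v g : ℂ} (hv : 0 < v.re) (hg : 0 < g.re) :
    radF e κ τ (C - log v) g = radF e κ τ C (v * g) := by
  have hv0 : v ≠ 0 := by intro h; rw [h] at hv; simp at hv
  unfold radF
  rw [aF_mul hv hg, fF_mul hv0]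

theorem re_one_sub {z : ℂ} (h : ‖z‖ < 1) : 0 < (1 - z).re := by
  have h2 := Complex.abs_re_le_norm z
  have h3 := le_abs_self z.re
  rw [Complex.sub_re, Complex.one_re]
  linarith

theorem norm_mul_le_of {a b : ℂ} (h : ‖b‖ ≤ 1) : ‖a * b‖ ≤ ‖a‖ := by
  rw [norm_mul]
  exact mul_le_of_le_one_right (norm_nonneg _) h

theorem cv_re (he : 0 < e) (hκ : 0 < κ) {τ : ℂ} (h : 0 < τ.re) : 0 < (cv e κ τ).re := by
  have := half_lt_re_fT he hκ (shf_re hκ (shf_re hκ h.le).le)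
  unfold cv
  linarith

/-- The centre of the first node. -/
noncomputable def Cc (e κ : ℝ) (s : ℂ) : ℂ :=
  (e : ℂ) * log (Qk κ s) - log (fT e κ (shf κ s))

theorem Fc_eq (he : 0 < e) (hκ : 0 < κ) {s χ : ℂ} (hs : 0 < s.re) :
    fF (Cc e κ s) (1 - χ) = Fc e κ s χ := by
  unfold Cc
  rw [fF_mul (fT_ne he hκ (shf_re hκ hs.le))]
  exact fF_node he hκ hs

/-- The near field record. -/
noncomputable def Cen.toNear (he : 0 < e) (hκ : 0 < κ) (D : Cen e κ) (R : Rad) : NearN where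
  DN := D.DN
  isOpen_DN := D.isOpen_DN
  conj_DN := D.conj_DN
  C0 := fun p => Cc e κ (D.c p)
  X0 := D.X
  M0 := fun _ => 1
  S := fun _ => {q | 0 < q.2.re}
  isOpen_S := fun _ => isOpen_lt continuous_const (Complex.continuous_re.comp continuous_snd)
  conj_S := fun _ _ τ h => by
    show 0 < (conj τ).re
    rw [conj_re]
    exact h
  C := fun _ _ τ => cC e κ τ - log (cv e κ τ)
  X := fun n _ τ => R.X n τ
  M := fun _ _ _ => 1
  C0_diff := by
    intro p hp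
    have h1 := (D.c_diff p hp).differentiableAt (D.isOpen_DN.mem_nhds hp)
    have h2 := D.c_re p hp
    have h3 : DifferentiableAt ℂ (fun z => Qk κ (D.c z)) p := by
      unfold Qk
      exact (h1.const_mul _).const_add _
    have h4 : DifferentiableAt ℂ (fun z => shf κ (D.c z)) p :=
      DifferentiableAt.comp (f := D.c) (g := shf κ) p (shf_diff hκ h2) h1
    have h5 := shf_re hκ h2.le
    have h6 : DifferentiableAt ℂ (fun z => fT e κ (shf κ (D.c z))) p :=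
      DifferentiableAt.comp (f := fun z => shf κ (D.c z)) (g := fT e κ) p
        (fT_diffAt he hκ h5) h4
    have h7 : DifferentiableAt ℂ (fun z => Cc e κ (D.c z)) p :=
      ((h3.clog (Qk_slit hκ h2)).const_mul _).sub (h6.clog (fT_slit he hκ h5))
    exact h7.differentiableWithinAt
  X0_diff := D.X_diff
  M0_diff := differentiableOn_const _
  C_diff := by
    intro n p τ hτ
    have h0 : 0 < τ.re := hτ
    have h1 : DifferentiableAt ℂ (fun τ => cC e κ τ - log (cv e κ τ)) τ :=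
      (cC_diff hκ h0).sub ((cv_diff he hκ h0).clog
        (Complex.mem_slitPlane_iff.2 (Or.inl (cv_re he hκ h0))))
    exact DifferentiableAt.comp (f := fun q : ℂ × ℂ => q.2)
      (g := fun τ => cC e κ τ - log (cv e κ τ)) (p, τ) h1 differentiableAt_snd
  X_diff := fun n p τ hτ => DifferentiableAt.comp (f := fun q : ℂ × ℂ => q.2)
      (g := R.X n) (p, τ) (R.diff n τ hτ) differentiableAt_snd
  M_diff := fun _ _ _ _ => differentiableAt_const _
  C0_conj := by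
    intro p hp
    have h2 := D.c_re p hp
    have h5 := shf_re hκ h2.le
    unfold Cc
    rw [D.c_conj p hp, Qk_conj, shf_conj hκ, fT_conj hκ h5,
      Complex.log_conj _ (slitPlane_arg_ne_pi (Qk_slit hκ h2)),
      Complex.log_conj _ (slitPlane_arg_ne_pi (fT_slit he hκ h5)), map_sub, map_mul, conj_ofReal]
  X0_conj := D.X_conj
  M0_conj := fun _ _ => (map_one _).symm
  C_conj := by
    intro n p τ hτ
    have h0 : 0 < τ.re := hτ
    rw [cC_conj hκ h0, cv_conj hκ h0, Complex.log_conj _ (slitPlane_arg_ne_pi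
      (Complex.mem_slitPlane_iff.2 (Or.inl (cv_re he hκ h0)))), map_sub]
  X_conj := fun n _ τ hτ => R.cj n τ hτ
  M_conj := fun _ _ _ _ => (map_one _).symm

section cen

variable {far : FarN e κ θ} {D : Cen e κ} {R : Rad} {L : ℕ} {p : ℂ} {S : ℕ → Set ℂ}

theorem CenPt.c_re (h : CenPt far D R L p S) : 0 < (D.c p).re := D.c_re p h.mem

theorem cen_pos0 (he : 0 < e) (hκ : 0 < κ) (h : CenPt far D R L p S) {x : ℕ → ℂ} (hx : x ∈ KK) :
    aP (farF he hκ far) (D.toNear he hκ R) L p x 0 = nxc e κ p (D.c p) (D.X p * x 0) ∧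
    rad0F e κ p ((D.toNear he hκ R).C0 p) (1 - (D.toNear he hκ R).X0 p * x 0) =
      rdc e κ p (D.c p) (D.X p * x 0) := by
  have hs := h.c_re
  have hv1 := half_lt_re_fT he hκ (shf_re hκ hs.le)
  have hv : 0 < (fT e κ (shf κ (D.c p))).re := by linarith
  have hX : ‖D.X p * x 0‖ < 1 := (norm_mul_le_of (hx 0)).trans_lt h.X_lt
  have hg := re_one_sub hX
  have hR : rad0F e κ p ((D.toNear he hκ R).C0 p) (1 - (D.toNear he hκ R).X0 p * x 0) =
      rdc e κ p (D.c p) (D.X p * x 0) := rad0F_mul hv hg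
  refine ⟨?_, hR⟩
  rw [aP_zero]
  unfold step0F nxc step0F
  rw [hR]
  rfl

theorem cen_step (he : 0 < e) (hκ : 0 < κ) {n : ℕ} {τ χ : ℂ} (hτ : 0 < τ.re) (hχ : ‖χ‖ < 1) :
    radF e κ τ ((D.toNear he hκ R).C n p τ) (1 - χ) = rd e κ τ χ ∧
    stepF e κ τ ((D.toNear he hκ R).C n p τ) (1 - χ) = nxt e κ τ χ := by
  have hR : radF e κ τ ((D.toNear he hκ R).C n p τ) (1 - χ) = rd e κ τ χ :=
    radF_mul (cv_re he hκ hτ) (re_one_sub hχ)
  refine ⟨hR, ?_⟩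
  unfold nxt stepF
  rw [hR]
  rfl

theorem cen_pos (he : 0 < e) (hκ : 0 < κ) (h : CenPt far D R L p S) {x : ℕ → ℂ} (hx : x ∈ KK) :
    ∀ n, n ≤ L → aP (farF he hκ far) (D.toNear he hκ R) L p x n ∈ S n := by
  intro n
  induction n with
  | zero =>
    intro _
    rw [(cen_pos0 he hκ h hx).1]
    exact h.pos0 _ (norm_mul_le_of (hx 0))
  | succ n ih =>
    intro hn
    have hl : n < L := hn
    have h1 := ih hl.le
    have hre := h.re n hl.le _ h1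
    have hX := h.XR_lt n hl _ h1
    obtain ⟨τ, hτ⟩ : ∃ τ, τ = aP (farF he hκ far) (D.toNear he hκ R) L p x n := ⟨_, rfl⟩
    rw [← hτ] at h1 hre hX
    have hχ : ‖R.X n τ * x (n + 1)‖ ≤ ‖R.X n τ‖ := norm_mul_le_of (hx (n + 1))
    rw [aP_succ hl, ← hτ]
    have h2 := (cen_step (D := D) (R := R) (p := p) (n := n) he hκ hre (hχ.trans_lt hX)).2
    have h3 := h.step n hl τ h1 _ hχ
    rw [← h2] at h3
    exact h3

theorem cen_succ (he : 0 < e) (hκ : 0 < κ) (h : CenPt far D R L p S) {x : ℕ → ℂ} (hx : x ∈ KK)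
    {n : ℕ} (hl : n < L) {τ : ℂ} (hτ : τ = aP (farF he hκ far) (D.toNear he hκ R) L p x n) :
    aP (farF he hκ far) (D.toNear he hκ R) L p x (n + 1) = nxt e κ τ (R.X n τ * x (n + 1)) := by
  have h1 := cen_pos he hκ h hx n hl.le
  rw [← hτ] at h1
  have hre := h.re n hl.le _ h1
  have hX := h.XR_lt n hl _ h1
  have hχ : ‖R.X n τ * x (n + 1)‖ ≤ ‖R.X n τ‖ := norm_mul_le_of (hx (n + 1))
  rw [aP_succ hl, ← hτ]
  exact (cen_step (D := D) (R := R) (p := p) (n := n) he hκ hre (hχ.trans_lt hX)).2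

theorem cen_val (he : 0 < e) (hκ : 0 < κ) (h : CenPt far D R L p S) {x : ℕ → ℂ} (hx : x ∈ KK)
    {n : ℕ} (hn : n ≤ L) {τ : ℂ} (hτ : τ = aP (farF he hκ far) (D.toNear he hκ R) L p x n) :
    aV (farF he hκ far) (D.toNear he hκ R) L p x n =
      fF (cC e κ τ) (cv e κ τ * (1 - rX far R L n τ * x (n + 1))) := by
  have h1 := cen_pos he hκ h hx n hn
  rw [← hτ] at h1
  have hre := h.re n hn _ h1
  rcases lt_or_eq_of_le hn with hl | hl
  · rw [aV_lt hl, ← hτ]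
    show fF (cC e κ τ - log (cv e κ τ)) (1 - R.X n τ * x (n + 1)) = _
    rw [fF_mul (cv_ne he hκ hre)]
    unfold rX
    rw [if_pos hl]
  · subst hl
    rw [aV_last, ← hτ]
    show fF (cC e κ τ) (cv e κ τ - cv e κ τ * far.X 0 τ * x (n + 1)) = _
    unfold rX
    rw [if_neg (lt_irrefl n), Nat.sub_self]
    congr 1
    ring

/-- **`CenPt → NPt`.** -/
theorem nPt_of_cen (he : 0 < e) (hκ : 0 < κ) (h : CenPt far D R L p S) {x : ℕ → ℂ}
    (hx : x ∈ KK) : NPt (farF he hκ far) (D.toNear he hκ R) L p x := by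
  have hs := h.c_re
  have hX0 : ‖D.X p * x 0‖ ≤ ‖D.X p‖ := norm_mul_le_of (hx 0)
  have hX1 : ‖D.X p * x 0‖ < 1 := hX0.trans_lt h.X_lt
  have hF : fF ((D.toNear he hκ R).C0 p) (1 - (D.toNear he hκ R).X0 p * x 0) =
      Fc e κ (D.c p) (D.X p * x 0) := Fc_eq he hκ hs
  obtain ⟨hP, hR⟩ := cen_pos0 he hκ h hx
  have hpos := cen_pos he hκ h hx
  have hre : ∀ n, n ≤ L → 0 < (aP (farF he hκ far) (D.toNear he hκ R) L p x n).re :=
    fun n hn => h.re n hn _ (hpos n hn)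
  have hχ : ∀ n, n < L →
      ‖R.X n (aP (farF he hκ far) (D.toNear he hκ R) L p x n) * x (n + 1)‖ ≤
      ‖R.X n (aP (farF he hκ far) (D.toNear he hκ R) L p x n)‖ := fun n _ =>
    norm_mul_le_of (hx (n + 1))
  have hχ1 : ∀ n, n < L →
      ‖R.X n (aP (farF he hκ far) (D.toNear he hκ R) L p x n) * x (n + 1)‖ < 1 := fun n hn =>
    (hχ n hn).trans_lt (h.XR_lt n hn _ (hpos n hn.le))
  refine ⟨h.mem, mem_univ _, D.strip p h.mem, h.X_ne, one_ne_zero,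
    fun n hn => h.XR_ne n hn _ (hpos n hn.le), fun n hn => one_ne_zero, ?_, ?_, ?_, ?_, ?_,
    fun n hn => hre n hn.le, fun n hn => hre n hn.le, ?_, ?_, ?_, h.ent _ (hpos L le_rfl), ?_⟩
  · exact Complex.mem_slitPlane_iff.2 (Or.inl (re_one_sub hX1))
  · rw [hF]
    have h1 := F_slit he hκ hs hX1
    rw [fF_node he hκ hs] at h1
    exact h1
  · rw [hF]
    exact h.w0 _ hX0
  · rw [hR]
    exact h.rad0 _ hX0
  · rw [hF]
    exact h.rH _ hX0
  · intro n hn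
    exact Complex.mem_slitPlane_iff.2 (Or.inl (re_one_sub (hχ1 n hn)))
  · intro n hn
    obtain ⟨τ, hτ⟩ : ∃ τ, τ = aP (farF he hκ far) (D.toNear he hκ R) L p x n := ⟨_, rfl⟩
    have h1 := hχ1 n hn
    have h2 := hre n hn.le
    rw [← hτ] at h1 h2 ⊢
    show fF (cC e κ τ - log (cv e κ τ)) (1 - R.X n τ * x (n + 1)) ∈ slitPlane
    rw [fF_mul (cv_ne he hκ h2)]
    exact F_slit he hκ (shf_re hκ h2.le) h1
  · intro n hn
    obtain ⟨τ, hτ⟩ : ∃ τ, τ = aP (farF he hκ far) (D.toNear he hκ R) L p x n := ⟨_, rfl⟩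
    have h1 := hχ1 n hn
    have h2 := hre n hn.le
    have h3 := hχ n hn
    have h4 := hpos n hn.le
    rw [← hτ] at h1 h2 h3 h4 ⊢
    have h5 := (cen_step (D := D) (R := R) (p := p) (n := n) he hκ h2 h1).1
    have h6 := h.rad n hn τ h4 _ h3
    rw [← h5] at h6
    exact h6
  · intro n hn
    have hn' : n ≤ L := Nat.lt_succ_iff.1 hn
    rcases n with _ | n
    · have hv := cen_val he hκ h hx hn' rfl
      have hr := hre 0 hn'
      rw [hP] at hv hr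
      have hχ' : ‖rX far R L 0 (nxc e κ p (D.c p) (D.X p * x 0)) * x 1‖ ≤
          ‖rX far R L 0 (nxc e κ p (D.c p) (D.X p * x 0))‖ := norm_mul_le_of (hx 1)
      have hc := h.close0 _ _ hX0 hχ'
      rw [aPhi_zero, hP, hv]
      show ‖x 0 - 1 * (x 0 - lawF e κ (Cc e κ (D.c p)) 1 (D.X p)
        (nxc e κ p (D.c p) (D.X p * x 0)) _)‖ < θ
      rw [one_mul, sub_sub_cancel]
      unfold Cc
      rw [lawF_mul (fT_ne he hκ (shf_re hκ hs.le)), law_gen he hκ hs hr h.X_ne, norm_div,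
        div_lt_iff₀ (norm_pos_iff.2 h.X_ne)]
      exact hc
    · have hl : n < L := hn'
      obtain ⟨τ, hτ⟩ : ∃ τ, τ = aP (farF he hκ far) (D.toNear he hκ R) L p x n := ⟨_, rfl⟩
      have hP1 := cen_succ he hκ h hx hl hτ
      have hv := cen_val he hκ h hx hn' rfl
      have hr := hre (n + 1) hn'
      have h1 := hpos n hl.le
      have h2 := hre n hl.le
      have h3 := hχ n hl
      have hX := h.XR_ne n hl _ h1
      rw [hP1] at hv hr
      rw [← hτ] at h1 h2 h3 hX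
      have hχ' : ‖rX far R L (n + 1) (nxt e κ τ (R.X n τ * x (n + 1))) * x (n + 2)‖ ≤
          ‖rX far R L (n + 1) (nxt e κ τ (R.X n τ * x (n + 1)))‖ := norm_mul_le_of (hx (n + 2))
      have hc := h.close n hl τ h1 _ _ h3 hχ'
      rw [aPhi_succ hl, ← hτ, hP1, hv]
      show ‖x (n + 1) - 1 * (x (n + 1) - lawF e κ (cC e κ τ - log (cv e κ τ)) 1 (R.X n τ)
        (nxt e κ τ (R.X n τ * x (n + 1))) _)‖ < θ
      rw [one_mul, sub_sub_cancel, lawF_mul (cv_ne he hκ h2), law_eq he hκ h2 hr hX, norm_div,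
        div_lt_iff₀ (norm_pos_iff.2 hX)]
      exact hc

end cen

/-- **The result for one pair `(e, κ)`.** -/
theorem rdataF_of_cen (he : 0 < e) (hκ : 0 < κ) (hθ0 : 0 ≤ θ) (hθ1 : θ < 1) (far : FarN e κ θ)
    (D : Cen e κ) (R : Rad) (L : ℕ) {η : ℝ} (hη : 0 < η) (S : ℝ → ℕ → Set ℂ)
    (hseg : ∀ y : ℝ, 0 ≤ y → y ≤ η → CenPt far D R L ((y : ℂ) * I) (S y))
    (h0 : ∀ χ : ℂ, ‖χ‖ ≤ ‖D.X 0‖ → ‖rho e κ (Fc e κ (D.c 0) χ)‖ < 1)
    (test : ∀ χ : ℂ, ‖χ‖ ≤ ‖D.X ((η : ℂ) * I)‖ →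
      (H0 e κ ((η : ℂ) * I) (Fc e κ (D.c ((η : ℂ) * I)) χ)).re ≠ 1 / 2) :
    Nonempty (RDataF e κ) := by
  refine nonempty_RDataF_N' hκ hθ0 hθ1 (farF he hκ far) (D.toNear he hκ R) L hη
    (fun y hy hy2 x hx => nPt_of_cen he hκ (hseg y hy hy2) hx) ?_ ?_
  · intro x0 hx0
    have h1 := (hseg 0 le_rfl hη.le).c_re
    rw [ofReal_zero, zero_mul] at h1
    show ‖rho e κ (fF (Cc e κ (D.c 0)) (1 - D.X 0 * x0))‖ < 1
    rw [Fc_eq he hκ h1]
    exact h0 _ (norm_mul_le_of hx0)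
  · intro x0 hx0
    have h1 := (hseg η hη.le le_rfl).c_re
    have h2 := test _ (norm_mul_le_of hx0)
    rw [← Fc_eq he hκ h1] at h2
    exact h2

/-! ### the centre `nxc (s0 p) 0` -/

theorem step0F_diff (hκ : 0 < κ) {p C g : ℂ → ℂ} {z : ℂ}
    (dp : DifferentiableAt ℂ p z) (dC : DifferentiableAt ℂ C z) (dg : DifferentiableAt ℂ g z)
    (hp : |(p z).im| < Real.pi / (2 * κ)) (h : fF (C z) (g z) ∈ slitPlane)
    (hg : g z ∈ slitPlane)
    (hw : 1 - rho e κ (fF (C z) (g z)) ^ 2 * (1 - tanh (κ * p z) ^ 2) ∈ slitPlane)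
    (hr : rad0F e κ (p z) (C z) (g z) ∈ slitPlane) :
    DifferentiableAt ℂ (fun w => step0F e κ (p w) (C w) (g w)) z := by
  have dF : DifferentiableAt ℂ (fun w => fF (C w) (g w)) z := by
    unfold fF
    exact ((dC.neg.cexp).mul dg).const_sub 1
  have dρ : DifferentiableAt ℂ (fun w => rho e κ (fF (C w) (g w))) z := by
    unfold rho
    exact (dF.const_mul _).cpow_const (mul_slit (Pool.Agent.helper12.RP.Ck_pos hκ) h)
  have hc : cosh (κ * p z) ≠ 0 := by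
    intro h0
    have := re_cosh_pos hκ hp
    rw [h0] at this
    simp at this
  have dt : DifferentiableAt ℂ (fun w => tanh (κ * p w)) z := by
    have e1 : (fun w : ℂ => tanh (κ * p w)) = fun w => sinh (κ * p w) / cosh (κ * p w) := by
      funext w
      rw [tanh_eq_sinh_div_cosh]
    rw [e1]
    have dκ : DifferentiableAt ℂ (fun w : ℂ => (κ : ℂ) * p w) z := dp.const_mul _
    exact dκ.csinh.div dκ.ccosh hc
  have dT : DifferentiableAt ℂ (fun w => T1 (tanh (κ * p w)) (rho e κ (fF (C w) (g w)))) z := by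
    unfold T1
    have d1 : DifferentiableAt ℂ (fun w => 1 - tanh (κ * p w) ^ 2) z := (dt.pow 2).const_sub 1
    have d2 : DifferentiableAt ℂ
        (fun w => 1 - rho e κ (fF (C w) (g w)) ^ 2 * (1 - tanh (κ * p w) ^ 2)) z :=
      ((dρ.pow 2).mul d1).const_sub 1
    exact (dρ.mul d1).add (dt.mul (d2.cpow_const hw))
  have dA : DifferentiableAt ℂ (fun w => aF e κ (C w) (g w)) z := by
    unfold aF
    exact (((dC.div_const _).neg.cexp).const_mul _).mul (dg.cpow_const hg)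
  have hA : aF e κ (C z) (g z) ≠ 0 := aF_ne hκ hg
  have d1 : DifferentiableAt ℂ (fun w => 1 / aF e κ (C w) (g w)) z :=
    (differentiableAt_const _).div dA hA
  have dR : DifferentiableAt ℂ (fun w => rad0F e κ (p w) (C w) (g w)) z := by
    unfold rad0F
    exact ((d1.add (dT.const_mul 2)).div dA hA).const_add 1
  unfold step0F
  exact ((dR.cpow_const hr).sub_const _).div_const _

/-- the domain of the centre -/
def DE (e κ : ℝ) : Set ℂ :=
  {p | |p.im| < Real.pi / (2 * κ) ∧ -1 < p.re ∧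
    1 - rho e κ (fT e κ (s0 κ p)) ^ 2 * (1 - tanh (κ * p) ^ 2) ∈ slitPlane ∧
    rdc e κ p (s0 κ p) 0 ∈ slitPlane ∧ 0 < (nxc e κ p (s0 κ p) 0).re}

section DE

variable {p : ℂ}

theorem DE_s0 (hκ : 0 < κ) (h : p ∈ DE e κ) : 0 < (s0 κ p).re := s0_re hκ h.1 h.2.1

theorem DE_fF (he : 0 < e) (hκ : 0 < κ) {s : ℂ} (hs : 0 < s.re) :
    fF ((e : ℂ) * log (Qk κ s)) (fT e κ (shf κ s) * (1 - 0)) = fT e κ s := by
  rw [fF_node he hκ hs, mul_zero, add_zero, mul_one]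

theorem DE_g (he : 0 < e) (hκ : 0 < κ) {s : ℂ} (hs : 0 < s.re) :
    fT e κ (shf κ s) * (1 - 0) ∈ slitPlane := by
  rw [sub_zero, mul_one]
  exact fT_slit he hκ (shf_re hκ hs.le)

theorem DE_C_diff (hκ : 0 < κ) (h : p ∈ DE e κ) :
    DifferentiableAt ℂ (fun z => (e : ℂ) * log (Qk κ (s0 κ z))) p := by
  have h1 := s0_diff hκ h.1
  have h3 : DifferentiableAt ℂ (fun z => Qk κ (s0 κ z)) p := by
    unfold Qk
    exact (h1.const_mul _).const_add _
  exact (h3.clog (Qk_slit hκ (DE_s0 hκ h))).const_mul _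

theorem DE_g_diff (he : 0 < e) (hκ : 0 < κ) (h : p ∈ DE e κ) :
    DifferentiableAt ℂ (fun z => fT e κ (shf κ (s0 κ z)) * (1 - 0)) p := by
  have h1 := s0_diff hκ h.1
  have h2 := DE_s0 hκ h
  have h4 : DifferentiableAt ℂ (fun z => shf κ (s0 κ z)) p :=
    DifferentiableAt.comp (f := s0 κ) (g := shf κ) p (shf_diff hκ h2) h1
  have h5 := shf_re hκ h2.le
  have h6 : DifferentiableAt ℂ (fun z => fT e κ (shf κ (s0 κ z))) p :=
    DifferentiableAt.comp (f := fun z => shf κ (s0 κ z)) (g := fT e κ) p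
      (fT_diffAt he hκ h5) h4
  exact h6.mul_const _

theorem DE_c_diff (he : 0 < e) (hκ : 0 < κ) (h : p ∈ DE e κ) :
    DifferentiableAt ℂ (fun z => nxc e κ z (s0 κ z) 0) p := by
  have hs := DE_s0 hκ h
  have hF := DE_fF he hκ hs
  refine step0F_diff (p := fun z => z) (C := fun z => (e : ℂ) * log (Qk κ (s0 κ z)))
    (g := fun z => fT e κ (shf κ (s0 κ z)) * (1 - 0)) hκ differentiableAt_id (DE_C_diff hκ h)
    (DE_g_diff he hκ h) h.1 ?_ (DE_g he hκ hs) ?_ h.2.2.2.1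
  · show fF ((e : ℂ) * log (Qk κ (s0 κ p))) (fT e κ (shf κ (s0 κ p)) * (1 - 0)) ∈ slitPlane
    rw [hF]
    exact fT_slit he hκ hs
  · show 1 - rho e κ (fF ((e : ℂ) * log (Qk κ (s0 κ p))) (fT e κ (shf κ (s0 κ p)) * (1 - 0))) ^ 2 *
      (1 - tanh (κ * p) ^ 2) ∈ slitPlane
    rw [hF]
    exact h.2.2.1

theorem isOpen_DE (he : 0 < e) (hκ : 0 < κ) : IsOpen (DE e κ) := by
  rw [isOpen_iff_mem_nhds]
  intro p h
  have hs := DE_s0 hκ h
  have hF := DE_fF he hκ hs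
  have o1 : ∀ᶠ q : ℂ in 𝓝 p, |q.im| < Real.pi / (2 * κ) := by
    have hc : Continuous fun q : ℂ => |q.im| := Complex.continuous_im.abs
    exact hc.continuousAt.eventually (isOpen_Iio.mem_nhds h.1)
  have o2 : ∀ᶠ q : ℂ in 𝓝 p, -1 < q.re :=
    Complex.continuous_re.continuousAt.eventually (isOpen_Ioi.mem_nhds h.2.1)
  have c0 : ContinuousAt (fun q : ℂ => q) p := continuousAt_id
  have cC := (DE_C_diff (e := e) hκ h).continuousAt
  have cg := (DE_g_diff he hκ h).continuousAt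
  have hgs := DE_g he hκ hs
  have hFs : fF ((e : ℂ) * log (Qk κ (s0 κ p))) (fT e κ (shf κ (s0 κ p)) * (1 - 0)) ∈
      slitPlane := by
    rw [hF]
    exact fT_slit he hκ hs
  have hws : 1 - rho e κ (fF ((e : ℂ) * log (Qk κ (s0 κ p)))
      (fT e κ (shf κ (s0 κ p)) * (1 - 0))) ^ 2 * (1 - tanh (κ * p) ^ 2) ∈ slitPlane := by
    rw [hF]
    exact h.2.2.1
  have cf : ContinuousAt (fun q => fT e κ (s0 κ q)) p := by
    have := DifferentiableAt.comp (f := s0 κ) (g := fT e κ) p (fT_diffAt he hκ hs)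
      (s0_diff hκ h.1)
    exact this.continuousAt
  have ct : ContinuousAt (fun q : ℂ => tanh (κ * q)) p := (tanh_diff hκ h.1).continuousAt
  have o3 : ∀ᶠ q : ℂ in 𝓝 p,
      1 - rho e κ (fT e κ (s0 κ q)) ^ 2 * (1 - tanh (κ * q) ^ 2) ∈ slitPlane := by
    have c3 : ContinuousAt
        (fun q => 1 - rho e κ (fT e κ (s0 κ q)) ^ 2 * (1 - tanh (κ * q) ^ 2)) p :=
      continuousAt_const.sub (((cont_rho hκ cf (fT_slit he hκ hs)).pow 2).mul
        (continuousAt_const.sub (ct.pow 2)))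
    exact c3.eventually (isOpen_slitPlane.mem_nhds h.2.2.1)
  have o4 : ∀ᶠ q : ℂ in 𝓝 p, rdc e κ q (s0 κ q) 0 ∈ slitPlane := by
    have c4 : ContinuousAt (fun q => rdc e κ q (s0 κ q) 0) p :=
      cont_rad0F hκ c0 cC cg h.1 hgs hFs hws
    exact c4.eventually (isOpen_slitPlane.mem_nhds h.2.2.2.1)
  have o5 : ∀ᶠ q : ℂ in 𝓝 p, 0 < (nxc e κ q (s0 κ q) 0).re := by
    have c5 : ContinuousAt (fun q => nxc e κ q (s0 κ q) 0) p :=
      (DE_c_diff he hκ h).continuousAt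
    have c6 : ContinuousAt (fun q => (nxc e κ q (s0 κ q) 0).re) p :=
      (Complex.continuous_re.continuousAt).comp c5
    exact c6.eventually (isOpen_Ioi.mem_nhds h.2.2.2.2)
  filter_upwards [o1, o2, o3, o4, o5] with q h1 h2 h3 h4 h5
  exact ⟨h1, h2, h3, h4, h5⟩

theorem DE_conj (he : 0 < e) (hκ : 0 < κ) (h : p ∈ DE e κ) :
    rdc e κ (conj p) (s0 κ (conj p)) 0 = conj (rdc e κ p (s0 κ p) 0) ∧
    nxc e κ (conj p) (s0 κ (conj p)) 0 = conj (nxc e κ p (s0 κ p) 0) := by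
  have hs := DE_s0 hκ h
  have hF := DE_fF he hκ hs
  have h5 := shf_re hκ hs.le
  have hgs := DE_g he hκ hs
  have hFs : fF ((e : ℂ) * log (Qk κ (s0 κ p))) (fT e κ (shf κ (s0 κ p)) * (1 - 0)) ∈
      slitPlane := by
    rw [hF]
    exact fT_slit he hκ hs
  have hws : 1 - rho e κ (fF ((e : ℂ) * log (Qk κ (s0 κ p)))
      (fT e κ (shf κ (s0 κ p)) * (1 - 0))) ^ 2 * (1 - tanh (κ * p) ^ 2) ∈ slitPlane := by
    rw [hF]
    exact h.2.2.1
  have e1 : (e : ℂ) * log (Qk κ (s0 κ (conj p))) = conj ((e : ℂ) * log (Qk κ (s0 κ p))) := by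
    rw [s0_conj, Qk_conj, Complex.log_conj _ (slitPlane_arg_ne_pi (Qk_slit hκ hs)), map_mul,
      conj_ofReal]
  have e2 : fT e κ (shf κ (s0 κ (conj p))) * (1 - 0) = conj (fT e κ (shf κ (s0 κ p)) * (1 - 0)) := by
    rw [s0_conj, shf_conj hκ, fT_conj hκ h5, map_mul, map_sub, map_one, map_zero]
  unfold rdc nxc
  rw [e1, e2]
  exact ⟨conj_rad0F hκ hgs hFs hws, conj_step0F hκ hgs hFs hws h.2.2.2.1⟩

theorem conj_DE (he : 0 < e) (hκ : 0 < κ) (h : p ∈ DE e κ) : conj p ∈ DE e κ := by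
  have hs := DE_s0 hκ h
  obtain ⟨h1, h2⟩ := DE_conj he hκ h
  refine ⟨?_, ?_, ?_, ?_, ?_⟩
  · rw [conj_im, abs_neg]
    exact h.1
  · rw [conj_re]
    exact h.2.1
  · have e1 : 1 - rho e κ (fT e κ (s0 κ (conj p))) ^ 2 * (1 - tanh (κ * conj p) ^ 2) =
        conj (1 - rho e κ (fT e κ (s0 κ p)) ^ 2 * (1 - tanh (κ * p) ^ 2)) := by
      rw [s0_conj, fT_conj hκ hs, conj_rho hκ (fT_slit he hκ hs), conj_tanh]
      simp only [map_sub, map_one, map_mul, map_pow]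
    rw [e1]
    exact slit_conj h.2.2.1
  · rw [h1]
    exact slit_conj h.2.2.2.1
  · rw [h2, conj_re]
    exact h.2.2.2.2

end DE

/-- The centre of the first node: the first link for the exact value `f(s0)`. -/
noncomputable def cenE (he : 0 < e) (hκ : 0 < κ) (X : ℂ → ℂ)
    (hX : ∀ p : ℂ, |p.im| < Real.pi / (2 * κ) → -1 < p.re → DifferentiableAt ℂ X p)
    (hXc : ∀ p : ℂ, |p.im| < Real.pi / (2 * κ) → -1 < p.re → X (conj p) = conj (X p)) :
    Cen e κ where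
  DN := DE e κ
  isOpen_DN := isOpen_DE he hκ
  conj_DN := fun _ h => conj_DE he hκ h
  strip := fun _ h => h.1
  c := fun p => nxc e κ p (s0 κ p) 0
  c_diff := fun _ h => (DE_c_diff he hκ h).differentiableWithinAt
  c_conj := fun _ h => (DE_conj he hκ h).2
  c_re := fun _ h => h.2.2.2.2
  X := X
  X_diff := fun p h => (hX p h.1 h.2.1).differentiableWithinAt
  X_conj := fun p h => hXc p h.1 h.2.1

end Pool.Agent.helper31.EQB
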