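import Pool.Agent.helper31.EQB.FirstC3
import Pool.Agent.helper31.EQB.FirstT
import Pool.Agent.helper31.EQB.LinkStep
import Pool.Agent.helper31.EQB.RigL

/-!
# EQB-17: assembly for one pair `(e, κ)`

`AllL`: everything that the number programs give.  Segment `p = i y`, `0 ≤ y ≤ η`, `tan (κη) = π/β`: `tanh (κp) = i tan (κy) = t00 e κ v`,
`v = β tan (κy) ∈ [0, π]`, `cosh (κp) = cos (κy) ≠ 0`, `s0 κ p = shf κ (t00 e κ v)` (`s0_shf`).
`D = cenE` with `X p = C (1 + tanh (κp))`, `‖X p‖ = C √(β² + v²)/β`; `R.X n = Rx e κ (a n)`, `L = 5`,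
`S y n = {τ | St e κ (x n) (Λ n) (yn n) τ}`.
-/

namespace Pool.Agent.helper31.EQB

open Complex ComplexConjugate Set Filter Topology
open Pool.Agent.helper31.EQ.Y Pool.Agent.helper31.EQ.R
open Pool.Agent.helper12.EQL Pool.Agent.helper12.RP Pool.Agent.helper12.FF Pool.Agent.helper12.RS

variable {e κ θ : ℝ}

/-- What the programs prove, for one pair `(e, κ)`. -/
structure AllL (e κ : ℝ) (far : FarN e κ (1 - Real.sinh κ / 1024)) (C : ℝ) (x Λ yn a : ℕ → ℝ) :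
    Prop where
  C0 : 0 < C
  a0 : ∀ n, 0 < a n
  X1 : ∀ v : ℝ, 0 ≤ v → v ≤ Real.pi → C * √(bet e κ ^ 2 + v ^ 2) / bet e κ < 1
  first : ∀ v : ℝ, 0 ≤ v → v ≤ Real.pi → ∀ p : ℂ, cosh (κ * p) ≠ 0 →
    tanh (κ * p) = t00 e κ v →
    (∃ b, FH e κ v b (shf κ (t00 e κ v)) 0) ∧
    0 < (nxc e κ p (shf κ (t00 e κ v)) 0).re ∧
    ∀ χ : ℂ, ‖χ‖ ≤ C * √(bet e κ ^ 2 + v ^ 2) / bet e κ →
      (∃ b, FH e κ v b (nxc e κ p (shf κ (t00 e κ v)) 0) χ) ∧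
      St e κ (x 0) (Λ 0) (yn 0) (nxc e κ p (nxc e κ p (shf κ (t00 e κ v)) 0) χ) ∧
      ∀ χ' : ℂ, ‖χ'‖ ≤ ‖Rx e κ (a 0) (nxc e κ p (nxc e κ p (shf κ (t00 e κ v)) 0) χ)‖ →
        ‖1 - (1 - fT e κ (nxc e κ p (nxc e κ p (shf κ (t00 e κ v)) 0) χ)) /
            (1 - fT e κ (nxc e κ p (shf κ (t00 e κ v)) 0)) *
          (1 + qq e κ (shf κ (nxc e κ p (nxc e κ p (shf κ (t00 e κ v)) 0) χ)) * χ')‖ <
          (1 - Real.sinh κ / 1024) * (C * √(bet e κ ^ 2 + v ^ 2) / bet e κ)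
  test : ∀ p : ℂ, tanh (κ * p) = t00 e κ Real.pi → ∀ χ : ℂ,
    ‖χ‖ ≤ C * √(bet e κ ^ 2 + Real.pi ^ 2) / bet e κ →
    (H0 e κ p (Fc e κ (nxc e κ p (shf κ (t00 e κ Real.pi)) 0) χ)).re < 0
  link : ∀ n, n < 5 → ∀ τ : ℂ, St e κ (x n) (Λ n) (yn n) τ →
    ‖Rx e κ (a n) τ‖ < 1 ∧ ∀ χ : ℂ, ‖χ‖ ≤ ‖Rx e κ (a n) τ‖ →
      rd e κ τ χ ∈ slitPlane ∧
      St e κ (x (n + 1)) (Λ (n + 1)) (yn (n + 1)) (nxt e κ τ χ) ∧
      ∀ χ' : ℂ, ‖χ'‖ ≤ ‖Rx e κ (a (n + 1)) (nxt e κ τ χ)‖ →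
        ‖1 - R1 e κ τ (nxt e κ τ χ) * (1 + qq e κ (shf κ (nxt e κ τ χ)) * χ')‖ <
          (1 - Real.sinh κ / 1024) * ‖Rx e κ (a n) τ‖
  ent : ∀ τ : ℂ, St e κ (x 5) (Λ 5) (yn 5) τ →
    τ ∈ far.Ω 0 ∧ ‖far.X 0 τ‖ ≤ ‖Rx e κ (a 5) τ‖

/-- the points of the segment -/
private theorem seg_pt (he : 0 < e) (hκ : 0 < κ) {y : ℝ} (h0 : 0 ≤ y)
    (h1 : y ≤ Real.arctan (Real.pi / bet e κ) / κ) :
    |((y : ℂ) * I).im| < Real.pi / (2 * κ) ∧ cosh (κ * ((y : ℂ) * I)) ≠ 0 ∧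
    ∃ v : ℝ, v = bet e κ * Real.tan (κ * y) ∧ 0 ≤ v ∧ v ≤ Real.pi ∧
      tanh (κ * ((y : ℂ) * I)) = t00 e κ v := by
  have hK : 0 < Real.sinh κ := Real.sinh_pos_iff.2 hκ
  have hβ : 0 < bet e κ := mul_pos he hK
  have h2 : κ * y ≤ Real.arctan (Real.pi / bet e κ) := by
    rw [le_div_iff₀ hκ] at h1
    linarith
  have h3 : Real.arctan (Real.pi / bet e κ) < Real.pi / 2 := Real.arctan_lt_pi_div_two _
  have h4 : 0 ≤ κ * y := by positivity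
  have h5 : κ * y < Real.pi / 2 := by linarith
  have hs : |((y : ℂ) * I).im| < Real.pi / (2 * κ) := by
    have : ((y : ℂ) * I).im = y := by simp
    rw [this, abs_of_nonneg h0, lt_div_iff₀ (by positivity)]
    linarith
  have hc : cosh (κ * ((y : ℂ) * I)) ≠ 0 := by
    intro h
    have := re_cosh_pos hκ hs
    rw [h] at this
    simp at this
  refine ⟨hs, hc, _, rfl, ?_, ?_, ?_⟩
  · exact mul_nonneg hβ.le (Real.tan_nonneg_of_nonneg_of_le_pi_div_two h4 h5.le)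
  · have h6 : Real.tan (κ * y) ≤ Real.pi / bet e κ := by
      rw [← Real.tan_arctan (Real.pi / bet e κ)]
      rcases eq_or_lt_of_le h2 with h | h
      · rw [h]
      · exact (Real.tan_lt_tan_of_lt_of_lt_pi_div_two (by linarith [Real.pi_pos]) h3 h).le
    calc bet e κ * Real.tan (κ * y) ≤ bet e κ * (Real.pi / bet e κ) := by gcongr
      _ = Real.pi := by field_simp
  · have h7 : (κ : ℂ) * ((y : ℂ) * I) = ((κ * y : ℝ) : ℂ) * I := by push_cast; ring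
    rw [h7, Complex.tanh_mul_I, ← Complex.ofReal_tan]
    unfold t00
    rw [mul_div_cancel_left₀ _ hβ.ne']

/-- the radius at the first node -/
private theorem X_norm (he : 0 < e) (hκ : 0 < κ) {C v : ℝ} (hC : 0 < C) :
    ‖(C : ℂ) * (1 + t00 e κ v)‖ = C * √(bet e κ ^ 2 + v ^ 2) / bet e κ := by
  have hK : 0 < Real.sinh κ := Real.sinh_pos_iff.2 hκ
  have hβ : 0 < bet e κ := mul_pos he hK
  have h1 : ‖1 + t00 e κ v‖ = √(bet e κ ^ 2 + v ^ 2) / bet e κ := by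
    have h2 : (1 : ℂ) + t00 e κ v = ((1 : ℝ) : ℂ) + ((v / bet e κ : ℝ) : ℂ) * I := by
      unfold t00; push_cast; ring
    rw [h2, Complex.norm_add_mul_I]
    rw [show (1 : ℝ) ^ 2 + (v / bet e κ) ^ 2 = (bet e κ ^ 2 + v ^ 2) / bet e κ ^ 2 by
      field_simp, Real.sqrt_div (by positivity), Real.sqrt_sq hβ.le]
  rw [norm_mul, h1, Complex.norm_real, Real.norm_of_nonneg hC.le]
  ring

/-- the radii -/
private noncomputable def RxRad (hκ : 0 < κ) (e : ℝ) (a : ℕ → ℝ) : Rad where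
  X n τ := Rx e κ (a n) τ
  diff n τ h := by
    unfold Rx
    exact ((shf_diff hκ h).add_const _).const_mul _
  cj n τ h := by
    unfold Rx
    rw [shf_conj hκ, map_mul, map_add, map_one, conj_ofReal]

/-- **Assembly.** -/
theorem trap_of_all (he : 200 ≤ e) (hκ : 0 < κ) (hK : Real.sinh κ ≤ 1 / 10)
    (far : FarN e κ (1 - Real.sinh κ / 1024)) {C : ℝ} {x Λ yn a : ℕ → ℝ}
    (A : AllL e κ far C x Λ yn a) : Nonempty (Pool.Agent.helper31.EQ.SeqTrap e (Real.exp κ)) := by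
  have he0 : 0 < e := by linarith
  have hK0 : 0 < Real.sinh κ := Real.sinh_pos_iff.2 hκ
  have hβ : 0 < bet e κ := mul_pos he0 hK0
  have hπ := Real.pi_pos
  have hX : ∀ p : ℂ, |p.im| < Real.pi / (2 * κ) → -1 < p.re →
      DifferentiableAt ℂ (fun p : ℂ => (C : ℂ) * (1 + tanh (κ * p))) p := fun p h _ =>
    ((tanh_diff hκ h).const_add _).const_mul _
  have hXc : ∀ p : ℂ, |p.im| < Real.pi / (2 * κ) → -1 < p.re →
      (fun p : ℂ => (C : ℂ) * (1 + tanh (κ * p))) (conj p) =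
        conj ((fun p : ℂ => (C : ℂ) * (1 + tanh (κ * p))) p) := fun p _ _ => by
    show (C : ℂ) * (1 + tanh (κ * conj p)) = conj ((C : ℂ) * (1 + tanh (κ * p)))
    rw [conj_tanh, map_mul, map_add, map_one, conj_ofReal]
  obtain ⟨η, hη⟩ : ∃ η, η = Real.arctan (Real.pi / bet e κ) / κ := ⟨_, rfl⟩
  have hη0 : 0 < η := by
    rw [hη]
    exact div_pos (Real.arctan_pos.2 (by positivity)) hκ
  have key : ∀ y : ℝ, 0 ≤ y → y ≤ η → ∃ v : ℝ, v = bet e κ * Real.tan (κ * y) ∧ 0 ≤ v ∧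
      v ≤ Real.pi ∧ cosh (κ * ((y : ℂ) * I)) ≠ 0 ∧
      tanh (κ * ((y : ℂ) * I)) = t00 e κ v ∧ |((y : ℂ) * I).im| < Real.pi / (2 * κ) ∧
      s0 κ ((y : ℂ) * I) = shf κ (t00 e κ v) ∧
      ‖(C : ℂ) * (1 + tanh (κ * ((y : ℂ) * I)))‖ = C * √(bet e κ ^ 2 + v ^ 2) / bet e κ := by
    intro y h0 h1
    rw [hη] at h1
    obtain ⟨g1, g2, v, hv, g3, g4, g5⟩ := seg_pt he0 hκ h0 h1
    refine ⟨v, hv, g3, g4, g2, g5, g1, s0_shf he0 hκ g2 g5, ?_⟩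
    rw [g5]
    exact X_norm he0 hκ A.C0
  have hθ0 : 0 ≤ 1 - Real.sinh κ / 1024 := by linarith
  have hθ1 : 1 - Real.sinh κ / 1024 < 1 := by linarith [div_pos hK0 (by norm_num : (0:ℝ) < 1024)]
  have hseg : ∀ y : ℝ, 0 ≤ y → y ≤ η →
      CenPt far (cenE he0 hκ (fun p : ℂ => (C : ℂ) * (1 + tanh (κ * p))) hX hXc)
        (RxRad hκ e a) 5 ((y : ℂ) * I) (fun n => {τ | St e κ (x n) (Λ n) (yn n) τ}) := by
    intro y hy0 hy1
    obtain ⟨v, hv, g3, g4, g2, g5, g1, g6, g7⟩ := key y hy0 hy1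
    obtain ⟨p, hp⟩ : ∃ p : ℂ, p = (y : ℂ) * I := ⟨_, rfl⟩
    rw [← hp] at g1 g2 g5 g6 g7 ⊢
    obtain ⟨⟨b0, hb0⟩, hre, hF⟩ := A.first v g3 g4 p g2 g5
    have hT : tanh (κ * p) = ((v / bet e κ : ℝ) : ℂ) * I := g5
    obtain ⟨r1, r2, r3⟩ := first_rad hb0 hT
    have hFc : Fc e κ (shf κ (t00 e κ v)) 0 = fT e κ (shf κ (t00 e κ v)) := by
      unfold Fc
      rw [mul_zero, add_zero, mul_one]
    rw [hFc] at r1
    have hc : (cenE he0 hκ (fun p : ℂ => (C : ℂ) * (1 + tanh (κ * p))) hX hXc).c p =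
        nxc e κ p (shf κ (t00 e κ v)) 0 := by
      show nxc e κ p (s0 κ p) 0 = _
      rw [g6]
    have hXp : ‖(cenE he0 hκ (fun p : ℂ => (C : ℂ) * (1 + tanh (κ * p))) hX hXc).X p‖ =
        C * √(bet e κ ^ 2 + v ^ 2) / bet e κ := g7
    have hpr : 0 < C * √(bet e κ ^ 2 + v ^ 2) / bet e κ := by
      have := A.C0
      positivity
    refine ⟨?_, ?_, ?_, ?_, ?_, ?_, ?_, ?_, ?_, ?_, ?_, ?_, ?_, ?_, ?_⟩
    · refine ⟨g1, ?_, ?_, ?_, ?_⟩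
      · rw [hp]; simp
      · rw [g6]; exact r1
      · rw [g6]; exact r2
      · rw [g6]; exact hre
    · rw [← norm_pos_iff, hXp]; exact hpr
    · rw [hXp]; exact A.X1 v g3 g4
    · intro χ hχ
      rw [hXp] at hχ
      obtain ⟨⟨b, hb⟩, -⟩ := hF χ hχ
      rw [hc]
      exact (first_rad hb hT).1
    · intro χ hχ
      rw [hXp] at hχ
      obtain ⟨⟨b, hb⟩, -⟩ := hF χ hχ
      rw [hc]
      exact (first_rad hb hT).2.1
    · intro χ hχ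
      rw [hXp] at hχ
      obtain ⟨⟨b, hb⟩, -⟩ := hF χ hχ
      rw [hc]
      exact (first_rad hb hT).2.2
    · intro χ hχ
      rw [hXp] at hχ
      rw [hc]
      exact (hF χ hχ).2.1
    · intro n _ τ hτ
      exact hτ.re
    · intro n _ τ hτ
      show Rx e κ (a n) τ ≠ 0
      unfold Rx
      have h1 := shf_re hκ (le_of_lt hτ.re)
      have h2 := A.a0 n
      apply mul_ne_zero
      · have : 0 < a n * (4 / (4 + bet e κ)) * bet e κ := by positivity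
        exact_mod_cast this.ne'
      · intro h
        have := congrArg Complex.re h
        rw [add_re, one_re, zero_re] at this
        linarith
    · intro n hn τ hτ
      exact (A.link n hn τ hτ).1
    · intro n hn τ hτ χ hχ
      exact ((A.link n hn τ hτ).2 χ hχ).1
    · intro n hn τ hτ χ hχ
      exact ((A.link n hn τ hτ).2 χ hχ).2.1
    · intro τ hτ
      exact (A.ent τ hτ).1
    · intro χ χ' hχ hχ'
      rw [hXp] at hχ
      rw [hc] at hχ' ⊢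
      rw [hXp]
      refine (hF χ hχ).2.2 χ' ?_
      have h1 : rX far (RxRad hκ e a) 5 0 (nxc e κ p (nxc e κ p (shf κ (t00 e κ v)) 0) χ) =
          Rx e κ (a 0) (nxc e κ p (nxc e κ p (shf κ (t00 e κ v)) 0) χ) := by
        unfold rX
        rw [if_pos (by norm_num)]
        rfl
      rw [h1] at hχ'
      exact hχ'
    · intro n hn τ hτ χ χ' hχ hχ'
      refine ((A.link n hn τ hτ).2 χ hχ).2.2 χ' (hχ'.trans ?_)
      unfold rX
      split_ifs with h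
      · exact le_rfl
      · have hn4 : n = 4 := by omega
        subst hn4
        have h1 := ((A.link 4 hn τ hτ).2 χ hχ).2.1
        exact (A.ent _ h1).2
  refine (rdataF_of_cen he0 hκ hθ0 hθ1 far
    (cenE he0 hκ (fun p : ℂ => (C : ℂ) * (1 + tanh (κ * p))) hX hXc) (RxRad hκ e a) 5 hη0
    (fun _ n => {τ | St e κ (x n) (Λ n) (yn n) τ}) hseg ?_ ?_).elim
    fun W => RDataF.nonempty_seqTrap (by linarith) hκ W
  · intro χ hχ
    obtain ⟨v, hv, g3, g4, g2, g5, g1, g6, g7⟩ := key 0 le_rfl hη0.le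
    rw [ofReal_zero, zero_mul] at g1 g2 g5 g6 g7
    have hc : (cenE he0 hκ (fun p : ℂ => (C : ℂ) * (1 + tanh (κ * p))) hX hXc).c 0 =
        nxc e κ 0 (shf κ (t00 e κ v)) 0 := by
      show nxc e κ 0 (s0 κ 0) 0 = _
      rw [g6]
    have hXp : ‖(cenE he0 hκ (fun p : ℂ => (C : ℂ) * (1 + tanh (κ * p))) hX hXc).X 0‖ =
        C * √(bet e κ ^ 2 + v ^ 2) / bet e κ := g7
    rw [hXp] at hχ
    obtain ⟨-, -, hF⟩ := A.first v g3 g4 0 g2 g5
    obtain ⟨⟨b, hb⟩, -⟩ := hF χ hχ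
    rw [hc]
    exact rho_lt hb
  · intro χ hχ
    obtain ⟨v, hv, g3, g4, g2, g5, g1, g6, g7⟩ := key η hη0.le le_rfl
    have hvπ : v = Real.pi := by
      rw [hv, hη, mul_div_cancel₀ _ hκ.ne', Real.tan_arctan]
      field_simp
    obtain ⟨p, hp⟩ : ∃ p : ℂ, p = (η : ℂ) * I := ⟨_, rfl⟩
    rw [← hp] at g1 g2 g5 g6 g7 hχ ⊢
    have hc : (cenE he0 hκ (fun p : ℂ => (C : ℂ) * (1 + tanh (κ * p))) hX hXc).c p =
        nxc e κ p (shf κ (t00 e κ v)) 0 := by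
      show nxc e κ p (s0 κ p) 0 = _
      rw [g6]
    have hXp : ‖(cenE he0 hκ (fun p : ℂ => (C : ℂ) * (1 + tanh (κ * p))) hX hXc).X p‖ =
        C * √(bet e κ ^ 2 + v ^ 2) / bet e κ := g7
    rw [hXp] at hχ
    rw [hc]
    rw [hvπ] at hχ g5 ⊢
    have := A.test p g5 χ hχ
    linarith

end Pool.Agent.helper31.EQB
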