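import Pool.Agent.helper31.EQB.Prog

/-!
# EQB programs: the constants (generated) and the statements to prove
-/

namespace Pool.Agent.helper31.EQB

open Complex ComplexConjugate Set Filter Topology
open Pool.Agent.helper31.EQ.Y Pool.Agent.helper31.EQ.R
open Pool.Agent.helper12.EQL Pool.Agent.helper12.RP Pool.Agent.helper12.FF Pool.Agent.helper12.RS
open Pool.Agent.helper63.FF

/-- chart A: positions -/
noncomputable def xA : ℕ → ℝ
  | 0 => 507 / 4096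
  | 1 => 231 / 256
  | 2 => 1753 / 1024
  | 3 => 5215 / 2048
  | 4 => 6965 / 2048
  | 5 => 17491 / 4096
  | _ => 0

/-- chart A: `Λ` -/
noncomputable def LamA : ℕ → ℝ
  | 0 => 489 / 256
  | 1 => 1613 / 512
  | 2 => 4475 / 1024
  | 3 => 2847 / 512
  | 4 => 3451 / 512
  | 5 => 8111 / 1024
  | _ => 0

/-- chart A: bound of `|y|` -/
noncomputable def ynA : ℕ → ℝ
  | 0 => 3277 / 1024
  | 1 => 13149 / 4096
  | 2 => 6595 / 2048
  | 3 => 13231 / 4096
  | 4 => 1659 / 512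
  | 5 => 13313 / 4096
  | _ => 0

/-- chart A: radii -/
noncomputable def aA : ℕ → ℝ
  | 0 => 839 / 8192
  | 1 => 705 / 8192
  | 2 => 151 / 2048
  | 3 => 33 / 512
  | 4 => 469 / 8192
  | 5 => 419 / 8192
  | _ => 0

/-- chart B: positions -/
noncomputable def xB : ℕ → ℝ
  | 0 => 301 / 512
  | 1 => 5679 / 4096
  | 2 => 9077 / 4096
  | 3 => 781 / 256
  | 4 => 3965 / 1024
  | 5 => 19127 / 4096
  | _ => 0

/-- chart B: `Λ` -/
noncomputable def LamB : ℕ → ℝ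
  | 0 => 1497 / 1024
  | 1 => 2775 / 1024
  | 2 => 2019 / 512
  | 3 => 83 / 16
  | 4 => 6613 / 1024
  | 5 => 7951 / 1024
  | _ => 0

/-- chart B: bound of `|y|`, constant -/
noncomputable def ynB0 : ℕ → ℝ
  | 0 => 3277 / 1024
  | 1 => 6563 / 2048
  | 2 => 13249 / 4096
  | 3 => 13463 / 4096
  | 4 => 6875 / 2048
  | 5 => 6997 / 2048
  | _ => 0

/-- chart B: bound of `|y|`, coefficient of `K` -/
noncomputable def ynB1 : ℕ → ℝ
  | 0 => 29 / 64
  | 1 => 471 / 256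
  | 2 => 37 / 16
  | 3 => 517 / 256
  | 4 => 269 / 256
  | 5 => 0
  | _ => 0

/-- chart B: radii, constant -/
noncomputable def aB0 : ℕ → ℝ
  | 0 => 223 / 4096
  | 1 => 881 / 16384
  | 2 => 871 / 16384
  | 3 => 861 / 16384
  | 4 => 851 / 16384
  | 5 => 419 / 8192
  | _ => 0

/-- chart B: radii, coefficient of `1/β` -/
noncomputable def aB1 : ℕ → ℝ
  | 0 => 133 / 512
  | 1 => 401 / 4096
  | 2 => 51 / 2048
  | 3 => 3 / 4096
  | 4 => 3 / 4096
  | 5 => 0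
  | _ => 0

/-- chart B: bound of `|y|` -/
noncomputable def ynB (κ : ℝ) (n : ℕ) : ℝ := ynB0 n + ynB1 n * Real.sinh κ

/-- chart B: radii -/
noncomputable def aB (e κ : ℝ) (n : ℕ) : ℝ := aB0 n + aB1 n * (bet e κ)⁻¹

/-- constants of the links of chart A -/
noncomputable def cA : ℕ → CLA
  | 0 => {
    x := 507 / 4096, d := 907 / 4096, La := 489 / 256, rho := 10625 / 1024, RW := 5975 / 2048,
    L1 := 287 / 256, a := 839 / 8192, hL2 := 1107899 / 1048576, Ld := 498439 / 262144,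
    hLe := 1519931 / 1048576, RH := 2125 / 512, RHq := 70557 / 4096, dq := 14511 / 65536,
    ex0 := 2095 / 2048, La1 := 1613 / 512, Yd := 41 / 4096, a1 := 705 / 8192, tha := 53695 / 524288 }
  | 1 => {
    x := 231 / 256, d := 195 / 1024, La := 1613 / 512, rho := 27495 / 2048, RW := 8521 / 2048,
    L1 := 31083 / 16384, a := 705 / 8192, hL2 := 1513259 / 1048576, Ld := 2840815 / 1048576,
    hLe := 1942511 / 1048576, RH := 5499 / 1024, RHq := 59061 / 2048, dq := 12479 / 65536,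
    ex0 := 4255 / 4096, La1 := 4475 / 1024, Yd := 41 / 4096, a1 := 151 / 2048, tha := 90239 / 1048576
    }
  | 2 => {
    x := 1753 / 1024, d := 339 / 2048, La := 4475 / 1024, rho := 16795 / 1024, RW := 11025 / 2048,
    L1 := 22145 / 8192, a := 151 / 2048, hL2 := 1933983 / 1048576, Ld := 232023 / 65536,
    hLe := 2377025 / 1048576, RH := 3359 / 512, RHq := 22037 / 512, dq := 10847 / 65536,
    ex0 := 4325 / 4096, La1 := 2847 / 512, Yd := 41 / 4096, a1 := 33 / 512, tha := 77311 / 1048576 }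
  | 3 => {
    x := 5215 / 2048, d := 149 / 1024, La := 2847 / 512, rho := 19815 / 1024, RW := 13469 / 2048,
    L1 := 28939 / 8192, a := 33 / 512, hL2 := 2366591 / 1048576, Ld := 4602693 / 1048576,
    hLe := 2820599 / 1048576, RH := 3963 / 512, RHq := 245397 / 4096, dq := 9535 / 65536,
    ex0 := 2199 / 2048, La1 := 3451 / 512, Yd := 41 / 4096, a1 := 469 / 8192, tha := 67583 / 1048576 }
  | 4 => {
    x := 6965 / 2048, d := 535 / 4096, La := 3451 / 512, rho := 45675 / 2048, RW := 15891 / 2048,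
    L1 := 71759 / 16384, a := 469 / 8192, hL2 := 2808217 / 1048576, Ld := 2752895 / 524288,
    hLe := 1635113 / 524288, RH := 9135 / 1024, RHq := 162985 / 2048, dq := 8559 / 65536,
    ex0 := 4473 / 4096, La1 := 8111 / 1024, Yd := 41 / 4096, a1 := 419 / 8192, tha := 60031 / 1048576
    }
  | _ => {
    x := 0, d := 0, La := 0, rho := 0, RW := 0, L1 := 0, a := 0, hL2 := 0, Ld := 0, hLe := 0, RH := 0,
    RHq := 0, dq := 0, ex0 := 0, La1 := 0, Yd := 0, a1 := 0, tha := 0 }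

/-- rows of the links of chart A: node `n`, row `j` -/
noncomputable def rA : ℕ → ℕ → CRA
  | 0, 0 => { Mo := 29 / 16, M1 := 35 / 32, ym := 2007 / 2048, bm := 5121 / 1024 }
  | 0, 1 => { Mo := 75 / 32, M1 := 95 / 64, ym := 9093 / 4096, bm := 5121 / 1024 }
  | 0, 2 => { Mo := 117 / 32, M1 := 23 / 8, ym := 4055 / 1024, bm := 5121 / 1024 }
  | 0, 3 => { Mo := 171 / 32, M1 := 143 / 32, ym := 20551 / 4096, bm := 5121 / 1024 }
  | 0, 4 => { Mo := 283 / 64, M1 := 231 / 64, ym := 20551 / 4096, bm := 5 / 2 }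
  | 0, 5 => { Mo := 375 / 64, M1 := 161 / 32, ym := 5849 / 1024, bm := 3 }
  | 0, 6 => { Mo := 427 / 64, M1 := 383 / 64, ym := 25395 / 4096, bm := 2 }
  | 0, 7 => { Mo := 535 / 64, M1 := 245 / 32, ym := 6869 / 1024, bm := 3 / 2 }
  | 1, 0 => { Mo := 35 / 32, M1 := 35 / 32, ym := 2007 / 2048, bm := 5121 / 1024 }
  | 1, 1 => { Mo := 95 / 64, M1 := 95 / 64, ym := 9093 / 4096, bm := 5121 / 1024 }
  | 1, 2 => { Mo := 23 / 8, M1 := 23 / 8, ym := 4055 / 1024, bm := 5121 / 1024 }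
  | 1, 3 => { Mo := 143 / 32, M1 := 143 / 32, ym := 20551 / 4096, bm := 5121 / 1024 }
  | 1, 4 => { Mo := 231 / 64, M1 := 231 / 64, ym := 20551 / 4096, bm := 5 / 2 }
  | 1, 5 => { Mo := 161 / 32, M1 := 161 / 32, ym := 5849 / 1024, bm := 3 }
  | 1, 6 => { Mo := 383 / 64, M1 := 383 / 64, ym := 25395 / 4096, bm := 2 }
  | 1, 7 => { Mo := 245 / 32, M1 := 245 / 32, ym := 6869 / 1024, bm := 3 / 2 }
  | 2, 0 => { Mo := 35 / 32, M1 := 35 / 32, ym := 2007 / 2048, bm := 5121 / 1024 }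
  | 2, 1 => { Mo := 95 / 64, M1 := 95 / 64, ym := 9093 / 4096, bm := 5121 / 1024 }
  | 2, 2 => { Mo := 23 / 8, M1 := 23 / 8, ym := 4055 / 1024, bm := 5121 / 1024 }
  | 2, 3 => { Mo := 143 / 32, M1 := 143 / 32, ym := 20551 / 4096, bm := 5121 / 1024 }
  | 2, 4 => { Mo := 231 / 64, M1 := 231 / 64, ym := 20551 / 4096, bm := 5 / 2 }
  | 2, 5 => { Mo := 161 / 32, M1 := 161 / 32, ym := 5849 / 1024, bm := 3 }
  | 2, 6 => { Mo := 383 / 64, M1 := 383 / 64, ym := 25395 / 4096, bm := 2 }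
  | 2, 7 => { Mo := 245 / 32, M1 := 245 / 32, ym := 6869 / 1024, bm := 3 / 2 }
  | 3, 0 => { Mo := 35 / 32, M1 := 35 / 32, ym := 2007 / 2048, bm := 5121 / 1024 }
  | 3, 1 => { Mo := 95 / 64, M1 := 95 / 64, ym := 9093 / 4096, bm := 5121 / 1024 }
  | 3, 2 => { Mo := 23 / 8, M1 := 23 / 8, ym := 4055 / 1024, bm := 5121 / 1024 }
  | 3, 3 => { Mo := 143 / 32, M1 := 143 / 32, ym := 20551 / 4096, bm := 5121 / 1024 }
  | 3, 4 => { Mo := 231 / 64, M1 := 231 / 64, ym := 20551 / 4096, bm := 5 / 2 }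
  | 3, 5 => { Mo := 161 / 32, M1 := 161 / 32, ym := 5849 / 1024, bm := 3 }
  | 3, 6 => { Mo := 383 / 64, M1 := 383 / 64, ym := 25395 / 4096, bm := 2 }
  | 3, 7 => { Mo := 245 / 32, M1 := 245 / 32, ym := 6869 / 1024, bm := 3 / 2 }
  | 4, 0 => { Mo := 35 / 32, M1 := 35 / 32, ym := 2007 / 2048, bm := 5121 / 1024 }
  | 4, 1 => { Mo := 95 / 64, M1 := 95 / 64, ym := 9093 / 4096, bm := 5121 / 1024 }
  | 4, 2 => { Mo := 23 / 8, M1 := 23 / 8, ym := 4055 / 1024, bm := 5121 / 1024 }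
  | 4, 3 => { Mo := 143 / 32, M1 := 143 / 32, ym := 20551 / 4096, bm := 5121 / 1024 }
  | 4, 4 => { Mo := 231 / 64, M1 := 231 / 64, ym := 20551 / 4096, bm := 5 / 2 }
  | 4, 5 => { Mo := 161 / 32, M1 := 161 / 32, ym := 5849 / 1024, bm := 3 }
  | 4, 6 => { Mo := 383 / 64, M1 := 383 / 64, ym := 25395 / 4096, bm := 2 }
  | 4, 7 => { Mo := 245 / 32, M1 := 245 / 32, ym := 6869 / 1024, bm := 3 / 2 }
  | _, _ => { Mo := 0, M1 := 0, ym := 0, bm := 0 }

/-- constants of the links of chart B -/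
noncomputable def cB : ℕ → CLB
  | 0 => {
    x := 301 / 512, d := 825 / 4096, L0 := 1497 / 1024, rho2 := 3781 / 512, rho1 := 3781 / 2048,
    La := 2521 / 1024, x1 := 813 / 512, x2 := 1325 / 512, a := 223 / 4096, a1 := 133 / 512,
    b := 881 / 16384, b1 := 401 / 4096, xd := 9775 / 4096, xe := 13871 / 4096, RH := 3781 / 1024,
    RHq := 13961 / 1024, La1 := 2775 / 1024, Yn := 6563 / 2048, Y2n := 471 / 256, Y0n := 3277 / 1024,
    Y20 := 29 / 64 }
  | 1 => {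
    x := 5679 / 4096, d := 349 / 2048, L0 := 2775 / 1024, rho2 := 5037 / 512, rho1 := 5037 / 2048,
    La := 3799 / 1024, x1 := 9775 / 4096, x2 := 13871 / 4096, a := 881 / 16384, a1 := 401 / 4096,
    b := 871 / 16384, b1 := 51 / 2048, xd := 13173 / 4096, xe := 17269 / 4096, RH := 5037 / 1024,
    RHq := 99107 / 4096, La1 := 2019 / 512, Yn := 13249 / 4096, Y2n := 37 / 16, Y0n := 6563 / 2048,
    Y20 := 471 / 256 }
  | 2 => {
    x := 9077 / 4096, d := 677 / 4096, L0 := 2019 / 512, rho2 := 3149 / 256, rho1 := 3149 / 1024,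
    La := 2531 / 512, x1 := 13173 / 4096, x2 := 17269 / 4096, a := 871 / 16384, a1 := 51 / 2048,
    b := 861 / 16384, b1 := 3 / 4096, xd := 1037 / 256, xe := 1293 / 256, RH := 3149 / 512,
    RHq := 154941 / 4096, La1 := 83 / 16, Yn := 13463 / 4096, Y2n := 517 / 256, Y0n := 13249 / 4096,
    Y20 := 37 / 16 }
  | 3 => {
    x := 781 / 256, d := 183 / 1024, L0 := 83 / 16, rho2 := 7579 / 512, rho1 := 7579 / 2048,
    La := 99 / 16, x1 := 1037 / 256, x2 := 1293 / 256, a := 861 / 16384, a1 := 3 / 4096,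
    b := 851 / 16384, b1 := 3 / 4096, xd := 4989 / 1024, xe := 6013 / 1024, RH := 7579 / 1024,
    RHq := 56095 / 1024, La1 := 6613 / 1024, Yn := 6875 / 2048, Y2n := 269 / 256, Y0n := 13463 / 4096,
    Y20 := 517 / 256 }
  | 4 => {
    x := 3965 / 1024, d := 829 / 4096, L0 := 6613 / 1024, rho2 := 2223 / 128, rho1 := 2223 / 512,
    La := 7637 / 1024, x1 := 4989 / 1024, x2 := 6013 / 1024, a := 851 / 16384, a1 := 3 / 4096,
    b := 419 / 8192, b1 := 0, xd := 23223 / 4096, xe := 27319 / 4096, RH := 2223 / 256,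
    RHq := 308859 / 4096, La1 := 7951 / 1024, Yn := 6997 / 2048, Y2n := 0, Y0n := 6875 / 2048,
    Y20 := 269 / 256 }
  | _ => {
    x := 0, d := 0, L0 := 0, rho2 := 0, rho1 := 0, La := 0, x1 := 0, x2 := 0, a := 0, a1 := 0, b := 0,
    b1 := 0, xd := 0, xe := 0, RH := 0, RHq := 0, La1 := 0, Yn := 0, Y2n := 0, Y0n := 0, Y20 := 0 }

/-- constants of the first node, chart A -/
noncomputable def cFA : CFA := {
    cD := 461 / 512, RH := 1485 / 512, RH1 := 7763 / 4096, RHq := 34457 / 4096, rho := 7425 / 1024,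
    x0 := 507 / 4096, Lam0 := 489 / 256, Y0 := 3277 / 1024, exK := 33431 / 32768, a0 := 839 / 8192,
    tha := 72351 / 524288, aS := 2261 / 16384, lc0 := 1644419 / 1048576, lc1 := 70115 / 524288 }

/-- rows of the first node -/
noncomputable def rF : ℕ → CRF
  | 0 => { Ma := 45 / 16, Mb := 29 / 16, M1 := 29 / 16, yr := 1, br := 5121 / 1024 }
  | 1 => { Ma := 107 / 32, Mb := 75 / 32, M1 := 75 / 32, yr := 3 / 2, br := 5121 / 1024 }
  | 2 => { Ma := 149 / 32, Mb := 117 / 32, M1 := 117 / 32, yr := 2, br := 5121 / 1024 }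
  | 3 => { Ma := 203 / 32, Mb := 171 / 32, M1 := 171 / 32, yr := 9 / 4, br := 5121 / 1024 }
  | 4 => { Ma := 347 / 64, Mb := 283 / 64, M1 := 283 / 64, yr := 9 / 4, br := 5 / 2 }
  | 5 => { Ma := 439 / 64, Mb := 375 / 64, M1 := 375 / 64, yr := 4915 / 2048, br := 3 }
  | 6 => { Ma := 491 / 64, Mb := 427 / 64, M1 := 427 / 64, yr := 5 / 2, br := 2 }
  | 7 => { Ma := 599 / 64, Mb := 535 / 64, M1 := 535 / 64, yr := 10649 / 4096, br := 3 / 2 }
  | _ => { Ma := 0, Mb := 0, M1 := 0, yr := 0, br := 0 }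

/-- constants of the first node, chart B -/
noncomputable def cFB1 : CFB := {
    cD := 123 / 128, RH := 2509 / 1024, RH1 := 5919 / 4096, RHq := 24591 / 4096, rho2 := 2509 / 512,
    rho1 := 2509 / 2048, x0 := 301 / 512, Lam0 := 1497 / 1024, Y0 := 3277 / 1024, Y02 := 29 / 64,
    a00 := 223 / 4096, a01 := 133 / 512, C := 1209 / 4096, lc0 := 337167 / 524288,
    lc1 := 421109 / 1048576, lc02 := 337167 / 262144, lc12 := 421109 / 524288 }

/-- constants of the first node, chart B -/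
noncomputable def cFB2 : CFB := {
    cD := 1055 / 1024, RH := 2509 / 1024, RH1 := 5919 / 4096, RHq := 24591 / 4096, rho2 := 2509 / 512,
    rho1 := 2509 / 2048, x0 := 301 / 512, Lam0 := 1497 / 1024, Y0 := 3277 / 1024, Y02 := 29 / 64,
    a00 := 223 / 4096, a01 := 133 / 512, C := 1209 / 4096, lc0 := 143913 / 524288,
    lc1 := 366181 / 524288, lc02 := 143913 / 262144, lc12 := 366181 / 262144 }

/-- the radius of the first node, chart A: `C √(β²+v²)/β = aS 4/(4+β) √(β²+v²)` -/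
noncomputable def CA (e κ : ℝ) : ℝ := cFA.aS * 4 * bet e κ / (4 + bet e κ)

/-- One link. -/
def LinkOK (e κ a x1 L1 yn1 a1 : ℝ) (τ : ℂ) : Prop :=
  ‖Rx e κ a τ‖ < 1 ∧ ∀ χ : ℂ, ‖χ‖ ≤ ‖Rx e κ a τ‖ →
    rd e κ τ χ ∈ slitPlane ∧ St e κ x1 L1 yn1 (nxt e κ τ χ) ∧
    ∀ χ' : ℂ, ‖χ'‖ ≤ ‖Rx e κ a1 (nxt e κ τ χ)‖ →
      ‖1 - R1 e κ τ (nxt e κ τ χ) * (1 + qq e κ (shf κ (nxt e κ τ χ)) * χ')‖ <
        (1 - Real.sinh κ / 1024) * ‖Rx e κ a τ‖

/-- The first node at `v`. -/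
def FirstOK (e κ C x0 L0 y0 a0 v : ℝ) : Prop :=
  ∀ p : ℂ, cosh (κ * p) ≠ 0 → tanh (κ * p) = t00 e κ v →
    (∃ b, FH e κ v b (shf κ (t00 e κ v)) 0) ∧
    0 < (nxc e κ p (shf κ (t00 e κ v)) 0).re ∧
    ∀ χ : ℂ, ‖χ‖ ≤ C * √(bet e κ ^ 2 + v ^ 2) / bet e κ →
      (∃ b, FH e κ v b (nxc e κ p (shf κ (t00 e κ v)) 0) χ) ∧
      St e κ x0 L0 y0 (nxc e κ p (nxc e κ p (shf κ (t00 e κ v)) 0) χ) ∧
      ∀ χ' : ℂ, ‖χ'‖ ≤ ‖Rx e κ a0 (nxc e κ p (nxc e κ p (shf κ (t00 e κ v)) 0) χ)‖ →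
        ‖1 - (1 - fT e κ (nxc e κ p (nxc e κ p (shf κ (t00 e κ v)) 0) χ)) /
            (1 - fT e κ (nxc e κ p (shf κ (t00 e κ v)) 0)) *
          (1 + qq e κ (shf κ (nxc e κ p (nxc e κ p (shf κ (t00 e κ v)) 0) χ)) * χ')‖ <
          (1 - Real.sinh κ / 1024) * (C * √(bet e κ ^ 2 + v ^ 2) / bet e κ)

/-- The test at `v = π`. -/
def TestOK (e κ C : ℝ) : Prop :=
  ∀ p : ℂ, tanh (κ * p) = t00 e κ Real.pi → ∀ χ : ℂ,
    ‖χ‖ ≤ C * √(bet e κ ^ 2 + Real.pi ^ 2) / bet e κ →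
    (H0 e κ p (Fc e κ (nxc e κ p (shf κ (t00 e κ Real.pi)) 0) χ)).re < 0

end Pool.Agent.helper31.EQB
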