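import Pool.Agent.helper31.EQB.MBx

/-!
# EQB-16b: base and uniform bound (see the header of MBx)
-/

namespace Pool.Agent.helper31.EQB

open Complex ComplexConjugate Set Filter Topology
open Pool.Agent.helper31.EQ.Y Pool.Agent.helper31.EQ.R
open Pool.Agent.helper12.EQL Pool.Agent.helper12.RP Pool.Agent.helper12.FF

variable {e κ x y0 M : ℝ}

/-- at `t = 1` the bound `1` holds strictly -/
theorem MB_one_strict (he : 0 < e) (hκ : 0 < κ) :
    ‖deriv (fT e κ) 1‖ < e * Real.sinh κ * 1 * ‖fT e κ 1‖ := by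
  have h1 : (0 : ℝ) < (1 : ℂ).re := by norm_num
  have hK : 0 < Real.sinh κ := Real.sinh_pos_iff.2 hκ
  have hs1 : shf κ 1 = 1 := shf_one hκ
  have hQ : Qk κ 1 = ((Real.exp κ : ℝ) : ℂ) := by
    unfold Qk
    rw [← Real.cosh_add_sinh]
    push_cast
    ring
  have hrec := deriv_rec he hκ h1
  have hone := one_sub_fT he hκ h1
  rw [hs1, hQ] at hrec hone
  have hf0 : fT e κ 1 ≠ 0 := fT_ne he hκ h1
  obtain ⟨E, hE⟩ : ∃ E : ℝ, E = Real.exp κ := ⟨_, rfl⟩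
  have hE1 : 1 < E := by rw [hE]; exact Real.one_lt_exp_iff.2 hκ
  have hpow : (((Real.exp κ : ℝ) : ℂ) ^ (-(e : ℂ))) = ((Real.exp (-(e * κ)) : ℝ) : ℂ) := by
    rw [cpow_def_of_ne_zero (by exact_mod_cast (Real.exp_pos κ).ne'), ← ofReal_log
      (Real.exp_pos κ).le, Real.log_exp, ofReal_exp]
    congr 1
    push_cast
    ring
  rw [hpow] at hone
  rw [← hE] at hrec
  obtain ⟨q, hq⟩ : ∃ q : ℝ, q = Real.exp (-(e * κ)) := ⟨_, rfl⟩
  have hq0 : 0 < q := by rw [hq]; exact Real.exp_pos _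
  have hq1 : q < 1 := by
    rw [hq]
    exact Real.exp_lt_one_iff.2 (by have := mul_pos he hκ; linarith)
  rw [← hq] at hone
  obtain ⟨f, hf⟩ : ∃ f, f = fT e κ 1 := ⟨_, rfl⟩
  obtain ⟨g, hg⟩ : ∃ g, g = deriv (fT e κ) 1 := ⟨_, rfl⟩
  rw [← hf] at hone hf0 hrec ⊢
  rw [← hg] at hrec ⊢
  rw [hone] at hrec
  obtain ⟨K, hKd⟩ : ∃ K : ℝ, K = Real.sinh κ := ⟨_, rfl⟩
  rw [← hKd] at hrec hK ⊢
  have hE0 : (E : ℂ) ≠ 0 := by exact_mod_cast (by linarith : E ≠ 0)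
  have h2 : g * (((E ^ 2 + q : ℝ)) : ℂ) = ((q * (e * K) * E : ℝ) : ℂ) * f := by
    have h3 : g * (E : ℂ) ^ 2 = (q : ℂ) * f *
        ((e : ℂ) * (K : ℂ) / (E : ℂ) - g / (f * (E : ℂ) ^ 2)) * (E : ℂ) ^ 2 := by
      rw [← hrec]
    have h4 : (q : ℂ) * f * ((e : ℂ) * (K : ℂ) / (E : ℂ) - g / (f * (E : ℂ) ^ 2)) *
        (E : ℂ) ^ 2 = (q : ℂ) * (e * K) * E * f - q * g := by
      field_simp
    rw [h4] at h3
    push_cast
    linear_combination h3
  have h5 := congrArg norm h2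
  rw [norm_mul, norm_mul, Complex.norm_real, Complex.norm_real, Real.norm_of_nonneg (by positivity),
    Real.norm_of_nonneg (by positivity)] at h5
  have hfp : 0 < ‖f‖ := norm_pos_iff.2 hf0
  have hA : 0 < e * K * ‖f‖ := by positivity
  rw [mul_one]
  by_contra hcon
  push Not at hcon
  have h6 : e * K * ‖f‖ * (E ^ 2 + q) ≤ ‖g‖ * (E ^ 2 + q) :=
    mul_le_mul_of_nonneg_right hcon (by positivity)
  have h7 : q * E < E ^ 2 + q := by nlinarith
  have h8 : e * K * ‖f‖ * (q * E) < e * K * ‖f‖ * (E ^ 2 + q) :=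
    mul_lt_mul_of_pos_left h7 hA
  nlinarith

theorem PX_base (he : 200 ≤ e) (hκ : 0 < κ) : ∃ N : ℕ, ∀ t : ℂ, 0 < t.re → om κ N t → MB e κ 1 t := by
  have he0 : 0 < e := by linarith
  have hst := MB_one_strict he0 hκ
  have hopen : IsOpen {T : ℂ | 0 < T.re} := isOpen_lt continuous_const Complex.continuous_re
  have hdiff : DifferentiableOn ℂ (fT e κ) {T : ℂ | 0 < T.re} := fun z hz =>
    (fT_diffAt he0 hκ hz).differentiableWithinAt
  have h1 : (1 : ℂ) ∈ {T : ℂ | 0 < T.re} := by simp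
  have hc1 : ContinuousAt (deriv (fT e κ)) 1 :=
    ((hdiff.deriv hopen).continuousOn.continuousAt (hopen.mem_nhds h1))
  have hc2 : ContinuousAt (fT e κ) 1 := (fT_diffAt he0 hκ (by simp)).continuousAt
  have hev : ∀ᶠ t in 𝓝 (1 : ℂ), ‖deriv (fT e κ) t‖ < e * Real.sinh κ * 1 * ‖fT e κ t‖ :=
    hc1.norm.eventually_lt (continuousAt_const.mul hc2.norm) hst
  obtain ⟨δ, hδ0, hδ⟩ := Metric.eventually_nhds_iff.1 hev
  have hlim : Tendsto (fun N : ℕ => Real.exp (-(2 * κ * N))) atTop (𝓝 0) := by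
    have h2 : Tendsto (fun N : ℕ => 2 * κ * (N : ℝ)) atTop atTop :=
      tendsto_natCast_atTop_atTop.const_mul_atTop (by positivity)
    exact Real.tendsto_exp_neg_atTop_nhds_zero.comp h2
  have hpos : 0 < δ / (2 + δ) := by positivity
  obtain ⟨N, hN⟩ := (hlim.eventually (gt_mem_nhds hpos)).exists
  refine ⟨N, fun t ht ho => (hδ ?_).le⟩
  unfold om at ho
  obtain ⟨ε, hε⟩ : ∃ ε, ε = Real.exp (-(2 * κ * N)) := ⟨_, rfl⟩
  rw [← hε] at ho hN
  have hε0 : 0 < ε := by rw [hε]; exact Real.exp_pos _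
  have h3 : ‖t + 1‖ ≤ ‖t - 1‖ + 2 := by
    have : t + 1 = (t - 1) + 2 := by ring
    rw [this]
    refine (norm_add_le _ _).trans ?_
    rw [Complex.norm_ofNat]
  rw [dist_eq_norm]
  rw [lt_div_iff₀ (by positivity)] at hN
  have h4 : ‖t - 1‖ ≤ ε * (‖t - 1‖ + 2) := ho.trans (mul_le_mul_of_nonneg_left h3 hε0.le)
  by_contra hcon
  push Not at hcon
  have h5 : ε < 1 := by
    by_contra h6
    push Not at h6
    nlinarith
  nlinarith

theorem PX_unif (he : 200 ≤ e) (hκ : 0 < κ) (hK : Real.sinh κ ≤ 1 / 10) {X S0 ν : ℝ}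
    (hX : 0 < X) (hS : bet e κ ^ 2 + y0 ^ 2 ≤ S0) (hy0 : 0 ≤ y0)
    (hR : (S0 + 1) / e * (3 / 2 + M) ≤ 19 / 10)
    (hθ : y0 + (S0 + 1) / e * (1 + M) < Real.pi) (hν0 : 0 < ν)
    (hν : ν ≤ 2 * Real.cos ((y0 + (S0 + 1) / e * (1 + M)) / 2))
    (hM1 : 1 ≤ M)
    (hM : 1 + Real.sinh κ ^ 2 / 2 + (3 / 2 + M) * (1 / lam (Real.sinh κ) X + 1 / e) ≤ ν * M) :
    PX e κ X y0 M := by
  have he0 : 0 < e := by linarith
  obtain ⟨N, hN⟩ := PX_base he hκ
  have key : ∀ n : ℕ, ∀ x : ℝ, X ≤ x → (N : ℝ) - n ≤ x → PX e κ x y0 M := by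
    intro n
    induction n with
    | zero =>
      intro x _ hx t ht ho _
      have hx' : (N : ℝ) ≤ x := by simpa using hx
      exact (hN t ht (om_mono hκ ho hx')).mono he0 hκ hM1
    | succ n ih =>
      intro x hXx hx
      have h1 : PX e κ (x + 1) y0 M := ih (x + 1) (by linarith) (by push_cast at hx; linarith)
      have h2 : PX e κ x y0 (1 + M) := PX_dn he0 hκ (by linarith) h1
      refine PX_pick he hκ hK hX hXx hS (by linarith) hy0 h2 ?_ hθ hν0 hν hM1 ?_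
      · rw [show (1 : ℝ) / 2 + (1 + M) = 3 / 2 + M by ring]
        exact hR
      · rw [show (1 : ℝ) / 2 + (1 + M) = 3 / 2 + M by ring]
        exact hM
  obtain ⟨n, hn⟩ := exists_nat_ge ((N : ℝ) - X)
  exact key n X le_rfl (by linarith)

end Pool.Agent.helper31.EQB
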