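import Pool.Agent.helper31.EQB.NFB

/-!
# EQB-32: first node of chart B, final statement

`lf`: `f_sup` at `shf (t00)` and `shf (shf (t00))`: `log (1 + 8/5 √(e/S)) ≤ lc0 + lc1/w` by the tangent of `log (1+x)` at `x = 3` (`cFB1`)
or `x = 13/10` (`cFB2`) (`S ≥ (1 - small) (β²+v²)`; also `log (1 + exp (-β)) ≤ exp (-5) ≤ 68/10000` is contained in `lc0`).
Then `first_all`, and `FH` at `(s0, 0)` as in `first_d` (FirstC2).
-/

namespace Pool.Agent.helper31.EQB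

open Complex ComplexConjugate Set Filter Topology
open Pool.Agent.helper31.EQ.Y Pool.Agent.helper31.EQ.R
open Pool.Agent.helper12.EQL Pool.Agent.helper12.RP Pool.Agent.helper12.FF Pool.Agent.helper12.RS
open Pool.Agent.helper63.FF

variable {e κ : ℝ}

/-! ### sizes of the first two shifts -/

private theorem inv_sq_ge {h g v : ℝ} (h0 : 0 ≤ h) (hg1 : 1 ≤ g) (hg : g ≤ 1 + h) :
    v ^ 2 * (1 - 2 * h) ≤ (v / g) ^ 2 := by
  have hg0 : 0 < g := by linarith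
  rw [div_pow, le_div_iff₀ (by positivity)]
  have h1 : g ^ 2 ≤ (1 + h) ^ 2 := pow_le_pow_left₀ hg0.le hg 2
  have h2 : (1 - 2 * h) * g ^ 2 ≤ 1 := by
    rcases le_total (1 - 2 * h) 0 with h3 | h3
    · have : (1 - 2 * h) * g ^ 2 ≤ 0 := mul_nonpos_of_nonpos_of_nonneg h3 (by positivity)
      linarith
    · calc (1 - 2 * h) * g ^ 2 ≤ (1 - 2 * h) * (1 + h) ^ 2 := mul_le_mul_of_nonneg_left h1 h3
        _ = 1 - h ^ 2 * (3 + 2 * h) := by ring
        _ ≤ 1 := by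
          have : 0 ≤ h ^ 2 * (3 + 2 * h) := by positivity
          linarith
  calc v ^ 2 * (1 - 2 * h) * g ^ 2 = v ^ 2 * ((1 - 2 * h) * g ^ 2) := by ring
    _ ≤ v ^ 2 * 1 := mul_le_mul_of_nonneg_left h2 (sq_nonneg v)
    _ = v ^ 2 := mul_one _

/-- `S ≥ (399/400)(β²+v²)` at the first two shifts of the start -/
private theorem fb_S (he : 200 ≤ e) (hκ : 0 < κ) (hK : Real.sinh κ ≤ 1 / 10) {v : ℝ}
    (hv0 : 0 ≤ v) (hv1 : v ≤ Real.pi) (hV : Vv e κ v ≤ 8 / 5) :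
    0 < (shf κ (t00 e κ v)).re ∧ 0 < (shf κ (shf κ (t00 e κ v))).re ∧
    399 / 400 * (e * Vv e κ v) ≤ Sz e κ (shf κ (t00 e κ v)) ∧
    399 / 400 * (e * Vv e κ v) ≤ Sz e κ (shf κ (shf κ (t00 e κ v))) := by
  have he0 : 0 < e := by linarith
  have hK0 : 0 < Real.sinh κ := Real.sinh_pos_iff.2 hκ
  have hβ : 0 < bet e κ := mul_pos he0 hK0
  obtain ⟨s1, s2, s3, s4, s5⟩ := s0_pos (v := v) he0 hκ hv0
  have hs1 := shf_re hκ s1.le
  obtain ⟨V, hVd⟩ : ∃ V, V = Vv e κ v := ⟨_, rfl⟩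
  have heV : e * V = bet e κ ^ 2 + v ^ 2 := by
    rw [hVd]; unfold Vv; field_simp
  have hV0 : 0 < V := by
    have : 0 < e * V := by rw [heV]; positivity
    exact (pos_iff_pos_of_mul_pos this).1 he0
  rw [← hVd] at s3 s4 hV ⊢
  have hv10 : v ^ 2 ≤ 10 := by
    have h1 := Real.pi_lt_d2
    norm_num at h1
    have h2 : v ≤ 63 / 20 := by linarith
    nlinarith
  have hc := fc_cosh hκ hK
  have hc1 := Real.one_le_cosh κ
  have hh0 : 0 < V / e := by positivity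
  have hVe : V / e ≤ 1 / 125 := by
    rw [div_le_iff₀ he0]; linarith
  -- first shift
  have hS1 : bet e κ ^ 2 + v ^ 2 * (1 - 2 * (V / e)) ≤ Sz e κ (shf κ (t00 e κ v)) := by
    unfold Sz
    rw [s4]
    have := inv_sq_ge (v := v) hh0.le (by linarith : 1 ≤ 1 + V / e) le_rfl
    linarith
  have hSu : Sz e κ (shf κ (t00 e κ v)) ≤ e * V := by
    unfold Sz
    rw [s4, heV]
    have h1 : v / (1 + V / e) ≤ v := div_le_self hv0 (by linarith)
    have h2 : (v / (1 + V / e)) ^ 2 ≤ v ^ 2 := pow_le_pow_left₀ (by positivity) h1 2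
    linarith
  have hr0 : 0 ≤ rz e κ (shf κ (t00 e κ v)) := by rw [s3]; positivity
  have hr1 : rz e κ (shf κ (t00 e κ v)) ≤ 201 / 200 * V := by
    rw [s3]
    refine (div_le_self (by positivity) (by linarith)).trans ?_
    exact mul_le_mul_of_nonneg_right hc hV0.le
  -- the quotient of the second shift
  have hG := Q_sq (κ := κ) he0 (shf κ (t00 e κ v))
  obtain ⟨S, hSd⟩ : ∃ S, S = Sz e κ (shf κ (t00 e κ v)) := ⟨_, rfl⟩
  obtain ⟨r, hrd⟩ : ∃ r, r = rz e κ (shf κ (t00 e κ v)) := ⟨_, rfl⟩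
  obtain ⟨G, hGd⟩ : ∃ G, G = ‖Qk κ (shf κ (t00 e κ v))‖ ^ 2 := ⟨_, rfl⟩
  have hS0 : 0 < S := by rw [hSd]; exact Sz_pos he0 hκ _
  have hSz1 : Sz e κ (shf κ (shf κ (t00 e κ v))) =
      bet e κ ^ 2 + (v / ((1 + V / e) * G)) ^ 2 := by
    unfold Sz
    rw [yz_shf he0 hκ s1, s4, ← hGd, div_div]
  rw [← hSd] at hS1 hSu hG ⊢
  rw [← hrd] at hr0 hr1 hG
  rw [← hGd] at hG
  have hSe : S / e ≤ V := by rw [div_le_iff₀ he0]; linarith
  have hSe0 : 0 < S / e := by positivity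
  have h2c : 2 * Real.cosh κ * r ≤ 203 / 100 * V := by
    have h1 : Real.cosh κ * r ≤ 201 / 200 * (201 / 200 * V) :=
      mul_le_mul hc hr1 hr0 (by norm_num)
    nlinarith
  have h2c0 : 0 ≤ 2 * Real.cosh κ * r := by positivity
  have hr2 : r ^ 2 / e ≤ 1 / 100 * V := by
    rw [div_le_iff₀ he0]
    have h1 : r ^ 2 ≤ (201 / 200 * V) ^ 2 := pow_le_pow_left₀ hr0 hr1 2
    nlinarith
  have hr20 : 0 ≤ r ^ 2 / e := by positivity
  have hG1 : 1 ≤ G := by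
    rw [hG]
    have : 0 ≤ (S / e + (2 * Real.cosh κ * r + r ^ 2 / e)) / e := by positivity
    linarith
  have hG2 : G ≤ 1 + 304 / 100 * (V / e) := by
    rw [hG]
    have : (S / e + (2 * Real.cosh κ * r + r ^ 2 / e)) / e ≤ (304 / 100 * V) / e := by
      apply div_le_div_of_nonneg_right _ he0.le
      linarith
    have h3 : (304 / 100 * V) / e = 304 / 100 * (V / e) := by ring
    linarith
  have hgg : (1 + V / e) * G ≤ 1 + 5 * (V / e) := by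
    calc (1 + V / e) * G ≤ (1 + V / e) * (1 + 304 / 100 * (V / e)) :=
          mul_le_mul_of_nonneg_left hG2 (by positivity)
      _ ≤ 1 + 5 * (V / e) := by nlinarith
  have hgg1 : 1 ≤ (1 + V / e) * G := by nlinarith
  have hfin : v ^ 2 * (V / e) ≤ 1 / 4000 * (e * V) := by
    have h1 : v ^ 2 * (V / e) ≤ 10 * (V / e) := mul_le_mul_of_nonneg_right hv10 hh0.le
    have h2 : 10 * (V / e) ≤ 1 / 4000 * (e * V) := by
      rw [mul_div_assoc', div_le_iff₀ he0]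
      nlinarith [mul_pos hV0 he0, mul_nonneg hV0.le (mul_self_nonneg (e - 200))]
    linarith
  refine ⟨s1, hs1, ?_, ?_⟩
  · rw [heV] at hfin ⊢
    nlinarith
  · rw [hSz1]
    have := inv_sq_ge (v := v) (by positivity : 0 ≤ 5 * (V / e)) hgg1 hgg
    rw [heV] at hfin ⊢
    nlinarith

/-- `log (1 + x) ≤ log (1 + a) + (x - a)/(1 + a)` -/
private theorem log_tan {a x : ℝ} (ha : 0 < 1 + a) (hx : 0 < 1 + x) :
    Real.log (1 + x) ≤ Real.log (1 + a) + (x - a) / (1 + a) := by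
  have h1 : Real.log ((1 + x) / (1 + a)) ≤ (1 + x) / (1 + a) - 1 :=
    Real.log_le_sub_one_of_pos (by positivity)
  rw [Real.log_div hx.ne' ha.ne'] at h1
  have h2 : (1 + x) / (1 + a) - 1 = (x - a) / (1 + a) := by field_simp; ring
  linarith

private theorem log4 : Real.log (1 + 3) ≤ 1386295 / 1000000 := by
  have h1 : (1 + 3 : ℝ) = 2 ^ 2 := by norm_num
  rw [h1, Real.log_pow]
  have := Real.log_two_lt_d9
  push_cast
  linarith

private theorem log23 : Real.log (1 + 13 / 10) ≤ 83292 / 100000 := by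
  have h1 : (1 + 13 / 10 : ℝ) = 2 * (1 - 3 / 23)⁻¹ := by norm_num
  have h2 : (0 : ℝ) < 1 - 3 / 23 := by norm_num
  rw [h1, Real.log_mul (by norm_num) (inv_pos.2 h2).ne', Real.log_inv]
  have h3 := Real.abs_log_sub_add_sum_range_le (x := 3 / 23) (by rw [abs_of_pos] <;> norm_num) 6
  have h4 := (abs_le.1 h3).1
  rw [abs_of_pos (by norm_num : (0 : ℝ) < 3 / 23)] at h4
  simp only [Finset.sum_range_succ, Finset.sum_range_zero] at h4
  norm_num at h4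
  have h5 := Real.log_two_lt_d9
  norm_num
  linarith

private theorem exp5 {β : ℝ} (h : 5 ≤ β) : Real.log (1 + Real.exp (-β)) ≤ 674 / 100000 := by
  have h0 := Real.exp_pos (-β)
  have h1 : Real.log (1 + Real.exp (-β)) ≤ Real.exp (-β) := by
    have := Real.log_le_sub_one_of_pos (by positivity : 0 < 1 + Real.exp (-β))
    linarith
  have h2 : Real.exp (-β) ≤ Real.exp (-5) := Real.exp_le_exp.2 (by linarith)
  have h3 : Real.exp (-5) ≤ 674 / 100000 := by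
    have h4 : Real.exp 5 = Real.exp 1 ^ 5 := by rw [← Real.exp_nat_mul]; norm_num
    have h5 : (2.7182818283 : ℝ) ^ 5 ≤ Real.exp 1 ^ 5 :=
      pow_le_pow_left₀ (by norm_num) Real.exp_one_gt_d9.le 5
    rw [Real.exp_neg, h4]
    have h6 : (0 : ℝ) < 2.7182818283 ^ 5 := by norm_num
    refine (inv_anti₀ h6 h5).trans ?_
    norm_num
  linarith

/-- size of `f` -/
private theorem fb_f (he : 200 ≤ e) (hκ : 0 < κ) (hK : Real.sinh κ ≤ 1 / 10) {V : ℝ} (hV : 0 < V)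
    {t : ℂ} (ht : 0 < t.re) (hS : 399 / 400 * (e * V) ≤ Sz e κ t) {a : ℝ} (ha : 0 < 1 + a) :
    Real.log ‖fT e κ t‖ ≤ Real.log (1 + a) + (8 / 5 * (10013 / 10000 * (√V)⁻¹) - a) / (1 + a) := by
  have he0 : 0 < e := by linarith
  have hS0 : 0 < Sz e κ t := Sz_pos he0 hκ _
  have hsV : 0 < √V := Real.sqrt_pos.2 hV
  have hsq : √V ^ 2 = V := Real.sq_sqrt hV.le
  have h1 := f_sup (by linarith : (8 : ℝ) ≤ e) hκ hK ht
  have h2 : √(e / Sz e κ t) ≤ 10013 / 10000 * (√V)⁻¹ := by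
    apply Real.sqrt_le_iff.2 ⟨by positivity, ?_⟩
    rw [mul_pow, inv_pow, hsq, div_le_iff₀ hS0]
    have h3 : 399 / 400 * (e * V) * ((10013 / 10000) ^ 2 * V⁻¹) =
        399 / 400 * (10013 / 10000) ^ 2 * e := by
      field_simp
    have h4 : 399 / 400 * (e * V) * ((10013 / 10000) ^ 2 * V⁻¹) ≤
        Sz e κ t * ((10013 / 10000) ^ 2 * V⁻¹) :=
      mul_le_mul_of_nonneg_right hS (by positivity)
    have h5 : e ≤ 399 / 400 * (10013 / 10000) ^ 2 * e := by nlinarith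
    linarith
  have h6 : ‖fT e κ t‖ ≤ 1 + 8 / 5 * (10013 / 10000 * (√V)⁻¹) := by linarith
  have h7 : 0 < ‖fT e κ t‖ := norm_pos_iff.2 (fT_ne he0 hκ ht)
  exact (Real.log_le_log h7 h6).trans (log_tan ha (by positivity))

/-- the relations of the first named values of chart B -/
private theorem fb_rel (he : 200 ≤ e) (hκ : 0 < κ)
    {v : ℝ} {c : CFB} (P : PFB c (bet e κ / √e) (bet e κ)⁻¹ v) :
    P.sR = √(bet e κ ^ 2 + v ^ 2) / bet e κ ∧
    P.GrS * √e = bet e κ / 2 + c.lc0 + c.lc1 * (√(Vv e κ v))⁻¹ := by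
  have he0 : 0 < e := by linarith
  have hK0 : 0 < Real.sinh κ := Real.sinh_pos_iff.2 hκ
  have hβ : 0 < bet e κ := mul_pos he0 hK0
  have hs : 0 < √e := Real.sqrt_pos.2 he0
  have hR0 : 0 < bet e κ ^ 2 + v ^ 2 := by positivity
  have hR : 0 < √(bet e κ ^ 2 + v ^ 2) := Real.sqrt_pos.2 hR0
  have hRR : √(bet e κ ^ 2 + v ^ 2) ^ 2 = bet e κ ^ 2 + v ^ 2 := Real.sq_sqrt hR0.le
  have h1 : P.sg2 = (√(bet e κ ^ 2 + v ^ 2) / bet e κ) ^ 2 := by
    rw [P.e_sg2, P.e_v2, div_pow, hRR]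
    field_simp
    ring
  have h2 : P.L = Real.log (√(bet e κ ^ 2 + v ^ 2) / bet e κ) := by
    rw [P.e_L, h1, Real.log_pow]
    push_cast
    ring
  have h3 : P.sR = √(bet e κ ^ 2 + v ^ 2) / bet e κ := by
    rw [P.e_sR, h2, Real.exp_log (by positivity)]
  have h4 : P.kc = bet e κ / √(bet e κ ^ 2 + v ^ 2) := by
    rw [P.e_kc, Real.exp_neg, h2, Real.exp_log (by positivity), inv_div]
  have h5 : P.iR = (√(bet e κ ^ 2 + v ^ 2))⁻¹ := by
    rw [P.e_iR, h4]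
    field_simp
  have h6 : P.se = (√e)⁻¹ := by
    rw [P.e_se]
    field_simp
  have h7 : √(Vv e κ v) = √(bet e κ ^ 2 + v ^ 2) / √e := by
    unfold Vv
    rw [Real.sqrt_div hR0.le]
  refine ⟨h3, ?_⟩
  rw [P.e_GrS, h6, h5, h7, inv_div]
  field_simp

/-- `V ≤ 8/5` -/
private theorem fb_V (he : 200 ≤ e) (hκ : 0 < κ) {v : ℝ} (hv0 : 0 ≤ v) (hv1 : v ≤ Real.pi)
    (hD : bet e κ ^ 2 ≤ e * (13864 / 10000 + 7 / 4 * (√e)⁻¹)) :
    0 < Vv e κ v ∧ Vv e κ v ≤ 8 / 5 := by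
  have he0 : 0 < e := by linarith
  have hK0 : 0 < Real.sinh κ := Real.sinh_pos_iff.2 hκ
  have hβ : 0 < bet e κ := mul_pos he0 hK0
  have hv10 : v ^ 2 ≤ 10 := by
    have h1 := Real.pi_lt_d2
    norm_num at h1
    have h2 : v ≤ 63 / 20 := by linarith
    nlinarith
  have hs14 : 14 ≤ √e := Real.le_sqrt_of_sq_le (by linarith)
  have hsg14 : (√e)⁻¹ ≤ 1 / 14 := by
    rw [inv_eq_one_div]
    exact one_div_le_one_div_of_le (by norm_num) hs14
  unfold Vv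
  refine ⟨by positivity, ?_⟩
  rw [div_le_iff₀ he0]
  have h1 : e * (13864 / 10000 + 7 / 4 * (√e)⁻¹) ≤ e * (15114 / 10000) :=
    mul_le_mul_of_nonneg_left (by linarith) he0.le
  linarith

theorem fb_lf (he : 200 ≤ e) (hκ : 0 < κ) (hb : 5 ≤ bet e κ)
    (hD : bet e κ ^ 2 ≤ e * (13864 / 10000 + 7 / 4 * (√e)⁻¹))
    (M : PMB (bet e κ / √e) (bet e κ)⁻¹)
    {v : ℝ} (hv0 : 0 ≤ v) (hv1 : v ≤ Real.pi) {c : CFB} (hc : c = cFB1 ∨ c = cFB2)
    (P : PFB c (bet e κ / √e) (bet e κ)⁻¹ v) :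
    Real.log ‖fT e κ (shf κ (t00 e κ v))‖ ≤
      P.GrS * √e - (bet e κ / 2 + Real.log (1 + Real.exp (-bet e κ))) ∧
    Real.log ‖fT e κ (shf κ (shf κ (t00 e κ v)))‖ ≤
      P.GrS * √e - (bet e κ / 2 + Real.log (1 + Real.exp (-bet e κ))) := by
  have hK := (mc_B he hκ hb hD M).K1
  obtain ⟨hV0, hV⟩ := fb_V he hκ hv0 hv1 hD
  obtain ⟨s1, s2, s3, s4⟩ := fb_S he hκ hK hv0 hv1 hV
  obtain ⟨-, hG⟩ := fb_rel he hκ P
  have h5 := exp5 hb
  have hi : 0 < (√(Vv e κ v))⁻¹ := inv_pos.2 (Real.sqrt_pos.2 hV0)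
  have key : ∀ t : ℂ, 0 < t.re → 399 / 400 * (e * Vv e κ v) ≤ Sz e κ t →
      Real.log ‖fT e κ t‖ ≤
        P.GrS * √e - (bet e κ / 2 + Real.log (1 + Real.exp (-bet e κ))) := by
    intro t ht hS
    rw [hG]
    rcases hc with hc | hc
    · have h1 := fb_f he hκ hK hV0 ht hS (a := 3) (by norm_num)
      have h2 := log4
      have h3 : c.lc0 = 337167 / 524288 := by rw [hc]; rfl
      have h4 : c.lc1 = 421109 / 1048576 := by rw [hc]; rfl
      rw [h3, h4]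
      linarith
    · have h1 := fb_f he hκ hK hV0 ht hS (a := 13 / 10) (by norm_num)
      have h2 := log23
      have h6 : (8 / 5 * (10013 / 10000 * (√(Vv e κ v))⁻¹) - 13 / 10) / (1 + 13 / 10) =
          10013 / 14375 * (√(Vv e κ v))⁻¹ - 13 / 23 := by ring
      rw [h6] at h1
      have h3 : c.lc0 = 143913 / 524288 := by rw [hc]; rfl
      have h4 : c.lc1 = 366181 / 524288 := by rw [hc]; rfl
      rw [h3, h4]
      linarith
  exact ⟨key _ s1 s3, key _ s2 s4⟩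

theorem firstB (he : 200 ≤ e) (hκ : 0 < κ) (hb : 5 ≤ bet e κ)
    (hD : bet e κ ^ 2 ≤ e * (13864 / 10000 + 7 / 4 * (√e)⁻¹))
    (M : PMB (bet e κ / √e) (bet e κ)⁻¹)
    {v : ℝ} (hv0 : 0 ≤ v) (hv1 : v ≤ Real.pi) {c : CFB} (hc : c = cFB1 ∨ c = cFB2)
    (P : PFB c (bet e κ / √e) (bet e κ)⁻¹ v) :
    FirstOK e κ c.C (xB 0) (LamB 0) (ynB κ 0) (aB e κ 0) v := by
  have he0 : 0 < e := by linarith
  have hb0 : 0 < bet e κ := by linarith
  obtain ⟨h0, h1⟩ := fb_lf he hκ hb hD M hv0 hv1 hc P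
  obtain ⟨hsR, -⟩ := fb_rel he hκ P
  obtain ⟨R, G2, gt, ft, hR, hR2, hw, hw0, N, N2, hd1, hx, hMa, hMb, hMn, _, _⟩ :=
    fb_core he hκ hb hD M hv0 hv1 hc P
  have C := mc_B he hκ hb hD M
  have hK0 : 0 < Real.sinh κ := Real.sinh_pos_iff.2 hκ
  have hK1 := C.K1
  obtain ⟨hVV, hV0, herr0, hdz0, hDG, hDF, H, -, -, -, -⟩ := first_FH C N h0 h1
  have hE0 : 0 ≤ P.E := by
    refine le_trans ?_ N.hE
    positivity
  have hvY : v ≤ 7 / 2 := by
    have h1 := Real.pi_lt_d2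
    norm_num at h1
    linarith
  have hyn : ynB κ 0 ≤ 7 / 2 := by
    show 3277 / 1024 + 29 / 64 * Real.sinh κ ≤ 7 / 2
    linarith
  have hyE : P.yc + P.E ≤ 7 / 2 := N2.hy0.trans hyn
  have ha0 := N2.a00
  have hX : c.C * √(bet e κ ^ 2 + v ^ 2) / bet e κ = P.X := by
    rw [P.e_X, hsR]
    ring
  intro p hcp hT
  obtain ⟨f1, f2, f3⟩ := first_all C le_rfl (by linarith) hvY hyE hT N N2 h0 h1 (Or.inl hMa)
    (Or.inl hMb) (Or.inl hMn)
  refine ⟨⟨_, H⟩, f1, fun χ hχ => ?_⟩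
  rw [hX] at hχ ⊢
  obtain ⟨g1, -, g3, g4⟩ := f3 χ hχ
  refine ⟨⟨_, g1⟩, ⟨g3.re, om_mono hκ g3.om hx, g3.y, g3.r⟩, fun χ' hχ' =>
    g4 χ' (hχ'.trans_eq ?_)⟩
  unfold Rx
  rw [norm_mul, Complex.norm_real, Real.norm_of_nonneg (by positivity)]
  ring

end Pool.Agent.helper31.EQB
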