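import Pool.Agent.helper31.EQB.NFA2
import Pool.Agent.helper31.EQB.NFB2
import Pool.Agent.helper31.EQB.FirstT

/-!
# EQB-33: the test at `v = π`

`TN` with `F = Gr`, `F2 = G2`, `ft = Gt`, `f = P.a`; `test_neg` with `c` the centre of the first node (`first_d`: `‖LF c χ - LF s0 0‖ ≤ ΔF`,
`FH` at `(c, χ)`), `(LF s0 0).re ≤ F`, `0 ≤ re`, `0 ≤ im ≤ π`: see FirstC / `L_im`, `L_re`.
-/

namespace Pool.Agent.helper31.EQB

open Complex ComplexConjugate Set Filter Topology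
open Pool.Agent.helper31.EQ.Y Pool.Agent.helper31.EQ.R
open Pool.Agent.helper12.EQL Pool.Agent.helper12.RP Pool.Agent.helper12.FF Pool.Agent.helper12.RS
open Pool.Agent.helper63.FF

variable {e κ : ℝ}

section

variable {Y w p q V a q2 lf0 lf1 lau lal gl Gr G2 gt ft err dz r1 r2 yc x1 S0l Sl Ma Mb X u lx lu ΔG
  ΔF E RH : ℝ} {pp : ℂ}

variable {d Λ0 y0 W2 M1 u1 η a0 DP Vc tn : ℝ}

/-- the test, all hypotheses together (`F = Gr`) -/
theorem test_all (C : MC e κ Y w p q) (hY : Y ≤ 7 / 2) (hvY : Real.pi ≤ Y)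
    (hyE : yc + E ≤ Y) (hT : tanh (κ * pp) = t00 e κ Real.pi)
    (N : FN e (Real.sinh κ) Real.pi V a p q q2 w lf0 lf1 lau lal gl Gr Gr G2 gt ft err dz r1 r2 yc
      x1 S0l Sl Ma Mb X u lx lu ΔG ΔF E RH)
    (N2 : FN2 e (Real.sinh κ) V p q q2 r1 r2 yc x1 Sl X E d Λ0 y0 W2 M1 u1 η a0 DP Vc)
    (h0 : Real.log ‖fT e κ (shf κ (t00 e κ Real.pi))‖ ≤ lf0)
    (h1 : Real.log ‖fT e κ (shf κ (shf κ (t00 e κ Real.pi)))‖ ≤ lf1)
    (hMa : Mq e (Real.sinh κ) p q q2 x1 (Sl / e) ≤ Ma)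
    (hMb : Mq e (Real.sinh κ) p q q2 (x1 + 1) (Sl / e * (1 - 500 / e ^ 2)) ≤ Mb)
    (hM1 : Mq e (Real.sinh κ) p q q2 (x1 + 1 - d) W2 ≤ M1)
    (htn : 101 / 100 * (Real.pi / e * (G2 + ΔF) +
      Real.pi * (562 / 1000 * V / e + 53 / 100 * a ^ 2 + 43 / 100 * Real.sinh κ ^ 2) +
        16 / 100 * V ^ 2 / e +
      (e * Real.sinh κ) ^ 2 / e * (106 / 100 * a + 28 / 100 * Real.sinh κ ^ 2) +
      Real.pi ^ 2 / e * (56 / 100 * a ^ 2 + 3 / 10 * Real.sinh κ ^ 2)) ≤ tn)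
    (h9 : ΔF + tn ≤ 9 / 10)
    (hW : (e * Real.sinh κ) ^ 2 + Real.pi ^ 2 ≤ 8 / 5 * e)
    (h49 : 4900 ≤ e * ((e * Real.sinh κ) ^ 2 + Real.pi ^ 2)) {χ : ℂ} (hχ : ‖χ‖ ≤ X) :
    (H0 e κ pp (Fc e κ (nxc e κ pp (shf κ (t00 e κ Real.pi)) 0) χ)).re < 0 := by
  have he : 0 < e := by linarith [C.e200]
  have hE0 := first_E0 C N h0 h1
  have hyc : yc ≤ Y := by linarith
  obtain ⟨-, -, H⟩ := first_all C hY hyc hvY hyE hT N N2 h0 h1 (Or.inl hMa) (Or.inl hMb) (Or.inl hM1)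
  obtain ⟨hF, hL, -⟩ := H χ hχ
  obtain ⟨hVV, hV0, -, -, -, -, -, -, -, -, hft⟩ := first_FH C N h0 h1
  have hV1 : Vv e κ Real.pi ≤ e / 100 := by rw [hVV]; exact N.V1
  obtain ⟨-, -, r3, r4⟩ := L_re C.e200 C.κ0 C.K1 N.v0 hV1 h0 h1
  obtain ⟨-, -, i3, i4⟩ := L_im C.e200 C.κ0 N.v0 le_rfl
  have hLA := (LA_facts he C.κ0 C.K1).2.2
  have hlau := N.hlau
  have hF' := N.hF
  have hbe : bet e κ = e * Real.sinh κ := rfl
  rw [hbe] at hLA
  refine test_neg hF hT (F := Gr) (by linarith) r3 i3 i4 hft hL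
    ⟨N.G20, ?_, N.haF, N.a1, ?_, h9⟩ hW h49
  · have := N.hG2
    linarith
  · rw [hVV]; exact htn

end

/-- the numerical bound of the remainder -/
theorem tn_le {K V G DF a sg ie tn bb : ℝ} (hG : 0 ≤ G) (hDF : 0 ≤ DF) (ha : 0 ≤ a)
    (hsg : 0 ≤ sg) (hie : 0 < ie) (hV : 0 ≤ V) (hbb : 0 ≤ bb)
    (ht : tn = (529531 / 524288) * ((3294199 / 1048576) * ie * DF + (3294199 / 1048576) * sg * G + (3294199 / 1048576) * ((147325 / 262144) * (V * ie) + (277873 / 524288) * (a * a) + (56361 / 131072) * (K * K)) + (167773 / 1048576) * (V * (V * ie)) + bb * ((1111491 / 1048576) * a + (146801 / 524288) * (K * K)) + (10349031 / 1048576) * ie * ((587203 / 1048576) * (a * a) + (314573 / 1048576) * (K * K)))) :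
    101 / 100 * (Real.pi * (sg * G + ie * DF) +
      Real.pi * (562 / 1000 * (V * ie) + 53 / 100 * a ^ 2 + 43 / 100 * K ^ 2) +
        16 / 100 * (V ^ 2 * ie) +
      bb * (106 / 100 * a + 28 / 100 * K ^ 2) +
      Real.pi ^ 2 * ie * (56 / 100 * a ^ 2 + 3 / 10 * K ^ 2)) ≤ tn := by
  have hp0 := Real.pi_pos
  have hp : Real.pi ≤ 3294199 / 1048576 := by
    have := Real.pi_lt_d20
    norm_num at this ⊢
    linarith
  have hp2 : Real.pi ^ 2 ≤ 10349031 / 1048576 := by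
    have h1 : Real.pi ≤ 3.1415927 := Real.pi_lt_d20.le.trans (by norm_num)
    have h2 : Real.pi ^ 2 ≤ 3.1415927 ^ 2 := pow_le_pow_left₀ hp0.le h1 2
    norm_num at h2 ⊢
    linarith
  have k2 : 0 ≤ K ^ 2 := sq_nonneg K
  have a2 : 0 ≤ a ^ 2 := sq_nonneg a
  have hVi : 0 ≤ V * ie := by positivity
  have e1 : Real.pi * (sg * G + ie * DF) ≤ 3294199 / 1048576 * (sg * G + ie * DF) :=
    mul_le_mul_of_nonneg_right hp (by positivity)
  have e2 : Real.pi * (562 / 1000 * (V * ie) + 53 / 100 * a ^ 2 + 43 / 100 * K ^ 2) ≤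
      (3294199 / 1048576) * ((147325 / 262144) * (V * ie) + (277873 / 524288) * a ^ 2 +
        (56361 / 131072) * K ^ 2) := by
    apply mul_le_mul hp _ (by positivity) (by norm_num)
    linarith
  have e3 : 16 / 100 * (V ^ 2 * ie) ≤ (167773 / 1048576) * (V ^ 2 * ie) :=
    mul_le_mul_of_nonneg_right (by norm_num) (by positivity)
  have e4 : bb * (106 / 100 * a + 28 / 100 * K ^ 2) ≤
      bb * ((1111491 / 1048576) * a + (146801 / 524288) * K ^ 2) := by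
    apply mul_le_mul_of_nonneg_left _ hbb
    linarith
  have e5 : Real.pi ^ 2 * ie * (56 / 100 * a ^ 2 + 3 / 10 * K ^ 2) ≤
      (10349031 / 1048576) * ie * ((587203 / 1048576) * a ^ 2 + (314573 / 1048576) * K ^ 2) := by
    apply mul_le_mul _ _ (by positivity) (by positivity)
    · exact mul_le_mul_of_nonneg_right hp2 hie.le
    · linarith
  obtain ⟨T, hT⟩ : ∃ T, T = (3294199 / 1048576) * ie * DF + (3294199 / 1048576) * sg * G + (3294199 / 1048576) * ((147325 / 262144) * (V * ie) + (277873 / 524288) * (a * a) + (56361 / 131072) * (K * K)) + (167773 / 1048576) * (V * (V * ie)) + bb * ((1111491 / 1048576) * a + (146801 / 524288) * (K * K)) + (10349031 / 1048576) * ie * ((587203 / 1048576) * (a * a) + (314573 / 1048576) * (K * K)) := ⟨_, rfl⟩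
  have hT0 : 0 ≤ T := by
    rw [hT]
    have := mul_self_nonneg a
    have := mul_self_nonneg K
    positivity
  rw [ht, ← hT]
  have h6 : Real.pi * (sg * G + ie * DF) +
      Real.pi * (562 / 1000 * (V * ie) + 53 / 100 * a ^ 2 + 43 / 100 * K ^ 2) +
        16 / 100 * (V ^ 2 * ie) +
      bb * (106 / 100 * a + 28 / 100 * K ^ 2) +
      Real.pi ^ 2 * ie * (56 / 100 * a ^ 2 + 3 / 10 * K ^ 2) ≤ T := by
    refine (add_le_add (add_le_add (add_le_add (add_le_add e1 e2) e3) e4) e5).trans (le_of_eq ?_)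
    rw [hT]
    ring
  calc _ ≤ 101 / 100 * T := mul_le_mul_of_nonneg_left h6 (by norm_num)
    _ ≤ _ := mul_le_mul_of_nonneg_right (by norm_num) hT0

/-- the same in the form of `test_all` -/
theorem tn_le' {K V G DF a sg ie tn bb : ℝ} (he : 0 < e) (hG : 0 ≤ G) (hDF : 0 ≤ DF) (ha : 0 ≤ a)
    (hsg : sg = (√e)⁻¹) (hie : ie = e⁻¹) (hV : 0 ≤ V) (hbb : bb = (e * K) ^ 2 / e)
    (ht : tn = (529531 / 524288) * ((3294199 / 1048576) * ie * DF + (3294199 / 1048576) * sg * G + (3294199 / 1048576) * ((147325 / 262144) * (V * ie) + (277873 / 524288) * (a * a) + (56361 / 131072) * (K * K)) + (167773 / 1048576) * (V * (V * ie)) + bb * ((1111491 / 1048576) * a + (146801 / 524288) * (K * K)) + (10349031 / 1048576) * ie * ((587203 / 1048576) * (a * a) + (314573 / 1048576) * (K * K)))) :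
    101 / 100 * (Real.pi / e * (G * √e + DF) +
      Real.pi * (562 / 1000 * V / e + 53 / 100 * a ^ 2 + 43 / 100 * K ^ 2) + 16 / 100 * V ^ 2 / e +
      (e * K) ^ 2 / e * (106 / 100 * a + 28 / 100 * K ^ 2) +
      Real.pi ^ 2 / e * (56 / 100 * a ^ 2 + 3 / 10 * K ^ 2)) ≤ tn := by
  have hs : 0 < √e := Real.sqrt_pos.2 he
  have hs2 : √e * √e = e := Real.mul_self_sqrt he.le
  have h := tn_le (K := K) hG hDF ha (sg := sg) (ie := ie) (bb := bb)
    (by rw [hsg]; positivity) (by rw [hie]; positivity) hV (by rw [hbb]; positivity) ht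
  refine le_trans (le_of_eq ?_) h
  have h1 : √e / e = sg := by
    rw [hsg, div_eq_iff he.ne', eq_comm, inv_mul_eq_iff_eq_mul₀ hs.ne', hs2]
  have h2 : (1 : ℝ) / e = ie := by rw [hie, one_div]
  rw [hbb]
  have h3 : Real.pi / e * (G * √e + DF) = Real.pi * (sg * G + ie * DF) := by
    rw [← h1, ← h2]; ring
  rw [h3, ← h2]
  ring

/-! ### chart A -/

private theorem inv_sq (he : 0 < e) : (√e)⁻¹ * (√e)⁻¹ = e⁻¹ := by
  rw [← mul_inv, Real.mul_self_sqrt he.le]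

theorem testA (he : 500 ≤ e) (hκ : 0 < κ) (hb : bet e κ ≤ 5) (M : PMA (√e)⁻¹)
    {R kc vs : ℝ} (hR : 0 < R)
    (hR2 : R ^ 2 = bet e κ ^ 2 + Real.pi ^ 2) (hkc : kc = bet e κ / R) (hvs : vs = Real.pi / R)
    {GrS GtS G2S DG DF vDG EM EMr : ℝ}
    (P : PFA cFA (√e)⁻¹ (bet e κ) Real.pi R kc vs GrS GtS G2S DG DF vDG EM EMr)
    {iR : ℝ} (hiR : iR = R⁻¹) (Pg : PFAg iR P) (Pq : PFAq iR P) (PT : PFAT P) :
    TestOK e κ (CA e κ) := by
  have he0 : 0 < e := by linarith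
  have hπ := Real.pi_pos
  have hK0 : 0 < Real.sinh κ := Real.sinh_pos_iff.2 hκ
  have hβ : 0 < bet e κ := mul_pos he0 hK0
  have hs : 0 < √e := Real.sqrt_pos.2 he0
  obtain ⟨HG, l0, l1⟩ := fa_lf he hκ hb M hπ.le le_rfl hR hR2 hkc hvs P hiR Pg
  obtain ⟨Ma, Mb, M1, HM, m1, m2, m3⟩ := fa_mq he hκ hb M hπ.le le_rfl hR hR2 hkc hvs P hiR Pg Pq
  obtain ⟨N, N2, -, -, -⟩ := fa_core he hκ hb M hπ.le le_rfl hR hR2 hkc hvs P HG HM
  have C := mc_A he hκ hb M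
  have hie : P.ie = e⁻¹ := by rw [P.e_ie, inv_sq he0]
  have hK : P.K = Real.sinh κ := by
    rw [P.e_K, hie]
    unfold bet
    field_simp
  have hDF0 : 0 ≤ DF := by
    obtain ⟨-, -, -, -, -, h, -⟩ := first_FH C N l0 l1
    exact h
  have hyE : P.ycR * R + P.E ≤ 7 / 2 := by
    have h1 := P.p_y0
    rw [P.e_yE] at h1
    simp only [cFA] at h1
    linarith
  have hpi : Real.pi ≤ 7 / 2 := by
    have := Real.pi_lt_d2
    linarith
  have hbb : PT.bb = (e * Real.sinh κ) ^ 2 / e := by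
    rw [PT.e_bb, hie]
    unfold bet
    ring
  have h9 : DF + PT.tn ≤ 9 / 10 := by
    have := PT.p_t9
    linarith
  have hp2 : Real.pi ^ 2 ≤ 10 := by
    have h1 : Real.pi ≤ 3.15 := Real.pi_lt_d2.le
    have h2 : Real.pi ^ 2 ≤ 3.15 ^ 2 := pow_le_pow_left₀ hπ.le h1 2
    norm_num at h2 ⊢
    linarith
  have hp3 : 98 / 10 ≤ Real.pi ^ 2 := by
    have h1 : 3.14 ≤ Real.pi := Real.pi_gt_d2.le
    have h2 : 3.14 ^ 2 ≤ Real.pi ^ 2 := pow_le_pow_left₀ (by norm_num) h1 2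
    norm_num at h2 ⊢
    linarith
  have hW : (e * Real.sinh κ) ^ 2 + Real.pi ^ 2 ≤ 8 / 5 * e := by
    have h1 : (e * Real.sinh κ) ^ 2 ≤ 5 ^ 2 := pow_le_pow_left₀ hβ.le hb 2
    linarith
  have h49 : 4900 ≤ e * ((e * Real.sinh κ) ^ 2 + Real.pi ^ 2) := by
    have h1 : 0 ≤ (e * Real.sinh κ) ^ 2 := sq_nonneg _
    nlinarith
  have htn := tn_le' (K := Real.sinh κ) (V := P.V) (G := G2S) (DF := DF) (a := P.a) (sg := (√e)⁻¹)
    (ie := P.ie) (tn := PT.tn) (bb := PT.bb) he0 HG.h4 hDF0 N.a0 rfl hie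
    (by rw [P.e_V]; exact mul_self_nonneg _) hbb
    (by rw [PT.e_tn, P.e_Vie, P.e_K2, hK])
  intro p hT χ hχ
  refine test_all C le_rfl hpi hyE hT N N2 l0 l1 m1 m2 m3 htn h9 hW h49 (hχ.trans (le_of_eq ?_))
  have h1 : √(bet e κ ^ 2 + Real.pi ^ 2) = R := by
    rw [← hR2, Real.sqrt_sq hR.le]
  rw [h1, P.e_X, P.e_XS, P.e_i4]
  unfold CA
  field_simp
  ring

theorem testB (he : 200 ≤ e) (hκ : 0 < κ) (hb : 5 ≤ bet e κ)
    (hD : bet e κ ^ 2 ≤ e * (13864 / 10000 + 7 / 4 * (√e)⁻¹))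
    (M : PMB (bet e κ / √e) (bet e κ)⁻¹) {c : CFB} (hc : c = cFB1 ∨ c = cFB2)
    (P : PFB c (bet e κ / √e) (bet e κ)⁻¹ Real.pi) (PT : PFBT P) : TestOK e κ c.C := by
  have he0 : 0 < e := by linarith
  have hπ := Real.pi_pos
  have hK0 : 0 < Real.sinh κ := Real.sinh_pos_iff.2 hκ
  have hβ : 0 < bet e κ := mul_pos he0 hK0
  have hs : 0 < √e := Real.sqrt_pos.2 he0
  have hs2 : √e * √e = e := Real.mul_self_sqrt he0.le
  obtain ⟨l0, l1⟩ := fb_lf he hκ hb hD M hπ.le le_rfl hc P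
  obtain ⟨R, G2, gt, ft, hR, hR2, hw2, hw0, N, N2, hd1, hx0, m1, m2, m3, hG2, -⟩ :=
    fb_core he hκ hb hD M hπ.le le_rfl hc P
  have C := mc_B he hκ hb hD M
  have hse : P.se = (√e)⁻¹ := by
    rw [P.e_se]
    field_simp
  have hie : P.ie = e⁻¹ := by rw [P.e_ie, hse, inv_sq he0]
  have hK : P.K = Real.sinh κ := by
    rw [P.e_K, hse, div_mul_eq_mul_div, ← div_eq_mul_inv, div_div, hs2]
    unfold bet
    field_simp
  have hDF0 : 0 ≤ P.DF := by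
    obtain ⟨-, -, -, -, -, h, -⟩ := first_FH C N l0 l1
    exact h
  have hG20 : 0 ≤ P.G2S := by
    have h := N.G20
    rw [hG2] at h
    exact nonneg_of_mul_nonneg_left h hs
  have hyE : P.yc + P.E ≤ 7 / 2 := by
    have h1 := P.p_y0
    rw [hK] at h1
    have h2 := C.K1
    rcases hc with rfl | rfl
    · simp only [cFB1] at h1
      linarith
    · simp only [cFB2] at h1
      linarith
  have hpi : Real.pi ≤ 7 / 2 := by
    have := Real.pi_lt_d2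
    linarith
  have hbb : P.bb = (e * Real.sinh κ) ^ 2 / e := by
    rw [P.e_bb, div_mul_div_comm, hs2]
    unfold bet
    ring
  have h9 : P.DF + PT.tn ≤ 9 / 10 := by
    have := PT.p_t9
    linarith
  have hp2 : Real.pi ^ 2 ≤ 10 := by
    have h1 : Real.pi ≤ 3.15 := Real.pi_lt_d2.le
    have h2 : Real.pi ^ 2 ≤ 3.15 ^ 2 := pow_le_pow_left₀ hπ.le h1 2
    norm_num at h2 ⊢
    linarith
  have hW : (e * Real.sinh κ) ^ 2 + Real.pi ^ 2 ≤ 8 / 5 * e := by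
    have h1 : (√e)⁻¹ ≤ 1 / 14 := by
      rw [inv_le_comm₀ hs (by norm_num)]
      norm_num
      exact Real.le_sqrt_of_sq_le (by linarith)
    have h2 : e * (13864 / 10000 + 7 / 4 * (√e)⁻¹) ≤ e * (13864 / 10000 + 7 / 4 * (1 / 14)) :=
      mul_le_mul_of_nonneg_left (by linarith) he0.le
    have h3 : (e * Real.sinh κ) ^ 2 ≤ e * (13864 / 10000 + 7 / 4 * (1 / 14)) := hD.trans h2
    linarith
  have h49 : 4900 ≤ e * ((e * Real.sinh κ) ^ 2 + Real.pi ^ 2) := by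
    have h1 : (5 : ℝ) ^ 2 ≤ (e * Real.sinh κ) ^ 2 := pow_le_pow_left₀ (by norm_num) hb 2
    have h2 : 0 ≤ Real.pi ^ 2 := sq_nonneg _
    nlinarith
  rw [hG2] at N
  have htn := tn_le' (K := Real.sinh κ) (V := P.V) (G := P.G2S) (DF := P.DF) (a := P.a)
    (sg := P.se) (ie := P.ie) (tn := PT.tn) (bb := P.bb) he0 hG20 hDF0 N.a0 hse hie
    (by rw [P.e_V]; exact mul_self_nonneg _) hbb
    (by rw [PT.e_tn, P.e_Vie, P.e_K2, hK])
  intro p hT χ hχ
  refine test_all C le_rfl hpi hyE hT N N2 l0 l1 m1 m2 m3 htn h9 hW h49 (hχ.trans (le_of_eq ?_))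
  have h1 : √(bet e κ ^ 2 + Real.pi ^ 2) = R := by
    rw [← hR2, Real.sqrt_sq hR.le]
  have hsR : P.sR = R / bet e κ := by
    have h2 : 0 < P.sR := by rw [P.e_sR]; exact Real.exp_pos _
    have h3 : P.sR ^ 2 = (R / bet e κ) ^ 2 := by
      have h4 := hw2
      rw [P.e_w] at h4
      have h5 : (bet e κ / √e * P.sR) ^ 2 = bet e κ ^ 2 / e * P.sR ^ 2 := by
        rw [mul_pow, div_pow, Real.sq_sqrt he0.le]
      rw [h5] at h4
      field_simp at h4 ⊢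
      linarith
    have h4 : 0 < R / bet e κ := by positivity
    exact (sq_eq_sq₀ h2.le h4.le).1 h3
  rw [h1, P.e_X, hsR]
  ring

end Pool.Agent.helper31.EQB
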