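import Pool.Agent.helper31.EQB.Om

/-!
# EQB-21: numerical lower bounds of `lam`

`lam K x = (1-K²/6) x/(1 + z²/3) (1 + th²/4)`, `z = 2 K (1-K²/6) x`, `th = z/(1+z²/3)`.
-/

namespace Pool.Agent.helper31.EQB

open Complex ComplexConjugate Set Filter Topology
open Pool.Agent.helper31.EQ.Y Pool.Agent.helper31.EQ.R
open Pool.Agent.helper12.EQL Pool.Agent.helper12.RP Pool.Agent.helper12.FF
open Pool.Agent.helper63.FF

/-- the block `l` of the programs of chart B is exactly `lam K x` -/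
theorem lam_blk {K K2 q6 Kq x z iz th l : ℝ} (h2 : K2 = K * K) (h6 : q6 = 1 - K2 * (1 * 6⁻¹))
    (hq : Kq = K * q6) (hz : z = 2 * (Kq * x)) (hiz : iz = (z * z * (1 * 3⁻¹) + 1)⁻¹)
    (hth : th = z * iz) (hl : l = q6 * x * iz * ((1 / 4) * (th * th) + 1)) : l = lam K x := by
  have e1 : q6 = 1 - K ^ 2 / 6 := by rw [h6, h2]; ring
  have e2 : z = 2 * (K * (1 - K ^ 2 / 6)) * x := by rw [hz, hq, e1]; ring
  have e3 : iz = (1 + z ^ 2 / 3)⁻¹ := by rw [hiz]; congr 1; ring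
  have e4 : th = thf K x := by
    unfold thf
    rw [hth, e3, ← e2]
    exact (div_eq_mul_inv _ _).symm
  unfold lam
  rw [hl, e4, ← e2, e3, e1, div_eq_mul_inv]
  ring

/-- chart A: `lam K x ≥ (1 - K0²/6) x/(1 + (2 K0 x)²/3)`, `K ≤ K0 = 1/100` -/
theorem lam_ge_A {K x : ℝ} (hK0 : 0 ≤ K) (hK : K ≤ 1 / 100) (hx : 0 ≤ x) :
    (1 - (1 / 100) ^ 2 / 6) * x / (1 + (2 * (1 / 100) * x) ^ 2 / 3) ≤ lam K x := by
  have hK2 : K ^ 2 ≤ (1 / 100) ^ 2 := pow_le_pow_left₀ hK0 hK 2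
  have h0 : 0 ≤ 1 - K ^ 2 / 6 := by linarith
  have h1 : 1 - K ^ 2 / 6 ≤ 1 := by nlinarith [sq_nonneg K]
  have h2 : K * (1 - K ^ 2 / 6) ≤ 1 / 100 := by
    calc K * (1 - K ^ 2 / 6) ≤ K * 1 := mul_le_mul_of_nonneg_left h1 hK0
      _ ≤ 1 / 100 := by linarith
  have h3 : 2 * (K * (1 - K ^ 2 / 6)) * x ≤ 2 * (1 / 100) * x :=
    mul_le_mul_of_nonneg_right (by linarith) hx
  have h4 : 0 ≤ 2 * (K * (1 - K ^ 2 / 6)) * x := by positivity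
  have h5 : (2 * (K * (1 - K ^ 2 / 6)) * x) ^ 2 ≤ (2 * (1 / 100) * x) ^ 2 :=
    pow_le_pow_left₀ h4 h3 2
  have h6 : (1 - (1 / 100) ^ 2 / 6) * x ≤ (1 - K ^ 2 / 6) * x :=
    mul_le_mul_of_nonneg_right (by linarith) hx
  have h7 : (1 - (1 / 100) ^ 2 / 6) * x / (1 + (2 * (1 / 100) * x) ^ 2 / 3) ≤
      (1 - K ^ 2 / 6) * x / (1 + (2 * (K * (1 - K ^ 2 / 6)) * x) ^ 2 / 3) := by
    apply div_le_div₀ (by positivity) h6 (by positivity)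
    linarith
  have h8 : 0 ≤ (1 - K ^ 2 / 6) * x / (1 + (2 * (K * (1 - K ^ 2 / 6)) * x) ^ 2 / 3) := by
    positivity
  unfold lam
  refine h7.trans ?_
  have h9 : (1:ℝ) ≤ 1 + thf K x ^ 2 / 4 := by nlinarith [sq_nonneg (thf K x)]
  calc (1 - K ^ 2 / 6) * x / (1 + (2 * (K * (1 - K ^ 2 / 6)) * x) ^ 2 / 3)
      = (1 - K ^ 2 / 6) * x / (1 + (2 * (K * (1 - K ^ 2 / 6)) * x) ^ 2 / 3) * 1 := by ring
    _ ≤ _ := mul_le_mul_of_nonneg_left h9 h8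

/-- chart A, first node -/
theorem lam_ge_F {K x : ℝ} (hK0 : 0 ≤ K) (hK : K ≤ 1 / 100) (hx : 0 ≤ x) (hx1 : x ≤ 16 / 5) :
    (16361 / 16384) * x ≤ lam K x := by
  refine le_trans ?_ (lam_ge_A hK0 hK hx)
  have h1 : (2 * (1 / 100) * x) ^ 2 ≤ (2 * (1 / 100) * (16 / 5)) ^ 2 :=
    pow_le_pow_left₀ (by positivity) (by linarith) 2
  rw [le_div_iff₀ (by positivity)]
  have h2 : 1 + (2 * (1 / 100) * x) ^ 2 / 3 ≤ 1 + (2 * (1 / 100) * (16 / 5)) ^ 2 / 3 := by linarith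
  calc 16361 / 16384 * x * (1 + (2 * (1 / 100) * x) ^ 2 / 3)
      ≤ 16361 / 16384 * x * (1 + (2 * (1 / 100) * (16 / 5)) ^ 2 / 3) :=
        mul_le_mul_of_nonneg_left h2 (by positivity)
    _ = (16361 / 16384 * (1 + (2 * (1 / 100) * (16 / 5)) ^ 2 / 3)) * x := by ring
    _ ≤ (1 - (1 / 100) ^ 2 / 6) * x := mul_le_mul_of_nonneg_right (by norm_num) hx

end Pool.Agent.helper31.EQB
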