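import Pool.Agent.helper31.EQB.Cst

/-!
# EQB-22: the constants of the bound of `M`

`K = β/e`: chart A `K ≤ 1/100`; chart B: `β² ≤ e (13864/10000 + 7/(4 √e))` (so `K ≤ 87/1000`), `w = wm ≥ Y/√(β²+Y²)`
(`Y = 7/2`, `Y/√(β²+Y²) = Yt/√(1+Yt²)`, `√(1+u) ≥ 1 + u/2 - u²/8`).
-/

namespace Pool.Agent.helper31.EQB

open Complex ComplexConjugate Set Filter Topology
open Pool.Agent.helper31.EQ.Y Pool.Agent.helper31.EQ.R
open Pool.Agent.helper12.EQL Pool.Agent.helper12.RP Pool.Agent.helper12.FF Pool.Agent.helper12.RS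
open Pool.Agent.helper63.FF

variable {e κ : ℝ}

/-- the square root of the resonance term -/
private theorem sqrt_pe {e sp isp sg : ℝ} (he : 0 < e) (hsp : 0 < sp) (hi : isp = sp⁻¹)
    (hsg : sg = (√e)⁻¹) : √(2 / (sp * sp * e)) ≤ 1482911 / 1048576 * (sg * isp) := by
  have h1 : 0 < √e := Real.sqrt_pos.2 he
  have h2 : √e * √e = e := Real.mul_self_sqrt he.le
  have h3 : 0 ≤ 1482911 / 1048576 * (sg * isp) := by rw [hi, hsg]; positivity
  apply Real.sqrt_le_iff.2 ⟨h3, ?_⟩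
  rw [hi, hsg]
  have h4 : (1482911 / 1048576 * ((√e)⁻¹ * sp⁻¹)) ^ 2 =
      (1482911 / 1048576) ^ 2 / (sp * sp * (√e * √e)) := by
    field_simp
  rw [h4, h2]
  apply div_le_div_of_nonneg_right (by norm_num) (by positivity)

theorem mc_A (he : 500 ≤ e) (hκ : 0 < κ) (hb : bet e κ ≤ 5) (M : PMA (√e)⁻¹) :
    MC e κ (7 / 2) 1 M.p M.q := by
  have he0 : 0 < e := by linarith
  have hs : 0 < √e := Real.sqrt_pos.2 he0
  have hss : √e * √e = e := Real.mul_self_sqrt he0.le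
  have hie : M.ie = 1 / e := by
    rw [M.e_ie, ← mul_inv, hss, one_div]
  have hsg : 0 < (√e)⁻¹ := inv_pos.2 hs
  have hie0 : 0 < M.ie := by rw [hie]; positivity
  have hK0 : 0 < Real.sinh κ := Real.sinh_pos_iff.2 hκ
  have hK : Real.sinh κ ≤ 1 / 100 := by
    have h1 : e * Real.sinh κ ≤ 5 := hb
    have h2 : 500 * Real.sinh κ ≤ e * Real.sinh κ := mul_le_mul_of_nonneg_right he hK0.le
    linarith
  have hK2 : Real.sinh κ ^ 2 ≤ (1 / 100) ^ 2 := pow_le_pow_left₀ hK0.le hK 2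
  have hb0 : 0 < bet e κ := mul_pos he0 hK0
  have hb2 : bet e κ ^ 2 ≤ 5 ^ 2 := pow_le_pow_left₀ hb0.le hb 2
  have hq7 : 7 / 10 ≤ M.q := by linarith [M.p_q7]
  have hisp : 0 < M.isp := by rw [M.e_isp]; exact inv_pos.2 M.p_sp
  have hr := sqrt_pe he0 M.p_sp M.e_isp rfl
  rw [← M.e_p] at hr
  refine ⟨by linarith, hκ, by linarith, by norm_num, by norm_num, ?_, by norm_num, ?_, hq7, ?_,
    by linarith [M.p_p6], ?_, ?_⟩
  · linarith
  · rw [one_mul]
    apply Real.le_sqrt_of_sq_le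
    nlinarith [sq_nonneg (bet e κ)]
  · rw [M.e_q]
    linarith
  · have h1 := M.p_hp
    have h2 : M.q * ((1048523 / 1048576) - 12 * M.ie) ≤
        M.q * (1 - Real.sinh κ ^ 2 / 2 - 12 / e) := by
      apply mul_le_mul_of_nonneg_left _ (by linarith)
      rw [hie]
      have : 12 * (1 / e) = 12 / e := by ring
      rw [this]
      linarith
    linarith
  · have h1 := M.p_hq
    have h2 : 2 * 1 * √(2 / (M.p * e)) * (1 + 16 / e) ≤
        (1482911 / 524288) * ((√e)⁻¹ * M.isp * (16 * M.ie + 1)) := by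
      have h3 : 0 ≤ 1 + 16 / e := by positivity
      have h4 := mul_le_mul_of_nonneg_right hr h3
      have h5 : 16 * M.ie + 1 = 1 + 16 / e := by rw [hie]; ring
      rw [h5]
      nlinarith
    have h6 : 2 / e = 2 * M.ie := by rw [hie]; ring
    have h7 : 21 / (5 * e) = 21 / 5 * M.ie := by rw [hie]; field_simp
    have h8 : 17 * (7 / 2) / (5 * e) = 119 / 10 * M.ie := by rw [hie]; field_simp; norm_num
    rw [h6, h7, h8]
    nlinarith

theorem mc_B (he : 200 ≤ e) (hκ : 0 < κ) (hb : 5 ≤ bet e κ)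
    (hD : bet e κ ^ 2 ≤ e * (13864 / 10000 + 7 / 4 * (√e)⁻¹))
    (M : PMB (bet e κ / √e) (bet e κ)⁻¹) : MC e κ (7 / 2) M.wm M.p M.q := by
  have he0 : 0 < e := by linarith
  have hs : 0 < √e := Real.sqrt_pos.2 he0
  have hss : √e * √e = e := Real.mul_self_sqrt he0.le
  have hb0 : 0 < bet e κ := by linarith
  have hse : M.se = (√e)⁻¹ := by
    rw [M.e_se]
    field_simp
  have hie : M.ie = 1 / e := by
    rw [M.e_ie, hse, ← mul_inv, hss, one_div]
  have hsg : 0 < (√e)⁻¹ := inv_pos.2 hs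
  have hie0 : 0 < M.ie := by rw [hie]; positivity
  have hK0 : 0 < Real.sinh κ := Real.sinh_pos_iff.2 hκ
  have hKe : M.K = Real.sinh κ := by
    rw [M.e_K, hse]
    have : bet e κ = √e * √e * Real.sinh κ := by rw [hss]; rfl
    rw [this]
    field_simp
  have hK2 : M.K2 = Real.sinh κ ^ 2 := by rw [M.e_K2, hKe]; ring
  have hs14 : 14 ≤ √e := Real.le_sqrt_of_sq_le (by linarith)
  have hsg14 : (√e)⁻¹ ≤ 1 / 14 := by
    rw [inv_eq_one_div]
    exact one_div_le_one_div_of_le (by norm_num) hs14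
  have hb2 : bet e κ ^ 2 ≤ e * (15114 / 10000) := by
    refine hD.trans (mul_le_mul_of_nonneg_left ?_ he0.le)
    linarith
  have hK : Real.sinh κ ≤ 1 / 10 := by
    by_contra h
    push Not at h
    have h1 : e * (1 / 10) ≤ bet e κ := mul_le_mul_of_nonneg_left h.le he0.le
    have h2 : (e * (1 / 10)) ^ 2 ≤ bet e κ ^ 2 := pow_le_pow_left₀ (by positivity) h1 2
    nlinarith
  have hta0 : 0 < (bet e κ)⁻¹ := inv_pos.2 hb0
  have hta : (bet e κ)⁻¹ ≤ 1 / 5 := by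
    rw [inv_eq_one_div]
    exact one_div_le_one_div_of_le (by norm_num) hb
  have hYt0 : 0 < M.Yt := by rw [M.e_Yt]; positivity
  have hYt : M.Yt ≤ 7 / 10 := by rw [M.e_Yt]; linarith
  have hY2 : M.Y2 ≤ 49 / 100 := by rw [M.e_Y2]; nlinarith
  have hY20 : 0 ≤ M.Y2 := by rw [M.e_Y2]; positivity
  have hD0 : 0 < 1 + M.Y2 * ((1 / 2) - (1 / 8) * M.Y2) := by
    have : 0 ≤ M.Y2 * ((1 / 2) - (1 / 8) * M.Y2) := mul_nonneg hY20 (by linarith)
    linarith
  have hwm0 : 0 < M.wm := by rw [M.e_wm]; positivity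
  have hwse : M.wse0 = M.wm * (√e)⁻¹ := by rw [M.e_wse0, hse]
  have hwse0 : 0 < M.wse0 := by rw [hwse]; positivity
  have hq7 : 7 / 10 ≤ M.q := by linarith [M.p_q7]
  have hisp : 0 < M.isp := by rw [M.e_isp]; exact inv_pos.2 M.p_sp
  have hr := sqrt_pe he0 M.p_sp M.e_isp rfl
  rw [← M.e_p] at hr
  refine ⟨he, hκ, hK, by norm_num, by norm_num, ?_, hwm0.le, ?_, hq7, ?_, by linarith [M.p_p6],
    ?_, ?_⟩
  · nlinarith
  · have h1 : (1 + M.Y2 * ((1 / 2) - (1 / 8) * M.Y2)) * bet e κ ≤ √(bet e κ ^ 2 + (7 / 2) ^ 2) := by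
      apply Real.le_sqrt_of_sq_le
      have h2 : M.Y2 * bet e κ ^ 2 = (7 / 2) ^ 2 := by
        rw [M.e_Y2, M.e_Yt]; field_simp
      have h3 : (1 + M.Y2 * ((1 / 2) - (1 / 8) * M.Y2)) ^ 2 ≤ 1 + M.Y2 := by
        have : (1 + M.Y2 * ((1 / 2) - (1 / 8) * M.Y2)) ^ 2 =
          1 + M.Y2 - M.Y2 ^ 3 * (8 - M.Y2) / 64 := by ring
        rw [this]
        have : 0 ≤ M.Y2 ^ 3 * (8 - M.Y2) / 64 := by
          have : 0 ≤ 8 - M.Y2 := by linarith
          positivity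
        linarith
      calc ((1 + M.Y2 * ((1 / 2) - (1 / 8) * M.Y2)) * bet e κ) ^ 2
          = (1 + M.Y2 * ((1 / 2) - (1 / 8) * M.Y2)) ^ 2 * bet e κ ^ 2 := by ring
        _ ≤ (1 + M.Y2) * bet e κ ^ 2 := mul_le_mul_of_nonneg_right h3 (by positivity)
        _ = bet e κ ^ 2 + (7 / 2) ^ 2 := by rw [add_mul, one_mul, h2]
    calc (7 / 2 : ℝ) = M.wm * ((1 + M.Y2 * ((1 / 2) - (1 / 8) * M.Y2)) * bet e κ) := by
          have h5 : M.wm * (1 + M.Y2 * ((1 / 2) - (1 / 8) * M.Y2)) = M.Yt := by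
            rw [M.e_wm, mul_assoc, inv_mul_cancel₀ hD0.ne', mul_one]
          rw [← mul_assoc, h5, M.e_Yt]
          field_simp
      _ ≤ _ := mul_le_mul_of_nonneg_left h1 hwm0.le
  · rw [M.e_q, hK2]
    nlinarith [sq_nonneg (Real.sinh κ)]
  · have h1 := M.p_hp
    rw [hK2, hie] at h1
    have h2 : (1 - (1 / 2) * Real.sinh κ ^ 2 - 12 * (1 / e)) =
      1 - Real.sinh κ ^ 2 / 2 - 12 / e := by ring
    rw [h2] at h1
    linarith
  · have h1 := M.p_hq
    have h2 : 2 * M.wm * √(2 / (M.p * e)) * (1 + 16 / e) ≤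
        (1482911 / 524288) * (M.wse0 * M.isp * (16 * M.ie + 1)) := by
      have h3 : 0 ≤ 2 * M.wm * (1 + 16 / e) := by positivity
      have h4 := mul_le_mul_of_nonneg_right hr h3
      have h5 : 16 * M.ie + 1 = 1 + 16 / e := by rw [hie]; ring
      rw [h5, hwse]
      nlinarith
    have h6 : 2 / e = 2 * M.ie := by rw [hie]; ring
    have h7 : 21 / (5 * e) = 21 / 5 * M.ie := by rw [hie]; field_simp
    have h8 : 17 * (7 / 2) / (5 * e) = 119 / 10 * M.ie := by rw [hie]; field_simp; norm_num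
    rw [h6, h7, h8]
    have h9 : (Real.sinh κ ^ 2 + 21 / 5 * M.ie) * M.wm ^ 2 ≤
        (M.K2 + (1101005 / 262144) * M.ie) * M.wm2 := by
      rw [M.e_wm2, hK2, ← pow_two]
      apply mul_le_mul_of_nonneg_right _ (by positivity)
      nlinarith
    nlinarith [sq_nonneg (Real.sinh κ)]

end Pool.Agent.helper31.EQB
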