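import Pool.Agent.helper31.EQB.MB2

/-!
# EQB-20: numerical form of `Mq`

`Bs s = (1/2 + √(1/4 + 2/s))⁻¹` is increasing; with `s = p W'' ≥ (bn w)² = ws²`:
`Bs s ≥ ws/(ws/2 + √2 √(1 + ws²/8)) ≥ ws/(ws/2 + √2 (1 + ws²/16))` and `√2 ≤ 1482911/1048576`, so `Bs s ≥ b w`.
-/

namespace Pool.Agent.helper31.EQB

open Complex ComplexConjugate Set Filter Topology
open Pool.Agent.helper31.EQ.Y Pool.Agent.helper31.EQ.R
open Pool.Agent.helper12.EQL Pool.Agent.helper12.RP Pool.Agent.helper12.FF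
open Pool.Agent.helper63.FF

/-- `rc = 1 - x/2 - x²/2`, `x = 1 - cc`: `rc² ≤ cc` -/
theorem rc_sq {cc xx rc : ℝ} (h0 : 0 ≤ cc) (h1 : cc ≤ 1) (hx : xx = (-cc) + 1)
    (hr : rc = (1 / 2) * xx * (-(xx + 1)) + 1) : 0 ≤ rc ∧ rc ^ 2 ≤ cc := by
  have hx0 : 0 ≤ xx := by rw [hx]; linarith
  have hx1 : xx ≤ 1 := by rw [hx]; linarith
  have hcc : cc = 1 - xx := by rw [hx]; ring
  constructor
  · rw [hr]; nlinarith
  · have h2 : cc - rc ^ 2 = xx ^ 2 * ((1 - xx) * (3 + xx)) / 4 := by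
      rw [hr, hcc]; ring
    have h3 : 0 ≤ xx ^ 2 * ((1 - xx) * (3 + xx)) / 4 := by
      have : 0 ≤ 1 - xx := by linarith
      positivity
    linarith

/-- lower bound of `Bs` at a square -/
theorem Bs_sq_ge {ws : ℝ} (hws : 0 < ws) :
    ws * ((1 / 2) * ws + ((1482911 / 16777216) * (ws * ws) + (1482911 / 1048576)))⁻¹ ≤
      Bs (ws ^ 2) := by
  unfold Bs
  have h1 : √(1 / 4 + 2 / ws ^ 2) ≤
      ((1482911 / 16777216) * (ws * ws) + (1482911 / 1048576)) / ws := by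
    apply Real.sqrt_le_iff.2
    refine ⟨by positivity, ?_⟩
    rw [div_pow, le_div_iff₀ (by positivity)]
    have h2 : (1 / 4 + 2 / ws ^ 2) * ws ^ 2 = ws ^ 2 / 4 + 2 := by
      field_simp
    rw [h2]
    nlinarith [sq_nonneg (ws ^ 2), sq_nonneg ws]
  have h3 : 1 / 2 + √(1 / 4 + 2 / ws ^ 2) ≤
      ((1 / 2) * ws + ((1482911 / 16777216) * (ws * ws) + (1482911 / 1048576))) / ws := by
    have h4 : ((1 / 2) * ws + ((1482911 / 16777216) * (ws * ws) + (1482911 / 1048576))) / ws =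
        1 / 2 + ((1482911 / 16777216) * (ws * ws) + (1482911 / 1048576)) / ws := by
      field_simp
    rw [h4]; linarith
  have h5 : 0 < 1 / 2 + √(1 / 4 + 2 / ws ^ 2) := by positivity
  refine (le_of_eq ?_).trans (inv_anti₀ h5 h3)
  rw [inv_div]
  exact (div_eq_mul_inv _ _).symm

/-- The numerical bound of `Mq`. -/
theorem mq_num {e K p q q2 x W' w cc bn ws b ib l2 u : ℝ} (hp : 0 < p) (hq : 0 ≤ q) (hw : 0 < w)
    (hcc : 0 < cc) (hin : w ^ 2 * cc ≤ W' * (1 - 500 / e ^ 2)) (hbn0 : 0 < bn)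
    (hbn : bn ^ 2 ≤ p * cc) (hws : ws = bn * w)
    (hb : b = bn * ((1 / 2) * ws + ((1482911 / 16777216) * (ws * ws) + (1482911 / 1048576)))⁻¹)
    (hl0 : 0 ≤ l2) (hl : l2 ≤ lam K (x + 1)) (hib : ib = (b + (1 / 2) * (q * w * cc * l2))⁻¹)
    (hu : Real.exp (-(q2 * (lam K x * W'))) ≤ u) :
    0 < ib ∧ Mq e K p q q2 x W' ≤ u * (1 + ib / w) := by
  have hws0 : 0 < ws := by rw [hws]; positivity
  have hD0 : 0 < (1 / 2) * ws + ((1482911 / 16777216) * (ws * ws) + (1482911 / 1048576)) := by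
    positivity
  have hb0 : 0 < b := by rw [hb]; positivity
  have hsum0 : 0 < b + (1 / 2) * (q * w * cc * l2) := by positivity
  have hib0 : 0 < ib := by rw [hib]; positivity
  refine ⟨hib0, ?_⟩
  obtain ⟨W2, hW2⟩ : ∃ W2, W2 = W' * (1 - 500 / e ^ 2) := ⟨_, rfl⟩
  have hW2w : w ^ 2 * cc ≤ W2 := by rw [hW2]; exact hin
  have hW20 : 0 < W2 := lt_of_lt_of_le (by positivity) hW2w
  have h1 : ws ^ 2 ≤ p * W2 := by
    rw [hws]
    calc (bn * w) ^ 2 = bn ^ 2 * w ^ 2 := by ring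
      _ ≤ (p * cc) * w ^ 2 := mul_le_mul_of_nonneg_right hbn (by positivity)
      _ = p * (w ^ 2 * cc) := by ring
      _ ≤ p * W2 := mul_le_mul_of_nonneg_left hW2w hp.le
  have h2 : w * b ≤ Bs (p * W2) := by
    refine le_trans ?_ (Bs_mono2 (by positivity : 0 < ws ^ 2) h1)
    refine le_trans (le_of_eq ?_) (Bs_sq_ge hws0)
    rw [hb, hws]; ring
  have h3 : w * ((1 / 2) * (q * w * cc * l2)) ≤ q * (lam K (x + 1) * W2) / 2 := by
    have h4 : w ^ 2 * cc * l2 ≤ W2 * lam K (x + 1) :=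
      mul_le_mul hW2w hl hl0 hW20.le
    have h5 := mul_le_mul_of_nonneg_left h4 hq
    nlinarith
  have h6 : w * (b + (1 / 2) * (q * w * cc * l2)) ≤
      Bs (p * W2) + q * (lam K (x + 1) * W2) / 2 := by
    rw [mul_add]; linarith
  have h7 : (Bs (p * W2) + q * (lam K (x + 1) * W2) / 2)⁻¹ ≤ ib / w := by
    refine (inv_anti₀ (by positivity) h6).trans (le_of_eq ?_)
    rw [hib, mul_inv, div_eq_mul_inv]; ring
  unfold Mq
  rw [← hW2]
  have h8 : 0 ≤ 1 + ib / w := by positivity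
  refine mul_le_mul hu (by linarith) ?_ ((Real.exp_pos _).le.trans hu)
  have h9 : 0 < Bs (p * W2) + q * (lam K (x + 1) * W2) / 2 :=
    lt_of_lt_of_le (by positivity) h6
  positivity

end Pool.Agent.helper31.EQB
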