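import Pool.Agent.helper31.EQB.Cst
import Pool.Agent.helper31.EQB.MCN
import Pool.Agent.helper31.EQB.LamN
import Pool.Agent.helper31.EQB.MqN

/-!
# EQB-29a: first node of chart A: basic facts of the program

See the header of Prog for the scaling.  `Gr = GrS √e`, `Gt = GtS √e`, `G2 = G2S √e`, `F = Gr`, `gt = Gt/e`, `ft = Gt`, `a = P.a`,
`lal = log 2`, `gl = 8/5 V`, `S0l = (R sR0)²`, `Sl = R² m2`, `lau = P.lau`, `lf0 = lf1 = Gr - lau`, `Ma`, `Mb`, `M1` arbitrary with the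
relations `hDG .. hEMr`.
-/

namespace Pool.Agent.helper31.EQB

open Complex ComplexConjugate Set Filter Topology
open Pool.Agent.helper31.EQ.Y Pool.Agent.helper31.EQ.R
open Pool.Agent.helper12.EQL Pool.Agent.helper12.RP Pool.Agent.helper12.FF Pool.Agent.helper12.RS
open Pool.Agent.helper63.FF

variable {e κ : ℝ}

/-- the relations of `Ma`, `Mb`, `M1` with the values of the program -/
structure RelA {c : CFA} {sg be v R kc vs GrS GtS G2S DG DF vDG EM EMr : ℝ}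
    (P : PFA c sg be v R kc vs GrS GtS G2S DG DF vDG EM EMr) (Ma Mb M1 : ℝ) : Prop where
  Ma0 : 0 ≤ Ma
  Mb0 : 0 ≤ Mb
  M10 : 0 ≤ M1
  hDG : DG = P.dz * (1 + Mb) + P.X * P.LX
  hDF : DF = P.dz * Ma + P.uX * P.LU
  hvDG : vDG * R ^ 2 = v * DG
  hEM : EM = P.E * (1 + M1)
  hEMr : EMr = EM * (R⁻¹ + kc / 4)

/-- the relations of `Gr`, `Gt`, `G2` -/
structure RelG (sg v lau GrS GtS G2S : ℝ) : Prop where
  h0 : sg * lau ≤ GrS
  h1 : GtS ^ 2 = GrS ^ 2 + (sg * v) ^ 2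
  h2 : G2S ^ 2 = GrS ^ 2 + (sg * v) ^ 2 / 4
  h3 : 0 ≤ GtS
  h4 : 0 ≤ G2S

/-- `exp y ≤ 1 + c y` for small `y` -/
theorem fa_exp_lin {y : ℝ} (h0 : 0 ≤ y) (h1 : y ≤ 1 / 100) :
    Real.exp y ≤ 1 + (267387 / 262144) * y := by
  have h := Real.exp_bound_div_one_sub_of_interval h0 (by linarith : y < 1)
  refine h.trans ?_
  rw [div_le_iff₀ (by linarith)]
  nlinarith

/-- `-log (1-X) ≤ X (1 + X/2 + X²/(3 (1-X)))` -/
theorem fa_log {X c : ℝ} (hX0 : 0 ≤ X) (hX1 : X < 1) (hc : 1 / 3 ≤ c) :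
    -Real.log (1 - X) ≤ X * (1 + (1 / 2) * X + c * (X * X * (1 - X)⁻¹)) := by
  have h := Real.hasSum_pow_div_log_of_abs_lt_one (x := X) (by rw [abs_of_nonneg hX0]; exact hX1)
  have h2 := (hasSum_nat_add_iff' 2).2 h
  have h3 : HasSum (fun n : ℕ => X ^ 3 / 3 * X ^ n) (X ^ 3 / 3 * (1 - X)⁻¹) :=
    (hasSum_geometric_of_lt_one hX0 hX1).mul_left _
  have h4 := hasSum_le (fun n => ?_) h2 h3
  · rw [Finset.sum_range_succ, Finset.sum_range_one] at h4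
    have h5 : 0 < (1 - X)⁻¹ := inv_pos.2 (by linarith)
    have h6 : 0 ≤ X ^ 3 * (1 - X)⁻¹ := by positivity
    have h7 : 0 ≤ (c - 1 / 3) * (X ^ 3 * (1 - X)⁻¹) := mul_nonneg (by linarith) h6
    norm_num at h4
    nlinarith
  · have h5 : X ^ (n + 2 + 1) = X ^ 3 * X ^ n := by ring
    rw [h5, div_mul_eq_mul_div]
    apply div_le_div_of_nonneg_left (by positivity) (by norm_num)
    push_cast
    have : (0 : ℝ) ≤ n := Nat.cast_nonneg n
    linarith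

/-- Padé bound -/
theorem fa_pade {x : ℝ} (h0 : 0 ≤ x) (h1 : x < 2) :
    Real.exp x ≤ ((1 / 2) * x + 1) * (1 - (1 / 2) * x)⁻¹ := by
  have h := Real.sum_range_le_log_div (x := x / 2) (by linarith) (by linarith) 1
  rw [Finset.sum_range_one] at h
  norm_num at h
  have h2 : 0 < (1 + x / 2) / (1 - x / 2) := div_pos (by linarith) (by linarith)
  have h3 : x ≤ Real.log ((1 + x / 2) / (1 - x / 2)) := by linarith
  have h4 := (Real.le_log_iff_exp_le h2).1 h3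
  rw [div_eq_mul_inv] at h4
  have e1 : (1 / 2) * x + 1 = 1 + x / 2 := by ring
  have e2 : 1 - (1 / 2) * x = 1 - x / 2 := by ring
  rw [e1, e2]
  exact h4

/-- basic facts of the program of the first node, chart A -/
structure FaB (e s sg K be v R kc vs : ℝ) {GrS GtS G2S DG DF vDG EM EMr : ℝ}
    (P : PFA cFA sg be v R kc vs GrS GtS G2S DG DF vDG EM EMr) : Prop where
  he5 : 500 ≤ e
  hs0 : 0 < s
  hss : s * s = e
  hsg : sg * s = 1
  hK0 : 0 < K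
  hbe : be = e * K
  hb : be ≤ 5
  hv0 : 0 ≤ v
  hvpi : v ≤ Real.pi
  hR : 0 < R
  hR2 : R ^ 2 = be ^ 2 + v ^ 2
  he0 : 0 < e
  hbe0 : 0 < be
  hsg0 : 0 < sg
  hieE : P.ie * e = 1
  hie0 : 0 < P.ie
  hdiv : ∀ x : ℝ, x / e = x * P.ie
  hsie : s * P.ie = sg
  hKie : be * P.ie = K
  hPK : P.K = K
  hK2 : P.K2 = K ^ 2
  hK2se : P.K2se = K * be * sg
  hV1 : P.V = P.ie * R ^ 2
  hVe : P.V * e = R ^ 2
  hw0 : 0 < P.w
  hVp : 0 < P.V
  hwse1 : P.wse = P.ie * R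
  hwse0 : 0 < P.wse
  hRwse : R * P.wse = P.V
  hkR : kc * R = be
  hvR : vs * R = v
  hkv1 : kc ^ 2 + vs ^ 2 = 1
  hkc0 : 0 < kc
  hvs0 : 0 ≤ vs
  hVk : P.V * kc ^ 2 = be ^ 2 / e
  hVv : P.V * vs ^ 2 = v ^ 2 / e
  hv3 : v ≤ 315 / 100
  hR35 : R ^ 2 ≤ 35
  hie5 : P.ie ≤ 1 / 500
  hV7 : P.V ≤ 7 / 100
  hK1 : K ≤ 1 / 100
  hVie0 : 0 ≤ P.Vie
  ha0 : 0 ≤ P.a
  ha1 : P.a ≤ 1 / 18
  he2a : P.e2a = Real.exp (2 * P.a)
  hea1 : 1 ≤ P.ea
  he1 : 1 ≤ P.e2a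
  he2 : P.e2a ≤ 9 / 8
  her1 : (8 / 5 * P.V + 5 / 2 * v) * P.ie ≤ P.er
  her0 : 0 ≤ P.er
  her2 : P.er ≤ 1 / 50
  herr : P.V * (8 / 5 * P.V + 5 / 2 * v) / e ≤ P.V * P.er
  hdzR : P.dz = P.dzR * R
  hdzR0 : 0 ≤ P.dzR
  hdz0 : 0 ≤ P.dz
  hdzE : P.dz = v * sg * G2S + v * P.ea * (1 / 2 * (GtS ^ 2 * P.ie)) +
      (149797 / 1048576) * (v * P.ea * K ^ 2) +
      P.V * ((3 / 2) * P.e2a - (3 / 2) + (3 / 4) * K ^ 2 + v * P.ie + P.er) +
      K ^ 2 * v ^ 2 * P.ie / 8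

theorem fa_base {e s sg K be : ℝ} (he : 500 ≤ e) (hs0 : 0 < s) (hss : s * s = e)
    (hsg : sg * s = 1) (hK0 : 0 < K) (hbe : be = e * K) (hb : be ≤ 5) {v : ℝ} (hv0 : 0 ≤ v)
    (hv1 : v ≤ Real.pi) {R kc vs : ℝ} (hR : 0 < R) (hR2 : R ^ 2 = be ^ 2 + v ^ 2)
    (hkc : kc = be / R) (hvs : vs = v / R) {GrS GtS G2S DG DF vDG EM EMr : ℝ}
    (P : PFA cFA sg be v R kc vs GrS GtS G2S DG DF vDG EM EMr)
    (HG : RelG sg v P.lau GrS GtS G2S) : FaB e s sg K be v R kc vs P := by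
  have he0 : 0 < e := by linarith
  have hbe0 : 0 < be := by rw [hbe]; positivity
  obtain ⟨hGl, hGt, hG2, hGt0, hG20⟩ := HG
  have c1 : cFA.cD = 461 / 512 := rfl
  -- scaling
  have hsg0 : 0 < sg := by
    rcases lt_or_ge 0 sg with h | h
    · exact h
    · nlinarith
  have hieE : P.ie * e = 1 := by
    rw [P.e_ie, ← hss]; linear_combination (sg * s + 1) * hsg
  have hie0 : 0 < P.ie := by rw [P.e_ie]; positivity
  have hdiv : ∀ x : ℝ, x / e = x * P.ie := by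
    intro x
    rw [div_eq_iff he0.ne']
    linear_combination -x * hieE
  have hsie : s * P.ie = sg := by rw [P.e_ie]; linear_combination sg * hsg
  have hKie : be * P.ie = K := by linear_combination P.ie * hbe + K * hieE
  have hPK : P.K = K := P.e_K.trans hKie
  have hK2 : P.K2 = K ^ 2 := by rw [P.e_K2, hPK]; ring
  have hK2se : P.K2se = K * be * sg := by rw [P.e_K2se, hPK]
  have hV1 : P.V = P.ie * R ^ 2 := by rw [P.e_V, P.e_w, P.e_ie]; ring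
  have hVe : P.V * e = R ^ 2 := by rw [hV1]; linear_combination R ^ 2 * hieE
  have hw0 : 0 < P.w := by rw [P.e_w]; positivity
  have hVp : 0 < P.V := by rw [hV1]; positivity
  have hwse1 : P.wse = P.ie * R := by rw [P.e_wse, P.e_w, P.e_ie]; ring
  have hwse0 : 0 < P.wse := by rw [hwse1]; positivity
  have hRwse : R * P.wse = P.V := by rw [hwse1, hV1]; ring
  have hkR : kc * R = be := by rw [hkc]; exact div_mul_cancel₀ _ hR.ne'
  have hvR : vs * R = v := by rw [hvs]; exact div_mul_cancel₀ _ hR.ne'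
  have hkv1 : kc ^ 2 + vs ^ 2 = 1 := by
    have h1 : (kc ^ 2 + vs ^ 2) * R ^ 2 = 1 * R ^ 2 := by
      linear_combination (kc * R + be) * hkR + (vs * R + v) * hvR - hR2
    exact mul_right_cancel₀ (by positivity) h1
  have hkc0 : 0 < kc := by rw [hkc]; positivity
  have hvs0 : 0 ≤ vs := by rw [hvs]; positivity
  have hVk : P.V * kc ^ 2 = be ^ 2 / e := by
    rw [hdiv, hV1]; linear_combination P.ie * (kc * R + be) * hkR
  have hVv : P.V * vs ^ 2 = v ^ 2 / e := by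
    rw [hdiv, hV1]; linear_combination P.ie * (vs * R + v) * hvR
  have hpi := Real.pi_lt_d2
  have hv3 : v ≤ 315 / 100 := by norm_num at hpi ⊢; linarith
  have hR35 : R ^ 2 ≤ 35 := by rw [hR2]; nlinarith
  have hie5 : P.ie ≤ 1 / 500 := by
    have h1 : P.ie * 500 ≤ P.ie * e := mul_le_mul_of_nonneg_left he hie0.le
    linarith
  have hV7 : P.V ≤ 7 / 100 := by
    rw [hV1]
    calc P.ie * R ^ 2 ≤ (1 / 500) * 35 := mul_le_mul hie5 hR35 (by positivity) (by norm_num)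
      _ = 7 / 100 := by norm_num
  have hK1 : K ≤ 1 / 100 := by
    rw [← hKie]
    calc be * P.ie ≤ 5 * (1 / 500) := mul_le_mul hb hie5 hie0.le (by norm_num)
      _ = 1 / 100 := by norm_num
  have hVie : P.Vie = P.V * P.ie := P.e_Vie
  have hVie0 : 0 ≤ P.Vie := by rw [hVie]; positivity
  -- a
  have ha0 : 0 ≤ P.a := by
    rw [P.e_a, c1]
    positivity
  have ha1 : P.a ≤ 1 / 18 := by
    have h := P.p_a1
    linarith
  have he2a : P.e2a = Real.exp (2 * P.a) := by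
    rw [P.e_e2a, P.e_ea, ← Real.exp_add]; congr 1; ring
  have hea1 : 1 ≤ P.ea := by rw [P.e_ea]; exact Real.one_le_exp ha0
  have he1 : 1 ≤ P.e2a := by rw [he2a]; exact Real.one_le_exp (by linarith)
  have he2 : P.e2a ≤ 9 / 8 := by
    have h1 := Real.exp_bound_div_one_sub_of_interval (x := 2 * P.a) (by linarith) (by linarith)
    rw [← he2a] at h1
    refine h1.trans ?_
    rw [div_le_div_iff₀ (by linarith) (by norm_num)]
    linarith
  -- er
  have her1 : (8 / 5 * P.V + 5 / 2 * v) * P.ie ≤ P.er := by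
    rw [P.e_er]
    exact mul_le_mul_of_nonneg_right (by linarith) hie0.le
  have her0 : 0 ≤ P.er := le_trans (by positivity) her1
  have her2 : P.er ≤ 1 / 50 := by
    rw [P.e_er]
    calc ((838861 / 524288) * P.V + (5 / 2) * v) * P.ie ≤ 10 * (1 / 500) :=
          mul_le_mul (by linarith) hie5 hie0.le (by norm_num)
      _ = 1 / 50 := by norm_num
  have herr : P.V * (8 / 5 * P.V + 5 / 2 * v) / e ≤ P.V * P.er := by
    rw [hdiv, mul_assoc]
    exact mul_le_mul_of_nonneg_left her1 hVp.le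
  -- displacement
  have hdzR : P.dz = P.dzR * R := by rw [P.e_dz, P.e_dzR, P.e_w]; ring
  have hvsw : vs * P.w = v * sg := by rw [P.e_w, ← hvR]; ring
  have hdzS0 : 0 ≤ P.dzS := by
    rw [P.e_dzS, hK2se, hK2]
    have h1 : 0 ≤ (3 / 2) * P.e2a - (3 / 2) := by linarith
    positivity
  have hdzR0 : 0 ≤ P.dzR := by rw [P.e_dzR]; positivity
  have hdz0 : 0 ≤ P.dz := by rw [hdzR]; positivity
  have hdzE : P.dz = v * sg * G2S + v * P.ea * (1 / 2 * (GtS ^ 2 * P.ie)) +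
      (149797 / 1048576) * (v * P.ea * K ^ 2) +
      P.V * ((3 / 2) * P.e2a - (3 / 2) + (3 / 4) * K ^ 2 + v * P.ie + P.er) +
      K ^ 2 * v ^ 2 * P.ie / 8 := by
    rw [P.e_dz, P.e_dzS, hK2se, hK2]
    linear_combination (G2S + P.ea * ((1 / 2) * (sg * GtS * GtS) +
      (149797 / 1048576) * (K * be * sg)) + K * be * sg * ((1 / 8) * (v * P.ie))) * hvsw -
      ((3 / 2) * P.e2a - (3 / 2) + (3 / 4) * K ^ 2 + v * P.ie + P.er) * P.e_V -
      (v * P.ea * (1 / 2) * GtS ^ 2 + (149797 / 1048576) * (v * P.ea * K * be) +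
        K * be * v ^ 2 * P.ie / 8) * P.e_ie +
      ((149797 / 1048576) * (v * P.ea * K) + K * v ^ 2 * P.ie / 8) * hKie
  exact ⟨he, hs0, hss, hsg, hK0, hbe, hb, hv0, hv1, hR, hR2, he0, hbe0, hsg0, hieE, hie0, hdiv, hsie, hKie, hPK, hK2, hK2se, hV1, hVe, hw0, hVp, hwse1, hwse0, hRwse, hkR, hvR, hkv1, hkc0, hvs0, hVk, hVv, hv3, hR35, hie5, hV7, hK1, hVie0, ha0, ha1, he2a, hea1, he1, he2, her1, her0, her2, herr, hdzR, hdzR0, hdz0, hdzE⟩

end Pool.Agent.helper31.EQB
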