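import Pool.Agent.helper31.EQB.Cst
import Pool.Agent.helper31.EQB.MCN
import Pool.Agent.helper31.EQB.LamN

/-!
# EQB-25: link of chart A: program ⇒ `LN`, `LN2`

`Mo`, `M1` are arbitrary numbers with `wMo = w Mo`, `EM = E (1 + M1)`, `EMs = Qw (1 + M1)`.  See the header of Prog for the
scaling.  `u = P.u` is used both for `|qq s| ≤ u` and in `Mo`; `rl = L1 W` (`L1 ≤ lam K (x+1) (1 - 500/e²)`), `rh = RW W`
(`RW ≥ (Λ+1)(1+560/500²)`), `Dm2 = S D2` (`hDl`, `hDh` both follow from `S + rh² - 2β rl`), `DP = s P.DP`, `Vs = W V1`,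
`ls`, `X`, `lsp`, `lfp = e ielfp`, `lf = e ielf`, `zb = P.zb` (`S - β² + rh² ≤ S (R2 - k2 + 129/128)`), `E = P.E`,
`η = P.eta` (`exp t ≤ (1 + t/2)/(1 - t/2)` for `0 ≤ t < 2`), `W2 = W c2`, `d = c.d`, `a1 = c.a1`.
-/

namespace Pool.Agent.helper31.EQB

open Complex ComplexConjugate Set Filter Topology
open Pool.Agent.helper31.EQ.Y Pool.Agent.helper31.EQ.R
open Pool.Agent.helper12.EQL Pool.Agent.helper12.RP Pool.Agent.helper12.FF Pool.Agent.helper12.RS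
open Pool.Agent.helper63.FF

variable {e κ : ℝ}

/-- `exp t ≤ (1 + t/2)/(1 - t/2)` -/
theorem nla_exp_pade {t : ℝ} (h0 : 0 ≤ t) (h1 : 0 < 1 - 1 / 2 * t) :
    Real.exp t ≤ (1 / 2 * t + 1) * (1 - 1 / 2 * t)⁻¹ := by
  have h2 : |1 / 2 * t| < 1 := by
    rw [abs_of_nonneg (by positivity)]
    linarith
  have h3 := Real.hasSum_log_sub_log_of_abs_lt_one h2
  have h4 : 2 * (1 / 2 * t) ≤ Real.log (1 + 1 / 2 * t) - Real.log (1 - 1 / 2 * t) := by
    have h5 := h3.summable.sum_le_tsum {0} (fun k _ => by positivity)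
    rw [h3.tsum_eq] at h5
    simpa using h5
  have h6 : (0:ℝ) < 1 + 1 / 2 * t := by positivity
  rw [← Real.log_div h6.ne' h1.ne'] at h4
  have h7 : t ≤ Real.log ((1 + 1 / 2 * t) / (1 - 1 / 2 * t)) := by linarith
  have h8 := Real.exp_le_exp.2 h7
  rw [Real.exp_log (div_pos h6 h1)] at h8
  rw [← div_eq_mul_inv, add_comm (1 / 2 * t) 1]
  exact h8

/-- chart A: sharper lower bound of `lam` -/
theorem nla_lam_ge {K x : ℝ} (hK0 : 0 ≤ K) (hK : K ≤ 1 / 100) (hx : 0 ≤ x) (hx6 : x ≤ 6) :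
    (1 - (1 / 100) ^ 2 / 6) * x * (1 - 9 / 100 * (2 * (1 / 100) * x) ^ 2) ≤ lam K x := by
  have hK2 : K ^ 2 ≤ (1 / 100) ^ 2 := pow_le_pow_left₀ hK0 hK 2
  have h0 : 0 ≤ 1 - K ^ 2 / 6 := by linarith
  have h1 : 1 - K ^ 2 / 6 ≤ 1 := by nlinarith [sq_nonneg K]
  have h2 : K * (1 - K ^ 2 / 6) ≤ 1 / 100 := by
    calc K * (1 - K ^ 2 / 6) ≤ K * 1 := mul_le_mul_of_nonneg_left h1 hK0
      _ ≤ 1 / 100 := by linarith
  obtain ⟨z, hz⟩ : ∃ z, z = 2 * (K * (1 - K ^ 2 / 6)) * x := ⟨_, rfl⟩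
  have h3 : z ≤ 2 * (1 / 100) * x := by
    rw [hz]; exact mul_le_mul_of_nonneg_right (by linarith) hx
  have h4 : 0 ≤ z := by rw [hz]; positivity
  have h5 : z ^ 2 ≤ (2 * (1 / 100) * x) ^ 2 := pow_le_pow_left₀ h4 h3 2
  have h6 : (2 * (1 / 100) * x) ^ 2 ≤ (2 * (1 / 100) * 6) ^ 2 :=
    pow_le_pow_left₀ (by positivity) (by linarith) 2
  obtain ⟨u, hu⟩ : ∃ u, u = z ^ 2 := ⟨_, rfl⟩
  rw [← hu] at h5
  have hu0 : 0 ≤ u := by rw [hu]; positivity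
  have hu1 : u ≤ 144 / 10000 := by linarith
  have hth : thf K x = z / (1 + z ^ 2 / 3) := by
    unfold thf
    rw [hz]
  unfold lam
  rw [hth, ← hz, div_pow z, ← hu]
  have hD : 0 < 1 + u / 3 := by positivity
  have key : (1 - 9 / 100 * u) * (1 + u / 3) ≤ 1 + u / (1 + u / 3) ^ 2 / 4 := by
    rw [← sub_nonneg]
    have e1 : 1 + u / (1 + u / 3) ^ 2 / 4 - (1 - 9 / 100 * u) * (1 + u / 3) =
        u / (4 * (1 + u / 3) ^ 2) * (1 - 4 * (1 + u / 3) ^ 2 * (73 / 300 - 3 / 100 * u)) := by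
      field_simp
      ring
    rw [e1]
    apply mul_nonneg (by positivity)
    nlinarith
  have h7 : (1 - (1 / 100) ^ 2 / 6) * x ≤ (1 - K ^ 2 / 6) * x :=
    mul_le_mul_of_nonneg_right (by linarith) hx
  have h8 : 1 - 9 / 100 * (2 * (1 / 100) * x) ^ 2 ≤ 1 - 9 / 100 * u := by linarith
  have h9 : 0 ≤ 1 - 9 / 100 * (2 * (1 / 100) * x) ^ 2 := by linarith
  calc (1 - (1 / 100) ^ 2 / 6) * x * (1 - 9 / 100 * (2 * (1 / 100) * x) ^ 2)
      ≤ (1 - K ^ 2 / 6) * x * (1 - 9 / 100 * u) := mul_le_mul h7 h8 h9 (by positivity)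
    _ = (1 - K ^ 2 / 6) * x / (1 + u / 3) * ((1 - 9 / 100 * u) * (1 + u / 3)) := by
        field_simp
    _ ≤ _ := mul_le_mul_of_nonneg_left key (by positivity)

/-- numeral conditions on the constants of a link of chart A -/
structure CondA (c : CLA) (x Λ yn a Λ1 yn1 a1 : ℝ) : Prop where
  x0 : 0 ≤ x
  a0 : 0 < a
  Λ0 : 0 ≤ Λ
  Λ8 : Λ ≤ 8
  yn7 : yn ≤ 7 / 2
  ea : c.a = a
  ea1 : c.a1 = a1
  eLa1 : c.La1 = Λ1
  L10 : 0 < c.L1
  LR : c.L1 ≤ c.RW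
  RW8 : c.RW ≤ 8
  x4 : x ≤ 4
  hL1 : c.L1 ≤ (1 - (1 / 100) ^ 2 / 6) * (x + 1) * (1 - 9 / 100 * (2 * (1 / 100) * (x + 1)) ^ 2)
  hRW : (Λ + 1) * (1 + 560 / 500 ^ 2) ≤ c.RW
  RH0 : 0 ≤ c.RH
  hRHq : c.RH ^ 2 ≤ c.RHq
  hrho : 5 / 2 * c.RH ≤ c.rho
  d0 : 0 ≤ c.d
  d1 : c.d ≤ 1
  dq0 : 0 ≤ c.dq
  hdq : c.dq ≤ (1 - (1 / 100) ^ 2 / 6) * c.d
  hex0 : Real.exp (2 * (1 / 100) * (x + 1)) ≤ c.ex0
  a10 : 0 ≤ a1
  hLd : c.Ld ≤ (1 - (1 / 100) ^ 2 / 6) * (x + 2 - c.d) *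
    (1 - 9 / 100 * (2 * (1 / 100) * (x + 2 - c.d)) ^ 2)
  htha : c.tha ≤ (1 - 1 / 100 / 1024) * a
  hYd : yn + c.Yd ≤ yn1

private theorem exp_num {x y : ℝ} (h0 : 0 ≤ x) (h1 : x ≤ 1)
    (h : 1 + x + x ^ 2 / 2 + x ^ 3 / 6 + x ^ 4 * 5 / 96 ≤ y) : Real.exp x ≤ y := by
  have h2 := Real.exp_bound' h0 h1 (n := 4) (by norm_num)
  refine (h2.trans (le_of_eq ?_)).trans h
  simp [Finset.sum_range_succ, Nat.factorial]
  ring

theorem condA {n : ℕ} (hn : n < 5) :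
    CondA (cA n) (xA n) (LamA n) (ynA n) (aA n) (LamA (n + 1)) (ynA (n + 1)) (aA (n + 1)) := by
  interval_cases n
  all_goals
    constructor
    all_goals first
      | (norm_num [cA, xA, LamA, ynA, aA]; done)
      | (apply exp_num <;> norm_num [cA, xA, LamA, ynA, aA])

section

variable {c : CLA} {x Λ yn a Λ1 yn1 a1 : ℝ} {S wMo EM EMs : ℝ}

/-- the scaled values -/
structure BasA (e κ S : ℝ) (c : CLA) (P : PLA c (√e)⁻¹ √S (bet e κ / √S) wMo EM EMs) : Prop where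
  e0 : 0 < e
  K0 : 0 < Real.sinh κ
  K1 : Real.sinh κ ≤ 1 / 100
  b0 : 0 < bet e κ
  b5 : bet e κ ≤ 5
  S0 : 0 < S
  s0 : 0 < √S
  ss : √S * √S = S
  r0 : 0 < √e
  rr : √e * √e = e
  hbS : bet e κ ^ 2 ≤ S
  ie : P.ie = 1 / e
  be : P.be = bet e κ
  k2 : P.k2 * S = bet e κ ^ 2
  k21 : P.k2 ≤ 1
  W : P.W = S / e
  W0 : 0 < P.W
  w0 : 0 < P.w
  wse : P.wse = √S / e
  wse0 : 0 < P.wse
  wseS : P.wse * √S = P.W
  y2 : P.y2 = S - bet e κ ^ 2
  Wie : P.Wie = S / e ^ 2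
  WW : P.W ^ 2 = P.Wie * S

theorem basA (he : 500 ≤ e) (hκ : 0 < κ) (hb : bet e κ ≤ 5) (hbS : bet e κ ^ 2 ≤ S)
    (P : PLA c (√e)⁻¹ √S (bet e κ / √S) wMo EM EMs) : BasA e κ S c P := by
  have he0 : 0 < e := by linarith
  have hK0 : 0 < Real.sinh κ := Real.sinh_pos_iff.2 hκ
  have hK : Real.sinh κ ≤ 1 / 100 := by
    have h1 : e * Real.sinh κ ≤ 5 := hb
    have h2 : 500 * Real.sinh κ ≤ e * Real.sinh κ := mul_le_mul_of_nonneg_right he hK0.le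
    linarith
  have hb0 : 0 < bet e κ := mul_pos he0 hK0
  have hS0 : 0 < S := lt_of_lt_of_le (by positivity) hbS
  have hs0 : 0 < √S := Real.sqrt_pos.2 hS0
  have hss : √S * √S = S := Real.mul_self_sqrt hS0.le
  have hr0 : 0 < √e := Real.sqrt_pos.2 he0
  have hrr : √e * √e = e := Real.mul_self_sqrt he0.le
  have hie : P.ie = 1 / e := by rw [P.e_ie, ← mul_inv, hrr, one_div]
  have hw : P.w = √S / √e := by rw [P.e_w]; field_simp
  have hW : P.W = S / e := by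
    rw [P.e_W, hw, div_mul_div_comm, hss, hrr]
  have hwse : P.wse = √S / e := by
    rw [P.e_wse, hw, ← div_eq_mul_inv, div_div, hrr]
  have hk2 : P.k2 * S = bet e κ ^ 2 := by
    rw [P.e_k2, div_mul_div_comm, hss]
    field_simp
  refine ⟨he0, hK0, hK, hb0, hb, hS0, hs0, hss, hr0, hrr, hbS, hie, ?_, hk2, ?_, hW, ?_, ?_, hwse,
    ?_, ?_, ?_, ?_, ?_⟩
  · rw [P.e_be]; field_simp
  · have : P.k2 = bet e κ ^ 2 / S := by rw [← hk2]; field_simp
    rw [this]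
    exact (div_le_one hS0).2 hbS
  · rw [hW]; positivity
  · rw [hw]; positivity
  · rw [hwse]; positivity
  · rw [hwse, hW, div_mul_eq_mul_div, hss]
  · rw [P.e_y2, hss]
    linear_combination -hk2
  · rw [P.e_Wie, hW, hie]; field_simp
  · rw [P.e_Wie, hW, hie]; field_simp

variable {P : PLA c (√e)⁻¹ √S (bet e κ / √S) wMo EM EMs}

/-- `V1 ≥ 1`, `D2 ≥ 0`, ... -/
structure BasA2 (e κ S : ℝ) (c : CLA) (P : PLA c (√e)⁻¹ √S (bet e κ / √S) wMo EM EMs) : Prop where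
  R2 : P.R2 * S = (c.RW * P.W) ^ 2
  R20 : 0 ≤ P.R2
  V1 : P.V1 * S = S + (c.RW * P.W) ^ 2
  V11 : 1 ≤ P.V1
  Vs : P.W * P.V1 = (S + (c.RW * P.W) ^ 2) / e
  D2 : P.D2 * S = S + (c.RW * P.W) ^ 2 - 2 * bet e κ * (c.L1 * P.W)
  zb2 : P.zbS ^ 2 = P.R2 - P.k2 + 129 / 128
  zbS0 : 0 < P.zbS
  zb0 : 0 < P.zb
  bk : bet e κ / √S * √S = bet e κ

theorem basA2 (B : BasA e κ S c P) : BasA2 e κ S c P := by
  have hR2 : P.R2 * S = (c.RW * P.W) ^ 2 := by
    rw [P.e_R2, mul_pow, B.WW]; ring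
  have hR20 : 0 ≤ P.R2 := by
    have h1 : 0 ≤ P.R2 * S := by rw [hR2]; positivity
    exact nonneg_of_mul_nonneg_left h1 B.S0
  have hV1 : P.V1 * S = S + (c.RW * P.W) ^ 2 := by
    rw [P.e_V1, add_mul, hR2]; ring
  have hpos : 0 < P.R2 - P.k2 + 129 / 128 := by linarith [B.k21]
  have hbk : bet e κ / √S * √S = bet e κ := div_mul_cancel₀ _ B.s0.ne'
  have hz : P.zbS ^ 2 = P.R2 - P.k2 + 129 / 128 := by
    rw [P.e_zbS, ← Real.exp_nat_mul]
    have : ((2 : ℕ) : ℝ) * (1 / 2 * Real.log (P.R2 - P.k2 + 129 / 128)) =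
      Real.log (P.R2 - P.k2 + 129 / 128) := by push_cast; ring
    rw [this, Real.exp_log hpos]
  have hz0 : 0 < P.zbS := by rw [P.e_zbS]; exact Real.exp_pos _
  refine ⟨hR2, hR20, hV1, by rw [P.e_V1]; linarith, ?_, ?_, hz, hz0, ?_, hbk⟩
  · have h2 : P.W * P.V1 = (P.V1 * S) / e := by rw [B.W]; ring
    rw [h2, hV1]
  · rw [P.e_D2]
    have h2 : bet e κ / √S * P.wse * S = bet e κ * P.W := by
      calc bet e κ / √S * P.wse * S = bet e κ / √S * P.wse * (√S * √S) := by rw [B.ss]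
        _ = (bet e κ / √S * √S) * (P.wse * √S) := by ring
        _ = _ := by rw [hbk, B.wseS]
    linear_combination hV1 - 2 * c.L1 * h2
  · rw [P.e_zb]
    exact mul_pos hz0 B.s0

theorem nla_G {G y2 y : ℝ} (hG : G = 2 - (1 / 4) * y2 + (2731 / 524288) * (y2 * y2) +
    (859 / 1048576) * ((1 / 4) * y2 * ((1 / 4) * y2) * ((1 / 4) * y2) *
      ((1 / 4) * y2 * ((1 / 4) * y2) * ((1 / 4) * y2)))) (hy : y ^ 2 = y2) (hy7 : |y| ≤ 7 / 2) :
    2 * |Real.cos (y / 2)| ≤ G := by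
  refine (cos_half_le hy7).trans ?_
  have h0 : 0 ≤ y2 := by rw [← hy]; positivity
  have h4 : y ^ 4 = y2 ^ 2 := by rw [← hy]; ring
  have h12 : y ^ 12 = y2 ^ 6 := by rw [← hy]; ring
  rw [hG, hy, h4, h12]
  have h6 : (1 / 4) * y2 * ((1 / 4) * y2) * ((1 / 4) * y2) *
      ((1 / 4) * y2 * ((1 / 4) * y2) * ((1 / 4) * y2)) = y2 ^ 6 / 4096 := by ring
  rw [h6]
  have h7 : 0 ≤ y2 ^ 6 := by positivity
  have h8 : 0 ≤ y2 ^ 2 := by positivity
  have h9 : y2 * y2 = y2 ^ 2 := by ring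
  rw [h9]
  linarith

theorem ln_gen (he : 500 ≤ e) (B : BasA e κ S c P) (C : CondA c x Λ yn a Λ1 yn1 a1) {Mo : ℝ}
    (hMo0 : 0 ≤ Mo) (hMo : wMo = P.w * Mo) (hyS : P.y2 ≤ (7 / 2) ^ 2) {pp q : ℝ} (hq : q = P.q) :
    LN e (Real.sinh κ) pp q P.q2 1 x Λ a (e * P.ielf) S (c.L1 * P.W) (c.RW * P.W) P.zb
      (S * P.D2) (√S * P.DP) (P.W * P.V1) Mo P.ls P.u P.n1 P.X P.lsp (e * P.ielfp) P.E
      (c.RH * P.W) := by
  have A := basA2 B
  have he0 := B.e0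
  have hW0 := B.W0
  have hS0 := B.S0
  have hs0 := B.s0
  have hb0 := B.b0
  have hw0 := B.w0
  have hwse0 := B.wse0
  have hV1 := A.V11
  have hbe : e * Real.sinh κ = bet e κ := rfl
  have hR0 : 0 < c.RW := lt_of_lt_of_le C.L10 C.LR
  have hL0 := C.L10
  have hx := C.x0
  have hwMo0 : 0 ≤ wMo := (mul_nonneg hw0.le hMo0).trans_eq hMo.symm
  have hls0 : 0 ≤ P.ls := by
    rw [P.e_ls]
    positivity
  have hy20 : 0 ≤ P.y2 := by rw [B.y2]; linarith [B.hbS]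
  have hG0 : 0 ≤ P.G := by
    have h1 : (√P.y2) ^ 2 = P.y2 := Real.sq_sqrt hy20
    have h2 : |√P.y2| ≤ 7 / 2 := by
      rw [abs_of_nonneg (Real.sqrt_nonneg _)]
      exact Real.sqrt_le_iff.2 ⟨by norm_num, hyS⟩
    refine le_trans ?_ (nla_G P.e_G h1 h2)
    positivity
  have hn10 : 0 ≤ P.n1 := by
    rw [P.e_n1]
    have h1 : 1 ≤ Real.exp (P.ls + (314573 / 524288) * (P.W * P.V1)) := by
      apply Real.one_le_exp
      positivity
    have h2 : 0 ≤ c.RW * P.W := by positivity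
    linarith
  have hEQ : P.E = P.Qw * √S := by rw [P.e_E, P.e_Qw, mul_assoc, B.wseS]
  have hEs : P.E < √S := by
    have h1 := P.p_Es
    rw [hEQ]
    have := mul_lt_mul_of_pos_right (by linarith : P.Qw < 1) hs0
    linarith
  have hX : P.X = P.XS * √S := P.e_X
  have hkw : 0 ≤ c.RW * (bet e κ / √S * P.wse) := by positivity
  have hxx : P.R2 + 2 * (c.RW * (bet e κ / √S * P.wse)) = ((c.RW * P.W) ^ 2 + 2 * bet e κ * (c.RW * P.W)) / S := by
    rw [eq_div_iff hS0.ne', add_mul, A.R2]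
    have : bet e κ / √S * P.wse * S = bet e κ * P.W := by
      calc bet e κ / √S * P.wse * S = bet e κ / √S * P.wse * (√S * √S) := by rw [B.ss]
        _ = (bet e κ / √S * √S) * (P.wse * √S) := by ring
        _ = _ := by rw [A.bk, B.wseS]
    linear_combination 2 * c.RW * this
  have hDP0 : 0 < P.DP := by
    rw [P.e_DP]
    have := A.R20
    positivity
  have hDP : S + (c.RW * P.W) ^ 2 + 2 * bet e κ * (c.RW * P.W) ≤ (√S * P.DP) ^ 2 := by
    have h1 : S + (c.RW * P.W) ^ 2 + 2 * bet e κ * (c.RW * P.W) =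
        S * (1 + (P.R2 + 2 * (c.RW * (bet e κ / √S * P.wse)))) := by
      rw [hxx]; field_simp; ring
    rw [h1, mul_pow, Real.sq_sqrt hS0.le, P.e_DP]
    apply mul_le_mul_of_nonneg_left _ hS0.le
    nlinarith [sq_nonneg (P.R2 + 2 * (c.RW * (bet e κ / √S * P.wse)))]
  have h500 : 500 / e ^ 2 ≤ 1 / 500 := by
    rw [div_le_div_iff₀ (by positivity) (by norm_num)]
    nlinarith
  have h560 : 560 / e ^ 2 ≤ 560 / 500 ^ 2 := by
    apply div_le_div_of_nonneg_left (by norm_num) (by norm_num)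
    exact pow_le_pow_left₀ (by norm_num) he 2
  have hEsq : P.E / √S = P.Qw := by rw [hEQ]; field_simp
  have hc2 : P.c2 ≤ 1 - 2 * P.E / √S - 500 / e ^ 2 := by
    have : 2 * P.E / √S = 2 * P.Qw := by rw [← hEsq]; ring
    rw [this, P.e_c2]
    linarith
  have hX1 := P.p_X1
  have hrlrh : c.L1 * P.W ≤ c.RW * P.W := mul_le_mul_of_nonneg_right C.LR hW0.le
  have hrl0 : 0 < c.L1 * P.W := by positivity
  have hSD : S * P.D2 = S + (c.RW * P.W) ^ 2 - 2 * bet e κ * (c.L1 * P.W) := by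
    rw [mul_comm]; exact A.D2
  have hSD0 : 0 ≤ S * P.D2 := by
    rw [hSD]
    have h1 := mul_le_mul_of_nonneg_left hrlrh hb0.le
    nlinarith [sq_nonneg (c.RW * P.W - bet e κ), B.hbS]
  have hu1 : P.u ≤ 1 := by
    rw [P.e_u]
    apply Real.exp_le_one_iff.2
    have := P.p_q20
    have : 0 ≤ P.q2 * (c.L1 * P.W) := by positivity
    linarith
  have hu0 : 0 ≤ P.u := by rw [P.e_u]; positivity
  have hXS0 : 0 ≤ P.XS := by
    rw [P.e_XS, B.be, C.ea]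
    have := C.a0
    positivity
  have hX0 : 0 ≤ P.X := by rw [hX]; positivity
  have hlsp : P.ls + P.n1 * (P.X / (1 - P.X)) ≤ P.lsp := by
    rw [P.e_lsp, P.e_lspS, P.e_iX, P.e_ls, div_eq_mul_inv P.X]
    apply le_of_eq
    linear_combination (P.V1 * wMo) * P.e_w + P.n1 * (1 - P.X)⁻¹ * P.e_X
  have hlsp0 : 0 ≤ P.lsp := by
    refine le_trans ?_ hlsp
    have : 0 ≤ P.n1 * (P.X / (1 - P.X)) := mul_nonneg hn10 (div_nonneg hX0 hX1.le)
    linarith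
  have huX1 : 0 < 1 - P.u * P.X := by
    have := mul_le_mul_of_nonneg_right hu1 hX0
    linarith
  have hlfp : e * P.ielf + P.u * P.X / (1 - P.u * P.X) ≤ e * P.ielfp := by
    rw [P.e_ielfp, P.e_uX, B.ie, div_eq_mul_inv (P.u * P.X), mul_add, ← mul_assoc e (1 / e),
      mul_one_div_cancel he0.ne', one_mul]
  have hielfp0 : 0 ≤ P.ielfp := by
    rw [P.e_ielfp, P.e_ielf, P.e_uX, B.ie]
    have : 0 ≤ P.u * P.X * (1 - P.u * P.X)⁻¹ :=
      mul_nonneg (mul_nonneg hu0 hX0) (inv_nonneg.2 huX1.le)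
    positivity
  have hie1 : ∀ t : ℝ, t = e * (P.ie * t) := fun t => by
    rw [B.ie, ← mul_assoc, mul_one_div_cancel he0.ne', one_mul]
  refine {
    K0 := B.K0
    x0 := C.x0
    a0 := C.a0
    S0 := hS0
    Λ0 := C.Λ0
    Λ8 := C.Λ8
    q20 := P.p_q20.le
    lf0 := ?_
    rl0 := hrl0
    hrl := ?_
    hrh := ?_
    zb0 := A.zb0.le
    hzb := ?_
    hDl := ?_
    hDh := ?_
    DP0 := by positivity
    hDP := ?_
    hVs := A.Vs.ge
    Mo0 := hMo0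
    hls := ?_
    hu := P.e_u.ge
    u1 := ?_
    hX := ?_
    X1 := by linarith
    n10 := hn10
    hlsp := ?_
    hlfp := ?_
    hE := ?_
    lsp1 := ?_
    lfp1 := ?_
    zb1 := ?_
    E1 := ?_
    Es := hEs
    hRH := ?_
    h9 := ?_
    h2 := ?_
    hρ := ?_ }
  · rw [P.e_ielf, B.ie]
    positivity
  · rw [B.W]
    apply mul_le_mul_of_nonneg_right _ (by positivity)
    refine C.hL1.trans ?_
    have := C.x4
    exact nla_lam_ge B.K0.le B.K1 (by linarith) (by linarith)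
  · rw [← B.W]
    apply mul_le_mul_of_nonneg_right _ hW0.le
    refine le_trans ?_ C.hRW
    apply mul_le_mul_of_nonneg_left _ (by linarith [C.Λ0])
    linarith
  · rw [hbe, P.e_zb, mul_pow P.zbS, A.zb2, Real.sq_sqrt hS0.le]
    have h1 := A.R2
    have h2 := B.k2
    nlinarith
  · rw [hbe, hSD]
    have : (c.L1 * P.W) ^ 2 ≤ (c.RW * P.W) ^ 2 := pow_le_pow_left₀ hrl0.le hrlrh 2
    linarith
  · rw [hbe, hSD]
    have := mul_le_mul_of_nonneg_left hrlrh hb0.le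
    linarith
  · rw [hbe]; exact hDP
  · rw [P.e_ls]
    have h1 : P.W * P.V1 * Mo = P.w * P.V1 * (P.w * Mo) := by rw [P.e_W]; ring
    rw [h1]
    exact mul_le_mul_of_nonneg_left hMo.ge (by positivity)
  · exact hu1
  · rw [hX, P.e_XS, B.be, hbe, C.ea]
    apply le_of_eq
    field_simp
    ring
  · exact hlsp
  · exact hlfp
  · -- hE
    have hfac : 1 + P.zb / (2 * e) + 3 / 200 ≤ P.fac := by
      rw [P.e_fac, B.ie]
      have : P.zb / (2 * e) = (1 / 2) * (P.zb * (1 / e)) := by field_simp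
      rw [this]
      linarith
    have hzbs : P.zbS * √S = P.zb := P.e_zb.symm
    have T1 : S * P.D2 * (P.zb + 41 / 20 * (e * Real.sinh κ)) / (2 * e ^ 2) ≤
        P.W * ((1 / 2) * P.wse * P.D2 * (P.zbS + (2149581 / 1048576) * (bet e κ / √S))) := by
      have h1 : P.W * ((1 / 2) * P.wse * P.D2 * (P.zbS + (2149581 / 1048576) * (bet e κ / √S))) =
          S * P.D2 * (P.zb + 2149581 / 1048576 * bet e κ) / (2 * e ^ 2) := by
        rw [B.W, B.wse, ← hzbs]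
        field_simp
      rw [h1, hbe]
      apply div_le_div_of_nonneg_right _ (by positivity)
      apply mul_le_mul_of_nonneg_left _ hSD0
      linarith
    have T2 : (P.zb + e * Real.sinh κ * Real.sinh κ / 2) * P.lsp / e ≤
        P.W * ((P.zbS + (5243 / 1048576) * (bet e κ / √S)) * P.lspS) := by
      have h1 : P.W * ((P.zbS + (5243 / 1048576) * (bet e κ / √S)) * P.lspS) =
          (P.zb + 5243 / 1048576 * bet e κ) * P.lsp / e := by
        have h2 : P.W = √S * √S / e := by rw [B.ss]; exact B.W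
        rw [h2, ← hzbs, P.e_lsp]
        field_simp
      rw [h1, hbe]
      apply div_le_div_of_nonneg_right _ he0.le
      apply mul_le_mul_of_nonneg_right _ hlsp0
      have := mul_le_mul_of_nonneg_left B.K1 hb0.le
      linarith
    have T3 : (e * Real.sinh κ) ^ 2 / e ^ 2 * (17 / 10 * P.lsp + 11 / 5 * (e * P.ielfp)) ≤
        P.W * (P.k2 * ((445645 / 262144) * (P.ie * P.lsp) + (576717 / 262144) * P.ielfp)) := by
      have h1 : P.W * (P.k2 * ((445645 / 262144) * (P.ie * P.lsp) + (576717 / 262144) * P.ielfp)) =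
          bet e κ ^ 2 / e ^ 2 * ((445645 / 262144) * P.lsp + (576717 / 262144) * (e * P.ielfp)) := by
        rw [B.W, B.ie, ← B.k2]
        field_simp
      rw [h1, hbe]
      apply mul_le_mul_of_nonneg_left _ (by positivity)
      have : 0 ≤ e * P.ielfp := by positivity
      linarith
    have hEe : P.E = P.fac * (P.W * ((1 / 2) * P.wse * P.D2 * (P.zbS + (2149581 / 1048576) * (bet e κ / √S))) +
        P.W * ((P.zbS + (5243 / 1048576) * (bet e κ / √S)) * P.lspS) +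
        P.W * (P.k2 * ((445645 / 262144) * (P.ie * P.lsp) + (576717 / 262144) * P.ielfp))) := by
      rw [P.e_E, P.e_Q]; ring
    rw [hEe]
    have hb1 : 0 ≤ S * P.D2 * (P.zb + 41 / 20 * (e * Real.sinh κ)) / (2 * e ^ 2) := by
      have := A.zb0
      rw [hbe]
      positivity
    have hb2 : 0 ≤ (P.zb + e * Real.sinh κ * Real.sinh κ / 2) * P.lsp / e := by
      have := A.zb0
      have := B.K0
      positivity
    have hb3 : 0 ≤ (e * Real.sinh κ) ^ 2 / e ^ 2 * (17 / 10 * P.lsp + 11 / 5 * (e * P.ielfp)) := by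
      positivity
    have hf0 : 0 ≤ P.fac := by
      have := A.zb0
      refine le_trans ?_ hfac
      positivity
    apply mul_le_mul hfac (by linarith) (by linarith) hf0
  · have h1 := P.p_l1
    have h2 := hie1 P.lsp
    nlinarith
  · have h1 := P.p_l2
    nlinarith
  · have h1 := P.p_z1
    have h2 := hie1 P.zb
    nlinarith
  · have h1 := P.p_E1
    have h2 := hie1 P.E
    nlinarith
  · have h1 := P.p_RH
    have h2 : (√S + P.E) ^ 2 / e = P.W * ((P.Qw + 1) * (P.Qw + 1)) := by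
      rw [hEQ, B.W]
      have : (√S + P.Qw * √S) ^ 2 = (√S * √S) * ((P.Qw + 1) * (P.Qw + 1)) := by ring
      rw [this, B.ss]
      ring
    rw [h2, P.e_E]
    have := mul_pos h1 hW0
    nlinarith
  · have h1 := P.p_h9
    have h2 : c.RH ≤ 46 / 5 * (1 - 2 * P.E / √S - 500 / e ^ 2) := by
      have := P.p_c20
      linarith
    rw [← B.W]
    have := mul_le_mul_of_nonneg_right h2 hW0.le
    linarith
  · have h1 := P.p_h2
    have h2 : c.RHq * P.Wie ≤ 9 / 10 * (1 - 2 * P.E / √S - 500 / e ^ 2) := by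
      have := P.p_c20
      linarith
    have hWie0 : 0 ≤ P.Wie := by rw [B.Wie]; positivity
    have h3 : c.RH ^ 2 * P.Wie ≤ c.RHq * P.Wie := mul_le_mul_of_nonneg_right C.hRHq hWie0
    rw [mul_pow, B.WW]
    have := mul_le_mul_of_nonneg_right (h3.trans h2) hS0.le
    linarith
  · rw [hq, P.e_q2]
    have h1 : 8 / e = 8 * P.ie := by rw [B.ie]; ring
    have h2 : c.RH * P.W * (1 / 2 + 2 * 1 ^ 2) / e = 5 / 2 * c.RH * P.Wie := by
      rw [P.e_Wie, B.ie]; ring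
    have hWie0 : 0 ≤ P.Wie := by rw [B.Wie]; positivity
    rw [h1, h2]
    have := mul_le_mul_of_nonneg_right C.hrho hWie0
    linarith

theorem ln2_gen (he : 500 ≤ e) (B : BasA e κ S c P) (C : CondA c x Λ yn a Λ1 yn1 a1) {M1 : ℝ}
    (hM10 : 0 ≤ M1) (hEM : EM = P.E * (1 + M1)) (hEMs : EMs = P.Qw * (1 + M1)) (hE0 : 0 ≤ P.E)
    {pp q : ℝ} :
    LN2 e (Real.sinh κ) pp q P.q2 x Λ a S (c.L1 * P.W)
      (c.RW * P.W) (P.W * P.V1) P.E c.d Λ1 a1 (P.W * P.c2) M1 P.u1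
      P.eta := by
  have A := basA2 B
  have he0 := B.e0
  have hW0 := B.W0
  have hS0 := B.S0
  have hs0 := B.s0
  have hb0 := B.b0
  have hw0 := B.w0
  have hwse0 := B.wse0
  have hV1 := A.V11
  have hbe : e * Real.sinh κ = bet e κ := rfl
  have hc20 := P.p_c20
  have h500 : 500 / e ^ 2 ≤ 1 / 500 := by
    rw [div_le_div_iff₀ (by positivity) (by norm_num)]
    nlinarith
  have hEQ : P.E = P.Qw * √S := by rw [P.e_E, P.e_Qw, mul_assoc, B.wseS]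
  have hEsq : P.E / √S = P.Qw := by rw [hEQ]; field_simp
  have h2E : 2 * P.E / √S = 2 * P.Qw := by rw [← hEsq]; ring
  have hc2 : P.c2 ≤ 1 - 2 * P.E / √S - 500 / e ^ 2 := by
    rw [h2E, P.e_c2]
    linarith
  have hQ0 : 0 ≤ P.Q := by
    have h1 : 0 ≤ P.Q * P.W := by rw [← P.e_E]; exact hE0
    exact nonneg_of_mul_nonneg_left h1 hW0
  have hQw0 : 0 ≤ P.Qw := by rw [P.e_Qw]; positivity
  have hEM0 : 0 ≤ EM := by
    refine le_of_le_of_eq ?_ hEM.symm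
    positivity
  have hi2 : 0 < 1 - 1 / 2 * EM := P.p_EM2
  have hK0 := B.K0
  have hK1 := B.K1
  have hx0 := C.x0
  have hx4 := C.x4
  have hd0 := C.d0
  have hd1 := C.d1
  refine {
    d0 := C.d0
    d1 := C.d1
    a10 := C.a10
    Er := ?_
    hd := ?_
    hΛ := ?_
    W20 := by positivity
    hW2 := ?_
    M10 := hM10
    hu1 := ?_
    hη := ?_
    hcl := ?_ }
  · rw [P.e_E]
    have := P.p_Er
    exact mul_lt_mul_of_pos_right (by linarith) hW0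
  · have h1 : e * P.E = P.Q * S := by rw [P.e_E, B.W]; field_simp
    have h2 : √S * (√S - P.E) = S * (1 - P.Qw) := by
      rw [hEQ]
      linear_combination (1 - P.Qw) * B.ss
    have h3 : Real.exp (2 * Real.sinh κ * (x + 1)) ≤ c.ex0 := by
      refine le_trans ?_ C.hex0
      apply Real.exp_le_exp.2
      apply mul_le_mul_of_nonneg_right _ (by linarith)
      linarith
    have h4 : P.Q * Real.exp (2 * Real.sinh κ * (x + 1)) ≤ c.dq * (1 - P.Qw) := by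
      have h5 := mul_le_mul_of_nonneg_left h3 hQ0
      have := P.p_dr
      linarith
    have h6 : c.dq ≤ (1 - Real.sinh κ ^ 2 / 6) * c.d := by
      refine C.hdq.trans ?_
      apply mul_le_mul_of_nonneg_right _ hd0
      have : Real.sinh κ ^ 2 ≤ (1 / 100) ^ 2 := pow_le_pow_left₀ hK0.le hK1 2
      linarith
    have hEs1 : 0 < 1 - P.Qw := P.p_Es
    have h7 := mul_le_mul_of_nonneg_right h6 hEs1.le
    have h8 := mul_le_mul_of_nonneg_right (h4.trans h7) hS0.le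
    rw [h1, h2]
    linarith
  · rw [h2E, ← B.W, ← C.eLa1]
    have := P.p_La
    have h1 : P.E = P.Q * P.W := P.e_E
    rw [h1]
    nlinarith
  · rw [← B.W]
    exact mul_le_mul_of_nonneg_left hc2 hW0.le
  · rw [P.e_u1]
    apply Real.exp_le_exp.2
    apply neg_le_neg
    apply mul_le_mul_of_nonneg_left _ P.p_q20.le
    apply mul_le_mul_of_nonneg_right _ (by positivity)
    refine C.hLd.trans ?_
    exact nla_lam_ge hK0.le hK1 (by linarith) (by linarith)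
  · have h1 : P.E * (1 + M1) = EM := hEM.symm
    rw [h1, P.e_eta, P.e_i2]
    exact nla_exp_pade hEM0 hi2
  · have h1 : P.eta - 1 = EM * P.i2 := by
      rw [P.e_eta, P.e_i2]
      have h2 : (1 - 1 / 2 * EM) * (1 - 1 / 2 * EM)⁻¹ = 1 := mul_inv_cancel₀ hi2.ne'
      linear_combination h2
    have h2 : (P.eta - 1) * (4 + e * Real.sinh κ) / (4 * √S) = P.t1 := by
      have h3 : EM = EMs * √S := by
        have h4 : EMs * √S = P.Qw * √S * (1 + M1) := by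
          linear_combination √S * hEMs
        rw [h4, ← hEQ]; exact hEM
      rw [h1, P.e_t1, B.be, hbe, div_eq_iff (by positivity)]
      linear_combination (P.i2 * (4 + bet e κ)) * h3
    have h3 : (P.W * P.V1 + P.E) / √S = P.wse * (P.V1 + P.Q) := by
      rw [div_eq_iff hs0.ne', P.e_E]
      linear_combination -(P.V1 + P.Q) * B.wseS
    rw [h2, h3]
    have h4 := P.p_cl
    rw [C.ea1] at h4
    have h5 := C.htha
    have h6 : (1 - 1 / 100 / 1024) * a ≤ (1 - Real.sinh κ / 1024) * a := by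
      apply mul_le_mul_of_nonneg_right _ C.a0.le
      linarith
    have h7 : P.eta * (P.u1 * a1) * (1 + P.wse * (P.V1 + P.Q)) =
      P.eta * (a1 * P.u1) * (P.wse * (P.V1 + P.Q) + 1) := by ring
    rw [h7]
    linarith

end

theorem nla_bas (he : 500 ≤ e) (hκ : 0 < κ) (hb : bet e κ ≤ 5) {c : CLA} {τ : ℂ} {wMo EM EMs : ℝ}
    (P : PLA c (√e)⁻¹ √(Sz e κ (shf κ τ)) (bet e κ / √(Sz e κ (shf κ τ))) wMo EM EMs) :
    BasA e κ (Sz e κ (shf κ τ)) c P := by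
  apply basA he hκ hb
  unfold Sz
  linarith [sq_nonneg (yz e κ (shf κ τ))]

theorem nla_y2 {c : CLA} {τ : ℂ} {wMo EM EMs : ℝ}
    {P : PLA c (√e)⁻¹ √(Sz e κ (shf κ τ)) (bet e κ / √(Sz e κ (shf κ τ))) wMo EM EMs}
    (B : BasA e κ (Sz e κ (shf κ τ)) c P) : P.y2 = yz e κ (shf κ τ) ^ 2 := by
  rw [B.y2]
  unfold Sz
  ring

theorem nla_yn {n : ℕ} (hn : n < 5) (he : 0 < e) (hκ : 0 < κ) {τ : ℂ}
    (T : St e κ (xA n) (LamA n) (ynA n) τ) : |yz e κ (shf κ τ)| ≤ 7 / 2 :=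
  ((yz_shf_le he hκ T.re).trans T.y).trans (condA hn).yn7

/-- `LN` without `M1` -/
theorem la_ln (he : 500 ≤ e) (hκ : 0 < κ) (hb : bet e κ ≤ 5) (M : PMA (√e)⁻¹)
    {n : ℕ} (hn : n < 5) {τ : ℂ} (T : St e κ (xA n) (LamA n) (ynA n) τ) {wMo EM EMs : ℝ}
    (P : PLA (cA n) (√e)⁻¹ √(Sz e κ (shf κ τ)) (bet e κ / √(Sz e κ (shf κ τ))) wMo EM EMs) {Mo : ℝ}
    (hMo0 : 0 ≤ Mo) (hMo : wMo = P.w * Mo) :
    LN e (Real.sinh κ) M.p M.q P.q2 1 (xA n) (LamA n) (aA n) (e * P.ielf) (Sz e κ (shf κ τ))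
      ((cA n).L1 * P.W) ((cA n).RW * P.W) P.zb (Sz e κ (shf κ τ) * P.D2)
      (√(Sz e κ (shf κ τ)) * P.DP) (P.W * P.V1) Mo P.ls P.u P.n1 P.X P.lsp (e * P.ielfp) P.E
      ((cA n).RH * P.W) := by
  have B := nla_bas he hκ hb P
  refine ln_gen he B (condA hn) hMo0 hMo ?_ ?_
  · rw [nla_y2 B, ← sq_abs]
    exact pow_le_pow_left₀ (abs_nonneg _) (nla_yn hn B.e0 hκ T) 2
  · rw [M.e_q, P.e_q, M.e_ie, P.e_ie]

theorem la_E0 (he : 500 ≤ e) (hκ : 0 < κ) (hb : bet e κ ≤ 5) (M : PMA (√e)⁻¹)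
    {n : ℕ} (hn : n < 5) {τ : ℂ} (T : St e κ (xA n) (LamA n) (ynA n) τ) {wMo EM EMs : ℝ}
    (P : PLA (cA n) (√e)⁻¹ √(Sz e κ (shf κ τ)) (bet e κ / √(Sz e κ (shf κ τ))) wMo EM EMs) {Mo : ℝ}
    (hMo0 : 0 ≤ Mo) (hMo : wMo = P.w * Mo) : 0 ≤ P.E :=
  link_E0 (mc_A he hκ hb M) le_rfl (condA hn).yn7 T rfl (la_ln he hκ hb M hn T P hMo0 hMo)

/-- `LN2` -/
theorem la_ln2 (he : 500 ≤ e) (hκ : 0 < κ) (hb : bet e κ ≤ 5) (M : PMA (√e)⁻¹)
    {n : ℕ} (hn : n < 5) {τ : ℂ} (T : St e κ (xA n) (LamA n) (ynA n) τ) {wMo EM EMs : ℝ}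
    (P : PLA (cA n) (√e)⁻¹ √(Sz e κ (shf κ τ)) (bet e κ / √(Sz e κ (shf κ τ))) wMo EM EMs)
    {Mo M1 : ℝ} (hMo0 : 0 ≤ Mo) (hM10 : 0 ≤ M1)
    (hMo : wMo = P.w * Mo) (hEM : EM = P.E * (1 + M1)) (hEMs : EMs = P.Qw * (1 + M1)) :
    LN2 e (Real.sinh κ) M.p M.q P.q2 (xA n) (LamA n) (aA n) (Sz e κ (shf κ τ)) ((cA n).L1 * P.W)
      ((cA n).RW * P.W) (P.W * P.V1) P.E (cA n).d (LamA (n + 1)) (aA (n + 1)) (P.W * P.c2) M1 P.u1
      P.eta :=
  ln2_gen he (nla_bas he hκ hb P) (condA hn) hM10 hEM hEMs (la_E0 he hκ hb M hn T P hMo0 hMo)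

theorem la_core (he : 500 ≤ e) (hκ : 0 < κ) (hb : bet e κ ≤ 5) (M : PMA (√e)⁻¹)
    {n : ℕ} (hn : n < 5) {τ : ℂ} (T : St e κ (xA n) (LamA n) (ynA n) τ) {wMo EM EMs : ℝ}
    (P : PLA (cA n) (√e)⁻¹ √(Sz e κ (shf κ τ)) (bet e κ / √(Sz e κ (shf κ τ))) wMo EM EMs) {Mo M1 : ℝ} (hMo0 : 0 ≤ Mo) (hM10 : 0 ≤ M1)
    (hMo : wMo = P.w * Mo) (hEM : EM = P.E * (1 + M1)) (hEMs : EMs = P.Qw * (1 + M1)) :
    LN e (Real.sinh κ) M.p M.q P.q2 1 (xA n) (LamA n) (aA n) (e * P.ielf) (Sz e κ (shf κ τ))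
      ((cA n).L1 * P.W) ((cA n).RW * P.W) P.zb (Sz e κ (shf κ τ) * P.D2)
      (√(Sz e κ (shf κ τ)) * P.DP) (P.W * P.V1) Mo P.ls P.u P.n1 P.X P.lsp (e * P.ielfp) P.E
      ((cA n).RH * P.W) ∧
    LN2 e (Real.sinh κ) M.p M.q P.q2 (xA n) (LamA n) (aA n) (Sz e κ (shf κ τ)) ((cA n).L1 * P.W)
      ((cA n).RW * P.W) (P.W * P.V1) P.E (cA n).d (LamA (n + 1)) (aA (n + 1)) (P.W * P.c2) M1 P.u1
      P.eta :=
  ⟨la_ln he hκ hb M hn T P hMo0 hMo, la_ln2 he hκ hb M hn T P hMo0 hM10 hMo hEM hEMs⟩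

/-- `lf`, `n1` (`lf_e`, `n1_le`, `cos_half_le`), the increase of `|y|`, `E ≤ Yd` -/
theorem la_facts (he : 500 ≤ e) (hκ : 0 < κ) (hb : bet e κ ≤ 5) (M : PMA (√e)⁻¹)
    {n : ℕ} (hn : n < 5) {τ : ℂ} (T : St e κ (xA n) (LamA n) (ynA n) τ) {wMo EM EMs : ℝ}
    (P : PLA (cA n) (√e)⁻¹ √(Sz e κ (shf κ τ)) (bet e κ / √(Sz e κ (shf κ τ))) wMo EM EMs) {Mo : ℝ} (hMo0 : 0 ≤ Mo) (hMo : wMo = P.w * Mo)
    (hls : ‖log (fT e κ (shf κ τ)) - log (fT e κ (shf κ (shf κ τ)))‖ ≤ P.ls) :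
    ‖log (fT e κ (shf κ τ)) - log (fT e κ 1)‖ ≤ e * P.ielf ∧
      ‖1 + qq e κ (shf κ τ)‖ ≤ P.n1 ∧ ynA n + P.E ≤ ynA (n + 1) := by
  have B := nla_bas he hκ hb P
  have A := basA2 B
  have C := condA hn
  have N := la_ln he hκ hb M hn T P hMo0 hMo
  obtain ⟨hs, hom, hrl, hrh, hy, h3, hS0⟩ := link_base (mc_A he hκ hb M) le_rfl C.yn7 T rfl N
  have he0 := B.e0
  have hW0 := B.W0
  have hK10 : Real.sinh κ ≤ 1 / 10 := by linarith [B.K1]
  have hr0 : 0 ≤ rz e κ (shf κ τ) := N.rl0.le.trans hrl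
  have hy7 : |yz e κ (shf κ τ)| ≤ 7 / 2 := hy.trans C.yn7
  refine ⟨?_, ?_, ?_⟩
  · refine (lf_e (by linarith) hκ hK10 hs).trans ?_
    rw [P.e_ielf, B.ie]
    have h1 : e * ((9 / 2) * (1 / e) + (43691 / 524288) * (√e)⁻¹) =
        9 / 2 + 43691 / 524288 * √e := by
      have h2 : e * (√e)⁻¹ = √e := by
        rw [← div_eq_mul_inv, div_eq_iff B.r0.ne', B.rr]
      have h4 : e * (1 / e) = 1 := mul_one_div_cancel he0.ne'
      linear_combination (9 / 2) * h4 + 43691 / 524288 * h2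
    rw [h1]
    have := B.r0
    linarith
  · have hrh0 : 0 ≤ (cA n).RW * P.W := hr0.trans hrh
    have hz : rz e κ (shf κ τ) ^ 2 + yz e κ (shf κ τ) ^ 2 ≤
        ((cA n).RW * P.W) ^ 2 + yz e κ (shf κ τ) ^ 2 := by
      have := pow_le_pow_left₀ hr0 hrh 2
      linarith
    have hy2 : yz e κ (shf κ τ) ^ 2 ≤ (7 / 2) ^ 2 := by
      rw [← sq_abs]
      exact pow_le_pow_left₀ (abs_nonneg _) hy7 2
    have hb2 : bet e κ ^ 2 ≤ 5 ^ 2 := pow_le_pow_left₀ B.b0.le hb 2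
    have hWle : P.W ≤ 1 / 10 := by
      rw [B.W, div_le_iff₀ he0]
      unfold Sz
      linarith
    have hrh1 : (cA n).RW * P.W ≤ 8 * (1 / 10) :=
      mul_le_mul C.RW8 hWle hW0.le (by norm_num)
    have hz2 : ((cA n).RW * P.W) ^ 2 + yz e κ (shf κ τ) ^ 2 ≤ (e / 20) ^ 2 := by
      have h4 := pow_le_pow_left₀ hrh0 hrh1 2
      have h5 : (500 / 20 : ℝ) ^ 2 ≤ (e / 20) ^ 2 := pow_le_pow_left₀ (by norm_num) (by linarith) 2
      linarith
    refine (n1_le (by linarith) hκ hK10 hs hls hz hz2).trans ?_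
    rw [P.e_n1]
    have h6 := nla_G P.e_G (nla_y2 B).symm hy7
    have h7 : 3 / 5 * (bet e κ ^ 2 + (((cA n).RW * P.W) ^ 2 + yz e κ (shf κ τ) ^ 2)) / e ≤
        (314573 / 524288) * (P.W * P.V1) := by
      have h8 : 3 / 5 * (bet e κ ^ 2 + (((cA n).RW * P.W) ^ 2 + yz e κ (shf κ τ) ^ 2)) / e =
          3 / 5 * (P.W * P.V1) := by
        rw [A.Vs]
        unfold Sz
        ring
      rw [h8]
      have h9 : 0 ≤ P.W * P.V1 := by
        have := A.V11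
        positivity
      linarith
    have h8 : Real.exp (P.ls + 3 / 5 * (bet e κ ^ 2 + (((cA n).RW * P.W) ^ 2 +
        yz e κ (shf κ τ) ^ 2)) / e) ≤ Real.exp (P.ls + (314573 / 524288) * (P.W * P.V1)) := by
      apply Real.exp_le_exp.2
      linarith
    linarith
  · have h1 := P.p_y
    have h2 := C.hYd
    linarith

end Pool.Agent.helper31.EQB
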