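import Pool.Agent.helper31.EQB.Lam

/-!
# EQB-5: the argument of `f` in the first sheet

`t_k = shf^k t`, `φ_k = e arg Q(t_k)`, `α_k = arg f(t_k)`.

`φ` decreases along the orbit: `Q(shf t) = 2c - 1/Q`, `c = cosh κ ≥ 1`, `|Q| ≥ 1`.  Also `0 ≤ Im t ⟹ 0 ≤ Im (shf t)`,
`0 ≤ φ`.

STEP: for every small `η > 0`: `α_(k+1) ∈ [-η, φ_(k+1) + η] ⟹ α_k ∈ [-η, φ_k + η]`:
`|f| sin α = |1 - f| sin χ`, `χ = φ - α⁺ ∈ [-η, φ + η]`, `|1 - f| < |f|`.

BASE: `t_N → 1`, `f(1) > 0` real, `f` continuous at `1`, so `|α_N| ≤ η` for `N` large.  Then `η → 0`.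
-/

namespace Pool.Agent.helper31.EQB

open Complex ComplexConjugate Set Filter Topology
open Pool.Agent.helper31.EQ.Y Pool.Agent.helper31.EQ.R
open Pool.Agent.helper12.EQL Pool.Agent.helper12.RP Pool.Agent.helper12.FF
open Pool.Agent.helper63.FF

variable {e κ : ℝ}

theorem Qk_parts (κ : ℝ) (t : ℂ) : (Qk κ t).re = Real.cosh κ + Real.sinh κ * t.re ∧
    (Qk κ t).im = Real.sinh κ * t.im := by
  unfold Qk
  rw [add_re, add_im, re_ofReal_mul, im_ofReal_mul, ofReal_re, ofReal_im, zero_add]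
  exact ⟨rfl, rfl⟩

theorem arg_bounds {z : ℂ} (h : 0 < z.re) (hi : 0 ≤ z.im) : 0 ≤ arg z ∧ arg z < Real.pi / 2 :=
  ⟨arg_nonneg_iff.2 hi, (Complex.arg_lt_pi_div_two_iff).2 (Or.inl h)⟩

theorem arg_le_of_tan {z w : ℂ} (hz : 0 < z.re) (hw : 0 < w.re) (h : z.im / z.re ≤ w.im / w.re) :
    arg z ≤ arg w := by
  have h1 := abs_lt.1 (abs_arg_lt_pi_div_two_iff.2 (Or.inl hz))
  have h2 := abs_lt.1 (abs_arg_lt_pi_div_two_iff.2 (Or.inl hw))
  by_contra hc
  push Not at hc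
  have := Real.tan_lt_tan_of_lt_of_lt_pi_div_two h2.1 h1.2 hc
  rw [Complex.tan_arg, Complex.tan_arg] at this
  linarith

/-- `e arg Q` decreases along `shf` -/
theorem arg_Qk_shf (hκ : 0 < κ) {t : ℂ} (ht : 0 < t.re) (hi : 0 ≤ t.im) :
    0 ≤ arg (Qk κ (shf κ t)) ∧ arg (Qk κ (shf κ t)) ≤ arg (Qk κ t) := by
  have hs := shf_re hκ ht.le
  have hK : 0 < Real.sinh κ := Real.sinh_pos_iff.2 hκ
  have hC := Real.one_le_cosh κ
  have hQ := Qk_parts κ t
  have h0 := Qk_shf hκ ht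
  obtain ⟨a, ha⟩ : ∃ a : ℝ, a = (Qk κ t).re := ⟨_, rfl⟩
  obtain ⟨b, hb⟩ : ∃ b : ℝ, b = (Qk κ t).im := ⟨_, rfl⟩
  have ha1 : Real.cosh κ ≤ a := by
    rw [ha, hQ.1]
    have := mul_pos hK ht
    linarith
  have hb0 : 0 ≤ b := by rw [hb, hQ.2]; exact mul_nonneg hK.le hi
  obtain ⟨n, hn⟩ : ∃ n : ℝ, n = a * a + b * b := ⟨_, rfl⟩
  have hns : normSq (Qk κ t) = n := by rw [normSq_apply, ← ha, ← hb, hn]
  have ha0 : 1 ≤ a := hC.trans ha1
  have hn1 : a ≤ n := by rw [hn]; nlinarith [mul_self_nonneg b]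
  have hn0 : 0 < n := by linarith
  have e1 : (Qk κ (shf κ t)).re = 2 * Real.cosh κ - a / n := by
    rw [h0, sub_re, inv_re, hns, ← ha, show (2 * (Real.cosh κ : ℂ)) = ((2 * Real.cosh κ : ℝ) : ℂ) by
      push_cast; rfl, ofReal_re]
  have e2 : (Qk κ (shf κ t)).im = b / n := by
    rw [h0, sub_im, inv_im, hns, ← hb, show (2 * (Real.cosh κ : ℂ)) = ((2 * Real.cosh κ : ℝ) : ℂ) by
      push_cast; rfl, ofReal_im]
    ring
  have hr : 0 < 2 * Real.cosh κ - a / n := by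
    have : a / n ≤ 1 := (div_le_one hn0).2 hn1
    linarith
  constructor
  · rw [arg_nonneg_iff, e2]; positivity
  · apply arg_le_of_tan (by rw [e1]; exact hr) (by rw [← ha]; linarith)
    rw [e1, e2, ← ha, ← hb]
    have e3 : b / n / (2 * Real.cosh κ - a / n) = b / (2 * Real.cosh κ * n - a) := by
      have h5 : 2 * Real.cosh κ * n - a = n * (2 * Real.cosh κ - a / n) := by
        field_simp
      rw [h5, div_div]
    rw [e3]
    apply div_le_div_of_nonneg_left hb0 (by linarith)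
    have : 1 * n ≤ Real.cosh κ * n := mul_le_mul_of_nonneg_right hC hn0.le
    linarith

/-- the imaginary part of `shf` -/
theorem shf_im (hκ : 0 < κ) {t : ℂ} (ht : 0 < t.re) (hi : 0 ≤ t.im) : 0 ≤ (shf κ t).im := by
  have h1 := (arg_Qk_shf hκ ht hi).1
  rw [arg_nonneg_iff, (Qk_parts κ _).2] at h1
  have hK : 0 < Real.sinh κ := Real.sinh_pos_iff.2 hκ
  exact nonneg_of_mul_nonneg_right h1 hK

/-- **The step.** -/
theorem arg_step (he : 0 < e) (hκ : 0 < κ) {t : ℂ} (ht : 0 < t.re) (hi : 0 ≤ t.im) {η : ℝ}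
    (hη : 0 < η) (hη1 : η < Real.pi / 2) (hp : e * arg (Qk κ t) ≤ Real.pi)
    (h1 : -η ≤ arg (fT e κ (shf κ t)))
    (h2 : arg (fT e κ (shf κ t)) ≤ e * arg (Qk κ (shf κ t)) + η) :
    -η ≤ arg (fT e κ t) ∧ arg (fT e κ t) ≤ e * arg (Qk κ t) + η := by
  have hs := shf_re hκ ht.le
  have hf := fT_norm_pos he hκ ht
  have hfs := fT_norm_pos he hκ hs
  obtain ⟨α, hα⟩ : ∃ α : ℝ, α = arg (fT e κ t) := ⟨_, rfl⟩
  obtain ⟨β, hβ⟩ : ∃ β : ℝ, β = arg (fT e κ (shf κ t)) := ⟨_, rfl⟩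
  obtain ⟨φ, hφ⟩ : ∃ φ : ℝ, φ = e * arg (Qk κ t) := ⟨_, rfl⟩
  have hQ := arg_Qk_shf hκ ht hi
  have hφ' : e * arg (Qk κ (shf κ t)) ≤ φ := by
    rw [hφ]; exact mul_le_mul_of_nonneg_left hQ.2 he.le
  have hφ0 : 0 ≤ φ := by
    rw [hφ]; exact mul_nonneg he.le (hQ.1.trans hQ.2)
  have ha : |α| < Real.pi / 2 := by
    rw [hα, abs_arg_lt_pi_div_two_iff]
    left
    have := half_lt_re_fT he hκ ht
    linarith
  have ha1 := abs_lt.1 ha
  rw [← hβ] at h1 h2
  rw [← hφ] at hp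
  rw [← hα, ← hφ]
  -- the norm of 1 - f
  have hv : ‖1 - fT e κ t‖ < ‖fT e κ t‖ := by
    have := qq_lt_one he hκ ht
    unfold qq at this
    rwa [norm_div, div_lt_one hf] at this
  -- the polar form
  have e1 : 1 - fT e κ t = (‖1 - fT e κ t‖ : ℂ) * exp ((β - φ : ℝ) * I) := by
    have e2 : 1 - fT e κ t = exp (-((e : ℂ) * log (Qk κ t)) + log (fT e κ (shf κ t))) := by
      rw [exp_add, exp_log (fT_ne he hκ hs), one_sub_fT he hκ ht,
        cpow_def_of_ne_zero (Qk_ne hκ ht)]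
      congr 2
      ring
    obtain ⟨w, hw⟩ : ∃ w : ℂ, w = -((e : ℂ) * log (Qk κ t)) + log (fT e κ (shf κ t)) := ⟨_, rfl⟩
    have e3 : w.im = β - φ := by
      rw [hw, add_im, neg_im, im_ofReal_mul, log_im, log_im, hβ, hφ]
      ring
    rw [← hw] at e2
    rw [e2, norm_exp, ← e3, ofReal_exp, ← exp_add, re_add_im]
  have e2 : ‖fT e κ t‖ * Real.sin α = ‖1 - fT e κ t‖ * Real.sin (φ - β) := by
    have e3 : (fT e κ t).im = ‖fT e κ t‖ * Real.sin α := by
      rw [hα, Complex.norm_mul_sin_arg]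
    have e4 := congrArg Complex.im e1
    rw [im_ofReal_mul, exp_ofReal_mul_I_im, sub_im, one_im] at e4
    rw [← e3]
    have e5 : Real.sin (φ - β) = -Real.sin (β - φ) := by
      rw [← Real.sin_neg]; congr 1; ring
    rw [e5]
    linarith
  obtain ⟨v, hvv⟩ : ∃ v : ℝ, v = ‖1 - fT e κ t‖ := ⟨_, rfl⟩
  obtain ⟨F, hFF⟩ : ∃ F : ℝ, F = ‖fT e κ t‖ := ⟨_, rfl⟩
  have hv0 : 0 ≤ v := by rw [hvv]; exact norm_nonneg _
  rw [← hvv, ← hFF] at hv e2
  rw [← hFF] at hf
  have hsη : 0 < Real.sin η := Real.sin_pos_of_pos_of_lt_pi hη (by linarith [Real.pi_pos])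
  constructor
  · by_contra hc
    push Not at hc
    have a1 : Real.sin α < Real.sin (-η) :=
      Real.sin_lt_sin_of_lt_of_le_pi_div_two ha1.1.le (by linarith) hc
    have a2 : Real.sin (-η) ≤ Real.sin (φ - β) := by
      rcases le_total (φ - β) (Real.pi / 2) with h | h
      · exact Real.sin_le_sin_of_le_of_le_pi_div_two (by linarith) h (by linarith)
      · rw [← Real.sin_pi_sub (φ - β)]
        exact Real.sin_le_sin_of_le_of_le_pi_div_two (by linarith) (by linarith) (by linarith)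
    rw [Real.sin_neg] at a1 a2
    nlinarith
  · by_contra hc
    push Not at hc
    have a1 : Real.sin (φ - β) < Real.sin α :=
      Real.sin_lt_sin_of_lt_of_le_pi_div_two (by linarith) ha1.2.le (by linarith)
    have a2 : 0 < Real.sin α :=
      Real.sin_pos_of_pos_of_lt_pi (by linarith) (by linarith [Real.pi_pos])
    rcases le_total (Real.sin (φ - β)) 0 with h | h <;> nlinarith

/-- the orbit tends to `1` -/
theorem orb_tendsto (hκ : 0 < κ) {t : ℂ} (ht : 0 < t.re) :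
    Tendsto (fun n => (shf κ)^[n] t) atTop (𝓝 1) := by
  obtain ⟨T, hT⟩ : ∃ T : ℝ, T = Real.tanh κ := ⟨_, rfl⟩
  have hT0 : 0 < T := by
    rw [hT, Real.tanh_eq_sinh_div_cosh]
    exact div_pos (Real.sinh_pos_iff.2 hκ) (Real.cosh_pos _)
  have hT1 : T < 1 := by rw [hT]; exact Real.tanh_lt_one κ
  obtain ⟨q, hq⟩ : ∃ q : ℝ, q = (1 - T) / (1 + T) := ⟨_, rfl⟩
  have hq0 : 0 ≤ q := by rw [hq]; exact div_nonneg (by linarith) (by linarith)
  have hq1 : q < 1 := by rw [hq, div_lt_one (by linarith)]; linarith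
  have hor : ∀ n, 0 < ((shf κ)^[n] t).re := by
    intro n
    induction n with
    | zero => exact ht
    | succ n ih => rw [Function.iterate_succ_apply']; exact shf_re hκ ih.le
  have hne : ∀ {z : ℂ}, 0 < z.re → 1 + z ≠ 0 := by
    intro z hz h0
    have := congrArg Complex.re h0
    rw [add_re, one_re, zero_re] at this
    linarith
  have hc : ∀ n, (1 - (shf κ)^[n] t) / (1 + (shf κ)^[n] t) =
      ((q ^ n : ℝ) : ℂ) * ((1 - t) / (1 + t)) := by
    intro n
    induction n with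
    | zero => simp
    | succ n ih =>
      rw [Function.iterate_succ_apply']
      obtain ⟨z, hz⟩ : ∃ z : ℂ, z = (shf κ)^[n] t := ⟨_, rfl⟩
      have hz0 := hor n
      rw [← hz] at ih hz0 ⊢
      have hd := shf_den hκ hz0.le
      have h1 := hne hz0
      have h2 := hne (shf_re hκ hz0.le)
      have hTc : (1 + (T : ℂ)) ≠ 0 := by
        have : ((1 + T : ℝ) : ℂ) ≠ 0 := by exact_mod_cast (by linarith : (1 + T) ≠ 0)
        push_cast at this
        exact this
      have e1 : (1 - shf κ z) / (1 + shf κ z) = (q : ℂ) * ((1 - z) / (1 + z)) := by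
        rw [← hT] at hd
        have e2 : shf κ z = (z + (T : ℂ)) / (1 + (T : ℂ) * z) := by rw [hT]; rfl
        rw [e2, hq]
        push_cast
        have e3 : 1 - (z + (T : ℂ)) / (1 + (T : ℂ) * z) = (1 - T) * (1 - z) / (1 + (T : ℂ) * z) := by
          rw [eq_div_iff hd, sub_mul, div_mul_cancel₀ _ hd]
          ring
        have e4 : 1 + (z + (T : ℂ)) / (1 + (T : ℂ) * z) = (1 + T) * (1 + z) / (1 + (T : ℂ) * z) := by
          rw [eq_div_iff hd, add_mul, div_mul_cancel₀ _ hd]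
          ring
        rw [e3, e4, div_div_div_cancel_right₀ hd, mul_div_mul_comm]
      rw [e1, ih, pow_succ]
      push_cast
      ring
  have hz : ∀ n, (shf κ)^[n] t = (1 - ((q ^ n : ℝ) : ℂ) * ((1 - t) / (1 + t))) /
      (1 + ((q ^ n : ℝ) : ℂ) * ((1 - t) / (1 + t))) := by
    intro n
    rw [← hc n]
    have h1 := hne (hor n)
    obtain ⟨z, hz⟩ : ∃ z : ℂ, z = (shf κ)^[n] t := ⟨_, rfl⟩
    rw [← hz] at h1 ⊢
    field_simp
    ring
  have hlim : Tendsto (fun n : ℕ => ((q ^ n : ℝ) : ℂ) * ((1 - t) / (1 + t))) atTop (𝓝 0) := by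
    have h1 : Tendsto (fun n : ℕ => ((q ^ n : ℝ) : ℂ)) atTop (𝓝 ((0 : ℝ) : ℂ)) :=
      (continuous_ofReal.tendsto 0).comp (tendsto_pow_atTop_nhds_zero_of_lt_one hq0 hq1)
    have h2 := h1.mul_const ((1 - t) / (1 + t))
    rwa [ofReal_zero, zero_mul] at h2
  have h3 : Tendsto (fun n : ℕ => (1 - ((q ^ n : ℝ) : ℂ) * ((1 - t) / (1 + t))) /
      (1 + ((q ^ n : ℝ) : ℂ) * ((1 - t) / (1 + t)))) atTop (𝓝 ((1 - 0) / (1 + 0))) :=
    (hlim.const_sub 1).div (hlim.const_add 1) (by simp)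
  rw [sub_zero, add_zero, div_one] at h3
  refine h3.congr fun n => (hz n).symm

/-- **The argument of `f`.** -/
theorem arg_fT (he : 0 < e) (hκ : 0 < κ) {t : ℂ} (ht : 0 < t.re) (hi : 0 ≤ t.im)
    (h : e * arg (Qk κ t) ≤ Real.pi) :
    0 ≤ arg (fT e κ t) ∧ arg (fT e κ t) ≤ e * arg (Qk κ t) := by
  have hP := Real.pi_pos
  have hor : ∀ n, 0 < ((shf κ)^[n] t).re ∧ 0 ≤ ((shf κ)^[n] t).im ∧
      e * arg (Qk κ ((shf κ)^[n] t)) ≤ Real.pi := by
    intro n
    induction n with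
    | zero => exact ⟨ht, hi, h⟩
    | succ n ih =>
      rw [Function.iterate_succ_apply']
      refine ⟨shf_re hκ ih.1.le, shf_im hκ ih.1 ih.2.1, le_trans ?_ ih.2.2⟩
      exact mul_le_mul_of_nonneg_left (arg_Qk_shf hκ ih.1 ih.2.1).2 he.le
  have hlim : Tendsto (fun n => arg (fT e κ ((shf κ)^[n] t))) atTop (𝓝 0) := by
    have h1 : ContinuousAt (fun z => arg (fT e κ z)) 1 := by
      have h2 : ContinuousAt (fT e κ) 1 := (fT_diffAt he hκ (by simp)).continuousAt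
      exact (continuousAt_arg (fT_slit he hκ (by simp))).comp h2
    have h3 : arg (fT e κ 1) = 0 := by
      rw [fT_one he hκ]
      exact arg_ofReal_of_nonneg (by have := Real.exp_pos (-(e * κ)); positivity)
    have h4 := h1.tendsto.comp (orb_tendsto hκ ht)
    rwa [h3] at h4
  have key : ∀ η : ℝ, 0 < η → η < Real.pi / 2 →
      -η ≤ arg (fT e κ t) ∧ arg (fT e κ t) ≤ e * arg (Qk κ t) + η := by
    intro η hη hη1
    have h1 := (Metric.tendsto_atTop.1 hlim) η hη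
    obtain ⟨N, hN⟩ := h1
    have h2 := hN N le_rfl
    rw [Real.dist_eq, sub_zero, abs_lt] at h2
    have h3 : ∀ k, k ≤ N → -η ≤ arg (fT e κ ((shf κ)^[N - k] t)) ∧
        arg (fT e κ ((shf κ)^[N - k] t)) ≤ e * arg (Qk κ ((shf κ)^[N - k] t)) + η := by
      intro k
      induction k with
      | zero =>
        intro _
        have h4 : 0 ≤ arg (Qk κ ((shf κ)^[N - 0] t)) := by
          rw [arg_nonneg_iff, (Qk_parts κ _).2]
          exact mul_nonneg (Real.sinh_pos_iff.2 hκ).le (hor _).2.1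
        refine ⟨h2.1.le, ?_⟩
        have h5 := mul_nonneg he.le h4
        have h6 := h2.2
        simp only [Nat.sub_zero] at h5 ⊢
        linarith
      | succ k ih =>
        intro hk
        have h4 := ih (by omega)
        have h5 := hor (N - (k + 1))
        have h6 : N - k = (N - (k + 1)) + 1 := by omega
        rw [h6, Function.iterate_succ_apply'] at h4
        exact arg_step he hκ h5.1 h5.2.1 hη hη1 h5.2.2 h4.1 h4.2
    have h4 := h3 N le_rfl
    simpa using h4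
  constructor
  · by_contra hc
    push Not at hc
    have h1 := (key (min (-(arg (fT e κ t)) / 2) (Real.pi / 4))
      (lt_min (by linarith) (by linarith)) ((min_le_right _ _).trans_lt (by linarith))).1
    have h2 := min_le_left (-(arg (fT e κ t)) / 2) (Real.pi / 4)
    linarith
  · by_contra hc
    push Not at hc
    have h1 := (key (min ((arg (fT e κ t) - e * arg (Qk κ t)) / 2) (Real.pi / 4))
      (lt_min (by linarith) (by linarith)) ((min_le_right _ _).trans_lt (by linarith))).2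
    have h2 := min_le_left ((arg (fT e κ t) - e * arg (Qk κ t)) / 2) (Real.pi / 4)
    linarith

end Pool.Agent.helper31.EQB
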