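import Pool.Agent.helper31.EQB.Cst
import Pool.Agent.helper31.EQB.LamN

/-!
# EQB-24: the imaginary part decreases (guard `gY` of chart B)

`y_s = y_τ/|Q|²`, `|Q|² = 1 + W/e + r²/e² + 2 c r/e` with `W = S_τ/e`, `r = r_τ ≥ lam K x W` (`om_rz`); `S_τ ≥ S_s`
(`yz_shf_le`), so `|y_s| (1 + W_s/e (1 + 2 lam K x)) ≤ |y_τ| ≤ yn` with `W_s = S_s/e = om² (1 + y_s² ta²)`.
-/

namespace Pool.Agent.helper31.EQB

open Complex ComplexConjugate Set Filter Topology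
open Pool.Agent.helper31.EQ.Y Pool.Agent.helper31.EQ.R
open Pool.Agent.helper12.EQL Pool.Agent.helper12.RP Pool.Agent.helper12.FF Pool.Agent.helper12.RS
open Pool.Agent.helper63.FF

variable {e κ : ℝ}

/-- `|Q|² ≥ 1 + S/e² + 2 r/e` -/
private theorem dy_Q (he : 0 < e) (hκ : 0 < κ) {τ : ℂ} (hτ : 0 < τ.re) :
    1 + Sz e κ τ / e / e + 2 * rz e κ τ / e ≤ ‖Qk κ τ‖ ^ 2 := by
  have hK0 : 0 < Real.sinh κ := Real.sinh_pos_iff.2 hκ
  have hc := Real.one_le_cosh κ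
  have hcs := Real.cosh_sq κ
  have h1 : ‖Qk κ τ‖ ^ 2 = (Real.cosh κ + Real.sinh κ * τ.re) ^ 2 + (Real.sinh κ * τ.im) ^ 2 := by
    rw [← Complex.normSq_eq_norm_sq, Complex.normSq_apply]
    unfold Qk
    rw [Complex.add_re, Complex.add_im, Complex.ofReal_re, Complex.ofReal_im,
      Complex.re_ofReal_mul, Complex.im_ofReal_mul]
    ring
  have h2 : Sz e κ τ / e / e = Real.sinh κ ^ 2 + (Real.sinh κ * τ.im) ^ 2 := by
    unfold Sz yz bet
    field_simp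
  have h3 : 2 * rz e κ τ / e = 2 * (Real.sinh κ * τ.re) := by
    unfold rz bet
    field_simp
  rw [h1, h2, h3]
  have h4 : 0 < Real.sinh κ * τ.re := mul_pos hK0 hτ
  nlinarith

theorem dec_y (he : 200 ≤ e) (hκ : 0 < κ) (hK : Real.sinh κ ≤ 1 / 10) {x Λ yn : ℝ} (hx : 0 ≤ x)
    {τ : ℂ} (T : St e κ x Λ yn τ) :
    |yz e κ (shf κ τ)| * (1 + Sz e κ (shf κ τ) / e / e * (1 + 2 * lam (Real.sinh κ) x)) ≤ yn := by
  have he0 : 0 < e := by linarith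
  have hK0 : 0 < Real.sinh κ := Real.sinh_pos_iff.2 hκ
  have hQ : 0 < ‖Qk κ τ‖ := norm_pos_iff.2 (Qk_ne hκ T.re)
  have h1 := dy_Q he0 hκ T.re
  have h2 := om_rz he0 hκ (by linarith) hx T.re T.om
  have h3 := Sz_shf_le he0 hκ T.re
  have hl := lam_nonneg hK0.le (by linarith : Real.sinh κ ≤ 1) hx
  have h4 : Sz e κ (shf κ τ) / e / e * (1 + 2 * lam (Real.sinh κ) x) ≤
      Sz e κ τ / e / e + 2 * rz e κ τ / e := by
    have h5 : Sz e κ (shf κ τ) / e / e ≤ Sz e κ τ / e / e := by gcongr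
    have h6 : Sz e κ (shf κ τ) / e / e * (1 + 2 * lam (Real.sinh κ) x) ≤
        Sz e κ τ / e / e * (1 + 2 * lam (Real.sinh κ) x) :=
      mul_le_mul_of_nonneg_right h5 (by positivity)
    have h7 : Sz e κ τ / e / e * (1 + 2 * lam (Real.sinh κ) x) =
        Sz e κ τ / e / e + 2 * (lam (Real.sinh κ) x * Sz e κ τ / e) / e := by ring
    have h8 : 2 * (lam (Real.sinh κ) x * Sz e κ τ / e) / e ≤ 2 * rz e κ τ / e := by gcongr
    linarith
  have h5 : |yz e κ (shf κ τ)| * ‖Qk κ τ‖ ^ 2 = |yz e κ τ| := by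
    rw [yz_shf he0 hκ T.re, abs_div, abs_of_nonneg (by positivity : (0:ℝ) ≤ ‖Qk κ τ‖ ^ 2),
      div_mul_cancel₀ _ (by positivity)]
  calc |yz e κ (shf κ τ)| * (1 + Sz e κ (shf κ τ) / e / e * (1 + 2 * lam (Real.sinh κ) x)) ≤
        |yz e κ (shf κ τ)| * ‖Qk κ τ‖ ^ 2 :=
        mul_le_mul_of_nonneg_left (by linarith) (abs_nonneg _)
    _ = |yz e κ τ| := h5
    _ ≤ yn := T.y

private theorem xB_nonneg (n : ℕ) : 0 ≤ xB n := by
  unfold xB
  split <;> norm_num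

theorem guard_y (he : 200 ≤ e) (hκ : 0 < κ) (hK : Real.sinh κ ≤ 1 / 10) {n : ℕ} (hn : n < 5)
    {Λ : ℝ} {τ : ℂ} (T : St e κ (xB n) Λ (ynB κ n) τ) :
    PLBg (bet e κ / √e) (bet e κ)⁻¹ |yz e κ (shf κ τ)| (xB n) (ynB1 n) (ynB0 n) → False := by
  intro G
  have he0 : 0 < e := by linarith
  have hK0 : 0 < Real.sinh κ := Real.sinh_pos_iff.2 hκ
  have hβ : 0 < bet e κ := mul_pos he0 hK0
  have hs : 0 < √e := Real.sqrt_pos.2 he0
  have hs2 : √e * √e = e := Real.mul_self_sqrt he0.le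
  have h1 := dec_y he hκ hK (xB_nonneg n) T
  have hse : G.se = (√e)⁻¹ := by
    rw [G.e_se]
    field_simp
  have hie : G.ie = e⁻¹ := by rw [G.e_ie, hse, ← mul_inv, hs2]
  have hKK : G.K = Real.sinh κ := by
    rw [G.e_K, hse, div_mul_eq_mul_div, ← div_eq_mul_inv, div_div, hs2]
    unfold bet
    field_simp
  have hl := lam_blk G.e_K2 G.e_q6 G.e_Kq G.e_z0 G.e_iz0 G.e_th0 G.e_l0
  have hW : G.W = Sz e κ (shf κ τ) / e := by
    rw [G.e_W, div_mul_div_comm, hs2, abs_mul_abs_self]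
    unfold Sz
    field_simp
    ring
  have h2 := G.p_gY
  rw [hl, hW, hie, hKK] at h2
  unfold ynB at h1
  have h3 : |yz e κ (shf κ τ)| * (1 + Sz e κ (shf κ τ) / e / e * (1 + 2 * lam (Real.sinh κ) (xB n))) =
      |yz e κ (shf κ τ)| * (Sz e κ (shf κ τ) / e * e⁻¹ * (2 * lam (Real.sinh κ) (xB n) + 1) + 1) := by
    ring
  rw [h3] at h1
  linarith

end Pool.Agent.helper31.EQB
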