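import Pool.Agent.helper31.EQB.Cst
import Pool.Agent.helper12.RS.Kmax

/-!
# EQB-23: the range of `β`

`κ` with `2 (cosh κ - 1)/cosh (eκ/2)^(2/e) < 4^(1/e) - 1` (`kmax_lt` of helper12 RS/Kmax: it suffices that
`4^(1/e) - 1 ≤ kfun e κ1` at the point `κ1` with `e sinh² κ1 = 13864/10000 + 7/(4√e)`).  The true value of
`(β²/e - 13864/10000) √e` is `1.742` at `e = 200` and decreases to `1.60`; so about `1 ‰` of room (`log 4 = 1.386294`).
-/

namespace Pool.Agent.helper31.EQB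

open Complex ComplexConjugate Set Filter Topology
open Pool.Agent.helper31.EQ.Y Pool.Agent.helper31.EQ.R
open Pool.Agent.helper12.EQL Pool.Agent.helper12.RP Pool.Agent.helper12.FF Pool.Agent.helper12.RS
open Pool.Agent.helper63.FF

variable {e κ : ℝ}

/-- the final polynomial inequality -/
theorem domK_poly {x : ℝ} (hx0 : 0 ≤ x) (hx1 : x ≤ 7072 / 100000) :
    (1 + 1 / 1000000) * (1386295 / 1000000 - (1386295 / 1000000) ^ 2 / 2 * x ^ 2 +
      2 / 9 * (1386295 / 1000000) ^ 3 * x ^ 4) ≤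
    (13864 / 10000 + 7 / 4 * x) * (1 - (13864 / 10000 + 7 / 4 * x) * x ^ 2 / 4) *
      (1 - (117746 / 100000 + 7432 / 10000 * x) * x + (13864 / 10000 + 7 / 4 * x) * x ^ 2 / 2 -
        (13864 / 10000 + 7 / 4 * x) ^ 2 * x ^ 4 / 8) := by
  have h1 : 0 ≤ x * (7072 / 100000 - x) := mul_nonneg hx0 (by linarith)
  have h2 : 0 ≤ x ^ 2 * (7072 / 100000 - x) := mul_nonneg (by positivity) (by linarith)
  have h3 : 0 ≤ x ^ 3 * (7072 / 100000 - x) := mul_nonneg (by positivity) (by linarith)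
  have h4 : 0 ≤ x ^ 4 * (7072 / 100000 - x) := mul_nonneg (by positivity) (by linarith)
  have h5 : 0 ≤ x ^ 5 * (7072 / 100000 - x) := mul_nonneg (by positivity) (by linarith)
  have h6 : 0 ≤ x ^ 6 * (7072 / 100000 - x) := mul_nonneg (by positivity) (by linarith)
  have h7 : 0 ≤ x ^ 7 * (7072 / 100000 - x) := mul_nonneg (by positivity) (by linarith)
  have h8 : 0 ≤ x ^ 8 * (7072 / 100000 - x) := mul_nonneg (by positivity) (by linarith)
  have h9 : 0 ≤ x ^ 9 * (7072 / 100000 - x) := mul_nonneg (by positivity) (by linarith)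
  have h10 : 0 ≤ x ^ 10 := by positivity
  nlinarith [h1, h2, h3, h4, h5, h6, h7, h8, h9, h10, hx0]

/-- `1 - exp (-y) ≤ y - y²/2 + 2 y³/9` -/
theorem domK_exp {y : ℝ} (hy0 : 0 ≤ y) (hy1 : y ≤ 1) :
    1 - Real.exp (-y) ≤ y - y ^ 2 / 2 + 2 / 9 * y ^ 3 := by
  have h := Real.exp_bound (x := -y) (by rw [abs_neg, abs_of_nonneg hy0]; exact hy1) (n := 3)
    (by norm_num)
  rw [abs_neg, abs_of_nonneg hy0] at h
  simp only [Finset.sum_range_succ, Finset.sum_range_zero, Nat.factorial] at h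
  norm_num at h
  have h2 := (abs_le.1 h).1
  nlinarith [h2]

/-- the inequality in terms of `s = sinh κ1` -/
theorem domK_key {x s y : ℝ} (hx0 : 0 < x) (hx1 : x ≤ 7072 / 100000) (hs0 : 0 < s)
    (hs : s ^ 2 = (13864 / 10000 + 7 / 4 * x) * x ^ 2) (hy0 : 0 ≤ y)
    (hy : y ≤ 1386295 / 1000000 * x ^ 2) :
    (1 + 1 / 1000000) * (y - y ^ 2 / 2 + 2 / 9 * y ^ 3) * (s + √(1 + s ^ 2)) ≤
      2 * (√(1 + s ^ 2) - 1) := by
  have hx2 : x ^ 2 ≤ 1 / 199 := by nlinarith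
  have hT : 13864 / 10000 + 7 / 4 * x ≤ 152 / 100 := by linarith
  have hT0 : 0 < 13864 / 10000 + 7 / 4 * x := by positivity
  have hs2 : s ^ 2 ≤ 1 / 100 := by rw [hs]; nlinarith
  have hs1 : s ≤ 1 / 10 := by nlinarith
  -- the bound of `s`
  have hsu : s ≤ (117746 / 100000 + 7432 / 10000 * x) * x := by
    have h0 : 0 ≤ (117746 / 100000 + 7432 / 10000 * x) * x := by positivity
    apply le_of_sq_le_sq _ h0
    rw [hs, mul_pow]
    apply mul_le_mul_of_nonneg_right _ (by positivity)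
    nlinarith
  obtain ⟨c, hc⟩ : ∃ c, c = √(1 + s ^ 2) := ⟨_, rfl⟩
  rw [← hc]
  have hc2 : c ^ 2 = 1 + s ^ 2 := by rw [hc]; exact Real.sq_sqrt (by positivity)
  have hc0 : 0 ≤ c := by rw [hc]; exact Real.sqrt_nonneg _
  have hcl : 1 + s ^ 2 / 2 - s ^ 4 / 8 ≤ c := by
    apply le_of_sq_le_sq _ hc0
    rw [hc2]
    have h1 : 0 ≤ s ^ 6 * (8 - s ^ 2) := mul_nonneg (by positivity) (by linarith)
    nlinarith [h1]
  have hcs : 0 < c - s := by nlinarith
  -- the main inequality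
  have hy2 : y - y ^ 2 / 2 + 2 / 9 * y ^ 3 ≤ x ^ 2 * (1386295 / 1000000 -
      (1386295 / 1000000) ^ 2 / 2 * x ^ 2 + 2 / 9 * (1386295 / 1000000) ^ 3 * x ^ 4) := by
    obtain ⟨w, hw⟩ : ∃ w, w = 1386295 / 1000000 * x ^ 2 := ⟨_, rfl⟩
    have hww : x ^ 2 * (1386295 / 1000000 - (1386295 / 1000000) ^ 2 / 2 * x ^ 2 +
        2 / 9 * (1386295 / 1000000) ^ 3 * x ^ 4) = w - w ^ 2 / 2 + 2 / 9 * w ^ 3 := by
      rw [hw]; ring
    rw [hww]
    rw [← hw] at hy
    have hw1 : w ≤ 1 / 100 := by rw [hw]; nlinarith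
    have h1 : 0 ≤ (w - y) * (1 - (w + y) / 2 + 2 / 9 * (w ^ 2 + w * y + y ^ 2)) := by
      apply mul_nonneg (by linarith)
      have hw0 : 0 ≤ w := by rw [hw]; positivity
      have : 0 ≤ w ^ 2 + w * y + y ^ 2 := by positivity
      nlinarith
    nlinarith [h1]
  have hB : x ^ 2 * ((13864 / 10000 + 7 / 4 * x) * (1 - (13864 / 10000 + 7 / 4 * x) * x ^ 2 / 4) *
      (1 - (117746 / 100000 + 7432 / 10000 * x) * x + (13864 / 10000 + 7 / 4 * x) * x ^ 2 / 2 -
        (13864 / 10000 + 7 / 4 * x) ^ 2 * x ^ 4 / 8)) ≤ 2 * (c - 1) * (c - s) := by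
    have e1 : x ^ 2 * ((13864 / 10000 + 7 / 4 * x) *
        (1 - (13864 / 10000 + 7 / 4 * x) * x ^ 2 / 4) *
      (1 - (117746 / 100000 + 7432 / 10000 * x) * x + (13864 / 10000 + 7 / 4 * x) * x ^ 2 / 2 -
        (13864 / 10000 + 7 / 4 * x) ^ 2 * x ^ 4 / 8)) =
      (s ^ 2 - s ^ 4 / 4) * (1 - (117746 / 100000 + 7432 / 10000 * x) * x + s ^ 2 / 2 -
        s ^ 4 / 8) := by
      have e2 : s ^ 4 = (s ^ 2) ^ 2 := by ring
      rw [e2, hs]
      ring
    rw [e1]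
    have e3 : s ^ 2 - s ^ 4 / 4 ≤ 2 * (c - 1) := by linarith
    have e4 : 1 - (117746 / 100000 + 7432 / 10000 * x) * x + s ^ 2 / 2 - s ^ 4 / 8 ≤ c - s := by
      linarith
    have e5 : 0 ≤ s ^ 2 - s ^ 4 / 4 := by
      have : 0 ≤ s ^ 2 * (1 - s ^ 2 / 4) := mul_nonneg (by positivity) (by linarith)
      linarith
    calc (s ^ 2 - s ^ 4 / 4) * (1 - (117746 / 100000 + 7432 / 10000 * x) * x + s ^ 2 / 2 -
        s ^ 4 / 8) ≤ (s ^ 2 - s ^ 4 / 4) * (c - s) := mul_le_mul_of_nonneg_left e4 e5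
      _ ≤ 2 * (c - 1) * (c - s) := mul_le_mul_of_nonneg_right e3 hcs.le
  have hA : (1 + 1 / 1000000) * (y - y ^ 2 / 2 + 2 / 9 * y ^ 3) ≤ 2 * (c - 1) * (c - s) := by
    refine le_trans ?_ hB
    calc (1 + 1 / 1000000) * (y - y ^ 2 / 2 + 2 / 9 * y ^ 3)
        ≤ (1 + 1 / 1000000) * (x ^ 2 * (1386295 / 1000000 -
      (1386295 / 1000000) ^ 2 / 2 * x ^ 2 + 2 / 9 * (1386295 / 1000000) ^ 3 * x ^ 4)) :=
          mul_le_mul_of_nonneg_left hy2 (by norm_num)
      _ = x ^ 2 * ((1 + 1 / 1000000) * (1386295 / 1000000 -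
      (1386295 / 1000000) ^ 2 / 2 * x ^ 2 + 2 / 9 * (1386295 / 1000000) ^ 3 * x ^ 4)) := by ring
      _ ≤ _ := mul_le_mul_of_nonneg_left (domK_poly hx0.le hx1) (by positivity)
  have hsc : 0 < s + c := by linarith
  calc (1 + 1 / 1000000) * (y - y ^ 2 / 2 + 2 / 9 * y ^ 3) * (s + c)
      ≤ 2 * (c - 1) * (c - s) * (s + c) := mul_le_mul_of_nonneg_right hA hsc.le
    _ = 2 * (c - 1) * (c ^ 2 - s ^ 2) := by ring
    _ = 2 * (c - 1) := by rw [hc2]; ring

theorem dom_B (he : 200 ≤ e) (hκ : 0 < κ)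
    (h : 2 * (Real.cosh κ - 1) / Real.cosh (e * κ / 2) ^ (2 / e) < 4 ^ (1 / e) - 1) :
    bet e κ ^ 2 ≤ e * (13864 / 10000 + 7 / 4 * (√e)⁻¹) := by
  have he0 : 0 < e := by linarith
  obtain ⟨x, hx⟩ : ∃ x, x = (√e)⁻¹ := ⟨_, rfl⟩
  rw [← hx]
  have hx0 : 0 < x := by rw [hx]; positivity
  have hx2 : x ^ 2 = 1 / e := by rw [hx, inv_pow, Real.sq_sqrt he0.le, one_div]
  have hxe : x ^ 2 ≤ 1 / 200 := by
    rw [hx2]
    exact one_div_le_one_div_of_le (by norm_num) he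
  have hx1 : x ≤ 7072 / 100000 := by nlinarith
  have hex : e * x ^ 2 = 1 := by rw [hx2]; field_simp
  obtain ⟨s, hs⟩ : ∃ s, s = √((13864 / 10000 + 7 / 4 * x) * x ^ 2) := ⟨_, rfl⟩
  have hT0 : 0 < (13864 / 10000 + 7 / 4 * x) * x ^ 2 := by positivity
  have hs0 : 0 < s := by rw [hs]; exact Real.sqrt_pos.2 hT0
  have hs2 : s ^ 2 = (13864 / 10000 + 7 / 4 * x) * x ^ 2 := by rw [hs]; exact Real.sq_sqrt hT0.le
  obtain ⟨k, hk⟩ : ∃ k, k = Real.arsinh s := ⟨_, rfl⟩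
  have hk0 : 0 < k := by rw [hk]; exact Real.arsinh_pos_iff.2 hs0
  have hks : Real.sinh k = s := by rw [hk]; exact Real.sinh_arsinh s
  have hkc : Real.cosh k = √(1 + s ^ 2) := by rw [hk]; exact Real.cosh_arsinh s
  have hke : Real.exp k = s + √(1 + s ^ 2) := by rw [hk]; exact Real.exp_arsinh s
  -- `e k ≥ 14`
  have hkx : x ≤ k := by
    by_contra hc
    push Not at hc
    have h1 : Real.sinh k < Real.sinh x := Real.sinh_lt_sinh.2 hc
    -- `sinh x ≤ x (1 + x²)`-type bound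
    have h2 : Real.sinh x ≤ x * (1 + x ^ 2) := by
      have h3 := Real.exp_bound' (x := x) hx0.le (by linarith) (n := 3) (by norm_num)
      have h4 := domK_exp (y := x) hx0.le (by linarith)
      simp only [Finset.sum_range_succ, Finset.sum_range_zero, Nat.factorial] at h3
      norm_num at h3
      rw [Real.sinh_eq]
      nlinarith [pow_pos hx0 3]
    have h5 : x * (1 + x ^ 2) ≤ s := by
      apply le_of_sq_le_sq _ hs0.le
      rw [hs2]
      nlinarith [pow_pos hx0 2, pow_pos hx0 3, pow_pos hx0 4]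
    linarith
  have hek : 14 ≤ e * k := by
    have h1 : e * x ≤ e * k := mul_le_mul_of_nonneg_left hkx he0.le
    have h2 : 14 * x ≤ 1 := by linarith
    have h3 : e * x * x = 1 := by rw [mul_assoc, ← sq]; exact hex
    have h4 : 14 * x ≤ e * x * x := by rw [h3]; exact h2
    have h5 : 14 ≤ e * x := le_of_mul_le_mul_right h4 hx0
    linarith
  have hd : Real.exp (-(e * k)) ≤ 1 / 1000000 := by
    have h1 : Real.exp (-(e * k)) ≤ Real.exp (-14) := Real.exp_le_exp.2 (by linarith)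
    have h2 : Real.exp (-14) = (Real.exp 1 ^ 14)⁻¹ := by
      rw [Real.exp_neg, ← Real.exp_nat_mul]
      norm_num
    have h3 : (1000000 : ℝ) ≤ Real.exp 1 ^ 14 := by
      have h4 := Real.exp_one_gt_d9
      calc (1000000 : ℝ) ≤ (2.7182818283 : ℝ) ^ 14 := by norm_num
        _ ≤ Real.exp 1 ^ 14 := pow_le_pow_left₀ (by norm_num) h4.le 14
    rw [h2] at h1
    refine h1.trans ?_
    rw [one_div]
    exact inv_anti₀ (by norm_num) h3
  -- the main step
  have hkk : κ < k := by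
    apply kmax_lt he0 hk0 h
    have hcB := Real.cosh_pos (e * k / 2)
    have hp := Real.rpow_pos_of_pos hcB (2 / e)
    unfold kfun
    rw [le_div_iff₀ hp]
    have h2e0 : 0 ≤ 2 / e := by positivity
    have h2e1 : 2 / e ≤ 1 := by rw [div_le_one he0]; linarith
    have e1 : Real.cosh (e * k / 2) ≤ Real.exp (e * k / 2) * (1 + 1 / 1000000) * (1 / 2) := by
      rw [Real.cosh_eq]
      have h1 : Real.exp (-(e * k / 2)) = Real.exp (e * k / 2) * Real.exp (-(e * k)) := by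
        rw [← Real.exp_add]; congr 1; ring
      rw [h1]
      have h2 := mul_le_mul_of_nonneg_left hd (Real.exp_pos (e * k / 2)).le
      linarith
    have e2 : Real.cosh (e * k / 2) ^ (2 / e) ≤
        Real.exp k * (1 + 1 / 1000000) * Real.exp (-(2 / e * Real.log 2)) := by
      refine (Real.rpow_le_rpow hcB.le e1 h2e0).trans ?_
      rw [Real.mul_rpow (by positivity) (by norm_num), Real.mul_rpow (Real.exp_pos _).le
        (by norm_num), ← Real.exp_mul, show e * k / 2 * (2 / e) = k by field_simp]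
      have h1 : ((1 : ℝ) / 2) ^ (2 / e) = Real.exp (-(2 / e * Real.log 2)) := by
        rw [Real.rpow_def_of_pos (by norm_num), one_div, Real.log_inv]
        congr 1
        ring
      rw [h1]
      apply mul_le_mul_of_nonneg_right _ (Real.exp_pos _).le
      apply mul_le_mul_of_nonneg_left _ (Real.exp_pos _).le
      calc (1 + 1 / 1000000 : ℝ) ^ (2 / e) ≤ (1 + 1 / 1000000 : ℝ) ^ (1 : ℝ) :=
            Real.rpow_le_rpow_of_exponent_le (by norm_num) h2e1
        _ = 1 + 1 / 1000000 := Real.rpow_one _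
    have e3 : (4 : ℝ) ^ (1 / e) = Real.exp (2 / e * Real.log 2) := by
      rw [show (4 : ℝ) = 2 ^ (2 : ℝ) by norm_num, ← Real.rpow_mul (by norm_num),
        Real.rpow_def_of_pos (by norm_num)]
      congr 1
      ring
    have e4 : 0 ≤ (4 : ℝ) ^ (1 / e) - 1 := by
      have := Real.one_le_rpow (x := 4) (z := 1 / e) (by norm_num) (by positivity)
      linarith
    obtain ⟨y, hy⟩ : ∃ y, y = 2 / e * Real.log 2 := ⟨_, rfl⟩
    rw [← hy] at e2 e3
    have hlog := Real.log_two_lt_d9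
    have hlog0 := Real.log_pos (by norm_num : (1 : ℝ) < 2)
    have hy0 : 0 ≤ y := by rw [hy]; positivity
    have hyx : y = 2 * Real.log 2 * x ^ 2 := by rw [hy, hx2]; ring
    have hy1 : y ≤ 1386295 / 1000000 * x ^ 2 := by
      rw [hyx]
      apply mul_le_mul_of_nonneg_right _ (by positivity)
      linarith
    have e5 : ((4 : ℝ) ^ (1 / e) - 1) * Real.exp (-y) = 1 - Real.exp (-y) := by
      rw [e3, sub_mul, ← Real.exp_add, add_neg_cancel, Real.exp_zero, one_mul]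
    have e6 := domK_exp hy0 (by nlinarith : y ≤ 1)
    have e7 := domK_key hx0 hx1 hs0 hs2 hy0 hy1
    rw [← hke, ← hkc] at e7
    calc ((4 : ℝ) ^ (1 / e) - 1) * Real.cosh (e * k / 2) ^ (2 / e)
        ≤ ((4 : ℝ) ^ (1 / e) - 1) * (Real.exp k * (1 + 1 / 1000000) * Real.exp (-y)) :=
          mul_le_mul_of_nonneg_left e2 e4
      _ = (1 + 1 / 1000000) * (((4 : ℝ) ^ (1 / e) - 1) * Real.exp (-y)) * Real.exp k := by ring
      _ = (1 + 1 / 1000000) * (1 - Real.exp (-y)) * Real.exp k := by rw [e5]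
      _ ≤ (1 + 1 / 1000000) * (y - y ^ 2 / 2 + 2 / 9 * y ^ 3) * Real.exp k := by
          apply mul_le_mul_of_nonneg_right _ (Real.exp_pos _).le
          exact mul_le_mul_of_nonneg_left e6 (by norm_num)
      _ ≤ 2 * (Real.cosh k - 1) := e7
  have h1 : Real.sinh κ ≤ s := by rw [← hks]; exact Real.sinh_le_sinh.2 hkk.le
  have h2 : 0 ≤ Real.sinh κ := (Real.sinh_pos_iff.2 hκ).le
  have h3 : Real.sinh κ ^ 2 ≤ s ^ 2 := pow_le_pow_left₀ h2 h1 2
  unfold bet
  calc (e * Real.sinh κ) ^ 2 = e * (e * Real.sinh κ ^ 2) := by ring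
    _ ≤ e * (e * s ^ 2) := by
        apply mul_le_mul_of_nonneg_left _ he0.le
        exact mul_le_mul_of_nonneg_left h3 he0.le
    _ = e * (e * x ^ 2 * (13864 / 10000 + 7 / 4 * x)) := by rw [hs2]; ring
    _ = e * (13864 / 10000 + 7 / 4 * x) := by rw [hex, one_mul]

end Pool.Agent.helper31.EQB
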