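import Pool.Agent.helper31.EQB.Zc
import Pool.Agent.helper31.EQB.ArgF

/-!
# EQB-8: bounds of `|f|` and of `log f`

* `f_sup`: series (definition of `fT`, see `tsR` in TestS): `|f(t)| ≤ 1 + Σ_{k ≥ 1} |cosh κk + t sinh κk|^(-e)`,
  `|cosh κk + t sinh κk|² = 1 + (1 + |t|²) sinh² κk + 2 (Re t) sinh κk cosh κk ≥ 1 + a k²`,
  `a = (1 + |t|²) κ² ≥ (1 - K²/3) S/e²` (`β² (1 + |t|²) = S + r²`, `κ ≥ K (1 - K²/6)`), and
  `(1 + a k²)^(-e/2) ≤ (1 + (e a/4) k²)^(-2)` (Bernoulli: `(1 + y)^(e/4) ≥ 1 + (e/4) y`, `e ≥ 4`),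
  `Σ_{k ≥ 1} (1 + c k²)^(-2) ≤ ∫_0^∞ (1 + c x²)^(-2) dx = π/(4 √c)`: antiderivative
  `G(x) = x/(2 (1 + c x²)) + arctan (√c x)/(2 √c)`, `G(k) - G(k-1) ≥ (1 + c k²)^(-2)` (mean value theorem), and
  `G(x) ≤ π/(4 √c)` because `G` increases to it (or: `x/(1 + c x²) ≤ arctan (1/(√c x))/√c`).
  `π/(4 √(e a/4)) = (π/2)/√(e a)`, `(π/2)/√(1 - K²/3) ≤ 8/5` for `K ≤ 1/10`.
* `f_one`: by `arg_fT` at `t` and `shf t`: `f = ρ e^(iα)`, `1 - f = σ e^(-iδ)`, `0 ≤ α ≤ φ`, `0 ≤ δ ≤ φ = e arg Q`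
  (`1 - f = Q^(-e) f(shf t)`, `δ = φ - arg f(shf t)`, `arg f(shf t) ≤ e arg Q(shf t) ≤ φ`), `φ ≤ π/3`;
  `ρ sin (α + δ) = sin δ` (real and imaginary part of `f + (1 - f) = 1`), `sin δ ≤ sin (α + δ)`; if `α + δ = 0` both
  `f` and `1 - f` are `> 0` real.
* `log f`: `half_lt_re_fT`: `Re f > 1/2`, so `|arg f| ≤ π/2`; `f = 1/(1 + qq)`, `‖qq‖ < 1`.
-/

namespace Pool.Agent.helper31.EQB

open Complex ComplexConjugate Set Filter Topology
open Pool.Agent.helper31.EQ.Y Pool.Agent.helper31.EQ.R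
open Pool.Agent.helper12.EQL Pool.Agent.helper12.RP Pool.Agent.helper12.FF

variable {e κ : ℝ}

/-! ### auxiliary facts -/

/-- antiderivative of `(1 + c x²)⁻²` -/
private noncomputable def fbG (c x : ℝ) : ℝ :=
  x / (1 + c * x ^ 2) / 2 + Real.arctan (√c * x) / (2 * √c)

private theorem fbG_deriv {c : ℝ} (hc : 0 < c) (x : ℝ) :
    HasDerivAt (fbG c) ((1 + c * x ^ 2) ^ 2)⁻¹ x := by
  have hp : 0 < 1 + c * x ^ 2 := by positivity
  have hs : 0 < √c := Real.sqrt_pos.2 hc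
  have hsq : √c ^ 2 = c := Real.sq_sqrt hc.le
  have d1 : HasDerivAt (fun u : ℝ => 1 + c * u ^ 2) (2 * c * x) x := by
    have := (((hasDerivAt_id x).pow 2).const_mul c).const_add 1
    refine this.congr_deriv ?_
    simp only [id]
    push_cast
    ring
  have d2 : HasDerivAt (fun u : ℝ => u / (1 + c * u ^ 2) / 2)
      ((1 * (1 + c * x ^ 2) - x * (2 * c * x)) / (1 + c * x ^ 2) ^ 2 / 2) x :=
    ((hasDerivAt_id x).div d1 hp.ne').div_const 2
  have d3 : HasDerivAt (fun u : ℝ => √c * u) √c x := by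
    simpa using (hasDerivAt_id x).const_mul (√c)
  have d4 := (d3.arctan).div_const (2 * √c)
  have d5 := d2.add d4
  refine d5.congr_deriv ?_
  have h1 : 1 + (√c * x) ^ 2 = 1 + c * x ^ 2 := by rw [mul_pow, hsq]
  rw [h1]
  field_simp
  ring

private theorem fb_step {c : ℝ} (hc : 0 < c) (k : ℕ) :
    ((1 + c * ((k : ℝ) + 1) ^ 2) ^ 2)⁻¹ ≤ fbG c ((k + 1 : ℕ) : ℝ) - fbG c (k : ℝ) := by
  have hlt : (k : ℝ) < (k : ℝ) + 1 := by linarith
  obtain ⟨ξ, hξ, h⟩ := exists_hasDerivAt_eq_slope (fbG c) (fun x => ((1 + c * x ^ 2) ^ 2)⁻¹) hlt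
    (fun x _ => (fbG_deriv hc x).continuousAt.continuousWithinAt) (fun x _ => fbG_deriv hc x)
  have h1 : (k : ℝ) + 1 - k = 1 := by ring
  rw [h1, div_one] at h
  have h2 : ((k + 1 : ℕ) : ℝ) = (k : ℝ) + 1 := by push_cast; rfl
  rw [h2, ← h]
  have hk : (0 : ℝ) ≤ k := Nat.cast_nonneg k
  have hξ0 : 0 ≤ ξ := hk.trans hξ.1.le
  have h3 : ξ ^ 2 ≤ ((k : ℝ) + 1) ^ 2 := pow_le_pow_left₀ hξ0 hξ.2.le 2
  apply inv_anti₀ (by positivity)
  apply pow_le_pow_left₀ (by positivity)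
  have := mul_le_mul_of_nonneg_left h3 hc.le
  linarith

private theorem fb_top {c : ℝ} (hc : 0 < c) {x : ℝ} (hx : 0 ≤ x) :
    fbG c x ≤ Real.pi / (4 * √c) := by
  have hs : 0 < √c := Real.sqrt_pos.2 hc
  have hsq : √c ^ 2 = c := Real.sq_sqrt hc.le
  rcases hx.eq_or_lt with h0 | h0
  · rw [← h0]
    unfold fbG
    simp only [mul_zero, Real.arctan_zero, zero_div, add_zero]
    positivity
  · obtain ⟨v, hv⟩ : ∃ v, v = √c * x := ⟨_, rfl⟩
    have hv0 : 0 < v := by rw [hv]; positivity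
    have h1 := Real.arctan_inv_of_pos hv0
    have h2 : v / (1 + v ^ 2) ≤ Real.arctan v⁻¹ := by
      have hu : 0 < v⁻¹ := inv_pos.2 hv0
      have ha0 : 0 < Real.arctan v⁻¹ := Real.arctan_pos.2 hu
      have h3 : Real.sin (Real.arctan v⁻¹) * Real.cos (Real.arctan v⁻¹) = v / (1 + v ^ 2) := by
        rw [Real.sin_arctan, Real.cos_arctan]
        have h4 : (0:ℝ) < 1 + v⁻¹ ^ 2 := by positivity
        rw [div_mul_div_comm, mul_one, Real.mul_self_sqrt h4.le]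
        field_simp
        ring
      rw [← h3]
      have h4 := Real.sin_le ha0.le
      have h5 := Real.cos_le_one (Real.arctan v⁻¹)
      have h6 : 0 ≤ Real.sin (Real.arctan v⁻¹) :=
        Real.sin_nonneg_of_nonneg_of_le_pi ha0.le
          (by have := Real.arctan_lt_pi_div_two v⁻¹; have := Real.pi_pos; linarith)
      nlinarith
    rw [h1] at h2
    have h7 : fbG c x = (v / (1 + v ^ 2) + Real.arctan v) / (2 * √c) := by
      unfold fbG
      rw [← hv]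
      have h8 : 1 + c * x ^ 2 = 1 + v ^ 2 := by rw [hv, mul_pow, hsq]
      rw [h8]
      have h9 : x / (1 + v ^ 2) / 2 = v / (1 + v ^ 2) / (2 * √c) := by
        rw [hv]
        field_simp
      rw [h9]
      ring
    rw [h7, div_le_div_iff₀ (by positivity) (by positivity)]
    nlinarith

private theorem fb_sum {c : ℝ} (hc : 0 < c) (N : ℕ) :
    ∑ k ∈ Finset.range N, ((1 + c * ((k : ℝ) + 1) ^ 2) ^ 2)⁻¹ ≤ Real.pi / (4 * √c) := by
  have h1 : ∑ k ∈ Finset.range N, ((1 + c * ((k : ℝ) + 1) ^ 2) ^ 2)⁻¹ ≤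
      ∑ k ∈ Finset.range N, (fbG c ((k + 1 : ℕ) : ℝ) - fbG c (k : ℝ)) :=
    Finset.sum_le_sum fun k _ => fb_step hc k
  rw [Finset.sum_range_sub (fun k : ℕ => fbG c (k : ℝ))] at h1
  have h2 : fbG c ((0 : ℕ) : ℝ) = 0 := by
    unfold fbG
    simp
  rw [h2, sub_zero] at h1
  exact h1.trans (fb_top hc (Nat.cast_nonneg N))

/-- `|cosh κk + t sinh κk|² ≥ 1 + (1 + |t|²) (κk)²` -/
private theorem fb_base (hκ : 0 < κ) {t : ℂ} (ht : 0 < t.re) (k : ℕ) :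
    1 + (1 + ‖t‖ ^ 2) * κ ^ 2 * (k : ℝ) ^ 2 ≤
      ‖(Real.cosh (κ * k) : ℂ) + t * (Real.sinh (κ * k) : ℂ)‖ ^ 2 := by
  have hk : 0 ≤ κ * k := by positivity
  have hs : κ * k ≤ Real.sinh (κ * k) := Real.self_le_sinh_iff.2 hk
  have hc := Real.cosh_pos (κ * k)
  have hcs := Real.cosh_sq (κ * k)
  obtain ⟨C, hC⟩ : ∃ C, C = Real.cosh (κ * k) := ⟨_, rfl⟩
  obtain ⟨s, hsd⟩ : ∃ s, s = Real.sinh (κ * k) := ⟨_, rfl⟩
  rw [← hC, ← hsd] at hcs
  rw [← hC] at hc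
  rw [← hsd] at hs
  rw [← hC, ← hsd]
  rw [← Complex.normSq_eq_norm_sq, ← Complex.normSq_eq_norm_sq, Complex.normSq_apply,
    Complex.normSq_apply]
  have hre : ((C : ℂ) + t * (s : ℂ)).re = C + t.re * s := by simp
  have him : ((C : ℂ) + t * (s : ℂ)).im = t.im * s := by simp
  rw [hre, him]
  have hs0 : 0 ≤ s := hk.trans hs
  have h1 : (κ * k) ^ 2 ≤ s ^ 2 := pow_le_pow_left₀ hk hs 2
  have h2 : (1 + (t.re * t.re + t.im * t.im)) * (κ * k) ^ 2 ≤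
      (1 + (t.re * t.re + t.im * t.im)) * s ^ 2 := by
    apply mul_le_mul_of_nonneg_left h1
    nlinarith [mul_self_nonneg t.re, mul_self_nonneg t.im]
  have h3 : 0 ≤ t.re * s * C := by positivity
  have h4 : (C + t.re * s) * (C + t.re * s) + t.im * s * (t.im * s) =
      C ^ 2 + 2 * (t.re * s * C) + (t.re * t.re + t.im * t.im) * s ^ 2 := by ring
  rw [h4, hcs]
  have h5 : (1 + (t.re * t.re + t.im * t.im)) * κ ^ 2 * (k : ℝ) ^ 2 =
      (1 + (t.re * t.re + t.im * t.im)) * (κ * k) ^ 2 := by ring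
  rw [h5]
  nlinarith

private theorem fb_term (he : 8 ≤ e) (hκ : 0 < κ) {t : ℂ} (ht : 0 < t.re) (k : ℕ) :
    ‖(-1 : ℂ) ^ (k + 1) * ((Real.cosh (κ * (k + 1 : ℕ)) : ℂ) +
      t * (Real.sinh (κ * (k + 1 : ℕ)) : ℂ)) ^ (-(e : ℂ))‖ ≤
      ((1 + e * ((1 + ‖t‖ ^ 2) * κ ^ 2) / 4 * ((k : ℝ) + 1) ^ 2) ^ 2)⁻¹ := by
  have he0 : 0 < e := by linarith
  have hb := fb_base hκ ht (k + 1)
  have hk1 : ((k + 1 : ℕ) : ℝ) = (k : ℝ) + 1 := by push_cast; rfl
  rw [norm_mul, norm_pow, norm_neg, norm_one, one_pow, one_mul, ← ofReal_neg, norm_cpow_real]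
  rw [hk1] at hb ⊢
  obtain ⟨z, hz⟩ : ∃ z : ℂ, z = (Real.cosh (κ * ((k : ℝ) + 1)) : ℂ) +
      t * (Real.sinh (κ * ((k : ℝ) + 1)) : ℂ) := ⟨_, rfl⟩
  rw [← hz] at hb ⊢
  obtain ⟨a, ha⟩ : ∃ a, a = (1 + ‖t‖ ^ 2) * κ ^ 2 := ⟨_, rfl⟩
  rw [← ha] at hb ⊢
  have ha0 : 0 ≤ a := by rw [ha]; positivity
  obtain ⟨Y, hY⟩ : ∃ Y, Y = a * ((k : ℝ) + 1) ^ 2 := ⟨_, rfl⟩
  have hY0 : 0 ≤ Y := by rw [hY]; positivity
  rw [← hY] at hb
  have h1 : e * a / 4 * ((k : ℝ) + 1) ^ 2 = e / 4 * Y := by rw [hY]; ring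
  rw [h1, Real.rpow_neg (norm_nonneg _)]
  apply inv_anti₀ (by positivity)
  have h2 : 1 + e / 4 * Y ≤ (1 + Y) ^ (e / 4) :=
    one_add_mul_self_le_rpow_one_add (by linarith) (by linarith)
  have h3 : (1 + Y) ^ (e / 4) ≤ (‖z‖ ^ 2) ^ (e / 4) :=
    Real.rpow_le_rpow (by linarith) hb (by linarith)
  have h4 : ((‖z‖ ^ 2) ^ (e / 4)) ^ 2 = ‖z‖ ^ e := by
    rw [← Real.rpow_natCast ((‖z‖ ^ 2) ^ (e / 4)) 2, ← Real.rpow_mul (by positivity),
      ← Real.rpow_natCast ‖z‖ 2, ← Real.rpow_mul (norm_nonneg _)]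
    congr 1
    push_cast
    ring
  rw [← h4]
  exact pow_le_pow_left₀ (by positivity) (h2.trans h3) 2

private theorem fb_kap (hκ : 0 < κ) : Real.sinh κ * (1 - Real.sinh κ ^ 2 / 6) ≤ κ := by
  have hd : ∀ u : ℝ, HasDerivAt (fun v : ℝ => v - Real.sinh v + Real.sinh v ^ 3 / 6)
      (1 - Real.cosh u + 3 * Real.sinh u ^ 2 * Real.cosh u / 6) u := by
    intro u
    have h1 := (hasDerivAt_id u).sub (Real.hasDerivAt_sinh u)
    have h2 := ((Real.hasDerivAt_sinh u).pow 3).div_const 6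
    refine (h1.add h2).congr_deriv ?_
    norm_num
  have hm : MonotoneOn (fun v : ℝ => v - Real.sinh v + Real.sinh v ^ 3 / 6) (Ici 0) := by
    refine monotoneOn_of_deriv_nonneg (convex_Ici 0)
      (fun u _ => (hd u).continuousAt.continuousWithinAt)
      (fun u _ => (hd u).differentiableAt.differentiableWithinAt) (fun u _ => ?_)
    rw [(hd u).deriv]
    have h1 := Real.one_le_cosh u
    have h2 := Real.cosh_sq u
    have h3 : 1 - Real.cosh u + 3 * Real.sinh u ^ 2 * Real.cosh u / 6 =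
        (Real.cosh u - 1) * ((Real.cosh u - 1) * (Real.cosh u + 2) / 2) := by
      have : Real.sinh u ^ 2 = Real.cosh u ^ 2 - 1 := by linarith
      rw [this]; ring
    rw [h3]
    have h4 : 0 ≤ Real.cosh u - 1 := by linarith
    have h5 : 0 ≤ Real.cosh u + 2 := by linarith
    positivity
  have h := hm (mem_Ici.2 le_rfl) (mem_Ici.2 hκ.le) hκ.le
  simp only [Real.sinh_zero] at h
  nlinarith [h]

/-- `e² κ² (1 + |t|²) ≥ (1 - K²/3) S` -/
private theorem fb_S (he : 0 < e) (hκ : 0 < κ) (hK : Real.sinh κ ≤ 1 / 10) (t : ℂ) :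
    299 / 300 * Sz e κ t ≤ e ^ 2 * ((1 + ‖t‖ ^ 2) * κ ^ 2) := by
  have hK0 : 0 < Real.sinh κ := Real.sinh_pos_iff.2 hκ
  have h1 := fb_kap hκ
  obtain ⟨K, hKd⟩ : ∃ K, K = Real.sinh κ := ⟨_, rfl⟩
  rw [← hKd] at hK hK0 h1
  have h2 : 0 ≤ 1 - K ^ 2 / 6 := by nlinarith
  have h3 : (K * (1 - K ^ 2 / 6)) ^ 2 ≤ κ ^ 2 := pow_le_pow_left₀ (by positivity) h1 2
  have h4 : 299 / 300 * K ^ 2 ≤ κ ^ 2 := by
    have h5 : 299 / 300 ≤ (1 - K ^ 2 / 6) ^ 2 := by nlinarith [sq_nonneg (K ^ 2)]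
    calc 299 / 300 * K ^ 2 ≤ (1 - K ^ 2 / 6) ^ 2 * K ^ 2 := by gcongr
      _ = (K * (1 - K ^ 2 / 6)) ^ 2 := by ring
      _ ≤ _ := h3
  have h5 : Sz e κ t ≤ e ^ 2 * ((1 + ‖t‖ ^ 2) * K ^ 2) := by
    unfold Sz yz bet
    rw [← hKd, ← Complex.normSq_eq_norm_sq, Complex.normSq_apply]
    nlinarith [sq_nonneg (e * K * t.re)]
  calc 299 / 300 * Sz e κ t ≤ 299 / 300 * (e ^ 2 * ((1 + ‖t‖ ^ 2) * K ^ 2)) := by gcongr
    _ = e ^ 2 * ((1 + ‖t‖ ^ 2) * (299 / 300 * K ^ 2)) := by ring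
    _ ≤ _ := by gcongr

private theorem fb_log_two : Real.log 2 ≤ 7 / 10 := by
  have := Real.log_two_lt_d9
  linarith

/-- `‖log f 1‖ ≤ 7/10` -/
private theorem fb_log_one (he : 0 < e) (hκ : 0 < κ) : ‖log (fT e κ 1)‖ ≤ 7 / 10 := by
  rw [fT_one he hκ]
  have h1 : 0 < Real.exp (-(e * κ)) := Real.exp_pos _
  have h2 : Real.exp (-(e * κ)) < 1 := by
    rw [Real.exp_lt_one_iff]
    have := mul_pos he hκ
    linarith
  have h3 : (0:ℝ) < 1 / (1 + Real.exp (-(e * κ))) := by positivity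
  rw [← Complex.ofReal_log h3.le, Complex.norm_real, Real.norm_eq_abs, one_div, Real.log_inv, abs_neg]
  have h4 : 0 ≤ Real.log (1 + Real.exp (-(e * κ))) := Real.log_nonneg (by linarith)
  rw [abs_of_nonneg h4]
  exact (Real.log_le_log (by linarith) (by linarith)).trans fb_log_two

private theorem fb_arg_le {z : ℂ} (hz : 1 ≤ z.re) : |arg z| ≤ |z.im| := by
  have hz0 : 0 < z.re := by linarith
  have h1 := abs_lt.1 (abs_arg_lt_pi_div_two_iff.2 (Or.inl hz0))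
  have h2 := Complex.tan_arg z
  rcases le_total 0 (arg z) with h | h
  · rw [abs_of_nonneg h]
    have h3 := Real.le_tan h h1.2
    rw [h2] at h3
    refine h3.trans ?_
    calc z.im / z.re ≤ |z.im / z.re| := le_abs_self _
      _ = |z.im| / z.re := by rw [abs_div, abs_of_pos hz0]
      _ ≤ |z.im| := div_le_self (abs_nonneg _) hz
  · rw [abs_of_nonpos h]
    have h3 := Real.le_tan (x := -arg z) (by linarith) (by linarith)
    rw [Real.tan_neg, h2] at h3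
    refine h3.trans ?_
    calc -(z.im / z.re) ≤ |z.im / z.re| := neg_le_abs _
      _ = |z.im| / z.re := by rw [abs_div, abs_of_pos hz0]
      _ ≤ |z.im| := div_le_self (abs_nonneg _) hz

/-! ### the statements -/

theorem f_sup (he : 8 ≤ e) (hκ : 0 < κ) (hK : Real.sinh κ ≤ 1 / 10) {t : ℂ} (ht : 0 < t.re) :
    ‖fT e κ t‖ ≤ 1 + 8 / 5 * √(e / Sz e κ t) := by

  have he0 : 0 < e := by linarith
  have hK0 : 0 < Real.sinh κ := Real.sinh_pos_iff.2 hκ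
  obtain ⟨T, hT⟩ : ∃ T : ℕ → ℂ, T = fun k : ℕ =>
      (-1 : ℂ) ^ k * ((Real.cosh (κ * k) : ℂ) + t * (Real.sinh (κ * k) : ℂ)) ^ (-(e : ℂ)) := ⟨_, rfl⟩
  have hS : Summable (fun k => ‖T k‖) := by
    refine Summable.of_nonneg_of_le (fun _ => norm_nonneg _) (fun k => ?_) (summable_bound he0 hκ)
    rw [hT]
    exact norm_term_le he0 hκ ht.le k
  have hf : fT e κ t = ∑' k, T k := by rw [hT]; rfl
  obtain ⟨c, hc⟩ : ∃ c, c = e * ((1 + ‖t‖ ^ 2) * κ ^ 2) / 4 := ⟨_, rfl⟩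
  have hc0 : 0 < c := by rw [hc]; positivity
  have h0 : ‖T 0‖ = 1 := by rw [hT]; simp
  have h1 : ∀ k : ℕ, ‖T (k + 1)‖ ≤ ((1 + c * ((k : ℝ) + 1) ^ 2) ^ 2)⁻¹ := by
    intro k
    rw [hT, hc]
    exact fb_term he hκ ht k
  have h2 : ∑' k, ‖T (k + 1)‖ ≤ Real.pi / (4 * √c) := by
    apply Real.tsum_le_of_sum_range_le (fun _ => norm_nonneg _)
    intro N
    exact (Finset.sum_le_sum fun k _ => h1 k).trans (fb_sum hc0 N)
  have h3 : ‖fT e κ t‖ ≤ 1 + Real.pi / (4 * √c) := by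
    rw [hf]
    refine (norm_tsum_le_tsum_norm hS).trans ?_
    rw [hS.tsum_eq_zero_add, h0]
    linarith
  refine h3.trans ?_
  have hSp : 0 < Sz e κ t := by
    unfold Sz
    have : 0 < bet e κ := mul_pos he0 hK0
    positivity
  have hfS := fb_S he0 hκ hK t
  have h4 : Real.pi / (4 * √c) ≤ 8 / 5 * √(e / Sz e κ t) := by
    have hsc : 0 < √c := Real.sqrt_pos.2 hc0
    have hse : 0 < √(e / Sz e κ t) := Real.sqrt_pos.2 (by positivity)
    rw [div_le_iff₀ (by positivity)]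
    have h5 : √(e / Sz e κ t) * √c = √(e / Sz e κ t * c) := by
      rw [Real.sqrt_mul (by positivity)]
    have h6 : 8 / 5 * √(e / Sz e κ t) * (4 * √c) = 32 / 5 * √(e / Sz e κ t * c) := by
      rw [← h5]; ring
    rw [h6]
    have h7 : 299 / 1200 ≤ e / Sz e κ t * c := by
      rw [hc, div_mul_eq_mul_div, le_div_iff₀ hSp]
      nlinarith
    have h8 : (499 / 1000 : ℝ) ≤ √(e / Sz e κ t * c) := by
      apply Real.le_sqrt_of_sq_le
      refine le_trans ?_ h7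
      norm_num
    have h9 := Real.pi_lt_d2
    linarith
  linarith

/-- `e arg Q ≤ |y|` -/
theorem e_arg_le (he : 0 < e) (hκ : 0 < κ) {t : ℂ} (ht : 0 < t.re) :
    |e * arg (Qk κ t)| ≤ |yz e κ t| := by

  have hK0 : 0 < Real.sinh κ := Real.sinh_pos_iff.2 hκ
  obtain ⟨h1, h2⟩ := Qk_parts κ t
  have h3 : 1 ≤ (Qk κ t).re := by
    rw [h1]
    have := Real.one_le_cosh κ
    have := mul_pos hK0 ht
    linarith
  have h4 := fb_arg_le h3
  rw [h2] at h4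
  rw [abs_mul, abs_of_pos he]
  unfold yz bet
  calc e * |arg (Qk κ t)| ≤ e * |Real.sinh κ * t.im| := mul_le_mul_of_nonneg_left h4 he.le
    _ = |e * Real.sinh κ * t.im| := by
      rw [mul_assoc, abs_mul e, abs_of_pos he]

theorem f_one (he : 0 < e) (hκ : 0 < κ) {t : ℂ} (ht : 0 < t.re)
    (hy : |yz e κ t| ≤ Real.pi / 3) : ‖fT e κ t‖ ≤ 1 := by

  have key : ∀ s : ℂ, 0 < s.re → 0 ≤ s.im → |yz e κ s| ≤ Real.pi / 3 → ‖fT e κ s‖ ≤ 1 := by
    intro s hs hi hys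
    have hP := Real.pi_pos
    have hs' := shf_re hκ hs.le
    have hi' := shf_im hκ hs hi
    have hφ := e_arg_le he hκ hs
    obtain ⟨a0, a1⟩ := arg_Qk_shf hκ hs hi
    have hQ0 : 0 ≤ arg (Qk κ s) := a0.trans a1
    have hφ0 : 0 ≤ e * arg (Qk κ s) := mul_nonneg he.le hQ0
    rw [abs_of_nonneg hφ0] at hφ
    have h1 : e * arg (Qk κ (shf κ s)) ≤ e * arg (Qk κ s) := mul_le_mul_of_nonneg_left a1 he.le
    obtain ⟨b0, b1⟩ := arg_fT he hκ hs' hi' (by linarith)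
    have hQn := Qk_ne hκ hs
    have hfn := fT_norm_pos he hκ hs'
    -- 1 - f = R exp (i δ)
    obtain ⟨δ, hδ⟩ : ∃ δ, δ = arg (fT e κ (shf κ s)) - e * arg (Qk κ s) := ⟨_, rfl⟩
    obtain ⟨R, hR⟩ : ∃ R, R = Real.exp (-(e * Real.log ‖Qk κ s‖)) * ‖fT e κ (shf κ s)‖ := ⟨_, rfl⟩
    have hR0 : 0 < R := by rw [hR]; positivity
    have hg : 1 - fT e κ s = (R : ℂ) * exp ((δ : ℂ) * I) := by
      have h3 : log (Qk κ s) = (Real.log ‖Qk κ s‖ : ℂ) + (arg (Qk κ s) : ℂ) * I := rfl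
      rw [one_sub_fT he hκ hs, cpow_def_of_ne_zero hQn, h3]
      obtain ⟨F, hF⟩ : ∃ F, F = fT e κ (shf κ s) := ⟨_, rfl⟩
      rw [← hF] at hR hδ ⊢
      have h4 : exp (((Real.log ‖Qk κ s‖ : ℂ) + (arg (Qk κ s) : ℂ) * I) * -(e : ℂ)) * F =
          exp (((Real.log ‖Qk κ s‖ : ℂ) + (arg (Qk κ s) : ℂ) * I) * -(e : ℂ)) *
            ((‖F‖ : ℂ) * exp ((arg F : ℂ) * I)) := by
        rw [Complex.norm_mul_exp_arg_mul_I]
      rw [h4, hR, hδ]
      push_cast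
      have h5 : exp (((Real.log ‖Qk κ s‖ : ℂ) + (arg (Qk κ s) : ℂ) * I) * -(e : ℂ)) *
            ((‖F‖ : ℂ) * exp ((arg F : ℂ) * I)) =
          (‖F‖ : ℂ) * exp (((Real.log ‖Qk κ s‖ : ℂ) + (arg (Qk κ s) : ℂ) * I) * -(e : ℂ) +
            (arg F : ℂ) * I) := by
        rw [exp_add]; ring
      have h6 : exp (-((e : ℂ) * (Real.log ‖Qk κ s‖ : ℂ))) * (‖F‖ : ℂ) *
            exp (((arg F : ℂ) - (e : ℂ) * (arg (Qk κ s) : ℂ)) * I) =
          (‖F‖ : ℂ) * exp (-((e : ℂ) * (Real.log ‖Qk κ s‖ : ℂ)) +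
            ((arg F : ℂ) - (e : ℂ) * (arg (Qk κ s) : ℂ)) * I) := by
        rw [exp_add]; ring
      rw [h5, h6]
      congr 2
      ring
    have hδ1 : |δ| ≤ Real.pi / 3 := by
      rw [abs_le, hδ]
      constructor <;> linarith
    have hcos : 1 / 2 ≤ Real.cos δ := by
      rw [← Real.cos_abs, ← Real.cos_pi_div_three]
      exact Real.cos_le_cos_of_nonneg_of_le_pi (abs_nonneg _) (by linarith) hδ1
    have hre : (1 - fT e κ s).re = R * Real.cos δ := by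
      rw [hg, re_ofReal_mul, exp_ofReal_mul_I_re]
    have him : (1 - fT e κ s).im = R * Real.sin δ := by
      rw [hg, im_ofReal_mul, exp_ofReal_mul_I_im]
    have hh := half_lt_re_fT he hκ hs
    rw [sub_re, one_re] at hre
    rw [sub_im, one_im] at him
    have hR1 : R < 1 := by
      by_contra hc
      push Not at hc
      have : 1 * (1 / 2) ≤ R * Real.cos δ := mul_le_mul hc hcos (by norm_num) hR0.le
      linarith
    have hsc := Real.sin_sq_add_cos_sq δ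
    have h5 : ‖fT e κ s‖ ^ 2 ≤ 1 := by
      rw [← Complex.normSq_eq_norm_sq, Complex.normSq_apply]
      have e1 : (fT e κ s).re = 1 - R * Real.cos δ := by linarith
      have e2 : (fT e κ s).im = -(R * Real.sin δ) := by linarith
      rw [e1, e2]
      have e3 : (1 - R * Real.cos δ) * (1 - R * Real.cos δ) +
          -(R * Real.sin δ) * -(R * Real.sin δ) =
          1 - 2 * R * Real.cos δ + R ^ 2 * (Real.sin δ ^ 2 + Real.cos δ ^ 2) := by ring
      rw [e3, hsc]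
      nlinarith
    have h6 := norm_nonneg (fT e κ s)
    nlinarith
  rcases le_total 0 t.im with hi | hi
  · exact key t ht hi hy
  · have h1 : ‖fT e κ (conj t)‖ = ‖fT e κ t‖ := by
      rw [fT_conj hκ ht, Complex.norm_conj]
    rw [← h1]
    apply key (conj t)
    · rw [conj_re]; exact ht
    · rw [conj_im]; linarith
    · unfold yz at hy ⊢
      rw [conj_im, mul_neg, abs_neg]
      exact hy

/-- `|log f s - log f 1| ≤ -log (1 - u) + log 2` -/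
theorem lf_u (he : 0 < e) (hκ : 0 < κ) {s : ℂ} (hs : 0 < s.re) {u : ℝ} (hu : ‖qq e κ s‖ ≤ u)
    (hu1 : u < 1) :
    ‖log (fT e κ s) - log (fT e κ 1)‖ ≤ -Real.log (1 - u) + 7 / 10 := by

  have hfs := fT_ne he hκ hs
  have hsl := fT_slit he hκ hs
  have h1 : 1 + qq e κ s = (fT e κ s)⁻¹ := by
    unfold qq
    field_simp
    ring
  have h2 : log (fT e κ s) = -log (1 + qq e κ s) := by
    rw [h1, Complex.log_inv _ (Complex.slitPlane_arg_ne_pi hsl), neg_neg]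
  have h3 : ‖log (fT e κ s)‖ ≤ -Real.log (1 - u) := by
    rw [h2, norm_neg]
    refine (Pool.Agent.helper63.FF.norm_log_le (hu.trans_lt hu1)).trans ?_
    have := Real.log_le_log (by linarith : 0 < 1 - u) (by linarith : 1 - u ≤ 1 - ‖qq e κ s‖)
    linarith
  refine (norm_sub_le _ _).trans ?_
  exact add_le_add h3 (fb_log_one he hκ)

/-- `|log f s - log f 1| ≤ log (1 + 8√e/5) + π/2 + log 2` -/
theorem lf_e (he : 200 ≤ e) (hκ : 0 < κ) (hK : Real.sinh κ ≤ 1 / 10) {s : ℂ} (hs : 0 < s.re) :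
    ‖log (fT e κ s) - log (fT e κ 1)‖ ≤ 9 / 2 + √e / 12 := by

  have he0 : 0 < e := by linarith
  have hK0 : 0 < Real.sinh κ := Real.sinh_pos_iff.2 hκ
  have hse : 14 ≤ √e := by
    apply Real.le_sqrt_of_sq_le
    linarith
  have hP := Real.pi_pos
  have hup : ‖fT e κ s‖ ≤ 1 + 8 / 5 * √e := by
    by_cases hy : |yz e κ s| ≤ Real.pi / 3
    · have := f_one he0 hκ hs hy
      linarith
    · push Not at hy
      refine (f_sup (by linarith) hκ hK hs).trans ?_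
      have h1 : 1 ≤ Sz e κ s := by
        unfold Sz
        have h2 : 1 ≤ |yz e κ s| := by
          have := Real.pi_gt_three
          linarith
        have h3 : 1 ≤ yz e κ s ^ 2 := by
          rw [← sq_abs]
          exact one_le_pow₀ h2
        nlinarith [sq_nonneg (bet e κ)]
      have h2 : √(e / Sz e κ s) ≤ √e := Real.sqrt_le_sqrt (div_le_self he0.le h1)
      linarith
  have hlo := half_lt_re_fT he0 hκ hs
  have hlo2 : 1 / 2 < ‖fT e κ s‖ := hlo.trans_le (re_le_norm _)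
  have hf0 : 0 < ‖fT e κ s‖ := by linarith
  have hv0 : 0 < 1 + 8 / 5 * √e := by positivity
  have hlg : Real.log (1 + 8 / 5 * √e) ≤ 2 + 1 / 19 + √e / 12 := by
    have h1 : 0 < (1 + 8 / 5 * √e) / (96 / 5) := by positivity
    have h2 := Real.log_le_sub_one_of_pos h1
    rw [Real.log_div hv0.ne' (by norm_num)] at h2
    have h3 : Real.log (96 / 5) ≤ 3 := by
      rw [Real.log_le_iff_le_exp (by norm_num)]
      have h4 := Real.exp_one_gt_d9
      have h5 : Real.exp 3 = Real.exp 1 ^ 3 := by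
        rw [← Real.exp_nat_mul]; norm_num
      rw [h5]
      have h6 : (2.7182818283 : ℝ) ^ 3 ≤ Real.exp 1 ^ 3 := pow_le_pow_left₀ (by norm_num) h4.le 3
      refine le_trans ?_ h6
      norm_num
    have h7 : (1 + 8 / 5 * √e) / (96 / 5) = 5 / 96 + √e / 12 := by ring
    rw [h7] at h2
    linarith
  have hre : |Real.log ‖fT e κ s‖| ≤ 2 + 1 / 19 + √e / 12 := by
    rw [abs_le]
    constructor
    · have h1 := Real.log_le_log (by norm_num : (0:ℝ) < 1 / 2) hlo2.le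
      rw [one_div, Real.log_inv] at h1
      have := fb_log_two
      linarith
    · exact (Real.log_le_log hf0 hup).trans hlg
  have him : |arg (fT e κ s)| ≤ Real.pi / 2 :=
    abs_arg_le_pi_div_two_iff.2 (by linarith)
  have h1 : ‖log (fT e κ s)‖ ≤ |Real.log ‖fT e κ s‖| + |arg (fT e κ s)| := by
    have := Complex.norm_le_abs_re_add_abs_im (log (fT e κ s))
    rwa [log_re, log_im] at this
  refine (norm_sub_le _ _).trans ?_
  have h2 := fb_log_one he0 hκ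
  have h3 := Real.pi_lt_d2
  linarith

end Pool.Agent.helper31.EQB
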