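import Pool.Agent.helper31.EQB.Zc
import Pool.Agent.helper31.EQB.RigL

/-!
# EQB-12: the first link, algebra

`T0 = tanh (κp)`, `K T0 = i v/e`, i.e. `T0 = i v/β`; `V = (β² + v²)/e`, `h = 2/(c+1)`, `k2 = 2 sinh (κ/2)`, `k2² = 2 (c-1) = h K²`,
`k2² (1 - T0²) = h V/e`.
`Ck = 2 cosh (eκ/2) k2^(-e)`, so with `LA = log (2 cosh (eκ/2))`:
`1/aF = k2 exp (-(LA + lg s + log (1-χ))/e) = k2 α` (`C = e log Q(s)`, `g = f(shf s)(1-χ)`, `lg s = -e log Q(s) + log f(shf s)`),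
`rho (Fc s χ) = k2 exp (-(LA + log f(s) + log (1 + qq χ))/e) = k2 γ` (`log (f (1 + qq χ)) = log f + log (1 + qq χ)`: both have
positive real part, see `mul_cpow_re`).
`rdc = 1 + (1/a + 2 T1)/a = 1 + (k2 α)² + 2 k2 α T1`, `T1 = ρ (1-T0²) + T0 (1 - ρ² (1-T0²))^(1/2)`, `ρ² (1-T0²) = G`:
with `A = √h α i v/e`, `G = h γ² V/e`, `N = h (V/e)(α+γ)²`, `D = (1-G)^(1/2)`:
`rdc = (1+A)² + 2A(D-1) + N - G`, `1 - ρ²(1-T0²) = 1 - G`, `radH = (D - √h γ i v/e)²` (`D² = 1 - G`).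

BOUNDS for `|LG|, |LF| ≤ a e`, `a ≤ 1/18`, `v ≤ e/60`, `V ≤ e/100`, `K ≤ 1/10` (`e^a ≤ 1.0572`, `e^(2a) ≤ 1.1176`, `h ≤ 1`):
`|A| ≤ 1.0572 v/e ≤ .01762`, `|G| ≤ 1.1176 V/e ≤ .01118`, `|D-1| ≤ .5029 |G| ≤ .562 V/e`, `|N-G| = h (V/e)|α²+2αγ| ≤ 3.353 V/e`,
`μ = 2A(D-1)+N-G`: `|μ| ≤ 3.373 V/e ≤ .03373`; `Q = rdc^(1/2)`, `Q - (1+A) = μ/(Q+1+A)`, `|Q+1+A| ≥ 1.947`
(first `|Q - (1+A)| ≤ |μ|/1.9`).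
`Q - 1 - A - (N-G)/2 = A(D-1) + μ (1/(Q+1+A) - 1/2)`, bounded by
`.594 v V/e² + 3.373 (V/e)(2·1.0572 v/e + 1.7324 V/e)/3.894 ≤ (V/e)(5/2 v/e + 8/5 V/e)`.
`β nxc = e (Q - c)`, `e (c-1) = e h K²/2 = h β K/2`.

DIFFERENCE: `Q'² - Q² = (A'-A)(2D'+A'+A) + 2A(D'-D) + (N'-G') - (N-G)`, `|A'-A| ≤ (v/e) e^a ΔG/e`,
`|2D'+A'+A| ≤ 1.03 |Q'+Q|`, `|Q'+Q| ≥ 1.93`, `|G'-G| ≤ (V/e) e^(2a) 2ΔF/e`, `|D'-D| ≤ |G'-G|/1.98`,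
`|(N'-G')-(N-G)| ≤ (V/e) e^(2a) (4ΔG + 2ΔF)/e`.
(`|exp x - exp y| ≤ |x-y| e^(max Re)`.)
-/

namespace Pool.Agent.helper31.EQB

open Complex ComplexConjugate Set Filter Topology
open Pool.Agent.helper31.EQ.Y Pool.Agent.helper31.EQ.R
open Pool.Agent.helper12.EQL Pool.Agent.helper12.RP Pool.Agent.helper12.FF Pool.Agent.helper12.RS

noncomputable section

/-- `log (2 cosh (eκ/2))` -/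
def LA (e κ : ℝ) : ℝ := Real.log (2 * Real.cosh (e * κ / 2))

/-- `h = 2/(c+1)` -/
def hh (κ : ℝ) : ℝ := 2 / (Real.cosh κ + 1)

/-- `k2 = 2 sinh (κ/2)` -/
def k2 (κ : ℝ) : ℝ := 2 * Real.sinh (κ / 2)

/-- exponent of `a` -/
def LG (e κ : ℝ) (s χ : ℂ) : ℂ := (LA e κ : ℂ) + (lg e κ s + log (1 - χ))

/-- exponent of `ρ` -/
def LF (e κ : ℝ) (s χ : ℂ) : ℂ := (LA e κ : ℂ) + (log (fT e κ s) + log (1 + qq e κ s * χ))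

/-- `α` -/
def al (e κ : ℝ) (s χ : ℂ) : ℂ := exp (-(LG e κ s χ / e))

/-- `γ` -/
def ga (e κ : ℝ) (s χ : ℂ) : ℂ := exp (-(LF e κ s χ / e))

/-- `V = (β² + v²)/e` -/
def Vv (e κ v : ℝ) : ℝ := (bet e κ ^ 2 + v ^ 2) / e

/-- `A` -/
def AA (e κ v : ℝ) (s χ : ℂ) : ℂ := ((√(hh κ) : ℝ) : ℂ) * al e κ s χ * (((v / e : ℝ) : ℂ) * I)

/-- `G` -/
def GG (e κ v : ℝ) (s χ : ℂ) : ℂ := ((hh κ * (Vv e κ v / e) : ℝ) : ℂ) * ga e κ s χ ^ 2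

/-- `N` -/
def NN (e κ v : ℝ) (s χ : ℂ) : ℂ :=
  ((hh κ * (Vv e κ v / e) : ℝ) : ℂ) * (al e κ s χ + ga e κ s χ) ^ 2

/-- `D` -/
def DD (e κ v : ℝ) (s χ : ℂ) : ℂ := (1 - GG e κ v s χ) ^ ((1 / 2 : ℝ) : ℂ)

/-- the main part of `β nxc` -/
def z1 (e κ v : ℝ) (s χ : ℂ) : ℂ :=
  ((√(hh κ) * v : ℝ) : ℂ) * al e κ s χ * I - ((hh κ * (bet e κ * Real.sinh κ) / 2 : ℝ) : ℂ) +
    ((hh κ * Vv e κ v / 2 : ℝ) : ℂ) * (al e κ s χ ^ 2 + 2 * al e κ s χ * ga e κ s χ)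

end

variable {e κ : ℝ}

/-- size hypotheses -/
structure FH (e κ v a : ℝ) (s χ : ℂ) : Prop where
  he : 200 ≤ e
  hκ : 0 < κ
  hK : Real.sinh κ ≤ 1 / 10
  v0 : 0 ≤ v
  v1 : v ≤ e / 60
  V1 : Vv e κ v ≤ e / 100
  a0 : 0 ≤ a
  a1 : a ≤ 1 / 18
  hs : 0 < s.re
  hχ : ‖χ‖ < 1
  hG : ‖LG e κ s χ‖ ≤ a * e
  hF : ‖LF e κ s χ‖ ≤ a * e

end Pool.Agent.helper31.EQB
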