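import Pool.Agent.helper31.EQB.FirstA

/-!
# EQB-12: algebra of the first link (see the header of FirstA)
-/

namespace Pool.Agent.helper31.EQB

open Complex ComplexConjugate Set Filter Topology
open Pool.Agent.helper31.EQ.Y Pool.Agent.helper31.EQ.R
open Pool.Agent.helper12.EQL Pool.Agent.helper12.RP Pool.Agent.helper12.FF Pool.Agent.helper12.RS

variable {e κ : ℝ}

variable {v : ℝ} {p s χ : ℂ}

/-- `k2² = h K²`, `0 < h ≤ 1`, `1 - K²/4 ≤ h` -/
theorem hh_facts (hκ : 0 < κ) : k2 κ ^ 2 = hh κ * Real.sinh κ ^ 2 ∧ 0 < hh κ ∧ hh κ ≤ 1 ∧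
    1 - Real.sinh κ ^ 2 / 4 ≤ hh κ ∧ 0 < k2 κ ∧ k2 κ = √(hh κ) * Real.sinh κ ∧
    Real.cosh κ - 1 = hh κ * Real.sinh κ ^ 2 / 2 := by
  have hc : 1 ≤ Real.cosh κ := Real.one_le_cosh κ
  have hS : 0 < Real.sinh κ := Real.sinh_pos_iff.2 hκ
  have hS2 : 0 < Real.sinh (κ / 2) := Real.sinh_pos_iff.2 (by linarith)
  have hsq : Real.sinh κ ^ 2 = (Real.cosh κ - 1) * (Real.cosh κ + 1) := by
    have := Real.cosh_sq κ
    nlinarith
  have hhalf : Real.cosh κ = 2 * Real.sinh (κ / 2) ^ 2 + 1 := by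
    have h1 := Real.cosh_two_mul (κ / 2)
    have h2 := Real.cosh_sq (κ / 2)
    rw [show 2 * (κ / 2) = κ by ring] at h1
    linarith
  have h7 : Real.cosh κ - 1 = hh κ * Real.sinh κ ^ 2 / 2 := by
    unfold hh
    rw [hsq]
    field_simp
  have h0 : 0 < hh κ := by unfold hh; positivity
  have hk : 0 < k2 κ := by unfold k2; positivity
  have h1 : k2 κ ^ 2 = hh κ * Real.sinh κ ^ 2 := by
    have : k2 κ ^ 2 = 2 * (Real.cosh κ - 1) := by
      unfold k2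
      rw [hhalf]
      ring
    rw [this, h7]
    ring
  refine ⟨h1, h0, ?_, ?_, hk, ?_, h7⟩
  · unfold hh
    rw [div_le_one (by linarith)]
    linarith
  · unfold hh
    rw [le_div_iff₀ (by linarith), hsq]
    nlinarith [mul_nonneg (by linarith : 0 ≤ Real.cosh κ - 1) (sq_nonneg (Real.cosh κ - 1)),
      mul_nonneg (by linarith : 0 ≤ Real.cosh κ - 1) (by linarith : 0 ≤ Real.cosh κ - 1)]
  · have h2 : (√(hh κ) * Real.sinh κ) ^ 2 = k2 κ ^ 2 := by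
      rw [mul_pow, Real.sq_sqrt h0.le, h1]
    have h3 : 0 ≤ √(hh κ) * Real.sinh κ := by positivity
    exact ((sq_eq_sq₀ h3 hk.le).1 h2).symm

/-- `log (Ck) = LA - e log k2` -/
theorem log_Ck_LA (hκ : 0 < κ) : Real.log (Ck e κ) = LA e κ - e * Real.log (k2 κ) := by
  have hk := (hh_facts hκ).2.2.2.2.1
  have hc := Real.cosh_pos (e * κ / 2)
  have h1 : Ck e κ = 2 * Real.cosh (e * κ / 2) * k2 κ ^ (-e) := rfl
  rw [h1, Real.log_mul (by positivity) (Real.rpow_pos_of_pos hk _).ne', Real.log_rpow hk]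
  unfold LA
  ring

theorem inv_aF (he : 0 < e) (hκ : 0 < κ) {s χ : ℂ} (hs : 0 < s.re) (hχ : ‖χ‖ < 1) :
    1 / aF e κ ((e : ℂ) * log (Qk κ s)) (fT e κ (shf κ s) * (1 - χ)) =
      (k2 κ : ℂ) * al e κ s χ := by
  have hk := (hh_facts hκ).2.2.2.2.1
  have hC := Ck_pos' (e := e) hκ
  have he0 : (e : ℂ) ≠ 0 := by exact_mod_cast he.ne'
  have h1 := half_lt_re_fT he hκ (shf_re hκ hs.le)
  have hg0 : fT e κ (shf κ s) * (1 - χ) ≠ 0 := slitPlane_ne_zero (g_slit he hκ hs hχ)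
  have hlg : log (fT e κ (shf κ s) * (1 - χ)) = log (fT e κ (shf κ s)) + log (1 - χ) :=
    log_mul_re (by linarith) (node_F he hκ hs hχ).2
  have e1 : ((Ck e κ ^ (1 / e) : ℝ) : ℂ) =
      exp (((LA e κ : ℝ) : ℂ) / e - (Real.log (k2 κ) : ℂ)) := by
    rw [Real.rpow_def_of_pos hC, log_Ck_LA hκ, Complex.ofReal_exp]
    congr 1
    push_cast
    field_simp
  have e2 : (k2 κ : ℂ) = exp ((Real.log (k2 κ) : ℝ) : ℂ) := by
    rw [← Complex.ofReal_exp, Real.exp_log hk]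
  unfold aF al LG lg
  rw [e1, e2, cpow_def_of_ne_zero hg0, hlg, ← exp_add, ← exp_add, ← exp_add, one_div, ← exp_neg]
  congr 1
  push_cast
  field_simp
  ring

theorem rho_Fc (he : 0 < e) (hκ : 0 < κ) {s χ : ℂ} (hs : 0 < s.re) (hχ : ‖χ‖ < 1) :
    rho e κ (Fc e κ s χ) = (k2 κ : ℂ) * ga e κ s χ := by
  have hk := (hh_facts hκ).2.2.2.2.1
  have hC := Ck_pos' (e := e) hκ
  have he0 : (e : ℂ) ≠ 0 := by exact_mod_cast he.ne'
  have h1 := half_lt_re_fT he hκ hs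
  have hF : log (Fc e κ s χ) = log (fT e κ s) + log (1 + qq e κ s * χ) :=
    log_mul_re (by linarith) (node_F he hκ hs hχ).1
  have hF0 : Fc e κ s χ ≠ 0 :=
    slitPlane_ne_zero (mul_slit_re (by linarith) (node_F he hκ hs hχ).1)
  have hC0 : (Ck e κ : ℂ) ≠ 0 := by exact_mod_cast hC.ne'
  have e2 : (k2 κ : ℂ) = exp ((Real.log (k2 κ) : ℝ) : ℂ) := by
    rw [← Complex.ofReal_exp, Real.exp_log hk]
  unfold rho ga LF
  rw [cpow_def_of_ne_zero (mul_ne_zero hC0 hF0), log_real_mul hC hF0, log_Ck_LA hκ, hF, e2,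
    ← exp_add]
  congr 1
  push_cast
  field_simp
  ring

end Pool.Agent.helper31.EQB
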