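import Pool.Agent.helper31.EQB.FirstA1

/-!
# EQB-12: algebra of the first link, `first_alg` (see the header of FirstA)
-/

namespace Pool.Agent.helper31.EQB

open Complex ComplexConjugate Set Filter Topology
open Pool.Agent.helper31.EQ.Y Pool.Agent.helper31.EQ.R
open Pool.Agent.helper12.EQL Pool.Agent.helper12.RP Pool.Agent.helper12.FF Pool.Agent.helper12.RS

variable {e κ : ℝ}

variable {v : ℝ} {p s χ : ℂ}

/-- radicands; `hT`: `T0 = i v/β` -/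
theorem first_alg (he : 0 < e) (hκ : 0 < κ) (hs : 0 < s.re) (hχ : ‖χ‖ < 1)
    (hT : tanh (κ * p) = ((v / bet e κ : ℝ) : ℂ) * I) (hG : ‖GG e κ v s χ‖ < 1) :
    rdc e κ p s χ = (1 + AA e κ v s χ) ^ 2 +
      (2 * AA e κ v s χ * (DD e κ v s χ - 1) + NN e κ v s χ - GG e κ v s χ) ∧
    1 - rho e κ (Fc e κ s χ) ^ 2 * (1 - tanh (κ * p) ^ 2) = 1 - GG e κ v s χ ∧
    radH e κ p (Fc e κ s χ) = (DD e κ v s χ -
      ((√(hh κ) : ℝ) : ℂ) * ga e κ s χ * (((v / e : ℝ) : ℂ) * I)) ^ 2 ∧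
    (bet e κ : ℂ) * nxc e κ p s χ =
      (e : ℂ) * (rdc e κ p s χ ^ ((1 / 2 : ℝ) : ℂ) - (Real.cosh κ : ℂ)) := by
  have hK : 0 < Real.sinh κ := Real.sinh_pos_iff.2 hκ
  have hβ : 0 < bet e κ := mul_pos he hK
  obtain ⟨-, hh0, -, -, -, hk2, -⟩ := hh_facts hκ
  have hinv := inv_aF he hκ hs hχ
  have hrho := rho_Fc he hκ hs hχ
  have hfF : fF ((e : ℂ) * log (Qk κ s)) (fT e κ (shf κ s) * (1 - χ)) = Fc e κ s χ :=
    fF_node he hκ hs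
  -- real facts
  obtain ⟨q, hq⟩ : ∃ q : ℝ, q = √(hh κ) := ⟨_, rfl⟩
  have hq2 : q ^ 2 = hh κ := by rw [hq]; exact Real.sq_sqrt hh0.le
  obtain ⟨K, hKd⟩ : ∃ K : ℝ, K = Real.sinh κ := ⟨_, rfl⟩
  obtain ⟨ν, hν⟩ : ∃ ν : ℝ, ν = v / e := ⟨_, rfl⟩
  have hVe : Vv e κ v / e = K ^ 2 + ν ^ 2 := by
    unfold Vv bet
    rw [hν, ← hKd]
    field_simp
  have hβK : bet e κ = e * K := by rw [hKd]; rfl
  have hTν : ((v / bet e κ : ℝ) : ℂ) * (K : ℂ) = (ν : ℂ) := by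
    rw [← ofReal_mul, hν, hβK]
    congr 1
    have : K ≠ 0 := by rw [hKd]; exact hK.ne'
    field_simp
  obtain ⟨T, hTd⟩ : ∃ T : ℂ, T = ((v / bet e κ : ℝ) : ℂ) := ⟨_, rfl⟩
  rw [← hTd] at hT hTν
  obtain ⟨α, hα⟩ : ∃ α, α = al e κ s χ := ⟨_, rfl⟩
  obtain ⟨γ, hγ⟩ : ∃ γ, γ = ga e κ s χ := ⟨_, rfl⟩
  have hA : AA e κ v s χ = (q : ℂ) * α * ((ν : ℂ) * I) := by
    unfold AA; rw [hq, hα, hν]
  have hGG : GG e κ v s χ = (q : ℂ) ^ 2 * ((K : ℂ) ^ 2 + (ν : ℂ) ^ 2) * γ ^ 2 := by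
    unfold GG
    rw [hVe, ← hq2, hγ]
    push_cast
    ring
  have hNN : NN e κ v s χ = (q : ℂ) ^ 2 * ((K : ℂ) ^ 2 + (ν : ℂ) ^ 2) * (α + γ) ^ 2 := by
    unfold NN
    rw [hVe, ← hq2, hγ, hα]
    push_cast
    ring
  rw [← hα] at hinv
  rw [← hγ] at hrho
  have hk2c : (k2 κ : ℂ) = (q : ℂ) * (K : ℂ) := by
    rw [hk2, ← hq, ← hKd]; push_cast; rfl
  rw [hk2c] at hinv hrho
  have hI : I ^ 2 = -1 := I_sq
  have hw : rho e κ (Fc e κ s χ) ^ 2 * (1 - tanh (κ * p) ^ 2) = GG e κ v s χ := by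
    rw [hrho, hT, hGG]
    have h1 : (T * (K : ℂ)) ^ 2 = (ν : ℂ) ^ 2 := by rw [hTν]
    linear_combination (q : ℂ) ^ 2 * γ ^ 2 * h1 - (q : ℂ) ^ 2 * γ ^ 2 * (T * (K : ℂ)) ^ 2 * hI
  obtain ⟨D, hD⟩ : ∃ D, D = DD e κ v s χ := ⟨_, rfl⟩
  have hD2 : D ^ 2 = 1 - GG e κ v s χ := by
    rw [hD]
    unfold DD
    apply half_sq
    intro h0
    have h1 : GG e κ v s χ = 1 := by linear_combination -h0
    rw [h1, norm_one] at hG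
    exact lt_irrefl _ hG
  have hT1 : T1 (tanh (κ * p)) (rho e κ (Fc e κ s χ)) =
      rho e κ (Fc e κ s χ) * (1 - tanh (κ * p) ^ 2) + tanh (κ * p) * D := by
    unfold T1
    rw [hw, hD]
    rfl
  refine ⟨?_, ?_, ?_, ?_⟩
  · have h1 : rdc e κ p s χ = 1 + (1 / aF e κ ((e : ℂ) * log (Qk κ s))
        (fT e κ (shf κ s) * (1 - χ)) + 2 * T1 (tanh (κ * p)) (rho e κ (Fc e κ s χ))) *
        (1 / aF e κ ((e : ℂ) * log (Qk κ s)) (fT e κ (shf κ s) * (1 - χ))) := by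
      unfold rdc rad0F
      rw [hfF]
      ring
    rw [h1, hinv, hT1, hrho, hT, ← hD, hA, hNN, hGG]
    have h2 : (T * (K : ℂ)) ^ 2 = (ν : ℂ) ^ 2 := by rw [hTν]
    have h3 : T * (K : ℂ) * D = (ν : ℂ) * D := by rw [hTν]
    linear_combination 2 * (q : ℂ) ^ 2 * α * γ * h2 + 2 * (q : ℂ) * α * I * h3 -
      2 * (q : ℂ) ^ 2 * α * γ * (T * (K : ℂ)) ^ 2 * hI - (q : ℂ) ^ 2 * α ^ 2 * (ν : ℂ) ^ 2 * hI
  · rw [hw]
  · have h1 : radH e κ p (Fc e κ s χ) = 1 - 2 * rho e κ (Fc e κ s χ) *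
        T1 (tanh (κ * p)) (rho e κ (Fc e κ s χ)) + rho e κ (Fc e κ s χ) ^ 2 := rfl
    rw [h1, hT1]
    have h2 : 2 * rho e κ (Fc e κ s χ) * (rho e κ (Fc e κ s χ) * (1 - tanh (κ * p) ^ 2) +
        tanh (κ * p) * D) = 2 * GG e κ v s χ + 2 * rho e κ (Fc e κ s χ) * tanh (κ * p) * D := by
      rw [← hw]; ring
    rw [h2, ← hD, ← hq, ← hγ, ← hν, hrho, hT]
    have h3 : T * (K : ℂ) * D = (ν : ℂ) * D := by rw [hTν]
    rw [hGG] at hD2 ⊢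
    linear_combination -hD2 - 2 * (q : ℂ) * γ * I * h3 - (q : ℂ) ^ 2 * γ ^ 2 * (ν : ℂ) ^ 2 * hI
  · unfold nxc step0F
    have h1 : rad0F e κ p ((e : ℂ) * log (Qk κ s)) (fT e κ (shf κ s) * (1 - χ)) =
      rdc e κ p s χ := rfl
    rw [h1]
    have h2 : (Real.sinh κ : ℂ) ≠ 0 := by exact_mod_cast hK.ne'
    unfold bet
    rw [ofReal_mul, mul_assoc, mul_div_cancel₀ _ h2]

end Pool.Agent.helper31.EQB
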