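import Pool.Agent.helper31.EQB.FirstA1b

/-!
# EQB-12: position of the first link (see the header of FirstA)
-/

namespace Pool.Agent.helper31.EQB

open Complex ComplexConjugate Set Filter Topology
open Pool.Agent.helper31.EQ.Y Pool.Agent.helper31.EQ.R
open Pool.Agent.helper12.EQL Pool.Agent.helper12.RP Pool.Agent.helper12.FF Pool.Agent.helper12.RS

variable {e κ : ℝ}

variable {v : ℝ} {p s χ : ℂ}

theorem fh_sq {x : ℂ} (_hx : x ≠ 0) : (x ^ ((1 / 2 : ℝ) : ℂ)) ^ 2 = x := by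
  rw [← Complex.cpow_nat_mul]
  have : ((2 : ℕ) : ℂ) * ((1 / 2 : ℝ) : ℂ) = 1 := by push_cast; norm_num
  rw [this, Complex.cpow_one]

theorem fh_re {x : ℂ} (hx : x ≠ 0) : 0 ≤ (x ^ ((1 / 2 : ℝ) : ℂ)).re := by
  rw [cpow_def_of_ne_zero hx, Complex.exp_re]
  have h1 : (log x * ((1 / 2 : ℝ) : ℂ)).im = arg x / 2 := by
    rw [mul_comm, Complex.im_ofReal_mul, Complex.log_im]; ring
  rw [h1]
  refine mul_nonneg (Real.exp_pos _).le (Real.cos_nonneg_of_mem_Icc ⟨?_, ?_⟩)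
  · have := Complex.neg_pi_lt_arg x; linarith
  · have := Complex.arg_le_pi x; linarith

theorem fh_exp {a : ℝ} (ha : a ≤ 1 / 18) : Real.exp a ≤ 1.0572 := by
  refine (Real.exp_le_exp.2 ha).trans ?_
  have h1 : Real.exp (1 / 18) ^ 18 = Real.exp 1 := by
    rw [← Real.exp_nat_mul]; norm_num
  by_contra h
  push Not at h
  have h2 : (1.0572 : ℝ) ^ 18 ≤ Real.exp (1 / 18) ^ 18 := by gcongr
  have h3 := Real.exp_one_lt_d9
  rw [h1] at h2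
  norm_num at h2
  linarith

theorem fh_norm {e a : ℝ} (he : 0 < e) {L : ℂ} (hL : ‖L‖ ≤ a * e) (ha : a ≤ 1 / 18) :
    ‖exp (-(L / e))‖ ≤ 1.0572 := by
  rw [Complex.norm_exp]
  refine le_trans (Real.exp_le_exp.2 ?_) (fh_exp ha)
  refine (Complex.re_le_norm _).trans ?_
  rw [norm_neg, norm_div, Complex.norm_real, Real.norm_of_nonneg he.le, div_le_iff₀ he]
  exact hL

/-- abstract estimate of `D` -/
theorem fh_D {G D : ℂ} {g : ℝ} (hD : D ^ 2 = 1 - G) (hre : 0 ≤ D.re) (hG : ‖G‖ ≤ g)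
    (hg : g ≤ 0.0112) : ‖D - 1‖ ≤ 0.5029 * g ∧ ‖D - 1‖ ≤ 0.0057 := by
  have h1 : (D - 1) * (D + 1) = -G := by linear_combination hD
  have h2 : ‖D - 1‖ * ‖D + 1‖ = ‖G‖ := by rw [← norm_mul, h1, norm_neg]
  have h3 : 1 ≤ ‖D + 1‖ := by
    have := Complex.re_le_norm (D + 1)
    rw [Complex.add_re, Complex.one_re] at this
    linarith
  have h0 : 0 ≤ ‖D - 1‖ := norm_nonneg _
  have h4 : ‖D - 1‖ ≤ g := by nlinarith
  have h5 : 2 - ‖D - 1‖ ≤ ‖D + 1‖ := by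
    have : (2 : ℂ) = (D + 1) - (D - 1) := by ring
    have h6 : ‖(2 : ℂ)‖ ≤ ‖D + 1‖ + ‖D - 1‖ := by
      rw [this]; exact norm_sub_le _ _
    rw [Complex.norm_ofNat] at h6
    linarith
  have h7 : 1.9888 ≤ ‖D + 1‖ := by linarith
  have h8 : ‖D - 1‖ * 1.9888 ≤ g := by nlinarith
  constructor <;> linarith

/-- abstract estimate of the first link -/
theorem fh_main {A G D N Q : ℂ} {x y : ℝ} (hx0 : 0 ≤ x) (hx : x ≤ 1 / 60) (hy0 : 0 ≤ y)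
    (hy : y ≤ 1 / 100) (hA : ‖A‖ ≤ 1.0572 * x) (hG : ‖G‖ ≤ 1.1177 * y)
    (hD : D ^ 2 = 1 - G) (hDre : 0 ≤ D.re) (hN : ‖N - G‖ ≤ 3.3531 * y)
    (hQ : Q ^ 2 = (1 + A) ^ 2 + (2 * A * (D - 1) + N - G)) (hQre : 0 ≤ Q.re) :
    ‖Q - 1 - A - (N - G) / 2‖ ≤ y * (8 / 5 * y + 5 / 2 * x) := by
  have hd := (fh_D hD hDre hG (by linarith)).1
  obtain ⟨μ, hμd⟩ : ∃ μ, μ = 2 * A * (D - 1) + N - G := ⟨_, rfl⟩
  obtain ⟨W, hW⟩ : ∃ W, W = Q + (1 + A) := ⟨_, rfl⟩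
  obtain ⟨R, hR⟩ : ∃ R, R = Q - (1 + A) := ⟨_, rfl⟩
  have hAD : ‖A * (D - 1)‖ ≤ 0.59425 * (x * y) := by
    rw [norm_mul]
    calc ‖A‖ * ‖D - 1‖ ≤ (1.0572 * x) * (0.5029 * (1.1177 * y)) :=
          mul_le_mul hA hd (norm_nonneg _) (by positivity)
      _ ≤ 0.59425 * (x * y) := by nlinarith [mul_nonneg hx0 hy0]
  have hxy : x * y ≤ 1 / 60 * y := mul_le_mul_of_nonneg_right hx hy0
  have hμ : ‖μ‖ ≤ 3.373 * y := by
    have h1 : μ = 2 * (A * (D - 1)) + (N - G) := by rw [hμd]; ring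
    rw [h1]
    refine (norm_add_le _ _).trans ?_
    rw [norm_mul, Complex.norm_ofNat]
    linarith
  have hRW : R * W = μ := by
    rw [hR, hW, hμd]; linear_combination hQ
  have hRWn : ‖R‖ * ‖W‖ = ‖μ‖ := by rw [← norm_mul, hRW]
  have hr0 : 0 ≤ ‖R‖ := norm_nonneg _
  have hA2 : ‖A‖ ≤ 0.01762 := by linarith
  have hW1 : 0.98 ≤ ‖W‖ := by
    have h1 := Complex.re_le_norm W
    have h2 := (abs_le.1 (Complex.abs_re_le_norm A)).1
    have h3 : W.re = Q.re + (1 + A.re) := by rw [hW]; simp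
    linarith
  have h1A : 0.98238 ≤ ‖1 + A‖ := by
    have h1 := Complex.re_le_norm (1 + A)
    have h2 := (abs_le.1 (Complex.abs_re_le_norm A)).1
    rw [Complex.add_re, Complex.one_re] at h1
    linarith
  have hW2 : 1.96476 - ‖R‖ ≤ ‖W‖ := by
    have h1 : 2 * (1 + A) = W - R := by rw [hW, hR]; ring
    have h2 : ‖2 * (1 + A)‖ ≤ ‖W‖ + ‖R‖ := by rw [h1]; exact norm_sub_le _ _
    rw [norm_mul, Complex.norm_ofNat] at h2
    linarith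
  have hr1 : ‖R‖ ≤ 0.035 := by nlinarith
  have hW3 : 1.929 ≤ ‖W‖ := by linarith
  have hr2 : ‖R‖ ≤ 0.0176 := by nlinarith
  have hW4 : 1.947 ≤ ‖W‖ := by linarith
  have hr3 : ‖R‖ ≤ 1.7325 * y := by nlinarith
  have hW2' : ‖2 - W‖ ≤ 2.1144 * x + 1.7325 * y := by
    have h1 : 2 - W = -(2 * A + R) := by rw [hW, hR]; ring
    rw [h1, norm_neg]
    refine (norm_add_le _ _).trans ?_
    rw [norm_mul, Complex.norm_ofNat]
    linarith
  obtain ⟨E, hE⟩ : ∃ E, E = Q - 1 - A - (N - G) / 2 := ⟨_, rfl⟩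
  have hid : 2 * W * E = μ * (2 - W) + 2 * W * (A * (D - 1)) := by
    rw [hE, hμd, hW]; linear_combination 2 * hQ
  have hn : 2 * ‖W‖ * ‖E‖ ≤ 3.373 * y * (2.1144 * x + 1.7325 * y) +
      2 * ‖W‖ * (0.59425 * (x * y)) := by
    have h1 : 2 * ‖W‖ * ‖E‖ = ‖2 * W * E‖ := by
      rw [norm_mul, norm_mul, Complex.norm_ofNat]
    rw [h1, hid]
    refine (norm_add_le _ _).trans ?_
    rw [norm_mul μ, norm_mul (2 * W), norm_mul 2 W, Complex.norm_ofNat]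
    have h2 : ‖μ‖ * ‖2 - W‖ ≤ 3.373 * y * (2.1144 * x + 1.7325 * y) :=
      mul_le_mul hμ hW2' (norm_nonneg _) (by positivity)
    have h3 : 2 * ‖W‖ * ‖A * (D - 1)‖ ≤ 2 * ‖W‖ * (0.59425 * (x * y)) :=
      mul_le_mul_of_nonneg_left hAD (by positivity)
    linarith
  rw [← hE]
  have hW0 : 0 < ‖W‖ := by linarith
  have hxy0 : 0 ≤ x * y := mul_nonneg hx0 hy0
  have hk : 0 ≤ 8 / 5 * (y * y) + 1.90575 * (x * y) := by positivity
  have h5 : 1.947 * (8 / 5 * (y * y) + 1.90575 * (x * y)) ≤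
      ‖W‖ * (8 / 5 * (y * y) + 1.90575 * (x * y)) := mul_le_mul_of_nonneg_right hW4 hk
  have h6 : 2 * ‖W‖ * ‖E‖ ≤ 2 * ‖W‖ * (y * (8 / 5 * y + 5 / 2 * x)) := by
    nlinarith [mul_nonneg hy0 hy0]
  exact le_of_mul_le_mul_left h6 (by positivity)

theorem fh_slit {z : ℂ} (h : ‖z - 1‖ < 1) : z ∈ slitPlane := by
  left
  have h1 := (abs_le.1 (Complex.abs_re_le_norm (z - 1))).1
  rw [Complex.sub_re, Complex.one_re] at h1
  linarith

/-- the sizes -/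
theorem fh_sizes {a : ℝ} (H : FH e κ v a s χ) :
    0 ≤ v / e ∧ v / e ≤ 1 / 60 ∧ 0 ≤ Vv e κ v / e ∧ Vv e κ v / e ≤ 1 / 100 ∧
    ‖al e κ s χ‖ ≤ 1.0572 ∧ ‖ga e κ s χ‖ ≤ 1.0572 ∧
    ‖AA e κ v s χ‖ ≤ 1.0572 * (v / e) ∧ ‖GG e κ v s χ‖ ≤ 1.1177 * (Vv e κ v / e) ∧
    ‖NN e κ v s χ - GG e κ v s χ‖ ≤ 3.3531 * (Vv e κ v / e) := by
  have he : 0 < e := by linarith [H.he]
  obtain ⟨_, hh0, hh1, _, _, _, _⟩ := hh_facts H.hκ
  have hal := fh_norm he H.hG H.a1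
  have hga := fh_norm he H.hF H.a1
  have hx0 : 0 ≤ v / e := div_nonneg H.v0 he.le
  have hx1 : v / e ≤ 1 / 60 := by
    rw [div_le_iff₀ he]; linarith [H.v1]
  have hV0 : 0 ≤ Vv e κ v := by unfold Vv; positivity
  have hy0 : 0 ≤ Vv e κ v / e := div_nonneg hV0 he.le
  have hy1 : Vv e κ v / e ≤ 1 / 100 := by
    rw [div_le_iff₀ he]; linarith [H.V1]
  have hal' : ‖al e κ s χ‖ ≤ 1.0572 := hal
  have hga' : ‖ga e κ s χ‖ ≤ 1.0572 := hga
  have hs1 : √(hh κ) ≤ 1 := Real.sqrt_le_one.2 hh1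
  refine ⟨hx0, hx1, hy0, hy1, hal', hga', ?_, ?_, ?_⟩
  · unfold AA
    rw [norm_mul, norm_mul, norm_mul, Complex.norm_I, mul_one, Complex.norm_real,
      Complex.norm_real, Real.norm_of_nonneg (Real.sqrt_nonneg _), Real.norm_of_nonneg hx0]
    refine mul_le_mul_of_nonneg_right ?_ hx0
    calc √(hh κ) * ‖al e κ s χ‖ ≤ 1 * 1.0572 :=
          mul_le_mul hs1 hal' (norm_nonneg _) (by norm_num)
      _ = 1.0572 := by norm_num
  · unfold GG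
    rw [norm_mul, norm_pow, Complex.norm_real, Real.norm_of_nonneg (mul_nonneg hh0.le hy0)]
    have h1 : ‖ga e κ s χ‖ ^ 2 ≤ 1.0572 ^ 2 := by gcongr
    have h2 : hh κ * (Vv e κ v / e) ≤ 1 * (Vv e κ v / e) := mul_le_mul_of_nonneg_right hh1 hy0
    calc hh κ * (Vv e κ v / e) * ‖ga e κ s χ‖ ^ 2 ≤ (1 * (Vv e κ v / e)) * 1.0572 ^ 2 :=
          mul_le_mul h2 h1 (by positivity) (by positivity)
      _ ≤ _ := by nlinarith
  · have h0 : NN e κ v s χ - GG e κ v s χ = ((hh κ * (Vv e κ v / e) : ℝ) : ℂ) *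
        (al e κ s χ * (al e κ s χ + 2 * ga e κ s χ)) := by
      unfold NN GG; ring
    rw [h0, norm_mul, Complex.norm_real, Real.norm_of_nonneg (mul_nonneg hh0.le hy0), norm_mul]
    have h1 : ‖al e κ s χ + 2 * ga e κ s χ‖ ≤ 3 * 1.0572 := by
      refine (norm_add_le _ _).trans ?_
      rw [norm_mul, Complex.norm_ofNat]
      linarith
    have h2 : hh κ * (Vv e κ v / e) ≤ 1 * (Vv e κ v / e) := mul_le_mul_of_nonneg_right hh1 hy0
    have h3 : ‖al e κ s χ‖ * ‖al e κ s χ + 2 * ga e κ s χ‖ ≤ 1.0572 * (3 * 1.0572) :=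
      mul_le_mul hal' h1 (norm_nonneg _) (by norm_num)
    calc hh κ * (Vv e κ v / e) * (‖al e κ s χ‖ * ‖al e κ s χ + 2 * ga e κ s χ‖) ≤
        (1 * (Vv e κ v / e)) * (1.0572 * (3 * 1.0572)) :=
          mul_le_mul h2 h3 (by positivity) (by positivity)
      _ ≤ _ := by nlinarith

theorem fh_Dfacts {a : ℝ} (H : FH e κ v a s χ) : ‖GG e κ v s χ‖ ≤ 0.0112 ∧
    DD e κ v s χ ^ 2 = 1 - GG e κ v s χ ∧ 0 ≤ (DD e κ v s χ).re ∧
    ‖DD e κ v s χ - 1‖ ≤ 0.0057 := by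
  obtain ⟨_, _, hy0, hy1, _, _, _, hG, _⟩ := fh_sizes H
  have hG1 : ‖GG e κ v s χ‖ ≤ 0.0112 := by linarith
  have hne : 1 - GG e κ v s χ ≠ 0 := by
    intro h
    have h1 : GG e κ v s χ = 1 := (sub_eq_zero.1 h).symm
    rw [h1, norm_one] at hG1
    norm_num at hG1
  have h2 := fh_sq hne
  have h3 := fh_re hne
  exact ⟨hG1, h2, h3, (fh_D h2 h3 hG1 le_rfl).2⟩

/-- radicands near `1` -/
theorem first_rad {a : ℝ} (H : FH e κ v a s χ) (hT : tanh (κ * p) = ((v / bet e κ : ℝ) : ℂ) * I) :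
    1 - rho e κ (Fc e κ s χ) ^ 2 * (1 - tanh (κ * p) ^ 2) ∈ slitPlane ∧
    rdc e κ p s χ ∈ slitPlane ∧ radH e κ p (Fc e κ s χ) ∈ slitPlane := by
  have he : 0 < e := by linarith [H.he]
  obtain ⟨hG1, hD2, hDre, hD1⟩ := fh_Dfacts H
  obtain ⟨hx0, hx1, hy0, hy1, hal, hga, hA, hG, hN⟩ := fh_sizes H
  obtain ⟨_, hh0, hh1, _, _, _, _⟩ := hh_facts H.hκ
  have hs1 : √(hh κ) ≤ 1 := Real.sqrt_le_one.2 hh1
  obtain ⟨e1, e2, e3, _⟩ := first_alg he H.hκ H.hs H.hχ hT (by linarith)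
  have hA2 : ‖AA e κ v s χ‖ ≤ 0.01762 := by linarith
  refine ⟨?_, ?_, ?_⟩
  · rw [e2]
    apply fh_slit
    have : 1 - GG e κ v s χ - 1 = -GG e κ v s χ := by ring
    rw [this, norm_neg]
    linarith
  · rw [e1]
    apply fh_slit
    have h1 : (1 + AA e κ v s χ) ^ 2 +
        (2 * AA e κ v s χ * (DD e κ v s χ - 1) + NN e κ v s χ - GG e κ v s χ) - 1 =
        2 * AA e κ v s χ + AA e κ v s χ * AA e κ v s χ +
          2 * AA e κ v s χ * (DD e κ v s χ - 1) + (NN e κ v s χ - GG e κ v s χ) := by ring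
    rw [h1]
    have h2 : ‖2 * AA e κ v s χ‖ ≤ 0.03524 := by
      rw [norm_mul, Complex.norm_ofNat]; linarith
    have h3 : ‖AA e κ v s χ * AA e κ v s χ‖ ≤ 0.01762 * 0.01762 := by
      rw [norm_mul]; exact mul_le_mul hA2 hA2 (norm_nonneg _) (by norm_num)
    have h4 : ‖2 * AA e κ v s χ * (DD e κ v s χ - 1)‖ ≤ 0.03524 * 0.0057 := by
      rw [norm_mul]; exact mul_le_mul h2 hD1 (norm_nonneg _) (by norm_num)
    have h5 := norm_add₃_le (a := 2 * AA e κ v s χ + AA e κ v s χ * AA e κ v s χ)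
      (b := 2 * AA e κ v s χ * (DD e κ v s χ - 1)) (c := NN e κ v s χ - GG e κ v s χ)
    have h6 := norm_add_le (2 * AA e κ v s χ) (AA e κ v s χ * AA e κ v s χ)
    linarith
  · rw [e3]
    apply fh_slit
    obtain ⟨w, hw⟩ : ∃ w, w = DD e κ v s χ -
      ((√(hh κ) : ℝ) : ℂ) * ga e κ s χ * (((v / e : ℝ) : ℂ) * I) := ⟨_, rfl⟩
    rw [← hw]
    have h1 : ‖((√(hh κ) : ℝ) : ℂ) * ga e κ s χ * (((v / e : ℝ) : ℂ) * I)‖ ≤ 0.01762 := by
      rw [norm_mul, norm_mul, norm_mul, Complex.norm_I, mul_one, Complex.norm_real,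
        Complex.norm_real, Real.norm_of_nonneg (Real.sqrt_nonneg _), Real.norm_of_nonneg hx0]
      have h2 : √(hh κ) * ‖ga e κ s χ‖ ≤ 1 * 1.0572 :=
        mul_le_mul hs1 hga (norm_nonneg _) (by norm_num)
      have h3 : √(hh κ) * ‖ga e κ s χ‖ * (v / e) ≤ (1 * 1.0572) * (1 / 60) :=
        mul_le_mul h2 hx1 hx0 (by norm_num)
      norm_num at h3
      linarith
    have h2 : ‖w - 1‖ ≤ 0.0234 := by
      have h3 : w - 1 = (DD e κ v s χ - 1) -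
        ((√(hh κ) : ℝ) : ℂ) * ga e κ s χ * (((v / e : ℝ) : ℂ) * I) := by rw [hw]; ring
      rw [h3]
      refine (norm_sub_le _ _).trans ?_
      linarith
    have h3 : w ^ 2 - 1 = (w - 1) * ((w - 1) + 2) := by ring
    rw [h3, norm_mul]
    have h4 : ‖(w - 1) + 2‖ ≤ 2.0234 := by
      refine (norm_add_le _ _).trans ?_
      rw [Complex.norm_ofNat]
      linarith
    calc ‖w - 1‖ * ‖(w - 1) + 2‖ ≤ 0.0234 * 2.0234 :=
          mul_le_mul h2 h4 (norm_nonneg _) (by norm_num)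
      _ < 1 := by norm_num

/-- **Position of the first link.** -/
theorem first_near {a : ℝ} (H : FH e κ v a s χ)
    (hT : tanh (κ * p) = ((v / bet e κ : ℝ) : ℂ) * I) :
    ‖(bet e κ : ℂ) * nxc e κ p s χ - z1 e κ v s χ‖ ≤
      Vv e κ v * (8 / 5 * Vv e κ v + 5 / 2 * v) / e := by
  have he : 0 < e := by linarith [H.he]
  obtain ⟨hG1, hD2, hDre, hD1⟩ := fh_Dfacts H
  obtain ⟨hx0, hx1, hy0, hy1, hal, hga, hA, hG, hN⟩ := fh_sizes H
  obtain ⟨_, hh0, hh1, _, _, _, hc⟩ := hh_facts H.hκ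
  obtain ⟨e1, e2, e3, e4⟩ := first_alg he H.hκ H.hs H.hχ hT (by linarith)
  have hsl := (first_rad H hT).2.1
  have hne : rdc e κ p s χ ≠ 0 := slitPlane_ne_zero hsl
  obtain ⟨Q, hQ⟩ : ∃ Q, Q = rdc e κ p s χ ^ ((1 / 2 : ℝ) : ℂ) := ⟨_, rfl⟩
  have hQ2 : Q ^ 2 = (1 + AA e κ v s χ) ^ 2 +
      (2 * AA e κ v s χ * (DD e κ v s χ - 1) + NN e κ v s χ - GG e κ v s χ) := by
    rw [hQ, fh_sq hne, e1]
  have hQre : 0 ≤ Q.re := by rw [hQ]; exact fh_re hne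
  have hm := fh_main hx0 hx1 hy0 hy1 hA hG hD2 hDre hN hQ2 hQre
  have hcc : (Real.cosh κ : ℂ) = 1 + ((hh κ * Real.sinh κ ^ 2 / 2 : ℝ) : ℂ) := by
    rw [← hc]; push_cast; ring
  have hec : (e : ℂ) ≠ 0 := by exact_mod_cast he.ne'
  have hkey : (bet e κ : ℂ) * nxc e κ p s χ - z1 e κ v s χ =
      (e : ℂ) * (Q - 1 - AA e κ v s χ - (NN e κ v s χ - GG e κ v s χ) / 2) := by
    rw [e4, ← hQ, hcc]
    unfold z1 AA NN GG bet
    push_cast
    field_simp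
    ring
  rw [hkey, norm_mul, Complex.norm_real, Real.norm_of_nonneg he.le]
  refine (mul_le_mul_of_nonneg_left hm he.le).trans (le_of_eq ?_)
  field_simp

end Pool.Agent.helper31.EQB
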