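import Pool.Agent.helper31.EQB.FirstA2

/-!
# EQB-12: displacement of the first link (see the header of FirstA)
-/

namespace Pool.Agent.helper31.EQB

open Complex ComplexConjugate Set Filter Topology
open Pool.Agent.helper31.EQ.Y Pool.Agent.helper31.EQ.R
open Pool.Agent.helper12.EQL Pool.Agent.helper12.RP Pool.Agent.helper12.FF Pool.Agent.helper12.RS

variable {e κ : ℝ}

variable {v : ℝ} {p s χ : ℂ}

/-- exponential is Lipschitz with constant `exp a` on the disc of radius `a` -/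
theorem fd_exp {e a d : ℝ} (he : 0 < e) {L L' : ℂ} (hL : ‖L‖ ≤ a * e) (hL' : ‖L'‖ ≤ a * e)
    (hd : ‖L' - L‖ ≤ d) : ‖exp (-(L' / e)) - exp (-(L / e))‖ ≤ Real.exp a * (d / e) := by
  have hec : ‖(e : ℂ)‖ = e := by rw [Complex.norm_real, Real.norm_of_nonneg he.le]
  have hm : ∀ M : ℂ, ‖M‖ ≤ a * e → -(M / e) ∈ Metric.closedBall (0 : ℂ) a := by
    intro M hM
    rw [mem_closedBall_zero_iff, norm_neg, norm_div, hec, div_le_iff₀ he]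
    exact hM
  have hb : ∀ z ∈ Metric.closedBall (0 : ℂ) a, ‖exp z‖ ≤ Real.exp a := by
    intro z hz
    rw [mem_closedBall_zero_iff] at hz
    rw [Complex.norm_exp]
    exact Real.exp_le_exp.2 ((Complex.re_le_norm z).trans hz)
  have h := (convex_closedBall (0 : ℂ) a).norm_image_sub_le_of_norm_hasDerivWithin_le
    (f := exp) (f' := exp) (fun z _ => (Complex.hasDerivAt_exp z).hasDerivWithinAt) hb
    (hm L hL) (hm L' hL')
  refine h.trans (mul_le_mul_of_nonneg_left ?_ (Real.exp_pos a).le)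
  have h1 : -(L' / (e : ℂ)) - -(L / (e : ℂ)) = -((L' - L) / e) := by ring
  rw [h1, norm_neg, norm_div, hec]
  gcongr

/-- `Q` is near `1 + A` -/
theorem fd_R {A G D N Q : ℂ} {x y : ℝ} (hx0 : 0 ≤ x) (hx : x ≤ 1 / 60) (hy0 : 0 ≤ y)
    (hy : y ≤ 1 / 100) (hA : ‖A‖ ≤ 1.0572 * x) (hG : ‖G‖ ≤ 1.1177 * y)
    (hD : D ^ 2 = 1 - G) (hDre : 0 ≤ D.re) (hN : ‖N - G‖ ≤ 3.3531 * y)
    (hQ : Q ^ 2 = (1 + A) ^ 2 + (2 * A * (D - 1) + N - G)) (hQre : 0 ≤ Q.re) :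
    ‖Q - (1 + A)‖ ≤ 0.0176 := by
  have hd := (fh_D hD hDre hG (by linarith)).1
  obtain ⟨μ, hμd⟩ : ∃ μ, μ = 2 * A * (D - 1) + N - G := ⟨_, rfl⟩
  obtain ⟨W, hW⟩ : ∃ W, W = Q + (1 + A) := ⟨_, rfl⟩
  obtain ⟨R, hR⟩ : ∃ R, R = Q - (1 + A) := ⟨_, rfl⟩
  have hAD : ‖A * (D - 1)‖ ≤ 0.59425 * (x * y) := by
    rw [norm_mul]
    calc ‖A‖ * ‖D - 1‖ ≤ (1.0572 * x) * (0.5029 * (1.1177 * y)) :=
          mul_le_mul hA hd (norm_nonneg _) (by positivity)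
      _ ≤ 0.59425 * (x * y) := by nlinarith [mul_nonneg hx0 hy0]
  have hxy : x * y ≤ 1 / 60 * y := mul_le_mul_of_nonneg_right hx hy0
  have hμ : ‖μ‖ ≤ 3.373 * y := by
    have h1 : μ = 2 * (A * (D - 1)) + (N - G) := by rw [hμd]; ring
    rw [h1]
    refine (norm_add_le _ _).trans ?_
    rw [norm_mul, Complex.norm_ofNat]
    linarith
  have hRW : R * W = μ := by
    rw [hR, hW, hμd]; linear_combination hQ
  have hRWn : ‖R‖ * ‖W‖ = ‖μ‖ := by rw [← norm_mul, hRW]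
  have hr0 : 0 ≤ ‖R‖ := norm_nonneg _
  have hA2 : ‖A‖ ≤ 0.01762 := by linarith
  have hW1 : 0.98 ≤ ‖W‖ := by
    have h1 := Complex.re_le_norm W
    have h2 := (abs_le.1 (Complex.abs_re_le_norm A)).1
    have h3 : W.re = Q.re + (1 + A.re) := by rw [hW]; simp
    linarith
  have hW2 : 1.96476 - ‖R‖ ≤ ‖W‖ := by
    have h1A : 0.98238 ≤ ‖1 + A‖ := by
      have h1 := Complex.re_le_norm (1 + A)
      have h2 := (abs_le.1 (Complex.abs_re_le_norm A)).1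
      rw [Complex.add_re, Complex.one_re] at h1
      linarith
    have h1 : 2 * (1 + A) = W - R := by rw [hW, hR]; ring
    have h2 : ‖2 * (1 + A)‖ ≤ ‖W‖ + ‖R‖ := by rw [h1]; exact norm_sub_le _ _
    rw [norm_mul, Complex.norm_ofNat] at h2
    linarith
  have hr1 : ‖R‖ ≤ 0.035 := by nlinarith
  have hW3 : 1.929 ≤ ‖W‖ := by linarith
  have hr2 : ‖R‖ ≤ 0.0176 := by nlinarith
  rw [← hR]
  exact hr2

/-- abstract estimate of the displacement -/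
theorem fd_main {A G D N Q A' G' D' N' Q' : ℂ} {x y E dg df : ℝ}
    (hE : 1 ≤ E) (hx0 : 0 ≤ x) (hy0 : 0 ≤ y) (hg0 : 0 ≤ dg) (hf0 : 0 ≤ df)
    (hA : ‖A‖ ≤ 0.01762) (hA' : ‖A'‖ ≤ 0.01762)
    (hD : D ^ 2 = 1 - G) (hD1 : ‖D - 1‖ ≤ 0.0057)
    (hD' : D' ^ 2 = 1 - G') (hD1' : ‖D' - 1‖ ≤ 0.0057)
    (hQ : Q ^ 2 = (1 + A) ^ 2 + (2 * A * (D - 1) + N - G))
    (hR : ‖Q - (1 + A)‖ ≤ 0.0176)
    (hQ' : Q' ^ 2 = (1 + A') ^ 2 + (2 * A' * (D' - 1) + N' - G'))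
    (hR' : ‖Q' - (1 + A')‖ ≤ 0.0176)
    (hdA : ‖A' - A‖ ≤ x * (E * dg)) (hdG : ‖G' - G‖ ≤ y * (2 * E ^ 2 * df))
    (hdN : ‖(N' - G') - (N - G)‖ ≤ y * (E ^ 2 * (4 * dg + 2 * df))) :
    ‖Q' - Q‖ ≤ 53 / 50 * E ^ 2 * (x * dg + y * (2 * dg + df)) := by
  obtain ⟨S, hS⟩ : ∃ S, S = Q' + Q := ⟨_, rfl⟩
  obtain ⟨T, hT⟩ : ∃ T, T = 2 * D' + A' + A := ⟨_, rfl⟩
  -- `S` is near `2`
  have hS2 : 1.929 ≤ ‖S‖ := by
    have h1 : (2 : ℂ) = S - (Q - (1 + A)) - (Q' - (1 + A')) - A - A' := by rw [hS]; ring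
    have h2 : ‖(2 : ℂ)‖ ≤ ‖S‖ + ‖Q - (1 + A)‖ + ‖Q' - (1 + A')‖ + ‖A‖ + ‖A'‖ := by
      calc ‖(2 : ℂ)‖ = ‖S - (Q - (1 + A)) - (Q' - (1 + A')) - A - A'‖ := by rw [← h1]
        _ ≤ ‖S - (Q - (1 + A)) - (Q' - (1 + A')) - A‖ + ‖A'‖ := norm_sub_le _ _
        _ ≤ ‖S - (Q - (1 + A)) - (Q' - (1 + A'))‖ + ‖A‖ + ‖A'‖ := by gcongr; exact norm_sub_le _ _
        _ ≤ ‖S - (Q - (1 + A))‖ + ‖Q' - (1 + A')‖ + ‖A‖ + ‖A'‖ := by gcongr; exact norm_sub_le _ _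
        _ ≤ _ := by gcongr; exact norm_sub_le _ _
    rw [Complex.norm_ofNat] at h2
    linarith
  have hTS : ‖T‖ ≤ 1.03 * ‖S‖ := by
    have h1 : T = S + 2 * (D' - 1) - (Q' - (1 + A')) - (Q - (1 + A)) := by rw [hS, hT]; ring
    have h2 : ‖T‖ ≤ ‖S‖ + 2 * ‖D' - 1‖ + ‖Q' - (1 + A')‖ + ‖Q - (1 + A)‖ := by
      rw [h1]
      calc ‖S + 2 * (D' - 1) - (Q' - (1 + A')) - (Q - (1 + A))‖
          ≤ ‖S + 2 * (D' - 1) - (Q' - (1 + A'))‖ + ‖Q - (1 + A)‖ := norm_sub_le _ _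
        _ ≤ ‖S + 2 * (D' - 1)‖ + ‖Q' - (1 + A')‖ + ‖Q - (1 + A)‖ := by gcongr; exact norm_sub_le _ _
        _ ≤ ‖S‖ + ‖2 * (D' - 1)‖ + ‖Q' - (1 + A')‖ + ‖Q - (1 + A)‖ := by
            gcongr; exact norm_add_le _ _
        _ = _ := by rw [norm_mul, Complex.norm_ofNat]
    linarith
  have hDD : ‖D' - D‖ ≤ y * (2 * E ^ 2 * df) / 1.98 := by
    have h1 : (D' - D) * (D' + D) = -(G' - G) := by linear_combination hD' - hD
    have h2 : ‖D' - D‖ * ‖D' + D‖ = ‖G' - G‖ := by rw [← norm_mul, h1, norm_neg]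
    have h3 : 1.98 ≤ ‖D' + D‖ := by
      have h4 : (2 : ℂ) = (D' + D) - (D' - 1) - (D - 1) := by ring
      have h5 : ‖(2 : ℂ)‖ ≤ ‖D' + D‖ + ‖D' - 1‖ + ‖D - 1‖ := by
        calc ‖(2 : ℂ)‖ = ‖(D' + D) - (D' - 1) - (D - 1)‖ := by rw [← h4]
          _ ≤ ‖(D' + D) - (D' - 1)‖ + ‖D - 1‖ := norm_sub_le _ _
          _ ≤ _ := by gcongr; exact norm_sub_le _ _
      rw [Complex.norm_ofNat] at h5
      linarith
    rw [le_div_iff₀ (by norm_num)]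
    have h0 := norm_nonneg (D' - D)
    nlinarith
  have hid : (Q' - Q) * S = (A' - A) * T + 2 * (A * (D' - D)) + ((N' - G') - (N - G)) := by
    rw [hS, hT]; linear_combination hQ' - hQ
  have hn : ‖Q' - Q‖ * ‖S‖ ≤ x * (E * dg) * (1.03 * ‖S‖) +
      2 * (0.01762 * (y * (2 * E ^ 2 * df) / 1.98)) + y * (E ^ 2 * (4 * dg + 2 * df)) := by
    rw [← norm_mul, hid]
    have h1 : ‖(A' - A) * T‖ ≤ x * (E * dg) * (1.03 * ‖S‖) := by
      rw [norm_mul]; exact mul_le_mul hdA hTS (norm_nonneg _) (by positivity)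
    have h2 : ‖2 * (A * (D' - D))‖ ≤ 2 * (0.01762 * (y * (2 * E ^ 2 * df) / 1.98)) := by
      rw [norm_mul, norm_mul A, Complex.norm_ofNat]
      have h3 := mul_le_mul hA hDD (norm_nonneg _) (by norm_num)
      linarith
    refine (norm_add_le _ _).trans (add_le_add ((norm_add_le _ _).trans (add_le_add h1 h2)) hdN)
  have hS0 : 0 < ‖S‖ := by linarith
  have hEE : E ≤ E ^ 2 := by nlinarith
  have hxg : x * (E * dg) ≤ E ^ 2 * (x * dg) := by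
    have : x * (E * dg) = E * (x * dg) := by ring
    rw [this]
    exact mul_le_mul_of_nonneg_right hEE (mul_nonneg hx0 hg0)
  have hyg : 0 ≤ E ^ 2 * (y * dg) := by positivity
  have hyf : 0 ≤ E ^ 2 * (y * df) := by positivity
  have hxg0 : 0 ≤ E ^ 2 * (x * dg) := by positivity
  have h1 : x * (E * dg) * (1.03 * ‖S‖) ≤ (1.03 * (E ^ 2 * (x * dg))) * ‖S‖ := by
    nlinarith
  have h2 : 2 * (0.01762 * (y * (2 * E ^ 2 * df) / 1.98)) + y * (E ^ 2 * (4 * dg + 2 * df)) ≤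
      (1.06 * (2 * (E ^ 2 * (y * dg)) + E ^ 2 * (y * df))) * ‖S‖ := by
    have h3 : 2 * (0.01762 * (y * (2 * E ^ 2 * df) / 1.98)) + y * (E ^ 2 * (4 * dg + 2 * df)) =
      4 * (E ^ 2 * (y * dg)) + (2 + 4 * 0.01762 / 1.98) * (E ^ 2 * (y * df)) := by ring
    rw [h3]
    have h4 : (1.06 * (2 * (E ^ 2 * (y * dg)) + E ^ 2 * (y * df))) * 1.929 ≤
      (1.06 * (2 * (E ^ 2 * (y * dg)) + E ^ 2 * (y * df))) * ‖S‖ := by gcongr
    refine le_trans ?_ h4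
    norm_num
    linarith
  refine le_of_mul_le_mul_right ?_ hS0
  refine hn.trans ?_
  have h5 : 53 / 50 * E ^ 2 * (x * dg + y * (2 * dg + df)) * ‖S‖ =
      (1.06 * (E ^ 2 * (x * dg))) * ‖S‖ +
        (1.06 * (2 * (E ^ 2 * (y * dg)) + E ^ 2 * (y * df))) * ‖S‖ := by ring
  rw [h5]
  have h6 : (1.03 * (E ^ 2 * (x * dg))) * ‖S‖ ≤ (1.06 * (E ^ 2 * (x * dg))) * ‖S‖ := by
    gcongr; norm_num
  linarith

/-- **Displacement of the first link.** -/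
theorem first_diff {a : ℝ} {s' χ' : ℂ} (H : FH e κ v a s χ) (H' : FH e κ v a s' χ')
    (hT : tanh (κ * p) = ((v / bet e κ : ℝ) : ℂ) * I) {ΔG ΔF : ℝ}
    (hΔG : ‖LG e κ s' χ' - LG e κ s χ‖ ≤ ΔG) (hΔF : ‖LF e κ s' χ' - LF e κ s χ‖ ≤ ΔF) :
    bet e κ * ‖nxc e κ p s' χ' - nxc e κ p s χ‖ ≤
      53 / 50 * Real.exp (2 * a) * (v * ΔG + Vv e κ v * (2 * ΔG + ΔF)) / e := by
  have he : 0 < e := by linarith [H.he]
  have hK : 0 < Real.sinh κ := Real.sinh_pos_iff.2 H.hκ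
  have hβ : 0 < bet e κ := mul_pos he hK
  obtain ⟨hG1, hD2, hDre, hD1⟩ := fh_Dfacts H
  obtain ⟨hG1', hD2', hDre', hD1'⟩ := fh_Dfacts H'
  obtain ⟨hx0, hx1, hy0, hy1, hal, hga, hA, hG, hN⟩ := fh_sizes H
  obtain ⟨-, -, -, -, hal', hga', hA', hG', hN'⟩ := fh_sizes H'
  obtain ⟨-, hh0, hh1, -, -, -, -⟩ := hh_facts H.hκ
  have hs1 : √(hh κ) ≤ 1 := Real.sqrt_le_one.2 hh1
  obtain ⟨e1, -, -, e4⟩ := first_alg he H.hκ H.hs H.hχ hT (by linarith)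
  obtain ⟨e1', -, -, e4'⟩ := first_alg he H'.hκ H'.hs H'.hχ hT (by linarith)
  have hne : rdc e κ p s χ ≠ 0 := slitPlane_ne_zero (first_rad H hT).2.1
  have hne' : rdc e κ p s' χ' ≠ 0 := slitPlane_ne_zero (first_rad H' hT).2.1
  obtain ⟨Q, hQ⟩ : ∃ Q, Q = rdc e κ p s χ ^ ((1 / 2 : ℝ) : ℂ) := ⟨_, rfl⟩
  obtain ⟨Q', hQ'⟩ : ∃ Q', Q' = rdc e κ p s' χ' ^ ((1 / 2 : ℝ) : ℂ) := ⟨_, rfl⟩
  have hQ2 : Q ^ 2 = (1 + AA e κ v s χ) ^ 2 +
      (2 * AA e κ v s χ * (DD e κ v s χ - 1) + NN e κ v s χ - GG e κ v s χ) := by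
    rw [hQ, fh_sq hne, e1]
  have hQ2' : Q' ^ 2 = (1 + AA e κ v s' χ') ^ 2 +
      (2 * AA e κ v s' χ' * (DD e κ v s' χ' - 1) + NN e κ v s' χ' - GG e κ v s' χ') := by
    rw [hQ', fh_sq hne', e1']
  have hQre : 0 ≤ Q.re := by rw [hQ]; exact fh_re hne
  have hQre' : 0 ≤ Q'.re := by rw [hQ']; exact fh_re hne'
  have hR := fd_R hx0 hx1 hy0 hy1 hA hG hD2 hDre hN hQ2 hQre
  have hR' := fd_R hx0 hx1 hy0 hy1 hA' hG' hD2' hDre' hN' hQ2' hQre'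
  obtain ⟨E, hE⟩ : ∃ E, E = Real.exp a := ⟨_, rfl⟩
  have hE1 : 1 ≤ E := by rw [hE]; exact Real.one_le_exp H.a0
  have hE2 : Real.exp (2 * a) = E ^ 2 := by
    rw [hE, ← Real.exp_nat_mul]; norm_num
  have hg0 : 0 ≤ ΔG / e := div_nonneg ((norm_nonneg _).trans hΔG) he.le
  have hf0 : 0 ≤ ΔF / e := div_nonneg ((norm_nonneg _).trans hΔF) he.le
  -- sizes with `E`
  have hsz : ∀ L : ℂ, ‖L‖ ≤ a * e → ‖exp (-(L / e))‖ ≤ E := by
    intro L hL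
    rw [hE, Complex.norm_exp]
    refine Real.exp_le_exp.2 ((Complex.re_le_norm _).trans ?_)
    rw [norm_neg, norm_div, Complex.norm_real, Real.norm_of_nonneg he.le, div_le_iff₀ he]
    exact hL
  have hα : ‖al e κ s χ‖ ≤ E := hsz _ H.hG
  have hα' : ‖al e κ s' χ'‖ ≤ E := hsz _ H'.hG
  have hγ : ‖ga e κ s χ‖ ≤ E := hsz _ H.hF
  have hγ' : ‖ga e κ s' χ'‖ ≤ E := hsz _ H'.hF
  have hdα : ‖al e κ s' χ' - al e κ s χ‖ ≤ E * (ΔG / e) := by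
    rw [hE]; exact fd_exp he H.hG H'.hG hΔG
  have hdγ : ‖ga e κ s' χ' - ga e κ s χ‖ ≤ E * (ΔF / e) := by
    rw [hE]; exact fd_exp he H.hF H'.hF hΔF
  have hdA : ‖AA e κ v s' χ' - AA e κ v s χ‖ ≤ v / e * (E * (ΔG / e)) := by
    have h1 : AA e κ v s' χ' - AA e κ v s χ = ((√(hh κ) : ℝ) : ℂ) *
        (al e κ s' χ' - al e κ s χ) * (((v / e : ℝ) : ℂ) * I) := by unfold AA; ring
    rw [h1, norm_mul, norm_mul, norm_mul, Complex.norm_I, mul_one, Complex.norm_real,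
      Complex.norm_real, Real.norm_of_nonneg (Real.sqrt_nonneg _), Real.norm_of_nonneg hx0,
      mul_comm (v / e)]
    refine mul_le_mul_of_nonneg_right ?_ hx0
    calc √(hh κ) * ‖al e κ s' χ' - al e κ s χ‖ ≤ 1 * (E * (ΔG / e)) :=
          mul_le_mul hs1 hdα (norm_nonneg _) (by norm_num)
      _ = _ := one_mul _
  have hhy : hh κ * (Vv e κ v / e) ≤ Vv e κ v / e := by
    calc hh κ * (Vv e κ v / e) ≤ 1 * (Vv e κ v / e) := mul_le_mul_of_nonneg_right hh1 hy0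
      _ = _ := one_mul _
  have hE0 : 0 ≤ E := by linarith
  have hdG : ‖GG e κ v s' χ' - GG e κ v s χ‖ ≤ Vv e κ v / e * (2 * E ^ 2 * (ΔF / e)) := by
    have h1 : GG e κ v s' χ' - GG e κ v s χ = ((hh κ * (Vv e κ v / e) : ℝ) : ℂ) *
        ((ga e κ s' χ' - ga e κ s χ) * (ga e κ s' χ' + ga e κ s χ)) := by unfold GG; ring
    rw [h1, norm_mul, norm_mul, Complex.norm_real, Real.norm_of_nonneg (mul_nonneg hh0.le hy0)]
    have h2 : ‖ga e κ s' χ' + ga e κ s χ‖ ≤ 2 * E := (norm_add_le _ _).trans (by linarith)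
    have h3 := mul_le_mul hdγ h2 (norm_nonneg _) (by positivity)
    refine mul_le_mul hhy (h3.trans (le_of_eq (by ring))) (by positivity) hy0
  have hdN : ‖(NN e κ v s' χ' - GG e κ v s' χ') - (NN e κ v s χ - GG e κ v s χ)‖ ≤
      Vv e κ v / e * (E ^ 2 * (4 * (ΔG / e) + 2 * (ΔF / e))) := by
    have h1 : (NN e κ v s' χ' - GG e κ v s' χ') - (NN e κ v s χ - GG e κ v s χ) =
        ((hh κ * (Vv e κ v / e) : ℝ) : ℂ) *
        ((al e κ s' χ' - al e κ s χ) * (al e κ s' χ' + al e κ s χ + 2 * ga e κ s' χ') +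
          2 * (al e κ s χ * (ga e κ s' χ' - ga e κ s χ))) := by unfold NN GG; ring
    rw [h1, norm_mul, Complex.norm_real, Real.norm_of_nonneg (mul_nonneg hh0.le hy0)]
    have h2 : ‖al e κ s' χ' + al e κ s χ + 2 * ga e κ s' χ'‖ ≤ 4 * E := by
      refine (norm_add_le _ _).trans ?_
      have := norm_add_le (al e κ s' χ') (al e κ s χ)
      rw [norm_mul, Complex.norm_ofNat]
      linarith
    have h3 := mul_le_mul hdα h2 (norm_nonneg _) (by positivity)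
    have h4 := mul_le_mul hα hdγ (norm_nonneg _) hE0
    refine mul_le_mul hhy ?_ (norm_nonneg _) hy0
    refine (norm_add_le _ _).trans ?_
    rw [norm_mul, norm_mul 2, norm_mul (al e κ s χ), Complex.norm_ofNat]
    calc ‖al e κ s' χ' - al e κ s χ‖ * ‖al e κ s' χ' + al e κ s χ + 2 * ga e κ s' χ'‖ +
          2 * (‖al e κ s χ‖ * ‖ga e κ s' χ' - ga e κ s χ‖) ≤
        E * (ΔG / e) * (4 * E) + 2 * (E * (E * (ΔF / e))) := by linarith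
      _ = _ := by ring
  have hm := fd_main hE1 hx0 hy0 hg0 hf0 (by linarith) (by linarith) hD2 hD1 hD2' hD1' hQ2 hR
    hQ2' hR' hdA hdG hdN
  have hkey : (bet e κ : ℂ) * (nxc e κ p s' χ' - nxc e κ p s χ) = (e : ℂ) * (Q' - Q) := by
    rw [mul_sub, e4, e4', ← hQ, ← hQ']; ring
  have hkn : bet e κ * ‖nxc e κ p s' χ' - nxc e κ p s χ‖ = e * ‖Q' - Q‖ := by
    have h1 : ‖(bet e κ : ℂ) * (nxc e κ p s' χ' - nxc e κ p s χ)‖ = ‖(e : ℂ) * (Q' - Q)‖ := by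
      rw [hkey]
    rw [norm_mul, norm_mul, Complex.norm_real, Complex.norm_real, Real.norm_of_nonneg hβ.le,
      Real.norm_of_nonneg he.le] at h1
    exact h1
  rw [hkn, hE2]
  refine (mul_le_mul_of_nonneg_left hm he.le).trans (le_of_eq ?_)
  field_simp

end Pool.Agent.helper31.EQB
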