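import Pool.Agent.helper31.EQB.Zc

/-!
# EQB-7: positions

`om κ x t`: `|t - 1| ≤ e^(-2κx) |t + 1|`.  `r = rz t`, `y = yz t`, `S = Sz t = β² + y²`, `β = e K`, `K = sinh κ`,
`c = cosh κ`, `Q = Qk κ t = c + K t`, `t⁺ = shf κ t`.

FACTS.  `t⁺ - 1 = (t - 1)(1 - tanh κ)/(1 + t tanh κ)`, `t⁺ + 1 = (t + 1)(1 + tanh κ)/(1 + t tanh κ)`,
`(1 - tanh κ)/(1 + tanh κ) = e^(-2κ)`.
`om κ x t ⟺ (|t|² + 1) tanh (2κx) ≤ 2 Re t ⟺ (S + r²) tanh (2κx) ≤ 2 β r` (`om_iff`).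
`K t⁺ = c - 1/Q`, so `y⁺ = y/|Q|²`, `|Q|² - 1 = S/e² + (2 c r + r²/e)/e`, `r⁺ - r = ((S - r²) Re Q - 2 r y²/e)/(e |Q|²)`,
`t⁺ - s⁺ = (t - s)/(Q(t) Q(s))`.
`tanh z ≥ z/(1 + z²/3)` for `z ≥ 0`, `κ ≥ K (1 - K²/6)`, `κ ≤ K`.
-/

namespace Pool.Agent.helper31.EQB

open Complex ComplexConjugate Set Filter Topology
open Pool.Agent.helper31.EQ.Y Pool.Agent.helper31.EQ.R
open Pool.Agent.helper12.EQL Pool.Agent.helper12.RP Pool.Agent.helper12.FF

/-- `thf K x ≤ tanh (2κx)` -/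
noncomputable def thf (K x : ℝ) : ℝ :=
  2 * (K * (1 - K ^ 2 / 6)) * x / (1 + (2 * (K * (1 - K ^ 2 / 6)) * x) ^ 2 / 3)

/-- `lam K x · S/e ≤ r` -/
noncomputable def lam (K x : ℝ) : ℝ :=
  (1 - K ^ 2 / 6) * x / (1 + (2 * (K * (1 - K ^ 2 / 6)) * x) ^ 2 / 3) * (1 + thf K x ^ 2 / 4)

variable {e κ : ℝ}

/-! ### auxiliary facts -/

private theorem bet_pos (he : 0 < e) (hκ : 0 < κ) : 0 < bet e κ :=
  mul_pos he (Real.sinh_pos_iff.2 hκ)

private theorem kappa_le (hκ : 0 < κ) : κ ≤ Real.sinh κ := (Real.self_lt_sinh_iff.2 hκ).le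

private theorem kappa_ge (hκ : 0 < κ) : Real.sinh κ * (1 - Real.sinh κ ^ 2 / 6) ≤ κ := by
  have hd : ∀ u : ℝ, HasDerivAt (fun v : ℝ => v - Real.sinh v + Real.sinh v ^ 3 / 6)
      (1 - Real.cosh u + 3 * Real.sinh u ^ 2 * Real.cosh u / 6) u := by
    intro u
    have h1 := (hasDerivAt_id u).sub (Real.hasDerivAt_sinh u)
    have h2 := ((Real.hasDerivAt_sinh u).pow 3).div_const 6
    refine (h1.add h2).congr_deriv ?_
    norm_num
  have hm : MonotoneOn (fun v : ℝ => v - Real.sinh v + Real.sinh v ^ 3 / 6) (Ici 0) := by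
    refine monotoneOn_of_deriv_nonneg (convex_Ici 0)
      (fun u _ => (hd u).continuousAt.continuousWithinAt)
      (fun u _ => (hd u).differentiableAt.differentiableWithinAt) (fun u _ => ?_)
    rw [(hd u).deriv]
    have h1 := Real.one_le_cosh u
    have h2 := Real.cosh_sq u
    have h3 : 1 - Real.cosh u + 3 * Real.sinh u ^ 2 * Real.cosh u / 6 =
        (Real.cosh u - 1) * ((Real.cosh u - 1) * (Real.cosh u + 2) / 2) := by
      have : Real.sinh u ^ 2 = Real.cosh u ^ 2 - 1 := by linarith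
      rw [this]; ring
    rw [h3]
    have h4 : 0 ≤ Real.cosh u - 1 := by linarith
    have h5 : 0 ≤ Real.cosh u + 2 := by linarith
    positivity
  have h := hm (mem_Ici.2 le_rfl) (mem_Ici.2 hκ.le) hκ.le
  simp only [Real.sinh_zero] at h
  nlinarith [h]

private theorem sinh_le_mul_cosh {w : ℝ} (hw : 0 ≤ w) : Real.sinh w ≤ w * Real.cosh w := by
  have hd : ∀ u : ℝ, HasDerivAt (fun v : ℝ => v * Real.cosh v - Real.sinh v)
      (u * Real.sinh u) u := by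
    intro u
    have h1 := ((hasDerivAt_id u).mul (Real.hasDerivAt_cosh u)).sub (Real.hasDerivAt_sinh u)
    refine h1.congr_deriv ?_
    simp
  have hm : MonotoneOn (fun v : ℝ => v * Real.cosh v - Real.sinh v) (Ici 0) := by
    refine monotoneOn_of_deriv_nonneg (convex_Ici 0)
      (fun u _ => (hd u).continuousAt.continuousWithinAt)
      (fun u _ => (hd u).differentiableAt.differentiableWithinAt) (fun u hu => ?_)
    rw [(hd u).deriv]
    rw [interior_Ici] at hu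
    have h1 : 0 < u := hu
    have h2 := Real.sinh_pos_iff.2 h1
    positivity
  have h := hm (mem_Ici.2 le_rfl) (mem_Ici.2 hw) hw
  simp only [Real.sinh_zero] at h
  linarith [h]

private theorem tanh_le_self {w : ℝ} (hw : 0 ≤ w) : Real.tanh w ≤ w := by
  rw [Real.tanh_eq_sinh_div_cosh, div_le_iff₀ (Real.cosh_pos w)]
  exact sinh_le_mul_cosh hw

private theorem tanh_ge {w : ℝ} (hw : 0 ≤ w) : w / (1 + w ^ 2 / 3) ≤ Real.tanh w := by
  have hd : ∀ u : ℝ, HasDerivAt (fun v : ℝ => Real.sinh v * (1 + v ^ 2 / 3) - v * Real.cosh v)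
      (u / 3 * (u * Real.cosh u - Real.sinh u)) u := by
    intro u
    have h0 : HasDerivAt (fun v : ℝ => 1 + v ^ 2 / 3) (2 * u / 3) u := by
      have := (((hasDerivAt_id u).pow 2).div_const 3).const_add 1
      refine this.congr_deriv ?_
      simp
    have h1 := ((Real.hasDerivAt_sinh u).mul h0).sub
      ((hasDerivAt_id u).mul (Real.hasDerivAt_cosh u))
    refine h1.congr_deriv ?_
    simp only [id]
    ring
  have hm : MonotoneOn (fun v : ℝ => Real.sinh v * (1 + v ^ 2 / 3) - v * Real.cosh v) (Ici 0) := by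
    refine monotoneOn_of_deriv_nonneg (convex_Ici 0)
      (fun u _ => (hd u).continuousAt.continuousWithinAt)
      (fun u _ => (hd u).differentiableAt.differentiableWithinAt) (fun u hu => ?_)
    rw [(hd u).deriv]
    rw [interior_Ici] at hu
    have h1 : 0 < u := hu
    have h2 := sinh_le_mul_cosh h1.le
    have h3 : 0 ≤ u * Real.cosh u - Real.sinh u := by linarith
    positivity
  have h := hm (mem_Ici.2 le_rfl) (mem_Ici.2 hw) hw
  simp only [Real.sinh_zero] at h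
  have hc := Real.cosh_pos w
  have h3 : 0 < 1 + w ^ 2 / 3 := by positivity
  rw [Real.tanh_eq_sinh_div_cosh, div_le_div_iff₀ h3 hc]
  linarith [h]

private theorem tanh_mono {z w : ℝ} (h : z ≤ w) : Real.tanh z ≤ Real.tanh w := by
  rw [Real.tanh_eq_sinh_div_cosh, Real.tanh_eq_sinh_div_cosh,
    div_le_div_iff₀ (Real.cosh_pos z) (Real.cosh_pos w)]
  have h1 : 0 ≤ Real.sinh (w - z) := Real.sinh_nonneg_iff.2 (by linarith)
  rw [Real.sinh_sub] at h1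
  linarith

private theorem sq_sub_one (t : ℂ) : ‖t - 1‖ ^ 2 = ‖t‖ ^ 2 + 1 - 2 * t.re := by
  rw [← Complex.normSq_eq_norm_sq, ← Complex.normSq_eq_norm_sq, Complex.normSq_apply,
    Complex.normSq_apply]
  simp only [Complex.sub_re, Complex.sub_im, Complex.one_re, Complex.one_im]
  ring

private theorem sq_add_one (t : ℂ) : ‖t + 1‖ ^ 2 = ‖t‖ ^ 2 + 1 + 2 * t.re := by
  rw [← Complex.normSq_eq_norm_sq, ← Complex.normSq_eq_norm_sq, Complex.normSq_apply,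
    Complex.normSq_apply]
  simp only [Complex.add_re, Complex.add_im, Complex.one_re, Complex.one_im]
  ring

private theorem norm_sq_eq (t : ℂ) : ‖t‖ ^ 2 = t.re ^ 2 + t.im ^ 2 := by
  rw [← Complex.normSq_eq_norm_sq, Complex.normSq_apply]
  ring

private theorem Sz_add (e κ : ℝ) (t : ℂ) :
    Sz e κ t + rz e κ t ^ 2 = bet e κ ^ 2 * (‖t‖ ^ 2 + 1) := by
  rw [norm_sq_eq]
  unfold Sz rz yz
  ring

private theorem Qk_re' (κ : ℝ) (t : ℂ) : (Qk κ t).re = Real.cosh κ + Real.sinh κ * t.re := by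
  unfold Qk; rw [Complex.add_re, Complex.ofReal_re, Complex.re_ofReal_mul]

private theorem Qk_im' (κ : ℝ) (t : ℂ) : (Qk κ t).im = Real.sinh κ * t.im := by
  unfold Qk; rw [Complex.add_im, Complex.ofReal_im, Complex.im_ofReal_mul, zero_add]

private theorem Qsq (κ : ℝ) (t : ℂ) :
    ‖Qk κ t‖ ^ 2 = (Real.cosh κ + Real.sinh κ * t.re) ^ 2 + (Real.sinh κ * t.im) ^ 2 := by
  rw [norm_sq_eq, Qk_re', Qk_im']

/-- `shf t * Q = (Q - ...)`: the numerator -/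
private theorem shf_mul (hκ : 0 < κ) {t : ℂ} (ht : 0 < t.re) :
    shf κ t * Qk κ t = (Real.cosh κ : ℂ) * t + (Real.sinh κ : ℂ) := by
  have hd := shf_den hκ ht.le
  have hC0 : (Real.cosh κ : ℂ) ≠ 0 := by exact_mod_cast (Real.cosh_pos κ).ne'
  have hT : (Real.tanh κ : ℂ) = (Real.sinh κ : ℂ) / (Real.cosh κ : ℂ) := by
    rw [Real.tanh_eq_sinh_div_cosh]; push_cast; rfl
  have hQ : Qk κ t = (Real.cosh κ : ℂ) * (1 + (Real.tanh κ : ℂ) * t) := by
    rw [Qk, hT]; field_simp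
  rw [shf, hQ, mul_comm (Real.cosh κ : ℂ), ← mul_assoc, div_mul_cancel₀ _ hd, hT]
  field_simp

private theorem shf_sub' (hκ : 0 < κ) {s t : ℂ} (hs : 0 < s.re) (ht : 0 < t.re) :
    (shf κ t - shf κ s) * (Qk κ t * Qk κ s) = t - s := by
  have h1 := shf_mul hκ ht
  have h2 := shf_mul hκ hs
  have hcs : (Real.cosh κ : ℂ) ^ 2 - (Real.sinh κ : ℂ) ^ 2 = 1 := by
    have := Real.cosh_sq κ
    exact_mod_cast (by linarith : Real.cosh κ ^ 2 - Real.sinh κ ^ 2 = 1)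
  calc (shf κ t - shf κ s) * (Qk κ t * Qk κ s) =
        (shf κ t * Qk κ t) * Qk κ s - (shf κ s * Qk κ s) * Qk κ t := by ring
    _ = ((Real.cosh κ : ℂ) * t + (Real.sinh κ : ℂ)) * Qk κ s -
        ((Real.cosh κ : ℂ) * s + (Real.sinh κ : ℂ)) * Qk κ t := by rw [h1, h2]
    _ = t - s := by
        rw [Qk, Qk]
        linear_combination (t - s) * hcs

private theorem shf_sub_one (hκ : 0 < κ) {t : ℂ} (ht : 0 < t.re) :
    (shf κ t - 1) * Qk κ t = (Real.exp (-κ) : ℂ) * (t - 1) := by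
  have h := shf_mul hκ ht
  have hm : (Real.exp (-κ) : ℂ) = (Real.cosh κ : ℂ) - (Real.sinh κ : ℂ) := by
    rw [← Real.cosh_sub_sinh]; push_cast; ring
  rw [sub_mul, h, hm, one_mul, Qk]
  ring

private theorem shf_add_one' (hκ : 0 < κ) {t : ℂ} (ht : 0 < t.re) :
    (shf κ t + 1) * Qk κ t = (Real.exp κ : ℂ) * (t + 1) := by
  have h := shf_mul hκ ht
  have hm : (Real.exp κ : ℂ) = (Real.cosh κ : ℂ) + (Real.sinh κ : ℂ) := by
    rw [← Real.cosh_add_sinh]; push_cast; ring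
  rw [add_mul, h, hm, one_mul, Qk]
  ring

/-- real and imaginary part of `shf t`, multiplied by `|Q|²` -/
private theorem shf_parts (hκ : 0 < κ) {t : ℂ} (ht : 0 < t.re) :
    (shf κ t).re * ‖Qk κ t‖ ^ 2 = (Real.cosh κ * t.re + Real.sinh κ) *
        (Real.cosh κ + Real.sinh κ * t.re) + Real.cosh κ * t.im * (Real.sinh κ * t.im) ∧
      (shf κ t).im * ‖Qk κ t‖ ^ 2 = t.im := by
  have h := shf_mul hκ ht
  have h1 : shf κ t * ((‖Qk κ t‖ ^ 2 : ℝ) : ℂ) =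
      ((Real.cosh κ : ℂ) * t + (Real.sinh κ : ℂ)) * conj (Qk κ t) := by
    rw [← h, mul_assoc, Complex.mul_conj, Complex.normSq_eq_norm_sq]
  have hre := congrArg Complex.re h1
  have him := congrArg Complex.im h1
  have hcs := Real.cosh_sq κ
  rw [Complex.re_mul_ofReal, Complex.mul_re, Complex.conj_re, Complex.conj_im, Qk_re', Qk_im',
    Complex.add_re, Complex.add_im, Complex.ofReal_re, Complex.ofReal_im, Complex.re_ofReal_mul,
    Complex.im_ofReal_mul] at hre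
  rw [Complex.im_mul_ofReal, Complex.mul_im, Complex.conj_re, Complex.conj_im, Qk_re', Qk_im',
    Complex.add_re, Complex.add_im, Complex.ofReal_re, Complex.ofReal_im, Complex.re_ofReal_mul,
    Complex.im_ofReal_mul] at him
  refine ⟨by rw [hre]; ring, ?_⟩
  rw [him]
  linear_combination t.im * hcs

/-! ### the statements -/

theorem om_iff (hκ : 0 < κ) {x : ℝ} {t : ℂ} (ht : 0 < t.re) :
    om κ x t ↔ (‖t‖ ^ 2 + 1) * Real.tanh (2 * κ * x) ≤ 2 * t.re := by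

  have hE : 0 < Real.exp (-(2 * κ * x)) := Real.exp_pos _
  have hE' : 0 < Real.exp (2 * κ * x) := Real.exp_pos _
  have hprod : Real.exp (-(2 * κ * x)) * Real.exp (2 * κ * x) = 1 := by
    rw [← Real.exp_add]; simp
  have h1 : om κ x t ↔ ‖t - 1‖ ^ 2 ≤ (Real.exp (-(2 * κ * x)) * ‖t + 1‖) ^ 2 := by
    unfold om
    exact (sq_le_sq₀ (norm_nonneg _) (by positivity)).symm
  rw [h1, mul_pow, sq_sub_one, sq_add_one, Real.tanh_eq_sinh_div_cosh, mul_div_assoc',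
    div_le_iff₀ (Real.cosh_pos _), Real.sinh_eq, Real.cosh_eq]
  obtain ⟨A, hA⟩ : ∃ A, A = Real.exp (2 * κ * x) := ⟨_, rfl⟩
  obtain ⟨B, hB⟩ : ∃ B, B = Real.exp (-(2 * κ * x)) := ⟨_, rfl⟩
  rw [← hA] at hE' hprod ⊢
  rw [← hB] at hE hprod ⊢
  obtain ⟨N, hN⟩ : ∃ N, N = ‖t‖ ^ 2 + 1 := ⟨_, rfl⟩
  rw [← hN]
  constructor
  · intro h
    have h2 : A * (N - 2 * t.re) ≤ A * (B ^ 2 * (N + 2 * t.re)) := mul_le_mul_of_nonneg_left h hE'.le
    have h3 : A * (B ^ 2 * (N + 2 * t.re)) = B * (N + 2 * t.re) := by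
      calc A * (B ^ 2 * (N + 2 * t.re)) = (B * A) * (B * (N + 2 * t.re)) := by ring
        _ = _ := by rw [hprod, one_mul]
    rw [h3] at h2
    linarith
  · intro h
    have h0 : A * (N - 2 * t.re) ≤ B * (N + 2 * t.re) := by linarith
    have h2 := mul_le_mul_of_nonneg_left h0 hE.le
    have h3 : B * (A * (N - 2 * t.re)) = N - 2 * t.re := by
      rw [← mul_assoc, hprod, one_mul]
    rw [h3] at h2
    calc N - 2 * t.re ≤ B * (B * (N + 2 * t.re)) := h2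
      _ = _ := by ring

theorem om_mono (hκ : 0 < κ) {x x' : ℝ} {t : ℂ} (h : om κ x t) (hx : x' ≤ x) : om κ x' t := by

  unfold om at *
  refine h.trans (mul_le_mul_of_nonneg_right (Real.exp_le_exp.2 ?_) (norm_nonneg _))
  have : 2 * κ * x' ≤ 2 * κ * x := mul_le_mul_of_nonneg_left hx (by positivity)
  linarith

theorem om_shf (hκ : 0 < κ) {x : ℝ} {t : ℂ} (ht : 0 < t.re) (h : om κ x t) :
    om κ (x + 1) (shf κ t) := by

  unfold om at *
  have h1 := congrArg norm (shf_sub_one hκ ht)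
  have h2 := congrArg norm (shf_add_one' hκ ht)
  rw [norm_mul, norm_mul, Complex.norm_real, Real.norm_of_nonneg (Real.exp_pos _).le] at h1 h2
  have hQ : 0 < ‖Qk κ t‖ := norm_pos_iff.2 (Qk_ne hκ ht)
  refine le_of_mul_le_mul_right ?_ hQ
  rw [mul_assoc, h1, h2]
  calc Real.exp (-κ) * ‖t - 1‖ ≤ Real.exp (-κ) * (Real.exp (-(2 * κ * x)) * ‖t + 1‖) :=
        mul_le_mul_of_nonneg_left h (Real.exp_pos _).le
    _ = Real.exp (-(2 * κ * (x + 1))) * (Real.exp κ * ‖t + 1‖) := by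
        rw [← mul_assoc, ← mul_assoc, ← Real.exp_add, ← Real.exp_add]
        congr 2
        ring

/-- entry: `x (S + r²)/e ≤ r` -/
theorem om_of_rz (he : 0 < e) (hκ : 0 < κ) {x : ℝ} (hx : 0 ≤ x) {t : ℂ} (ht : 0 < t.re)
    (h : x * (Sz e κ t + rz e κ t ^ 2) / e ≤ rz e κ t) : om κ x t := by

  have hK : 0 < Real.sinh κ := Real.sinh_pos_iff.2 hκ
  have hb := bet_pos he hκ
  rw [om_iff hκ ht]
  rw [Sz_add] at h
  have h1 : Real.tanh (2 * κ * x) ≤ 2 * Real.sinh κ * x := by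
    refine (tanh_le_self (by positivity)).trans ?_
    have := kappa_le hκ
    gcongr
  have h2 : x * Real.sinh κ * (‖t‖ ^ 2 + 1) ≤ t.re := by
    have h3 : x * (bet e κ ^ 2 * (‖t‖ ^ 2 + 1)) / e =
        bet e κ * (x * Real.sinh κ * (‖t‖ ^ 2 + 1)) := by
      unfold bet
      field_simp
    rw [h3] at h
    unfold rz at h
    exact le_of_mul_le_mul_left h hb
  calc (‖t‖ ^ 2 + 1) * Real.tanh (2 * κ * x) ≤ (‖t‖ ^ 2 + 1) * (2 * Real.sinh κ * x) := by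
        gcongr
    _ = 2 * (x * Real.sinh κ * (‖t‖ ^ 2 + 1)) := by ring
    _ ≤ 2 * t.re := by linarith

/-- `lam S/e ≤ r`.  With `τ = tanh (2κx)/(2β)`: `r ≥ τ (S + r²) ≥ τ S`, so `r ≥ τ S (1 + τ² S)`, `τ² S ≥ tanh²/4`. -/
theorem om_rz (he : 0 < e) (hκ : 0 < κ) (hK : Real.sinh κ ≤ 1) {x : ℝ} (hx : 0 ≤ x) {t : ℂ}
    (ht : 0 < t.re) (h : om κ x t) :
    lam (Real.sinh κ) x * Sz e κ t / e ≤ rz e κ t := by

  have hK0 : 0 < Real.sinh κ := Real.sinh_pos_iff.2 hκ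
  have hb := bet_pos he hκ
  rw [om_iff hκ ht] at h
  obtain ⟨K, hKd⟩ : ∃ K, K = Real.sinh κ := ⟨_, rfl⟩
  have hκK : K * (1 - K ^ 2 / 6) ≤ κ := by rw [hKd]; exact kappa_ge hκ
  rw [← hKd] at hK0 hK ⊢
  have hf : 0 < 1 - K ^ 2 / 6 := by nlinarith
  obtain ⟨z, hz⟩ : ∃ z, z = 2 * (K * (1 - K ^ 2 / 6)) * x := ⟨_, rfl⟩
  have hz0 : 0 ≤ z := by rw [hz]; positivity
  have hthf : thf K x = z / (1 + z ^ 2 / 3) := by unfold thf; rw [hz]
  have hthf0 : 0 ≤ thf K x := by rw [hthf]; positivity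
  have hzx : z ≤ 2 * κ * x := by
    rw [hz]
    have := mul_le_mul_of_nonneg_right hκK (by positivity : 0 ≤ 2 * x)
    linarith
  obtain ⟨T, hT⟩ : ∃ T, T = Real.tanh (2 * κ * x) := ⟨_, rfl⟩
  rw [← hT] at h
  have hTt : thf K x ≤ T := by
    rw [hthf, hT]
    exact (tanh_ge hz0).trans (tanh_mono hzx)
  have hT0 : 0 ≤ T := hthf0.trans hTt
  -- r ≥ τ (S + r²)
  obtain ⟨S, hS⟩ : ∃ S, S = Sz e κ t := ⟨_, rfl⟩
  obtain ⟨r, hr⟩ : ∃ r, r = rz e κ t := ⟨_, rfl⟩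
  have hr0 : 0 ≤ r := by rw [hr]; unfold rz; positivity
  have hSb : bet e κ ^ 2 ≤ S := by rw [hS]; unfold Sz; nlinarith [sq_nonneg (yz e κ t)]
  have hS0 : 0 < S := lt_of_lt_of_le (by positivity) hSb
  have hmain : (S + r ^ 2) * T ≤ 2 * bet e κ * r := by
    rw [hS, hr, Sz_add]
    unfold rz
    have := mul_le_mul_of_nonneg_left h (by positivity : 0 ≤ bet e κ ^ 2)
    linarith
  obtain ⟨τ, hτ⟩ : ∃ τ, τ = T / (2 * bet e κ) := ⟨_, rfl⟩
  have hτ0 : 0 ≤ τ := by rw [hτ]; positivity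
  have h1 : τ * (S + r ^ 2) ≤ r := by
    rw [hτ, div_mul_eq_mul_div, div_le_iff₀ (by positivity)]
    linarith
  have h2 : τ * S ≤ r := by
    have : τ * S ≤ τ * (S + r ^ 2) := mul_le_mul_of_nonneg_left (by nlinarith [sq_nonneg r]) hτ0
    linarith
  have h3 : (τ * S) ^ 2 ≤ r ^ 2 := by
    have : 0 ≤ τ * S := by positivity
    exact pow_le_pow_left₀ this h2 2
  have h4 : τ * S * (1 + T ^ 2 / 4) ≤ r := by
    have h5 : τ * (S + (τ * S) ^ 2) ≤ r :=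
      (mul_le_mul_of_nonneg_left (by linarith) hτ0).trans h1
    have h6 : T ^ 2 / 4 ≤ τ ^ 2 * S := by
      have : τ ^ 2 * bet e κ ^ 2 = T ^ 2 / 4 := by
        rw [hτ]; field_simp; norm_num
      rw [← this]
      exact mul_le_mul_of_nonneg_left hSb (by positivity)
    calc τ * S * (1 + T ^ 2 / 4) ≤ τ * S * (1 + τ ^ 2 * S) := by
          have : 0 ≤ τ * S := by positivity
          exact mul_le_mul_of_nonneg_left (by linarith) this
      _ = τ * (S + (τ * S) ^ 2) := by ring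
      _ ≤ r := h5
  have h7 : thf K x / (2 * bet e κ) * S * (1 + thf K x ^ 2 / 4) ≤ τ * S * (1 + T ^ 2 / 4) := by
    rw [hτ]
    gcongr
  have h8 : lam K x * S / e = thf K x / (2 * bet e κ) * S * (1 + thf K x ^ 2 / 4) := by
    have hbe : bet e κ = e * K := by rw [hKd]; rfl
    have hl : lam K x = (1 - K ^ 2 / 6) * x / (1 + z ^ 2 / 3) * (1 + thf K x ^ 2 / 4) := by
      unfold lam; rw [hz]
    have ht2 : thf K x / (2 * bet e κ) = (1 - K ^ 2 / 6) * x / (1 + z ^ 2 / 3) / e := by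
      rw [hthf, hbe]
      have hz3 : (0:ℝ) < 1 + z ^ 2 / 3 := by positivity
      have hz4 : z / (1 + z ^ 2 / 3) = 2 * K * ((1 - K ^ 2 / 6) * x) / (1 + z ^ 2 / 3) := by
        congr 1
        rw [hz]; ring
      rw [hz4]
      field_simp
    rw [hl, ht2]
    ring
  rw [← hS, ← hr, h8]
  exact h7.trans h4

/-- displacement: `(t-1)/(t+1) - (s-1)/(s+1) = 2 (t-s)/((t+1)(s+1))`, `e^(2κd) ≥ 1 + 2κd` -/
theorem om_disp (he : 0 < e) (hκ : 0 < κ) (hK : Real.sinh κ ≤ 1) {x d E Dp : ℝ} {s t : ℂ}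
    (hs : 0 < s.re) (ht : 0 < t.re) (h : om κ x s) (hE : bet e κ * ‖t - s‖ ≤ E)
    (hD : Dp ≤ bet e κ * ‖s + 1‖) (hDE : E < Dp) (hd : 0 ≤ d) (hx : 0 ≤ x)
    (hn : e * E * Real.exp (2 * Real.sinh κ * x) ≤
      (1 - Real.sinh κ ^ 2 / 6) * d * (Dp * (Dp - E))) : om κ (x - d) t := by

  have hK0 : 0 < Real.sinh κ := Real.sinh_pos_iff.2 hκ
  have hb := bet_pos he hκ
  have hE0 : 0 ≤ E := (by positivity : (0:ℝ) ≤ bet e κ * ‖t - s‖).trans hE
  have hDp : 0 < Dp := lt_of_le_of_lt hE0 hDE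
  have hs1 : 0 < ‖s + 1‖ := by
    rw [norm_pos_iff]; intro h0
    have := congrArg Complex.re h0
    simp at this; linarith
  have ht1 : 0 < ‖t + 1‖ := by
    rw [norm_pos_iff]; intro h0
    have := congrArg Complex.re h0
    simp at this; linarith
  unfold om at *
  -- ‖t + 1‖ ≥ ‖s + 1‖ - ‖t - s‖
  have h1 : ‖s + 1‖ ≤ ‖t + 1‖ + ‖t - s‖ := by
    calc ‖s + 1‖ = ‖(t + 1) - (t - s)‖ := by congr 1; ring
      _ ≤ _ := norm_sub_le _ _
  have h2 : Dp - E ≤ bet e κ * ‖t + 1‖ := by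
    have := mul_le_mul_of_nonneg_left h1 hb.le
    rw [mul_add] at this
    linarith
  -- (t-1)(s+1) = (s-1)(t+1) + 2(t-s)
  have h3 : ‖t - 1‖ * ‖s + 1‖ ≤ ‖s - 1‖ * ‖t + 1‖ + 2 * ‖t - s‖ := by
    have h4 : (t - 1) * (s + 1) = (s - 1) * (t + 1) + 2 * (t - s) := by ring
    have h5 := norm_add_le ((s - 1) * (t + 1)) (2 * (t - s))
    rw [← h4, norm_mul, norm_mul, norm_mul] at h5
    simpa using h5
  have h4 : ‖s - 1‖ * ‖t + 1‖ ≤ Real.exp (-(2 * κ * x)) * ‖s + 1‖ * ‖t + 1‖ :=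
    mul_le_mul_of_nonneg_right h ht1.le
  -- 2 ‖t - s‖ ≤ exp(-2κx) 2κd ‖s+1‖‖t+1‖
  have hκK := kappa_ge hκ
  have hKκ := kappa_le hκ
  have h5 : bet e κ * E * Real.exp (2 * κ * x) ≤ κ * d * (Dp * (Dp - E)) := by
    have hDD : 0 < Dp * (Dp - E) := mul_pos hDp (by linarith)
    have h6 : Real.exp (2 * κ * x) ≤ Real.exp (2 * Real.sinh κ * x) := by
      apply Real.exp_le_exp.2
      gcongr
    calc bet e κ * E * Real.exp (2 * κ * x) ≤ bet e κ * E * Real.exp (2 * Real.sinh κ * x) := by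
          gcongr
      _ = Real.sinh κ * (e * E * Real.exp (2 * Real.sinh κ * x)) := by unfold bet; ring
      _ ≤ Real.sinh κ * ((1 - Real.sinh κ ^ 2 / 6) * d * (Dp * (Dp - E))) := by gcongr
      _ = (Real.sinh κ * (1 - Real.sinh κ ^ 2 / 6)) * (d * (Dp * (Dp - E))) := by ring
      _ ≤ κ * (d * (Dp * (Dp - E))) := by
          exact mul_le_mul_of_nonneg_right hκK (by positivity)
      _ = _ := by ring
  have h6 : ‖t - s‖ * Real.exp (2 * κ * x) ≤ κ * d * (‖s + 1‖ * ‖t + 1‖) := by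
    have h7 : Dp * (Dp - E) ≤ (bet e κ * ‖s + 1‖) * (bet e κ * ‖t + 1‖) :=
      mul_le_mul hD h2 (by linarith) (by positivity)
    have h8 : bet e κ ^ 2 * (‖t - s‖ * Real.exp (2 * κ * x)) ≤
        bet e κ ^ 2 * (κ * d * (‖s + 1‖ * ‖t + 1‖)) := by
      calc bet e κ ^ 2 * (‖t - s‖ * Real.exp (2 * κ * x)) =
            bet e κ * (bet e κ * ‖t - s‖) * Real.exp (2 * κ * x) := by ring
        _ ≤ bet e κ * E * Real.exp (2 * κ * x) := by gcongr
        _ ≤ κ * d * (Dp * (Dp - E)) := h5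
        _ ≤ κ * d * ((bet e κ * ‖s + 1‖) * (bet e κ * ‖t + 1‖)) := by gcongr
        _ = _ := by ring
    exact le_of_mul_le_mul_left h8 (by positivity)
  have h7 : 2 * ‖t - s‖ ≤ Real.exp (-(2 * κ * x)) * (2 * κ * d) * (‖s + 1‖ * ‖t + 1‖) := by
    have hp : Real.exp (-(2 * κ * x)) * Real.exp (2 * κ * x) = 1 := by
      rw [← Real.exp_add]; simp
    have h8 := mul_le_mul_of_nonneg_left h6 (Real.exp_pos (-(2 * κ * x))).le
    have h9 : Real.exp (-(2 * κ * x)) * (‖t - s‖ * Real.exp (2 * κ * x)) = ‖t - s‖ := by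
      calc Real.exp (-(2 * κ * x)) * (‖t - s‖ * Real.exp (2 * κ * x)) =
            (Real.exp (-(2 * κ * x)) * Real.exp (2 * κ * x)) * ‖t - s‖ := by ring
        _ = _ := by rw [hp, one_mul]
    rw [h9] at h8
    calc 2 * ‖t - s‖ ≤ 2 * (Real.exp (-(2 * κ * x)) * (κ * d * (‖s + 1‖ * ‖t + 1‖))) := by linarith
      _ = _ := by ring
  have h8 : Real.exp (-(2 * κ * (x - d))) = Real.exp (-(2 * κ * x)) * Real.exp (2 * κ * d) := by
    rw [← Real.exp_add]; congr 1; ring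
  have h9 : 1 + 2 * κ * d ≤ Real.exp (2 * κ * d) := by
    have := Real.add_one_le_exp (2 * κ * d)
    linarith
  refine le_of_mul_le_mul_right ?_ hs1
  calc ‖t - 1‖ * ‖s + 1‖ ≤ ‖s - 1‖ * ‖t + 1‖ + 2 * ‖t - s‖ := h3
    _ ≤ Real.exp (-(2 * κ * x)) * ‖s + 1‖ * ‖t + 1‖ +
        Real.exp (-(2 * κ * x)) * (2 * κ * d) * (‖s + 1‖ * ‖t + 1‖) := add_le_add h4 h7
    _ = Real.exp (-(2 * κ * x)) * (1 + 2 * κ * d) * (‖s + 1‖ * ‖t + 1‖) := by ring
    _ ≤ Real.exp (-(2 * κ * x)) * Real.exp (2 * κ * d) * (‖s + 1‖ * ‖t + 1‖) := by gcongr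
    _ = _ := by rw [h8]; ring

/-- `√S ≤ β |s + 1|` -/
theorem sqrtS_le (he : 0 < e) (hκ : 0 < κ) {s : ℂ} (hs : 0 < s.re) :
    √(Sz e κ s) ≤ bet e κ * ‖s + 1‖ := by

  have hb := bet_pos he hκ
  apply Real.sqrt_le_iff.2
  refine ⟨by positivity, ?_⟩
  rw [mul_pow, sq_add_one, norm_sq_eq]
  unfold Sz yz
  have h1 : bet e κ ^ 2 + (bet e κ * s.im) ^ 2 = bet e κ ^ 2 * (s.im ^ 2 + 1) := by ring
  rw [h1]
  apply mul_le_mul_of_nonneg_left _ (by positivity)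
  nlinarith [sq_nonneg s.re]

/-- the set is convex (`x ≥ 0`, by `om_iff`) -/
theorem om_seg (hκ : 0 < κ) {x : ℝ} (hx : 0 ≤ x) {a b z : ℂ} (ha : 0 < a.re) (hb : 0 < b.re)
    (h1 : om κ x a) (h2 : om κ x b) (hz : z ∈ segment ℝ a b) : om κ x z := by

  have hz0 : 0 < z.re := re_segment ha hb hz
  rw [om_iff hκ ha] at h1
  rw [om_iff hκ hb] at h2
  rw [om_iff hκ hz0]
  obtain ⟨T, hT⟩ : ∃ T, T = Real.tanh (2 * κ * x) := ⟨_, rfl⟩
  have hT0 : 0 ≤ T := by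
    rw [hT, Real.tanh_eq_sinh_div_cosh]
    have : 0 ≤ Real.sinh (2 * κ * x) := Real.sinh_nonneg_iff.2 (by positivity)
    exact div_nonneg this (Real.cosh_pos _).le
  rw [← hT] at h1 h2 ⊢
  obtain ⟨u, v, hu, hv, huv, rfl⟩ := hz
  have hre : (u • a + v • b).re = u * a.re + v * b.re := by simp
  have him : (u • a + v • b).im = u * a.im + v * b.im := by simp
  rw [norm_sq_eq] at h1 h2 ⊢
  rw [hre, him]
  have hq : ∀ p q : ℝ, (u * p + v * q) ^ 2 ≤ u * p ^ 2 + v * q ^ 2 := by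
    intro p q
    have hv' : v = 1 - u := by linarith
    have : u * p ^ 2 + v * q ^ 2 - (u * p + v * q) ^ 2 = u * v * (p - q) ^ 2 := by
      rw [hv']; ring
    have h0 : 0 ≤ u * v * (p - q) ^ 2 := by positivity
    linarith
  have h3 : (u * a.re + v * b.re) ^ 2 + (u * a.im + v * b.im) ^ 2 + 1 ≤
      u * (a.re ^ 2 + a.im ^ 2 + 1) + v * (b.re ^ 2 + b.im ^ 2 + 1) := by
    have := hq a.re b.re
    have := hq a.im b.im
    linarith
  have h4 := mul_le_mul_of_nonneg_right h3 hT0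
  have h5 := mul_le_mul_of_nonneg_left h1 hu
  have h6 := mul_le_mul_of_nonneg_left h2 hv
  linarith

theorem shf_disp (he : 0 < e) (hκ : 0 < κ) {s t : ℂ} (hs : 0 < s.re) (ht : 0 < t.re) :
    ‖shf κ t - shf κ s‖ ≤ ‖t - s‖ := by

  have h3 := congrArg norm (shf_sub' hκ hs ht)
  rw [norm_mul, norm_mul] at h3
  have h1 := one_le_Qk hκ ht
  have h2 := one_le_Qk hκ hs
  have h4 : 1 ≤ ‖Qk κ t‖ * ‖Qk κ s‖ := one_le_mul_of_one_le_of_one_le h1 h2
  rw [← h3]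
  exact le_mul_of_one_le_right (norm_nonneg _) h4

theorem yz_shf (he : 0 < e) (hκ : 0 < κ) {t : ℂ} (ht : 0 < t.re) :
    yz e κ (shf κ t) = yz e κ t / ‖Qk κ t‖ ^ 2 := by

  have hQ : 0 < ‖Qk κ t‖ := norm_pos_iff.2 (Qk_ne hκ ht)
  rw [eq_div_iff (by positivity)]
  unfold yz
  rw [mul_assoc, (shf_parts hκ ht).2]

theorem yz_shf_le (he : 0 < e) (hκ : 0 < κ) {t : ℂ} (ht : 0 < t.re) :
    |yz e κ (shf κ t)| ≤ |yz e κ t| := by

  rw [yz_shf he hκ ht, abs_div, abs_of_nonneg (by positivity : (0:ℝ) ≤ ‖Qk κ t‖ ^ 2)]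
  exact div_le_self (abs_nonneg _) (one_le_pow₀ (one_le_Qk hκ ht))

theorem Sz_shf_le (he : 0 < e) (hκ : 0 < κ) {t : ℂ} (ht : 0 < t.re) :
    Sz e κ (shf κ t) ≤ Sz e κ t := by

  unfold Sz
  have := sq_le_sq.2 (yz_shf_le he hκ ht)
  linarith

theorem rz_shf_le (he : 0 < e) (hκ : 0 < κ) {t : ℂ} (ht : 0 < t.re) :
    rz e κ (shf κ t) ≤ rz e κ t + Sz e κ t / e := by

  have hQ1 := one_le_Qk hκ ht
  have hQ2 : 1 ≤ ‖Qk κ t‖ ^ 2 := one_le_pow₀ hQ1
  have hQ0 : 0 < ‖Qk κ t‖ ^ 2 := by linarith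
  have hK : 0 < Real.sinh κ := Real.sinh_pos_iff.2 hκ
  have hc := Real.one_le_cosh κ
  have hcs := Real.cosh_sq κ
  have hb := bet_pos he hκ
  have hr := (shf_parts hκ ht).1
  have hq := Qsq κ t
  refine le_of_mul_le_mul_right ?_ hQ0
  have h1 : rz e κ (shf κ t) * ‖Qk κ t‖ ^ 2 = bet e κ * ((Real.cosh κ * t.re + Real.sinh κ) *
        (Real.cosh κ + Real.sinh κ * t.re) + Real.cosh κ * t.im * (Real.sinh κ * t.im)) := by
    unfold rz
    rw [mul_assoc, hr]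
  have h2 : (rz e κ t + Sz e κ t / e) * ‖Qk κ t‖ ^ 2 =
      bet e κ * ((t.re + Real.sinh κ * (1 + t.im ^ 2)) *
        ((Real.cosh κ + Real.sinh κ * t.re) ^ 2 + (Real.sinh κ * t.im) ^ 2)) := by
    rw [hq]
    unfold rz Sz yz bet
    field_simp
  rw [h1, h2]
  apply mul_le_mul_of_nonneg_left _ hb.le
  obtain ⟨c, hcd⟩ : ∃ c, c = Real.cosh κ := ⟨_, rfl⟩
  obtain ⟨K, hKd⟩ : ∃ K, K = Real.sinh κ := ⟨_, rfl⟩
  obtain ⟨p, hp⟩ : ∃ p, p = t.re := ⟨_, rfl⟩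
  obtain ⟨y, hy⟩ : ∃ y, y = t.im := ⟨_, rfl⟩
  rw [← hcd] at hc hcs
  rw [← hKd] at hK hcs
  rw [← hp] at ht
  rw [← hcd, ← hKd, ← hp, ← hy]
  have hs : (p + K * (1 + y ^ 2)) * ((c + K * p) ^ 2 + (K * y) ^ 2) -
      ((c * p + K) * (c + K * p) + c * y * (K * y)) =
      K * (1 + y ^ 2) * ((c + K * p) ^ 2 - (c + K * p) + (K * y) ^ 2) +
        K * (c + K * p) * p ^ 2 + 2 * K ^ 2 * p * y ^ 2 := by
    ring
  have h3 : 0 ≤ (c + K * p) ^ 2 - (c + K * p) := by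
    have : 1 ≤ c + K * p := by
      have := mul_pos hK ht
      linarith
    nlinarith
  have h4 : 0 ≤ K * (1 + y ^ 2) * ((c + K * p) ^ 2 - (c + K * p) + (K * y) ^ 2) := by
    have : 0 ≤ (c + K * p) ^ 2 - (c + K * p) + (K * y) ^ 2 := by positivity
    positivity
  have h5 : 0 ≤ K * (c + K * p) * p ^ 2 + 2 * K ^ 2 * p * y ^ 2 := by
    have : 0 < c := by linarith
    positivity
  linarith

/-- `S - S⁺ = y² (1 - |Q|^(-4)) ≤ 2 y² (|Q|² - 1)`, `|Q|² - 1 ≤ (S/e²)(1 + 2 c 46/5 + 9/10)`, `2·(7/2)²·(204/10) ≤ 500` -/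
theorem Sz_shf_ge (he : 200 ≤ e) (hκ : 0 < κ) (hK : Real.sinh κ ≤ 1 / 10) {t : ℂ}
    (ht : 0 < t.re) (hy : |yz e κ t| ≤ 7 / 2) (hr : rz e κ t ≤ 46 / 5 * Sz e κ t / e)
    (hr2 : rz e κ t ^ 2 ≤ 9 / 10 * Sz e κ t) :
    (1 - 500 / e ^ 2) * Sz e κ t ≤ Sz e κ (shf κ t) ∧
      Sz e κ t ≤ (1 + 560 / e ^ 2) * Sz e κ (shf κ t) := by

  have he0 : 0 < e := by linarith
  have hK0 : 0 < Real.sinh κ := Real.sinh_pos_iff.2 hκ
  have hb := bet_pos he0 hκ
  have hc := Real.one_le_cosh κ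
  have hcs := Real.cosh_sq κ
  have hc2 : Real.cosh κ ≤ 1005 / 1000 := by
    by_contra hh
    push_neg at hh
    nlinarith
  have hQ1 : 1 ≤ ‖Qk κ t‖ ^ 2 := one_le_pow₀ (one_le_Qk hκ ht)
  obtain ⟨q, hqd⟩ : ∃ q, q = ‖Qk κ t‖ ^ 2 := ⟨_, rfl⟩
  obtain ⟨S, hS⟩ : ∃ S, S = Sz e κ t := ⟨_, rfl⟩
  obtain ⟨r, hrd⟩ : ∃ r, r = rz e κ t := ⟨_, rfl⟩
  obtain ⟨y, hyd⟩ : ∃ y, y = yz e κ t := ⟨_, rfl⟩
  have hr0 : 0 ≤ r := by rw [hrd]; unfold rz; positivity
  have hS0 : 0 < S := by rw [hS]; unfold Sz; positivity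
  have hS' : Sz e κ (shf κ t) = bet e κ ^ 2 + (y / q) ^ 2 := by
    unfold Sz
    rw [yz_shf he0 hκ ht, ← hyd, ← hqd]
  have hSe : S = bet e κ ^ 2 + y ^ 2 := by rw [hS, hyd]; rfl
  have hQe : e ^ 2 * (q - 1) = S + 2 * Real.cosh κ * r * e + r ^ 2 := by
    rw [hqd, Qsq, hSe, hyd, hrd]
    unfold yz rz bet
    linear_combination e ^ 2 * hcs
  rw [← hrd, ← hS] at hr hr2
  rw [← hyd] at hy
  rw [← hqd] at hQ1
  rw [hS', ← hS]
  have hq2 : e ^ 2 * (q - 1) ≤ 204 / 10 * S := by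
    rw [hQe]
    have h1 : r * e ≤ 46 / 5 * S := by
      rw [le_div_iff₀ he0] at hr
      exact hr
    have h2 : 2 * Real.cosh κ * r * e ≤ 2 * (1005 / 1000) * (46 / 5 * S) := by
      calc 2 * Real.cosh κ * r * e = 2 * Real.cosh κ * (r * e) := by ring
        _ ≤ 2 * (1005 / 1000) * (46 / 5 * S) := by
          apply mul_le_mul _ h1 (by positivity) (by norm_num)
          linarith
    linarith
  have hy2 : y ^ 2 ≤ 49 / 4 := by
    have := sq_le_sq' (by linarith [neg_abs_le y, abs_nonneg y] : -(7 / 2) ≤ y)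
      ((le_abs_self y).trans hy)
    norm_num at this ⊢
    linarith
  have hq0 : 0 < q := by linarith
  have h1 : y ^ 2 - (y / q) ^ 2 ≤ 2 * y ^ 2 * (q - 1) := by
    have h2 : y ^ 2 - (y / q) ^ 2 = y ^ 2 * ((q - 1) * ((q + 1) / q ^ 2)) := by
      field_simp
      ring
    rw [h2]
    have h3 : (q + 1) / q ^ 2 ≤ 2 := by
      rw [div_le_iff₀ (by positivity)]
      nlinarith
    have h4 : 0 ≤ q - 1 := by linarith
    calc y ^ 2 * ((q - 1) * ((q + 1) / q ^ 2)) ≤ y ^ 2 * ((q - 1) * 2) := by gcongr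
      _ = _ := by ring
  have h5 : e ^ 2 * (y ^ 2 - (y / q) ^ 2) ≤ 500 * S := by
    have h4 : 0 ≤ q - 1 := by linarith
    calc e ^ 2 * (y ^ 2 - (y / q) ^ 2) ≤ e ^ 2 * (2 * y ^ 2 * (q - 1)) := by gcongr
      _ = 2 * y ^ 2 * (e ^ 2 * (q - 1)) := by ring
      _ ≤ 2 * (49 / 4) * (204 / 10 * S) := by
          apply mul_le_mul _ hq2 (by positivity) (by norm_num)
          linarith
      _ ≤ 500 * S := by linarith
  have he2 : 0 < e ^ 2 := by positivity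
  have h6 : y ^ 2 - (y / q) ^ 2 ≤ 500 / e ^ 2 * S := by
    rw [div_mul_eq_mul_div, le_div_iff₀ he2]
    linarith
  have h7 : (1 - 500 / e ^ 2) * S ≤ bet e κ ^ 2 + (y / q) ^ 2 := by
    have : (1 - 500 / e ^ 2) * S = S - 500 / e ^ 2 * S := by ring
    rw [this]
    linarith
  refine ⟨h7, ?_⟩
  obtain ⟨u, hu⟩ : ∃ u, u = 1 / e ^ 2 := ⟨_, rfl⟩
  have hu1 : u ≤ 1 / 40000 := by
    rw [hu]
    apply one_div_le_one_div_of_le (by norm_num)
    nlinarith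
  have hu0 : 0 < u := by rw [hu]; positivity
  have e1 : 500 / e ^ 2 = 500 * u := by rw [hu]; ring
  have e2 : 560 / e ^ 2 = 560 * u := by rw [hu]; ring
  rw [e1] at h7
  rw [e2]
  have h8 := mul_le_mul_of_nonneg_left h7 (by positivity : 0 ≤ 1 + 560 * u)
  have h9 : S ≤ (1 + 560 * u) * ((1 - 500 * u) * S) := by
    have : (1 + 560 * u) * ((1 - 500 * u) * S) = S + u * (60 - 280000 * u) * S := by ring
    rw [this]
    have : 0 ≤ u * (60 - 280000 * u) * S := by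
      have : 0 ≤ 60 - 280000 * u := by linarith
      positivity
    linarith
  linarith

/-- displacement of `y`, `r`, `S` by `E`: `|y' - y| ≤ E`, `|r' - r| ≤ E`, `S' ≥ S (1 - 2 E/√S)` -/
theorem disp_z (he : 0 < e) (hκ : 0 < κ) {E : ℝ} {s t : ℂ} (hE : bet e κ * ‖t - s‖ ≤ E) :
    |yz e κ t| ≤ |yz e κ s| + E ∧ rz e κ t ≤ rz e κ s + E ∧
      Sz e κ s * (1 - 2 * E / √(Sz e κ s)) ≤ Sz e κ t ∧
      √(Sz e κ t) ≤ √(Sz e κ s) + E := by

  have hb := bet_pos he hκ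
  have hE0 : 0 ≤ E := (by positivity : (0:ℝ) ≤ bet e κ * ‖t - s‖).trans hE
  have hi : |yz e κ t - yz e κ s| ≤ E := by
    have h1 : yz e κ t - yz e κ s = bet e κ * (t - s).im := by
      unfold yz; rw [Complex.sub_im]; ring
    rw [h1, abs_mul, abs_of_pos hb]
    exact (mul_le_mul_of_nonneg_left (Complex.abs_im_le_norm _) hb.le).trans hE
  have hr : |rz e κ t - rz e κ s| ≤ E := by
    have h1 : rz e κ t - rz e κ s = bet e κ * (t - s).re := by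
      unfold rz; rw [Complex.sub_re]; ring
    rw [h1, abs_mul, abs_of_pos hb]
    exact (mul_le_mul_of_nonneg_left (Complex.abs_re_le_norm _) hb.le).trans hE
  have hS0 : 0 < Sz e κ s := by unfold Sz; positivity
  have hsq := Real.sq_sqrt hS0.le
  have hq0 : 0 < √(Sz e κ s) := Real.sqrt_pos.2 hS0
  have hys : |yz e κ s| ≤ √(Sz e κ s) := by
    apply Real.abs_le_sqrt
    unfold Sz
    nlinarith [sq_nonneg (bet e κ)]
  have hyt : |yz e κ t| ≤ |yz e κ s| + E := by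
    calc |yz e κ t| = |yz e κ s + (yz e κ t - yz e κ s)| := by congr 1; ring
      _ ≤ |yz e κ s| + |yz e κ t - yz e κ s| := abs_add_le _ _
      _ ≤ _ := by linarith
  refine ⟨hyt, ?_, ?_, ?_⟩
  · linarith [le_abs_self (rz e κ t - rz e κ s)]
  · have h1 : Sz e κ s * (1 - 2 * E / √(Sz e κ s)) = Sz e κ s - 2 * E * √(Sz e κ s) := by
      have : Sz e κ s / √(Sz e κ s) = √(Sz e κ s) := by
        rw [div_eq_iff hq0.ne']; linarith [hsq]
      calc Sz e κ s * (1 - 2 * E / √(Sz e κ s)) =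
            Sz e κ s - 2 * E * (Sz e κ s / √(Sz e κ s)) := by ring
        _ = _ := by rw [this]
    rw [h1]
    obtain ⟨D, hD⟩ : ∃ D, D = yz e κ t - yz e κ s := ⟨_, rfl⟩
    have hyt' : yz e κ t = yz e κ s + D := by rw [hD]; ring
    rw [← hD] at hi
    have h2 : Sz e κ t = Sz e κ s + 2 * yz e κ s * D + D ^ 2 := by
      unfold Sz
      rw [hyt']; ring
    have h3 : -(√(Sz e κ s) * E) ≤ yz e κ s * D := by
      have h4 : |yz e κ s * D| ≤ √(Sz e κ s) * E := by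
        rw [abs_mul]
        exact mul_le_mul hys hi (abs_nonneg _) hq0.le
      linarith [neg_abs_le (yz e κ s * D)]
    rw [h2]
    nlinarith [sq_nonneg D]
  · apply Real.sqrt_le_iff.2
    refine ⟨by positivity, ?_⟩
    have h2 : yz e κ t ^ 2 ≤ (|yz e κ s| + E) ^ 2 := by
      rw [← sq_abs (yz e κ t)]
      exact pow_le_pow_left₀ (abs_nonneg _) hyt 2
    have h3 : (|yz e κ s| + E) ^ 2 = yz e κ s ^ 2 + 2 * |yz e κ s| * E + E ^ 2 := by
      rw [add_sq, sq_abs]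
    have h4 : (√(Sz e κ s) + E) ^ 2 = Sz e κ s + 2 * √(Sz e κ s) * E + E ^ 2 := by
      rw [add_sq, hsq]
    rw [h4]
    have h5 : Sz e κ t = bet e κ ^ 2 + yz e κ t ^ 2 := rfl
    have h6 : Sz e κ s = bet e κ ^ 2 + yz e κ s ^ 2 := rfl
    have h7 : 2 * |yz e κ s| * E ≤ 2 * √(Sz e κ s) * E := by gcongr
    rw [h5]
    linarith

end Pool.Agent.helper31.EQB
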