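import Pool.Agent.helper31.EQB.FirstA2
import Pool.Agent.helper31.EQB.Fb
import Pool.Agent.helper31.EQB.Om

/-!
# EQB-13: the centre of the first node

`t0 = i v/β` (`Re t0 = 0`), `s0 = shf κ t0` (`= tanh κ(p+1)`), `Q0 = Qk κ t0 = c + i v/e`, `|Q0|² = 1 + V/e`,
`K s0 = c - 1/Q0`: `β s0 = i v + V/Q0`, `rz s0 = c V/(1+V/e)`, `yz s0 = v/(1+V/e)`.

`LG s0 0 = LA - e log Q(s0) + log f(shf s0)`, `LF s0 0 = LA + log f(s0)`.
Arguments (`arg_fT`, `arg_Qk_shf`, `e_arg_le`; `v ≤ π`): `0 ≤ arg f(shf s0) ≤ e arg Q(shf s0) ≤ e arg Q(s0) ≤ yz s0 ≤ v`, so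
`Im LG ∈ [-v, 0]`, `Im LF ∈ [0, v]`.
Real parts: `|Q(s0)|² - 1 = S0/e² + (2 c r + r²/e)/e ≤ V/e + 2c²V/e + c²V²/e²` (`r = rz s0 ≤ cV`, `S0 ≤ eV`), so
`e log |Q(s0)| ≤ (e/2)(|Q|² - 1) ≤ 8/5 V`; `|f| > 1/2`; hence `LA - 8/5 V - log 2 ≤ Re LG ≤ LA + log |f(shf s0)|` (`|Q| ≥ 1`),
`0 ≤ LA - log 2 ≤ Re LF ≤ LA + log |f(s0)|`.

CENTRE `c = nxc p s0 0` (`first_near` at `(s0, 0)`, `err = V (8/5 V + 5/2 v)/e`), with `α = al s0 0`, `γ = ga s0 0`, `|α|, |γ| ≤ e^a`: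
* `Re (√h v α i) = -√h v Im α`, `Im α = |α| sin (-Im LG/e) ∈ [0, e^a v/e]`.
* `|α²+2αγ-3| ≤ 3 (e^(2a) - 1)`, so `Re (α²+2αγ) ∈ [6 - 3 e^(2a), 3 e^(2a)]`.
* `|Im (α²+2αγ)| ≤ e^(2a) (2v/e + 2v/e)` (`Im LG + Im LF ∈ [-v, v]`), `|α| = e^(-Re LG/e) ≤ e^(gl/e)`.
* `c - s0`: `z1 - β s0 = i v (√h - 1) α + i v (α - 1 + LG/e) + (v/e)(-i LG + v/2) - (1-h) v²/(2e) +
  V [(h/2)(α²+2αγ-3) + (h-1) + (1 - 1/Q0)]` (`βK = V - v²/e`), `1 - √h ≤ K²/7`, `|α - 1 + LG/e| ≤ (|LG|/e)²/2 e^a`,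
  `|-i LG + v/2|² = (Im LG + v/2)² + (Re LG)² ≤ v²/4 + Gr²`, `|1 - 1/Q0| ≤ K²/2 + v/e`.
-/

namespace Pool.Agent.helper31.EQB

open Complex ComplexConjugate Set Filter Topology
open Pool.Agent.helper31.EQ.Y Pool.Agent.helper31.EQ.R
open Pool.Agent.helper12.EQL Pool.Agent.helper12.RP Pool.Agent.helper12.FF Pool.Agent.helper12.RS

/-- `T0 = i v/β` -/
noncomputable def t00 (e κ v : ℝ) : ℂ := ((v / bet e κ : ℝ) : ℂ) * I

variable {e κ v : ℝ}

/-- `hc` is needed for `v = 0` (`tanh = 0` at its poles) -/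
theorem s0_shf (_he : 0 < e) (_hκ : 0 < κ) {p : ℂ} (hc : cosh (κ * p) ≠ 0) (hT : tanh (κ * p) = t00 e κ v) :
    s0 κ p = shf κ (t00 e κ v) := by
  have hC : (Real.cosh κ : ℂ) ≠ 0 := by exact_mod_cast (Real.cosh_pos κ).ne'
  have h1 : sinh (κ * p) = t00 e κ v * cosh (κ * p) := by
    rw [← hT, Complex.tanh_eq_sinh_div_cosh, div_mul_cancel₀ _ hc]
  have h2 : (κ : ℂ) * (p + 1) = κ * p + κ := by ring
  have hT' : (Real.tanh κ : ℂ) = (Real.sinh κ : ℂ) / (Real.cosh κ : ℂ) := by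
    rw [Real.tanh_eq_sinh_div_cosh]; push_cast; rfl
  unfold s0 shf
  rw [h2, Complex.tanh_eq_sinh_div_cosh, Complex.sinh_add, Complex.cosh_add, h1, hT',
    ← Complex.ofReal_sinh, ← Complex.ofReal_cosh]
  obtain ⟨c, hcd⟩ : ∃ c, c = cosh (κ * p) := ⟨_, rfl⟩
  obtain ⟨t, htd⟩ : ∃ t, t = t00 e κ v := ⟨_, rfl⟩
  rw [← hcd, ← htd]
  rw [← hcd] at hc
  have e1 : t * c * (Real.cosh κ : ℂ) + c * (Real.sinh κ : ℂ) =
      (c * (Real.cosh κ : ℂ)) * (t + (Real.sinh κ : ℂ) / (Real.cosh κ : ℂ)) := by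
    field_simp
  have e2 : c * (Real.cosh κ : ℂ) + t * c * (Real.sinh κ : ℂ) =
      (c * (Real.cosh κ : ℂ)) * (1 + (Real.sinh κ : ℂ) / (Real.cosh κ : ℂ) * t) := by
    field_simp
  rw [e1, e2, mul_div_mul_left _ _ (mul_ne_zero hc hC)]

private theorem t00_re : (t00 e κ v).re = 0 := by
  unfold t00
  rw [re_ofReal_mul, I_re, mul_zero]

private theorem t00_im : (t00 e κ v).im = v / bet e κ := by
  unfold t00
  rw [im_ofReal_mul, I_im, mul_one]

/-- `shf t0` in real and imaginary part -/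
private theorem shf_t00 (he : 0 < e) (hκ : 0 < κ) :
    (shf κ (t00 e κ v)).re = Real.cosh κ * Vv e κ v / (1 + Vv e κ v / e) / bet e κ ∧
    (shf κ (t00 e κ v)).im = v / (1 + Vv e κ v / e) / bet e κ := by
  have hK : 0 < Real.sinh κ := Real.sinh_pos_iff.2 hκ
  have hβ : 0 < bet e κ := mul_pos he hK
  have hC := Real.cosh_pos κ
  have hcs := Real.cosh_sq κ
  obtain ⟨τ, hτ⟩ : ∃ τ : ℝ, τ = v / bet e κ := ⟨_, rfl⟩
  have hd := shf_den hκ (τ := t00 e κ v) (by rw [t00_re])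
  have hT : Real.tanh κ = Real.sinh κ / Real.cosh κ := Real.tanh_eq_sinh_div_cosh κ
  have hVe : 1 + Vv e κ v / e = Real.cosh κ ^ 2 * (1 + (Real.tanh κ * τ) ^ 2) := by
    rw [hT, hτ]
    unfold Vv bet
    rw [hcs]
    field_simp
    rw [hcs]
    ring
  have hVn : 0 < 1 + (Real.tanh κ * τ) ^ 2 := by positivity
  have h0 : shf κ (t00 e κ v) * ((1 + (Real.tanh κ * τ) ^ 2 : ℝ) : ℂ) =
      ((Real.tanh κ * (1 + τ ^ 2) : ℝ) : ℂ) + ((τ * (1 - Real.tanh κ ^ 2) : ℝ) : ℂ) * I := by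
    have hn : ((1 + (Real.tanh κ * τ) ^ 2 : ℝ) : ℂ) =
        (1 + (Real.tanh κ : ℂ) * t00 e κ v) * (1 - (Real.tanh κ : ℂ) * t00 e κ v) := by
      unfold t00
      rw [← hτ]
      simp only [ofReal_add, ofReal_mul, ofReal_pow, ofReal_one, ofReal_sub]
      linear_combination ((Real.tanh κ : ℂ) ^ 2 * (τ : ℂ) ^ 2) * I_sq
    rw [hn]
    unfold shf
    rw [← mul_assoc, div_mul_cancel₀ _ hd]
    unfold t00
    rw [← hτ]
    simp only [ofReal_add, ofReal_mul, ofReal_pow, ofReal_one, ofReal_sub]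
    linear_combination (-(Real.tanh κ : ℂ) * (τ : ℂ) ^ 2) * I_sq
  have hre := congrArg Complex.re h0
  have him := congrArg Complex.im h0
  rw [Complex.re_mul_ofReal, Complex.add_re, Complex.ofReal_re, Complex.re_ofReal_mul, I_re,
    mul_zero, add_zero] at hre
  rw [Complex.im_mul_ofReal, Complex.add_im, Complex.ofReal_im, Complex.im_ofReal_mul, I_im,
    mul_one, zero_add] at him
  rw [hVe]
  constructor
  · rw [eq_div_iff hβ.ne', eq_div_iff (by positivity)]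
    have : (shf κ (t00 e κ v)).re * bet e κ * (Real.cosh κ ^ 2 * (1 + (Real.tanh κ * τ) ^ 2)) =
        ((shf κ (t00 e κ v)).re * (1 + (Real.tanh κ * τ) ^ 2)) * (bet e κ * Real.cosh κ ^ 2) := by
      ring
    rw [this, hre, hT, hτ]
    unfold Vv bet
    field_simp
  · rw [eq_div_iff hβ.ne', eq_div_iff (by positivity)]
    have : (shf κ (t00 e κ v)).im * bet e κ * (Real.cosh κ ^ 2 * (1 + (Real.tanh κ * τ) ^ 2)) =
        ((shf κ (t00 e κ v)).im * (1 + (Real.tanh κ * τ) ^ 2)) * (bet e κ * Real.cosh κ ^ 2) := by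
      ring
    rw [this, him, hT, hτ]
    have h1 : v / bet e κ * (1 - (Real.sinh κ / Real.cosh κ) ^ 2) * (bet e κ * Real.cosh κ ^ 2) =
        v * (Real.cosh κ ^ 2 - Real.sinh κ ^ 2) := by
      field_simp
    rw [h1, hcs]
    ring

private theorem Vv_nonneg (he : 0 < e) : 0 ≤ Vv e κ v := by
  unfold Vv
  positivity

private theorem Vv_pos (he : 0 < e) (hκ : 0 < κ) : 0 < Vv e κ v := by
  have hK : 0 < Real.sinh κ := Real.sinh_pos_iff.2 hκ
  have hβ : 0 < bet e κ := mul_pos he hK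
  unfold Vv
  positivity

/-- position of `s0` -/
theorem s0_pos (he : 0 < e) (hκ : 0 < κ) (hv : 0 ≤ v) :
    0 < (shf κ (t00 e κ v)).re ∧ 0 ≤ (shf κ (t00 e κ v)).im ∧
    rz e κ (shf κ (t00 e κ v)) = Real.cosh κ * Vv e κ v / (1 + Vv e κ v / e) ∧
    yz e κ (shf κ (t00 e κ v)) = v / (1 + Vv e κ v / e) ∧
    om κ 1 (shf κ (t00 e κ v)) := by
  have hK : 0 < Real.sinh κ := Real.sinh_pos_iff.2 hκ
  have hβ : 0 < bet e κ := mul_pos he hK
  have hC := Real.cosh_pos κ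
  have hV := Vv_pos (v := v) he hκ
  obtain ⟨h1, h2⟩ := shf_t00 (v := v) he hκ
  refine ⟨?_, ?_, ?_, ?_, ?_⟩
  · rw [h1]; positivity
  · rw [h2]; positivity
  · unfold rz
    rw [h1, mul_div_cancel₀ _ hβ.ne']
  · unfold yz
    rw [h2, mul_div_cancel₀ _ hβ.ne']
  · -- `om κ 0 t0`, one step
    unfold om
    have hd := shf_den hκ (τ := t00 e κ v) (by rw [t00_re])
    have hT : (Real.tanh κ : ℂ) = (Real.sinh κ : ℂ) / (Real.cosh κ : ℂ) := by
      rw [Real.tanh_eq_sinh_div_cosh]; push_cast; rfl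
    have hC0 : (Real.cosh κ : ℂ) ≠ 0 := by exact_mod_cast hC.ne'
    obtain ⟨t, ht⟩ : ∃ t, t = t00 e κ v := ⟨_, rfl⟩
    rw [← ht] at hd ⊢
    have hQ : Qk κ t = (Real.cosh κ : ℂ) * (1 + (Real.tanh κ : ℂ) * t) := by
      rw [Qk, hT]; field_simp
    have hQ0 : Qk κ t ≠ 0 := by rw [hQ]; exact mul_ne_zero hC0 hd
    have hm : shf κ t * Qk κ t = (Real.cosh κ : ℂ) * t + (Real.sinh κ : ℂ) := by
      rw [shf, hQ, mul_comm (Real.cosh κ : ℂ), ← mul_assoc, div_mul_cancel₀ _ hd, hT]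
      field_simp
    have e1 : (shf κ t - 1) * Qk κ t = (Real.exp (-κ) : ℂ) * (t - 1) := by
      have hmm : (Real.exp (-κ) : ℂ) = (Real.cosh κ : ℂ) - (Real.sinh κ : ℂ) := by
        rw [← Real.cosh_sub_sinh]; push_cast; ring
      rw [sub_mul, hm, hmm, one_mul, Qk]
      ring
    have e2 : (shf κ t + 1) * Qk κ t = (Real.exp κ : ℂ) * (t + 1) := by
      have hmm : (Real.exp κ : ℂ) = (Real.cosh κ : ℂ) + (Real.sinh κ : ℂ) := by
        rw [← Real.cosh_add_sinh]; push_cast; ring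
      rw [add_mul, hm, hmm, one_mul, Qk]
      ring
    have e3 : ‖t - 1‖ = ‖t + 1‖ := by
      have : t - 1 = -conj (t + 1) := by
        rw [ht]; unfold t00
        rw [map_add, map_mul, conj_ofReal, conj_I, map_one]
        ring
      rw [this, norm_neg, norm_conj]
    have f1 := congrArg norm e1
    have f2 := congrArg norm e2
    rw [norm_mul, norm_mul, Complex.norm_real, Real.norm_of_nonneg (Real.exp_pos _).le] at f1 f2
    have hQn : 0 < ‖Qk κ t‖ := norm_pos_iff.2 hQ0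
    refine le_of_mul_le_mul_right ?_ hQn
    rw [mul_assoc, f1, f2, e3, ← mul_assoc, ← Real.exp_add]
    apply mul_le_mul_of_nonneg_right _ (norm_nonneg _)
    apply Real.exp_le_exp.2
    linarith

private theorem kappa_ge' (hκ : 0 < κ) : Real.sinh κ * (1 - Real.sinh κ ^ 2 / 6) ≤ κ := by
  have hd : ∀ u : ℝ, HasDerivAt (fun v : ℝ => v - Real.sinh v + Real.sinh v ^ 3 / 6)
      (1 - Real.cosh u + 3 * Real.sinh u ^ 2 * Real.cosh u / 6) u := by
    intro u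
    have h1 := (hasDerivAt_id u).sub (Real.hasDerivAt_sinh u)
    have h2 := ((Real.hasDerivAt_sinh u).pow 3).div_const 6
    refine (h1.add h2).congr_deriv ?_
    norm_num
  have hm : MonotoneOn (fun v : ℝ => v - Real.sinh v + Real.sinh v ^ 3 / 6) (Ici 0) := by
    refine monotoneOn_of_deriv_nonneg (convex_Ici 0)
      (fun u _ => (hd u).continuousAt.continuousWithinAt)
      (fun u _ => (hd u).differentiableAt.differentiableWithinAt) (fun u _ => ?_)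
    rw [(hd u).deriv]
    have h1 := Real.one_le_cosh u
    have h2 := Real.cosh_sq u
    have h3 : 1 - Real.cosh u + 3 * Real.sinh u ^ 2 * Real.cosh u / 6 =
        (Real.cosh u - 1) * ((Real.cosh u - 1) * (Real.cosh u + 2) / 2) := by
      have : Real.sinh u ^ 2 = Real.cosh u ^ 2 - 1 := by linarith
      rw [this]; ring
    rw [h3]
    have h4 : 0 ≤ Real.cosh u - 1 := by linarith
    have h5 : 0 ≤ Real.cosh u + 2 := by linarith
    positivity
  have h := hm (mem_Ici.2 le_rfl) (mem_Ici.2 hκ.le) hκ.le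
  simp only [Real.sinh_zero] at h
  nlinarith [h]

private theorem LA_eq (x : ℝ) : Real.log (2 * Real.cosh (x / 2)) =
    x / 2 + Real.log (1 + Real.exp (-x)) := by
  have h1 : 2 * Real.cosh (x / 2) = Real.exp (x / 2) * (1 + Real.exp (-x)) := by
    rw [Real.cosh_eq, mul_add, ← Real.exp_add]
    have : x / 2 + -x = -(x / 2) := by ring
    rw [this]
    ring
  rw [h1, Real.log_mul (Real.exp_pos _).ne' (by positivity), Real.log_exp]

/-- `log 2 ≤ LA`, `β (1 - K²/6)/2 ≤ LA ≤ β/2 + log (1 + e^(-β))` -/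
theorem LA_facts (he : 0 < e) (hκ : 0 < κ) (_hK : Real.sinh κ ≤ 1 / 10) :
    Real.log 2 ≤ LA e κ ∧ bet e κ * (1 - Real.sinh κ ^ 2 / 6) / 2 ≤ LA e κ ∧
    LA e κ ≤ bet e κ / 2 + Real.log (1 + Real.exp (-(bet e κ))) := by
  have hK : 0 < Real.sinh κ := Real.sinh_pos_iff.2 hκ
  refine ⟨?_, ?_, ?_⟩
  · unfold LA
    apply Real.log_le_log (by norm_num)
    have := Real.one_le_cosh (e * κ / 2)
    linarith
  · unfold LA
    rw [LA_eq]
    have h1 : 0 ≤ Real.log (1 + Real.exp (-(e * κ))) := by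
      apply Real.log_nonneg
      have := Real.exp_pos (-(e * κ))
      linarith
    have h2 := mul_le_mul_of_nonneg_left (kappa_ge' hκ) he.le
    unfold bet
    linarith
  · rw [← LA_eq]
    unfold LA
    apply Real.log_le_log (by have := Real.cosh_pos (e * κ / 2); linarith)
    have h1 : e * κ ≤ bet e κ := mul_le_mul_of_nonneg_left (Real.self_le_sinh_iff.2 hκ.le) he.le
    have h2 : Real.cosh (e * κ / 2) ≤ Real.cosh (bet e κ / 2) := by
      rw [Real.cosh_le_cosh, abs_of_nonneg (by positivity), abs_of_nonneg (by unfold bet; positivity)]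
      linarith
    linarith

private theorem lg_im (s : ℂ) : (lg e κ s).im = -(e * arg (Qk κ s)) + arg (fT e κ (shf κ s)) := by
  unfold lg
  rw [add_im, neg_im, im_ofReal_mul, log_im, log_im]

private theorem lg_re (s : ℂ) : (lg e κ s).re =
    -(e * Real.log ‖Qk κ s‖) + Real.log ‖fT e κ (shf κ s)‖ := by
  unfold lg
  rw [add_re, neg_re, re_ofReal_mul, log_re, log_re]

private theorem LG_zero (s : ℂ) : LG e κ s 0 = (LA e κ : ℂ) + lg e κ s := by
  unfold LG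
  rw [sub_zero, log_one, add_zero]

private theorem LF_zero (s : ℂ) : LF e κ s 0 = (LA e κ : ℂ) + log (fT e κ s) := by
  unfold LF
  rw [mul_zero, add_zero, log_one, add_zero]

private theorem yz_le (he : 0 < e) (hκ : 0 < κ) (hv : 0 ≤ v) :
    0 ≤ yz e κ (shf κ (t00 e κ v)) ∧ yz e κ (shf κ (t00 e κ v)) ≤ v := by
  obtain ⟨h1, h2, h3, h4, -⟩ := s0_pos he hκ hv
  have hV := Vv_nonneg (e := e) (κ := κ) (v := v) he
  rw [h4]
  constructor
  · positivity
  · apply div_le_self hv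
    have : 0 ≤ Vv e κ v / e := by positivity
    linarith

/-- imaginary parts -/
theorem L_im (he2 : 200 ≤ e) (hκ : 0 < κ) (hv : 0 ≤ v) (hv1 : v ≤ Real.pi) :
    -v ≤ (LG e κ (shf κ (t00 e κ v)) 0).im ∧ (LG e κ (shf κ (t00 e κ v)) 0).im ≤ 0 ∧
    0 ≤ (LF e κ (shf κ (t00 e κ v)) 0).im ∧ (LF e κ (shf κ (t00 e κ v)) 0).im ≤ v := by
  have he : 0 < e := by linarith
  obtain ⟨h1, h2, h3, h4, -⟩ := s0_pos he hκ hv
  obtain ⟨h5, h6⟩ := yz_le he hκ hv
  obtain ⟨s, hs⟩ : ∃ s, s = shf κ (t00 e κ v) := ⟨_, rfl⟩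
  rw [← hs] at h1 h2 h5 h6 ⊢
  rw [LG_zero, LF_zero, add_im, add_im, ofReal_im, zero_add, zero_add, lg_im, log_im]
  have h7 := e_arg_le he hκ h1
  rw [abs_of_nonneg h5] at h7
  have h8 := (abs_le.1 h7).2
  have h9 := arg_Qk_shf hκ h1 h2
  have h10 := mul_le_mul_of_nonneg_left h9.2 he.le
  have h11 := arg_fT he hκ h1 h2 (by linarith)
  have h12 := arg_fT he hκ (shf_re hκ h1.le) (shf_im hκ h1 h2) (by linarith)
  refine ⟨by linarith [h12.1], by linarith [h12.2], h11.1, by linarith [h11.2]⟩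

private theorem log_half_le (he : 0 < e) (hκ : 0 < κ) {t : ℂ} (ht : 0 < t.re) :
    -Real.log 2 ≤ Real.log ‖fT e κ t‖ := by
  have h1 := half_lt_re_fT he hκ ht
  have h2 := Complex.re_le_norm (fT e κ t)
  rw [← Real.log_inv]
  apply Real.log_le_log (by norm_num)
  rw [← one_div]
  linarith

/-- real parts -/
theorem L_re (he : 200 ≤ e) (hκ : 0 < κ) (hK : Real.sinh κ ≤ 1 / 10) (hv : 0 ≤ v)
    (hV : Vv e κ v ≤ e / 100) {lf0 lf1 : ℝ}
    (h0 : Real.log ‖fT e κ (shf κ (t00 e κ v))‖ ≤ lf0)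
    (h1 : Real.log ‖fT e κ (shf κ (shf κ (t00 e κ v)))‖ ≤ lf1) :
    LA e κ - 8 / 5 * Vv e κ v - Real.log 2 ≤ (LG e κ (shf κ (t00 e κ v)) 0).re ∧
    (LG e κ (shf κ (t00 e κ v)) 0).re ≤ LA e κ + lf1 ∧
    0 ≤ (LF e κ (shf κ (t00 e κ v)) 0).re ∧
    (LF e κ (shf κ (t00 e κ v)) 0).re ≤ LA e κ + lf0 := by
  have he0 : 0 < e := by linarith
  obtain ⟨g1, g2, g3, g4, -⟩ := s0_pos he0 hκ hv
  obtain ⟨h5, h6⟩ := yz_le he0 hκ hv
  have hLA := (LA_facts he0 hκ hK).1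
  obtain ⟨s, hs⟩ : ∃ s, s = shf κ (t00 e κ v) := ⟨_, rfl⟩
  rw [← hs] at g1 g2 g3 g4 h5 h6 h0 h1 ⊢
  rw [LG_zero, LF_zero, add_re, add_re, ofReal_re, lg_re, log_re]
  have hf0 := log_half_le he0 hκ g1
  have hf1 := log_half_le he0 hκ (shf_re hκ g1.le)
  have hQ1 := one_le_Qk hκ g1
  have hlQ : 0 ≤ Real.log ‖Qk κ s‖ := Real.log_nonneg hQ1
  have hQu : e * Real.log ‖Qk κ s‖ ≤ 8 / 5 * Vv e κ v := by
    obtain ⟨V, hVd⟩ : ∃ V, V = Vv e κ v := ⟨_, rfl⟩
    have hV0 : 0 ≤ V := by rw [hVd]; exact Vv_nonneg he0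
    rw [← hVd] at g3 g4 hV ⊢
    have hC := Real.cosh_pos κ
    have hcs := Real.cosh_sq κ
    have hK0 : 0 < Real.sinh κ := Real.sinh_pos_iff.2 hκ
    have hC2 : Real.cosh κ ^ 2 ≤ 101 / 100 := by
      have : Real.sinh κ ^ 2 ≤ (1 / 10) ^ 2 := pow_le_pow_left₀ hK0.le hK 2
      rw [hcs]; linarith
    -- `r ≤ c V`
    have hr : rz e κ s ≤ Real.cosh κ * V := by
      rw [g3]
      apply div_le_self (by positivity)
      have : 0 ≤ V / e := by positivity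
      linarith
    have hr0 : 0 ≤ rz e κ s := by
      rw [g3]; positivity
    have hQ2 : ‖Qk κ s‖ ^ 2 = 1 + (bet e κ ^ 2 + yz e κ s ^ 2) / e ^ 2 +
        (2 * Real.cosh κ * rz e κ s + rz e κ s ^ 2 / e) / e := by
      obtain ⟨q1, q2⟩ := Qk_parts κ s
      rw [← Complex.normSq_eq_norm_sq, Complex.normSq_apply, q1, q2]
      unfold yz rz bet
      field_simp
      linear_combination hcs
    have hS : bet e κ ^ 2 + yz e κ s ^ 2 ≤ e * V := by
      have h7 : yz e κ s ^ 2 ≤ v ^ 2 := pow_le_pow_left₀ h5 h6 2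
      have h8 : e * V = bet e κ ^ 2 + v ^ 2 := by
        rw [hVd]; unfold Vv; field_simp
      linarith
    have h9 : ‖Qk κ s‖ ^ 2 - 1 ≤ 16 / 5 * V / e := by
      have h10 : (bet e κ ^ 2 + yz e κ s ^ 2) / e ^ 2 ≤ V / e := by
        rw [div_le_div_iff₀ (by positivity) he0]
        nlinarith
      have h11 : 2 * Real.cosh κ * rz e κ s ≤ 2 * (101 / 100 * V) := by
        have : Real.cosh κ * rz e κ s ≤ Real.cosh κ * (Real.cosh κ * V) :=
          mul_le_mul_of_nonneg_left hr hC.le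
        have h12 : Real.cosh κ * (Real.cosh κ * V) = Real.cosh κ ^ 2 * V := by ring
        have h13 := mul_le_mul_of_nonneg_right hC2 hV0
        linarith
      have h14 : rz e κ s ^ 2 / e ≤ 101 / 10000 * V := by
        rw [div_le_iff₀ he0]
        have h15 : rz e κ s ^ 2 ≤ (Real.cosh κ * V) ^ 2 := pow_le_pow_left₀ hr0 hr 2
        have h16 : (Real.cosh κ * V) ^ 2 = Real.cosh κ ^ 2 * (V * V) := by ring
        have h17 : Real.cosh κ ^ 2 * (V * V) ≤ 101 / 100 * (V * (e / 100)) := by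
          apply mul_le_mul hC2 _ (by positivity) (by norm_num)
          exact mul_le_mul_of_nonneg_left hV hV0
        linarith
      have h18 : (2 * Real.cosh κ * rz e κ s + rz e κ s ^ 2 / e) / e ≤
          (2 * (101 / 100 * V) + 101 / 10000 * V) / e :=
        div_le_div_of_nonneg_right (by linarith) he0.le
      rw [hQ2]
      have h19 : 16 / 5 * V / e = V / e + (11 / 5 * V) / e := by ring
      have h20 : (2 * (101 / 100 * V) + 101 / 10000 * V) / e ≤ (11 / 5 * V) / e :=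
        div_le_div_of_nonneg_right (by linarith) he0.le
      linarith
    have hQp : 0 < ‖Qk κ s‖ := by linarith
    have h21 : Real.log (‖Qk κ s‖ ^ 2) ≤ ‖Qk κ s‖ ^ 2 - 1 :=
      Real.log_le_sub_one_of_pos (by positivity)
    rw [Real.log_pow] at h21
    push_cast at h21
    have h22 : Real.log ‖Qk κ s‖ ≤ 8 / 5 * V / e := by
      have : 16 / 5 * V / e = 2 * (8 / 5 * V / e) := by ring
      linarith
    rw [le_div_iff₀ he0] at h22
    linarith
  have hlQ' := mul_nonneg he0.le hlQ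
  refine ⟨by linarith, by linarith, by linarith, by linarith⟩

end Pool.Agent.helper31.EQB
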