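import Pool.Agent.helper31.EQB.FirstB

/-!
# EQB-13: the centre of the first node (see the header of FirstB)
-/

namespace Pool.Agent.helper31.EQB

open Complex ComplexConjugate Set Filter Topology
open Pool.Agent.helper31.EQ.Y Pool.Agent.helper31.EQ.R
open Pool.Agent.helper12.EQL Pool.Agent.helper12.RP Pool.Agent.helper12.FF Pool.Agent.helper12.RS

variable {e κ v : ℝ}

private theorem cz_one {w : ℂ} {b : ℝ} (hw : ‖w‖ ≤ b) : ‖exp (-w) - 1‖ ≤ Real.exp b - 1 := by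
  have h := Complex.norm_exp_sub_sum_le_exp_norm_sub_sum (-w) 1
  simp only [Finset.range_one, Finset.sum_singleton, pow_zero, Nat.factorial_zero, Nat.cast_one,
    div_one, norm_neg] at h
  have h2 := Real.exp_le_exp.2 hw
  linarith

private theorem cz_norm {w : ℂ} {b : ℝ} (hw : ‖w‖ ≤ b) : ‖exp (-w)‖ ≤ Real.exp b := by
  rw [Complex.norm_exp]
  refine Real.exp_le_exp.2 ((Complex.re_le_norm _).trans ?_)
  rwa [norm_neg]

private theorem cz_im {w : ℂ} {b y : ℝ} (hw : ‖w‖ ≤ b) (hy : |w.im| ≤ y) :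
    |(exp (-w)).im| ≤ Real.exp b * y := by
  rw [Complex.exp_im, abs_mul, abs_of_pos (Real.exp_pos _)]
  have h1 : Real.exp (-w).re ≤ Real.exp b := by
    refine Real.exp_le_exp.2 ((Complex.re_le_norm _).trans ?_)
    rwa [norm_neg]
  have h2 : |Real.sin (-w).im| ≤ y := by
    refine (Real.abs_sin_le_abs (x := (-w).im)).trans ?_
    rwa [Complex.neg_im, abs_neg]
  exact mul_le_mul h1 h2 (abs_nonneg _) (Real.exp_pos _).le

private theorem cz_two {w : ℂ} {a b : ℝ} (hw : ‖w‖ ≤ a) (ha : a ≤ 1 / 18) (hb : ‖w‖ ≤ b) :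
    ‖exp (-w) - 1 + w‖ ≤ b ^ 2 / 2 * Real.exp a := by
  have h := Complex.norm_exp_sub_sum_le_exp_norm_sub_sum (-w) 2
  simp only [Finset.sum_range_succ, Finset.range_zero, Finset.sum_empty, pow_zero,
    Nat.factorial_zero, Nat.cast_one, div_one, pow_one, Nat.factorial_one, norm_neg,
    zero_add] at h
  have h0 : 0 ≤ ‖w‖ := norm_nonneg _
  have h1 : exp (-w) - 1 + w = exp (-w) - (1 + -w) := by ring
  rw [h1]
  refine h.trans ?_
  have h2 := Real.exp_bound' h0 (by linarith : ‖w‖ ≤ 1) (n := 3) (by norm_num)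
  simp only [Finset.sum_range_succ, Finset.range_zero, Finset.sum_empty, pow_zero,
    Nat.factorial, Nat.cast_one, div_one, pow_one] at h2
  norm_num at h2
  have h3 : 1 + ‖w‖ ≤ Real.exp a := by
    have := Real.add_one_le_exp ‖w‖
    have := Real.exp_le_exp.2 hw
    linarith
  have h4 : ‖w‖ ^ 2 ≤ b ^ 2 := by gcongr
  have h5 : ‖w‖ ^ 2 / 2 * (1 + ‖w‖) ≤ b ^ 2 / 2 * Real.exp a :=
    mul_le_mul (by linarith) h3 (by positivity) (by positivity)
  nlinarith [pow_nonneg h0 3]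

private theorem cz_sqrt {h K : ℝ} (h0 : 0 ≤ h) (h1 : 1 - K ^ 2 / 4 ≤ h) (hK : 0 ≤ K)
    (hK1 : K ≤ 1 / 10) : 1 - √h ≤ K ^ 2 / 7 := by
  have e1 : √h * √h = h := Real.mul_self_sqrt h0
  have e2 : K ^ 2 ≤ (1 / 10) ^ 2 := by gcongr
  have e3 : 3 / 4 ≤ √h := by
    apply Real.le_sqrt_of_sq_le
    norm_num at e2 ⊢
    linarith
  nlinarith [sq_nonneg K]

/-- `β s0 = i v + V/Q0`, `|1 - 1/Q0| ≤ K²/2 + v/e` -/
private theorem cz_s0 (he : 0 < e) (hκ : 0 < κ) (hv : 0 ≤ v) :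
    (bet e κ : ℂ) * shf κ (t00 e κ v) = (v : ℂ) * I + (Vv e κ v : ℂ) / Qk κ (t00 e κ v) ∧
    ‖1 - 1 / Qk κ (t00 e κ v)‖ ≤ Real.sinh κ ^ 2 / 2 + v / e := by
  have hK : 0 < Real.sinh κ := Real.sinh_pos_iff.2 hκ
  have hβ : 0 < bet e κ := mul_pos he hK
  obtain ⟨-, hh0, hh1, -, -, -, hc⟩ := hh_facts hκ
  have hch : 1 ≤ Real.cosh κ := Real.one_le_cosh κ
  have hKt : (Real.sinh κ : ℂ) * t00 e κ v = ((v / e : ℝ) : ℂ) * I := by
    unfold t00
    rw [← mul_assoc, ← ofReal_mul]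
    congr 2
    unfold bet
    field_simp
  have hQ : Qk κ (t00 e κ v) = (Real.cosh κ : ℂ) + ((v / e : ℝ) : ℂ) * I := by
    unfold Qk
    rw [hKt]
  have hre : (Qk κ (t00 e κ v)).re = Real.cosh κ := by
    rw [hQ]
    simp [Complex.add_re, Complex.mul_re]
  have hn : 1 ≤ ‖Qk κ (t00 e κ v)‖ := by
    have := Complex.re_le_norm (Qk κ (t00 e κ v))
    rw [hre] at this
    linarith
  have hQ0 : Qk κ (t00 e κ v) ≠ 0 := by
    intro h
    rw [h, norm_zero] at hn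
    linarith
  have hcC : (Real.cosh κ : ℂ) ≠ 0 := by
    exact_mod_cast (by linarith : Real.cosh κ ≠ 0)
  have hcs : (Real.cosh κ : ℂ) ^ 2 = 1 + (Real.sinh κ : ℂ) ^ 2 := by
    have := Real.cosh_sq κ
    have h2 : ((Real.cosh κ ^ 2 : ℝ) : ℂ) = ((Real.sinh κ ^ 2 + 1 : ℝ) : ℂ) := by rw [this]
    push_cast at h2
    push_cast
    rw [h2]
    ring
  constructor
  · have hs : shf κ (t00 e κ v) =
        ((Real.cosh κ : ℂ) * t00 e κ v + (Real.sinh κ : ℂ)) / Qk κ (t00 e κ v) := by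
      unfold shf
      have ht : (Real.tanh κ : ℂ) = (Real.sinh κ : ℂ) / (Real.cosh κ : ℂ) := by
        rw [Real.tanh_eq_sinh_div_cosh]
        push_cast
        rfl
      rw [ht]
      have hd : 1 + (Real.sinh κ : ℂ) / (Real.cosh κ : ℂ) * t00 e κ v =
          Qk κ (t00 e κ v) / (Real.cosh κ : ℂ) := by
        unfold Qk
        field_simp
      rw [hd]
      field_simp
    rw [hs]
    have he0 : (e : ℂ) ≠ 0 := by exact_mod_cast he.ne'
    have hnum : (bet e κ : ℂ) * ((Real.cosh κ : ℂ) * t00 e κ v + (Real.sinh κ : ℂ)) =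
        (v : ℂ) * I * Qk κ (t00 e κ v) + (Vv e κ v : ℂ) := by
      rw [hQ]
      have hb : (bet e κ : ℂ) * t00 e κ v = (v : ℂ) * I := by
        unfold t00
        rw [← mul_assoc, ← ofReal_mul]
        congr 2
        field_simp
      have hI : I ^ 2 = -1 := I_sq
      have h1 : (bet e κ : ℂ) * ((Real.cosh κ : ℂ) * t00 e κ v + (Real.sinh κ : ℂ)) =
          (Real.cosh κ : ℂ) * ((v : ℂ) * I) + (bet e κ : ℂ) * (Real.sinh κ : ℂ) := by
        linear_combination (Real.cosh κ : ℂ) * hb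
      rw [h1]
      unfold Vv bet
      push_cast
      field_simp
      linear_combination -(v : ℂ) ^ 2 * hI
    rw [mul_div_assoc', hnum, add_div, mul_div_assoc, div_self hQ0, mul_one]
  · have h1 : 1 - 1 / Qk κ (t00 e κ v) =
        (((Real.cosh κ - 1 : ℝ) : ℂ) + ((v / e : ℝ) : ℂ) * I) / Qk κ (t00 e κ v) := by
      rw [eq_div_iff hQ0, sub_mul, one_mul, div_mul_cancel₀ _ hQ0, hQ]
      push_cast
      ring
    rw [h1, norm_div]
    have h2 : ‖((Real.cosh κ - 1 : ℝ) : ℂ) + ((v / e : ℝ) : ℂ) * I‖ ≤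
        Real.sinh κ ^ 2 / 2 + v / e := by
      refine (norm_add_le _ _).trans ?_
      rw [norm_mul, Complex.norm_I, mul_one, Complex.norm_real, Complex.norm_real,
        Real.norm_of_nonneg (by linarith : 0 ≤ Real.cosh κ - 1),
        Real.norm_of_nonneg (div_nonneg hv he.le), hc]
      nlinarith [sq_nonneg (Real.sinh κ)]
    have h3 : 0 ≤ Real.sinh κ ^ 2 / 2 + v / e := by positivity
    rw [div_le_iff₀ (by linarith)]
    nlinarith

/-- **The centre.** -/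
theorem cen_z {p : ℂ} {a gl Gr G2 gt err : ℝ} (H : FH e κ v a (shf κ (t00 e κ v)) 0)
    (hT : tanh (κ * p) = t00 e κ v) (hv1 : v ≤ Real.pi)
    (hgl : -gl ≤ (LG e κ (shf κ (t00 e κ v)) 0).re)
    (hGr : |(LG e κ (shf κ (t00 e κ v)) 0).re| ≤ Gr) (hG2 : Gr ^ 2 + v ^ 2 / 4 ≤ G2 ^ 2)
    (hG20 : 0 ≤ G2) (hgt : ‖LG e κ (shf κ (t00 e κ v)) 0‖ ≤ gt * e)
    (herr : err = Vv e κ v * (8 / 5 * Vv e κ v + 5 / 2 * v) / e) :
    hh κ * Vv e κ v * (3 - 3 / 2 * Real.exp (2 * a)) - hh κ * (bet e κ ^ 2 / e) / 2 -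
      v ^ 2 / e * Real.exp a - err ≤ rz e κ (nxc e κ p (shf κ (t00 e κ v)) 0) ∧
    rz e κ (nxc e κ p (shf κ (t00 e κ v)) 0) ≤
      hh κ * Vv e κ v * (3 / 2 * Real.exp (2 * a)) - hh κ * (bet e κ ^ 2 / e) / 2 + err ∧
    |yz e κ (nxc e κ p (shf κ (t00 e κ v)) 0)| ≤
      v * Real.exp (gl / e) + 2 * Vv e κ v * v * Real.exp (2 * a) / e + err ∧
    bet e κ * ‖nxc e κ p (shf κ (t00 e κ v)) 0 - shf κ (t00 e κ v)‖ ≤
      v / e * G2 + v * Real.exp a * (gt ^ 2 / 2 + Real.sinh κ ^ 2 / 7) +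
      Real.sinh κ ^ 2 * v ^ 2 / (8 * e) +
      Vv e κ v * (3 / 2 * (Real.exp (2 * a) - 1) + 3 / 4 * Real.sinh κ ^ 2 + v / e) + err := by
  have he : 0 < e := by linarith [H.he]
  have hv0 := H.v0
  have hK : 0 < Real.sinh κ := Real.sinh_pos_iff.2 H.hκ
  have hβ : 0 < bet e κ := mul_pos he hK
  obtain ⟨-, hh0, hh1, hh2, -, -, -⟩ := hh_facts H.hκ
  obtain ⟨hG1, hG3, hF1, hF3⟩ := L_im (κ := κ) H.he H.hκ hv0 hv1
  have hnear := first_near H hT
  rw [← herr] at hnear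
  obtain ⟨hs0, hQi⟩ := cz_s0 (κ := κ) he H.hκ hv0
  have hLG := H.hG
  have hLF := H.hF
  obtain ⟨s, hs⟩ : ∃ s, s = shf κ (t00 e κ v) := ⟨_, rfl⟩
  rw [← hs] at hgl hGr hgt hG1 hG3 hF1 hF3 hnear hs0 hLG hLF ⊢
  obtain ⟨c, hc⟩ : ∃ c, c = nxc e κ p s 0 := ⟨_, rfl⟩
  rw [← hc] at hnear ⊢
  obtain ⟨G, hGd⟩ : ∃ G, G = LG e κ s 0 := ⟨_, rfl⟩
  obtain ⟨F, hFd⟩ : ∃ F, F = LF e κ s 0 := ⟨_, rfl⟩
  rw [← hGd] at hgl hGr hgt hG1 hG3 hLG
  rw [← hFd] at hF1 hF3 hLF
  have hα : al e κ s 0 = exp (-(G / e)) := by unfold al; rw [hGd]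
  have hγ : ga e κ s 0 = exp (-(F / e)) := by unfold ga; rw [hFd]
  have hαα : al e κ s 0 ^ 2 = exp (-(2 * G / e)) := by
    rw [hα, ← Complex.exp_nat_mul]
    congr 1
    push_cast
    ring
  have hαγ : al e κ s 0 * ga e κ s 0 = exp (-((G + F) / e)) := by
    rw [hα, hγ, ← exp_add]
    congr 1
    ring
  have ndiv : ∀ (z : ℂ) (r : ℝ), ‖z‖ ≤ r * e → ‖z / e‖ ≤ r := by
    intro z r h
    rw [norm_div, Complex.norm_real, Real.norm_of_nonneg he.le, div_le_iff₀ he]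
    exact h
  have hn1 : ‖G / e‖ ≤ a := ndiv _ _ hLG
  have hn2 : ‖2 * G / e‖ ≤ 2 * a := by
    apply ndiv
    rw [norm_mul, Complex.norm_ofNat]
    linarith
  have hn3 : ‖(G + F) / e‖ ≤ 2 * a := by
    apply ndiv
    refine (norm_add_le _ _).trans ?_
    linarith
  have idiv : ∀ (z : ℂ) (r : ℝ), |z.im| ≤ r → |(z / e).im| ≤ r / e := by
    intro z r h
    rw [Complex.div_ofReal_im, abs_div, abs_of_pos he]
    gcongr
  have hi2 : |(2 * G / e).im| ≤ 2 * v / e := by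
    apply idiv
    have : (2 * G).im = 2 * G.im := by simp
    rw [this, abs_le]
    constructor <;> linarith
  have hi3 : |((G + F) / e).im| ≤ v / e := by
    apply idiv
    rw [Complex.add_im, abs_le]
    constructor <;> linarith
  have hx0 : 0 ≤ v / e := div_nonneg hv0 he.le
  have hV0 : 0 ≤ Vv e κ v := by unfold Vv; positivity
  have hE1 : 0 < Real.exp a := Real.exp_pos _
  have hE2 : 0 < Real.exp (2 * a) := Real.exp_pos _
  have hq1 : √(hh κ) ≤ 1 := Real.sqrt_le_one.2 hh1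
  have hq0 : 0 ≤ √(hh κ) := Real.sqrt_nonneg _
  -- the quadratic part
  obtain ⟨B, hB⟩ : ∃ B, B = al e κ s 0 ^ 2 + 2 * al e κ s 0 * ga e κ s 0 := ⟨_, rfl⟩
  have hB' : B = exp (-(2 * G / e)) + 2 * exp (-((G + F) / e)) := by
    rw [hB, ← hαα, ← hαγ]; ring
  have hB3 : ‖B - 3‖ ≤ 3 * (Real.exp (2 * a) - 1) := by
    have h1 : B - 3 = (exp (-(2 * G / e)) - 1) + 2 * (exp (-((G + F) / e)) - 1) := by
      rw [hB']; ring
    rw [h1]
    refine (norm_add_le _ _).trans ?_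
    rw [norm_mul, Complex.norm_ofNat]
    have h2 := cz_one hn2
    have h3 := cz_one hn3
    linarith
  have hBn : ‖B‖ ≤ 3 * Real.exp (2 * a) := by
    rw [hB']
    refine (norm_add_le _ _).trans ?_
    rw [norm_mul, Complex.norm_ofNat]
    have h2 := cz_norm hn2
    have h3 := cz_norm hn3
    linarith
  have hBi : |B.im| ≤ Real.exp (2 * a) * (4 * (v / e)) := by
    have h1 : B.im = (exp (-(2 * G / e))).im + 2 * (exp (-((G + F) / e))).im := by
      rw [hB']; simp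
    rw [h1]
    refine (abs_add_le _ _).trans ?_
    rw [abs_mul, abs_of_pos (by norm_num : (0 : ℝ) < 2)]
    have h2 := cz_im hn2 hi2
    have h3 := cz_im hn3 hi3
    have h4 : Real.exp (2 * a) * (2 * v / e) = 2 * (Real.exp (2 * a) * (v / e)) := by ring
    rw [h4] at h2
    linarith
  have hBre1 : 6 - 3 * Real.exp (2 * a) ≤ B.re := by
    have h1 := (abs_le.1 (Complex.abs_re_le_norm (B - 3))).1
    have h2 : (B - 3).re = B.re - 3 := by simp
    rw [h2] at h1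
    linarith
  have hBre2 : B.re ≤ 3 * Real.exp (2 * a) := (Complex.re_le_norm B).trans hBn
  -- `α`
  have hαn : ‖al e κ s 0‖ ≤ Real.exp a := by rw [hα]; exact cz_norm hn1
  have hαg : ‖al e κ s 0‖ ≤ Real.exp (gl / e) := by
    rw [hα, Complex.norm_exp]
    apply Real.exp_le_exp.2
    rw [Complex.neg_re, Complex.div_ofReal_re]
    rw [← neg_div]
    gcongr
    linarith
  have hαi0 : 0 ≤ (al e κ s 0).im ∧ (al e κ s 0).im ≤ Real.exp a * (v / e) := by
    have h1 : (-(G / e)).im = -G.im / e := by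
      rw [Complex.neg_im, Complex.div_ofReal_im, neg_div]
    constructor
    · rw [hα, Complex.exp_im, h1]
      refine mul_nonneg (Real.exp_pos _).le (Real.sin_nonneg_of_nonneg_of_le_pi ?_ ?_)
      · apply div_nonneg _ he.le
        linarith
      · rw [div_le_iff₀ he]
        have : Real.pi * 1 ≤ Real.pi * e := by
          apply mul_le_mul_of_nonneg_left _ Real.pi_pos.le
          linarith [H.he]
        linarith
    · have h2 : |(G / e).im| ≤ v / e := by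
        apply idiv
        rw [abs_le]
        constructor <;> linarith
      have h3 := cz_im hn1 h2
      rw [← hα] at h3
      exact (le_abs_self _).trans h3
  -- parts of `z1`
  have hbK : bet e κ * Real.sinh κ = bet e κ ^ 2 / e := by
    unfold bet; field_simp
  have hz : z1 e κ v s 0 = ((√(hh κ) * v : ℝ) : ℂ) * al e κ s 0 * I -
      ((hh κ * (bet e κ ^ 2 / e) / 2 : ℝ) : ℂ) + ((hh κ * Vv e κ v / 2 : ℝ) : ℂ) * B := by
    unfold z1
    rw [hbK, hB]
  have hzre : (z1 e κ v s 0).re = -(√(hh κ) * v * (al e κ s 0).im) -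
      hh κ * (bet e κ ^ 2 / e) / 2 + hh κ * Vv e κ v / 2 * B.re := by
    rw [hz, Complex.add_re, Complex.sub_re, Complex.ofReal_re, Complex.re_ofReal_mul, mul_assoc,
      Complex.re_ofReal_mul]
    have : (al e κ s 0 * I).re = -(al e κ s 0).im := by simp
    rw [this]
    ring
  have hzim : (z1 e κ v s 0).im = √(hh κ) * v * (al e κ s 0).re +
      hh κ * Vv e κ v / 2 * B.im := by
    rw [hz, Complex.add_im, Complex.sub_im, Complex.ofReal_im, Complex.im_ofReal_mul, mul_assoc,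
      Complex.im_ofReal_mul]
    have : (al e κ s 0 * I).im = (al e κ s 0).re := by simp
    rw [this]
    ring
  have hbc : (bet e κ : ℂ) * c - z1 e κ v s 0 = (bet e κ : ℂ) * c - z1 e κ v s 0 := rfl
  have hcre : |rz e κ c - (z1 e κ v s 0).re| ≤ err := by
    refine le_trans ?_ hnear
    have h1 : rz e κ c - (z1 e κ v s 0).re = ((bet e κ : ℂ) * c - z1 e κ v s 0).re := by
      rw [Complex.sub_re, Complex.re_ofReal_mul]; rfl
    rw [h1]
    exact Complex.abs_re_le_norm _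
  have hcim : |yz e κ c - (z1 e κ v s 0).im| ≤ err := by
    refine le_trans ?_ hnear
    have h1 : yz e κ c - (z1 e κ v s 0).im = ((bet e κ : ℂ) * c - z1 e κ v s 0).im := by
      rw [Complex.sub_im, Complex.im_ofReal_mul]; rfl
    rw [h1]
    exact Complex.abs_im_le_norm _
  have hhV : 0 ≤ hh κ * Vv e κ v / 2 := by positivity
  have hqv : 0 ≤ √(hh κ) * v := by positivity
  have hqv1 : √(hh κ) * v ≤ v := mul_le_of_le_one_left hv0 hq1
  refine ⟨?_, ?_, ?_, ?_⟩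
  · have h1 := (abs_le.1 hcre).1
    rw [hzre] at h1
    have h2 : √(hh κ) * v * (al e κ s 0).im ≤ v * (Real.exp a * (v / e)) :=
      mul_le_mul hqv1 hαi0.2 hαi0.1 hv0
    have h3 : hh κ * Vv e κ v / 2 * (6 - 3 * Real.exp (2 * a)) ≤
        hh κ * Vv e κ v / 2 * B.re := mul_le_mul_of_nonneg_left hBre1 hhV
    have h4 : v * (Real.exp a * (v / e)) = v ^ 2 / e * Real.exp a := by ring
    rw [h4] at h2
    have h5 : hh κ * Vv e κ v / 2 * (6 - 3 * Real.exp (2 * a)) =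
      hh κ * Vv e κ v * (3 - 3 / 2 * Real.exp (2 * a)) := by ring
    rw [h5] at h3
    linarith
  · have h1 := (abs_le.1 hcre).2
    rw [hzre] at h1
    have h2 : 0 ≤ √(hh κ) * v * (al e κ s 0).im := mul_nonneg hqv hαi0.1
    have h3 : hh κ * Vv e κ v / 2 * B.re ≤ hh κ * Vv e κ v / 2 * (3 * Real.exp (2 * a)) :=
      mul_le_mul_of_nonneg_left hBre2 hhV
    have h5 : hh κ * Vv e κ v / 2 * (3 * Real.exp (2 * a)) =
      hh κ * Vv e κ v * (3 / 2 * Real.exp (2 * a)) := by ring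
    rw [h5] at h3
    linarith
  · have h1 : |yz e κ c| ≤ |(z1 e κ v s 0).im| + err := by
      have h2 : yz e κ c = (z1 e κ v s 0).im + (yz e κ c - (z1 e κ v s 0).im) := by ring
      calc |yz e κ c| = |(z1 e κ v s 0).im + (yz e κ c - (z1 e κ v s 0).im)| := by rw [← h2]
        _ ≤ |(z1 e κ v s 0).im| + |yz e κ c - (z1 e κ v s 0).im| := abs_add_le _ _
        _ ≤ _ := by linarith
    have h2 : |(z1 e κ v s 0).im| ≤ v * Real.exp (gl / e) +
        2 * Vv e κ v * v * Real.exp (2 * a) / e := by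
      rw [hzim]
      refine (abs_add_le _ _).trans ?_
      rw [abs_mul (√(hh κ) * v), abs_mul (hh κ * Vv e κ v / 2), abs_of_nonneg hqv,
        abs_of_nonneg hhV]
      have h3 : √(hh κ) * v * |(al e κ s 0).re| ≤ v * Real.exp (gl / e) :=
        mul_le_mul hqv1 ((Complex.abs_re_le_norm _).trans hαg) (abs_nonneg _) hv0
      have h4 : hh κ * Vv e κ v / 2 * |B.im| ≤
          Vv e κ v / 2 * (Real.exp (2 * a) * (4 * (v / e))) := by
        refine mul_le_mul ?_ hBi (abs_nonneg _) (by positivity)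
        have : hh κ * Vv e κ v ≤ 1 * Vv e κ v := mul_le_mul_of_nonneg_right hh1 hV0
        linarith
      have h5 : Vv e κ v / 2 * (Real.exp (2 * a) * (4 * (v / e))) =
        2 * Vv e κ v * v * Real.exp (2 * a) / e := by ring
      rw [h5] at h4
      linarith
    linarith
  · -- displacement
    obtain ⟨Q0, hQ0⟩ : ∃ Q0, Q0 = Qk κ (t00 e κ v) := ⟨_, rfl⟩
    rw [← hQ0] at hs0 hQi
    have hec : (e : ℂ) ≠ 0 := by exact_mod_cast he.ne'
    have hsq : ((√(hh κ) : ℝ) : ℂ) = 1 + (((√(hh κ) - 1 : ℝ)) : ℂ) := by push_cast; ring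
    have hdec : z1 e κ v s 0 - (bet e κ : ℂ) * s =
        ((v * (√(hh κ) - 1) : ℝ) : ℂ) * al e κ s 0 * I +
        (v : ℂ) * I * (al e κ s 0 - 1 + G / e) +
        ((v / e : ℝ) : ℂ) * (-(I * G) + ((v / 2 : ℝ) : ℂ)) -
        (((1 - hh κ) * v ^ 2 / (2 * e) : ℝ) : ℂ) +
        (Vv e κ v : ℂ) * (((hh κ / 2 : ℝ) : ℂ) * (B - 3) + ((hh κ - 1 : ℝ) : ℂ) +
          (1 - 1 / Q0)) := by
      rw [hz, hs0]
      have hV : (Vv e κ v : ℂ) = ((bet e κ ^ 2 / e : ℝ) : ℂ) + ((v ^ 2 / e : ℝ) : ℂ) := by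
        rw [← ofReal_add]
        congr 1
        unfold Vv
        ring
      have h3 : ((hh κ * Vv e κ v / 2 : ℝ) : ℂ) = (hh κ : ℂ) * (Vv e κ v : ℂ) / 2 := by
        push_cast; ring
      rw [h3]
      obtain ⟨W, hW⟩ : ∃ W : ℂ, W = (Vv e κ v : ℂ) / Q0 := ⟨_, rfl⟩
      have h4 : (Vv e κ v : ℂ) * (((hh κ / 2 : ℝ) : ℂ) * (B - 3) + ((hh κ - 1 : ℝ) : ℂ) +
          (1 - 1 / Q0)) = (Vv e κ v : ℂ) * (((hh κ / 2 : ℝ) : ℂ) * (B - 3) +
          ((hh κ - 1 : ℝ) : ℂ) + 1) - W := by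
        rw [hW]; ring
      rw [h4, ← hW, hV]
      push_cast
      ring
    have hgt' : ‖G / e‖ ≤ gt := ndiv _ _ hgt
    have t1 : ‖((v * (√(hh κ) - 1) : ℝ) : ℂ) * al e κ s 0 * I‖ ≤
        v * Real.exp a * (Real.sinh κ ^ 2 / 7) := by
      rw [norm_mul, norm_mul, Complex.norm_I, mul_one, Complex.norm_real, Real.norm_eq_abs,
        abs_mul, abs_of_nonneg hv0, abs_of_nonpos (by linarith : √(hh κ) - 1 ≤ 0)]
      have hq : 1 - √(hh κ) ≤ Real.sinh κ ^ 2 / 7 := cz_sqrt hh0.le hh2 hK.le H.hK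
      calc v * -(√(hh κ) - 1) * ‖al e κ s 0‖ ≤ v * (Real.sinh κ ^ 2 / 7) * Real.exp a := by
            refine mul_le_mul (mul_le_mul_of_nonneg_left (by linarith) hv0) hαn (norm_nonneg _)
              (by positivity)
        _ = _ := by ring
    have t2 : ‖(v : ℂ) * I * (al e κ s 0 - 1 + G / e)‖ ≤ v * Real.exp a * (gt ^ 2 / 2) := by
      rw [norm_mul, norm_mul, Complex.norm_I, mul_one, Complex.norm_real,
        Real.norm_of_nonneg hv0, hα]
      have := cz_two hn1 H.a1 hgt'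
      calc v * ‖exp (-(G / e)) - 1 + G / e‖ ≤ v * (gt ^ 2 / 2 * Real.exp a) :=
            mul_le_mul_of_nonneg_left this hv0
        _ = _ := by ring
    have t3 : ‖((v / e : ℝ) : ℂ) * (-(I * G) + ((v / 2 : ℝ) : ℂ))‖ ≤ v / e * G2 := by
      rw [norm_mul, Complex.norm_real, Real.norm_of_nonneg hx0]
      refine mul_le_mul_of_nonneg_left ?_ hx0
      apply le_of_sq_le_sq _ hG20
      rw [← Complex.normSq_eq_norm_sq, Complex.normSq_apply]
      have h1 : (-(I * G) + ((v / 2 : ℝ) : ℂ)).re = G.im + v / 2 := by simp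
      have h2 : (-(I * G) + ((v / 2 : ℝ) : ℂ)).im = -G.re := by simp
      rw [h1, h2]
      have h3 : G.re ^ 2 ≤ Gr ^ 2 := by
        rw [← sq_abs G.re]
        gcongr
      have h4 : (G.im + v / 2) ^ 2 ≤ (v / 2) ^ 2 := by
        apply sq_le_sq'
        · linarith
        · linarith
      have h5 : (v / 2) ^ 2 = v ^ 2 / 4 := by ring
      have h6 : (G.im + v / 2) * (G.im + v / 2) + -G.re * -G.re =
        (G.im + v / 2) ^ 2 + G.re ^ 2 := by ring
      rw [h6]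
      linarith
    have t4 : ‖(((1 - hh κ) * v ^ 2 / (2 * e) : ℝ) : ℂ)‖ ≤
        Real.sinh κ ^ 2 * v ^ 2 / (8 * e) := by
      rw [Complex.norm_real, Real.norm_of_nonneg (by
        apply div_nonneg _ (by positivity)
        exact mul_nonneg (by linarith) (sq_nonneg _))]
      have h1 : (1 - hh κ) * v ^ 2 ≤ Real.sinh κ ^ 2 / 4 * v ^ 2 :=
        mul_le_mul_of_nonneg_right (by linarith) (sq_nonneg _)
      calc (1 - hh κ) * v ^ 2 / (2 * e) ≤ Real.sinh κ ^ 2 / 4 * v ^ 2 / (2 * e) := by gcongr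
        _ = _ := by field_simp; ring
    have t5 : ‖(Vv e κ v : ℂ) * (((hh κ / 2 : ℝ) : ℂ) * (B - 3) + ((hh κ - 1 : ℝ) : ℂ) +
          (1 - 1 / Q0))‖ ≤ Vv e κ v * (3 / 2 * (Real.exp (2 * a) - 1) +
          3 / 4 * Real.sinh κ ^ 2 + v / e) := by
      rw [norm_mul, Complex.norm_real, Real.norm_of_nonneg hV0]
      refine mul_le_mul_of_nonneg_left ?_ hV0
      refine (norm_add_le _ _).trans ?_
      have h1 : ‖((hh κ / 2 : ℝ) : ℂ) * (B - 3) + ((hh κ - 1 : ℝ) : ℂ)‖ ≤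
          3 / 2 * (Real.exp (2 * a) - 1) + Real.sinh κ ^ 2 / 4 := by
        refine (norm_add_le _ _).trans ?_
        rw [norm_mul, Complex.norm_real, Complex.norm_real,
          Real.norm_of_nonneg (by positivity : 0 ≤ hh κ / 2), Real.norm_eq_abs,
          abs_of_nonpos (by linarith : hh κ - 1 ≤ 0)]
        have h2 : hh κ / 2 * ‖B - 3‖ ≤ 1 / 2 * (3 * (Real.exp (2 * a) - 1)) :=
          mul_le_mul (by linarith) hB3 (norm_nonneg _) (by norm_num)
        linarith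
      linarith
    have hfin : (bet e κ : ℂ) * (c - s) = ((bet e κ : ℂ) * c - z1 e κ v s 0) +
        (z1 e κ v s 0 - (bet e κ : ℂ) * s) := by ring
    have hn : bet e κ * ‖c - s‖ = ‖(bet e κ : ℂ) * (c - s)‖ := by
      rw [norm_mul, Complex.norm_real, Real.norm_of_nonneg hβ.le]
    rw [hn, hfin]
    refine (norm_add_le _ _).trans ?_
    have hz2 : ‖z1 e κ v s 0 - (bet e κ : ℂ) * s‖ ≤
        v * Real.exp a * (Real.sinh κ ^ 2 / 7) + v * Real.exp a * (gt ^ 2 / 2) + v / e * G2 +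
        Real.sinh κ ^ 2 * v ^ 2 / (8 * e) + Vv e κ v * (3 / 2 * (Real.exp (2 * a) - 1) +
          3 / 4 * Real.sinh κ ^ 2 + v / e) := by
      rw [hdec]
      refine (norm_add_le _ _).trans (add_le_add ?_ t5)
      refine (norm_sub_le _ _).trans (add_le_add ?_ t4)
      refine (norm_add_le _ _).trans (add_le_add ?_ t3)
      exact (norm_add_le _ _).trans (add_le_add t1 t2)
    linarith

end Pool.Agent.helper31.EQB
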