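import Pool.Agent.helper31.EQB.FirstB2
import Pool.Agent.helper31.EQB.FirstA3
import Pool.Agent.helper31.EQB.LinkStep

/-!
# EQB-14: the first node from number hypotheses

`s0 = shf κ (t00 e κ v)`, `c = nxc p s0 0` (centre), `τ1 = nxc p c χ` (first link), `V = (β²+v²)/e`, `β = e K`.

`first_cen`: `cen_z` with the numbers; `1 - K²/4 ≤ h ≤ 1`.
* `r1 ≤ rz c ≤ r2`, `|yz c| ≤ yc`, `β ‖c - s0‖ ≤ dz`, `0 < Re c` (`0 < r1`),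
* `om κ x1 c`: `om_of_rz` (`x1 (Sz c + r²)/e ≤ r` because `x1 (β² + yc² + r1²)/e ≤ r1` and `r ↦ r - x1 r²/e` increases on `[r1, r2]`,
  `r2 ≤ e/2`), `om κ 1 s0` (`s0_pos`), so `om κ x1` on the segment `[s0, c]` (`om_seg`),
* `Sl ≤ Sz z` on the segment (`disp_z` with `S0 ≥ S0l`; `S ↦ S - 2 dz √S` increases for `√S ≥ dz`).
`first_d`: `‖LG c χ - LG s0 0‖ ≤ dz (1 + Mb) + lx ≤ ΔG` (`lg_sub`, `MB Mb` at `shf z`; `‖log (1-χ)‖ ≤ -log (1-X)`),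
`‖LF c χ - LF s0 0‖ ≤ dz Ma - log (1 - u X) ≤ ΔF` (`lf_sub`, `MB Ma` at `z`), `‖LG s0 0‖ ≤ gt e`, `‖LF s0 0‖ ≤ ft` (`L_im`, `L_re`), so `FH` holds at
`(s0, 0)` and `(c, χ)`; `first_diff`.
The bounds `MB` on the segments are hypotheses of `first_d`, `first_step`, `first_close`; they follow from `Mq` inequalities
(`ma_q`, `mb_q`, `m1_q'`: `MB_q`) or, away from the resonance, from the uniform bound `PX` of MBx (`ma_x`, `mb_x`, `m1_x'`);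
all together: `first_all` (FirstC4).
`first_step`, `first_close`: as `link_step`, `link_close` (with `s` replaced by `c`, `S` by `Sl ≤ Sz c`, `rh` by `r2`), `lg_disp`, `close_key`.
-/

namespace Pool.Agent.helper31.EQB

open Complex ComplexConjugate Set Filter Topology
open Pool.Agent.helper31.EQ.Y Pool.Agent.helper31.EQ.R
open Pool.Agent.helper12.EQL Pool.Agent.helper12.RP Pool.Agent.helper12.FF Pool.Agent.helper12.RS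
open Pool.Agent.helper63.FF

/-- Number hypotheses of the first node, first part. -/
structure FN (e K v V a p q q2 w lf0 lf1 lau lal gl F Gr G2 gt ft err dz r1 r2 yc x1 S0l Sl Ma Mb
    X u lx lu ΔG ΔF E RH : ℝ) : Prop where
  K0 : 0 < K
  v0 : 0 ≤ v
  vπ : v ≤ Real.pi
  hV : V = ((e * K) ^ 2 + v ^ 2) / e
  V1 : V ≤ e / 100
  a0 : 0 ≤ a
  a1 : a ≤ 1 / 18
  q20 : 0 ≤ q2
  hlau : e * K / 2 + Real.log (1 + Real.exp (-(e * K))) ≤ lau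
  hlal : lal ≤ Real.log 2 ∨ lal ≤ e * K * (1 - K ^ 2 / 6) / 2
  hgl : Real.log 2 + 8 / 5 * V - lal ≤ gl
  hF : lau + lf0 ≤ F
  F0 : 0 ≤ F
  hGr : lau + lf1 ≤ Gr
  hGr2 : gl ≤ Gr
  G20 : 0 ≤ G2
  hG2 : Gr ^ 2 + v ^ 2 / 4 ≤ G2 ^ 2
  gt0 : 0 ≤ gt
  hgt : Gr ^ 2 + v ^ 2 ≤ (gt * e) ^ 2
  ft0 : 0 ≤ ft
  hft : F ^ 2 + v ^ 2 ≤ ft ^ 2
  herr : err = V * (8 / 5 * V + 5 / 2 * v) / e
  hdz : v / e * G2 + v * Real.exp a * (gt ^ 2 / 2 + K ^ 2 / 7) + K ^ 2 * v ^ 2 / (8 * e) +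
    V * (3 / 2 * (Real.exp (2 * a) - 1) + 3 / 4 * K ^ 2 + v / e) + err ≤ dz
  r10 : 0 < r1
  hr1 : r1 ≤ (1 - K ^ 2 / 4) * V * (3 - 3 / 2 * Real.exp (2 * a)) - (e * K) ^ 2 / e / 2 -
    v ^ 2 / e * Real.exp a - err
  hr2 : V * (3 / 2 * Real.exp (2 * a)) - (1 - K ^ 2 / 4) * ((e * K) ^ 2 / e) / 2 + err ≤ r2
  hyc : v * Real.exp (gl / e) + 2 * V * v * Real.exp (2 * a) / e + err ≤ yc
  x10 : 0 ≤ x1
  x11 : x1 ≤ 1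
  hx1 : x1 * ((e * K) ^ 2 + yc ^ 2 + r1 ^ 2) / e ≤ r1
  r2e : r2 ≤ e / 2
  hS0l : S0l ≤ (e * K) ^ 2 + (v / (1 + V / e)) ^ 2
  dzS : dz ≤ √S0l
  hSl : Sl ≤ S0l * (1 - 2 * dz / √S0l)
  Sl0 : 0 < Sl
  Ma0 : 0 ≤ Ma
  Mb0 : 0 ≤ Mb
  X0 : 0 < X
  X1 : X < 1
  hu : Real.exp (-(q2 * (lam K x1 * (Sl / e)))) ≤ u
  u1 : u ≤ 1
  hlx : -Real.log (1 - X) ≤ lx
  hlu : -Real.log (1 - u * X) ≤ lu
  hΔG : dz * (1 + Mb) + lx ≤ ΔG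
  hΔF : dz * Ma + lu ≤ ΔF
  haG : gt * e + ΔG ≤ a * e
  haF : ft + ΔF ≤ a * e
  hE : 53 / 50 * Real.exp (2 * a) * (v * ΔG + V * (2 * ΔG + ΔF)) / e ≤ E
  Es : E < √Sl
  hRH1 : 201 / 200 * V + (√((e * K) ^ 2 + v ^ 2) + dz) ^ 2 / e ≤ RH
  hRH2 : r2 + E + (√((e * K) ^ 2 + yc ^ 2) + dz + E) ^ 2 / e ≤ RH
  h9 : RH ≤ 46 / 5 * (Sl / e * (1 - 2 * E / √Sl - 500 / e ^ 2))
  h2 : RH ^ 2 ≤ 9 / 10 * (Sl * (1 - 2 * E / √Sl - 500 / e ^ 2))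
  hρ : q2 + 8 / e + RH * (1 / 2 + 2 * w ^ 2) / e ≤ q

/-- Number hypotheses of the first node, second part. -/
structure FN2 (e K V p q q2 r1 r2 yc x1 Sl X E d Λ0 y0 W2 M1 u1 η a0 DP Vc : ℝ) : Prop where
  d0 : 0 ≤ d
  d1 : d ≤ x1
  a00 : 0 ≤ a0
  Er : E < r1
  hd : e * E * Real.exp (2 * K * x1) ≤ (1 - K ^ 2 / 6) * d * (√Sl * (√Sl - E))
  hΛ : r2 + E ≤ Λ0 * (Sl / e * (1 - 2 * E / √Sl))
  Λ00 : 0 ≤ Λ0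
  hy0 : yc + E ≤ y0
  W20 : 0 < W2
  hW2 : W2 ≤ Sl / e * (1 - 2 * E / √Sl - 500 / e ^ 2)
  M10 : 0 ≤ M1
  hu1 : Real.exp (-(q2 * (lam K (x1 + 1 - d) * W2))) ≤ u1
  hη : Real.exp (E * (1 + M1)) ≤ η
  DP0 : 0 ≤ DP
  hDP : (e * K) ^ 2 + yc ^ 2 + r2 ^ 2 + 2 * (e * K) * r2 ≤ DP ^ 2
  hVc : ((e * K) ^ 2 + yc ^ 2 + r2 ^ 2) / e ≤ Vc
  hcl : (η - 1) + η * (u1 * (a0 * (4 / (4 + e * K)))) * (DP + Vc + E) < (1 - K / 1024) * X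

end Pool.Agent.helper31.EQB
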