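import Pool.Agent.helper31.EQB.FirstC

/-!
# EQB-14: the centre of the first node (see the header of FirstC)
-/

namespace Pool.Agent.helper31.EQB

open Complex ComplexConjugate Set Filter Topology
open Pool.Agent.helper31.EQ.Y Pool.Agent.helper31.EQ.R
open Pool.Agent.helper12.EQL Pool.Agent.helper12.RP Pool.Agent.helper12.FF Pool.Agent.helper12.RS
open Pool.Agent.helper63.FF

variable {e κ Y w p q : ℝ}

theorem fc_500 (he : 200 ≤ e) : 0 < 1 - 500 / e ^ 2 := by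
  have he0 : 0 < e := by linarith
  have : 500 / e ^ 2 < 1 := by
    rw [div_lt_one (by positivity)]
    nlinarith
  linarith

theorem Mq_nonneg {K q2 x W : ℝ} (he : 200 ≤ e) (hK0 : 0 ≤ K) (hK : K ≤ 1) (hx : 0 ≤ x)
    (hW : 0 ≤ W) (hq : 0 ≤ q) : 0 ≤ Mq e K p q q2 x W := by
  have h5 := fc_500 he
  have h1 := lam_nonneg hK0 hK (by linarith : (0 : ℝ) ≤ x + 1)
  have h2 := Bs_pos2 (p * (W * (1 - 500 / e ^ 2)))
  have h3 : 0 ≤ q * (lam K (x + 1) * (W * (1 - 500 / e ^ 2))) / 2 := by positivity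
  have h4 : 0 ≤ (Bs (p * (W * (1 - 500 / e ^ 2))) +
      q * (lam K (x + 1) * (W * (1 - 500 / e ^ 2))) / 2)⁻¹ := inv_nonneg.2 (by linarith)
  unfold Mq
  positivity

theorem fc_cosh (hκ : 0 < κ) (hK : Real.sinh κ ≤ 1 / 10) : Real.cosh κ ≤ 201 / 200 := by
  have hK0 : 0 < Real.sinh κ := Real.sinh_pos_iff.2 hκ
  have h3 := Real.cosh_sq κ
  have h4 := Real.one_le_cosh κ
  have h5 : Real.sinh κ ^ 2 ≤ (1 / 10) ^ 2 := pow_le_pow_left₀ hK0.le hK 2
  have h6 : (Real.cosh κ - 1) * (Real.cosh κ - 1) ≥ 0 := mul_self_nonneg _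
  nlinarith

/-- complex number with bounded parts -/
theorem fc_norm {z : ℂ} {A B R : ℝ} (h1 : |z.re| ≤ A) (h2 : |z.im| ≤ B)
    (h : A ^ 2 + B ^ 2 ≤ R ^ 2) (hR : 0 ≤ R) : ‖z‖ ≤ R := by
  have h3 : z.re ^ 2 ≤ A ^ 2 := by
    rw [← sq_abs z.re]; exact pow_le_pow_left₀ (abs_nonneg _) h1 2
  have h4 : z.im ^ 2 ≤ B ^ 2 := by
    rw [← sq_abs z.im]; exact pow_le_pow_left₀ (abs_nonneg _) h2 2
  have h5 : ‖z‖ ^ 2 = z.re ^ 2 + z.im ^ 2 := by
    rw [Complex.sq_norm, Complex.normSq_apply]; ring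
  exact le_of_sq_le_sq (by linarith) hR

theorem fc_seg {a b z : ℂ} (hz : z ∈ segment ℝ a b) :
    ‖z - a‖ ≤ ‖b - a‖ ∧ ∃ l m : ℝ, 0 ≤ l ∧ 0 ≤ m ∧ l + m = 1 ∧ z.re = l * a.re + m * b.re ∧
      z.im = l * a.im + m * b.im := by
  obtain ⟨l, m, hl, hm, hlm, hzz⟩ := hz
  have hre : z.re = l * a.re + m * b.re := by rw [← hzz]; simp
  have him : z.im = l * a.im + m * b.im := by rw [← hzz]; simp
  refine ⟨?_, l, m, hl, hm, hlm, hre, him⟩
  have h1 : z - a = (m : ℂ) * (b - a) := by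
    have h2 : l = 1 - m := by linarith
    rw [← hzz, h2, Complex.real_smul, Complex.real_smul]
    push_cast
    ring
  rw [h1, norm_mul, Complex.norm_real, Real.norm_of_nonneg hm]
  exact mul_le_of_le_one_left (norm_nonneg _) (by linarith)

section

variable {v V a q2 lf0 lf1 lau lal gl F Gr G2 gt ft err dz r1 r2 yc x1 S0l Sl Ma Mb X u lx lu ΔG ΔF
  E RH : ℝ} {pp : ℂ}

/-- sizes at `(s0, 0)` -/
theorem first_FH (C : MC e κ Y w p q)
    (N : FN e (Real.sinh κ) v V a p q q2 w lf0 lf1 lau lal gl F Gr G2 gt ft err dz r1 r2 yc x1 S0l Sl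
      Ma Mb X u lx lu ΔG ΔF E RH)
    (h0 : Real.log ‖fT e κ (shf κ (t00 e κ v))‖ ≤ lf0)
    (h1 : Real.log ‖fT e κ (shf κ (shf κ (t00 e κ v)))‖ ≤ lf1) :
    Vv e κ v = V ∧ 0 ≤ V ∧ 0 ≤ err ∧ 0 ≤ dz ∧ 0 ≤ ΔG ∧ 0 ≤ ΔF ∧
    FH e κ v a (shf κ (t00 e κ v)) 0 ∧
    -gl ≤ (LG e κ (shf κ (t00 e κ v)) 0).re ∧
    |(LG e κ (shf κ (t00 e κ v)) 0).re| ≤ Gr ∧
    ‖LG e κ (shf κ (t00 e κ v)) 0‖ ≤ gt * e ∧ ‖LF e κ (shf κ (t00 e κ v)) 0‖ ≤ ft := by
  have he2 := C.e200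
  have he : 0 < e := by linarith
  have hκ := C.κ0
  have hK1 := C.K1
  have hK0 := N.K0
  obtain ⟨s1, s2, s3, s4, s5⟩ := s0_pos he hκ N.v0
  have hVV : Vv e κ v = V := by
    rw [N.hV]; rfl
  have hV0 : 0 ≤ V := by
    rw [N.hV]; positivity
  have hv0 := N.v0
  have herr0 : 0 ≤ err := by
    rw [N.herr]; positivity
  have hexp1 : 1 ≤ Real.exp (2 * a) := Real.one_le_exp (by linarith [N.a0])
  have hdz0 : 0 ≤ dz := by
    refine le_trans ?_ N.hdz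
    have := N.G20
    have h2 : 0 ≤ 3 / 2 * (Real.exp (2 * a) - 1) + 3 / 4 * Real.sinh κ ^ 2 + v / e := by
      have : 0 ≤ v / e := by positivity
      have h3 : 0 ≤ 3 / 4 * Real.sinh κ ^ 2 := by positivity
      linarith
    positivity
  have hq0 : 0 ≤ q := by linarith [C.q7]
  have hW1 : 0 ≤ Sl / e := (div_pos N.Sl0 he).le
  have h500 := fc_500 he2
  have hMa : 0 ≤ Ma := N.Ma0
  have hMb : 0 ≤ Mb := N.Mb0
  have hlx : 0 ≤ lx := by
    refine le_trans ?_ N.hlx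
    have := Real.log_nonpos (by linarith [N.X1] : (0 : ℝ) ≤ 1 - X) (by linarith [N.X0])
    linarith
  have hu0 : 0 < u := lt_of_lt_of_le (Real.exp_pos _) N.hu
  have hlu : 0 ≤ lu := by
    refine le_trans ?_ N.hlu
    have h2 : u * X ≤ 1 * 1 := mul_le_mul N.u1 N.X1.le N.X0.le (by norm_num)
    have h3 : 0 ≤ u * X := mul_nonneg hu0.le N.X0.le
    have := Real.log_nonpos (by linarith : (0 : ℝ) ≤ 1 - u * X) (by linarith)
    linarith
  have hΔG : 0 ≤ ΔG := by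
    refine le_trans ?_ N.hΔG
    positivity
  have hΔF : 0 ≤ ΔF := by
    refine le_trans ?_ N.hΔF
    positivity
  obtain ⟨i1, i2, i3, i4⟩ := L_im (κ := κ) he2 hκ N.v0 N.vπ
  obtain ⟨j1, j2, j3, j4⟩ := L_re he2 hκ hK1 N.v0 (by rw [hVV]; exact N.V1) h0 h1
  rw [hVV] at j1
  obtain ⟨k1, k2, k3⟩ := LA_facts (e := e) he hκ hK1
  have hbet : bet e κ = e * Real.sinh κ := rfl
  rw [hbet] at k2 k3
  have hlau : LA e κ ≤ lau := k3.trans N.hlau
  have hlal : lal ≤ LA e κ := by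
    rcases N.hlal with h | h
    · exact h.trans k1
    · exact h.trans k2
  have hgl : -gl ≤ (LG e κ (shf κ (t00 e κ v)) 0).re := by
    have := N.hgl
    linarith
  have hGr : |(LG e κ (shf κ (t00 e κ v)) 0).re| ≤ Gr := by
    rw [abs_le]
    constructor
    · linarith [N.hGr2]
    · linarith [N.hGr]
  have hGi : |(LG e κ (shf κ (t00 e κ v)) 0).im| ≤ v := by
    rw [abs_le]; constructor <;> linarith
  have hFr : |(LF e κ (shf κ (t00 e κ v)) 0).re| ≤ F := by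
    rw [abs_le]
    constructor
    · linarith [N.F0]
    · linarith [N.hF]
  have hFi : |(LF e κ (shf κ (t00 e κ v)) 0).im| ≤ v := by
    rw [abs_le]; constructor <;> linarith
  have hLG : ‖LG e κ (shf κ (t00 e κ v)) 0‖ ≤ gt * e :=
    fc_norm hGr hGi N.hgt (mul_nonneg N.gt0 he.le)
  have hLF : ‖LF e κ (shf κ (t00 e κ v)) 0‖ ≤ ft := fc_norm hFr hFi N.hft N.ft0
  have hpi : v ≤ e / 60 := by
    have h2 := Real.pi_lt_d2
    have h3 := N.vπ
    norm_num at h2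
    linarith
  refine ⟨hVV, hV0, herr0, hdz0, hΔG, hΔF, ⟨he2, hκ, hK1, N.v0, hpi, by rw [hVV]; exact N.V1, N.a0,
    N.a1, s1, by rw [norm_zero]; norm_num, ?_, ?_⟩, hgl, hGr, hLG, hLF⟩
  · linarith [N.haG]
  · linarith [N.haF]

/-- **The centre.** -/
theorem first_cen (C : MC e κ Y w p q) (hY : Y ≤ 7 / 2) (hyc : yc ≤ Y) (hvY : v ≤ Y)
    (hT : tanh (κ * pp) = t00 e κ v)
    (N : FN e (Real.sinh κ) v V a p q q2 w lf0 lf1 lau lal gl F Gr G2 gt ft err dz r1 r2 yc x1 S0l Sl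
      Ma Mb X u lx lu ΔG ΔF E RH)
    (h0 : Real.log ‖fT e κ (shf κ (t00 e κ v))‖ ≤ lf0)
    (h1 : Real.log ‖fT e κ (shf κ (shf κ (t00 e κ v)))‖ ≤ lf1) :
    FH e κ v a (shf κ (t00 e κ v)) 0 ∧
    0 < (nxc e κ pp (shf κ (t00 e κ v)) 0).re ∧
    r1 ≤ rz e κ (nxc e κ pp (shf κ (t00 e κ v)) 0) ∧
    rz e κ (nxc e κ pp (shf κ (t00 e κ v)) 0) ≤ r2 ∧
    |yz e κ (nxc e κ pp (shf κ (t00 e κ v)) 0)| ≤ yc ∧
    bet e κ * ‖nxc e κ pp (shf κ (t00 e κ v)) 0 - shf κ (t00 e κ v)‖ ≤ dz ∧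
    om κ x1 (nxc e κ pp (shf κ (t00 e κ v)) 0) ∧
    ∀ z ∈ segment ℝ (shf κ (t00 e κ v)) (nxc e κ pp (shf κ (t00 e κ v)) 0),
      0 < z.re ∧ om κ x1 z ∧ Sl ≤ Sz e κ z ∧ |yz e κ z| ≤ Y ∧
      rz e κ z ≤ max r2 (201 / 200 * V) := by
  have _ := hY
  have he2 := C.e200
  have he : 0 < e := by linarith
  have hκ := C.κ0
  have hK1 := C.K1
  have hK0 := N.K0
  have hβ : 0 < bet e κ := mul_pos he hK0
  obtain ⟨hVV, hV0, herr0, hdz0, hΔG, hΔF, H, hgl, hGr, hLG, hLF⟩ := first_FH C N h0 h1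
  obtain ⟨s1, s2, s3, s4, s5⟩ := s0_pos he hκ N.v0
  obtain ⟨c1, c2, c3, c4⟩ := cen_z (err := err) H hT N.vπ hgl hGr N.hG2 N.G20 hLG (by rw [hVV]; exact N.herr)
  obtain ⟨_, hh0, hh1, hh2, _, _, _⟩ := hh_facts hκ
  rw [hVV] at c1 c2 c3 c4 s3 s4
  have hbet : bet e κ = e * Real.sinh κ := rfl
  obtain ⟨s, hs⟩ : ∃ s, s = shf κ (t00 e κ v) := ⟨_, rfl⟩
  rw [← hs] at c1 c2 c3 c4 H s1 s2 s3 s4 s5 ⊢
  obtain ⟨c, hc⟩ : ∃ c, c = nxc e κ pp s 0 := ⟨_, rfl⟩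
  rw [← hc] at c1 c2 c3 c4 ⊢
  have hexp2 : Real.exp (2 * a) ≤ 1.12 := by
    have h2 := fh_exp N.a1
    have h3 : Real.exp (2 * a) = Real.exp a * Real.exp a := by rw [← Real.exp_add]; ring_nf
    rw [h3]
    calc Real.exp a * Real.exp a ≤ 1.0572 * 1.0572 :=
          mul_le_mul h2 h2 (Real.exp_pos _).le (by norm_num)
      _ ≤ 1.12 := by norm_num
  have hB0 : 0 ≤ bet e κ ^ 2 / e := by positivity
  have hr1 : r1 ≤ rz e κ c := by
    refine le_trans N.hr1 (le_trans ?_ c1)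
    have h2 : (1 - Real.sinh κ ^ 2 / 4) * V * (3 - 3 / 2 * Real.exp (2 * a)) ≤
        hh κ * V * (3 - 3 / 2 * Real.exp (2 * a)) :=
      mul_le_mul_of_nonneg_right (mul_le_mul_of_nonneg_right hh2 hV0) (by linarith)
    have h3 : hh κ * (bet e κ ^ 2 / e) ≤ 1 * (bet e κ ^ 2 / e) :=
      mul_le_mul_of_nonneg_right hh1 hB0
    rw [hbet] at h3 ⊢
    linarith
  have hr2 : rz e κ c ≤ r2 := by
    refine le_trans c2 (le_trans ?_ N.hr2)
    have h2 : hh κ * V * (3 / 2 * Real.exp (2 * a)) ≤ 1 * V * (3 / 2 * Real.exp (2 * a)) :=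
      mul_le_mul_of_nonneg_right (mul_le_mul_of_nonneg_right hh1 hV0) (by positivity)
    have h3 : (1 - Real.sinh κ ^ 2 / 4) * (bet e κ ^ 2 / e) ≤ hh κ * (bet e κ ^ 2 / e) :=
      mul_le_mul_of_nonneg_right hh2 hB0
    rw [hbet] at h3 ⊢
    linarith
  have hyc2 : |yz e κ c| ≤ yc := c3.trans N.hyc
  have hdz : bet e κ * ‖c - s‖ ≤ dz := c4.trans N.hdz
  have hr10 := N.r10
  have hcre : 0 < c.re := by
    have h2 : 0 < bet e κ * c.re := lt_of_lt_of_le hr10 hr1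
    exact (pos_iff_pos_of_mul_pos h2).1 hβ
  have hx10 := N.x10
  have hx11 := N.x11
  -- position of c
  have homc : om κ x1 c := by
    apply om_of_rz he hκ hx10 hcre
    have h2 : Sz e κ c ≤ (e * Real.sinh κ) ^ 2 + yc ^ 2 := by
      unfold Sz
      rw [hbet, ← sq_abs (yz e κ c)]
      have := pow_le_pow_left₀ (abs_nonneg _) hyc2 2
      linarith
    have h3 := N.hx1
    rw [div_le_iff₀ he] at h3 ⊢
    have h4 : x1 * (Sz e κ c + rz e κ c ^ 2) ≤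
        x1 * ((e * Real.sinh κ) ^ 2 + yc ^ 2 + rz e κ c ^ 2) :=
      mul_le_mul_of_nonneg_left (by linarith) hx10
    have h5 : x1 * (rz e κ c + r1) ≤ 1 * e := by
      refine mul_le_mul hx11 ?_ (by linarith) (by norm_num)
      linarith [N.r2e]
    have h6 : 0 ≤ (rz e κ c - r1) * (e - x1 * (rz e κ c + r1)) :=
      mul_nonneg (by linarith) (by linarith)
    have h7 : (rz e κ c - r1) * (e - x1 * (rz e κ c + r1)) =
        rz e κ c * e - x1 * rz e κ c ^ 2 - (r1 * e - x1 * r1 ^ 2) := by ring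
    have h8 : x1 * ((e * Real.sinh κ) ^ 2 + yc ^ 2 + rz e κ c ^ 2) =
        x1 * ((e * Real.sinh κ) ^ 2 + yc ^ 2 + r1 ^ 2) + x1 * rz e κ c ^ 2 - x1 * r1 ^ 2 := by ring
    linarith
  have homs : om κ x1 s := om_mono hκ s5 hx11
  -- `S`
  have hSs : S0l ≤ Sz e κ s := by
    refine N.hS0l.trans (le_of_eq ?_)
    unfold Sz
    rw [hbet, s4]
  have hS0 : 0 < S0l := by
    by_contra h
    push Not at h
    have h2 := N.hSl
    rw [Real.sqrt_eq_zero_of_nonpos h, div_zero, sub_zero, mul_one] at h2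
    linarith [N.Sl0]
  have hsq0 : 0 < √S0l := Real.sqrt_pos.2 hS0
  have hS1 : Sl ≤ Sz e κ s * (1 - 2 * dz / √(Sz e κ s)) := by
    have hpos : 0 < Sz e κ s := lt_of_lt_of_le hS0 hSs
    have hsq1 : 0 < √(Sz e κ s) := Real.sqrt_pos.2 hpos
    have h2 : √S0l ≤ √(Sz e κ s) := Real.sqrt_le_sqrt hSs
    have h3 : √S0l * √S0l = S0l := Real.mul_self_sqrt hS0.le
    have h4 : √(Sz e κ s) * √(Sz e κ s) = Sz e κ s := Real.mul_self_sqrt hpos.le
    have h5 : S0l * (1 - 2 * dz / √S0l) = √S0l * √S0l - 2 * dz * √S0l := by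
      have : S0l * (1 - 2 * dz / √S0l) = (√S0l * √S0l) * (1 - 2 * dz / √S0l) := by rw [h3]
      rw [this]; field_simp
    have h6 : Sz e κ s * (1 - 2 * dz / √(Sz e κ s)) =
        √(Sz e κ s) * √(Sz e κ s) - 2 * dz * √(Sz e κ s) := by
      have : Sz e κ s * (1 - 2 * dz / √(Sz e κ s)) =
        (√(Sz e κ s) * √(Sz e κ s)) * (1 - 2 * dz / √(Sz e κ s)) := by rw [h4]
      rw [this]; field_simp
    have h7 := N.hSl
    rw [h5] at h7
    rw [h6]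
    have h8 := N.dzS
    have h9 : 0 ≤ (√(Sz e κ s) - √S0l) * (√(Sz e κ s) + √S0l - 2 * dz) :=
      mul_nonneg (by linarith) (by linarith)
    have h10 : (√(Sz e κ s) - √S0l) * (√(Sz e κ s) + √S0l - 2 * dz) =
        √(Sz e κ s) * √(Sz e κ s) - 2 * dz * √(Sz e κ s) - (√S0l * √S0l - 2 * dz * √S0l) := by
      ring
    linarith
  refine ⟨H, hcre, hr1, hr2, hyc2, hdz, homc, fun z hz => ?_⟩
  obtain ⟨z1, l, m, hl, hm, hlm, hre, him⟩ := fc_seg hz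
  have hz0 : 0 < z.re := re_segment s1 hcre hz
  have hE : bet e κ * ‖z - s‖ ≤ dz := (mul_le_mul_of_nonneg_left z1 hβ.le).trans hdz
  have hd := disp_z he hκ hE
  refine ⟨hz0, om_seg hκ hx10 s1 hcre homs homc hz, hS1.trans hd.2.2.1, ?_, ?_⟩
  · have h2 : yz e κ z = l * yz e κ s + m * yz e κ c := by unfold yz; rw [him]; ring
    have hv0 := N.v0
    have hVe : 0 ≤ V / e := div_nonneg hV0 he.le
    have h3 : |yz e κ s| ≤ Y := by
      rw [s4, abs_of_nonneg (by positivity)]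
      exact (div_le_self hv0 (by linarith)).trans hvY
    have h4 : |yz e κ c| ≤ Y := hyc2.trans hyc
    rw [h2]
    calc |l * yz e κ s + m * yz e κ c| ≤ |l * yz e κ s| + |m * yz e κ c| := abs_add_le _ _
      _ = l * |yz e κ s| + m * |yz e κ c| := by
          rw [abs_mul, abs_mul, abs_of_nonneg hl, abs_of_nonneg hm]
      _ ≤ l * Y + m * Y := by gcongr
      _ = Y := by rw [← add_mul, hlm, one_mul]
  · have h2 : rz e κ z = l * rz e κ s + m * rz e κ c := by unfold rz; rw [hre]; ring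
    have hVe : 0 ≤ V / e := div_nonneg hV0 he.le
    have hch : Real.cosh κ ≤ 201 / 200 := fc_cosh hκ hK1
    have h3 : rz e κ s ≤ 201 / 200 * V := by
      rw [s3]
      refine (div_le_self (mul_nonneg (Real.cosh_pos _).le hV0) (by linarith)).trans ?_
      exact mul_le_mul_of_nonneg_right hch hV0
    have h4 : rz e κ s ≤ max r2 (201 / 200 * V) := h3.trans (le_max_right _ _)
    have h5 : rz e κ c ≤ max r2 (201 / 200 * V) := hr2.trans (le_max_left _ _)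
    rw [h2]
    calc l * rz e κ s + m * rz e κ c ≤ l * max r2 (201 / 200 * V) + m * max r2 (201 / 200 * V) := by
          gcongr
      _ = max r2 (201 / 200 * V) := by rw [← add_mul, hlm, one_mul]

end

end Pool.Agent.helper31.EQB
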