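import Pool.Agent.helper31.EQB.MB2
import Pool.Agent.helper31.EQB.Fb

/-!
# EQB-16: the bound `M` away from the resonance

`PX e κ x y0 M`: `MB M` at all points of position `x` with `|y| ≤ y0`.

`PX_dn`: `MB_rec1` with `‖qq‖ ≤ 1` (`qq_lt_one`), `om_shf`, `yz_shf_le`.

`PX_pick`: let `t` be a point of position `x`, `|y| ≤ y0`, `r = rz t`, `S = Sz t ≤ S0`.
* `r ≥ 1`: `MB_harn`.
* `r < 1`: the segment `[t, shf t]` consists of points of the same kind (`om_seg`, `om_shf`, `om_mono`; `yz (shf t) = yz t/|Q|²`, so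
  `|yz|` decreases along the segment), so `‖log f(shf t) - log f(t)‖ ≤ V M0`, `V = (S + r²)/e ≤ (S0+1)/e` (`lf_sub`, `z_diff`, `Vz_le`).
  `Pl = log f(t) - log f(shf t) + e log Q` (`Pl_sub`): `Re Pl ≤ e log |Q| + V M0`, `e log |Q| ≤ (e/2)(|Q|² - 1) = c r + (S + r²)/(2e)`
  (`Q_sq`), so `R := Re Pl ≤ c r + ((S + r²)/e)(1/2 + M0)`, in particular `R ≤ 3`; `0 < R` (`Pl_re_pos`).
  `|Im Pl| ≤ |e arg Q| + V M0 ≤ y0 + (S0+1)/e M0 = θ < π` (`e_arg_le`).
  `qq t = exp (-Pl)` (`qq_exp`), `f = 1/(1+qq)`, so `gam = (Re f - 1/2)/|f| = (1 - ρ²)/(2 |1 + qq|)`, `ρ = |qq| = e^(-R)`;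
  `|1+qq|² = (1-ρ)² + 4 ρ cos²(Im Pl/2) ≥ 4 ρ cos²(θ/2)`, and `1 - ρ² = 2 ρ sinh R ≤ 2 √ρ R` for `0 ≤ R ≤ 3`
  (`sinh R ≤ R e^(R/2)`), so `gam ≤ R/(2 cos (θ/2)) ≤ R/ν`.
  `MB_gam`: `gam ≤ M r` because `R ≤ r (c + (1/2+M0)((S/e)/r + r/e)) ≤ r (c + (1/2+M0)(1/lam K X + 1/e))` (`om_rz` at `X ≤ x`; `r ≤ 1`)
  and `c ≤ 1 + K²/2`.

`PX_base`: `t → 1` uniformly as `x → ∞` (`‖t - 1‖ ≤ e^(-2κx) ‖t + 1‖`), and `MB 1` holds strictly at `t = 1`
(`shf 1 = 1`, `Qk κ 1 = e^κ`, `f(1) = 1/(1 + e^(-eκ))`, `deriv_rec` at `1` gives `f'(1) (1 + qq/Q²) = f(1) qq e K/Q` with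
`qq = e^(-eκ)`, so `|f'(1)| < e K |f(1)|`), so by continuity it holds near `1` (`f` is holomorphic, so `deriv f` is continuous at `1`).
`PX_unif`: from `PX_base` (`1 ≤ M`), downwards from `x = N` in steps of `1` and with non-integer `X`: `PX x M` for `x ≥ N`, then
`PX (x+1) M → PX x (1+M)` (`PX_dn`) `→ PX x M` (`PX_pick` with `M0 = 1 + M`) for `x ≥ X`.
-/

namespace Pool.Agent.helper31.EQB

open Complex ComplexConjugate Set Filter Topology
open Pool.Agent.helper31.EQ.Y Pool.Agent.helper31.EQ.R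
open Pool.Agent.helper12.EQL Pool.Agent.helper12.RP Pool.Agent.helper12.FF

/-- `MB M` at all points of position `x` with `|y| ≤ y0` -/
def PX (e κ x y0 M : ℝ) : Prop :=
  ∀ t : ℂ, 0 < t.re → om κ x t → |yz e κ t| ≤ y0 → MB e κ M t

variable {e κ x y0 M : ℝ}

theorem PX.mono_x (hκ : 0 < κ) {x' : ℝ} (h : PX e κ x y0 M) (hx : x ≤ x') : PX e κ x' y0 M :=
  fun t ht ho hy => h t ht (om_mono hκ ho hx) hy

theorem PX.mono (he : 0 < e) (hκ : 0 < κ) {M' : ℝ} (h : PX e κ x y0 M) (hM : M ≤ M') :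
    PX e κ x y0 M' :=
  fun t ht ho hy => (h t ht ho hy).mono he hκ hM

theorem PX.mono_y {y1 : ℝ} (h : PX e κ x y0 M) (hy : y1 ≤ y0) : PX e κ x y1 M :=
  fun t ht ho hy1 => h t ht ho (hy1.trans hy)

theorem PX_dn (he : 0 < e) (hκ : 0 < κ) (hM : 0 ≤ M) (h : PX e κ (x + 1) y0 M) :
    PX e κ x y0 (1 + M) := by
  intro t ht ho hy
  have h1 := h (shf κ t) (shf_re hκ ht.le) (om_shf hκ ht ho) ((yz_shf_le he hκ ht).trans hy)
  have h2 := MB_rec1 he hκ ht hM (qq_lt_one he hκ ht).le h1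
  rwa [one_mul] at h2

/-- `1 - e^(-2R) ≤ 2 R e^(-R/2)` for `0 ≤ R ≤ 3` -/
theorem mbx_num {R : ℝ} (h0 : 0 ≤ R) (h3 : R ≤ 3) :
    1 - Real.exp (-(2 * R)) ≤ 2 * R * Real.exp (-(R / 2)) := by
  have key : ∀ u : ℝ, 0 ≤ u → u ≤ 3 / 2 → 0 ≤ 4 * u - Real.exp u + Real.exp (-(3 * u)) := by
    intro u hu0 hu1
    have he1 := Real.exp_one_lt_d9
    rcases le_total u (13 / 10) with h | h
    · have hd : ∀ z : ℝ, HasDerivAt (fun z => 4 * z - Real.exp z + Real.exp (-(3 * z)))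
          (4 - Real.exp z - 3 * Real.exp (-(3 * z))) z := by
        intro z
        have a1 : HasDerivAt (fun z : ℝ => 4 * z) 4 z := by
          simpa using (hasDerivAt_id z).const_mul (4 : ℝ)
        have a2 : HasDerivAt (fun z : ℝ => -(3 * z)) (-3) z := by
          have a0 : HasDerivAt (fun z : ℝ => 3 * z) 3 z := by
            simpa using (hasDerivAt_id z).const_mul (3 : ℝ)
          exact a0.neg
        have a3 := (a1.sub (Real.hasDerivAt_exp z)).add a2.exp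
        refine a3.congr_deriv ?_
        ring
      have hmono : MonotoneOn (fun z => 4 * z - Real.exp z + Real.exp (-(3 * z)))
          (Icc (0:ℝ) (13 / 10)) := by
        apply monotoneOn_of_deriv_nonneg (convex_Icc _ _)
        · exact fun z _ => (hd z).continuousAt.continuousWithinAt
        · exact fun z _ => (hd z).differentiableAt.differentiableWithinAt
        · intro z hz
          rw [interior_Icc] at hz
          rw [(hd z).deriv]
          obtain ⟨p, hp⟩ : ∃ p, p = Real.exp z := ⟨_, rfl⟩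
          have hp1 : 1 ≤ p := by rw [hp]; exact Real.one_le_exp hz.1.le
          have hp4 : p ≤ 39 / 10 := by
            have h1 : Real.exp z ≤ Real.exp (13 / 10) := Real.exp_le_exp.2 hz.2.le
            have h2 : Real.exp (13 / 10) = Real.exp 1 * Real.exp (3 / 10) := by
              rw [← Real.exp_add]; norm_num
            have h4 : |Real.exp (3 / 10) - 1 - 3 / 10| ≤ (3 / 10) ^ 2 :=
              Real.abs_exp_sub_one_sub_id_le (by rw [abs_of_nonneg] <;> norm_num)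
            have h5 := (abs_le.1 h4).2
            have h6 : 0 < Real.exp 1 := Real.exp_pos 1
            rw [hp]
            have h7 : Real.exp (3 / 10) ≤ 139 / 100 := by linarith
            have h8 : Real.exp 1 * Real.exp (3 / 10) ≤ Real.exp 1 * (139 / 100) :=
              mul_le_mul_of_nonneg_left h7 h6.le
            linarith
          have hq : Real.exp (-(3 * z)) = (p ^ 3)⁻¹ := by
            rw [Real.exp_neg, hp, ← Real.exp_nat_mul]; norm_num
          rw [hq, ← hp]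
          have hp0 : 0 < p := by linarith
          have hp3 : 0 < p ^ 3 := by positivity
          have h9 : (4 - p - 3 * (p ^ 3)⁻¹) * p ^ 3 = 4 * p ^ 3 - p ^ 4 - 3 := by
            field_simp
          have h10 : 0 ≤ 4 * p ^ 3 - p ^ 4 - 3 := by
            have : 4 * p ^ 3 - p ^ 4 - 3 = (p - 1) * (3 + 3 * p + 3 * p ^ 2 - p ^ 3) := by ring
            rw [this]
            apply mul_nonneg (by linarith)
            have h11 : p ^ 2 * (39 / 10 - p) ≥ 0 := mul_nonneg (by positivity) (by linarith)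
            nlinarith
          rw [← h9] at h10
          exact nonneg_of_mul_nonneg_left h10 hp3
      have h1 := hmono (left_mem_Icc.2 (by norm_num)) (mem_Icc.2 ⟨hu0, h⟩) hu0
      simp only [mul_zero, neg_zero, Real.exp_zero] at h1
      linarith
    · have h1 : Real.exp u ≤ Real.exp (3 / 2) := Real.exp_le_exp.2 hu1
      have h2 : Real.exp (3 / 2) = Real.exp 1 * Real.exp (1 / 2) := by
        rw [← Real.exp_add]; norm_num
      have h4 : |Real.exp (1 / 2) - 1 - 1 / 2| ≤ (1 / 2) ^ 2 :=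
        Real.abs_exp_sub_one_sub_id_le (by rw [abs_of_nonneg] <;> norm_num)
      have h5 := (abs_le.1 h4).2
      have h6 : 0 < Real.exp 1 := Real.exp_pos 1
      have h7 : Real.exp (1 / 2) ≤ 7 / 4 := by linarith
      have h8 : Real.exp 1 * Real.exp (1 / 2) ≤ Real.exp 1 * (7 / 4) :=
        mul_le_mul_of_nonneg_left h7 h6.le
      have h9 := Real.exp_pos (-(3 * u))
      linarith
  have h := key (R / 2) (by linarith) (by linarith)
  have hE := Real.exp_pos (-(R / 2))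
  have h1 := mul_nonneg h hE.le
  have h2 : Real.exp (R / 2) * Real.exp (-(R / 2)) = 1 := by rw [← Real.exp_add]; simp
  have h3' : Real.exp (-(3 * (R / 2))) * Real.exp (-(R / 2)) = Real.exp (-(2 * R)) := by
    rw [← Real.exp_add]; congr 1; ring
  nlinarith

/-- `gam` in terms of `Pl` -/
theorem gam_le_R (he : 0 < e) (hκ : 0 < κ) {t : ℂ} (ht : 0 < t.re) {θ ν : ℝ}
    (h3 : (Pl e κ t).re ≤ 3) (hi : |(Pl e κ t).im| ≤ θ) (hθ : θ < Real.pi) (hν0 : 0 < ν)
    (hν : ν ≤ 2 * Real.cos (θ / 2)) : gam e κ t ≤ (Pl e κ t).re / ν := by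
  have hR0 := Pl_re_pos he hκ ht
  have hf0 := fT_ne he hκ ht
  obtain ⟨P, hP⟩ : ∃ P, P = Pl e κ t := ⟨_, rfl⟩
  rw [← hP] at h3 hi hR0 ⊢
  obtain ⟨q, hq⟩ : ∃ q, q = exp (-P) := ⟨_, rfl⟩
  have hqq : q = (1 - fT e κ t) / fT e κ t := by
    rw [hq, hP]; exact exp_neg_Pl he hκ ht
  have hfa : fT e κ t * (1 + q) = 1 := by
    rw [hqq]; field_simp; ring
  obtain ⟨a, ha⟩ : ∃ a, a = 1 + q := ⟨_, rfl⟩
  rw [← ha] at hfa
  have ha0 : a ≠ 0 := by
    intro h; rw [h, mul_zero] at hfa; exact zero_ne_one hfa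
  have hfe : fT e κ t = a⁻¹ := eq_inv_of_mul_eq_one_left hfa
  have hna : 0 < ‖a‖ := norm_pos_iff.2 ha0
  -- the modulus of q
  obtain ⟨ρ, hρ⟩ : ∃ ρ, ρ = Real.exp (-P.re) := ⟨_, rfl⟩
  have hρ0 : 0 < ρ := by rw [hρ]; exact Real.exp_pos _
  have hqre : q.re = ρ * Real.cos P.im := by
    rw [hq, Complex.exp_re, Complex.neg_re, Complex.neg_im, Real.cos_neg, ← hρ]
  have hqim : q.im = -(ρ * Real.sin P.im) := by
    rw [hq, Complex.exp_im, Complex.neg_re, Complex.neg_im, Real.sin_neg, ← hρ]; ring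
  have hcs := Real.sin_sq_add_cos_sq P.im
  have hqn : q.re ^ 2 + q.im ^ 2 = ρ ^ 2 := by
    rw [hqre, hqim]; linear_combination ρ ^ 2 * hcs
  have hare : a.re = 1 + q.re := by rw [ha, Complex.add_re, Complex.one_re]
  have haim : a.im = q.im := by rw [ha, Complex.add_im, Complex.one_im, zero_add]
  have hna2 : ‖a‖ ^ 2 = 1 + 2 * q.re + ρ ^ 2 := by
    rw [Complex.sq_norm, Complex.normSq_apply, hare, haim, ← hqn]; ring
  have hg : gam e κ t = (1 - ρ ^ 2) / (2 * ‖a‖) := by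
    unfold gam gR
    rw [hfe, norm_inv, Complex.inv_re, Complex.normSq_eq_norm_sq, hare]
    have h1 : q.re = (‖a‖ ^ 2 - 1 - ρ ^ 2) / 2 := by linarith
    rw [h1]
    field_simp
    ring
  -- lower bound of |a|
  have hcos2 : Real.cos P.im = 2 * Real.cos (P.im / 2) ^ 2 - 1 := by
    rw [← Real.cos_two_mul]; congr 1; ring
  have hθ0 : 0 ≤ θ := (abs_nonneg _).trans hi
  have hcc : Real.cos (θ / 2) ≤ Real.cos (P.im / 2) := by
    rw [← Real.cos_abs (P.im / 2)]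
    apply Real.cos_le_cos_of_nonneg_of_le_pi (abs_nonneg _)
    · linarith [Real.pi_pos]
    · rw [abs_div, abs_of_pos (by norm_num : (0:ℝ) < 2)]; linarith
  have hν2 : ν / 2 ≤ Real.cos (P.im / 2) := by linarith
  have hν3 : ν ^ 2 / 4 ≤ Real.cos (P.im / 2) ^ 2 := by
    have := pow_le_pow_left₀ (by positivity : 0 ≤ ν / 2) hν2 2
    linarith [this, (by ring : (ν / 2) ^ 2 = ν ^ 2 / 4)]
  have hlow : ν ^ 2 * ρ ≤ ‖a‖ ^ 2 := by
    rw [hna2, hqre, hcos2]
    have h1 := mul_le_mul_of_nonneg_left hν3 hρ0.le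
    nlinarith [sq_nonneg (1 - ρ)]
  have hsq : Real.exp (-(P.re / 2)) ^ 2 = ρ := by
    rw [hρ, ← Real.exp_nat_mul]; congr 1; push_cast; ring
  have hlow2 : ν * Real.exp (-(P.re / 2)) ≤ ‖a‖ := by
    apply (sq_le_sq₀ (by positivity) hna.le).1
    rw [mul_pow, hsq]; exact hlow
  have hρ2 : ρ ^ 2 = Real.exp (-(2 * P.re)) := by
    rw [hρ, ← Real.exp_nat_mul]; congr 1; push_cast; ring
  have hnum := mbx_num hR0.le h3
  rw [← hρ2] at hnum
  rw [hg, div_le_div_iff₀ (by positivity) hν0]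
  have h5 : 2 * P.re * Real.exp (-(P.re / 2)) * ν ≤ P.re * (2 * ‖a‖) := by
    have := mul_le_mul_of_nonneg_left hlow2 (by linarith : 0 ≤ 2 * P.re)
    linarith
  have h6 := mul_le_mul_of_nonneg_right hnum hν0.le
  linarith

theorem lam_pos2 {K x : ℝ} (hK0 : 0 ≤ K) (hK : K ≤ 1) (hx : 0 < x) : 0 < lam K x := by
  have h1 : 0 < 1 - K ^ 2 / 6 := by nlinarith
  unfold lam
  positivity

theorem PX_pick (he : 200 ≤ e) (hκ : 0 < κ) (hK : Real.sinh κ ≤ 1 / 10) {X S0 M0 ν : ℝ}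
    (hX : 0 < X) (hXx : X ≤ x) (hS : bet e κ ^ 2 + y0 ^ 2 ≤ S0) (hM0 : 0 ≤ M0) (hy0 : 0 ≤ y0)
    (h : PX e κ x y0 M0) (hR : (S0 + 1) / e * (1 / 2 + M0) ≤ 19 / 10)
    (hθ : y0 + (S0 + 1) / e * M0 < Real.pi) (hν0 : 0 < ν)
    (hν : ν ≤ 2 * Real.cos ((y0 + (S0 + 1) / e * M0) / 2))
    (hM1 : 1 ≤ M)
    (hM : 1 + Real.sinh κ ^ 2 / 2 + (1 / 2 + M0) * (1 / lam (Real.sinh κ) X + 1 / e) ≤ ν * M) :
    PX e κ x y0 M := by
  have he0 : 0 < e := by linarith
  have hK0 : 0 < Real.sinh κ := Real.sinh_pos_iff.2 hκ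
  have hb := bet_pos he0 hκ
  intro t ht ho hy
  have hr0 := rz_pos he0 hκ ht
  have hrr : e * Real.sinh κ * M * t.re = M * rz e κ t := by unfold rz bet; ring
  rcases le_or_gt 1 (rz e κ t) with hr | hr
  · apply MB_harn he0 hκ ht
    rw [hrr]
    nlinarith
  have hs : 0 < (shf κ t).re := shf_re hκ ht.le
  have hos := om_mono hκ (om_shf hκ ht ho) (by linarith : x ≤ x + 1)
  have hys : |yz e κ (shf κ t)| ≤ y0 := (yz_shf_le he0 hκ ht).trans hy
  have hx0 : 0 ≤ x := by linarith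
  -- the segment
  have hseg : ∀ z ∈ segment ℝ t (shf κ t), MB e κ M0 z := by
    intro z hz
    refine h z (re_segment ht hs hz) (om_seg hκ hx0 ht hs ho hos hz) ?_
    obtain ⟨u, v, hu, hv, huv, rfl⟩ := hz
    have h1 : yz e κ (u • t + v • shf κ t) = u * yz e κ t + v * yz e κ (shf κ t) := by
      unfold yz
      rw [Complex.add_im, Complex.smul_im, Complex.smul_im, smul_eq_mul, smul_eq_mul]; ring
    rw [h1]
    calc |u * yz e κ t + v * yz e κ (shf κ t)| ≤ |u * yz e κ t| + |v * yz e κ (shf κ t)| :=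
          abs_add_le _ _
      _ = u * |yz e κ t| + v * |yz e κ (shf κ t)| := by
          rw [abs_mul, abs_mul, abs_of_nonneg hu, abs_of_nonneg hv]
      _ ≤ u * y0 + v * y0 :=
          add_le_add (mul_le_mul_of_nonneg_left hy hu) (mul_le_mul_of_nonneg_left hys hv)
      _ = y0 := by rw [← add_mul, huv, one_mul]
  have hls := lf_sub he0 hκ ht hs hseg
  have hVz := z_diff he0 hκ ht
  have hV1 := Vz_le he0 hκ t
  obtain ⟨V, hV⟩ : ∃ V, V = (Sz e κ t + rz e κ t ^ 2) / e := ⟨_, rfl⟩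
  rw [← hV] at hV1
  have hS1 : Sz e κ t ≤ S0 := by
    unfold Sz
    have : yz e κ t ^ 2 ≤ y0 ^ 2 := by
      rw [← sq_abs (yz e κ t)]
      exact pow_le_pow_left₀ (abs_nonneg _) hy 2
    linarith
  have hSp := Sz_pos he0 hκ t
  have hV0 : 0 ≤ V := by rw [hV]; positivity
  have hVS : V ≤ (S0 + 1) / e := by
    rw [hV]
    apply div_le_div_of_nonneg_right _ he0.le
    nlinarith
  have hls2 : ‖log (fT e κ t) - log (fT e κ (shf κ t))‖ ≤ V * M0 := by
    rw [norm_sub_rev]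
    calc _ ≤ e * Real.sinh κ * M0 * ‖shf κ t - t‖ := hls
      _ = (e * Real.sinh κ * ‖shf κ t - t‖) * M0 := by ring
      _ ≤ V * M0 := mul_le_mul_of_nonneg_right (hVz.trans hV1) hM0
  have hPl := Pl_sub t hls2
  -- real part
  have hQ1 := one_le_Qk hκ ht
  have hQ0 : 0 < ‖Qk κ t‖ := by linarith
  have hre : ((e : ℂ) * log (Qk κ t)).re = e * Real.log ‖Qk κ t‖ := by
    rw [Complex.re_ofReal_mul, Complex.log_re]
  have him : ((e : ℂ) * log (Qk κ t)).im = e * arg (Qk κ t) := by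
    rw [Complex.im_ofReal_mul, Complex.log_im]
  have hlog : e * Real.log ‖Qk κ t‖ ≤ Real.cosh κ * rz e κ t + V / 2 := by
    have h1 : Real.log (‖Qk κ t‖ ^ 2) ≤ ‖Qk κ t‖ ^ 2 - 1 :=
      Real.log_le_sub_one_of_pos (by positivity)
    rw [Real.log_pow, Q_sq he0] at h1
    push_cast at h1
    have h2 : e * (2 * Real.log ‖Qk κ t‖) ≤ e * ((Sz e κ t / e +
        (2 * Real.cosh κ * rz e κ t + rz e κ t ^ 2 / e)) / e) :=
      mul_le_mul_of_nonneg_left (by linarith) he0.le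
    have h3 : e * ((Sz e κ t / e + (2 * Real.cosh κ * rz e κ t + rz e κ t ^ 2 / e)) / e) =
        2 * (Real.cosh κ * rz e κ t) + V := by
      rw [hV]; field_simp; ring
    linarith
  obtain ⟨R, hRd⟩ : ∃ R, R = (Pl e κ t).re := ⟨_, rfl⟩
  have hR1 : R ≤ Real.cosh κ * rz e κ t + V * (1 / 2 + M0) := by
    have h1 := (Complex.abs_re_le_norm _).trans hPl
    rw [Complex.sub_re, hre, ← hRd] at h1
    have h2 := (abs_le.1 h1).2
    linarith
  have hc := cosh_le' κ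
  have hc1 := Real.one_le_cosh κ
  have hR3 : R ≤ 3 := by
    have h1 : V * (1 / 2 + M0) ≤ (S0 + 1) / e * (1 / 2 + M0) :=
      mul_le_mul_of_nonneg_right hVS (by linarith)
    have h2 : Real.cosh κ * rz e κ t ≤ Real.cosh κ * 1 :=
      mul_le_mul_of_nonneg_left hr.le (by linarith)
    nlinarith
  have hi : |(Pl e κ t).im| ≤ y0 + (S0 + 1) / e * M0 := by
    have h1 := (Complex.abs_im_le_norm _).trans hPl
    rw [Complex.sub_im, him] at h1
    have h2 := e_arg_le he0 hκ ht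
    have h3 : |(Pl e κ t).im| ≤ |(Pl e κ t).im - e * arg (Qk κ t)| + |e * arg (Qk κ t)| := by
      have := abs_add_le ((Pl e κ t).im - e * arg (Qk κ t)) (e * arg (Qk κ t))
      rwa [sub_add_cancel] at this
    have h4 : V * M0 ≤ (S0 + 1) / e * M0 := mul_le_mul_of_nonneg_right hVS hM0
    linarith
  have hgam := gam_le_R he0 hκ ht (by rw [← hRd]; exact hR3) hi hθ hν0 hν
  rw [← hRd] at hgam
  apply MB_gam he0 hκ ht
  rw [hrr]
  refine hgam.trans ?_
  rw [div_le_iff₀ hν0]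
  -- R ≤ r (c + (1/2 + M0) (1/lam + 1/e))
  have hl := lam_pos2 hK0.le (by linarith : Real.sinh κ ≤ 1) hX
  have ho2 := om_rz he0 hκ (by linarith : Real.sinh κ ≤ 1) hX.le ht (om_mono hκ ho hXx)
  have hSl : Sz e κ t / e ≤ rz e κ t * (1 / lam (Real.sinh κ) X) := by
    rw [mul_one_div, le_div_iff₀ hl]
    calc Sz e κ t / e * lam (Real.sinh κ) X = lam (Real.sinh κ) X * Sz e κ t / e := by ring
      _ ≤ _ := ho2
  have hVr : V ≤ rz e κ t * (1 / lam (Real.sinh κ) X + 1 / e) := by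
    have h1 : V = Sz e κ t / e + rz e κ t ^ 2 / e := by rw [hV]; ring
    have h2 : rz e κ t ^ 2 / e ≤ rz e κ t / e := by
      apply div_le_div_of_nonneg_right _ he0.le
      nlinarith
    rw [h1, mul_add, mul_one_div _ e]
    linarith
  have h7 : V * (1 / 2 + M0) ≤ rz e κ t * (1 / lam (Real.sinh κ) X + 1 / e) * (1 / 2 + M0) :=
    mul_le_mul_of_nonneg_right hVr (by linarith)
  have h8 : Real.cosh κ * rz e κ t ≤ (1 + Real.sinh κ ^ 2 / 2) * rz e κ t :=
    mul_le_mul_of_nonneg_right hc hr0.le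
  have h9 := mul_le_mul_of_nonneg_left hM hr0.le
  calc R ≤ (1 + Real.sinh κ ^ 2 / 2) * rz e κ t +
        rz e κ t * (1 / lam (Real.sinh κ) X + 1 / e) * (1 / 2 + M0) := by linarith
    _ = rz e κ t * (1 + Real.sinh κ ^ 2 / 2 +
        (1 / 2 + M0) * (1 / lam (Real.sinh κ) X + 1 / e)) := by ring
    _ ≤ rz e κ t * (ν * M) := h9
    _ = M * rz e κ t * ν := by ring

end Pool.Agent.helper31.EQB
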