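import Pool.Agent.helper31.EQB.FirstC1
import Pool.Agent.helper31.EQB.MBx

/-!
# EQB-14: the displacement (see the header of FirstC)
-/

namespace Pool.Agent.helper31.EQB

open Complex ComplexConjugate Set Filter Topology
open Pool.Agent.helper31.EQ.Y Pool.Agent.helper31.EQ.R
open Pool.Agent.helper12.EQL Pool.Agent.helper12.RP Pool.Agent.helper12.FF Pool.Agent.helper12.RS
open Pool.Agent.helper63.FF

variable {e κ Y w p q : ℝ}

private theorem fd_log_sub {χ : ℂ} {X lx : ℝ} (hχ : ‖χ‖ ≤ X) (hX : X < 1)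
    (h : -Real.log (1 - X) ≤ lx) : ‖log (1 - χ)‖ ≤ lx := by
  have h1 : ‖-χ‖ < 1 := by rw [norm_neg]; linarith
  have h2 := norm_log_le h1
  rw [norm_neg, ← sub_eq_add_neg] at h2
  have h3 := Real.log_le_log (by linarith : 0 < 1 - X) (by linarith : 1 - X ≤ 1 - ‖χ‖)
  linarith

private theorem fd_log_add {z : ℂ} {X lx : ℝ} (hχ : ‖z‖ ≤ X) (hX : X < 1)
    (h : -Real.log (1 - X) ≤ lx) : ‖log (1 + z)‖ ≤ lx := by
  have h2 := norm_log_le (hχ.trans_lt hX)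
  have h3 := Real.log_le_log (by linarith : 0 < 1 - X) (by linarith : 1 - X ≤ 1 - ‖z‖)
  linarith

section

variable {v V a q2 lf0 lf1 lau lal gl F Gr G2 gt ft err dz r1 r2 yc x1 S0l Sl Ma Mb X u lx lu ΔG ΔF
  E RH : ℝ} {pp : ℂ}

/-- `0 ≤ E` -/
theorem first_E0 (C : MC e κ Y w p q)
    (N : FN e (Real.sinh κ) v V a p q q2 w lf0 lf1 lau lal gl F Gr G2 gt ft err dz r1 r2 yc x1 S0l Sl
      Ma Mb X u lx lu ΔG ΔF E RH)
    (h0 : Real.log ‖fT e κ (shf κ (t00 e κ v))‖ ≤ lf0)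
    (h1 : Real.log ‖fT e κ (shf κ (shf κ (t00 e κ v)))‖ ≤ lf1) : 0 ≤ E := by
  have he : 0 < e := by linarith [C.e200]
  obtain ⟨hVV, hV0, herr0, hdz0, hΔG0, hΔF0, -⟩ := first_FH C N h0 h1
  have hv0 := N.v0
  refine le_trans ?_ N.hE
  positivity

/-- points of the segment `[s0, c]` -/
theorem first_pt (C : MC e κ Y w p q) (hY : Y ≤ 7 / 2) (hyc : yc ≤ Y) (hvY : v ≤ Y)
    (hT : tanh (κ * pp) = t00 e κ v)
    (N : FN e (Real.sinh κ) v V a p q q2 w lf0 lf1 lau lal gl F Gr G2 gt ft err dz r1 r2 yc x1 S0l Sl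
      Ma Mb X u lx lu ΔG ΔF E RH)
    (h0 : Real.log ‖fT e κ (shf κ (t00 e κ v))‖ ≤ lf0)
    (h1 : Real.log ‖fT e κ (shf κ (shf κ (t00 e κ v)))‖ ≤ lf1) :
    ∀ z ∈ segment ℝ (shf κ (t00 e κ v)) (nxc e κ pp (shf κ (t00 e κ v)) 0),
      PtC e κ Y RH z ∧ PtC e κ Y RH (shf κ z) ∧ om κ x1 z ∧ om κ (x1 + 1) (shf κ z) ∧
      Sl ≤ Sz e κ z ∧ Sl * (1 - 500 / e ^ 2) ≤ Sz e κ (shf κ z) ∧
      ∀ y, v ≤ y → yc ≤ y → |yz e κ z| ≤ y := by
  obtain ⟨hFH0, hcre, hr1, hr2, hyc', hdz, hom, hseg⟩ := first_cen C hY hyc hvY hT N h0 h1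
  obtain ⟨hVV, hV0, herr0, hdz0, hΔG0, hΔF0, -⟩ := first_FH C N h0 h1
  have hE0 := first_E0 C N h0 h1
  have he2 := C.e200
  have he : 0 < e := by linarith
  have hκ := C.κ0
  have hK0 : 0 < Real.sinh κ := Real.sinh_pos_iff.2 hκ
  have hK1 : Real.sinh κ ≤ 1 := by linarith [C.K1]
  have hβ : 0 < bet e κ := mul_pos he hK0
  have hVv : V = Vv e κ v := hVV.symm
  have hs0 := hFH0.hs
  obtain ⟨s, hsd⟩ : ∃ s, s = shf κ (t00 e κ v) := ⟨_, rfl⟩
  obtain ⟨g1, g2, g3, g4, -⟩ := s0_pos he hκ N.v0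
  rw [← hsd] at hFH0 hcre hr1 hr2 hyc' hdz hom hseg hs0 h0 h1 g1 g2 g3 g4 ⊢
  obtain ⟨c, hcd⟩ : ∃ c, c = nxc e κ pp s 0 := ⟨_, rfl⟩
  rw [← hcd] at hcre hr1 hr2 hyc' hdz hom hseg ⊢
  have he500 : 500 / e ^ 2 ≤ 1 / 2 := by
    rw [div_le_div_iff₀ (by positivity) (by norm_num)]
    nlinarith
  have he500' : 0 ≤ 500 / e ^ 2 := by positivity
  have hSl0 := N.Sl0
  have hSle : 0 < Sl / e := by positivity
  have hv0 := N.v0
  have hys : |yz e κ s| ≤ v := by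
    have h6 : 0 ≤ yz e κ s := by unfold yz; positivity
    rw [abs_of_nonneg h6, g4]
    apply div_le_self hv0
    have : 0 ≤ Vv e κ v / e := by rw [← hVv]; positivity
    linarith
  have hfac : Sl / e * (1 - 2 * E / √Sl - 500 / e ^ 2) ≤ Sl / e * (1 - 500 / e ^ 2) := by
    have : 0 ≤ 2 * E / √Sl := by positivity
    apply mul_le_mul_of_nonneg_left _ hSle.le
    linarith
  have hRHr2 : r2 ≤ RH := by
    have h2 := N.hRH2
    have h3 : 0 ≤ (√((e * Real.sinh κ) ^ 2 + yc ^ 2) + dz + E) ^ 2 / e := by positivity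
    linarith
  have hRHV : 201 / 200 * V ≤ RH := by
    have h2 := N.hRH1
    have h3 : 0 ≤ (√((e * Real.sinh κ) ^ 2 + v ^ 2) + dz) ^ 2 / e := by positivity
    linarith
  intro z hz
  obtain ⟨z1, z2, z3, z4, z5⟩ := hseg z hz
  have hrz : 0 ≤ rz e κ z := by unfold rz; positivity
  have hzRH : rz e κ z ≤ RH := z5.trans (max_le hRHr2 hRHV)
  have hRH0 : 0 ≤ RH := hrz.trans hzRH
  have h9 : RH ≤ 46 / 5 * (Sl / e * (1 - 500 / e ^ 2)) := N.h9.trans (by linarith)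
  have h9e : 46 / 5 * (Sl / e * (1 - 500 / e ^ 2)) = 46 / 5 * (Sl * (1 - 500 / e ^ 2)) / e := by ring
  have h2 : RH ^ 2 ≤ 9 / 10 * (Sl * (1 - 500 / e ^ 2)) := by
    refine N.h2.trans ?_
    have h3 : Sl * (1 - 2 * E / √Sl - 500 / e ^ 2) ≤ Sl * (1 - 500 / e ^ 2) := by
      have : 0 ≤ 2 * E / √Sl := by positivity
      apply mul_le_mul_of_nonneg_left _ hSl0.le
      linarith
    linarith
  have hle1 : Sl * (1 - 500 / e ^ 2) ≤ Sl := by
    have : 0 ≤ Sl * (500 / e ^ 2) := by positivity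
    nlinarith
  have Pz : PtC e κ Y RH z := by
    refine ⟨z1, z4, ?_, ?_, hzRH⟩
    · refine hzRH.trans (h9.trans ?_)
      rw [h9e]
      gcongr
      linarith
    · have h4 : rz e κ z ^ 2 ≤ RH ^ 2 := pow_le_pow_left₀ hrz hzRH 2
      linarith
  have hz35 : |yz e κ z| ≤ 7 / 2 := z4.trans hY
  have hSs := (Sz_shf_ge he2 hκ C.K1 z1 hz35 Pz.r9 Pz.r2).1
  have hSs2 : Sl * (1 - 500 / e ^ 2) ≤ Sz e κ (shf κ z) := by
    refine le_trans ?_ hSs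
    have : 0 ≤ 1 - 500 / e ^ 2 := by linarith
    have h4 := mul_le_mul_of_nonneg_left z3 this
    linarith
  have hrs : rz e κ (shf κ z) ≤ RH := by
    have h4 := rz_shf_le he hκ z1
    -- distances
    have hds : bet e κ * ‖z - s‖ ≤ dz := by
      refine le_trans ?_ hdz
      apply mul_le_mul_of_nonneg_left _ hβ.le
      exact norm_sub_le_of_mem_segment hz
    have hdc : bet e κ * ‖z - c‖ ≤ dz := by
      refine le_trans ?_ hdz
      apply mul_le_mul_of_nonneg_left _ hβ.le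
      rw [← norm_neg (c - s), neg_sub]
      rw [segment_symm] at hz
      exact norm_sub_le_of_mem_segment hz
    have d1 := (disp_z he hκ hds).2.2.2
    have d2 := (disp_z he hκ hdc).2.2.2
    have hSz0 : 0 ≤ Sz e κ z := by unfold Sz; positivity
    have hsq := Real.sq_sqrt hSz0
    have hs1 : √(Sz e κ s) ≤ √((e * Real.sinh κ) ^ 2 + v ^ 2) := by
      apply Real.sqrt_le_sqrt
      unfold Sz
      have h5 : yz e κ s ≤ v := by
        rw [g4]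
        apply div_le_self hv0
        have : 0 ≤ Vv e κ v / e := by rw [← hVv]; positivity
        linarith
      have h6 : 0 ≤ yz e κ s := by unfold yz; positivity
      have h7 : yz e κ s ^ 2 ≤ v ^ 2 := pow_le_pow_left₀ h6 h5 2
      unfold bet
      linarith
    have hc1 : √(Sz e κ c) ≤ √((e * Real.sinh κ) ^ 2 + yc ^ 2) := by
      apply Real.sqrt_le_sqrt
      unfold Sz
      have h7 : yz e κ c ^ 2 ≤ yc ^ 2 := by
        rw [← sq_abs (yz e κ c)]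
        exact pow_le_pow_left₀ (abs_nonneg _) hyc' 2
      unfold bet at h7 ⊢
      linarith
    rcases le_total r2 (201 / 200 * V) with h | h
    · rw [max_eq_right h] at z5
      have h5 : √(Sz e κ z) ≤ √((e * Real.sinh κ) ^ 2 + v ^ 2) + dz := by linarith
      have h6 : Sz e κ z ≤ (√((e * Real.sinh κ) ^ 2 + v ^ 2) + dz) ^ 2 := by
        rw [← hsq]
        exact pow_le_pow_left₀ (Real.sqrt_nonneg _) h5 2
      have h7 : Sz e κ z / e ≤ (√((e * Real.sinh κ) ^ 2 + v ^ 2) + dz) ^ 2 / e := by gcongr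
      linarith [N.hRH1]
    · rw [max_eq_left h] at z5
      have h5 : √(Sz e κ z) ≤ √((e * Real.sinh κ) ^ 2 + yc ^ 2) + dz + E := by linarith
      have h6 : Sz e κ z ≤ (√((e * Real.sinh κ) ^ 2 + yc ^ 2) + dz + E) ^ 2 := by
        rw [← hsq]
        exact pow_le_pow_left₀ (Real.sqrt_nonneg _) h5 2
      have h7 : Sz e κ z / e ≤ (√((e * Real.sinh κ) ^ 2 + yc ^ 2) + dz + E) ^ 2 / e := by
        gcongr
      linarith [N.hRH2]
  have hs1 := shf_re hκ z1.le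
  have hrs0 : 0 ≤ rz e κ (shf κ z) := by unfold rz; positivity
  have Ps : PtC e κ Y RH (shf κ z) := by
    refine ⟨hs1, (yz_shf_le he hκ z1).trans z4, ?_, ?_, hrs⟩
    · refine hrs.trans (h9.trans ?_)
      rw [h9e]
      gcongr
    · have h4 : rz e κ (shf κ z) ^ 2 ≤ RH ^ 2 := pow_le_pow_left₀ hrs0 hrs 2
      linarith
  refine ⟨Pz, Ps, z2, om_shf hκ z1 z2, z3, hSs2, fun y hy1 hy2 => ?_⟩
  obtain ⟨-, l, m, hl, hm, hlm, hre, him⟩ := fc_seg hz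
  have h2 : yz e κ z = l * yz e κ s + m * yz e κ c := by unfold yz; rw [him]; ring
  rw [h2]
  calc |l * yz e κ s + m * yz e κ c| ≤ |l * yz e κ s| + |m * yz e κ c| := abs_add_le _ _
    _ = l * |yz e κ s| + m * |yz e κ c| := by
        rw [abs_mul, abs_mul, abs_of_nonneg hl, abs_of_nonneg hm]
    _ ≤ l * y + m * y := by
        have h3 : |yz e κ s| ≤ y := hys.trans hy1
        have h4 : |yz e κ c| ≤ y := hyc'.trans hy2
        gcongr
    _ = y := by rw [← add_mul, hlm, one_mul]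

/-- `MB Ma` on the segment, from `Mq` -/
theorem ma_q (C : MC e κ Y w p q) (hY : Y ≤ 7 / 2) (hyc : yc ≤ Y) (hvY : v ≤ Y)
    (hT : tanh (κ * pp) = t00 e κ v)
    (N : FN e (Real.sinh κ) v V a p q q2 w lf0 lf1 lau lal gl F Gr G2 gt ft err dz r1 r2 yc x1 S0l Sl
      Ma Mb X u lx lu ΔG ΔF E RH)
    (h0 : Real.log ‖fT e κ (shf κ (t00 e κ v))‖ ≤ lf0)
    (h1 : Real.log ‖fT e κ (shf κ (shf κ (t00 e κ v)))‖ ≤ lf1)
    (hM : Mq e (Real.sinh κ) p q q2 x1 (Sl / e) ≤ Ma) :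
    ∀ z ∈ segment ℝ (shf κ (t00 e κ v)) (nxc e κ pp (shf κ (t00 e κ v)) 0), MB e κ Ma z := by
  intro z hz
  have he2 := C.e200
  have he : 0 < e := by linarith
  have hSl0 := N.Sl0
  obtain ⟨P1, P2, z1, z2, z3, z4, z5⟩ := first_pt C hY hyc hvY hT N h0 h1 z hz
  have h4 := MB_q C hY P1 N.x10 z1 (W' := Sl / e) (by
    rw [mul_div_cancel₀ _ he.ne']; exact z3) (by positivity) N.q20 N.hρ
  exact h4.mono he C.κ0 hM

/-- `MB Mb` on the shifted segment, from `Mq` -/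
theorem mb_q (C : MC e κ Y w p q) (hY : Y ≤ 7 / 2) (hyc : yc ≤ Y) (hvY : v ≤ Y)
    (hT : tanh (κ * pp) = t00 e κ v)
    (N : FN e (Real.sinh κ) v V a p q q2 w lf0 lf1 lau lal gl F Gr G2 gt ft err dz r1 r2 yc x1 S0l Sl
      Ma Mb X u lx lu ΔG ΔF E RH)
    (h0 : Real.log ‖fT e κ (shf κ (t00 e κ v))‖ ≤ lf0)
    (h1 : Real.log ‖fT e κ (shf κ (shf κ (t00 e κ v)))‖ ≤ lf1)
    (hM : Mq e (Real.sinh κ) p q q2 (x1 + 1) (Sl / e * (1 - 500 / e ^ 2)) ≤ Mb) :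
    ∀ z ∈ segment ℝ (shf κ (t00 e κ v)) (nxc e κ pp (shf κ (t00 e κ v)) 0),
      MB e κ Mb (shf κ z) := by
  intro z hz
  have he2 := C.e200
  have he : 0 < e := by linarith
  have hSl0 := N.Sl0
  obtain ⟨P1, P2, z1, z2, z3, z4, z5⟩ := first_pt C hY hyc hvY hT N h0 h1 z hz
  have h4 := MB_q C hY P2 (by linarith [N.x10] : 0 ≤ x1 + 1) z2
    (W' := Sl / e * (1 - 500 / e ^ 2)) (by
      have : e * (Sl / e * (1 - 500 / e ^ 2)) = Sl * (1 - 500 / e ^ 2) := by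
        field_simp
      rw [this]; exact z4) (by
      have := fc_500 he2
      positivity) N.q20 N.hρ
  exact h4.mono he C.κ0 hM

/-- `MB Ma` on the segment, from `PX` -/
theorem ma_x (C : MC e κ Y w p q) (hY : Y ≤ 7 / 2) (hyc : yc ≤ Y) (hvY : v ≤ Y)
    (hT : tanh (κ * pp) = t00 e κ v)
    (N : FN e (Real.sinh κ) v V a p q q2 w lf0 lf1 lau lal gl F Gr G2 gt ft err dz r1 r2 yc x1 S0l Sl
      Ma Mb X u lx lu ΔG ΔF E RH)
    (h0 : Real.log ‖fT e κ (shf κ (t00 e κ v))‖ ≤ lf0)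
    (h1 : Real.log ‖fT e κ (shf κ (shf κ (t00 e κ v)))‖ ≤ lf1)
    {y : ℝ} (hy1 : v ≤ y) (hy2 : yc ≤ y) (hM : PX e κ x1 y Ma) :
    ∀ z ∈ segment ℝ (shf κ (t00 e κ v)) (nxc e κ pp (shf κ (t00 e κ v)) 0), MB e κ Ma z := by
  intro z hz
  obtain ⟨P1, P2, z1, z2, z3, z4, z5⟩ := first_pt C hY hyc hvY hT N h0 h1 z hz
  exact hM z P1.re z1 (z5 y hy1 hy2)

/-- `MB Mb` on the shifted segment, from `PX` -/
theorem mb_x (C : MC e κ Y w p q) (hY : Y ≤ 7 / 2) (hyc : yc ≤ Y) (hvY : v ≤ Y)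
    (hT : tanh (κ * pp) = t00 e κ v)
    (N : FN e (Real.sinh κ) v V a p q q2 w lf0 lf1 lau lal gl F Gr G2 gt ft err dz r1 r2 yc x1 S0l Sl
      Ma Mb X u lx lu ΔG ΔF E RH)
    (h0 : Real.log ‖fT e κ (shf κ (t00 e κ v))‖ ≤ lf0)
    (h1 : Real.log ‖fT e κ (shf κ (shf κ (t00 e κ v)))‖ ≤ lf1)
    {y : ℝ} (hy1 : v ≤ y) (hy2 : yc ≤ y) (hM : PX e κ (x1 + 1) y Mb) :
    ∀ z ∈ segment ℝ (shf κ (t00 e κ v)) (nxc e κ pp (shf κ (t00 e κ v)) 0),
      MB e κ Mb (shf κ z) := by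
  intro z hz
  have he : 0 < e := by linarith [C.e200]
  obtain ⟨P1, P2, z1, z2, z3, z4, z5⟩ := first_pt C hY hyc hvY hT N h0 h1 z hz
  exact hM _ P2.re z2 ((yz_shf_le he C.κ0 P1.re).trans (z5 y hy1 hy2))

/-- **The displacement.** -/
theorem first_d (C : MC e κ Y w p q) (hY : Y ≤ 7 / 2) (hyc : yc ≤ Y) (hvY : v ≤ Y)
    (hT : tanh (κ * pp) = t00 e κ v)
    (N : FN e (Real.sinh κ) v V a p q q2 w lf0 lf1 lau lal gl F Gr G2 gt ft err dz r1 r2 yc x1 S0l Sl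
      Ma Mb X u lx lu ΔG ΔF E RH)
    (h0 : Real.log ‖fT e κ (shf κ (t00 e κ v))‖ ≤ lf0)
    (h1 : Real.log ‖fT e κ (shf κ (shf κ (t00 e κ v)))‖ ≤ lf1)
    (hMa : ∀ z ∈ segment ℝ (shf κ (t00 e κ v)) (nxc e κ pp (shf κ (t00 e κ v)) 0), MB e κ Ma z)
    (hMb : ∀ z ∈ segment ℝ (shf κ (t00 e κ v)) (nxc e κ pp (shf κ (t00 e κ v)) 0),
      MB e κ Mb (shf κ z))
    {χ : ℂ} (hχ : ‖χ‖ ≤ X) :
    FH e κ v a (nxc e κ pp (shf κ (t00 e κ v)) 0) χ ∧
    ‖LF e κ (nxc e κ pp (shf κ (t00 e κ v)) 0) χ - LF e κ (shf κ (t00 e κ v)) 0‖ ≤ ΔF ∧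
    bet e κ * ‖nxc e κ pp (nxc e κ pp (shf κ (t00 e κ v)) 0) χ -
      nxc e κ pp (shf κ (t00 e κ v)) 0‖ ≤ E := by
  obtain ⟨hFH0, hcre, hr1, hr2, hyc', hdz, hom, hseg⟩ := first_cen C hY hyc hvY hT N h0 h1
  have hpt := first_pt C hY hyc hvY hT N h0 h1
  obtain ⟨hVV, hV0, herr0, hdz0, hΔG0, hΔF0, -, hgl, hGr, hLGn, hLFn⟩ := first_FH C N h0 h1
  have he2 := C.e200
  have he : 0 < e := by linarith
  have hκ := C.κ0
  have hK0 : 0 < Real.sinh κ := Real.sinh_pos_iff.2 hκ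
  have hβ : 0 < bet e κ := mul_pos he hK0
  have hVv : V = Vv e κ v := hVV.symm
  have hs0 := hFH0.hs
  obtain ⟨s, hsd⟩ : ∃ s, s = shf κ (t00 e κ v) := ⟨_, rfl⟩
  rw [← hsd] at hFH0 hcre hr1 hr2 hyc' hdz hom hseg hpt hs0 hMa hMb hLGn hLFn ⊢
  obtain ⟨c, hcd⟩ : ∃ c, c = nxc e κ pp s 0 := ⟨_, rfl⟩
  rw [← hcd] at hcre hr1 hr2 hyc' hdz hom hseg hpt hMa hMb ⊢
  have hSl0 := N.Sl0
  have hSle : 0 < Sl / e := by positivity
  have hMa0 := N.Ma0
  have hMb0 := N.Mb0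
  have hu0 : 0 ≤ u := (Real.exp_pos _).le.trans N.hu
  have hX0 := N.X0
  have hX1 := N.X1
  have huX : u * X ≤ X := mul_le_of_le_one_left hX0.le N.u1
  have hv0 := N.v0
  -- the differences
  have hlg := lg_sub he hκ hs0 hcre hMb
  have hlf := lf_sub he hκ hs0 hcre hMa
  have hlg' : ‖lg e κ c - lg e κ s‖ ≤ dz * (1 + Mb) := by
    refine hlg.trans ?_
    calc e * Real.sinh κ * (1 + Mb) * ‖c - s‖ = (1 + Mb) * (bet e κ * ‖c - s‖) := by
          unfold bet; ring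
      _ ≤ (1 + Mb) * dz := by gcongr
      _ = _ := by ring
  have hlf' : ‖log (fT e κ c) - log (fT e κ s)‖ ≤ dz * Ma := by
    refine hlf.trans ?_
    calc e * Real.sinh κ * Ma * ‖c - s‖ = Ma * (bet e κ * ‖c - s‖) := by
          unfold bet; ring
      _ ≤ Ma * dz := by gcongr
      _ = _ := by ring
  have hDG : ‖LG e κ c χ - LG e κ s 0‖ ≤ ΔG := by
    have e1 : LG e κ c χ - LG e κ s 0 = (lg e κ c - lg e κ s) + log (1 - χ) := by
      unfold LG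
      rw [sub_zero, log_one]
      ring
    rw [e1]
    exact ((norm_add_le _ _).trans (add_le_add hlg' (fd_log_sub hχ hX1 N.hlx))).trans N.hΔG
  have hqc : ‖qq e κ c‖ ≤ u := by
    obtain ⟨Pc, -, -, -, z3, -⟩ := hpt c (right_mem_segment ℝ s c)
    have h2 := qq_q C Pc N.x10 hom (W' := Sl / e) (by
      rw [mul_div_cancel₀ _ he.ne']; exact z3) N.q20 N.hρ
    exact h2.trans N.hu
  have hqχ : ‖qq e κ c * χ‖ ≤ u * X := by
    rw [norm_mul]
    exact mul_le_mul hqc hχ (norm_nonneg _) hu0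
  have hDF : ‖LF e κ c χ - LF e κ s 0‖ ≤ ΔF := by
    have e1 : LF e κ c χ - LF e κ s 0 =
        (log (fT e κ c) - log (fT e κ s)) + log (1 + qq e κ c * χ) := by
      unfold LF
      rw [mul_zero, add_zero, log_one]
      ring
    rw [e1]
    exact ((norm_add_le _ _).trans (add_le_add hlf'
      (fd_log_add hqχ (by linarith) N.hlu))).trans N.hΔF
  have hFH : FH e κ v a c χ := by
    refine ⟨he2, hκ, C.K1, hv0, hFH0.v1, hFH0.V1, N.a0, N.a1, hcre, hχ.trans_lt hX1, ?_, ?_⟩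
    · have h2 : LG e κ c χ = LG e κ s 0 + (LG e κ c χ - LG e κ s 0) := by ring
      rw [h2]
      exact ((norm_add_le _ _).trans (add_le_add hLGn hDG)).trans N.haG
    · have h2 : LF e κ c χ = LF e κ s 0 + (LF e κ c χ - LF e κ s 0) := by ring
      rw [h2]
      exact ((norm_add_le _ _).trans (add_le_add hLFn hDF)).trans N.haF
  refine ⟨hFH, hDF, ?_⟩
  have hT' : tanh (κ * pp) = ((v / bet e κ : ℝ) : ℂ) * I := hT
  have h2 := first_diff hFH0 hFH hT' hDG hDF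
  rw [← hcd] at h2
  refine h2.trans ?_
  rw [← hVv]
  exact N.hE

end

end Pool.Agent.helper31.EQB
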