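import Pool.Agent.helper31.EQB.FirstC2

/-!
# EQB-14: the next link and the closing (see the header of FirstC)
-/

namespace Pool.Agent.helper31.EQB

open Complex ComplexConjugate Set Filter Topology
open Pool.Agent.helper31.EQ.Y Pool.Agent.helper31.EQ.R
open Pool.Agent.helper12.EQL Pool.Agent.helper12.RP Pool.Agent.helper12.FF Pool.Agent.helper12.RS
open Pool.Agent.helper63.FF

variable {e κ Y w p q : ℝ}

theorem S_mono {Sl S E : ℝ} (h0 : 0 < Sl) (h1 : Sl ≤ S) (hE : E ≤ √Sl) :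
    Sl * (1 - 2 * E / √Sl) ≤ S * (1 - 2 * E / √S) := by
  have hS : 0 < S := h0.trans_le h1
  have a1 : 0 < √Sl := Real.sqrt_pos.2 h0
  have a2 : √Sl ≤ √S := Real.sqrt_le_sqrt h1
  have a3 : 0 < √S := a1.trans_le a2
  have e1 : Sl * (1 - 2 * E / √Sl) = √Sl * √Sl - 2 * E * √Sl := by
    have : Sl * (1 - 2 * E / √Sl) = (√Sl * √Sl) * (1 - 2 * E / √Sl) := by
      rw [Real.mul_self_sqrt h0.le]
    rw [this]; field_simp
  have e2 : S * (1 - 2 * E / √S) = √S * √S - 2 * E * √S := by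
    have : S * (1 - 2 * E / √S) = (√S * √S) * (1 - 2 * E / √S) := by
      rw [Real.mul_self_sqrt hS.le]
    rw [this]; field_simp
  rw [e1, e2]
  have h2 : 0 ≤ (√S - √Sl) * (√S + √Sl - 2 * E) := mul_nonneg (by linarith) (by linarith)
  linarith

/-- data of a displacement from `c` to `t` -/
structure DC (e κ Y r1 r2 yc x1 Sl E : ℝ) (c t : ℂ) : Prop where
  cre : 0 < c.re
  hr1 : r1 ≤ rz e κ c
  hr2 : rz e κ c ≤ r2
  hyc : |yz e κ c| ≤ yc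
  hom : om κ x1 c
  hS : Sl ≤ Sz e κ c
  Sl0 : 0 < Sl
  hE : bet e κ * ‖t - c‖ ≤ E
  Er : E < r1
  Es : E < √Sl
  yE : yc + E ≤ Y

section

variable {r1 r2 yc x1 Sl E RH d Λ0 y0 W2 M1 u1 η a0 DP Vc q2 : ℝ} {c t : ℂ}

theorem DC.facts (C : MC e κ Y w p q) (D : DC e κ Y r1 r2 yc x1 Sl E c t) :
    0 ≤ E ∧ 0 < t.re ∧ rz e κ t ≤ r2 + E ∧ |yz e κ t| ≤ yc + E ∧
      Sl * (1 - 2 * E / √Sl) ≤ Sz e κ t := by
  have he : 0 < e := by have := C.e200; linarith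
  have hκ := C.κ0
  have hK0 : 0 < Real.sinh κ := Real.sinh_pos_iff.2 hκ
  have hβ : 0 < bet e κ := mul_pos he hK0
  have hE := D.hE
  have hE0 : 0 ≤ E := le_trans (by positivity) hE
  obtain ⟨d1, d2, d3, d4⟩ := disp_z he hκ hE
  have h4 : |rz e κ t - rz e κ c| ≤ E := by
    have h5 : rz e κ t - rz e κ c = bet e κ * (t - c).re := by
      unfold rz; rw [Complex.sub_re]; ring
    rw [h5, abs_mul, abs_of_pos hβ]
    exact (mul_le_mul_of_nonneg_left (Complex.abs_re_le_norm _) hβ.le).trans hE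
  have h5 := (abs_le.1 h4).1
  have h6 : 0 < rz e κ t := by linarith [D.Er, D.hr1]
  refine ⟨hE0, (mul_pos_iff_of_pos_left hβ).1 h6, by linarith [D.hr2], by linarith [D.hyc], ?_⟩
  exact (S_mono D.Sl0 D.hS D.Es.le).trans d3

theorem DC.step (C : MC e κ Y w p q) (D : DC e κ Y r1 r2 yc x1 Sl E c t)
    (d0 : 0 ≤ d) (d1 : d ≤ x1)
    (hd : e * E * Real.exp (2 * Real.sinh κ * x1) ≤
      (1 - Real.sinh κ ^ 2 / 6) * d * (√Sl * (√Sl - E)))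
    (hΛ : r2 + E ≤ Λ0 * (Sl / e * (1 - 2 * E / √Sl))) (Λ00 : 0 ≤ Λ0) (hy0 : yc + E ≤ y0) :
    St e κ (x1 - d) Λ0 y0 t := by
  have he : 0 < e := by have := C.e200; linarith
  have hκ := C.κ0
  obtain ⟨hE0, hre, hr, hy, hS⟩ := D.facts C
  have hDp : √Sl ≤ bet e κ * ‖c + 1‖ :=
    (Real.sqrt_le_sqrt D.hS).trans (sqrtS_le (e := e) he hκ D.cre)
  refine ⟨hre, ?_, by linarith, ?_⟩
  · exact om_disp he hκ (by linarith [C.K1]) D.cre hre D.hom D.hE hDp D.Es d0 (d0.trans d1) hd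
  · refine hr.trans (hΛ.trans ?_)
    have h8 : Λ0 * Sz e κ t / e = Λ0 * (Sz e κ t / e) := by ring
    rw [h8]
    apply mul_le_mul_of_nonneg_left _ Λ00
    have h9 : Sl / e * (1 - 2 * E / √Sl) = Sl * (1 - 2 * E / √Sl) / e := by ring
    rw [h9]
    exact div_le_div_of_nonneg_right hS he.le

/-- the points of the segment -/
theorem DC.seg (C : MC e κ Y w p q) (hY : Y ≤ 7 / 2) (D : DC e κ Y r1 r2 yc x1 Sl E c t)
    (hRH : r2 + E + (√((e * Real.sinh κ) ^ 2 + yc ^ 2) + E) ^ 2 / e ≤ RH)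
    (h9 : RH ≤ 46 / 5 * (Sl / e * (1 - 2 * E / √Sl - 500 / e ^ 2)))
    (h2 : RH ^ 2 ≤ 9 / 10 * (Sl * (1 - 2 * E / √Sl - 500 / e ^ 2)))
    (hx : 0 ≤ x1 - d) (d0 : 0 ≤ d) (ht : om κ (x1 - d) t) {z : ℂ} (hz : z ∈ segment ℝ c t) :
    PtC e κ Y RH (shf κ z) ∧ om κ (x1 + 1 - d) (shf κ z) ∧
      Sl * (1 - 2 * E / √Sl - 500 / e ^ 2) ≤ Sz e κ (shf κ z) := by
  have he2 := C.e200
  have he0 : 0 < e := by linarith
  have hκ := C.κ0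
  have hK0 : 0 < Real.sinh κ := Real.sinh_pos_iff.2 hκ
  have hβ : 0 < bet e κ := mul_pos he0 hK0
  obtain ⟨hE0, hre, hr, hy, hS⟩ := D.facts C
  have hSl := D.Sl0
  have hsS : 0 < √Sl := Real.sqrt_pos.2 hSl
  have hz0 : 0 < z.re := re_segment D.cre hre hz
  have hzE : bet e κ * ‖z - c‖ ≤ E := by
    refine le_trans (mul_le_mul_of_nonneg_left ?_ hβ.le) D.hE
    exact norm_sub_le_of_mem_segment hz
  have hzo : om κ (x1 - d) z :=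
    om_seg hκ hx D.cre hre (om_mono hκ D.hom (by linarith)) ht hz
  obtain ⟨d1, d2, d3, d4⟩ := disp_z he0 hκ hzE
  have d3' : Sl * (1 - 2 * E / √Sl) ≤ Sz e κ z := (S_mono hSl D.hS D.Es.le).trans d3
  have hSc : √(Sz e κ c) ≤ √((e * Real.sinh κ) ^ 2 + yc ^ 2) := by
    apply Real.sqrt_le_sqrt
    unfold Sz
    have h3 : yz e κ c ^ 2 ≤ yc ^ 2 := by
      rw [← sq_abs (yz e κ c)]
      exact pow_le_pow_left₀ (abs_nonneg _) D.hyc 2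
    have h4 : bet e κ = e * Real.sinh κ := rfl
    rw [h4]
    linarith
  have d4' : √(Sz e κ z) ≤ √((e * Real.sinh κ) ^ 2 + yc ^ 2) + E := by linarith
  obtain ⟨R, hR⟩ : ∃ R, R = √((e * Real.sinh κ) ^ 2 + yc ^ 2) := ⟨_, rfl⟩
  rw [← hR] at d4' hRH hSc
  have hR0 : 0 ≤ (R + E) ^ 2 / e := by positivity
  have hrz : rz e κ z ≤ RH := by linarith [D.hr2]
  have hrz0 : 0 ≤ rz e κ z := by unfold rz; positivity
  have hSz0 : 0 ≤ Sz e κ z := by unfold Sz; positivity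
  have h450 : 0 ≤ 500 / e ^ 2 := by positivity
  have hlow : Sl * (1 - 2 * E / √Sl - 500 / e ^ 2) ≤ Sz e κ z := by
    have h3 : Sl * (1 - 2 * E / √Sl - 500 / e ^ 2) =
      Sl * (1 - 2 * E / √Sl) - Sl * (500 / e ^ 2) := by ring
    rw [h3]
    have := mul_nonneg hSl.le h450
    linarith
  have hyz : |yz e κ z| ≤ Y := by linarith [D.hyc, D.yE]
  have h9' : ∀ {W : ℝ}, Sl * (1 - 2 * E / √Sl - 500 / e ^ 2) ≤ W → RH ≤ 46 / 5 * W / e := by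
    intro W hW
    refine h9.trans ?_
    have h3 : 46 / 5 * (Sl / e * (1 - 2 * E / √Sl - 500 / e ^ 2)) =
      46 / 5 * (Sl * (1 - 2 * E / √Sl - 500 / e ^ 2)) / e := by ring
    rw [h3]
    apply div_le_div_of_nonneg_right _ he0.le
    linarith
  have h2' : rz e κ z ^ 2 ≤ 9 / 10 * Sz e κ z := by
    have h4 : rz e κ z ^ 2 ≤ RH ^ 2 := pow_le_pow_left₀ hrz0 hrz 2
    linarith
  obtain ⟨g1, -⟩ := Sz_shf_ge he2 hκ C.K1 hz0 (hyz.trans hY) (hrz.trans (h9' hlow)) h2'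
  have hlow2 : Sl * (1 - 2 * E / √Sl - 500 / e ^ 2) ≤ Sz e κ (shf κ z) := by
    refine le_trans ?_ g1
    have h5 : 0 ≤ 1 - 500 / e ^ 2 := (fc_500 he2).le
    have h6 := mul_le_mul_of_nonneg_left d3' h5
    have h7 : (1 - 500 / e ^ 2) * (Sl * (1 - 2 * E / √Sl)) =
      Sl * (1 - 2 * E / √Sl - 500 / e ^ 2) + Sl * (500 / e ^ 2 * (2 * E / √Sl)) := by ring
    have h8 : 0 ≤ Sl * (500 / e ^ 2 * (2 * E / √Sl)) := by positivity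
    linarith
  have hrs : rz e κ (shf κ z) ≤ RH := by
    have h5 := rz_shf_le (e := e) he0 hκ hz0
    have h6 : Sz e κ z / e ≤ (R + E) ^ 2 / e := by
      apply div_le_div_of_nonneg_right _ he0.le
      have h7 : Sz e κ z = √(Sz e κ z) ^ 2 := (Real.sq_sqrt hSz0).symm
      rw [h7]
      exact pow_le_pow_left₀ (Real.sqrt_nonneg _) d4' 2
    linarith [D.hr2]
  have hsz := shf_re hκ hz0.le
  have hrs0 : 0 ≤ rz e κ (shf κ z) := by unfold rz; positivity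
  refine ⟨⟨hsz, (yz_shf_le he0 hκ hz0).trans hyz, hrs.trans (h9' hlow2), ?_, hrs⟩, ?_, hlow2⟩
  · have h4 : rz e κ (shf κ z) ^ 2 ≤ RH ^ 2 := pow_le_pow_left₀ hrs0 hrs 2
    linarith
  · have h5 := om_shf hκ hz0 hzo
    have h6 : x1 - d + 1 = x1 + 1 - d := by ring
    rwa [h6] at h5

/-- closing, from the bounds on the segment -/
theorem DC.close (C : MC e κ Y w p q) (D : DC e κ Y r1 r2 yc x1 Sl E c t)
    (hM10 : 0 ≤ M1) (hMB : ∀ z ∈ segment ℝ c t, MB e κ M1 (shf κ z))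
    (hqq : ‖qq e κ (shf κ t)‖ ≤ u1) (hη : Real.exp (E * (1 + M1)) ≤ η) (a00 : 0 ≤ a0)
    (DP0 : 0 ≤ DP)
    (hDP : (e * Real.sinh κ) ^ 2 + yc ^ 2 + r2 ^ 2 + 2 * (e * Real.sinh κ) * r2 ≤ DP ^ 2)
    (hVc : ((e * Real.sinh κ) ^ 2 + yc ^ 2 + r2 ^ 2) / e ≤ Vc) (r10 : 0 < r1) {X : ℝ}
    (hcl : (η - 1) + η * (u1 * (a0 * (4 / (4 + e * Real.sinh κ)))) * (DP + Vc + E) <
      (1 - Real.sinh κ / 1024) * X) {χ' : ℂ}
    (hχ' : ‖χ'‖ ≤ a0 * (4 / (4 + bet e κ)) * (bet e κ * ‖shf κ t + 1‖)) :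
    ‖1 - (1 - fT e κ t) / (1 - fT e κ c) * (1 + qq e κ (shf κ t) * χ')‖ <
      (1 - Real.sinh κ / 1024) * X := by
  have he2 := C.e200
  have he0 : 0 < e := by linarith
  have hκ := C.κ0
  have hK0 : 0 < Real.sinh κ := Real.sinh_pos_iff.2 hκ
  have hβ : 0 < bet e κ := mul_pos he0 hK0
  have hbe : bet e κ = e * Real.sinh κ := rfl
  obtain ⟨hE0, hre, hr, hy, hS⟩ := D.facts C
  have hc := D.cre
  have hη0 : Real.sinh κ * ‖t - c‖ ≤ E / e := by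
    rw [le_div_iff₀ he0]
    have : Real.sinh κ * ‖t - c‖ * e = bet e κ * ‖t - c‖ := by unfold bet; ring
    linarith [D.hE]
  have hlg := lg_disp he0 hκ hc hre hη0 hM10 hMB
  have hlg' : ‖lg e κ t - lg e κ c‖ ≤ E * (1 + M1) := by
    refine hlg.trans (le_of_eq ?_)
    field_simp
  have hcl' := close_key he0 hκ hc hre hlg' hqq hχ'
  have hη1 : 1 ≤ η := by
    refine le_trans ?_ hη
    apply Real.one_le_exp
    positivity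
  have hu10 : 0 ≤ u1 := (norm_nonneg _).trans hqq
  obtain ⟨g, hg⟩ : ∃ g, g = 4 / (4 + bet e κ) := ⟨_, rfl⟩
  have hg0 : 0 < g := by rw [hg]; positivity
  have hrc0 : 0 ≤ rz e κ c := r10.le.trans D.hr1
  have h6 : rz e κ c ^ 2 ≤ r2 ^ 2 := pow_le_pow_left₀ hrc0 D.hr2 2
  have h7 : yz e κ c ^ 2 ≤ yc ^ 2 := by
    rw [← sq_abs (yz e κ c)]
    exact pow_le_pow_left₀ (abs_nonneg _) D.hyc 2
  have hScc : Sz e κ c ≤ (e * Real.sinh κ) ^ 2 + yc ^ 2 := by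
    unfold Sz
    rw [hbe]
    linarith
  have hc1 : bet e κ * ‖c + 1‖ ≤ DP := by
    apply le_of_sq_le_sq _ DP0
    rw [(bs_sq e κ c).2.1]
    refine le_trans ?_ hDP
    have h8 : bet e κ * rz e κ c ≤ bet e κ * r2 := mul_le_mul_of_nonneg_left D.hr2 hβ.le
    rw [hbe] at h8 ⊢
    linarith
  have hD1 : bet e κ * ‖shf κ t + 1‖ ≤ DP + Vc + E := by
    have h4 : shf κ t + 1 = (c + 1) + (shf κ c - c) + (shf κ t - shf κ c) := by ring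
    have h5 : ‖shf κ t + 1‖ ≤ ‖c + 1‖ + ‖shf κ c - c‖ + ‖shf κ t - shf κ c‖ := by
      rw [h4]; exact norm_add₃_le
    have h8 := shf_disp (e := e) he0 hκ hc hre
    have h9 : bet e κ * ‖shf κ c - c‖ ≤ Vc := by
      refine (shf_sub_le he0 hκ hc).trans (le_trans ?_ hVc)
      apply div_le_div_of_nonneg_right _ he0.le
      linarith
    have h10 := mul_le_mul_of_nonneg_left h5 hβ.le
    have h11 : bet e κ * ‖shf κ t - shf κ c‖ ≤ E :=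
      (mul_le_mul_of_nonneg_left h8 hβ.le).trans D.hE
    rw [mul_add, mul_add] at h10
    linarith
  rw [← hg] at hcl'
  rw [← hbe, ← hg] at hcl
  refine lt_of_le_of_lt (hcl'.trans ?_) hcl
  have h4 : u1 * (a0 * g * (bet e κ * ‖shf κ t + 1‖)) ≤ u1 * (a0 * g) * (DP + Vc + E) := by
    rw [mul_assoc u1]
    apply mul_le_mul_of_nonneg_left _ hu10
    exact mul_le_mul_of_nonneg_left hD1 (mul_nonneg a00 hg0.le)
  have h5 : 0 ≤ u1 * (a0 * g * (bet e κ * ‖shf κ t + 1‖)) := by positivity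
  have h8 := mul_le_mul hη h4 h5 (by linarith : 0 ≤ η)
  have h9 : η * (u1 * (a0 * g)) * (DP + Vc + E) = η * (u1 * (a0 * g) * (DP + Vc + E)) := by ring
  rw [h9]
  linarith

end

section

variable {v V a q2 lf0 lf1 lau lal gl F Gr G2 gt ft err dz r1 r2 yc x1 S0l Sl Ma Mb X u lx lu ΔG ΔF
  E RH : ℝ} {pp : ℂ}

variable {d Λ0 y0 W2 M1 u1 η a0 DP Vc : ℝ}

theorem first_DC (C : MC e κ Y w p q) (hY : Y ≤ 7 / 2) (hyc : yc ≤ Y) (hvY : v ≤ Y)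
    (hyE : yc + E ≤ Y) (hT : tanh (κ * pp) = t00 e κ v)
    (N : FN e (Real.sinh κ) v V a p q q2 w lf0 lf1 lau lal gl F Gr G2 gt ft err dz r1 r2 yc x1 S0l Sl
      Ma Mb X u lx lu ΔG ΔF E RH)
    (Er : E < r1)
    (h0 : Real.log ‖fT e κ (shf κ (t00 e κ v))‖ ≤ lf0)
    (h1 : Real.log ‖fT e κ (shf κ (shf κ (t00 e κ v)))‖ ≤ lf1)
    (hMa : ∀ z ∈ segment ℝ (shf κ (t00 e κ v)) (nxc e κ pp (shf κ (t00 e κ v)) 0), MB e κ Ma z)
    (hMb : ∀ z ∈ segment ℝ (shf κ (t00 e κ v)) (nxc e κ pp (shf κ (t00 e κ v)) 0),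
      MB e κ Mb (shf κ z))
    {χ : ℂ} (hχ : ‖χ‖ ≤ X) :
    DC e κ Y r1 r2 yc x1 Sl E (nxc e κ pp (shf κ (t00 e κ v)) 0)
      (nxc e κ pp (nxc e κ pp (shf κ (t00 e κ v)) 0) χ) := by
  obtain ⟨hFH0, hcre, hr1, hr2, hyc', hdz, hom, hseg⟩ := first_cen C hY hyc hvY hT N h0 h1
  obtain ⟨-, -, hE⟩ := first_d C hY hyc hvY hT N h0 h1 hMa hMb hχ
  exact ⟨hcre, hr1, hr2, hyc', hom, (hseg _ (right_mem_segment ℝ _ _)).2.2.1, N.Sl0, hE, Er, N.Es,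
    hyE⟩

/-- **The first link.** -/
theorem first_step (C : MC e κ Y w p q) (hY : Y ≤ 7 / 2) (hyc : yc ≤ Y) (hvY : v ≤ Y)
    (hyE : yc + E ≤ Y) (hT : tanh (κ * pp) = t00 e κ v)
    (N : FN e (Real.sinh κ) v V a p q q2 w lf0 lf1 lau lal gl F Gr G2 gt ft err dz r1 r2 yc x1 S0l Sl
      Ma Mb X u lx lu ΔG ΔF E RH)
    (N2 : FN2 e (Real.sinh κ) V p q q2 r1 r2 yc x1 Sl X E d Λ0 y0 W2 M1 u1 η a0 DP Vc)
    (h0 : Real.log ‖fT e κ (shf κ (t00 e κ v))‖ ≤ lf0)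
    (h1 : Real.log ‖fT e κ (shf κ (shf κ (t00 e κ v)))‖ ≤ lf1)
    (hMa : ∀ z ∈ segment ℝ (shf κ (t00 e κ v)) (nxc e κ pp (shf κ (t00 e κ v)) 0), MB e κ Ma z)
    (hMb : ∀ z ∈ segment ℝ (shf κ (t00 e κ v)) (nxc e κ pp (shf κ (t00 e κ v)) 0),
      MB e κ Mb (shf κ z))
    {χ : ℂ} (hχ : ‖χ‖ ≤ X) :
    St e κ (x1 - d) Λ0 y0 (nxc e κ pp (nxc e κ pp (shf κ (t00 e κ v)) 0) χ) :=
  (first_DC C hY hyc hvY hyE hT N N2.Er h0 h1 hMa hMb hχ).step C N2.d0 N2.d1 N2.hd N2.hΛ N2.Λ00 N2.hy0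

/-- points of the segment `[c, τ1]` -/
theorem first_pt2 (C : MC e κ Y w p q) (hY : Y ≤ 7 / 2) (hyc : yc ≤ Y) (hvY : v ≤ Y)
    (hyE : yc + E ≤ Y) (hT : tanh (κ * pp) = t00 e κ v)
    (N : FN e (Real.sinh κ) v V a p q q2 w lf0 lf1 lau lal gl F Gr G2 gt ft err dz r1 r2 yc x1 S0l Sl
      Ma Mb X u lx lu ΔG ΔF E RH)
    (N2 : FN2 e (Real.sinh κ) V p q q2 r1 r2 yc x1 Sl X E d Λ0 y0 W2 M1 u1 η a0 DP Vc)
    (h0 : Real.log ‖fT e κ (shf κ (t00 e κ v))‖ ≤ lf0)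
    (h1 : Real.log ‖fT e κ (shf κ (shf κ (t00 e κ v)))‖ ≤ lf1)
    (hMa : ∀ z ∈ segment ℝ (shf κ (t00 e κ v)) (nxc e κ pp (shf κ (t00 e κ v)) 0), MB e κ Ma z)
    (hMb : ∀ z ∈ segment ℝ (shf κ (t00 e κ v)) (nxc e κ pp (shf κ (t00 e κ v)) 0),
      MB e κ Mb (shf κ z))
    {χ : ℂ} (hχ : ‖χ‖ ≤ X) :
    ∀ z ∈ segment ℝ (nxc e κ pp (shf κ (t00 e κ v)) 0)
      (nxc e κ pp (nxc e κ pp (shf κ (t00 e κ v)) 0) χ),
      PtC e κ Y RH (shf κ z) ∧ om κ (x1 + 1 - d) (shf κ z) ∧ e * W2 ≤ Sz e κ (shf κ z) ∧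
      ∀ y, yc + E ≤ y → |yz e κ (shf κ z)| ≤ y := by
  have D := first_DC C hY hyc hvY hyE hT N N2.Er h0 h1 hMa hMb hχ
  have hst := first_step C hY hyc hvY hyE hT N N2 h0 h1 hMa hMb hχ
  have he2 := C.e200
  have he0 : 0 < e := by linarith
  have hκ := C.κ0
  have hK0 : 0 < Real.sinh κ := Real.sinh_pos_iff.2 hκ
  have hβ : 0 < bet e κ := mul_pos he0 hK0
  obtain ⟨-, -, -, hdz0, -⟩ := first_FH C N h0 h1
  obtain ⟨hE0, hre, -⟩ := D.facts C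
  have hRH : r2 + E + (√((e * Real.sinh κ) ^ 2 + yc ^ 2) + E) ^ 2 / e ≤ RH := by
    refine le_trans ?_ N.hRH2
    have h3 : (√((e * Real.sinh κ) ^ 2 + yc ^ 2) + E) ^ 2 ≤
        (√((e * Real.sinh κ) ^ 2 + yc ^ 2) + dz + E) ^ 2 :=
      pow_le_pow_left₀ (by positivity) (by linarith) 2
    have h4 := div_le_div_of_nonneg_right h3 he0.le
    linarith
  have hx : 0 ≤ x1 - d := by linarith [N2.d1]
  intro z hz
  obtain ⟨P, ho, hSS⟩ := D.seg C hY hRH N.h9 N.h2 hx N2.d0 hst.om (z := z) hz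
  refine ⟨P, ho, ?_, fun y hy => ?_⟩
  · refine le_trans ?_ hSS
    have h4 := mul_le_mul_of_nonneg_left N2.hW2 he0.le
    have h5 : e * (Sl / e * (1 - 2 * E / √Sl - 500 / e ^ 2)) =
      Sl * (1 - 2 * E / √Sl - 500 / e ^ 2) := by field_simp
    linarith
  · have hz0 : 0 < z.re := re_segment D.cre hre hz
    have hzE : bet e κ * ‖z - nxc e κ pp (shf κ (t00 e κ v)) 0‖ ≤ E := by
      refine le_trans (mul_le_mul_of_nonneg_left ?_ hβ.le) D.hE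
      exact norm_sub_le_of_mem_segment hz
    obtain ⟨d1, d2, d3, d4⟩ := disp_z he0 hκ hzE
    refine (yz_shf_le he0 hκ hz0).trans ?_
    linarith [D.hyc]

/-- `MB M1` on the shifted segment `[c, τ1]`, from `Mq` -/
theorem m1_q' (C : MC e κ Y w p q) (hY : Y ≤ 7 / 2) (hyc : yc ≤ Y) (hvY : v ≤ Y)
    (hyE : yc + E ≤ Y) (hT : tanh (κ * pp) = t00 e κ v)
    (N : FN e (Real.sinh κ) v V a p q q2 w lf0 lf1 lau lal gl F Gr G2 gt ft err dz r1 r2 yc x1 S0l Sl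
      Ma Mb X u lx lu ΔG ΔF E RH)
    (N2 : FN2 e (Real.sinh κ) V p q q2 r1 r2 yc x1 Sl X E d Λ0 y0 W2 M1 u1 η a0 DP Vc)
    (h0 : Real.log ‖fT e κ (shf κ (t00 e κ v))‖ ≤ lf0)
    (h1 : Real.log ‖fT e κ (shf κ (shf κ (t00 e κ v)))‖ ≤ lf1)
    (hMa : ∀ z ∈ segment ℝ (shf κ (t00 e κ v)) (nxc e κ pp (shf κ (t00 e κ v)) 0), MB e κ Ma z)
    (hMb : ∀ z ∈ segment ℝ (shf κ (t00 e κ v)) (nxc e κ pp (shf κ (t00 e κ v)) 0),
      MB e κ Mb (shf κ z))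
    (hM : Mq e (Real.sinh κ) p q q2 (x1 + 1 - d) W2 ≤ M1)
    {χ : ℂ} (hχ : ‖χ‖ ≤ X) :
    ∀ z ∈ segment ℝ (nxc e κ pp (shf κ (t00 e κ v)) 0)
      (nxc e κ pp (nxc e κ pp (shf κ (t00 e κ v)) 0) χ), MB e κ M1 (shf κ z) := by
  intro z hz
  have he0 : 0 < e := by linarith [C.e200]
  obtain ⟨P, ho, hW, -⟩ := first_pt2 C hY hyc hvY hyE hT N N2 h0 h1 hMa hMb hχ z hz
  have hxd : 0 ≤ x1 + 1 - d := by linarith [N2.d1]
  exact (MB_q C hY P hxd ho hW N2.W20 N.q20 N.hρ).mono he0 C.κ0 hM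

/-- `MB M1` on the shifted segment `[c, τ1]`, from `PX` -/
theorem m1_x' (C : MC e κ Y w p q) (hY : Y ≤ 7 / 2) (hyc : yc ≤ Y) (hvY : v ≤ Y)
    (hyE : yc + E ≤ Y) (hT : tanh (κ * pp) = t00 e κ v)
    (N : FN e (Real.sinh κ) v V a p q q2 w lf0 lf1 lau lal gl F Gr G2 gt ft err dz r1 r2 yc x1 S0l Sl
      Ma Mb X u lx lu ΔG ΔF E RH)
    (N2 : FN2 e (Real.sinh κ) V p q q2 r1 r2 yc x1 Sl X E d Λ0 y0 W2 M1 u1 η a0 DP Vc)
    (h0 : Real.log ‖fT e κ (shf κ (t00 e κ v))‖ ≤ lf0)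
    (h1 : Real.log ‖fT e κ (shf κ (shf κ (t00 e κ v)))‖ ≤ lf1)
    (hMa : ∀ z ∈ segment ℝ (shf κ (t00 e κ v)) (nxc e κ pp (shf κ (t00 e κ v)) 0), MB e κ Ma z)
    (hMb : ∀ z ∈ segment ℝ (shf κ (t00 e κ v)) (nxc e κ pp (shf κ (t00 e κ v)) 0),
      MB e κ Mb (shf κ z))
    {y : ℝ} (hy : yc + E ≤ y) (hM : PX e κ (x1 + 1 - d) y M1)
    {χ : ℂ} (hχ : ‖χ‖ ≤ X) :
    ∀ z ∈ segment ℝ (nxc e κ pp (shf κ (t00 e κ v)) 0)
      (nxc e κ pp (nxc e κ pp (shf κ (t00 e κ v)) 0) χ), MB e κ M1 (shf κ z) := by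
  intro z hz
  obtain ⟨P, ho, -, hyz⟩ := first_pt2 C hY hyc hvY hyE hT N N2 h0 h1 hMa hMb hχ z hz
  exact hM _ P.re ho (hyz y hy)

/-- **Closing of the first node.** -/
theorem first_close (C : MC e κ Y w p q) (hY : Y ≤ 7 / 2) (hyc : yc ≤ Y) (hvY : v ≤ Y)
    (hyE : yc + E ≤ Y) (hT : tanh (κ * pp) = t00 e κ v)
    (N : FN e (Real.sinh κ) v V a p q q2 w lf0 lf1 lau lal gl F Gr G2 gt ft err dz r1 r2 yc x1 S0l Sl
      Ma Mb X u lx lu ΔG ΔF E RH)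
    (N2 : FN2 e (Real.sinh κ) V p q q2 r1 r2 yc x1 Sl X E d Λ0 y0 W2 M1 u1 η a0 DP Vc)
    (h0 : Real.log ‖fT e κ (shf κ (t00 e κ v))‖ ≤ lf0)
    (h1 : Real.log ‖fT e κ (shf κ (shf κ (t00 e κ v)))‖ ≤ lf1)
    (hMa : ∀ z ∈ segment ℝ (shf κ (t00 e κ v)) (nxc e κ pp (shf κ (t00 e κ v)) 0), MB e κ Ma z)
    (hMb : ∀ z ∈ segment ℝ (shf κ (t00 e κ v)) (nxc e κ pp (shf κ (t00 e κ v)) 0),
      MB e κ Mb (shf κ z))
    {χ χ' : ℂ} (hχ : ‖χ‖ ≤ X)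
    (hM1 : ∀ z ∈ segment ℝ (nxc e κ pp (shf κ (t00 e κ v)) 0)
      (nxc e κ pp (nxc e κ pp (shf κ (t00 e κ v)) 0) χ), MB e κ M1 (shf κ z))
    (hχ' : ‖χ'‖ ≤ a0 * (4 / (4 + bet e κ)) *
      (bet e κ * ‖shf κ (nxc e κ pp (nxc e κ pp (shf κ (t00 e κ v)) 0) χ) + 1‖)) :
    ‖1 - (1 - fT e κ (nxc e κ pp (nxc e κ pp (shf κ (t00 e κ v)) 0) χ)) /
        (1 - fT e κ (nxc e κ pp (shf κ (t00 e κ v)) 0)) *
      (1 + qq e κ (shf κ (nxc e κ pp (nxc e κ pp (shf κ (t00 e κ v)) 0) χ)) * χ')‖ <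
      (1 - Real.sinh κ / 1024) * X := by
  have D := first_DC C hY hyc hvY hyE hT N N2.Er h0 h1 hMa hMb hχ
  refine D.close C N2.M10 hM1 ?_ N2.hη N2.a00 N2.DP0 N2.hDP N2.hVc N.r10 N2.hcl hχ'
  obtain ⟨P, ho, hW, -⟩ := first_pt2 C hY hyc hvY hyE hT N N2 h0 h1 hMa hMb hχ _
    (right_mem_segment ℝ _ _)
  exact (qq_q C P (by linarith [N2.d1]) ho hW N.q20 N.hρ).trans N2.hu1

end

end Pool.Agent.helper31.EQB
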