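import Pool.Agent.helper31.EQB.FirstC3

/-!
# EQB-14: the first node, all statements together (see the header of FirstC)
-/

namespace Pool.Agent.helper31.EQB

open Complex ComplexConjugate Set Filter Topology
open Pool.Agent.helper31.EQ.Y Pool.Agent.helper31.EQ.R
open Pool.Agent.helper12.EQL Pool.Agent.helper12.RP Pool.Agent.helper12.FF Pool.Agent.helper12.RS
open Pool.Agent.helper63.FF

variable {e κ Y w p q : ℝ}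

section

variable {v V a q2 lf0 lf1 lau lal gl F Gr G2 gt ft err dz r1 r2 yc x1 S0l Sl Ma Mb X u lx lu ΔG ΔF
  E RH : ℝ} {pp : ℂ}

variable {d Λ0 y0 W2 M1 u1 η a0 DP Vc : ℝ}

/-- **The first node.** The bounds `Ma`, `Mb`, `M1` come from `Mq` or from `PX`. -/
theorem first_all (C : MC e κ Y w p q) (hY : Y ≤ 7 / 2) (hyc : yc ≤ Y) (hvY : v ≤ Y)
    (hyE : yc + E ≤ Y) (hT : tanh (κ * pp) = t00 e κ v)
    (N : FN e (Real.sinh κ) v V a p q q2 w lf0 lf1 lau lal gl F Gr G2 gt ft err dz r1 r2 yc x1 S0l Sl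
      Ma Mb X u lx lu ΔG ΔF E RH)
    (N2 : FN2 e (Real.sinh κ) V p q q2 r1 r2 yc x1 Sl X E d Λ0 y0 W2 M1 u1 η a0 DP Vc)
    (h0 : Real.log ‖fT e κ (shf κ (t00 e κ v))‖ ≤ lf0)
    (h1 : Real.log ‖fT e κ (shf κ (shf κ (t00 e κ v)))‖ ≤ lf1)
    (hMa : Mq e (Real.sinh κ) p q q2 x1 (Sl / e) ≤ Ma ∨
      ∃ y, v ≤ y ∧ yc ≤ y ∧ PX e κ x1 y Ma)
    (hMb : Mq e (Real.sinh κ) p q q2 (x1 + 1) (Sl / e * (1 - 500 / e ^ 2)) ≤ Mb ∨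
      ∃ y, v ≤ y ∧ yc ≤ y ∧ PX e κ (x1 + 1) y Mb)
    (hM1 : Mq e (Real.sinh κ) p q q2 (x1 + 1 - d) W2 ≤ M1 ∨
      ∃ y, yc + E ≤ y ∧ PX e κ (x1 + 1 - d) y M1) :
    0 < (nxc e κ pp (shf κ (t00 e κ v)) 0).re ∧ om κ x1 (nxc e κ pp (shf κ (t00 e κ v)) 0) ∧
    ∀ χ : ℂ, ‖χ‖ ≤ X →
      FH e κ v a (nxc e κ pp (shf κ (t00 e κ v)) 0) χ ∧
      ‖LF e κ (nxc e κ pp (shf κ (t00 e κ v)) 0) χ - LF e κ (shf κ (t00 e κ v)) 0‖ ≤ ΔF ∧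
      St e κ (x1 - d) Λ0 y0 (nxc e κ pp (nxc e κ pp (shf κ (t00 e κ v)) 0) χ) ∧
      ∀ χ' : ℂ, ‖χ'‖ ≤ a0 * (4 / (4 + bet e κ)) *
          (bet e κ * ‖shf κ (nxc e κ pp (nxc e κ pp (shf κ (t00 e κ v)) 0) χ) + 1‖) →
        ‖1 - (1 - fT e κ (nxc e κ pp (nxc e κ pp (shf κ (t00 e κ v)) 0) χ)) /
            (1 - fT e κ (nxc e κ pp (shf κ (t00 e κ v)) 0)) *
          (1 + qq e κ (shf κ (nxc e κ pp (nxc e κ pp (shf κ (t00 e κ v)) 0) χ)) * χ')‖ <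
          (1 - Real.sinh κ / 1024) * X := by
  obtain ⟨-, hcre, -, -, -, -, hom, -⟩ := first_cen C hY hyc hvY hT N h0 h1
  have ha : ∀ z ∈ segment ℝ (shf κ (t00 e κ v)) (nxc e κ pp (shf κ (t00 e κ v)) 0),
      MB e κ Ma z := by
    rcases hMa with h | ⟨y, hy1, hy2, h⟩
    · exact ma_q C hY hyc hvY hT N h0 h1 h
    · exact ma_x C hY hyc hvY hT N h0 h1 hy1 hy2 h
  have hb : ∀ z ∈ segment ℝ (shf κ (t00 e κ v)) (nxc e κ pp (shf κ (t00 e κ v)) 0),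
      MB e κ Mb (shf κ z) := by
    rcases hMb with h | ⟨y, hy1, hy2, h⟩
    · exact mb_q C hY hyc hvY hT N h0 h1 h
    · exact mb_x C hY hyc hvY hT N h0 h1 hy1 hy2 h
  refine ⟨hcre, hom, fun χ hχ => ?_⟩
  obtain ⟨hF, hL, -⟩ := first_d C hY hyc hvY hT N h0 h1 ha hb hχ
  refine ⟨hF, hL, first_step C hY hyc hvY hyE hT N N2 h0 h1 ha hb hχ, fun χ' hχ' => ?_⟩
  refine first_close C hY hyc hvY hyE hT N N2 h0 h1 ha hb hχ ?_ hχ'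
  rcases hM1 with h | ⟨y, hy, h⟩
  · exact m1_q' C hY hyc hvY hyE hT N N2 h0 h1 ha hb h hχ
  · exact m1_x' C hY hyc hvY hyE hT N N2 h0 h1 ha hb hy h hχ

end

end Pool.Agent.helper31.EQB
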