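import Mathlib

namespace Pool.Agent.helper31.EQB

theorem ib {x lo hi : ℝ} {c h : ℕ} (h1 : ((c : ℝ) - h) / 2 ^ 40 ≤ lo)
    (h2 : hi ≤ ((c : ℝ) + h) / 2 ^ 40) (hx : lo ≤ x) (hx' : x ≤ hi) :
    |x - ((c, h) : ℕ × ℕ).1 / 2 ^ 40| ≤ (((c, h) : ℕ × ℕ).2 : ℝ) / 2 ^ 40 := by
  rw [sub_div] at h1
  rw [add_div] at h2
  rw [abs_le]
  constructor <;> simp only <;> linarith

end Pool.Agent.helper31.EQB
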