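import Pool.Agent.helper12.FF.Struct
import Pool.Agent.helper63.FF.Pt

/-!
# EQB-1: bounds of the logarithmic derivative of the rigid sum

`MB e κ M t`: `|f'(t)| ≤ e K M |f(t)|`, `K = sinh κ`, i.e. `|d log f/dT| ≤ e M` for `T = K t`.
-/

namespace Pool.Agent.helper31.EQB

open Complex ComplexConjugate Set Filter Topology
open Pool.Agent.helper31.EQ.Y Pool.Agent.helper31.EQ.R
open Pool.Agent.helper12.EQL Pool.Agent.helper12.RP Pool.Agent.helper12.FF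
open Pool.Agent.helper63.FF

variable {e κ : ℝ}

/-- `|f'| ≤ e K M |f|` -/
def MB (e κ M : ℝ) (t : ℂ) : Prop :=
  ‖deriv (fT e κ) t‖ ≤ e * Real.sinh κ * M * ‖fT e κ t‖

theorem MB.mono {M M' : ℝ} {t : ℂ} (he : 0 < e) (hκ : 0 < κ) (h : MB e κ M t) (hM : M ≤ M') :
    MB e κ M' t := by
  have hK : 0 < Real.sinh κ := Real.sinh_pos_iff.2 hκ
  refine le_trans h ?_
  have h1 : e * Real.sinh κ * M ≤ e * Real.sinh κ * M' := mul_le_mul_of_nonneg_left hM (by positivity)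
  exact mul_le_mul_of_nonneg_right h1 (norm_nonneg _)

/-- **Harnack, derivative form.** -/
theorem deriv_harn (he : 0 < e) (hκ : 0 < κ) {w : ℂ} (hw : 0 < w.re) :
    ‖deriv (fT e κ) w‖ * w.re ≤ gR e κ w := by
  have hd := (fT_diffAt he hκ hw).hasDerivAt
  have h1 := hasDerivAt_iff_tendsto_slope.1 hd
  have h2 : Tendsto (fun z : ℂ => ‖z + conj w‖ - ‖z - w‖) (𝓝[≠] w)
      (𝓝 (‖w + conj w‖ - ‖w - w‖)) := by
    have : ContinuousAt (fun z : ℂ => ‖z + conj w‖ - ‖z - w‖) w := by fun_prop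
    exact this.tendsto.mono_left nhdsWithin_le_nhds
  have h3 := h1.norm.mul h2
  have h4 : ∀ᶠ z in 𝓝[≠] w, ‖slope (fT e κ) w z‖ * (‖z + conj w‖ - ‖z - w‖) ≤
      2 * gR e κ w := by
    have ho : ∀ᶠ z in 𝓝[≠] w, 0 < z.re :=
      nhdsWithin_le_nhds (Complex.continuous_re.continuousAt.eventually (isOpen_Ioi.mem_nhds hw))
    filter_upwards [ho, self_mem_nhdsWithin] with z hz hne
    have h5 := f_pick he hκ hz hw
    have h6 : z - w ≠ 0 := sub_ne_zero.2 hne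
    have h7 : 0 < ‖z - w‖ := norm_pos_iff.2 h6
    have h8 : ‖slope (fT e κ) w z‖ = ‖fT e κ z - fT e κ w‖ / ‖z - w‖ := by
      rw [slope_def_field, norm_div]
    rw [h8, div_mul_eq_mul_div, div_le_iff₀ h7]
    linarith
  have h9 := le_of_tendsto h3 h4
  have h10 : ‖w + conj w‖ = 2 * w.re := by
    have : w + conj w = ((2 * w.re : ℝ) : ℂ) := by
      rw [Complex.add_conj]
    rw [this, Complex.norm_real, Real.norm_of_nonneg (by linarith)]
  rw [h10, sub_self, norm_zero, sub_zero] at h9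
  linarith

/-- Harnack with `γ ≤ 1` -/
theorem MB_harn (he : 0 < e) (hκ : 0 < κ) {t : ℂ} (ht : 0 < t.re) {M : ℝ}
    (hM : 1 ≤ e * Real.sinh κ * M * t.re) : MB e κ M t := by
  have h1 := deriv_harn he hκ ht
  have h2 := gR_lt_norm (e := e) (κ := κ) t
  have h3 : ‖deriv (fT e κ) t‖ * t.re ≤ (e * Real.sinh κ * M * ‖fT e κ t‖) * t.re := by
    calc ‖deriv (fT e κ) t‖ * t.re ≤ ‖fT e κ t‖ := by linarith
      _ = 1 * ‖fT e κ t‖ := (one_mul _).symm
      _ ≤ (e * Real.sinh κ * M * t.re) * ‖fT e κ t‖ :=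
          mul_le_mul_of_nonneg_right hM (norm_nonneg _)
      _ = _ := by ring
  exact le_of_mul_le_mul_right h3 ht

/-- Harnack with `γ` -/
theorem MB_gam (he : 0 < e) (hκ : 0 < κ) {t : ℂ} (ht : 0 < t.re) {M : ℝ}
    (hM : gam e κ t ≤ e * Real.sinh κ * M * t.re) : MB e κ M t := by
  have h1 := deriv_harn he hκ ht
  have h0 := fT_norm_pos he hκ ht
  have h3 : ‖deriv (fT e κ) t‖ * t.re ≤ (e * Real.sinh κ * M * ‖fT e κ t‖) * t.re := by
    have h4 := mul_le_mul_of_nonneg_right hM h0.le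
    unfold gam at h4
    rw [div_mul_cancel₀ _ h0.ne'] at h4
    calc ‖deriv (fT e κ) t‖ * t.re ≤ gR e κ t := h1
      _ ≤ _ := h4
      _ = _ := by ring
  exact le_of_mul_le_mul_right h3 ht

theorem one_le_Qk (hκ : 0 < κ) {t : ℂ} (ht : 0 < t.re) : 1 ≤ ‖Qk κ t‖ := by
  have hK : 0 < Real.sinh κ := Real.sinh_pos_iff.2 hκ
  have h1 : (Qk κ t).re = Real.cosh κ + Real.sinh κ * t.re := by
    unfold Qk; rw [Complex.add_re, Complex.ofReal_re, Complex.re_ofReal_mul]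
  have h2 := Complex.re_le_norm (Qk κ t)
  have h3 := Real.one_le_cosh κ
  have : 0 < Real.sinh κ * t.re := mul_pos hK ht
  linarith

theorem Qk_deriv (κ : ℝ) (t : ℂ) : HasDerivAt (Qk κ) (Real.sinh κ : ℂ) t := by
  unfold Qk
  have := ((hasDerivAt_id t).const_mul (Real.sinh κ : ℂ)).const_add (Real.cosh κ : ℂ)
  simpa using this

theorem shf_deriv (hκ : 0 < κ) {t : ℂ} (ht : 0 < t.re) :
    HasDerivAt (shf κ) ((Qk κ t ^ 2)⁻¹) t := by
  have hd := shf_den hκ ht.le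
  have hC0 : (Real.cosh κ : ℂ) ≠ 0 := by exact_mod_cast (Real.cosh_pos κ).ne'
  have h1 : HasDerivAt (fun z : ℂ => (z + (Real.tanh κ : ℂ)) / (1 + (Real.tanh κ : ℂ) * z))
      ((1 * (1 + (Real.tanh κ : ℂ) * t) - (t + (Real.tanh κ : ℂ)) * ((Real.tanh κ : ℂ) * 1)) /
        (1 + (Real.tanh κ : ℂ) * t) ^ 2) t :=
    ((hasDerivAt_id t).add_const _).div (((hasDerivAt_id t).const_mul _).const_add _) hd
  have h2 : (fun z : ℂ => (z + (Real.tanh κ : ℂ)) / (1 + (Real.tanh κ : ℂ) * z)) = shf κ := by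
    funext z; rfl
  rw [h2] at h1
  refine h1.congr_deriv ?_
  have hQ : Qk κ t = (Real.cosh κ : ℂ) * (1 + (Real.tanh κ : ℂ) * t) := by
    have hT : (Real.tanh κ : ℂ) = (Real.sinh κ : ℂ) / (Real.cosh κ : ℂ) := by
      rw [Real.tanh_eq_sinh_div_cosh]; push_cast; rfl
    rw [Qk, hT]; field_simp
  have hCS : (Real.cosh κ : ℂ) ^ 2 * (1 - (Real.tanh κ : ℂ) ^ 2) = 1 := by
    have hT : (Real.tanh κ : ℂ) = (Real.sinh κ : ℂ) / (Real.cosh κ : ℂ) := by
      rw [Real.tanh_eq_sinh_div_cosh]; push_cast; rfl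
    have h3 : (Real.cosh κ : ℂ) ^ 2 - (Real.sinh κ : ℂ) ^ 2 = 1 := by
      have := Real.cosh_sq κ
      exact_mod_cast (by linarith : Real.cosh κ ^ 2 - Real.sinh κ ^ 2 = 1)
    rw [hT]
    field_simp
    exact h3
  rw [hQ]
  field_simp
  linear_combination hCS

/-- **The derivative recursion.** -/
theorem deriv_rec (he : 0 < e) (hκ : 0 < κ) {t : ℂ} (ht : 0 < t.re) :
    deriv (fT e κ) t = (1 - fT e κ t) * ((e : ℂ) * (Real.sinh κ : ℂ) / Qk κ t -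
      deriv (fT e κ) (shf κ t) / (fT e κ (shf κ t) * Qk κ t ^ 2)) := by
  have hs := shf_re hκ ht.le
  have hQ := Qk_ne hκ ht
  have hf := fT_ne he hκ hs
  have hsl := Qk_slit hκ ht
  -- f = 1 - exp(-e log Q) f(shf)
  have h1 : ∀ᶠ z in 𝓝 t, fT e κ z = 1 - exp (-((e : ℂ) * log (Qk κ z))) * fT e κ (shf κ z) := by
    have ho : ∀ᶠ z : ℂ in 𝓝 t, 0 < z.re :=
      Complex.continuous_re.continuousAt.eventually (isOpen_Ioi.mem_nhds ht)
    filter_upwards [ho] with z hz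
    have h2 := one_sub_fT he hκ hz
    rw [cpow_def_of_ne_zero (Qk_ne hκ hz)] at h2
    have h3 : log (Qk κ z) * -(e : ℂ) = -((e : ℂ) * log (Qk κ z)) := by ring
    rw [h3] at h2
    linear_combination -h2
  have d1 : HasDerivAt (fun z => exp (-((e : ℂ) * log (Qk κ z))))
      (exp (-((e : ℂ) * log (Qk κ t))) * (-((e : ℂ) * ((Real.sinh κ : ℂ) / Qk κ t)))) t :=
    (((Qk_deriv κ t).clog hsl).const_mul (e : ℂ)).neg.cexp
  have d2 : HasDerivAt (fun z => fT e κ (shf κ z)) (deriv (fT e κ) (shf κ t) * (Qk κ t ^ 2)⁻¹) t :=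
    HasDerivAt.comp t ((fT_diffAt he hκ hs).hasDerivAt) (shf_deriv hκ ht)
  have d3 := (d1.mul d2).const_sub 1
  have d4 : HasDerivAt (fT e κ) _ t := d3.congr_of_eventuallyEq h1
  rw [d4.deriv]
  have h5 := one_sub_fT he hκ ht
  rw [cpow_def_of_ne_zero hQ] at h5
  have h3 : log (Qk κ t) * -(e : ℂ) = -((e : ℂ) * log (Qk κ t)) := by ring
  rw [h3] at h5
  rw [h5]
  field_simp
  ring

/-- **Recursion.** -/
theorem MB_rec (he : 0 < e) (hκ : 0 < κ) {t : ℂ} (ht : 0 < t.re) {M : ℝ} (hM : 0 ≤ M)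
    (h : MB e κ M (shf κ t)) : MB e κ (‖qq e κ t‖ * (1 + M)) t := by
  have hK : 0 < Real.sinh κ := Real.sinh_pos_iff.2 hκ
  have hs := shf_re hκ ht.le
  have hQ1 := one_le_Qk hκ ht
  have hQ0 : 0 < ‖Qk κ t‖ := by linarith
  have hfs := fT_norm_pos he hκ hs
  have hf := fT_norm_pos he hκ ht
  unfold MB at *
  rw [deriv_rec he hκ ht, norm_mul]
  have h1 : ‖(e : ℂ) * (Real.sinh κ : ℂ) / Qk κ t -
      deriv (fT e κ) (shf κ t) / (fT e κ (shf κ t) * Qk κ t ^ 2)‖ ≤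
      e * Real.sinh κ * (1 + M) := by
    refine (norm_sub_le _ _).trans ?_
    rw [norm_div, norm_div, norm_mul, norm_mul, norm_pow, Complex.norm_real, Complex.norm_real,
      Real.norm_of_nonneg he.le, Real.norm_of_nonneg hK.le]
    have h2 : e * Real.sinh κ / ‖Qk κ t‖ ≤ e * Real.sinh κ :=
      div_le_self (by positivity) hQ1
    have h3 : ‖deriv (fT e κ) (shf κ t)‖ / (‖fT e κ (shf κ t)‖ * ‖Qk κ t‖ ^ 2) ≤
        e * Real.sinh κ * M := by
      rw [div_le_iff₀ (by positivity)]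
      have h4 : (1 : ℝ) ≤ ‖Qk κ t‖ ^ 2 := one_le_pow₀ hQ1
      calc ‖deriv (fT e κ) (shf κ t)‖ ≤ e * Real.sinh κ * M * ‖fT e κ (shf κ t)‖ := h
        _ = e * Real.sinh κ * M * (‖fT e κ (shf κ t)‖ * 1) := by ring
        _ ≤ _ := by gcongr
    linarith
  have h5 : ‖1 - fT e κ t‖ = ‖qq e κ t‖ * ‖fT e κ t‖ := by
    unfold qq
    rw [norm_div, div_mul_cancel₀ _ hf.ne']
  rw [h5]
  calc ‖qq e κ t‖ * ‖fT e κ t‖ * ‖(e : ℂ) * (Real.sinh κ : ℂ) / Qk κ t -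
      deriv (fT e κ) (shf κ t) / (fT e κ (shf κ t) * Qk κ t ^ 2)‖ ≤
      ‖qq e κ t‖ * ‖fT e κ t‖ * (e * Real.sinh κ * (1 + M)) := by gcongr
    _ = _ := by ring

/-- recursion with `|u| ≤ 1` -/
theorem MB_rec1 (he : 0 < e) (hκ : 0 < κ) {t : ℂ} (ht : 0 < t.re) {M u : ℝ} (hM : 0 ≤ M)
    (hu : ‖qq e κ t‖ ≤ u) (h : MB e κ M (shf κ t)) : MB e κ (u * (1 + M)) t :=
  (MB_rec he hκ ht hM h).mono he hκ (mul_le_mul_of_nonneg_right hu (by linarith))

/-! ### paths -/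

/-- `log (1 - f)`, the continuous branch -/
noncomputable def lg (e κ : ℝ) (t : ℂ) : ℂ :=
  -((e : ℂ) * log (Qk κ t)) + log (fT e κ (shf κ t))

theorem exp_lg (he : 0 < e) (hκ : 0 < κ) {t : ℂ} (ht : 0 < t.re) :
    exp (lg e κ t) = 1 - fT e κ t := by
  unfold lg
  rw [exp_add, exp_log (fT_ne he hκ (shf_re hκ ht.le)), one_sub_fT he hκ ht,
    cpow_def_of_ne_zero (Qk_ne hκ ht)]
  congr 2
  ring

theorem re_segment {a b t : ℂ} (ha : 0 < a.re) (hb : 0 < b.re) (ht : t ∈ segment ℝ a b) :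
    0 < t.re := by
  have hc : Convex ℝ {z : ℂ | 0 < z.re} := convex_halfSpace_re_gt 0
  exact hc.segment_subset ha hb ht

/-- `log f` along a segment -/
theorem lf_sub (he : 0 < e) (hκ : 0 < κ) {a b : ℂ} (ha : 0 < a.re) (hb : 0 < b.re) {M : ℝ}
    (h : ∀ t ∈ segment ℝ a b, MB e κ M t) :
    ‖log (fT e κ b) - log (fT e κ a)‖ ≤ e * Real.sinh κ * M * ‖b - a‖ := by
  have hd : ∀ t ∈ segment ℝ a b, HasDerivAt (fun z => log (fT e κ z))
      (deriv (fT e κ) t / fT e κ t) t := fun t ht => by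
    have h0 := re_segment ha hb ht
    exact (fT_diffAt he hκ h0).hasDerivAt.clog (fT_slit he hκ h0)
  refine Convex.norm_image_sub_le_of_norm_deriv_le (f := fun z => log (fT e κ z))
    (fun t ht => (hd t ht).differentiableAt) (fun t ht => ?_) (convex_segment a b)
    (left_mem_segment ℝ a b) (right_mem_segment ℝ a b)
  have h0 := re_segment ha hb ht
  have h1 := fT_norm_pos he hκ h0
  rw [(hd t ht).deriv, norm_div, div_le_iff₀ h1]
  exact h t ht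

/-- `log (1 - f)` along a segment -/
theorem lg_sub (he : 0 < e) (hκ : 0 < κ) {a b : ℂ} (ha : 0 < a.re) (hb : 0 < b.re) {M : ℝ}
    (h : ∀ t ∈ segment ℝ a b, MB e κ M (shf κ t)) :
    ‖lg e κ b - lg e κ a‖ ≤ e * Real.sinh κ * (1 + M) * ‖b - a‖ := by
  have hK : 0 < Real.sinh κ := Real.sinh_pos_iff.2 hκ
  have hd : ∀ t ∈ segment ℝ a b, HasDerivAt (lg e κ)
      (-((e : ℂ) * ((Real.sinh κ : ℂ) / Qk κ t)) +
        deriv (fT e κ) (shf κ t) * (Qk κ t ^ 2)⁻¹ / fT e κ (shf κ t)) t := fun t ht => by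
    have h0 := re_segment ha hb ht
    have hs := shf_re hκ h0.le
    have d1 := (((Qk_deriv κ t).clog (Qk_slit hκ h0)).const_mul (e : ℂ)).neg
    have d2 : HasDerivAt (fun z => fT e κ (shf κ z))
        (deriv (fT e κ) (shf κ t) * (Qk κ t ^ 2)⁻¹) t :=
      HasDerivAt.comp t ((fT_diffAt he hκ hs).hasDerivAt) (shf_deriv hκ h0)
    exact d1.add (d2.clog (fT_slit he hκ hs))
  refine Convex.norm_image_sub_le_of_norm_deriv_le (f := lg e κ)
    (fun t ht => (hd t ht).differentiableAt) (fun t ht => ?_) (convex_segment a b)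
    (left_mem_segment ℝ a b) (right_mem_segment ℝ a b)
  have h0 := re_segment ha hb ht
  have hs := shf_re hκ h0.le
  have h1 := fT_norm_pos he hκ hs
  have hQ1 := one_le_Qk hκ h0
  have hQ0 : 0 < ‖Qk κ t‖ := by linarith
  rw [(hd t ht).deriv]
  refine (norm_add_le _ _).trans ?_
  rw [norm_neg, norm_mul, norm_div, norm_div, norm_mul, norm_inv, norm_pow, Complex.norm_real,
    Complex.norm_real, Real.norm_of_nonneg he.le, Real.norm_of_nonneg hK.le]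
  have h2 : e * (Real.sinh κ / ‖Qk κ t‖) ≤ e * Real.sinh κ :=
    mul_le_mul_of_nonneg_left (div_le_self hK.le hQ1) he.le
  have h3 : ‖deriv (fT e κ) (shf κ t)‖ * (‖Qk κ t‖ ^ 2)⁻¹ / ‖fT e κ (shf κ t)‖ ≤
      e * Real.sinh κ * M := by
    rw [div_le_iff₀ h1]
    have h4 : (‖Qk κ t‖ ^ 2)⁻¹ ≤ 1 := inv_le_one_of_one_le₀ (one_le_pow₀ hQ1)
    calc ‖deriv (fT e κ) (shf κ t)‖ * (‖Qk κ t‖ ^ 2)⁻¹ ≤ ‖deriv (fT e κ) (shf κ t)‖ * 1 :=
          mul_le_mul_of_nonneg_left h4 (norm_nonneg _)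
      _ = ‖deriv (fT e κ) (shf κ t)‖ := mul_one _
      _ ≤ _ := h t ht
  linarith

/-- the quotient of `1 - f` -/
theorem quot_le (he : 0 < e) (hκ : 0 < κ) {a b : ℂ} (ha : 0 < a.re) (hb : 0 < b.re) {η : ℝ}
    (h : ‖lg e κ b - lg e κ a‖ ≤ η) :
    ‖(1 - fT e κ b) / (1 - fT e κ a) - 1‖ ≤ Real.exp η - 1 := by
  rw [← exp_lg he hκ ha, ← exp_lg he hκ hb, ← exp_sub]
  exact norm_exp_sub_one h

end Pool.Agent.helper31.EQB
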