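import Pool.Agent.helper31.EQB.Lam

/-!
# EQB-2: one rigid link from number hypotheses
-/

namespace Pool.Agent.helper31.EQB

open Complex ComplexConjugate Set Filter Topology
open Pool.Agent.helper31.EQ.Y Pool.Agent.helper31.EQ.R
open Pool.Agent.helper12.EQL Pool.Agent.helper12.RP Pool.Agent.helper12.FF
open Pool.Agent.helper63.FF

variable {e κ : ℝ}

/-- **One link.** -/
theorem link_key (he : 0 < e) (hκ : 0 < κ) {τ : ℂ} (hτ0 : 0 < τ.re)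
    (hQi : |(Qk κ (shf κ τ)).im| ≤ (Qk κ (shf κ τ)).re)
    {X ls lf nq n1 L1 L2 E0 η : ℝ} (hX1 : X < 1)
    (hls : ‖log (fT e κ (shf κ τ)) - log (fT e κ (shf κ (shf κ τ)))‖ ≤ ls)
    (hlf : ‖log (fT e κ (shf κ τ)) - log (fT e κ 1)‖ ≤ lf)
    (hnq : ‖qq e κ (shf κ τ)‖ ≤ nq) (hnX : nq * X < 1) (hn1 : ‖1 + qq e κ (shf κ τ)‖ ≤ n1)
    (hL1 : (ls + n1 * (X / (1 - X))) / e ≤ L1) (hL2 : (lf + nq * X / (1 - nq * X)) / e ≤ L2)
    (hE0 : DlB κ (Qk κ (shf κ τ)) L1 L2 ≤ 2 * ‖Qk κ (shf κ τ)‖ * E0)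
    (hE1 : 2 * E0 < ‖Qk κ (shf κ τ)‖)
    (hη : E0 / (1 - E0 / ‖Qk κ (shf κ τ)‖) ≤ η) {χ : ℂ} (hχ : ‖χ‖ ≤ X) :
    rd e κ τ χ ∈ slitPlane ∧ Real.sinh κ * ‖nxt e κ τ χ - shf κ τ‖ ≤ η := by
  have hK : 0 < Real.sinh κ := Real.sinh_pos_iff.2 hκ
  have hs0 := shf_re hκ hτ0.le
  have hQr : 0 < (Qk κ (shf κ τ)).re := by
    have h1 : (Qk κ (shf κ τ)).re = Real.cosh κ + Real.sinh κ * (shf κ τ).re := by
      unfold Qk; rw [Complex.add_re, Complex.ofReal_re, Complex.re_ofReal_mul]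
    rw [h1]
    have := Real.cosh_pos κ
    have := mul_pos hK hs0
    linarith
  have h1 := rd_eq he hκ (χ := χ) hτ0 (by linarith)
  have ha := a_le he hκ hs0 hχ hX1 hls hn1
  have hb := b_le he hχ hlf hnq hnX
  have hΔ := (Dl_le hκ (Q := Qk κ (shf κ τ)) (ha.trans hL1) (hb.trans hL2)).trans hE0
  have hQn : Qn κ τ = Qk κ (shf κ τ) := rfl
  rw [hQn] at h1
  obtain ⟨h2, h3⟩ := sqrt_near hQr hQi hΔ hE1
  rw [← h1] at h2 h3
  refine ⟨h2, ?_⟩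
  rw [← Qk_nxt hκ, Qk_sub, norm_mul, Complex.norm_real, Real.norm_of_nonneg hK.le] at h3
  exact h3.trans hη

/-- **Closing of a node** from the displacement of the position. -/
theorem close_key (he : 0 < e) (hκ : 0 < κ) {s t : ℂ} (hs : 0 < s.re) (ht : 0 < t.re)
    {ηl qp X' : ℝ} (hl : ‖lg e κ t - lg e κ s‖ ≤ ηl) (hqp : ‖qq e κ (shf κ t)‖ ≤ qp)
    {χ' : ℂ} (hχ' : ‖χ'‖ ≤ X') :
    ‖1 - (1 - fT e κ t) / (1 - fT e κ s) * (1 + qq e κ (shf κ t) * χ')‖ ≤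
      (Real.exp ηl - 1) + Real.exp ηl * (qp * X') := by
  have h1 := quot_le he hκ hs ht hl
  obtain ⟨R, hR⟩ : ∃ R, R = (1 - fT e κ t) / (1 - fT e κ s) := ⟨_, rfl⟩
  rw [← hR] at h1 ⊢
  have h2 : 1 - R * (1 + qq e κ (shf κ t) * χ') = -(R - 1) - R * (qq e κ (shf κ t) * χ') := by ring
  have h3 : ‖R‖ ≤ Real.exp ηl := by
    have := norm_add_le (R - 1) 1
    rw [sub_add_cancel, norm_one] at this
    linarith
  have h4 : ‖qq e κ (shf κ t) * χ'‖ ≤ qp * X' := by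
    rw [norm_mul]
    exact mul_le_mul hqp hχ' (norm_nonneg _) ((norm_nonneg _).trans hqp)
  rw [h2]
  refine (norm_sub_le _ _).trans ?_
  rw [norm_neg, norm_mul]
  have h5 := mul_le_mul h3 h4 (norm_nonneg _) (Real.exp_pos _).le
  linarith

/-- the displacement of the next position in `log (1 - f)` -/
theorem lg_disp (he : 0 < e) (hκ : 0 < κ) {s t : ℂ} (hs : 0 < s.re) (ht : 0 < t.re) {η M : ℝ}
    (hη : Real.sinh κ * ‖t - s‖ ≤ η) (hM : 0 ≤ M)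
    (h : ∀ z ∈ segment ℝ s t, MB e κ M (shf κ z)) :
    ‖lg e κ t - lg e κ s‖ ≤ e * η * (1 + M) := by
  refine (lg_sub he hκ hs ht h).trans ?_
  have h1 : e * Real.sinh κ * (1 + M) * ‖t - s‖ = e * (1 + M) * (Real.sinh κ * ‖t - s‖) := by ring
  rw [h1]
  calc e * (1 + M) * (Real.sinh κ * ‖t - s‖) ≤ e * (1 + M) * η := by gcongr
    _ = _ := by ring

end Pool.Agent.helper31.EQB
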