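import Pool.Agent.helper31.EQB.LinkZ
import Pool.Agent.helper31.EQB.MBx

/-!
# EQB-11: `link_rad`, `link_X`
-/

namespace Pool.Agent.helper31.EQB

open Complex ComplexConjugate Set Filter Topology
open Pool.Agent.helper31.EQ.Y Pool.Agent.helper31.EQ.R
open Pool.Agent.helper12.EQL Pool.Agent.helper12.RP Pool.Agent.helper12.FF
open Pool.Agent.helper63.FF

variable {e κ Y w p q : ℝ}

/-- `β² |s ± 1|²`, `β² |s|²` in `r`, `y` -/
theorem bs_sq (e κ : ℝ) (s : ℂ) :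
    (bet e κ * ‖s - 1‖) ^ 2 = Sz e κ s + rz e κ s ^ 2 - 2 * bet e κ * rz e κ s ∧
      (bet e κ * ‖s + 1‖) ^ 2 = Sz e κ s + rz e κ s ^ 2 + 2 * bet e κ * rz e κ s ∧
      (bet e κ * ‖s‖) ^ 2 = rz e κ s ^ 2 + (Sz e κ s - bet e κ ^ 2) := by
  unfold Sz rz yz
  refine ⟨?_, ?_, ?_⟩
  · rw [mul_pow, Complex.sq_norm, normSq_apply]
    simp only [sub_re, sub_im, one_re, one_im, sub_zero]
    ring
  · rw [mul_pow, Complex.sq_norm, normSq_apply]
    simp only [add_re, add_im, one_re, one_im, add_zero]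
    ring
  · rw [mul_pow, Complex.sq_norm, normSq_apply]
    ring

theorem shf_sub_self (hκ : 0 < κ) {s : ℂ} (hs : 0 < s.re) :
    (shf κ s - s) * Qk κ s = (Real.sinh κ : ℂ) * (1 - s ^ 2) := by
  have hd := shf_den hκ hs.le
  have hC0 : (Real.cosh κ : ℂ) ≠ 0 := by exact_mod_cast (Real.cosh_pos κ).ne'
  have hT : (Real.tanh κ : ℂ) * (Real.cosh κ : ℂ) = (Real.sinh κ : ℂ) := by
    rw [Real.tanh_eq_sinh_div_cosh, ofReal_div, div_mul_cancel₀ _ hC0]
  have hQ : Qk κ s = (Real.cosh κ : ℂ) * (1 + (Real.tanh κ : ℂ) * s) := by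
    rw [Qk, ← hT]; ring
  have h1 : shf κ s * (1 + (Real.tanh κ : ℂ) * s) = s + (Real.tanh κ : ℂ) := by
    unfold shf
    rw [div_mul_cancel₀ _ hd]
  rw [hQ]
  linear_combination (Real.cosh κ : ℂ) * h1 + (1 - s ^ 2) * hT

/-- `β |shf s - s| ≤ (S + r²)/e` -/
theorem shf_sub_le (he : 0 < e) (hκ : 0 < κ) {s : ℂ} (hs : 0 < s.re) :
    bet e κ * ‖shf κ s - s‖ ≤ (Sz e κ s + rz e κ s ^ 2) / e := by
  have hK : 0 < Real.sinh κ := Real.sinh_pos_iff.2 hκ
  have hb : 0 < bet e κ := mul_pos he hK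
  have hQ := one_le_Qk hκ hs
  have h1 := congrArg norm (shf_sub_self hκ hs)
  rw [norm_mul, norm_mul, Complex.norm_real, Real.norm_of_nonneg hK.le] at h1
  have h2 : ‖shf κ s - s‖ ≤ Real.sinh κ * ‖1 - s ^ 2‖ := by
    rw [← h1]
    exact le_mul_of_one_le_right (norm_nonneg _) hQ
  have h3 : ‖1 - s ^ 2‖ ≤ 1 + ‖s‖ ^ 2 := by
    refine (norm_sub_le _ _).trans ?_
    rw [norm_one, norm_pow]
  have h4 := (bs_sq e κ s).2.2
  rw [le_div_iff₀ he]
  have h5 : Sz e κ s + rz e κ s ^ 2 = bet e κ ^ 2 * (1 + ‖s‖ ^ 2) := by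
    rw [mul_pow] at h4
    linarith
  rw [h5]
  calc bet e κ * ‖shf κ s - s‖ * e ≤ bet e κ * (Real.sinh κ * (1 + ‖s‖ ^ 2)) * e := by
        have := h2.trans (mul_le_mul_of_nonneg_left h3 hK.le)
        have h6 := mul_le_mul_of_nonneg_left this hb.le
        exact mul_le_mul_of_nonneg_right h6 he.le
    _ = bet e κ ^ 2 * (1 + ‖s‖ ^ 2) := by unfold bet; ring

theorem exp_sub_one_a {x : ℝ} (h0 : 0 ≤ x) (h1 : x ≤ 1 / 100) :
    Real.exp x - 1 ≤ 100503 / 100000 * x := by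
  have h2 := Real.exp_bound (x := x) (by rw [abs_of_nonneg h0]; linarith) (n := 3) (by norm_num)
  have h3 := (abs_le.1 h2).2
  rw [abs_of_nonneg h0] at h3
  simp only [Finset.sum_range_succ, Finset.sum_range_zero, Nat.factorial] at h3
  norm_num at h3
  have h4 : x ^ 3 ≤ x * (1 / 10000) := by
    have : x ^ 2 ≤ 1 / 10000 := by nlinarith
    calc x ^ 3 = x * x ^ 2 := by ring
      _ ≤ _ := mul_le_mul_of_nonneg_left this h0
  have h5 : x ^ 2 ≤ x * (1 / 100) := by nlinarith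
  linarith

theorem exp_sub_one_b {x : ℝ} (h0 : 0 ≤ x) (h1 : x ≤ 6 / 100) :
    Real.exp x - 1 ≤ 10311 / 10000 * x := by
  have h2 := Real.exp_bound (x := x) (by rw [abs_of_nonneg h0]; linarith) (n := 3) (by norm_num)
  have h3 := (abs_le.1 h2).2
  rw [abs_of_nonneg h0] at h3
  simp only [Finset.sum_range_succ, Finset.sum_range_zero, Nat.factorial] at h3
  norm_num at h3
  have h4 : x ^ 3 ≤ x * (36 / 10000) := by
    have : x ^ 2 ≤ 36 / 10000 := by nlinarith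
    calc x ^ 3 = x * x ^ 2 := by ring
      _ ≤ _ := mul_le_mul_of_nonneg_left this h0
  have h5 : x ^ 2 ≤ x * (6 / 100) := by nlinarith
  linarith

theorem cosh_le_a (κ : ℝ) : Real.cosh κ ≤ 1 + Real.sinh κ ^ 2 / 2 := by
  have h1 := Real.cosh_sq κ
  by_contra hh
  push Not at hh
  nlinarith [sq_nonneg (Real.sinh κ)]

theorem cosh_num {c K : ℝ} (h0 : 0 ≤ K) (h1 : K ≤ 1 / 10) (hc : c ≤ 1 + K ^ 2 / 2)
    (hcs : c ^ 2 = K ^ 2 + 1) : c - (c - K) ^ 2 ≤ 41 / 20 * K := by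
  have h2 : c * K ≤ (1 + K ^ 2 / 2) * K := mul_le_mul_of_nonneg_right hc h0
  have h3 : K ^ 2 ≤ K * (1 / 10) := by nlinarith
  nlinarith

theorem num_450 {e : ℝ} (he : 200 ≤ e) : 500 / e ^ 2 ≤ 1 / 50 := by
  rw [div_le_iff₀ (by positivity)]
  nlinarith

/-- numbers: the bound of `DlB` -/
theorem dlB_num {e K c qn qm zb Dm2 lsp lfp E A1 A2 A3 : ℝ} (he : 200 ≤ e) (hK0 : 0 ≤ K)
    (hK : K ≤ 1 / 10) (hzb0 : 0 ≤ zb) (hzb1 : zb ≤ e / 10) (hq1 : 1 ≤ qn)
    (hq2 : qn ≤ 1 + K ^ 2 / 2 + zb / e) (hls0 : 0 ≤ lsp) (hls1 : lsp ≤ e / 100) (hlf0 : 0 ≤ lfp)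
    (hlf1 : lfp ≤ e / 50) (hDm : 0 ≤ Dm2)
    (hA1 : A1 ≤ Dm2 / e ^ 2 * ((zb + 41 / 20 * (e * K)) / e))
    (hm0 : 0 ≤ qm)
    (hqm : qm ≤ (K ^ 2 / 2 + zb / e) * (2 + K ^ 2 / 2 + zb / e))
    (hA2 : A2 = (Real.exp (lsp / e) - 1) * (qn * qm)) (hc0 : 0 ≤ c) (hc : c ≤ K)
    (hA3 : A3 = c ^ 2 * qn * (qn * (Real.exp (2 * (lsp / e) + 2 * (lfp / e)) - 1) +
      (Real.exp (lsp / e + 2 * (lfp / e)) - 1)))
    (hE : (1 + zb / (2 * e) + 3 / 200) * (Dm2 * (zb + 41 / 20 * (e * K)) / (2 * e ^ 2) +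
      (zb + e * K * K / 2) * lsp / e + (e * K) ^ 2 / e ^ 2 * (17 / 10 * lsp + 11 / 5 * lfp)) ≤ E)
    (hE1 : E ≤ e / 200) :
    A1 + A2 + A3 ≤ 2 * qn * (E / e * (1 - E / e)) ∧ 0 ≤ E := by
  have he0 : 0 < e := by linarith
  obtain ⟨v, hv⟩ : ∃ v, v = zb / e := ⟨_, rfl⟩
  have hv0 : 0 ≤ v := by rw [hv]; positivity
  have hv1 : v ≤ 1 / 10 := by rw [hv, div_le_iff₀ he0]; linarith
  have hzv : zb = v * e := by rw [hv]; field_simp
  obtain ⟨l, hl⟩ : ∃ l, l = lsp / e := ⟨_, rfl⟩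
  have hl0 : 0 ≤ l := by rw [hl]; positivity
  have hl1 : l ≤ 1 / 100 := by rw [hl, div_le_iff₀ he0]; linarith
  have hlv : lsp = l * e := by rw [hl]; field_simp
  obtain ⟨m, hm⟩ : ∃ m, m = lfp / e := ⟨_, rfl⟩
  have hm0' : 0 ≤ m := by rw [hm]; positivity
  have hm1 : m ≤ 1 / 50 := by rw [hm, div_le_iff₀ he0]; linarith
  have hmv : lfp = m * e := by rw [hm]; field_simp
  obtain ⟨D, hD⟩ : ∃ D, D = Dm2 / e ^ 2 := ⟨_, rfl⟩
  have hD0 : 0 ≤ D := by rw [hD]; positivity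
  have hDv : Dm2 = D * e ^ 2 := by rw [hD]; field_simp
  obtain ⟨F, hF⟩ : ∃ F, F = E / e := ⟨_, rfl⟩
  have hFv : E = F * e := by rw [hF]; field_simp
  have hF1 : F ≤ 1 / 200 := by rw [hF, div_le_iff₀ he0]; linarith
  rw [← hv] at hq2 hqm
  rw [← hl] at hA2
  rw [← hl, ← hm] at hA3
  rw [← hD] at hA1
  have hA1' : A1 ≤ D * (v + 41 / 20 * K) := by
    refine hA1.trans (le_of_eq ?_)
    rw [hzv]
    field_simp
  -- B / e
  have hB : (1 + v / 2 + 3 / 200) * (D * (v + 41 / 20 * K) / 2 + (v + K ^ 2 / 2) * l +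
      K ^ 2 * (17 / 10 * l + 11 / 5 * m)) ≤ F := by
    have h1 : (1 + zb / (2 * e) + 3 / 200) * (Dm2 * (zb + 41 / 20 * (e * K)) / (2 * e ^ 2) +
      (zb + e * K * K / 2) * lsp / e + (e * K) ^ 2 / e ^ 2 * (17 / 10 * lsp + 11 / 5 * lfp)) =
      ((1 + v / 2 + 3 / 200) * (D * (v + 41 / 20 * K) / 2 + (v + K ^ 2 / 2) * l +
      K ^ 2 * (17 / 10 * l + 11 / 5 * m))) * e := by
      rw [hzv, hlv, hmv, hDv]
      field_simp
    rw [h1, hFv] at hE
    exact le_of_mul_le_mul_right hE he0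
  obtain ⟨b1, hb1⟩ : ∃ b1, b1 = D * (v + 41 / 20 * K) / 2 := ⟨_, rfl⟩
  obtain ⟨b2, hb2⟩ : ∃ b2, b2 = (v + K ^ 2 / 2) * l := ⟨_, rfl⟩
  obtain ⟨b3, hb3⟩ : ∃ b3, b3 = K ^ 2 * (17 / 10 * l + 11 / 5 * m) := ⟨_, rfl⟩
  have hb10 : 0 ≤ b1 := by rw [hb1]; positivity
  have hb20 : 0 ≤ b2 := by rw [hb2]; positivity
  have hb30 : 0 ≤ b3 := by rw [hb3]; positivity
  rw [← hb1, ← hb2, ← hb3] at hB
  have hF0 : 0 ≤ F := by
    refine le_trans ?_ hB
    positivity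
  -- the three terms
  have t1 : A1 ≤ 2 * qn * b1 := by
    refine hA1'.trans ?_
    rw [hb1]
    have h1 : 0 ≤ D * (v + 41 / 20 * K) := by positivity
    have h2 := mul_le_mul_of_nonneg_right hq1 h1
    linarith
  have t2 : A2 ≤ 2 * qn * (100503 / 100000 * (1 + K ^ 2 / 4 + v / 2) * b2) := by
    rw [hA2, hb2]
    have h1 := exp_sub_one_a hl0 hl1
    have h2 : (Real.exp l - 1) * (qn * qm) ≤ 100503 / 100000 * l *
        (qn * ((K ^ 2 / 2 + v) * (2 + K ^ 2 / 2 + v))) := by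
      apply mul_le_mul h1 _ (by positivity) (by positivity)
      exact mul_le_mul_of_nonneg_left hqm (by linarith)
    refine h2.trans (le_of_eq ?_)
    ring
  have hK2 : K ^ 2 ≤ 1 / 100 := by
    calc K ^ 2 ≤ (1 / 10) ^ 2 := pow_le_pow_left₀ hK0 hK 2
      _ = 1 / 100 := by norm_num
  have hqn : qn ≤ 1105 / 1000 := by linarith
  have t3 : A3 ≤ 2 * qn * b3 := by
    rw [hA3, hb3]
    have h1 := exp_sub_one_b (x := 2 * l + 2 * m) (by positivity) (by linarith)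
    have h2 := exp_sub_one_b (x := l + 2 * m) (by positivity) (by linarith)
    have hc2 : c ^ 2 ≤ K ^ 2 := pow_le_pow_left₀ hc0 hc 2
    have h3 : qn * (Real.exp (2 * l + 2 * m) - 1) + (Real.exp (l + 2 * m) - 1) ≤
        2 * (17 / 10 * l + 11 / 5 * m) := by
      have h4 : qn * (Real.exp (2 * l + 2 * m) - 1) ≤ 1105 / 1000 * (10311 / 10000 * (2 * l + 2 * m)) := by
        apply mul_le_mul hqn h1 _ (by norm_num)
        have := Real.add_one_le_exp (2 * l + 2 * m)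
        linarith
      linarith
    have h0 : 0 ≤ qn * (Real.exp (2 * l + 2 * m) - 1) + (Real.exp (l + 2 * m) - 1) := by
      have h4 := Real.add_one_le_exp (2 * l + 2 * m)
      have h5 := Real.add_one_le_exp (l + 2 * m)
      have h6 : 0 ≤ Real.exp (2 * l + 2 * m) - 1 := by linarith
      have h7 : 0 ≤ Real.exp (l + 2 * m) - 1 := by linarith
      positivity
    calc c ^ 2 * qn * (qn * (Real.exp (2 * l + 2 * m) - 1) + (Real.exp (l + 2 * m) - 1)) ≤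
        K ^ 2 * qn * (2 * (17 / 10 * l + 11 / 5 * m)) := by
          apply mul_le_mul _ h3 h0 (by positivity)
          exact mul_le_mul_of_nonneg_right hc2 (by linarith)
      _ = _ := by ring
  refine ⟨?_, by rw [hFv]; positivity⟩
  rw [← hF]
  have hfac : 100503 / 100000 * (1 + K ^ 2 / 4 + v / 2) ≤ (1 + v / 2 + 3 / 200) * (1 - F) := by
    have h2 : (1 + v / 2 + 3 / 200) * (199 / 200) ≤ (1 + v / 2 + 3 / 200) * (1 - F) := by
      apply mul_le_mul_of_nonneg_left _ (by positivity)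
      linarith
    linarith
  have h1 : A1 + A2 + A3 ≤ 2 * qn * (100503 / 100000 * (1 + K ^ 2 / 4 + v / 2) * (b1 + b2 + b3)) := by
    have g1 : b1 ≤ 100503 / 100000 * (1 + K ^ 2 / 4 + v / 2) * b1 := by
      apply le_mul_of_one_le_left hb10
      linarith [sq_nonneg K]
    have g3 : b3 ≤ 100503 / 100000 * (1 + K ^ 2 / 4 + v / 2) * b3 := by
      apply le_mul_of_one_le_left hb30
      linarith [sq_nonneg K]
    have g1' := mul_le_mul_of_nonneg_left g1 (by linarith : (0:ℝ) ≤ 2 * qn)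
    have g3' := mul_le_mul_of_nonneg_left g3 (by linarith : (0:ℝ) ≤ 2 * qn)
    have : 2 * qn * (100503 / 100000 * (1 + K ^ 2 / 4 + v / 2) * (b1 + b2 + b3)) =
      2 * qn * (100503 / 100000 * (1 + K ^ 2 / 4 + v / 2) * b1) +
      2 * qn * (100503 / 100000 * (1 + K ^ 2 / 4 + v / 2) * b2) +
      2 * qn * (100503 / 100000 * (1 + K ^ 2 / 4 + v / 2) * b3) := by ring
    rw [this]
    linarith
  refine h1.trans ?_
  apply mul_le_mul_of_nonneg_left _ (by linarith)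
  have hF1' : 0 ≤ 1 - F := by linarith
  calc 100503 / 100000 * (1 + K ^ 2 / 4 + v / 2) * (b1 + b2 + b3) ≤
      (1 + v / 2 + 3 / 200) * (1 - F) * (b1 + b2 + b3) :=
        mul_le_mul_of_nonneg_right hfac (by positivity)
    _ = (1 + v / 2 + 3 / 200) * (b1 + b2 + b3) * (1 - F) := by ring
    _ ≤ F * (1 - F) := mul_le_mul_of_nonneg_right hB hF1'

section

variable {q2 x Λ yn a lf S rl rh zb Dm2 DP Vs Mo ls u n1 X lsp lfp E RH : ℝ} {τ χ : ℂ}

/-- facts of the node `s = shf κ τ` -/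
theorem link_base (C : MC e κ Y w p q) (hY : Y ≤ 7 / 2) (hyn : yn ≤ Y)
    (T : St e κ x Λ yn τ) (hS : S = Sz e κ (shf κ τ))
    (N : LN e (Real.sinh κ) p q q2 w x Λ a lf S rl rh zb Dm2 DP Vs Mo ls u n1 X lsp lfp E RH) :
    0 < (shf κ τ).re ∧ om κ (x + 1) (shf κ τ) ∧ rl ≤ rz e κ (shf κ τ) ∧
      rz e κ (shf κ τ) ≤ rh ∧ |yz e κ (shf κ τ)| ≤ yn ∧ Sz e κ τ ≤ (1 + 560 / e ^ 2) * S ∧
      0 < S := by
  have he := C.e200
  have he0 : 0 < e := by linarith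
  have hκ := C.κ0
  have hK0 := N.K0
  have hs := shf_re hκ T.re.le
  have hom := om_shf hκ T.re T.om
  have hx1 : 0 ≤ x + 1 := by linarith [N.x0]
  have hK1 : Real.sinh κ ≤ 1 := by linarith [C.K1]
  have h1 := om_rz he0 hκ hK1 hx1 hs hom
  rw [← hS] at h1
  have hrl : rl ≤ rz e κ (shf κ τ) := by
    refine N.hrl.trans ?_
    have : lam (Real.sinh κ) (x + 1) * (S / e) = lam (Real.sinh κ) (x + 1) * S / e := by ring
    rw [this]
    exact h1
  -- the point τ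
  have hyτ : |yz e κ τ| ≤ Y := T.y.trans hyn
  have hSτ : Sz e κ τ ≤ 2 * e := by
    have h2 : yz e κ τ ^ 2 ≤ Y ^ 2 := by
      rw [← sq_abs]
      exact pow_le_pow_left₀ (abs_nonneg _) hyτ 2
    unfold Sz
    linarith [C.W2]
  have hSτ0 : 0 < Sz e κ τ := by
    unfold Sz bet
    have : 0 < (e * Real.sinh κ) ^ 2 := by positivity
    nlinarith [sq_nonneg (yz e κ τ)]
  have hrτ0 : 0 ≤ rz e κ τ := by
    unfold rz bet
    have := T.re
    positivity
  have hrτ : rz e κ τ ≤ 8 * Sz e κ τ / e := by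
    refine T.r.trans ?_
    apply div_le_div_of_nonneg_right _ he0.le
    exact mul_le_mul_of_nonneg_right N.Λ8 hSτ0.le
  have hr9 : rz e κ τ ≤ 46 / 5 * Sz e κ τ / e := by
    refine hrτ.trans ?_
    apply div_le_div_of_nonneg_right _ he0.le
    linarith
  have hr2 : rz e κ τ ^ 2 ≤ 9 / 10 * Sz e κ τ := by
    have h2 : rz e κ τ ^ 2 ≤ (8 * Sz e κ τ / e) ^ 2 := pow_le_pow_left₀ hrτ0 hrτ 2
    refine h2.trans ?_
    rw [div_pow, div_le_iff₀ (by positivity)]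
    have h3 : (8 * Sz e κ τ) ^ 2 ≤ 128 * e * Sz e κ τ := by nlinarith
    have h4 : 128 * e * Sz e κ τ ≤ 9 / 10 * Sz e κ τ * e ^ 2 := by
      have h5 : 128 * e ≤ 9 / 10 * e ^ 2 := by nlinarith
      nlinarith
    linarith
  have h3 := (Sz_shf_ge he hκ C.K1 T.re (hyτ.trans hY) hr9 hr2).2
  rw [← hS] at h3
  have h4 := rz_shf_le (e := e) he0 hκ T.re
  have hrh : rz e κ (shf κ τ) ≤ rh := by
    refine le_trans ?_ N.hrh
    have h5 : rz e κ τ + Sz e κ τ / e ≤ (Λ + 1) * (Sz e κ τ / e) := by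
      have := T.r
      have h6 : (Λ + 1) * (Sz e κ τ / e) = Λ * Sz e κ τ / e + Sz e κ τ / e := by ring
      linarith
    have h7 : (Λ + 1) * (Sz e κ τ / e) ≤ (Λ + 1) * ((1 + 560 / e ^ 2) * S / e) := by
      apply mul_le_mul_of_nonneg_left _ (by linarith [N.Λ0])
      exact div_le_div_of_nonneg_right h3 he0.le
    have h8 : (Λ + 1) * ((1 + 560 / e ^ 2) * S / e) = (Λ + 1) * (1 + 560 / e ^ 2) * (S / e) := by ring
    linarith
  have hy : |yz e κ (shf κ τ)| ≤ yn := (yz_shf_le he0 hκ T.re).trans T.y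
  exact ⟨hs, hom, hrl, hrh, hy, h3, N.S0⟩

theorem link_X (C : MC e κ Y w p q) (hY : Y ≤ 7 / 2) (hyn : yn ≤ Y)
    (T : St e κ x Λ yn τ) (hS : S = Sz e κ (shf κ τ))
    (N : LN e (Real.sinh κ) p q q2 w x Λ a lf S rl rh zb Dm2 DP Vs Mo ls u n1 X lsp lfp E RH) :
    Rx e κ a τ ≠ 0 ∧ ‖Rx e κ a τ‖ ≤ X := by
  have he := C.e200
  have he0 : 0 < e := by linarith
  have hb : 0 < bet e κ := mul_pos he0 N.K0
  obtain ⟨hs, hom, hrl, hrh, hy, h3, hS0⟩ := link_base C hY hyn T hS N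
  have hR0 : 0 < a * (4 / (4 + bet e κ)) * bet e κ := by
    have := N.a0
    positivity
  have hs1 : shf κ τ + 1 ≠ 0 := by
    intro h
    have := congrArg Complex.re h
    rw [add_re, one_re, zero_re] at this
    linarith
  refine ⟨mul_ne_zero (by exact_mod_cast hR0.ne') hs1, ?_⟩
  unfold Rx
  rw [norm_mul, Complex.norm_real, Real.norm_of_nonneg hR0.le]
  have h4 := (bs_sq e κ (shf κ τ)).2.1
  have hr0 : 0 ≤ rz e κ (shf κ τ) := N.rl0.le.trans hrl
  have h5 : bet e κ * ‖shf κ τ + 1‖ ≤ DP := by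
    apply le_of_sq_le_sq _ N.DP0
    rw [h4, ← hS]
    refine le_trans ?_ N.hDP
    have h6 : rz e κ (shf κ τ) ^ 2 ≤ rh ^ 2 := pow_le_pow_left₀ hr0 hrh 2
    have h7 : bet e κ * rz e κ (shf κ τ) ≤ bet e κ * rh := mul_le_mul_of_nonneg_left hrh hb.le
    have h8 : bet e κ = e * Real.sinh κ := rfl
    rw [← h8]
    linarith
  refine le_trans ?_ N.hX
  have h9 : bet e κ = e * Real.sinh κ := rfl
  rw [← h9]
  calc a * (4 / (4 + bet e κ)) * bet e κ * ‖shf κ τ + 1‖ =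
      a * (4 / (4 + bet e κ)) * (bet e κ * ‖shf κ τ + 1‖) := by ring
    _ ≤ _ := mul_le_mul_of_nonneg_left h5 (by have := N.a0; positivity)

theorem link_E0 (C : MC e κ Y w p q) (hY : Y ≤ 7 / 2) (hyn : yn ≤ Y)
    (T : St e κ x Λ yn τ) (hS : S = Sz e κ (shf κ τ))
    (N : LN e (Real.sinh κ) p q q2 w x Λ a lf S rl rh zb Dm2 DP Vs Mo ls u n1 X lsp lfp E RH) :
    0 ≤ E := by
  have he0 : 0 < e := by linarith [C.e200]
  have hκ := C.κ0
  have hK0 := N.K0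
  have hb : 0 < bet e κ := mul_pos he0 N.K0
  have hbe : bet e κ = e * Real.sinh κ := rfl
  obtain ⟨hs, hom, hrl, hrh, hy, h3, hS0⟩ := link_base C hY hyn T hS N
  have hX0 : 0 ≤ X := (norm_nonneg _).trans (link_X C hY hyn T hS N).2
  have hr0 : 0 ≤ rz e κ (shf κ τ) := N.rl0.le.trans hrl
  have hu0 : 0 ≤ u := (Real.exp_pos _).le.trans N.hu
  have hlf0 : 0 ≤ lf := N.lf0
  have m1 := (bs_sq e κ (shf κ τ)).1
  rw [← hS] at m1
  have h6 : rz e κ (shf κ τ) ^ 2 ≤ rh ^ 2 := pow_le_pow_left₀ hr0 hrh 2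
  have hDm : (bet e κ * ‖shf κ τ - 1‖) ^ 2 ≤ Dm2 := by
    rw [m1]
    have h7 := N.hDm hrl hrh
    rw [← hbe] at h7
    linarith
  have hDm0 : 0 ≤ Dm2 := (sq_nonneg _).trans hDm
  have hVs0 : 0 ≤ Vs := le_trans (by positivity) N.hVs
  have hls0 : 0 ≤ ls := (mul_nonneg hVs0 N.Mo0).trans N.hls
  have hX1 := N.X1
  have hu1 := N.u1
  have hD1 : 0 < 1 - X := by linarith
  have huX : u * X < 1 := by
    have : u * X ≤ 1 * X := mul_le_mul_of_nonneg_right hu1 hX0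
    linarith
  have hD2 : 0 < 1 - u * X := by linarith
  have hlfp0 : 0 ≤ lfp := by
    refine le_trans ?_ N.hlfp
    have : 0 ≤ u * X / (1 - u * X) := by positivity
    linarith
  have hlsp0 : 0 ≤ lsp := by
    refine le_trans ?_ N.hlsp
    have := N.n10
    have : 0 ≤ n1 * (X / (1 - X)) := by positivity
    linarith
  have hzb0 := N.zb0
  refine le_trans ?_ N.hE
  positivity

/-- the points of the segment `[s, shf s]` -/
theorem seg_facts1 (C : MC e κ Y w p q) (hY : Y ≤ 7 / 2) (hyn : yn ≤ Y)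
    (T : St e κ x Λ yn τ) (hS : S = Sz e κ (shf κ τ))
    (N : LN e (Real.sinh κ) p q q2 w x Λ a lf S rl rh zb Dm2 DP Vs Mo ls u n1 X lsp lfp E RH)
    {z : ℂ} (hz : z ∈ segment ℝ (shf κ τ) (shf κ (shf κ τ))) :
    om κ (x + 1) z ∧ |yz e κ z| ≤ |yz e κ (shf κ τ)| ∧ PtC e κ Y RH z ∧
      S * (1 - 500 / e ^ 2) ≤ Sz e κ z := by
  have he := C.e200
  have he0 : 0 < e := by linarith
  have hκ := C.κ0
  have hK0 := N.K0
  have hb : 0 < bet e κ := mul_pos he0 N.K0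
  obtain ⟨hs, hom, hrl, hrh, hy, h3, hS0⟩ := link_base C hY hyn T hS N
  have hE0 := link_E0 C hY hyn T hS N
  obtain ⟨s, hsd⟩ : ∃ s, s = shf κ τ := ⟨_, rfl⟩
  rw [← hsd] at hs hom hrl hrh hy hS hz ⊢
  have hyY : |yz e κ s| ≤ Y := hy.trans hyn
  have h450 : 500 / e ^ 2 ≤ 1 / 50 := num_450 he
  have h450' : 0 ≤ 500 / e ^ 2 := by positivity
  have hsS : 0 < √S := Real.sqrt_pos.2 hS0
  have hES : 0 ≤ 2 * E / √S := by positivity
  have hlow : S * (1 - 2 * E / √S - 500 / e ^ 2) ≤ S * (1 - 500 / e ^ 2) := by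
    apply mul_le_mul_of_nonneg_left _ hS0.le
    linarith
  have hRHb : rh + S / e ≤ RH := by
    refine le_trans ?_ N.hRH
    have g1 : S ≤ (√S + E) ^ 2 := by
      calc S = √S ^ 2 := (Real.sq_sqrt hS0.le).symm
        _ ≤ (√S + E) ^ 2 := pow_le_pow_left₀ hsS.le (by linarith) 2
    have g2 : S / e ≤ (√S + E) ^ 2 / e := div_le_div_of_nonneg_right g1 he0.le
    linarith
  have hSe : 0 ≤ S / e := by positivity
  have hpt : ∀ z : ℂ, 0 < z.re → |yz e κ z| ≤ Y → rz e κ z ≤ RH →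
      S * (1 - 500 / e ^ 2) ≤ Sz e κ z → PtC e κ Y RH z := by
    intro z hz0 hzy hzr hzS
    have hr0z : 0 ≤ rz e κ z := by unfold rz; positivity
    refine ⟨hz0, hzy, ?_, ?_, hzr⟩
    · refine hzr.trans (N.h9.trans ?_)
      have g1 : 46 / 5 * (S / e * (1 - 2 * E / √S - 500 / e ^ 2)) =
        46 / 5 * (S * (1 - 2 * E / √S - 500 / e ^ 2)) / e := by ring
      rw [g1]
      apply div_le_div_of_nonneg_right _ he0.le
      linarith
    · have g1 : rz e κ z ^ 2 ≤ RH ^ 2 := pow_le_pow_left₀ hr0z hzr 2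
      have := N.h2
      linarith
  have hrhRH : rh ≤ RH := by linarith
  have hSS : S * (1 - 500 / e ^ 2) ≤ S := by
    apply mul_le_of_le_one_right hS0.le
    linarith
  have hps : PtC e κ Y RH s := hpt s hs hyY (hrh.trans hrhRH) (by rw [← hS]; exact hSS)
  have hx1 : 0 ≤ x + 1 := by have := N.x0; linarith
  -- the segment
  have hs2 : 0 < (shf κ s).re := shf_re hκ hs.le
  have hom2 : om κ (x + 1) (shf κ s) := om_mono hκ (om_shf hκ hs hom) (by linarith)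
  have hSsh : (1 - 500 / e ^ 2) * S ≤ Sz e κ (shf κ s) := by
    have := (Sz_shf_ge he hκ C.K1 hs (hyY.trans hY) hps.r9 hps.r2).1
    rwa [← hS] at this
  have hz0 := re_segment hs hs2 hz
  have hzo := om_seg hκ hx1 hs hs2 hom hom2 hz
  obtain ⟨a', b', ha', hb', hab, rfl⟩ := hz
  have hre : (a' • s + b' • shf κ s).re = a' * s.re + b' * (shf κ s).re := by simp
  have him : (a' • s + b' • shf κ s).im = a' * s.im + b' * (shf κ s).im := by simp
  have hyz' : yz e κ (a' • s + b' • shf κ s) = a' * yz e κ s + b' * yz e κ (shf κ s) := by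
    unfold yz; rw [him]; ring
  have hrz' : rz e κ (a' • s + b' • shf κ s) = a' * rz e κ s + b' * rz e κ (shf κ s) := by
    unfold rz; rw [hre]; ring
  have hQ1 : 1 ≤ ‖Qk κ s‖ ^ 2 := one_le_pow₀ (one_le_Qk hκ hs)
  have hQ0 : 0 < ‖Qk κ s‖ ^ 2 := by linarith
  have hysh := yz_shf (e := e) he0 hκ hs
  obtain ⟨n, hn⟩ : ∃ n : ℝ, n = (‖Qk κ s‖ ^ 2)⁻¹ := ⟨_, rfl⟩
  have hn0 : 0 < n := by rw [hn]; positivity
  have hn1 : n ≤ 1 := by rw [hn]; exact inv_le_one_of_one_le₀ hQ1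
  have hysh' : yz e κ (shf κ s) = n * yz e κ s := by
    rw [hysh, hn]; field_simp
  have hyz2 : yz e κ (a' • s + b' • shf κ s) = (a' + b' * n) * yz e κ s := by
    rw [hyz', hysh']; ring
  have hf1 : a' + b' * n ≤ 1 := by
    have := mul_le_mul_of_nonneg_left hn1 hb'
    linarith
  have hf0 : n ≤ a' + b' * n := by
    have g1 : a' * n ≤ a' := mul_le_of_le_one_right ha' hn1
    have g2 : n = a' * n + b' * n := by rw [← add_mul, hab, one_mul]
    linarith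
  have hzy1 : |yz e κ (a' • s + b' • shf κ s)| ≤ |yz e κ s| := by
    rw [hyz2, abs_mul, abs_of_nonneg (by linarith : 0 ≤ a' + b' * n)]
    exact mul_le_of_le_one_left (abs_nonneg _) hf1
  have hzy : |yz e κ (a' • s + b' • shf κ s)| ≤ Y := hzy1.trans hyY
  have hSz : Sz e κ (shf κ s) ≤ Sz e κ (a' • s + b' • shf κ s) := by
    unfold Sz
    rw [hysh', hyz2, mul_pow, mul_pow]
    have g1 : n ^ 2 ≤ (a' + b' * n) ^ 2 := pow_le_pow_left₀ hn0.le hf0 2
    have g2 := mul_le_mul_of_nonneg_right g1 (sq_nonneg (yz e κ s))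
    linarith
  have hSz2 : S * (1 - 500 / e ^ 2) ≤ Sz e κ (a' • s + b' • shf κ s) := by
    rw [mul_comm]; exact hSsh.trans hSz
  have hrz2 : rz e κ (a' • s + b' • shf κ s) ≤ RH := by
    have g1 := rz_shf_le (e := e) he0 hκ hs
    rw [← hS] at g1
    rw [hrz']
    have g2 : a' * rz e κ s ≤ a' * RH := mul_le_mul_of_nonneg_left (by linarith) ha'
    have g3 : b' * rz e κ (shf κ s) ≤ b' * RH := mul_le_mul_of_nonneg_left (by linarith) hb'
    have g4 : a' * RH + b' * RH = RH := by rw [← add_mul, hab, one_mul]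
    linarith
  exact ⟨hzo, hzy1, hpt _ hz0 hzy hrz2 hSz2, hSz2⟩

theorem mo_q (C : MC e κ Y w p q) (hY : Y ≤ 7 / 2) (hyn : yn ≤ Y)
    (T : St e κ x Λ yn τ) (hS : S = Sz e κ (shf κ τ))
    (N : LN e (Real.sinh κ) p q q2 w x Λ a lf S rl rh zb Dm2 DP Vs Mo ls u n1 X lsp lfp E RH)
    (h : Mq e (Real.sinh κ) p q q2 (x + 1) (S / e * (1 - 500 / e ^ 2)) ≤ Mo) :
    ∀ z ∈ segment ℝ (shf κ τ) (shf κ (shf κ τ)), MB e κ Mo z := by
  intro z hz
  have he := C.e200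
  have he0 : 0 < e := by linarith
  have hκ := C.κ0
  have hS0 := N.S0
  have h450 : 500 / e ^ 2 ≤ 1 / 50 := num_450 he
  have hx1 : 0 ≤ x + 1 := by have := N.x0; linarith
  obtain ⟨hzo, -, hP, hSz2⟩ := seg_facts1 C hY hyn T hS N hz
  have g5 := MB_q C hY hP (W' := S / e * (1 - 500 / e ^ 2)) (q2 := q2) hx1 hzo
    (by
      have : e * (S / e * (1 - 500 / e ^ 2)) = S * (1 - 500 / e ^ 2) := by field_simp
      rw [this]; exact hSz2)
    (by
      have : 0 < S / e := by positivity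
      have : 0 < 1 - 500 / e ^ 2 := by linarith
      positivity) N.q20 N.hρ
  exact g5.mono he0 hκ h

theorem mo_x (C : MC e κ Y w p q) (hY : Y ≤ 7 / 2) (hyn : yn ≤ Y)
    (T : St e κ x Λ yn τ) (hS : S = Sz e κ (shf κ τ))
    (N : LN e (Real.sinh κ) p q q2 w x Λ a lf S rl rh zb Dm2 DP Vs Mo ls u n1 X lsp lfp E RH)
    {ys : ℝ} (hys : |yz e κ (shf κ τ)| ≤ ys) (h : PX e κ (x + 1) ys Mo) :
    ∀ z ∈ segment ℝ (shf κ τ) (shf κ (shf κ τ)), MB e κ Mo z := by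
  intro z hz
  obtain ⟨hzo, hzy, hP, -⟩ := seg_facts1 C hY hyn T hS N hz
  exact h z hP.re hzo (hzy.trans hys)

set_option maxHeartbeats 1000000 in
theorem link_rad (C : MC e κ Y w p q) (hY : Y ≤ 7 / 2) (hyn : yn ≤ Y)
    (T : St e κ x Λ yn τ) (hS : S = Sz e κ (shf κ τ))
    (N : LN e (Real.sinh κ) p q q2 w x Λ a lf S rl rh zb Dm2 DP Vs Mo ls u n1 X lsp lfp E RH)
    (hMo : ∀ z ∈ segment ℝ (shf κ τ) (shf κ (shf κ τ)), MB e κ Mo z)
    (hlf : ‖log (fT e κ (shf κ τ)) - log (fT e κ 1)‖ ≤ lf)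
    (hn1 : ‖1 + qq e κ (shf κ τ)‖ ≤ n1)
    (hχ : ‖χ‖ ≤ ‖Rx e κ a τ‖) :
    rd e κ τ χ ∈ slitPlane ∧ bet e κ * ‖nxt e κ τ χ - shf κ τ‖ ≤ E := by
  have he := C.e200
  have he0 : 0 < e := by linarith
  have hκ := C.κ0
  have hK0 := N.K0
  have hKK := C.K1
  have hb : 0 < bet e κ := mul_pos he0 N.K0
  have hbe : bet e κ = e * Real.sinh κ := rfl
  obtain ⟨hs, hom, hrl, hrh, hy, h3, hS0⟩ := link_base C hY hyn T hS N
  have hXX := (link_X C hY hyn T hS N).2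
  obtain ⟨s, hsd⟩ : ∃ s, s = shf κ τ := ⟨_, rfl⟩
  obtain ⟨K, hKd⟩ : ∃ K, K = Real.sinh κ := ⟨_, rfl⟩
  rw [← hsd] at hs hom hrl hrh hy hS
  have hr0 : 0 ≤ rz e κ s := N.rl0.le.trans hrl
  have hX0 : 0 ≤ X := (norm_nonneg _).trans (hχ.trans hXX)
  have hu0 : 0 ≤ u := (Real.exp_pos _).le.trans N.hu
  have hlf0 : 0 ≤ lf := N.lf0
  have hyY : |yz e κ s| ≤ Y := hy.trans hyn
  -- norms at s
  obtain ⟨m1, m2, m3⟩ := bs_sq e κ s
  rw [← hS] at m1 m2 m3
  have h6 : rz e κ s ^ 2 ≤ rh ^ 2 := pow_le_pow_left₀ hr0 hrh 2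
  have hz : bet e κ * ‖s‖ ≤ zb := by
    apply le_of_sq_le_sq _ N.zb0
    rw [m3, hbe]
    refine le_trans ?_ N.hzb
    linarith
  have hDm : (bet e κ * ‖s - 1‖) ^ 2 ≤ Dm2 := by
    rw [m1]
    have h7 := N.hDm hrl hrh
    rw [← hbe] at h7
    linarith
  have hDm0 : 0 ≤ Dm2 := (sq_nonneg _).trans hDm
  have hVs : bet e κ * ‖shf κ s - s‖ ≤ Vs := by
    refine (shf_sub_le he0 hκ hs).trans (le_trans ?_ N.hVs)
    rw [← hS]
    apply div_le_div_of_nonneg_right _ he0.le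
    linarith
  have hVs0 : 0 ≤ Vs := (by positivity : 0 ≤ bet e κ * ‖shf κ s - s‖).trans hVs
  have h450 : 500 / e ^ 2 ≤ 1 / 50 := num_450 he
  have h450' : 0 ≤ 500 / e ^ 2 := by positivity
  have h450n : 0 ≤ 1 - 500 / e ^ 2 := by linarith
  have hK0' : 0 ≤ Real.sinh κ := hK0.le
  have hlam : 0 ≤ lam (Real.sinh κ) (x + 1 + 1) :=
    lam_nonneg hK0' (by linarith) (by have := N.x0; linarith)
  have hq70 : 0 ≤ q := by have := C.q7; linarith
  have hMo0 : 0 ≤ Mo := N.Mo0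
  have hls0 : 0 ≤ ls := (mul_nonneg hVs0 hMo0).trans N.hls
  have hX1 := N.X1
  have hu1 := N.u1
  have hD1 : 0 < 1 - X := by linarith
  have huX : u * X < 1 := by
    have : u * X ≤ 1 * X := mul_le_mul_of_nonneg_right hu1 hX0
    linarith
  have hD2 : 0 < 1 - u * X := by linarith
  have hlfp0 : 0 ≤ lfp := by
    refine le_trans ?_ N.hlfp
    have : 0 ≤ u * X / (1 - u * X) := by positivity
    linarith
  have hlsp0 : 0 ≤ lsp := by
    refine le_trans ?_ N.hlsp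
    have := N.n10
    have : 0 ≤ n1 * (X / (1 - X)) := by positivity
    linarith
  have hzb0 := N.zb0
  have hE0 : 0 ≤ E := by
    refine le_trans ?_ N.hE
    positivity
  have hsS : 0 < √S := Real.sqrt_pos.2 hS0
  have hES : 0 ≤ 2 * E / √S := by positivity
  have hlow : S * (1 - 2 * E / √S - 500 / e ^ 2) ≤ S * (1 - 500 / e ^ 2) := by
    apply mul_le_mul_of_nonneg_left _ hS0.le
    linarith
  have hRHb : rh + S / e ≤ RH := by
    refine le_trans ?_ N.hRH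
    have g1 : S ≤ (√S + E) ^ 2 := by
      calc S = √S ^ 2 := (Real.sq_sqrt hS0.le).symm
        _ ≤ (√S + E) ^ 2 := pow_le_pow_left₀ hsS.le (by linarith) 2
    have g2 : S / e ≤ (√S + E) ^ 2 / e := div_le_div_of_nonneg_right g1 he0.le
    linarith
  have hSe : 0 ≤ S / e := by positivity
  -- points
  have hpt : ∀ z : ℂ, 0 < z.re → |yz e κ z| ≤ Y → rz e κ z ≤ RH →
      S * (1 - 500 / e ^ 2) ≤ Sz e κ z → PtC e κ Y RH z := by
    intro z hz0 hzy hzr hzS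
    have hr0z : 0 ≤ rz e κ z := by unfold rz; positivity
    refine ⟨hz0, hzy, ?_, ?_, hzr⟩
    · refine hzr.trans (N.h9.trans ?_)
      have g1 : 46 / 5 * (S / e * (1 - 2 * E / √S - 500 / e ^ 2)) =
        46 / 5 * (S * (1 - 2 * E / √S - 500 / e ^ 2)) / e := by ring
      rw [g1]
      apply div_le_div_of_nonneg_right _ he0.le
      linarith
    · have g1 : rz e κ z ^ 2 ≤ RH ^ 2 := pow_le_pow_left₀ hr0z hzr 2
      have := N.h2
      linarith
  have hrhRH : rh ≤ RH := by linarith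
  have hSS : S * (1 - 500 / e ^ 2) ≤ S := by
    apply mul_le_of_le_one_right hS0.le
    linarith
  have hps : PtC e κ Y RH s := hpt s hs hyY (hrh.trans hrhRH) (by rw [← hS]; exact hSS)
  have hx1 : 0 ≤ x + 1 := by have := N.x0; linarith
  have hnq : ‖qq e κ s‖ ≤ u := by
    have g1 := qq_q C (W' := S / e) (q2 := q2) hps hx1 hom
      (by rw [← hS, mul_div_cancel₀ _ he0.ne']) N.q20 N.hρ
    refine g1.trans (le_trans ?_ N.hu)
    apply Real.exp_le_exp.2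
    have g2 := mul_le_mul_of_nonneg_left N.hrl N.q20
    linarith
  have hs2 : 0 < (shf κ s).re := shf_re hκ hs.le
  have hMB : ∀ z ∈ segment ℝ s (shf κ s), MB e κ Mo z := by rw [hsd]; exact hMo
  have hlsb : ‖log (fT e κ s) - log (fT e κ (shf κ s))‖ ≤ ls := by
    rw [norm_sub_rev]
    refine (lf_sub he0 hκ hs hs2 hMB).trans (le_trans ?_ N.hls)
    calc e * Real.sinh κ * Mo * ‖shf κ s - s‖ = Mo * (bet e κ * ‖shf κ s - s‖) := by
          rw [hbe]; ring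
      _ ≤ Mo * Vs := mul_le_mul_of_nonneg_left hVs hMo0
      _ = Vs * Mo := mul_comm _ _
  -- Q
  have hQp : (Qk κ s).re = Real.cosh κ + Real.sinh κ * s.re ∧ (Qk κ s).im = Real.sinh κ * s.im := by
    unfold Qk
    rw [add_re, add_im, re_ofReal_mul, im_ofReal_mul, ofReal_re, ofReal_im, zero_add]
    exact ⟨rfl, rfl⟩
  have hc1 := Real.one_le_cosh κ
  have hQi : |(Qk κ s).im| ≤ (Qk κ s).re := by
    rw [hQp.1, hQp.2]
    have g1 : Real.sinh κ * s.im = yz e κ s / e := by unfold yz bet; field_simp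
    rw [g1, abs_div, abs_of_pos he0]
    have g2 : |yz e κ s| / e ≤ 1 := by
      rw [div_le_one he0]
      linarith
    have g3 : 0 ≤ Real.sinh κ * s.re := by positivity
    linarith
  have hcs := Real.cosh_sq κ
  have hc2 : Real.cosh κ ≤ 1 + Real.sinh κ ^ 2 / 2 := cosh_le_a κ
  have hKs : Real.sinh κ * ‖s‖ ≤ zb / e := by
    rw [le_div_iff₀ he0]
    rw [hbe] at hz
    linarith
  have hQn : ‖Qk κ s‖ ≤ 1 + Real.sinh κ ^ 2 / 2 + zb / e := by
    unfold Qk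
    refine (norm_add_le _ _).trans ?_
    rw [norm_mul, Complex.norm_real, Complex.norm_real, Real.norm_of_nonneg hK0',
      Real.norm_of_nonneg (by linarith)]
    linarith
  have hek : Real.exp κ = Real.cosh κ + Real.sinh κ := by
    rw [Real.cosh_eq, Real.sinh_eq]; ring
  have hA1a : ‖Qk κ s - (Real.exp κ : ℂ)‖ ^ 2 ≤ Dm2 / e ^ 2 := by
    have g1 : Qk κ s - (Real.exp κ : ℂ) = (Real.sinh κ : ℂ) * (s - 1) := by
      rw [hek]; unfold Qk; push_cast; ring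
    rw [g1, norm_mul, Complex.norm_real, Real.norm_of_nonneg hK0', le_div_iff₀ (by positivity)]
    refine le_trans (le_of_eq ?_) hDm
    rw [hbe]; ring
  have hκ1 : κ ≤ 1 := by
    have := (Real.self_lt_sinh_iff.2 hκ).le
    linarith
  have hekm : Real.exp (-κ) = Real.cosh κ - Real.sinh κ := by
    rw [Real.cosh_eq, Real.sinh_eq]; ring
  have he2 : Real.exp (-(2 * κ)) = (Real.cosh κ - Real.sinh κ) ^ 2 := by
    rw [← hekm, ← Real.exp_nat_mul]; congr 1; push_cast; ring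
  have hA1b : ‖Qk κ s - (Real.exp (-(2 * κ)) : ℂ)‖ ≤ (zb + 41 / 20 * (e * Real.sinh κ)) / e := by
    have g1 : Qk κ s - (Real.exp (-(2 * κ)) : ℂ) = (Real.sinh κ : ℂ) * s +
        ((Real.cosh κ - Real.exp (-(2 * κ)) : ℝ) : ℂ) := by
      unfold Qk; push_cast; ring
    have g2 : 0 ≤ Real.cosh κ - Real.exp (-(2 * κ)) := by
      have : Real.exp (-(2 * κ)) ≤ 1 := by
        rw [Real.exp_le_one_iff]; linarith
      linarith
    have g3 : Real.cosh κ - Real.exp (-(2 * κ)) ≤ 41 / 20 * Real.sinh κ := by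
      rw [he2]
      exact cosh_num hK0' hKK hc2 hcs
    rw [g1]
    refine (norm_add_le _ _).trans ?_
    rw [norm_mul, Complex.norm_real, Complex.norm_real, Real.norm_of_nonneg hK0',
      Real.norm_of_nonneg g2, add_div]
    have g4 : 41 / 20 * (e * Real.sinh κ) / e = 41 / 20 * Real.sinh κ := by field_simp
    rw [g4]
    linarith
  have hqm : ‖1 - (2 * (Real.cosh κ : ℂ) - Qk κ s) ^ 2‖ ≤
      (Real.sinh κ ^ 2 / 2 + zb / e) * (2 + Real.sinh κ ^ 2 / 2 + zb / e) := by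
    have g1 : 1 - (2 * (Real.cosh κ : ℂ) - Qk κ s) ^ 2 =
        (((1 - Real.cosh κ : ℝ) : ℂ) + (Real.sinh κ : ℂ) * s) *
          (((1 + Real.cosh κ : ℝ) : ℂ) - (Real.sinh κ : ℂ) * s) := by
      unfold Qk; push_cast; ring
    rw [g1, norm_mul]
    have g2 : ‖((1 - Real.cosh κ : ℝ) : ℂ) + (Real.sinh κ : ℂ) * s‖ ≤
        Real.sinh κ ^ 2 / 2 + zb / e := by
      refine (norm_add_le _ _).trans ?_
      rw [norm_mul, Complex.norm_real, Complex.norm_real, Real.norm_of_nonneg hK0',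
        Real.norm_eq_abs, abs_sub_comm, abs_of_nonneg (by linarith : 0 ≤ Real.cosh κ - 1)]
      linarith
    have g3 : ‖((1 + Real.cosh κ : ℝ) : ℂ) - (Real.sinh κ : ℂ) * s‖ ≤
        2 + Real.sinh κ ^ 2 / 2 + zb / e := by
      refine (norm_sub_le _ _).trans ?_
      rw [norm_mul, Complex.norm_real, Complex.norm_real, Real.norm_of_nonneg hK0',
        Real.norm_of_nonneg (by linarith : 0 ≤ 1 + Real.cosh κ)]
      linarith
    exact mul_le_mul g2 g3 (norm_nonneg _) (by positivity)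
  have hc' : 1 - Real.exp (-κ) ≤ Real.sinh κ := by
    have g1 := Real.add_one_le_exp (-κ)
    have g2 := (Real.self_lt_sinh_iff.2 hκ).le
    linarith
  have hc0' : 0 ≤ 1 - Real.exp (-κ) := by
    have : Real.exp (-κ) ≤ 1 := by rw [Real.exp_le_one_iff]; linarith
    linarith
  have hQ1 := one_le_Qk hκ hs
  have key := (dlB_num (A1 := ‖Qk κ s - (Real.exp κ : ℂ)‖ ^ 2 *
      ‖Qk κ s - (Real.exp (-(2 * κ)) : ℂ)‖) he hK0' hKK N.zb0 N.zb1 hQ1 hQn hlsp0 N.lsp1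
      hlfp0 N.lfp1 hDm0 (mul_le_mul hA1a hA1b (norm_nonneg _) (by positivity)) (norm_nonneg _) hqm
      rfl hc0' hc' rfl N.hE N.E1).1
  have hEe : E / e ≤ 1 / 200 := by
    rw [div_le_iff₀ he0]
    have := N.E1
    linarith
  have hEe0 : 0 ≤ E / e := by positivity
  have hF := link_key he0 hκ (τ := τ) T.re (by rw [← hsd]; exact hQi) (X := X) (ls := ls) (lf := lf)
    (nq := u) (n1 := n1) (L1 := lsp / e) (L2 := lfp / e) (E0 := E / e * (1 - E / e))
    (η := E / e) hX1 (by rw [← hsd]; exact hlsb) hlf (by rw [← hsd]; exact hnq) huX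
    hn1
    (div_le_div_of_nonneg_right N.hlsp he0.le) (div_le_div_of_nonneg_right N.hlfp he0.le)
    (by rw [← hsd]; exact key)
    (by
      rw [← hsd]
      have : E / e * (1 - E / e) ≤ E / e * 1 := mul_le_mul_of_nonneg_left (by linarith) hEe0
      linarith)
    (by
      rw [← hsd]
      have g0 : 0 ≤ E / e * (1 - E / e) := mul_nonneg hEe0 (by linarith)
      have g1 : E / e * (1 - E / e) / ‖Qk κ s‖ ≤ E / e := by
        refine (div_le_self g0 hQ1).trans ?_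
        exact mul_le_of_le_one_right hEe0 (by linarith)
      rw [div_le_iff₀ (by linarith)]
      apply mul_le_mul_of_nonneg_left _ hEe0
      linarith)
    (hχ.trans hXX)
  refine ⟨hF.1, ?_⟩
  have g1 := mul_le_mul_of_nonneg_left hF.2 he0.le
  rw [mul_div_cancel₀ _ he0.ne'] at g1
  refine le_trans (le_of_eq ?_) g1
  rw [hbe]; ring

end

end Pool.Agent.helper31.EQB
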