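import Pool.Agent.helper31.EQB.LinkStep

/-!
# EQB-10c: the same as LinkStep with the bound `|y(shf τ)| + E` in place of `yn + E`
-/

namespace Pool.Agent.helper31.EQB

open Complex ComplexConjugate Set Filter Topology
open Pool.Agent.helper31.EQ.Y Pool.Agent.helper31.EQ.R
open Pool.Agent.helper12.EQL Pool.Agent.helper12.RP Pool.Agent.helper12.FF
open Pool.Agent.helper63.FF

variable {e κ Y w p q : ℝ}

section

variable {q2 x Λ yn a lf S rl rh zb Dm2 DP Vs Mo ls u n1 X lsp lfp E RH : ℝ} {τ χ : ℂ}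

/-- facts of the whole segment `[s, τ']` -/
private theorem seg_facts2y (C : MC e κ Y w p q) (hY : Y ≤ 7 / 2) (hynY : yn ≤ Y)
    (hyn : |yz e κ (shf κ τ)| + E ≤ Y)
    (T : St e κ x Λ yn τ) (hS : S = Sz e κ (shf κ τ))
    (N : LN e (Real.sinh κ) p q q2 w x Λ a lf S rl rh zb Dm2 DP Vs Mo ls u n1 X lsp lfp E RH)
    (hE0 : 0 ≤ E) {d : ℝ} (hd0 : 0 ≤ d) (hd1 : d ≤ 1) {z : ℂ}
    (hz0 : 0 < z.re) (hzE : bet e κ * ‖z - shf κ τ‖ ≤ E) (hzo : om κ (x + 1 - d) z) :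
    PtC e κ Y RH (shf κ z) ∧ om κ (x + 2 - d) (shf κ z) ∧
      S * (1 - 2 * E / √S - 500 / e ^ 2) ≤ Sz e κ (shf κ z) := by
  have he := C.e200
  have he0 : 0 < e := by linarith
  have hκ := C.κ0
  obtain ⟨hs, hom, hrl, hrh, hy, h3, hS0⟩ := link_base C hY hynY T hS N
  obtain ⟨d1, d2, d3, d4⟩ := disp_z he0 hκ hzE
  rw [← hS] at d3 d4
  have hsS : 0 < √S := Real.sqrt_pos.2 hS0
  have hRH1 : rh + E + (√S + E) ^ 2 / e ≤ RH := N.hRH
  have hrz : rz e κ z ≤ RH := by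
    have : 0 ≤ (√S + E) ^ 2 / e := by positivity
    linarith
  have hrz0 : 0 ≤ rz e κ z := by
    unfold rz bet
    have := N.K0
    positivity
  have hSz0 : 0 ≤ Sz e κ z := by unfold Sz; positivity
  have h450 : 0 ≤ 500 / e ^ 2 := by positivity
  have hlow : S * (1 - 2 * E / √S - 500 / e ^ 2) ≤ Sz e κ z := by
    have : S * (1 - 2 * E / √S - 500 / e ^ 2) = S * (1 - 2 * E / √S) - S * (500 / e ^ 2) := by ring
    rw [this]
    have := mul_nonneg hS0.le h450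
    linarith
  have hyz : |yz e κ z| ≤ Y := by linarith
  have h9 : RH ≤ 46 / 5 * Sz e κ z / e := by
    refine N.h9.trans ?_
    have : 46 / 5 * (S / e * (1 - 2 * E / √S - 500 / e ^ 2)) =
      46 / 5 * (S * (1 - 2 * E / √S - 500 / e ^ 2)) / e := by ring
    rw [this]
    apply div_le_div_of_nonneg_right _ he0.le
    linarith
  have hRH0 : 0 ≤ RH := hrz0.trans hrz
  have h2 : rz e κ z ^ 2 ≤ 9 / 10 * Sz e κ z := by
    have h4 : rz e κ z ^ 2 ≤ RH ^ 2 := pow_le_pow_left₀ hrz0 hrz 2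
    have := N.h2
    linarith
  obtain ⟨g1, -⟩ := Sz_shf_ge he hκ C.K1 hz0 (hyz.trans hY) (hrz.trans h9) h2
  have hlow2 : S * (1 - 2 * E / √S - 500 / e ^ 2) ≤ Sz e κ (shf κ z) := by
    refine le_trans ?_ g1
    have h5 : 0 ≤ 1 - 500 / e ^ 2 := by
      have : 500 / e ^ 2 ≤ 1 := by
        rw [div_le_one (by positivity)]; nlinarith
      linarith
    have h6 := mul_le_mul_of_nonneg_left d3 h5
    have h7 : (1 - 500 / e ^ 2) * (S * (1 - 2 * E / √S)) =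
      S * (1 - 2 * E / √S - 500 / e ^ 2) + S * (500 / e ^ 2 * (2 * E / √S)) := by ring
    have h8 : 0 ≤ S * (500 / e ^ 2 * (2 * E / √S)) := by positivity
    linarith
  have hrs : rz e κ (shf κ z) ≤ RH := by
    have h5 := rz_shf_le (e := e) he0 hκ hz0
    have h6 : Sz e κ z / e ≤ (√S + E) ^ 2 / e := by
      apply div_le_div_of_nonneg_right _ he0.le
      have h7 : Sz e κ z = √(Sz e κ z) ^ 2 := (Real.sq_sqrt hSz0).symm
      rw [h7]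
      exact pow_le_pow_left₀ (Real.sqrt_nonneg _) d4 2
    linarith
  have hsz := shf_re hκ hz0.le
  have hrs0 : 0 ≤ rz e κ (shf κ z) := by
    unfold rz bet
    have := N.K0
    positivity
  refine ⟨⟨hsz, (yz_shf_le he0 hκ hz0).trans hyz, ?_, ?_, hrs⟩, ?_, hlow2⟩
  · refine hrs.trans (N.h9.trans ?_)
    have : 46 / 5 * (S / e * (1 - 2 * E / √S - 500 / e ^ 2)) =
      46 / 5 * (S * (1 - 2 * E / √S - 500 / e ^ 2)) / e := by ring
    rw [this]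
    apply div_le_div_of_nonneg_right _ he0.le
    linarith
  · have h4 : rz e κ (shf κ z) ^ 2 ≤ RH ^ 2 := pow_le_pow_left₀ hrs0 hrs 2
    have := N.h2
    linarith
  · have h5 := om_shf hκ hz0 hzo
    have h6 : x + 1 - d + 1 = x + 2 - d := by ring
    rwa [h6] at h5

variable {d Λ1 a1 W2 M1 u1 η yn1 : ℝ}

theorem link_step_y (C : MC e κ Y w p q) (hY : Y ≤ 7 / 2) (hyn : yn ≤ Y)
    (T : St e κ x Λ yn τ) (hS : S = Sz e κ (shf κ τ))
    (N : LN e (Real.sinh κ) p q q2 w x Λ a lf S rl rh zb Dm2 DP Vs Mo ls u n1 X lsp lfp E RH)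
    (N2 : LN2 e (Real.sinh κ) p q q2 x Λ a S rl rh Vs E d Λ1 a1 W2 M1 u1 η)
    (hyn1 : |yz e κ (shf κ τ)| + E ≤ yn1)
    (hMo : ∀ z ∈ segment ℝ (shf κ τ) (shf κ (shf κ τ)), MB e κ Mo z)
    (hlf : ‖log (fT e κ (shf κ τ)) - log (fT e κ 1)‖ ≤ lf)
    (hn1 : ‖1 + qq e κ (shf κ τ)‖ ≤ n1)
    (hχ : ‖χ‖ ≤ ‖Rx e κ a τ‖) :
    St e κ (x + 1 - d) Λ1 yn1 (nxt e κ τ χ) := by
  have he := C.e200
  have he0 : 0 < e := by linarith
  have hκ := C.κ0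
  have hK0 := N.K0
  obtain ⟨hs, hom, hrl, hrh, hy, h3, hS0⟩ := link_base C hY hyn T hS N
  obtain ⟨-, hE⟩ := link_rad C hY hyn T hS N hMo hlf hn1 hχ
  have hβ : 0 < bet e κ := mul_pos he0 hK0
  have hE0 : 0 ≤ E := le_trans (by positivity) hE
  obtain ⟨t, ht⟩ : ∃ t, t = nxt e κ τ χ := ⟨_, rfl⟩
  rw [← ht] at hE ⊢
  have hre : 0 < t.re := by
    have h4 : |rz e κ t - rz e κ (shf κ τ)| ≤ E := by
      have h5 : rz e κ t - rz e κ (shf κ τ) = bet e κ * (t - shf κ τ).re := by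
        unfold rz; rw [Complex.sub_re]; ring
      rw [h5, abs_mul, abs_of_pos hβ]
      exact (mul_le_mul_of_nonneg_left (Complex.abs_re_le_norm _) hβ.le).trans hE
    have h5 := (abs_le.1 h4).1
    have h6 : 0 < rz e κ t := by linarith [N2.Er]
    exact (mul_pos_iff_of_pos_left hβ).1 h6
  obtain ⟨d1, d2, d3, d4⟩ := disp_z he0 hκ hE
  rw [← hS] at d3 d4
  have hsS : 0 < √S := Real.sqrt_pos.2 hS0
  refine ⟨hre, ?_, by linarith, ?_⟩
  · have h5 := sqrtS_le (e := e) he0 hκ hs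
    rw [← hS] at h5
    exact om_disp he0 hκ (by linarith [C.K1]) hs hre hom hE h5 N.Es N2.d0 (by linarith [N.x0]) N2.hd
  · have h5 : rz e κ t ≤ rh + E := by linarith
    refine h5.trans (N2.hΛ.trans ?_)
    have h6 : 0 < S / e * (1 - 2 * E / √S) := by
      have h7 := N.h9
      have h8 : 0 < RH := by
        have := N.hRH
        have h9 : 0 < rh := lt_of_lt_of_le N.rl0 (hrl.trans hrh)
        have h10 : 0 ≤ (√S + E) ^ 2 / e := by positivity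
        linarith
      have h11 : 0 ≤ S / e * (500 / e ^ 2) := by positivity
      have h12 : 46 / 5 * (S / e * (1 - 2 * E / √S - 500 / e ^ 2)) =
        46 / 5 * (S / e * (1 - 2 * E / √S)) - 46 / 5 * (S / e * (500 / e ^ 2)) := by ring
      rw [h12] at h7
      linarith
    have h7 : 0 ≤ Λ1 := by
      by_contra hneg
      push Not at hneg
      have h8 := N2.hΛ
      have h9 : 0 < rh := lt_of_lt_of_le N.rl0 (hrl.trans hrh)
      nlinarith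
    have h8 : Λ1 * Sz e κ t / e = Λ1 * (Sz e κ t / e) := by ring
    rw [h8]
    apply mul_le_mul_of_nonneg_left _ h7
    have h9 : S / e * (1 - 2 * E / √S) = S * (1 - 2 * E / √S) / e := by ring
    rw [h9]
    exact div_le_div_of_nonneg_right d3 he0.le

/-- `β |shf s - s| ≤ (S + r²)/e` -/
private theorem shf_jump (he : 0 < e) (hκ : 0 < κ) {s : ℂ} (hs : 0 < s.re) :
    bet e κ * ‖shf κ s - s‖ ≤ (Sz e κ s + rz e κ s ^ 2) / e := by
  have hK : 0 < Real.sinh κ := Real.sinh_pos_iff.2 hκ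
  have hβ : 0 < bet e κ := mul_pos he hK
  have hQ1 := one_le_Qk hκ hs
  have hQ0 := Qk_ne hκ hs
  have h := Qk_shf hκ hs
  have h2 : Qk κ (shf κ s) = (Real.cosh κ : ℂ) + (Real.sinh κ : ℂ) * shf κ s := rfl
  rw [h2] at h
  have hc : (Real.cosh κ : ℂ) ^ 2 - (Real.sinh κ : ℂ) ^ 2 = 1 := by
    exact_mod_cast Real.cosh_sq_sub_sinh_sq κ
  have hQ : Qk κ s = (Real.cosh κ : ℂ) + (Real.sinh κ : ℂ) * s := rfl
  have hKc : (Real.sinh κ : ℂ) ≠ 0 := by exact_mod_cast hK.ne'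
  -- (shf s - s) Q = K (1 - s²)
  have h3 : (shf κ s - s) * Qk κ s = (Real.sinh κ : ℂ) * (1 - s ^ 2) := by
    have h4 : (Real.sinh κ : ℂ) * shf κ s * Qk κ s = (Real.cosh κ : ℂ) * Qk κ s - 1 := by
      have : (Real.sinh κ : ℂ) * shf κ s = (Real.cosh κ : ℂ) - (Qk κ s)⁻¹ := by
        linear_combination h
      rw [this, sub_mul, inv_mul_cancel₀ hQ0]
    apply mul_left_cancel₀ hKc
    rw [hQ] at h4 ⊢
    linear_combination h4 + hc
  have h4 := congrArg norm h3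
  rw [norm_mul, norm_mul, Complex.norm_real, Real.norm_of_nonneg hK.le] at h4
  have h5 : ‖1 - s ^ 2‖ ≤ 1 + ‖s‖ ^ 2 := by
    refine (norm_sub_le _ _).trans ?_
    rw [norm_one, norm_pow]
  have h6 : ‖shf κ s - s‖ ≤ Real.sinh κ * (1 + ‖s‖ ^ 2) := by
    calc ‖shf κ s - s‖ ≤ ‖shf κ s - s‖ * ‖Qk κ s‖ := le_mul_of_one_le_right (norm_nonneg _) hQ1
      _ = Real.sinh κ * ‖1 - s ^ 2‖ := h4
      _ ≤ _ := mul_le_mul_of_nonneg_left h5 hK.le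
  have h7 : Sz e κ s + rz e κ s ^ 2 = bet e κ ^ 2 * (‖s‖ ^ 2 + 1) := by
    rw [Complex.sq_norm, Complex.normSq_apply]
    unfold Sz rz yz
    ring
  rw [h7]
  have h8 : bet e κ ^ 2 * (‖s‖ ^ 2 + 1) / e = bet e κ * (Real.sinh κ * (1 + ‖s‖ ^ 2)) := by
    unfold bet; field_simp; ring
  rw [h8]
  exact mul_le_mul_of_nonneg_left h6 hβ.le

/-- the points of the segment `[s, τ']` -/
private theorem seg_pts2y (C : MC e κ Y w p q) (hY : Y ≤ 7 / 2) (hynY : yn ≤ Y)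
    (hyn : |yz e κ (shf κ τ)| + E ≤ Y)
    (T : St e κ x Λ yn τ) (hS : S = Sz e κ (shf κ τ))
    (N : LN e (Real.sinh κ) p q q2 w x Λ a lf S rl rh zb Dm2 DP Vs Mo ls u n1 X lsp lfp E RH)
    (N2 : LN2 e (Real.sinh κ) p q q2 x Λ a S rl rh Vs E d Λ1 a1 W2 M1 u1 η)
    (hMo : ∀ z ∈ segment ℝ (shf κ τ) (shf κ (shf κ τ)), MB e κ Mo z)
    (hlf : ‖log (fT e κ (shf κ τ)) - log (fT e κ 1)‖ ≤ lf)
    (hn1 : ‖1 + qq e κ (shf κ τ)‖ ≤ n1)
    (hχ : ‖χ‖ ≤ ‖Rx e κ a τ‖) {z : ℂ} (hz : z ∈ segment ℝ (shf κ τ) (nxt e κ τ χ)) :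
    PtC e κ Y RH (shf κ z) ∧ om κ (x + 2 - d) (shf κ z) ∧
      e * W2 ≤ Sz e κ (shf κ z) ∧ |yz e κ (shf κ z)| ≤ |yz e κ (shf κ τ)| + E := by
  have he := C.e200
  have he0 : 0 < e := by linarith
  have hκ := C.κ0
  have hK0 := N.K0
  have hβ : 0 < bet e κ := mul_pos he0 hK0
  obtain ⟨hs, hom, hrl, hrh, hy, h3, hS0⟩ := link_base C hY hynY T hS N
  obtain ⟨-, hE⟩ := link_rad C hY hynY T hS N hMo hlf hn1 hχ
  have hE0 : 0 ≤ E := le_trans (by positivity) hE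
  have hst := link_step_y C hY hynY T hS N N2 (le_refl _) hMo hlf hn1 hχ
  have hz0 := re_segment hs hst.re hz
  have hzE : bet e κ * ‖z - shf κ τ‖ ≤ E := by
    refine le_trans (mul_le_mul_of_nonneg_left ?_ hβ.le) hE
    exact norm_sub_le_of_mem_segment hz
  have hzo : om κ (x + 1 - d) z :=
    om_seg hκ (by linarith [N.x0, N2.d1]) hs hst.re (om_mono hκ hom (by linarith [N2.d0])) hst.om hz
  obtain ⟨P, ho, hSz⟩ := seg_facts2y C hY hynY hyn T hS N hE0 N2.d0 N2.d1 hz0 hzE hzo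
  refine ⟨P, ho, ?_, ?_⟩
  · refine le_trans ?_ hSz
    have h4 := mul_le_mul_of_nonneg_left N2.hW2 he0.le
    have h5 : e * (S / e * (1 - 2 * E / √S - 500 / e ^ 2)) = S * (1 - 2 * E / √S - 500 / e ^ 2) := by
      field_simp
    linarith
  · refine (yz_shf_le he0 hκ hz0).trans ?_
    have h4 : |yz e κ z - yz e κ (shf κ τ)| ≤ E := by
      have h5 : yz e κ z - yz e κ (shf κ τ) = bet e κ * (z - shf κ τ).im := by
        unfold yz; rw [Complex.sub_im]; ring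
      rw [h5, abs_mul, abs_of_pos hβ]
      exact (mul_le_mul_of_nonneg_left (Complex.abs_im_le_norm _) hβ.le).trans hzE
    have h6 := abs_add_le (yz e κ z - yz e κ (shf κ τ)) (yz e κ (shf κ τ))
    rw [sub_add_cancel] at h6
    linarith

theorem m1_q_y (C : MC e κ Y w p q) (hY : Y ≤ 7 / 2) (hynY : yn ≤ Y)
    (hyn : |yz e κ (shf κ τ)| + E ≤ Y)
    (T : St e κ x Λ yn τ) (hS : S = Sz e κ (shf κ τ))
    (N : LN e (Real.sinh κ) p q q2 w x Λ a lf S rl rh zb Dm2 DP Vs Mo ls u n1 X lsp lfp E RH)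
    (N2 : LN2 e (Real.sinh κ) p q q2 x Λ a S rl rh Vs E d Λ1 a1 W2 M1 u1 η)
    (hMo : ∀ z ∈ segment ℝ (shf κ τ) (shf κ (shf κ τ)), MB e κ Mo z)
    (hlf : ‖log (fT e κ (shf κ τ)) - log (fT e κ 1)‖ ≤ lf)
    (hn1 : ‖1 + qq e κ (shf κ τ)‖ ≤ n1)
    (hχ : ‖χ‖ ≤ ‖Rx e κ a τ‖)
    (h : Mq e (Real.sinh κ) p q q2 (x + 2 - d) W2 ≤ M1) :
    ∀ z ∈ segment ℝ (shf κ τ) (nxt e κ τ χ), MB e κ M1 (shf κ z) := by
  intro z hz
  obtain ⟨P, ho, hW, -⟩ := seg_pts2y C hY hynY hyn T hS N N2 hMo hlf hn1 hχ hz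
  have hxd : 0 ≤ x + 2 - d := by linarith [N.x0, N2.d1]
  exact (MB_q C hY P hxd ho hW N2.W20 N.q20 N.hρ).mono (by linarith [C.e200]) C.κ0 h

theorem m1_x_y (C : MC e κ Y w p q) (hY : Y ≤ 7 / 2) (hynY : yn ≤ Y)
    (hyn : |yz e κ (shf κ τ)| + E ≤ Y)
    (T : St e κ x Λ yn τ) (hS : S = Sz e κ (shf κ τ))
    (N : LN e (Real.sinh κ) p q q2 w x Λ a lf S rl rh zb Dm2 DP Vs Mo ls u n1 X lsp lfp E RH)
    (N2 : LN2 e (Real.sinh κ) p q q2 x Λ a S rl rh Vs E d Λ1 a1 W2 M1 u1 η)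
    (hMo : ∀ z ∈ segment ℝ (shf κ τ) (shf κ (shf κ τ)), MB e κ Mo z)
    (hlf : ‖log (fT e κ (shf κ τ)) - log (fT e κ 1)‖ ≤ lf)
    (hn1 : ‖1 + qq e κ (shf κ τ)‖ ≤ n1)
    (hχ : ‖χ‖ ≤ ‖Rx e κ a τ‖)
    {ys : ℝ} (hys : |yz e κ (shf κ τ)| + E ≤ ys) (h : PX e κ (x + 2 - d) ys M1) :
    ∀ z ∈ segment ℝ (shf κ τ) (nxt e κ τ χ), MB e κ M1 (shf κ z) := by
  intro z hz
  obtain ⟨P, ho, -, hy⟩ := seg_pts2y C hY hynY hyn T hS N N2 hMo hlf hn1 hχ hz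
  exact h _ P.re ho (hy.trans hys)

theorem link_close_y (C : MC e κ Y w p q) (hY : Y ≤ 7 / 2) (hynY : yn ≤ Y)
    (hyn : |yz e κ (shf κ τ)| + E ≤ Y)
    (T : St e κ x Λ yn τ) (hS : S = Sz e κ (shf κ τ))
    (N : LN e (Real.sinh κ) p q q2 w x Λ a lf S rl rh zb Dm2 DP Vs Mo ls u n1 X lsp lfp E RH)
    (N2 : LN2 e (Real.sinh κ) p q q2 x Λ a S rl rh Vs E d Λ1 a1 W2 M1 u1 η)
    (hMo : ∀ z ∈ segment ℝ (shf κ τ) (shf κ (shf κ τ)), MB e κ Mo z)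
    (hlf : ‖log (fT e κ (shf κ τ)) - log (fT e κ 1)‖ ≤ lf)
    (hn1 : ‖1 + qq e κ (shf κ τ)‖ ≤ n1)
    (hχ : ‖χ‖ ≤ ‖Rx e κ a τ‖)
    (hM1 : ∀ z ∈ segment ℝ (shf κ τ) (nxt e κ τ χ), MB e κ M1 (shf κ z)) {χ' : ℂ}
    (hχ' : ‖χ'‖ ≤ a1 * (4 / (4 + bet e κ)) * (bet e κ * ‖shf κ (nxt e κ τ χ) + 1‖)) :
    ‖1 - R1 e κ τ (nxt e κ τ χ) * (1 + qq e κ (shf κ (nxt e κ τ χ)) * χ')‖ <
      (1 - Real.sinh κ / 1024) * ‖Rx e κ a τ‖ := by
  have he := C.e200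
  have he0 : 0 < e := by linarith
  have hκ := C.κ0
  have hK0 := N.K0
  have hβ : 0 < bet e κ := mul_pos he0 hK0
  obtain ⟨hs, hom, hrl, hrh, hy, h3, hS0⟩ := link_base C hY hynY T hS N
  obtain ⟨-, hE⟩ := link_rad C hY hynY T hS N hMo hlf hn1 hχ
  have hE0 : 0 ≤ E := le_trans (by positivity) hE
  have hst := link_step_y C hY hynY T hS N N2 (le_refl _) hMo hlf hn1 hχ
  have hseg := fun z hz => seg_pts2y (z := z) C hY hynY hyn T hS N N2 hMo hlf hn1 hχ hz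
  obtain ⟨t, ht⟩ : ∃ t, t = nxt e κ τ χ := ⟨_, rfl⟩
  rw [← ht] at hE hst hχ' hM1 ⊢
  rw [← ht] at hseg
  have hsS : 0 < √S := Real.sqrt_pos.2 hS0
  have hxd : 0 ≤ x + 2 - d := by linarith [N.x0, N2.d1]
  have hη0 : Real.sinh κ * ‖t - shf κ τ‖ ≤ E / e := by
    rw [le_div_iff₀ he0]
    have : Real.sinh κ * ‖t - shf κ τ‖ * e = bet e κ * ‖t - shf κ τ‖ := by unfold bet; ring
    linarith
  have hlg := lg_disp he0 hκ hs hst.re hη0 N2.M10 hM1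
  have hlg' : ‖lg e κ t - lg e κ (shf κ τ)‖ ≤ E * (1 + M1) := by
    refine hlg.trans (le_of_eq ?_)
    field_simp
  obtain ⟨P, ho, hW, -⟩ := hseg t (right_mem_segment ℝ _ _)
  have hqq := (qq_q C P hxd ho hW N.q20 N.hρ).trans N2.hu1
  have hcl := close_key he0 hκ hs hst.re hlg' hqq hχ'
  have hη := N2.hη
  have hη1 : 1 ≤ η := by
    refine le_trans ?_ hη
    apply Real.one_le_exp
    have hM10 := N2.M10
    positivity
  have hu10 : 0 ≤ u1 := (norm_nonneg _).trans hqq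
  -- `‖Rx‖`
  obtain ⟨g, hg⟩ : ∃ g, g = 4 / (4 + bet e κ) := ⟨_, rfl⟩
  have hg0 : 0 < g := by rw [hg]; positivity
  obtain ⟨D, hD⟩ : ∃ D, D = bet e κ * ‖shf κ τ + 1‖ := ⟨_, rfl⟩
  have hDS : √S ≤ D := by
    rw [hD, hS]; exact sqrtS_le he0 hκ hs
  have hD0 : 0 < D := lt_of_lt_of_le hsS hDS
  have hRx : ‖Rx e κ a τ‖ = a * g * D := by
    unfold Rx
    rw [norm_mul, Complex.norm_real, ← hg, hD, Real.norm_of_nonneg (by have := N.a0; positivity)]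
    ring
  have hR1 : R1 e κ τ t = (1 - fT e κ t) / (1 - fT e κ (shf κ τ)) := rfl
  rw [hR1, hRx]
  -- the next radius
  have hD1 : bet e κ * ‖shf κ t + 1‖ ≤ D + (Vs + E) := by
    have h4 : shf κ t + 1 = (shf κ τ + 1) + (shf κ (shf κ τ) - shf κ τ) +
      (shf κ t - shf κ (shf κ τ)) := by ring
    have h5 : ‖shf κ t + 1‖ ≤ ‖shf κ τ + 1‖ + ‖shf κ (shf κ τ) - shf κ τ‖ +
        ‖shf κ t - shf κ (shf κ τ)‖ := by
      rw [h4]; exact norm_add₃_le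
    have h6 := shf_disp (e := e) he0 hκ hs hst.re
    have h7 := shf_jump (e := e) he0 hκ hs
    have h8 : (Sz e κ (shf κ τ) + rz e κ (shf κ τ) ^ 2) / e ≤ Vs := by
      refine le_trans ?_ N.hVs
      apply div_le_div_of_nonneg_right _ he0.le
      rw [← hS]
      have : rz e κ (shf κ τ) ^ 2 ≤ rh ^ 2 := pow_le_pow_left₀ (by linarith [N.rl0]) hrh 2
      linarith
    have h9 := mul_le_mul_of_nonneg_left h5 hβ.le
    have h10 : bet e κ * ‖shf κ t - shf κ (shf κ τ)‖ ≤ E :=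
      (mul_le_mul_of_nonneg_left h6 hβ.le).trans hE
    rw [mul_add, mul_add, ← hD] at h9
    linarith
  rw [← hg] at hcl
  have hfin : (Real.exp (E * (1 + M1)) - 1) + Real.exp (E * (1 + M1)) *
      (u1 * (a1 * g * (bet e κ * ‖shf κ t + 1‖))) ≤
      (η - 1) + η * (u1 * (a1 * g * (D + (Vs + E)))) := by
    have h4 : u1 * (a1 * g * (bet e κ * ‖shf κ t + 1‖)) ≤ u1 * (a1 * g * (D + (Vs + E))) := by
      apply mul_le_mul_of_nonneg_left _ hu10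
      apply mul_le_mul_of_nonneg_left hD1
      exact mul_nonneg N2.a10 hg0.le
    have h5 : 0 ≤ u1 * (a1 * g * (bet e κ * ‖shf κ t + 1‖)) := by
      have := N2.a10
      positivity
    have h6 := mul_le_mul hη h4 h5 (by linarith : 0 ≤ η)
    linarith
  refine lt_of_le_of_lt (hcl.trans hfin) ?_
  have hcl2 := N2.hcl
  -- multiply by g D
  have h4 : (η - 1) * (4 + e * Real.sinh κ) / (4 * √S) * (g * D) ≥ η - 1 := by
    have h5 : (η - 1) * (4 + e * Real.sinh κ) / (4 * √S) * (g * D) = (η - 1) * (D / √S) := by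
      have : 4 + bet e κ ≠ 0 := by positivity
      rw [hg]
      unfold bet at this ⊢
      field_simp
    rw [h5]
    have h6 : 1 ≤ D / √S := by rwa [one_le_div hsS]
    nlinarith
  have h5 : η * (u1 * a1) * (1 + (Vs + E) / √S) * (g * D) ≥ η * (u1 * (a1 * g * (D + (Vs + E)))) := by
    have h6 : η * (u1 * a1) * (1 + (Vs + E) / √S) * (g * D) =
      η * (u1 * (a1 * g * (D + (Vs + E) * (D / √S)))) := by field_simp
    rw [h6]
    have h7 : 1 ≤ D / √S := by rwa [one_le_div hsS]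
    have hVs0 : 0 ≤ Vs := le_trans (by have := N.S0; positivity) N.hVs
    have h8 : Vs + E ≤ (Vs + E) * (D / √S) := le_mul_of_one_le_right (by positivity) h7
    have h9 := N2.a10
    have h10 : 0 ≤ η := by linarith
    gcongr
  have h6 := mul_lt_mul_of_pos_right hcl2 (mul_pos hg0 hD0)
  rw [add_mul] at h6
  calc (η - 1) + η * (u1 * (a1 * g * (D + (Vs + E)))) ≤ _ := by linarith
    _ < (1 - Real.sinh κ / 1024) * a * (g * D) := h6
    _ = _ := by ring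

theorem link_all_y (C : MC e κ Y w p q) (hY : Y ≤ 7 / 2) (hynY : yn ≤ Y)
    (hyn : |yz e κ (shf κ τ)| + E ≤ Y)
    (T : St e κ x Λ yn τ) (hS : S = Sz e κ (shf κ τ))
    (N : LN e (Real.sinh κ) p q q2 w x Λ a lf S rl rh zb Dm2 DP Vs Mo ls u n1 X lsp lfp E RH)
    (N2 : LN2 e (Real.sinh κ) p q q2 x Λ a S rl rh Vs E d Λ1 a1 W2 M1 u1 η)
    (hyn1 : |yz e κ (shf κ τ)| + E ≤ yn1)
    (hlf : ‖log (fT e κ (shf κ τ)) - log (fT e κ 1)‖ ≤ lf)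
    (hn1 : ‖1 + qq e κ (shf κ τ)‖ ≤ n1)
    (hχ : ‖χ‖ ≤ ‖Rx e κ a τ‖)
    (hMo' : Mq e (Real.sinh κ) p q q2 (x + 1) (S / e * (1 - 500 / e ^ 2)) ≤ Mo ∨
      ∃ ys, |yz e κ (shf κ τ)| ≤ ys ∧ PX e κ (x + 1) ys Mo)
    (hM1' : Mq e (Real.sinh κ) p q q2 (x + 2 - d) W2 ≤ M1 ∨
      ∃ ys, |yz e κ (shf κ τ)| + E ≤ ys ∧ PX e κ (x + 2 - d) ys M1) :
    ‖Rx e κ a τ‖ < 1 ∧ St e κ (x + 1 - d) Λ1 yn1 (nxt e κ τ χ) ∧
      ∀ χ' : ℂ, ‖χ'‖ ≤ a1 * (4 / (4 + bet e κ)) * (bet e κ * ‖shf κ (nxt e κ τ χ) + 1‖) →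
        ‖1 - R1 e κ τ (nxt e κ τ χ) * (1 + qq e κ (shf κ (nxt e κ τ χ)) * χ')‖ <
          (1 - Real.sinh κ / 1024) * ‖Rx e κ a τ‖ := by
  have hMo : ∀ z ∈ segment ℝ (shf κ τ) (shf κ (shf κ τ)), MB e κ Mo z := by
    rcases hMo' with h | ⟨ys, hys, h⟩
    · exact mo_q C hY hynY T hS N h
    · exact mo_x C hY hynY T hS N hys h
  have hM1 : ∀ z ∈ segment ℝ (shf κ τ) (nxt e κ τ χ), MB e κ M1 (shf κ z) := by
    rcases hM1' with h | ⟨ys, hys, h⟩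
    · exact m1_q_y C hY hynY hyn T hS N N2 hMo hlf hn1 hχ h
    · exact m1_x_y C hY hynY hyn T hS N N2 hMo hlf hn1 hχ hys h
  exact ⟨(link_X C hY hynY T hS N).2.trans_lt N.X1,
    link_step_y C hY hynY T hS N N2 hyn1 hMo hlf hn1 hχ,
    fun χ' hχ' => link_close_y C hY hynY hyn T hS N N2 hMo hlf hn1 hχ hM1 hχ'⟩

end

end Pool.Agent.helper31.EQB
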