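import Pool.Agent.helper31.EQB.MB2
import Pool.Agent.helper31.EQB.Link

/-!
# EQB-10: one rigid link in the coordinate `z`

`s = shf κ τ`, `S = Sz e κ s`, `β = e K = bet e κ`, `r = rz s`, `y = yz s` (`y² = S - β²`), `Q = Qk κ s = c + z/e`,
`τ' = nxt e κ τ χ`, `W = S/e`.

`link_rad`: `link_key` with `L1 = lsp/e`, `L2 = lfp/e`, `E0 ≤ E/e (1 - E/e)` (so that `E0/(1 - E0/|Q|) ≤ E/e`).
* `r ≥ rl` (`om_shf`, `om_rz`), `r ≤ rh` (`rz_shf_le`, `Sz_shf_ge` at `τ` — its hypotheses: `rz τ ≤ Λ Sz τ/e`, `Λ ≤ 8`,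
  `Λ² (Sz τ)/e² ≤ 9/10` from `h2`), `|z| ≤ zb`, `(β |s-1|)² = S + r² - 2βr ≤ Dm2` (convex in `r`, so the two end points `rl`, `rh`), `(β |s+1|)² = S + r² + 2βr ≤ DP²`.
* `ls`: `lf_sub` on the segment `[s, shf s]`, `β |shf s - s| = |β² - z²|/(e |Q|) ≤ (S + r²)/e ≤ Vs`, and `MB Mo` on the
  segment: `om κ (x+1)` (`om_seg`, `om_shf`, `om_mono`), `|y|` between `|y(shf s)|` and `|y(s)|` (same sign), so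
  `Sz ≥ Sz (shf s) ≥ (1 - 500/e²) S`; `r ≤ rh + S/e`.
* `‖qq s‖ ≤ u`: `qq_q` at `s` with `W' = S/e`.
* `DlB`: `|Q - e^κ| = K |s - 1|`; `|Q - e^(-2κ)| ≤ (zb + 41/20 β)/e` (`cosh κ - e^(-2κ) ≤ 2K`);
  `|1 - (2c - Q)²| = |1 - (c - z/e)²| ≤ (K²/2 + zb/e)(2 + K²/2 + zb/e)`; `(1 - e^(-κ))² ≤ K²`; `1 ≤ |Q| ≤ 1 + K²/2 + zb/e`;
  `e^x - 1 ≤ 1.00503 x` for `x ≤ 1/100`, `≤ 1.0311 x` for `x ≤ 6/100`.  Total factor: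
  `1.00503 (1 + K²/4 + zb/(2e))/(1 - E/e) ≤ 1 + zb/(2e) + 3/200` (`K ≤ 1/10`, `zb ≤ e/10`, `E ≤ e/200`).
`link_step`: `om_disp` with `Dp = √S`, `disp_z`.
`link_close`: `lg_disp` (`M = M1`), `close_key`; for `z'` in the segment `[s, τ']`: `om κ (x+1-d) z'`, `om κ (x+2-d) (shf z')`,
`Sz (shf z') ≥ (1 - 500/e²) Sz z' ≥ S (1 - 2E/√S - 500/e²)`, `rz (shf z') ≤ rh + E + (√S+E)²/e ≤ RH`.
`β |shf τ' + 1| ≤ β |s + 1| + β |shf s - s| + E`, and `β |s + 1| ≥ √S`.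
-/

namespace Pool.Agent.helper31.EQB

open Complex ComplexConjugate Set Filter Topology
open Pool.Agent.helper31.EQ.Y Pool.Agent.helper31.EQ.R
open Pool.Agent.helper12.EQL Pool.Agent.helper12.RP Pool.Agent.helper12.FF
open Pool.Agent.helper63.FF

/-- the radius -/
noncomputable def Rx (e κ a : ℝ) (τ : ℂ) : ℂ :=
  ((a * (4 / (4 + bet e κ)) * bet e κ : ℝ) : ℂ) * (shf κ τ + 1)

/-- the set of the links -/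
structure St (e κ x Λ yn : ℝ) (τ : ℂ) : Prop where
  re : 0 < τ.re
  om : om κ x τ
  y : |yz e κ τ| ≤ yn
  r : rz e κ τ ≤ Λ * Sz e κ τ / e

/-- Number hypotheses of the link, first part. -/
structure LN (e K p q q2 w x Λ a lf S rl rh zb Dm2 DP Vs Mo ls u n1 X lsp lfp E RH : ℝ) : Prop where
  K0 : 0 < K
  x0 : 0 ≤ x
  a0 : 0 < a
  S0 : 0 < S
  Λ0 : 0 ≤ Λ
  Λ8 : Λ ≤ 8
  q20 : 0 ≤ q2
  lf0 : 0 ≤ lf
  rl0 : 0 < rl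
  hrl : rl ≤ lam K (x + 1) * (S / e)
  hrh : (Λ + 1) * (1 + 560 / e ^ 2) * (S / e) ≤ rh
  zb0 : 0 ≤ zb
  hzb : rh ^ 2 + (S - (e * K) ^ 2) ≤ zb ^ 2
  hDl : S + rl ^ 2 - 2 * (e * K) * rl ≤ Dm2
  hDh : S + rh ^ 2 - 2 * (e * K) * rh ≤ Dm2
  DP0 : 0 ≤ DP
  hDP : S + rh ^ 2 + 2 * (e * K) * rh ≤ DP ^ 2
  hVs : (S + rh ^ 2) / e ≤ Vs
  Mo0 : 0 ≤ Mo
  hls : Vs * Mo ≤ ls
  hu : Real.exp (-(q2 * rl)) ≤ u
  u1 : u ≤ 1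
  hX : a * (4 / (4 + e * K)) * DP ≤ X
  X1 : X < 1
  n10 : 0 ≤ n1
  hlsp : ls + n1 * (X / (1 - X)) ≤ lsp
  hlfp : lf + u * X / (1 - u * X) ≤ lfp
  hE : (1 + zb / (2 * e) + 3 / 200) * (Dm2 * (zb + 41 / 20 * (e * K)) / (2 * e ^ 2) +
    (zb + e * K * K / 2) * lsp / e + (e * K) ^ 2 / e ^ 2 * (17 / 10 * lsp + 11 / 5 * lfp)) ≤ E
  lsp1 : lsp ≤ e / 100
  lfp1 : lfp ≤ e / 50
  zb1 : zb ≤ e / 10
  E1 : E ≤ e / 200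
  Es : E < √S
  hRH : rh + E + (√S + E) ^ 2 / e ≤ RH
  h9 : RH ≤ 46 / 5 * (S / e * (1 - 2 * E / √S - 500 / e ^ 2))
  h2 : RH ^ 2 ≤ 9 / 10 * (S * (1 - 2 * E / √S - 500 / e ^ 2))
  hρ : q2 + 8 / e + RH * (1 / 2 + 2 * w ^ 2) / e ≤ q

/-- Number hypotheses of the link, second part (next node). -/
structure LN2 (e K p q q2 x Λ a S rl rh Vs E d Λ1 a1 W2 M1 u1 η : ℝ) : Prop where
  d0 : 0 ≤ d
  d1 : d ≤ 1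
  a10 : 0 ≤ a1
  Er : E < rl
  hd : e * E * Real.exp (2 * K * (x + 1)) ≤ (1 - K ^ 2 / 6) * d * (√S * (√S - E))
  hΛ : rh + E ≤ Λ1 * (S / e * (1 - 2 * E / √S))
  W20 : 0 < W2
  hW2 : W2 ≤ S / e * (1 - 2 * E / √S - 500 / e ^ 2)
  M10 : 0 ≤ M1
  hu1 : Real.exp (-(q2 * (lam K (x + 2 - d) * W2))) ≤ u1
  hη : Real.exp (E * (1 + M1)) ≤ η
  hcl : (η - 1) * (4 + e * K) / (4 * √S) + η * (u1 * a1) * (1 + (Vs + E) / √S) <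
    (1 - K / 1024) * a

/-- convexity in `r` -/
theorem LN.hDm {e K p q q2 w x Λ a lf S rl rh zb Dm2 DP Vs Mo ls u n1 X lsp lfp E RH : ℝ}
    (N : LN e K p q q2 w x Λ a lf S rl rh zb Dm2 DP Vs Mo ls u n1 X lsp lfp E RH) {r : ℝ}
    (h1 : rl ≤ r) (h2 : r ≤ rh) : S + r ^ 2 - 2 * (e * K) * r ≤ Dm2 := by
  have a1 := N.hDl
  have a2 := N.hDh
  rcases le_total (rl + rh) (2 * (e * K)) with h | h
  · nlinarith [mul_nonneg (sub_nonneg.2 h1) (sub_nonneg.2 h2), mul_nonneg (sub_nonneg.2 h) (sub_nonneg.2 h1)]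
  · nlinarith [mul_nonneg (sub_nonneg.2 h1) (sub_nonneg.2 h2), mul_nonneg (sub_nonneg.2 h) (sub_nonneg.2 h2)]

end Pool.Agent.helper31.EQB
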