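import Pool.Agent.helper31.EQB.Msup
import Pool.Agent.helper31.EQB.Om

/-!
# EQB-9: the bound of the logarithmic derivative from the position

`MB_q`: `qq_sup` at `u` (`‖qq u‖ ≤ exp (-q2 r) ≤ exp (-q2 lam W')`), `MB_rec` (or `MB_rec1`) with `M = 1/Ψ(shf u)`
(`MB_sup`), `Ψ(shf u) ≥ Bs (p W'') + q lam(x+1) W''/2`, `W'' = W' (1 - 500/e²)`: `Sz_shf_ge`, `om_shf`, `om_rz`; `Bs` is
increasing on `(0, ∞)`.
-/

namespace Pool.Agent.helper31.EQB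

open Complex ComplexConjugate Set Filter Topology
open Pool.Agent.helper31.EQ.Y Pool.Agent.helper31.EQ.R
open Pool.Agent.helper12.EQL Pool.Agent.helper12.RP Pool.Agent.helper12.FF

/-- the bound `M` at position `x` with `S/e ≥ W` -/
noncomputable def Mq (e K p q q2 x W : ℝ) : ℝ :=
  Real.exp (-(q2 * (lam K x * W))) *
    (1 + (Bs (p * (W * (1 - 500 / e ^ 2))) + q * (lam K (x + 1) * (W * (1 - 500 / e ^ 2))) / 2)⁻¹)

variable {e κ Y w p q : ℝ}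

theorem lam_nonneg {K x : ℝ} (hK0 : 0 ≤ K) (hK : K ≤ 1) (hx : 0 ≤ x) : 0 ≤ lam K x := by
  have h1 : 0 ≤ 1 - K ^ 2 / 6 := by nlinarith
  unfold lam
  positivity

/-- `Bs` is increasing -/
theorem Bs_mono2 {s s' : ℝ} (hs : 0 < s) (h : s ≤ s') : Bs s ≤ Bs s' := by
  have hs' : 0 < s' := lt_of_lt_of_le hs h
  unfold Bs
  have h1 : 2 / s' ≤ 2 / s := div_le_div_of_nonneg_left (by norm_num) hs h
  have h2 : √(1 / 4 + 2 / s') ≤ √(1 / 4 + 2 / s) := Real.sqrt_le_sqrt (by linarith)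
  have h3 : 0 ≤ √(1 / 4 + 2 / s') := Real.sqrt_nonneg _
  exact inv_anti₀ (by linarith) (by linarith)

theorem Bs_pos2 (s : ℝ) : 0 < Bs s := by
  unfold Bs
  have h3 : 0 ≤ √(1 / 4 + 2 / s) := Real.sqrt_nonneg _
  exact inv_pos.2 (by linarith)

/-- the conditions of a point: `|y| ≤ Y`, `r ≤ 9 S/e`, `r² ≤ 9 S/10`, `r ≤ ρ` -/
structure PtC (e κ Y ρ : ℝ) (u : ℂ) : Prop where
  re : 0 < u.re
  yY : |yz e κ u| ≤ Y
  r9 : rz e κ u ≤ 46 / 5 * Sz e κ u / e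
  r2 : rz e κ u ^ 2 ≤ 9 / 10 * Sz e κ u
  rρ : rz e κ u ≤ ρ

theorem qq_q (C : MC e κ Y w p q) {u : ℂ} {ρ x W' q2 : ℝ} (P : PtC e κ Y ρ u) (hx : 0 ≤ x)
    (ho : om κ x u) (hW : e * W' ≤ Sz e κ u) (hq0 : 0 ≤ q2)
    (hq2 : q2 + 8 / e + ρ * (1 / 2 + 2 * w ^ 2) / e ≤ q) :
    ‖qq e κ u‖ ≤ Real.exp (-(q2 * (lam (Real.sinh κ) x * W'))) := by
  have he : 0 < e := by linarith [C.e200]
  have hK0 : 0 < Real.sinh κ := Real.sinh_pos_iff.2 C.κ0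
  have hK1 : Real.sinh κ ≤ 1 := by linarith [C.K1]
  refine (qq_sup C P.re P.yY P.r2 P.rρ hq0 hq2).trans (Real.exp_le_exp.2 ?_)
  have h1 := om_rz he C.κ0 hK1 hx P.re ho
  have h2 := lam_nonneg hK0.le hK1 hx
  have h3 : W' ≤ Sz e κ u / e := by
    rw [le_div_iff₀ he]; linarith
  have h4 : lam (Real.sinh κ) x * W' ≤ lam (Real.sinh κ) x * (Sz e κ u / e) :=
    mul_le_mul_of_nonneg_left h3 h2
  have h5 : lam (Real.sinh κ) x * W' ≤ rz e κ u := by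
    refine h4.trans ?_
    rw [← mul_div_assoc]
    exact h1
  have h6 := mul_le_mul_of_nonneg_left h5 hq0
  linarith

theorem MB_q (C : MC e κ Y w p q) (hY : Y ≤ 7 / 2) {u : ℂ} {ρ x W' q2 : ℝ} (P : PtC e κ Y ρ u)
    (hx : 0 ≤ x) (ho : om κ x u) (hW : e * W' ≤ Sz e κ u) (hW0 : 0 < W') (hq0 : 0 ≤ q2)
    (hq2 : q2 + 8 / e + ρ * (1 / 2 + 2 * w ^ 2) / e ≤ q) :
    MB e κ (Mq e (Real.sinh κ) p q q2 x W') u := by
  have he2 := C.e200
  have he : 0 < e := by linarith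
  have hκ := C.κ0
  have hK0 : 0 < Real.sinh κ := Real.sinh_pos_iff.2 hκ
  have hK1 : Real.sinh κ ≤ 1 := by linarith [C.K1]
  have hs : 0 < (shf κ u).re := shf_re hκ P.re.le
  have hys : |yz e κ (shf κ u)| ≤ Y := (yz_shf_le he hκ P.re).trans P.yY
  have hge := (Sz_shf_ge he2 hκ C.K1 P.re (P.yY.trans hY) P.r9 P.r2).1
  have h500 : 0 < 1 - 500 / e ^ 2 := by
    have : 500 / e ^ 2 < 1 := by
      rw [div_lt_one (by positivity)]
      nlinarith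
    linarith
  obtain ⟨W2, hW2⟩ : ∃ W2, W2 = W' * (1 - 500 / e ^ 2) := ⟨_, rfl⟩
  have hW20 : 0 < W2 := by rw [hW2]; exact mul_pos hW0 h500
  have h1 : W2 ≤ Sz e κ (shf κ u) / e := by
    rw [le_div_iff₀ he, hW2]
    have := mul_le_mul_of_nonneg_left hW h500.le
    linarith
  have ho1 := om_shf hκ P.re ho
  have h2 := om_rz he hκ hK1 (by linarith : (0:ℝ) ≤ x + 1) hs ho1
  have h3 := lam_nonneg hK0.le hK1 (by linarith : (0:ℝ) ≤ x + 1)
  have h4 : lam (Real.sinh κ) (x + 1) * W2 ≤ rz e κ (shf κ u) := by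
    refine (mul_le_mul_of_nonneg_left h1 h3).trans ?_
    rw [← mul_div_assoc]
    exact h2
  have hp : 0 < p := by linarith [C.p6]
  have hq : 0 < q := by linarith [C.q7]
  have h5 : Bs (p * W2) ≤ Bs (p * (Sz e κ (shf κ u) / e)) :=
    Bs_mono2 (mul_pos hp hW20) (mul_le_mul_of_nonneg_left h1 hp.le)
  have h6 : q * (lam (Real.sinh κ) (x + 1) * W2) / 2 ≤ q * rz e κ (shf κ u) / 2 := by
    have := mul_le_mul_of_nonneg_left h4 hq.le
    linarith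
  have h7 : 0 < Bs (p * W2) + q * (lam (Real.sinh κ) (x + 1) * W2) / 2 := by
    have := Bs_pos2 (p * W2)
    have : 0 ≤ q * (lam (Real.sinh κ) (x + 1) * W2) / 2 := by positivity
    linarith
  have h8 : (Ps e κ p q (shf κ u))⁻¹ ≤
      (Bs (p * W2) + q * (lam (Real.sinh κ) (x + 1) * W2) / 2)⁻¹ := by
    apply inv_anti₀ h7
    unfold Ps
    linarith
  have h9 : MB e κ (Bs (p * W2) + q * (lam (Real.sinh κ) (x + 1) * W2) / 2)⁻¹ (shf κ u) :=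
    (MB_sup C hs hys).mono he hκ h8
  have h10 := MB_rec1 he hκ P.re (inv_nonneg.2 h7.le) (qq_q C P hx ho hW hq0 hq2) h9
  unfold Mq
  rw [← hW2]
  exact h10

end Pool.Agent.helper31.EQB
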