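import Pool.Agent.helper31.EQB.MsupB

/-! # EQB-4, third part (see MsupA.lean for the proof) -/

namespace Pool.Agent.helper31.EQB

open Complex ComplexConjugate Set Filter Topology
open Pool.Agent.helper31.EQ.Y Pool.Agent.helper31.EQ.R
open Pool.Agent.helper12.EQL Pool.Agent.helper12.RP Pool.Agent.helper12.FF

variable {e κ Y w p q : ℝ}

/-- `ls` -/
theorem ls_sup (C : MC e κ Y w p q) {t : ℂ} (ht : 0 < t.re) (hy : |yz e κ t| ≤ Y)
    (hr : rz e κ t ^ 2 ≤ 9 / 10 * Sz e κ t) :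
    ‖log (fT e κ t) - log (fT e κ (shf κ t))‖ ≤
      Vz e κ t / ((1 - (Sz e κ t / e + 21 / 10 * rz e κ t) / e) * Ps e κ p q t) := by
  have he := C.e0
  have hκ := C.κ0
  have hsre := shf_re hκ ht.le
  have hep := ep_le C hy hr
  have hep0 := ep_nonneg he hκ ht
  have h7 : (Sz e κ t / e + 21 / 10 * rz e κ t) / e = ep e κ t := rfl
  have hP := C.P0 ht
  have hpos : 0 < (1 - ep e κ t) * Ps e κ p q t := mul_pos (by linarith) hP
  have hM : ∀ z ∈ segment ℝ t (shf κ t), MB e κ ((1 - ep e κ t) * Ps e κ p q t)⁻¹ z := by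
    intro z hz
    obtain ⟨h1, h2, h3⟩ := Ps_seg C ht hy hr hz
    have hz0 := re_segment ht hsre hz
    refine (MB_sup C hz0 (h2.trans hy)).mono he hκ ?_
    rw [h7] at h1
    exact inv_anti₀ hpos h1
  have e1 := lf_sub he hκ ht hsre hM
  rw [norm_sub_rev] at e1
  rw [h7]
  refine e1.trans ?_
  rw [div_eq_mul_inv]
  calc e * Real.sinh κ * ((1 - ep e κ t) * Ps e κ p q t)⁻¹ * ‖shf κ t - t‖ =
      (e * Real.sinh κ * ‖shf κ t - t‖) * ((1 - ep e κ t) * Ps e κ p q t)⁻¹ := by ring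
    _ ≤ _ := mul_le_mul_of_nonneg_right (z_diff he hκ ht) (inv_nonneg.2 hpos.le)


theorem L_re_ge (C : MC e κ Y w p q) {t : ℂ} (ht : 0 < t.re) :
    rz e κ t - rz e κ t ^ 2 / (2 * e) ≤ ((e : ℂ) * log (Qk κ t)).re := by
  have he := C.e0
  have hr0 := rz_pos he C.κ0 ht
  have hQ0 : 0 < ‖Qk κ t‖ := norm_pos_iff.2 (Qk_ne C.κ0 ht)
  rw [Complex.re_ofReal_mul, Complex.log_re]
  obtain ⟨x, hx⟩ : ∃ x, x = rz e κ t / e := ⟨_, rfl⟩
  have hx0 : 0 < x := by rw [hx]; positivity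
  have h1 : 1 + x ≤ ‖Qk κ t‖ := by
    refine le_trans ?_ (Complex.re_le_norm _)
    rw [Q_re he, hx]
    linarith [Real.one_le_cosh κ]
  have h2 := Real.log_le_log (by linarith) h1
  have h3 := Real.le_log_one_add_of_nonneg hx0.le
  have h4 : x - x ^ 2 / 2 ≤ 2 * x / (x + 2) := by
    rw [le_div_iff₀ (by linarith)]
    nlinarith [pow_pos hx0 3]
  have h5 : rz e κ t - rz e κ t ^ 2 / (2 * e) = e * (x - x ^ 2 / 2) := by
    rw [hx]; field_simp
  rw [h5]
  exact mul_le_mul_of_nonneg_left (by linarith) he.le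

theorem L_norm_le (C : MC e κ Y w p q) {t : ℂ} (ht : 0 < t.re) :
    ‖(e : ℂ) * log (Qk κ t)‖ ≤ rz e κ t + |yz e κ t| + e * Real.sinh κ ^ 2 / 2 := by
  have he := C.e0
  have hκ := C.κ0
  have hr0 := rz_pos he hκ ht
  have hc1 := Real.one_le_cosh κ
  have hcx : Convex ℝ {z : ℂ | 1 ≤ z.re} := convex_halfSpace_re_ge 1
  have hQ1 : Qk κ t ∈ {z : ℂ | 1 ≤ z.re} := by
    show 1 ≤ (Qk κ t).re
    rw [Q_re he]
    have : 0 < rz e κ t / e := by positivity
    linarith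
  have h11 : (1 : ℂ) ∈ {z : ℂ | 1 ≤ z.re} := by show 1 ≤ (1:ℂ).re; simp
  have hslit : ∀ z ∈ {z : ℂ | 1 ≤ z.re}, z ∈ slitPlane := fun z hz => by
    rw [mem_slitPlane_iff]; left
    have : (1:ℝ) ≤ z.re := hz
    linarith
  have h1 := Convex.norm_image_sub_le_of_norm_deriv_le (f := log) (C := 1)
    (fun z hz => (differentiableAt_log (hslit z hz)))
    (fun z hz => by
      rw [(hasDerivAt_log (hslit z hz)).deriv, norm_inv]
      apply inv_le_one_of_one_le₀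
      exact le_trans (show (1:ℝ) ≤ z.re from hz) (Complex.re_le_norm z)) hcx h11 hQ1
  rw [Complex.log_one, sub_zero, one_mul] at h1
  rw [norm_mul, Complex.norm_real, Real.norm_of_nonneg he.le]
  have h2 : ‖Qk κ t - 1‖ ≤ Real.sinh κ ^ 2 / 2 + rz e κ t / e + |yz e κ t| / e := by
    refine (Complex.norm_le_abs_re_add_abs_im _).trans ?_
    rw [Complex.sub_re, Complex.sub_im, Complex.one_re, Complex.one_im, sub_zero, Q_re he, Q_im he,
      abs_div, abs_of_pos he]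
    have h3 : 0 < rz e κ t / e := by positivity
    rw [abs_of_nonneg (by linarith)]
    have := cosh_le' κ
    linarith
  calc e * ‖log (Qk κ t)‖ ≤ e * (Real.sinh κ ^ 2 / 2 + rz e κ t / e + |yz e κ t| / e) :=
        mul_le_mul_of_nonneg_left (h1.trans h2) he.le
    _ = _ := by field_simp; ring

private theorem fin_ar {a c A u v z d X Yt q2 q : ℝ} (h1 : q2 + u + a * (1 / 2 + 2 * c) ≤ q)
    (h2 : d + (A + v) * c + A / 6 + X + Yt ≤ 1 - q) (h3 : z * c ≤ v * c) (h4 : 0 < d) :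
    q2 + (a / 2 + (A + 2 * a + z) * c + A / 6 + (u + (Yt + X))) ≤ 1 := by
  linarith

/-- **Contraction.** -/
theorem qq_sup (C : MC e κ Y w p q) {t : ℂ} (ht : 0 < t.re) (hy : |yz e κ t| ≤ Y)
    (hr : rz e κ t ^ 2 ≤ 9 / 10 * Sz e κ t) {ρ q2 : ℝ} (hρ : rz e κ t ≤ ρ) (_hq0 : 0 ≤ q2)
    (hq2 : q2 + 8 / e + ρ * (1 / 2 + 2 * w ^ 2) / e ≤ q) :
    ‖qq e κ t‖ ≤ Real.exp (-(q2 * rz e κ t)) := by
  have he := C.e0
  have hκ := C.κ0
  have he200 := C.e200
  have hr0 := rz_pos he hκ ht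
  have hS0 := C.S0 t
  rw [qq_exp he hκ ht, Complex.norm_exp, Complex.neg_re]
  apply Real.exp_le_exp.2
  rw [neg_le_neg_iff]
  have hep := ep_le C hy hr
  have hep0 := ep_nonneg he hκ ht
  have hls := ls_sup C ht hy hr
  have h7 : (Sz e κ t / e + 21 / 10 * rz e κ t) / e = ep e κ t := rfl
  rw [h7] at hls
  have hP := C.P0 ht
  have hpos : 0 < (1 - ep e κ t) * Ps e κ p q t := mul_pos (by linarith) hP
  have hSr : 0 < Sz e κ t + rz e κ t ^ 2 := by positivity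
  obtain ⟨ls, hlsd⟩ : ∃ ls, ls = (Sz e κ t + rz e κ t ^ 2) / e / ((1 - ep e κ t) * Ps e κ p q t) :=
    ⟨_, rfl⟩
  have hls' : ‖log (fT e κ t) - log (fT e κ (shf κ t))‖ ≤ ls := by
    rw [hlsd]
    refine hls.trans ?_
    exact div_le_div_of_nonneg_right (Vz_le he hκ t) hpos.le
  have hls0 : 0 ≤ ls := (norm_nonneg _).trans hls'
  have h1 := pick_ge C ht
  have h2 := Pl_sub t hls'
  have h3 := arg_ge C ht hy
  have h4 := L_re_ge C ht
  have h5 := L_norm_le C ht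
  have hre := C.re95 hy hr
  have hK := C.K1
  have hK0 := C.K0
  have hysq := y_sq C hy
  obtain ⟨L, hL⟩ : ∃ L, L = (e : ℂ) * log (Qk κ t) := ⟨_, rfl⟩
  rw [← hL] at h2 h3 h4 h5
  -- |L|²
  obtain ⟨δ, hδ⟩ : ∃ δ, δ = Real.sinh κ ^ 2 / 2 + rz e κ t / e + 16 / e ^ 2 := ⟨_, rfl⟩
  have h8e : 16 / e ^ 2 ≤ 2 / (25 * e) := by
    rw [div_le_div_iff₀ (by positivity) (by positivity)]
    nlinarith only [he200, he]
  have h25 : 2 / (25 * e) ≤ 1 / 2500 := by
    rw [div_le_div_iff₀ (by positivity) (by norm_num)]; linarith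
  have hδ1 : δ ≤ 1 := by
    have hK2 : Real.sinh κ ^ 2 ≤ (1 / 10) ^ 2 := pow_le_pow_left₀ hK0.le hK 2
    rw [hδ]
    linarith only [hK2, hre, h8e, h25]
  have hδ0 : 0 ≤ δ := by rw [hδ]; positivity
  rw [← hδ] at h3
  have hL2 : ‖L‖ ^ 2 = L.re ^ 2 + L.im ^ 2 := by
    rw [Complex.sq_norm, Complex.normSq_apply]; ring
  have hLre : rz e κ t ^ 2 - rz e κ t ^ 3 / e ≤ L.re ^ 2 := by
    have e1 : 0 ≤ rz e κ t - rz e κ t ^ 2 / (2 * e) := by
      have : rz e κ t - rz e κ t ^ 2 / (2 * e) = rz e κ t * (1 - rz e κ t / e / 2) := by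
        field_simp
      rw [this]
      exact mul_nonneg hr0.le (by linarith)
    have e2 := pow_le_pow_left₀ e1 h4 2
    have e3 : (rz e κ t - rz e κ t ^ 2 / (2 * e)) ^ 2 =
        rz e κ t ^ 2 - rz e κ t ^ 3 / e + (rz e κ t ^ 2 / (2 * e)) ^ 2 := by field_simp; ring
    rw [e3] at e2
    linarith only [e2, sq_nonneg (rz e κ t ^ 2 / (2 * e))]
  have hLim : (1 - 2 * δ) * yz e κ t ^ 2 ≤ L.im ^ 2 := by
    have e1 : 0 ≤ |yz e κ t| * (1 - δ) := mul_nonneg (abs_nonneg _) (by linarith)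
    have e2 := pow_le_pow_left₀ e1 h3 2
    rw [sq_abs, mul_pow, sq_abs] at e2
    linarith only [e2, mul_nonneg (sq_nonneg (yz e κ t)) (sq_nonneg δ)]
  have hPl : ‖L‖ ^ 2 - 2 * ‖L‖ * ls ≤ ‖Pl e κ t‖ ^ 2 := by
    have e1 : ‖L‖ - ls ≤ ‖Pl e κ t‖ := by
      have := norm_sub_norm_le L (Pl e κ t)
      rw [norm_sub_rev] at this
      linarith
    have e2 := norm_nonneg L
    have e3 := norm_nonneg (Pl e κ t)
    rcases le_or_gt ls ‖L‖ with e4 | e4
    · have e5 := mul_self_le_mul_self (sub_nonneg.2 e4) e1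
      linarith only [e5, sq_nonneg ls]
    · linarith only [mul_nonneg e2 (sub_nonneg.2 e4.le), mul_nonneg e2 hls0,
        sq_nonneg ‖Pl e κ t‖]
  obtain ⟨T, hT⟩ : ∃ T, T = Sz e κ t + rz e κ t ^ 2 := ⟨_, rfl⟩
  have hT0 : 0 < T := by rw [hT]; exact hSr
  have hST : Sz e κ t ≤ T := by rw [hT]; linarith only [sq_nonneg (rz e κ t)]
  -- the terms
  have hβS : bet e κ ^ 2 ≤ Sz e κ t := by unfold Sz; linarith only [sq_nonneg (yz e κ t)]
  have t1 : rz e κ t ^ 3 / e ≤ T * (rz e κ t / e / 2) := by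
    have e1 : 2 * rz e κ t ^ 2 ≤ T := by rw [hT]; linarith
    have e2 : rz e κ t ^ 3 / e = (2 * rz e κ t ^ 2) * (rz e κ t / e / 2) := by field_simp
    rw [e2]
    gcongr
  have t2 : 2 * δ * yz e κ t ^ 2 ≤
      T * ((Real.sinh κ ^ 2 + 2 * (rz e κ t / e) + 4 / (25 * e)) * w ^ 2) := by
    have e1 : 2 * δ ≤ Real.sinh κ ^ 2 + 2 * (rz e κ t / e) + 4 / (25 * e) := by
      have : 4 / (25 * e) = 2 * (2 / (25 * e)) := by ring
      rw [hδ, this]; linarith
    calc 2 * δ * yz e κ t ^ 2 ≤ (Real.sinh κ ^ 2 + 2 * (rz e κ t / e) + 4 / (25 * e)) *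
          (w ^ 2 * Sz e κ t) := by gcongr
      _ ≤ (Real.sinh κ ^ 2 + 2 * (rz e κ t / e) + 4 / (25 * e)) * (w ^ 2 * T) := by gcongr
      _ = _ := by ring
  have t3 : bet e κ ^ 2 * (Real.sinh κ ^ 2 / 6) ≤ T * (Real.sinh κ ^ 2 / 6) := by
    have := hβS.trans hST
    gcongr
  have hb0 := Bs_pos (C.s0 t)
  have hb62 := C.b62 hy
  have hbsq := Bs_sq (C.s0 t)
  have hyb := yb_le C hy
  have hPd : Ps e κ p q t = Bs (p * (Sz e κ t / e)) + q * rz e κ t / 2 := rfl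
  have hSe := C.Se hy
  have hepd : ep e κ t = (Sz e κ t / e + 21 / 10 * rz e κ t) / e := rfl
  have hu0 : 0 < Sz e κ t / e := div_pos hS0 he
  obtain ⟨b, hb⟩ : ∃ b, b = Bs (p * (Sz e κ t / e)) := ⟨_, rfl⟩
  rw [← hb] at hb0 hb62 hbsq hyb hPd
  have hp6 := C.p6
  have hq7 := C.q7
  have ub : Sz e κ t / e ≤ 6 * b := by
    have e1 : (1 - b) * (p * (Sz e κ t / e)) ≥ 19 / 50 * (3 / 5 * (Sz e κ t / e)) := by
      have : 19 / 50 ≤ 1 - b := by linarith
      gcongr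
    linarith only [e1, hbsq, hb0, mul_le_mul_of_nonneg_right hb62 hb0.le]
  have ta : 2 * rz e κ t + Sz e κ t / e ≤ 8 * ((1 - ep e κ t) * Ps e κ p q t) := by
    have e1 : 79 / 100 * Ps e κ p q t ≤ (1 - ep e κ t) * Ps e κ p q t := by
      apply mul_le_mul_of_nonneg_right _ hP.le
      linarith
    rw [hPd] at e1 ⊢
    linarith only [e1, ub, mul_le_mul_of_nonneg_right hq7 hr0.le, hb0, hr0]
  have tb : b ≤ ((1 - ep e κ t) * Ps e κ p q t) * (1 + 16 / e) := by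
    have e16 : 0 < 16 / e := by positivity
    have e1 : (1 - ep e κ t) * (1 + 16 / e) ≥ 1 + 10 / e - 21 / 10 * (rz e κ t / e) := by
      have e2 : ep e κ t ≤ 2 / e + 21 / 10 * (rz e κ t / e) := by
        rw [hepd]
        have : (Sz e κ t / e + 21 / 10 * rz e κ t) / e = (Sz e κ t / e) / e +
          21 / 10 * (rz e κ t / e) := by ring
        rw [this]
        have : (Sz e κ t / e) / e ≤ 2 / e := by gcongr
        linarith
      have e3 : ep e κ t * (16 / e) ≤ 21 / 100 * (16 / e) := by gcongr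
      have e4 : (16 : ℝ) / e = 16 * (1 / e) := by ring
      have e5 : (2 : ℝ) / e = 2 * (1 / e) := by ring
      have e6 : (10 : ℝ) / e = 10 * (1 / e) := by ring
      have e7 : 0 < 1 / e := by positivity
      rw [e4] at e3 ⊢
      rw [e5] at e2
      rw [e6]
      linarith only [e2, e3, e7]
    have e10 : 0 < 10 / e := by positivity
    have e2 : 79 / 100 ≤ (1 - ep e κ t) * (1 + 16 / e) := by
      have f1 : 0 ≤ 1 - ep e κ t := by linarith
      linarith only [hep, mul_nonneg f1 e16.le]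
    have e3 : ((1 - ep e κ t) * Ps e κ p q t) * (1 + 16 / e) =
        ((1 - ep e κ t) * (1 + 16 / e)) * b +
          ((1 - ep e κ t) * (1 + 16 / e)) * (q * rz e κ t / 2) := by rw [hPd]; ring
    rw [e3]
    have e4 : (1 + 10 / e - 21 / 10 * (rz e κ t / e)) * b ≤
        ((1 - ep e κ t) * (1 + 16 / e)) * b := mul_le_mul_of_nonneg_right e1 hb0.le
    have e5 : 79 / 100 * (q * rz e κ t / 2) ≤
        ((1 - ep e κ t) * (1 + 16 / e)) * (q * rz e κ t / 2) := by gcongr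
    have e6 : rz e κ t / e * b ≤ rz e κ t / 200 * (31 / 50) := by
      have : rz e κ t / e ≤ rz e κ t / 200 := by gcongr
      gcongr
    have e7 : 7 / 10 * rz e κ t ≤ q * rz e κ t := by gcongr
    linarith only [e4, e5, e6, e7, mul_pos e10 hb0, hr0]
  have tL : 2 * ‖L‖ * ls ≤ T * (8 / e + (17 * Y / (5 * e) + 2 * w * √(2 / (p * e)) * (1 + 16 / e))) := by
    obtain ⟨X, hX⟩ : ∃ X, X = w * √(2 / (p * e)) := ⟨_, rfl⟩
    have hX0 : 0 ≤ X := by rw [hX]; exact mul_nonneg C.w0 (Real.sqrt_nonneg _)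
    have f4 : 2 * w * √(2 / (p * e)) = 2 * X := by rw [hX]; ring
    rw [← hX] at hyb
    rw [f4]
    obtain ⟨G, hG⟩ : ∃ G, G = (1 - ep e κ t) * Ps e κ p q t := ⟨_, rfl⟩
    rw [← hG] at ta tb hlsd hpos
    have e1 : 2 * ‖L‖ ≤ 2 * rz e κ t + Sz e κ t / e + 2 * |yz e κ t| := by
      have e2 : e * Real.sinh κ ^ 2 ≤ Sz e κ t / e := by
        rw [le_div_iff₀ he]
        calc e * Real.sinh κ ^ 2 * e = bet e κ ^ 2 := by unfold bet; ring
          _ ≤ _ := hβS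
      linarith
    have e3 : ls = T * (1 / (e * G)) := by rw [hlsd, hT]; field_simp
    have e4 : (2 * rz e κ t + Sz e κ t / e) * (1 / (e * G)) ≤ 8 / e := by
      rw [mul_one_div, div_le_div_iff₀ (by positivity) he]
      linarith only [mul_le_mul_of_nonneg_right ta he.le]
    have e5 : 2 * |yz e κ t| * (1 / (e * G)) ≤ 2 * (|yz e κ t| / e * b⁻¹) * (1 + 16 / e) := by
      have e6 : 1 / G ≤ b⁻¹ * (1 + 16 / e) := by
        rw [inv_mul_eq_div, div_le_div_iff₀ hpos hb0]; linarith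
      calc 2 * |yz e κ t| * (1 / (e * G)) = 2 * (|yz e κ t| / e) * (1 / G) := by field_simp
        _ ≤ 2 * (|yz e κ t| / e) * (b⁻¹ * (1 + 16 / e)) := by gcongr
        _ = _ := by ring
    have e16 : 16 / e ≤ 2 / 25 := by rw [div_le_div_iff₀ he (by norm_num)]; linarith
    have e160 : 0 ≤ 16 / e := by positivity
    have hYe : 0 ≤ Y / e := div_nonneg C.Y0 he.le
    have e7 : 2 * (|yz e κ t| / e * b⁻¹) * (1 + 16 / e) ≤
        17 * Y / (5 * e) + 2 * X * (1 + 16 / e) := by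
      have e8 : 2 * (|yz e κ t| / e * b⁻¹) * (1 + 16 / e) ≤
          2 * (5 / 8 * (Y / e) + X) * (1 + 16 / e) := by gcongr
      have e9 : 2 * (5 / 8 * (Y / e) + X) * (1 + 16 / e) =
        2 * (5 / 8 * (Y / e)) * (1 + 16 / e) + 2 * X * (1 + 16 / e) := by ring
      have e10 : 2 * (5 / 8 * (Y / e)) * (1 + 16 / e) ≤ 2 * (5 / 8 * (Y / e)) * (27 / 25) := by
        gcongr
        linarith
      have e11 : 17 * Y / (5 * e) = 17 / 5 * (Y / e) := by field_simp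
      rw [e11]
      linarith
    have e12 : 0 ≤ 1 / (e * G) := by positivity
    calc 2 * ‖L‖ * ls = T * (2 * ‖L‖ * (1 / (e * G))) := by rw [e3]; ring
      _ ≤ T * ((2 * rz e κ t + Sz e κ t / e + 2 * |yz e κ t|) * (1 / (e * G))) := by gcongr
      _ = T * ((2 * rz e κ t + Sz e κ t / e) * (1 / (e * G)) + 2 * |yz e κ t| * (1 / (e * G))) := by
          ring
      _ ≤ _ := mul_le_mul_of_nonneg_left (by linarith) hT0.le
  have hhq := C.hq
  have hSd : Sz e κ t = bet e κ ^ 2 + yz e κ t ^ 2 := rfl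
  have hmain : q2 * T ≤ ‖Pl e κ t‖ ^ 2 + bet e κ ^ 2 * (1 - Real.sinh κ ^ 2 / 6) := by
    have g1 : T * (q2 + (rz e κ t / e / 2 +
        (Real.sinh κ ^ 2 + 2 * (rz e κ t / e) + 4 / (25 * e)) * w ^ 2 + Real.sinh κ ^ 2 / 6 +
        (8 / e + (17 * Y / (5 * e) + 2 * w * √(2 / (p * e)) * (1 + 16 / e))))) ≤ T * 1 := by
      apply mul_le_mul_of_nonneg_left _ hT0.le
      have g2 : rz e κ t / e * (1 / 2 + 2 * w ^ 2) ≤ ρ * (1 / 2 + 2 * w ^ 2) / e := by
        calc rz e κ t / e * (1 / 2 + 2 * w ^ 2) ≤ ρ / e * (1 / 2 + 2 * w ^ 2) := by gcongr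
          _ = _ := by ring
      have g3 : 4 / (25 * e) * w ^ 2 ≤ 21 / (5 * e) * w ^ 2 := by
        apply mul_le_mul_of_nonneg_right _ (sq_nonneg w)
        rw [div_le_div_iff₀ (by positivity) (by positivity)]
        linarith only [he]
      have g4 : 0 < 2 / e := by positivity
      exact fin_ar (by linarith only [g2, hq2]) hhq g3 g4
    have g5 : T * (q2 + (rz e κ t / e / 2 +
        (Real.sinh κ ^ 2 + 2 * (rz e κ t / e) + 4 / (25 * e)) * w ^ 2 + Real.sinh κ ^ 2 / 6 +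
        (8 / e + (17 * Y / (5 * e) + 2 * w * √(2 / (p * e)) * (1 + 16 / e))))) =
        T * q2 + T * (rz e κ t / e / 2) +
        T * ((Real.sinh κ ^ 2 + 2 * (rz e κ t / e) + 4 / (25 * e)) * w ^ 2) +
        T * (Real.sinh κ ^ 2 / 6) +
        T * (8 / e + (17 * Y / (5 * e) + 2 * w * √(2 / (p * e)) * (1 + 16 / e))) := by ring
    rw [g5] at g1
    have g6 : T = bet e κ ^ 2 + yz e κ t ^ 2 + rz e κ t ^ 2 := by rw [hT, hSd]
    linarith only [g1, g6, t1, t2, t3, tL, hPl, hL2, hLre, hLim]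
  rw [← hT] at h1
  have h12 : rz e κ t * (q2 * T) ≤ (Pl e κ t).re * T :=
    (mul_le_mul_of_nonneg_left hmain hr0.le).trans h1
  have h14 : q2 * rz e κ t * T ≤ (Pl e κ t).re * T := by linarith only [h12]
  exact le_of_mul_le_mul_right h14 hT0

end Pool.Agent.helper31.EQB
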