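import Pool.Agent.helper31.EQB.Zc

/-!
# EQB-4: the closed bound `M ≤ 1/Ψ`

`Ψ(t) = b + q r/2`, `b = Bs (p S/e)`, `r = Re z`, `y = Im z`, `z = β t`, `S = β² + y²`, `c = cosh κ`,
`Q = Qk κ t = c + z/e`, `t⁺ = shf κ t`.

FACTS.  `z⁺ = e (c - 1/Q)` (that is `K shf t = c - 1/Q`), so `y⁺ = y/|Q|²`, `r⁺ = e (c - Re Q/|Q|²)`,
`z⁺ - z = (β² - z²)/(e Q)`, `|Q|² - 1 = S/e² + (2 c r + r²/e)/e`, and
`r⁺ - r = ((S - r²) Re Q - 2 r y²/e)/(e |Q|²)`.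
`Bs`: `1/b = 1/2 + √(1/4 + 2/s)`, `1 - b = 2 b²/s`, increasing, `Bs (λ s) ≥ √λ Bs s` for `0 ≤ λ ≤ 1`,
`1/b ≤ 5/8 + √(2/s)` for `s ≤ 2`, `b ≤ 0.62`, `b² ≤ s/2`.
Schwarz-Pick (helper12 `Pl_pick_one`): `t.re (|Pl|² + (eκ)²) ≤ eκ (|t|² + 1) Re Pl`, `‖qq t‖ = exp (-Re Pl)`,
`Pl = e log Q ± (log f t - log f t⁺)`.

PROOF of `MB_sup`: induction on `N` for: all `t` with `0 < Re t`, `|y| ≤ Y`,
`2 * 0.62 - N v0 ≤ r` have `MB Ψ⁻¹`; `v0 = β²/(2 e)`.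
* `r ≥ 2 b(t)`: `MB_harn` with `M = 1/r ≤ 1/Ψ` (`q ≤ 1`).
* `r < 2 b(t)`: then `r² < 4 b² ≤ 2 S/e`, `r ≤ 1.24`.
  `y⁺ ≥ y (1 - ε)`, `ε = (S/e + 2.02 r)/e ≤ 4.5/e`; `r⁺ - r ≥ (S/e)(1 - K²/2 - 5.85/e) ≥ v0`;
  `b⁺ ≥ b (1 - ε)`, `b ε ≤ (S/e)(0.62 + 2.02 p)/e`; hence
  `D = Ψ⁺ - Ψ ≥ (q S/(2e)) (1 - K²/2 - 12/e) ≥ p S/(2e) = s/2` (uses `q ≥ 0.7`).
  `ls := |log f t - log f t⁺| ≤ |z - z⁺| sup_{z' in the segment} M(z')` (`lf_sub`), and for `z'` in the segment: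
  if `r' ≥ 2 b'` then `M ≤ 1/r' ≤ 1/Ψ(z') ≤ 1/(b (1 - 4.5/e))`; else `MB_rec1` (`‖qq‖ ≤ 1`) with the
  induction hypothesis at `shf z'` (its `r` is `≥ r' + v0 ≥ r + v0`, its `y` is `≥ y (1 - 4.5/e)²`):
  `M ≤ 1 + 1/(b (1 - 9/e))`.  `|z - z⁺| ≤ (S + r²)/e ≤ (S/e)(1 + 2/e)`.
  `|Pl| ≥ |Im Pl| ≥ e |arg Q| - ls`, `e |arg Q| ≥ |y| (1 - K²/2 - 1.27/e)`, so
  `|Pl|² ≥ y² (1 - K² - 2.54/e) - 2 |y| ls`, and with `e² κ K ≥ β² (1 - K²/6)`, `S + r² ≤ S (1 + 2/e)`: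
  `Re Pl ≥ r (1 - 2/e - (K² + 2.54/e) y²/S - K²/6 - 2 |y| ls/S) ≥ q r`
  (`y²/S ≤ w²`, `2 |y| ls/S ≤ 3.4 Y/e + 2 w √(2/(p e)) (1 + 16/e)`).
  `MB_rec` at `t`: `MB (exp (-q r)(1 + 1/Ψ⁺)) t` and `exp (-q r) (1 + 1/Ψ⁺) ≤ 1/Ψ` because
  `Ψ (1 + Ψ⁺) ≤ (1 + q r) Ψ⁺ ⟺ 0 ≤ D + (q r/2 - b)(b + q r/2 + D) = D (1 - b + q r/2) + q² r²/4 - b²` and
  `D (1 - b) ≥ (1 - b) s/2 = b²`.
-/

namespace Pool.Agent.helper31.EQB

open Complex ComplexConjugate Set Filter Topology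
open Pool.Agent.helper31.EQ.Y Pool.Agent.helper31.EQ.R
open Pool.Agent.helper12.EQL Pool.Agent.helper12.RP Pool.Agent.helper12.FF

variable {e κ Y w p q : ℝ}

/-! ### `Bs` -/

theorem Bs_pos {s : ℝ} (hs : 0 < s) : 0 < Bs s := by
  unfold Bs
  positivity

theorem Bs_inv (s : ℝ) : (Bs s)⁻¹ = 1 / 2 + √(1 / 4 + 2 / s) := by
  unfold Bs
  rw [inv_inv]

theorem Bs_sq {s : ℝ} (hs : 0 < s) : Bs s ^ 2 = (1 - Bs s) * s / 2 := by
  have h0 : 0 ≤ 1 / 4 + 2 / s := by positivity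
  have h1 := Real.sq_sqrt h0
  have h2 : (0:ℝ) < 1 / 2 + √(1 / 4 + 2 / s) := by positivity
  unfold Bs
  obtain ⟨a, ha⟩ : ∃ a, a = 1 / 2 + √(1 / 4 + 2 / s) := ⟨_, rfl⟩
  rw [← ha] at h2 ⊢
  have h3 : √(1 / 4 + 2 / s) = a - 1 / 2 := by linarith
  rw [h3] at h1
  have h4 : a * (a - 1) * s = 2 := by
    have : a * (a - 1) = 2 / s := by nlinarith
    rw [this]; field_simp
  have h5 : (a⁻¹ : ℝ) * a = 1 := inv_mul_cancel₀ h2.ne'
  have h6 : a ^ 2 * (a⁻¹ ^ 2 - (1 - a⁻¹) * s / 2) = 0 := by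
    have e1 : a ^ 2 * (a⁻¹ ^ 2 - (1 - a⁻¹) * s / 2) = (a⁻¹ * a) ^ 2 - a * (a - a⁻¹ * a) * s / 2 := by
      ring
    rw [e1, h5]
    linarith
  have h7 : a ^ 2 ≠ 0 := by positivity
  have h8 := (mul_eq_zero.1 h6).resolve_left h7
  linarith

theorem Bs_le {s : ℝ} (hs : 0 < s) (h2 : s ≤ 2) : Bs s ≤ 31 / 50 := by
  unfold Bs
  rw [inv_le_comm₀ (by positivity) (by norm_num)]
  have h3 : (1118 / 1000 : ℝ) ≤ √(1 / 4 + 2 / s) := by
    apply Real.le_sqrt_of_sq_le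
    have : 1 ≤ 2 / s := by rw [le_div_iff₀ hs]; linarith
    norm_num
    linarith
  have h4 : ((31 / 50 : ℝ))⁻¹ ≤ 1613 / 1000 := by norm_num
  linarith

theorem Bs_lt_one {s : ℝ} (hs : 0 < s) : Bs s < 1 := by
  unfold Bs
  apply inv_lt_one_of_one_lt₀
  have h3 : (1 / 2 : ℝ) < √(1 / 4 + 2 / s) := by
    apply Real.lt_sqrt_of_sq_lt
    have : 0 < 2 / s := by positivity
    linarith
  linarith

theorem Bs_scale {s s' l : ℝ} (hs : 0 < s) (hs' : 0 < s') (hl0 : 0 ≤ l) (hl1 : l ≤ 1)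
    (h : l ^ 2 * s ≤ s') : l * Bs s ≤ Bs s' := by
  rcases eq_or_lt_of_le hl0 with h0 | h0
  · rw [← h0, zero_mul]
    exact (Bs_pos hs').le
  have h1 : (Bs s')⁻¹ ≤ (l * Bs s)⁻¹ := by
    rw [mul_inv, Bs_inv, Bs_inv]
    have h2 : √(1 / 4 + 2 / s') ≤ l⁻¹ * √(1 / 4 + 2 / s) := by
      apply Real.sqrt_le_iff.2
      refine ⟨by positivity, ?_⟩
      rw [mul_pow, Real.sq_sqrt (by positivity), inv_pow]
      have h3 : 2 / s' ≤ (l ^ 2)⁻¹ * (2 / s) := by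
        rw [inv_mul_eq_div, div_div, div_le_div_iff₀ hs' (by positivity)]
        nlinarith
      have h4 : 1 / 4 ≤ (l ^ 2)⁻¹ * (1 / 4) := by
        have : 1 ≤ (l ^ 2)⁻¹ := (one_le_inv₀ (by positivity)).2 (pow_le_one₀ hl0 hl1)
        linarith
      rw [mul_add]
      linarith
    have h5 : 1 ≤ l⁻¹ := (one_le_inv₀ h0).2 hl1
    rw [mul_add]
    linarith
  exact (inv_le_inv₀ (Bs_pos hs') (mul_pos h0 (Bs_pos hs))).1 h1

theorem Bs_inv_le {s : ℝ} (hs : 0 < s) (h2 : s ≤ 2) : (Bs s)⁻¹ ≤ 5 / 8 + √(2 / s) := by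
  rw [Bs_inv]
  have h1 : 1 ≤ 2 / s := by rw [le_div_iff₀ hs]; linarith
  have h3 : 1 ≤ √(2 / s) := by
    rw [Real.one_le_sqrt]; exact h1
  have h4 := Real.sq_sqrt (by positivity : 0 ≤ 2 / s)
  have h5 : √(1 / 4 + 2 / s) ≤ 1 / 8 + √(2 / s) := by
    apply Real.sqrt_le_iff.2
    refine ⟨by positivity, ?_⟩
    nlinarith
  linarith

/-! ### `κ` and `sinh κ` -/

theorem sinh_cube (hκ : 0 ≤ κ) : Real.sinh κ - Real.sinh κ ^ 3 / 6 ≤ κ := by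
  have hmono : MonotoneOn (fun x : ℝ => x - Real.sinh x + Real.sinh x ^ 3 / 6) (Ici 0) := by
    apply monotoneOn_of_deriv_nonneg (convex_Ici 0)
    · fun_prop
    · fun_prop
    · intro x hx
      rw [interior_Ici] at hx
      have hd : HasDerivAt (fun x : ℝ => x - Real.sinh x + Real.sinh x ^ 3 / 6)
          (1 - Real.cosh x + (3 * Real.sinh x ^ 2 * Real.cosh x) / 6) x := by
        have h1 := (Real.hasDerivAt_sinh x)
        have h2 := (h1.pow 3).div_const 6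
        have h3 := ((hasDerivAt_id x).sub h1).add h2
        refine h3.congr_deriv ?_
        norm_num
      rw [hd.deriv]
      have hc := Real.one_le_cosh x
      have hs := Real.sinh_sq x
      rw [hs]
      nlinarith [mul_nonneg (sub_nonneg.2 hc) (sub_nonneg.2 hc), mul_nonneg (mul_nonneg (sub_nonneg.2 hc) (sub_nonneg.2 hc)) (sub_nonneg.2 hc)]
  have h := hmono (Set.mem_Ici.2 (le_refl (0:ℝ))) (show κ ∈ Ici (0:ℝ) from hκ) hκ
  simp only [Real.sinh_zero] at h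
  norm_num at h
  linarith

theorem cosh_le' (κ : ℝ) :
    Real.cosh κ ≤ 1 + Real.sinh κ ^ 2 / 2 := by
  have h1 := Real.cosh_sq κ
  have h2 := Real.one_le_cosh κ
  nlinarith [sq_nonneg (Real.sinh κ ^ 2)]

/-! ### geometry -/

theorem bet_pos (he : 0 < e) (hκ : 0 < κ) : 0 < bet e κ := mul_pos he (Real.sinh_pos_iff.2 hκ)

theorem rz_pos (he : 0 < e) (hκ : 0 < κ) {t : ℂ} (ht : 0 < t.re) : 0 < rz e κ t :=
  mul_pos (bet_pos he hκ) ht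

theorem Sz_pos (he : 0 < e) (hκ : 0 < κ) (t : ℂ) : 0 < Sz e κ t := by
  unfold Sz
  have := bet_pos he hκ
  positivity

theorem Q_re (he : 0 < e) (t : ℂ) : (Qk κ t).re = Real.cosh κ + rz e κ t / e := by
  unfold Qk rz bet
  rw [Complex.add_re, Complex.ofReal_re, Complex.re_ofReal_mul]
  field_simp

theorem Q_im (he : 0 < e) (t : ℂ) : (Qk κ t).im = yz e κ t / e := by
  unfold Qk yz bet
  rw [Complex.add_im, Complex.ofReal_im, Complex.im_ofReal_mul, zero_add]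
  field_simp

theorem Q_sq (he : 0 < e) (t : ℂ) :
    ‖Qk κ t‖ ^ 2 = 1 + (Sz e κ t / e + (2 * Real.cosh κ * rz e κ t + rz e κ t ^ 2 / e)) / e := by
  rw [Complex.sq_norm, Complex.normSq_apply, Q_re he, Q_im he]
  have h1 := Real.cosh_sq κ
  unfold Sz bet
  field_simp
  linear_combination (e ^ 2) * h1

theorem K_shf (hκ : 0 < κ) {t : ℂ} (ht : 0 < t.re) :
    (Real.sinh κ : ℂ) * shf κ t = (Real.cosh κ : ℂ) - (Qk κ t)⁻¹ := by
  have hd := shf_den hκ ht.le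
  have hC0 : (Real.cosh κ : ℂ) ≠ 0 := by exact_mod_cast (Real.cosh_pos κ).ne'
  have hT : (Real.tanh κ : ℂ) = (Real.sinh κ : ℂ) / (Real.cosh κ : ℂ) := by
    rw [Real.tanh_eq_sinh_div_cosh]; push_cast; rfl
  have hQ : Qk κ t = (Real.cosh κ : ℂ) * (1 + (Real.tanh κ : ℂ) * t) := by
    rw [Qk, hT]; field_simp
  have h3 : (Real.cosh κ : ℂ) ^ 2 - (Real.sinh κ : ℂ) ^ 2 = 1 := by
    have := Real.cosh_sq κ
    exact_mod_cast (by linarith : Real.cosh κ ^ 2 - Real.sinh κ ^ 2 = 1)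
  have hQ0 := Qk_ne hκ ht
  have hS : shf κ t = (t + (Real.tanh κ : ℂ)) * (Real.cosh κ : ℂ) / Qk κ t := by
    unfold shf
    rw [hQ, mul_comm (Real.cosh κ : ℂ), mul_div_mul_right _ _ hC0]
  rw [hS, hT]
  field_simp
  unfold Qk
  linear_combination -h3

theorem rz_shf (_he : 0 < e) (hκ : 0 < κ) {t : ℂ} (ht : 0 < t.re) :
    rz e κ (shf κ t) = e * (Real.cosh κ - (Qk κ t).re / ‖Qk κ t‖ ^ 2) := by
  have h := congrArg Complex.re (K_shf hκ ht)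
  rw [Complex.re_ofReal_mul, Complex.sub_re, Complex.ofReal_re, Complex.inv_re,
    Complex.normSq_eq_norm_sq] at h
  unfold rz bet
  rw [mul_assoc, h]

theorem yz_shf (he : 0 < e) (hκ : 0 < κ) {t : ℂ} (ht : 0 < t.re) :
    yz e κ (shf κ t) = yz e κ t / ‖Qk κ t‖ ^ 2 := by
  have h := congrArg Complex.im (K_shf hκ ht)
  rw [Complex.im_ofReal_mul, Complex.sub_im, Complex.ofReal_im, Complex.inv_im,
    Complex.normSq_eq_norm_sq, Q_im he] at h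
  have h2 : yz e κ (shf κ t) = e * (Real.sinh κ * (shf κ t).im) := by
    unfold yz bet; ring
  rw [h2, h]
  field_simp
  ring

theorem rz_shf_sub (he : 0 < e) (hκ : 0 < κ) {t : ℂ} (ht : 0 < t.re) :
    rz e κ (shf κ t) - rz e κ t =
      ((Sz e κ t - rz e κ t ^ 2) * (Real.cosh κ + rz e κ t / e) - 2 * rz e κ t * yz e κ t ^ 2 / e) /
        (e * ‖Qk κ t‖ ^ 2) := by
  have hQ0 : 0 < ‖Qk κ t‖ := norm_pos_iff.2 (Qk_ne hκ ht)
  rw [rz_shf he hκ ht, Q_re he]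
  have h1 := Q_sq (κ := κ) he t
  have h2 : Real.cosh κ ^ 2 = Real.sinh κ ^ 2 + 1 := Real.cosh_sq κ
  have hS : Sz e κ t = e ^ 2 * Real.sinh κ ^ 2 + yz e κ t ^ 2 := by unfold Sz bet; ring
  rw [eq_div_iff (by positivity)]
  have h3 : (e * (Real.cosh κ - (Real.cosh κ + rz e κ t / e) / ‖Qk κ t‖ ^ 2) - rz e κ t) *
      (e * ‖Qk κ t‖ ^ 2) = e * ((e * Real.cosh κ - rz e κ t) * ‖Qk κ t‖ ^ 2 -
        e * (Real.cosh κ + rz e κ t / e)) := by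
    field_simp
    ring
  rw [h3, h1, hS]
  field_simp
  have h4 : Real.sinh κ ^ 2 = Real.cosh κ ^ 2 - 1 := by linarith
  rw [h4]
  ring

theorem z_diff (he : 0 < e) (hκ : 0 < κ) {t : ℂ} (ht : 0 < t.re) :
    e * Real.sinh κ * ‖shf κ t - t‖ ≤ Vz e κ t := by
  have hK : 0 < Real.sinh κ := Real.sinh_pos_iff.2 hκ
  have hQ0 := Qk_ne hκ ht
  have h1 : (Real.sinh κ : ℂ) * (shf κ t - t) = -((Real.sinh κ : ℂ) ^ 2 * (t ^ 2 - 1) / Qk κ t) := by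
    rw [mul_sub, K_shf hκ ht]
    have h3 : (Real.cosh κ : ℂ) ^ 2 - (Real.sinh κ : ℂ) ^ 2 = 1 := by
      have := Real.cosh_sq κ
      exact_mod_cast (by linarith : Real.cosh κ ^ 2 - Real.sinh κ ^ 2 = 1)
    field_simp
    unfold Qk
    linear_combination h3
  have h2 := congrArg norm h1
  rw [norm_mul, norm_neg, norm_div, norm_mul, norm_pow, Complex.norm_real,
    Real.norm_of_nonneg hK.le] at h2
  have hQ1 := one_le_Qk hκ ht
  unfold Vz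
  calc e * Real.sinh κ * ‖shf κ t - t‖ = e * (Real.sinh κ * ‖shf κ t - t‖) := by ring
    _ = e * (Real.sinh κ ^ 2 * ‖t ^ 2 - 1‖ / ‖Qk κ t‖) := by rw [h2]
    _ ≤ e * (Real.sinh κ ^ 2 * ‖t ^ 2 - 1‖) := by
        apply mul_le_mul_of_nonneg_left _ he.le
        exact div_le_self (by positivity) hQ1
    _ = _ := by ring

theorem Vz_le (he : 0 < e) (hκ : 0 < κ) (t : ℂ) :
    Vz e κ t ≤ (Sz e κ t + rz e κ t ^ 2) / e := by
  have hK : 0 < Real.sinh κ := Real.sinh_pos_iff.2 hκ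
  have h1 : ‖t ^ 2 - 1‖ ≤ 1 + ‖t‖ ^ 2 := by
    have := norm_sub_le (t ^ 2) 1
    rw [norm_pow, norm_one] at this
    linarith
  have h2 : ‖t‖ ^ 2 = t.re ^ 2 + t.im ^ 2 := by
    rw [Complex.sq_norm, Complex.normSq_apply]; ring
  have h3 : (Sz e κ t + rz e κ t ^ 2) / e = e * Real.sinh κ ^ 2 * (1 + ‖t‖ ^ 2) := by
    rw [h2]; unfold Sz rz yz bet; field_simp; ring
  rw [h3]
  unfold Vz
  exact mul_le_mul_of_nonneg_left h1 (by positivity)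


/-! ### consequences of `MC` -/

namespace MC

theorem e0 (C : MC e κ Y w p q) : 0 < e := by linarith [C.e200]

theorem K0 (C : MC e κ Y w p q) : 0 < Real.sinh κ := Real.sinh_pos_iff.2 C.κ0

theorem q0 (C : MC e κ Y w p q) : 0 < q := by linarith [C.q7]

theorem p0 (C : MC e κ Y w p q) : 0 < p := by linarith [C.p6]

theorem pq (C : MC e κ Y w p q) : p ≤ q := by
  have h1 := C.hp
  have h2 := C.q0
  have h3 : 0 ≤ Real.sinh κ ^ 2 / 2 + 12 / e := by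
    have := C.e0
    positivity
  nlinarith

theorem S0 (C : MC e κ Y w p q) (t : ℂ) : 0 < Sz e κ t := Sz_pos C.e0 C.κ0 t

theorem S2e (C : MC e κ Y w p q) {t : ℂ} (hy : |yz e κ t| ≤ Y) : Sz e κ t ≤ 2 * e := by
  have h1 := C.W2
  have h2 : yz e κ t ^ 2 ≤ Y ^ 2 := sq_le_sq' (by linarith [neg_abs_le (yz e κ t)])
    ((le_abs_self _).trans hy)
  unfold Sz
  linarith

theorem Se (C : MC e κ Y w p q) {t : ℂ} (hy : |yz e κ t| ≤ Y) : Sz e κ t / e ≤ 2 := by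
  rw [div_le_iff₀ C.e0]
  exact C.S2e hy

theorem s0 (C : MC e κ Y w p q) (t : ℂ) : 0 < p * (Sz e κ t / e) :=
  mul_pos C.p0 (div_pos (C.S0 t) C.e0)

theorem s2 (C : MC e κ Y w p q) {t : ℂ} (hy : |yz e κ t| ≤ Y) : p * (Sz e κ t / e) ≤ 2 := by
  have h1 := C.Se hy
  have h2 : p ≤ 1 := C.pq.trans C.q1
  have h3 := div_pos (C.S0 t) C.e0
  nlinarith [C.p0]

theorem b62 (C : MC e κ Y w p q) {t : ℂ} (hy : |yz e κ t| ≤ Y) :
    Bs (p * (Sz e κ t / e)) ≤ 31 / 50 := Bs_le (C.s0 t) (C.s2 hy)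

theorem P0 (C : MC e κ Y w p q) {t : ℂ} (ht : 0 < t.re) : 0 < Ps e κ p q t := by
  unfold Ps
  have h1 := Bs_pos (C.s0 t)
  have h2 := rz_pos C.e0 C.κ0 ht
  have h3 := C.q0
  positivity

theorem re_of (C : MC e κ Y w p q) {t : ℂ} (h : 0 < rz e κ t) : 0 < t.re := by
  unfold rz at h
  have := bet_pos C.e0 C.κ0
  exact (pos_iff_pos_of_mul_pos h).1 this

/-- `r/e ≤ 0.095` -/
theorem re95 (C : MC e κ Y w p q) {t : ℂ} (hy : |yz e κ t| ≤ Y)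
    (hr : rz e κ t ^ 2 ≤ 9 / 10 * Sz e κ t) : rz e κ t / e ≤ 19 / 200 := by
  have he := C.e0
  have h1 := C.S2e hy
  have h2 := C.e200
  rw [div_le_iff₀ he]
  apply le_of_sq_le_sq _ (by positivity)
  nlinarith

end MC

/-- `ε` -/
noncomputable def ep (e κ : ℝ) (t : ℂ) : ℝ := (Sz e κ t / e + 21 / 10 * rz e κ t) / e

theorem ep_nonneg (he : 0 < e) (hκ : 0 < κ) {t : ℂ} (ht : 0 < t.re) : 0 ≤ ep e κ t := by
  unfold ep
  have h1 := Sz_pos he hκ t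
  have h2 := rz_pos he hκ ht
  positivity

theorem ep_le (C : MC e κ Y w p q) {t : ℂ} (hy : |yz e κ t| ≤ Y)
    (hr : rz e κ t ^ 2 ≤ 9 / 10 * Sz e κ t) : ep e κ t ≤ 21 / 100 := by
  have he := C.e0
  have h1 := C.Se hy
  have h2 := C.re95 hy hr
  have h3 : ep e κ t = (Sz e κ t / e) / e + 21 / 10 * (rz e κ t / e) := by unfold ep; ring
  have h4 : (Sz e κ t / e) / e ≤ 1 / 100 := by
    rw [div_le_iff₀ he]; linarith [C.e200]
  rw [h3]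
  linarith

theorem ep_Q (C : MC e κ Y w p q) {t : ℂ} (ht : 0 < t.re) :
    (1 - ep e κ t) * ‖Qk κ t‖ ^ 2 ≤ 1 := by
  have he := C.e0
  have hr0 := rz_pos he C.κ0 ht
  have hS0 := C.S0 t
  have h1 := Q_sq (κ := κ) he t
  have h2 : Real.cosh κ ≤ 201 / 200 := by
    have := cosh_le' κ
    have hK := C.K1
    have hK0 := C.K0
    nlinarith
  have h3 := Real.one_le_cosh κ
  obtain ⟨u, hu⟩ : ∃ u, u = rz e κ t / e := ⟨_, rfl⟩
  have hu0 : 0 < u := by rw [hu]; positivity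
  have h4 : ‖Qk κ t‖ ^ 2 = 1 + (Sz e κ t / e / e) + (2 * Real.cosh κ + u) * u := by
    rw [h1, hu]; field_simp; ring
  have h5 : ep e κ t = (Sz e κ t / e / e) + 21 / 10 * u := by unfold ep; rw [hu]; ring
  obtain ⟨v, hv⟩ : ∃ v, v = Sz e κ t / e / e := ⟨_, rfl⟩
  have hv0 : 0 < v := by rw [hv]; positivity
  rw [h4, h5, ← hv]
  nlinarith [mul_pos hu0 hv0, mul_pos hu0 hu0, mul_pos hv0 hv0, mul_nonneg (sub_nonneg.2 h3) hu0.le,
    mul_pos (mul_pos hu0 hu0) hu0, mul_nonneg (mul_nonneg (sub_nonneg.2 h3) hu0.le) hu0.le,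
    mul_nonneg (mul_nonneg (sub_nonneg.2 h3) hu0.le) hv0.le, mul_pos (mul_pos hu0 hu0) hv0,
    mul_nonneg (sub_nonneg.2 h2) hu0.le]

theorem rz_le_shf (C : MC e κ Y w p q) {t : ℂ} (ht : 0 < t.re) (hy : |yz e κ t| ≤ Y)
    (hr : rz e κ t ^ 2 ≤ 9 / 10 * Sz e κ t) : rz e κ t ≤ rz e κ (shf κ t) := by
  have he := C.e0
  have hr0 := rz_pos he C.κ0 ht
  have hS0 := C.S0 t
  have hQ0 : 0 < ‖Qk κ t‖ := norm_pos_iff.2 (Qk_ne C.κ0 ht)
  have h1 := rz_shf_sub he C.κ0 ht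
  have h2 : 0 ≤ ((Sz e κ t - rz e κ t ^ 2) * (Real.cosh κ + rz e κ t / e) -
      2 * rz e κ t * yz e κ t ^ 2 / e) / (e * ‖Qk κ t‖ ^ 2) := by
    apply div_nonneg _ (by positivity)
    have h3 := Real.one_le_cosh κ
    have h4 : 0 < rz e κ t / e := by positivity
    have h5 : 1 / 10 * Sz e κ t ≤ (Sz e κ t - rz e κ t ^ 2) * (Real.cosh κ + rz e κ t / e) := by
      nlinarith
    have h6 : 2 * rz e κ t * yz e κ t ^ 2 / e ≤ 1 / 10 * Sz e κ t := by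
      rw [div_le_iff₀ he]
      have h7 : yz e κ t ^ 2 ≤ 11 / 2 * |yz e κ t| := by
        have : |yz e κ t| ≤ 11 / 2 := hy.trans C.Y4
        nlinarith [sq_abs (yz e κ t), abs_nonneg (yz e κ t)]
      have h8 : rz e κ t * |yz e κ t| ≤ Sz e κ t := by
        have h9 : yz e κ t ^ 2 ≤ Sz e κ t := by unfold Sz; nlinarith [sq_nonneg (bet e κ)]
        nlinarith [sq_nonneg (rz e κ t - |yz e κ t|), sq_abs (yz e κ t)]
      have h10 : 2 * rz e κ t * yz e κ t ^ 2 ≤ 11 * Sz e κ t := by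
        calc 2 * rz e κ t * yz e κ t ^ 2 ≤ 2 * rz e κ t * (11 / 2 * |yz e κ t|) := by gcongr
          _ = 11 * (rz e κ t * |yz e κ t|) := by ring
          _ ≤ _ := by linarith
      nlinarith [C.e200]
    linarith
  linarith

/-- the segment -/
theorem seg_facts (C : MC e κ Y w p q) {t : ℂ} (ht : 0 < t.re) (hy : |yz e κ t| ≤ Y)
    (hr : rz e κ t ^ 2 ≤ 9 / 10 * Sz e κ t) {z : ℂ} (hz : z ∈ segment ℝ t (shf κ t)) :
    rz e κ t ≤ rz e κ z ∧ |yz e κ z| ≤ |yz e κ t| ∧ (1 - ep e κ t) * |yz e κ t| ≤ |yz e κ z| := by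
  have he := C.e0
  have hQ1 := one_le_Qk C.κ0 ht
  have hQ0 : 0 < ‖Qk κ t‖ := by linarith
  obtain ⟨a, b, ha, hb, hab, rfl⟩ := hz
  have h1 : rz e κ (a • t + b • shf κ t) = a * rz e κ t + b * rz e κ (shf κ t) := by
    unfold rz; simp only [Complex.add_re, Complex.real_smul, Complex.re_ofReal_mul]; ring
  have h2 : yz e κ (a • t + b • shf κ t) = a * yz e κ t + b * yz e κ (shf κ t) := by
    unfold yz; simp only [Complex.add_im, Complex.real_smul, Complex.im_ofReal_mul]; ring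
  rw [yz_shf he C.κ0 ht] at h2
  have h3 := rz_le_shf C ht hy hr
  obtain ⟨m, hm⟩ : ∃ m, m = a + b / ‖Qk κ t‖ ^ 2 := ⟨_, rfl⟩
  have h4 : yz e κ (a • t + b • shf κ t) = m * yz e κ t := by rw [h2, hm]; ring
  have hm1 : m ≤ 1 := by
    rw [hm]
    have : b / ‖Qk κ t‖ ^ 2 ≤ b := div_le_self hb (one_le_pow₀ hQ1)
    linarith
  have hm0 : 0 ≤ m := by rw [hm]; positivity
  have hm2 : 1 - ep e κ t ≤ m := by
    rw [hm]
    have h5 := ep_Q C ht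
    have h6 : b * (1 - ep e κ t) ≤ b / ‖Qk κ t‖ ^ 2 := by
      rw [le_div_iff₀ (by positivity)]
      nlinarith
    have h7 := ep_nonneg he C.κ0 ht
    nlinarith
  refine ⟨?_, ?_, ?_⟩
  · rw [h1]
    have : a = 1 - b := by linarith
    rw [this]
    nlinarith
  · rw [h4, abs_mul, abs_of_nonneg hm0]
    exact mul_le_of_le_one_left (abs_nonneg _) hm1
  · rw [h4, abs_mul, abs_of_nonneg hm0]
    exact mul_le_mul_of_nonneg_right hm2 (abs_nonneg _)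

theorem Bs_of_y (C : MC e κ Y w p q) {t z : ℂ} {l : ℝ} (hl0 : 0 ≤ l) (hl1 : l ≤ 1)
    (h : l * |yz e κ t| ≤ |yz e κ z|) :
    l * Bs (p * (Sz e κ t / e)) ≤ Bs (p * (Sz e κ z / e)) := by
  have he := C.e0
  apply Bs_scale (C.s0 t) (C.s0 z) hl0 hl1
  have h1 : l ^ 2 * Sz e κ t ≤ Sz e κ z := by
    unfold Sz
    have h2 : (l * |yz e κ t|) ^ 2 ≤ |yz e κ z| ^ 2 :=
      pow_le_pow_left₀ (by positivity) h 2
    rw [mul_pow, sq_abs, sq_abs] at h2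
    have h3 : l ^ 2 ≤ 1 := pow_le_one₀ hl0 hl1
    nlinarith [sq_nonneg (bet e κ)]
  have h4 := C.p0
  calc l ^ 2 * (p * (Sz e κ t / e)) = p * (l ^ 2 * Sz e κ t / e) := by ring
    _ ≤ p * (Sz e κ z / e) := by gcongr

/-- `Ψ` on the segment `[t, shf t]`. -/
theorem Ps_seg (C : MC e κ Y w p q) {t : ℂ} (ht : 0 < t.re) (hy : |yz e κ t| ≤ Y)
    (hr : rz e κ t ^ 2 ≤ 9 / 10 * Sz e κ t) {z : ℂ} (hz : z ∈ segment ℝ t (shf κ t)) :
    (1 - (Sz e κ t / e + 21 / 10 * rz e κ t) / e) * Ps e κ p q t ≤ Ps e κ p q z ∧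
      |yz e κ z| ≤ |yz e κ t| ∧ rz e κ t ≤ rz e κ z := by
  have he := C.e0
  obtain ⟨h1, h2, h3⟩ := seg_facts C ht hy hr hz
  have h4 := ep_le C hy hr
  have h5 := ep_nonneg he C.κ0 ht
  have h6 := Bs_of_y C (by linarith) (by linarith) h3
  refine ⟨?_, h2, h1⟩
  have h7 : (Sz e κ t / e + 21 / 10 * rz e κ t) / e = ep e κ t := rfl
  rw [h7]
  unfold Ps
  have hr0 := rz_pos he C.κ0 ht
  have hq := C.q0
  have h8 : (1 - ep e κ t) * (q * rz e κ t / 2) ≤ q * rz e κ z / 2 := by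
    have : (1 - ep e κ t) * (q * rz e κ t / 2) ≤ 1 * (q * rz e κ t / 2) := by
      apply mul_le_mul_of_nonneg_right _ (by positivity)
      linarith
    have : q * rz e κ t ≤ q * rz e κ z := by gcongr
    linarith
  linarith


/-! ### Schwarz-Pick, lower bounds of `Pl` -/

theorem pick_ge (C : MC e κ Y w p q) {t : ℂ} (ht : 0 < t.re) :
    rz e κ t * (‖Pl e κ t‖ ^ 2 + bet e κ ^ 2 * (1 - Real.sinh κ ^ 2 / 6)) ≤
      (Pl e κ t).re * (Sz e κ t + rz e κ t ^ 2) := by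
  have he := C.e0
  have hκ := C.κ0
  have hK := C.K0
  have h1 := Pl_pick_one he hκ ht
  obtain ⟨a, ha⟩ : ∃ a, a = e * κ := ⟨_, rfl⟩
  have ha0 : 0 < a := by rw [ha]; positivity
  rw [← ha] at h1
  have h2 : (‖Pl e κ t - (a : ℂ)‖ * ‖t + 1‖) ^ 2 ≤ (‖t - 1‖ * ‖Pl e κ t + (a : ℂ)‖) ^ 2 :=
    pow_le_pow_left₀ (by positivity) h1 2
  rw [mul_pow, mul_pow] at h2
  have e1 : ‖Pl e κ t - (a : ℂ)‖ ^ 2 = ‖Pl e κ t‖ ^ 2 - 2 * a * (Pl e κ t).re + a ^ 2 := by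
    rw [Complex.sq_norm, Complex.sq_norm, Complex.normSq_apply, Complex.normSq_apply]
    simp only [Complex.sub_re, Complex.sub_im, Complex.ofReal_re, Complex.ofReal_im]
    ring
  have e2 : ‖Pl e κ t + (a : ℂ)‖ ^ 2 = ‖Pl e κ t‖ ^ 2 + 2 * a * (Pl e κ t).re + a ^ 2 := by
    rw [Complex.sq_norm, Complex.sq_norm, Complex.normSq_apply, Complex.normSq_apply]
    simp only [Complex.add_re, Complex.add_im, Complex.ofReal_re, Complex.ofReal_im]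
    ring
  have e3 : ‖t + 1‖ ^ 2 = t.re ^ 2 + t.im ^ 2 + 1 + 2 * t.re := by
    rw [Complex.sq_norm, Complex.normSq_apply]
    simp only [Complex.add_re, Complex.add_im, Complex.one_re, Complex.one_im]
    ring
  have e4 : ‖t - 1‖ ^ 2 = t.re ^ 2 + t.im ^ 2 + 1 - 2 * t.re := by
    rw [Complex.sq_norm, Complex.normSq_apply]
    simp only [Complex.sub_re, Complex.sub_im, Complex.one_re, Complex.one_im]
    ring
  rw [e1, e2, e3, e4] at h2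
  have h3 : t.re * (‖Pl e κ t‖ ^ 2 + a ^ 2) ≤ a * (Pl e κ t).re * (t.re ^ 2 + t.im ^ 2 + 1) := by
    nlinarith
  have hb := bet_pos he hκ
  have h4 : rz e κ t * (bet e κ * (‖Pl e κ t‖ ^ 2 + a ^ 2)) ≤
      a * ((Pl e κ t).re * (Sz e κ t + rz e κ t ^ 2)) := by
    have h5 := mul_le_mul_of_nonneg_left h3 (by positivity : 0 ≤ bet e κ ^ 2)
    have e5 : bet e κ ^ 2 * (t.re * (‖Pl e κ t‖ ^ 2 + a ^ 2)) =
        rz e κ t * (bet e κ * (‖Pl e κ t‖ ^ 2 + a ^ 2)) := by unfold rz; ring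
    have e6 : bet e κ ^ 2 * (a * (Pl e κ t).re * (t.re ^ 2 + t.im ^ 2 + 1)) =
        a * ((Pl e κ t).re * (Sz e κ t + rz e κ t ^ 2)) := by unfold Sz rz yz; ring
    rw [e5, e6] at h5
    exact h5
  have hsk : Real.sinh κ - Real.sinh κ ^ 3 / 6 ≤ κ := sinh_cube hκ.le
  have hks : κ ≤ Real.sinh κ := Real.self_le_sinh_iff.2 hκ.le
  have hr0 := rz_pos he hκ ht
  have h6 : a * (‖Pl e κ t‖ ^ 2 + bet e κ ^ 2 * (1 - Real.sinh κ ^ 2 / 6)) ≤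
      bet e κ * (‖Pl e κ t‖ ^ 2 + a ^ 2) := by
    have h7 : a * ‖Pl e κ t‖ ^ 2 ≤ bet e κ * ‖Pl e κ t‖ ^ 2 := by
      apply mul_le_mul_of_nonneg_right _ (by positivity)
      rw [ha]; unfold bet; gcongr
    have h8 : bet e κ * (1 - Real.sinh κ ^ 2 / 6) ≤ a := by
      rw [ha]; unfold bet
      have : e * (Real.sinh κ - Real.sinh κ ^ 3 / 6) ≤ e * κ := mul_le_mul_of_nonneg_left hsk he.le
      linarith
    have h9 : a * bet e κ * (bet e κ * (1 - Real.sinh κ ^ 2 / 6)) ≤ a * bet e κ * a :=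
      mul_le_mul_of_nonneg_left h8 (by positivity)
    nlinarith
  have h10 := mul_le_mul_of_nonneg_left h6 hr0.le
  have h11 : a * (rz e κ t * (‖Pl e κ t‖ ^ 2 + bet e κ ^ 2 * (1 - Real.sinh κ ^ 2 / 6))) ≤
      a * ((Pl e κ t).re * (Sz e κ t + rz e κ t ^ 2)) := by linarith
  exact le_of_mul_le_mul_left h11 ha0

theorem Pl_sub (t : ℂ) {ls : ℝ} (h : ‖log (fT e κ t) - log (fT e κ (shf κ t))‖ ≤ ls) :
    ‖Pl e κ t - (e : ℂ) * log (Qk κ t)‖ ≤ ls := by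
  unfold Pl
  rw [add_sub_cancel_right]
  exact h

/-- `|Q| ≤ g + h/2` -/
theorem Q_le (C : MC e κ Y w p q) {t : ℂ} (ht : 0 < t.re) (hy : |yz e κ t| ≤ Y) :
    ‖Qk κ t‖ ≤ 1 + Real.sinh κ ^ 2 / 2 + rz e κ t / e + 16 / e ^ 2 := by
  have he := C.e0
  have hc := cosh_le' κ
  have hc1 := Real.one_le_cosh κ
  have hr0 := rz_pos he C.κ0 ht
  have h1 : ‖Qk κ t‖ ^ 2 = (Real.cosh κ + rz e κ t / e) ^ 2 + (yz e κ t / e) ^ 2 := by
    rw [Complex.sq_norm, Complex.normSq_apply, Q_re he, Q_im he]; ring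
  have h2 : (yz e κ t / e) ^ 2 ≤ 32 / e ^ 2 := by
    rw [div_pow]
    have : yz e κ t ^ 2 ≤ 32 := by
      have h3 : |yz e κ t| ≤ 11 / 2 := hy.trans C.Y4
      nlinarith [sq_abs (yz e κ t), abs_nonneg (yz e κ t)]
    gcongr
  apply le_of_sq_le_sq _ (by positivity)
  rw [h1]
  obtain ⟨g, hg⟩ : ∃ g, g = Real.cosh κ + rz e κ t / e := ⟨_, rfl⟩
  have hg1 : 1 ≤ g := by rw [hg]; have : 0 < rz e κ t / e := by positivity
                         linarith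
  obtain ⟨G, hG⟩ : ∃ G, G = 1 + Real.sinh κ ^ 2 / 2 + rz e κ t / e := ⟨_, rfl⟩
  have hgG : g ≤ G := by rw [hg, hG]; linarith
  rw [← hg, ← hG]
  have h4 : 0 < 16 / e ^ 2 := by positivity
  have h5 : 32 / e ^ 2 = 2 * (16 / e ^ 2) := by ring
  rw [h5] at h2
  nlinarith

/-- `e |arg Q|` -/
theorem arg_ge (C : MC e κ Y w p q) {t : ℂ} (ht : 0 < t.re) (hy : |yz e κ t| ≤ Y) :
    |yz e κ t| * (1 - (Real.sinh κ ^ 2 / 2 + rz e κ t / e + 16 / e ^ 2)) ≤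
      |((e : ℂ) * log (Qk κ t)).im| := by
  have he := C.e0
  have hQ0 : 0 < ‖Qk κ t‖ := norm_pos_iff.2 (Qk_ne C.κ0 ht)
  have h1 : |((e : ℂ) * log (Qk κ t)).im| = e * |(Qk κ t).arg| := by
    rw [Complex.im_ofReal_mul, Complex.log_im, abs_mul, abs_of_pos he]
  have h2 := Real.abs_sin_le_abs (x := (Qk κ t).arg)
  rw [Complex.sin_arg, Q_im he, abs_div, abs_div, abs_of_pos he, abs_of_pos hQ0] at h2
  have h3 := Q_le C ht hy
  have h4 : |yz e κ t| / ‖Qk κ t‖ ≤ e * |(Qk κ t).arg| := by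
    calc |yz e κ t| / ‖Qk κ t‖ = e * (|yz e κ t| / e / ‖Qk κ t‖) := by field_simp
      _ ≤ _ := mul_le_mul_of_nonneg_left h2 he.le
  rw [h1]
  refine le_trans ?_ h4
  rw [le_div_iff₀ hQ0]
  have h5 : (1 - (Real.sinh κ ^ 2 / 2 + rz e κ t / e + 16 / e ^ 2)) * ‖Qk κ t‖ ≤ 1 := by
    obtain ⟨d, hd⟩ : ∃ d, d = Real.sinh κ ^ 2 / 2 + rz e κ t / e + 16 / e ^ 2 := ⟨_, rfl⟩
    have hd0 : 0 ≤ d := by
      rw [hd]
      have := rz_pos he C.κ0 ht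
      positivity
    have h6 : ‖Qk κ t‖ ≤ 1 + d := by rw [hd]; linarith
    rw [← hd]
    rcases le_or_gt d 1 with h7 | h7
    · nlinarith
    · nlinarith
  have h6 := mul_le_mul_of_nonneg_left h5 (abs_nonneg (yz e κ t))
  linarith

theorem y_sq (C : MC e κ Y w p q) {t : ℂ} (hy : |yz e κ t| ≤ Y) :
    yz e κ t ^ 2 ≤ w ^ 2 * Sz e κ t := by
  have h1 := C.hw
  have hb := bet_pos C.e0 C.κ0
  have h2 : 0 < bet e κ ^ 2 + Y ^ 2 := by positivity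
  have h3 : Y ^ 2 ≤ w ^ 2 * (bet e κ ^ 2 + Y ^ 2) := by
    have := pow_le_pow_left₀ C.Y0 h1 2
    rwa [mul_pow, Real.sq_sqrt h2.le] at this
  have h4 : yz e κ t ^ 2 ≤ Y ^ 2 := by
    rw [← sq_abs (yz e κ t)]
    exact pow_le_pow_left₀ (abs_nonneg _) hy 2
  have h5 : yz e κ t ^ 2 * (bet e κ ^ 2 + Y ^ 2) ≤ Y ^ 2 * Sz e κ t := by
    unfold Sz
    nlinarith [mul_le_mul_of_nonneg_right h4 (sq_nonneg (bet e κ))]
  have h6 : yz e κ t ^ 2 * (bet e κ ^ 2 + Y ^ 2) ≤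
      (w ^ 2 * Sz e κ t) * (bet e κ ^ 2 + Y ^ 2) := by
    have := mul_le_mul_of_nonneg_right h3 (C.S0 t).le
    linarith
  exact le_of_mul_le_mul_right h6 h2

/-- `(|y|/e)(1/b) ≤ 5/8 |y|/e + w √(2/(p e))` -/
theorem yb_le (C : MC e κ Y w p q) {t : ℂ} (hy : |yz e κ t| ≤ Y) :
    |yz e κ t| / e * (Bs (p * (Sz e κ t / e)))⁻¹ ≤ 5 / 8 * (Y / e) + w * √(2 / (p * e)) := by
  have he := C.e0
  have hp := C.p0
  have hS := C.S0 t
  have h1 := Bs_inv_le (C.s0 t) (C.s2 hy)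
  have h2 : |yz e κ t| / e * √(2 / (p * (Sz e κ t / e))) ≤ w * √(2 / (p * e)) := by
    apply le_of_sq_le_sq _ (mul_nonneg C.w0 (Real.sqrt_nonneg _))
    rw [mul_pow, mul_pow, Real.sq_sqrt (by positivity), Real.sq_sqrt (by positivity), div_pow,
      sq_abs]
    have h3 := y_sq C hy
    have h4 : yz e κ t ^ 2 / e ^ 2 * (2 / (p * (Sz e κ t / e))) =
        (2 / (p * e)) * (yz e κ t ^ 2 / Sz e κ t) := by field_simp
    have h5 : yz e κ t ^ 2 / Sz e κ t ≤ w ^ 2 := by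
      rw [div_le_iff₀ hS]; exact h3
    rw [h4]
    calc 2 / (p * e) * (yz e κ t ^ 2 / Sz e κ t) ≤ 2 / (p * e) * w ^ 2 := by gcongr
      _ = _ := by ring
  have h3 : |yz e κ t| / e ≤ Y / e := by gcongr
  have h4 : 0 ≤ |yz e κ t| / e := by positivity
  calc |yz e κ t| / e * (Bs (p * (Sz e κ t / e)))⁻¹ ≤
      |yz e κ t| / e * (5 / 8 + √(2 / (p * (Sz e κ t / e)))) := by gcongr
    _ = 5 / 8 * (|yz e κ t| / e) + |yz e κ t| / e * √(2 / (p * (Sz e κ t / e))) := by ring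
    _ ≤ _ := by linarith


end Pool.Agent.helper31.EQB
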