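import Pool.Agent.helper31.EQB.MsupA

/-! # EQB-4, second part (see MsupA.lean for the proof) -/

namespace Pool.Agent.helper31.EQB

open Complex ComplexConjugate Set Filter Topology
open Pool.Agent.helper31.EQ.Y Pool.Agent.helper31.EQ.R
open Pool.Agent.helper12.EQL Pool.Agent.helper12.RP Pool.Agent.helper12.FF

variable {e κ Y w p q : ℝ}

/-! ### the region `r < 2 b` -/

theorem small_r (C : MC e κ Y w p q) {t : ℂ} (ht : 0 < t.re) (hy : |yz e κ t| ≤ Y)
    (hrb : rz e κ t ≤ 2 * Bs (p * (Sz e κ t / e))) :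
    rz e κ t ^ 2 ≤ 2 * (Sz e κ t / e) ∧ rz e κ t ≤ 31 / 25 ∧ rz e κ t ^ 2 ≤ 9 / 10 * Sz e κ t ∧
      rz e κ t * Bs (p * (Sz e κ t / e)) ≤ p * (Sz e κ t / e) := by
  have he := C.e0
  have hr0 := rz_pos he C.κ0 ht
  have hs := C.s0 t
  have h1 := Bs_sq hs
  have h2 := Bs_pos hs
  have h3 := C.b62 hy
  obtain ⟨b, hb⟩ : ∃ b, b = Bs (p * (Sz e κ t / e)) := ⟨_, rfl⟩
  rw [← hb] at hrb h1 h2 h3 ⊢
  obtain ⟨u, hu⟩ : ∃ u, u = Sz e κ t / e := ⟨_, rfl⟩
  have hSu : Sz e κ t = e * u := by rw [hu]; field_simp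
  rw [← hu] at hs h1 ⊢
  have hu0 : 0 < u := (pos_iff_pos_of_mul_pos hs).1 C.p0
  have hp1 : p ≤ 1 := C.pq.trans C.q1
  have h5 : 2 * b ^ 2 ≤ p * u := by
    rw [h1]
    have : 0 < b * (p * u) := by positivity
    nlinarith
  have h6 : p * u ≤ u := by nlinarith
  have h7 : rz e κ t ^ 2 ≤ 4 * b ^ 2 := by nlinarith
  refine ⟨by linarith, by linarith, ?_, by nlinarith⟩
  rw [hSu]
  have := C.e200
  nlinarith

theorem incr_r (C : MC e κ Y w p q) {t : ℂ} (ht : 0 < t.re) (hy : |yz e κ t| ≤ Y)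
    (hrb : rz e κ t ≤ 2 * Bs (p * (Sz e κ t / e))) :
    Sz e κ t / e * (1 - Real.sinh κ ^ 2 / 2 - 147 / (25 * e)) ≤ rz e κ (shf κ t) - rz e κ t := by
  have he := C.e0
  have he200 := C.e200
  have hr0 := rz_pos he C.κ0 ht
  have hS0 := C.S0 t
  have hQ0 : 0 < ‖Qk κ t‖ := norm_pos_iff.2 (Qk_ne C.κ0 ht)
  obtain ⟨h1, h2, h3, -⟩ := small_r C ht hy hrb
  have hc1 := Real.one_le_cosh κ
  have hc := cosh_le' κ
  have hy2 : yz e κ t ^ 2 ≤ 32 := by
    have h3 : |yz e κ t| ≤ 11 / 2 := hy.trans C.Y4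
    nlinarith [sq_abs (yz e κ t), abs_nonneg (yz e κ t)]
  have hyS : yz e κ t ^ 2 ≤ Sz e κ t := by unfold Sz; nlinarith [sq_nonneg (bet e κ)]
  rw [rz_shf_sub he C.κ0 ht]
  have hN : ‖Qk κ t‖ ^ 2 = (Real.cosh κ + rz e κ t / e) ^ 2 + (yz e κ t / e) ^ 2 := by
    rw [Complex.sq_norm, Complex.normSq_apply, Q_re he, Q_im he]; ring
  obtain ⟨g, hg⟩ : ∃ g, g = Real.cosh κ + rz e κ t / e := ⟨_, rfl⟩
  obtain ⟨h, hh⟩ : ∃ h, h = (yz e κ t / e) ^ 2 := ⟨_, rfl⟩
  obtain ⟨N, hNN⟩ : ∃ N, N = ‖Qk κ t‖ ^ 2 := ⟨_, rfl⟩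
  rw [← hg, ← hh] at hN
  rw [← hNN] at hN ⊢
  rw [← hg]
  have hN1 : 1 ≤ N := by rw [hNN]; exact one_le_pow₀ (one_le_Qk C.κ0 ht)
  have hg1 : 1 ≤ g := by
    rw [hg]
    have : 0 < rz e κ t / e := by positivity
    linarith
  have hh0 : 0 ≤ h := by rw [hh]; positivity
  obtain ⟨m, hm⟩ : ∃ m, m = 1 - Real.sinh κ ^ 2 / 2 - 35 / (25 * e) := ⟨_, rfl⟩
  have hm1 : m ≤ 2 - g - h := by
    have e1 : rz e κ t / e ≤ 31 / (25 * e) := by
      rw [div_le_div_iff₀ he (by positivity)]; nlinarith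
    have e2 : h ≤ 4 / (25 * e) := by
      rw [hh, div_pow, div_le_div_iff₀ (by positivity) (by positivity)]
      nlinarith
    have e3 : 35 / (25 * e) = 31 / (25 * e) + 4 / (25 * e) := by rw [← add_div]; norm_num
    rw [hm, hg]
    linarith
  have hm2 : m * N ≤ g := by
    have e1 : (2 - g - h) * N ≤ g := by
      rw [hN]
      rcases le_or_gt 0 (2 - g - h) with h4 | h4
      · have e2 : g ^ 2 + h ≤ g * (g + h) := by nlinarith
        calc (2 - g - h) * (g ^ 2 + h) ≤ (2 - g - h) * (g * (g + h)) :=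
              mul_le_mul_of_nonneg_left e2 h4
          _ = g * (1 - (1 - (g + h)) ^ 2) := by ring
          _ ≤ g * 1 := by
              apply mul_le_mul_of_nonneg_left _ (by linarith)
              nlinarith [sq_nonneg (1 - (g + h))]
          _ = g := mul_one g
      · have : 0 < g ^ 2 + h := by positivity
        nlinarith
    have e3 : m * N ≤ (2 - g - h) * N := mul_le_mul_of_nonneg_right hm1 (by linarith)
    linarith
  have hmle : m ≤ 1 := by
    rw [hm]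
    have : 0 ≤ Real.sinh κ ^ 2 / 2 + 35 / (25 * e) := by positivity
    linarith
  rw [le_div_iff₀ (by positivity)]
  have hrS : (1 - 2 / e) * Sz e κ t ≤ Sz e κ t - rz e κ t ^ 2 := by
    have : (1 - 2 / e) * Sz e κ t = Sz e κ t - 2 * (Sz e κ t / e) := by ring
    rw [this]; linarith
  have h2e : 0 ≤ 1 - 2 / e := by
    have : 2 / e ≤ 1 := by rw [div_le_one he]; linarith
    linarith
  have k1 : (1 - 2 / e) * Sz e κ t * (m * N) ≤ (Sz e κ t - rz e κ t ^ 2) * g := by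
    calc (1 - 2 / e) * Sz e κ t * (m * N) ≤ (1 - 2 / e) * Sz e κ t * g :=
          mul_le_mul_of_nonneg_left hm2 (by positivity)
      _ ≤ _ := mul_le_mul_of_nonneg_right hrS (by linarith)
  have k2 : 2 * rz e κ t * yz e κ t ^ 2 / e ≤ 62 / (25 * e) * Sz e κ t * N := by
    have e1 : 2 * rz e κ t * yz e κ t ^ 2 ≤ 62 / 25 * Sz e κ t := by
      calc 2 * rz e κ t * yz e κ t ^ 2 ≤ 2 * (31 / 25) * Sz e κ t := by gcongr
        _ = _ := by ring
    calc 2 * rz e κ t * yz e κ t ^ 2 / e ≤ 62 / 25 * Sz e κ t / e := by gcongr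
      _ = 62 / (25 * e) * Sz e κ t * 1 := by field_simp
      _ ≤ 62 / (25 * e) * Sz e κ t * N := by gcongr
  have k3 : Sz e κ t / e * (1 - Real.sinh κ ^ 2 / 2 - 147 / (25 * e)) * (e * N) =
      Sz e κ t * N * (m - 2 / e - 62 / (25 * e)) := by
    rw [hm]; field_simp; ring
  rw [k3]
  have k4 : Sz e κ t * N * (m - 2 / e) ≤ (1 - 2 / e) * Sz e κ t * (m * N) := by
    have e1 : 0 ≤ 2 / e * (1 - m) := mul_nonneg (by positivity) (by linarith)
    have e2 : (1 - 2 / e) * Sz e κ t * (m * N) - Sz e κ t * N * (m - 2 / e) =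
        Sz e κ t * N * (2 / e * (1 - m)) := by ring
    have e3 : 0 ≤ Sz e κ t * N * (2 / e * (1 - m)) := by positivity
    linarith
  have k5 : Sz e κ t * N * (m - 2 / e - 62 / (25 * e)) =
      Sz e κ t * N * (m - 2 / e) - 62 / (25 * e) * Sz e κ t * N := by ring
  rw [k5]
  linarith

theorem v0_le (C : MC e κ Y w p q) {t : ℂ} (ht : 0 < t.re) (hy : |yz e κ t| ≤ Y)
    (hrb : rz e κ t ≤ 2 * Bs (p * (Sz e κ t / e))) :
    rz e κ t + bet e κ ^ 2 / (2 * e) ≤ rz e κ (shf κ t) := by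
  have he := C.e0
  have h1 := incr_r C ht hy hrb
  have hK := C.K1
  have hK0 := C.K0
  have h2 : 147 / (25 * e) ≤ 147 / 5000 := by
    rw [div_le_div_iff₀ (by positivity) (by norm_num)]; linarith [C.e200]
  have h3 : 1 / 2 ≤ 1 - Real.sinh κ ^ 2 / 2 - 147 / (25 * e) := by nlinarith
  have h4 : 0 < Sz e κ t / e := div_pos (C.S0 t) he
  have h5 : bet e κ ^ 2 / (2 * e) ≤ Sz e κ t / e * (1 / 2) := by
    have : bet e κ ^ 2 ≤ Sz e κ t := by unfold Sz; nlinarith [sq_nonneg (yz e κ t)]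
    calc bet e κ ^ 2 / (2 * e) ≤ Sz e κ t / (2 * e) := by gcongr
      _ = _ := by field_simp
  nlinarith

theorem D_ge (C : MC e κ Y w p q) {t : ℂ} (ht : 0 < t.re) (hy : |yz e κ t| ≤ Y)
    (hrb : rz e κ t ≤ 2 * Bs (p * (Sz e κ t / e))) :
    p * (Sz e κ t / e) / 2 ≤ Ps e κ p q (shf κ t) - Ps e κ p q t := by
  have he := C.e0
  obtain ⟨k1, k2, k3, k4⟩ := small_r C ht hy hrb
  obtain ⟨-, -, h3⟩ := seg_facts C ht hy k3 (right_mem_segment ℝ t (shf κ t))
  have h4 := ep_le C hy k3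
  have h5 := ep_nonneg he C.κ0 ht
  have h6 := Bs_of_y C (by linarith) (by linarith) h3
  have h7 := incr_r C ht hy hrb
  have h8 := C.b62 hy
  have h9 := Bs_pos (C.s0 t)
  have hp := C.hp
  have hpq := C.pq
  have hq7 := C.q7
  have hu0 : 0 < Sz e κ t / e := div_pos (C.S0 t) he
  unfold Ps
  obtain ⟨b, hb⟩ : ∃ b, b = Bs (p * (Sz e κ t / e)) := ⟨_, rfl⟩
  have hep : ep e κ t * b = (Sz e κ t / e) * b / e + 21 / 10 * (rz e κ t * b) / e := by
    unfold ep; ring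
  rw [← hb] at h6 h8 h9 k4 ⊢
  obtain ⟨u, hu⟩ : ∃ u, u = Sz e κ t / e := ⟨_, rfl⟩
  rw [← hu] at hep h7 hu0 k4 ⊢
  have h10 : ep e κ t * b ≤ u * (31 / 50 + 21 / 10 * p) / e := by
    rw [hep, ← add_div]
    apply div_le_div_of_nonneg_right _ he.le
    nlinarith
  have h11 : q / 2 * (u * (1 - Real.sinh κ ^ 2 / 2 - 147 / (25 * e))) ≤
      q / 2 * (rz e κ (shf κ t) - rz e κ t) := mul_le_mul_of_nonneg_left h7 (by linarith)
  have h12 : p * u / 2 ≤ q / 2 * (u * (1 - Real.sinh κ ^ 2 / 2 - 147 / (25 * e))) -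
      u * (31 / 50 + 21 / 10 * p) / e := by
    have e1 : q / 2 * (u * (1 - Real.sinh κ ^ 2 / 2 - 147 / (25 * e))) -
      u * (31 / 50 + 21 / 10 * p) / e - p * u / 2 =
      u / 2 * (q * (1 - Real.sinh κ ^ 2 / 2 - 12 / e) - p) +
        u * (6 * q - 147 / 50 * q - 31 / 50 - 21 / 10 * p) / e := by field_simp; ring
    have e2 : 0 ≤ u / 2 * (q * (1 - Real.sinh κ ^ 2 / 2 - 12 / e) - p) :=
      mul_nonneg (by positivity) (by linarith)
    have e3 : 0 ≤ u * (6 * q - 147 / 50 * q - 31 / 50 - 21 / 10 * p) / e := by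
      apply div_nonneg _ he.le
      apply mul_nonneg hu0.le
      nlinarith
    linarith
  linarith

/-- `M` on the segment, from the induction hypothesis. -/
theorem M_seg (C : MC e κ Y w p q) {t : ℂ} (ht : 0 < t.re) (hy : |yz e κ t| ≤ Y)
    (hrb : rz e κ t ≤ 2 * Bs (p * (Sz e κ t / e)))
    (IH : ∀ u : ℂ, 0 < u.re → |yz e κ u| ≤ Y → rz e κ t + bet e κ ^ 2 / (2 * e) ≤ rz e κ u →
      MB e κ (Ps e κ p q u)⁻¹ u) {z : ℂ} (hz : z ∈ segment ℝ t (shf κ t)) :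
    MB e κ (1 + (Bs (p * (Sz e κ t / e)) * (1 - 10 / e))⁻¹) z := by
  have he := C.e0
  have hκ := C.κ0
  have he200 := C.e200
  obtain ⟨k1, k2, k3, k4⟩ := small_r C ht hy hrb
  obtain ⟨g1, g2, g3⟩ := seg_facts C ht hy k3 hz
  have hep0 := ep_nonneg he hκ ht
  have hep1 : ep e κ t ≤ 5 / e := by
    unfold ep
    have := C.Se hy
    gcongr
    linarith
  have hb0 := Bs_pos (C.s0 t)
  have h5e : 5 / e ≤ 1 / 40 := by rw [div_le_div_iff₀ he (by norm_num)]; linarith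
  have h10e : 10 / e = 2 * (5 / e) := by ring
  have hzre : 0 < z.re := re_segment ht (shf_re hκ ht.le) hz
  have hyz : |yz e κ z| ≤ Y := g2.trans hy
  have b1 := Bs_of_y C (by linarith) (by linarith) g3
  obtain ⟨b, hb⟩ : ∃ b, b = Bs (p * (Sz e κ t / e)) := ⟨_, rfl⟩
  rw [← hb] at b1 hb0 ⊢
  have hpos : 0 < b * (1 - 10 / e) := mul_pos hb0 (by linarith)
  rcases le_or_gt (2 * Bs (p * (Sz e κ z / e))) (rz e κ z) with h1 | h1
  · apply MB_harn he hκ hzre
    have h2 : e * Real.sinh κ * (1 + (b * (1 - 10 / e))⁻¹) * z.re =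
        rz e κ z + (b * (1 - 10 / e))⁻¹ * rz e κ z := by unfold rz bet; ring
    rw [h2]
    have h3 : b * (1 - 10 / e) ≤ rz e κ z := by nlinarith
    have h4 : 1 ≤ (b * (1 - 10 / e))⁻¹ * rz e κ z := by
      rw [inv_mul_eq_div, le_div_iff₀ hpos]; linarith
    have h5 : 0 < rz e κ z := by linarith
    linarith
  · have h1' := h1.le
    have hsre := shf_re hκ hzre.le
    obtain ⟨l1, l2, l3, l4⟩ := small_r C hzre hyz h1'
    obtain ⟨m1, m2, m3⟩ := seg_facts C hzre hyz l3 (right_mem_segment ℝ z (shf κ z))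
    have hv := v0_le C hzre hyz h1'
    have hys : |yz e κ (shf κ z)| ≤ Y := m2.trans hyz
    have hI := IH (shf κ z) hsre hys (by linarith)
    have hP0 := C.P0 hsre
    have h2 := MB_rec1 (u := 1) he hκ hzre (inv_nonneg.2 hP0.le) (qq_lt_one he hκ hzre).le hI
    rw [one_mul] at h2
    refine h2.mono he hκ ?_
    have hep2 : ep e κ z ≤ 5 / e := by
      unfold ep
      have := C.Se hyz
      gcongr
      linarith
    have hep20 := ep_nonneg he hκ hzre
    have b2 := Bs_of_y C (by linarith) (by linarith) m3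
    have h3 : b * (1 - 10 / e) ≤ Ps e κ p q (shf κ z) := by
      unfold Ps
      have h4 : 0 < rz e κ (shf κ z) := rz_pos he hκ hsre
      have hq := C.q0
      have h5 : 0 < q * rz e κ (shf κ z) / 2 := by positivity
      have h6 : (1 - ep e κ z) * ((1 - ep e κ t) * b) ≤ Bs (p * (Sz e κ (shf κ z) / e)) :=
        (mul_le_mul_of_nonneg_left b1 (by linarith)).trans b2
      have h7 : (1 - 10 / e) * b ≤ (1 - ep e κ z) * ((1 - ep e κ t) * b) := by
        have : 1 - 10 / e ≤ (1 - ep e κ z) * (1 - ep e κ t) := by nlinarith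
        calc (1 - 10 / e) * b ≤ ((1 - ep e κ z) * (1 - ep e κ t)) * b :=
              mul_le_mul_of_nonneg_right this hb0.le
          _ = _ := by ring
      linarith
    have h8 := (inv_le_inv₀ hP0 hpos).2 h3
    linarith


/-- `|Pl|²` from the imaginary part -/
theorem Pl_im_ge {t : ℂ} {ls A a : ℝ}
    (h : ‖Pl e κ t - (e : ℂ) * log (Qk κ t)‖ ≤ ls) (hA0 : 0 ≤ A) (hAa : A ≤ a)
    (hA : A ≤ |((e : ℂ) * log (Qk κ t)).im|) : A ^ 2 - 2 * a * ls ≤ ‖Pl e κ t‖ ^ 2 := by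
  have hls : 0 ≤ ls := (norm_nonneg _).trans h
  have h1 : |((e : ℂ) * log (Qk κ t)).im| - ls ≤ |(Pl e κ t).im| := by
    have h2 := (Complex.abs_im_le_norm (Pl e κ t - (e : ℂ) * log (Qk κ t))).trans h
    rw [Complex.sub_im] at h2
    have h3 := abs_sub_abs_le_abs_sub ((e : ℂ) * log (Qk κ t)).im (Pl e κ t).im
    rw [abs_sub_comm] at h3
    linarith
  have h4 := Complex.abs_im_le_norm (Pl e κ t)
  obtain ⟨x, hx⟩ : ∃ x, x = ‖Pl e κ t‖ := ⟨_, rfl⟩
  rw [← hx] at h4 ⊢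
  have h5 : A - ls ≤ x := by linarith
  have h6 : 0 ≤ x := by rw [hx]; exact norm_nonneg _
  have h7 : A * ls ≤ a * ls := mul_le_mul_of_nonneg_right hAa hls
  rcases le_or_gt ls A with h8 | h8
  · nlinarith
  · nlinarith

theorem RePl_ge (C : MC e κ Y w p q) {t : ℂ} (ht : 0 < t.re) (hy : |yz e κ t| ≤ Y)
    (hrb : rz e κ t ≤ 2 * Bs (p * (Sz e κ t / e)))
    (h : ‖log (fT e κ t) - log (fT e κ (shf κ t))‖ ≤
      (Sz e κ t / e) * (1 + 2 / e) * (1 + (Bs (p * (Sz e κ t / e)) * (1 - 10 / e))⁻¹)) :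
    q * rz e κ t ≤ (Pl e κ t).re := by
  have he := C.e0
  have hκ := C.κ0
  have he200 := C.e200
  have hr0 := rz_pos he hκ ht
  have hS0 := C.S0 t
  obtain ⟨k1, k2, k3, k4⟩ := small_r C ht hy hrb
  have h1 := pick_ge C ht
  have h2 := Pl_sub t h
  have h3 := arg_ge C ht hy
  obtain ⟨δ, hδ⟩ : ∃ δ, δ = Real.sinh κ ^ 2 / 2 + 33 / (25 * e) := ⟨_, rfl⟩
  have hK := C.K1
  have hK0 := C.K0
  have h32 : 33 / (25 * e) ≤ 33 / 5000 := by
    rw [div_le_div_iff₀ (by positivity) (by norm_num)]; linarith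
  have hδ1 : δ ≤ 1 := by rw [hδ]; nlinarith
  have hδ0 : 0 ≤ δ := by rw [hδ]; positivity
  have h4 : Real.sinh κ ^ 2 / 2 + rz e κ t / e + 16 / e ^ 2 ≤ δ := by
    have e1 : rz e κ t / e ≤ 31 / (25 * e) := by
      rw [div_le_div_iff₀ he (by positivity)]; nlinarith
    have e2 : 16 / e ^ 2 ≤ 2 / (25 * e) := by
      rw [div_le_div_iff₀ (by positivity) (by positivity)]
      nlinarith
    have e3 : 33 / (25 * e) = 31 / (25 * e) + 2 / (25 * e) := by rw [← add_div]; norm_num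
    rw [hδ]; linarith
  have ha0 := abs_nonneg (yz e κ t)
  have h5 : |yz e κ t| * (1 - δ) ≤ |((e : ℂ) * log (Qk κ t)).im| := by
    refine le_trans ?_ h3
    gcongr
  have h6 := Pl_im_ge h2 (mul_nonneg ha0 (by linarith)) (a := |yz e κ t|)
    (by nlinarith) h5
  have h7 := y_sq C hy
  have h8 := yb_le C hy
  have h10e : 10 / e ≤ 1 / 20 := by rw [div_le_div_iff₀ he (by norm_num)]; linarith
  have hb0 := Bs_pos (C.s0 t)
  -- 2 |y| ls
  have h9 : 2 * |yz e κ t| * ((Sz e κ t / e) * (1 + 2 / e) *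
      (1 + (Bs (p * (Sz e κ t / e)) * (1 - 10 / e))⁻¹)) ≤
      Sz e κ t * (17 * Y / (5 * e) + 2 * w * √(2 / (p * e)) * (1 + 16 / e)) := by
    obtain ⟨β, hβ⟩ : ∃ β, β = (Bs (p * (Sz e κ t / e)))⁻¹ := ⟨_, rfl⟩
    obtain ⟨X, hX⟩ : ∃ X, X = w * √(2 / (p * e)) := ⟨_, rfl⟩
    have hX0 : 0 ≤ X := by rw [hX]; exact mul_nonneg C.w0 (Real.sqrt_nonneg _)
    have hY0 := C.Y0
    rw [← hβ, ← hX] at h8
    rw [mul_inv, ← hβ]
    have e1 : (1 + 2 / e) * (1 - 10 / e)⁻¹ ≤ 1 + 16 / e := by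
      rw [← div_eq_mul_inv, div_le_iff₀ (by linarith)]
      have e2 : (1 + 16 / e) * (1 - 10 / e) - (1 + 2 / e) = (4 - 160 / e) / e := by
        field_simp; ring
      have e3 : 160 / e ≤ 4 := by rw [div_le_iff₀ he]; linarith
      have e4 : 0 ≤ (4 - 160 / e) / e := div_nonneg (by linarith) he.le
      linarith
    have e16 : 16 / e ≤ 2 / 25 := by rw [div_le_div_iff₀ he (by norm_num)]; linarith
    have e2' : 2 / e ≤ 1 / 100 := by rw [div_le_div_iff₀ he (by norm_num)]; linarith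
    have e5 : 2 * |yz e κ t| * (Sz e κ t / e * (1 + 2 / e) * (1 + β * (1 - 10 / e)⁻¹)) =
        Sz e κ t * (2 * (|yz e κ t| / e) * (1 + 2 / e) +
          2 * (|yz e κ t| / e * β) * ((1 + 2 / e) * (1 - 10 / e)⁻¹)) := by ring
    rw [e5]
    apply mul_le_mul_of_nonneg_left _ hS0.le
    have e6 : |yz e κ t| / e ≤ Y / e := by gcongr
    have e7 : 0 ≤ |yz e κ t| / e := by positivity
    have e8 : 0 ≤ |yz e κ t| / e * β := mul_nonneg e7 (by rw [hβ]; positivity)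
    have e9 : 0 ≤ Y / e := by positivity
    have e10 : 0 ≤ 16 / e := by positivity
    have f1 : 2 * (|yz e κ t| / e) * (1 + 2 / e) ≤ 2 * (Y / e) * (101 / 100) := by
      have : 1 + 2 / e ≤ 101 / 100 := by linarith
      gcongr
    have f2 : 2 * (|yz e κ t| / e * β) * ((1 + 2 / e) * (1 - 10 / e)⁻¹) ≤
        2 * (5 / 8 * (Y / e) + X) * (1 + 16 / e) := by
      have : 0 ≤ (1 + 2 / e) * (1 - 10 / e)⁻¹ :=
        mul_nonneg (by positivity) (inv_nonneg.2 (by linarith))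
      calc 2 * (|yz e κ t| / e * β) * ((1 + 2 / e) * (1 - 10 / e)⁻¹) ≤
          2 * (|yz e κ t| / e * β) * (1 + 16 / e) := by gcongr
        _ ≤ _ := by gcongr
    have f3 : 17 * Y / (5 * e) = 17 / 5 * (Y / e) := by field_simp
    have f4 : 2 * w * √(2 / (p * e)) = 2 * X := by rw [hX]; ring
    rw [f3, f4]
    have f5 : 2 * (5 / 8 * (Y / e)) * (1 + 16 / e) ≤ 2 * (5 / 8 * (Y / e)) * (27 / 25) := by
      gcongr
      linarith
    have f6 : 2 * (5 / 8 * (Y / e) + X) * (1 + 16 / e) =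
        2 * (5 / 8 * (Y / e)) * (1 + 16 / e) + 2 * X * (1 + 16 / e) := by ring
    rw [f6] at f2
    linarith
  have hhq := C.hq
  have hβS : bet e κ ^ 2 ≤ Sz e κ t := by unfold Sz; nlinarith [sq_nonneg (yz e κ t)]
  have hSe : Sz e κ t = bet e κ ^ 2 + yz e κ t ^ 2 := rfl
  -- assemble
  have h10 : (1 - 2 * δ) * yz e κ t ^ 2 ≤ (|yz e κ t| * (1 - δ)) ^ 2 := by
    rw [mul_pow, sq_abs]
    nlinarith [sq_nonneg (yz e κ t), sq_nonneg δ, mul_nonneg (sq_nonneg (yz e κ t)) (sq_nonneg δ)]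
  have h11 : q * (Sz e κ t + rz e κ t ^ 2) ≤
      ‖Pl e κ t‖ ^ 2 + bet e κ ^ 2 * (1 - Real.sinh κ ^ 2 / 6) := by
    have g1 : 2 * δ * yz e κ t ^ 2 ≤ Sz e κ t * ((Real.sinh κ ^ 2 + 21 / (5 * e)) * w ^ 2) := by
      have e1 : 2 * δ ≤ Real.sinh κ ^ 2 + 21 / (5 * e) := by
        have e2 : 21 / (5 * e) = 66 / (25 * e) + 39 / (25 * e) := by rw [← add_div]; field_simp; norm_num
        have e3 : 0 ≤ 39 / (25 * e) := by positivity
        have e4 : 2 * (33 / (25 * e)) = 66 / (25 * e) := by ring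
        rw [hδ]; linarith
      calc 2 * δ * yz e κ t ^ 2 ≤ (Real.sinh κ ^ 2 + 21 / (5 * e)) * (w ^ 2 * Sz e κ t) := by
            gcongr
        _ = _ := by ring
    have g2 : bet e κ ^ 2 * (Real.sinh κ ^ 2 / 6) ≤ Sz e κ t * (Real.sinh κ ^ 2 / 6) := by gcongr
    have g3 : q * rz e κ t ^ 2 ≤ Sz e κ t * (2 / e) := by
      have : q * rz e κ t ^ 2 ≤ 1 * (2 * (Sz e κ t / e)) := by
        have := C.q1
        gcongr
      calc q * rz e κ t ^ 2 ≤ 1 * (2 * (Sz e κ t / e)) := this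
        _ = _ := by ring
    have g4 := mul_le_mul_of_nonneg_left hhq hS0.le
    have g5 : Sz e κ t * (2 / e + (Real.sinh κ ^ 2 + 21 / (5 * e)) * w ^ 2 + Real.sinh κ ^ 2 / 6 +
        2 * w * √(2 / (p * e)) * (1 + 16 / e) + 17 * Y / (5 * e)) =
        Sz e κ t * (2 / e) + Sz e κ t * ((Real.sinh κ ^ 2 + 21 / (5 * e)) * w ^ 2) +
        Sz e κ t * (Real.sinh κ ^ 2 / 6) +
        Sz e κ t * (17 * Y / (5 * e) + 2 * w * √(2 / (p * e)) * (1 + 16 / e)) := by ring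
    rw [g5] at g4
    nlinarith
  have h12 : rz e κ t * (q * (Sz e κ t + rz e κ t ^ 2)) ≤
      (Pl e κ t).re * (Sz e κ t + rz e κ t ^ 2) :=
    (mul_le_mul_of_nonneg_left h11 hr0.le).trans h1
  have h13 : 0 < Sz e κ t + rz e κ t ^ 2 := by positivity
  have h14 : q * rz e κ t * (Sz e κ t + rz e κ t ^ 2) ≤
      (Pl e κ t).re * (Sz e κ t + rz e κ t ^ 2) := by linarith
  exact le_of_mul_le_mul_right h14 h13

theorem MB_ind (C : MC e κ Y w p q) (N : ℕ) : ∀ t : ℂ, 0 < t.re → |yz e κ t| ≤ Y →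
    31 / 25 - N * (bet e κ ^ 2 / (2 * e)) ≤ rz e κ t → MB e κ (Ps e κ p q t)⁻¹ t := by
  have he := C.e0
  have hκ := C.κ0
  induction N with
  | zero =>
    intro t ht hy hr
    norm_num at hr
    have h1 := C.b62 hy
    have h2 := C.P0 ht
    apply MB_harn he hκ ht
    have h3 : e * Real.sinh κ * (Ps e κ p q t)⁻¹ * t.re = rz e κ t / Ps e κ p q t := by
      unfold rz bet; ring
    rw [h3, one_le_div h2]
    unfold Ps
    have := C.q1
    nlinarith
  | succ N IH =>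
    intro t ht hy hr
    rcases le_or_gt (2 * Bs (p * (Sz e κ t / e))) (rz e κ t) with h1 | h1
    · have h2 := C.P0 ht
      apply MB_harn he hκ ht
      have h3 : e * Real.sinh κ * (Ps e κ p q t)⁻¹ * t.re = rz e κ t / Ps e κ p q t := by
        unfold rz bet; ring
      rw [h3, one_le_div h2]
      unfold Ps
      have := C.q1
      have := rz_pos he hκ ht
      nlinarith
    · have h1' := h1.le
      obtain ⟨k1, k2, k3, k4⟩ := small_r C ht hy h1'
      obtain ⟨g1, g2, g3⟩ := seg_facts C ht hy k3 (right_mem_segment ℝ t (shf κ t))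
      have hsre := shf_re hκ ht.le
      have hv := v0_le C ht hy h1'
      have hr' : 31 / 25 - N * (bet e κ ^ 2 / (2 * e)) ≤ rz e κ t + bet e κ ^ 2 / (2 * e) := by
        push_cast at hr
        linarith
      have IH' : ∀ u : ℂ, 0 < u.re → |yz e κ u| ≤ Y →
          rz e κ t + bet e κ ^ 2 / (2 * e) ≤ rz e κ u → MB e κ (Ps e κ p q u)⁻¹ u :=
        fun u hu hyu hru => IH u hu hyu (hr'.trans hru)
      have hM := fun z hz => M_seg C ht hy h1' IH' (z := z) hz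
      have hls : ‖log (fT e κ t) - log (fT e κ (shf κ t))‖ ≤
          (Sz e κ t / e) * (1 + 2 / e) * (1 + (Bs (p * (Sz e κ t / e)) * (1 - 10 / e))⁻¹) := by
        have e1 := lf_sub he hκ ht hsre hM
        rw [norm_sub_rev] at e1
        refine e1.trans ?_
        have e2 := (z_diff he hκ ht).trans (Vz_le he hκ t)
        have h10e : 10 / e ≤ 1 / 20 := by
          rw [div_le_div_iff₀ he (by norm_num)]; linarith [C.e200]
        have hM0 : 0 ≤ 1 + (Bs (p * (Sz e κ t / e)) * (1 - 10 / e))⁻¹ := by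
          have := Bs_pos (C.s0 t)
          have : 0 < Bs (p * (Sz e κ t / e)) * (1 - 10 / e) := mul_pos this (by linarith)
          positivity
        have e3 : (Sz e κ t + rz e κ t ^ 2) / e ≤ (Sz e κ t / e) * (1 + 2 / e) := by
          have : (Sz e κ t / e) * (1 + 2 / e) = (Sz e κ t + 2 * (Sz e κ t / e)) / e := by
            field_simp
          rw [this]
          gcongr
        calc e * Real.sinh κ * (1 + (Bs (p * (Sz e κ t / e)) * (1 - 10 / e))⁻¹) *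
            ‖shf κ t - t‖ = (e * Real.sinh κ * ‖shf κ t - t‖) *
              (1 + (Bs (p * (Sz e κ t / e)) * (1 - 10 / e))⁻¹) := by ring
          _ ≤ _ := mul_le_mul_of_nonneg_right (e2.trans e3) hM0
      have hP := RePl_ge C ht hy h1' hls
      have hI := IH' (shf κ t) hsre (g2.trans hy) hv
      have hPs := C.P0 hsre
      have hPt := C.P0 ht
      have h2 := MB_rec he hκ ht (inv_nonneg.2 hPs.le) hI
      refine h2.mono he hκ ?_
      have hD := D_ge C ht hy h1'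
      have hqq : ‖qq e κ t‖ ≤ (1 + q * rz e κ t)⁻¹ := by
        rw [qq_exp he hκ ht, Complex.norm_exp, Complex.neg_re, Real.exp_neg]
        apply inv_anti₀
        · have := rz_pos he hκ ht
          have := C.q0
          positivity
        · have := Real.add_one_le_exp (Pl e κ t).re
          linarith
      have hr0 := rz_pos he hκ ht
      have hq0 := C.q0
      have hqr : 0 < 1 + q * rz e κ t := by positivity
      have h3 : ‖qq e κ t‖ * (1 + (Ps e κ p q (shf κ t))⁻¹) ≤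
          (1 + q * rz e κ t)⁻¹ * (1 + (Ps e κ p q (shf κ t))⁻¹) := by gcongr
      refine h3.trans ?_
      have hb := Bs_sq (C.s0 t)
      have hb1 := Bs_lt_one (C.s0 t)
      have hPd : Ps e κ p q t = Bs (p * (Sz e κ t / e)) + q * rz e κ t / 2 := rfl
      obtain ⟨P', hP'⟩ : ∃ P', P' = Ps e κ p q (shf κ t) := ⟨_, rfl⟩
      obtain ⟨P, hPP⟩ : ∃ P, P = Ps e κ p q t := ⟨_, rfl⟩
      obtain ⟨b, hbb⟩ : ∃ b, b = Bs (p * (Sz e κ t / e)) := ⟨_, rfl⟩
      obtain ⟨s, hs⟩ : ∃ s, s = p * (Sz e κ t / e) := ⟨_, rfl⟩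
      obtain ⟨h, hh⟩ : ∃ h, h = q * rz e κ t / 2 := ⟨_, rfl⟩
      have hqh : q * rz e κ t = 2 * h := by rw [hh]; ring
      have hh0 : 0 < h := by rw [hh]; positivity
      rw [← hbb, ← hs] at hb
      rw [← hbb, ← hh] at hPd
      rw [← hbb] at hb1
      rw [← hP', ← hPP, ← hs] at hD
      rw [← hPP] at hPd hPt ⊢
      rw [← hP'] at hPs ⊢
      rw [hqh]
      have h12 : 0 < 1 + 2 * h := by linarith
      have e1 : (1 + 2 * h)⁻¹ * (1 + P'⁻¹) = (P' + 1) / ((1 + 2 * h) * P') := by field_simp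
      rw [e1, div_le_iff₀ (by positivity), inv_mul_eq_div, le_div_iff₀ hPt]
      have hs0 : 0 < s := by rw [hs]; exact C.s0 t
      -- (P' + 1) * P ≤ (1 + 2 h) P'
      obtain ⟨D, hDD⟩ : ∃ D, D = P' - P := ⟨_, rfl⟩
      have hP'e : P' = P + D := by rw [hDD]; ring
      rw [← hDD] at hD
      have hD0 : 0 ≤ D := by linarith
      have e2 : (1 + 2 * h) * P' - (P' + 1) * P = D * (1 - b) - b ^ 2 + D * h + h ^ 2 := by
        rw [hP'e, hPd]; ring
      have e3 : b ^ 2 ≤ D * (1 - b) := by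
        have := mul_le_mul_of_nonneg_right hD (by linarith : 0 ≤ 1 - b)
        linarith
      have e4 : 0 ≤ D * h := mul_nonneg hD0 hh0.le
      nlinarith [sq_nonneg h]

/-- **The closed bound.** -/
theorem MB_sup (C : MC e κ Y w p q) {t : ℂ} (ht : 0 < t.re) (hy : |yz e κ t| ≤ Y) :
    MB e κ (Ps e κ p q t)⁻¹ t := by
  have hv : 0 < bet e κ ^ 2 / (2 * e) := by
    have := bet_pos C.e0 C.κ0
    have := C.e0
    positivity
  obtain ⟨N, hN⟩ := exists_nat_ge ((31 / 25) / (bet e κ ^ 2 / (2 * e)))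
  rw [div_le_iff₀ hv] at hN
  exact MB_ind C N t ht hy (by linarith [rz_pos C.e0 C.κ0 ht])

end Pool.Agent.helper31.EQB
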