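import Pool.Agent.helper31.EQB.NFA0
import Pool.Agent.helper31.EQB.MCN
import Pool.Agent.helper31.EQB.LamN
import Pool.Agent.helper31.EQB.MqN

/-!
# EQB-29: first node of chart A: program ⇒ `FN`, `FN2`

See the header of Prog for the scaling.  `Gr = GrS √e`, `Gt = GtS √e`, `G2 = G2S √e`, `F = Gr`, `gt = Gt/e`, `ft = Gt`, `a = P.a`,
`lal = log 2`, `gl = 8/5 V`, `S0l = (R sR0)²`, `Sl = R² m2`, `lau = P.lau`, `lf0 = lf1 = Gr - lau`, `Ma`, `Mb`, `M1` arbitrary with the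
relations `hDG .. hEMr`.
-/

namespace Pool.Agent.helper31.EQB

open Complex ComplexConjugate Set Filter Topology
open Pool.Agent.helper31.EQ.Y Pool.Agent.helper31.EQ.R
open Pool.Agent.helper12.EQL Pool.Agent.helper12.RP Pool.Agent.helper12.FF Pool.Agent.helper12.RS
open Pool.Agent.helper63.FF

variable {e κ : ℝ}

section

variable {e s sg K be v R kc vs GrS GtS G2S DG DF vDG EM EMr Ma Mb M1 : ℝ}
  {P : PFA cFA sg be v R kc vs GrS GtS G2S DG DF vDG EM EMr}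

private theorem fa_X0 (B : FaB e s sg K be v R kc vs P) : 0 < P.X := by
  have h1 := B.hR
  have h2 := B.hbe0
  have c12 : cFA.aS = 2261 / 16384 := rfl
  rw [P.e_X, P.e_XS, P.e_i4, c12]
  positivity

private theorem fa_X1 (P : PFA cFA sg be v R kc vs GrS GtS G2S DG DF vDG EM EMr) : P.X < 1 :=
  sub_pos.1 P.p_X1

private theorem fa_LX (B : FaB e s sg K be v R kc vs P) : -Real.log (1 - P.X) ≤ P.X * P.LX := by
  have h := fa_log (c := 174763 / 524288) (fa_X0 B).le (fa_X1 P) (by norm_num)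
  rw [P.e_LX, P.e_iX]
  exact h

private theorem fa_LX0 (B : FaB e s sg K be v R kc vs P) : 0 ≤ P.X * P.LX := by
  refine le_trans ?_ (fa_LX B)
  have h0 := fa_X0 B
  have h1 := fa_X1 P
  rw [neg_nonneg]
  exact Real.log_nonpos (by linarith) (by linarith)

private theorem fa_m2 (P : PFA cFA sg be v R kc vs GrS GtS G2S DG DF vDG EM EMr) :
    P.m2 = P.m ^ 2 := by rw [P.e_m2]; ring

private theorem fa_m20 (P : PFA cFA sg be v R kc vs GrS GtS G2S DG DF vDG EM EMr) :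
    0 < P.m2 := by
  have h := P.p_m0
  rw [fa_m2]; positivity

private theorem fa_z0 (B : FaB e s sg K be v R kc vs P) : 0 ≤ P.z := by
  have h1 := B.hvs0
  have h2 := B.hVie0
  rw [P.e_z]
  positivity

private theorem n_z {a b : ℝ} (h1 : a ^ 2 ≤ 1) (h2 : b ≤ 7 / 100 * (1 / 500)) (h3 : 0 ≤ b) :
    2 * (a ^ 2 * b) ≤ 1 / 100 := by
  have h4 : a ^ 2 * b ≤ 1 * b := mul_le_mul_of_nonneg_right h1 h3
  linarith

private theorem fa_vs1 (B : FaB e s sg K be v R kc vs P) : vs ^ 2 ≤ 1 := by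
  have h1 := B.hkv1
  have h2 := sq_nonneg kc
  linarith

private theorem fa_z1 (B : FaB e s sg K be v R kc vs P) : P.z ≤ 1 / 100 := by
  have h1 : P.z = 2 * (vs ^ 2 * (P.V * P.ie)) := by rw [P.e_z, P.e_Vie]; ring
  have hV := B.hVp
  have hi := B.hie0
  rw [h1]
  exact n_z (fa_vs1 B) (mul_le_mul B.hV7 B.hie5 B.hie0.le (by norm_num)) (by positivity)

private theorem n_d {d : ℝ} (h0 : 0 ≤ d) (h : 0 < 7763 / 4096 - (d + 1) * (d + 1)) :
    d ≤ 377 / 1000 := by nlinarith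

private theorem fa_d1 (B : FaB e s sg K be v R kc vs P) : P.dzR ≤ 377 / 1000 :=
  n_d B.hdzR0 P.p_R1

private theorem n_m {z d m : ℝ} (hz0 : 0 ≤ z) (hz1 : z ≤ 1 / 100) (hd0 : 0 ≤ d)
    (hd1 : d ≤ 377 / 1000) (hm : m = (1 - z) - d - d * d) :
    m ^ 2 ≤ (1 - z) ^ 2 - 2 * d * (1 - z) ∧ m ≤ 1 := by
  have hdd : d * d ≤ 377 / 1000 * (377 / 1000) := mul_le_mul hd1 hd1 hd0 (by norm_num)
  have hdd0 : 0 ≤ d * d := mul_nonneg hd0 hd0
  have h3 : 0 ≤ d * d * (2 * (1 - z - d) - (1 + d * d)) := mul_nonneg hdd0 (by linarith)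
  refine ⟨?_, by rw [hm]; linarith⟩
  have h4 : (1 - z) ^ 2 - 2 * d * (1 - z) - m ^ 2 = d * d * (2 * (1 - z - d) - (1 + d * d)) := by
    rw [hm]; ring
  linarith

private theorem fa_mm (B : FaB e s sg K be v R kc vs P) :
    P.m ^ 2 ≤ P.sR0 ^ 2 - 2 * P.dzR * P.sR0 ∧ P.m ≤ 1 := by
  have h := P.e_m
  rw [P.e_sR0] at h ⊢
  exact n_m (fa_z0 B) (fa_z1 B) B.hdzR0 (fa_d1 B) h

private theorem fa_sR0 (B : FaB e s sg K be v R kc vs P) : 0 ≤ P.sR0 ∧ P.sR0 ≤ 1 := by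
  have h0 := fa_z0 B
  have h1 := fa_z1 B
  rw [P.e_sR0]
  constructor <;> linarith

private theorem fa_sqS (B : FaB e s sg K be v R kc vs P) : √(R ^ 2 * P.m2) = R * P.m := by
  have h := P.p_m0
  have hR := B.hR
  rw [fa_m2, ← mul_pow]
  exact Real.sqrt_sq (by positivity)

private theorem n_ea {a : ℝ} (h0 : 1 ≤ a) (h : a * a ≤ 9 / 8) : a ≤ 107 / 100 := by nlinarith

private theorem fa_ea (B : FaB e s sg K be v R kc vs P) : P.ea ≤ 107 / 100 := by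
  refine n_ea B.hea1 ?_
  rw [← P.e_e2a]
  exact B.he2

private theorem n_r1 {k w a b h r : ℝ} (hk : k ^ 2 + w ^ 2 = 1) (ha1 : 1 ≤ a) (ha : a ≤ 107 / 100)
    (hb : b ≤ 9 / 8) (hh0 : 99 / 100 ≤ h) (hh1 : h ≤ 1) (hr : r ≤ 1 / 50) :
    0 < h * (3 - (3 / 2) * b) - (1 / 2) * (k * k) - w * w * a - r := by
  have h1 : (99 / 100) * (21 / 16) ≤ h * (3 - (3 / 2) * b) :=
    mul_le_mul hh0 (by linarith) (by norm_num) (by linarith)
  have h2 : 0 ≤ k ^ 2 * (a - 1 / 2) := mul_nonneg (sq_nonneg k) (by linarith)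
  have h3 : (1 / 2) * (k * k) + w * w * a = a * (k ^ 2 + w ^ 2) - k ^ 2 * (a - 1 / 2) := by ring
  rw [hk] at h3
  linarith

private theorem n_h4 {K : ℝ} (h0 : 0 < K) (h1 : K ≤ 1 / 100) :
    99 / 100 ≤ 1 - (1 / 4) * K ^ 2 ∧ 1 - (1 / 4) * K ^ 2 ≤ 1 := by
  constructor <;> nlinarith

private theorem fa_h4 (B : FaB e s sg K be v R kc vs P) :
    P.h4 = 1 - (1 / 4) * K ^ 2 := by rw [P.e_h4, B.hK2]

private theorem fa_h4b (B : FaB e s sg K be v R kc vs P) :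
    99 / 100 ≤ P.h4 ∧ P.h4 ≤ 1 := by
  rw [fa_h4 B]
  exact n_h4 B.hK0 B.hK1

private theorem fa_r1V (B : FaB e s sg K be v R kc vs P) : 0 < P.r1V := by
  rw [P.e_r1V]
  exact n_r1 B.hkv1 B.hea1 (fa_ea B) B.he2 (fa_h4b B).1 (fa_h4b B).2 B.her2

private theorem fa_kv0 (B : FaB e s sg K be v R kc vs P) : 0 < P.kv + P.r1w * P.r1w := by
  have h := B.hkc0
  rw [P.e_kv]
  have h1 := mul_self_nonneg P.ycR
  have h2 := mul_self_nonneg P.r1w
  positivity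

private theorem fa_x10 (B : FaB e s sg K be v R kc vs P) : 0 < P.x1 := by
  have h1 := fa_kv0 B
  have h2 := fa_r1V B
  rw [P.e_x1]
  positivity

private theorem fa_x11 (P : PFA cFA sg be v R kc vs GrS GtS G2S DG DF vDG EM EMr) :
    P.x1 ≤ 1 := by
  have h := P.p_x11
  linarith

private theorem fa_u0 (P : PFA cFA sg be v R kc vs GrS GtS G2S DG DF vDG EM EMr) :
    0 < P.u := by
  rw [P.e_u]
  exact Real.exp_pos _

private theorem fa_u1 (B : FaB e s sg K be v R kc vs P) : P.u ≤ 1 := by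
  have h1 := fa_x10 B
  have h2 := B.hVp
  have h3 := fa_m20 P
  have h4 := P.p_q20
  rw [P.e_u, P.e_lv, P.e_l1]
  apply Real.exp_le_one_iff.2
  rw [neg_nonpos]
  positivity

private theorem fa_uX0 (B : FaB e s sg K be v R kc vs P) : 0 < P.uX := by
  rw [P.e_uX]
  exact mul_pos (fa_u0 P) (fa_X0 B)

private theorem fa_uX1 (B : FaB e s sg K be v R kc vs P) : P.uX < 1 := by
  have h1 := fa_u1 B
  have h2 := fa_X0 B
  have h3 := fa_X1 P
  have h4 := mul_le_mul_of_nonneg_right h1 h2.le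
  rw [P.e_uX]
  linarith

private theorem fa_LU (B : FaB e s sg K be v R kc vs P) :
    -Real.log (1 - P.u * P.X) ≤ P.uX * P.LU := by
  have h := fa_log (c := 174763 / 524288) (fa_uX0 B).le (fa_uX1 B) (by norm_num)
  rw [P.e_LU, ← P.e_uX]
  exact h

private theorem fa_LU0 (B : FaB e s sg K be v R kc vs P) : 0 ≤ P.uX * P.LU := by
  refine le_trans ?_ (fa_LU B)
  have h0 := fa_uX0 B
  have h1 := fa_uX1 B
  rw [neg_nonneg, ← P.e_uX]
  exact Real.log_nonpos (by linarith) (by linarith)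

private theorem fa_DG0 (B : FaB e s sg K be v R kc vs P) (HM : RelA P Ma Mb M1) : 0 ≤ DG := by
  have h1 := fa_LX0 B
  have h2 := HM.Mb0
  have h3 := B.hdz0
  rw [HM.hDG]
  positivity

private theorem fa_DF0 (B : FaB e s sg K be v R kc vs P) (HM : RelA P Ma Mb M1) : 0 ≤ DF := by
  have h1 := fa_LU0 B
  have h2 := HM.Ma0
  have h3 := B.hdz0
  rw [HM.hDF]
  positivity

private theorem fa_vDG0 (B : FaB e s sg K be v R kc vs P) (HM : RelA P Ma Mb M1) :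
    0 ≤ vDG := by
  have h1 := fa_DG0 B HM
  have h2 := HM.hvDG
  have h3 := B.hv0
  have h4 := B.hR
  have h5 : 0 ≤ vDG * R ^ 2 := by rw [h2]; positivity
  exact nonneg_of_mul_nonneg_left h5 (by positivity)

private theorem fa_EQ0 (B : FaB e s sg K be v R kc vs P) (HM : RelA P Ma Mb M1) :
    0 ≤ P.EQ := by
  have h1 := fa_DG0 B HM
  have h2 := fa_DF0 B HM
  have h3 := fa_vDG0 B HM
  have h4 := B.hie0
  have h5 := B.he1
  rw [P.e_EQ]
  positivity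

private theorem fa_E0 (B : FaB e s sg K be v R kc vs P) (HM : RelA P Ma Mb M1) : 0 ≤ P.E := by
  rw [P.e_E]
  exact mul_nonneg (fa_EQ0 B HM) B.hVp.le

private theorem fa_ER (B : FaB e s sg K be v R kc vs P) : P.E = R * P.ER := by
  rw [P.e_E, P.e_ER, ← B.hRwse]
  ring

private theorem fa_ER0 (B : FaB e s sg K be v R kc vs P) (HM : RelA P Ma Mb M1) :
    0 ≤ P.ER := by
  rw [P.e_ER]
  exact mul_nonneg (fa_EQ0 B HM) B.hwse0.le

private theorem fa_Qw (B : FaB e s sg K be v R kc vs P) : P.E = R * P.m * P.Qw := by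
  have h := P.p_m0
  rw [fa_ER B, P.e_Qw, P.e_im]
  field_simp

private theorem fa_Qw0 (B : FaB e s sg K be v R kc vs P) (HM : RelA P Ma Mb M1) :
    0 ≤ P.Qw := by
  have h := P.p_m0
  have h1 := fa_ER0 B HM
  rw [P.e_Qw, P.e_im]
  positivity

private theorem fa_Qw1 (P : PFA cFA sg be v R kc vs GrS GtS G2S DG DF vDG EM EMr) :
    P.Qw < 1 := sub_pos.1 P.p_Es

private theorem fa_Es (B : FaB e s sg K be v R kc vs P) : P.E < √(R ^ 2 * P.m2) := by
  have h1 := B.hR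
  have h2 := P.p_m0
  have h3 := fa_Qw1 P
  have h4 : 0 < R * P.m := by positivity
  rw [fa_sqS B, fa_Qw B]
  nlinarith

private theorem fa_Eq (B : FaB e s sg K be v R kc vs P) :
    2 * P.E / √(R ^ 2 * P.m2) = 2 * P.Qw := by
  have h1 := B.hR
  have h2 := P.p_m0
  have h4 : R * P.m ≠ 0 := by positivity
  rw [fa_sqS B, fa_Qw B, div_eq_iff h4]
  ring

private theorem fa_500 (B : FaB e s sg K be v R kc vs P) : 500 / e ^ 2 ≤ 1 / 500 := by
  have h1 := B.he5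
  have h2 := B.he0
  rw [div_le_div_iff₀ (by positivity) (by norm_num)]
  nlinarith

private theorem fa_c2 (B : FaB e s sg K be v R kc vs P) :
    P.c2 ≤ 1 - 2 * P.Qw - 500 / e ^ 2 := by
  have h1 := fa_500 B
  rw [P.e_c2]
  linarith

private theorem fa_c20 (P : PFA cFA sg be v R kc vs GrS GtS G2S DG DF vDG EM EMr) :
    0 < P.c2 := by
  have h1 := P.p_h9
  have c2 : cFA.RH = 1485 / 512 := rfl
  rw [c2] at h1
  have h2 : 0 < P.m2 * P.c2 := by linarith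
  exact (mul_pos_iff_of_pos_left (fa_m20 P)).1 h2

private theorem fa_Sle (B : FaB e s sg K be v R kc vs P) : R ^ 2 * P.m2 / e = P.V * P.m2 := by
  rw [B.hdiv, B.hV1]
  ring

private theorem fa_V1 (B : FaB e s sg K be v R kc vs P) : P.V ≤ e / 100 := by
  have h1 := B.hV7
  have h2 := B.he5
  linarith

private theorem fa_hV (B : FaB e s sg K be v R kc vs P) :
    P.V = ((e * K) ^ 2 + v ^ 2) / e := by
  rw [B.hdiv, ← B.hbe, ← B.hR2, B.hV1]
  ring

private theorem fa_hlau (B : FaB e s sg K be v R kc vs P) :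
    e * K / 2 + Real.log (1 + Real.exp (-(e * K))) = P.lau := by
  rw [P.e_lau, ← B.hbe, add_comm (1 : ℝ)]
  ring

private theorem fa_lau2 (B : FaB e s sg K be v R kc vs P) : Real.log 2 ≤ P.lau := by
  rw [P.e_lau]
  have h1 : (1 / 2) * be = Real.log (Real.exp ((1 / 2) * be)) := (Real.log_exp _).symm
  have h2 : (2 : ℝ) ≤ Real.exp ((1 / 2) * be) * (Real.exp (-be) + 1) := by
    have h3 := Real.one_le_cosh ((1 / 2) * be)
    rw [Real.cosh_eq] at h3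
    have h4 : Real.exp ((1 / 2) * be) * Real.exp (-be) = Real.exp (-((1 / 2) * be)) := by
      rw [← Real.exp_add]; congr 1; ring
    rw [mul_add, h4]
    linarith
  have h5 : 0 < Real.exp (-be) + 1 := by positivity
  have h6 : (1 / 2) * be + Real.log (Real.exp (-be) + 1) =
      Real.log (Real.exp ((1 / 2) * be) * (Real.exp (-be) + 1)) := by
    rw [Real.log_mul (Real.exp_pos _).ne' h5.ne', Real.log_exp]
  rw [h6]
  exact Real.log_le_log (by norm_num) h2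

private theorem fa_Gr (B : FaB e s sg K be v R kc vs P) (HG : RelG sg v P.lau GrS GtS G2S) :
    P.lau ≤ GrS * s := by
  have h1 := mul_le_mul_of_nonneg_right HG.h0 B.hs0.le
  have h2 : sg * P.lau * s = P.lau := by linear_combination P.lau * B.hsg
  linarith

private theorem fa_Gr2 (B : FaB e s sg K be v R kc vs P) (HG : RelG sg v P.lau GrS GtS G2S) :
    8 / 5 * P.V ≤ GrS * s ∧ 0 ≤ GrS * s := by
  have h1 := fa_Gr B HG
  have h2 := fa_lau2 B
  have h3 := Real.log_two_gt_d9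
  have h4 := B.hV7
  constructor <;> linarith

private theorem fa_sv (B : FaB e s sg K be v R kc vs P) : (sg * v) ^ 2 * s ^ 2 = v ^ 2 := by
  linear_combination v ^ 2 * (sg * s + 1) * B.hsg

private theorem fa_G2 (B : FaB e s sg K be v R kc vs P) (HG : RelG sg v P.lau GrS GtS G2S) :
    (GrS * s) ^ 2 + v ^ 2 / 4 ≤ (G2S * s) ^ 2 := by
  have h1 := fa_sv B
  have h2 : (G2S * s) ^ 2 = (GrS * s) ^ 2 + v ^ 2 / 4 := by
    rw [mul_pow, HG.h2]
    linear_combination (1 / 4) * h1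
  exact h2.ge

private theorem fa_Gt (B : FaB e s sg K be v R kc vs P) (HG : RelG sg v P.lau GrS GtS G2S) :
    (GrS * s) ^ 2 + v ^ 2 ≤ (GtS * s) ^ 2 := by
  have h1 := fa_sv B
  have h2 : (GtS * s) ^ 2 = (GrS * s) ^ 2 + v ^ 2 := by
    rw [mul_pow, HG.h1]
    linear_combination h1
  exact h2.ge

private theorem fa_gte (B : FaB e s sg K be v R kc vs P) : GtS * s / e * e = GtS * s :=
  div_mul_cancel₀ _ B.he0.ne'

private theorem fa_gt2 (B : FaB e s sg K be v R kc vs P) :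
    (GtS * s / e) ^ 2 = GtS ^ 2 * P.ie := by
  rw [B.hdiv, mul_assoc, B.hsie, P.e_ie]
  ring

private theorem fa_hdz (B : FaB e s sg K be v R kc vs P) :
    v / e * (G2S * s) + v * Real.exp P.a * ((GtS * s / e) ^ 2 / 2 + K ^ 2 / 7) +
      K ^ 2 * v ^ 2 / (8 * e) +
      P.V * (3 / 2 * (Real.exp (2 * P.a) - 1) + 3 / 4 * K ^ 2 + v / e) +
      P.V * (8 / 5 * P.V + 5 / 2 * v) / e ≤ P.dz := by
  have h0 := B.herr
  have h1 : v / e * (G2S * s) = v * sg * G2S := by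
    rw [B.hdiv]; linear_combination v * G2S * B.hsie
  have h2 : K ^ 2 * v ^ 2 / (8 * e) = K ^ 2 * v ^ 2 * P.ie / 8 := by
    rw [mul_comm (8 : ℝ) e, ← div_div, B.hdiv]
  have h3 : 0 ≤ v * P.ea * K ^ 2 := by
    have := B.hv0
    have := B.hea1
    positivity
  rw [B.hdzE, h1, h2, fa_gt2 B, ← P.e_ea, ← B.he2a, B.hdiv v]
  nlinarith

private theorem fa_hr1 (B : FaB e s sg K be v R kc vs P) :
    P.r1V * P.V ≤ (1 - K ^ 2 / 4) * P.V * (3 - 3 / 2 * Real.exp (2 * P.a)) -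
      (e * K) ^ 2 / e / 2 - v ^ 2 / e * Real.exp P.a - P.V * (8 / 5 * P.V + 5 / 2 * v) / e := by
  have h0 := B.herr
  have h1 := B.hVk
  have h2 := B.hVv
  have h3 : P.r1V * P.V = (1 - K ^ 2 / 4) * P.V * (3 - 3 / 2 * P.e2a) - be ^ 2 / e / 2 -
      v ^ 2 / e * P.ea - P.V * P.er := by
    rw [P.e_r1V, fa_h4 B]
    linear_combination -(1 / 2) * h1 - P.ea * h2
  rw [h3, ← B.he2a, ← P.e_ea, ← B.hbe]
  linarith

private theorem fa_hr2 (B : FaB e s sg K be v R kc vs P) :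
    P.V * (3 / 2 * Real.exp (2 * P.a)) - (1 - K ^ 2 / 4) * ((e * K) ^ 2 / e) / 2 +
      P.V * (8 / 5 * P.V + 5 / 2 * v) / e ≤ P.r2V * P.V := by
  have h0 := B.herr
  have h1 := B.hVk
  have h3 : P.r2V * P.V = P.V * (3 / 2 * P.e2a) - (1 - K ^ 2 / 4) * (be ^ 2 / e) / 2 +
      P.V * P.er := by
    rw [P.e_r2V, fa_h4 B]
    linear_combination -(1 / 2) * (1 - K ^ 2 / 4) * h1
  rw [h3, ← B.he2a, ← B.hbe]
  linarith

private theorem n_glf {V ie : ℝ} (hV0 : 0 < V) (hV : V ≤ 7 / 100) (hi0 : 0 < ie)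
    (hi : ie ≤ 1 / 500) :
    Real.exp (8 / 5 * V * ie) ≤ 1 + (267387 / 262144) * ((838861 / 524288) * V * ie) := by
  have h1 : V * ie ≤ 7 / 100 * (1 / 500) := mul_le_mul hV hi hi0.le (by norm_num)
  have h0 : 0 < V * ie := by positivity
  have h2 := fa_exp_lin (y := 8 / 5 * V * ie) (by positivity) (by linarith)
  refine h2.trans ?_
  linarith

private theorem fa_hyc (B : FaB e s sg K be v R kc vs P) :
    v * Real.exp (8 / 5 * P.V / e) + 2 * P.V * v * Real.exp (2 * P.a) / e +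
      P.V * (8 / 5 * P.V + 5 / 2 * v) / e ≤ P.ycR * R := by
  have h0 := B.herr
  have h1 : P.ycR * R = v * P.glf + 2 * P.V * v * P.e2a * P.ie + P.V * P.er := by
    rw [P.e_ycR, P.e_Vie]
    linear_combination (P.glf + 2 * (P.V * P.ie * P.e2a)) * B.hvR + P.er * B.hRwse
  have h2 : v * Real.exp (8 / 5 * P.V / e) ≤ v * P.glf := by
    refine mul_le_mul_of_nonneg_left ?_ B.hv0
    rw [P.e_glf, B.hdiv]
    exact n_glf B.hVp B.hV7 B.hie0 B.hie5
  rw [h1, ← B.he2a, B.hdiv (2 * P.V * v * P.e2a)]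
  linarith

private theorem fa_r1R (B : FaB e s sg K be v R kc vs P) : P.r1V * P.V = R * P.r1w := by
  rw [P.e_r1w, ← B.hRwse]; ring

private theorem fa_r2R (B : FaB e s sg K be v R kc vs P) : P.r2V * P.V = R * P.r2w := by
  rw [P.e_r2w, ← B.hRwse]; ring

private theorem fa_beR (B : FaB e s sg K be v R kc vs P) : e * K = kc * R := by
  rw [B.hkR, B.hbe]

private theorem fa_hx1 (B : FaB e s sg K be v R kc vs P) :
    P.x1 * ((e * K) ^ 2 + (P.ycR * R) ^ 2 + (P.r1V * P.V) ^ 2) / e ≤ P.r1V * P.V := by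
  have h1 := fa_kv0 B
  have h2 : P.x1 * (P.kv + P.r1w * P.r1w) = (1023 / 1024) * P.r1V := by
    rw [P.e_x1]
    exact inv_mul_cancel_right₀ h1.ne' _
  have h3 : P.x1 * ((e * K) ^ 2 + (P.ycR * R) ^ 2 + (P.r1V * P.V) ^ 2) / e =
      (1023 / 1024) * (P.r1V * P.V) := by
    have e1 : (P.r1V * P.V) ^ 2 = (R * P.r1w) ^ 2 := by rw [fa_r1R B]
    rw [e1, fa_beR B, B.hdiv, B.hV1]
    rw [P.e_kv] at h2
    linear_combination P.ie * R ^ 2 * h2
  rw [h3]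
  have h4 := mul_pos (fa_r1V B) B.hVp
  linarith

private theorem n_r2 {a h k r V : ℝ} (ha : a ≤ 9 / 8) (hh : 0 ≤ h) (hr : r ≤ 1 / 50)
    (hV0 : 0 < V) (hV : V ≤ 7 / 100) :
    ((3 / 2) * a - h * ((1 / 2) * (k * k)) + r) * V ≤ 1 := by
  have h1 : 0 ≤ h * ((1 / 2) * (k * k)) := by
    have := mul_self_nonneg k
    positivity
  have h2 : ((3 / 2) * a - h * ((1 / 2) * (k * k)) + r) * V ≤ 2 * V :=
    mul_le_mul_of_nonneg_right (by linarith) hV0.le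
  linarith

private theorem fa_r2e (B : FaB e s sg K be v R kc vs P) : P.r2V * P.V ≤ e / 2 := by
  have h1 : P.r2V * P.V ≤ 1 := by
    rw [P.e_r2V]
    have := (fa_h4b B).1
    exact n_r2 B.he2 (by linarith) B.her2 B.hVp B.hV7
  have h2 := B.he5
  linarith

private theorem n_S0 {c w y : ℝ} (h1 : c ^ 2 + w ^ 2 = 1) (hy : 0 ≤ y)
    (hz : 2 * (w ^ 2 * y) ≤ 1) :
    (1 - 2 * (w ^ 2 * y)) ^ 2 ≤ c ^ 2 + w ^ 2 * (1 / (1 + y) ^ 2) := by
  have h0 : 0 ≤ w ^ 2 * y := by positivity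
  have h2 : 1 - 2 * y ≤ 1 / (1 + y) ^ 2 := by
    rw [le_div_iff₀ (by positivity)]
    nlinarith [mul_nonneg hy (sq_nonneg y), sq_nonneg y]
  have h3 : w ^ 2 * (1 - 2 * y) ≤ w ^ 2 * (1 / (1 + y) ^ 2) :=
    mul_le_mul_of_nonneg_left h2 (sq_nonneg w)
  have h4 : (1 - 2 * (w ^ 2 * y)) ^ 2 ≤ 1 - 2 * (w ^ 2 * y) := by nlinarith
  nlinarith

private theorem fa_hS0 (B : FaB e s sg K be v R kc vs P) :
    (R * P.sR0) ^ 2 ≤ (e * K) ^ 2 + (v / (1 + P.V / e)) ^ 2 := by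
  have hz1 := fa_z1 B
  have hV := B.hVp
  have hi := B.hie0
  have hz : P.z = 2 * (vs ^ 2 * (P.V / e)) := by rw [P.e_z, P.e_Vie, B.hdiv]; ring
  rw [hz] at hz1
  have hy : 0 ≤ P.V / e := by rw [B.hdiv]; positivity
  have h1 := n_S0 B.hkv1 hy (by linarith)
  have h2 := mul_le_mul_of_nonneg_left h1 (sq_nonneg R)
  have h3 : (R * P.sR0) ^ 2 = R ^ 2 * (1 - 2 * (vs ^ 2 * (P.V / e))) ^ 2 := by
    rw [P.e_sR0, hz]; ring
  have h4 : (e * K) ^ 2 + (v / (1 + P.V / e)) ^ 2 =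
      R ^ 2 * (kc ^ 2 + vs ^ 2 * (1 / (1 + P.V / e) ^ 2)) := by
    rw [fa_beR B, div_pow, div_eq_mul_one_div (v ^ 2)]
    linear_combination -(v + vs * R) * (1 / (1 + P.V / e) ^ 2) * B.hvR
  rw [h3, h4]
  exact h2

private theorem fa_sq0 (B : FaB e s sg K be v R kc vs P) : √((R * P.sR0) ^ 2) = R * P.sR0 :=
  Real.sqrt_sq (mul_nonneg B.hR.le (fa_sR0 B).1)

private theorem fa_dzS (B : FaB e s sg K be v R kc vs P) : P.dz ≤ √((R * P.sR0) ^ 2) := by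
  have h1 := P.p_dzS0
  have h2 := mul_le_mul_of_nonneg_left (by linarith : P.dzR ≤ P.sR0) B.hR.le
  rw [fa_sq0 B, B.hdzR]
  linarith

private theorem fa_hSl (B : FaB e s sg K be v R kc vs P) :
    R ^ 2 * P.m2 ≤ (R * P.sR0) ^ 2 * (1 - 2 * P.dz / √((R * P.sR0) ^ 2)) := by
  have h1 := P.p_dzS0
  have h2 := B.hdzR0
  have h3 : 0 < P.sR0 := by linarith
  have hR := B.hR
  have h4 : R * P.sR0 ≠ 0 := by positivity
  have h5 : (R * P.sR0) ^ 2 * (1 - 2 * P.dz / √((R * P.sR0) ^ 2)) =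
      R ^ 2 * (P.sR0 ^ 2 - 2 * P.dzR * P.sR0) := by
    rw [fa_sq0 B, B.hdzR]
    field_simp
  rw [h5, fa_m2]
  exact mul_le_mul_of_nonneg_left (fa_mm B).1 (sq_nonneg R)

private theorem fa_hu (B : FaB e s sg K be v R kc vs P) :
    Real.exp (-(P.q2 * (lam K P.x1 * (R ^ 2 * P.m2 / e)))) ≤ P.u := by
  rw [P.e_u, P.e_lv, P.e_l1, fa_Sle B]
  apply Real.exp_le_exp.2
  have h1 := fa_x10 B
  have h2 := fa_x11 P
  have h3 := lam_ge_F (K := K) B.hK0.le B.hK1 h1.le (by linarith)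
  have h4 : 0 ≤ P.q2 * (P.V * P.m2) :=
    mul_nonneg P.p_q20.le (mul_nonneg B.hVp.le (fa_m20 P).le)
  have h5 := mul_le_mul_of_nonneg_right h3 h4
  have e1 : P.q2 * ((16361 / 16384) * P.x1 * P.V * P.m2) =
      (16361 / 16384) * P.x1 * (P.q2 * (P.V * P.m2)) := by ring
  have e2 : P.q2 * (lam K P.x1 * (P.V * P.m2)) = lam K P.x1 * (P.q2 * (P.V * P.m2)) := by ring
  rw [e1, e2]
  exact neg_le_neg h5

private theorem fa_ae (B : FaB e s sg K be v R kc vs P) :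
    P.a * e = GtS * s + 461 / 512 := by
  have c1 : cFA.cD = 461 / 512 := rfl
  rw [P.e_a, c1]
  have h1 : sg * e = s := by rw [← B.hss]; linear_combination s * B.hsg
  linear_combination GtS * h1 + 461 / 512 * B.hieE

private theorem fa_haG (B : FaB e s sg K be v R kc vs P) :
    GtS * s / e * e + DG ≤ P.a * e := by
  have h := P.p_cG
  have c1 : cFA.cD = 461 / 512 := rfl
  rw [c1] at h
  rw [fa_gte B, fa_ae B]
  linarith

private theorem fa_haF (B : FaB e s sg K be v R kc vs P) : GtS * s + DF ≤ P.a * e := by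
  have h := P.p_cF
  have c1 : cFA.cD = 461 / 512 := rfl
  rw [c1] at h
  rw [fa_ae B]
  linarith

private theorem fa_hE (B : FaB e s sg K be v R kc vs P) (HM : RelA P Ma Mb M1) :
    53 / 50 * Real.exp (2 * P.a) * (v * DG + P.V * (2 * DG + DF)) / e ≤ P.E := by
  have h1 := fa_DG0 B HM
  have h2 := fa_DF0 B HM
  have h3 := B.he1
  have h4 := B.hv0
  have h5 := B.hVp
  have h6 := B.hie0
  have h7 : 0 ≤ P.e2a * ((v * DG + P.V * (2 * DG + DF)) * P.ie) := by positivity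
  have h8 : P.E = (1111491 / 1048576) * (P.e2a * ((v * DG + P.V * (2 * DG + DF)) * P.ie)) := by
    rw [P.e_E, P.e_EQ, B.hV1]
    linear_combination (1111491 / 1048576) * P.e2a * P.ie * HM.hvDG
  rw [h8, ← B.he2a, B.hdiv]
  nlinarith

private theorem fa_sR (B : FaB e s sg K be v R kc vs P) : √((e * K) ^ 2 + v ^ 2) = R := by
  rw [← B.hbe, ← B.hR2]
  exact Real.sqrt_sq B.hR.le

private theorem fa_RR (B : FaB e s sg K be v R kc vs P) (x : ℝ) :
    (R * x) ^ 2 / e = P.V * (x * x) := by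
  rw [B.hdiv, B.hV1]; ring

private theorem fa_hRH1 (B : FaB e s sg K be v R kc vs P) :
    201 / 200 * P.V + (√((e * K) ^ 2 + v ^ 2) + P.dz) ^ 2 / e ≤ cFA.RH * P.V := by
  have h := P.p_R1
  have c2 : cFA.RH = 1485 / 512 := rfl
  have c3 : cFA.RH1 = 7763 / 4096 := rfl
  rw [c3] at h
  have e1 : R + P.dz = R * (P.dzR + 1) := by rw [B.hdzR]; ring
  rw [fa_sR B, e1, fa_RR B, c2]
  have h2 : P.V * ((P.dzR + 1) * (P.dzR + 1)) ≤ P.V * (7763 / 4096) :=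
    mul_le_mul_of_nonneg_left (by linarith) B.hVp.le
  have h3 := B.hVp
  linarith

private theorem n_s1 {x : ℝ} (hx : 0 ≤ x) : √x ≤ (1 / 2) * (x - 1) + 1 := by
  have h1 := Real.sq_sqrt hx
  nlinarith [sq_nonneg (√x - 1)]

private theorem fa_hRH2 (B : FaB e s sg K be v R kc vs P) (HM : RelA P Ma Mb M1) :
    P.r2V * P.V + P.E + (√((e * K) ^ 2 + (P.ycR * R) ^ 2) + P.dz + P.E) ^ 2 / e ≤
      cFA.RH * P.V := by
  have h := P.p_R2
  have c2 : cFA.RH = 1485 / 512 := rfl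
  rw [c2] at h
  have hkv : 0 ≤ P.kv := by
    rw [P.e_kv]
    exact add_nonneg (mul_self_nonneg _) (mul_self_nonneg _)
  have e0 : √((e * K) ^ 2 + (P.ycR * R) ^ 2) = R * √P.kv := by
    have e1 : (e * K) ^ 2 + (P.ycR * R) ^ 2 = R ^ 2 * P.kv := by
      rw [fa_beR B, P.e_kv]; ring
    rw [e1, Real.sqrt_mul (sq_nonneg R), Real.sqrt_sq B.hR.le]
  have h1 : √P.kv ≤ P.s1 := by
    rw [P.e_s1]
    exact n_s1 hkv
  have e2 : √((e * K) ^ 2 + (P.ycR * R) ^ 2) + P.dz + P.E = R * (√P.kv + P.dzR + P.ER) := by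
    rw [e0, B.hdzR, fa_ER B]; ring
  rw [e2, fa_RR B, c2]
  have h2 : 0 ≤ √P.kv + P.dzR + P.ER :=
    add_nonneg (add_nonneg (Real.sqrt_nonneg _) B.hdzR0) (fa_ER0 B HM)
  have h3 : √P.kv + P.dzR + P.ER ≤ P.s1 + P.dzR + P.ER := by linarith
  have h4 := mul_le_mul h3 h3 h2 (h2.trans h3)
  have h5 : P.V * ((√P.kv + P.dzR + P.ER) * (√P.kv + P.dzR + P.ER)) ≤
      P.V * (1485 / 512 - P.r2V - P.EQ) :=
    mul_le_mul_of_nonneg_left (by linarith) B.hVp.le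
  have h6 : P.E = P.V * P.EQ := by rw [P.e_E]; ring
  rw [h6]
  linarith

private theorem fa_c2m (B : FaB e s sg K be v R kc vs P) :
    P.V * (P.m2 * P.c2) ≤ P.V * P.m2 * (1 - 2 * P.Qw - 500 / e ^ 2) := by
  have h1 := mul_le_mul_of_nonneg_left (fa_c2 B) (mul_pos B.hVp (fa_m20 P)).le
  linarith

private theorem fa_h9 (B : FaB e s sg K be v R kc vs P) :
    cFA.RH * P.V ≤ 46 / 5 * (R ^ 2 * P.m2 / e *
      (1 - 2 * P.E / √(R ^ 2 * P.m2) - 500 / e ^ 2)) := by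
  have h := P.p_h9
  have c2 : cFA.RH = 1485 / 512 := rfl
  rw [c2] at h
  rw [fa_Sle B, fa_Eq B, c2]
  have h1 := fa_c2m B
  have h2 : 0 < P.m2 * P.c2 := mul_pos (fa_m20 P) (fa_c20 P)
  have h3 : P.V * (1485 / 512) ≤ P.V * ((46 / 5) * (P.m2 * P.c2)) :=
    mul_le_mul_of_nonneg_left (by linarith) B.hVp.le
  linarith

private theorem fa_h2 (B : FaB e s sg K be v R kc vs P) :
    (cFA.RH * P.V) ^ 2 ≤ 9 / 10 * (R ^ 2 * P.m2 *
      (1 - 2 * P.E / √(R ^ 2 * P.m2) - 500 / e ^ 2)) := by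
  have h := P.p_h2
  have c2 : cFA.RH = 1485 / 512 := rfl
  have c4 : cFA.RHq = 34457 / 4096 := rfl
  rw [c4, P.e_Vie] at h
  rw [fa_Eq B, c2, ← B.hVe]
  have h1 := mul_le_mul_of_nonneg_left (fa_c2m B) B.he0.le
  have h2 : 0 < P.m2 * P.c2 := mul_pos (fa_m20 P) (fa_c20 P)
  have hV := B.hVp
  have hi := B.hie0
  have h5 : 0 ≤ P.V * P.ie := by positivity
  have h3 : P.V * (e * ((34457 / 4096) * (P.V * P.ie))) ≤ P.V * (e * ((9 / 10) * (P.m2 * P.c2))) :=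
    mul_le_mul_of_nonneg_left (mul_le_mul_of_nonneg_left (by linarith) B.he0.le) hV.le
  have h4 : P.V * (e * ((34457 / 4096) * (P.V * P.ie))) = (34457 / 4096) * P.V ^ 2 := by
    linear_combination (34457 / 4096) * P.V ^ 2 * B.hieE
  have h6 : 0 ≤ P.V ^ 2 := sq_nonneg _
  nlinarith

private theorem fa_hrho (B : FaB e s sg K be v R kc vs P) {q : ℝ} (hq : q = P.q) :
    P.q2 + 8 / e + cFA.RH * P.V * (1 / 2 + 2 * 1 ^ 2) / e ≤ q := by
  have c2 : cFA.RH = 1485 / 512 := rfl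
  have c5 : cFA.rho = 7425 / 1024 := rfl
  rw [hq, P.e_q2, c2, c5, P.e_Vie, B.hdiv, B.hdiv]
  linarith

private theorem fa_d0 (B : FaB e s sg K be v R kc vs P) (HM : RelA P Ma Mb M1) :
    0 ≤ P.d := by
  have h1 := fa_EQ0 B HM
  have h2 := fa_m20 P
  have h3 := fa_Qw1 P
  have c9 : cFA.exK = 33431 / 32768 := rfl
  have h4 : 0 < P.m2 * (1 - P.Qw) := mul_pos h2 (by linarith)
  rw [P.e_d, c9]
  positivity

private theorem fa_xd (P : PFA cFA sg be v R kc vs GrS GtS G2S DG DF vDG EM EMr) :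
    xA 0 ≤ P.x1 - P.d := by
  have h := P.p_x0
  have c6 : cFA.x0 = 507 / 4096 := rfl
  have c16 : xA 0 = 507 / 4096 := rfl
  rw [c6] at h
  rw [c16]
  linarith

private theorem fa_Er (B : FaB e s sg K be v R kc vs P) : P.E < P.r1V * P.V := by
  have h := P.p_Er
  rw [P.e_E]
  exact mul_lt_mul_of_pos_right (by linarith) B.hVp

private theorem n_exK {K x : ℝ} (hK0 : 0 < K) (hK1 : K ≤ 1 / 100) (hx0 : 0 < x) (hx1 : x ≤ 1) :
    Real.exp (2 * K * x) ≤ (1 - K ^ 2 / 6) * (33431 / 32768) := by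
  have h1 : 2 * K * x ≤ 1 / 50 := by
    have := mul_le_mul hK1 hx1 hx0.le (by norm_num)
    linarith
  have h2 := fa_pade (x := 1 / 50) (by norm_num) (by norm_num)
  have h3 : Real.exp (2 * K * x) ≤ Real.exp (1 / 50) := Real.exp_le_exp.2 h1
  have h4 : K ^ 2 ≤ (1 / 100) ^ 2 := pow_le_pow_left₀ hK0.le hK1 2
  have h5 : ((1 : ℝ) / 2 * (1 / 50) + 1) * (1 - 1 / 2 * (1 / 50))⁻¹ = 101 / 99 := by norm_num
  rw [h5] at h2
  have h6 : (101 : ℝ) / 99 ≤ (1 - (1 / 100) ^ 2 / 6) * (33431 / 32768) := by norm_num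
  have h7 : (1 - (1 / 100) ^ 2 / 6) * (33431 / 32768) ≤ (1 - K ^ 2 / 6) * (33431 / 32768) :=
    mul_le_mul_of_nonneg_right (by linarith) (by norm_num)
  exact ((h3.trans h2).trans h6).trans h7

private theorem fa_hd (B : FaB e s sg K be v R kc vs P) (HM : RelA P Ma Mb M1) :
    e * P.E * Real.exp (2 * K * P.x1) ≤
      (1 - K ^ 2 / 6) * P.d * (√(R ^ 2 * P.m2) * (√(R ^ 2 * P.m2) - P.E)) := by
  have h2 := fa_m20 P
  have h3 := fa_Qw1 P
  have c9 : cFA.exK = 33431 / 32768 := rfl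
  have h4 : 0 < P.m2 * (1 - P.Qw) := mul_pos h2 (by linarith)
  have h5 : P.d * (P.m2 * (1 - P.Qw)) = (33431 / 32768) * P.EQ := by
    rw [P.e_d, c9, mul_assoc, mul_assoc, inv_mul_cancel₀ h4.ne', mul_one]
  have h6 : (1 - K ^ 2 / 6) * P.d * (√(R ^ 2 * P.m2) * (√(R ^ 2 * P.m2) - P.E)) =
      (P.EQ * R ^ 2) * ((1 - K ^ 2 / 6) * (33431 / 32768)) := by
    rw [fa_sqS B, fa_Qw B]
    rw [fa_m2] at h5
    linear_combination (1 - K ^ 2 / 6) * R ^ 2 * h5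
  have h7 : e * P.E * Real.exp (2 * K * P.x1) = (P.EQ * R ^ 2) * Real.exp (2 * K * P.x1) := by
    rw [P.e_E, ← B.hVe]; ring
  rw [h6, h7]
  exact mul_le_mul_of_nonneg_left (n_exK B.hK0 B.hK1 (fa_x10 B) (fa_x11 P))
    (mul_nonneg (fa_EQ0 B HM) (sq_nonneg R))

private theorem fa_hLam (B : FaB e s sg K be v R kc vs P) :
    P.r2V * P.V + P.E ≤
      LamA 0 * (R ^ 2 * P.m2 / e * (1 - 2 * P.E / √(R ^ 2 * P.m2))) := by
  have h := P.p_La
  have c7 : cFA.Lam0 = 489 / 256 := rfl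
  have c13 : LamA 0 = 489 / 256 := rfl
  rw [c7] at h
  rw [fa_Sle B, fa_Eq B, c13, P.e_E]
  have h1 := mul_le_mul_of_nonneg_left
    (by linarith : P.r2V + P.EQ ≤ (489 / 256) * (P.m2 * (1 - 2 * P.Qw))) B.hVp.le
  linarith

private theorem fa_hy0 (P : PFA cFA sg be v R kc vs GrS GtS G2S DG DF vDG EM EMr) :
    P.ycR * R + P.E ≤ ynA 0 := by
  have h := P.p_y0
  have c8 : cFA.Y0 = 3277 / 1024 := rfl
  have c14 : ynA 0 = 3277 / 1024 := rfl
  rw [c8, P.e_yE] at h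
  rw [c14]
  linarith

private theorem fa_W20 (B : FaB e s sg K be v R kc vs P) : 0 < R ^ 2 * P.m2 / e * P.c2 := by
  rw [fa_Sle B]
  exact mul_pos (mul_pos B.hVp (fa_m20 P)) (fa_c20 P)

private theorem fa_hW2 (B : FaB e s sg K be v R kc vs P) :
    R ^ 2 * P.m2 / e * P.c2 ≤
      R ^ 2 * P.m2 / e * (1 - 2 * P.E / √(R ^ 2 * P.m2) - 500 / e ^ 2) := by
  rw [fa_Sle B, fa_Eq B]
  exact mul_le_mul_of_nonneg_left (fa_c2 B) (mul_pos B.hVp (fa_m20 P)).le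

private theorem fa_hu1 (B : FaB e s sg K be v R kc vs P) (HM : RelA P Ma Mb M1) :
    Real.exp (-(P.q2 * (lam K (P.x1 + 1 - P.d) * (R ^ 2 * P.m2 / e * P.c2)))) ≤ P.u1 := by
  have ex : P.x1 + 1 - P.d = P.x2 := by rw [P.e_x2]; ring
  rw [P.e_u1, P.e_l4, fa_Sle B, ex]
  apply Real.exp_le_exp.2
  have h0 := fa_xd P
  have c16 : xA 0 = 507 / 4096 := rfl
  rw [c16] at h0
  have h1 := fa_d0 B HM
  have h2 := fa_x11 P
  have h3 := lam_ge_F (K := K) (x := P.x2) B.hK0.le B.hK1 (by rw [← ex]; linarith)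
    (by rw [← ex]; linarith)
  have h4 : 0 ≤ P.q2 * (P.V * P.m2 * P.c2) :=
    mul_nonneg P.p_q20.le (mul_pos (mul_pos B.hVp (fa_m20 P)) (fa_c20 P)).le
  have h5 := mul_le_mul_of_nonneg_right h3 h4
  have e1 : P.q2 * ((16361 / 16384) * P.x2 * P.V * P.m2 * P.c2) =
      (16361 / 16384) * P.x2 * (P.q2 * (P.V * P.m2 * P.c2)) := by ring
  have e2 : P.q2 * (lam K P.x2 * (P.V * P.m2 * P.c2)) =
      lam K P.x2 * (P.q2 * (P.V * P.m2 * P.c2)) := by ring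
  rw [e1, e2]
  exact neg_le_neg h5

private theorem fa_heta (B : FaB e s sg K be v R kc vs P) (HM : RelA P Ma Mb M1) :
    Real.exp (P.E * (1 + M1)) ≤ P.eta := by
  have h := P.p_EM2
  have h1 := fa_E0 B HM
  have h2 := HM.M10
  have h3 : 0 ≤ EM := by rw [HM.hEM]; positivity
  rw [← HM.hEM, P.e_eta, P.e_i2]
  exact fa_pade h3 (by linarith)

private theorem fa_DPx (B : FaB e s sg K be v R kc vs P) :
    P.DPx = P.ycR ^ 2 + (kc + P.r2w) ^ 2 := by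
  rw [P.e_DPx, P.e_kv]; ring

private theorem fa_DP0 (B : FaB e s sg K be v R kc vs P) : 0 ≤ R * P.DPR := by
  have h1 := fa_DPx B
  have h2 : 0 ≤ P.DPx := by rw [h1]; positivity
  have h3 := B.hR
  rw [P.e_DPR]
  exact mul_nonneg h3.le (by linarith)

private theorem fa_hDP (B : FaB e s sg K be v R kc vs P) :
    (e * K) ^ 2 + (P.ycR * R) ^ 2 + (P.r2V * P.V) ^ 2 + 2 * (e * K) * (P.r2V * P.V) ≤
      (R * P.DPR) ^ 2 := by
  have h1 : (e * K) ^ 2 + (P.ycR * R) ^ 2 + (P.r2V * P.V) ^ 2 + 2 * (e * K) * (P.r2V * P.V) =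
      R ^ 2 * P.DPx := by
    rw [fa_r2R B, fa_beR B, fa_DPx B]; ring
  have h2 : P.DPx ≤ P.DPR ^ 2 := by
    rw [P.e_DPR]
    nlinarith [sq_nonneg (P.DPx - 1)]
  rw [h1, mul_pow]
  exact mul_le_mul_of_nonneg_left h2 (sq_nonneg R)

private theorem fa_hVc (B : FaB e s sg K be v R kc vs P) :
    ((e * K) ^ 2 + (P.ycR * R) ^ 2 + (P.r2V * P.V) ^ 2) / e ≤ R * P.VcR := by
  have h1 : R * P.VcR = P.V * (P.kv + P.r2w * P.r2w) := by
    rw [P.e_VcR, ← B.hRwse]; ring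
  have h2 : ((e * K) ^ 2 + (P.ycR * R) ^ 2 + (P.r2V * P.V) ^ 2) / e =
      P.V * (P.kv + P.r2w * P.r2w) := by
    have e1 : (P.r2V * P.V) ^ 2 = (R * P.r2w) ^ 2 := by rw [fa_r2R B]
    rw [e1, fa_beR B, P.e_kv, B.hdiv, B.hV1]; ring
  rw [h1, h2]

private theorem n_tha {K g : ℝ} (hg : 0 < g) (hK : K ≤ 1 / 100) :
    g * (72351 / 524288) ≤ (1 - K / 1024) * (g * (2261 / 16384)) := by
  have h : (72351 / 524288) ≤ (1 - K / 1024) * (2261 / 16384) := by linarith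
  have h1 := mul_le_mul_of_nonneg_left h hg.le
  linarith

private theorem fa_hcl (B : FaB e s sg K be v R kc vs P) (HM : RelA P Ma Mb M1) :
    (P.eta - 1) + P.eta * (P.u1 * (aA 0 * (4 / (4 + e * K)))) * (R * P.DPR + R * P.VcR + P.E) <
      (1 - K / 1024) * P.X := by
  have h := P.p_cl
  have c10 : cFA.a0 = 839 / 8192 := rfl
  have c11 : cFA.tha = 72351 / 524288 := rfl
  have c12 : cFA.aS = 2261 / 16384 := rfl
  have c15 : aA 0 = 839 / 8192 := rfl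
  rw [c10, c11] at h
  have hR := B.hR
  have hb := B.hbe0
  have h4b : 4 + be ≠ 0 := by positivity
  set g := 4 * R / (4 + be) with hg
  have hg0 : 0 < g := by positivity
  have h1 : g * (P.DPR + P.VcR + P.ER) = 4 / (4 + be) * (R * P.DPR + R * P.VcR + P.E) := by
    rw [fa_ER B, hg]; ring
  have h2 : (1 - (1 / 2) * EM) * P.i2 = 1 := by
    rw [P.e_i2]
    exact mul_inv_cancel₀ P.p_EM2.ne'
  have h3 : P.eta - 1 = EM * P.i2 := by
    rw [P.e_eta]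
    linear_combination h2
  have h5 : g * EMr = EM := by
    rw [HM.hEMr, hg]
    have h6 : R * R⁻¹ = 1 := mul_inv_cancel₀ hR.ne'
    have h7 : 4 * R / (4 + be) * (EM * (R⁻¹ + kc / 4)) =
        EM * ((4 * (R * R⁻¹) + kc * R) / (4 + be)) := by ring
    rw [h7, h6, B.hkR, mul_one, div_self h4b, mul_one]
  have h8 : P.X = g * (2261 / 16384) := by
    rw [P.e_X, P.e_XS, P.e_i4, c12, hg, add_comm be 4, div_eq_mul_inv (4 * R)]; ring
  have h9 := mul_lt_mul_of_pos_left h hg0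
  rw [mul_zero] at h9
  rw [h3, h8, c15, ← B.hbe]
  refine lt_of_lt_of_le ?_ (n_tha hg0 B.hK1)
  have h10 : P.eta * (P.u1 * (839 / 8192 * (4 / (4 + be)))) * (R * P.DPR + R * P.VcR + P.E) =
      839 / 8192 * (P.eta * P.u1) * (g * (P.DPR + P.VcR + P.ER)) := by
    rw [h1]; ring
  have h11 : g * (-(EMr * P.i2 + 839 / 8192 * (P.eta * P.u1) * (P.DPR + P.VcR + P.ER)) +
      72351 / 524288) = g * (72351 / 524288) - (EM * P.i2 +
        839 / 8192 * (P.eta * P.u1) * (g * (P.DPR + P.VcR + P.ER))) := by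
    linear_combination -P.i2 * h5
  rw [h11] at h9
  rw [h10]
  linarith

end

private theorem fa_main {e s sg K be v R kc vs GrS GtS G2S DG DF vDG EM EMr Ma Mb M1 p q : ℝ}
    {P : PFA cFA sg be v R kc vs GrS GtS G2S DG DF vDG EM EMr} (B : FaB e s sg K be v R kc vs P)
    (HG : RelG sg v P.lau GrS GtS G2S) (HM : RelA P Ma Mb M1) (hq : q = P.q) :
    FN e K v P.V P.a p q P.q2 1 (GrS * s - P.lau) (GrS * s - P.lau) P.lau
      (Real.log 2) (8 / 5 * P.V) (GrS * s) (GrS * s) (G2S * s) (GtS * s / e) (GtS * s)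
      (P.V * (8 / 5 * P.V + 5 / 2 * v) / e) P.dz (P.r1V * P.V) (P.r2V * P.V) (P.ycR * R) P.x1
      ((R * P.sR0) ^ 2)
      (R ^ 2 * P.m2) Ma Mb P.X P.u (P.X * P.LX) (P.uX * P.LU) DG DF P.E (cFA.RH * P.V) ∧
    FN2 e K P.V p q P.q2 (P.r1V * P.V) (P.r2V * P.V) (P.ycR * R) P.x1
      (R ^ 2 * P.m2) P.X P.E P.d (LamA 0) (ynA 0) (R ^ 2 * P.m2 / e * P.c2) M1 P.u1 P.eta (aA 0)
      (R * P.DPR) (R * P.VcR) ∧ 0 ≤ P.d ∧ P.d ≤ 1 ∧ xA 0 ≤ P.x1 - P.d := by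
  have c2 : cFA.RH = 1485 / 512 := rfl
  have c14 : LamA 0 = 489 / 256 := rfl
  have c15 : aA 0 = 839 / 8192 := rfl
  have hx := fa_xd P
  have hd := fa_d0 B HM
  have hx1 := fa_x11 P
  have c16 : xA 0 = 507 / 4096 := rfl
  have hdx : P.d ≤ P.x1 := by
    rw [c16] at hx
    linarith
  refine ⟨?_, ?_, hd, hdx.trans hx1, hx⟩
  · exact {
      K0 := B.hK0
      v0 := B.hv0
      vπ := B.hvpi
      hV := fa_hV B
      V1 := fa_V1 B
      a0 := B.ha0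
      a1 := B.ha1
      q20 := P.p_q20.le
      hlau := (fa_hlau B).le
      hlal := Or.inl le_rfl
      hgl := by linarith
      hF := by linarith
      F0 := (fa_Gr2 B HG).2
      hGr := by linarith
      hGr2 := (fa_Gr2 B HG).1
      G20 := mul_nonneg HG.h4 B.hs0.le
      hG2 := fa_G2 B HG
      gt0 := by
        have h1 := HG.h3
        have h2 := B.hs0
        have h3 := B.he0
        positivity
      hgt := by
        rw [fa_gte B]
        exact fa_Gt B HG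
      ft0 := mul_nonneg HG.h3 B.hs0.le
      hft := fa_Gt B HG
      herr := rfl
      hdz := fa_hdz B
      r10 := mul_pos (fa_r1V B) B.hVp
      hr1 := fa_hr1 B
      hr2 := fa_hr2 B
      hyc := fa_hyc B
      x10 := (fa_x10 B).le
      x11 := hx1
      hx1 := fa_hx1 B
      r2e := fa_r2e B
      hS0l := fa_hS0 B
      dzS := fa_dzS B
      hSl := fa_hSl B
      Sl0 := mul_pos (pow_pos B.hR 2) (fa_m20 P)
      Ma0 := HM.Ma0
      Mb0 := HM.Mb0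
      X0 := fa_X0 B
      X1 := fa_X1 P
      hu := fa_hu B
      u1 := fa_u1 B
      hlx := fa_LX B
      hlu := fa_LU B
      hΔG := HM.hDG.ge
      hΔF := HM.hDF.ge
      haG := fa_haG B
      haF := fa_haF B
      hE := fa_hE B HM
      Es := fa_Es B
      hRH1 := fa_hRH1 B
      hRH2 := fa_hRH2 B HM
      h9 := fa_h9 B
      h2 := fa_h2 B
      hρ := fa_hrho B hq }
  · exact {
      d0 := hd
      d1 := hdx
      a00 := by rw [c15]; norm_num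
      Er := fa_Er B
      hd := fa_hd B HM
      hΛ := fa_hLam B
      Λ00 := by rw [c14]; norm_num
      hy0 := fa_hy0 P
      W20 := fa_W20 B
      hW2 := fa_hW2 B
      M10 := HM.M10
      hu1 := fa_hu1 B HM
      hη := fa_heta B HM
      DP0 := fa_DP0 B
      hDP := fa_hDP B
      hVc := fa_hVc B
      hcl := fa_hcl B HM }

theorem fa_core (he : 500 ≤ e) (hκ : 0 < κ) (hb : bet e κ ≤ 5) (M : PMA (√e)⁻¹)
    {v : ℝ} (hv0 : 0 ≤ v) (hv1 : v ≤ Real.pi) {R kc vs : ℝ} (hR : 0 < R)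
    (hR2 : R ^ 2 = bet e κ ^ 2 + v ^ 2) (hkc : kc = bet e κ / R) (hvs : vs = v / R)
    {GrS GtS G2S DG DF vDG EM EMr : ℝ}
    (P : PFA cFA (√e)⁻¹ (bet e κ) v R kc vs GrS GtS G2S DG DF vDG EM EMr)
    (HG : RelG (√e)⁻¹ v P.lau GrS GtS G2S) {Ma Mb M1 : ℝ} (HM : RelA P Ma Mb M1) :
    FN e (Real.sinh κ) v P.V P.a M.p M.q P.q2 1 (GrS * √e - P.lau) (GrS * √e - P.lau) P.lau
      (Real.log 2) (8 / 5 * P.V) (GrS * √e) (GrS * √e) (G2S * √e) (GtS * √e / e) (GtS * √e)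
      (P.V * (8 / 5 * P.V + 5 / 2 * v) / e) P.dz (P.r1V * P.V) (P.r2V * P.V) (P.ycR * R) P.x1 ((R * P.sR0) ^ 2)
      (R ^ 2 * P.m2) Ma Mb P.X P.u (P.X * P.LX) (P.uX * P.LU) DG DF P.E (cFA.RH * P.V) ∧
    FN2 e (Real.sinh κ) P.V M.p M.q P.q2 (P.r1V * P.V) (P.r2V * P.V) (P.ycR * R) P.x1
      (R ^ 2 * P.m2) P.X P.E P.d (LamA 0) (ynA 0) (R ^ 2 * P.m2 / e * P.c2) M1 P.u1 P.eta (aA 0)
      (R * P.DPR) (R * P.VcR) ∧ 0 ≤ P.d ∧ P.d ≤ 1 ∧ xA 0 ≤ P.x1 - P.d := by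
  have he0 : 0 < e := by linarith
  have hs0 : 0 < √e := Real.sqrt_pos.2 he0
  have hss : √e * √e = e := Real.mul_self_sqrt he0.le
  have hK0 : 0 < Real.sinh κ := Real.sinh_pos_iff.2 hκ
  have hsg := inv_mul_cancel₀ hs0.ne'
  have B := fa_base he hs0 hss hsg hK0 rfl hb hv0 hv1 hR hR2 hkc hvs P HG
  have hq : M.q = P.q := M.e_q.trans (by rw [M.e_ie, P.e_q, P.e_ie])
  exact fa_main B HG HM hq

end Pool.Agent.helper31.EQB
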