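import Pool.Agent.helper31.EQB.NFA

/-!
# EQB-30: first node of chart A, final statements

`lf`: `f_sup` at `shf (t00)` and `shf (shf (t00))` (`S ≥ 0.995 (β²+v²)`): `log (1 + 8/5 √(e/S)) ≤ lc0 + lc1/(w)` by the tangent at
`1.6/w = 11` (`log (1+x) ≤ log 12 + (x - 11)/12`), or `f_one` for `v ≤ 1`.  `Ma`, `Mb`, `M1` by `mq_num` or by the rows
(`RowM`, `PX_dn` for `Ma`).  Then `first_all`, and `FH` at `(s0, 0)`: see `first_d` (FirstC2).
-/

namespace Pool.Agent.helper31.EQB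

open Complex ComplexConjugate Set Filter Topology
open Pool.Agent.helper31.EQ.Y Pool.Agent.helper31.EQ.R
open Pool.Agent.helper12.EQL Pool.Agent.helper12.RP Pool.Agent.helper12.FF Pool.Agent.helper12.RS
open Pool.Agent.helper63.FF

variable {e κ : ℝ}

/-- `√e` -/
private theorem g2_sg (he : 500 ≤ e) : 0 < √e ∧ 0 < (√e)⁻¹ ∧ (√e)⁻¹ * (√e)⁻¹ = 1 / e ∧
    (√e)⁻¹ ≤ 1 / 22 ∧ (√e)⁻¹ * √e = 1 ∧ √e * √e = e := by
  have h0 : 0 < e := by linarith
  have h1 : 0 < √e := Real.sqrt_pos.2 h0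
  have h2 : √e * √e = e := Real.mul_self_sqrt h0.le
  have h3 : 22 ≤ √e := Real.le_sqrt_of_sq_le (by norm_num; linarith)
  refine ⟨h1, inv_pos.2 h1, ?_, ?_, inv_mul_cancel₀ h1.ne', h2⟩
  · rw [← mul_inv, h2, one_div]
  · rw [one_div]; exact inv_anti₀ (by norm_num) h3

/-- `S` at `s0` and `shf s0` -/
private theorem g2_S (he : 500 ≤ e) (hκ : 0 < κ) (hb : bet e κ ≤ 5) {v : ℝ} (hv0 : 0 ≤ v)
    (hv1 : v ≤ Real.pi) :
    995 / 1000 * (bet e κ ^ 2 + v ^ 2) ≤ Sz e κ (shf κ (t00 e κ v)) ∧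
    995 / 1000 * (bet e κ ^ 2 + v ^ 2) ≤ Sz e κ (shf κ (shf κ (t00 e κ v))) := by
  have he0 : 0 < e := by linarith
  have hK0 : 0 < Real.sinh κ := Real.sinh_pos_iff.2 hκ
  have hβ : 0 < bet e κ := mul_pos he0 hK0
  have hK1 : Real.sinh κ ≤ 1 / 10 := by
    have : e * Real.sinh κ ≤ 5 := hb
    nlinarith
  have hπ := Real.pi_lt_d2
  have hv3 : v ≤ 3.15 := hv1.trans hπ.le
  obtain ⟨s1, s2, s3, s4, s5⟩ := s0_pos he0 hκ hv0
  obtain ⟨A, hA⟩ : ∃ A, A = bet e κ ^ 2 + v ^ 2 := ⟨_, rfl⟩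
  have hA0 : 0 < A := by rw [hA]; positivity
  have hA1 : A ≤ 35 := by rw [hA]; nlinarith
  have hVA : Vv e κ v = A / e := by rw [hA]; rfl
  obtain ⟨q, hq⟩ : ∃ q, q = 1 + Vv e κ v / e := ⟨_, rfl⟩
  have hq1 : 1 ≤ q := by
    rw [hq, hVA]
    have : 0 ≤ A / e / e := by positivity
    linarith
  have hq2 : q ≤ 1 + 1 / 5000 := by
    rw [hq, hVA, div_div]
    have : A / (e * e) ≤ 35 / (500 * 500) := by
      apply div_le_div₀ (by norm_num) hA1 (by norm_num)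
      exact mul_le_mul he he (by norm_num) he0.le
    norm_num at this ⊢
    linarith
  rw [← hq] at s3 s4
  have hq0 : 0 < q := by linarith
  have hSs : 9995 / 10000 * A ≤ Sz e κ (shf κ (t00 e κ v)) := by
    unfold Sz
    rw [s4, div_pow]
    have h1 : 9995 / 10000 * v ^ 2 ≤ v ^ 2 / q ^ 2 := by
      rw [le_div_iff₀ (by positivity)]
      have h2 : q ^ 2 ≤ (1 + 1 / 5000) ^ 2 := pow_le_pow_left₀ hq0.le hq2 2
      have h3 : 0 ≤ v ^ 2 := by positivity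
      nlinarith
    have h4 : 0 ≤ bet e κ ^ 2 := by positivity
    rw [hA]
    linarith
  have hcosh := fc_cosh hκ hK1
  have hcosh0 := Real.cosh_pos κ
  have hr : rz e κ (shf κ (t00 e κ v)) ≤ 201 / 200 * (A / e) := by
    rw [s3, hVA]
    calc Real.cosh κ * (A / e) / q ≤ Real.cosh κ * (A / e) :=
          div_le_self (by positivity) hq1
      _ ≤ _ := mul_le_mul_of_nonneg_right hcosh (by positivity)
  have hr0 : 0 ≤ rz e κ (shf κ (t00 e κ v)) := by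
    rw [s3, hVA]; positivity
  have hAe : A / e ≤ 7 / 100 := by
    rw [div_le_iff₀ he0]; linarith
  have hy : |yz e κ (shf κ (t00 e κ v))| ≤ 7 / 2 := by
    rw [s4, abs_of_nonneg (by positivity)]
    exact (div_le_self hv0 hq1).trans (by linarith)
  have h9 : rz e κ (shf κ (t00 e κ v)) ≤ 46 / 5 * Sz e κ (shf κ (t00 e κ v)) / e := by
    refine hr.trans ?_
    rw [← mul_div_assoc]
    apply div_le_div_of_nonneg_right _ he0.le
    linarith
  have h2 : rz e κ (shf κ (t00 e κ v)) ^ 2 ≤ 9 / 10 * Sz e κ (shf κ (t00 e κ v)) := by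
    have h3 : rz e κ (shf κ (t00 e κ v)) ^ 2 ≤ (201 / 200 * (A / e)) ^ 2 :=
      pow_le_pow_left₀ hr0 hr 2
    have h4 : A / e ≤ A / 500 := div_le_div_of_nonneg_left hA0.le (by norm_num) he
    have h5 : 0 ≤ A / e := by positivity
    nlinarith
  have hge := (Sz_shf_ge (by linarith) hκ hK1 s1 hy h9 h2).1
  refine ⟨by rw [← hA]; linarith, ?_⟩
  refine le_trans ?_ hge
  have h5 : 500 / e ^ 2 ≤ 1 / 500 := by
    rw [div_le_div_iff₀ (by positivity) (by norm_num)]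
    nlinarith
  rw [← hA]
  nlinarith

/-- the tangent bound of `log (1 + x)` at `x = 11` -/
private theorem g2_log {x : ℝ} (hx : 0 ≤ x) : Real.log (1 + x) ≤ 1644419 / 1048576 + x / 12 := by
  have h1 : Real.log ((1 + x) / 12) ≤ (1 + x) / 12 - 1 := Real.log_le_sub_one_of_pos (by positivity)
  rw [Real.log_div (by positivity) (by norm_num)] at h1
  have h2 : Real.log 12 = 2 * Real.log 2 + Real.log 3 := by
    rw [show (12 : ℝ) = 2 ^ 2 * 3 by norm_num, Real.log_mul (by norm_num) (by norm_num),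
      Real.log_pow]
    norm_num
  have h3 := Real.log_two_lt_d9
  have h4 := Real.log_three_lt_d9
  rw [h2] at h1
  norm_num at h3 h4
  linarith

private theorem g2_lf1 (he : 500 ≤ e) (hκ : 0 < κ) (hb : bet e κ ≤ 5) {v R : ℝ} (hR : 0 < R)
    (hR2 : R ^ 2 = bet e κ ^ 2 + v ^ 2) {t : ℂ} (ht : 0 < t.re)
    (hS : 995 / 1000 * (bet e κ ^ 2 + v ^ 2) ≤ Sz e κ t) :
    Real.log ‖fT e κ t‖ ≤ 1644419 / 1048576 + 70115 / 524288 * (√e / R) := by
  have he0 : 0 < e := by linarith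
  have hK0 : 0 < Real.sinh κ := Real.sinh_pos_iff.2 hκ
  have hK1 : Real.sinh κ ≤ 1 / 10 := by
    have : e * Real.sinh κ ≤ 5 := hb
    nlinarith
  obtain ⟨hs, -, -, -, -, -⟩ := g2_sg he
  have h1 := f_sup (show (8 : ℝ) ≤ e by linarith) hκ hK1 ht
  have h2 : √(e / Sz e κ t) ≤ 10026 / 10000 * (√e / R) := by
    rw [Real.sqrt_le_left (by positivity)]
    have h3 : (10026 / 10000 * (√e / R)) ^ 2 = (10026 / 10000) ^ 2 * (e / R ^ 2) := by
      rw [mul_pow, div_pow √e R, Real.sq_sqrt he0.le]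
    rw [h3]
    have h4 : e / Sz e κ t ≤ e / (995 / 1000 * R ^ 2) := by
      apply div_le_div_of_nonneg_left he0.le (by positivity)
      rw [hR2]; exact hS
    refine h4.trans ?_
    have h5 : e / (995 / 1000 * R ^ 2) = 1000 / 995 * (e / R ^ 2) := by
      field_simp
    rw [h5]
    have h6 : 0 ≤ e / R ^ 2 := by positivity
    exact mul_le_mul_of_nonneg_right (by norm_num) h6
  have h3 : ‖fT e κ t‖ ≤ 1 + 8 / 5 * (10026 / 10000 * (√e / R)) := by linarith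
  have h4 : 0 < ‖fT e κ t‖ := norm_pos_iff.2 (fT_ne he0 hκ ht)
  have h5 := Real.log_le_log h4 h3
  have h6 := g2_log (x := 8 / 5 * (10026 / 10000 * (√e / R))) (by positivity)
  have h7 : 0 ≤ √e / R := by positivity
  nlinarith

/-- `exp (1/2 log x) ^ 2 = x` -/
private theorem g2_sq {x : ℝ} (hx : 0 < x) : Real.exp ((1 / 2) * Real.log x) ^ 2 = x := by
  rw [← Real.exp_nat_mul]
  have : ((2 : ℕ) : ℝ) * (1 / 2 * Real.log x) = Real.log x := by push_cast; ring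
  rw [this, Real.exp_log hx]

theorem fa_lf (he : 500 ≤ e) (hκ : 0 < κ) (hb : bet e κ ≤ 5) (M : PMA (√e)⁻¹)
    {v : ℝ} (hv0 : 0 ≤ v) (hv1 : v ≤ Real.pi) {R kc vs : ℝ} (hR : 0 < R)
    (hR2 : R ^ 2 = bet e κ ^ 2 + v ^ 2) (hkc : kc = bet e κ / R) (hvs : vs = v / R)
    {GrS GtS G2S DG DF vDG EM EMr : ℝ}
    (P : PFA cFA (√e)⁻¹ (bet e κ) v R kc vs GrS GtS G2S DG DF vDG EM EMr)
    {iR : ℝ} (hiR : iR = R⁻¹) (Pg : PFAg iR P) :
    RelG (√e)⁻¹ v P.lau GrS GtS G2S ∧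
    Real.log ‖fT e κ (shf κ (t00 e κ v))‖ ≤ GrS * √e - P.lau ∧
    Real.log ‖fT e κ (shf κ (shf κ (t00 e κ v)))‖ ≤ GrS * √e - P.lau := by
  have _ := M
  have _ := hkc
  have _ := hvs
  have he0 : 0 < e := by linarith
  have hK0 : 0 < Real.sinh κ := Real.sinh_pos_iff.2 hκ
  have hβ : 0 < bet e κ := mul_pos he0 hK0
  obtain ⟨hs, hsg, -, -, h1, -⟩ := g2_sg he
  have hlau : 0 < P.lau := by
    rw [P.e_lau]
    have : 0 < Real.log (Real.exp (-bet e κ) + 1) :=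
      Real.log_pos (by linarith [Real.exp_pos (-bet e κ)])
    linarith
  have hG := Pg.e_GrS
  have hG1 := Pg.e_GtS
  have hG2 := Pg.e_G2S
  have hsv := Pg.e_sv
  rw [show cFA.lc0 = 1644419 / 1048576 from rfl, show cFA.lc1 = 70115 / 524288 from rfl, hiR] at hG
  rw [hsv] at hG1 hG2
  clear hsv
  generalize P.lau = lau at *
  clear Pg P
  have hG0 : 0 < GrS := by rw [hG]; positivity
  have hsv0 : 0 ≤ (√e)⁻¹ * v * ((√e)⁻¹ * v) := mul_self_nonneg _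
  obtain ⟨s1, s2, s3, s4, s5⟩ := s0_pos he0 hκ hv0
  obtain ⟨S1, S2⟩ := g2_S he hκ hb hv0 hv1
  have hGe : GrS * √e - lau = 1644419 / 1048576 + 70115 / 524288 * (√e / R) := by
    rw [hG]
    have : ((√e)⁻¹ * (lau + 1644419 / 1048576) + 70115 / 524288 * R⁻¹) * √e - lau =
      ((√e)⁻¹ * √e) * (lau + 1644419 / 1048576) + 70115 / 524288 * (√e * R⁻¹) - lau := by ring
    rw [this, h1, div_eq_mul_inv]
    ring
  refine ⟨⟨?_, ?_, ?_, ?_, ?_⟩, ?_, ?_⟩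
  · rw [hG]
    have : 0 < R⁻¹ := inv_pos.2 hR
    nlinarith
  · rw [hG1, g2_sq (by positivity)]; ring
  · rw [hG2, g2_sq (by positivity)]; ring
  · rw [hG1]; positivity
  · rw [hG2]; positivity
  · rw [hGe]; exact g2_lf1 he hκ hb hR hR2 s1 S1
  · rw [hGe]; exact g2_lf1 he hκ hb hR hR2 (shf_re hκ s1.le) S2

/-- `v ≤ 1` -/
private theorem g2_lh (he : 500 ≤ e) (hκ : 0 < κ) (hb : bet e κ ≤ 5)
    {v : ℝ} (hv0 : 0 ≤ v) (hv1 : v ≤ 1) {R kc vs : ℝ}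
    {GrS GtS G2S DG DF vDG EM EMr : ℝ}
    (P : PFA cFA (√e)⁻¹ (bet e κ) v R kc vs GrS GtS G2S DG DF vDG EM EMr) (Pg : PFAh P) :
    RelG (√e)⁻¹ v P.lau GrS GtS G2S ∧
    Real.log ‖fT e κ (shf κ (t00 e κ v))‖ ≤ GrS * √e - P.lau ∧
    Real.log ‖fT e κ (shf κ (shf κ (t00 e κ v)))‖ ≤ GrS * √e - P.lau := by
  have _ := hb
  have he0 : 0 < e := by linarith
  have hK0 : 0 < Real.sinh κ := Real.sinh_pos_iff.2 hκ
  have hβ : 0 < bet e κ := mul_pos he0 hK0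
  obtain ⟨hs, hsg, -, -, h1, -⟩ := g2_sg he
  have hlau : 0 < P.lau := by
    rw [P.e_lau]
    have : 0 < Real.log (Real.exp (-bet e κ) + 1) :=
      Real.log_pos (by linarith [Real.exp_pos (-bet e κ)])
    linarith
  obtain ⟨s1, s2, s3, s4, s5⟩ := s0_pos he0 hκ hv0
  have hG := Pg.e_GrS
  have hG1 := Pg.e_GtS
  have hG2 := Pg.e_G2S
  generalize P.lau = lau at *
  clear Pg P
  have hGe : GrS * √e - lau = 0 := by
    rw [hG]
    have : (√e)⁻¹ * lau * √e - lau = ((√e)⁻¹ * √e) * lau - lau := by ring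
    rw [this, h1]
    ring
  have hVv : 0 ≤ Vv e κ v / e := by unfold Vv; positivity
  have hπ := Real.pi_gt_three
  have hy : |yz e κ (shf κ (t00 e κ v))| ≤ Real.pi / 3 := by
    rw [s4, abs_of_nonneg (by positivity)]
    exact (div_le_self hv0 (by linarith)).trans (by linarith)
  have f1 := f_one he0 hκ s1 hy
  have f2 := f_one he0 hκ (shf_re hκ s1.le) ((yz_shf_le he0 hκ s1).trans hy)
  refine ⟨⟨?_, ?_, ?_, ?_, ?_⟩, ?_, ?_⟩
  · rw [hG]
  · rw [hG1, mul_pow, g2_sq (by positivity), hG]; ring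
  · rw [hG2, mul_pow, g2_sq (by positivity), hG]; ring
  · rw [hG1]; positivity
  · rw [hG2]; positivity
  · rw [hGe]; exact Real.log_nonpos (norm_nonneg _) f1
  · rw [hGe]; exact Real.log_nonpos (norm_nonneg _) f2


set_option maxHeartbeats 1000000 in
/-- basic sizes -/
private theorem g2_bas (he : 500 ≤ e) (hκ : 0 < κ) (hb : bet e κ ≤ 5) (M : PMA (√e)⁻¹)
    {v : ℝ} (hv0 : 0 ≤ v) (hv1 : v ≤ Real.pi) {R kc vs : ℝ} (hR : 0 < R)
    (hR2 : R ^ 2 = bet e κ ^ 2 + v ^ 2) (hkc : kc = bet e κ / R) (hvs : vs = v / R)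
    {GrS GtS G2S DG DF vDG EM EMr : ℝ}
    (P : PFA cFA (√e)⁻¹ (bet e κ) v R kc vs GrS GtS G2S DG DF vDG EM EMr) (hGt : 0 ≤ GtS)
    (hG2 : 0 ≤ G2S) :
    0 < P.w ∧ P.w * P.w = R ^ 2 / e ∧ 0 ≤ P.dzS ∧ 0 < P.x1 ∧ P.x1 < 1 ∧ 0 < P.m ∧ 0 < P.sp ∧
    P.sp = M.sp ∧ P.q = M.q ∧ 0 ≤ P.e2a ∧ 0 ≤ P.wse ∧ 0 ≤ P.ie ∧ 0 < P.X ∧ P.X < 1 ∧
    0 ≤ P.LX ∧ 0 ≤ P.uX * P.LU ∧ 0 < P.u ∧ 0 < P.q2 ∧ 0 < P.V ∧ P.V = R ^ 2 / e ∧ 0 < P.r1V := by
  have he0 : 0 < e := by linarith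
  have hK0 : 0 < Real.sinh κ := Real.sinh_pos_iff.2 hκ
  have hβ : 0 < bet e κ := mul_pos he0 hK0
  obtain ⟨hs, hsg, hss, hsl, hs1, -⟩ := g2_sg he
  have hie : P.ie = 1 / e := by rw [P.e_ie, hss]
  have hie0 : 0 < P.ie := by rw [hie]; positivity
  have hie1 : P.ie ≤ 1 / 500 := by
    rw [hie]; exact one_div_le_one_div_of_le (by norm_num) he
  have hw : P.w = (√e)⁻¹ * R := P.e_w
  have hw0 : 0 < P.w := by rw [hw]; positivity
  have hww : P.w * P.w = R ^ 2 / e := by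
    rw [hw]
    have : (√e)⁻¹ * R * ((√e)⁻¹ * R) = ((√e)⁻¹ * (√e)⁻¹) * R ^ 2 := by ring
    rw [this, hss]; ring
  have hV : P.V = R ^ 2 / e := by rw [P.e_V, hww]
  have hπ := Real.pi_lt_d2
  have hv3 : v ≤ 3.15 := hv1.trans hπ.le
  have hRR : R ^ 2 ≤ 35 := by
    have h1 : bet e κ ^ 2 ≤ 5 ^ 2 := pow_le_pow_left₀ hβ.le hb 2
    have h2 : v ^ 2 ≤ 3.15 ^ 2 := pow_le_pow_left₀ hv0 hv3 2
    rw [hR2]
    norm_num at h1 h2 ⊢
    linarith
  have hV0 : 0 < P.V := by rw [hV]; positivity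
  have hV1 : P.V ≤ 7 / 100 := by
    rw [hV, div_le_iff₀ he0]; linarith
  have hkc0 : 0 < kc := by rw [hkc]; positivity
  have hvs0 : 0 ≤ vs := by rw [hvs]; positivity
  have hkv : kc * kc + vs * vs = 1 := by
    rw [hkc, hvs]
    have : bet e κ / R * (bet e κ / R) + v / R * (v / R) = (bet e κ ^ 2 + v ^ 2) / R ^ 2 := by
      field_simp
    rw [this, ← hR2, div_self (by positivity)]
  have hK : P.K = bet e κ * P.ie := P.e_K
  have hK1 : 0 < P.K := by rw [hK]; positivity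
  have hK2 : P.K ≤ 1 / 100 := by
    rw [hK]
    calc bet e κ * P.ie ≤ 5 * (1 / 500) := mul_le_mul hb hie1 hie0.le (by norm_num)
      _ = 1 / 100 := by norm_num
  have hKK : P.K2 = P.K * P.K := P.e_K2
  have hKK0 : 0 ≤ P.K2 := by rw [hKK]; positivity
  have hKK1 : P.K2 ≤ 1 / 10000 := by
    rw [hKK]
    calc P.K * P.K ≤ (1 / 100) * (1 / 100) := mul_le_mul hK2 hK2 hK1.le (by norm_num)
      _ = 1 / 10000 := by norm_num
  have hKs : P.K2se = P.K * bet e κ * (√e)⁻¹ := P.e_K2se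
  have hKs0 : 0 ≤ P.K2se := by rw [hKs]; positivity
  have hcD : cFA.cD = 461 / 512 := rfl
  have ha : P.a = (√e)⁻¹ * GtS + cFA.cD * P.ie := P.e_a
  have ha0 : 0 ≤ P.a := by rw [ha, hcD]; positivity
  have ha1 : P.a ≤ 1 / 18 := by
    have := P.p_a1
    linarith
  have hea : P.ea = Real.exp P.a := P.e_ea
  have hea0 : 1 ≤ P.ea := by rw [hea]; exact Real.one_le_exp ha0
  have hea1 : P.ea ≤ 1.0572 := by rw [hea]; exact fh_exp ha1
  have he2 : P.e2a = P.ea * P.ea := P.e_e2a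
  have he20 : 1 ≤ P.e2a := by rw [he2]; nlinarith
  have he21 : P.e2a ≤ 1.118 := by
    rw [he2]
    calc P.ea * P.ea ≤ 1.0572 * 1.0572 := mul_le_mul hea1 hea1 (by linarith) (by norm_num)
      _ ≤ 1.118 := by norm_num
  have her : P.er = ((838861 / 524288) * P.V + (5 / 2) * v) * P.ie := P.e_er
  have her0 : 0 ≤ P.er := by rw [her]; positivity
  have her1 : P.er ≤ 2 / 100 := by
    rw [her]
    calc ((838861 / 524288) * P.V + (5 / 2) * v) * P.ie ≤ 10 * (1 / 500) :=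
          mul_le_mul (by norm_num at hv3; linarith) hie1 hie0.le (by norm_num)
      _ = 2 / 100 := by norm_num
  have hh4 : P.h4 = 1 - (1 / 4) * P.K2 := P.e_h4
  have hr1 : 0 < P.r1V := by
    have h1 : P.r1V = P.h4 * (3 - (3 / 2) * P.e2a) - (1 / 2) * (kc * kc) - vs * vs * P.ea - P.er :=
      P.e_r1V
    have h2 : (1 / 2) * (kc * kc) + vs * vs * P.ea ≤ 1.0572 := by
      have h3 : vs * vs * P.ea ≤ vs * vs * 1.0572 :=
        mul_le_mul_of_nonneg_left hea1 (by positivity)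
      have h4 : 0 ≤ kc * kc := by positivity
      norm_num at h3 ⊢
      linarith
    have h5 : 132 / 100 ≤ P.h4 * (3 - (3 / 2) * P.e2a) := by
      have h6 : 9999 / 10000 ≤ P.h4 := by rw [hh4]; linarith
      have h7 : 1323 / 1000 ≤ 3 - (3 / 2) * P.e2a := by
        norm_num at he21
        linarith
      calc (132 / 100 : ℝ) ≤ 9999 / 10000 * (1323 / 1000) := by norm_num
        _ ≤ _ := mul_le_mul h6 h7 (by norm_num) (by linarith)
    rw [h1]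
    norm_num at h2
    linarith
  have hx1 : P.x1 = (1023 / 1024) * P.r1V * (P.kv + P.r1w * P.r1w)⁻¹ := P.e_x1
  have hkv2 : P.kv = kc * kc + P.ycR * P.ycR := P.e_kv
  have hx10 : 0 < P.x1 := by
    rw [hx1]
    have h1 : 0 < P.kv + P.r1w * P.r1w := by
      rw [hkv2]
      have := mul_self_nonneg P.ycR
      have := mul_self_nonneg P.r1w
      have := mul_pos hkc0 hkc0
      linarith
    positivity
  have hdzS : 0 ≤ P.dzS := by
    rw [P.e_dzS]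
    have h1 : 0 ≤ (3 / 2) * P.e2a - (3 / 2) + (3 / 4) * P.K2 + v * P.ie + P.er := by
      have : 0 ≤ v * P.ie := by positivity
      linarith
    have h2 : 0 ≤ P.w * ((3 / 2) * P.e2a - (3 / 2) + (3 / 4) * P.K2 + v * P.ie + P.er) :=
      mul_nonneg hw0.le h1
    have h3 : 0 ≤ vs * (G2S + P.ea * ((1 / 2) * ((√e)⁻¹ * GtS * GtS) +
        (149797 / 1048576) * P.K2se)) := by
      have : 0 ≤ P.ea := by linarith
      positivity
    have h4 : 0 ≤ P.K2se * ((1 / 8) * (v * vs * P.ie)) := by positivity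
    linarith
  have hm0 : 0 < P.m := P.p_m0
  have hsp : P.sp = M.sp := by rw [P.e_sp, M.e_sp, P.e_ie, M.e_ie]
  have hq : P.q = M.q := by rw [P.e_q, M.e_q, P.e_ie, M.e_ie]
  have hi4 : 0 < P.i4 := by rw [P.e_i4]; positivity
  have haS : cFA.aS = 2261 / 16384 := rfl
  have hXS : 0 < P.XS := by rw [P.e_XS, haS]; positivity
  have hX : 0 < P.X := by rw [P.e_X]; positivity
  have hX1 : P.X < 1 := by linarith [P.p_X1]
  have hiX : 0 < P.iX := by rw [P.e_iX]; exact inv_pos.2 (by linarith)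
  have hLX : 0 ≤ P.LX := by rw [P.e_LX]; positivity
  have hm2 : P.m2 = P.m * P.m := P.e_m2
  have hm20 : 0 < P.m2 := by rw [hm2]; positivity
  have hq20 := P.p_q20
  have hlv : 0 ≤ P.lv := by
    rw [P.e_lv, P.e_l1]
    positivity
  have hu0 : 0 < P.u := by rw [P.e_u]; exact Real.exp_pos _
  have hu1 : P.u ≤ 1 := by
    rw [P.e_u, Real.exp_le_one_iff]
    have := mul_nonneg hq20.le hlv
    linarith
  have huX : P.uX = P.u * P.X := P.e_uX
  have huX0 : 0 ≤ P.uX := by rw [huX]; positivity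
  have huX1 : P.uX < 1 := by
    rw [huX]
    have : P.u * P.X ≤ 1 * P.X := mul_le_mul_of_nonneg_right hu1 hX.le
    linarith
  have hLU : 0 ≤ P.LU := by
    rw [P.e_LU]
    have : 0 < (1 - P.uX)⁻¹ := inv_pos.2 (by linarith)
    positivity
  have hwse : 0 ≤ P.wse := by rw [P.e_wse]; positivity
  exact ⟨hw0, hww, hdzS, hx10, by linarith [P.p_x11], hm0, by rw [hsp]; exact M.p_sp, hsp, hq,
    by linarith, hwse, hie0.le, hX, hX1, hLX, mul_nonneg huX0 hLU, hu0, hq20, hV0, hV, hr1⟩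

/-- positivity of the displacement -/
private theorem g2_pos (he : 500 ≤ e) (hκ : 0 < κ) (hb : bet e κ ≤ 5) (M : PMA (√e)⁻¹)
    {v : ℝ} (hv0 : 0 ≤ v) (hv1 : v ≤ Real.pi) {R kc vs : ℝ} (hR : 0 < R)
    (hR2 : R ^ 2 = bet e κ ^ 2 + v ^ 2) (hkc : kc = bet e κ / R) (hvs : vs = v / R)
    {GrS GtS G2S DG DF vDG EM EMr : ℝ}
    (P : PFA cFA (√e)⁻¹ (bet e κ) v R kc vs GrS GtS G2S DG DF vDG EM EMr) (hGt : 0 ≤ GtS)
    (hG2 : 0 ≤ G2S) {Ma Mb : ℝ} (hMa : 0 ≤ Ma) (hMb : 0 ≤ Mb)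
    (hDG : DG = P.dz * (1 + Mb) + P.X * P.LX)
    (hDF : DF = P.dz * Ma + P.uX * P.LU)
    (hvDG : vDG * R ^ 2 = v * DG) :
    0 ≤ P.EQ ∧ 0 ≤ P.d ∧ 0 < P.c2 ∧ P.c2 ≤ 1 ∧ 0 ≤ P.Qw := by
  obtain ⟨hw0, hww, hdzS, hx10, hx11, hm0, hsp, hspM, hqM, he2a, hwse, hie, hX0, hX1, hLX, hLU, hu0,
    hq20, hV0, hV, hr1⟩ := g2_bas he hκ hb M hv0 hv1 hR hR2 hkc hvs P hGt hG2
  have hdz : 0 ≤ P.dz := by rw [P.e_dz]; positivity
  have hDG0 : 0 ≤ DG := by rw [hDG]; positivity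
  have hDF0 : 0 ≤ DF := by rw [hDF]; positivity
  have hvDG0 : 0 ≤ vDG := by
    have h1 : vDG = v * DG / R ^ 2 := by
      rw [← hvDG]; field_simp
    rw [h1]; positivity
  have hEQ : 0 ≤ P.EQ := by rw [P.e_EQ]; positivity
  have him : 0 < P.im := by rw [P.e_im]; positivity
  have hQw : 0 ≤ P.Qw := by rw [P.e_Qw, P.e_ER]; positivity
  have hm2 : 0 < P.m2 := by rw [P.e_m2]; positivity
  have hRH : cFA.RH = 1485 / 512 := rfl
  have hc2 : 0 < P.c2 := by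
    have h1 := P.p_h9
    rw [hRH] at h1
    have h2 : 0 < P.m2 * P.c2 := by linarith
    exact (pos_iff_pos_of_mul_pos h2).1 hm2
  have hexK : cFA.exK = 33431 / 32768 := rfl
  have hd : 0 ≤ P.d := by
    rw [P.e_d, hexK]
    have h1 : 0 < (P.m2 * (1 - P.Qw))⁻¹ := inv_pos.2 (mul_pos hm2 P.p_Es)
    positivity
  exact ⟨hEQ, hd, hc2, by rw [P.e_c2]; linarith, hQw⟩

theorem fa_mq (he : 500 ≤ e) (hκ : 0 < κ) (hb : bet e κ ≤ 5) (M : PMA (√e)⁻¹)
    {v : ℝ} (hv0 : 0 ≤ v) (hv1 : v ≤ Real.pi) {R kc vs : ℝ} (hR : 0 < R)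
    (hR2 : R ^ 2 = bet e κ ^ 2 + v ^ 2) (hkc : kc = bet e κ / R) (hvs : vs = v / R)
    {GrS GtS G2S DG DF vDG EM EMr : ℝ}
    (P : PFA cFA (√e)⁻¹ (bet e κ) v R kc vs GrS GtS G2S DG DF vDG EM EMr)
    {iR : ℝ} (hiR : iR = R⁻¹) (Pg : PFAg iR P) (Pq : PFAq iR P) :
    ∃ Ma Mb M1, RelA P Ma Mb M1 ∧
      Mq e (Real.sinh κ) M.p M.q P.q2 P.x1 (R ^ 2 * P.m2 / e) ≤ Ma ∧
      Mq e (Real.sinh κ) M.p M.q P.q2 (P.x1 + 1) (R ^ 2 * P.m2 / e * (1 - 500 / e ^ 2)) ≤ Mb ∧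
      Mq e (Real.sinh κ) M.p M.q P.q2 (P.x1 + 1 - P.d) (R ^ 2 * P.m2 / e * P.c2) ≤ M1 := by
  have he0 : 0 < e := by linarith
  have hK0 : 0 < Real.sinh κ := Real.sinh_pos_iff.2 hκ
  have hK1 : Real.sinh κ ≤ 1 / 100 := by
    have : e * Real.sinh κ ≤ 5 := hb
    nlinarith
  obtain ⟨HG, -, -⟩ := fa_lf he hκ hb M hv0 hv1 hR hR2 hkc hvs P hiR Pg
  obtain ⟨hw0, hww, hdzS, hx10, hx11, hm0, hsp, hspM, hqM, he2a, hwse, hie, hX0, hX1, hLX, hLU, hu0,
    hq20, hV0, hV, hr1⟩ := g2_bas he hκ hb M hv0 hv1 hR hR2 hkc hvs P HG.h3 HG.h4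
  have hp : M.p = P.sp * P.sp := by rw [M.e_p, hspM]
  have hp0 : 0 < M.p := by rw [hp]; positivity
  have hq0 : 0 ≤ M.q := by
    have := M.p_q7
    linarith
  have hwn : P.wn = P.w * P.m := P.e_wn
  have hwn0 : 0 < P.wn := by rw [hwn]; positivity
  have hm2 : P.m2 = P.m * P.m := P.e_m2
  have hm20 : 0 < P.m2 := by rw [hm2]; positivity
  have hW : R ^ 2 * P.m2 / e = P.wn ^ 2 := by
    rw [hwn, mul_pow, pow_two P.w, hww, hm2]; ring
  have hWV : R ^ 2 * P.m2 / e = P.V * P.m2 := by rw [hV]; ring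
  have hW0 : 0 < R ^ 2 * P.m2 / e := by positivity
  have h500 : 4087 / 4096 ≤ 1 - 500 / e ^ 2 := by
    have : 500 / e ^ 2 ≤ 500 / 500 ^ 2 := by
      apply div_le_div_of_nonneg_left (by norm_num) (by norm_num)
      exact pow_le_pow_left₀ (by norm_num) he 2
    norm_num at this ⊢
    linarith
  have h5001 : 1 - 500 / e ^ 2 ≤ 1 := by
    have : 0 ≤ 500 / e ^ 2 := by positivity
    linarith
  obtain ⟨f5, hf5⟩ : ∃ f5, f5 = 1 - 500 / e ^ 2 := ⟨_, rfl⟩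
  rw [← hf5] at h500 h5001
  have hl1 : P.l1 ≤ lam (Real.sinh κ) P.x1 := by
    rw [P.e_l1]; exact lam_ge_F hK0.le hK1 hx10.le (by linarith)
  have hl2 : P.l2 ≤ lam (Real.sinh κ) (P.x1 + 1) := by
    rw [P.e_l2]; exact lam_ge_F hK0.le hK1 (by linarith) (by linarith)
  have hl20 : 0 ≤ P.l2 := by rw [P.e_l2]; have : 0 ≤ P.x1 + 1 := by linarith
                             positivity
  have hl3 : Pq.l3 ≤ lam (Real.sinh κ) (P.x1 + 1 + 1) := by
    rw [Pq.e_l3, show P.x1 + 2 = P.x1 + 1 + 1 by ring]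
    exact lam_ge_F hK0.le hK1 (by linarith) (by linarith)
  have hl30 : 0 ≤ Pq.l3 := by rw [Pq.e_l3]; have : 0 ≤ P.x1 + 2 := by linarith
                              positivity
  -- `Ma`
  have hA := mq_num (e := e) (K := Real.sinh κ) (p := M.p) (q := M.q) (q2 := P.q2) (x := P.x1)
    (W' := R ^ 2 * P.m2 / e) (w := P.wn) (cc := 4087 / 4096) (bn := Pq.bna) (ws := Pq.wsa)
    (b := Pq.ba) (ib := Pq.iba) (l2 := P.l2) (u := P.u) hp0 hq0 hwn0 (by norm_num)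
    (by
      rw [← hf5, hW]
      exact mul_le_mul_of_nonneg_left h500 (by positivity))
    (by rw [Pq.e_bna]; positivity)
    (by
      rw [Pq.e_bna, mul_pow, hp, ← pow_two, mul_comm (P.sp ^ 2)]
      exact mul_le_mul_of_nonneg_right (by norm_num) (by positivity))
    Pq.e_wsa Pq.e_ba hl20 hl2
    (by rw [Pq.e_iba, hqM]; congr 1; ring)
    (by
      rw [P.e_u, P.e_lv, hWV]
      apply Real.exp_le_exp.2
      have h1 : P.l1 * P.V * P.m2 ≤ lam (Real.sinh κ) P.x1 * (P.V * P.m2) := by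
        rw [mul_assoc]
        exact mul_le_mul_of_nonneg_right hl1 (by positivity)
      have h2 := mul_le_mul_of_nonneg_left h1 hq20.le
      linarith)
  -- `Mb`
  have hB := mq_num (e := e) (K := Real.sinh κ) (p := M.p) (q := M.q) (q2 := P.q2) (x := P.x1 + 1)
    (W' := R ^ 2 * P.m2 / e * (1 - 500 / e ^ 2)) (w := P.wn) (cc := 260993 / 262144)
    (bn := Pq.bnc) (ws := Pq.wsc) (b := Pq.bc) (ib := Pq.ibc) (l2 := Pq.l3) (u := Pq.ub)
    hp0 hq0 hwn0 (by norm_num)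
    (by
      rw [← hf5, hW, mul_assoc]
      apply mul_le_mul_of_nonneg_left _ (by positivity)
      refine le_trans ?_ (mul_le_mul h500 h500 (by norm_num) (by linarith))
      norm_num)
    (by rw [Pq.e_bnc]; positivity)
    (by
      rw [Pq.e_bnc, mul_pow, hp, ← pow_two, mul_comm (P.sp ^ 2)]
      exact mul_le_mul_of_nonneg_right (by norm_num) (by positivity))
    Pq.e_wsc Pq.e_bc hl30 hl3
    (by rw [Pq.e_ibc, hqM]; congr 1; ring)
    (by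
      rw [Pq.e_ub, ← hf5, hWV]
      apply Real.exp_le_exp.2
      have h1 : (4087 / 4096) * (P.l2 * P.V * P.m2) ≤
          lam (Real.sinh κ) (P.x1 + 1) * (P.V * P.m2 * f5) := by
        have h3 : P.l2 * P.V * P.m2 ≤ lam (Real.sinh κ) (P.x1 + 1) * (P.V * P.m2) := by
          rw [mul_assoc]
          exact mul_le_mul_of_nonneg_right hl2 (by positivity)
        have h4 : 0 ≤ P.l2 * P.V * P.m2 := by positivity
        calc (4087 / 4096) * (P.l2 * P.V * P.m2) ≤ f5 * (P.l2 * P.V * P.m2) :=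
              mul_le_mul_of_nonneg_right h500 h4
          _ ≤ f5 * (lam (Real.sinh κ) (P.x1 + 1) * (P.V * P.m2)) :=
              mul_le_mul_of_nonneg_left h3 (by linarith)
          _ = _ := by ring
      have h2 := mul_le_mul_of_nonneg_left h1 hq20.le
      linarith)
  have hMa0 : 0 ≤ Pq.Maw / P.wn := by
    rw [Pq.e_Maw]
    have := hA.1
    positivity
  have hub : 0 < Pq.ub := by rw [Pq.e_ub]; exact Real.exp_pos _
  have hMb0 : 0 ≤ Pq.Mbw / P.wn := by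
    rw [Pq.e_Mbw]
    have := hB.1
    positivity
  have hDG : DG = P.dz * (1 + Pq.Mbw / P.wn) + P.X * P.LX := by
    have h1 : P.dz * (1 + Pq.Mbw / P.wn) + P.X * P.LX =
        P.dz + P.dzS * Pq.Mbw * P.im + P.X * P.LX := by
      rw [P.e_im, P.e_dz, hwn]
      have := hw0.ne'
      have := hm0.ne'
      field_simp
    rw [h1]; exact Pq.e_DG
  have hDF : DF = P.dz * (Pq.Maw / P.wn) + P.uX * P.LU := by
    have h1 : P.dz * (Pq.Maw / P.wn) + P.uX * P.LU = P.dzS * Pq.Maw * P.im + P.uX * P.LU := by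
      rw [P.e_im, P.e_dz, hwn]
      have := hw0.ne'
      have := hm0.ne'
      field_simp
    rw [h1]; exact Pq.e_DF
  have hvDG : vDG * R ^ 2 = v * DG := by
    have h1 := Pq.e_vDG
    have h2 : Pq.iR2 = R⁻¹ * R⁻¹ := by
      have h3 := Pq.e_iR2
      rw [h3, hiR]
    rw [h1, h2]
    field_simp
  obtain ⟨hEQ, hd, hc2, hc21, hQw⟩ := g2_pos he hκ hb M hv0 hv1 hR hR2 hkc hvs P HG.h3 HG.h4 hMa0
    hMb0 hDG hDF hvDG
  have hx0 : 0 < P.x1 - P.d := by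
    have := P.p_x0
    rw [show cFA.x0 = 507 / 4096 from rfl] at this
    linarith
  have hl4 : P.l4 ≤ lam (Real.sinh κ) (P.x1 + 1 - P.d) := by
    rw [P.e_l4, P.e_x2, show P.x1 - P.d + 1 = P.x1 + 1 - P.d by ring]
    exact lam_ge_F hK0.le hK1 (by linarith) (by linarith)
  have hl5 : Pq.l5 ≤ lam (Real.sinh κ) (P.x1 + 1 - P.d + 1) := by
    rw [Pq.e_l5, P.e_x2, show P.x1 - P.d + 1 + 1 = P.x1 + 1 - P.d + 1 by ring]
    exact lam_ge_F hK0.le hK1 (by linarith) (by linarith)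
  have hl50 : 0 ≤ Pq.l5 := by
    rw [Pq.e_l5, P.e_x2]
    have : 0 ≤ P.x1 - P.d + 1 + 1 := by linarith
    positivity
  have hcd : Pq.cd5 = 4087 / 4096 * P.c2 := Pq.e_cd5
  have hcd0 : 0 < Pq.cd5 := by rw [hcd]; positivity
  have hcd1 : Pq.cd5 ≤ 1 := by rw [hcd]; linarith
  obtain ⟨hrc0, hrc⟩ := rc_sq hcd0.le hcd1 Pq.e_xxn Pq.e_rcn
  have hrc1 : 0 < Pq.rcn := by
    have h1 : Pq.rcn = Pq.cd5 * (1 + (1 / 2) * (1 - Pq.cd5)) := by
      rw [Pq.e_rcn, Pq.e_xxn]; ring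
    rw [h1]
    have : 0 < 1 + (1 / 2) * (1 - Pq.cd5) := by linarith
    positivity
  have hN := mq_num (e := e) (K := Real.sinh κ) (p := M.p) (q := M.q) (q2 := P.q2)
    (x := P.x1 + 1 - P.d) (W' := R ^ 2 * P.m2 / e * P.c2) (w := P.wn) (cc := Pq.cd5)
    (bn := Pq.bnn) (ws := Pq.wsn) (b := Pq.bn) (ib := Pq.ibn) (l2 := Pq.l5) (u := P.u1)
    hp0 hq0 hwn0 hcd0
    (by
      rw [← hf5, hW, hcd, mul_assoc]
      apply mul_le_mul_of_nonneg_left _ (by positivity)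
      rw [mul_comm]
      exact mul_le_mul_of_nonneg_left h500 hc2.le)
    (by rw [Pq.e_bnn]; positivity)
    (by
      rw [Pq.e_bnn, mul_pow, hp, ← pow_two]
      exact mul_le_mul_of_nonneg_left hrc (by positivity))
    Pq.e_wsn Pq.e_bn hl50 hl5
    (by rw [Pq.e_ibn, hqM])
    (by
      rw [P.e_u1, hWV]
      apply Real.exp_le_exp.2
      have h1 : P.l4 * P.V * P.m2 * P.c2 ≤
          lam (Real.sinh κ) (P.x1 + 1 - P.d) * (P.V * P.m2 * P.c2) := by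
        rw [mul_assoc, mul_assoc, ← mul_assoc P.V]
        exact mul_le_mul_of_nonneg_right hl4 (by positivity)
      have h2 := mul_le_mul_of_nonneg_left h1 hq20.le
      linarith)
  have hu1 : 0 < P.u1 := by rw [P.e_u1]; exact Real.exp_pos _
  have hM10 : 0 ≤ Pq.Mnw / P.wn := by
    rw [Pq.e_Mnw]
    have := hN.1
    positivity
  refine ⟨Pq.Maw / P.wn, Pq.Mbw / P.wn, Pq.Mnw / P.wn, ⟨hMa0, hMb0, hM10, hDG, hDF, hvDG, ?_, ?_⟩,
    ?_, ?_, ?_⟩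
  · have h1 : P.E * (1 + Pq.Mnw / P.wn) = P.E + P.EQ * P.w * Pq.Mnw * P.im := by
      rw [P.e_E, P.e_im, hwn, P.e_V]
      have := hw0.ne'
      have := hm0.ne'
      field_simp
    rw [h1]; exact Pq.e_EM
  · have h1 := Pq.e_EMr
    rw [Pq.e_rb, hiR] at h1
    rw [h1]; ring
  · refine hA.2.trans (le_of_eq ?_)
    rw [Pq.e_Maw]
    field_simp
  · refine hB.2.trans (le_of_eq ?_)
    rw [Pq.e_Mbw]
    field_simp
  · refine hN.2.trans (le_of_eq ?_)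
    rw [Pq.e_Mnw]
    field_simp


/-- the end of all three -/
private theorem g2_fin (he : 500 ≤ e) (hκ : 0 < κ) (hb : bet e κ ≤ 5) (M : PMA (√e)⁻¹)
    {v : ℝ} (hv0 : 0 ≤ v) (hv1 : v ≤ Real.pi) {R kc vs : ℝ} (hR : 0 < R)
    (hR2 : R ^ 2 = bet e κ ^ 2 + v ^ 2) (hkc : kc = bet e κ / R) (hvs : vs = v / R)
    {GrS GtS G2S DG DF vDG EM EMr : ℝ}
    (P : PFA cFA (√e)⁻¹ (bet e κ) v R kc vs GrS GtS G2S DG DF vDG EM EMr)
    (HG : RelG (√e)⁻¹ v P.lau GrS GtS G2S)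
    (h0 : Real.log ‖fT e κ (shf κ (t00 e κ v))‖ ≤ GrS * √e - P.lau)
    (h1 : Real.log ‖fT e κ (shf κ (shf κ (t00 e κ v)))‖ ≤ GrS * √e - P.lau)
    {Ma Mb M1 : ℝ} (HM : RelA P Ma Mb M1)
    (hMa : Mq e (Real.sinh κ) M.p M.q P.q2 P.x1 (R ^ 2 * P.m2 / e) ≤ Ma ∨
      ∃ y, v ≤ y ∧ P.ycR * R ≤ y ∧ PX e κ P.x1 y Ma)
    (hMb : Mq e (Real.sinh κ) M.p M.q P.q2 (P.x1 + 1) (R ^ 2 * P.m2 / e * (1 - 500 / e ^ 2)) ≤ Mb ∨
      ∃ y, v ≤ y ∧ P.ycR * R ≤ y ∧ PX e κ (P.x1 + 1) y Mb)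
    (hM1 : Mq e (Real.sinh κ) M.p M.q P.q2 (P.x1 + 1 - P.d) (R ^ 2 * P.m2 / e * P.c2) ≤ M1 ∨
      ∃ y, P.ycR * R + P.E ≤ y ∧ PX e κ (P.x1 + 1 - P.d) y M1) :
    FirstOK e κ (CA e κ) (xA 0) (LamA 0) (ynA 0) (aA 0) v := by
  have he0 : 0 < e := by linarith
  have hK0 : 0 < Real.sinh κ := Real.sinh_pos_iff.2 hκ
  have hβ : 0 < bet e κ := mul_pos he0 hK0
  obtain ⟨N, N2, hd0, hd1, hx0⟩ := fa_core he hκ hb M hv0 hv1 hR hR2 hkc hvs P HG HM
  have C := mc_A he hκ hb M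
  have hπ := Real.pi_lt_d2
  have hvY : v ≤ 7 / 2 := by norm_num at hπ; linarith
  have hyE : P.ycR * R + P.E < 3277 / 1024 := by
    have h2 := P.p_y0
    rw [P.e_yE, show cFA.Y0 = 3277 / 1024 from rfl] at h2
    linarith
  have hE0 := first_E0 C N h0 h1
  have hFH := first_FH C N h0 h1
  intro p hc hT
  have hA := first_all C le_rfl (by linarith : P.ycR * R ≤ 7 / 2) hvY (by linarith) hT N N2 h0 h1
    hMa hMb hM1
  have hXX : CA e κ * √(bet e κ ^ 2 + v ^ 2) / bet e κ = P.X := by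
    rw [← hR2, Real.sqrt_sq hR.le, P.e_X, P.e_XS, P.e_i4]
    unfold CA
    have : 4 + bet e κ ≠ 0 := by positivity
    have : bet e κ + 4 ≠ 0 := by positivity
    have := hβ.ne'
    field_simp
    ring
  rw [hXX]
  refine ⟨⟨_, hFH.2.2.2.2.2.2.1⟩, hA.1, fun χ hχ => ?_⟩
  obtain ⟨g1, -, g3, g4⟩ := hA.2.2 χ hχ
  refine ⟨⟨_, g1⟩, ⟨g3.re, om_mono hκ g3.om hx0, g3.y, g3.r⟩, fun χ' hχ' => g4 χ' ?_⟩
  refine hχ'.trans (le_of_eq ?_)
  unfold Rx
  rw [norm_mul, Complex.norm_real, Real.norm_of_nonneg]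
  · ring
  · have : (0 : ℝ) ≤ aA 0 := by unfold aA; norm_num
    positivity

theorem firstA_q (he : 500 ≤ e) (hκ : 0 < κ) (hb : bet e κ ≤ 5) (M : PMA (√e)⁻¹)
    {v : ℝ} (hv0 : 0 ≤ v) (hv1 : v ≤ Real.pi) {R kc vs : ℝ} (hR : 0 < R)
    (hR2 : R ^ 2 = bet e κ ^ 2 + v ^ 2) (hkc : kc = bet e κ / R) (hvs : vs = v / R)
    {GrS GtS G2S DG DF vDG EM EMr : ℝ}
    (P : PFA cFA (√e)⁻¹ (bet e κ) v R kc vs GrS GtS G2S DG DF vDG EM EMr)
    {iR : ℝ} (hiR : iR = R⁻¹) (Pg : PFAg iR P) (Pq : PFAq iR P) :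
    FirstOK e κ (CA e κ) (xA 0) (LamA 0) (ynA 0) (aA 0) v := by
  obtain ⟨HG, h0, h1⟩ := fa_lf he hκ hb M hv0 hv1 hR hR2 hkc hvs P hiR Pg
  obtain ⟨Ma, Mb, M1, HM, a1, a2, a3⟩ := fa_mq he hκ hb M hv0 hv1 hR hR2 hkc hvs P hiR Pg Pq
  exact g2_fin he hκ hb M hv0 hv1 hR hR2 hkc hvs P HG h0 h1 HM (Or.inl a1) (Or.inl a2) (Or.inl a3)

/-- the rows -/
private theorem g2_row (he : 500 ≤ e) (hκ : 0 < κ) {j : ℕ} (hj : j < 8) (hbj : bet e κ ≤ (rF j).br) :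
    PX e κ (28 / 25) (rF j).yr (rF j).Mb ∧ PX e κ (28 / 25) (rF j).yr (rF j).M1 ∧
    1 + (rF j).Mb = (rF j).Ma ∧ 0 ≤ (rF j).Mb ∧ 0 ≤ (rF j).M1 := by
  have he0 : 0 < e := by linarith
  interval_cases j
  · have h := (row1a he hκ (hbj.trans (by simp only [rF]; norm_num))).mono_y
      (y1 := (rF 0).yr) (by simp only [rF]; norm_num)
    exact ⟨h.mono he0 hκ (by simp only [rF]; norm_num), h.mono he0 hκ (by simp only [rF]; norm_num),
      by simp only [rF]; norm_num, by simp only [rF]; norm_num, by simp only [rF]; norm_num⟩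
  · have h := (row2a he hκ (hbj.trans (by simp only [rF]; norm_num))).mono_y
      (y1 := (rF 1).yr) (by simp only [rF]; norm_num)
    exact ⟨h.mono he0 hκ (by simp only [rF]; norm_num), h.mono he0 hκ (by simp only [rF]; norm_num),
      by simp only [rF]; norm_num, by simp only [rF]; norm_num, by simp only [rF]; norm_num⟩
  · have h := (row3a he hκ (hbj.trans (by simp only [rF]; norm_num))).mono_y
      (y1 := (rF 2).yr) (by simp only [rF]; norm_num)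
    exact ⟨h.mono he0 hκ (by simp only [rF]; norm_num), h.mono he0 hκ (by simp only [rF]; norm_num),
      by simp only [rF]; norm_num, by simp only [rF]; norm_num, by simp only [rF]; norm_num⟩
  · have h := (row4a he hκ (hbj.trans (by simp only [rF]; norm_num))).mono_y
      (y1 := (rF 3).yr) (by simp only [rF]; norm_num)
    exact ⟨h.mono he0 hκ (by simp only [rF]; norm_num), h.mono he0 hκ (by simp only [rF]; norm_num),
      by simp only [rF]; norm_num, by simp only [rF]; norm_num, by simp only [rF]; norm_num⟩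
  · have h := (row5a he hκ (hbj.trans (by simp only [rF]; norm_num))).mono_y
      (y1 := (rF 4).yr) (by simp only [rF]; norm_num)
    exact ⟨h.mono he0 hκ (by simp only [rF]; norm_num), h.mono he0 hκ (by simp only [rF]; norm_num),
      by simp only [rF]; norm_num, by simp only [rF]; norm_num, by simp only [rF]; norm_num⟩
  · have h := (row6a he hκ (hbj.trans (by simp only [rF]; norm_num))).mono_y
      (y1 := (rF 5).yr) (by simp only [rF]; norm_num)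
    exact ⟨h.mono he0 hκ (by simp only [rF]; norm_num), h.mono he0 hκ (by simp only [rF]; norm_num),
      by simp only [rF]; norm_num, by simp only [rF]; norm_num, by simp only [rF]; norm_num⟩
  · have h := (row7a he hκ (hbj.trans (by simp only [rF]; norm_num))).mono_y
      (y1 := (rF 6).yr) (by simp only [rF]; norm_num)
    exact ⟨h.mono he0 hκ (by simp only [rF]; norm_num), h.mono he0 hκ (by simp only [rF]; norm_num),
      by simp only [rF]; norm_num, by simp only [rF]; norm_num, by simp only [rF]; norm_num⟩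
  · have h := (row8a he hκ (hbj.trans (by simp only [rF]; norm_num))).mono_y
      (y1 := (rF 7).yr) (by simp only [rF]; norm_num)
    exact ⟨h.mono he0 hκ (by simp only [rF]; norm_num), h.mono he0 hκ (by simp only [rF]; norm_num),
      by simp only [rF]; norm_num, by simp only [rF]; norm_num, by simp only [rF]; norm_num⟩

/-- all rows -/
private theorem g2_rows (he : 500 ≤ e) (hκ : 0 < κ) (hb : bet e κ ≤ 5) (M : PMA (√e)⁻¹)
    {v : ℝ} (hv0 : 0 ≤ v) (hv1 : v ≤ Real.pi) {R kc vs : ℝ} (hR : 0 < R)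
    (hR2 : R ^ 2 = bet e κ ^ 2 + v ^ 2) (hkc : kc = bet e κ / R) (hvs : vs = v / R)
    {GrS GtS G2S DG DF vDG EM EMr : ℝ}
    (P : PFA cFA (√e)⁻¹ (bet e κ) v R kc vs GrS GtS G2S DG DF vDG EM EMr)
    (HG : RelG (√e)⁻¹ v P.lau GrS GtS G2S)
    (h0 : Real.log ‖fT e κ (shf κ (t00 e κ v))‖ ≤ GrS * √e - P.lau)
    (h1 : Real.log ‖fT e κ (shf κ (shf κ (t00 e κ v)))‖ ≤ GrS * √e - P.lau)
    {j : ℕ} (hj : j < 8) (Pr : PFAr (rF j) P) :
    FirstOK e κ (CA e κ) (xA 0) (LamA 0) (ynA 0) (aA 0) v := by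
  have he0 : 0 < e := by linarith
  have hK0 : 0 < Real.sinh κ := Real.sinh_pos_iff.2 hκ
  have hβ : 0 < bet e κ := mul_pos he0 hK0
  obtain ⟨hs, hsg, hss, hsl, hs1, -⟩ := g2_sg he
  obtain ⟨r1, r2, r3, r4, r5⟩ := g2_row he hκ hj (by linarith [Pr.p_br])
  have hv := Pr.p_vr
  have hy := Pr.p_yr
  have he1 := Pr.e_DG
  have he2 := Pr.e_DF
  have he3 := Pr.e_vDG
  have he4 := Pr.e_EM
  have he5 := Pr.e_EMr
  generalize (rF j).Mb = Mb at *
  generalize (rF j).Ma = Ma at *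
  generalize (rF j).M1 = M1 at *
  generalize (rF j).yr = yr at *
  clear Pr
  obtain ⟨hw0, hww, hdzS, hx10, hx11, hm0, hsp, hspM, hqM, he2a, hwse, hie, hX0, hX1, hLX, hLU, hu0,
    hq20, hV0, hV, hr1⟩ := g2_bas he hκ hb M hv0 hv1 hR hR2 hkc hvs P HG.h3 HG.h4
  have hMa0 : 0 ≤ Ma := by linarith
  have hdzR : P.dz = P.dzR * R := by
    rw [P.e_dz, P.e_dzR, P.e_w]; ring
  have hDG : DG = P.dz * (1 + Mb) + P.X * P.LX := by
    have h2 : P.dz * (1 + Mb) + P.X * P.LX = P.dz + Mb * P.dz + P.X * P.LX := by ring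
    rw [h2]; exact he1
  have hDF : DF = P.dz * Ma + P.uX * P.LU := by
    have h2 : P.dz * Ma + P.uX * P.LU = Ma * P.dz + P.uX * P.LU := by ring
    rw [h2]; exact he2
  have hvDG : vDG * R ^ 2 = v * DG := by
    have h2 : vDG * R ^ 2 = v * (P.dz * (1 + Mb) + P.X * P.LX) := by
      have h3 : vDG * R ^ 2 = vs * (Mb * P.dzR + P.dzR + P.XS * P.LX) * R ^ 2 :=
        congrArg (· * R ^ 2) he3
      rw [h3, hdzR, P.e_X]
      have h4 : v = vs * R := by rw [hvs]; field_simp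
      calc vs * (Mb * P.dzR + P.dzR + P.XS * P.LX) * R ^ 2 =
            (vs * R) * (P.dzR * R * (1 + Mb) + R * P.XS * P.LX) := by ring
        _ = v * (P.dzR * R * (1 + Mb) + R * P.XS * P.LX) := by rw [← h4]
    rw [h2]
    exact congrArg (v * ·) hDG.symm
  obtain ⟨hEQ, hd, hc2, hc21, hQw⟩ := g2_pos he hκ hb M hv0 hv1 hR hR2 hkc hvs P HG.h3 HG.h4 hMa0
    r4 hDG hDF hvDG
  have hE0 : 0 ≤ P.E := by rw [P.e_E]; positivity
  have hyE : P.yE = P.ycR * R + P.E := P.e_yE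
  have hx0 : 507 / 4096 < P.x1 - P.d := by
    have := P.p_x0
    rw [show cFA.x0 = 507 / 4096 from rfl] at this
    linarith
  have hEM : EM = P.E * (1 + M1) := by
    have h2 : P.E * (1 + M1) = M1 * P.E + P.E := by ring
    rw [h2]; exact he4
  have hEMr : EMr = EM * (R⁻¹ + kc / 4) := by
    have h2 : EM * (R⁻¹ + kc / 4) = P.E * (1 + M1) * (R⁻¹ + kc / 4) :=
      congrArg (· * (R⁻¹ + kc / 4)) hEM
    rw [h2]
    have h3 : P.E * (1 + M1) * (R⁻¹ + kc / 4) = (M1 * P.ER + P.ER) * (1 / 4 * bet e κ + 1) := by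
      have h4 : P.E = P.ER * R := by
        rw [P.e_E, P.e_ER, P.e_V, P.e_wse, P.e_w]; ring
      have h5 : kc * R = bet e κ := by rw [hkc]; field_simp
      have h6 : R * R⁻¹ = 1 := mul_inv_cancel₀ hR.ne'
      rw [h4]
      calc P.ER * R * (1 + M1) * (R⁻¹ + kc / 4) =
            (M1 * P.ER + P.ER) * (1 / 4 * (kc * R) + R * R⁻¹) := by ring
        _ = _ := by rw [h5, h6]
    rw [h3]; exact he5
  refine g2_fin he hκ hb M hv0 hv1 hR hR2 hkc hvs P HG h0 h1 (Ma := Ma) (Mb := Mb) (M1 := M1)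
    ⟨hMa0, r4, r5, hDG, hDF, hvDG, hEM, hEMr⟩
    (Or.inr ⟨yr, by linarith, by linarith, ?_⟩) (Or.inr ⟨yr, by linarith, by linarith, ?_⟩)
    (Or.inr ⟨yr, ?_, ?_⟩)
  · have h2 : PX e κ (3 / 25 + 1) yr Mb := by
      rw [show (3 / 25 + 1 : ℝ) = 28 / 25 by norm_num]; exact r1
    have h3 := PX_dn he0 hκ r4 h2
    rw [r3] at h3
    exact h3.mono_x hκ (by linarith)
  · exact r1.mono_x hκ (by linarith)
  · linarith
  · exact r2.mono_x hκ (by linarith)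

theorem firstA_r (he : 500 ≤ e) (hκ : 0 < κ) (hb : bet e κ ≤ 5) (M : PMA (√e)⁻¹)
    {v : ℝ} (hv0 : 0 ≤ v) (hv1 : v ≤ Real.pi) {R kc vs : ℝ} (hR : 0 < R)
    (hR2 : R ^ 2 = bet e κ ^ 2 + v ^ 2) (hkc : kc = bet e κ / R) (hvs : vs = v / R)
    {GrS GtS G2S DG DF vDG EM EMr : ℝ}
    (P : PFA cFA (√e)⁻¹ (bet e κ) v R kc vs GrS GtS G2S DG DF vDG EM EMr)
    {iR : ℝ} (hiR : iR = R⁻¹) (Pg : PFAg iR P) {j : ℕ} (hj : j < 8) (Pr : PFAr (rF j) P) :
    FirstOK e κ (CA e κ) (xA 0) (LamA 0) (ynA 0) (aA 0) v := by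
  obtain ⟨HG, h0, h1⟩ := fa_lf he hκ hb M hv0 hv1 hR hR2 hkc hvs P hiR Pg
  exact g2_rows he hκ hb M hv0 hv1 hR hR2 hkc hvs P HG h0 h1 hj Pr

theorem firstA_s (he : 500 ≤ e) (hκ : 0 < κ) (hb : bet e κ ≤ 5) (M : PMA (√e)⁻¹)
    {v : ℝ} (hv0 : 0 ≤ v) (hv1 : v ≤ Real.pi) {R kc vs : ℝ} (hR : 0 < R)
    (hR2 : R ^ 2 = bet e κ ^ 2 + v ^ 2) (hkc : kc = bet e κ / R) (hvs : vs = v / R)
    {GrS GtS G2S DG DF vDG EM EMr : ℝ}
    (P : PFA cFA (√e)⁻¹ (bet e κ) v R kc vs GrS GtS G2S DG DF vDG EM EMr)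
    (Pg : PFAh P) (Pr : PFAr (rF 0) P) :
    FirstOK e κ (CA e κ) (xA 0) (LamA 0) (ynA 0) (aA 0) v := by
  have hv : v ≤ 1 := by
    have := Pr.p_vr
    rw [show (rF 0).yr = 1 from rfl] at this
    linarith
  obtain ⟨HG, h0, h1⟩ := g2_lh he hκ hb hv0 hv P Pg
  exact g2_rows he hκ hb M hv0 hv1 hR hR2 hkc hvs P HG h0 h1 (by norm_num) Pr

end Pool.Agent.helper31.EQB
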