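import Pool.Agent.helper31.EQB.NFBb

/-!
# EQB-31a: first node of chart B: program ⇒ `FN`

Pure inequalities (`f_..`), then `fb_part1`.
-/

namespace Pool.Agent.helper31.EQB

namespace NFBa

theorem log1m {x : ℝ} (h0 : 0 ≤ x) (h1 : x < 1) :
    -Real.log (1 - x) ≤ x * (1 + (1 / 2) * x + (174763 / 524288) * (x * x * (1 - x)⁻¹)) := by
  have ha : |x| < 1 := by rw [abs_of_nonneg h0]; exact h1
  have H := Real.hasSum_pow_div_log_of_abs_lt_one ha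
  have H1 := (hasSum_nat_add_iff' 2).2 H
  have H2 : HasSum (fun n : ℕ => x ^ (n + 3) / 3) (x ^ 3 / 3 * (1 - x)⁻¹) := by
    have := (hasSum_geometric_of_lt_one h0 h1).mul_left (x ^ 3 / 3)
    refine this.congr_fun ?_ |> fun h => h
    intro n
    ring
  have H3 := hasSum_le (fun n => ?_) H1 H2
  · simp only [Finset.sum_range_succ, Finset.sum_range_zero] at H3
    have hp : 0 ≤ x ^ 3 * (1 - x)⁻¹ := by
      have : 0 < 1 - x := by linarith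
      positivity
    norm_num at H3
    nlinarith
  · have hn : (0:ℝ) ≤ n := Nat.cast_nonneg n
    have hx : 0 ≤ x ^ (n + 3) := pow_nonneg h0 _
    have e1 : x ^ (n + 2 + 1) / (((n + 2 : ℕ) : ℝ) + 1) = x ^ (n + 3) / ((n : ℝ) + 3) := by
      push_cast
      ring_nf
    simp only [e1]
    exact div_le_div_of_nonneg_left hx (by norm_num) (by linarith)

theorem f_hdz {e s K R v a ea e2a er G2S GtS dzS w V vs ie K2 K2se se : ℝ} (hs : 0 < s)
    (he : e = s * s) (hR : 0 < R) (hw : w = R / s) (hV : V = R * R / e) (hvs : vs = v / R)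
    (hie : ie = 1 / e) (hse : se = 1 / s) (hK2 : K2 = K * K) (hbb : K2se = K * K * s)
    (hea : ea = Real.exp a) (he2a : e2a = ea * ea)
    (her : er = ((838861 / 524288) * V + (5 / 2) * v) * ie) (hv : 0 ≤ v)
    (hdz : dzS = vs * (G2S + ea * ((1 / 2) * (se * GtS * GtS) + (149797 / 1048576) * K2se)) +
      w * ((3 / 2) * e2a - (3 / 2) + (3 / 4) * K2 + v * ie + er) +
      K2se * ((1 / 8) * (v * vs * ie))) :
    v / e * (G2S * s) + v * Real.exp a * ((GtS * s / e) ^ 2 / 2 + K ^ 2 / 7) +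
      K ^ 2 * v ^ 2 / (8 * e) + V * (3 / 2 * (Real.exp (2 * a) - 1) + 3 / 4 * K ^ 2 + v / e) +
      V * (8 / 5 * V + 5 / 2 * v) / e ≤ dzS * w := by
  have h2 : Real.exp (2 * a) = ea * ea := by rw [hea, ← Real.exp_add]; congr 1; ring
  rw [h2, ← hea]
  have hea0 : 0 < ea := by rw [hea]; exact Real.exp_pos _
  have key : dzS * w - (v / e * (G2S * s) + v * ea * ((GtS * s / e) ^ 2 / 2 + K ^ 2 / 7) +
      K ^ 2 * v ^ 2 / (8 * e) + V * (3 / 2 * (ea * ea - 1) + 3 / 4 * K ^ 2 + v / e) +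
      V * (8 / 5 * V + 5 / 2 * v) / e) =
      v * ea * K ^ 2 * (149797 / 1048576 - 1 / 7) + (R * R) ^ 2 / (e * e * e) * (838861 / 524288 - 8 / 5) := by
    subst hdz her he2a hbb hK2 hse hie hvs hV hw he
    field_simp
    ring
  have e0 : 0 < e := by rw [he]; positivity
  have h3 : 0 ≤ v * ea * K ^ 2 * (149797 / 1048576 - 1 / 7) :=
    mul_nonneg (by positivity) (by norm_num)
  have h4 : 0 ≤ (R * R) ^ 2 / (e * e * e) * (838861 / 524288 - 8 / 5) :=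
    mul_nonneg (by positivity) (by norm_num)
  linarith

theorem f_hr1 {e K B R v a ea e2a er V vs kc ie K2 h4 r1V : ℝ} (e0 : 0 < e) (hR : 0 < R)
    (hB : B = e * K) (hV : V = R * R / e) (hvs : vs = v / R) (hkc : kc = B / R)
    (hie : ie = 1 / e) (hK2 : K2 = K * K) (hh4 : h4 = 1 - (1 / 4) * K2)
    (hea : ea = Real.exp a) (he2a : e2a = ea * ea)
    (her : er = ((838861 / 524288) * V + (5 / 2) * v) * ie)
    (hr : r1V = h4 * (3 - (3 / 2) * e2a) - (1 / 2) * (kc * kc) - vs * vs * ea - er) :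
    r1V * V ≤ (1 - K ^ 2 / 4) * V * (3 - 3 / 2 * Real.exp (2 * a)) - (e * K) ^ 2 / e / 2 -
      v ^ 2 / e * Real.exp a - V * (8 / 5 * V + 5 / 2 * v) / e := by
  have h2 : Real.exp (2 * a) = ea * ea := by rw [hea, ← Real.exp_add]; congr 1; ring
  rw [h2, ← hea]
  have key : (1 - K ^ 2 / 4) * V * (3 - 3 / 2 * (ea * ea)) - (e * K) ^ 2 / e / 2 -
      v ^ 2 / e * ea - V * (8 / 5 * V + 5 / 2 * v) / e - r1V * V =
      (R * R) ^ 2 / (e * e * e) * (838861 / 524288 - 8 / 5) := by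
    subst hr her he2a hh4 hK2 hie hvs hkc hV hB
    field_simp
    ring
  have h4 : 0 ≤ (R * R) ^ 2 / (e * e * e) * (838861 / 524288 - 8 / 5) :=
    mul_nonneg (by positivity) (by norm_num)
  linarith

theorem f_hr2 {e K B R v a ea e2a er V kc ie K2 h4 r2V : ℝ} (e0 : 0 < e) (hR : 0 < R)
    (hB : B = e * K) (hV : V = R * R / e) (hkc : kc = B / R)
    (hie : ie = 1 / e) (hK2 : K2 = K * K) (hh4 : h4 = 1 - (1 / 4) * K2)
    (hea : ea = Real.exp a) (he2a : e2a = ea * ea)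
    (her : er = ((838861 / 524288) * V + (5 / 2) * v) * ie)
    (hr : r2V = (3 / 2) * e2a - h4 * ((1 / 2) * (kc * kc)) + er) :
    V * (3 / 2 * Real.exp (2 * a)) - (1 - K ^ 2 / 4) * ((e * K) ^ 2 / e) / 2 +
      V * (8 / 5 * V + 5 / 2 * v) / e ≤ r2V * V := by
  have h2 : Real.exp (2 * a) = ea * ea := by rw [hea, ← Real.exp_add]; congr 1; ring
  rw [h2]
  have key : r2V * V - (V * (3 / 2 * (ea * ea)) - (1 - K ^ 2 / 4) * ((e * K) ^ 2 / e) / 2 +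
      V * (8 / 5 * V + 5 / 2 * v) / e) =
      (R * R) ^ 2 / (e * e * e) * (838861 / 524288 - 8 / 5) := by
    subst hr her he2a hh4 hK2 hie hkc hV hB
    field_simp
    ring
  have h4 : 0 ≤ (R * R) ^ 2 / (e * e * e) * (838861 / 524288 - 8 / 5) :=
    mul_nonneg (by positivity) (by norm_num)
  linarith

theorem f_hyc {e K B v a ea e2a er V Vie ie q6 Kq glf yc : ℝ} (e0 : 0 < e) (hv : 0 ≤ v)
    (hV0 : 0 ≤ V) (hB : B = e * K) (hVie : Vie = V * ie) (hie : ie = 1 / e)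
    (hKq : Kq = K * q6)
    (hea : ea = Real.exp a) (he2a : e2a = ea * ea)
    (her : er = ((838861 / 524288) * V + (5 / 2) * v) * ie)
    (hgl : glf = Real.exp (ie * ((838861 / 524288) * V + (363409 / 524288)) - (1 / 2) * Kq))
    (hyc : yc = v * glf + 2 * (Vie * v * e2a) + V * er) :
    v * Real.exp ((Real.log 2 + 8 / 5 * V - B * q6 / 2) / e) +
      2 * V * v * Real.exp (2 * a) / e + V * (8 / 5 * V + 5 / 2 * v) / e ≤ yc := by
  have h2 : Real.exp (2 * a) = ea * ea := by rw [hea, ← Real.exp_add]; congr 1; ring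
  have hlog := Real.log_two_lt_d9
  have hg : Real.exp ((Real.log 2 + 8 / 5 * V - B * q6 / 2) / e) ≤ glf := by
    rw [hgl]
    apply Real.exp_le_exp.2
    have h5 : ie * ((838861 / 524288) * V + (363409 / 524288)) - (1 / 2) * Kq -
        (Real.log 2 + 8 / 5 * V - B * q6 / 2) / e =
        (V * (838861 / 524288 - 8 / 5) + (363409 / 524288 - Real.log 2)) / e := by
      rw [hKq, hie, hB]
      field_simp
      ring
    have h6 : 0 ≤ (V * (838861 / 524288 - 8 / 5) + (363409 / 524288 - Real.log 2)) / e := by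
      apply div_nonneg _ e0.le
      have : 0 ≤ V * (838861 / 524288 - 8 / 5) := mul_nonneg hV0 (by norm_num)
      linarith
    linarith
  have h3 := mul_le_mul_of_nonneg_left hg hv
  have key : yc - (v * glf + 2 * V * v * Real.exp (2 * a) / e +
      V * (8 / 5 * V + 5 / 2 * v) / e) = V * V / e * (838861 / 524288 - 8 / 5) := by
    rw [hyc, h2, her, he2a, hVie, hie]
    field_simp
    ring
  have h4 : 0 ≤ V * V / e * (838861 / 524288 - 8 / 5) :=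
    mul_nonneg (by positivity) (by norm_num)
  linarith

theorem f_hx1 {e K B R V wse kc ycR r1V r1w kv x1 yc : ℝ} (e0 : 0 < e) (hR : 0 < R)
    (hB : B = e * K) (hV : V = R * R / e) (hwse : wse = R / e) (hkc : kc = B / R)
    (hyc : yc = ycR * R) (hr1w : r1w = r1V * wse) (hkv : kv = kc * kc + ycR * ycR)
    (hr0 : 0 ≤ r1V) (hkc0 : 0 < kc)
    (hx1 : x1 = (1023 / 1024) * r1V * (kv + r1w * r1w)⁻¹) :
    0 ≤ x1 ∧ x1 * ((e * K) ^ 2 + yc ^ 2 + (r1V * V) ^ 2) / e ≤ r1V * V := by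
  have hD : 0 < kv + r1w * r1w := by
    rw [hkv]; have := mul_self_nonneg ycR; have := mul_self_nonneg r1w
    have := mul_pos hkc0 hkc0
    linarith
  have hV0 : 0 < V := by rw [hV]; positivity
  constructor
  · rw [hx1]; positivity
  · have h1 : (e * K) ^ 2 + yc ^ 2 + (r1V * V) ^ 2 = R * R * (kv + r1w * r1w) := by
      rw [hkv, hr1w, hyc, hkc, hwse, hV, hB]
      field_simp
    rw [h1, hx1]
    have h2 : (1023 / 1024) * r1V * (kv + r1w * r1w)⁻¹ * (R * R * (kv + r1w * r1w)) / e =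
        (1023 / 1024) * (r1V * V) := by
      have hD2 : kv + r1w ^ 2 ≠ 0 := by rw [pow_two]; exact hD.ne'
      rw [hV]; field_simp
    rw [h2]
    have : 0 ≤ r1V * V := mul_nonneg hr0 hV0.le
    linarith

theorem f_S0 {e B R v V vs Vie z sR0 ie : ℝ} (e0 : 0 < e) (hR : 0 < R) (hR2 : R * R = B * B + v * v)
    (hV0 : 0 ≤ V) (hV2 : V ≤ e / 100) (hvs : vs = v / R) (hie : ie = 1 / e) (hVie : Vie = V * ie)
    (hz : z = 2 * (vs * vs * Vie)) (hs : sR0 = 1 - z) :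
    98 / 100 ≤ sR0 ∧ sR0 ≤ 1 ∧ (R * sR0) ^ 2 ≤ B ^ 2 + (v / (1 + V / e)) ^ 2 := by
  have hd0 : 0 ≤ V / e := by positivity
  have hd1 : V / e ≤ 1 / 100 := by rw [div_le_iff₀ e0]; linarith
  have hVd : Vie = V / e := by rw [hVie, hie]; ring
  set δ := V / e with hδ
  have hvs1 : vs * vs * (R * R) = v * v := by rw [hvs]; field_simp
  have hvs0 : 0 ≤ vs * vs := mul_self_nonneg _
  have hvs2 : vs * vs ≤ 1 := by
    have h1 : v * v ≤ R * R := by have := mul_self_nonneg B; linarith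
    rw [← hvs1] at h1
    have h2 : 0 < R * R := mul_pos hR hR
    by_contra hc
    push Not at hc
    nlinarith
  have hz0 : 0 ≤ z := by rw [hz, hVd]; positivity
  have hz1 : z ≤ 2 / 100 := by
    rw [hz, hVd]
    have : vs * vs * δ ≤ 1 * (1 / 100) := mul_le_mul hvs2 hd1 hd0 zero_le_one
    linarith
  refine ⟨by rw [hs]; linarith, by rw [hs]; linarith, ?_⟩
  have h1 : (R * sR0) ^ 2 ≤ R * R * (1 - z) := by
    rw [hs]
    have : (1 - z) ^ 2 ≤ 1 - z := by nlinarith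
    have h2 : 0 < R * R := mul_pos hR hR
    nlinarith
  have h3 : R * R * z = 2 * (v * v) * δ := by rw [hz, hVd, ← hvs1]; ring
  have h4 : v * v * (1 - 2 * δ) ≤ (v / (1 + δ)) ^ 2 := by
    rw [div_pow, le_div_iff₀ (by positivity)]
    have hvv : 0 ≤ v * v := mul_self_nonneg v
    have : (1 - 2 * δ) * (1 + δ) ^ 2 ≤ 1 := by nlinarith [mul_nonneg hd0 hd0, mul_nonneg (mul_nonneg hd0 hd0) hd0]
    calc v * v * (1 - 2 * δ) * (1 + δ) ^ 2 = v * v * ((1 - 2 * δ) * (1 + δ) ^ 2) := by ring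
      _ ≤ v * v * 1 := mul_le_mul_of_nonneg_left this hvv
      _ = v ^ 2 := by ring
  nlinarith

theorem f_Sl {R sR0 dzR m m2 : ℝ} (hR : 0 < R) (hs : 98 / 100 ≤ sR0) (hd0 : 0 ≤ dzR)
    (hd1 : (dzR + 1) * (dzR + 1) < 3 / 2) (hds : 0 < sR0 - dzR) (hm : m = sR0 - dzR - dzR * dzR)
    (hm2 : m2 = m * m) :
    √((R * sR0) ^ 2) = R * sR0 ∧
    R ^ 2 * m2 ≤ (R * sR0) ^ 2 * (1 - 2 * (dzR * R) / √((R * sR0) ^ 2)) := by
  have h0 : 0 < R * sR0 := mul_pos hR (by linarith)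
  have h1 : √((R * sR0) ^ 2) = R * sR0 := Real.sqrt_sq h0.le
  refine ⟨h1, ?_⟩
  rw [h1]
  have h2 : (R * sR0) ^ 2 * (1 - 2 * (dzR * R) / (R * sR0)) = R ^ 2 * (sR0 ^ 2 - 2 * dzR * sR0) := by
    have : sR0 ≠ 0 := by linarith
    field_simp
  rw [h2, hm2, hm]
  apply mul_le_mul_of_nonneg_left _ (sq_nonneg R)
  have h3 : sR0 ^ 2 - 2 * dzR * sR0 - (sR0 - dzR - dzR * dzR) * (sR0 - dzR - dzR * dzR) =
      dzR * dzR * (2 * sR0 - 1 - 2 * dzR - dzR * dzR) := by ring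
  have h4 : 0 ≤ dzR * dzR * (2 * sR0 - 1 - 2 * dzR - dzR * dzR) := by
    apply mul_nonneg (mul_self_nonneg _)
    nlinarith
  linarith

theorem f_aG {e s G cD : ℝ} (hs : 0 < s) (he : s * s = e) :
    (1 / s * G + cD * (1 / e)) * e = G * s + cD := by
  subst he; field_simp

theorem f_r2e {x V e : ℝ} (hx : x ≤ 3) (hV0 : 0 ≤ V) (hV : V ≤ 8 / 5) (he : 200 ≤ e) :
    x * V ≤ e / 2 := by
  have := mul_le_mul_of_nonneg_right hx hV0
  linarith

theorem f_uX {u X : ℝ} (hu : u ≤ 1) (h0 : 0 < X) (h1 : X < 1) : u * X < 1 := by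
  have := mul_le_mul_of_nonneg_right hu h0.le
  linarith

theorem f_mc {q x r : ℝ} (hq : 0 < q) (hr : 0 < r) (h : 0 < q * x - r) : 0 ≤ x := by
  by_contra hc
  push Not at hc
  have := mul_neg_of_pos_of_neg hq hc
  linarith

theorem f_K6 {K B : ℝ} (hB : 0 < B) (h0 : 0 < K) (h1 : K ≤ 9 / 100) :
    B * (5 / 6) ≤ B * (1 - K ^ 2 / 6) := by
  apply mul_le_mul_of_nonneg_left _ hB.le
  have : K ^ 2 ≤ 1 := by nlinarith
  linarith

theorem f_dzS {R x y : ℝ} (hR : 0 < R) (h : 0 < x - y) : y * R ≤ R * x := by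
  have := mul_pos hR h
  linarith

theorem f_K2se {e s K B : ℝ} (hs : 0 < s) (he : s * s = e) (hB : B = e * K) :
    B / s * (B / s) * (1 / s) = K * K * s := by
  rw [hB, ← he]; field_simp

/-- `Gr`, `t = svt s`: `Gr t ≥ v²/2` -/
theorem f_gt {s B R v w se ta iR GrS gd svt lc0 lc1 lc02 lc12 om : ℝ} (hs : 0 < s)
    (hB0 : 0 < B) (hR0 : 0 < R) (hw : w = R / s) (hse : se = 1 / s)
    (hta : ta = B⁻¹) (hiR : iR = 1 / R) (hom : om = B / s) (h02 : lc02 = 2 * lc0) (h12 : lc12 = 2 * lc1)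
    (hl1 : 0 ≤ lc1)
    (hG : GrS = (1 / 2) * om + lc0 * se + lc1 * iR)
    (hgd : gd = ((-364089 / 524288) * w + (873813 / 524288)) * (lc12 * ta) + lc02 * ta + 1)
    (hgd0 : 0 < gd) (hsvt : svt = se * (v * v) * ta * gd⁻¹) :
    GrS * s = B / 2 + lc0 + lc1 / w ∧ 0 ≤ svt * s ∧ v ^ 2 / 2 ≤ (GrS * s) * (svt * s) := by
  have hw0 : 0 < w := by rw [hw]; positivity
  have h1 : GrS * s = B / 2 + lc0 + lc1 / w := by
    rw [hG, hom, hse, hiR, hw]; field_simp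
  have h2 : svt * s = v * v / (B * gd) := by
    rw [hsvt, hse, hta]; field_simp
  have h3 : (5 : ℝ) / 3 - 25 / 36 * w ≤ 1 / w := by
    rw [le_div_iff₀ hw0]; nlinarith [sq_nonneg (w - 6 / 5)]
  have h4 : (-364089 / 524288) * w + (873813 / 524288) ≤ 1 / w := by
    refine le_trans ?_ h3
    nlinarith
  have h5 : B * gd / 2 ≤ GrS * s := by
    rw [h1, hgd, h02, h12, hta]
    have h6 : B * ((-364089 / 524288 * w + 873813 / 524288) * (2 * lc1 * B⁻¹) + 2 * lc0 * B⁻¹ + 1) / 2 =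
        B / 2 + lc0 + lc1 * (-364089 / 524288 * w + 873813 / 524288) := by
      field_simp
      ring
    rw [h6]
    have h7 := mul_le_mul_of_nonneg_left h4 hl1
    have h8 : lc1 * (1 / w) = lc1 / w := by ring
    linarith
  have h9 : 0 ≤ svt * s := by rw [h2]; exact div_nonneg (mul_self_nonneg v) (by positivity)
  refine ⟨h1, h9, ?_⟩
  calc v ^ 2 / 2 = (B * gd / 2) * (svt * s) := by rw [h2]; field_simp
    _ ≤ _ := mul_le_mul_of_nonneg_right h5 h9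

theorem f_G2 {s GrS svt G2S GtS v : ℝ} (h1 : 0 ≤ svt * s)
    (h2 : v ^ 2 / 2 ≤ (GrS * s) * (svt * s)) (hg : GtS = GrS + svt) (hg2 : G2S = GrS + (1 / 4) * svt) :
    (GrS * s) ^ 2 + v ^ 2 / 4 ≤ (G2S * s) ^ 2 ∧ (GrS * s) ^ 2 + v ^ 2 ≤ (GtS * s) ^ 2 := by
  subst hg; subst hg2
  constructor
  · nlinarith [mul_self_nonneg (svt * s)]
  · nlinarith [mul_self_nonneg (svt * s)]

theorem f_hE {e R v V ie a ea e2a iR iR2 vDG DG DF EQ E : ℝ} (e0 : 0 < e) (hR0 : 0 < R)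
    (hv : 0 ≤ v) (hV : V = R * R / e) (hie : ie = 1 / e) (hiR : iR = 1 / R) (hiR2 : iR2 = iR * iR)
    (hea : ea = Real.exp a) (he2a : e2a = ea * ea) (hvDG : vDG = v * DG * iR2)
    (hDG : 0 ≤ DG) (hDF : 0 ≤ DF)
    (hEQ : EQ = (1111491 / 1048576) * e2a * (vDG + ie * (2 * DG + DF))) (hE : E = EQ * V) :
    53 / 50 * Real.exp (2 * a) * (v * DG + V * (2 * DG + DF)) / e ≤ E := by
  have h2 : Real.exp (2 * a) = e2a := by rw [he2a, hea, ← Real.exp_add]; congr 1; ring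
  rw [h2]
  have he2 : 0 ≤ e2a := by rw [he2a]; exact mul_self_nonneg _
  have hV0 : 0 ≤ V := by rw [hV]; positivity
  have h3 : E = (1111491 / 1048576) * (e2a * (v * DG + V * (2 * DG + DF)) / e) := by
    rw [hE, hEQ, hvDG, hiR2, hiR, hie, hV]; field_simp
  have h4 : 0 ≤ e2a * (v * DG + V * (2 * DG + DF)) / e := by positivity
  have h5 : 53 / 50 * e2a * (v * DG + V * (2 * DG + DF)) / e =
      53 / 50 * (e2a * (v * DG + V * (2 * DG + DF)) / e) := by ring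
  rw [h5, h3]
  nlinarith

theorem f_Sq {e R m m2 EQ wse ER im Qw V E : ℝ} (e0 : 0 < e) (hR0 : 0 < R) (hm0 : 0 < m)
    (hm2 : m2 = m * m) (hwse : wse = R / e) (hER : ER = EQ * wse) (him : im = m⁻¹)
    (hQw : Qw = ER * im) (hV : V = R * R / e) (hE : E = EQ * V) :
    √(R ^ 2 * m2) = R * m ∧ E / √(R ^ 2 * m2) = Qw ∧ E = ER * R ∧ R ^ 2 * m2 / e = V * m2 := by
  have h1 : √(R ^ 2 * m2) = R * m := by
    rw [hm2, show R ^ 2 * (m * m) = (R * m) ^ 2 by ring]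
    exact Real.sqrt_sq (by positivity)
  refine ⟨h1, ?_, ?_, ?_⟩
  · rw [h1, hQw, him, hER, hE, hV, hwse]; field_simp
  · rw [hE, hER, hV, hwse]; field_simp
  · rw [hV]; ring

theorem f_RH1 {e R V dzR RH RH1 : ℝ} (hV : V = R * R / e) (hV0 : 0 ≤ V)
    (h1 : 201 / 200 + RH1 ≤ RH) (p : 0 < RH1 - (dzR + 1) * (dzR + 1)) :
    201 / 200 * V + (R + dzR * R) ^ 2 / e ≤ RH * V := by
  have h2 : (R + dzR * R) ^ 2 / e = ((dzR + 1) * (dzR + 1)) * V := by rw [hV]; ring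
  rw [h2]
  nlinarith

theorem f_RH2 {e R B V kc ycR yc kv s1 dzR ER EQ E r2V RH : ℝ} (e0 : 0 < e) (hR0 : 0 < R)
    (hV : V = R * R / e) (hV0 : 0 ≤ V) (hkc : kc = B / R) (hyc : yc = ycR * R)
    (hkv : kv = kc * kc + ycR * ycR) (hs1 : s1 = (1 / 2) * (kv - 1) + 1) (hdz0 : 0 ≤ dzR)
    (hER0 : 0 ≤ ER) (hE : E = ER * R) (hEV : E = EQ * V)
    (p : 0 < RH - r2V - EQ - (s1 + dzR + ER) * (s1 + dzR + ER)) :
    r2V * V + E + (√(B ^ 2 + yc ^ 2) + dzR * R + E) ^ 2 / e ≤ RH * V := by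
  have h1 : B ^ 2 + yc ^ 2 = R ^ 2 * kv := by rw [hkv, hyc, hkc]; field_simp
  have hkv0 : 0 ≤ kv := by rw [hkv]; nlinarith [mul_self_nonneg kc, mul_self_nonneg ycR]
  have h2 : √(B ^ 2 + yc ^ 2) ≤ R * s1 := by
    rw [h1]
    apply Real.sqrt_le_iff.2
    have h3 : kv ≤ s1 ^ 2 := by rw [hs1]; nlinarith [sq_nonneg (kv - 1)]
    have h4 : 0 ≤ s1 := by rw [hs1]; linarith
    exact ⟨by positivity, by rw [mul_pow]; exact mul_le_mul_of_nonneg_left h3 (sq_nonneg R)⟩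
  have h5 : 0 ≤ √(B ^ 2 + yc ^ 2) := Real.sqrt_nonneg _
  have h6 : (√(B ^ 2 + yc ^ 2) + dzR * R + E) ^ 2 ≤ (R * (s1 + dzR + ER)) ^ 2 := by
    have h7 : 0 ≤ √(B ^ 2 + yc ^ 2) + dzR * R + E := by rw [hE]; positivity
    apply pow_le_pow_left₀ h7
    rw [hE]; nlinarith
  have h8 : (√(B ^ 2 + yc ^ 2) + dzR * R + E) ^ 2 / e ≤ V * ((s1 + dzR + ER) * (s1 + dzR + ER)) := by
    rw [div_le_iff₀ e0]
    refine h6.trans (le_of_eq ?_)
    rw [hV]; field_simp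
  nlinarith

theorem f_h9 {e V m2 c2 c5 Qw RH x q9 : ℝ} (hV0 : 0 ≤ V) (hx : x = V * m2) (hq : q9 ≤ 46 / 5)
    (hc : c2 = (-(2 * Qw)) + c5) (hc5 : c5 = 1 - 500 / e ^ 2) (hm : 0 ≤ m2 * c2)
    (p : 0 < q9 * (m2 * c2) - RH) :
    RH * V ≤ 46 / 5 * (x * (1 - 2 * Qw - 500 / e ^ 2)) := by
  have h1 : 1 - 2 * Qw - 500 / e ^ 2 = c2 := by rw [hc, hc5]; ring
  rw [h1, hx]
  have h2 : RH ≤ 46 / 5 * (m2 * c2) := by nlinarith
  calc RH * V ≤ 46 / 5 * (m2 * c2) * V := mul_le_mul_of_nonneg_right h2 hV0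
    _ = _ := by ring

theorem f_h2 {e R V m2 c2 c5 Qw RH RHq Vie : ℝ} (e0 : 0 < e) (hV : V = R * R / e)
    (hVie : Vie = V / e)
    (hc : c2 = (-(2 * Qw)) + c5) (hc5 : c5 = 1 - 500 / e ^ 2) (hm : 0 ≤ m2 * c2)
    (hRH : RH ^ 2 ≤ RHq) (p : 0 < (471859 / 524288) * (m2 * c2) - RHq * Vie) :
    (RH * V) ^ 2 ≤ 9 / 10 * (R ^ 2 * m2 * (1 - 2 * Qw - 500 / e ^ 2)) := by
  have h1 : 1 - 2 * Qw - 500 / e ^ 2 = c2 := by rw [hc, hc5]; ring
  rw [h1]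
  have hVie0 : 0 ≤ Vie := by
    rw [hVie, hV]; exact div_nonneg (div_nonneg (mul_self_nonneg R) e0.le) e0.le
  have h2 : RH ^ 2 * Vie ≤ 9 / 10 * (m2 * c2) := by
    have := mul_le_mul_of_nonneg_right hRH hVie0
    nlinarith
  have h3 : (RH * V) ^ 2 = (RH ^ 2 * Vie) * R ^ 2 := by rw [hVie, hV]; field_simp
  rw [h3]
  calc (RH ^ 2 * Vie) * R ^ 2 ≤ 9 / 10 * (m2 * c2) * R ^ 2 := mul_le_mul_of_nonneg_right h2 (sq_nonneg R)
    _ = _ := by ring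

end NFBa

open Complex ComplexConjugate Set Filter Topology
open Pool.Agent.helper31.EQ.Y Pool.Agent.helper31.EQ.R
open Pool.Agent.helper12.EQL Pool.Agent.helper12.RP Pool.Agent.helper12.FF Pool.Agent.helper12.RS
open Pool.Agent.helper63.FF
open NFBa

variable {e κ : ℝ}

/-- the numeric facts about the constants `cFB1`, `cFB2` -/
structure CBok (c : CFB) : Prop where
  cD0 : 0 ≤ c.cD
  C0 : 0 < c.C
  l0 : 0 ≤ c.lc0
  l1 : 0 ≤ c.lc1
  l02 : c.lc02 = 2 * c.lc0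
  l12 : c.lc12 = 2 * c.lc1
  r1 : 201 / 200 + c.RH1 ≤ c.RH
  rq : c.RH ^ 2 ≤ c.RHq
  r3 : c.RH ≤ 3
  r0 : 0 < c.RH
  R1 : c.RH1 < 3 / 2
  h2 : c.rho2 = 2 * c.RH
  h1 : c.rho1 = c.RH / 2
  x0 : 0 ≤ c.x0

theorem cb_ok {c : CFB} (hc : c = cFB1 ∨ c = cFB2) : CBok c := by
  rcases hc with rfl | rfl
  · constructor <;> norm_num [cFB1]
  · constructor <;> norm_num [cFB2]

/-- the nonnegativity facts used in `fb_part1` -/
structure FBp {c : CFB} {om ta v : ℝ} (P : PFB c om ta v) : Prop where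
  G0 : 0 ≤ P.GrS
  Gt0 : 0 ≤ P.GtS
  G20 : 0 ≤ P.G2S
  dzS0 : 0 ≤ P.dzS
  Maw0 : 0 ≤ P.Maw
  Mbw0 : 0 ≤ P.Mbw
  DG0 : 0 ≤ P.DG
  DF0 : 0 ≤ P.DF
  EQ0 : 0 ≤ P.EQ

theorem wm_eq {c : CFB} {om ta v : ℝ} (P : PFB c om ta v) (M : PMB om ta) :
    P.wm = M.wm ∧ P.q = M.q := by
  have h1 : P.wm = M.wm := by
    rw [P.e_wm, M.e_wm, P.e_Y2, M.e_Y2, P.e_Yt, M.e_Yt]
  refine ⟨h1, ?_⟩
  rw [P.e_q, M.e_q, P.e_wse0, M.e_wse0, h1, P.e_ie, M.e_ie, P.e_se, M.e_se, P.e_K2, M.e_K2, P.e_K,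
    M.e_K, P.e_se, M.e_se]

theorem fb_part1 (he : 200 ≤ e) (hκ : 0 < κ) (hb : 5 ≤ bet e κ)
    (hD : bet e κ ^ 2 ≤ e * (13864 / 10000 + 7 / 4 * (√e)⁻¹))
    (M : PMB (bet e κ / √e) (bet e κ)⁻¹)
    {v : ℝ} (hv0 : 0 ≤ v) (hv1 : v ≤ Real.pi) {c : CFB} (hc : c = cFB1 ∨ c = cFB2)
    (P : PFB c (bet e κ / √e) (bet e κ)⁻¹ v) (N : FBp P) {R : ℝ}
    (hRd : R = √(bet e κ ^ 2 + v ^ 2)) :
    FN e (Real.sinh κ) v P.V P.a M.p M.q P.q2 M.wm
      (P.GrS * √e - (bet e κ / 2 + Real.log (1 + Real.exp (-bet e κ))))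
      (P.GrS * √e - (bet e κ / 2 + Real.log (1 + Real.exp (-bet e κ))))
      (bet e κ / 2 + Real.log (1 + Real.exp (-bet e κ))) (bet e κ * P.q6 / 2)
      (Real.log 2 + 8 / 5 * P.V - bet e κ * P.q6 / 2) (P.GrS * √e) (P.GrS * √e) (P.G2S * √e)
      (P.GtS * √e / e) (P.GtS * √e)
      (P.V * (8 / 5 * P.V + 5 / 2 * v) / e) P.dz (P.r1V * P.V) (P.r2V * P.V) P.yc P.x1
      ((R * P.sR0) ^ 2) (R ^ 2 * P.m2)
      (P.Maw / P.wn) (P.Mbw / P.wn) P.X P.u (P.X * P.LX) (P.uX * P.LU) P.DG P.DF P.E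
      (c.RH * P.V) := by
  have F := fb_basic he hκ hb hD hv0 hv1 P
  rw [← hRd] at F
  have C := cb_ok hc
  have e0 : 0 < e := by linarith
  have hs := F.hs
  have hs2 := F.hs2
  have hR0 := F.R0
  have hB : bet e κ = e * Real.sinh κ := F.hB
  have hB0 : 0 < bet e κ := by linarith
  have hVp : 0 < P.V := by rw [F.V]; positivity
  have hV1 := F.V1
  have hVe : P.V ≤ e / 100 := by linarith
  have hkc0 : 0 < P.kc := by rw [F.kc]; positivity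
  have hwse0 : 0 < P.wse := by rw [F.wse]; positivity
  have hw0 : 0 < P.w := by rw [F.w]; positivity
  have hie0 : 0 < P.ie := by rw [F.ie]; positivity
  have hse0 : 0 < P.se := by rw [F.se]; positivity
  have hVie : P.Vie = P.V / e := by rw [P.e_Vie, F.ie]; ring
  have hVie0 : 0 ≤ P.Vie := by rw [hVie]; positivity
  obtain ⟨hwm, hq⟩ := wm_eq P M
  have hK2se : P.K2se = Real.sinh κ * Real.sinh κ * √e := by
    rw [P.e_K2se, P.e_bb, F.se]; exact f_K2se hs hs2 hB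
  -- `Gr`, `Gt`, `G2`
  have hsv : P.svt = P.se * (v * v) * (bet e κ)⁻¹ * P.gd⁻¹ := by rw [P.e_svt, P.e_v2]
  obtain ⟨g1, g2, g3⟩ := f_gt (v := v) hs hB0 hR0 F.w F.se rfl F.iR rfl C.l02 C.l12 C.l1 P.e_GrS
    P.e_gd P.p_gd hsv
  obtain ⟨g4, g5⟩ := f_G2 g2 g3 P.e_GtS P.e_G2S
  have hGs : P.GtS * √e / e * e = P.GtS * √e := by field_simp
  -- `S`
  obtain ⟨s1, s2, s3⟩ := f_S0 e0 hR0 F.hR hVp.le hVe F.vs F.ie P.e_Vie P.e_z P.e_sR0
  have hdzR0 : 0 ≤ P.dzR := by rw [P.e_dzR]; exact mul_nonneg N.dzS0 hse0.le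
  have hdzR : P.dz = P.dzR * R := by
    rw [P.e_dz, P.e_dzR, F.w, F.se]; ring
  have hR1 : (P.dzR + 1) * (P.dzR + 1) < 3 / 2 := by have := P.p_R1; have := C.R1; linarith
  obtain ⟨t1, t2⟩ := f_Sl (m2 := P.m2) hR0 s1 hdzR0 hR1 P.p_dzS0 P.e_m P.e_m2
  have hm0 := P.p_m0
  have hm20 : 0 < P.m2 := by rw [P.e_m2]; positivity
  obtain ⟨q1, q2, q3, q4⟩ := f_Sq e0 hR0 hm0 P.e_m2 F.wse P.e_ER P.e_im P.e_Qw F.V P.e_E
  have hER0 : 0 ≤ P.ER := by rw [P.e_ER]; exact mul_nonneg N.EQ0 hwse0.le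
  have hQw0 : 0 ≤ P.Qw := by
    rw [P.e_Qw, P.e_im]; exact mul_nonneg hER0 (inv_nonneg.2 hm0.le)
  have hc5 : P.c5 = 1 - 500 / e ^ 2 := by
    rw [P.e_c5, F.ie]; ring
  -- `x1`
  have hr1V : 0 < P.r1V := by have := P.p_Er; have := N.EQ0; linarith
  have hycR : P.yc = P.ycR * R := by
    rw [P.e_yc, P.e_ycR, F.vs, F.wse, F.V]; field_simp
  obtain ⟨x1, x2⟩ := f_hx1 (K := Real.sinh κ) e0 hR0 hB F.V F.wse F.kc hycR P.e_r1w P.e_kv hr1V.le
    hkc0 P.e_x1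
  have hx11 : P.x1 ≤ 1 := by have := P.p_x11; linarith
  -- `u`
  have hl1 : P.l1 = lam (Real.sinh κ) P.x1 := by
    rw [← F.PK]; exact lam_blk P.e_K2 P.e_q6 P.e_Kq P.e_z1 P.e_iz1 P.e_th1 P.e_l1
  have hl10 : 0 ≤ P.l1 := by
    rw [hl1]; exact lam_nonneg F.K0.le (by have := F.K1; linarith) x1
  have hu0 : 0 < P.u := by rw [P.e_u]; exact Real.exp_pos _
  have hu1 : P.u ≤ 1 := by
    rw [P.e_u]; apply Real.exp_le_one_iff.2
    have : 0 ≤ P.q2 * P.lv := mul_nonneg P.p_q20.le (by rw [P.e_lv]; positivity)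
    linarith
  have hX0 : 0 < P.X := by
    rw [P.e_X, F.sR]; exact mul_pos C.C0 (by positivity)
  have hX1 : P.X < 1 := by have := P.p_X1; linarith
  have huX0 : 0 ≤ P.uX := by rw [P.e_uX]; positivity
  have huX1 : P.uX < 1 := by
    rw [P.e_uX]; exact f_uX hu1 hX0 hX1
  have hwn : P.wn = P.w * P.m := P.e_wn
  have hwn0 : 0 < P.wn := by rw [hwn]; positivity
  have hmc : 0 ≤ P.m2 * P.c2 := by
    exact f_mc (by norm_num) C.r0 P.p_h9
  constructor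
  · exact F.K0
  · exact hv0
  · exact hv1
  · rw [F.V, F.hR, hB]; ring
  · exact hVe
  · rw [P.e_a]
    exact add_nonneg (mul_nonneg hse0.le N.Gt0) (mul_nonneg C.cD0 hie0.le)
  · have := P.p_a1; linarith
  · exact P.p_q20.le
  · rw [hB]
  · right; rw [F.q6, hB]
  · exact le_of_eq (by ring)
  · exact le_of_eq (by ring)
  · exact mul_nonneg N.G0 hs.le
  · exact le_of_eq (by ring)
  · rw [g1, F.q6]
    have h1 := Real.log_two_lt_d9
    have h2 : 0 ≤ c.lc1 / P.w := div_nonneg C.l1 hw0.le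
    have h3 := C.l0
    have h6 := f_K6 hB0 F.K0 F.K1
    linarith
  · exact mul_nonneg N.G20 hs.le
  · exact g4
  · exact div_nonneg (mul_nonneg N.Gt0 hs.le) e0.le
  · rw [hGs]; exact g5
  · exact mul_nonneg N.Gt0 hs.le
  · exact g5
  · rfl
  · rw [P.e_dz]
    exact f_hdz hs hs2.symm hR0 F.w F.V F.vs F.ie F.se F.K2 hK2se P.e_ea P.e_e2a P.e_er hv0 P.e_dzS
  · exact mul_pos hr1V hVp
  · exact f_hr1 e0 hR0 hB F.V F.vs F.kc F.ie F.K2 P.e_h4 P.e_ea P.e_e2a P.e_er P.e_r1V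
  · exact f_hr2 e0 hR0 hB F.V F.kc F.ie F.K2 P.e_h4 P.e_ea P.e_e2a P.e_er P.e_r2V
  · exact f_hyc e0 hv0 hVp.le hB P.e_Vie F.ie (by rw [P.e_Kq, F.PK]) P.e_ea P.e_e2a P.e_er P.e_glf P.e_yc
  · exact x1
  · exact hx11
  · exact x2
  · have h1 := P.p_R2
    have h2 : P.r2V ≤ 3 := by
      have h3 := C.r3; have h4 := N.EQ0
      have h5 := mul_self_nonneg (P.s1 + P.dzR + P.ER)
      linarith
    exact f_r2e h2 hVp.le hV1 he
  · rw [← hB]; exact s3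
  · rw [t1, hdzR]
    exact f_dzS hR0 P.p_dzS0
  · rw [hdzR]; exact t2
  · positivity
  · exact div_nonneg N.Maw0 hwn0.le
  · exact div_nonneg N.Mbw0 hwn0.le
  · exact hX0
  · exact hX1
  · rw [P.e_u, P.e_lv, hl1, q4, mul_assoc]
  · exact hu1
  · rw [P.e_LX, P.e_iX]; exact log1m hX0.le hX1
  · have h1 := log1m huX0 huX1
    rw [P.e_LU, ← P.e_uX]; exact h1
  · refine le_of_eq ?_
    rw [P.e_DG, P.e_dz, hwn, P.e_im]; field_simp
  · refine le_of_eq ?_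
    rw [P.e_DF, P.e_dz, hwn, P.e_im]; field_simp
  · rw [hGs, P.e_a, F.se, F.ie, f_aG hs hs2]
    have := P.p_cG
    linarith
  · rw [P.e_a, F.se, F.ie, f_aG hs hs2]
    have := P.p_cF
    linarith
  · exact f_hE e0 hR0 hv0 F.V F.ie F.iR P.e_iR2 P.e_ea P.e_e2a P.e_vDG N.DG0 N.DF0 P.e_EQ P.e_E
  · rw [q1]
    have h1 := P.p_Es
    have h2 : P.E / (R * P.m) < 1 := by rw [← q1, q2]; linarith
    rwa [div_lt_one (by positivity)] at h2
  · rw [← hB, ← hRd, hdzR]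
    exact f_RH1 F.V hVp.le C.r1 P.p_R1
  · rw [← hB, hdzR]
    exact f_RH2 e0 hR0 F.V hVp.le F.kc hycR P.e_kv P.e_s1 hdzR0 hER0 q3 P.e_E P.p_R2
  · have h1 : 2 * P.E / √(R ^ 2 * P.m2) = 2 * P.Qw := by rw [← q2]; ring
    rw [h1]
    exact f_h9 hVp.le q4 (by norm_num) P.e_c2 hc5 hmc P.p_h9
  · have h1 : 2 * P.E / √(R ^ 2 * P.m2) = 2 * P.Qw := by rw [← q2]; ring
    rw [h1]
    exact f_h2 e0 F.V hVie P.e_c2 hc5 hmc C.rq P.p_h2
  · refine le_of_eq ?_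
    rw [← hq, ← hwm, P.e_q2, P.e_rho, C.h2, C.h1, F.ie, hVie, P.e_wm2]; ring

end Pool.Agent.helper31.EQB
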