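import Pool.Agent.helper31.EQB.NFBb

/-!
# EQB-31: first node of chart B: the structure `FN2` and the bounds of `Mq`
-/

namespace Pool.Agent.helper31.EQB

open Complex ComplexConjugate Set Filter Topology
open Pool.Agent.helper31.EQ.Y Pool.Agent.helper31.EQ.R
open Pool.Agent.helper12.EQL Pool.Agent.helper12.RP Pool.Agent.helper12.FF Pool.Agent.helper12.RS
open Pool.Agent.helper63.FF

variable {e κ : ℝ}

theorem exp_pade {t : ℝ} (h0 : 0 ≤ t) (h2 : t < 2) :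
    Real.exp t ≤ ((1 / 2) * t + 1) * (1 - (1 / 2) * t)⁻¹ := by
  have hpos : 0 < 1 - (1 / 2) * t := by linarith
  -- `g u = (1 + u) - (1 - u) exp (2u)` has derivative `1 + (2u - 1) exp (2u) ≥ 0`
  have key : ∀ u : ℝ, 0 ≤ u → (1 - u) * Real.exp (2 * u) ≤ 1 + u := by
    intro u hu
    have hd : ∀ z : ℝ, HasDerivAt (fun z => 1 + z - (1 - z) * Real.exp (2 * z))
        (1 - (-1 * Real.exp (2 * z) + (1 - z) * (Real.exp (2 * z) * 2))) z := by
      intro z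
      have a1 : HasDerivAt (fun z : ℝ => 1 + z) 1 z := by
        simpa using (hasDerivAt_id z).const_add (1 : ℝ)
      have a2 : HasDerivAt (fun z : ℝ => 1 - z) (-1) z := by
        simpa using (hasDerivAt_id z).const_sub (1 : ℝ)
      have a3 : HasDerivAt (fun z : ℝ => 2 * z) 2 z := by
        simpa using (hasDerivAt_id z).const_mul (2 : ℝ)
      exact a1.sub (a2.mul a3.exp)
    have hmono : MonotoneOn (fun z => 1 + z - (1 - z) * Real.exp (2 * z)) (Ici (0 : ℝ)) := by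
      apply monotoneOn_of_deriv_nonneg (convex_Ici _)
      · exact fun z _ => (hd z).continuousAt.continuousWithinAt
      · exact fun z _ => (hd z).differentiableAt.differentiableWithinAt
      · intro z hz
        rw [interior_Ici] at hz
        have hz0 : 0 < z := hz
        rw [(hd z).deriv]
        have h1 : 1 - 2 * z ≤ Real.exp (-(2 * z)) := by
          have := Real.add_one_le_exp (-(2 * z)); linarith
        have h2 : Real.exp (2 * z) * Real.exp (-(2 * z)) = 1 := by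
          rw [← Real.exp_add]; simp
        have h3 := mul_le_mul_of_nonneg_left h1 (Real.exp_pos (2 * z)).le
        rw [h2] at h3
        nlinarith
    have h1 := hmono (show (0 : ℝ) ∈ Ici 0 by simp) (show u ∈ Ici 0 from hu) hu
    simp only [add_zero, sub_zero, mul_zero, Real.exp_zero, mul_one, sub_self] at h1
    linarith
  have h1 := key ((1 / 2) * t) (by linarith)
  have h3 : 2 * (1 / 2 * t) = t := by ring
  rw [h3] at h1
  rw [← div_eq_mul_inv, le_div_iff₀ hpos]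
  linarith

theorem fb_sl {c : CFB} {om ta v K B s R e : ℝ} {P : PFB c om ta v} (H : FBb P e K B s R)
    (N : FBn P) : √(R ^ 2 * P.m2) = R * P.m ∧ P.E = P.Qw * (R * P.m) ∧ P.E = P.ER * R ∧
    P.wn ^ 2 = R ^ 2 * P.m2 / e ∧ R ^ 2 * P.m2 / e = P.V * P.m2 := by
  have hR0 := H.R0
  have hm0 := N.m0
  have he0 : 0 < e := by linarith [H.e200]
  have h1 : R ^ 2 * P.m2 = (R * P.m) ^ 2 := by rw [P.e_m2]; ring
  refine ⟨?_, ?_, ?_, ?_, ?_⟩
  · rw [h1, Real.sqrt_sq (by positivity)]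
  · rw [P.e_E, P.e_Qw, P.e_ER, P.e_im, H.wse, H.V]; field_simp
  · rw [P.e_E, P.e_ER, H.wse, H.V]; field_simp
  · rw [P.e_wn, P.e_m2]
    have : (P.w * P.m) ^ 2 = P.V * (P.m * P.m) := by rw [P.e_V]; ring
    rw [this, H.V]; ring
  · rw [H.V]; ring

set_option maxHeartbeats 4000000 in
theorem fb_part2 {c : CFB} (hc : CFBok c) {om ta v K B s R e : ℝ} (P : PFB c om ta v)
    (M : PMB om ta) (H : FBb P e K B s R) (N : FBn P) (S : FBm P K) (hta : ta = B⁻¹) :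
    FN2 e K P.V M.p M.q P.q2 (P.r1V * P.V) (P.r2V * P.V) P.yc P.x1
      (R ^ 2 * P.m2) P.X P.E P.d (1497 / 1024) (3277 / 1024 + 29 / 64 * K)
      (R ^ 2 * P.m2 / e * P.c2) (P.Mnw / P.wn) P.u1
      P.eta (223 / 4096 + 133 / 512 * B⁻¹) (R * P.DPR) (R * P.VcR) := by
  have he0 : 0 < e := by linarith [H.e200]
  have hR0 := H.R0
  have hm0 := N.m0
  have hK0 := H.K0
  have hB0 : 0 < B := by linarith [H.B5]
  have hV0 := N.V0
  have hwn := N.wn
  have hw0 := N.w0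
  have hm2 : 0 < P.m2 := by rw [P.e_m2]; positivity
  have hq6 : 0 < P.q6 := by
    rw [H.q6]
    have := H.K1
    nlinarith
  obtain ⟨hsl, hE1, hE2, hwn2, hVm⟩ := fb_sl H N
  have hRm : 0 < R * P.m := by positivity
  have hEsl : 2 * P.E / √(R ^ 2 * P.m2) = 2 * P.Qw := by
    rw [hsl, hE1]; field_simp
  have hVR : R * R = P.V * e := by rw [H.V]; field_simp
  have hc5 : P.c5 = 1 - 500 / e ^ 2 := by rw [P.e_c5, H.ie]; ring
  have h1Q : 0 < 1 - P.Qw := P.p_Es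
  have hEMe : P.EM = P.E * (1 + P.Mnw / P.wn) := by
    rw [P.e_EM, P.e_E, P.e_wn, P.e_im, P.e_V]; field_simp
  have hi2 : 0 < 1 - 1 / 2 * P.EM := P.p_EM2
  have hkv : P.kv * (R * R) = B * B + P.yc * P.yc := by
    have h1 : P.ycR * R = P.yc := by
      rw [P.e_ycR, P.e_yc, H.vs, H.wse, H.V]; field_simp
    have h2 : P.kc * R = B := by rw [H.kc]; field_simp
    rw [P.e_kv, ← h1, ← h2]; ring
  have hr2w : P.r2w * R = P.r2V * P.V := by
    rw [P.e_r2w, H.wse, H.V]; field_simp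
  have hkcR : P.kc * R = B := by rw [H.kc]; field_simp
  have hr2V : 0 ≤ P.r2V := by
    rw [P.e_r2V]
    have h1 := N.e2a1
    have h2 := N.er0
    have h3 : P.kc * P.kc ≤ 1 := by
      have := N.kv1
      have : 0 ≤ P.vs * P.vs := mul_self_nonneg _
      linarith
    have h4 : P.h4 ≤ 1 := by
      rw [P.e_h4, H.K2]
      have : 0 ≤ K * K := mul_self_nonneg _
      linarith
    have h5 : 0 ≤ P.kc * P.kc := mul_self_nonneg _
    have h6 : P.h4 * (1 / 2 * (P.kc * P.kc)) ≤ 1 * (1 / 2 * (P.kc * P.kc)) :=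
      mul_le_mul_of_nonneg_right h4 (by positivity)
    linarith
  have hr2w0 : 0 ≤ P.r2w := by
    rw [P.e_r2w]
    have := N.wse
    positivity
  have hDPx0 : 0 < P.DPx := by
    rw [P.e_DPx]
    have := N.kv
    have := N.kc
    positivity
  have hDPx1 : P.DPx ≤ P.DPR ^ 2 := by
    rw [P.e_DPR]
    nlinarith [sq_nonneg (P.DPx - 1)]
  have hDPR0 : 0 ≤ P.DPR := by rw [P.e_DPR]; linarith
  refine ⟨S.d0, S.d1, ?_, ?_, ?_, ?_, by norm_num, ?_, ?_, ?_, ?_, ?_, ?_, ?_, ?_, ?_, ?_⟩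
  · positivity
  · -- Er
    have h1 := P.p_Er
    rw [P.e_E]
    exact mul_lt_mul_of_pos_right (by linarith) hV0
  · -- hd
    have h1 : P.d * (P.q6 * P.m2 * (1 - P.Qw)) = P.EQ * P.exK := by
      rw [P.e_d]
      have : P.q6 * P.m2 * (1 - P.Qw) ≠ 0 := by positivity
      field_simp
    have h2 : (1 - K ^ 2 / 6) * P.d * (√(R ^ 2 * P.m2) * (√(R ^ 2 * P.m2) - P.E)) =
        P.d * (P.q6 * P.m2 * (1 - P.Qw)) * (R * R) := by
      rw [hsl, hE1, H.q6, P.e_m2]; ring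
    rw [h2, h1, P.e_E, hVR, P.e_exK, H.PK]
    refine le_of_eq ?_
    have h3 : 2 * (K * P.x1) = 2 * K * P.x1 := by ring
    rw [h3]; ring
  · -- hΛ
    rw [hEsl, hVm]
    have h1 := P.p_La
    rw [hc.Lam0] at h1
    have h2 := mul_pos h1 hV0
    rw [P.e_E]
    linarith
  · -- hy0
    have h1 := P.p_y0
    rw [hc.Y0, hc.Y02, H.PK] at h1
    linarith
  · -- W20
    have := S.c20
    positivity
  · -- hW2
    rw [hEsl, P.e_c2, hc5]
    refine le_of_eq ?_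
    ring
  · -- M10
    have := S.Mnw
    positivity
  · -- hu1
    rw [P.e_u1, hVm, S.l4]
    refine Real.exp_le_exp.2 (le_of_eq ?_)
    ring
  · -- hη
    rw [← hEMe, P.e_eta, P.e_i2]
    exact exp_pade S.EM (by linarith)
  · -- DP0
    positivity
  · -- hDP
    rw [← H.hB]
    have h1 : B ^ 2 + P.yc ^ 2 + (P.r2V * P.V) ^ 2 + 2 * B * (P.r2V * P.V) =
        P.DPx * (R * R) := by
      rw [← hr2w, P.e_DPx]
      have h3 : P.kv * (R * R) = B * B + P.yc * P.yc := hkv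
      have h4 : (P.kv + P.r2w * (P.r2w + 2 * P.kc)) * (R * R) =
          P.kv * (R * R) + (P.r2w * R) * (P.r2w * R) + 2 * (P.kc * R) * (P.r2w * R) := by ring
      rw [h4, h3, hkcR]; ring
    rw [h1]
    have h2 := mul_le_mul_of_nonneg_right hDPx1 (mul_self_nonneg R)
    linarith
  · -- hVc
    rw [← H.hB]
    have h1 : R * P.VcR = (B ^ 2 + P.yc ^ 2 + (P.r2V * P.V) ^ 2) / e := by
      rw [P.e_VcR, H.wse, ← hr2w]
      have h4 : R * (R / e * (P.kv + P.r2w * P.r2w)) =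
          (P.kv * (R * R) + (P.r2w * R) * (P.r2w * R)) / e := by ring
      rw [h4, hkv]; ring
    rw [h1]
  · -- hcl
    rw [← H.hB]
    have h1 := P.p_cl
    have hta2 : P.a0 = 223 / 4096 + 133 / 512 * B⁻¹ := by
      rw [P.e_a0, hc.a00, hc.a01, hta]; ring
    have hrb : P.rb = (4 + B) / (4 * R) := by
      rw [P.e_rb, H.iR, H.kc]; field_simp
    have hXc : P.Xc = P.X * ((4 + B) / (4 * R)) := by
      rw [P.e_Xc, P.e_X, H.sR, hta]; field_simp
    have hne : (1 - 1 / 2 * P.EM) ≠ 0 := hi2.ne'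
    have hii : (1 - 1 / 2 * P.EM) * P.i2 = 1 := by
      rw [P.e_i2]; exact mul_inv_cancel₀ hne
    have heta : P.eta - 1 = P.EM * P.i2 := by
      rw [P.e_eta]; linear_combination hii
    rw [← hta2]
    have h4 : 0 < 4 / (4 + B) * R := by positivity
    have h5 := mul_pos h1 h4
    have h6 : (-(P.EMr * P.i2 + P.eta * P.u1 * P.a0 * (P.DPR + P.VcR + P.ER)) +
        (1 - 1 / 1024 * P.K) * P.Xc) * (4 / (4 + B) * R) =
        (1 - K / 1024) * P.X - ((P.eta - 1) +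
        P.eta * (P.u1 * (P.a0 * (4 / (4 + B)))) * (R * P.DPR + R * P.VcR + P.E)) := by
      rw [heta, P.e_EMr, hrb, hXc, H.PK, hE2]
      field_simp
      ring
    rw [h6] at h5
    linarith

theorem fb_mq {c : CFB} {om ta v K B s R e : ℝ} (P : PFB c om ta v)
    (M : PMB om ta) (H : FBb P e K B s R) (N : FBn P) (S : FBm P K) :
    Mq e K M.p M.q P.q2 P.x1 (R ^ 2 * P.m2 / e) ≤ P.Maw / P.wn ∧
    Mq e K M.p M.q P.q2 (P.x1 + 1) (R ^ 2 * P.m2 / e * (1 - 500 / e ^ 2)) ≤ P.Mbw / P.wn ∧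
    Mq e K M.p M.q P.q2 (P.x1 + 1 - P.d) (R ^ 2 * P.m2 / e * P.c2) ≤ P.Mnw / P.wn := by
  obtain ⟨hsl, hE1, hE2, hwn2, hVm⟩ := fb_sl H N
  obtain ⟨hqq, hss, -⟩ := pm_eq P M
  have hc5 : P.c5 = 1 - 500 / e ^ 2 := by rw [P.e_c5, H.ie]; ring
  have hp : M.p = P.sp * P.sp := by rw [hss, M.e_p]
  have hq0 : 0 ≤ M.q := by rw [← hqq]; exact S.q0.le
  have hcc50 : 0 < P.cc5 := by rw [P.e_cc5]; have := N.c50; positivity
  have hcc51 : P.cc5 ≤ 1 := by
    rw [P.e_cc5]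
    have := N.c50; have := N.c51
    nlinarith
  have hcd50 : 0 < P.cd5 := by rw [P.e_cd5]; have := N.c50; have := S.c20; positivity
  have hcd51 : P.cd5 ≤ 1 := by
    rw [P.e_cd5]
    have := N.c50; have := N.c51; have := S.c20; have := S.c21
    nlinarith
  refine ⟨?_, ?_, ?_⟩
  · rw [P.e_Maw]
    refine mq_blk S.sp0 hp hq0 N.wn N.c50 N.c51 P.e_xxa P.e_rca P.e_bna P.e_wsa P.e_ba S.l20
      (le_of_eq S.l2) (by rw [← hqq]; exact P.e_iba) ?_ ?_
    · rw [hwn2, hc5]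
    · rw [P.e_u, P.e_lv, hVm, S.l1]
      refine Real.exp_le_exp.2 (le_of_eq ?_)
      ring
  · rw [P.e_Mbw]
    refine mq_blk S.sp0 hp hq0 N.wn hcc50 hcc51 P.e_xxc P.e_rcc P.e_bnc P.e_wsc P.e_bc S.l30
      (le_of_eq ?_) (by rw [← hqq]; exact P.e_ibc) ?_ ?_
    · rw [S.l3]; congr 1; ring
    · rw [hwn2, P.e_cc5, hc5]
      refine le_of_eq ?_
      ring
    · rw [P.e_ub, hVm, S.l2, ← hc5]
      refine Real.exp_le_exp.2 (le_of_eq ?_)
      ring
  · rw [P.e_Mnw]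
    refine mq_blk S.sp0 hp hq0 N.wn hcd50 hcd51 P.e_xxn P.e_rcn P.e_bnn P.e_wsn P.e_bn S.l50
      (le_of_eq S.l5) (by rw [← hqq]; exact P.e_ibn) ?_ ?_
    · rw [hwn2, P.e_cd5, hc5]
      refine le_of_eq ?_
      ring
    · rw [P.e_u1, hVm, S.l4]
      refine Real.exp_le_exp.2 (le_of_eq ?_)
      ring

/-- everything of `fb_core` which does not belong to `FN` -/
theorem fb_two {v R : ℝ} {c : CFB} (hc : c = cFB1 ∨ c = cFB2)
    (M : PMB (bet e κ / √e) (bet e κ)⁻¹) (P : PFB c (bet e κ / √e) (bet e κ)⁻¹ v)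
    (H : FBb P e (Real.sinh κ) (bet e κ) (√e) R) (N : FBn P) (S : FBm P (Real.sinh κ)) :
    FN2 e (Real.sinh κ) P.V M.p M.q P.q2 (P.r1V * P.V) (P.r2V * P.V) P.yc P.x1
      (R ^ 2 * P.m2) P.X P.E P.d (LamB 0) (ynB κ 0) (R ^ 2 * P.m2 / e * P.c2) (P.Mnw / P.wn) P.u1
      P.eta (aB e κ 0) (R * P.DPR) (R * P.VcR) ∧
    P.d ≤ 1 ∧ xB 0 ≤ P.x1 - P.d ∧
    Mq e (Real.sinh κ) M.p M.q P.q2 P.x1 (R ^ 2 * P.m2 / e) ≤ P.Maw / P.wn ∧
    Mq e (Real.sinh κ) M.p M.q P.q2 (P.x1 + 1) (R ^ 2 * P.m2 / e * (1 - 500 / e ^ 2)) ≤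
      P.Mbw / P.wn ∧
    Mq e (Real.sinh κ) M.p M.q P.q2 (P.x1 + 1 - P.d) (R ^ 2 * P.m2 / e * P.c2) ≤
      P.Mnw / P.wn := by
  have hC := cfb_ok hc
  have h1 : LamB 0 = 1497 / 1024 := rfl
  have h2 : ynB κ 0 = 3277 / 1024 + 29 / 64 * Real.sinh κ := rfl
  have h3 : aB e κ 0 = 223 / 4096 + 133 / 512 * (bet e κ)⁻¹ := rfl
  have h4 : xB 0 = 301 / 512 := rfl
  refine ⟨?_, ?_, ?_, fb_mq P M H N S⟩
  · rw [h1, h2, h3]
    exact fb_part2 hC P M H N S rfl
  · have := S.d1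
    have := P.p_x11
    linarith
  · have := P.p_x0
    rw [hC.x0] at this
    rw [h4]
    linarith

end Pool.Agent.helper31.EQB
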