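import Pool.Agent.helper31.EQB.Cst
import Pool.Agent.helper31.EQB.MCN
import Pool.Agent.helper31.EQB.LamN
import Pool.Agent.helper31.EQB.MqN
import Pool.Agent.helper31.EQB.NFBa
import Pool.Agent.helper31.EQB.NFBm

/-!
# EQB-31: first node of chart B: program ⇒ `FN`, `FN2`, the bounds of `Mq`

`R = √(β²+v²) = β sR`, `kc = β/R`, `iR = 1/R`, `w = √V = om sR`, `se = 1/√e`.  `Gr = GrS/se`; `√(Gr²+v²) ≤ Gr + v²/(2Gr) ≤ Gt = GtS/se`: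
`2 Gr = β (1 + 2 lc0 ta + 2 lc1 ta/w) ≥ β gd` (`1/w ≥ 5/3 - 25w/36`), `G2 = G2S/se` in the same way; `lal = β q6/2`,
`gl = log 2 + 8/5 V - β q6/2` (`log 2 ≤ 363409/524288`).  `C = c.C`, `X = C R/β = P.X`.  `lam_blk` for the `l`'s.
`fb_part1` (NFBa), `fb_two` (NFBm), `fb_nn`, `fb_sg` (NFBb).
-/

namespace Pool.Agent.helper31.EQB

open Complex ComplexConjugate Set Filter Topology
open Pool.Agent.helper31.EQ.Y Pool.Agent.helper31.EQ.R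
open Pool.Agent.helper12.EQL Pool.Agent.helper12.RP Pool.Agent.helper12.FF Pool.Agent.helper12.RS
open Pool.Agent.helper63.FF

variable {e κ : ℝ}

theorem fb_core (he : 200 ≤ e) (hκ : 0 < κ) (hb : 5 ≤ bet e κ)
    (hD : bet e κ ^ 2 ≤ e * (13864 / 10000 + 7 / 4 * (√e)⁻¹))
    (M : PMB (bet e κ / √e) (bet e κ)⁻¹)
    {v : ℝ} (hv0 : 0 ≤ v) (hv1 : v ≤ Real.pi) {c : CFB} (hc : c = cFB1 ∨ c = cFB2)
    (P : PFB c (bet e κ / √e) (bet e κ)⁻¹ v) :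
    ∃ R G2 gt ft : ℝ, 0 < R ∧ R ^ 2 = bet e κ ^ 2 + v ^ 2 ∧ P.w ^ 2 = R ^ 2 / e ∧ 0 < P.w ∧
    FN e (Real.sinh κ) v P.V P.a M.p M.q P.q2 M.wm (P.GrS * √e - (bet e κ / 2 + Real.log (1 + Real.exp (-bet e κ))))
      (P.GrS * √e - (bet e κ / 2 + Real.log (1 + Real.exp (-bet e κ))))
      (bet e κ / 2 + Real.log (1 + Real.exp (-bet e κ))) (bet e κ * P.q6 / 2)
      (Real.log 2 + 8 / 5 * P.V - bet e κ * P.q6 / 2) (P.GrS * √e) (P.GrS * √e) G2 gt ft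
      (P.V * (8 / 5 * P.V + 5 / 2 * v) / e) P.dz (P.r1V * P.V) (P.r2V * P.V) P.yc P.x1 ((R * P.sR0) ^ 2) (R ^ 2 * P.m2)
      (P.Maw / P.wn) (P.Mbw / P.wn) P.X P.u (P.X * P.LX) (P.uX * P.LU) P.DG P.DF P.E (c.RH * P.V) ∧
    FN2 e (Real.sinh κ) P.V M.p M.q P.q2 (P.r1V * P.V) (P.r2V * P.V) P.yc P.x1
      (R ^ 2 * P.m2) P.X P.E P.d (LamB 0) (ynB κ 0) (R ^ 2 * P.m2 / e * P.c2) (P.Mnw / P.wn) P.u1
      P.eta (aB e κ 0) (R * P.DPR) (R * P.VcR) ∧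
    P.d ≤ 1 ∧ xB 0 ≤ P.x1 - P.d ∧
    Mq e (Real.sinh κ) M.p M.q P.q2 P.x1 (R ^ 2 * P.m2 / e) ≤ P.Maw / P.wn ∧
    Mq e (Real.sinh κ) M.p M.q P.q2 (P.x1 + 1) (R ^ 2 * P.m2 / e * (1 - 500 / e ^ 2)) ≤ P.Mbw / P.wn ∧
    Mq e (Real.sinh κ) M.p M.q P.q2 (P.x1 + 1 - P.d) (R ^ 2 * P.m2 / e * P.c2) ≤ P.Mnw / P.wn ∧
    G2 = P.G2S * √e ∧ ft = P.GtS * √e := by
  obtain ⟨R, hRd⟩ : ∃ R, R = √(bet e κ ^ 2 + v ^ 2) := ⟨_, rfl⟩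
  have F := fb_basic he hκ hb hD hv0 hv1 P
  rw [← hRd] at F
  have e0 : 0 < e := by linarith
  have N := fb_nn (cfb_ok hc) P F rfl rfl hv1
  have S := fb_sg (cfb_ok hc) P M F N
  have N' : FBp P := ⟨N.GrS, N.GtS, N.G2S, N.dzS, S.Maw.le, S.Mbw.le, S.DG, S.DF, S.EQ⟩
  have A := fb_part1 he hκ hb hD M hv0 hv1 hc P N' hRd
  obtain ⟨A2, A3, A4, A5, A6, A7⟩ := fb_two hc M P F N S
  have hR2 : R ^ 2 = bet e κ ^ 2 + v ^ 2 := by rw [sq R, F.hR]; ring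
  have hw : P.w ^ 2 = R ^ 2 / e := by
    have h1 : P.w ^ 2 = P.V := by rw [P.e_V]; ring
    rw [h1, F.V]; ring
  exact ⟨R, P.G2S * √e, P.GtS * √e / e, P.GtS * √e, F.R0, hR2, hw, N.w0, A, A2, A3, A4, A5, A6, A7,
    rfl, rfl⟩

end Pool.Agent.helper31.EQB
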