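import Pool.Agent.helper31.EQB.Cst
import Pool.Agent.helper31.EQB.MCN
import Pool.Agent.helper31.EQB.LamN
import Pool.Agent.helper31.EQB.MqN

/-!
# EQB-31: first node of chart B: basic values of the program

`s = √e`, `B = β = e K`, `R = √(β²+v²)`; `se = 1/s`, `ie = 1/e`, `sR = R/B`, `kc = B/R`, `w = R/s`, `V = R²/e`, `wse = R/e`,
`iR = 1/R`, `vs = v/R`.
-/

namespace Pool.Agent.helper31.EQB

open Complex ComplexConjugate Set Filter Topology
open Pool.Agent.helper31.EQ.Y Pool.Agent.helper31.EQ.R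
open Pool.Agent.helper12.EQL Pool.Agent.helper12.RP Pool.Agent.helper12.FF Pool.Agent.helper12.RS
open Pool.Agent.helper63.FF

variable {e κ : ℝ}

/-- basic values of the program of the first node, chart B -/
structure FBb {c : CFB} {om ta v : ℝ} (P : PFB c om ta v) (e K B s R : ℝ) : Prop where
  e200 : 200 ≤ e
  hs : 0 < s
  hs2 : s * s = e
  K0 : 0 < K
  hB : B = e * K
  B5 : 5 ≤ B
  K1 : K ≤ 9 / 100
  v0 : 0 ≤ v
  R0 : 0 < R
  hR : R * R = B * B + v * v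
  se : P.se = 1 / s
  ie : P.ie = 1 / e
  PK : P.K = K
  K2 : P.K2 = K * K
  q6 : P.q6 = 1 - K ^ 2 / 6
  sR : P.sR = R / B
  kc : P.kc = B / R
  w : P.w = R / s
  V : P.V = R * R / e
  wse : P.wse = R / e
  iR : P.iR = 1 / R
  vs : P.vs = v / R
  V1 : P.V ≤ 8 / 5

theorem fb_basic (he : 200 ≤ e) (hκ : 0 < κ) (hb : 5 ≤ bet e κ)
    (hD : bet e κ ^ 2 ≤ e * (13864 / 10000 + 7 / 4 * (√e)⁻¹))
    {v : ℝ} (hv0 : 0 ≤ v) (hv1 : v ≤ Real.pi) {c : CFB}
    (P : PFB c (bet e κ / √e) (bet e κ)⁻¹ v) :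
    FBb P e (Real.sinh κ) (bet e κ) (√e) (√(bet e κ ^ 2 + v ^ 2)) := by
  have he0 : 0 < e := by linarith
  have hK0 : 0 < Real.sinh κ := Real.sinh_pos_iff.2 hκ
  obtain ⟨K, hK⟩ : ∃ K, K = Real.sinh κ := ⟨_, rfl⟩
  obtain ⟨B, hBd⟩ : ∃ B, B = bet e κ := ⟨_, rfl⟩
  obtain ⟨s, hsd⟩ : ∃ s, s = √e := ⟨_, rfl⟩
  have hB : B = e * K := by rw [hBd, hK]; rfl
  have hs : 0 < s := by rw [hsd]; exact Real.sqrt_pos.2 he0
  have hs2 : s * s = e := by rw [hsd]; exact Real.mul_self_sqrt he0.le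
  rw [← hBd] at hb hD
  rw [← hsd] at hD
  rw [← hK] at hK0
  have hB0 : 0 < B := by linarith
  have hpos : 0 < B ^ 2 + v ^ 2 := by positivity
  obtain ⟨R, hRd⟩ : ∃ R, R = √(B ^ 2 + v ^ 2) := ⟨_, rfl⟩
  have hR0 : 0 < R := by rw [hRd]; exact Real.sqrt_pos.2 hpos
  have hR : R * R = B * B + v * v := by
    rw [hRd, Real.mul_self_sqrt hpos.le]; ring
  have hs14 : 14 ≤ s := by nlinarith
  have hsi : s⁻¹ ≤ 1 / 14 := by
    rw [one_div]; exact inv_anti₀ (by norm_num) hs14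
  have hD2 : B ^ 2 ≤ e * (15114 / 10000) := by
    refine hD.trans (mul_le_mul_of_nonneg_left ?_ he0.le)
    linarith
  have hK1 : K ≤ 9 / 100 := by
    by_contra hcon
    push Not at hcon
    have h1 : e * e * (K * K) ≤ e * (15114 / 10000) := by
      have : B ^ 2 = e * e * (K * K) := by rw [hB]; ring
      rw [← this]; exact hD2
    have h2 : e * (K * K) ≤ 15114 / 10000 := by
      have h3 : e * (e * (K * K)) ≤ e * (15114 / 10000) := by
        calc e * (e * (K * K)) = e * e * (K * K) := by ring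
          _ ≤ _ := h1
      exact le_of_mul_le_mul_left h3 he0
    have h4 : (81 : ℝ) / 10000 ≤ K * K := by nlinarith
    nlinarith
  have se : P.se = 1 / s := by
    rw [P.e_se, ← hBd, ← hsd]; field_simp
  have ie : P.ie = 1 / e := by
    rw [P.e_ie, se, ← hs2]; field_simp
  have PK : P.K = K := by
    rw [P.e_K, se, ← hBd, ← hsd, hB, ← hs2]; field_simp
  have K2 : P.K2 = K * K := by rw [P.e_K2, PK]
  have q6 : P.q6 = 1 - K ^ 2 / 6 := by rw [P.e_q6, K2]; ring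
  have hsg : P.sg2 = R * R / (B * B) := by
    rw [P.e_sg2, P.e_v2, ← hBd, hR]; field_simp
    ring
  have hsg0 : 0 < P.sg2 := by rw [hsg]; positivity
  have sR : P.sR = R / B := by
    have h1 : P.sR ^ 2 = (R / B) ^ 2 := by
      rw [P.e_sR, ← Real.exp_nat_mul, P.e_L]
      have : ((2 : ℕ) : ℝ) * (1 / 2 * Real.log P.sg2) = Real.log P.sg2 := by push_cast; ring
      rw [this, Real.exp_log hsg0, hsg]
      rw [div_pow]; ring
    have h2 : 0 ≤ P.sR := by rw [P.e_sR]; exact (Real.exp_pos _).le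
    have h3 : 0 ≤ R / B := by positivity
    exact (sq_eq_sq₀ h2 h3).1 h1
  have kc : P.kc = B / R := by
    have : P.kc = P.sR⁻¹ := by rw [P.e_kc, P.e_sR, Real.exp_neg]
    rw [this, sR, inv_div]
  have w : P.w = R / s := by
    rw [P.e_w, sR, ← hBd, ← hsd]; field_simp
  have V : P.V = R * R / e := by
    rw [P.e_V, w, ← hs2]; field_simp
  have wse : P.wse = R / e := by
    rw [P.e_wse, w, se, ← hs2]; field_simp
  have iR : P.iR = 1 / R := by
    rw [P.e_iR, kc, ← hBd]; field_simp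
  have vs : P.vs = v / R := by
    rw [P.e_vs, iR]; ring
  have V1 : P.V ≤ 8 / 5 := by
    rw [V, div_le_iff₀ he0, hR]
    have h0 : v ≤ 315 / 100 := by
      have := Real.pi_lt_d2
      norm_num at this ⊢
      linarith
    have h1 : v * v ≤ 315 / 100 * (315 / 100) := mul_le_mul h0 h0 hv0 (by norm_num)
    have h2 : B * B ≤ e * (15114 / 10000) := by rw [← sq]; exact hD2
    linarith
  subst hRd
  subst hsd
  subst hBd
  subst hK
  exact ⟨he, hs, hs2, hK0, hB, hb, hK1, hv0, hR0, hR, se, ie, PK, K2, q6, sR, kc, w, V, wse, iR,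
    vs, V1⟩

/-- the constants of `cFB1`, `cFB2` -/
structure CFBok (c : CFB) : Prop where
  cD : 0 < c.cD
  RH : 0 < c.RH
  lc0 : 0 < c.lc0
  lc1 : 0 < c.lc1
  lc02 : 0 < c.lc02
  lc12 : 0 < c.lc12
  rho2 : 0 < c.rho2
  rho1 : 0 < c.rho1
  x0 : c.x0 = 301 / 512
  Lam0 : c.Lam0 = 1497 / 1024
  Y0 : c.Y0 = 3277 / 1024
  Y02 : c.Y02 = 29 / 64
  a00 : c.a00 = 223 / 4096
  a01 : c.a01 = 133 / 512
  C : c.C = 1209 / 4096

theorem cfb_ok {c : CFB} (hc : c = cFB1 ∨ c = cFB2) : CFBok c := by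
  rcases hc with h | h <;> subst h <;> constructor <;> simp only [cFB1, cFB2] <;> norm_num

/-- the programs `PFB` and `PMB` have the same constants -/
theorem pm_eq {c : CFB} {om ta v : ℝ} (P : PFB c om ta v) (M : PMB om ta) :
    P.q = M.q ∧ P.sp = M.sp ∧ P.wm = M.wm := by
  have h1 : P.se = M.se := by rw [P.e_se, M.e_se]
  have h2 : P.ie = M.ie := by rw [P.e_ie, M.e_ie, h1]
  have h3 : P.K = M.K := by rw [P.e_K, M.e_K, h1]
  have h4 : P.K2 = M.K2 := by rw [P.e_K2, M.e_K2, h3]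
  have h5 : P.Yt = M.Yt := by rw [P.e_Yt, M.e_Yt]
  have h6 : P.Y2 = M.Y2 := by rw [P.e_Y2, M.e_Y2, h5]
  have h7 : P.wm = M.wm := by rw [P.e_wm, M.e_wm, h5, h6]
  have h8 : P.wse0 = M.wse0 := by rw [P.e_wse0, M.e_wse0, h7, h1]
  exact ⟨by rw [P.e_q, M.e_q, h8, h2, h4], by rw [P.e_sp, M.e_sp, h8, h2, h4], h7⟩

/-- signs and first bounds of the program of the first node, chart B -/
structure FBn {c : CFB} {om ta v : ℝ} (P : PFB c om ta v) : Prop where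
  ie0 : 0 < P.ie
  ie1 : P.ie ≤ 1 / 200
  GrS : 0 ≤ P.GrS
  svt : 0 ≤ P.svt
  GtS : 0 ≤ P.GtS
  G2S : 0 ≤ P.G2S
  a0 : 0 ≤ P.a
  a1 : P.a ≤ 1 / 18
  ea1 : 1 ≤ P.ea
  ea2 : P.ea ≤ 18 / 17
  e2a1 : 1 ≤ P.e2a
  e2a2 : P.e2a ≤ 324 / 289
  er0 : 0 ≤ P.er
  er1 : P.er ≤ 53 / 1000
  K2 : P.K2 ≤ 81 / 10000
  dzS : 0 ≤ P.dzS
  dzR : 0 ≤ P.dzR
  kc : 0 < P.kc
  vs0 : 0 ≤ P.vs
  vs1 : P.vs * P.vs ≤ 29 / 100
  kv1 : P.kc * P.kc + P.vs * P.vs = 1
  w0 : 0 < P.w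
  V0 : 0 < P.V
  wse : 0 < P.wse
  r1V : 1 / 2 ≤ P.r1V
  kv : 0 < P.kv
  x10 : 0 ≤ P.x1
  X0 : 0 < P.X
  m0 : 0 < P.m
  wn : 0 < P.wn
  c50 : 0 < P.c5
  c51 : P.c5 ≤ 1

theorem fb_nn {c : CFB} (hc : CFBok c) {om ta v K B s R : ℝ} {e : ℝ} (P : PFB c om ta v)
    (H : FBb P e K B s R) (hom : om = B / s) (hta : ta = B⁻¹) (hv1 : v ≤ Real.pi) : FBn P := by
  have he0 : 0 < e := by linarith [H.e200]
  have hB0 : 0 < B := by linarith [H.B5]
  have hs := H.hs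
  have hR0 := H.R0
  have hK0 := H.K0
  have hv0 := H.v0
  have ie0 : 0 < P.ie := by rw [H.ie]; positivity
  have ie1 : P.ie ≤ 1 / 200 := by
    rw [H.ie]; exact one_div_le_one_div_of_le (by norm_num) H.e200
  have hom0 : 0 < om := by rw [hom]; positivity
  have hta0 : 0 < ta := by rw [hta]; positivity
  have hse0 : 0 < P.se := by rw [H.se]; positivity
  have hiR0 : 0 < P.iR := by rw [H.iR]; positivity
  have hV0 : 0 < P.V := by rw [H.V]; positivity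
  have hw0 : 0 < P.w := by rw [H.w]; positivity
  have hK20 : 0 ≤ P.K2 := by rw [H.K2]; positivity
  have GrS : 0 ≤ P.GrS := by
    rw [P.e_GrS]
    have := hc.lc0; have := hc.lc1
    positivity
  have svt : 0 ≤ P.svt := by
    rw [P.e_svt, P.e_v2]
    have := P.p_gd
    positivity
  have GtS : 0 ≤ P.GtS := by rw [P.e_GtS]; linarith
  have G2S : 0 ≤ P.G2S := by rw [P.e_G2S]; linarith
  have a0 : 0 ≤ P.a := by
    rw [P.e_a]
    have := hc.cD
    positivity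
  have a1 : P.a ≤ 1 / 18 := by
    have := P.p_a1
    norm_num at this ⊢
    linarith
  have ea1 : 1 ≤ P.ea := by rw [P.e_ea]; exact Real.one_le_exp a0
  have ea2 : P.ea ≤ 18 / 17 := by
    have h1 : 1 - P.a ≤ Real.exp (-P.a) := by
      have := Real.add_one_le_exp (-P.a)
      linarith
    have h2 : Real.exp P.a * Real.exp (-P.a) = 1 := by rw [← Real.exp_add]; simp
    have h3 : 17 / 18 ≤ Real.exp (-P.a) := by linarith
    rw [P.e_ea]
    nlinarith [Real.exp_pos P.a]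
  have e2a1 : 1 ≤ P.e2a := by rw [P.e_e2a]; nlinarith
  have e2a2 : P.e2a ≤ 324 / 289 := by rw [P.e_e2a]; nlinarith
  have er0 : 0 ≤ P.er := by rw [P.e_er]; positivity
  have hv2 : v ≤ 315 / 100 := by
    have := Real.pi_lt_d2
    norm_num at this ⊢
    linarith
  have er1 : P.er ≤ 53 / 1000 := by
    rw [P.e_er]
    have hV1 := H.V1
    have h1 : 838861 / 524288 * P.V + 5 / 2 * v ≤ 2600001 / 1000000 + 7875 / 1000 := by
      norm_num; linarith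
    have h2 : 0 ≤ 838861 / 524288 * P.V + 5 / 2 * v := by positivity
    calc (838861 / 524288 * P.V + 5 / 2 * v) * P.ie
        ≤ (2600001 / 1000000 + 7875 / 1000) * (1 / 200) := mul_le_mul h1 ie1 ie0.le (by norm_num)
      _ ≤ 53 / 1000 := by norm_num
  have K2 : P.K2 ≤ 81 / 10000 := by
    rw [H.K2]
    have := H.K1
    nlinarith
  have vs0 : 0 ≤ P.vs := by rw [H.vs]; positivity
  have kc : 0 < P.kc := by rw [H.kc]; positivity
  have kv1 : P.kc * P.kc + P.vs * P.vs = 1 := by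
    rw [H.kc, H.vs]
    have h1 := H.hR
    have h2 : R * R ≠ 0 := by positivity
    have h3 : B / R * (B / R) + v / R * (v / R) = (B * B + v * v) / (R * R) := by
      field_simp
    rw [h3, ← h1, div_self h2]
  have vs1 : P.vs * P.vs ≤ 29 / 100 := by
    rw [H.vs]
    have h3 : v / R * (v / R) = v * v / (R * R) := by field_simp
    rw [h3, div_le_iff₀ (by positivity), H.hR]
    have h4 : v * v ≤ 315 / 100 * (315 / 100) := mul_le_mul hv2 hv2 hv0 (by norm_num)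
    have h5 : (5 : ℝ) * 5 ≤ B * B := mul_le_mul H.B5 H.B5 (by norm_num) hB0.le
    nlinarith
  have hK2se : 0 ≤ P.K2se := by rw [P.e_K2se, P.e_bb]; positivity
  have dzS : 0 ≤ P.dzS := by
    rw [P.e_dzS]
    have h1 : 0 ≤ (3 / 2) * P.e2a - (3 / 2) + (3 / 4) * P.K2 + v * P.ie + P.er := by
      have : 0 ≤ v * P.ie := by positivity
      nlinarith
    have h2 : 0 ≤ P.ea := by linarith
    positivity
  have dzR : 0 ≤ P.dzR := by rw [P.e_dzR]; positivity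
  have wse : 0 < P.wse := by rw [H.wse]; positivity
  have r1V : 1 / 2 ≤ P.r1V := by
    rw [P.e_r1V, P.e_h4]
    have h1 : P.vs * P.vs * P.ea ≤ P.vs * P.vs * (18 / 17) :=
      mul_le_mul_of_nonneg_left ea2 (by positivity)
    have h2 : 0 ≤ 3 - (3 / 2) * P.e2a := by linarith
    have h3 : 1 - (1 / 4) * (81 / 10000) ≤ 1 - (1 / 4) * P.K2 := by linarith
    have h4 : 3 - (3 / 2) * (324 / 289) ≤ 3 - (3 / 2) * P.e2a := by linarith
    have h5 : (1 - (1 / 4) * (81 / 10000)) * (3 - (3 / 2) * (324 / 289)) ≤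
        (1 - (1 / 4) * P.K2) * (3 - (3 / 2) * P.e2a) :=
      mul_le_mul h3 h4 (by norm_num) (by linarith)
    norm_num at h5 ⊢
    linarith
  have hkv : 0 < P.kv := by
    rw [P.e_kv]
    have : 0 ≤ P.ycR * P.ycR := mul_self_nonneg _
    positivity
  have x10 : 0 ≤ P.x1 := by
    rw [P.e_x1]
    have : 0 ≤ P.r1w * P.r1w := mul_self_nonneg _
    have : 0 ≤ P.r1V := by linarith
    positivity
  have X0 : 0 < P.X := by
    rw [P.e_X, H.sR, hc.C]
    positivity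
  have m0 := P.p_m0
  have wn : 0 < P.wn := by rw [P.e_wn]; positivity
  have c50 : 0 < P.c5 := by
    rw [P.e_c5]
    have : P.ie * P.ie ≤ 1 / 200 * (1 / 200) := mul_le_mul ie1 ie1 ie0.le (by norm_num)
    linarith
  have c51 : P.c5 ≤ 1 := by
    rw [P.e_c5]
    have : 0 ≤ P.ie * P.ie := by positivity
    linarith
  exact ⟨ie0, ie1, GrS, svt, GtS, G2S, a0, a1, ea1, ea2, e2a1, e2a2, er0, er1, K2, dzS, dzR, kc,
    vs0, vs1, kv1, hw0, hV0, wse, r1V, hkv, x10, X0, m0, wn, c50, c51⟩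

theorem rc_pos {cc xx rc : ℝ} (h0 : 0 < cc) (h1 : cc ≤ 1) (hx : xx = (-cc) + 1)
    (hr : rc = (1 / 2) * xx * (-(xx + 1)) + 1) : 0 < rc := by
  have hx0 : 0 ≤ xx := by rw [hx]; linarith
  have hx1 : xx < 1 := by rw [hx]; linarith
  rw [hr]; nlinarith

theorem ib_pos {q w cc xx rc sp bn ws b ib l2 : ℝ} (hsp : 0 < sp) (hq : 0 ≤ q) (hw : 0 < w)
    (hcc : 0 < cc) (hcc1 : cc ≤ 1) (hxx : xx = (-cc) + 1)
    (hrc : rc = (1 / 2) * xx * (-(xx + 1)) + 1) (hbn : bn = sp * rc) (hws : ws = bn * w)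
    (hb : b = bn * ((1 / 2) * ws + ((1482911 / 16777216) * (ws * ws) + (1482911 / 1048576)))⁻¹)
    (hl0 : 0 ≤ l2) (hib : ib = (b + (1 / 2) * (q * w * cc * l2))⁻¹) : 0 < ib := by
  have h1 := rc_pos hcc hcc1 hxx hrc
  have h2 : 0 < bn := by rw [hbn]; positivity
  have h3 : 0 < ws := by rw [hws]; positivity
  have h4 : 0 < b := by rw [hb]; positivity
  rw [hib]; positivity

theorem mq_blk {e K p q q2 x W' w cc xx rc sp bn ws b ib l2 u : ℝ} (hsp : 0 < sp)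
    (hp : p = sp * sp) (hq : 0 ≤ q) (hw : 0 < w)
    (hcc : 0 < cc) (hcc1 : cc ≤ 1) (hxx : xx = (-cc) + 1)
    (hrc : rc = (1 / 2) * xx * (-(xx + 1)) + 1) (hbn : bn = sp * rc) (hws : ws = bn * w)
    (hb : b = bn * ((1 / 2) * ws + ((1482911 / 16777216) * (ws * ws) + (1482911 / 1048576)))⁻¹)
    (hl0 : 0 ≤ l2) (hl : l2 ≤ lam K (x + 1)) (hib : ib = (b + (1 / 2) * (q * w * cc * l2))⁻¹)
    (hin : w ^ 2 * cc ≤ W' * (1 - 500 / e ^ 2))
    (hu : Real.exp (-(q2 * (lam K x * W'))) ≤ u) :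
    Mq e K p q q2 x W' ≤ u * (w + ib) / w := by
  have h1 := rc_pos hcc hcc1 hxx hrc
  have h2 : 0 < bn := by rw [hbn]; positivity
  have h3 : bn ^ 2 ≤ p * cc := by
    have h4 := (rc_sq hcc.le hcc1 hxx hrc).2
    have h5 := mul_le_mul_of_nonneg_left h4 (by positivity : 0 ≤ sp * sp)
    rw [hbn, hp]
    calc (sp * rc) ^ 2 = sp * sp * rc ^ 2 := by ring
      _ ≤ _ := h5
  have h6 := (mq_num (by rw [hp]; positivity : 0 < p) hq hw hcc hin h2 h3 hws hb hl0 hl hib hu).2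
  refine h6.trans (le_of_eq ?_)
  field_simp

/-- signs in the program of the first node, chart B -/
structure FBm {c : CFB} {om ta v : ℝ} (P : PFB c om ta v) (K : ℝ) : Prop where
  l1 : P.l1 = lam K P.x1
  l2 : P.l2 = lam K (P.x1 + 1)
  l3 : P.l3 = lam K (P.x1 + 2)
  l10 : 0 ≤ P.l1
  l20 : 0 ≤ P.l2
  l30 : 0 ≤ P.l3
  q0 : 0 < P.q
  sp0 : 0 < P.sp
  u0 : 0 < P.u
  u1 : P.u ≤ 1
  iba : 0 < P.iba
  ibc : 0 < P.ibc
  Maw : 0 < P.Maw
  Mbw : 0 < P.Mbw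
  iX : 0 < P.iX
  uX0 : 0 < P.uX
  uX1 : P.uX < 1
  LX : 0 < P.LX
  LU : 0 < P.LU
  im : 0 < P.im
  dz : 0 ≤ P.dz
  DG : 0 ≤ P.DG
  DF : 0 ≤ P.DF
  vDG : 0 ≤ P.vDG
  EQ : 0 ≤ P.EQ
  ER : 0 ≤ P.ER
  Qw0 : 0 ≤ P.Qw
  Qw1 : P.Qw < 1
  c20 : 0 < P.c2
  c21 : P.c2 ≤ 1
  d0 : 0 ≤ P.d
  d1 : P.d ≤ P.x1
  l4 : P.l4 = lam K (P.x1 + 1 - P.d)
  l5 : P.l5 = lam K (P.x1 + 1 - P.d + 1)
  l40 : 0 ≤ P.l4
  l50 : 0 ≤ P.l5
  u10 : 0 < P.u1
  ibn : 0 < P.ibn
  Mnw : 0 < P.Mnw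
  E0 : 0 ≤ P.E
  EM : 0 ≤ P.EM

set_option maxHeartbeats 4000000 in
theorem fb_sg {c : CFB} (hc : CFBok c) {om ta v K B s R : ℝ} {e : ℝ} (P : PFB c om ta v)
    (M : PMB om ta) (H : FBb P e K B s R) (N : FBn P) : FBm P K := by
  have he0 : 0 < e := by linarith [H.e200]
  have hR0 := H.R0
  have hK0 := H.K0
  have hK1 : K ≤ 1 := by linarith [H.K1]
  have hv0 := H.v0
  have hK2 : P.K2 = K * K := H.K2
  have hKq : P.Kq = K * P.q6 := by rw [P.e_Kq, H.PK]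
  have hx := N.x10
  have q0 : 0 < P.q := by
    rw [(pm_eq P M).1]
    have := M.p_q7
    norm_num at this ⊢
    linarith
  have sp0 : 0 < P.sp := by rw [(pm_eq P M).2.1]; exact M.p_sp
  have l1 : P.l1 = lam K P.x1 := lam_blk hK2 P.e_q6 hKq P.e_z1 P.e_iz1 P.e_th1 P.e_l1
  have l2 : P.l2 = lam K (P.x1 + 1) := lam_blk hK2 P.e_q6 hKq P.e_z2 P.e_iz2 P.e_th2 P.e_l2
  have l3 : P.l3 = lam K (P.x1 + 2) := lam_blk hK2 P.e_q6 hKq P.e_z3 P.e_iz3 P.e_th3 P.e_l3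
  have l10 : 0 ≤ P.l1 := by rw [l1]; exact lam_nonneg hK0.le hK1 hx
  have l20 : 0 ≤ P.l2 := by rw [l2]; exact lam_nonneg hK0.le hK1 (by linarith)
  have l30 : 0 ≤ P.l3 := by rw [l3]; exact lam_nonneg hK0.le hK1 (by linarith)
  have hm2 : 0 < P.m2 := by rw [P.e_m2]; have := N.m0; positivity
  have hV0 := N.V0
  have hq2 := P.p_q20
  have u0 : 0 < P.u := by rw [P.e_u]; exact Real.exp_pos _
  have u1 : P.u ≤ 1 := by
    rw [P.e_u, P.e_lv]
    refine Real.exp_le_one_iff.2 ?_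
    have : 0 ≤ P.q2 * (P.l1 * P.V * P.m2) := by positivity
    linarith
  have iba : 0 < P.iba :=
    ib_pos sp0 q0.le N.wn N.c50 N.c51 P.e_xxa P.e_rca P.e_bna P.e_wsa P.e_ba l20 P.e_iba
  have hcc50 : 0 < P.cc5 := by rw [P.e_cc5]; have := N.c50; positivity
  have hcc51 : P.cc5 ≤ 1 := by
    rw [P.e_cc5]
    have := N.c50; have := N.c51
    nlinarith
  have ibc : 0 < P.ibc :=
    ib_pos sp0 q0.le N.wn hcc50 hcc51 P.e_xxc P.e_rcc P.e_bnc P.e_wsc P.e_bc l30 P.e_ibc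
  have hwn := N.wn
  have Maw : 0 < P.Maw := by rw [P.e_Maw]; positivity
  have ub0 : 0 < P.ub := by rw [P.e_ub]; exact Real.exp_pos _
  have Mbw : 0 < P.Mbw := by rw [P.e_Mbw]; positivity
  have hX0 := N.X0
  have hX1 := P.p_X1
  have iX : 0 < P.iX := by rw [P.e_iX]; positivity
  have uX0 : 0 < P.uX := by rw [P.e_uX]; positivity
  have uX1 : P.uX < 1 := by rw [P.e_uX]; nlinarith
  have LX : 0 < P.LX := by rw [P.e_LX]; positivity
  have LU : 0 < P.LU := by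
    rw [P.e_LU]
    have : 0 < 1 - P.uX := by linarith
    positivity
  have hm0 := N.m0
  have im : 0 < P.im := by rw [P.e_im]; positivity
  have hdzS := N.dzS
  have hw0 := N.w0
  have dz : 0 ≤ P.dz := by rw [P.e_dz]; positivity
  have DG : 0 ≤ P.DG := by rw [P.e_DG]; positivity
  have DF : 0 ≤ P.DF := by rw [P.e_DF]; positivity
  have hiR2 : 0 ≤ P.iR2 := by rw [P.e_iR2]; exact mul_self_nonneg _
  have vDG : 0 ≤ P.vDG := by rw [P.e_vDG]; positivity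
  have hie := N.ie0
  have he2a : 0 < P.e2a := by linarith [N.e2a1]
  have EQ : 0 ≤ P.EQ := by rw [P.e_EQ]; positivity
  have hwse := N.wse
  have ER : 0 ≤ P.ER := by rw [P.e_ER]; positivity
  have Qw0 : 0 ≤ P.Qw := by rw [P.e_Qw]; positivity
  have Qw1 : P.Qw < 1 := by have := P.p_Es; linarith
  have c20 : 0 < P.c2 := by
    have h1 := P.p_h9
    have h2 := hc.RH
    by_contra hcon
    push Not at hcon
    have : P.m2 * P.c2 ≤ 0 := mul_nonpos_of_nonneg_of_nonpos hm2.le hcon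
    norm_num at h1
    linarith
  have c21 : P.c2 ≤ 1 := by rw [P.e_c2]; have := N.c51; linarith
  have hq6 : 0 < P.q6 := by
    rw [H.q6]
    have := H.K1
    nlinarith
  have hexK : 0 < P.exK := by rw [P.e_exK]; exact Real.exp_pos _
  have h1Q : 0 < 1 - P.Qw := P.p_Es
  have d0 : 0 ≤ P.d := by rw [P.e_d]; positivity
  have d1 : P.d ≤ P.x1 := by
    have h1 := P.p_x0
    rw [hc.x0] at h1
    norm_num at h1
    linarith
  have hx2 : P.x2 = P.x1 + 1 - P.d := by rw [P.e_x2]; ring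
  have hx20 : 0 ≤ P.x2 := by rw [hx2]; linarith
  have l4 : P.l4 = lam K (P.x1 + 1 - P.d) := by
    rw [← hx2]; exact lam_blk hK2 P.e_q6 hKq P.e_z4 P.e_iz4 P.e_th4 P.e_l4
  have l5 : P.l5 = lam K (P.x1 + 1 - P.d + 1) := by
    rw [← hx2]; exact lam_blk hK2 P.e_q6 hKq P.e_z5 P.e_iz5 P.e_th5 P.e_l5
  have l40 : 0 ≤ P.l4 := by rw [l4, ← hx2]; exact lam_nonneg hK0.le hK1 hx20
  have l50 : 0 ≤ P.l5 := by rw [l5, ← hx2]; exact lam_nonneg hK0.le hK1 (by linarith)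
  have u10 : 0 < P.u1 := by rw [P.e_u1]; exact Real.exp_pos _
  have hcd50 : 0 < P.cd5 := by rw [P.e_cd5]; have := N.c50; positivity
  have hcd51 : P.cd5 ≤ 1 := by
    rw [P.e_cd5]
    have := N.c50; have := N.c51
    nlinarith
  have ibn : 0 < P.ibn :=
    ib_pos sp0 q0.le N.wn hcd50 hcd51 P.e_xxn P.e_rcn P.e_bnn P.e_wsn P.e_bn l50 P.e_ibn
  have Mnw : 0 < P.Mnw := by rw [P.e_Mnw]; positivity
  have E0 : 0 ≤ P.E := by rw [P.e_E]; positivity
  have EM : 0 ≤ P.EM := by rw [P.e_EM]; positivity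
  exact ⟨l1, l2, l3, l10, l20, l30, q0, sp0, u0, u1, iba, ibc, Maw, Mbw, iX, uX0, uX1, LX, LU, im,
    dz, DG, DF, vDG, EQ, ER, Qw0, Qw1, c20, c21, d0, d1, l4, l5, l40, l50, u10, ibn, Mnw, E0, EM⟩

end Pool.Agent.helper31.EQB
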