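import Pool.Agent.helper31.EQB.NLA
import Pool.Agent.helper31.EQB.MqN

/-!
# EQB-26: link of chart A, final statements

`linkA_q`: `Mo = wMo/w`, `M1 = m1/w`-form, bounds of `Mq` by `mq_num`; `linkA_r`: rows (`RowM`: `row1` .. `row8`, `PX.mono_x`).
Then `link_all`, `link_rad` (the slit plane).
-/

namespace Pool.Agent.helper31.EQB

open Complex ComplexConjugate Set Filter Topology
open Pool.Agent.helper31.EQ.Y Pool.Agent.helper31.EQ.R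
open Pool.Agent.helper12.EQL Pool.Agent.helper12.RP Pool.Agent.helper12.FF Pool.Agent.helper12.RS
open Pool.Agent.helper63.FF

variable {e κ : ℝ}

/-- the difference of `log f` over one shift -/
theorem link_ls {Y w p q q2 x Λ yn a lf S rl rh zb Dm2 DP Vs Mo ls u n1 X lsp lfp E RH : ℝ} {τ : ℂ}
    (C : MC e κ Y w p q) (hY : Y ≤ 7 / 2) (hyn : yn ≤ Y)
    (T : St e κ x Λ yn τ) (hS : S = Sz e κ (shf κ τ))
    (N : LN e (Real.sinh κ) p q q2 w x Λ a lf S rl rh zb Dm2 DP Vs Mo ls u n1 X lsp lfp E RH)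
    (hMo : ∀ z ∈ segment ℝ (shf κ τ) (shf κ (shf κ τ)), MB e κ Mo z) :
    ‖log (fT e κ (shf κ τ)) - log (fT e κ (shf κ (shf κ τ)))‖ ≤ ls := by
  have he := C.e200
  have he0 : 0 < e := by linarith
  have hκ := C.κ0
  have hK0 := N.K0
  obtain ⟨hs, hom, hrl, hrh, hy, h3, hS0⟩ := link_base C hY hyn T hS N
  have hr0 : 0 ≤ rz e κ (shf κ τ) := N.rl0.le.trans hrl
  have h6 : rz e κ (shf κ τ) ^ 2 ≤ rh ^ 2 := pow_le_pow_left₀ hr0 hrh 2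
  have hVs : bet e κ * ‖shf κ (shf κ τ) - shf κ τ‖ ≤ Vs := by
    refine (shf_sub_le he0 hκ hs).trans (le_trans ?_ N.hVs)
    rw [← hS]
    apply div_le_div_of_nonneg_right _ he0.le
    linarith
  have hs2 : 0 < (shf κ (shf κ τ)).re := shf_re hκ hs.le
  rw [norm_sub_rev]
  refine (lf_sub he0 hκ hs hs2 hMo).trans (le_trans ?_ N.hls)
  calc e * Real.sinh κ * Mo * ‖shf κ (shf κ τ) - shf κ τ‖ =
        Mo * (bet e κ * ‖shf κ (shf κ τ) - shf κ τ‖) := by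
        unfold bet; ring
    _ ≤ Mo * Vs := mul_le_mul_of_nonneg_left hVs N.Mo0
    _ = Vs * Mo := mul_comm _ _

private theorem nA_e {e : ℝ} (he : 500 ≤ e) : (499 / 500 : ℝ) ≤ 1 - 500 / e ^ 2 := by
  have : 500 / e ^ 2 ≤ 1 / 500 := by
    rw [div_le_div_iff₀ (by positivity) (by norm_num)]
    nlinarith
  linarith

private theorem nA_K {e κ : ℝ} (he : 500 ≤ e) (hκ : 0 < κ) (hb : bet e κ ≤ 5) :
    0 ≤ Real.sinh κ ∧ Real.sinh κ ≤ 1 / 100 := by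
  have hK0 : 0 < Real.sinh κ := Real.sinh_pos_iff.2 hκ
  refine ⟨hK0.le, ?_⟩
  unfold bet at hb
  nlinarith

/-- a lower bound of `lam` with the factor `1 + th²/4` -/
private theorem lam_ge_A2 {K x : ℝ} (hK0 : 0 ≤ K) (hK : K ≤ 1 / 100) (hx : 0 ≤ x) (hx1 : x ≤ 10) :
    (1 - (1 / 100) ^ 2 / 6) * x * (1 - (2 * (1 / 100) * x) ^ 2 / 12 -
      ((2 * (1 / 100) * x) ^ 2) ^ 2 / 4) ≤ lam K x := by
  have h1 : K ^ 2 ≤ (1 / 100) ^ 2 := pow_le_pow_left₀ hK0 hK 2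
  have h6 : 1 - (1 / 100) ^ 2 / 6 ≤ 1 - K ^ 2 / 6 := by linarith
  have h60 : 0 ≤ 1 - K ^ 2 / 6 := by nlinarith
  have h61 : 1 - K ^ 2 / 6 ≤ 1 := by nlinarith
  unfold lam thf
  obtain ⟨z, hz⟩ : ∃ z, z = 2 * (K * (1 - K ^ 2 / 6)) * x := ⟨_, rfl⟩
  rw [← hz]
  have hz0 : 0 ≤ z := by rw [hz]; positivity
  have hz1 : z ≤ 2 * (1 / 100) * x := by
    rw [hz]
    have : K * (1 - K ^ 2 / 6) ≤ 1 / 100 := by nlinarith
    gcongr
  have hz2 : z ≤ 1 / 5 := by linarith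
  obtain ⟨t, ht⟩ : ∃ t, t = z ^ 2 := ⟨_, rfl⟩
  have ht0 : 0 ≤ t := by rw [ht]; positivity
  have ht1 : t ≤ (2 * (1 / 100) * x) ^ 2 := by rw [ht]; exact pow_le_pow_left₀ hz0 hz1 2
  have hD : 0 < 1 + t / 3 := by positivity
  have e1 : (1 - t / 12 - t ^ 2 / 4) ≤ 1 / (1 + t / 3) * (1 + (z / (1 + t / 3)) ^ 2 / 4) := by
    rw [div_pow, ← ht]
    have : 1 / (1 + t / 3) * (1 + t / (1 + t / 3) ^ 2 / 4) =
        ((1 + t / 3) ^ 2 + t / 4) / (1 + t / 3) ^ 3 := by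
      field_simp
    rw [this, le_div_iff₀ (by positivity)]
    nlinarith [mul_nonneg ht0 ht0, mul_nonneg (mul_nonneg ht0 ht0) ht0,
      mul_nonneg (mul_nonneg ht0 ht0) (mul_nonneg ht0 ht0),
      mul_nonneg (mul_nonneg (mul_nonneg ht0 ht0) (mul_nonneg ht0 ht0)) ht0]
  have e2 : 1 - (2 * (1 / 100) * x) ^ 2 / 12 - ((2 * (1 / 100) * x) ^ 2) ^ 2 / 4 ≤
      1 - t / 12 - t ^ 2 / 4 := by
    have : t ^ 2 ≤ ((2 * (1 / 100) * x) ^ 2) ^ 2 := pow_le_pow_left₀ ht0 ht1 2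
    linarith
  have e3 : 0 ≤ 1 / (1 + t / 3) * (1 + (z / (1 + t / 3)) ^ 2 / 4) := by positivity
  have e4 : (1 - (1 / 100) ^ 2 / 6) * x ≤ (1 - K ^ 2 / 6) * x := mul_le_mul_of_nonneg_right h6 hx
  calc _ ≤ (1 - (1 / 100) ^ 2 / 6) * x * (1 / (1 + t / 3) * (1 + (z / (1 + t / 3)) ^ 2 / 4)) :=
        mul_le_mul_of_nonneg_left (e2.trans e1) (by positivity)
    _ ≤ (1 - K ^ 2 / 6) * x * (1 / (1 + t / 3) * (1 + (z / (1 + t / 3)) ^ 2 / 4)) :=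
        mul_le_mul_of_nonneg_right e4 e3
    _ = _ := by rw [← ht]; ring

private theorem nA_L1 {e K : ℝ} (he : 500 ≤ e) (hK0 : 0 ≤ K) (hK : K ≤ 1 / 100) {n : ℕ}
    (hn : n < 5) : (cA n).L1 ≤ lam K (xA n + 1) * (1 - 500 / e ^ 2) := by
  have hx : (0:ℝ) ≤ xA n + 1 := by interval_cases n <;> norm_num [xA]
  have h := lam_ge_A hK0 hK hx
  have key : (cA n).L1 ≤ ((1 - (1 / 100) ^ 2 / 6) * (xA n + 1) /
      (1 + (2 * (1 / 100) * (xA n + 1)) ^ 2 / 3)) * (499 / 500) := by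
    interval_cases n <;> norm_num [cA, xA]
  exact key.trans (mul_le_mul h (nA_e he) (by norm_num) (lam_nonneg hK0 (by linarith) hx))

private theorem nA_hL2 {K : ℝ} (hK0 : 0 ≤ K) (hK : K ≤ 1 / 100) {n : ℕ}
    (hn : n < 5) : 0 ≤ (cA n).hL2 ∧ 2 * (cA n).hL2 / (4087 / 4096) ^ 2 ≤ lam K (xA n + 1 + 1) := by
  have hx : (0:ℝ) ≤ xA n + 1 + 1 := by interval_cases n <;> norm_num [xA]
  have h := lam_ge_A2 hK0 hK hx (by interval_cases n <;> norm_num [xA, cA])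
  refine ⟨by interval_cases n <;> norm_num [cA], le_trans ?_ h⟩
  interval_cases n <;> norm_num [cA, xA]

private theorem nA_Ld {K : ℝ} (hK0 : 0 ≤ K) (hK : K ≤ 1 / 100) {n : ℕ}
    (hn : n < 5) : (cA n).Ld ≤ lam K (xA n + 2 - (cA n).d) := by
  have hx : (0:ℝ) ≤ xA n + 2 - (cA n).d := by interval_cases n <;> norm_num [xA, cA]
  have h := lam_ge_A2 hK0 hK hx (by interval_cases n <;> norm_num [xA, cA])
  refine le_trans ?_ h
  interval_cases n <;> norm_num [cA, xA]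

private theorem nA_hLe {K : ℝ} (hK0 : 0 ≤ K) (hK : K ≤ 1 / 100) {n : ℕ}
    (hn : n < 5) : 0 ≤ (cA n).hLe ∧ 2 * (cA n).hLe ≤ lam K (xA n + 2 - (cA n).d + 1) := by
  have hx : (0:ℝ) ≤ xA n + 2 - (cA n).d + 1 := by interval_cases n <;> norm_num [xA, cA]
  have h := lam_ge_A2 hK0 hK hx (by interval_cases n <;> norm_num [xA, cA])
  refine ⟨by interval_cases n <;> norm_num [cA], le_trans ?_ h⟩
  interval_cases n <;> norm_num [cA, xA]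

private theorem nA_x {n : ℕ} (hn : n < 5) : xA n + 1 - (cA n).d = xA (n + 1) := by
  interval_cases n <;> norm_num [cA, xA]

private theorem nA_y {n : ℕ} (hn : n < 5) : ynA n ≤ 7 / 2 ∧ ynA (n + 1) ≤ 7 / 2 := by
  interval_cases n <;> norm_num [ynA]

private theorem nA_a {n : ℕ} (hn : n < 5) : 0 ≤ aA (n + 1) := by
  interval_cases n <;> norm_num [aA]

private theorem Sz_pos2 (he : 0 < e) (hκ : 0 < κ) (s : ℂ) : 0 < Sz e κ s := by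
  have h := (bs_sq e κ s).2.2
  have hb : 0 < bet e κ := mul_pos he (Real.sinh_pos_iff.2 hκ)
  have : Sz e κ s = bet e κ ^ 2 + yz e κ s ^ 2 := rfl
  rw [this]
  positivity

private theorem nA_wS {S β y : ℝ} (he : 0 < e) (hS0 : 0 < S) (hSy : S = β ^ 2 + y ^ 2)
    {c : CLA} {wMo EM EMs : ℝ} (P : PLA c (√e)⁻¹ √S (β / √S) wMo EM EMs) :
    0 < P.w ∧ 0 < P.W ∧ P.W = S / e ∧ P.W = P.w ^ 2 ∧ P.be = β ∧ P.y2 = y ^ 2 := by
  have hs : 0 < √S := Real.sqrt_pos.2 hS0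
  have hse : 0 < √e := Real.sqrt_pos.2 he
  have hw : 0 < P.w := by rw [P.e_w]; positivity
  have hbe : P.be = β := by rw [P.e_be, div_mul_cancel₀ _ hs.ne']
  have h1 : √S * √S = S := Real.mul_self_sqrt hS0.le
  have h2 : √e * √e = e := Real.mul_self_sqrt he.le
  refine ⟨hw, by rw [P.e_W]; positivity, ?_, by rw [P.e_W]; ring, hbe, ?_⟩
  · rw [P.e_W, P.e_w]
    calc (√e)⁻¹ * √S * ((√e)⁻¹ * √S) = (√S * √S) * (√e * √e)⁻¹ := by
          rw [mul_inv]; ring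
      _ = S / e := by rw [h1, h2]; rfl
  · have h3 : P.k2 * (√S * √S) = β ^ 2 := by
      rw [P.e_k2]
      calc β / √S * (β / √S) * (√S * √S) = (β / √S * √S) * (β / √S * √S) := by ring
        _ = β ^ 2 := by rw [div_mul_cancel₀ _ hs.ne']; ring
    rw [P.e_y2]
    have h4 : √S * √S * ((-P.k2) + 1) = √S * √S - P.k2 * (√S * √S) := by ring
    rw [h4, h3, h1, hSy]
    ring

/-- scaled quantities of the program -/
private theorem nA_w (he : 0 < e) (hκ : 0 < κ) {τ : ℂ} {c : CLA} {wMo EM EMs : ℝ}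
    (P : PLA c (√e)⁻¹ √(Sz e κ (shf κ τ)) (bet e κ / √(Sz e κ (shf κ τ))) wMo EM EMs) :
    0 < P.w ∧ 0 < P.W ∧ P.W = Sz e κ (shf κ τ) / e ∧ P.W = P.w ^ 2 ∧
      P.be = bet e κ ∧ P.y2 = yz e κ (shf κ τ) ^ 2 :=
  nA_wS he (Sz_pos2 he hκ _) rfl P

theorem linkA_fin (he : 500 ≤ e) (hκ : 0 < κ) (hb : bet e κ ≤ 5) (M : PMA (√e)⁻¹)
    {n : ℕ} (hn : n < 5) {τ : ℂ} (T : St e κ (xA n) (LamA n) (ynA n) τ) {wMo EM EMs : ℝ}
    (P : PLA (cA n) (√e)⁻¹ √(Sz e κ (shf κ τ)) (bet e κ / √(Sz e κ (shf κ τ))) wMo EM EMs)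
    {Mo M1 : ℝ} (hMo0 : 0 ≤ Mo) (hMo : wMo = P.w * Mo)
    (N : LN e (Real.sinh κ) M.p M.q P.q2 1 (xA n) (LamA n) (aA n) (e * P.ielf) (Sz e κ (shf κ τ))
      ((cA n).L1 * P.W) ((cA n).RW * P.W) P.zb (Sz e κ (shf κ τ) * P.D2)
      (√(Sz e κ (shf κ τ)) * P.DP) (P.W * P.V1) Mo P.ls P.u P.n1 P.X P.lsp (e * P.ielfp) P.E
      ((cA n).RH * P.W))
    (N2 : LN2 e (Real.sinh κ) M.p M.q P.q2 (xA n) (LamA n) (aA n) (Sz e κ (shf κ τ))
      ((cA n).L1 * P.W) ((cA n).RW * P.W) (P.W * P.V1) P.E (cA n).d (LamA (n + 1)) (aA (n + 1))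
      (P.W * P.c2) M1 P.u1 P.eta)
    (hMo' : Mq e (Real.sinh κ) M.p M.q P.q2 (xA n + 1)
        (Sz e κ (shf κ τ) / e * (1 - 500 / e ^ 2)) ≤ Mo ∨
      ∃ ys, |yz e κ (shf κ τ)| ≤ ys ∧ PX e κ (xA n + 1) ys Mo)
    (hM1' : Mq e (Real.sinh κ) M.p M.q P.q2 (xA n + 2 - (cA n).d) (P.W * P.c2) ≤ M1 ∨
      ∃ ys, |yz e κ (shf κ τ)| + P.E ≤ ys ∧ PX e κ (xA n + 2 - (cA n).d) ys M1) :
    LinkOK e κ (aA n) (xA (n + 1)) (LamA (n + 1)) (ynA (n + 1)) (aA (n + 1)) τ := by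
  have C := mc_A he hκ hb M
  have he0 : 0 < e := by linarith
  obtain ⟨hy1, hy2⟩ := nA_y hn
  have hMoS : ∀ z ∈ segment ℝ (shf κ τ) (shf κ (shf κ τ)), MB e κ Mo z := by
    rcases hMo' with h | ⟨ys, hys, h⟩
    · exact mo_q C le_rfl hy1 T rfl N h
    · exact mo_x C le_rfl hy1 T rfl N hys h
  have hls := link_ls C le_rfl hy1 T rfl N hMoS
  obtain ⟨hlf, hn1, hyE⟩ := la_facts he hκ hb M hn T P hMo0 hMo hls
  have all : ∀ χ : ℂ, ‖χ‖ ≤ ‖Rx e κ (aA n) τ‖ → _ := fun χ hχ =>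
    link_all C le_rfl hy1 (hyE.trans hy2) T rfl N N2 hyE hlf hn1 hχ hMo' hM1'
  refine ⟨(all 0 (by rw [norm_zero]; exact norm_nonneg _)).1, fun χ hχ => ⟨?_, ?_, ?_⟩⟩
  · exact (link_rad C le_rfl hy1 T rfl N hMoS hlf hn1 hχ).1
  · have h := (all χ hχ).2.1
    rwa [nA_x hn] at h
  · intro χ' hχ'
    refine (all χ hχ).2.2 χ' (hχ'.trans (le_of_eq ?_))
    have hb0 : 0 < bet e κ := mul_pos he0 (Real.sinh_pos_iff.2 hκ)
    have ha := nA_a hn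
    unfold Rx
    rw [norm_mul, Complex.norm_real, Real.norm_of_nonneg (by positivity)]
    ring

private theorem M_pos (M : PMA (√e)⁻¹) : 0 < M.p ∧ 0 < M.q := by
  have h1 := M.p_p6
  have h2 := M.p_q7
  exact ⟨by linarith, by linarith⟩

/-- the same constants in both programs -/
private theorem M_eq {s k : ℝ} (M : PMA (√e)⁻¹) {c : CLA} {wMo EM EMs : ℝ}
    (P : PLA c (√e)⁻¹ s k wMo EM EMs) : M.q = P.q ∧ M.sp = P.sp ∧ M.p = P.sp * P.sp ∧ 0 < P.sp := by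
  have h1 : M.ie = P.ie := by rw [M.e_ie, P.e_ie]
  have h2 : M.q = P.q := by rw [M.e_q, P.e_q, h1]
  have h3 : M.sp = P.sp := by rw [M.e_sp, P.e_sp, h1]
  exact ⟨h2, h3, by rw [M.e_p, h3], by rw [← h3]; exact M.p_sp⟩

private theorem moA_q (he : 500 ≤ e) (hκ : 0 < κ) (hb : bet e κ ≤ 5) (M : PMA (√e)⁻¹)
    {n : ℕ} (hn : n < 5) {τ : ℂ} {wMo EM EMs : ℝ}
    (P : PLA (cA n) (√e)⁻¹ √(Sz e κ (shf κ τ)) (bet e κ / √(Sz e κ (shf κ τ))) wMo EM EMs)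
    (Pq : PLAq P) : ∃ Mo, 0 ≤ Mo ∧ wMo = P.w * Mo ∧
      Mq e (Real.sinh κ) M.p M.q P.q2 (xA n + 1)
        (Sz e κ (shf κ τ) / e * (1 - 500 / e ^ 2)) ≤ Mo := by
  have he0 : 0 < e := by linarith
  obtain ⟨hK0, hK1⟩ := nA_K he hκ hb
  obtain ⟨hw, hW0, hWS, hWw, -, -⟩ := nA_w he0 hκ P
  obtain ⟨hp0, hq0⟩ := M_pos M
  obtain ⟨hMq, hMsp, hMp, hsp⟩ := M_eq M P
  obtain ⟨hl0, hl1⟩ := nA_hL2 hK0 hK1 hn
  have h499 := nA_e he
  have hq2 := P.p_q20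
  have hbn0 : 0 < Pq.bno := by rw [Pq.e_bno]; positivity
  have h := mq_num (e := e) (K := Real.sinh κ) (p := M.p) (q := M.q) (q2 := P.q2)
    (x := xA n + 1) (W' := Sz e κ (shf κ τ) / e * (1 - 500 / e ^ 2)) (w := P.w)
    (cc := (4087 / 4096) ^ 2) (bn := Pq.bno) (ws := Pq.wso) (b := Pq.bo) (ib := Pq.ibo)
    (l2 := 2 * (cA n).hL2 / (4087 / 4096) ^ 2) (u := P.u) hp0 hq0.le hw (by norm_num)
    (by
      rw [← hWS, ← hWw, mul_assoc]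
      refine mul_le_mul_of_nonneg_left ?_ hW0.le
      rw [← pow_two]
      exact pow_le_pow_left₀ (by norm_num) (by linarith) 2)
    hbn0
    (by
      rw [Pq.e_bno, hMp]
      have : 0 ≤ P.sp * P.sp := by positivity
      nlinarith)
    Pq.e_wso Pq.e_bo (by positivity) hl1
    (by rw [Pq.e_ibo, hMq]; congr 2; ring)
    (by
      rw [P.e_u]
      apply Real.exp_le_exp.2
      apply neg_le_neg
      refine mul_le_mul_of_nonneg_left ?_ hq2.le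
      rw [← hWS]
      calc (cA n).L1 * P.W ≤ lam (Real.sinh κ) (xA n + 1) * (1 - 500 / e ^ 2) * P.W :=
            mul_le_mul_of_nonneg_right (nA_L1 he hK0 hK1 hn) hW0.le
        _ = _ := by ring)
  have hu : 0 < P.u := by rw [P.e_u]; exact Real.exp_pos _
  obtain ⟨h1, h2⟩ := h
  refine ⟨_, ?_, ?_, h2⟩
  · positivity
  · refine Pq.e_wMo.trans ?_
    field_simp

private theorem m1A_q (he : 500 ≤ e) (hκ : 0 < κ) (hb : bet e κ ≤ 5) (M : PMA (√e)⁻¹)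
    {n : ℕ} (hn : n < 5) {τ : ℂ} {wMo EM EMs : ℝ}
    (P : PLA (cA n) (√e)⁻¹ √(Sz e κ (shf κ τ)) (bet e κ / √(Sz e κ (shf κ τ))) wMo EM EMs)
    (Pq : PLAq P) (hE0 : 0 ≤ P.E) : ∃ M1, 0 ≤ M1 ∧ EM = P.E * (1 + M1) ∧ EMs = P.Qw * (1 + M1) ∧
      Mq e (Real.sinh κ) M.p M.q P.q2 (xA n + 2 - (cA n).d) (P.W * P.c2) ≤ M1 := by
  have he0 : 0 < e := by linarith
  have hse : 0 < √e := Real.sqrt_pos.2 he0
  obtain ⟨hK0, hK1⟩ := nA_K he hκ hb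
  obtain ⟨hw, hW0, hWS, hWw, -, -⟩ := nA_w he0 hκ P
  obtain ⟨hp0, hq0⟩ := M_pos M
  obtain ⟨hMq, hMsp, hMp, hsp⟩ := M_eq M P
  obtain ⟨hl0, hl1⟩ := nA_hLe hK0 hK1 hn
  have h499 := nA_e he
  have hq2 := P.p_q20
  have hc2 := P.p_c20
  have hQ0 : 0 ≤ P.Q := by
    by_contra hh
    push Not at hh
    have := P.e_E
    nlinarith
  have hwse : 0 ≤ P.wse := by rw [P.e_wse]; positivity
  have hQw0 : 0 ≤ P.Qw := by rw [P.e_Qw]; positivity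
  have hc21 : P.c2 ≤ 4087 / 4096 := by rw [P.e_c2]; linarith
  have hcc0 : 0 < Pq.cc5 := by rw [Pq.e_cc5]; positivity
  have hcc1 : Pq.cc5 ≤ 1 := by rw [Pq.e_cc5]; nlinarith
  obtain ⟨hr0, hr1⟩ := rc_sq hcc0.le hcc1 Pq.e_xxn Pq.e_rcn
  have hrp : 0 < Pq.rcn := by
    have g1 : Pq.rcn = Pq.cc5 * (1 + Pq.xxn / 2) := by
      rw [Pq.e_rcn, Pq.e_xxn]; ring
    have g2 : 0 ≤ Pq.xxn := by rw [Pq.e_xxn]; linarith
    rw [g1]; positivity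
  have hbn0 : 0 < Pq.bnn := by rw [Pq.e_bnn]; positivity
  have h := mq_num (e := e) (K := Real.sinh κ) (p := M.p) (q := M.q) (q2 := P.q2)
    (x := xA n + 2 - (cA n).d) (W' := P.W * P.c2) (w := P.w)
    (cc := Pq.cc5) (bn := Pq.bnn) (ws := Pq.wsn) (b := Pq.bn) (ib := Pq.ibn)
    (l2 := 2 * (cA n).hLe) (u := P.u1) hp0 hq0.le hw hcc0
    (by
      rw [← hWw, Pq.e_cc5, mul_assoc]
      refine mul_le_mul_of_nonneg_left ?_ hW0.le
      rw [mul_comm]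
      exact mul_le_mul_of_nonneg_left (by linarith) hc2.le)
    hbn0
    (by
      rw [Pq.e_bnn, hMp, mul_pow, ← pow_two]
      exact mul_le_mul_of_nonneg_left hr1 (by positivity))
    Pq.e_wsn Pq.e_bn (by positivity) hl1
    (by rw [Pq.e_ibn, hMq]; congr 2; ring)
    (by
      rw [P.e_u1]
      apply Real.exp_le_exp.2
      apply neg_le_neg
      refine mul_le_mul_of_nonneg_left ?_ hq2.le
      exact mul_le_mul_of_nonneg_right (nA_Ld hK0 hK1 hn) (by positivity))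
  have hu : 0 < P.u1 := by rw [P.e_u1]; exact Real.exp_pos _
  obtain ⟨h1, h2⟩ := h
  have key : P.w * Pq.m1 = P.W * (P.u1 * (1 + Pq.ibn / P.w)) := by
    rw [Pq.e_m1, hWw]
    field_simp
  have key2 : (√e)⁻¹ * Pq.m1 = P.wse * (P.u1 * (1 + Pq.ibn / P.w)) := by
    rw [Pq.e_m1, P.e_wse]
    field_simp
  refine ⟨_, ?_, ?_, ?_, h2⟩
  · positivity
  · refine Pq.e_EM.trans ?_
    rw [P.e_E, key]
    ring
  · refine Pq.e_EMs.trans ?_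
    rw [P.e_Qw, key2]
    ring

private theorem rowA (he : 500 ≤ e) (hκ : 0 < κ) {j : ℕ} (hj : j < 8)
    (hbj : bet e κ ≤ (rA 1 j).bm) : ∃ ys : ℝ, 41 / 4096 ≤ ys ∧
      (rA 1 j).ym ≤ (ys - 41 / 4096) ^ 2 ∧ PX e κ (47 / 25) ys (rA 1 j).M1 ∧
      PX e κ (28 / 25) ys (rA 0 j).Mo := by
  interval_cases j
  · simp only [rA] at hbj ⊢
    have h := row1 he hκ (e := e) (κ := κ) (by linarith)
    exact ⟨1, by norm_num, by norm_num, h.2, h.1⟩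
  · simp only [rA] at hbj ⊢
    have h := row2 he hκ (e := e) (κ := κ) (by linarith)
    exact ⟨3 / 2, by norm_num, by norm_num, h.2, h.1⟩
  · simp only [rA] at hbj ⊢
    have h := row3 he hκ (e := e) (κ := κ) (by linarith)
    exact ⟨2, by norm_num, by norm_num, h.2, h.1⟩
  · simp only [rA] at hbj ⊢
    have h := row4 he hκ (e := e) (κ := κ) (by linarith)
    exact ⟨9 / 4, by norm_num, by norm_num, h.2, h.1⟩
  · simp only [rA] at hbj ⊢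
    have h := row5 he hκ (e := e) (κ := κ) (by linarith)
    exact ⟨9 / 4, by norm_num, by norm_num, h.2, h.1⟩
  · simp only [rA] at hbj ⊢
    have h := row6 he hκ (e := e) (κ := κ) (by linarith)
    exact ⟨12 / 5, by norm_num, by norm_num, h.2, h.1⟩
  · simp only [rA] at hbj ⊢
    have h := row7 he hκ (e := e) (κ := κ) (by linarith)
    exact ⟨5 / 2, by norm_num, by norm_num, h.2, h.1⟩
  · simp only [rA] at hbj ⊢
    have h := row8 he hκ (e := e) (κ := κ) (by linarith)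
    exact ⟨13 / 5, by norm_num, by norm_num, h.2, h.1⟩

private theorem rowA_eq {n j : ℕ} (hn : n < 5) (hj : j < 8) :
    (rA n j).bm = (rA 1 j).bm ∧ (rA n j).ym = (rA 1 j).ym ∧ (rA n j).M1 = (rA 1 j).M1 ∧
      (n = 0 ∨ (rA n j).Mo = (rA 1 j).M1) := by
  interval_cases n <;> interval_cases j <;>
    first
    | exact ⟨rfl, rfl, rfl, Or.inl rfl⟩
    | exact ⟨rfl, rfl, rfl, Or.inr rfl⟩

private theorem nA_x2 {n : ℕ} (hn : n < 5) :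
    28 / 25 ≤ xA n + 1 ∧ (n = 0 ∨ 47 / 25 ≤ xA n + 1) ∧ 47 / 25 ≤ xA n + 2 - (cA n).d ∧
      (cA n).Yd = 41 / 4096 := by
  interval_cases n <;> norm_num [xA, cA]

private theorem rowA_all (he : 500 ≤ e) (hκ : 0 < κ) {n j : ℕ} (hn : n < 5) (hj : j < 8)
    (hbj : bet e κ ≤ (rA n j).bm) : ∃ ys : ℝ, 41 / 4096 ≤ ys ∧
      (rA n j).ym ≤ (ys - 41 / 4096) ^ 2 ∧ PX e κ (xA n + 1) ys (rA n j).Mo ∧
      PX e κ (xA n + 2 - (cA n).d) ys (rA n j).M1 := by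
  obtain ⟨h1, h2, h3, h4⟩ := rowA_eq hn hj
  obtain ⟨x1, x2, x3, -⟩ := nA_x2 hn
  rw [h1] at hbj
  obtain ⟨ys, g1, g2, g3, g4⟩ := rowA he hκ hj hbj
  refine ⟨ys, g1, by rw [h2]; exact g2, ?_, by rw [h3]; exact g3.mono_x hκ x3⟩
  rcases Nat.eq_zero_or_pos n with h | h
  · subst h
    exact g4.mono_x hκ x1
  · have h5 : (rA n j).Mo = (rA 1 j).M1 := h4.resolve_left (by omega)
    rw [h5]
    exact g3.mono_x hκ (x2.resolve_left (by omega))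

theorem linkA_q (he : 500 ≤ e) (hκ : 0 < κ) (hb : bet e κ ≤ 5) (M : PMA (√e)⁻¹)
    {n : ℕ} (hn : n < 5) {τ : ℂ} (T : St e κ (xA n) (LamA n) (ynA n) τ) {wMo EM EMs : ℝ}
    (P : PLA (cA n) (√e)⁻¹ √(Sz e κ (shf κ τ)) (bet e κ / √(Sz e κ (shf κ τ))) wMo EM EMs) (Pq : PLAq P) :
    LinkOK e κ (aA n) (xA (n + 1)) (LamA (n + 1)) (ynA (n + 1)) (aA (n + 1)) τ := by
  obtain ⟨Mo, hMo0, hMo, hMq⟩ := moA_q he hκ hb M hn P Pq
  have N := la_ln he hκ hb M hn T P hMo0 hMo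
  have hE0 := link_E0 (mc_A he hκ hb M) le_rfl (nA_y hn).1 T rfl N
  obtain ⟨M1, hM10, hEM, hEMs, hM1q⟩ := m1A_q he hκ hb M hn P Pq hE0
  have N2 := la_ln2 he hκ hb M hn T P hMo0 hM10 hMo hEM hEMs
  exact linkA_fin he hκ hb M hn T P hMo0 hMo N N2 (Or.inl hMq) (Or.inl hM1q)

theorem linkA_r (he : 500 ≤ e) (hκ : 0 < κ) (hb : bet e κ ≤ 5) (M : PMA (√e)⁻¹)
    {n : ℕ} (hn : n < 5) {τ : ℂ} (T : St e κ (xA n) (LamA n) (ynA n) τ) {wMo EM EMs : ℝ}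
    (P : PLA (cA n) (√e)⁻¹ √(Sz e κ (shf κ τ)) (bet e κ / √(Sz e κ (shf κ τ))) wMo EM EMs) {j : ℕ} (hj : j < 8) (Pr : PLAr (rA n j) P) :
    LinkOK e κ (aA n) (xA (n + 1)) (LamA (n + 1)) (ynA (n + 1)) (aA (n + 1)) τ := by
  have he0 : 0 < e := by linarith
  obtain ⟨hw, hW0, hWS, hWw, hbe, hy2⟩ := nA_w he0 hκ P
  have hry := Pr.p_row_y
  have hrb := Pr.p_row_b
  rw [hbe] at hrb
  rw [hy2] at hry
  obtain ⟨ys, h1, h2, h3, h4⟩ := rowA_all he hκ hn hj (by linarith)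
  obtain ⟨hMo0, hM10⟩ : 0 ≤ (rA n j).Mo ∧ 0 ≤ (rA n j).M1 := by
    interval_cases n <;> interval_cases j <;> norm_num [rA]
  have hMo : wMo = P.w * (rA n j).Mo := Pr.e_wMo.trans (mul_comm _ _)
  have hEM : EM = P.E * (1 + (rA n j).M1) := Pr.e_EM.trans (by ring)
  have hEMs : EMs = P.Qw * (1 + (rA n j).M1) := Pr.e_EMs.trans (by ring)
  obtain ⟨N, N2⟩ := la_core he hκ hb M hn T P hMo0 hM10 hMo hEM hEMs
  have hy : |yz e κ (shf κ τ)| ≤ ys - 41 / 4096 :=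
    abs_le_of_sq_le_sq (by linarith) (by linarith)
  have hE : P.E ≤ 41 / 4096 := by
    have g1 := P.p_y
    rw [(nA_x2 hn).2.2.2] at g1
    linarith
  exact linkA_fin he hκ hb M hn T P hMo0 hMo N N2 (Or.inr ⟨ys, by linarith, h3⟩)
    (Or.inr ⟨ys, by linarith, h4⟩)

end Pool.Agent.helper31.EQB
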