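import Pool.Agent.helper31.EQB.Cst
import Pool.Agent.helper31.EQB.MCN
import Pool.Agent.helper31.EQB.LamN
import Pool.Agent.helper31.EQB.MqN

/-!
# EQB-27: link of chart B: program ⇒ `LN`, `LN2` and the bounds of `Mq`

`w = √(S/e) = P.w`, `k = β/√S`, `it = 1/√S`, `Mo = P.wMo/P.w`, `M1 = P.m1/P.w`; `c.La = Λ + 1`, `c.x1 = x + 1`, `c.x2 = x + 2`,
`c.xd = x + 2 - d`, `c.xe = x + 3 - d`; `l1 = lam K (x+1)` and so on (`lam_blk`).
`Dm2 = S D2`: `hDl` is an equality; `hDh`: `(rh - rl)(rh + rl - 2β) ≤ 0` (assertion `p_rr`).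
-/

namespace Pool.Agent.helper31.EQB

open Complex ComplexConjugate Set Filter Topology
open Pool.Agent.helper31.EQ.Y Pool.Agent.helper31.EQ.R
open Pool.Agent.helper12.EQL Pool.Agent.helper12.RP Pool.Agent.helper12.FF Pool.Agent.helper12.RS
open Pool.Agent.helper63.FF

variable {e κ : ℝ}

/-- relations between the constants of chart B -/
private theorem lb_cst {n : ℕ} (hn : n < 5) :
    (cB n).x1 = xB n + 1 ∧ (cB n).x2 = xB n + 1 + 1 ∧ (cB n).La = LamB n + 1 ∧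
    (cB n).xd = xB n + 2 - (cB n).d ∧ (cB n).xe = xB n + 2 - (cB n).d + 1 ∧
    (cB n).rho2 = 2 * (cB n).RH ∧ (cB n).rho1 = (cB n).RH / 2 ∧
    (cB n).a = aB0 n ∧ (cB n).a1 = aB1 n ∧ (cB n).b = aB0 (n + 1) ∧ (cB n).b1 = aB1 (n + 1) ∧
    (cB n).La1 = LamB (n + 1) ∧ (cB n).RH ^ 2 ≤ (cB n).RHq ∧ 0 ≤ (cB n).d ∧ (cB n).d ≤ 1 := by
  interval_cases n <;> norm_num [cB, xB, LamB, aB0, aB1]

private theorem lb_cst2 {n : ℕ} (hn : n < 5) :
    0 < xB n ∧ xB n ≤ LamB n ∧ LamB n ≤ 8 ∧ 0 < (cB n).RH ∧ 0 < aB0 n ∧ 0 ≤ aB1 n ∧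
    0 ≤ aB0 (n + 1) ∧ 0 ≤ aB1 (n + 1) := by
  interval_cases n <;> norm_num [cB, xB, LamB, aB0, aB1]

private theorem lb_half_log {x : ℝ} (hx : 0 < x) : Real.exp ((1 / 2) * Real.log x) = √x := by
  rw [Real.sqrt_eq_rpow, Real.rpow_def_of_pos hx, mul_comm]

/-- `exp t ≤ (1 + t/2)/(1 - t/2)` -/
private theorem lb_pade {t : ℝ} (h0 : 0 ≤ t) (h1 : 0 < 1 - (1 / 2) * t) :
    Real.exp t ≤ ((1 / 2) * t + 1) * (1 - (1 / 2) * t)⁻¹ := by
  have hd : ∀ u : ℝ, HasDerivAt (fun v : ℝ => 1 + (1 / 2) * v - (1 - (1 / 2) * v) * Real.exp v)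
      ((1 / 2) - (-(1 / 2) * Real.exp u + (1 - (1 / 2) * u) * Real.exp u)) u := by
    intro u
    have h1 : HasDerivAt (fun v : ℝ => 1 + (1 / 2) * v) (1 / 2) u := by
      have := ((hasDerivAt_id u).const_mul (1 / 2 : ℝ)).const_add 1
      simpa using this
    have h2 : HasDerivAt (fun v : ℝ => 1 - (1 / 2) * v) (-(1 / 2)) u := by
      have := ((hasDerivAt_id u).const_mul (1 / 2 : ℝ)).const_sub 1
      simpa using this
    exact h1.sub (h2.mul (Real.hasDerivAt_exp u))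
  have hm : MonotoneOn (fun v : ℝ => 1 + (1 / 2) * v - (1 - (1 / 2) * v) * Real.exp v)
      (Ici 0) := by
    refine monotoneOn_of_deriv_nonneg (convex_Ici 0)
      (fun u _ => (hd u).continuousAt.continuousWithinAt)
      (fun u _ => (hd u).differentiableAt.differentiableWithinAt) (fun u _ => ?_)
    rw [(hd u).deriv]
    have h2 : (1 - u) * Real.exp u ≤ 1 := by
      have h3 := Real.add_one_le_exp (-u)
      have h4 : Real.exp (-u) * Real.exp u = 1 := by rw [← Real.exp_add]; simp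
      calc (1 - u) * Real.exp u ≤ Real.exp (-u) * Real.exp u :=
            mul_le_mul_of_nonneg_right (by linarith) (Real.exp_pos u).le
        _ = 1 := h4
    nlinarith
  have h2 := hm (mem_Ici.2 le_rfl) (mem_Ici.2 h0) h0
  simp only [mul_zero, add_zero, sub_zero, one_mul, Real.exp_zero, sub_self] at h2
  rw [← div_eq_mul_inv, le_div_iff₀ h1]
  linarith

/-- `1 + x ≤ DP²` -/
private theorem lb_dp {x DP : ℝ} (hx : 0 ≤ x)
    (h : DP = 1 + x * ((1 / 2) - x * ((1 / 8) - (1 / 16) * x))) : 0 ≤ DP ∧ 1 + x ≤ DP ^ 2 := by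
  constructor
  · rw [h]
    have : 0 ≤ (1 / 2) - x * ((1 / 8) - (1 / 16) * x) := by nlinarith [sq_nonneg (x - 1)]
    have := mul_nonneg hx this
    linarith
  · have h2 : DP ^ 2 = 1 + x + x ^ 4 / 256 * ((x - 2) ^ 2 + 16) := by rw [h]; ring
    rw [h2]
    have : 0 ≤ x ^ 4 / 256 * ((x - 2) ^ 2 + 16) := by positivity
    linarith

private theorem lb_lam_le {K x : ℝ} (hK0 : 0 ≤ K) (hK : K ≤ 1) (hx : 0 ≤ x) : lam K x ≤ x := by
  have h0 : 0 ≤ 1 - K ^ 2 / 6 := by nlinarith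
  have h1 : 1 - K ^ 2 / 6 ≤ 1 := by nlinarith [sq_nonneg K]
  unfold lam thf
  set z : ℝ := 2 * (K * (1 - K ^ 2 / 6)) * x with hz
  have hz0 : 0 ≤ z := by positivity
  have hD : 0 < 1 + z ^ 2 / 3 := by positivity
  have h2 : (z / (1 + z ^ 2 / 3)) ^ 2 ≤ z ^ 2 := by
    apply pow_le_pow_left₀ (by positivity)
    rw [div_le_iff₀ hD]
    nlinarith [mul_nonneg hz0 (sq_nonneg z)]
  have h3 : 1 + (z / (1 + z ^ 2 / 3)) ^ 2 / 4 ≤ 1 + z ^ 2 / 3 := by nlinarith [sq_nonneg z]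
  calc (1 - K ^ 2 / 6) * x / (1 + z ^ 2 / 3) * (1 + (z / (1 + z ^ 2 / 3)) ^ 2 / 4)
      ≤ (1 - K ^ 2 / 6) * x / (1 + z ^ 2 / 3) * (1 + z ^ 2 / 3) :=
        mul_le_mul_of_nonneg_left h3 (by positivity)
    _ = (1 - K ^ 2 / 6) * x := by field_simp
    _ ≤ 1 * x := mul_le_mul_of_nonneg_right h1 hx
    _ = x := one_mul x

private theorem lb_lam_pos {K x : ℝ} (hK0 : 0 ≤ K) (hK : K ≤ 1) (hx : 0 < x) : 0 < lam K x := by
  have h0 : 0 < 1 - K ^ 2 / 6 := by nlinarith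
  unfold lam
  positivity

/-- `rc > 0` -/
private theorem lb_rc {cc xx rc : ℝ} (h0 : 0 < cc) (h1 : cc ≤ 1) (hx : xx = (-cc) + 1)
    (hr : rc = (1 / 2) * xx * (-(xx + 1)) + 1) : 0 < rc := by
  have : rc = cc * (1 + (1 - cc) / 2) := by rw [hr, hx]; ring
  rw [this]
  apply mul_pos h0
  linarith

private theorem lb_mono {A z b e l m kk c1 c2 c3 : ℝ} (hA : 0 ≤ A) (hb : 0 ≤ b) (he : 0 < e)
    (hl : 0 ≤ l) (hm : 0 ≤ m) (h1 : 41 / 20 ≤ c1) (h2 : 17 / 10 ≤ c2) (h3 : 11 / 5 ≤ c3) :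
    A * (z + 41 / 20 * b) / (2 * e ^ 2) + kk + b ^ 2 / e ^ 2 * (17 / 10 * l + 11 / 5 * m) ≤
      A * (z + c1 * b) / (2 * e ^ 2) + kk + b ^ 2 / e ^ 2 * (c2 * l + c3 * m) := by
  gcongr

set_option maxHeartbeats 4000000 in
private theorem lb_aux {e K b y S n1 ielf : ℝ} (he : 200 ≤ e) (hK0 : 0 < K) (hK1 : K ≤ 1 / 10)
    (hb0 : 0 < b) (hbK : e * K = b) (M : PMB (b / √e) b⁻¹) {n : ℕ} (hn : n < 5)
    (hS : S = b ^ 2 + y ^ 2) (P : PLB (cB n) (b / √e) b⁻¹ y n1 ielf) (hn1 : 0 ≤ n1)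
    (hlf : 0 ≤ ielf) :
    0 < P.w ∧ P.w ^ 2 = S / e ∧
    LN e K M.p M.q P.q2 M.wm (xB n) (LamB n) (aB0 n + aB1 n * b⁻¹) (e * ielf) S
      P.rl P.rh P.zb (S * P.D2) (√S * P.DP) (P.W * P.V1)
      (P.wMo / P.w) P.ls P.u n1 P.X P.lsp (e * P.ielfp) P.E ((cB n).RH * P.W) ∧
    LN2 e K M.p M.q P.q2 (xB n) (LamB n) (aB0 n + aB1 n * b⁻¹) S P.rl P.rh
      (P.W * P.V1) P.E (cB n).d (LamB (n + 1)) (aB0 (n + 1) + aB1 (n + 1) * b⁻¹) (P.W * P.c2)
      (P.m1 / P.w) P.u1 P.eta ∧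
    Mq e K M.p M.q P.q2 (xB n + 1) (S / e * (1 - 500 / e ^ 2)) ≤ P.wMo / P.w ∧
    Mq e K M.p M.q P.q2 (xB n + 2 - (cB n).d) (P.W * P.c2) ≤ P.m1 / P.w := by
  obtain ⟨c1, c2, c3, c4, c5, c6, c7, c8, c9, c10, c11, c12, c13, c14, c15⟩ := lb_cst hn
  obtain ⟨d1, d2, d3, d4, d5, d6, d7, d8⟩ := lb_cst2 hn
  have he0 : 0 < e := by linarith
  obtain ⟨r, hr⟩ : ∃ r, r = √e := ⟨_, rfl⟩
  have hr0 : 0 < r := by rw [hr]; exact Real.sqrt_pos.2 he0
  have hrr : e = r * r := by rw [hr]; exact (Real.mul_self_sqrt he0.le).symm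
  have hS0 : 0 < S := by rw [hS]; positivity
  obtain ⟨R, hR⟩ : ∃ R, R = √S := ⟨_, rfl⟩
  have hR0 : 0 < R := by rw [hR]; exact Real.sqrt_pos.2 hS0
  have hRR : S = R * R := by rw [hR]; exact (Real.mul_self_sqrt hS0.le).symm
  have hK1' : K ≤ 1 := by linarith only [hK1]
  -- the basic quantities
  have hse : P.se = 1 / r := by
    rw [P.e_se, ← hr]; field_simp
  have hie : P.ie = 1 / e := by
    rw [P.e_ie, hse, hrr]; field_simp
  have hie0 : 0 < P.ie := by rw [hie]; positivity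
  have hK : P.K = K := by
    rw [P.e_K, hse, ← hr, ← hbK, hrr]; field_simp
  have hK2 : P.K2 = K ^ 2 := by rw [P.e_K2, hK]; ring
  have hq6 : P.q6 = 1 - K ^ 2 / 6 := by rw [P.e_q6, hK2]; ring
  have hsg2 : P.sg2 = S / b ^ 2 := by
    rw [P.e_sg2, P.e_y2, hS]; field_simp; ring
  have hexp : Real.exp P.lsg = R / b := by
    rw [P.e_lsg, hsg2, lb_half_log (by positivity), Real.sqrt_div hS0.le, Real.sqrt_sq hb0.le, hR]
  have hw : P.w = R / r := by
    rw [P.e_w, hexp, ← hr]; field_simp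
  have hw0 : 0 < P.w := by rw [hw]; positivity
  have hk : P.k = b / R := by
    rw [P.e_k, Real.exp_neg, hexp, inv_div]
  have hW : P.W = S / e := by
    rw [P.e_W, hw, hRR, hrr, div_mul_div_comm]
  have hW0 : 0 < P.W := by rw [hW]; positivity
  have hit : P.it = 1 / R := by
    rw [P.e_it, hk]; field_simp
  have hk2 : P.k2 = b ^ 2 / S := by
    rw [P.e_k2, hk, hRR]; field_simp
  have hwse : P.wse = R / e := by
    rw [P.e_wse, hw, hse, hrr]; field_simp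
  have hwse0 : 0 < P.wse := by rw [hwse]; positivity
  have hWie : P.Wie = S / e ^ 2 := by
    rw [P.e_Wie, hW, hie]; field_simp
  have hWie0 : 0 < P.Wie := by rw [hWie]; positivity
  have hk0 : 0 < P.k := by rw [hk]; positivity
  have hit0 : 0 < P.it := by rw [hit]; positivity
  have hww : P.w ^ 2 = S / e := by rw [← hW, P.e_W]; ring
  -- the constants of `M`
  have m1 : M.se = P.se := by rw [M.e_se, P.e_se]
  have m2 : M.ie = P.ie := by rw [M.e_ie, P.e_ie, m1]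
  have m3 : M.K = P.K := by rw [M.e_K, P.e_K, m1]
  have m4 : M.K2 = P.K2 := by rw [M.e_K2, P.e_K2, m3]
  have m5 : M.Yt = P.Yt := by rw [M.e_Yt, P.e_Yt]
  have m6 : M.Y2 = P.Y2 := by rw [M.e_Y2, P.e_Y2, m5]
  have m7 : M.wm = P.wm := by rw [M.e_wm, P.e_wm, m5, m6]
  have m9 : M.wse0 = P.wse0 := by rw [M.e_wse0, P.e_wse0, m7, m1]
  have m10 : M.q = P.q := by rw [M.e_q, P.e_q, m9, m2, m4]
  have m11 : M.sp = P.sp := by rw [M.e_sp, P.e_sp, m9, m2, m4]
  have hsp : 0 < P.sp := by rw [← m11]; exact M.p_sp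
  have hp : M.p = P.sp ^ 2 := by rw [M.e_p, m11]; ring
  have hp0 : 0 < M.p := by rw [hp]; positivity
  have hq0 : 0 ≤ M.q := by linarith only [M.p_q7]
  -- `lam`
  have hl1 : P.l1 = lam K (xB n + 1) := by
    have := lam_blk P.e_K2 P.e_q6 P.e_Kq P.e_z1 P.e_iz1 P.e_th1 P.e_l1
    rwa [hK, c1] at this
  have hl2 : P.l2 = lam K (xB n + 1 + 1) := by
    have := lam_blk P.e_K2 P.e_q6 P.e_Kq P.e_z2 P.e_iz2 P.e_th2 P.e_l2
    rwa [hK, c2] at this
  have hld : P.ld = lam K (xB n + 2 - (cB n).d) := by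
    have := lam_blk P.e_K2 P.e_q6 P.e_Kq P.e_zd P.e_izd P.e_thd P.e_ld
    rwa [hK, c4] at this
  have hle : P.le = lam K (xB n + 2 - (cB n).d + 1) := by
    have := lam_blk P.e_K2 P.e_q6 P.e_Kq P.e_ze P.e_ize P.e_the P.e_le
    rwa [hK, c5] at this
  have hl10 : 0 < P.l1 := by rw [hl1]; exact lb_lam_pos hK0.le hK1' (by linarith only [d1])
  have hl1x : P.l1 ≤ xB n + 1 := by rw [hl1]; exact lb_lam_le hK0.le hK1' (by linarith only [d1])
  -- `c5`, `RW`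
  have hie2 : P.ie2 = 1 / e ^ 2 := by rw [P.e_ie2, hie]; field_simp
  have hc5 : P.c5 = 1 - 500 / e ^ 2 := by rw [P.e_c5, hie2]; ring
  have hc50 : 0 < P.c5 := by
    rw [hc5]
    have : 500 / e ^ 2 < 1 := by
      rw [div_lt_one (by positivity)]; nlinarith only [he]
    linarith only [this]
  have hc51 : P.c5 ≤ 1 := by
    rw [hc5]
    have : 0 ≤ 500 / e ^ 2 := by positivity
    linarith only [this]
  have hRW : P.RW = (LamB n + 1) * (1 + 560 / e ^ 2) := by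
    rw [P.e_RW, c3, hie2]; ring
  have hRW1 : LamB n + 1 ≤ P.RW := by
    rw [hRW]
    have h1 : 0 ≤ (LamB n + 1) * (560 / e ^ 2) :=
      mul_nonneg (by linarith only [d1, d2]) (by positivity)
    linarith only [h1]
  have hRW0 : 0 < P.RW := by linarith only [hRW1, d1, d2]
  have hR2 : P.R2 = P.RW ^ 2 * (S / e ^ 2) := by rw [P.e_R2, hWie]; ring
  have hR20 : 0 ≤ P.R2 := by rw [hR2]; positivity
  have hV10 : 0 < P.V1 := by rw [P.e_V1]; linarith only [hR20]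
  have hq20 := P.p_q20
  have hrl0 : 0 < P.rl := by rw [P.e_rl]; positivity
  -- first `Mq`
  have hcc50 : 0 < P.cc5 := by rw [P.e_cc5]; positivity
  have hcc51 : P.cc5 ≤ 1 := by
    rw [P.e_cc5]
    calc P.c5 * P.c5 ≤ 1 * 1 := mul_le_mul hc51 hc51 hc50.le (by norm_num)
      _ = 1 := by norm_num
  have hrco := lb_rc hcc50 hcc51 P.e_xxo P.e_rco
  have hrco2 := (rc_sq hcc50.le hcc51 P.e_xxo P.e_rco).2
  have hbno0 : 0 < P.bno := by rw [P.e_bno]; positivity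
  have hbno2 : P.bno ^ 2 ≤ M.p * P.cc5 := by
    rw [P.e_bno, hp, mul_pow]
    exact mul_le_mul_of_nonneg_left hrco2 (by positivity)
  have hmq1 := mq_num (e := e) (K := K) (p := M.p) (q := M.q) (q2 := P.q2) (x := xB n + 1)
    (W' := S / e * (1 - 500 / e ^ 2)) (w := P.w) (cc := P.cc5) (bn := P.bno) (ws := P.wso)
    (b := P.bo) (ib := P.ibo) (l2 := P.l2) (u := P.eo) hp0 hq0 hw0 hcc50
    (by rw [hww, P.e_cc5, hc5]; exact le_of_eq (by ring)) hbno0 hbno2 P.e_wso P.e_bo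
    (by rw [hl2]; exact lam_nonneg hK0.le hK1' (by linarith only [d1])) hl2.le
    (by rw [m10]; exact P.e_ibo)
    (by
      rw [P.e_eo, P.e_rl, hl1, hW, hc5]
      exact le_of_eq (by ring_nf))
  obtain ⟨hibo, hmq1⟩ := hmq1
  have hwMo0 : 0 < P.wMo := by
    rw [P.e_wMo, P.e_eo]
    exact mul_pos (Real.exp_pos _) (by linarith only [hw0, hibo])
  have hMo : P.eo * (1 + P.ibo / P.w) = P.wMo / P.w := by
    rw [P.e_wMo]; field_simp
  have hMo0 : 0 ≤ P.wMo / P.w := by positivity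
  -- nonnegativity
  have hls0 : 0 ≤ P.ls := by rw [P.e_ls]; positivity
  have hxP : 0 ≤ P.xP := by rw [P.e_xP]; positivity
  obtain ⟨hDP0, hDP1⟩ := lb_dp hxP P.e_DP
  have han : P.an = aB0 n + aB1 n * b⁻¹ := by rw [P.e_an, c8, c9]; ring
  have han0 : 0 < P.an := by rw [han]; positivity
  have hX0 : 0 ≤ P.X := by
    rw [P.e_X]
    positivity
  have hX1 := P.p_X1
  have hiX0 : 0 < P.iX := by rw [P.e_iX]; exact inv_pos.2 hX1
  have hu0 : 0 < P.u := by rw [P.e_u]; exact Real.exp_pos _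
  have hu1 : P.u ≤ 1 := by
    rw [P.e_u, Real.exp_le_one_iff]
    have := mul_nonneg hq20.le hrl0.le
    linarith only [this]
  have hlsp0 : 0 ≤ P.lsp := by
    rw [P.e_lsp]; positivity
  have huX0 : 0 ≤ P.uX := by rw [P.e_uX]; positivity
  have huX1 : 0 < 1 - P.uX := by
    rw [P.e_uX]
    have : P.u * P.X ≤ 1 * P.X := mul_le_mul_of_nonneg_right hu1 hX0
    linarith only [this, hX1]
  have hielfp0 : 0 ≤ P.ielfp := by
    rw [P.e_ielfp]
    have := inv_pos.2 huX1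
    positivity
  have hzb2 : P.zb ^ 2 = P.rh * P.rh + P.y2 + 1 / 64 := by
    have h1 : 0 < P.rh * P.rh + P.y2 + 1 / 64 := by
      have h2 : 0 ≤ P.y2 := by rw [P.e_y2]; exact mul_self_nonneg y
      have h3 := mul_self_nonneg P.rh
      linarith only [h2, h3]
    rw [P.e_zb, lb_half_log h1, Real.sq_sqrt h1.le]
  have hzb0 : 0 < P.zb := by rw [P.e_zb]; exact Real.exp_pos _
  have hD2 : S * P.D2 = S + P.rl ^ 2 - 2 * b * P.rl := by
    rw [P.e_D2, P.e_rl, hWie, hk, hwse, hW, hRR]; field_simp; ring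
  have hD20 : 0 ≤ P.D2 := by
    have h1 : 0 ≤ S * P.D2 := by
      have h2 : b ^ 2 + y ^ 2 + P.rl ^ 2 - 2 * b * P.rl = (b - P.rl) ^ 2 + y ^ 2 := by ring
      rw [hD2, hS, h2]; positivity
    exact nonneg_of_mul_nonneg_right h1 hS0
  have hfac : 1 + P.zb / (2 * e) + 3 / 200 ≤ P.fac := by
    rw [P.e_fac, hie]
    have : (1 / 2) * (P.zb * (1 / e)) = P.zb / (2 * e) := by field_simp
    rw [this]
    linarith only
  have hfac0 : 0 < P.fac := by
    have : 0 ≤ P.zb / (2 * e) := by positivity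
    linarith only [this, hfac]
  have hzbS0 : 0 < P.zbS := by rw [P.e_zbS]; positivity
  have hlspS0 : 0 ≤ P.lspS := by rw [P.e_lspS]; positivity
  have hQ0 : 0 ≤ P.Q := by
    rw [P.e_Q, hK, P.e_k2]
    positivity
  have hQw0 : 0 ≤ P.Qw := by rw [P.e_Qw]; positivity
  have hE0 : 0 ≤ P.E := by rw [P.e_E]; positivity
  have hEe : P.E = P.Q * S / e := by rw [P.e_E, hW]; ring
  have hQw : P.E / R = P.Qw := by
    rw [hEe, P.e_Qw, hwse, hRR]; field_simp
  have hER : P.E = P.Qw * R := by rw [← hQw]; field_simp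
  have hc2 : P.c2 = 1 - 2 * P.E / √S - 500 / e ^ 2 := by
    rw [P.e_c2, hc5, ← hR, mul_div_assoc, hQw]; ring
  have hc20 := P.p_c20
  -- the bound `E`
  have hBW : P.W * ((1 / 2) * P.wse * P.D2 * (P.zbS + (2149581 / 1048576) * P.k) +
      (P.zbS + (1 / 2) * (P.k * P.K)) * P.lspS +
      P.k2 * ((445645 / 262144) * (P.ie * P.lsp) + (576717 / 262144) * P.ielfp)) =
      S * P.D2 * (P.zb + (2149581 / 1048576) * b) / (2 * e ^ 2) +
      (P.zb + b * K / 2) * P.lsp / e + b ^ 2 / e ^ 2 * ((445645 / 262144) * P.lsp +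
        (576717 / 262144) * (e * P.ielfp)) := by
    rw [P.e_zbS, P.e_lspS, hW, hwse, hk, hK, hk2, hie, hit, hRR]
    field_simp
  have hEge : (1 + P.zb / (2 * e) + 3 / 200) * (S * P.D2 * (P.zb + 41 / 20 * b) / (2 * e ^ 2) +
      (P.zb + b * K / 2) * P.lsp / e + b ^ 2 / e ^ 2 * (17 / 10 * P.lsp +
        11 / 5 * (e * P.ielfp))) ≤ P.E := by
    have h1 : S * P.D2 * (P.zb + 41 / 20 * b) / (2 * e ^ 2) +
      (P.zb + b * K / 2) * P.lsp / e + b ^ 2 / e ^ 2 * (17 / 10 * P.lsp +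
        11 / 5 * (e * P.ielfp)) ≤
        S * P.D2 * (P.zb + (2149581 / 1048576) * b) / (2 * e ^ 2) +
      (P.zb + b * K / 2) * P.lsp / e + b ^ 2 / e ^ 2 * ((445645 / 262144) * P.lsp +
        (576717 / 262144) * (e * P.ielfp)) := by
      have h2 : 0 ≤ S * P.D2 := by positivity
      have h3 : 0 ≤ e * P.ielfp := by positivity
      exact lb_mono h2 hb0.le he0 hlsp0 h3 (by norm_num) (by norm_num) (by norm_num)
    have h4 : P.E = P.fac * (P.W * ((1 / 2) * P.wse * P.D2 * (P.zbS + (2149581 / 1048576) * P.k) +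
      (P.zbS + (1 / 2) * (P.k * P.K)) * P.lspS +
      P.k2 * ((445645 / 262144) * (P.ie * P.lsp) + (576717 / 262144) * P.ielfp))) := by
      rw [P.e_E, P.e_Q]; ring
    rw [h4, hBW]
    refine mul_le_mul hfac h1 ?_ hfac0.le
    positivity
  -- second `Mq`
  have hcd50 : 0 < P.cd5 := by rw [P.e_cd5]; positivity
  have hc21 : P.c2 ≤ 1 := by rw [P.e_c2]; linarith only [hc51, hQw0]
  have hcd51 : P.cd5 ≤ 1 := by
    rw [P.e_cd5]
    calc P.c2 * P.c5 ≤ 1 * 1 := mul_le_mul hc21 hc51 hc50.le (by norm_num)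
      _ = 1 := by norm_num
  have hrcn := lb_rc hcd50 hcd51 P.e_xxn P.e_rcn
  have hrcn2 := (rc_sq hcd50.le hcd51 P.e_xxn P.e_rcn).2
  have hbnn0 : 0 < P.bnn := by rw [P.e_bnn]; positivity
  have hbnn2 : P.bnn ^ 2 ≤ M.p * P.cd5 := by
    rw [P.e_bnn, hp, mul_pow]
    exact mul_le_mul_of_nonneg_left hrcn2 (by positivity)
  have hmq2 := mq_num (e := e) (K := K) (p := M.p) (q := M.q) (q2 := P.q2)
    (x := xB n + 2 - (cB n).d)
    (W' := P.W * P.c2) (w := P.w) (cc := P.cd5) (bn := P.bnn) (ws := P.wsn)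
    (b := P.bn) (ib := P.ibn) (l2 := P.le) (u := P.u1) hp0 hq0 hw0 hcd50
    (by rw [hww, hW, P.e_cd5, hc5]; exact le_of_eq (by ring)) hbnn0 hbnn2 P.e_wsn P.e_bn
    (by rw [hle]; exact lam_nonneg hK0.le hK1' (by linarith only [d1, c15])) hle.le
    (by rw [m10]; exact P.e_ibn)
    (by
      rw [P.e_u1, hld]
      exact le_of_eq (by ring_nf))
  obtain ⟨hibn, hmq2⟩ := hmq2
  have hu10 : 0 < P.u1 := by rw [P.e_u1]; exact Real.exp_pos _
  have hm10 : 0 < P.m1 := by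
    rw [P.e_m1]
    exact mul_pos hu10 (by linarith only [hw0, hibn])
  have hM1 : P.u1 * (1 + P.ibn / P.w) = P.m1 / P.w := by
    rw [P.e_m1]; field_simp
  have hEM : P.EM = P.E * (1 + P.m1 / P.w) := by
    rw [P.e_EM, P.e_E, P.e_W]; field_simp
  have hEM0 : 0 ≤ P.EM := by rw [hEM]; positivity
  have hEM2 := P.p_EM2
  have hi20 : 0 < P.i2 := by rw [P.e_i2]; exact inv_pos.2 hEM2
  have hi2 : (1 - (1 / 2) * P.EM) * P.i2 = 1 := by
    rw [P.e_i2]; exact mul_inv_cancel₀ hEM2.ne'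
  refine ⟨hw0, hww, ?_, ?_, hmq1.trans_eq hMo, hmq2.trans_eq hM1⟩
  · refine ⟨hK0, d1.le, ?_, hS0, by linarith only [d1, d2], d3, hq20.le, by positivity, hrl0, ?_, ?_, hzb0.le,
      ?_, ?_, ?_, ?_, ?_, ?_, hMo0, ?_, ?_, hu1, ?_, ?_, hn1, ?_, ?_, ?_, ?_, ?_, ?_, ?_, ?_, ?_,
      ?_, ?_, ?_⟩
    · rw [← han]; exact han0
    · rw [P.e_rl, hl1, hW]; exact le_of_eq (by ring)
    · rw [P.e_rh, hRW, hW]
    · rw [hzb2, hbK, P.e_y2, hS]
      have h1 : P.rh ^ 2 + (b ^ 2 + y ^ 2 - b ^ 2) = P.rh * P.rh + y * y := by ring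
      rw [h1]
      exact le_add_of_nonneg_right (by norm_num)
    · rw [hbK, hD2]
    · rw [hbK, hD2]
      have h1 : P.rl ≤ P.rh := by
        rw [P.e_rl, P.e_rh, mul_comm P.RW]
        exact mul_le_mul_of_nonneg_left (by linarith only [hl1x, d2, hRW1]) hW0.le
      have h2 : P.rh + P.rl ≤ 2 * b := by
        have h3 := P.p_rr
        have h4 : P.rh + P.rl = R * (P.wse * (P.RW + P.l1)) := by
          rw [P.e_rh, P.e_rl, hW, hwse, hRR]; field_simp
        have h5 : 2 * b = R * (2 * P.k) := by rw [hk]; field_simp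
        rw [h4, h5]
        exact mul_le_mul_of_nonneg_left (by linarith only [h3]) hR0.le
      have h6 := mul_nonneg (sub_nonneg.2 h1) (sub_nonneg.2 h2)
      have h7 : S + P.rl ^ 2 - 2 * b * P.rl - (S + P.rh ^ 2 - 2 * b * P.rh) =
          (P.rh - P.rl) * (2 * b - (P.rh + P.rl)) := by ring
      exact sub_nonneg.1 (h7 ▸ h6)
    · positivity
    · rw [hbK, mul_pow, Real.sq_sqrt hS0.le]
      refine le_trans (le_of_eq ?_) (mul_le_mul_of_nonneg_left hDP1 hS0.le)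
      rw [P.e_xP, P.e_rh, hR2, hk, hwse, hW, hRR]; field_simp; ring
    · rw [P.e_V1, P.e_rh, hR2, hW]
      exact le_of_eq (by field_simp; ring)
    · rw [P.e_ls, P.e_W]
      exact le_of_eq (by field_simp)
    · rw [P.e_u]
    · rw [hbK, ← han, P.e_X, hit, hk, ← hR]
      refine le_of_eq ?_
      have : 4 * (1 / R) + b / R = (4 + b) / R := by ring
      rw [this, inv_div]
      ring
    · linarith only [hX1]
    · rw [P.e_lsp, P.e_iX]
      exact le_of_eq (by ring)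
    · rw [P.e_ielfp, hie, P.e_uX]
      refine le_of_eq ?_
      rw [div_eq_mul_inv]
      field_simp
    · rw [hbK]; exact hEge
    · have h1 := P.p_l1
      rw [hie] at h1
      have h2 : P.lsp = e * (1 / e * P.lsp) := by field_simp
      rw [h2]
      have h3 := mul_le_mul_of_nonneg_left
        (show 1 / e * P.lsp ≤ 10485 / 1048576 by linarith only [h1]) he0.le
      linarith only [h3, he0]
    · have h1 := P.p_l2
      have h3 := mul_le_mul_of_nonneg_left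
        (show P.ielfp ≤ 20971 / 1048576 by linarith only [h1]) he0.le
      linarith only [h3, he0]
    · have h1 := P.p_z1
      rw [hie] at h1
      have h2 : P.zb = e * (P.zb * (1 / e)) := by field_simp
      rw [h2]
      have h3 := mul_le_mul_of_nonneg_left
        (show P.zb * (1 / e) ≤ 104857 / 1048576 by linarith only [h1]) he0.le
      linarith only [h3, he0]
    · have h1 := P.p_E1
      rw [hie] at h1
      have h2 : P.E = e * (P.E * (1 / e)) := by field_simp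
      rw [h2]
      have h3 := mul_le_mul_of_nonneg_left
        (show P.E * (1 / e) ≤ 2621 / 524288 by linarith only [h1]) he0.le
      linarith only [h3, he0]
    · rw [← hR, hER]
      have h1 := P.p_Es
      have h2 : P.Qw * R < 1 * R := mul_lt_mul_of_pos_right (by linarith only [h1]) hR0
      linarith only [h2]
    · have h1 := P.p_RH
      have h2 : (√S + P.E) ^ 2 / e = P.W * ((P.Qw + 1) * (P.Qw + 1)) := by
        rw [← hR, hER, hW, hRR]; ring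
      rw [h2, P.e_rh, P.e_E]
      have h6 := mul_pos hW0 h1
      have h7 : (cB n).RH * P.W - (P.RW * P.W + P.Q * P.W + P.W * ((P.Qw + 1) * (P.Qw + 1))) =
          P.W * ((cB n).RH - P.RW - P.Q - (P.Qw + 1) * (P.Qw + 1)) := by ring
      exact sub_nonneg.1 (h7 ▸ h6.le)
    · have h1 := P.p_h9
      rw [← hc2, ← hW]
      have h3 := mul_le_mul_of_nonneg_right
        (show (cB n).RH ≤ 46 / 5 * P.c2 by linarith only [h1, hc20]) hW0.le
      linarith only [h3]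
    · have h1 := P.p_h2
      rw [← hc2]
      have h4 : ((cB n).RH * P.W) ^ 2 = S * ((cB n).RH ^ 2 * P.Wie) := by
        rw [hW, hWie]; field_simp
      have h5 : (cB n).RH ^ 2 * P.Wie ≤ (cB n).RHq * P.Wie :=
        mul_le_mul_of_nonneg_right c13 hWie0.le
      rw [h4]
      have h3 := mul_le_mul_of_nonneg_left
        (show (cB n).RH ^ 2 * P.Wie ≤ 9 / 10 * P.c2 by linarith only [h1, h5, hc20]) hS0.le
      linarith only [h3]
    · rw [m10, m7, P.e_q2, P.e_wm2, c6, c7, hie]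
      refine le_of_eq ?_
      have : P.Wie = P.W * (1 / e) := by rw [P.e_Wie, hie]
      rw [this]
      ring
  · refine ⟨c14, c15, ?_, ?_, ?_, ?_, ?_, ?_, ?_, ?_, ?_, ?_⟩
    · positivity
    · rw [P.e_E, P.e_rl, mul_comm]
      exact mul_lt_mul_of_pos_left (by linarith only [P.p_Er]) hW0
    · have h1 := P.p_dr
      rw [hK, c1, hq6] at h1
      have h2 : e * P.E = S * P.Q := by rw [hEe]; field_simp
      have h3 : √S * (√S - P.E) = S * (1 - P.Qw) := by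
        rw [← hR, hER, hRR]; ring
      have h4 : 2 * K * (xB n + 1) = 2 * ((xB n + 1) * K) := by ring
      rw [h2, h3, h4]
      have h6 := mul_pos hS0 h1
      have h7 : (1 - K ^ 2 / 6) * (cB n).d * (S * (1 - P.Qw)) -
          S * P.Q * Real.exp (2 * ((xB n + 1) * K)) =
          S * ((cB n).d * (1 - K ^ 2 / 6) * (1 - P.Qw) - P.Q * Real.exp (2 * ((xB n + 1) * K))) := by
        ring
      exact sub_nonneg.1 (h7 ▸ h6.le)
    · have h1 := P.p_La
      have h2 : 1 - 2 * P.E / √S = 1 - 2 * P.Qw := by rw [← hR, mul_div_assoc, hQw]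
      rw [h2, ← hW, P.e_rh, P.e_E, ← c12]
      have h6 := mul_pos hW0 h1
      have h7 : (cB n).La1 * (P.W * (1 - 2 * P.Qw)) - (P.RW * P.W + P.Q * P.W) =
          P.W * ((cB n).La1 * (1 - 2 * P.Qw) - P.RW - P.Q) := by ring
      exact sub_nonneg.1 (h7 ▸ h6.le)
    · positivity
    · rw [← hc2, hW]
    · positivity
    · rw [P.e_u1, hld]
      exact le_of_eq (by ring_nf)
    · rw [← hEM, P.e_eta, P.e_i2]
      exact lb_pade hEM0 hEM2
    · have h1 := P.p_cl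
      rw [hK, han] at h1
      have h2 : (P.eta - 1) * (4 + e * K) / (4 * √S) = P.t1 := by
        rw [hbK, P.e_t1, P.e_eta, hit, hk, ← hR]
        have h3 : (1 / 2 * P.EM + 1) * P.i2 - 1 = P.EM * P.i2 := by linear_combination hi2
        rw [h3]
        field_simp
      have h4 : (P.W * P.V1 + P.E) / √S = P.wse * (P.V1 + P.Q) := by
        rw [P.e_E, hW, hwse, ← hR, hRR]; field_simp
      have h5 : P.an1 = aB0 (n + 1) + aB1 (n + 1) * b⁻¹ := by rw [P.e_an1, c10, c11]; ring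
      rw [h2, h4, ← h5]
      have h7 : (1 - K / 1024) * (aB0 n + aB1 n * b⁻¹) -
          (P.t1 + P.eta * (P.u1 * P.an1) * (1 + P.wse * (P.V1 + P.Q))) =
          (1 - (1 / 1024) * K) * (aB0 n + aB1 n * b⁻¹) - P.t1 -
            P.eta * (P.u1 * P.an1) * (P.wse * (P.V1 + P.Q) + 1) := by ring
      exact sub_pos.1 (h7 ▸ h1)

theorem lb_core (he : 200 ≤ e) (hκ : 0 < κ) (hb : 5 ≤ bet e κ)
    (hD : bet e κ ^ 2 ≤ e * (13864 / 10000 + 7 / 4 * (√e)⁻¹))
    (M : PMB (bet e κ / √e) (bet e κ)⁻¹) {n : ℕ} (hn : n < 5) {τ : ℂ}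
    (T : St e κ (xB n) (LamB n) (ynB κ n) τ) {n1 ielf : ℝ}
    (P : PLB (cB n) (bet e κ / √e) (bet e κ)⁻¹ |yz e κ (shf κ τ)| n1 ielf) (hn1 : 0 ≤ n1) (hlf : 0 ≤ ielf) :
    0 < P.w ∧ P.w ^ 2 = Sz e κ (shf κ τ) / e ∧
    LN e (Real.sinh κ) M.p M.q P.q2 M.wm (xB n) (LamB n) (aB e κ n) (e * ielf) (Sz e κ (shf κ τ))
      P.rl P.rh P.zb (Sz e κ (shf κ τ) * P.D2) (√(Sz e κ (shf κ τ)) * P.DP) (P.W * P.V1)
      (P.wMo / P.w) P.ls P.u n1 P.X P.lsp (e * P.ielfp) P.E ((cB n).RH * P.W) ∧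
    LN2 e (Real.sinh κ) M.p M.q P.q2 (xB n) (LamB n) (aB e κ n) (Sz e κ (shf κ τ)) P.rl P.rh
      (P.W * P.V1) P.E (cB n).d (LamB (n + 1)) (aB e κ (n + 1)) (P.W * P.c2) (P.m1 / P.w) P.u1
      P.eta ∧
    Mq e (Real.sinh κ) M.p M.q P.q2 (xB n + 1) (Sz e κ (shf κ τ) / e * (1 - 500 / e ^ 2)) ≤
      P.wMo / P.w ∧
    Mq e (Real.sinh κ) M.p M.q P.q2 (xB n + 2 - (cB n).d) (P.W * P.c2) ≤ P.m1 / P.w := by
  have C := mc_B he hκ hb hD M
  have hS : Sz e κ (shf κ τ) = bet e κ ^ 2 + |yz e κ (shf κ τ)| ^ 2 := by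
    rw [sq_abs]; rfl
  exact lb_aux he (Real.sinh_pos_iff.2 hκ) C.K1 (lt_of_lt_of_le (by norm_num) hb) rfl M hn hS P
    hn1 hlf

end Pool.Agent.helper31.EQB
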