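import Pool.Agent.helper31.EQB.NLB
import Pool.Agent.helper31.EQB.LinkY

/-!
# EQB-28: link of chart B, final statement

`lf` by `lf_e` or `lf_u`, `n1` by `n1_le10` + `cos_half_le` or by `1 + u` (`qq_q`); then `link_all_y`, `link_rad`.
-/

namespace Pool.Agent.helper31.EQB

open Complex ComplexConjugate Set Filter Topology
open Pool.Agent.helper31.EQ.Y Pool.Agent.helper31.EQ.R
open Pool.Agent.helper12.EQL Pool.Agent.helper12.RP Pool.Agent.helper12.FF Pool.Agent.helper12.RS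
open Pool.Agent.helper63.FF

variable {e κ : ℝ}

private theorem nu_cosh2 (κ : ℝ) : Real.cosh κ - 1 ≤ Real.sinh κ ^ 2 / 2 := by
  have h1 := Real.one_le_cosh κ
  have h2 := Real.cosh_sq κ
  nlinarith [sq_nonneg (Real.cosh κ - 1)]

private theorem nu_exp_sub_one2 (w : ℂ) : ‖exp w - 1‖ ≤ Real.exp ‖w‖ - 1 :=
  Pool.Agent.helper63.FF.norm_exp_sub_one le_rfl

/-- `|1 + qq s|`; `ls` bounds `|log f s - log f (shf s)|`, `z2` bounds `|z|²`. -/
theorem n1_le10 (he : 200 ≤ e) (hκ : 0 < κ) (hK : Real.sinh κ ≤ 1 / 10) {s : ℂ} (hs : 0 < s.re)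
    {ls z2 : ℝ} (hls : ‖log (fT e κ s) - log (fT e κ (shf κ s))‖ ≤ ls)
    (hz : rz e κ s ^ 2 + yz e κ s ^ 2 ≤ z2) (hz2 : z2 ≤ (e / 10) ^ 2) :
    ‖1 + qq e κ s‖ ≤ 2 * |Real.cos (yz e κ s / 2)| + rz e κ s +
      (Real.exp (ls + 3 / 5 * (bet e κ ^ 2 + z2) / e) - 1) := by

  have he0 : 0 < e := by linarith
  have hK0 : 0 < Real.sinh κ := Real.sinh_pos_iff.2 hκ
  have hb0 : 0 < bet e κ := mul_pos he0 hK0
  obtain ⟨z, hzd⟩ : ∃ z : ℂ, z = (bet e κ : ℂ) * s := ⟨_, rfl⟩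
  have hzr : z.re = rz e κ s := by rw [hzd, re_ofReal_mul]; rfl
  have hzi : z.im = yz e κ s := by rw [hzd, im_ofReal_mul]; rfl
  have hr0 : 0 ≤ rz e κ s := by unfold rz; positivity
  have hzn : ‖z‖ ^ 2 ≤ z2 := by
    rw [← Complex.normSq_eq_norm_sq, Complex.normSq_apply, hzr, hzi]
    linarith
  have hz20 : ‖z‖ / e ≤ 1 / 10 := by
    rw [div_le_iff₀ he0]
    have h1 : ‖z‖ ^ 2 ≤ (e / 10) ^ 2 := hzn.trans hz2
    have h2 := abs_le_of_sq_le_sq' h1 (by positivity)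
    linarith [h2.2]
  -- e log Q - z
  obtain ⟨p, hp⟩ : ∃ p, p = ‖z‖ / e := ⟨_, rfl⟩
  obtain ⟨C, hC⟩ : ∃ C, C = Real.cosh κ - 1 := ⟨_, rfl⟩
  have hp0 : 0 ≤ p := by rw [hp]; positivity
  have hC0 : 0 ≤ C := by rw [hC]; linarith [Real.one_le_cosh κ]
  have hC1 : C ≤ Real.sinh κ ^ 2 / 2 := by rw [hC]; exact nu_cosh2 κ
  rw [← hp] at hz20
  have hQ : Qk κ s = 1 + ((C : ℂ) + z / (e : ℂ)) := by
    have heC : (e : ℂ) ≠ 0 := by exact_mod_cast he0.ne'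
    rw [hC, hzd]
    unfold Qk bet
    push_cast
    field_simp
    ring
  have hw : ‖(C : ℂ) + z / (e : ℂ)‖ ≤ C + p := by
    refine (norm_add_le _ _).trans ?_
    rw [norm_div, Complex.norm_real, Complex.norm_real, Real.norm_of_nonneg hC0,
      Real.norm_of_nonneg he0.le, ← hp]
  have hK2 : Real.sinh κ ^ 2 ≤ 1 / 100 := by nlinarith
  have hW1 : C + p ≤ 105 / 1000 := by linarith
  have hw1 : ‖(C : ℂ) + z / (e : ℂ)‖ < 1 := by linarith
  have hlog := norm_log_one_add_sub_self_le hw1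
  have hL : ‖(e : ℂ) * log (Qk κ s) - z‖ ≤ 3 / 5 * (bet e κ ^ 2 + z2) / e := by
    have heC : (e : ℂ) ≠ 0 := by exact_mod_cast he0.ne'
    have h1 : (e : ℂ) * log (Qk κ s) - z =
        (e : ℂ) * (log (1 + ((C : ℂ) + z / (e : ℂ))) - ((C : ℂ) + z / (e : ℂ))) + (e : ℂ) * (C : ℂ) := by
      rw [hQ]
      field_simp
      ring
    rw [h1]
    refine (norm_add_le _ _).trans ?_
    rw [norm_mul, norm_mul, Complex.norm_real, Complex.norm_real, Real.norm_of_nonneg hC0,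
      Real.norm_of_nonneg he0.le]
    have h2 : ‖log (1 + ((C : ℂ) + z / (e : ℂ))) - ((C : ℂ) + z / (e : ℂ))‖ ≤
        56 / 100 * (C + p) ^ 2 := by
      refine hlog.trans ?_
      have h3 : (1 - ‖(C : ℂ) + z / (e : ℂ)‖)⁻¹ ≤ 112 / 100 := by
        rw [inv_le_comm₀ (by linarith) (by norm_num)]
        norm_num
        linarith
      have h4 : ‖(C : ℂ) + z / (e : ℂ)‖ ^ 2 ≤ (C + p) ^ 2 := pow_le_pow_left₀ (norm_nonneg _) hw 2
      have h5 : 0 ≤ (1 - ‖(C : ℂ) + z / (e : ℂ)‖)⁻¹ := inv_nonneg.2 (by linarith)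
      calc ‖(C : ℂ) + z / (e : ℂ)‖ ^ 2 * (1 - ‖(C : ℂ) + z / (e : ℂ)‖)⁻¹ / 2 ≤
            (C + p) ^ 2 * (112 / 100) / 2 := by gcongr
        _ = _ := by ring
    have h6 : 56 / 100 * (C + p) ^ 2 + C ≤ 3 / 5 * (Real.sinh κ ^ 2 + p ^ 2) := by
      have h7 : C * C ≤ Real.sinh κ ^ 2 / 2 * (1 / 200) := by
        apply mul_le_mul hC1 (by linarith) hC0 (by positivity)
      have h8 : C * p ≤ Real.sinh κ ^ 2 / 2 * (1 / 10) := mul_le_mul hC1 hz20 hp0 (by positivity)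
      nlinarith [sq_nonneg p, sq_nonneg (Real.sinh κ)]
    have h9 : 3 / 5 * (bet e κ ^ 2 + z2) / e ≥ e * (3 / 5 * (Real.sinh κ ^ 2 + p ^ 2)) := by
      have h10 : p ^ 2 = ‖z‖ ^ 2 / e ^ 2 := by rw [hp, div_pow]
      have h11 : e * (3 / 5 * (Real.sinh κ ^ 2 + p ^ 2)) =
          3 / 5 * (bet e κ ^ 2 + ‖z‖ ^ 2) / e := by
        rw [h10]
        unfold bet
        field_simp
      rw [h11]
      gcongr
    calc e * ‖log (1 + ((C : ℂ) + z / (e : ℂ))) - ((C : ℂ) + z / (e : ℂ))‖ + e * C ≤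
          e * (56 / 100 * (C + p) ^ 2) + e * C := by gcongr
      _ = e * (56 / 100 * (C + p) ^ 2 + C) := by ring
      _ ≤ e * (3 / 5 * (Real.sinh κ ^ 2 + p ^ 2)) := by gcongr
      _ ≤ _ := h9
  -- |Pl - z| ≤ δ
  obtain ⟨δ, hδ⟩ : ∃ δ, δ = ls + 3 / 5 * (bet e κ ^ 2 + z2) / e := ⟨_, rfl⟩
  have hPl : ‖Pl e κ s - z‖ ≤ δ := by
    have h1 : Pl e κ s - z = (log (fT e κ s) - log (fT e κ (shf κ s))) +
        ((e : ℂ) * log (Qk κ s) - z) := by
      unfold Pl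
      ring
    rw [h1, hδ]
    exact (norm_add_le _ _).trans (add_le_add hls hL)
  rw [← hδ, qq_exp he0 hκ hs]
  have h1 : (1 : ℂ) + exp (-Pl e κ s) = (1 + exp (-z)) + exp (-z) * (exp (-(Pl e κ s - z)) - 1) := by
    have : exp (-z) * exp (-(Pl e κ s - z)) = exp (-Pl e κ s) := by
      rw [← exp_add]; congr 1; ring
    rw [mul_sub, this]
    ring
  have h2 : ‖exp (-(Pl e κ s - z)) - 1‖ ≤ Real.exp δ - 1 := by
    refine (nu_exp_sub_one2 _).trans ?_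
    rw [norm_neg]
    have := Real.exp_le_exp.2 hPl
    linarith
  have hδ1 : 0 ≤ Real.exp δ - 1 := (norm_nonneg _).trans h2
  have hE : ‖exp (-z)‖ ≤ 1 := by
    rw [norm_exp, neg_re, hzr]
    exact Real.exp_le_one_iff.2 (by linarith)
  have h3 : ‖exp (-z) * (exp (-(Pl e κ s - z)) - 1)‖ ≤ Real.exp δ - 1 := by
    rw [norm_mul]
    calc ‖exp (-z)‖ * ‖exp (-(Pl e κ s - z)) - 1‖ ≤ 1 * (Real.exp δ - 1) :=
          mul_le_mul hE h2 (norm_nonneg _) (by norm_num)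
      _ = _ := one_mul _
  -- |1 + e^(-z)|
  obtain ⟨E, hEd⟩ : ∃ E, E = Real.exp (-rz e κ s) := ⟨_, rfl⟩
  have hE0 : 0 < E := by rw [hEd]; exact Real.exp_pos _
  have hE1 : E ≤ 1 := by rw [hEd]; exact Real.exp_le_one_iff.2 (by linarith)
  have hE2 : 1 - E ≤ rz e κ s := by
    have := Real.add_one_le_exp (-rz e κ s)
    rw [hEd]; linarith
  have h4 : exp (-z) = (E : ℂ) * exp (((-(yz e κ s) : ℝ) : ℂ) * I) := by
    rw [hEd, Complex.ofReal_exp, ← exp_add]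
    congr 1
    apply Complex.ext
    · simp [hzr]
    · simp [hzi]
  have h5 : (1 : ℂ) + exp (((-(yz e κ s) : ℝ) : ℂ) * I) =
      ((2 * Real.cos (yz e κ s / 2) : ℝ) : ℂ) * exp (((-(yz e κ s) / 2 : ℝ) : ℂ) * I) := by
    apply Complex.ext
    · rw [add_re, one_re, exp_ofReal_mul_I_re, re_ofReal_mul, exp_ofReal_mul_I_re, Real.cos_neg,
        neg_div, Real.cos_neg]
      have h6 : yz e κ s = 2 * (yz e κ s / 2) := by ring
      have h7 : Real.cos (yz e κ s) = 2 * Real.cos (yz e κ s / 2) ^ 2 - 1 := by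
        conv_lhs => rw [h6]
        exact Real.cos_two_mul _
      rw [h7]; ring
    · rw [add_im, one_im, exp_ofReal_mul_I_im, im_ofReal_mul, exp_ofReal_mul_I_im, Real.sin_neg,
        neg_div, Real.sin_neg]
      have h6 : yz e κ s = 2 * (yz e κ s / 2) := by ring
      have h7 : Real.sin (yz e κ s) = 2 * Real.sin (yz e κ s / 2) * Real.cos (yz e κ s / 2) := by
        conv_lhs => rw [h6]
        exact Real.sin_two_mul _
      rw [h7]; ring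
  have h6 : ‖(1 : ℂ) + exp (((-(yz e κ s) : ℝ) : ℂ) * I)‖ = 2 * |Real.cos (yz e κ s / 2)| := by
    rw [h5, norm_mul, Complex.norm_real, norm_exp_ofReal_mul_I, mul_one, Real.norm_eq_abs, abs_mul,
      abs_two]
  have h7 : ‖(1 : ℂ) + exp (-z)‖ ≤ 2 * |Real.cos (yz e κ s / 2)| + rz e κ s := by
    have h8 : (1 : ℂ) + exp (-z) = ((1 - E : ℝ) : ℂ) +
        (E : ℂ) * (1 + exp (((-(yz e κ s) : ℝ) : ℂ) * I)) := by
      rw [h4]; push_cast; ring
    rw [h8]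
    refine (norm_add_le _ _).trans ?_
    rw [norm_mul, h6, Complex.norm_real, Complex.norm_real, Real.norm_of_nonneg hE0.le,
      Real.norm_of_nonneg (by linarith : 0 ≤ 1 - E)]
    have h9 : E * (2 * |Real.cos (yz e κ s / 2)|) ≤ 1 * (2 * |Real.cos (yz e κ s / 2)|) := by
      gcongr
    linarith
  rw [h1]
  refine (norm_add_le _ _).trans ?_
  linarith


/-- the difference of `log f` over one shift -/
private theorem link_ls_y {Y w p q q2 x Λ yn a lf S rl rh zb Dm2 DP Vs Mo ls u n1 X lsp lfp E RH : ℝ}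
    {τ : ℂ} (C : MC e κ Y w p q) (hY : Y ≤ 7 / 2) (hyn : yn ≤ Y)
    (T : St e κ x Λ yn τ) (hS : S = Sz e κ (shf κ τ))
    (N : LN e (Real.sinh κ) p q q2 w x Λ a lf S rl rh zb Dm2 DP Vs Mo ls u n1 X lsp lfp E RH)
    (hMo : ∀ z ∈ segment ℝ (shf κ τ) (shf κ (shf κ τ)), MB e κ Mo z) :
    ‖log (fT e κ (shf κ τ)) - log (fT e κ (shf κ (shf κ τ)))‖ ≤ ls := by
  have he := C.e200
  have he0 : 0 < e := by linarith
  have hκ := C.κ0
  have hK0 := N.K0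
  obtain ⟨hs, hom, hrl, hrh, hy, h3, hS0⟩ := link_base C hY hyn T hS N
  have hr0 : 0 ≤ rz e κ (shf κ τ) := N.rl0.le.trans hrl
  have h6 : rz e κ (shf κ τ) ^ 2 ≤ rh ^ 2 := pow_le_pow_left₀ hr0 hrh 2
  have hVs : bet e κ * ‖shf κ (shf κ τ) - shf κ τ‖ ≤ Vs := by
    refine (shf_sub_le he0 hκ hs).trans (le_trans ?_ N.hVs)
    rw [← hS]
    apply div_le_div_of_nonneg_right _ he0.le
    linarith
  have hs2 : 0 < (shf κ (shf κ τ)).re := shf_re hκ hs.le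
  rw [norm_sub_rev]
  refine (lf_sub he0 hκ hs hs2 hMo).trans (le_trans ?_ N.hls)
  calc e * Real.sinh κ * Mo * ‖shf κ (shf κ τ) - shf κ τ‖ =
        Mo * (bet e κ * ‖shf κ (shf κ τ) - shf κ τ‖) := by
        unfold bet; ring
    _ ≤ Mo * Vs := mul_le_mul_of_nonneg_left hVs N.Mo0
    _ = Vs * Mo := mul_comm _ _

/-- `‖qq s‖ ≤ u` -/
private theorem link_qq {Y w p q q2 x Λ yn a lf S rl rh zb Dm2 DP Vs Mo ls u n1 X lsp lfp E RH : ℝ}
    {τ : ℂ} (C : MC e κ Y w p q) (hY : Y ≤ 7 / 2) (hyn : yn ≤ Y)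
    (T : St e κ x Λ yn τ) (hS : S = Sz e κ (shf κ τ))
    (N : LN e (Real.sinh κ) p q q2 w x Λ a lf S rl rh zb Dm2 DP Vs Mo ls u n1 X lsp lfp E RH) :
    ‖qq e κ (shf κ τ)‖ ≤ u := by
  have he0 : 0 < e := by linarith [C.e200]
  obtain ⟨hom, -, hps, -⟩ := seg_facts1 C hY hyn T hS N (left_mem_segment ℝ _ _)
  have hx1 : 0 ≤ x + 1 := by have := N.x0; linarith
  have g1 := qq_q C (W' := S / e) (q2 := q2) hps hx1 hom
    (by rw [← hS, mul_div_cancel₀ _ he0.ne']) N.q20 N.hρ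
  refine g1.trans (le_trans ?_ N.hu)
  apply Real.exp_le_exp.2
  have g2 := mul_le_mul_of_nonneg_left N.hrl N.q20
  linarith

private theorem nB_x {n : ℕ} (hn : n < 5) : xB n + 1 - (cB n).d = xB (n + 1) := by
  interval_cases n <;> norm_num [cB, xB]

private theorem nB_y {K : ℝ} (hK : K ≤ 1 / 10) {n : ℕ} (hn : n < 5) :
    ynB0 n + ynB1 n * K ≤ 7 / 2 ∧ (cB n).Yn = ynB0 (n + 1) ∧ (cB n).Y2n = ynB1 (n + 1) := by
  interval_cases n <;> norm_num [cB, ynB0, ynB1] <;> linarith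

private theorem nB_a (he : 0 < e) (hκ : 0 < κ) {n : ℕ} (hn : n < 5) : 0 ≤ aB e κ (n + 1) := by
  have hb : 0 < bet e κ := mul_pos he (Real.sinh_pos_iff.2 hκ)
  have h1 : 0 ≤ aB0 (n + 1) := by interval_cases n <;> norm_num [aB0]
  have h2 : 0 ≤ aB1 (n + 1) := by interval_cases n <;> norm_num [aB1]
  unfold aB
  positivity

private theorem nB_x2 {n : ℕ} (hn : n < 5) : 0 ≤ (cB n).x2 ∧ 0 ≤ (cB n).La := by
  interval_cases n <;> norm_num [cB]

section prog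

variable {c : CLB} {y n1 ielf : ℝ}

private theorem pB_se (he : 0 < e) (hκ : 0 < κ)
    (P : PLB c (bet e κ / √e) (bet e κ)⁻¹ y n1 ielf) :
    P.se = (√e)⁻¹ ∧ e * P.ie = 1 ∧ e * P.se = √e ∧ 0 < P.w := by
  have hb : 0 < bet e κ := mul_pos he (Real.sinh_pos_iff.2 hκ)
  have hse : 0 < √e := Real.sqrt_pos.2 he
  have h2 : √e * √e = e := Real.mul_self_sqrt he.le
  have h1 : P.se = (√e)⁻¹ := by
    rw [P.e_se]
    field_simp
  refine ⟨h1, ?_, ?_, ?_⟩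
  · rw [P.e_ie, h1]
    nth_rewrite 1 [← h2]
    field_simp
  · rw [h1]
    nth_rewrite 1 [← h2]
    field_simp
  · rw [P.e_w]; positivity

private theorem pB_eq (M : PMB (bet e κ / √e) (bet e κ)⁻¹)
    (P : PLB c (bet e κ / √e) (bet e κ)⁻¹ y n1 ielf) : M.q = P.q ∧ M.sp = P.sp := by
  have h1 : M.se = P.se := by rw [M.e_se, P.e_se]
  have h2 : M.ie = P.ie := by rw [M.e_ie, P.e_ie, h1]
  have h3 : M.K = P.K := by rw [M.e_K, P.e_K, h1]
  have h4 : M.K2 = P.K2 := by rw [M.e_K2, P.e_K2, h3]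
  have h5 : M.Yt = P.Yt := by rw [M.e_Yt, P.e_Yt]
  have h6 : M.Y2 = P.Y2 := by rw [M.e_Y2, P.e_Y2, h5]
  have h7 : M.wm = P.wm := by rw [M.e_wm, P.e_wm, h5, h6]
  have h8 : M.wse0 = P.wse0 := by rw [M.e_wse0, P.e_wse0, h7, h1]
  exact ⟨by rw [M.e_q, P.e_q, h8, h2, h4], by rw [M.e_sp, P.e_sp, h8, h2, h4]⟩

private theorem pB_ls (he : 200 ≤ e) (hκ : 0 < κ) (hK : Real.sinh κ ≤ 1 / 10)
    (M : PMB (bet e κ / √e) (bet e κ)⁻¹) (hx2 : 0 ≤ c.x2)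
    (P : PLB c (bet e κ / √e) (bet e κ)⁻¹ y n1 ielf) : 0 ≤ P.ls := by
  have he0 : 0 < e := by linarith
  have hK0 : 0 < Real.sinh κ := Real.sinh_pos_iff.2 hκ
  obtain ⟨hse, hie, -, hw⟩ := pB_se he0 hκ P
  obtain ⟨hq, hsp⟩ := pB_eq M P
  have hq0 : 0 ≤ P.q := by rw [← hq]; linarith [M.p_q7]
  have hsp0 : 0 ≤ P.sp := by rw [← hsp]; exact M.p_sp.le
  have hie0 : 0 < P.ie := by
    by_contra hh
    push Not at hh
    nlinarith
  have hPK : P.K = Real.sinh κ := by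
    rw [P.e_K, hse]
    have h2 : √e * √e = e := Real.mul_self_sqrt he0.le
    have h3 : 0 < √e := Real.sqrt_pos.2 he0
    calc bet e κ / √e * (√e)⁻¹ = bet e κ / (√e * √e) := by field_simp
      _ = Real.sinh κ := by rw [h2]; unfold bet; field_simp
  have hc5 : 0 ≤ P.c5 ∧ P.c5 ≤ 1 := by
    rw [P.e_c5, P.e_ie2]
    have h1 : P.ie ≤ 1 / 200 := by
      by_contra hh
      push Not at hh
      nlinarith
    constructor <;> nlinarith
  have hcc0 : 0 ≤ P.cc5 := by rw [P.e_cc5]; exact mul_nonneg hc5.1 hc5.1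
  have hcc1 : P.cc5 ≤ 1 := by rw [P.e_cc5]; nlinarith [hc5.1, hc5.2]
  obtain ⟨hr0, -⟩ := rc_sq hcc0 hcc1 P.e_xxo P.e_rco
  have hbno : 0 ≤ P.bno := by rw [P.e_bno]; exact mul_nonneg hsp0 hr0
  have hwso : 0 ≤ P.wso := by rw [P.e_wso]; positivity
  have hbo : 0 ≤ P.bo := by rw [P.e_bo]; positivity
  have hl2 : 0 ≤ P.l2 := by
    rw [lam_blk P.e_K2 P.e_q6 P.e_Kq P.e_z2 P.e_iz2 P.e_th2 P.e_l2, hPK]
    exact lam_nonneg hK0.le (by linarith) hx2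
  have hibo : 0 ≤ P.ibo := by rw [P.e_ibo]; positivity
  have heo : 0 ≤ P.eo := by rw [P.e_eo]; positivity
  have hwMo : 0 ≤ P.wMo := by rw [P.e_wMo]; positivity
  have hV1 : 0 ≤ P.V1 := by
    rw [P.e_V1, P.e_R2, P.e_Wie, P.e_W]
    have : 0 ≤ P.RW * P.RW * (P.w * P.w * P.ie) :=
      mul_nonneg (mul_self_nonneg _) (mul_nonneg (mul_self_nonneg _) hie0.le)
    linarith
  rw [P.e_ls]
  positivity

private theorem pB_n1 (he : 200 ≤ e) (hκ : 0 < κ) (hK : Real.sinh κ ≤ 1 / 10)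
    (M : PMB (bet e κ / √e) (bet e κ)⁻¹) (hx2 : 0 ≤ c.x2) (hLa : 0 ≤ c.La) {Yk : ℝ}
    (hy : |y| ≤ 7 / 2) (P : PLB c (bet e κ / √e) (bet e κ)⁻¹ y n1 ielf)
    (Q : PLBn P) (hk : Yk = y) : 2 * |Real.cos (Yk / 2)| ≤ Q.G ∧ 0 ≤ n1 := by
  have he0 : 0 < e := by linarith
  have hls := pB_ls he hκ hK M hx2 P
  have h1 : 2 * |Real.cos (y / 2)| ≤ Q.G := by
    refine (cos_half_le hy).trans ?_
    rw [Q.e_G, P.e_y2]
    have h4 : 0 ≤ y ^ 4 := by positivity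
    have h12 : 0 ≤ y ^ 12 := by positivity
    have e1 : y * y * (y * y) = y ^ 4 := by ring
    have e2 : 1 / 4 * (y * y) * (1 / 4 * (y * y)) * (1 / 4 * (y * y)) *
        (1 / 4 * (y * y) * (1 / 4 * (y * y)) * (1 / 4 * (y * y))) = y ^ 12 / 4096 := by ring
    rw [e1, e2]
    nlinarith
  rw [hk]
  refine ⟨h1, ?_⟩
  obtain ⟨hse, hie, -, hw⟩ := pB_se he0 hκ P
  have hie0 : 0 < P.ie := by
    by_contra hh
    push Not at hh
    nlinarith
  have hW : 0 ≤ P.W := by rw [P.e_W]; positivity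
  have hRW : 0 ≤ P.RW := by
    rw [P.e_RW, P.e_ie2]
    positivity
  have hV1 : 0 ≤ P.V1 := by
    rw [P.e_V1, P.e_R2, P.e_Wie]
    positivity
  have h2 : 0 ≤ |Real.cos (y / 2)| := abs_nonneg _
  have h3 : 1 ≤ Real.exp (P.ls + 314573 / 524288 * (P.W * P.V1)) :=
    Real.one_le_exp (by positivity)
  have h4 : 0 ≤ P.W * P.RW := by positivity
  have h5 : n1 = Q.G + P.W * P.RW + Real.exp (P.ls + 314573 / 524288 * (P.W * P.V1)) - 1 :=
    Q.e_n1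
  linarith

end prog

theorem linkB (he : 200 ≤ e) (hκ : 0 < κ) (hb : 5 ≤ bet e κ)
    (hD : bet e κ ^ 2 ≤ e * (13864 / 10000 + 7 / 4 * (√e)⁻¹))
    (M : PMB (bet e κ / √e) (bet e κ)⁻¹) {n : ℕ} (hn : n < 5) {τ : ℂ}
    (T : St e κ (xB n) (LamB n) (ynB κ n) τ) {n1 ielf : ℝ}
    (P : PLB (cB n) (bet e κ / √e) (bet e κ)⁻¹ |yz e κ (shf κ τ)| n1 ielf)
    (hn1 : Nonempty (PLBn P) ∨ Nonempty (PLBu P)) (hlf : Nonempty (PLBf P) ∨ Nonempty (PLBv P)) :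
    LinkOK e κ (aB e κ n) (xB (n + 1)) (LamB (n + 1)) (ynB κ (n + 1)) (aB e κ (n + 1)) τ := by
  have C := mc_B he hκ hb hD M
  have he0 : 0 < e := by linarith
  have hK0 : 0 < Real.sinh κ := Real.sinh_pos_iff.2 hκ
  have hK1 := C.K1
  have hb0 : 0 < bet e κ := mul_pos he0 hK0
  obtain ⟨hx2, hLa⟩ := nB_x2 hn
  obtain ⟨hy1, hYn, hY2n⟩ := nB_y hK1 hn
  have hyn : ynB κ n ≤ 7 / 2 := hy1
  obtain ⟨hse, hie, hee, -⟩ := pB_se he0 hκ P
  have hPK : P.K = Real.sinh κ := by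
    rw [P.e_K, hse]
    have h2 : √e * √e = e := Real.mul_self_sqrt he0.le
    have h3 : 0 < √e := Real.sqrt_pos.2 he0
    calc bet e κ / √e * (√e)⁻¹ = bet e κ / (√e * √e) := by field_simp
      _ = Real.sinh κ := by rw [h2]; unfold bet; field_simp
  have hys : |yz e κ (shf κ τ)| ≤ 7 / 2 := (yz_shf_le he0 hκ T.re).trans (T.y.trans hyn)
  have hys2 : |(|yz e κ (shf κ τ)|)| ≤ 7 / 2 := by rwa [abs_abs]
  have hcs : |Real.cos (|yz e κ (shf κ τ)| / 2)| = |Real.cos (yz e κ (shf κ τ) / 2)| := by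
    rw [← Real.cos_abs (yz e κ (shf κ τ) / 2), abs_div, abs_two]
  have hu0 : 0 < P.u := by rw [P.e_u]; exact Real.exp_pos _
  have hn10 : 0 ≤ n1 := by
    rcases hn1 with ⟨⟨Q⟩⟩ | ⟨⟨Q⟩⟩
    · exact (pB_n1 he hκ hK1 M hx2 hLa hys2 P Q rfl).2
    · have := Q.e_n1
      linarith
  have hlf0 : 0 ≤ ielf := by
    rcases hlf with ⟨⟨Q⟩⟩ | ⟨⟨Q⟩⟩
    · have h1 := Q.e_ielf
      have h2 : 0 ≤ P.se := by rw [hse]; positivity
      have h3 : 0 ≤ P.ie := by rw [P.e_ie]; exact mul_self_nonneg _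
      linarith
    · have h1 := Q.e_ielf
      have h3 : 0 ≤ P.ie := by rw [P.e_ie]; exact mul_self_nonneg _
      have h4 : Real.log (1 - P.u) ≤ 0 := Real.log_nonpos Q.p_u1.le (by linarith)
      rw [h1]
      exact mul_nonneg h3 (by linarith)
  obtain ⟨hw, hwS, N, N2, hMq, hM1q⟩ := lb_core he hκ hb hD M hn T P hn10 hlf0
  have hMoS := mo_q C le_rfl hyn T rfl N hMq
  have hls := link_ls_y C le_rfl hyn T rfl N hMoS
  have hqq := link_qq C le_rfl hyn T rfl N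
  obtain ⟨hs, hom, hrl, hrh, hy, h3, hS0⟩ := link_base C le_rfl hyn T rfl N
  have hn1S : ‖1 + qq e κ (shf κ τ)‖ ≤ n1 := by
    rcases hn1 with ⟨⟨Q⟩⟩ | ⟨⟨Q⟩⟩
    · have h1 := (pB_n1 he hκ hK1 M hx2 hLa hys2 P Q rfl).1
      rw [hcs] at h1
      have hr0 : 0 ≤ rz e κ (shf κ τ) := N.rl0.le.trans hrl
      have h6 : rz e κ (shf κ τ) ^ 2 ≤ P.rh ^ 2 := pow_le_pow_left₀ hr0 hrh 2
      have hSy : Sz e κ (shf κ τ) = bet e κ ^ 2 + yz e κ (shf κ τ) ^ 2 := rfl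
      have hbe : bet e κ = e * Real.sinh κ := rfl
      have h7 : P.rh ^ 2 + yz e κ (shf κ τ) ^ 2 ≤ (e / 10) ^ 2 := by
        have g1 := N.hzb
        rw [hSy, ← hbe] at g1
        have g2 : P.zb ^ 2 ≤ (e / 10) ^ 2 := pow_le_pow_left₀ N.zb0 N.zb1 2
        linarith
      have h8 := n1_le10 he hκ hK1 hs hls
        (add_le_add_left h6 (yz e κ (shf κ τ) ^ 2)) h7
      refine h8.trans ?_
      have h9 : 3 / 5 * (bet e κ ^ 2 + (P.rh ^ 2 + yz e κ (shf κ τ) ^ 2)) / e ≤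
          314573 / 524288 * (P.W * P.V1) := by
        have g1 := N.hVs
        have g2 : 0 ≤ (Sz e κ (shf κ τ) + P.rh ^ 2) / e := by positivity
        have g3 : 3 / 5 * (bet e κ ^ 2 + (P.rh ^ 2 + yz e κ (shf κ τ) ^ 2)) / e =
            3 / 5 * ((Sz e κ (shf κ τ) + P.rh ^ 2) / e) := by rw [hSy]; ring
        rw [g3]
        linarith
      have h10 : Real.exp (P.ls + 3 / 5 * (bet e κ ^ 2 + (P.rh ^ 2 + yz e κ (shf κ τ) ^ 2)) / e) ≤
          Real.exp (P.ls + 314573 / 524288 * (P.W * P.V1)) :=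
        Real.exp_le_exp.2 (by linarith)
      have h11 : n1 = Q.G + P.W * P.RW +
          Real.exp (P.ls + 314573 / 524288 * (P.W * P.V1)) - 1 := Q.e_n1
      have h12 : rz e κ (shf κ τ) ≤ P.W * P.RW := by
        refine hrh.trans (le_of_eq ?_)
        rw [P.e_rh]; ring
      linarith
    · have h1 : n1 = P.u + 1 := Q.e_n1
      rw [h1]
      refine (norm_add_le _ _).trans ?_
      rw [norm_one]
      linarith
  have hlfS : ‖log (fT e κ (shf κ τ)) - log (fT e κ 1)‖ ≤ e * ielf := by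
    rcases hlf with ⟨⟨Q⟩⟩ | ⟨⟨Q⟩⟩
    · refine (lf_e he hκ hK1 hs).trans ?_
      have h1 : ielf = 9 / 2 * P.ie + 43691 / 524288 * P.se := Q.e_ielf
      have h2 : e * ielf = 9 / 2 * (e * P.ie) + 43691 / 524288 * (e * P.se) :=
        (congrArg (fun t => e * t) h1).trans (by ring)
      rw [h2, hie, hee]
      have h3 : 0 ≤ √e := Real.sqrt_nonneg _
      linarith
    · refine (lf_u he0 hκ hs hqq (by linarith [Q.p_u1])).trans ?_
      have h1 : ielf = P.ie * (183501 / 262144 - Real.log (1 - P.u)) := Q.e_ielf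
      have h2 : e * ielf = (e * P.ie) * (183501 / 262144 - Real.log (1 - P.u)) :=
        (congrArg (fun t => e * t) h1).trans (by ring)
      rw [h2, hie]
      linarith
  have hyE : |yz e κ (shf κ τ)| + P.E ≤ 7 / 2 := by linarith [P.p_yY]
  have hyE1 : |yz e κ (shf κ τ)| + P.E ≤ ynB κ (n + 1) := by
    have h1 := P.p_y
    rw [hYn, hY2n, hPK] at h1
    unfold ynB
    linarith
  have all : ∀ χ : ℂ, ‖χ‖ ≤ ‖Rx e κ (aB e κ n) τ‖ → _ := fun χ hχ =>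
    link_all_y C le_rfl hyn hyE T rfl N N2 hyE1 hlfS hn1S hχ (Or.inl hMq) (Or.inl hM1q)
  refine ⟨(all 0 (by rw [norm_zero]; exact norm_nonneg _)).1, fun χ hχ => ⟨?_, ?_, ?_⟩⟩
  · exact (link_rad C le_rfl hyn T rfl N hMoS hlfS hn1S hχ).1
  · have h := (all χ hχ).2.1
    rwa [nB_x hn] at h
  · intro χ' hχ'
    refine (all χ hχ).2.2 χ' (hχ'.trans (le_of_eq ?_))
    have ha := nB_a he0 hκ hn
    unfold Rx
    rw [norm_mul, Complex.norm_real, Real.norm_of_nonneg (by positivity)]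
    ring

end Pool.Agent.helper31.EQB
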