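import Pool.Agent.helper31.EQB.Om
import Pool.Agent.helper12.FF.Harn2

/-!
# EQB-11: `|1 + qq s|`

`qq s = exp (-Pl s)`, `Pl s = e log Q(s) + (log f(s) - log f(shf s))` (see helper12 `FF/Harn2.lean`: `Pl`, `‖qq‖`), `Q(s) = c + z/e`,
`|e log Q - z| ≤ (S + |z|²)/(2e) + ...`: with `w = Q - 1 = (c - 1) + z/e`, `|w| ≤ K²/2 + |z|/e`,
`|log (1 + w) - w| ≤ |w|²/(2 (1 - |w|))`, so
`|e log Q - z| ≤ e K²/2 + e (K²/2 + |z|/e)²/(2 (1 - K²/2 - |z|/e))`; for `e ≥ 200`, `K ≤ 1/10`, `|z| ≤ e/20` this is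
`≤ 3/5 (β² + |z|²)/e` (use `e K² = β²/e`, `(K²/2 + |z|/e)² ≤ (1 + 1/50) |z|²/e² + 51 K⁴/4`; any proof of the inequality).
`|1 + e^(-z)| ≤ e^(-r) |1 + e^(-iy)| + (1 - e^(-r)) ≤ 2 |cos (y/2)| + r`,
`|1 + e^(-Pl)| ≤ |1 + e^(-z)| + e^(-r) (e^δ - 1)`, `|Pl - z| ≤ δ`.
-/

namespace Pool.Agent.helper31.EQB

open Complex ComplexConjugate Set Filter Topology
open Pool.Agent.helper31.EQ.Y Pool.Agent.helper31.EQ.R
open Pool.Agent.helper12.EQL Pool.Agent.helper12.RP Pool.Agent.helper12.FF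

variable {e κ : ℝ}

/-! ### auxiliary facts -/

private theorem nu_mono {f f' : ℝ → ℝ} (hd : ∀ u, HasDerivAt f (f' u) u) (h0 : f 0 = 0)
    (hp : ∀ u, 0 ≤ u → 0 ≤ f' u) {x : ℝ} (hx : 0 ≤ x) : 0 ≤ f x := by
  have hm : MonotoneOn f (Ici 0) := by
    refine monotoneOn_of_deriv_nonneg (convex_Ici 0)
      (fun u _ => (hd u).continuousAt.continuousWithinAt)
      (fun u _ => (hd u).differentiableAt.differentiableWithinAt) (fun u hu => ?_)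
    rw [(hd u).deriv]
    rw [interior_Ici] at hu
    exact hp u (le_of_lt hu)
  have h := hm (mem_Ici.2 le_rfl) (mem_Ici.2 hx) hx
  rwa [h0] at h

private theorem nu_pow (n : ℕ) (c u : ℝ) :
    HasDerivAt (fun v : ℝ => v ^ (n + 1) / c) (((n : ℝ) + 1) * u ^ n / c) u := by
  have := ((hasDerivAt_id u).pow (n + 1)).div_const c
  refine this.congr_deriv ?_
  simp only [id, mul_one]
  push_cast
  simp

private theorem nu_sin3 {x : ℝ} (hx : 0 ≤ x) : 0 ≤ Real.sin x - x + x ^ 3 / 6 := by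
  refine nu_mono (f := fun v => Real.sin v - v + v ^ 3 / 6)
    (f' := fun u => Real.cos u - 1 + ((2 : ℕ) + 1 : ℝ) * u ^ 2 / 6) (fun u => ?_) (by simp)
    (fun u _ => ?_) hx
  · exact ((Real.hasDerivAt_sin u).sub (hasDerivAt_id u)).add (nu_pow 2 6 u)
  · have := Real.one_sub_sq_div_two_le_cos (x := u)
    push_cast
    linarith

private theorem nu_cos4 {x : ℝ} (hx : 0 ≤ x) : 0 ≤ 1 - x ^ 2 / 2 + x ^ 4 / 24 - Real.cos x := by
  refine nu_mono (f := fun v => 1 - v ^ 2 / 2 + v ^ 4 / 24 - Real.cos v)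
    (f' := fun u => 0 - ((1 : ℕ) + 1 : ℝ) * u ^ 1 / 2 + ((3 : ℕ) + 1 : ℝ) * u ^ 3 / 24 - (-Real.sin u))
    (fun u => ?_) (by simp) (fun u hu => ?_) hx
  · exact ((((hasDerivAt_const u (1:ℝ)).sub (nu_pow 1 2 u))).add (nu_pow 3 24 u)).sub
      (Real.hasDerivAt_cos u)
  · have := nu_sin3 hu
    push_cast
    rw [pow_one]
    linarith

private theorem nu_sin5 {x : ℝ} (hx : 0 ≤ x) : 0 ≤ x - x ^ 3 / 6 + x ^ 5 / 120 - Real.sin x := by
  refine nu_mono (f := fun v => v - v ^ 3 / 6 + v ^ 5 / 120 - Real.sin v)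
    (f' := fun u => 1 - ((2 : ℕ) + 1 : ℝ) * u ^ 2 / 6 + ((4 : ℕ) + 1 : ℝ) * u ^ 4 / 120 - Real.cos u)
    (fun u => ?_) (by simp) (fun u hu => ?_) hx
  · exact (((hasDerivAt_id u).sub (nu_pow 2 6 u)).add (nu_pow 4 120 u)).sub (Real.hasDerivAt_sin u)
  · have := nu_cos4 hu
    push_cast
    linarith

private theorem nu_cos6 {x : ℝ} (hx : 0 ≤ x) :
    0 ≤ Real.cos x - (1 - x ^ 2 / 2 + x ^ 4 / 24) + x ^ 6 / 720 := by
  refine nu_mono (f := fun v => Real.cos v - (1 - v ^ 2 / 2 + v ^ 4 / 24) + v ^ 6 / 720)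
    (f' := fun u => -Real.sin u - (0 - ((1 : ℕ) + 1 : ℝ) * u ^ 1 / 2 +
      ((3 : ℕ) + 1 : ℝ) * u ^ 3 / 24) + ((5 : ℕ) + 1 : ℝ) * u ^ 5 / 720)
    (fun u => ?_) (by simp) (fun u hu => ?_) hx
  · exact ((Real.hasDerivAt_cos u).sub (((hasDerivAt_const u (1:ℝ)).sub (nu_pow 1 2 u)).add
      (nu_pow 3 24 u))).add (nu_pow 5 720 u)
  · have := nu_sin5 hu
    push_cast
    rw [pow_one]
    linarith

private theorem nu_cosh (κ : ℝ) : Real.cosh κ - 1 ≤ Real.sinh κ ^ 2 / 2 := by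
  have h1 := Real.one_le_cosh κ
  have h2 := Real.cosh_sq κ
  nlinarith [sq_nonneg (Real.cosh κ - 1)]

private theorem nu_exp_sub_one (w : ℂ) : ‖exp w - 1‖ ≤ Real.exp ‖w‖ - 1 :=
  Pool.Agent.helper63.FF.norm_exp_sub_one le_rfl

/-! ### the statements -/

/-- `|1 + qq s|`; `ls` bounds `|log f s - log f (shf s)|`, `z2` bounds `|z|²`. -/
theorem n1_le (he : 200 ≤ e) (hκ : 0 < κ) (hK : Real.sinh κ ≤ 1 / 10) {s : ℂ} (hs : 0 < s.re)
    {ls z2 : ℝ} (hls : ‖log (fT e κ s) - log (fT e κ (shf κ s))‖ ≤ ls)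
    (hz : rz e κ s ^ 2 + yz e κ s ^ 2 ≤ z2) (hz2 : z2 ≤ (e / 20) ^ 2) :
    ‖1 + qq e κ s‖ ≤ 2 * |Real.cos (yz e κ s / 2)| + rz e κ s +
      (Real.exp (ls + 3 / 5 * (bet e κ ^ 2 + z2) / e) - 1) := by

  have he0 : 0 < e := by linarith
  have hK0 : 0 < Real.sinh κ := Real.sinh_pos_iff.2 hκ
  have hb0 : 0 < bet e κ := mul_pos he0 hK0
  obtain ⟨z, hzd⟩ : ∃ z : ℂ, z = (bet e κ : ℂ) * s := ⟨_, rfl⟩
  have hzr : z.re = rz e κ s := by rw [hzd, re_ofReal_mul]; rfl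
  have hzi : z.im = yz e κ s := by rw [hzd, im_ofReal_mul]; rfl
  have hr0 : 0 ≤ rz e κ s := by unfold rz; positivity
  have hzn : ‖z‖ ^ 2 ≤ z2 := by
    rw [← Complex.normSq_eq_norm_sq, Complex.normSq_apply, hzr, hzi]
    linarith
  have hz20 : ‖z‖ / e ≤ 1 / 20 := by
    rw [div_le_iff₀ he0]
    have h1 : ‖z‖ ^ 2 ≤ (e / 20) ^ 2 := hzn.trans hz2
    have h2 := abs_le_of_sq_le_sq' h1 (by positivity)
    linarith [h2.2]
  -- e log Q - z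
  obtain ⟨p, hp⟩ : ∃ p, p = ‖z‖ / e := ⟨_, rfl⟩
  obtain ⟨C, hC⟩ : ∃ C, C = Real.cosh κ - 1 := ⟨_, rfl⟩
  have hp0 : 0 ≤ p := by rw [hp]; positivity
  have hC0 : 0 ≤ C := by rw [hC]; linarith [Real.one_le_cosh κ]
  have hC1 : C ≤ Real.sinh κ ^ 2 / 2 := by rw [hC]; exact nu_cosh κ
  rw [← hp] at hz20
  have hQ : Qk κ s = 1 + ((C : ℂ) + z / (e : ℂ)) := by
    have heC : (e : ℂ) ≠ 0 := by exact_mod_cast he0.ne'
    rw [hC, hzd]
    unfold Qk bet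
    push_cast
    field_simp
    ring
  have hw : ‖(C : ℂ) + z / (e : ℂ)‖ ≤ C + p := by
    refine (norm_add_le _ _).trans ?_
    rw [norm_div, Complex.norm_real, Complex.norm_real, Real.norm_of_nonneg hC0,
      Real.norm_of_nonneg he0.le, ← hp]
  have hK2 : Real.sinh κ ^ 2 ≤ 1 / 100 := by nlinarith
  have hW1 : C + p ≤ 55 / 1000 := by linarith
  have hw1 : ‖(C : ℂ) + z / (e : ℂ)‖ < 1 := by linarith
  have hlog := norm_log_one_add_sub_self_le hw1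
  have hL : ‖(e : ℂ) * log (Qk κ s) - z‖ ≤ 3 / 5 * (bet e κ ^ 2 + z2) / e := by
    have heC : (e : ℂ) ≠ 0 := by exact_mod_cast he0.ne'
    have h1 : (e : ℂ) * log (Qk κ s) - z =
        (e : ℂ) * (log (1 + ((C : ℂ) + z / (e : ℂ))) - ((C : ℂ) + z / (e : ℂ))) + (e : ℂ) * (C : ℂ) := by
      rw [hQ]
      field_simp
      ring
    rw [h1]
    refine (norm_add_le _ _).trans ?_
    rw [norm_mul, norm_mul, Complex.norm_real, Complex.norm_real, Real.norm_of_nonneg hC0,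
      Real.norm_of_nonneg he0.le]
    have h2 : ‖log (1 + ((C : ℂ) + z / (e : ℂ))) - ((C : ℂ) + z / (e : ℂ))‖ ≤
        53 / 100 * (C + p) ^ 2 := by
      refine hlog.trans ?_
      have h3 : (1 - ‖(C : ℂ) + z / (e : ℂ)‖)⁻¹ ≤ 106 / 100 := by
        rw [inv_le_comm₀ (by linarith) (by norm_num)]
        norm_num
        linarith
      have h4 : ‖(C : ℂ) + z / (e : ℂ)‖ ^ 2 ≤ (C + p) ^ 2 := pow_le_pow_left₀ (norm_nonneg _) hw 2
      have h5 : 0 ≤ (1 - ‖(C : ℂ) + z / (e : ℂ)‖)⁻¹ := inv_nonneg.2 (by linarith)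
      calc ‖(C : ℂ) + z / (e : ℂ)‖ ^ 2 * (1 - ‖(C : ℂ) + z / (e : ℂ)‖)⁻¹ / 2 ≤
            (C + p) ^ 2 * (106 / 100) / 2 := by gcongr
        _ = _ := by ring
    have h6 : 53 / 100 * (C + p) ^ 2 + C ≤ 3 / 5 * (Real.sinh κ ^ 2 + p ^ 2) := by
      have h7 : C * C ≤ Real.sinh κ ^ 2 / 2 * (1 / 200) := by
        apply mul_le_mul hC1 (by linarith) hC0 (by positivity)
      have h8 : C * p ≤ Real.sinh κ ^ 2 / 2 * (1 / 20) := mul_le_mul hC1 hz20 hp0 (by positivity)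
      nlinarith [sq_nonneg p, sq_nonneg (Real.sinh κ)]
    have h9 : 3 / 5 * (bet e κ ^ 2 + z2) / e ≥ e * (3 / 5 * (Real.sinh κ ^ 2 + p ^ 2)) := by
      have h10 : p ^ 2 = ‖z‖ ^ 2 / e ^ 2 := by rw [hp, div_pow]
      have h11 : e * (3 / 5 * (Real.sinh κ ^ 2 + p ^ 2)) =
          3 / 5 * (bet e κ ^ 2 + ‖z‖ ^ 2) / e := by
        rw [h10]
        unfold bet
        field_simp
      rw [h11]
      gcongr
    calc e * ‖log (1 + ((C : ℂ) + z / (e : ℂ))) - ((C : ℂ) + z / (e : ℂ))‖ + e * C ≤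
          e * (53 / 100 * (C + p) ^ 2) + e * C := by gcongr
      _ = e * (53 / 100 * (C + p) ^ 2 + C) := by ring
      _ ≤ e * (3 / 5 * (Real.sinh κ ^ 2 + p ^ 2)) := by gcongr
      _ ≤ _ := h9
  -- |Pl - z| ≤ δ
  obtain ⟨δ, hδ⟩ : ∃ δ, δ = ls + 3 / 5 * (bet e κ ^ 2 + z2) / e := ⟨_, rfl⟩
  have hPl : ‖Pl e κ s - z‖ ≤ δ := by
    have h1 : Pl e κ s - z = (log (fT e κ s) - log (fT e κ (shf κ s))) +
        ((e : ℂ) * log (Qk κ s) - z) := by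
      unfold Pl
      ring
    rw [h1, hδ]
    exact (norm_add_le _ _).trans (add_le_add hls hL)
  rw [← hδ, qq_exp he0 hκ hs]
  have h1 : (1 : ℂ) + exp (-Pl e κ s) = (1 + exp (-z)) + exp (-z) * (exp (-(Pl e κ s - z)) - 1) := by
    have : exp (-z) * exp (-(Pl e κ s - z)) = exp (-Pl e κ s) := by
      rw [← exp_add]; congr 1; ring
    rw [mul_sub, this]
    ring
  have h2 : ‖exp (-(Pl e κ s - z)) - 1‖ ≤ Real.exp δ - 1 := by
    refine (nu_exp_sub_one _).trans ?_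
    rw [norm_neg]
    have := Real.exp_le_exp.2 hPl
    linarith
  have hδ1 : 0 ≤ Real.exp δ - 1 := (norm_nonneg _).trans h2
  have hE : ‖exp (-z)‖ ≤ 1 := by
    rw [norm_exp, neg_re, hzr]
    exact Real.exp_le_one_iff.2 (by linarith)
  have h3 : ‖exp (-z) * (exp (-(Pl e κ s - z)) - 1)‖ ≤ Real.exp δ - 1 := by
    rw [norm_mul]
    calc ‖exp (-z)‖ * ‖exp (-(Pl e κ s - z)) - 1‖ ≤ 1 * (Real.exp δ - 1) :=
          mul_le_mul hE h2 (norm_nonneg _) (by norm_num)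
      _ = _ := one_mul _
  -- |1 + e^(-z)|
  obtain ⟨E, hEd⟩ : ∃ E, E = Real.exp (-rz e κ s) := ⟨_, rfl⟩
  have hE0 : 0 < E := by rw [hEd]; exact Real.exp_pos _
  have hE1 : E ≤ 1 := by rw [hEd]; exact Real.exp_le_one_iff.2 (by linarith)
  have hE2 : 1 - E ≤ rz e κ s := by
    have := Real.add_one_le_exp (-rz e κ s)
    rw [hEd]; linarith
  have h4 : exp (-z) = (E : ℂ) * exp (((-(yz e κ s) : ℝ) : ℂ) * I) := by
    rw [hEd, Complex.ofReal_exp, ← exp_add]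
    congr 1
    apply Complex.ext
    · simp [hzr]
    · simp [hzi]
  have h5 : (1 : ℂ) + exp (((-(yz e κ s) : ℝ) : ℂ) * I) =
      ((2 * Real.cos (yz e κ s / 2) : ℝ) : ℂ) * exp (((-(yz e κ s) / 2 : ℝ) : ℂ) * I) := by
    apply Complex.ext
    · rw [add_re, one_re, exp_ofReal_mul_I_re, re_ofReal_mul, exp_ofReal_mul_I_re, Real.cos_neg,
        neg_div, Real.cos_neg]
      have h6 : yz e κ s = 2 * (yz e κ s / 2) := by ring
      have h7 : Real.cos (yz e κ s) = 2 * Real.cos (yz e κ s / 2) ^ 2 - 1 := by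
        conv_lhs => rw [h6]
        exact Real.cos_two_mul _
      rw [h7]; ring
    · rw [add_im, one_im, exp_ofReal_mul_I_im, im_ofReal_mul, exp_ofReal_mul_I_im, Real.sin_neg,
        neg_div, Real.sin_neg]
      have h6 : yz e κ s = 2 * (yz e κ s / 2) := by ring
      have h7 : Real.sin (yz e κ s) = 2 * Real.sin (yz e κ s / 2) * Real.cos (yz e κ s / 2) := by
        conv_lhs => rw [h6]
        exact Real.sin_two_mul _
      rw [h7]; ring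
  have h6 : ‖(1 : ℂ) + exp (((-(yz e κ s) : ℝ) : ℂ) * I)‖ = 2 * |Real.cos (yz e κ s / 2)| := by
    rw [h5, norm_mul, Complex.norm_real, norm_exp_ofReal_mul_I, mul_one, Real.norm_eq_abs, abs_mul,
      abs_two]
  have h7 : ‖(1 : ℂ) + exp (-z)‖ ≤ 2 * |Real.cos (yz e κ s / 2)| + rz e κ s := by
    have h8 : (1 : ℂ) + exp (-z) = ((1 - E : ℝ) : ℂ) +
        (E : ℂ) * (1 + exp (((-(yz e κ s) : ℝ) : ℂ) * I)) := by
      rw [h4]; push_cast; ring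
    rw [h8]
    refine (norm_add_le _ _).trans ?_
    rw [norm_mul, h6, Complex.norm_real, Complex.norm_real, Real.norm_of_nonneg hE0.le,
      Real.norm_of_nonneg (by linarith : 0 ≤ 1 - E)]
    have h9 : E * (2 * |Real.cos (yz e κ s / 2)|) ≤ 1 * (2 * |Real.cos (yz e κ s / 2)|) := by
      gcongr
    linarith
  rw [h1]
  refine (norm_add_le _ _).trans ?_
  linarith

/-- `cos x ≤ 1 - x²/2 + x⁴/24` and, for `y` beyond `π`, `-cos` is small -/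
theorem cos_half_le {y : ℝ} (hy : |y| ≤ 7 / 2) :
    2 * |Real.cos (y / 2)| ≤ 2 - y ^ 2 / 4 + y ^ 4 / 192 + 2 / 10 ^ 7 * y ^ 12 := by

  obtain ⟨u, hu⟩ : ∃ u, u = y ^ 2 := ⟨_, rfl⟩
  have hu0 : 0 ≤ u := by rw [hu]; positivity
  obtain ⟨x, hx⟩ : ∃ x, x = |y| / 2 := ⟨_, rfl⟩
  have hx0 : 0 ≤ x := by rw [hx]; positivity
  have hxu : x ^ 2 = u / 4 := by rw [hx, div_pow, sq_abs, hu]; ring
  have hc : Real.cos (y / 2) = Real.cos x := by
    rw [hx, ← Real.cos_abs (y / 2), abs_div, abs_two]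
  have h1 := nu_cos4 hx0
  have h2 := nu_cos6 hx0
  have e4 : x ^ 4 = u ^ 2 / 16 := by
    calc x ^ 4 = (x ^ 2) ^ 2 := by ring
      _ = _ := by rw [hxu]; ring
  have e6 : x ^ 6 = u ^ 3 / 64 := by
    calc x ^ 6 = (x ^ 2) ^ 3 := by ring
      _ = _ := by rw [hxu]; ring
  rw [hxu, e4] at h1
  rw [hxu, e4, e6] at h2
  have f4 : y ^ 4 = u ^ 2 := by rw [hu]; ring
  have f12 : y ^ 12 = (u ^ 3) ^ 2 := by rw [hu]; ring
  rw [hc, ← hu, f4, f12]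
  have hu6 : 0 ≤ (u ^ 3) ^ 2 := sq_nonneg _
  have hkey : 0 ≤ 4 - u / 2 + u ^ 2 / 96 - u ^ 3 / 23040 + 2 / 10 ^ 7 * (u ^ 3) ^ 2 := by
    have k1 : 0 ≤ (u + 40) * (u - 1177 / 100) ^ 2 := by positivity
    have k2 : 0 ≤ (u ^ 3 - 1640) ^ 2 := sq_nonneg _
    nlinarith
  rcases abs_cases (Real.cos x) with ⟨h3, _⟩ | ⟨h3, _⟩
  · rw [h3]; linarith
  · rw [h3]; linarith

end Pool.Agent.helper31.EQB
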