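import Pool.Agent.helper31.EQB.Cert.LA0All
import Pool.Agent.helper31.EQB.Cert.LA1All
import Pool.Agent.helper31.EQB.Cert.LA2All
import Pool.Agent.helper31.EQB.Cert.LA3All
import Pool.Agent.helper31.EQB.Cert.LA4All
import Pool.Agent.helper31.EQB.Cert.MAAll
import Pool.Agent.helper71.FF.Real
import Pool.Agent.helper31.EQB.Cst
import Pool.Agent.helper31.EQB.Ib

/-!
Generated: covers.
-/

namespace Pool.Agent.helper31.EQB

open Complex ComplexConjugate Set Filter Topology
open Pool.Agent.helper31.EQ.Y Pool.Agent.helper31.EQ.R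
open Pool.Agent.helper12.EQL Pool.Agent.helper12.RP Pool.Agent.helper12.FF Pool.Agent.helper12.RS
open Pool.Agent.helper63.FF
open Pool.Agent.helper71.FF (RAs zv ras_of_cov)
open Pool.Agent.helper31.IA (Z Op)

theorem cov_LA0 {sg s k : ℝ} (l0 : 0 ≤ sg) (u0 : sg ≤ 28 / 625) (l1 : 0 ≤ s) (u1 : s ≤ 6) (l2 : 0 ≤ k) (u2 : k ≤ 1) :
    ∃ ops ∈ Cert.LA0.progs, RAs ops [sg, s, k] := by
  rcases le_total s (3 / 2) with h1_0 | h1_0
  · rcases le_total k (1 / 2) with h2_0 | h2_0
    · exact ras_of_cov (by decide +kernel) Cert.LA0.c0_all (List.Forall₂.cons (ib (by norm_num) (by norm_num) l0 u0) (List.Forall₂.cons (ib (by norm_num) (by norm_num) l1 h1_0) (List.Forall₂.cons (ib (by norm_num) (by norm_num) l2 h2_0) List.Forall₂.nil)))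
    · exact ras_of_cov (by decide +kernel) Cert.LA0.c1_all (List.Forall₂.cons (ib (by norm_num) (by norm_num) l0 u0) (List.Forall₂.cons (ib (by norm_num) (by norm_num) l1 h1_0) (List.Forall₂.cons (ib (by norm_num) (by norm_num) h2_0 u2) List.Forall₂.nil)))
  · rcases le_total s (3) with h1_1 | h1_1
    · rcases le_total k (1 / 2) with h2_0 | h2_0
      · exact ras_of_cov (by decide +kernel) Cert.LA0.c2_all (List.Forall₂.cons (ib (by norm_num) (by norm_num) l0 u0) (List.Forall₂.cons (ib (by norm_num) (by norm_num) h1_0 h1_1) (List.Forall₂.cons (ib (by norm_num) (by norm_num) l2 h2_0) List.Forall₂.nil)))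
      · exact ras_of_cov (by decide +kernel) Cert.LA0.c3_all (List.Forall₂.cons (ib (by norm_num) (by norm_num) l0 u0) (List.Forall₂.cons (ib (by norm_num) (by norm_num) h1_0 h1_1) (List.Forall₂.cons (ib (by norm_num) (by norm_num) h2_0 u2) List.Forall₂.nil)))
    · rcases le_total s (9 / 2) with h1_2 | h1_2
      · rcases le_total k (1 / 2) with h2_0 | h2_0
        · exact ras_of_cov (by decide +kernel) Cert.LA0.c4_all (List.Forall₂.cons (ib (by norm_num) (by norm_num) l0 u0) (List.Forall₂.cons (ib (by norm_num) (by norm_num) h1_1 h1_2) (List.Forall₂.cons (ib (by norm_num) (by norm_num) l2 h2_0) List.Forall₂.nil)))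
        · exact ras_of_cov (by decide +kernel) Cert.LA0.c5_all (List.Forall₂.cons (ib (by norm_num) (by norm_num) l0 u0) (List.Forall₂.cons (ib (by norm_num) (by norm_num) h1_1 h1_2) (List.Forall₂.cons (ib (by norm_num) (by norm_num) h2_0 u2) List.Forall₂.nil)))
      · rcases le_total k (1 / 2) with h2_0 | h2_0
        · exact ras_of_cov (by decide +kernel) Cert.LA0.c6_all (List.Forall₂.cons (ib (by norm_num) (by norm_num) l0 u0) (List.Forall₂.cons (ib (by norm_num) (by norm_num) h1_2 u1) (List.Forall₂.cons (ib (by norm_num) (by norm_num) l2 h2_0) List.Forall₂.nil)))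
        · exact ras_of_cov (by decide +kernel) Cert.LA0.c7_all (List.Forall₂.cons (ib (by norm_num) (by norm_num) l0 u0) (List.Forall₂.cons (ib (by norm_num) (by norm_num) h1_2 u1) (List.Forall₂.cons (ib (by norm_num) (by norm_num) h2_0 u2) List.Forall₂.nil)))

theorem cov_LA1 {sg s k : ℝ} (l0 : 0 ≤ sg) (u0 : sg ≤ 28 / 625) (l1 : 0 ≤ s) (u1 : s ≤ 6) (l2 : 0 ≤ k) (u2 : k ≤ 1) :
    ∃ ops ∈ Cert.LA1.progs, RAs ops [sg, s, k] := by
  rcases le_total s (3 / 2) with h1_0 | h1_0
  · rcases le_total k (1 / 2) with h2_0 | h2_0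
    · exact ras_of_cov (by decide +kernel) Cert.LA1.c0_all (List.Forall₂.cons (ib (by norm_num) (by norm_num) l0 u0) (List.Forall₂.cons (ib (by norm_num) (by norm_num) l1 h1_0) (List.Forall₂.cons (ib (by norm_num) (by norm_num) l2 h2_0) List.Forall₂.nil)))
    · exact ras_of_cov (by decide +kernel) Cert.LA1.c1_all (List.Forall₂.cons (ib (by norm_num) (by norm_num) l0 u0) (List.Forall₂.cons (ib (by norm_num) (by norm_num) l1 h1_0) (List.Forall₂.cons (ib (by norm_num) (by norm_num) h2_0 u2) List.Forall₂.nil)))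
  · rcases le_total s (3) with h1_1 | h1_1
    · rcases le_total k (1 / 2) with h2_0 | h2_0
      · exact ras_of_cov (by decide +kernel) Cert.LA1.c2_all (List.Forall₂.cons (ib (by norm_num) (by norm_num) l0 u0) (List.Forall₂.cons (ib (by norm_num) (by norm_num) h1_0 h1_1) (List.Forall₂.cons (ib (by norm_num) (by norm_num) l2 h2_0) List.Forall₂.nil)))
      · exact ras_of_cov (by decide +kernel) Cert.LA1.c3_all (List.Forall₂.cons (ib (by norm_num) (by norm_num) l0 u0) (List.Forall₂.cons (ib (by norm_num) (by norm_num) h1_0 h1_1) (List.Forall₂.cons (ib (by norm_num) (by norm_num) h2_0 u2) List.Forall₂.nil)))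
    · rcases le_total s (9 / 2) with h1_2 | h1_2
      · rcases le_total k (1 / 2) with h2_0 | h2_0
        · exact ras_of_cov (by decide +kernel) Cert.LA1.c4_all (List.Forall₂.cons (ib (by norm_num) (by norm_num) l0 u0) (List.Forall₂.cons (ib (by norm_num) (by norm_num) h1_1 h1_2) (List.Forall₂.cons (ib (by norm_num) (by norm_num) l2 h2_0) List.Forall₂.nil)))
        · exact ras_of_cov (by decide +kernel) Cert.LA1.c5_all (List.Forall₂.cons (ib (by norm_num) (by norm_num) l0 u0) (List.Forall₂.cons (ib (by norm_num) (by norm_num) h1_1 h1_2) (List.Forall₂.cons (ib (by norm_num) (by norm_num) h2_0 u2) List.Forall₂.nil)))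
      · rcases le_total k (1 / 2) with h2_0 | h2_0
        · exact ras_of_cov (by decide +kernel) Cert.LA1.c6_all (List.Forall₂.cons (ib (by norm_num) (by norm_num) l0 u0) (List.Forall₂.cons (ib (by norm_num) (by norm_num) h1_2 u1) (List.Forall₂.cons (ib (by norm_num) (by norm_num) l2 h2_0) List.Forall₂.nil)))
        · exact ras_of_cov (by decide +kernel) Cert.LA1.c7_all (List.Forall₂.cons (ib (by norm_num) (by norm_num) l0 u0) (List.Forall₂.cons (ib (by norm_num) (by norm_num) h1_2 u1) (List.Forall₂.cons (ib (by norm_num) (by norm_num) h2_0 u2) List.Forall₂.nil)))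

theorem cov_LA2 {sg s k : ℝ} (l0 : 0 ≤ sg) (u0 : sg ≤ 28 / 625) (l1 : 0 ≤ s) (u1 : s ≤ 6) (l2 : 0 ≤ k) (u2 : k ≤ 1) :
    ∃ ops ∈ Cert.LA2.progs, RAs ops [sg, s, k] := by
  rcases le_total s (3 / 2) with h1_0 | h1_0
  · rcases le_total k (1 / 2) with h2_0 | h2_0
    · exact ras_of_cov (by decide +kernel) Cert.LA2.c0_all (List.Forall₂.cons (ib (by norm_num) (by norm_num) l0 u0) (List.Forall₂.cons (ib (by norm_num) (by norm_num) l1 h1_0) (List.Forall₂.cons (ib (by norm_num) (by norm_num) l2 h2_0) List.Forall₂.nil)))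
    · exact ras_of_cov (by decide +kernel) Cert.LA2.c1_all (List.Forall₂.cons (ib (by norm_num) (by norm_num) l0 u0) (List.Forall₂.cons (ib (by norm_num) (by norm_num) l1 h1_0) (List.Forall₂.cons (ib (by norm_num) (by norm_num) h2_0 u2) List.Forall₂.nil)))
  · rcases le_total s (3) with h1_1 | h1_1
    · rcases le_total k (1 / 2) with h2_0 | h2_0
      · exact ras_of_cov (by decide +kernel) Cert.LA2.c2_all (List.Forall₂.cons (ib (by norm_num) (by norm_num) l0 u0) (List.Forall₂.cons (ib (by norm_num) (by norm_num) h1_0 h1_1) (List.Forall₂.cons (ib (by norm_num) (by norm_num) l2 h2_0) List.Forall₂.nil)))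
      · exact ras_of_cov (by decide +kernel) Cert.LA2.c3_all (List.Forall₂.cons (ib (by norm_num) (by norm_num) l0 u0) (List.Forall₂.cons (ib (by norm_num) (by norm_num) h1_0 h1_1) (List.Forall₂.cons (ib (by norm_num) (by norm_num) h2_0 u2) List.Forall₂.nil)))
    · rcases le_total s (9 / 2) with h1_2 | h1_2
      · rcases le_total k (1 / 2) with h2_0 | h2_0
        · exact ras_of_cov (by decide +kernel) Cert.LA2.c4_all (List.Forall₂.cons (ib (by norm_num) (by norm_num) l0 u0) (List.Forall₂.cons (ib (by norm_num) (by norm_num) h1_1 h1_2) (List.Forall₂.cons (ib (by norm_num) (by norm_num) l2 h2_0) List.Forall₂.nil)))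
        · exact ras_of_cov (by decide +kernel) Cert.LA2.c5_all (List.Forall₂.cons (ib (by norm_num) (by norm_num) l0 u0) (List.Forall₂.cons (ib (by norm_num) (by norm_num) h1_1 h1_2) (List.Forall₂.cons (ib (by norm_num) (by norm_num) h2_0 u2) List.Forall₂.nil)))
      · rcases le_total k (1 / 2) with h2_0 | h2_0
        · exact ras_of_cov (by decide +kernel) Cert.LA2.c6_all (List.Forall₂.cons (ib (by norm_num) (by norm_num) l0 u0) (List.Forall₂.cons (ib (by norm_num) (by norm_num) h1_2 u1) (List.Forall₂.cons (ib (by norm_num) (by norm_num) l2 h2_0) List.Forall₂.nil)))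
        · exact ras_of_cov (by decide +kernel) Cert.LA2.c7_all (List.Forall₂.cons (ib (by norm_num) (by norm_num) l0 u0) (List.Forall₂.cons (ib (by norm_num) (by norm_num) h1_2 u1) (List.Forall₂.cons (ib (by norm_num) (by norm_num) h2_0 u2) List.Forall₂.nil)))

theorem cov_LA3 {sg s k : ℝ} (l0 : 0 ≤ sg) (u0 : sg ≤ 28 / 625) (l1 : 0 ≤ s) (u1 : s ≤ 6) (l2 : 0 ≤ k) (u2 : k ≤ 1) :
    ∃ ops ∈ Cert.LA3.progs, RAs ops [sg, s, k] := by
  rcases le_total s (3 / 2) with h1_0 | h1_0
  · rcases le_total k (1 / 2) with h2_0 | h2_0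
    · exact ras_of_cov (by decide +kernel) Cert.LA3.c0_all (List.Forall₂.cons (ib (by norm_num) (by norm_num) l0 u0) (List.Forall₂.cons (ib (by norm_num) (by norm_num) l1 h1_0) (List.Forall₂.cons (ib (by norm_num) (by norm_num) l2 h2_0) List.Forall₂.nil)))
    · exact ras_of_cov (by decide +kernel) Cert.LA3.c1_all (List.Forall₂.cons (ib (by norm_num) (by norm_num) l0 u0) (List.Forall₂.cons (ib (by norm_num) (by norm_num) l1 h1_0) (List.Forall₂.cons (ib (by norm_num) (by norm_num) h2_0 u2) List.Forall₂.nil)))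
  · rcases le_total s (3) with h1_1 | h1_1
    · rcases le_total k (1 / 2) with h2_0 | h2_0
      · exact ras_of_cov (by decide +kernel) Cert.LA3.c2_all (List.Forall₂.cons (ib (by norm_num) (by norm_num) l0 u0) (List.Forall₂.cons (ib (by norm_num) (by norm_num) h1_0 h1_1) (List.Forall₂.cons (ib (by norm_num) (by norm_num) l2 h2_0) List.Forall₂.nil)))
      · exact ras_of_cov (by decide +kernel) Cert.LA3.c3_all (List.Forall₂.cons (ib (by norm_num) (by norm_num) l0 u0) (List.Forall₂.cons (ib (by norm_num) (by norm_num) h1_0 h1_1) (List.Forall₂.cons (ib (by norm_num) (by norm_num) h2_0 u2) List.Forall₂.nil)))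
    · rcases le_total s (9 / 2) with h1_2 | h1_2
      · rcases le_total k (1 / 2) with h2_0 | h2_0
        · exact ras_of_cov (by decide +kernel) Cert.LA3.c4_all (List.Forall₂.cons (ib (by norm_num) (by norm_num) l0 u0) (List.Forall₂.cons (ib (by norm_num) (by norm_num) h1_1 h1_2) (List.Forall₂.cons (ib (by norm_num) (by norm_num) l2 h2_0) List.Forall₂.nil)))
        · exact ras_of_cov (by decide +kernel) Cert.LA3.c5_all (List.Forall₂.cons (ib (by norm_num) (by norm_num) l0 u0) (List.Forall₂.cons (ib (by norm_num) (by norm_num) h1_1 h1_2) (List.Forall₂.cons (ib (by norm_num) (by norm_num) h2_0 u2) List.Forall₂.nil)))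
      · rcases le_total k (1 / 2) with h2_0 | h2_0
        · exact ras_of_cov (by decide +kernel) Cert.LA3.c6_all (List.Forall₂.cons (ib (by norm_num) (by norm_num) l0 u0) (List.Forall₂.cons (ib (by norm_num) (by norm_num) h1_2 u1) (List.Forall₂.cons (ib (by norm_num) (by norm_num) l2 h2_0) List.Forall₂.nil)))
        · exact ras_of_cov (by decide +kernel) Cert.LA3.c7_all (List.Forall₂.cons (ib (by norm_num) (by norm_num) l0 u0) (List.Forall₂.cons (ib (by norm_num) (by norm_num) h1_2 u1) (List.Forall₂.cons (ib (by norm_num) (by norm_num) h2_0 u2) List.Forall₂.nil)))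

theorem cov_LA4 {sg s k : ℝ} (l0 : 0 ≤ sg) (u0 : sg ≤ 28 / 625) (l1 : 0 ≤ s) (u1 : s ≤ 6) (l2 : 0 ≤ k) (u2 : k ≤ 1) :
    ∃ ops ∈ Cert.LA4.progs, RAs ops [sg, s, k] := by
  rcases le_total s (3 / 2) with h1_0 | h1_0
  · rcases le_total k (1 / 2) with h2_0 | h2_0
    · exact ras_of_cov (by decide +kernel) Cert.LA4.c0_all (List.Forall₂.cons (ib (by norm_num) (by norm_num) l0 u0) (List.Forall₂.cons (ib (by norm_num) (by norm_num) l1 h1_0) (List.Forall₂.cons (ib (by norm_num) (by norm_num) l2 h2_0) List.Forall₂.nil)))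
    · exact ras_of_cov (by decide +kernel) Cert.LA4.c1_all (List.Forall₂.cons (ib (by norm_num) (by norm_num) l0 u0) (List.Forall₂.cons (ib (by norm_num) (by norm_num) l1 h1_0) (List.Forall₂.cons (ib (by norm_num) (by norm_num) h2_0 u2) List.Forall₂.nil)))
  · rcases le_total s (3) with h1_1 | h1_1
    · rcases le_total k (1 / 2) with h2_0 | h2_0
      · exact ras_of_cov (by decide +kernel) Cert.LA4.c2_all (List.Forall₂.cons (ib (by norm_num) (by norm_num) l0 u0) (List.Forall₂.cons (ib (by norm_num) (by norm_num) h1_0 h1_1) (List.Forall₂.cons (ib (by norm_num) (by norm_num) l2 h2_0) List.Forall₂.nil)))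
      · exact ras_of_cov (by decide +kernel) Cert.LA4.c3_all (List.Forall₂.cons (ib (by norm_num) (by norm_num) l0 u0) (List.Forall₂.cons (ib (by norm_num) (by norm_num) h1_0 h1_1) (List.Forall₂.cons (ib (by norm_num) (by norm_num) h2_0 u2) List.Forall₂.nil)))
    · rcases le_total s (9 / 2) with h1_2 | h1_2
      · rcases le_total k (1 / 2) with h2_0 | h2_0
        · exact ras_of_cov (by decide +kernel) Cert.LA4.c4_all (List.Forall₂.cons (ib (by norm_num) (by norm_num) l0 u0) (List.Forall₂.cons (ib (by norm_num) (by norm_num) h1_1 h1_2) (List.Forall₂.cons (ib (by norm_num) (by norm_num) l2 h2_0) List.Forall₂.nil)))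
        · exact ras_of_cov (by decide +kernel) Cert.LA4.c5_all (List.Forall₂.cons (ib (by norm_num) (by norm_num) l0 u0) (List.Forall₂.cons (ib (by norm_num) (by norm_num) h1_1 h1_2) (List.Forall₂.cons (ib (by norm_num) (by norm_num) h2_0 u2) List.Forall₂.nil)))
      · rcases le_total k (1 / 2) with h2_0 | h2_0
        · exact ras_of_cov (by decide +kernel) Cert.LA4.c6_all (List.Forall₂.cons (ib (by norm_num) (by norm_num) l0 u0) (List.Forall₂.cons (ib (by norm_num) (by norm_num) h1_2 u1) (List.Forall₂.cons (ib (by norm_num) (by norm_num) l2 h2_0) List.Forall₂.nil)))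
        · exact ras_of_cov (by decide +kernel) Cert.LA4.c7_all (List.Forall₂.cons (ib (by norm_num) (by norm_num) l0 u0) (List.Forall₂.cons (ib (by norm_num) (by norm_num) h1_2 u1) (List.Forall₂.cons (ib (by norm_num) (by norm_num) h2_0 u2) List.Forall₂.nil)))

theorem cov_MA {sg : ℝ} (l0 : 0 ≤ sg) (u0 : sg ≤ 28 / 625) :
    ∃ ops ∈ Cert.MA.progs, RAs ops [sg] := by
  exact ras_of_cov (by decide +kernel) Cert.MA.c0_all (List.Forall₂.cons (ib (by norm_num) (by norm_num) l0 u0) List.Forall₂.nil)

end Pool.Agent.helper31.EQB
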