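import Pool.Agent.helper31.EQB.Cst
import Pool.Agent.helper31.EQB.Cert.LA1P
import Pool.Agent.helper71.FF.Real

/-!
Generated: meaning of the programs.
-/

namespace Pool.Agent.helper31.EQB

open Pool.Agent.helper71.FF (RAs zv)
open Pool.Agent.helper31.IA (Z Op)

set_option maxRecDepth 100000

private theorem zc_900726784_0 : (859 / 1048576 : ℝ) = zv 900726784 0 := by unfold zv; norm_num

private theorem zc_5496635392_0 : (2621 / 524288 : ℝ) = zv 5496635392 0 := by unfold zv; norm_num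

private theorem zc_5497683968_0 : (5243 / 1048576 : ℝ) = zv 5497683968 0 := by unfold zv; norm_num

private theorem zc_5727322112_0 : (2731 / 524288 : ℝ) = zv 5727322112 0 := by unfold zv; norm_num

private theorem zc_10994319360_0 : (10485 / 1048576 : ℝ) = zv 10994319360 0 := by unfold zv; norm_num

private theorem zc_11005853696_0 : (41 / 4096 : ℝ) = zv 11005853696 0 := by unfold zv; norm_num

private theorem zc_21989687296_0 : (20971 / 1048576 : ℝ) = zv 21989687296 0 := by unfold zv; norm_num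

private theorem zc_81067507712_0 : (151 / 2048 : ℝ) = zv 81067507712 0 := by unfold zv; norm_num

private theorem zc_91626668032_0 : (43691 / 524288 : ℝ) = zv 91626668032 0 := by unfold zv; norm_num

private theorem zc_94622449664_0 : (90239 / 1048576 : ℝ) = zv 94622449664 0 := by unfold zv; norm_num

private theorem zc_94623498240_0 : (705 / 8192 : ℝ) = zv 94623498240 0 := by unfold zv; norm_num

private theorem zc_97184055296_0 : (1482911 / 16777216 : ℝ) = zv 97184055296 0 := by unfold zv; norm_num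

private theorem zc_109950533632_0 : (104857 / 1048576 : ℝ) = zv 109950533632 0 := by unfold zv; norm_num

private theorem zc_209362878464_0 : (12479 / 65536 : ℝ) = zv 209362878464 0 := by unfold zv; norm_num

private theorem zc_274877906944_0 : (1 / 4 : ℝ) = zv 274877906944 0 := by unfold zv; norm_num

private theorem zc_549755813888_0 : (1 / 2 : ℝ) = zv 549755813888 0 := by unfold zv; norm_num

private theorem zc_659707396096_0 : (314573 / 524288 : ℝ) = zv 659707396096 0 := by unfold zv; norm_num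

private theorem zc_989560045568_0 : (471859 / 524288 : ℝ) = zv 989560045568 0 := by unfold zv; norm_num

private theorem zc_1077499920384_0 : (2007 / 2048 : ℝ) = zv 1077499920384 0 := by unfold zv; norm_num

private theorem zc_1097093611520_0 : (523135 / 524288 : ℝ) = zv 1097093611520 0 := by unfold zv; norm_num

private theorem zc_1097095708672_0 : (4087 / 4096 : ℝ) = zv 1097095708672 0 := by unfold zv; norm_num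

private theorem zc_1099243192320_0 : (4095 / 4096 : ℝ) = zv 1099243192320 0 := by unfold zv; norm_num

private theorem zc_1099511627776_0 : (1 : ℝ) = zv 1099511627776 0 := by unfold zv; norm_num

private theorem zc_1108101562368_0 : (129 / 128 : ℝ) = zv 1108101562368 0 := by unfold zv; norm_num

private theorem zc_1116004679680_0 : (1064305 / 1048576 : ℝ) = zv 1116004679680 0 := by unfold zv; norm_num

private theorem zc_1142192865280_0 : (4255 / 4096 : ℝ) = zv 1142192865280 0 := by unfold zv; norm_num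

private theorem zc_1202590842880_0 : (35 / 32 : ℝ) = zv 1202590842880 0 := by unfold zv; norm_num

private theorem zc_1554944884736_0 : (1482911 / 1048576 : ℝ) = zv 1554944884736 0 := by unfold zv; norm_num

private theorem zc_1556388773888_0 : (2899 / 2048 : ℝ) = zv 1556388773888 0 := by unfold zv; norm_num

private theorem zc_1586767069184_0 : (1513259 / 1048576 : ℝ) = zv 1586767069184 0 := by unfold zv; norm_num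

private theorem zc_1632087572480_0 : (95 / 64 : ℝ) = zv 1632087572480 0 := by unfold zv; norm_num

private theorem zc_1649267441664_0 : (3 / 2 : ℝ) = zv 1649267441664 0 := by unfold zv; norm_num

private theorem zc_1869170606080_0 : (445645 / 262144 : ℝ) = zv 1869170606080 0 := by unfold zv; norm_num

private theorem zc_2036870414336_0 : (1942511 / 1048576 : ℝ) = zv 2036870414336 0 := by unfold zv; norm_num

private theorem zc_2085944819712_0 : (31083 / 16384 : ℝ) = zv 2085944819712 0 := by unfold zv; norm_num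

private theorem zc_2199023255552_0 : (2 : ℝ) = zv 2199023255552 0 := by unfold zv; norm_num

private theorem zc_2253999046656_0 : (2149581 / 1048576 : ℝ) = zv 2253999046656 0 := by unfold zv; norm_num

private theorem zc_2418926419968_0 : (576717 / 262144 : ℝ) = zv 2418926419968 0 := by unfold zv; norm_num

private theorem zc_2440883601408_0 : (9093 / 4096 : ℝ) = zv 2440883601408 0 := by unfold zv; norm_num

private theorem zc_2748779069440_0 : (5 / 2 : ℝ) = zv 2748779069440 0 := by unfold zv; norm_num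

private theorem zc_2978810429440_0 : (2840815 / 1048576 : ℝ) = zv 2978810429440 0 := by unfold zv; norm_num

private theorem zc_3111703805952_0 : (1449 / 512 : ℝ) = zv 3111703805952 0 := by unfold zv; norm_num

private theorem zc_3161095929856_0 : (23 / 8 : ℝ) = zv 3161095929856 0 := by unfold zv; norm_num

private theorem zc_3298534883328_0 : (3 : ℝ) = zv 3298534883328 0 := by unfold zv; norm_num

private theorem zc_3968549781504_0 : (231 / 64 : ℝ) = zv 3968549781504 0 := by unfold zv; norm_num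

private theorem zc_4354023096320_0 : (4055 / 1024 : ℝ) = zv 4354023096320 0 := by unfold zv; norm_num

private theorem zc_4398046511104_0 : (4 : ℝ) = zv 4398046511104 0 := by unfold zv; norm_num

private theorem zc_4574677041152_0 : (8521 / 2048 : ℝ) = zv 4574677041152 0 := by unfold zv; norm_num

private theorem zc_4804994662400_0 : (4475 / 1024 : ℝ) = zv 4804994662400 0 := by unfold zv; norm_num

private theorem zc_4913442586624_0 : (143 / 32 : ℝ) = zv 4913442586624 0 := by unfold zv; norm_num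

private theorem zc_4947802324992_0 : (9 / 2 : ℝ) = zv 4947802324992 0 := by unfold zv; norm_num

private theorem zc_5498217693184_0 : (5243509 / 1048576 : ℝ) = zv 5498217693184 0 := by unfold zv; norm_num

private theorem zc_5498631880704_0 : (5121 / 1024 : ℝ) = zv 5498631880704 0 := by unfold zv; norm_num

private theorem zc_5516617056256_0 : (20551 / 4096 : ℝ) = zv 5516617056256 0 := by unfold zv; norm_num

private theorem zc_5531917877248_0 : (161 / 32 : ℝ) = zv 5531917877248 0 := by unfold zv; norm_num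

private theorem zc_5904506290176_0 : (5499 / 1024 : ℝ) = zv 5904506290176 0 := by unfold zv; norm_num

private theorem zc_6280315928576_0 : (5849 / 1024 : ℝ) = zv 6280315928576 0 := by unfold zv; norm_num

private theorem zc_6579889897472_0 : (383 / 64 : ℝ) = zv 6579889897472 0 := by unfold zv; norm_num

private theorem zc_6816918405120_0 : (25395 / 4096 : ℝ) = zv 6816918405120 0 := by unfold zv; norm_num

private theorem zc_7375532589056_0 : (6869 / 1024 : ℝ) = zv 7375532589056 0 := by unfold zv; norm_num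

private theorem zc_8418135900160_0 : (245 / 32 : ℝ) = zv 8418135900160 0 := by unfold zv; norm_num

private theorem zc_8796093022208_0 : (8 : ℝ) = zv 8796093022208 0 := by unfold zv; norm_num

private theorem zc_10115506765824_0 : (9646899 / 1048576 : ℝ) = zv 10115506765824 0 := by unfold zv; norm_num

private theorem zc_11330929033216_0 : (42211 / 4096 : ℝ) = zv 11330929033216 0 := by unfold zv; norm_num

private theorem zc_14761265725440_0 : (27495 / 2048 : ℝ) = zv 14761265725440 0 := by unfold zv; norm_num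

private theorem zc_26388279066624_0 : (24 : ℝ) = zv 26388279066624 0 := by unfold zv; norm_num

private theorem zc_31708132933632_0 : (59061 / 2048 : ℝ) = zv 31708132933632 0 := by unfold zv; norm_num

private theorem zc_32985348833280_0 : (30 : ℝ) = zv 32985348833280 0 := by unfold zv; norm_num

theorem ex_LA1_q {sg s k : ℝ} (h : RAs Cert.LA1.prog0 [sg, s, k]) :
    ∃ wMo EM EMs : ℝ, ∃ P : PLA (cA 1) sg s k wMo EM EMs, Nonempty (PLAq P) := by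
  obtain ⟨ie, e_ie⟩ : ∃ zz : ℝ, zz = sg * sg := ⟨_, rfl⟩
  obtain ⟨be, e_be⟩ : ∃ zz : ℝ, zz = k * s := ⟨_, rfl⟩
  obtain ⟨k2, e_k2⟩ : ∃ zz : ℝ, zz = k * k := ⟨_, rfl⟩
  obtain ⟨w, e_w⟩ : ∃ zz : ℝ, zz = sg * s := ⟨_, rfl⟩
  obtain ⟨W, e_W⟩ : ∃ zz : ℝ, zz = w * w := ⟨_, rfl⟩
  obtain ⟨wse, e_wse⟩ : ∃ zz : ℝ, zz = w * sg := ⟨_, rfl⟩
  obtain ⟨y2, e_y2⟩ : ∃ zz : ℝ, zz = s * s * ((-k2) + (1 : ℝ)) := ⟨_, rfl⟩
  obtain ⟨Wie, e_Wie⟩ : ∃ zz : ℝ, zz = W * ie := ⟨_, rfl⟩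
  obtain ⟨q, e_q⟩ : ∃ zz : ℝ, zz = (4095 / 4096 : ℝ) - (1449 / 512) * sg - 30 * ie := ⟨_, rfl⟩
  obtain ⟨sp, e_sp⟩ : ∃ zz : ℝ, zz = (4095 / 4096 : ℝ) - (2899 / 2048) * sg - 24 * ie := ⟨_, rfl⟩
  obtain ⟨q2, e_q2⟩ : ∃ zz : ℝ, zz = q - 8 * ie - (27495 / 2048) * Wie := ⟨_, rfl⟩
  obtain ⟨R2, e_R2⟩ : ∃ zz : ℝ, zz = (8521 / 2048) * ((8521 / 2048) * Wie) := ⟨_, rfl⟩
  obtain ⟨V1, e_V1⟩ : ∃ zz : ℝ, zz = R2 + (1 : ℝ) := ⟨_, rfl⟩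
  obtain ⟨u, e_u⟩ : ∃ zz : ℝ, zz = Real.exp (-(q2 * ((31083 / 16384) * W))) := ⟨_, rfl⟩
  obtain ⟨bno, e_bno⟩ : ∃ zz : ℝ, zz = (523135 / 524288) * sp := ⟨_, rfl⟩
  obtain ⟨wso, e_wso⟩ : ∃ zz : ℝ, zz = bno * w := ⟨_, rfl⟩
  obtain ⟨bo, e_bo⟩ : ∃ zz : ℝ, zz = bno * ((1 / 2) * wso + ((1482911 / 16777216) * (wso * wso) + (1482911 / 1048576 : ℝ)))⁻¹ := ⟨_, rfl⟩
  obtain ⟨ibo, e_ibo⟩ : ∃ zz : ℝ, zz = (bo + (1513259 / 1048576) * (q * w))⁻¹ := ⟨_, rfl⟩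
  obtain ⟨wMo, e_wMo⟩ : ∃ zz : ℝ, zz = u * (w + ibo) := ⟨_, rfl⟩
  obtain ⟨ls, e_ls⟩ : ∃ zz : ℝ, zz = w * V1 * wMo := ⟨_, rfl⟩
  obtain ⟨D2, e_D2⟩ : ∃ zz : ℝ, zz = V1 - 2 * ((31083 / 16384) * (k * wse)) := ⟨_, rfl⟩
  obtain ⟨DP, e_DP⟩ : ∃ zz : ℝ, zz = (1 : ℝ) + (1 / 2) * (R2 + 2 * ((8521 / 2048) * (k * wse))) := ⟨_, rfl⟩
  obtain ⟨XS, e_XS⟩ : ∃ zz : ℝ, zz = 4 * ((705 / 8192) * (DP * (be + (4 : ℝ))⁻¹)) := ⟨_, rfl⟩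
  obtain ⟨X, e_X⟩ : ∃ zz : ℝ, zz = XS * s := ⟨_, rfl⟩
  obtain ⟨iX, e_iX⟩ : ∃ zz : ℝ, zz = ((1 : ℝ) - X)⁻¹ := ⟨_, rfl⟩
  obtain ⟨G, e_G⟩ : ∃ zz : ℝ, zz = (2 : ℝ) - (1 / 4) * y2 + (2731 / 524288) * (y2 * y2) + (859 / 1048576) * ((1 / 4) * y2 * ((1 / 4) * y2) * ((1 / 4) * y2) * ((1 / 4) * y2 * ((1 / 4) * y2) * ((1 / 4) * y2))) := ⟨_, rfl⟩
  obtain ⟨n1, e_n1⟩ : ∃ zz : ℝ, zz = G + (8521 / 2048) * W + Real.exp (ls + (314573 / 524288) * (W * V1)) - (1 : ℝ) := ⟨_, rfl⟩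
  obtain ⟨lspS, e_lspS⟩ : ∃ zz : ℝ, zz = sg * V1 * wMo + n1 * (XS * iX) := ⟨_, rfl⟩
  obtain ⟨lsp, e_lsp⟩ : ∃ zz : ℝ, zz = lspS * s := ⟨_, rfl⟩
  obtain ⟨ielf, e_ielf⟩ : ∃ zz : ℝ, zz = (9 / 2) * ie + (43691 / 524288) * sg := ⟨_, rfl⟩
  obtain ⟨uX, e_uX⟩ : ∃ zz : ℝ, zz = u * X := ⟨_, rfl⟩
  obtain ⟨ielfp, e_ielfp⟩ : ∃ zz : ℝ, zz = ielf + ie * (uX * ((1 : ℝ) - uX)⁻¹) := ⟨_, rfl⟩
  obtain ⟨zbS, e_zbS⟩ : ∃ zz : ℝ, zz = Real.exp ((1 / 2) * Real.log (R2 - k2 + (129 / 128 : ℝ))) := ⟨_, rfl⟩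
  obtain ⟨zb, e_zb⟩ : ∃ zz : ℝ, zz = zbS * s := ⟨_, rfl⟩
  obtain ⟨fac, e_fac⟩ : ∃ zz : ℝ, zz = (1 / 2) * (zb * ie) + (1064305 / 1048576 : ℝ) := ⟨_, rfl⟩
  obtain ⟨Q, e_Q⟩ : ∃ zz : ℝ, zz = fac * ((1 / 2) * wse * D2 * (zbS + (2149581 / 1048576) * k) + (zbS + (5243 / 1048576) * k) * lspS + k2 * ((445645 / 262144) * (ie * lsp) + (576717 / 262144) * ielfp)) := ⟨_, rfl⟩
  obtain ⟨E, e_E⟩ : ∃ zz : ℝ, zz = Q * W := ⟨_, rfl⟩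
  obtain ⟨Qw, e_Qw⟩ : ∃ zz : ℝ, zz = Q * wse := ⟨_, rfl⟩
  obtain ⟨c2, e_c2⟩ : ∃ zz : ℝ, zz = (4087 / 4096 : ℝ) - 2 * Qw := ⟨_, rfl⟩
  obtain ⟨u1, e_u1⟩ : ∃ zz : ℝ, zz = Real.exp (-(q2 * ((2840815 / 1048576) * (W * c2)))) := ⟨_, rfl⟩
  obtain ⟨cc5, e_cc5⟩ : ∃ zz : ℝ, zz = (4087 / 4096) * c2 := ⟨_, rfl⟩
  obtain ⟨xxn, e_xxn⟩ : ∃ zz : ℝ, zz = (-cc5) + (1 : ℝ) := ⟨_, rfl⟩
  obtain ⟨rcn, e_rcn⟩ : ∃ zz : ℝ, zz = (1 / 2) * xxn * (-(xxn + (1 : ℝ))) + (1 : ℝ) := ⟨_, rfl⟩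
  obtain ⟨bnn, e_bnn⟩ : ∃ zz : ℝ, zz = sp * rcn := ⟨_, rfl⟩
  obtain ⟨wsn, e_wsn⟩ : ∃ zz : ℝ, zz = bnn * w := ⟨_, rfl⟩
  obtain ⟨bn, e_bn⟩ : ∃ zz : ℝ, zz = bnn * ((1 / 2) * wsn + ((1482911 / 16777216) * (wsn * wsn) + (1482911 / 1048576 : ℝ)))⁻¹ := ⟨_, rfl⟩
  obtain ⟨ibn, e_ibn⟩ : ∃ zz : ℝ, zz = (bn + (1942511 / 1048576) * (q * w * cc5))⁻¹ := ⟨_, rfl⟩
  obtain ⟨m1, e_m1⟩ : ∃ zz : ℝ, zz = u1 * (w + ibn) := ⟨_, rfl⟩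
  obtain ⟨EM, e_EM⟩ : ∃ zz : ℝ, zz = Q * (W + w * m1) := ⟨_, rfl⟩
  obtain ⟨EMs, e_EMs⟩ : ∃ zz : ℝ, zz = Q * (wse + sg * m1) := ⟨_, rfl⟩
  obtain ⟨i2, e_i2⟩ : ∃ zz : ℝ, zz = ((1 : ℝ) - (1 / 2) * EM)⁻¹ := ⟨_, rfl⟩
  obtain ⟨eta, e_eta⟩ : ∃ zz : ℝ, zz = ((1 / 2) * EM + (1 : ℝ)) * i2 := ⟨_, rfl⟩
  obtain ⟨t1, e_t1⟩ : ∃ zz : ℝ, zz = EMs * i2 * ((1 / 4) * be + (1 : ℝ)) := ⟨_, rfl⟩
  obtain ⟨p_X1, ch0⟩ := (((h
    (1 : ℝ) zc_1099511627776_0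
    ie e_ie
    be e_be
    k2 e_k2
    w e_w
    W e_W
    wse e_wse
    (s * s) rfl
    (-k2) rfl
    ((-k2) + (1 : ℝ)) rfl
    y2 e_y2
    Wie e_Wie
    (4095 / 4096 : ℝ) zc_1099243192320_0
    ((1449 / 512) * sg) (congrArg (fun y : ℝ => y * sg) zc_3111703805952_0)
    ((4095 / 4096 : ℝ) - (1449 / 512) * sg) rfl
    (30 * ie) (congrArg (fun y : ℝ => y * ie) zc_32985348833280_0)
    q e_q
    ((2899 / 2048) * sg) (congrArg (fun y : ℝ => y * sg) zc_1556388773888_0)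
    ((4095 / 4096 : ℝ) - (2899 / 2048) * sg) rfl
    (24 * ie) (congrArg (fun y : ℝ => y * ie) zc_26388279066624_0)
    sp e_sp
    (8 * ie) (congrArg (fun y : ℝ => y * ie) zc_8796093022208_0)
    (q - 8 * ie) rfl
    ((27495 / 2048) * Wie) (congrArg (fun y : ℝ => y * Wie) zc_14761265725440_0)
    q2 e_q2
    ((8521 / 2048) * Wie) (congrArg (fun y : ℝ => y * Wie) zc_4574677041152_0)
    R2 (e_R2.trans (congrArg (fun y : ℝ => y * ((8521 / 2048) * Wie)) zc_4574677041152_0))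
    V1 e_V1
    ((31083 / 16384) * W) (congrArg (fun y : ℝ => y * W) zc_2085944819712_0)
    (q2 * ((31083 / 16384) * W)) rfl
    (-(q2 * ((31083 / 16384) * W))) rfl
    u e_u
    bno (e_bno.trans (congrArg (fun y : ℝ => y * sp) zc_1097093611520_0))
    (q * w) rfl
    ((1513259 / 1048576) * (q * w)) (congrArg (fun y : ℝ => y * (q * w)) zc_1586767069184_0)
    wso e_wso
    ((1 / 2) * wso) (congrArg (fun y : ℝ => y * wso) zc_549755813888_0)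
    (wso * wso) rfl
    ((1482911 / 16777216) * (wso * wso)) (congrArg (fun y : ℝ => y * (wso * wso)) zc_97184055296_0)
    (1482911 / 1048576 : ℝ) zc_1554944884736_0
    ((1482911 / 16777216) * (wso * wso) + (1482911 / 1048576 : ℝ)) rfl
    ((1 / 2) * wso + ((1482911 / 16777216) * (wso * wso) + (1482911 / 1048576 : ℝ))) rfl).2
    (((1 / 2) * wso + ((1482911 / 16777216) * (wso * wso) + (1482911 / 1048576 : ℝ)))⁻¹) rfl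
    bo e_bo
    (bo + (1513259 / 1048576) * (q * w)) rfl).2
    ibo e_ibo
    (w + ibo) rfl
    wMo e_wMo
    (w * V1) rfl
    ls e_ls
    (k * wse) rfl
    ((31083 / 16384) * (k * wse)) (congrArg (fun y : ℝ => y * (k * wse)) zc_2085944819712_0)
    (2 * ((31083 / 16384) * (k * wse))) (congrArg (fun y : ℝ => y * ((31083 / 16384) * (k * wse))) zc_2199023255552_0)
    D2 e_D2
    ((8521 / 2048) * (k * wse)) (congrArg (fun y : ℝ => y * (k * wse)) zc_4574677041152_0)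
    (2 * ((8521 / 2048) * (k * wse))) (congrArg (fun y : ℝ => y * ((8521 / 2048) * (k * wse))) zc_2199023255552_0)
    (R2 + 2 * ((8521 / 2048) * (k * wse))) rfl
    ((1 / 2) * (R2 + 2 * ((8521 / 2048) * (k * wse)))) (congrArg (fun y : ℝ => y * (R2 + 2 * ((8521 / 2048) * (k * wse)))) zc_549755813888_0)
    DP e_DP
    (4 : ℝ) zc_4398046511104_0
    (be + (4 : ℝ)) rfl).2
    ((be + (4 : ℝ))⁻¹) rfl
    (DP * (be + (4 : ℝ))⁻¹) rfl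
    ((705 / 8192) * (DP * (be + (4 : ℝ))⁻¹)) (congrArg (fun y : ℝ => y * (DP * (be + (4 : ℝ))⁻¹)) zc_94623498240_0)
    XS (e_XS.trans (congrArg (fun y : ℝ => y * ((705 / 8192) * (DP * (be + (4 : ℝ))⁻¹))) zc_4398046511104_0))
    X e_X
    ((1 : ℝ) - X) rfl
  change 0 < (1 : ℝ) - X at p_X1
  obtain ⟨p_q20, ch1⟩ := (((ch0).2
    iX e_iX
    (2 : ℝ) zc_2199023255552_0
    ((1 / 4) * y2) (congrArg (fun y : ℝ => y * y2) zc_274877906944_0)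
    ((2 : ℝ) - (1 / 4) * y2) rfl
    (y2 * y2) rfl
    ((2731 / 524288) * (y2 * y2)) (congrArg (fun y : ℝ => y * (y2 * y2)) zc_5727322112_0)
    ((2 : ℝ) - (1 / 4) * y2 + (2731 / 524288) * (y2 * y2)) rfl
    ((1 / 4) * y2 * ((1 / 4) * y2)) rfl
    ((1 / 4) * y2 * ((1 / 4) * y2) * ((1 / 4) * y2)) rfl
    ((1 / 4) * y2 * ((1 / 4) * y2) * ((1 / 4) * y2) * ((1 / 4) * y2 * ((1 / 4) * y2) * ((1 / 4) * y2))) rfl
    ((859 / 1048576) * ((1 / 4) * y2 * ((1 / 4) * y2) * ((1 / 4) * y2) * ((1 / 4) * y2 * ((1 / 4) * y2) * ((1 / 4) * y2)))) (congrArg (fun y : ℝ => y * ((1 / 4) * y2 * ((1 / 4) * y2) * ((1 / 4) * y2) * ((1 / 4) * y2 * ((1 / 4) * y2) * ((1 / 4) * y2)))) zc_900726784_0)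
    G e_G
    ((8521 / 2048) * W) (congrArg (fun y : ℝ => y * W) zc_4574677041152_0)
    (G + (8521 / 2048) * W) rfl
    (W * V1) rfl
    ((314573 / 524288) * (W * V1)) (congrArg (fun y : ℝ => y * (W * V1)) zc_659707396096_0)
    (ls + (314573 / 524288) * (W * V1)) rfl
    (Real.exp (ls + (314573 / 524288) * (W * V1))) rfl
    (G + (8521 / 2048) * W + Real.exp (ls + (314573 / 524288) * (W * V1))) rfl
    n1 e_n1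
    (sg * V1) rfl
    (sg * V1 * wMo) rfl
    (XS * iX) rfl
    (n1 * (XS * iX)) rfl
    lspS e_lspS
    lsp e_lsp
    ((9 / 2) * ie) (congrArg (fun y : ℝ => y * ie) zc_4947802324992_0)
    ((43691 / 524288) * sg) (congrArg (fun y : ℝ => y * sg) zc_91626668032_0)
    ielf e_ielf
    uX e_uX
    ((1 : ℝ) - uX) rfl).2
    (((1 : ℝ) - uX)⁻¹) rfl
    (uX * ((1 : ℝ) - uX)⁻¹) rfl
    (ie * (uX * ((1 : ℝ) - uX)⁻¹)) rfl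
    ielfp e_ielfp
    (R2 - k2) rfl
    (129 / 128 : ℝ) zc_1108101562368_0
    (R2 - k2 + (129 / 128 : ℝ)) rfl).2
    (Real.log (R2 - k2 + (129 / 128 : ℝ))) rfl
    ((1 / 2) * Real.log (R2 - k2 + (129 / 128 : ℝ))) (congrArg (fun y : ℝ => y * Real.log (R2 - k2 + (129 / 128 : ℝ))) zc_549755813888_0)
    zbS e_zbS
    zb e_zb
    (zb * ie) rfl
    ((1 / 2) * (zb * ie)) (congrArg (fun y : ℝ => y * (zb * ie)) zc_549755813888_0)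
    (1064305 / 1048576 : ℝ) zc_1116004679680_0
    fac e_fac
    ((1 / 2) * wse) (congrArg (fun y : ℝ => y * wse) zc_549755813888_0)
    ((1 / 2) * wse * D2) rfl
    ((2149581 / 1048576) * k) (congrArg (fun y : ℝ => y * k) zc_2253999046656_0)
    (zbS + (2149581 / 1048576) * k) rfl
    ((1 / 2) * wse * D2 * (zbS + (2149581 / 1048576) * k)) rfl
    ((5243 / 1048576) * k) (congrArg (fun y : ℝ => y * k) zc_5497683968_0)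
    (zbS + (5243 / 1048576) * k) rfl
    ((zbS + (5243 / 1048576) * k) * lspS) rfl
    ((1 / 2) * wse * D2 * (zbS + (2149581 / 1048576) * k) + (zbS + (5243 / 1048576) * k) * lspS) rfl
    (ie * lsp) rfl
    ((445645 / 262144) * (ie * lsp)) (congrArg (fun y : ℝ => y * (ie * lsp)) zc_1869170606080_0)
    ((576717 / 262144) * ielfp) (congrArg (fun y : ℝ => y * ielfp) zc_2418926419968_0)
    ((445645 / 262144) * (ie * lsp) + (576717 / 262144) * ielfp) rfl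
    (k2 * ((445645 / 262144) * (ie * lsp) + (576717 / 262144) * ielfp)) rfl
    ((1 / 2) * wse * D2 * (zbS + (2149581 / 1048576) * k) + (zbS + (5243 / 1048576) * k) * lspS + k2 * ((445645 / 262144) * (ie * lsp) + (576717 / 262144) * ielfp)) rfl
    Q e_Q
    E e_E
    Qw e_Qw
    (4087 / 4096 : ℝ) zc_1097095708672_0
    (2 * Qw) (congrArg (fun y : ℝ => y * Qw) zc_2199023255552_0)
    c2 e_c2
  change 0 < q2 at p_q20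
  obtain ⟨p_Es, ch2⟩ := ch1
    ((1 : ℝ) - Qw) rfl
  change 0 < (1 : ℝ) - Qw at p_Es
  obtain ⟨p_c20, ch3⟩ := ch2
  change 0 < c2 at p_c20
  obtain ⟨p_RH, ch4⟩ := ch3
    (5499 / 1024 : ℝ) zc_5904506290176_0
    (8521 / 2048 : ℝ) zc_4574677041152_0
    ((5499 / 1024 : ℝ) - (8521 / 2048 : ℝ)) rfl
    ((5499 / 1024 : ℝ) - (8521 / 2048 : ℝ) - Q) rfl
    (Qw + (1 : ℝ)) rfl
    ((Qw + (1 : ℝ)) * (Qw + (1 : ℝ))) rfl
    ((5499 / 1024 : ℝ) - (8521 / 2048 : ℝ) - Q - (Qw + (1 : ℝ)) * (Qw + (1 : ℝ))) rfl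
  change 0 < (5499 / 1024 : ℝ) - (8521 / 2048 : ℝ) - Q - (Qw + (1 : ℝ)) * (Qw + (1 : ℝ)) at p_RH
  obtain ⟨p_h9, ch5⟩ := ch4
    ((9646899 / 1048576) * c2) (congrArg (fun y : ℝ => y * c2) zc_10115506765824_0)
    ((9646899 / 1048576) * c2 - (5499 / 1024 : ℝ)) rfl
  change 0 < (9646899 / 1048576) * c2 - (5499 / 1024 : ℝ) at p_h9
  obtain ⟨p_h2, ch6⟩ := ch5
    ((471859 / 524288) * c2) (congrArg (fun y : ℝ => y * c2) zc_989560045568_0)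
    ((59061 / 2048) * Wie) (congrArg (fun y : ℝ => y * Wie) zc_31708132933632_0)
    ((471859 / 524288) * c2 - (59061 / 2048) * Wie) rfl
  change 0 < (471859 / 524288) * c2 - (59061 / 2048) * Wie at p_h2
  obtain ⟨p_Er, ch7⟩ := ch6
    (31083 / 16384 : ℝ) zc_2085944819712_0
    ((31083 / 16384 : ℝ) - Q) rfl
  change 0 < (31083 / 16384 : ℝ) - Q at p_Er
  obtain ⟨p_dr, ch8⟩ := ch7
    ((12479 / 65536) * ((1 : ℝ) - Qw)) (congrArg (fun y : ℝ => y * ((1 : ℝ) - Qw)) zc_209362878464_0)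
    ((4255 / 4096) * Q) (congrArg (fun y : ℝ => y * Q) zc_1142192865280_0)
    ((12479 / 65536) * ((1 : ℝ) - Qw) - (4255 / 4096) * Q) rfl
  change 0 < (12479 / 65536) * ((1 : ℝ) - Qw) - (4255 / 4096) * Q at p_dr
  obtain ⟨p_La, ch9⟩ := ch8
    ((1 : ℝ) - 2 * Qw) rfl
    ((4475 / 1024) * ((1 : ℝ) - 2 * Qw)) (congrArg (fun y : ℝ => y * ((1 : ℝ) - 2 * Qw)) zc_4804994662400_0)
    ((4475 / 1024) * ((1 : ℝ) - 2 * Qw) - (8521 / 2048 : ℝ)) rfl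
    ((4475 / 1024) * ((1 : ℝ) - 2 * Qw) - (8521 / 2048 : ℝ) - Q) rfl
  change 0 < (4475 / 1024) * ((1 : ℝ) - 2 * Qw) - (8521 / 2048 : ℝ) - Q at p_La
  obtain ⟨p_l1, ch10⟩ := ch9
    (-(ie * lsp)) rfl
    (10485 / 1048576 : ℝ) zc_10994319360_0
    ((-(ie * lsp)) + (10485 / 1048576 : ℝ)) rfl
  change 0 < (-(ie * lsp)) + (10485 / 1048576 : ℝ) at p_l1
  obtain ⟨p_l2, ch11⟩ := ch10
    (-ielfp) rfl
    (20971 / 1048576 : ℝ) zc_21989687296_0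
    ((-ielfp) + (20971 / 1048576 : ℝ)) rfl
  change 0 < (-ielfp) + (20971 / 1048576 : ℝ) at p_l2
  obtain ⟨p_z1, ch12⟩ := ch11
    (-(zb * ie)) rfl
    (104857 / 1048576 : ℝ) zc_109950533632_0
    ((-(zb * ie)) + (104857 / 1048576 : ℝ)) rfl
  change 0 < (-(zb * ie)) + (104857 / 1048576 : ℝ) at p_z1
  obtain ⟨p_E1, ch13⟩ := ch12
    (E * ie) rfl
    (-(E * ie)) rfl
    (2621 / 524288 : ℝ) zc_5496635392_0
    ((-(E * ie)) + (2621 / 524288 : ℝ)) rfl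
  change 0 < (-(E * ie)) + (2621 / 524288 : ℝ) at p_E1
  obtain ⟨p_y, ch14⟩ := ch13
    (-E) rfl
    (41 / 4096 : ℝ) zc_11005853696_0
    ((-E) + (41 / 4096 : ℝ)) rfl
  change 0 < (-E) + (41 / 4096 : ℝ) at p_y
  obtain ⟨p_EM2, ch15⟩ := ((ch14
    (W * c2) rfl
    ((2840815 / 1048576) * (W * c2)) (congrArg (fun y : ℝ => y * (W * c2)) zc_2978810429440_0)
    (q2 * ((2840815 / 1048576) * (W * c2))) rfl
    (-(q2 * ((2840815 / 1048576) * (W * c2)))) rfl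
    u1 e_u1
    cc5 (e_cc5.trans (congrArg (fun y : ℝ => y * c2) zc_1097095708672_0))
    (-cc5) rfl
    xxn e_xxn
    ((1 / 2) * xxn) (congrArg (fun y : ℝ => y * xxn) zc_549755813888_0)
    (xxn + (1 : ℝ)) rfl
    (-(xxn + (1 : ℝ))) rfl
    ((1 / 2) * xxn * (-(xxn + (1 : ℝ)))) rfl
    rcn e_rcn
    bnn e_bnn
    (q * w * cc5) rfl
    ((1942511 / 1048576) * (q * w * cc5)) (congrArg (fun y : ℝ => y * (q * w * cc5)) zc_2036870414336_0)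
    wsn e_wsn
    ((1 / 2) * wsn) (congrArg (fun y : ℝ => y * wsn) zc_549755813888_0)
    (wsn * wsn) rfl
    ((1482911 / 16777216) * (wsn * wsn)) (congrArg (fun y : ℝ => y * (wsn * wsn)) zc_97184055296_0)
    ((1482911 / 16777216) * (wsn * wsn) + (1482911 / 1048576 : ℝ)) rfl
    ((1 / 2) * wsn + ((1482911 / 16777216) * (wsn * wsn) + (1482911 / 1048576 : ℝ))) rfl).2
    (((1 / 2) * wsn + ((1482911 / 16777216) * (wsn * wsn) + (1482911 / 1048576 : ℝ)))⁻¹) rfl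
    bn e_bn
    (bn + (1942511 / 1048576) * (q * w * cc5)) rfl).2
    ibn e_ibn
    (w + ibn) rfl
    m1 e_m1
    (w * m1) rfl
    (W + w * m1) rfl
    EM e_EM
    (sg * m1) rfl
    (wse + sg * m1) rfl
    EMs e_EMs
    ((1 / 2) * EM) (congrArg (fun y : ℝ => y * EM) zc_549755813888_0)
    ((1 : ℝ) - (1 / 2) * EM) rfl
  change 0 < (1 : ℝ) - (1 / 2) * EM at p_EM2
  obtain ⟨p_cl, ch16⟩ := (ch15).2
    i2 e_i2
    ((1 / 2) * EM + (1 : ℝ)) rfl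
    eta e_eta
    (EMs * i2) rfl
    ((1 / 4) * be) (congrArg (fun y : ℝ => y * be) zc_274877906944_0)
    ((1 / 4) * be + (1 : ℝ)) rfl
    t1 e_t1
    ((151 / 2048) * u1) (congrArg (fun y : ℝ => y * u1) zc_81067507712_0)
    (eta * ((151 / 2048) * u1)) rfl
    (V1 + Q) rfl
    (wse * (V1 + Q)) rfl
    (wse * (V1 + Q) + (1 : ℝ)) rfl
    (eta * ((151 / 2048) * u1) * (wse * (V1 + Q) + (1 : ℝ))) rfl
    (t1 + eta * ((151 / 2048) * u1) * (wse * (V1 + Q) + (1 : ℝ))) rfl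
    (-(t1 + eta * ((151 / 2048) * u1) * (wse * (V1 + Q) + (1 : ℝ)))) rfl
    (90239 / 1048576 : ℝ) zc_94622449664_0
    ((-(t1 + eta * ((151 / 2048) * u1) * (wse * (V1 + Q) + (1 : ℝ)))) + (90239 / 1048576 : ℝ)) rfl
  change 0 < (-(t1 + eta * ((151 / 2048) * u1) * (wse * (V1 + Q) + (1 : ℝ)))) + (90239 / 1048576 : ℝ) at p_cl
  exact ⟨wMo, EM, EMs,
    ⟨ie, be, k2, w, W, wse, y2, Wie, q, sp, q2, R2, V1, u, ls, D2, DP, XS, X, iX, G, n1, lspS,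
    lsp, ielf, uX, ielfp, zbS, zb, fac, Q, E, Qw, c2, u1, i2, eta, t1, e_ie, e_be, e_k2, e_w,
    e_W, e_wse, e_y2, e_Wie, e_q, e_sp, e_q2, e_R2, e_V1, e_u, e_ls, e_D2, e_DP, e_XS, e_X,
    e_iX, e_G, e_n1, e_lspS, e_lsp, e_ielf, e_uX, e_ielfp, e_zbS, e_zb, e_fac, e_Q, e_E, e_Qw,
    e_c2, e_u1, e_i2, e_eta, e_t1, p_X1, p_q20, p_Es, p_c20, p_RH, p_h9, p_h2, p_Er, p_dr, p_La,
    p_l1, p_l2, p_z1, p_E1, p_y, p_EM2, p_cl⟩,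
    ⟨⟨bno, wso, bo, ibo, cc5, xxn, rcn, bnn, wsn, bn, ibn, m1, e_bno, e_wso, e_bo, e_ibo, e_wMo,
    e_cc5, e_xxn, e_rcn, e_bnn, e_wsn, e_bn, e_ibn, e_m1, e_EM, e_EMs⟩⟩⟩

theorem ex_LA1_r0 {sg s k : ℝ} (h : RAs Cert.LA1.prog1 [sg, s, k]) :
    ∃ wMo EM EMs : ℝ, ∃ P : PLA (cA 1) sg s k wMo EM EMs, Nonempty (PLAr (rA 1 0) P) := by
  obtain ⟨ie, e_ie⟩ : ∃ zz : ℝ, zz = sg * sg := ⟨_, rfl⟩
  obtain ⟨be, e_be⟩ : ∃ zz : ℝ, zz = k * s := ⟨_, rfl⟩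
  obtain ⟨k2, e_k2⟩ : ∃ zz : ℝ, zz = k * k := ⟨_, rfl⟩
  obtain ⟨w, e_w⟩ : ∃ zz : ℝ, zz = sg * s := ⟨_, rfl⟩
  obtain ⟨W, e_W⟩ : ∃ zz : ℝ, zz = w * w := ⟨_, rfl⟩
  obtain ⟨wse, e_wse⟩ : ∃ zz : ℝ, zz = w * sg := ⟨_, rfl⟩
  obtain ⟨y2, e_y2⟩ : ∃ zz : ℝ, zz = s * s * ((-k2) + (1 : ℝ)) := ⟨_, rfl⟩
  obtain ⟨Wie, e_Wie⟩ : ∃ zz : ℝ, zz = W * ie := ⟨_, rfl⟩
  obtain ⟨q, e_q⟩ : ∃ zz : ℝ, zz = (4095 / 4096 : ℝ) - (1449 / 512) * sg - 30 * ie := ⟨_, rfl⟩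
  obtain ⟨sp, e_sp⟩ : ∃ zz : ℝ, zz = (4095 / 4096 : ℝ) - (2899 / 2048) * sg - 24 * ie := ⟨_, rfl⟩
  obtain ⟨q2, e_q2⟩ : ∃ zz : ℝ, zz = q - 8 * ie - (27495 / 2048) * Wie := ⟨_, rfl⟩
  obtain ⟨R2, e_R2⟩ : ∃ zz : ℝ, zz = (8521 / 2048) * ((8521 / 2048) * Wie) := ⟨_, rfl⟩
  obtain ⟨V1, e_V1⟩ : ∃ zz : ℝ, zz = R2 + (1 : ℝ) := ⟨_, rfl⟩
  obtain ⟨u, e_u⟩ : ∃ zz : ℝ, zz = Real.exp (-(q2 * ((31083 / 16384) * W))) := ⟨_, rfl⟩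
  obtain ⟨wMo, e_wMo⟩ : ∃ zz : ℝ, zz = (35 / 32) * w := ⟨_, rfl⟩
  obtain ⟨ls, e_ls⟩ : ∃ zz : ℝ, zz = w * V1 * wMo := ⟨_, rfl⟩
  obtain ⟨D2, e_D2⟩ : ∃ zz : ℝ, zz = V1 - 2 * ((31083 / 16384) * (k * wse)) := ⟨_, rfl⟩
  obtain ⟨DP, e_DP⟩ : ∃ zz : ℝ, zz = (1 : ℝ) + (1 / 2) * (R2 + 2 * ((8521 / 2048) * (k * wse))) := ⟨_, rfl⟩
  obtain ⟨XS, e_XS⟩ : ∃ zz : ℝ, zz = 4 * ((705 / 8192) * (DP * (be + (4 : ℝ))⁻¹)) := ⟨_, rfl⟩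
  obtain ⟨X, e_X⟩ : ∃ zz : ℝ, zz = XS * s := ⟨_, rfl⟩
  obtain ⟨iX, e_iX⟩ : ∃ zz : ℝ, zz = ((1 : ℝ) - X)⁻¹ := ⟨_, rfl⟩
  obtain ⟨G, e_G⟩ : ∃ zz : ℝ, zz = (2 : ℝ) - (1 / 4) * y2 + (2731 / 524288) * (y2 * y2) + (859 / 1048576) * ((1 / 4) * y2 * ((1 / 4) * y2) * ((1 / 4) * y2) * ((1 / 4) * y2 * ((1 / 4) * y2) * ((1 / 4) * y2))) := ⟨_, rfl⟩
  obtain ⟨n1, e_n1⟩ : ∃ zz : ℝ, zz = G + (8521 / 2048) * W + Real.exp (ls + (314573 / 524288) * (W * V1)) - (1 : ℝ) := ⟨_, rfl⟩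
  obtain ⟨lspS, e_lspS⟩ : ∃ zz : ℝ, zz = sg * V1 * wMo + n1 * (XS * iX) := ⟨_, rfl⟩
  obtain ⟨lsp, e_lsp⟩ : ∃ zz : ℝ, zz = lspS * s := ⟨_, rfl⟩
  obtain ⟨ielf, e_ielf⟩ : ∃ zz : ℝ, zz = (9 / 2) * ie + (43691 / 524288) * sg := ⟨_, rfl⟩
  obtain ⟨uX, e_uX⟩ : ∃ zz : ℝ, zz = u * X := ⟨_, rfl⟩
  obtain ⟨ielfp, e_ielfp⟩ : ∃ zz : ℝ, zz = ielf + ie * (uX * ((1 : ℝ) - uX)⁻¹) := ⟨_, rfl⟩
  obtain ⟨zbS, e_zbS⟩ : ∃ zz : ℝ, zz = Real.exp ((1 / 2) * Real.log (R2 - k2 + (129 / 128 : ℝ))) := ⟨_, rfl⟩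
  obtain ⟨zb, e_zb⟩ : ∃ zz : ℝ, zz = zbS * s := ⟨_, rfl⟩
  obtain ⟨fac, e_fac⟩ : ∃ zz : ℝ, zz = (1 / 2) * (zb * ie) + (1064305 / 1048576 : ℝ) := ⟨_, rfl⟩
  obtain ⟨Q, e_Q⟩ : ∃ zz : ℝ, zz = fac * ((1 / 2) * wse * D2 * (zbS + (2149581 / 1048576) * k) + (zbS + (5243 / 1048576) * k) * lspS + k2 * ((445645 / 262144) * (ie * lsp) + (576717 / 262144) * ielfp)) := ⟨_, rfl⟩
  obtain ⟨E, e_E⟩ : ∃ zz : ℝ, zz = Q * W := ⟨_, rfl⟩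
  obtain ⟨Qw, e_Qw⟩ : ∃ zz : ℝ, zz = Q * wse := ⟨_, rfl⟩
  obtain ⟨c2, e_c2⟩ : ∃ zz : ℝ, zz = (4087 / 4096 : ℝ) - 2 * Qw := ⟨_, rfl⟩
  obtain ⟨u1, e_u1⟩ : ∃ zz : ℝ, zz = Real.exp (-(q2 * ((2840815 / 1048576) * (W * c2)))) := ⟨_, rfl⟩
  obtain ⟨EM, e_EM⟩ : ∃ zz : ℝ, zz = (35 / 32) * E + E := ⟨_, rfl⟩
  obtain ⟨EMs, e_EMs⟩ : ∃ zz : ℝ, zz = (35 / 32) * Qw + Qw := ⟨_, rfl⟩
  obtain ⟨i2, e_i2⟩ : ∃ zz : ℝ, zz = ((1 : ℝ) - (1 / 2) * EM)⁻¹ := ⟨_, rfl⟩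
  obtain ⟨eta, e_eta⟩ : ∃ zz : ℝ, zz = ((1 / 2) * EM + (1 : ℝ)) * i2 := ⟨_, rfl⟩
  obtain ⟨t1, e_t1⟩ : ∃ zz : ℝ, zz = EMs * i2 * ((1 / 4) * be + (1 : ℝ)) := ⟨_, rfl⟩
  obtain ⟨p_row_y, ch0⟩ := h
    (1 : ℝ) zc_1099511627776_0
    ie e_ie
    be e_be
    k2 e_k2
    w e_w
    W e_W
    wse e_wse
    (s * s) rfl
    (-k2) rfl
    ((-k2) + (1 : ℝ)) rfl
    y2 e_y2
    Wie e_Wie
    (4095 / 4096 : ℝ) zc_1099243192320_0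
    ((1449 / 512) * sg) (congrArg (fun y : ℝ => y * sg) zc_3111703805952_0)
    ((4095 / 4096 : ℝ) - (1449 / 512) * sg) rfl
    (30 * ie) (congrArg (fun y : ℝ => y * ie) zc_32985348833280_0)
    q e_q
    ((2899 / 2048) * sg) (congrArg (fun y : ℝ => y * sg) zc_1556388773888_0)
    ((4095 / 4096 : ℝ) - (2899 / 2048) * sg) rfl
    (24 * ie) (congrArg (fun y : ℝ => y * ie) zc_26388279066624_0)
    sp e_sp
    (8 * ie) (congrArg (fun y : ℝ => y * ie) zc_8796093022208_0)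
    (q - 8 * ie) rfl
    ((27495 / 2048) * Wie) (congrArg (fun y : ℝ => y * Wie) zc_14761265725440_0)
    q2 e_q2
    ((8521 / 2048) * Wie) (congrArg (fun y : ℝ => y * Wie) zc_4574677041152_0)
    R2 (e_R2.trans (congrArg (fun y : ℝ => y * ((8521 / 2048) * Wie)) zc_4574677041152_0))
    V1 e_V1
    ((31083 / 16384) * W) (congrArg (fun y : ℝ => y * W) zc_2085944819712_0)
    (q2 * ((31083 / 16384) * W)) rfl
    (-(q2 * ((31083 / 16384) * W))) rfl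
    u e_u
    (2007 / 2048 : ℝ) zc_1077499920384_0
    ((2007 / 2048 : ℝ) - y2) rfl
  change 0 < (2007 / 2048 : ℝ) - y2 at p_row_y
  obtain ⟨p_row_b, ch1⟩ := ch0
    (5121 / 1024 : ℝ) zc_5498631880704_0
    ((5121 / 1024 : ℝ) - be) rfl
  change 0 < (5121 / 1024 : ℝ) - be at p_row_b
  obtain ⟨p_X1, ch2⟩ := (ch1
    wMo (e_wMo.trans (congrArg (fun y : ℝ => y * w) zc_1202590842880_0))
    (w * V1) rfl
    ls e_ls
    (k * wse) rfl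
    ((31083 / 16384) * (k * wse)) (congrArg (fun y : ℝ => y * (k * wse)) zc_2085944819712_0)
    (2 * ((31083 / 16384) * (k * wse))) (congrArg (fun y : ℝ => y * ((31083 / 16384) * (k * wse))) zc_2199023255552_0)
    D2 e_D2
    ((8521 / 2048) * (k * wse)) (congrArg (fun y : ℝ => y * (k * wse)) zc_4574677041152_0)
    (2 * ((8521 / 2048) * (k * wse))) (congrArg (fun y : ℝ => y * ((8521 / 2048) * (k * wse))) zc_2199023255552_0)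
    (R2 + 2 * ((8521 / 2048) * (k * wse))) rfl
    ((1 / 2) * (R2 + 2 * ((8521 / 2048) * (k * wse)))) (congrArg (fun y : ℝ => y * (R2 + 2 * ((8521 / 2048) * (k * wse)))) zc_549755813888_0)
    DP e_DP
    (4 : ℝ) zc_4398046511104_0
    (be + (4 : ℝ)) rfl).2
    ((be + (4 : ℝ))⁻¹) rfl
    (DP * (be + (4 : ℝ))⁻¹) rfl
    ((705 / 8192) * (DP * (be + (4 : ℝ))⁻¹)) (congrArg (fun y : ℝ => y * (DP * (be + (4 : ℝ))⁻¹)) zc_94623498240_0)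
    XS (e_XS.trans (congrArg (fun y : ℝ => y * ((705 / 8192) * (DP * (be + (4 : ℝ))⁻¹))) zc_4398046511104_0))
    X e_X
    ((1 : ℝ) - X) rfl
  change 0 < (1 : ℝ) - X at p_X1
  obtain ⟨p_q20, ch3⟩ := (((ch2).2
    iX e_iX
    (2 : ℝ) zc_2199023255552_0
    ((1 / 4) * y2) (congrArg (fun y : ℝ => y * y2) zc_274877906944_0)
    ((2 : ℝ) - (1 / 4) * y2) rfl
    (y2 * y2) rfl
    ((2731 / 524288) * (y2 * y2)) (congrArg (fun y : ℝ => y * (y2 * y2)) zc_5727322112_0)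
    ((2 : ℝ) - (1 / 4) * y2 + (2731 / 524288) * (y2 * y2)) rfl
    ((1 / 4) * y2 * ((1 / 4) * y2)) rfl
    ((1 / 4) * y2 * ((1 / 4) * y2) * ((1 / 4) * y2)) rfl
    ((1 / 4) * y2 * ((1 / 4) * y2) * ((1 / 4) * y2) * ((1 / 4) * y2 * ((1 / 4) * y2) * ((1 / 4) * y2))) rfl
    ((859 / 1048576) * ((1 / 4) * y2 * ((1 / 4) * y2) * ((1 / 4) * y2) * ((1 / 4) * y2 * ((1 / 4) * y2) * ((1 / 4) * y2)))) (congrArg (fun y : ℝ => y * ((1 / 4) * y2 * ((1 / 4) * y2) * ((1 / 4) * y2) * ((1 / 4) * y2 * ((1 / 4) * y2) * ((1 / 4) * y2)))) zc_900726784_0)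
    G e_G
    ((8521 / 2048) * W) (congrArg (fun y : ℝ => y * W) zc_4574677041152_0)
    (G + (8521 / 2048) * W) rfl
    (W * V1) rfl
    ((314573 / 524288) * (W * V1)) (congrArg (fun y : ℝ => y * (W * V1)) zc_659707396096_0)
    (ls + (314573 / 524288) * (W * V1)) rfl
    (Real.exp (ls + (314573 / 524288) * (W * V1))) rfl
    (G + (8521 / 2048) * W + Real.exp (ls + (314573 / 524288) * (W * V1))) rfl
    n1 e_n1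
    (sg * V1) rfl
    (sg * V1 * wMo) rfl
    (XS * iX) rfl
    (n1 * (XS * iX)) rfl
    lspS e_lspS
    lsp e_lsp
    ((9 / 2) * ie) (congrArg (fun y : ℝ => y * ie) zc_4947802324992_0)
    ((43691 / 524288) * sg) (congrArg (fun y : ℝ => y * sg) zc_91626668032_0)
    ielf e_ielf
    uX e_uX
    ((1 : ℝ) - uX) rfl).2
    (((1 : ℝ) - uX)⁻¹) rfl
    (uX * ((1 : ℝ) - uX)⁻¹) rfl
    (ie * (uX * ((1 : ℝ) - uX)⁻¹)) rfl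
    ielfp e_ielfp
    (R2 - k2) rfl
    (129 / 128 : ℝ) zc_1108101562368_0
    (R2 - k2 + (129 / 128 : ℝ)) rfl).2
    (Real.log (R2 - k2 + (129 / 128 : ℝ))) rfl
    ((1 / 2) * Real.log (R2 - k2 + (129 / 128 : ℝ))) (congrArg (fun y : ℝ => y * Real.log (R2 - k2 + (129 / 128 : ℝ))) zc_549755813888_0)
    zbS e_zbS
    zb e_zb
    (zb * ie) rfl
    ((1 / 2) * (zb * ie)) (congrArg (fun y : ℝ => y * (zb * ie)) zc_549755813888_0)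
    (1064305 / 1048576 : ℝ) zc_1116004679680_0
    fac e_fac
    ((1 / 2) * wse) (congrArg (fun y : ℝ => y * wse) zc_549755813888_0)
    ((1 / 2) * wse * D2) rfl
    ((2149581 / 1048576) * k) (congrArg (fun y : ℝ => y * k) zc_2253999046656_0)
    (zbS + (2149581 / 1048576) * k) rfl
    ((1 / 2) * wse * D2 * (zbS + (2149581 / 1048576) * k)) rfl
    ((5243 / 1048576) * k) (congrArg (fun y : ℝ => y * k) zc_5497683968_0)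
    (zbS + (5243 / 1048576) * k) rfl
    ((zbS + (5243 / 1048576) * k) * lspS) rfl
    ((1 / 2) * wse * D2 * (zbS + (2149581 / 1048576) * k) + (zbS + (5243 / 1048576) * k) * lspS) rfl
    (ie * lsp) rfl
    ((445645 / 262144) * (ie * lsp)) (congrArg (fun y : ℝ => y * (ie * lsp)) zc_1869170606080_0)
    ((576717 / 262144) * ielfp) (congrArg (fun y : ℝ => y * ielfp) zc_2418926419968_0)
    ((445645 / 262144) * (ie * lsp) + (576717 / 262144) * ielfp) rfl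
    (k2 * ((445645 / 262144) * (ie * lsp) + (576717 / 262144) * ielfp)) rfl
    ((1 / 2) * wse * D2 * (zbS + (2149581 / 1048576) * k) + (zbS + (5243 / 1048576) * k) * lspS + k2 * ((445645 / 262144) * (ie * lsp) + (576717 / 262144) * ielfp)) rfl
    Q e_Q
    E e_E
    Qw e_Qw
    (4087 / 4096 : ℝ) zc_1097095708672_0
    (2 * Qw) (congrArg (fun y : ℝ => y * Qw) zc_2199023255552_0)
    c2 e_c2
  change 0 < q2 at p_q20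
  obtain ⟨p_Es, ch4⟩ := ch3
    ((1 : ℝ) - Qw) rfl
  change 0 < (1 : ℝ) - Qw at p_Es
  obtain ⟨p_c20, ch5⟩ := ch4
  change 0 < c2 at p_c20
  obtain ⟨p_RH, ch6⟩ := ch5
    (5499 / 1024 : ℝ) zc_5904506290176_0
    (8521 / 2048 : ℝ) zc_4574677041152_0
    ((5499 / 1024 : ℝ) - (8521 / 2048 : ℝ)) rfl
    ((5499 / 1024 : ℝ) - (8521 / 2048 : ℝ) - Q) rfl
    (Qw + (1 : ℝ)) rfl
    ((Qw + (1 : ℝ)) * (Qw + (1 : ℝ))) rfl
    ((5499 / 1024 : ℝ) - (8521 / 2048 : ℝ) - Q - (Qw + (1 : ℝ)) * (Qw + (1 : ℝ))) rfl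
  change 0 < (5499 / 1024 : ℝ) - (8521 / 2048 : ℝ) - Q - (Qw + (1 : ℝ)) * (Qw + (1 : ℝ)) at p_RH
  obtain ⟨p_h9, ch7⟩ := ch6
    ((9646899 / 1048576) * c2) (congrArg (fun y : ℝ => y * c2) zc_10115506765824_0)
    ((9646899 / 1048576) * c2 - (5499 / 1024 : ℝ)) rfl
  change 0 < (9646899 / 1048576) * c2 - (5499 / 1024 : ℝ) at p_h9
  obtain ⟨p_h2, ch8⟩ := ch7
    ((471859 / 524288) * c2) (congrArg (fun y : ℝ => y * c2) zc_989560045568_0)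
    ((59061 / 2048) * Wie) (congrArg (fun y : ℝ => y * Wie) zc_31708132933632_0)
    ((471859 / 524288) * c2 - (59061 / 2048) * Wie) rfl
  change 0 < (471859 / 524288) * c2 - (59061 / 2048) * Wie at p_h2
  obtain ⟨p_Er, ch9⟩ := ch8
    (31083 / 16384 : ℝ) zc_2085944819712_0
    ((31083 / 16384 : ℝ) - Q) rfl
  change 0 < (31083 / 16384 : ℝ) - Q at p_Er
  obtain ⟨p_dr, ch10⟩ := ch9
    ((12479 / 65536) * ((1 : ℝ) - Qw)) (congrArg (fun y : ℝ => y * ((1 : ℝ) - Qw)) zc_209362878464_0)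
    ((4255 / 4096) * Q) (congrArg (fun y : ℝ => y * Q) zc_1142192865280_0)
    ((12479 / 65536) * ((1 : ℝ) - Qw) - (4255 / 4096) * Q) rfl
  change 0 < (12479 / 65536) * ((1 : ℝ) - Qw) - (4255 / 4096) * Q at p_dr
  obtain ⟨p_La, ch11⟩ := ch10
    ((1 : ℝ) - 2 * Qw) rfl
    ((4475 / 1024) * ((1 : ℝ) - 2 * Qw)) (congrArg (fun y : ℝ => y * ((1 : ℝ) - 2 * Qw)) zc_4804994662400_0)
    ((4475 / 1024) * ((1 : ℝ) - 2 * Qw) - (8521 / 2048 : ℝ)) rfl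
    ((4475 / 1024) * ((1 : ℝ) - 2 * Qw) - (8521 / 2048 : ℝ) - Q) rfl
  change 0 < (4475 / 1024) * ((1 : ℝ) - 2 * Qw) - (8521 / 2048 : ℝ) - Q at p_La
  obtain ⟨p_l1, ch12⟩ := ch11
    (-(ie * lsp)) rfl
    (10485 / 1048576 : ℝ) zc_10994319360_0
    ((-(ie * lsp)) + (10485 / 1048576 : ℝ)) rfl
  change 0 < (-(ie * lsp)) + (10485 / 1048576 : ℝ) at p_l1
  obtain ⟨p_l2, ch13⟩ := ch12
    (-ielfp) rfl
    (20971 / 1048576 : ℝ) zc_21989687296_0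
    ((-ielfp) + (20971 / 1048576 : ℝ)) rfl
  change 0 < (-ielfp) + (20971 / 1048576 : ℝ) at p_l2
  obtain ⟨p_z1, ch14⟩ := ch13
    (-(zb * ie)) rfl
    (104857 / 1048576 : ℝ) zc_109950533632_0
    ((-(zb * ie)) + (104857 / 1048576 : ℝ)) rfl
  change 0 < (-(zb * ie)) + (104857 / 1048576 : ℝ) at p_z1
  obtain ⟨p_E1, ch15⟩ := ch14
    (E * ie) rfl
    (-(E * ie)) rfl
    (2621 / 524288 : ℝ) zc_5496635392_0
    ((-(E * ie)) + (2621 / 524288 : ℝ)) rfl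
  change 0 < (-(E * ie)) + (2621 / 524288 : ℝ) at p_E1
  obtain ⟨p_y, ch16⟩ := ch15
    (-E) rfl
    (41 / 4096 : ℝ) zc_11005853696_0
    ((-E) + (41 / 4096 : ℝ)) rfl
  change 0 < (-E) + (41 / 4096 : ℝ) at p_y
  obtain ⟨p_EM2, ch17⟩ := ch16
    (W * c2) rfl
    ((2840815 / 1048576) * (W * c2)) (congrArg (fun y : ℝ => y * (W * c2)) zc_2978810429440_0)
    (q2 * ((2840815 / 1048576) * (W * c2))) rfl
    (-(q2 * ((2840815 / 1048576) * (W * c2)))) rfl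
    u1 e_u1
    ((35 / 32) * E) (congrArg (fun y : ℝ => y * E) zc_1202590842880_0)
    EM e_EM
    ((35 / 32) * Qw) (congrArg (fun y : ℝ => y * Qw) zc_1202590842880_0)
    EMs e_EMs
    ((1 / 2) * EM) (congrArg (fun y : ℝ => y * EM) zc_549755813888_0)
    ((1 : ℝ) - (1 / 2) * EM) rfl
  change 0 < (1 : ℝ) - (1 / 2) * EM at p_EM2
  obtain ⟨p_cl, ch18⟩ := (ch17).2
    i2 e_i2
    ((1 / 2) * EM + (1 : ℝ)) rfl
    eta e_eta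
    (EMs * i2) rfl
    ((1 / 4) * be) (congrArg (fun y : ℝ => y * be) zc_274877906944_0)
    ((1 / 4) * be + (1 : ℝ)) rfl
    t1 e_t1
    ((151 / 2048) * u1) (congrArg (fun y : ℝ => y * u1) zc_81067507712_0)
    (eta * ((151 / 2048) * u1)) rfl
    (V1 + Q) rfl
    (wse * (V1 + Q)) rfl
    (wse * (V1 + Q) + (1 : ℝ)) rfl
    (eta * ((151 / 2048) * u1) * (wse * (V1 + Q) + (1 : ℝ))) rfl
    (t1 + eta * ((151 / 2048) * u1) * (wse * (V1 + Q) + (1 : ℝ))) rfl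
    (-(t1 + eta * ((151 / 2048) * u1) * (wse * (V1 + Q) + (1 : ℝ)))) rfl
    (90239 / 1048576 : ℝ) zc_94622449664_0
    ((-(t1 + eta * ((151 / 2048) * u1) * (wse * (V1 + Q) + (1 : ℝ)))) + (90239 / 1048576 : ℝ)) rfl
  change 0 < (-(t1 + eta * ((151 / 2048) * u1) * (wse * (V1 + Q) + (1 : ℝ)))) + (90239 / 1048576 : ℝ) at p_cl
  exact ⟨wMo, EM, EMs,
    ⟨ie, be, k2, w, W, wse, y2, Wie, q, sp, q2, R2, V1, u, ls, D2, DP, XS, X, iX, G, n1, lspS,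
    lsp, ielf, uX, ielfp, zbS, zb, fac, Q, E, Qw, c2, u1, i2, eta, t1, e_ie, e_be, e_k2, e_w,
    e_W, e_wse, e_y2, e_Wie, e_q, e_sp, e_q2, e_R2, e_V1, e_u, e_ls, e_D2, e_DP, e_XS, e_X,
    e_iX, e_G, e_n1, e_lspS, e_lsp, e_ielf, e_uX, e_ielfp, e_zbS, e_zb, e_fac, e_Q, e_E, e_Qw,
    e_c2, e_u1, e_i2, e_eta, e_t1, p_X1, p_q20, p_Es, p_c20, p_RH, p_h9, p_h2, p_Er, p_dr, p_La,
    p_l1, p_l2, p_z1, p_E1, p_y, p_EM2, p_cl⟩,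
    ⟨⟨e_wMo, e_EM, e_EMs, p_row_y, p_row_b⟩⟩⟩

theorem ex_LA1_r1 {sg s k : ℝ} (h : RAs Cert.LA1.prog2 [sg, s, k]) :
    ∃ wMo EM EMs : ℝ, ∃ P : PLA (cA 1) sg s k wMo EM EMs, Nonempty (PLAr (rA 1 1) P) := by
  obtain ⟨ie, e_ie⟩ : ∃ zz : ℝ, zz = sg * sg := ⟨_, rfl⟩
  obtain ⟨be, e_be⟩ : ∃ zz : ℝ, zz = k * s := ⟨_, rfl⟩
  obtain ⟨k2, e_k2⟩ : ∃ zz : ℝ, zz = k * k := ⟨_, rfl⟩
  obtain ⟨w, e_w⟩ : ∃ zz : ℝ, zz = sg * s := ⟨_, rfl⟩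
  obtain ⟨W, e_W⟩ : ∃ zz : ℝ, zz = w * w := ⟨_, rfl⟩
  obtain ⟨wse, e_wse⟩ : ∃ zz : ℝ, zz = w * sg := ⟨_, rfl⟩
  obtain ⟨y2, e_y2⟩ : ∃ zz : ℝ, zz = s * s * ((-k2) + (1 : ℝ)) := ⟨_, rfl⟩
  obtain ⟨Wie, e_Wie⟩ : ∃ zz : ℝ, zz = W * ie := ⟨_, rfl⟩
  obtain ⟨q, e_q⟩ : ∃ zz : ℝ, zz = (4095 / 4096 : ℝ) - (1449 / 512) * sg - 30 * ie := ⟨_, rfl⟩
  obtain ⟨sp, e_sp⟩ : ∃ zz : ℝ, zz = (4095 / 4096 : ℝ) - (2899 / 2048) * sg - 24 * ie := ⟨_, rfl⟩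
  obtain ⟨q2, e_q2⟩ : ∃ zz : ℝ, zz = q - 8 * ie - (27495 / 2048) * Wie := ⟨_, rfl⟩
  obtain ⟨R2, e_R2⟩ : ∃ zz : ℝ, zz = (8521 / 2048) * ((8521 / 2048) * Wie) := ⟨_, rfl⟩
  obtain ⟨V1, e_V1⟩ : ∃ zz : ℝ, zz = R2 + (1 : ℝ) := ⟨_, rfl⟩
  obtain ⟨u, e_u⟩ : ∃ zz : ℝ, zz = Real.exp (-(q2 * ((31083 / 16384) * W))) := ⟨_, rfl⟩
  obtain ⟨wMo, e_wMo⟩ : ∃ zz : ℝ, zz = (95 / 64) * w := ⟨_, rfl⟩
  obtain ⟨ls, e_ls⟩ : ∃ zz : ℝ, zz = w * V1 * wMo := ⟨_, rfl⟩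
  obtain ⟨D2, e_D2⟩ : ∃ zz : ℝ, zz = V1 - 2 * ((31083 / 16384) * (k * wse)) := ⟨_, rfl⟩
  obtain ⟨DP, e_DP⟩ : ∃ zz : ℝ, zz = (1 : ℝ) + (1 / 2) * (R2 + 2 * ((8521 / 2048) * (k * wse))) := ⟨_, rfl⟩
  obtain ⟨XS, e_XS⟩ : ∃ zz : ℝ, zz = 4 * ((705 / 8192) * (DP * (be + (4 : ℝ))⁻¹)) := ⟨_, rfl⟩
  obtain ⟨X, e_X⟩ : ∃ zz : ℝ, zz = XS * s := ⟨_, rfl⟩
  obtain ⟨iX, e_iX⟩ : ∃ zz : ℝ, zz = ((1 : ℝ) - X)⁻¹ := ⟨_, rfl⟩
  obtain ⟨G, e_G⟩ : ∃ zz : ℝ, zz = (2 : ℝ) - (1 / 4) * y2 + (2731 / 524288) * (y2 * y2) + (859 / 1048576) * ((1 / 4) * y2 * ((1 / 4) * y2) * ((1 / 4) * y2) * ((1 / 4) * y2 * ((1 / 4) * y2) * ((1 / 4) * y2))) := ⟨_, rfl⟩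
  obtain ⟨n1, e_n1⟩ : ∃ zz : ℝ, zz = G + (8521 / 2048) * W + Real.exp (ls + (314573 / 524288) * (W * V1)) - (1 : ℝ) := ⟨_, rfl⟩
  obtain ⟨lspS, e_lspS⟩ : ∃ zz : ℝ, zz = sg * V1 * wMo + n1 * (XS * iX) := ⟨_, rfl⟩
  obtain ⟨lsp, e_lsp⟩ : ∃ zz : ℝ, zz = lspS * s := ⟨_, rfl⟩
  obtain ⟨ielf, e_ielf⟩ : ∃ zz : ℝ, zz = (9 / 2) * ie + (43691 / 524288) * sg := ⟨_, rfl⟩
  obtain ⟨uX, e_uX⟩ : ∃ zz : ℝ, zz = u * X := ⟨_, rfl⟩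
  obtain ⟨ielfp, e_ielfp⟩ : ∃ zz : ℝ, zz = ielf + ie * (uX * ((1 : ℝ) - uX)⁻¹) := ⟨_, rfl⟩
  obtain ⟨zbS, e_zbS⟩ : ∃ zz : ℝ, zz = Real.exp ((1 / 2) * Real.log (R2 - k2 + (129 / 128 : ℝ))) := ⟨_, rfl⟩
  obtain ⟨zb, e_zb⟩ : ∃ zz : ℝ, zz = zbS * s := ⟨_, rfl⟩
  obtain ⟨fac, e_fac⟩ : ∃ zz : ℝ, zz = (1 / 2) * (zb * ie) + (1064305 / 1048576 : ℝ) := ⟨_, rfl⟩
  obtain ⟨Q, e_Q⟩ : ∃ zz : ℝ, zz = fac * ((1 / 2) * wse * D2 * (zbS + (2149581 / 1048576) * k) + (zbS + (5243 / 1048576) * k) * lspS + k2 * ((445645 / 262144) * (ie * lsp) + (576717 / 262144) * ielfp)) := ⟨_, rfl⟩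
  obtain ⟨E, e_E⟩ : ∃ zz : ℝ, zz = Q * W := ⟨_, rfl⟩
  obtain ⟨Qw, e_Qw⟩ : ∃ zz : ℝ, zz = Q * wse := ⟨_, rfl⟩
  obtain ⟨c2, e_c2⟩ : ∃ zz : ℝ, zz = (4087 / 4096 : ℝ) - 2 * Qw := ⟨_, rfl⟩
  obtain ⟨u1, e_u1⟩ : ∃ zz : ℝ, zz = Real.exp (-(q2 * ((2840815 / 1048576) * (W * c2)))) := ⟨_, rfl⟩
  obtain ⟨EM, e_EM⟩ : ∃ zz : ℝ, zz = (95 / 64) * E + E := ⟨_, rfl⟩
  obtain ⟨EMs, e_EMs⟩ : ∃ zz : ℝ, zz = (95 / 64) * Qw + Qw := ⟨_, rfl⟩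
  obtain ⟨i2, e_i2⟩ : ∃ zz : ℝ, zz = ((1 : ℝ) - (1 / 2) * EM)⁻¹ := ⟨_, rfl⟩
  obtain ⟨eta, e_eta⟩ : ∃ zz : ℝ, zz = ((1 / 2) * EM + (1 : ℝ)) * i2 := ⟨_, rfl⟩
  obtain ⟨t1, e_t1⟩ : ∃ zz : ℝ, zz = EMs * i2 * ((1 / 4) * be + (1 : ℝ)) := ⟨_, rfl⟩
  obtain ⟨p_row_y, ch0⟩ := h
    (1 : ℝ) zc_1099511627776_0
    ie e_ie
    be e_be
    k2 e_k2
    w e_w
    W e_W
    wse e_wse
    (s * s) rfl
    (-k2) rfl
    ((-k2) + (1 : ℝ)) rfl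
    y2 e_y2
    Wie e_Wie
    (4095 / 4096 : ℝ) zc_1099243192320_0
    ((1449 / 512) * sg) (congrArg (fun y : ℝ => y * sg) zc_3111703805952_0)
    ((4095 / 4096 : ℝ) - (1449 / 512) * sg) rfl
    (30 * ie) (congrArg (fun y : ℝ => y * ie) zc_32985348833280_0)
    q e_q
    ((2899 / 2048) * sg) (congrArg (fun y : ℝ => y * sg) zc_1556388773888_0)
    ((4095 / 4096 : ℝ) - (2899 / 2048) * sg) rfl
    (24 * ie) (congrArg (fun y : ℝ => y * ie) zc_26388279066624_0)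
    sp e_sp
    (8 * ie) (congrArg (fun y : ℝ => y * ie) zc_8796093022208_0)
    (q - 8 * ie) rfl
    ((27495 / 2048) * Wie) (congrArg (fun y : ℝ => y * Wie) zc_14761265725440_0)
    q2 e_q2
    ((8521 / 2048) * Wie) (congrArg (fun y : ℝ => y * Wie) zc_4574677041152_0)
    R2 (e_R2.trans (congrArg (fun y : ℝ => y * ((8521 / 2048) * Wie)) zc_4574677041152_0))
    V1 e_V1
    ((31083 / 16384) * W) (congrArg (fun y : ℝ => y * W) zc_2085944819712_0)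
    (q2 * ((31083 / 16384) * W)) rfl
    (-(q2 * ((31083 / 16384) * W))) rfl
    u e_u
    (9093 / 4096 : ℝ) zc_2440883601408_0
    ((9093 / 4096 : ℝ) - y2) rfl
  change 0 < (9093 / 4096 : ℝ) - y2 at p_row_y
  obtain ⟨p_row_b, ch1⟩ := ch0
    (5121 / 1024 : ℝ) zc_5498631880704_0
    ((5121 / 1024 : ℝ) - be) rfl
  change 0 < (5121 / 1024 : ℝ) - be at p_row_b
  obtain ⟨p_X1, ch2⟩ := (ch1
    wMo (e_wMo.trans (congrArg (fun y : ℝ => y * w) zc_1632087572480_0))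
    (w * V1) rfl
    ls e_ls
    (k * wse) rfl
    ((31083 / 16384) * (k * wse)) (congrArg (fun y : ℝ => y * (k * wse)) zc_2085944819712_0)
    (2 * ((31083 / 16384) * (k * wse))) (congrArg (fun y : ℝ => y * ((31083 / 16384) * (k * wse))) zc_2199023255552_0)
    D2 e_D2
    ((8521 / 2048) * (k * wse)) (congrArg (fun y : ℝ => y * (k * wse)) zc_4574677041152_0)
    (2 * ((8521 / 2048) * (k * wse))) (congrArg (fun y : ℝ => y * ((8521 / 2048) * (k * wse))) zc_2199023255552_0)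
    (R2 + 2 * ((8521 / 2048) * (k * wse))) rfl
    ((1 / 2) * (R2 + 2 * ((8521 / 2048) * (k * wse)))) (congrArg (fun y : ℝ => y * (R2 + 2 * ((8521 / 2048) * (k * wse)))) zc_549755813888_0)
    DP e_DP
    (4 : ℝ) zc_4398046511104_0
    (be + (4 : ℝ)) rfl).2
    ((be + (4 : ℝ))⁻¹) rfl
    (DP * (be + (4 : ℝ))⁻¹) rfl
    ((705 / 8192) * (DP * (be + (4 : ℝ))⁻¹)) (congrArg (fun y : ℝ => y * (DP * (be + (4 : ℝ))⁻¹)) zc_94623498240_0)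
    XS (e_XS.trans (congrArg (fun y : ℝ => y * ((705 / 8192) * (DP * (be + (4 : ℝ))⁻¹))) zc_4398046511104_0))
    X e_X
    ((1 : ℝ) - X) rfl
  change 0 < (1 : ℝ) - X at p_X1
  obtain ⟨p_q20, ch3⟩ := (((ch2).2
    iX e_iX
    (2 : ℝ) zc_2199023255552_0
    ((1 / 4) * y2) (congrArg (fun y : ℝ => y * y2) zc_274877906944_0)
    ((2 : ℝ) - (1 / 4) * y2) rfl
    (y2 * y2) rfl
    ((2731 / 524288) * (y2 * y2)) (congrArg (fun y : ℝ => y * (y2 * y2)) zc_5727322112_0)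
    ((2 : ℝ) - (1 / 4) * y2 + (2731 / 524288) * (y2 * y2)) rfl
    ((1 / 4) * y2 * ((1 / 4) * y2)) rfl
    ((1 / 4) * y2 * ((1 / 4) * y2) * ((1 / 4) * y2)) rfl
    ((1 / 4) * y2 * ((1 / 4) * y2) * ((1 / 4) * y2) * ((1 / 4) * y2 * ((1 / 4) * y2) * ((1 / 4) * y2))) rfl
    ((859 / 1048576) * ((1 / 4) * y2 * ((1 / 4) * y2) * ((1 / 4) * y2) * ((1 / 4) * y2 * ((1 / 4) * y2) * ((1 / 4) * y2)))) (congrArg (fun y : ℝ => y * ((1 / 4) * y2 * ((1 / 4) * y2) * ((1 / 4) * y2) * ((1 / 4) * y2 * ((1 / 4) * y2) * ((1 / 4) * y2)))) zc_900726784_0)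
    G e_G
    ((8521 / 2048) * W) (congrArg (fun y : ℝ => y * W) zc_4574677041152_0)
    (G + (8521 / 2048) * W) rfl
    (W * V1) rfl
    ((314573 / 524288) * (W * V1)) (congrArg (fun y : ℝ => y * (W * V1)) zc_659707396096_0)
    (ls + (314573 / 524288) * (W * V1)) rfl
    (Real.exp (ls + (314573 / 524288) * (W * V1))) rfl
    (G + (8521 / 2048) * W + Real.exp (ls + (314573 / 524288) * (W * V1))) rfl
    n1 e_n1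
    (sg * V1) rfl
    (sg * V1 * wMo) rfl
    (XS * iX) rfl
    (n1 * (XS * iX)) rfl
    lspS e_lspS
    lsp e_lsp
    ((9 / 2) * ie) (congrArg (fun y : ℝ => y * ie) zc_4947802324992_0)
    ((43691 / 524288) * sg) (congrArg (fun y : ℝ => y * sg) zc_91626668032_0)
    ielf e_ielf
    uX e_uX
    ((1 : ℝ) - uX) rfl).2
    (((1 : ℝ) - uX)⁻¹) rfl
    (uX * ((1 : ℝ) - uX)⁻¹) rfl
    (ie * (uX * ((1 : ℝ) - uX)⁻¹)) rfl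
    ielfp e_ielfp
    (R2 - k2) rfl
    (129 / 128 : ℝ) zc_1108101562368_0
    (R2 - k2 + (129 / 128 : ℝ)) rfl).2
    (Real.log (R2 - k2 + (129 / 128 : ℝ))) rfl
    ((1 / 2) * Real.log (R2 - k2 + (129 / 128 : ℝ))) (congrArg (fun y : ℝ => y * Real.log (R2 - k2 + (129 / 128 : ℝ))) zc_549755813888_0)
    zbS e_zbS
    zb e_zb
    (zb * ie) rfl
    ((1 / 2) * (zb * ie)) (congrArg (fun y : ℝ => y * (zb * ie)) zc_549755813888_0)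
    (1064305 / 1048576 : ℝ) zc_1116004679680_0
    fac e_fac
    ((1 / 2) * wse) (congrArg (fun y : ℝ => y * wse) zc_549755813888_0)
    ((1 / 2) * wse * D2) rfl
    ((2149581 / 1048576) * k) (congrArg (fun y : ℝ => y * k) zc_2253999046656_0)
    (zbS + (2149581 / 1048576) * k) rfl
    ((1 / 2) * wse * D2 * (zbS + (2149581 / 1048576) * k)) rfl
    ((5243 / 1048576) * k) (congrArg (fun y : ℝ => y * k) zc_5497683968_0)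
    (zbS + (5243 / 1048576) * k) rfl
    ((zbS + (5243 / 1048576) * k) * lspS) rfl
    ((1 / 2) * wse * D2 * (zbS + (2149581 / 1048576) * k) + (zbS + (5243 / 1048576) * k) * lspS) rfl
    (ie * lsp) rfl
    ((445645 / 262144) * (ie * lsp)) (congrArg (fun y : ℝ => y * (ie * lsp)) zc_1869170606080_0)
    ((576717 / 262144) * ielfp) (congrArg (fun y : ℝ => y * ielfp) zc_2418926419968_0)
    ((445645 / 262144) * (ie * lsp) + (576717 / 262144) * ielfp) rfl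
    (k2 * ((445645 / 262144) * (ie * lsp) + (576717 / 262144) * ielfp)) rfl
    ((1 / 2) * wse * D2 * (zbS + (2149581 / 1048576) * k) + (zbS + (5243 / 1048576) * k) * lspS + k2 * ((445645 / 262144) * (ie * lsp) + (576717 / 262144) * ielfp)) rfl
    Q e_Q
    E e_E
    Qw e_Qw
    (4087 / 4096 : ℝ) zc_1097095708672_0
    (2 * Qw) (congrArg (fun y : ℝ => y * Qw) zc_2199023255552_0)
    c2 e_c2
  change 0 < q2 at p_q20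
  obtain ⟨p_Es, ch4⟩ := ch3
    ((1 : ℝ) - Qw) rfl
  change 0 < (1 : ℝ) - Qw at p_Es
  obtain ⟨p_c20, ch5⟩ := ch4
  change 0 < c2 at p_c20
  obtain ⟨p_RH, ch6⟩ := ch5
    (5499 / 1024 : ℝ) zc_5904506290176_0
    (8521 / 2048 : ℝ) zc_4574677041152_0
    ((5499 / 1024 : ℝ) - (8521 / 2048 : ℝ)) rfl
    ((5499 / 1024 : ℝ) - (8521 / 2048 : ℝ) - Q) rfl
    (Qw + (1 : ℝ)) rfl
    ((Qw + (1 : ℝ)) * (Qw + (1 : ℝ))) rfl
    ((5499 / 1024 : ℝ) - (8521 / 2048 : ℝ) - Q - (Qw + (1 : ℝ)) * (Qw + (1 : ℝ))) rfl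
  change 0 < (5499 / 1024 : ℝ) - (8521 / 2048 : ℝ) - Q - (Qw + (1 : ℝ)) * (Qw + (1 : ℝ)) at p_RH
  obtain ⟨p_h9, ch7⟩ := ch6
    ((9646899 / 1048576) * c2) (congrArg (fun y : ℝ => y * c2) zc_10115506765824_0)
    ((9646899 / 1048576) * c2 - (5499 / 1024 : ℝ)) rfl
  change 0 < (9646899 / 1048576) * c2 - (5499 / 1024 : ℝ) at p_h9
  obtain ⟨p_h2, ch8⟩ := ch7
    ((471859 / 524288) * c2) (congrArg (fun y : ℝ => y * c2) zc_989560045568_0)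
    ((59061 / 2048) * Wie) (congrArg (fun y : ℝ => y * Wie) zc_31708132933632_0)
    ((471859 / 524288) * c2 - (59061 / 2048) * Wie) rfl
  change 0 < (471859 / 524288) * c2 - (59061 / 2048) * Wie at p_h2
  obtain ⟨p_Er, ch9⟩ := ch8
    (31083 / 16384 : ℝ) zc_2085944819712_0
    ((31083 / 16384 : ℝ) - Q) rfl
  change 0 < (31083 / 16384 : ℝ) - Q at p_Er
  obtain ⟨p_dr, ch10⟩ := ch9
    ((12479 / 65536) * ((1 : ℝ) - Qw)) (congrArg (fun y : ℝ => y * ((1 : ℝ) - Qw)) zc_209362878464_0)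
    ((4255 / 4096) * Q) (congrArg (fun y : ℝ => y * Q) zc_1142192865280_0)
    ((12479 / 65536) * ((1 : ℝ) - Qw) - (4255 / 4096) * Q) rfl
  change 0 < (12479 / 65536) * ((1 : ℝ) - Qw) - (4255 / 4096) * Q at p_dr
  obtain ⟨p_La, ch11⟩ := ch10
    ((1 : ℝ) - 2 * Qw) rfl
    ((4475 / 1024) * ((1 : ℝ) - 2 * Qw)) (congrArg (fun y : ℝ => y * ((1 : ℝ) - 2 * Qw)) zc_4804994662400_0)
    ((4475 / 1024) * ((1 : ℝ) - 2 * Qw) - (8521 / 2048 : ℝ)) rfl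
    ((4475 / 1024) * ((1 : ℝ) - 2 * Qw) - (8521 / 2048 : ℝ) - Q) rfl
  change 0 < (4475 / 1024) * ((1 : ℝ) - 2 * Qw) - (8521 / 2048 : ℝ) - Q at p_La
  obtain ⟨p_l1, ch12⟩ := ch11
    (-(ie * lsp)) rfl
    (10485 / 1048576 : ℝ) zc_10994319360_0
    ((-(ie * lsp)) + (10485 / 1048576 : ℝ)) rfl
  change 0 < (-(ie * lsp)) + (10485 / 1048576 : ℝ) at p_l1
  obtain ⟨p_l2, ch13⟩ := ch12
    (-ielfp) rfl
    (20971 / 1048576 : ℝ) zc_21989687296_0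
    ((-ielfp) + (20971 / 1048576 : ℝ)) rfl
  change 0 < (-ielfp) + (20971 / 1048576 : ℝ) at p_l2
  obtain ⟨p_z1, ch14⟩ := ch13
    (-(zb * ie)) rfl
    (104857 / 1048576 : ℝ) zc_109950533632_0
    ((-(zb * ie)) + (104857 / 1048576 : ℝ)) rfl
  change 0 < (-(zb * ie)) + (104857 / 1048576 : ℝ) at p_z1
  obtain ⟨p_E1, ch15⟩ := ch14
    (E * ie) rfl
    (-(E * ie)) rfl
    (2621 / 524288 : ℝ) zc_5496635392_0
    ((-(E * ie)) + (2621 / 524288 : ℝ)) rfl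
  change 0 < (-(E * ie)) + (2621 / 524288 : ℝ) at p_E1
  obtain ⟨p_y, ch16⟩ := ch15
    (-E) rfl
    (41 / 4096 : ℝ) zc_11005853696_0
    ((-E) + (41 / 4096 : ℝ)) rfl
  change 0 < (-E) + (41 / 4096 : ℝ) at p_y
  obtain ⟨p_EM2, ch17⟩ := ch16
    (W * c2) rfl
    ((2840815 / 1048576) * (W * c2)) (congrArg (fun y : ℝ => y * (W * c2)) zc_2978810429440_0)
    (q2 * ((2840815 / 1048576) * (W * c2))) rfl
    (-(q2 * ((2840815 / 1048576) * (W * c2)))) rfl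
    u1 e_u1
    ((95 / 64) * E) (congrArg (fun y : ℝ => y * E) zc_1632087572480_0)
    EM e_EM
    ((95 / 64) * Qw) (congrArg (fun y : ℝ => y * Qw) zc_1632087572480_0)
    EMs e_EMs
    ((1 / 2) * EM) (congrArg (fun y : ℝ => y * EM) zc_549755813888_0)
    ((1 : ℝ) - (1 / 2) * EM) rfl
  change 0 < (1 : ℝ) - (1 / 2) * EM at p_EM2
  obtain ⟨p_cl, ch18⟩ := (ch17).2
    i2 e_i2
    ((1 / 2) * EM + (1 : ℝ)) rfl
    eta e_eta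
    (EMs * i2) rfl
    ((1 / 4) * be) (congrArg (fun y : ℝ => y * be) zc_274877906944_0)
    ((1 / 4) * be + (1 : ℝ)) rfl
    t1 e_t1
    ((151 / 2048) * u1) (congrArg (fun y : ℝ => y * u1) zc_81067507712_0)
    (eta * ((151 / 2048) * u1)) rfl
    (V1 + Q) rfl
    (wse * (V1 + Q)) rfl
    (wse * (V1 + Q) + (1 : ℝ)) rfl
    (eta * ((151 / 2048) * u1) * (wse * (V1 + Q) + (1 : ℝ))) rfl
    (t1 + eta * ((151 / 2048) * u1) * (wse * (V1 + Q) + (1 : ℝ))) rfl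
    (-(t1 + eta * ((151 / 2048) * u1) * (wse * (V1 + Q) + (1 : ℝ)))) rfl
    (90239 / 1048576 : ℝ) zc_94622449664_0
    ((-(t1 + eta * ((151 / 2048) * u1) * (wse * (V1 + Q) + (1 : ℝ)))) + (90239 / 1048576 : ℝ)) rfl
  change 0 < (-(t1 + eta * ((151 / 2048) * u1) * (wse * (V1 + Q) + (1 : ℝ)))) + (90239 / 1048576 : ℝ) at p_cl
  exact ⟨wMo, EM, EMs,
    ⟨ie, be, k2, w, W, wse, y2, Wie, q, sp, q2, R2, V1, u, ls, D2, DP, XS, X, iX, G, n1, lspS,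
    lsp, ielf, uX, ielfp, zbS, zb, fac, Q, E, Qw, c2, u1, i2, eta, t1, e_ie, e_be, e_k2, e_w,
    e_W, e_wse, e_y2, e_Wie, e_q, e_sp, e_q2, e_R2, e_V1, e_u, e_ls, e_D2, e_DP, e_XS, e_X,
    e_iX, e_G, e_n1, e_lspS, e_lsp, e_ielf, e_uX, e_ielfp, e_zbS, e_zb, e_fac, e_Q, e_E, e_Qw,
    e_c2, e_u1, e_i2, e_eta, e_t1, p_X1, p_q20, p_Es, p_c20, p_RH, p_h9, p_h2, p_Er, p_dr, p_La,
    p_l1, p_l2, p_z1, p_E1, p_y, p_EM2, p_cl⟩,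
    ⟨⟨e_wMo, e_EM, e_EMs, p_row_y, p_row_b⟩⟩⟩

theorem ex_LA1_r2 {sg s k : ℝ} (h : RAs Cert.LA1.prog3 [sg, s, k]) :
    ∃ wMo EM EMs : ℝ, ∃ P : PLA (cA 1) sg s k wMo EM EMs, Nonempty (PLAr (rA 1 2) P) := by
  obtain ⟨ie, e_ie⟩ : ∃ zz : ℝ, zz = sg * sg := ⟨_, rfl⟩
  obtain ⟨be, e_be⟩ : ∃ zz : ℝ, zz = k * s := ⟨_, rfl⟩
  obtain ⟨k2, e_k2⟩ : ∃ zz : ℝ, zz = k * k := ⟨_, rfl⟩
  obtain ⟨w, e_w⟩ : ∃ zz : ℝ, zz = sg * s := ⟨_, rfl⟩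
  obtain ⟨W, e_W⟩ : ∃ zz : ℝ, zz = w * w := ⟨_, rfl⟩
  obtain ⟨wse, e_wse⟩ : ∃ zz : ℝ, zz = w * sg := ⟨_, rfl⟩
  obtain ⟨y2, e_y2⟩ : ∃ zz : ℝ, zz = s * s * ((-k2) + (1 : ℝ)) := ⟨_, rfl⟩
  obtain ⟨Wie, e_Wie⟩ : ∃ zz : ℝ, zz = W * ie := ⟨_, rfl⟩
  obtain ⟨q, e_q⟩ : ∃ zz : ℝ, zz = (4095 / 4096 : ℝ) - (1449 / 512) * sg - 30 * ie := ⟨_, rfl⟩
  obtain ⟨sp, e_sp⟩ : ∃ zz : ℝ, zz = (4095 / 4096 : ℝ) - (2899 / 2048) * sg - 24 * ie := ⟨_, rfl⟩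
  obtain ⟨q2, e_q2⟩ : ∃ zz : ℝ, zz = q - 8 * ie - (27495 / 2048) * Wie := ⟨_, rfl⟩
  obtain ⟨R2, e_R2⟩ : ∃ zz : ℝ, zz = (8521 / 2048) * ((8521 / 2048) * Wie) := ⟨_, rfl⟩
  obtain ⟨V1, e_V1⟩ : ∃ zz : ℝ, zz = R2 + (1 : ℝ) := ⟨_, rfl⟩
  obtain ⟨u, e_u⟩ : ∃ zz : ℝ, zz = Real.exp (-(q2 * ((31083 / 16384) * W))) := ⟨_, rfl⟩
  obtain ⟨wMo, e_wMo⟩ : ∃ zz : ℝ, zz = (23 / 8) * w := ⟨_, rfl⟩
  obtain ⟨ls, e_ls⟩ : ∃ zz : ℝ, zz = w * V1 * wMo := ⟨_, rfl⟩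
  obtain ⟨D2, e_D2⟩ : ∃ zz : ℝ, zz = V1 - 2 * ((31083 / 16384) * (k * wse)) := ⟨_, rfl⟩
  obtain ⟨DP, e_DP⟩ : ∃ zz : ℝ, zz = (1 : ℝ) + (1 / 2) * (R2 + 2 * ((8521 / 2048) * (k * wse))) := ⟨_, rfl⟩
  obtain ⟨XS, e_XS⟩ : ∃ zz : ℝ, zz = 4 * ((705 / 8192) * (DP * (be + (4 : ℝ))⁻¹)) := ⟨_, rfl⟩
  obtain ⟨X, e_X⟩ : ∃ zz : ℝ, zz = XS * s := ⟨_, rfl⟩
  obtain ⟨iX, e_iX⟩ : ∃ zz : ℝ, zz = ((1 : ℝ) - X)⁻¹ := ⟨_, rfl⟩
  obtain ⟨G, e_G⟩ : ∃ zz : ℝ, zz = (2 : ℝ) - (1 / 4) * y2 + (2731 / 524288) * (y2 * y2) + (859 / 1048576) * ((1 / 4) * y2 * ((1 / 4) * y2) * ((1 / 4) * y2) * ((1 / 4) * y2 * ((1 / 4) * y2) * ((1 / 4) * y2))) := ⟨_, rfl⟩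
  obtain ⟨n1, e_n1⟩ : ∃ zz : ℝ, zz = G + (8521 / 2048) * W + Real.exp (ls + (314573 / 524288) * (W * V1)) - (1 : ℝ) := ⟨_, rfl⟩
  obtain ⟨lspS, e_lspS⟩ : ∃ zz : ℝ, zz = sg * V1 * wMo + n1 * (XS * iX) := ⟨_, rfl⟩
  obtain ⟨lsp, e_lsp⟩ : ∃ zz : ℝ, zz = lspS * s := ⟨_, rfl⟩
  obtain ⟨ielf, e_ielf⟩ : ∃ zz : ℝ, zz = (9 / 2) * ie + (43691 / 524288) * sg := ⟨_, rfl⟩
  obtain ⟨uX, e_uX⟩ : ∃ zz : ℝ, zz = u * X := ⟨_, rfl⟩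
  obtain ⟨ielfp, e_ielfp⟩ : ∃ zz : ℝ, zz = ielf + ie * (uX * ((1 : ℝ) - uX)⁻¹) := ⟨_, rfl⟩
  obtain ⟨zbS, e_zbS⟩ : ∃ zz : ℝ, zz = Real.exp ((1 / 2) * Real.log (R2 - k2 + (129 / 128 : ℝ))) := ⟨_, rfl⟩
  obtain ⟨zb, e_zb⟩ : ∃ zz : ℝ, zz = zbS * s := ⟨_, rfl⟩
  obtain ⟨fac, e_fac⟩ : ∃ zz : ℝ, zz = (1 / 2) * (zb * ie) + (1064305 / 1048576 : ℝ) := ⟨_, rfl⟩
  obtain ⟨Q, e_Q⟩ : ∃ zz : ℝ, zz = fac * ((1 / 2) * wse * D2 * (zbS + (2149581 / 1048576) * k) + (zbS + (5243 / 1048576) * k) * lspS + k2 * ((445645 / 262144) * (ie * lsp) + (576717 / 262144) * ielfp)) := ⟨_, rfl⟩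
  obtain ⟨E, e_E⟩ : ∃ zz : ℝ, zz = Q * W := ⟨_, rfl⟩
  obtain ⟨Qw, e_Qw⟩ : ∃ zz : ℝ, zz = Q * wse := ⟨_, rfl⟩
  obtain ⟨c2, e_c2⟩ : ∃ zz : ℝ, zz = (4087 / 4096 : ℝ) - 2 * Qw := ⟨_, rfl⟩
  obtain ⟨u1, e_u1⟩ : ∃ zz : ℝ, zz = Real.exp (-(q2 * ((2840815 / 1048576) * (W * c2)))) := ⟨_, rfl⟩
  obtain ⟨EM, e_EM⟩ : ∃ zz : ℝ, zz = (23 / 8) * E + E := ⟨_, rfl⟩
  obtain ⟨EMs, e_EMs⟩ : ∃ zz : ℝ, zz = (23 / 8) * Qw + Qw := ⟨_, rfl⟩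
  obtain ⟨i2, e_i2⟩ : ∃ zz : ℝ, zz = ((1 : ℝ) - (1 / 2) * EM)⁻¹ := ⟨_, rfl⟩
  obtain ⟨eta, e_eta⟩ : ∃ zz : ℝ, zz = ((1 / 2) * EM + (1 : ℝ)) * i2 := ⟨_, rfl⟩
  obtain ⟨t1, e_t1⟩ : ∃ zz : ℝ, zz = EMs * i2 * ((1 / 4) * be + (1 : ℝ)) := ⟨_, rfl⟩
  obtain ⟨p_row_y, ch0⟩ := h
    (1 : ℝ) zc_1099511627776_0
    ie e_ie
    be e_be
    k2 e_k2
    w e_w
    W e_W
    wse e_wse
    (s * s) rfl
    (-k2) rfl
    ((-k2) + (1 : ℝ)) rfl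
    y2 e_y2
    Wie e_Wie
    (4095 / 4096 : ℝ) zc_1099243192320_0
    ((1449 / 512) * sg) (congrArg (fun y : ℝ => y * sg) zc_3111703805952_0)
    ((4095 / 4096 : ℝ) - (1449 / 512) * sg) rfl
    (30 * ie) (congrArg (fun y : ℝ => y * ie) zc_32985348833280_0)
    q e_q
    ((2899 / 2048) * sg) (congrArg (fun y : ℝ => y * sg) zc_1556388773888_0)
    ((4095 / 4096 : ℝ) - (2899 / 2048) * sg) rfl
    (24 * ie) (congrArg (fun y : ℝ => y * ie) zc_26388279066624_0)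
    sp e_sp
    (8 * ie) (congrArg (fun y : ℝ => y * ie) zc_8796093022208_0)
    (q - 8 * ie) rfl
    ((27495 / 2048) * Wie) (congrArg (fun y : ℝ => y * Wie) zc_14761265725440_0)
    q2 e_q2
    ((8521 / 2048) * Wie) (congrArg (fun y : ℝ => y * Wie) zc_4574677041152_0)
    R2 (e_R2.trans (congrArg (fun y : ℝ => y * ((8521 / 2048) * Wie)) zc_4574677041152_0))
    V1 e_V1
    ((31083 / 16384) * W) (congrArg (fun y : ℝ => y * W) zc_2085944819712_0)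
    (q2 * ((31083 / 16384) * W)) rfl
    (-(q2 * ((31083 / 16384) * W))) rfl
    u e_u
    (4055 / 1024 : ℝ) zc_4354023096320_0
    ((4055 / 1024 : ℝ) - y2) rfl
  change 0 < (4055 / 1024 : ℝ) - y2 at p_row_y
  obtain ⟨p_row_b, ch1⟩ := ch0
    (5121 / 1024 : ℝ) zc_5498631880704_0
    ((5121 / 1024 : ℝ) - be) rfl
  change 0 < (5121 / 1024 : ℝ) - be at p_row_b
  obtain ⟨p_X1, ch2⟩ := (ch1
    wMo (e_wMo.trans (congrArg (fun y : ℝ => y * w) zc_3161095929856_0))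
    (w * V1) rfl
    ls e_ls
    (k * wse) rfl
    ((31083 / 16384) * (k * wse)) (congrArg (fun y : ℝ => y * (k * wse)) zc_2085944819712_0)
    (2 * ((31083 / 16384) * (k * wse))) (congrArg (fun y : ℝ => y * ((31083 / 16384) * (k * wse))) zc_2199023255552_0)
    D2 e_D2
    ((8521 / 2048) * (k * wse)) (congrArg (fun y : ℝ => y * (k * wse)) zc_4574677041152_0)
    (2 * ((8521 / 2048) * (k * wse))) (congrArg (fun y : ℝ => y * ((8521 / 2048) * (k * wse))) zc_2199023255552_0)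
    (R2 + 2 * ((8521 / 2048) * (k * wse))) rfl
    ((1 / 2) * (R2 + 2 * ((8521 / 2048) * (k * wse)))) (congrArg (fun y : ℝ => y * (R2 + 2 * ((8521 / 2048) * (k * wse)))) zc_549755813888_0)
    DP e_DP
    (4 : ℝ) zc_4398046511104_0
    (be + (4 : ℝ)) rfl).2
    ((be + (4 : ℝ))⁻¹) rfl
    (DP * (be + (4 : ℝ))⁻¹) rfl
    ((705 / 8192) * (DP * (be + (4 : ℝ))⁻¹)) (congrArg (fun y : ℝ => y * (DP * (be + (4 : ℝ))⁻¹)) zc_94623498240_0)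
    XS (e_XS.trans (congrArg (fun y : ℝ => y * ((705 / 8192) * (DP * (be + (4 : ℝ))⁻¹))) zc_4398046511104_0))
    X e_X
    ((1 : ℝ) - X) rfl
  change 0 < (1 : ℝ) - X at p_X1
  obtain ⟨p_q20, ch3⟩ := (((ch2).2
    iX e_iX
    (2 : ℝ) zc_2199023255552_0
    ((1 / 4) * y2) (congrArg (fun y : ℝ => y * y2) zc_274877906944_0)
    ((2 : ℝ) - (1 / 4) * y2) rfl
    (y2 * y2) rfl
    ((2731 / 524288) * (y2 * y2)) (congrArg (fun y : ℝ => y * (y2 * y2)) zc_5727322112_0)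
    ((2 : ℝ) - (1 / 4) * y2 + (2731 / 524288) * (y2 * y2)) rfl
    ((1 / 4) * y2 * ((1 / 4) * y2)) rfl
    ((1 / 4) * y2 * ((1 / 4) * y2) * ((1 / 4) * y2)) rfl
    ((1 / 4) * y2 * ((1 / 4) * y2) * ((1 / 4) * y2) * ((1 / 4) * y2 * ((1 / 4) * y2) * ((1 / 4) * y2))) rfl
    ((859 / 1048576) * ((1 / 4) * y2 * ((1 / 4) * y2) * ((1 / 4) * y2) * ((1 / 4) * y2 * ((1 / 4) * y2) * ((1 / 4) * y2)))) (congrArg (fun y : ℝ => y * ((1 / 4) * y2 * ((1 / 4) * y2) * ((1 / 4) * y2) * ((1 / 4) * y2 * ((1 / 4) * y2) * ((1 / 4) * y2)))) zc_900726784_0)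
    G e_G
    ((8521 / 2048) * W) (congrArg (fun y : ℝ => y * W) zc_4574677041152_0)
    (G + (8521 / 2048) * W) rfl
    (W * V1) rfl
    ((314573 / 524288) * (W * V1)) (congrArg (fun y : ℝ => y * (W * V1)) zc_659707396096_0)
    (ls + (314573 / 524288) * (W * V1)) rfl
    (Real.exp (ls + (314573 / 524288) * (W * V1))) rfl
    (G + (8521 / 2048) * W + Real.exp (ls + (314573 / 524288) * (W * V1))) rfl
    n1 e_n1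
    (sg * V1) rfl
    (sg * V1 * wMo) rfl
    (XS * iX) rfl
    (n1 * (XS * iX)) rfl
    lspS e_lspS
    lsp e_lsp
    ((9 / 2) * ie) (congrArg (fun y : ℝ => y * ie) zc_4947802324992_0)
    ((43691 / 524288) * sg) (congrArg (fun y : ℝ => y * sg) zc_91626668032_0)
    ielf e_ielf
    uX e_uX
    ((1 : ℝ) - uX) rfl).2
    (((1 : ℝ) - uX)⁻¹) rfl
    (uX * ((1 : ℝ) - uX)⁻¹) rfl
    (ie * (uX * ((1 : ℝ) - uX)⁻¹)) rfl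
    ielfp e_ielfp
    (R2 - k2) rfl
    (129 / 128 : ℝ) zc_1108101562368_0
    (R2 - k2 + (129 / 128 : ℝ)) rfl).2
    (Real.log (R2 - k2 + (129 / 128 : ℝ))) rfl
    ((1 / 2) * Real.log (R2 - k2 + (129 / 128 : ℝ))) (congrArg (fun y : ℝ => y * Real.log (R2 - k2 + (129 / 128 : ℝ))) zc_549755813888_0)
    zbS e_zbS
    zb e_zb
    (zb * ie) rfl
    ((1 / 2) * (zb * ie)) (congrArg (fun y : ℝ => y * (zb * ie)) zc_549755813888_0)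
    (1064305 / 1048576 : ℝ) zc_1116004679680_0
    fac e_fac
    ((1 / 2) * wse) (congrArg (fun y : ℝ => y * wse) zc_549755813888_0)
    ((1 / 2) * wse * D2) rfl
    ((2149581 / 1048576) * k) (congrArg (fun y : ℝ => y * k) zc_2253999046656_0)
    (zbS + (2149581 / 1048576) * k) rfl
    ((1 / 2) * wse * D2 * (zbS + (2149581 / 1048576) * k)) rfl
    ((5243 / 1048576) * k) (congrArg (fun y : ℝ => y * k) zc_5497683968_0)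
    (zbS + (5243 / 1048576) * k) rfl
    ((zbS + (5243 / 1048576) * k) * lspS) rfl
    ((1 / 2) * wse * D2 * (zbS + (2149581 / 1048576) * k) + (zbS + (5243 / 1048576) * k) * lspS) rfl
    (ie * lsp) rfl
    ((445645 / 262144) * (ie * lsp)) (congrArg (fun y : ℝ => y * (ie * lsp)) zc_1869170606080_0)
    ((576717 / 262144) * ielfp) (congrArg (fun y : ℝ => y * ielfp) zc_2418926419968_0)
    ((445645 / 262144) * (ie * lsp) + (576717 / 262144) * ielfp) rfl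
    (k2 * ((445645 / 262144) * (ie * lsp) + (576717 / 262144) * ielfp)) rfl
    ((1 / 2) * wse * D2 * (zbS + (2149581 / 1048576) * k) + (zbS + (5243 / 1048576) * k) * lspS + k2 * ((445645 / 262144) * (ie * lsp) + (576717 / 262144) * ielfp)) rfl
    Q e_Q
    E e_E
    Qw e_Qw
    (4087 / 4096 : ℝ) zc_1097095708672_0
    (2 * Qw) (congrArg (fun y : ℝ => y * Qw) zc_2199023255552_0)
    c2 e_c2
  change 0 < q2 at p_q20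
  obtain ⟨p_Es, ch4⟩ := ch3
    ((1 : ℝ) - Qw) rfl
  change 0 < (1 : ℝ) - Qw at p_Es
  obtain ⟨p_c20, ch5⟩ := ch4
  change 0 < c2 at p_c20
  obtain ⟨p_RH, ch6⟩ := ch5
    (5499 / 1024 : ℝ) zc_5904506290176_0
    (8521 / 2048 : ℝ) zc_4574677041152_0
    ((5499 / 1024 : ℝ) - (8521 / 2048 : ℝ)) rfl
    ((5499 / 1024 : ℝ) - (8521 / 2048 : ℝ) - Q) rfl
    (Qw + (1 : ℝ)) rfl
    ((Qw + (1 : ℝ)) * (Qw + (1 : ℝ))) rfl
    ((5499 / 1024 : ℝ) - (8521 / 2048 : ℝ) - Q - (Qw + (1 : ℝ)) * (Qw + (1 : ℝ))) rfl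
  change 0 < (5499 / 1024 : ℝ) - (8521 / 2048 : ℝ) - Q - (Qw + (1 : ℝ)) * (Qw + (1 : ℝ)) at p_RH
  obtain ⟨p_h9, ch7⟩ := ch6
    ((9646899 / 1048576) * c2) (congrArg (fun y : ℝ => y * c2) zc_10115506765824_0)
    ((9646899 / 1048576) * c2 - (5499 / 1024 : ℝ)) rfl
  change 0 < (9646899 / 1048576) * c2 - (5499 / 1024 : ℝ) at p_h9
  obtain ⟨p_h2, ch8⟩ := ch7
    ((471859 / 524288) * c2) (congrArg (fun y : ℝ => y * c2) zc_989560045568_0)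
    ((59061 / 2048) * Wie) (congrArg (fun y : ℝ => y * Wie) zc_31708132933632_0)
    ((471859 / 524288) * c2 - (59061 / 2048) * Wie) rfl
  change 0 < (471859 / 524288) * c2 - (59061 / 2048) * Wie at p_h2
  obtain ⟨p_Er, ch9⟩ := ch8
    (31083 / 16384 : ℝ) zc_2085944819712_0
    ((31083 / 16384 : ℝ) - Q) rfl
  change 0 < (31083 / 16384 : ℝ) - Q at p_Er
  obtain ⟨p_dr, ch10⟩ := ch9
    ((12479 / 65536) * ((1 : ℝ) - Qw)) (congrArg (fun y : ℝ => y * ((1 : ℝ) - Qw)) zc_209362878464_0)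
    ((4255 / 4096) * Q) (congrArg (fun y : ℝ => y * Q) zc_1142192865280_0)
    ((12479 / 65536) * ((1 : ℝ) - Qw) - (4255 / 4096) * Q) rfl
  change 0 < (12479 / 65536) * ((1 : ℝ) - Qw) - (4255 / 4096) * Q at p_dr
  obtain ⟨p_La, ch11⟩ := ch10
    ((1 : ℝ) - 2 * Qw) rfl
    ((4475 / 1024) * ((1 : ℝ) - 2 * Qw)) (congrArg (fun y : ℝ => y * ((1 : ℝ) - 2 * Qw)) zc_4804994662400_0)
    ((4475 / 1024) * ((1 : ℝ) - 2 * Qw) - (8521 / 2048 : ℝ)) rfl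
    ((4475 / 1024) * ((1 : ℝ) - 2 * Qw) - (8521 / 2048 : ℝ) - Q) rfl
  change 0 < (4475 / 1024) * ((1 : ℝ) - 2 * Qw) - (8521 / 2048 : ℝ) - Q at p_La
  obtain ⟨p_l1, ch12⟩ := ch11
    (-(ie * lsp)) rfl
    (10485 / 1048576 : ℝ) zc_10994319360_0
    ((-(ie * lsp)) + (10485 / 1048576 : ℝ)) rfl
  change 0 < (-(ie * lsp)) + (10485 / 1048576 : ℝ) at p_l1
  obtain ⟨p_l2, ch13⟩ := ch12
    (-ielfp) rfl
    (20971 / 1048576 : ℝ) zc_21989687296_0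
    ((-ielfp) + (20971 / 1048576 : ℝ)) rfl
  change 0 < (-ielfp) + (20971 / 1048576 : ℝ) at p_l2
  obtain ⟨p_z1, ch14⟩ := ch13
    (-(zb * ie)) rfl
    (104857 / 1048576 : ℝ) zc_109950533632_0
    ((-(zb * ie)) + (104857 / 1048576 : ℝ)) rfl
  change 0 < (-(zb * ie)) + (104857 / 1048576 : ℝ) at p_z1
  obtain ⟨p_E1, ch15⟩ := ch14
    (E * ie) rfl
    (-(E * ie)) rfl
    (2621 / 524288 : ℝ) zc_5496635392_0
    ((-(E * ie)) + (2621 / 524288 : ℝ)) rfl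
  change 0 < (-(E * ie)) + (2621 / 524288 : ℝ) at p_E1
  obtain ⟨p_y, ch16⟩ := ch15
    (-E) rfl
    (41 / 4096 : ℝ) zc_11005853696_0
    ((-E) + (41 / 4096 : ℝ)) rfl
  change 0 < (-E) + (41 / 4096 : ℝ) at p_y
  obtain ⟨p_EM2, ch17⟩ := ch16
    (W * c2) rfl
    ((2840815 / 1048576) * (W * c2)) (congrArg (fun y : ℝ => y * (W * c2)) zc_2978810429440_0)
    (q2 * ((2840815 / 1048576) * (W * c2))) rfl
    (-(q2 * ((2840815 / 1048576) * (W * c2)))) rfl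
    u1 e_u1
    ((23 / 8) * E) (congrArg (fun y : ℝ => y * E) zc_3161095929856_0)
    EM e_EM
    ((23 / 8) * Qw) (congrArg (fun y : ℝ => y * Qw) zc_3161095929856_0)
    EMs e_EMs
    ((1 / 2) * EM) (congrArg (fun y : ℝ => y * EM) zc_549755813888_0)
    ((1 : ℝ) - (1 / 2) * EM) rfl
  change 0 < (1 : ℝ) - (1 / 2) * EM at p_EM2
  obtain ⟨p_cl, ch18⟩ := (ch17).2
    i2 e_i2
    ((1 / 2) * EM + (1 : ℝ)) rfl
    eta e_eta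
    (EMs * i2) rfl
    ((1 / 4) * be) (congrArg (fun y : ℝ => y * be) zc_274877906944_0)
    ((1 / 4) * be + (1 : ℝ)) rfl
    t1 e_t1
    ((151 / 2048) * u1) (congrArg (fun y : ℝ => y * u1) zc_81067507712_0)
    (eta * ((151 / 2048) * u1)) rfl
    (V1 + Q) rfl
    (wse * (V1 + Q)) rfl
    (wse * (V1 + Q) + (1 : ℝ)) rfl
    (eta * ((151 / 2048) * u1) * (wse * (V1 + Q) + (1 : ℝ))) rfl
    (t1 + eta * ((151 / 2048) * u1) * (wse * (V1 + Q) + (1 : ℝ))) rfl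
    (-(t1 + eta * ((151 / 2048) * u1) * (wse * (V1 + Q) + (1 : ℝ)))) rfl
    (90239 / 1048576 : ℝ) zc_94622449664_0
    ((-(t1 + eta * ((151 / 2048) * u1) * (wse * (V1 + Q) + (1 : ℝ)))) + (90239 / 1048576 : ℝ)) rfl
  change 0 < (-(t1 + eta * ((151 / 2048) * u1) * (wse * (V1 + Q) + (1 : ℝ)))) + (90239 / 1048576 : ℝ) at p_cl
  exact ⟨wMo, EM, EMs,
    ⟨ie, be, k2, w, W, wse, y2, Wie, q, sp, q2, R2, V1, u, ls, D2, DP, XS, X, iX, G, n1, lspS,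
    lsp, ielf, uX, ielfp, zbS, zb, fac, Q, E, Qw, c2, u1, i2, eta, t1, e_ie, e_be, e_k2, e_w,
    e_W, e_wse, e_y2, e_Wie, e_q, e_sp, e_q2, e_R2, e_V1, e_u, e_ls, e_D2, e_DP, e_XS, e_X,
    e_iX, e_G, e_n1, e_lspS, e_lsp, e_ielf, e_uX, e_ielfp, e_zbS, e_zb, e_fac, e_Q, e_E, e_Qw,
    e_c2, e_u1, e_i2, e_eta, e_t1, p_X1, p_q20, p_Es, p_c20, p_RH, p_h9, p_h2, p_Er, p_dr, p_La,
    p_l1, p_l2, p_z1, p_E1, p_y, p_EM2, p_cl⟩,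
    ⟨⟨e_wMo, e_EM, e_EMs, p_row_y, p_row_b⟩⟩⟩

theorem ex_LA1_r3 {sg s k : ℝ} (h : RAs Cert.LA1.prog4 [sg, s, k]) :
    ∃ wMo EM EMs : ℝ, ∃ P : PLA (cA 1) sg s k wMo EM EMs, Nonempty (PLAr (rA 1 3) P) := by
  obtain ⟨ie, e_ie⟩ : ∃ zz : ℝ, zz = sg * sg := ⟨_, rfl⟩
  obtain ⟨be, e_be⟩ : ∃ zz : ℝ, zz = k * s := ⟨_, rfl⟩
  obtain ⟨k2, e_k2⟩ : ∃ zz : ℝ, zz = k * k := ⟨_, rfl⟩
  obtain ⟨w, e_w⟩ : ∃ zz : ℝ, zz = sg * s := ⟨_, rfl⟩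
  obtain ⟨W, e_W⟩ : ∃ zz : ℝ, zz = w * w := ⟨_, rfl⟩
  obtain ⟨wse, e_wse⟩ : ∃ zz : ℝ, zz = w * sg := ⟨_, rfl⟩
  obtain ⟨y2, e_y2⟩ : ∃ zz : ℝ, zz = s * s * ((-k2) + (1 : ℝ)) := ⟨_, rfl⟩
  obtain ⟨Wie, e_Wie⟩ : ∃ zz : ℝ, zz = W * ie := ⟨_, rfl⟩
  obtain ⟨q, e_q⟩ : ∃ zz : ℝ, zz = (4095 / 4096 : ℝ) - (1449 / 512) * sg - 30 * ie := ⟨_, rfl⟩
  obtain ⟨sp, e_sp⟩ : ∃ zz : ℝ, zz = (4095 / 4096 : ℝ) - (2899 / 2048) * sg - 24 * ie := ⟨_, rfl⟩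
  obtain ⟨q2, e_q2⟩ : ∃ zz : ℝ, zz = q - 8 * ie - (27495 / 2048) * Wie := ⟨_, rfl⟩
  obtain ⟨R2, e_R2⟩ : ∃ zz : ℝ, zz = (8521 / 2048) * ((8521 / 2048) * Wie) := ⟨_, rfl⟩
  obtain ⟨V1, e_V1⟩ : ∃ zz : ℝ, zz = R2 + (1 : ℝ) := ⟨_, rfl⟩
  obtain ⟨u, e_u⟩ : ∃ zz : ℝ, zz = Real.exp (-(q2 * ((31083 / 16384) * W))) := ⟨_, rfl⟩
  obtain ⟨wMo, e_wMo⟩ : ∃ zz : ℝ, zz = (143 / 32) * w := ⟨_, rfl⟩
  obtain ⟨ls, e_ls⟩ : ∃ zz : ℝ, zz = w * V1 * wMo := ⟨_, rfl⟩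
  obtain ⟨D2, e_D2⟩ : ∃ zz : ℝ, zz = V1 - 2 * ((31083 / 16384) * (k * wse)) := ⟨_, rfl⟩
  obtain ⟨DP, e_DP⟩ : ∃ zz : ℝ, zz = (1 : ℝ) + (1 / 2) * (R2 + 2 * ((8521 / 2048) * (k * wse))) := ⟨_, rfl⟩
  obtain ⟨XS, e_XS⟩ : ∃ zz : ℝ, zz = 4 * ((705 / 8192) * (DP * (be + (4 : ℝ))⁻¹)) := ⟨_, rfl⟩
  obtain ⟨X, e_X⟩ : ∃ zz : ℝ, zz = XS * s := ⟨_, rfl⟩
  obtain ⟨iX, e_iX⟩ : ∃ zz : ℝ, zz = ((1 : ℝ) - X)⁻¹ := ⟨_, rfl⟩
  obtain ⟨G, e_G⟩ : ∃ zz : ℝ, zz = (2 : ℝ) - (1 / 4) * y2 + (2731 / 524288) * (y2 * y2) + (859 / 1048576) * ((1 / 4) * y2 * ((1 / 4) * y2) * ((1 / 4) * y2) * ((1 / 4) * y2 * ((1 / 4) * y2) * ((1 / 4) * y2))) := ⟨_, rfl⟩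
  obtain ⟨n1, e_n1⟩ : ∃ zz : ℝ, zz = G + (8521 / 2048) * W + Real.exp (ls + (314573 / 524288) * (W * V1)) - (1 : ℝ) := ⟨_, rfl⟩
  obtain ⟨lspS, e_lspS⟩ : ∃ zz : ℝ, zz = sg * V1 * wMo + n1 * (XS * iX) := ⟨_, rfl⟩
  obtain ⟨lsp, e_lsp⟩ : ∃ zz : ℝ, zz = lspS * s := ⟨_, rfl⟩
  obtain ⟨ielf, e_ielf⟩ : ∃ zz : ℝ, zz = (9 / 2) * ie + (43691 / 524288) * sg := ⟨_, rfl⟩
  obtain ⟨uX, e_uX⟩ : ∃ zz : ℝ, zz = u * X := ⟨_, rfl⟩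
  obtain ⟨ielfp, e_ielfp⟩ : ∃ zz : ℝ, zz = ielf + ie * (uX * ((1 : ℝ) - uX)⁻¹) := ⟨_, rfl⟩
  obtain ⟨zbS, e_zbS⟩ : ∃ zz : ℝ, zz = Real.exp ((1 / 2) * Real.log (R2 - k2 + (129 / 128 : ℝ))) := ⟨_, rfl⟩
  obtain ⟨zb, e_zb⟩ : ∃ zz : ℝ, zz = zbS * s := ⟨_, rfl⟩
  obtain ⟨fac, e_fac⟩ : ∃ zz : ℝ, zz = (1 / 2) * (zb * ie) + (1064305 / 1048576 : ℝ) := ⟨_, rfl⟩
  obtain ⟨Q, e_Q⟩ : ∃ zz : ℝ, zz = fac * ((1 / 2) * wse * D2 * (zbS + (2149581 / 1048576) * k) + (zbS + (5243 / 1048576) * k) * lspS + k2 * ((445645 / 262144) * (ie * lsp) + (576717 / 262144) * ielfp)) := ⟨_, rfl⟩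
  obtain ⟨E, e_E⟩ : ∃ zz : ℝ, zz = Q * W := ⟨_, rfl⟩
  obtain ⟨Qw, e_Qw⟩ : ∃ zz : ℝ, zz = Q * wse := ⟨_, rfl⟩
  obtain ⟨c2, e_c2⟩ : ∃ zz : ℝ, zz = (4087 / 4096 : ℝ) - 2 * Qw := ⟨_, rfl⟩
  obtain ⟨u1, e_u1⟩ : ∃ zz : ℝ, zz = Real.exp (-(q2 * ((2840815 / 1048576) * (W * c2)))) := ⟨_, rfl⟩
  obtain ⟨EM, e_EM⟩ : ∃ zz : ℝ, zz = (143 / 32) * E + E := ⟨_, rfl⟩
  obtain ⟨EMs, e_EMs⟩ : ∃ zz : ℝ, zz = (143 / 32) * Qw + Qw := ⟨_, rfl⟩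
  obtain ⟨i2, e_i2⟩ : ∃ zz : ℝ, zz = ((1 : ℝ) - (1 / 2) * EM)⁻¹ := ⟨_, rfl⟩
  obtain ⟨eta, e_eta⟩ : ∃ zz : ℝ, zz = ((1 / 2) * EM + (1 : ℝ)) * i2 := ⟨_, rfl⟩
  obtain ⟨t1, e_t1⟩ : ∃ zz : ℝ, zz = EMs * i2 * ((1 / 4) * be + (1 : ℝ)) := ⟨_, rfl⟩
  obtain ⟨p_row_y, ch0⟩ := h
    (1 : ℝ) zc_1099511627776_0
    ie e_ie
    be e_be
    k2 e_k2
    w e_w
    W e_W
    wse e_wse
    (s * s) rfl
    (-k2) rfl
    ((-k2) + (1 : ℝ)) rfl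
    y2 e_y2
    Wie e_Wie
    (4095 / 4096 : ℝ) zc_1099243192320_0
    ((1449 / 512) * sg) (congrArg (fun y : ℝ => y * sg) zc_3111703805952_0)
    ((4095 / 4096 : ℝ) - (1449 / 512) * sg) rfl
    (30 * ie) (congrArg (fun y : ℝ => y * ie) zc_32985348833280_0)
    q e_q
    ((2899 / 2048) * sg) (congrArg (fun y : ℝ => y * sg) zc_1556388773888_0)
    ((4095 / 4096 : ℝ) - (2899 / 2048) * sg) rfl
    (24 * ie) (congrArg (fun y : ℝ => y * ie) zc_26388279066624_0)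
    sp e_sp
    (8 * ie) (congrArg (fun y : ℝ => y * ie) zc_8796093022208_0)
    (q - 8 * ie) rfl
    ((27495 / 2048) * Wie) (congrArg (fun y : ℝ => y * Wie) zc_14761265725440_0)
    q2 e_q2
    ((8521 / 2048) * Wie) (congrArg (fun y : ℝ => y * Wie) zc_4574677041152_0)
    R2 (e_R2.trans (congrArg (fun y : ℝ => y * ((8521 / 2048) * Wie)) zc_4574677041152_0))
    V1 e_V1
    ((31083 / 16384) * W) (congrArg (fun y : ℝ => y * W) zc_2085944819712_0)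
    (q2 * ((31083 / 16384) * W)) rfl
    (-(q2 * ((31083 / 16384) * W))) rfl
    u e_u
    (20551 / 4096 : ℝ) zc_5516617056256_0
    ((20551 / 4096 : ℝ) - y2) rfl
  change 0 < (20551 / 4096 : ℝ) - y2 at p_row_y
  obtain ⟨p_row_b, ch1⟩ := ch0
    (5121 / 1024 : ℝ) zc_5498631880704_0
    ((5121 / 1024 : ℝ) - be) rfl
  change 0 < (5121 / 1024 : ℝ) - be at p_row_b
  obtain ⟨p_X1, ch2⟩ := (ch1
    wMo (e_wMo.trans (congrArg (fun y : ℝ => y * w) zc_4913442586624_0))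
    (w * V1) rfl
    ls e_ls
    (k * wse) rfl
    ((31083 / 16384) * (k * wse)) (congrArg (fun y : ℝ => y * (k * wse)) zc_2085944819712_0)
    (2 * ((31083 / 16384) * (k * wse))) (congrArg (fun y : ℝ => y * ((31083 / 16384) * (k * wse))) zc_2199023255552_0)
    D2 e_D2
    ((8521 / 2048) * (k * wse)) (congrArg (fun y : ℝ => y * (k * wse)) zc_4574677041152_0)
    (2 * ((8521 / 2048) * (k * wse))) (congrArg (fun y : ℝ => y * ((8521 / 2048) * (k * wse))) zc_2199023255552_0)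
    (R2 + 2 * ((8521 / 2048) * (k * wse))) rfl
    ((1 / 2) * (R2 + 2 * ((8521 / 2048) * (k * wse)))) (congrArg (fun y : ℝ => y * (R2 + 2 * ((8521 / 2048) * (k * wse)))) zc_549755813888_0)
    DP e_DP
    (4 : ℝ) zc_4398046511104_0
    (be + (4 : ℝ)) rfl).2
    ((be + (4 : ℝ))⁻¹) rfl
    (DP * (be + (4 : ℝ))⁻¹) rfl
    ((705 / 8192) * (DP * (be + (4 : ℝ))⁻¹)) (congrArg (fun y : ℝ => y * (DP * (be + (4 : ℝ))⁻¹)) zc_94623498240_0)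
    XS (e_XS.trans (congrArg (fun y : ℝ => y * ((705 / 8192) * (DP * (be + (4 : ℝ))⁻¹))) zc_4398046511104_0))
    X e_X
    ((1 : ℝ) - X) rfl
  change 0 < (1 : ℝ) - X at p_X1
  obtain ⟨p_q20, ch3⟩ := (((ch2).2
    iX e_iX
    (2 : ℝ) zc_2199023255552_0
    ((1 / 4) * y2) (congrArg (fun y : ℝ => y * y2) zc_274877906944_0)
    ((2 : ℝ) - (1 / 4) * y2) rfl
    (y2 * y2) rfl
    ((2731 / 524288) * (y2 * y2)) (congrArg (fun y : ℝ => y * (y2 * y2)) zc_5727322112_0)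
    ((2 : ℝ) - (1 / 4) * y2 + (2731 / 524288) * (y2 * y2)) rfl
    ((1 / 4) * y2 * ((1 / 4) * y2)) rfl
    ((1 / 4) * y2 * ((1 / 4) * y2) * ((1 / 4) * y2)) rfl
    ((1 / 4) * y2 * ((1 / 4) * y2) * ((1 / 4) * y2) * ((1 / 4) * y2 * ((1 / 4) * y2) * ((1 / 4) * y2))) rfl
    ((859 / 1048576) * ((1 / 4) * y2 * ((1 / 4) * y2) * ((1 / 4) * y2) * ((1 / 4) * y2 * ((1 / 4) * y2) * ((1 / 4) * y2)))) (congrArg (fun y : ℝ => y * ((1 / 4) * y2 * ((1 / 4) * y2) * ((1 / 4) * y2) * ((1 / 4) * y2 * ((1 / 4) * y2) * ((1 / 4) * y2)))) zc_900726784_0)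
    G e_G
    ((8521 / 2048) * W) (congrArg (fun y : ℝ => y * W) zc_4574677041152_0)
    (G + (8521 / 2048) * W) rfl
    (W * V1) rfl
    ((314573 / 524288) * (W * V1)) (congrArg (fun y : ℝ => y * (W * V1)) zc_659707396096_0)
    (ls + (314573 / 524288) * (W * V1)) rfl
    (Real.exp (ls + (314573 / 524288) * (W * V1))) rfl
    (G + (8521 / 2048) * W + Real.exp (ls + (314573 / 524288) * (W * V1))) rfl
    n1 e_n1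
    (sg * V1) rfl
    (sg * V1 * wMo) rfl
    (XS * iX) rfl
    (n1 * (XS * iX)) rfl
    lspS e_lspS
    lsp e_lsp
    ((9 / 2) * ie) (congrArg (fun y : ℝ => y * ie) zc_4947802324992_0)
    ((43691 / 524288) * sg) (congrArg (fun y : ℝ => y * sg) zc_91626668032_0)
    ielf e_ielf
    uX e_uX
    ((1 : ℝ) - uX) rfl).2
    (((1 : ℝ) - uX)⁻¹) rfl
    (uX * ((1 : ℝ) - uX)⁻¹) rfl
    (ie * (uX * ((1 : ℝ) - uX)⁻¹)) rfl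
    ielfp e_ielfp
    (R2 - k2) rfl
    (129 / 128 : ℝ) zc_1108101562368_0
    (R2 - k2 + (129 / 128 : ℝ)) rfl).2
    (Real.log (R2 - k2 + (129 / 128 : ℝ))) rfl
    ((1 / 2) * Real.log (R2 - k2 + (129 / 128 : ℝ))) (congrArg (fun y : ℝ => y * Real.log (R2 - k2 + (129 / 128 : ℝ))) zc_549755813888_0)
    zbS e_zbS
    zb e_zb
    (zb * ie) rfl
    ((1 / 2) * (zb * ie)) (congrArg (fun y : ℝ => y * (zb * ie)) zc_549755813888_0)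
    (1064305 / 1048576 : ℝ) zc_1116004679680_0
    fac e_fac
    ((1 / 2) * wse) (congrArg (fun y : ℝ => y * wse) zc_549755813888_0)
    ((1 / 2) * wse * D2) rfl
    ((2149581 / 1048576) * k) (congrArg (fun y : ℝ => y * k) zc_2253999046656_0)
    (zbS + (2149581 / 1048576) * k) rfl
    ((1 / 2) * wse * D2 * (zbS + (2149581 / 1048576) * k)) rfl
    ((5243 / 1048576) * k) (congrArg (fun y : ℝ => y * k) zc_5497683968_0)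
    (zbS + (5243 / 1048576) * k) rfl
    ((zbS + (5243 / 1048576) * k) * lspS) rfl
    ((1 / 2) * wse * D2 * (zbS + (2149581 / 1048576) * k) + (zbS + (5243 / 1048576) * k) * lspS) rfl
    (ie * lsp) rfl
    ((445645 / 262144) * (ie * lsp)) (congrArg (fun y : ℝ => y * (ie * lsp)) zc_1869170606080_0)
    ((576717 / 262144) * ielfp) (congrArg (fun y : ℝ => y * ielfp) zc_2418926419968_0)
    ((445645 / 262144) * (ie * lsp) + (576717 / 262144) * ielfp) rfl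
    (k2 * ((445645 / 262144) * (ie * lsp) + (576717 / 262144) * ielfp)) rfl
    ((1 / 2) * wse * D2 * (zbS + (2149581 / 1048576) * k) + (zbS + (5243 / 1048576) * k) * lspS + k2 * ((445645 / 262144) * (ie * lsp) + (576717 / 262144) * ielfp)) rfl
    Q e_Q
    E e_E
    Qw e_Qw
    (4087 / 4096 : ℝ) zc_1097095708672_0
    (2 * Qw) (congrArg (fun y : ℝ => y * Qw) zc_2199023255552_0)
    c2 e_c2
  change 0 < q2 at p_q20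
  obtain ⟨p_Es, ch4⟩ := ch3
    ((1 : ℝ) - Qw) rfl
  change 0 < (1 : ℝ) - Qw at p_Es
  obtain ⟨p_c20, ch5⟩ := ch4
  change 0 < c2 at p_c20
  obtain ⟨p_RH, ch6⟩ := ch5
    (5499 / 1024 : ℝ) zc_5904506290176_0
    (8521 / 2048 : ℝ) zc_4574677041152_0
    ((5499 / 1024 : ℝ) - (8521 / 2048 : ℝ)) rfl
    ((5499 / 1024 : ℝ) - (8521 / 2048 : ℝ) - Q) rfl
    (Qw + (1 : ℝ)) rfl
    ((Qw + (1 : ℝ)) * (Qw + (1 : ℝ))) rfl
    ((5499 / 1024 : ℝ) - (8521 / 2048 : ℝ) - Q - (Qw + (1 : ℝ)) * (Qw + (1 : ℝ))) rfl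
  change 0 < (5499 / 1024 : ℝ) - (8521 / 2048 : ℝ) - Q - (Qw + (1 : ℝ)) * (Qw + (1 : ℝ)) at p_RH
  obtain ⟨p_h9, ch7⟩ := ch6
    ((9646899 / 1048576) * c2) (congrArg (fun y : ℝ => y * c2) zc_10115506765824_0)
    ((9646899 / 1048576) * c2 - (5499 / 1024 : ℝ)) rfl
  change 0 < (9646899 / 1048576) * c2 - (5499 / 1024 : ℝ) at p_h9
  obtain ⟨p_h2, ch8⟩ := ch7
    ((471859 / 524288) * c2) (congrArg (fun y : ℝ => y * c2) zc_989560045568_0)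
    ((59061 / 2048) * Wie) (congrArg (fun y : ℝ => y * Wie) zc_31708132933632_0)
    ((471859 / 524288) * c2 - (59061 / 2048) * Wie) rfl
  change 0 < (471859 / 524288) * c2 - (59061 / 2048) * Wie at p_h2
  obtain ⟨p_Er, ch9⟩ := ch8
    (31083 / 16384 : ℝ) zc_2085944819712_0
    ((31083 / 16384 : ℝ) - Q) rfl
  change 0 < (31083 / 16384 : ℝ) - Q at p_Er
  obtain ⟨p_dr, ch10⟩ := ch9
    ((12479 / 65536) * ((1 : ℝ) - Qw)) (congrArg (fun y : ℝ => y * ((1 : ℝ) - Qw)) zc_209362878464_0)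
    ((4255 / 4096) * Q) (congrArg (fun y : ℝ => y * Q) zc_1142192865280_0)
    ((12479 / 65536) * ((1 : ℝ) - Qw) - (4255 / 4096) * Q) rfl
  change 0 < (12479 / 65536) * ((1 : ℝ) - Qw) - (4255 / 4096) * Q at p_dr
  obtain ⟨p_La, ch11⟩ := ch10
    ((1 : ℝ) - 2 * Qw) rfl
    ((4475 / 1024) * ((1 : ℝ) - 2 * Qw)) (congrArg (fun y : ℝ => y * ((1 : ℝ) - 2 * Qw)) zc_4804994662400_0)
    ((4475 / 1024) * ((1 : ℝ) - 2 * Qw) - (8521 / 2048 : ℝ)) rfl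
    ((4475 / 1024) * ((1 : ℝ) - 2 * Qw) - (8521 / 2048 : ℝ) - Q) rfl
  change 0 < (4475 / 1024) * ((1 : ℝ) - 2 * Qw) - (8521 / 2048 : ℝ) - Q at p_La
  obtain ⟨p_l1, ch12⟩ := ch11
    (-(ie * lsp)) rfl
    (10485 / 1048576 : ℝ) zc_10994319360_0
    ((-(ie * lsp)) + (10485 / 1048576 : ℝ)) rfl
  change 0 < (-(ie * lsp)) + (10485 / 1048576 : ℝ) at p_l1
  obtain ⟨p_l2, ch13⟩ := ch12
    (-ielfp) rfl
    (20971 / 1048576 : ℝ) zc_21989687296_0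
    ((-ielfp) + (20971 / 1048576 : ℝ)) rfl
  change 0 < (-ielfp) + (20971 / 1048576 : ℝ) at p_l2
  obtain ⟨p_z1, ch14⟩ := ch13
    (-(zb * ie)) rfl
    (104857 / 1048576 : ℝ) zc_109950533632_0
    ((-(zb * ie)) + (104857 / 1048576 : ℝ)) rfl
  change 0 < (-(zb * ie)) + (104857 / 1048576 : ℝ) at p_z1
  obtain ⟨p_E1, ch15⟩ := ch14
    (E * ie) rfl
    (-(E * ie)) rfl
    (2621 / 524288 : ℝ) zc_5496635392_0
    ((-(E * ie)) + (2621 / 524288 : ℝ)) rfl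
  change 0 < (-(E * ie)) + (2621 / 524288 : ℝ) at p_E1
  obtain ⟨p_y, ch16⟩ := ch15
    (-E) rfl
    (41 / 4096 : ℝ) zc_11005853696_0
    ((-E) + (41 / 4096 : ℝ)) rfl
  change 0 < (-E) + (41 / 4096 : ℝ) at p_y
  obtain ⟨p_EM2, ch17⟩ := ch16
    (W * c2) rfl
    ((2840815 / 1048576) * (W * c2)) (congrArg (fun y : ℝ => y * (W * c2)) zc_2978810429440_0)
    (q2 * ((2840815 / 1048576) * (W * c2))) rfl
    (-(q2 * ((2840815 / 1048576) * (W * c2)))) rfl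
    u1 e_u1
    ((143 / 32) * E) (congrArg (fun y : ℝ => y * E) zc_4913442586624_0)
    EM e_EM
    ((143 / 32) * Qw) (congrArg (fun y : ℝ => y * Qw) zc_4913442586624_0)
    EMs e_EMs
    ((1 / 2) * EM) (congrArg (fun y : ℝ => y * EM) zc_549755813888_0)
    ((1 : ℝ) - (1 / 2) * EM) rfl
  change 0 < (1 : ℝ) - (1 / 2) * EM at p_EM2
  obtain ⟨p_cl, ch18⟩ := (ch17).2
    i2 e_i2
    ((1 / 2) * EM + (1 : ℝ)) rfl
    eta e_eta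
    (EMs * i2) rfl
    ((1 / 4) * be) (congrArg (fun y : ℝ => y * be) zc_274877906944_0)
    ((1 / 4) * be + (1 : ℝ)) rfl
    t1 e_t1
    ((151 / 2048) * u1) (congrArg (fun y : ℝ => y * u1) zc_81067507712_0)
    (eta * ((151 / 2048) * u1)) rfl
    (V1 + Q) rfl
    (wse * (V1 + Q)) rfl
    (wse * (V1 + Q) + (1 : ℝ)) rfl
    (eta * ((151 / 2048) * u1) * (wse * (V1 + Q) + (1 : ℝ))) rfl
    (t1 + eta * ((151 / 2048) * u1) * (wse * (V1 + Q) + (1 : ℝ))) rfl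
    (-(t1 + eta * ((151 / 2048) * u1) * (wse * (V1 + Q) + (1 : ℝ)))) rfl
    (90239 / 1048576 : ℝ) zc_94622449664_0
    ((-(t1 + eta * ((151 / 2048) * u1) * (wse * (V1 + Q) + (1 : ℝ)))) + (90239 / 1048576 : ℝ)) rfl
  change 0 < (-(t1 + eta * ((151 / 2048) * u1) * (wse * (V1 + Q) + (1 : ℝ)))) + (90239 / 1048576 : ℝ) at p_cl
  exact ⟨wMo, EM, EMs,
    ⟨ie, be, k2, w, W, wse, y2, Wie, q, sp, q2, R2, V1, u, ls, D2, DP, XS, X, iX, G, n1, lspS,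
    lsp, ielf, uX, ielfp, zbS, zb, fac, Q, E, Qw, c2, u1, i2, eta, t1, e_ie, e_be, e_k2, e_w,
    e_W, e_wse, e_y2, e_Wie, e_q, e_sp, e_q2, e_R2, e_V1, e_u, e_ls, e_D2, e_DP, e_XS, e_X,
    e_iX, e_G, e_n1, e_lspS, e_lsp, e_ielf, e_uX, e_ielfp, e_zbS, e_zb, e_fac, e_Q, e_E, e_Qw,
    e_c2, e_u1, e_i2, e_eta, e_t1, p_X1, p_q20, p_Es, p_c20, p_RH, p_h9, p_h2, p_Er, p_dr, p_La,
    p_l1, p_l2, p_z1, p_E1, p_y, p_EM2, p_cl⟩,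
    ⟨⟨e_wMo, e_EM, e_EMs, p_row_y, p_row_b⟩⟩⟩

theorem ex_LA1_r4 {sg s k : ℝ} (h : RAs Cert.LA1.prog5 [sg, s, k]) :
    ∃ wMo EM EMs : ℝ, ∃ P : PLA (cA 1) sg s k wMo EM EMs, Nonempty (PLAr (rA 1 4) P) := by
  obtain ⟨ie, e_ie⟩ : ∃ zz : ℝ, zz = sg * sg := ⟨_, rfl⟩
  obtain ⟨be, e_be⟩ : ∃ zz : ℝ, zz = k * s := ⟨_, rfl⟩
  obtain ⟨k2, e_k2⟩ : ∃ zz : ℝ, zz = k * k := ⟨_, rfl⟩
  obtain ⟨w, e_w⟩ : ∃ zz : ℝ, zz = sg * s := ⟨_, rfl⟩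
  obtain ⟨W, e_W⟩ : ∃ zz : ℝ, zz = w * w := ⟨_, rfl⟩
  obtain ⟨wse, e_wse⟩ : ∃ zz : ℝ, zz = w * sg := ⟨_, rfl⟩
  obtain ⟨y2, e_y2⟩ : ∃ zz : ℝ, zz = s * s * ((-k2) + (1 : ℝ)) := ⟨_, rfl⟩
  obtain ⟨Wie, e_Wie⟩ : ∃ zz : ℝ, zz = W * ie := ⟨_, rfl⟩
  obtain ⟨q, e_q⟩ : ∃ zz : ℝ, zz = (4095 / 4096 : ℝ) - (1449 / 512) * sg - 30 * ie := ⟨_, rfl⟩
  obtain ⟨sp, e_sp⟩ : ∃ zz : ℝ, zz = (4095 / 4096 : ℝ) - (2899 / 2048) * sg - 24 * ie := ⟨_, rfl⟩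
  obtain ⟨q2, e_q2⟩ : ∃ zz : ℝ, zz = q - 8 * ie - (27495 / 2048) * Wie := ⟨_, rfl⟩
  obtain ⟨R2, e_R2⟩ : ∃ zz : ℝ, zz = (8521 / 2048) * ((8521 / 2048) * Wie) := ⟨_, rfl⟩
  obtain ⟨V1, e_V1⟩ : ∃ zz : ℝ, zz = R2 + (1 : ℝ) := ⟨_, rfl⟩
  obtain ⟨u, e_u⟩ : ∃ zz : ℝ, zz = Real.exp (-(q2 * ((31083 / 16384) * W))) := ⟨_, rfl⟩
  obtain ⟨wMo, e_wMo⟩ : ∃ zz : ℝ, zz = (231 / 64) * w := ⟨_, rfl⟩
  obtain ⟨ls, e_ls⟩ : ∃ zz : ℝ, zz = w * V1 * wMo := ⟨_, rfl⟩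
  obtain ⟨D2, e_D2⟩ : ∃ zz : ℝ, zz = V1 - 2 * ((31083 / 16384) * (k * wse)) := ⟨_, rfl⟩
  obtain ⟨DP, e_DP⟩ : ∃ zz : ℝ, zz = (1 : ℝ) + (1 / 2) * (R2 + 2 * ((8521 / 2048) * (k * wse))) := ⟨_, rfl⟩
  obtain ⟨XS, e_XS⟩ : ∃ zz : ℝ, zz = 4 * ((705 / 8192) * (DP * (be + (4 : ℝ))⁻¹)) := ⟨_, rfl⟩
  obtain ⟨X, e_X⟩ : ∃ zz : ℝ, zz = XS * s := ⟨_, rfl⟩
  obtain ⟨iX, e_iX⟩ : ∃ zz : ℝ, zz = ((1 : ℝ) - X)⁻¹ := ⟨_, rfl⟩
  obtain ⟨G, e_G⟩ : ∃ zz : ℝ, zz = (2 : ℝ) - (1 / 4) * y2 + (2731 / 524288) * (y2 * y2) + (859 / 1048576) * ((1 / 4) * y2 * ((1 / 4) * y2) * ((1 / 4) * y2) * ((1 / 4) * y2 * ((1 / 4) * y2) * ((1 / 4) * y2))) := ⟨_, rfl⟩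
  obtain ⟨n1, e_n1⟩ : ∃ zz : ℝ, zz = G + (8521 / 2048) * W + Real.exp (ls + (314573 / 524288) * (W * V1)) - (1 : ℝ) := ⟨_, rfl⟩
  obtain ⟨lspS, e_lspS⟩ : ∃ zz : ℝ, zz = sg * V1 * wMo + n1 * (XS * iX) := ⟨_, rfl⟩
  obtain ⟨lsp, e_lsp⟩ : ∃ zz : ℝ, zz = lspS * s := ⟨_, rfl⟩
  obtain ⟨ielf, e_ielf⟩ : ∃ zz : ℝ, zz = (9 / 2) * ie + (43691 / 524288) * sg := ⟨_, rfl⟩
  obtain ⟨uX, e_uX⟩ : ∃ zz : ℝ, zz = u * X := ⟨_, rfl⟩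
  obtain ⟨ielfp, e_ielfp⟩ : ∃ zz : ℝ, zz = ielf + ie * (uX * ((1 : ℝ) - uX)⁻¹) := ⟨_, rfl⟩
  obtain ⟨zbS, e_zbS⟩ : ∃ zz : ℝ, zz = Real.exp ((1 / 2) * Real.log (R2 - k2 + (129 / 128 : ℝ))) := ⟨_, rfl⟩
  obtain ⟨zb, e_zb⟩ : ∃ zz : ℝ, zz = zbS * s := ⟨_, rfl⟩
  obtain ⟨fac, e_fac⟩ : ∃ zz : ℝ, zz = (1 / 2) * (zb * ie) + (1064305 / 1048576 : ℝ) := ⟨_, rfl⟩
  obtain ⟨Q, e_Q⟩ : ∃ zz : ℝ, zz = fac * ((1 / 2) * wse * D2 * (zbS + (2149581 / 1048576) * k) + (zbS + (5243 / 1048576) * k) * lspS + k2 * ((445645 / 262144) * (ie * lsp) + (576717 / 262144) * ielfp)) := ⟨_, rfl⟩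
  obtain ⟨E, e_E⟩ : ∃ zz : ℝ, zz = Q * W := ⟨_, rfl⟩
  obtain ⟨Qw, e_Qw⟩ : ∃ zz : ℝ, zz = Q * wse := ⟨_, rfl⟩
  obtain ⟨c2, e_c2⟩ : ∃ zz : ℝ, zz = (4087 / 4096 : ℝ) - 2 * Qw := ⟨_, rfl⟩
  obtain ⟨u1, e_u1⟩ : ∃ zz : ℝ, zz = Real.exp (-(q2 * ((2840815 / 1048576) * (W * c2)))) := ⟨_, rfl⟩
  obtain ⟨EM, e_EM⟩ : ∃ zz : ℝ, zz = (231 / 64) * E + E := ⟨_, rfl⟩
  obtain ⟨EMs, e_EMs⟩ : ∃ zz : ℝ, zz = (231 / 64) * Qw + Qw := ⟨_, rfl⟩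
  obtain ⟨i2, e_i2⟩ : ∃ zz : ℝ, zz = ((1 : ℝ) - (1 / 2) * EM)⁻¹ := ⟨_, rfl⟩
  obtain ⟨eta, e_eta⟩ : ∃ zz : ℝ, zz = ((1 / 2) * EM + (1 : ℝ)) * i2 := ⟨_, rfl⟩
  obtain ⟨t1, e_t1⟩ : ∃ zz : ℝ, zz = EMs * i2 * ((1 / 4) * be + (1 : ℝ)) := ⟨_, rfl⟩
  obtain ⟨p_row_y, ch0⟩ := h
    (1 : ℝ) zc_1099511627776_0
    ie e_ie
    be e_be
    k2 e_k2
    w e_w
    W e_W
    wse e_wse
    (s * s) rfl
    (-k2) rfl
    ((-k2) + (1 : ℝ)) rfl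
    y2 e_y2
    Wie e_Wie
    (4095 / 4096 : ℝ) zc_1099243192320_0
    ((1449 / 512) * sg) (congrArg (fun y : ℝ => y * sg) zc_3111703805952_0)
    ((4095 / 4096 : ℝ) - (1449 / 512) * sg) rfl
    (30 * ie) (congrArg (fun y : ℝ => y * ie) zc_32985348833280_0)
    q e_q
    ((2899 / 2048) * sg) (congrArg (fun y : ℝ => y * sg) zc_1556388773888_0)
    ((4095 / 4096 : ℝ) - (2899 / 2048) * sg) rfl
    (24 * ie) (congrArg (fun y : ℝ => y * ie) zc_26388279066624_0)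
    sp e_sp
    (8 * ie) (congrArg (fun y : ℝ => y * ie) zc_8796093022208_0)
    (q - 8 * ie) rfl
    ((27495 / 2048) * Wie) (congrArg (fun y : ℝ => y * Wie) zc_14761265725440_0)
    q2 e_q2
    ((8521 / 2048) * Wie) (congrArg (fun y : ℝ => y * Wie) zc_4574677041152_0)
    R2 (e_R2.trans (congrArg (fun y : ℝ => y * ((8521 / 2048) * Wie)) zc_4574677041152_0))
    V1 e_V1
    ((31083 / 16384) * W) (congrArg (fun y : ℝ => y * W) zc_2085944819712_0)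
    (q2 * ((31083 / 16384) * W)) rfl
    (-(q2 * ((31083 / 16384) * W))) rfl
    u e_u
    (20551 / 4096 : ℝ) zc_5516617056256_0
    ((20551 / 4096 : ℝ) - y2) rfl
  change 0 < (20551 / 4096 : ℝ) - y2 at p_row_y
  obtain ⟨p_row_b, ch1⟩ := ch0
    (5 / 2 : ℝ) zc_2748779069440_0
    ((5 / 2 : ℝ) - be) rfl
  change 0 < (5 / 2 : ℝ) - be at p_row_b
  obtain ⟨p_X1, ch2⟩ := (ch1
    wMo (e_wMo.trans (congrArg (fun y : ℝ => y * w) zc_3968549781504_0))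
    (w * V1) rfl
    ls e_ls
    (k * wse) rfl
    ((31083 / 16384) * (k * wse)) (congrArg (fun y : ℝ => y * (k * wse)) zc_2085944819712_0)
    (2 * ((31083 / 16384) * (k * wse))) (congrArg (fun y : ℝ => y * ((31083 / 16384) * (k * wse))) zc_2199023255552_0)
    D2 e_D2
    ((8521 / 2048) * (k * wse)) (congrArg (fun y : ℝ => y * (k * wse)) zc_4574677041152_0)
    (2 * ((8521 / 2048) * (k * wse))) (congrArg (fun y : ℝ => y * ((8521 / 2048) * (k * wse))) zc_2199023255552_0)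
    (R2 + 2 * ((8521 / 2048) * (k * wse))) rfl
    ((1 / 2) * (R2 + 2 * ((8521 / 2048) * (k * wse)))) (congrArg (fun y : ℝ => y * (R2 + 2 * ((8521 / 2048) * (k * wse)))) zc_549755813888_0)
    DP e_DP
    (4 : ℝ) zc_4398046511104_0
    (be + (4 : ℝ)) rfl).2
    ((be + (4 : ℝ))⁻¹) rfl
    (DP * (be + (4 : ℝ))⁻¹) rfl
    ((705 / 8192) * (DP * (be + (4 : ℝ))⁻¹)) (congrArg (fun y : ℝ => y * (DP * (be + (4 : ℝ))⁻¹)) zc_94623498240_0)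
    XS (e_XS.trans (congrArg (fun y : ℝ => y * ((705 / 8192) * (DP * (be + (4 : ℝ))⁻¹))) zc_4398046511104_0))
    X e_X
    ((1 : ℝ) - X) rfl
  change 0 < (1 : ℝ) - X at p_X1
  obtain ⟨p_q20, ch3⟩ := (((ch2).2
    iX e_iX
    (2 : ℝ) zc_2199023255552_0
    ((1 / 4) * y2) (congrArg (fun y : ℝ => y * y2) zc_274877906944_0)
    ((2 : ℝ) - (1 / 4) * y2) rfl
    (y2 * y2) rfl
    ((2731 / 524288) * (y2 * y2)) (congrArg (fun y : ℝ => y * (y2 * y2)) zc_5727322112_0)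
    ((2 : ℝ) - (1 / 4) * y2 + (2731 / 524288) * (y2 * y2)) rfl
    ((1 / 4) * y2 * ((1 / 4) * y2)) rfl
    ((1 / 4) * y2 * ((1 / 4) * y2) * ((1 / 4) * y2)) rfl
    ((1 / 4) * y2 * ((1 / 4) * y2) * ((1 / 4) * y2) * ((1 / 4) * y2 * ((1 / 4) * y2) * ((1 / 4) * y2))) rfl
    ((859 / 1048576) * ((1 / 4) * y2 * ((1 / 4) * y2) * ((1 / 4) * y2) * ((1 / 4) * y2 * ((1 / 4) * y2) * ((1 / 4) * y2)))) (congrArg (fun y : ℝ => y * ((1 / 4) * y2 * ((1 / 4) * y2) * ((1 / 4) * y2) * ((1 / 4) * y2 * ((1 / 4) * y2) * ((1 / 4) * y2)))) zc_900726784_0)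
    G e_G
    ((8521 / 2048) * W) (congrArg (fun y : ℝ => y * W) zc_4574677041152_0)
    (G + (8521 / 2048) * W) rfl
    (W * V1) rfl
    ((314573 / 524288) * (W * V1)) (congrArg (fun y : ℝ => y * (W * V1)) zc_659707396096_0)
    (ls + (314573 / 524288) * (W * V1)) rfl
    (Real.exp (ls + (314573 / 524288) * (W * V1))) rfl
    (G + (8521 / 2048) * W + Real.exp (ls + (314573 / 524288) * (W * V1))) rfl
    n1 e_n1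
    (sg * V1) rfl
    (sg * V1 * wMo) rfl
    (XS * iX) rfl
    (n1 * (XS * iX)) rfl
    lspS e_lspS
    lsp e_lsp
    ((9 / 2) * ie) (congrArg (fun y : ℝ => y * ie) zc_4947802324992_0)
    ((43691 / 524288) * sg) (congrArg (fun y : ℝ => y * sg) zc_91626668032_0)
    ielf e_ielf
    uX e_uX
    ((1 : ℝ) - uX) rfl).2
    (((1 : ℝ) - uX)⁻¹) rfl
    (uX * ((1 : ℝ) - uX)⁻¹) rfl
    (ie * (uX * ((1 : ℝ) - uX)⁻¹)) rfl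
    ielfp e_ielfp
    (R2 - k2) rfl
    (129 / 128 : ℝ) zc_1108101562368_0
    (R2 - k2 + (129 / 128 : ℝ)) rfl).2
    (Real.log (R2 - k2 + (129 / 128 : ℝ))) rfl
    ((1 / 2) * Real.log (R2 - k2 + (129 / 128 : ℝ))) (congrArg (fun y : ℝ => y * Real.log (R2 - k2 + (129 / 128 : ℝ))) zc_549755813888_0)
    zbS e_zbS
    zb e_zb
    (zb * ie) rfl
    ((1 / 2) * (zb * ie)) (congrArg (fun y : ℝ => y * (zb * ie)) zc_549755813888_0)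
    (1064305 / 1048576 : ℝ) zc_1116004679680_0
    fac e_fac
    ((1 / 2) * wse) (congrArg (fun y : ℝ => y * wse) zc_549755813888_0)
    ((1 / 2) * wse * D2) rfl
    ((2149581 / 1048576) * k) (congrArg (fun y : ℝ => y * k) zc_2253999046656_0)
    (zbS + (2149581 / 1048576) * k) rfl
    ((1 / 2) * wse * D2 * (zbS + (2149581 / 1048576) * k)) rfl
    ((5243 / 1048576) * k) (congrArg (fun y : ℝ => y * k) zc_5497683968_0)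
    (zbS + (5243 / 1048576) * k) rfl
    ((zbS + (5243 / 1048576) * k) * lspS) rfl
    ((1 / 2) * wse * D2 * (zbS + (2149581 / 1048576) * k) + (zbS + (5243 / 1048576) * k) * lspS) rfl
    (ie * lsp) rfl
    ((445645 / 262144) * (ie * lsp)) (congrArg (fun y : ℝ => y * (ie * lsp)) zc_1869170606080_0)
    ((576717 / 262144) * ielfp) (congrArg (fun y : ℝ => y * ielfp) zc_2418926419968_0)
    ((445645 / 262144) * (ie * lsp) + (576717 / 262144) * ielfp) rfl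
    (k2 * ((445645 / 262144) * (ie * lsp) + (576717 / 262144) * ielfp)) rfl
    ((1 / 2) * wse * D2 * (zbS + (2149581 / 1048576) * k) + (zbS + (5243 / 1048576) * k) * lspS + k2 * ((445645 / 262144) * (ie * lsp) + (576717 / 262144) * ielfp)) rfl
    Q e_Q
    E e_E
    Qw e_Qw
    (4087 / 4096 : ℝ) zc_1097095708672_0
    (2 * Qw) (congrArg (fun y : ℝ => y * Qw) zc_2199023255552_0)
    c2 e_c2
  change 0 < q2 at p_q20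
  obtain ⟨p_Es, ch4⟩ := ch3
    ((1 : ℝ) - Qw) rfl
  change 0 < (1 : ℝ) - Qw at p_Es
  obtain ⟨p_c20, ch5⟩ := ch4
  change 0 < c2 at p_c20
  obtain ⟨p_RH, ch6⟩ := ch5
    (5499 / 1024 : ℝ) zc_5904506290176_0
    (8521 / 2048 : ℝ) zc_4574677041152_0
    ((5499 / 1024 : ℝ) - (8521 / 2048 : ℝ)) rfl
    ((5499 / 1024 : ℝ) - (8521 / 2048 : ℝ) - Q) rfl
    (Qw + (1 : ℝ)) rfl
    ((Qw + (1 : ℝ)) * (Qw + (1 : ℝ))) rfl
    ((5499 / 1024 : ℝ) - (8521 / 2048 : ℝ) - Q - (Qw + (1 : ℝ)) * (Qw + (1 : ℝ))) rfl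
  change 0 < (5499 / 1024 : ℝ) - (8521 / 2048 : ℝ) - Q - (Qw + (1 : ℝ)) * (Qw + (1 : ℝ)) at p_RH
  obtain ⟨p_h9, ch7⟩ := ch6
    ((9646899 / 1048576) * c2) (congrArg (fun y : ℝ => y * c2) zc_10115506765824_0)
    ((9646899 / 1048576) * c2 - (5499 / 1024 : ℝ)) rfl
  change 0 < (9646899 / 1048576) * c2 - (5499 / 1024 : ℝ) at p_h9
  obtain ⟨p_h2, ch8⟩ := ch7
    ((471859 / 524288) * c2) (congrArg (fun y : ℝ => y * c2) zc_989560045568_0)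
    ((59061 / 2048) * Wie) (congrArg (fun y : ℝ => y * Wie) zc_31708132933632_0)
    ((471859 / 524288) * c2 - (59061 / 2048) * Wie) rfl
  change 0 < (471859 / 524288) * c2 - (59061 / 2048) * Wie at p_h2
  obtain ⟨p_Er, ch9⟩ := ch8
    (31083 / 16384 : ℝ) zc_2085944819712_0
    ((31083 / 16384 : ℝ) - Q) rfl
  change 0 < (31083 / 16384 : ℝ) - Q at p_Er
  obtain ⟨p_dr, ch10⟩ := ch9
    ((12479 / 65536) * ((1 : ℝ) - Qw)) (congrArg (fun y : ℝ => y * ((1 : ℝ) - Qw)) zc_209362878464_0)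
    ((4255 / 4096) * Q) (congrArg (fun y : ℝ => y * Q) zc_1142192865280_0)
    ((12479 / 65536) * ((1 : ℝ) - Qw) - (4255 / 4096) * Q) rfl
  change 0 < (12479 / 65536) * ((1 : ℝ) - Qw) - (4255 / 4096) * Q at p_dr
  obtain ⟨p_La, ch11⟩ := ch10
    ((1 : ℝ) - 2 * Qw) rfl
    ((4475 / 1024) * ((1 : ℝ) - 2 * Qw)) (congrArg (fun y : ℝ => y * ((1 : ℝ) - 2 * Qw)) zc_4804994662400_0)
    ((4475 / 1024) * ((1 : ℝ) - 2 * Qw) - (8521 / 2048 : ℝ)) rfl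
    ((4475 / 1024) * ((1 : ℝ) - 2 * Qw) - (8521 / 2048 : ℝ) - Q) rfl
  change 0 < (4475 / 1024) * ((1 : ℝ) - 2 * Qw) - (8521 / 2048 : ℝ) - Q at p_La
  obtain ⟨p_l1, ch12⟩ := ch11
    (-(ie * lsp)) rfl
    (10485 / 1048576 : ℝ) zc_10994319360_0
    ((-(ie * lsp)) + (10485 / 1048576 : ℝ)) rfl
  change 0 < (-(ie * lsp)) + (10485 / 1048576 : ℝ) at p_l1
  obtain ⟨p_l2, ch13⟩ := ch12
    (-ielfp) rfl
    (20971 / 1048576 : ℝ) zc_21989687296_0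
    ((-ielfp) + (20971 / 1048576 : ℝ)) rfl
  change 0 < (-ielfp) + (20971 / 1048576 : ℝ) at p_l2
  obtain ⟨p_z1, ch14⟩ := ch13
    (-(zb * ie)) rfl
    (104857 / 1048576 : ℝ) zc_109950533632_0
    ((-(zb * ie)) + (104857 / 1048576 : ℝ)) rfl
  change 0 < (-(zb * ie)) + (104857 / 1048576 : ℝ) at p_z1
  obtain ⟨p_E1, ch15⟩ := ch14
    (E * ie) rfl
    (-(E * ie)) rfl
    (2621 / 524288 : ℝ) zc_5496635392_0
    ((-(E * ie)) + (2621 / 524288 : ℝ)) rfl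
  change 0 < (-(E * ie)) + (2621 / 524288 : ℝ) at p_E1
  obtain ⟨p_y, ch16⟩ := ch15
    (-E) rfl
    (41 / 4096 : ℝ) zc_11005853696_0
    ((-E) + (41 / 4096 : ℝ)) rfl
  change 0 < (-E) + (41 / 4096 : ℝ) at p_y
  obtain ⟨p_EM2, ch17⟩ := ch16
    (W * c2) rfl
    ((2840815 / 1048576) * (W * c2)) (congrArg (fun y : ℝ => y * (W * c2)) zc_2978810429440_0)
    (q2 * ((2840815 / 1048576) * (W * c2))) rfl
    (-(q2 * ((2840815 / 1048576) * (W * c2)))) rfl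
    u1 e_u1
    ((231 / 64) * E) (congrArg (fun y : ℝ => y * E) zc_3968549781504_0)
    EM e_EM
    ((231 / 64) * Qw) (congrArg (fun y : ℝ => y * Qw) zc_3968549781504_0)
    EMs e_EMs
    ((1 / 2) * EM) (congrArg (fun y : ℝ => y * EM) zc_549755813888_0)
    ((1 : ℝ) - (1 / 2) * EM) rfl
  change 0 < (1 : ℝ) - (1 / 2) * EM at p_EM2
  obtain ⟨p_cl, ch18⟩ := (ch17).2
    i2 e_i2
    ((1 / 2) * EM + (1 : ℝ)) rfl
    eta e_eta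
    (EMs * i2) rfl
    ((1 / 4) * be) (congrArg (fun y : ℝ => y * be) zc_274877906944_0)
    ((1 / 4) * be + (1 : ℝ)) rfl
    t1 e_t1
    ((151 / 2048) * u1) (congrArg (fun y : ℝ => y * u1) zc_81067507712_0)
    (eta * ((151 / 2048) * u1)) rfl
    (V1 + Q) rfl
    (wse * (V1 + Q)) rfl
    (wse * (V1 + Q) + (1 : ℝ)) rfl
    (eta * ((151 / 2048) * u1) * (wse * (V1 + Q) + (1 : ℝ))) rfl
    (t1 + eta * ((151 / 2048) * u1) * (wse * (V1 + Q) + (1 : ℝ))) rfl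
    (-(t1 + eta * ((151 / 2048) * u1) * (wse * (V1 + Q) + (1 : ℝ)))) rfl
    (90239 / 1048576 : ℝ) zc_94622449664_0
    ((-(t1 + eta * ((151 / 2048) * u1) * (wse * (V1 + Q) + (1 : ℝ)))) + (90239 / 1048576 : ℝ)) rfl
  change 0 < (-(t1 + eta * ((151 / 2048) * u1) * (wse * (V1 + Q) + (1 : ℝ)))) + (90239 / 1048576 : ℝ) at p_cl
  exact ⟨wMo, EM, EMs,
    ⟨ie, be, k2, w, W, wse, y2, Wie, q, sp, q2, R2, V1, u, ls, D2, DP, XS, X, iX, G, n1, lspS,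
    lsp, ielf, uX, ielfp, zbS, zb, fac, Q, E, Qw, c2, u1, i2, eta, t1, e_ie, e_be, e_k2, e_w,
    e_W, e_wse, e_y2, e_Wie, e_q, e_sp, e_q2, e_R2, e_V1, e_u, e_ls, e_D2, e_DP, e_XS, e_X,
    e_iX, e_G, e_n1, e_lspS, e_lsp, e_ielf, e_uX, e_ielfp, e_zbS, e_zb, e_fac, e_Q, e_E, e_Qw,
    e_c2, e_u1, e_i2, e_eta, e_t1, p_X1, p_q20, p_Es, p_c20, p_RH, p_h9, p_h2, p_Er, p_dr, p_La,
    p_l1, p_l2, p_z1, p_E1, p_y, p_EM2, p_cl⟩,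
    ⟨⟨e_wMo, e_EM, e_EMs, p_row_y, p_row_b⟩⟩⟩

theorem ex_LA1_r5 {sg s k : ℝ} (h : RAs Cert.LA1.prog6 [sg, s, k]) :
    ∃ wMo EM EMs : ℝ, ∃ P : PLA (cA 1) sg s k wMo EM EMs, Nonempty (PLAr (rA 1 5) P) := by
  obtain ⟨ie, e_ie⟩ : ∃ zz : ℝ, zz = sg * sg := ⟨_, rfl⟩
  obtain ⟨be, e_be⟩ : ∃ zz : ℝ, zz = k * s := ⟨_, rfl⟩
  obtain ⟨k2, e_k2⟩ : ∃ zz : ℝ, zz = k * k := ⟨_, rfl⟩
  obtain ⟨w, e_w⟩ : ∃ zz : ℝ, zz = sg * s := ⟨_, rfl⟩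
  obtain ⟨W, e_W⟩ : ∃ zz : ℝ, zz = w * w := ⟨_, rfl⟩
  obtain ⟨wse, e_wse⟩ : ∃ zz : ℝ, zz = w * sg := ⟨_, rfl⟩
  obtain ⟨y2, e_y2⟩ : ∃ zz : ℝ, zz = s * s * ((-k2) + (1 : ℝ)) := ⟨_, rfl⟩
  obtain ⟨Wie, e_Wie⟩ : ∃ zz : ℝ, zz = W * ie := ⟨_, rfl⟩
  obtain ⟨q, e_q⟩ : ∃ zz : ℝ, zz = (4095 / 4096 : ℝ) - (1449 / 512) * sg - 30 * ie := ⟨_, rfl⟩
  obtain ⟨sp, e_sp⟩ : ∃ zz : ℝ, zz = (4095 / 4096 : ℝ) - (2899 / 2048) * sg - 24 * ie := ⟨_, rfl⟩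
  obtain ⟨q2, e_q2⟩ : ∃ zz : ℝ, zz = q - 8 * ie - (27495 / 2048) * Wie := ⟨_, rfl⟩
  obtain ⟨R2, e_R2⟩ : ∃ zz : ℝ, zz = (8521 / 2048) * ((8521 / 2048) * Wie) := ⟨_, rfl⟩
  obtain ⟨V1, e_V1⟩ : ∃ zz : ℝ, zz = R2 + (1 : ℝ) := ⟨_, rfl⟩
  obtain ⟨u, e_u⟩ : ∃ zz : ℝ, zz = Real.exp (-(q2 * ((31083 / 16384) * W))) := ⟨_, rfl⟩
  obtain ⟨wMo, e_wMo⟩ : ∃ zz : ℝ, zz = (161 / 32) * w := ⟨_, rfl⟩
  obtain ⟨ls, e_ls⟩ : ∃ zz : ℝ, zz = w * V1 * wMo := ⟨_, rfl⟩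
  obtain ⟨D2, e_D2⟩ : ∃ zz : ℝ, zz = V1 - 2 * ((31083 / 16384) * (k * wse)) := ⟨_, rfl⟩
  obtain ⟨DP, e_DP⟩ : ∃ zz : ℝ, zz = (1 : ℝ) + (1 / 2) * (R2 + 2 * ((8521 / 2048) * (k * wse))) := ⟨_, rfl⟩
  obtain ⟨XS, e_XS⟩ : ∃ zz : ℝ, zz = 4 * ((705 / 8192) * (DP * (be + (4 : ℝ))⁻¹)) := ⟨_, rfl⟩
  obtain ⟨X, e_X⟩ : ∃ zz : ℝ, zz = XS * s := ⟨_, rfl⟩
  obtain ⟨iX, e_iX⟩ : ∃ zz : ℝ, zz = ((1 : ℝ) - X)⁻¹ := ⟨_, rfl⟩
  obtain ⟨G, e_G⟩ : ∃ zz : ℝ, zz = (2 : ℝ) - (1 / 4) * y2 + (2731 / 524288) * (y2 * y2) + (859 / 1048576) * ((1 / 4) * y2 * ((1 / 4) * y2) * ((1 / 4) * y2) * ((1 / 4) * y2 * ((1 / 4) * y2) * ((1 / 4) * y2))) := ⟨_, rfl⟩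
  obtain ⟨n1, e_n1⟩ : ∃ zz : ℝ, zz = G + (8521 / 2048) * W + Real.exp (ls + (314573 / 524288) * (W * V1)) - (1 : ℝ) := ⟨_, rfl⟩
  obtain ⟨lspS, e_lspS⟩ : ∃ zz : ℝ, zz = sg * V1 * wMo + n1 * (XS * iX) := ⟨_, rfl⟩
  obtain ⟨lsp, e_lsp⟩ : ∃ zz : ℝ, zz = lspS * s := ⟨_, rfl⟩
  obtain ⟨ielf, e_ielf⟩ : ∃ zz : ℝ, zz = (9 / 2) * ie + (43691 / 524288) * sg := ⟨_, rfl⟩
  obtain ⟨uX, e_uX⟩ : ∃ zz : ℝ, zz = u * X := ⟨_, rfl⟩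
  obtain ⟨ielfp, e_ielfp⟩ : ∃ zz : ℝ, zz = ielf + ie * (uX * ((1 : ℝ) - uX)⁻¹) := ⟨_, rfl⟩
  obtain ⟨zbS, e_zbS⟩ : ∃ zz : ℝ, zz = Real.exp ((1 / 2) * Real.log (R2 - k2 + (129 / 128 : ℝ))) := ⟨_, rfl⟩
  obtain ⟨zb, e_zb⟩ : ∃ zz : ℝ, zz = zbS * s := ⟨_, rfl⟩
  obtain ⟨fac, e_fac⟩ : ∃ zz : ℝ, zz = (1 / 2) * (zb * ie) + (1064305 / 1048576 : ℝ) := ⟨_, rfl⟩
  obtain ⟨Q, e_Q⟩ : ∃ zz : ℝ, zz = fac * ((1 / 2) * wse * D2 * (zbS + (2149581 / 1048576) * k) + (zbS + (5243 / 1048576) * k) * lspS + k2 * ((445645 / 262144) * (ie * lsp) + (576717 / 262144) * ielfp)) := ⟨_, rfl⟩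
  obtain ⟨E, e_E⟩ : ∃ zz : ℝ, zz = Q * W := ⟨_, rfl⟩
  obtain ⟨Qw, e_Qw⟩ : ∃ zz : ℝ, zz = Q * wse := ⟨_, rfl⟩
  obtain ⟨c2, e_c2⟩ : ∃ zz : ℝ, zz = (4087 / 4096 : ℝ) - 2 * Qw := ⟨_, rfl⟩
  obtain ⟨u1, e_u1⟩ : ∃ zz : ℝ, zz = Real.exp (-(q2 * ((2840815 / 1048576) * (W * c2)))) := ⟨_, rfl⟩
  obtain ⟨EM, e_EM⟩ : ∃ zz : ℝ, zz = (161 / 32) * E + E := ⟨_, rfl⟩
  obtain ⟨EMs, e_EMs⟩ : ∃ zz : ℝ, zz = (161 / 32) * Qw + Qw := ⟨_, rfl⟩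
  obtain ⟨i2, e_i2⟩ : ∃ zz : ℝ, zz = ((1 : ℝ) - (1 / 2) * EM)⁻¹ := ⟨_, rfl⟩
  obtain ⟨eta, e_eta⟩ : ∃ zz : ℝ, zz = ((1 / 2) * EM + (1 : ℝ)) * i2 := ⟨_, rfl⟩
  obtain ⟨t1, e_t1⟩ : ∃ zz : ℝ, zz = EMs * i2 * ((1 / 4) * be + (1 : ℝ)) := ⟨_, rfl⟩
  obtain ⟨p_row_y, ch0⟩ := h
    (1 : ℝ) zc_1099511627776_0
    ie e_ie
    be e_be
    k2 e_k2
    w e_w
    W e_W
    wse e_wse
    (s * s) rfl
    (-k2) rfl
    ((-k2) + (1 : ℝ)) rfl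
    y2 e_y2
    Wie e_Wie
    (4095 / 4096 : ℝ) zc_1099243192320_0
    ((1449 / 512) * sg) (congrArg (fun y : ℝ => y * sg) zc_3111703805952_0)
    ((4095 / 4096 : ℝ) - (1449 / 512) * sg) rfl
    (30 * ie) (congrArg (fun y : ℝ => y * ie) zc_32985348833280_0)
    q e_q
    ((2899 / 2048) * sg) (congrArg (fun y : ℝ => y * sg) zc_1556388773888_0)
    ((4095 / 4096 : ℝ) - (2899 / 2048) * sg) rfl
    (24 * ie) (congrArg (fun y : ℝ => y * ie) zc_26388279066624_0)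
    sp e_sp
    (8 * ie) (congrArg (fun y : ℝ => y * ie) zc_8796093022208_0)
    (q - 8 * ie) rfl
    ((27495 / 2048) * Wie) (congrArg (fun y : ℝ => y * Wie) zc_14761265725440_0)
    q2 e_q2
    ((8521 / 2048) * Wie) (congrArg (fun y : ℝ => y * Wie) zc_4574677041152_0)
    R2 (e_R2.trans (congrArg (fun y : ℝ => y * ((8521 / 2048) * Wie)) zc_4574677041152_0))
    V1 e_V1
    ((31083 / 16384) * W) (congrArg (fun y : ℝ => y * W) zc_2085944819712_0)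
    (q2 * ((31083 / 16384) * W)) rfl
    (-(q2 * ((31083 / 16384) * W))) rfl
    u e_u
    (5849 / 1024 : ℝ) zc_6280315928576_0
    ((5849 / 1024 : ℝ) - y2) rfl
  change 0 < (5849 / 1024 : ℝ) - y2 at p_row_y
  obtain ⟨p_row_b, ch1⟩ := ch0
    (3 : ℝ) zc_3298534883328_0
    ((3 : ℝ) - be) rfl
  change 0 < (3 : ℝ) - be at p_row_b
  obtain ⟨p_X1, ch2⟩ := (ch1
    wMo (e_wMo.trans (congrArg (fun y : ℝ => y * w) zc_5531917877248_0))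
    (w * V1) rfl
    ls e_ls
    (k * wse) rfl
    ((31083 / 16384) * (k * wse)) (congrArg (fun y : ℝ => y * (k * wse)) zc_2085944819712_0)
    (2 * ((31083 / 16384) * (k * wse))) (congrArg (fun y : ℝ => y * ((31083 / 16384) * (k * wse))) zc_2199023255552_0)
    D2 e_D2
    ((8521 / 2048) * (k * wse)) (congrArg (fun y : ℝ => y * (k * wse)) zc_4574677041152_0)
    (2 * ((8521 / 2048) * (k * wse))) (congrArg (fun y : ℝ => y * ((8521 / 2048) * (k * wse))) zc_2199023255552_0)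
    (R2 + 2 * ((8521 / 2048) * (k * wse))) rfl
    ((1 / 2) * (R2 + 2 * ((8521 / 2048) * (k * wse)))) (congrArg (fun y : ℝ => y * (R2 + 2 * ((8521 / 2048) * (k * wse)))) zc_549755813888_0)
    DP e_DP
    (4 : ℝ) zc_4398046511104_0
    (be + (4 : ℝ)) rfl).2
    ((be + (4 : ℝ))⁻¹) rfl
    (DP * (be + (4 : ℝ))⁻¹) rfl
    ((705 / 8192) * (DP * (be + (4 : ℝ))⁻¹)) (congrArg (fun y : ℝ => y * (DP * (be + (4 : ℝ))⁻¹)) zc_94623498240_0)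
    XS (e_XS.trans (congrArg (fun y : ℝ => y * ((705 / 8192) * (DP * (be + (4 : ℝ))⁻¹))) zc_4398046511104_0))
    X e_X
    ((1 : ℝ) - X) rfl
  change 0 < (1 : ℝ) - X at p_X1
  obtain ⟨p_q20, ch3⟩ := (((ch2).2
    iX e_iX
    (2 : ℝ) zc_2199023255552_0
    ((1 / 4) * y2) (congrArg (fun y : ℝ => y * y2) zc_274877906944_0)
    ((2 : ℝ) - (1 / 4) * y2) rfl
    (y2 * y2) rfl
    ((2731 / 524288) * (y2 * y2)) (congrArg (fun y : ℝ => y * (y2 * y2)) zc_5727322112_0)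
    ((2 : ℝ) - (1 / 4) * y2 + (2731 / 524288) * (y2 * y2)) rfl
    ((1 / 4) * y2 * ((1 / 4) * y2)) rfl
    ((1 / 4) * y2 * ((1 / 4) * y2) * ((1 / 4) * y2)) rfl
    ((1 / 4) * y2 * ((1 / 4) * y2) * ((1 / 4) * y2) * ((1 / 4) * y2 * ((1 / 4) * y2) * ((1 / 4) * y2))) rfl
    ((859 / 1048576) * ((1 / 4) * y2 * ((1 / 4) * y2) * ((1 / 4) * y2) * ((1 / 4) * y2 * ((1 / 4) * y2) * ((1 / 4) * y2)))) (congrArg (fun y : ℝ => y * ((1 / 4) * y2 * ((1 / 4) * y2) * ((1 / 4) * y2) * ((1 / 4) * y2 * ((1 / 4) * y2) * ((1 / 4) * y2)))) zc_900726784_0)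
    G e_G
    ((8521 / 2048) * W) (congrArg (fun y : ℝ => y * W) zc_4574677041152_0)
    (G + (8521 / 2048) * W) rfl
    (W * V1) rfl
    ((314573 / 524288) * (W * V1)) (congrArg (fun y : ℝ => y * (W * V1)) zc_659707396096_0)
    (ls + (314573 / 524288) * (W * V1)) rfl
    (Real.exp (ls + (314573 / 524288) * (W * V1))) rfl
    (G + (8521 / 2048) * W + Real.exp (ls + (314573 / 524288) * (W * V1))) rfl
    n1 e_n1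
    (sg * V1) rfl
    (sg * V1 * wMo) rfl
    (XS * iX) rfl
    (n1 * (XS * iX)) rfl
    lspS e_lspS
    lsp e_lsp
    ((9 / 2) * ie) (congrArg (fun y : ℝ => y * ie) zc_4947802324992_0)
    ((43691 / 524288) * sg) (congrArg (fun y : ℝ => y * sg) zc_91626668032_0)
    ielf e_ielf
    uX e_uX
    ((1 : ℝ) - uX) rfl).2
    (((1 : ℝ) - uX)⁻¹) rfl
    (uX * ((1 : ℝ) - uX)⁻¹) rfl
    (ie * (uX * ((1 : ℝ) - uX)⁻¹)) rfl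
    ielfp e_ielfp
    (R2 - k2) rfl
    (129 / 128 : ℝ) zc_1108101562368_0
    (R2 - k2 + (129 / 128 : ℝ)) rfl).2
    (Real.log (R2 - k2 + (129 / 128 : ℝ))) rfl
    ((1 / 2) * Real.log (R2 - k2 + (129 / 128 : ℝ))) (congrArg (fun y : ℝ => y * Real.log (R2 - k2 + (129 / 128 : ℝ))) zc_549755813888_0)
    zbS e_zbS
    zb e_zb
    (zb * ie) rfl
    ((1 / 2) * (zb * ie)) (congrArg (fun y : ℝ => y * (zb * ie)) zc_549755813888_0)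
    (1064305 / 1048576 : ℝ) zc_1116004679680_0
    fac e_fac
    ((1 / 2) * wse) (congrArg (fun y : ℝ => y * wse) zc_549755813888_0)
    ((1 / 2) * wse * D2) rfl
    ((2149581 / 1048576) * k) (congrArg (fun y : ℝ => y * k) zc_2253999046656_0)
    (zbS + (2149581 / 1048576) * k) rfl
    ((1 / 2) * wse * D2 * (zbS + (2149581 / 1048576) * k)) rfl
    ((5243 / 1048576) * k) (congrArg (fun y : ℝ => y * k) zc_5497683968_0)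
    (zbS + (5243 / 1048576) * k) rfl
    ((zbS + (5243 / 1048576) * k) * lspS) rfl
    ((1 / 2) * wse * D2 * (zbS + (2149581 / 1048576) * k) + (zbS + (5243 / 1048576) * k) * lspS) rfl
    (ie * lsp) rfl
    ((445645 / 262144) * (ie * lsp)) (congrArg (fun y : ℝ => y * (ie * lsp)) zc_1869170606080_0)
    ((576717 / 262144) * ielfp) (congrArg (fun y : ℝ => y * ielfp) zc_2418926419968_0)
    ((445645 / 262144) * (ie * lsp) + (576717 / 262144) * ielfp) rfl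
    (k2 * ((445645 / 262144) * (ie * lsp) + (576717 / 262144) * ielfp)) rfl
    ((1 / 2) * wse * D2 * (zbS + (2149581 / 1048576) * k) + (zbS + (5243 / 1048576) * k) * lspS + k2 * ((445645 / 262144) * (ie * lsp) + (576717 / 262144) * ielfp)) rfl
    Q e_Q
    E e_E
    Qw e_Qw
    (4087 / 4096 : ℝ) zc_1097095708672_0
    (2 * Qw) (congrArg (fun y : ℝ => y * Qw) zc_2199023255552_0)
    c2 e_c2
  change 0 < q2 at p_q20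
  obtain ⟨p_Es, ch4⟩ := ch3
    ((1 : ℝ) - Qw) rfl
  change 0 < (1 : ℝ) - Qw at p_Es
  obtain ⟨p_c20, ch5⟩ := ch4
  change 0 < c2 at p_c20
  obtain ⟨p_RH, ch6⟩ := ch5
    (5499 / 1024 : ℝ) zc_5904506290176_0
    (8521 / 2048 : ℝ) zc_4574677041152_0
    ((5499 / 1024 : ℝ) - (8521 / 2048 : ℝ)) rfl
    ((5499 / 1024 : ℝ) - (8521 / 2048 : ℝ) - Q) rfl
    (Qw + (1 : ℝ)) rfl
    ((Qw + (1 : ℝ)) * (Qw + (1 : ℝ))) rfl
    ((5499 / 1024 : ℝ) - (8521 / 2048 : ℝ) - Q - (Qw + (1 : ℝ)) * (Qw + (1 : ℝ))) rfl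
  change 0 < (5499 / 1024 : ℝ) - (8521 / 2048 : ℝ) - Q - (Qw + (1 : ℝ)) * (Qw + (1 : ℝ)) at p_RH
  obtain ⟨p_h9, ch7⟩ := ch6
    ((9646899 / 1048576) * c2) (congrArg (fun y : ℝ => y * c2) zc_10115506765824_0)
    ((9646899 / 1048576) * c2 - (5499 / 1024 : ℝ)) rfl
  change 0 < (9646899 / 1048576) * c2 - (5499 / 1024 : ℝ) at p_h9
  obtain ⟨p_h2, ch8⟩ := ch7
    ((471859 / 524288) * c2) (congrArg (fun y : ℝ => y * c2) zc_989560045568_0)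
    ((59061 / 2048) * Wie) (congrArg (fun y : ℝ => y * Wie) zc_31708132933632_0)
    ((471859 / 524288) * c2 - (59061 / 2048) * Wie) rfl
  change 0 < (471859 / 524288) * c2 - (59061 / 2048) * Wie at p_h2
  obtain ⟨p_Er, ch9⟩ := ch8
    (31083 / 16384 : ℝ) zc_2085944819712_0
    ((31083 / 16384 : ℝ) - Q) rfl
  change 0 < (31083 / 16384 : ℝ) - Q at p_Er
  obtain ⟨p_dr, ch10⟩ := ch9
    ((12479 / 65536) * ((1 : ℝ) - Qw)) (congrArg (fun y : ℝ => y * ((1 : ℝ) - Qw)) zc_209362878464_0)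
    ((4255 / 4096) * Q) (congrArg (fun y : ℝ => y * Q) zc_1142192865280_0)
    ((12479 / 65536) * ((1 : ℝ) - Qw) - (4255 / 4096) * Q) rfl
  change 0 < (12479 / 65536) * ((1 : ℝ) - Qw) - (4255 / 4096) * Q at p_dr
  obtain ⟨p_La, ch11⟩ := ch10
    ((1 : ℝ) - 2 * Qw) rfl
    ((4475 / 1024) * ((1 : ℝ) - 2 * Qw)) (congrArg (fun y : ℝ => y * ((1 : ℝ) - 2 * Qw)) zc_4804994662400_0)
    ((4475 / 1024) * ((1 : ℝ) - 2 * Qw) - (8521 / 2048 : ℝ)) rfl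
    ((4475 / 1024) * ((1 : ℝ) - 2 * Qw) - (8521 / 2048 : ℝ) - Q) rfl
  change 0 < (4475 / 1024) * ((1 : ℝ) - 2 * Qw) - (8521 / 2048 : ℝ) - Q at p_La
  obtain ⟨p_l1, ch12⟩ := ch11
    (-(ie * lsp)) rfl
    (10485 / 1048576 : ℝ) zc_10994319360_0
    ((-(ie * lsp)) + (10485 / 1048576 : ℝ)) rfl
  change 0 < (-(ie * lsp)) + (10485 / 1048576 : ℝ) at p_l1
  obtain ⟨p_l2, ch13⟩ := ch12
    (-ielfp) rfl
    (20971 / 1048576 : ℝ) zc_21989687296_0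
    ((-ielfp) + (20971 / 1048576 : ℝ)) rfl
  change 0 < (-ielfp) + (20971 / 1048576 : ℝ) at p_l2
  obtain ⟨p_z1, ch14⟩ := ch13
    (-(zb * ie)) rfl
    (104857 / 1048576 : ℝ) zc_109950533632_0
    ((-(zb * ie)) + (104857 / 1048576 : ℝ)) rfl
  change 0 < (-(zb * ie)) + (104857 / 1048576 : ℝ) at p_z1
  obtain ⟨p_E1, ch15⟩ := ch14
    (E * ie) rfl
    (-(E * ie)) rfl
    (2621 / 524288 : ℝ) zc_5496635392_0
    ((-(E * ie)) + (2621 / 524288 : ℝ)) rfl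
  change 0 < (-(E * ie)) + (2621 / 524288 : ℝ) at p_E1
  obtain ⟨p_y, ch16⟩ := ch15
    (-E) rfl
    (41 / 4096 : ℝ) zc_11005853696_0
    ((-E) + (41 / 4096 : ℝ)) rfl
  change 0 < (-E) + (41 / 4096 : ℝ) at p_y
  obtain ⟨p_EM2, ch17⟩ := ch16
    (W * c2) rfl
    ((2840815 / 1048576) * (W * c2)) (congrArg (fun y : ℝ => y * (W * c2)) zc_2978810429440_0)
    (q2 * ((2840815 / 1048576) * (W * c2))) rfl
    (-(q2 * ((2840815 / 1048576) * (W * c2)))) rfl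
    u1 e_u1
    ((161 / 32) * E) (congrArg (fun y : ℝ => y * E) zc_5531917877248_0)
    EM e_EM
    ((161 / 32) * Qw) (congrArg (fun y : ℝ => y * Qw) zc_5531917877248_0)
    EMs e_EMs
    ((1 / 2) * EM) (congrArg (fun y : ℝ => y * EM) zc_549755813888_0)
    ((1 : ℝ) - (1 / 2) * EM) rfl
  change 0 < (1 : ℝ) - (1 / 2) * EM at p_EM2
  obtain ⟨p_cl, ch18⟩ := (ch17).2
    i2 e_i2
    ((1 / 2) * EM + (1 : ℝ)) rfl
    eta e_eta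
    (EMs * i2) rfl
    ((1 / 4) * be) (congrArg (fun y : ℝ => y * be) zc_274877906944_0)
    ((1 / 4) * be + (1 : ℝ)) rfl
    t1 e_t1
    ((151 / 2048) * u1) (congrArg (fun y : ℝ => y * u1) zc_81067507712_0)
    (eta * ((151 / 2048) * u1)) rfl
    (V1 + Q) rfl
    (wse * (V1 + Q)) rfl
    (wse * (V1 + Q) + (1 : ℝ)) rfl
    (eta * ((151 / 2048) * u1) * (wse * (V1 + Q) + (1 : ℝ))) rfl
    (t1 + eta * ((151 / 2048) * u1) * (wse * (V1 + Q) + (1 : ℝ))) rfl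
    (-(t1 + eta * ((151 / 2048) * u1) * (wse * (V1 + Q) + (1 : ℝ)))) rfl
    (90239 / 1048576 : ℝ) zc_94622449664_0
    ((-(t1 + eta * ((151 / 2048) * u1) * (wse * (V1 + Q) + (1 : ℝ)))) + (90239 / 1048576 : ℝ)) rfl
  change 0 < (-(t1 + eta * ((151 / 2048) * u1) * (wse * (V1 + Q) + (1 : ℝ)))) + (90239 / 1048576 : ℝ) at p_cl
  exact ⟨wMo, EM, EMs,
    ⟨ie, be, k2, w, W, wse, y2, Wie, q, sp, q2, R2, V1, u, ls, D2, DP, XS, X, iX, G, n1, lspS,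
    lsp, ielf, uX, ielfp, zbS, zb, fac, Q, E, Qw, c2, u1, i2, eta, t1, e_ie, e_be, e_k2, e_w,
    e_W, e_wse, e_y2, e_Wie, e_q, e_sp, e_q2, e_R2, e_V1, e_u, e_ls, e_D2, e_DP, e_XS, e_X,
    e_iX, e_G, e_n1, e_lspS, e_lsp, e_ielf, e_uX, e_ielfp, e_zbS, e_zb, e_fac, e_Q, e_E, e_Qw,
    e_c2, e_u1, e_i2, e_eta, e_t1, p_X1, p_q20, p_Es, p_c20, p_RH, p_h9, p_h2, p_Er, p_dr, p_La,
    p_l1, p_l2, p_z1, p_E1, p_y, p_EM2, p_cl⟩,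
    ⟨⟨e_wMo, e_EM, e_EMs, p_row_y, p_row_b⟩⟩⟩

theorem ex_LA1_r6 {sg s k : ℝ} (h : RAs Cert.LA1.prog7 [sg, s, k]) :
    ∃ wMo EM EMs : ℝ, ∃ P : PLA (cA 1) sg s k wMo EM EMs, Nonempty (PLAr (rA 1 6) P) := by
  obtain ⟨ie, e_ie⟩ : ∃ zz : ℝ, zz = sg * sg := ⟨_, rfl⟩
  obtain ⟨be, e_be⟩ : ∃ zz : ℝ, zz = k * s := ⟨_, rfl⟩
  obtain ⟨k2, e_k2⟩ : ∃ zz : ℝ, zz = k * k := ⟨_, rfl⟩
  obtain ⟨w, e_w⟩ : ∃ zz : ℝ, zz = sg * s := ⟨_, rfl⟩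
  obtain ⟨W, e_W⟩ : ∃ zz : ℝ, zz = w * w := ⟨_, rfl⟩
  obtain ⟨wse, e_wse⟩ : ∃ zz : ℝ, zz = w * sg := ⟨_, rfl⟩
  obtain ⟨y2, e_y2⟩ : ∃ zz : ℝ, zz = s * s * ((-k2) + (1 : ℝ)) := ⟨_, rfl⟩
  obtain ⟨Wie, e_Wie⟩ : ∃ zz : ℝ, zz = W * ie := ⟨_, rfl⟩
  obtain ⟨q, e_q⟩ : ∃ zz : ℝ, zz = (4095 / 4096 : ℝ) - (1449 / 512) * sg - 30 * ie := ⟨_, rfl⟩
  obtain ⟨sp, e_sp⟩ : ∃ zz : ℝ, zz = (4095 / 4096 : ℝ) - (2899 / 2048) * sg - 24 * ie := ⟨_, rfl⟩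
  obtain ⟨q2, e_q2⟩ : ∃ zz : ℝ, zz = q - 8 * ie - (27495 / 2048) * Wie := ⟨_, rfl⟩
  obtain ⟨R2, e_R2⟩ : ∃ zz : ℝ, zz = (8521 / 2048) * ((8521 / 2048) * Wie) := ⟨_, rfl⟩
  obtain ⟨V1, e_V1⟩ : ∃ zz : ℝ, zz = R2 + (1 : ℝ) := ⟨_, rfl⟩
  obtain ⟨u, e_u⟩ : ∃ zz : ℝ, zz = Real.exp (-(q2 * ((31083 / 16384) * W))) := ⟨_, rfl⟩
  obtain ⟨wMo, e_wMo⟩ : ∃ zz : ℝ, zz = (383 / 64) * w := ⟨_, rfl⟩
  obtain ⟨ls, e_ls⟩ : ∃ zz : ℝ, zz = w * V1 * wMo := ⟨_, rfl⟩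
  obtain ⟨D2, e_D2⟩ : ∃ zz : ℝ, zz = V1 - 2 * ((31083 / 16384) * (k * wse)) := ⟨_, rfl⟩
  obtain ⟨DP, e_DP⟩ : ∃ zz : ℝ, zz = (1 : ℝ) + (1 / 2) * (R2 + 2 * ((8521 / 2048) * (k * wse))) := ⟨_, rfl⟩
  obtain ⟨XS, e_XS⟩ : ∃ zz : ℝ, zz = 4 * ((705 / 8192) * (DP * (be + (4 : ℝ))⁻¹)) := ⟨_, rfl⟩
  obtain ⟨X, e_X⟩ : ∃ zz : ℝ, zz = XS * s := ⟨_, rfl⟩
  obtain ⟨iX, e_iX⟩ : ∃ zz : ℝ, zz = ((1 : ℝ) - X)⁻¹ := ⟨_, rfl⟩
  obtain ⟨G, e_G⟩ : ∃ zz : ℝ, zz = (2 : ℝ) - (1 / 4) * y2 + (2731 / 524288) * (y2 * y2) + (859 / 1048576) * ((1 / 4) * y2 * ((1 / 4) * y2) * ((1 / 4) * y2) * ((1 / 4) * y2 * ((1 / 4) * y2) * ((1 / 4) * y2))) := ⟨_, rfl⟩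
  obtain ⟨n1, e_n1⟩ : ∃ zz : ℝ, zz = G + (8521 / 2048) * W + Real.exp (ls + (314573 / 524288) * (W * V1)) - (1 : ℝ) := ⟨_, rfl⟩
  obtain ⟨lspS, e_lspS⟩ : ∃ zz : ℝ, zz = sg * V1 * wMo + n1 * (XS * iX) := ⟨_, rfl⟩
  obtain ⟨lsp, e_lsp⟩ : ∃ zz : ℝ, zz = lspS * s := ⟨_, rfl⟩
  obtain ⟨ielf, e_ielf⟩ : ∃ zz : ℝ, zz = (9 / 2) * ie + (43691 / 524288) * sg := ⟨_, rfl⟩
  obtain ⟨uX, e_uX⟩ : ∃ zz : ℝ, zz = u * X := ⟨_, rfl⟩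
  obtain ⟨ielfp, e_ielfp⟩ : ∃ zz : ℝ, zz = ielf + ie * (uX * ((1 : ℝ) - uX)⁻¹) := ⟨_, rfl⟩
  obtain ⟨zbS, e_zbS⟩ : ∃ zz : ℝ, zz = Real.exp ((1 / 2) * Real.log (R2 - k2 + (129 / 128 : ℝ))) := ⟨_, rfl⟩
  obtain ⟨zb, e_zb⟩ : ∃ zz : ℝ, zz = zbS * s := ⟨_, rfl⟩
  obtain ⟨fac, e_fac⟩ : ∃ zz : ℝ, zz = (1 / 2) * (zb * ie) + (1064305 / 1048576 : ℝ) := ⟨_, rfl⟩
  obtain ⟨Q, e_Q⟩ : ∃ zz : ℝ, zz = fac * ((1 / 2) * wse * D2 * (zbS + (2149581 / 1048576) * k) + (zbS + (5243 / 1048576) * k) * lspS + k2 * ((445645 / 262144) * (ie * lsp) + (576717 / 262144) * ielfp)) := ⟨_, rfl⟩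
  obtain ⟨E, e_E⟩ : ∃ zz : ℝ, zz = Q * W := ⟨_, rfl⟩
  obtain ⟨Qw, e_Qw⟩ : ∃ zz : ℝ, zz = Q * wse := ⟨_, rfl⟩
  obtain ⟨c2, e_c2⟩ : ∃ zz : ℝ, zz = (4087 / 4096 : ℝ) - 2 * Qw := ⟨_, rfl⟩
  obtain ⟨u1, e_u1⟩ : ∃ zz : ℝ, zz = Real.exp (-(q2 * ((2840815 / 1048576) * (W * c2)))) := ⟨_, rfl⟩
  obtain ⟨EM, e_EM⟩ : ∃ zz : ℝ, zz = (383 / 64) * E + E := ⟨_, rfl⟩
  obtain ⟨EMs, e_EMs⟩ : ∃ zz : ℝ, zz = (383 / 64) * Qw + Qw := ⟨_, rfl⟩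
  obtain ⟨i2, e_i2⟩ : ∃ zz : ℝ, zz = ((1 : ℝ) - (1 / 2) * EM)⁻¹ := ⟨_, rfl⟩
  obtain ⟨eta, e_eta⟩ : ∃ zz : ℝ, zz = ((1 / 2) * EM + (1 : ℝ)) * i2 := ⟨_, rfl⟩
  obtain ⟨t1, e_t1⟩ : ∃ zz : ℝ, zz = EMs * i2 * ((1 / 4) * be + (1 : ℝ)) := ⟨_, rfl⟩
  obtain ⟨p_row_y, ch0⟩ := h
    (1 : ℝ) zc_1099511627776_0
    ie e_ie
    be e_be
    k2 e_k2
    w e_w
    W e_W
    wse e_wse
    (s * s) rfl
    (-k2) rfl
    ((-k2) + (1 : ℝ)) rfl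
    y2 e_y2
    Wie e_Wie
    (4095 / 4096 : ℝ) zc_1099243192320_0
    ((1449 / 512) * sg) (congrArg (fun y : ℝ => y * sg) zc_3111703805952_0)
    ((4095 / 4096 : ℝ) - (1449 / 512) * sg) rfl
    (30 * ie) (congrArg (fun y : ℝ => y * ie) zc_32985348833280_0)
    q e_q
    ((2899 / 2048) * sg) (congrArg (fun y : ℝ => y * sg) zc_1556388773888_0)
    ((4095 / 4096 : ℝ) - (2899 / 2048) * sg) rfl
    (24 * ie) (congrArg (fun y : ℝ => y * ie) zc_26388279066624_0)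
    sp e_sp
    (8 * ie) (congrArg (fun y : ℝ => y * ie) zc_8796093022208_0)
    (q - 8 * ie) rfl
    ((27495 / 2048) * Wie) (congrArg (fun y : ℝ => y * Wie) zc_14761265725440_0)
    q2 e_q2
    ((8521 / 2048) * Wie) (congrArg (fun y : ℝ => y * Wie) zc_4574677041152_0)
    R2 (e_R2.trans (congrArg (fun y : ℝ => y * ((8521 / 2048) * Wie)) zc_4574677041152_0))
    V1 e_V1
    ((31083 / 16384) * W) (congrArg (fun y : ℝ => y * W) zc_2085944819712_0)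
    (q2 * ((31083 / 16384) * W)) rfl
    (-(q2 * ((31083 / 16384) * W))) rfl
    u e_u
    (25395 / 4096 : ℝ) zc_6816918405120_0
    ((25395 / 4096 : ℝ) - y2) rfl
  change 0 < (25395 / 4096 : ℝ) - y2 at p_row_y
  obtain ⟨p_row_b, ch1⟩ := ch0
    (2 : ℝ) zc_2199023255552_0
    ((2 : ℝ) - be) rfl
  change 0 < (2 : ℝ) - be at p_row_b
  obtain ⟨p_X1, ch2⟩ := (ch1
    wMo (e_wMo.trans (congrArg (fun y : ℝ => y * w) zc_6579889897472_0))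
    (w * V1) rfl
    ls e_ls
    (k * wse) rfl
    ((31083 / 16384) * (k * wse)) (congrArg (fun y : ℝ => y * (k * wse)) zc_2085944819712_0)
    (2 * ((31083 / 16384) * (k * wse))) (congrArg (fun y : ℝ => y * ((31083 / 16384) * (k * wse))) zc_2199023255552_0)
    D2 e_D2
    ((8521 / 2048) * (k * wse)) (congrArg (fun y : ℝ => y * (k * wse)) zc_4574677041152_0)
    (2 * ((8521 / 2048) * (k * wse))) (congrArg (fun y : ℝ => y * ((8521 / 2048) * (k * wse))) zc_2199023255552_0)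
    (R2 + 2 * ((8521 / 2048) * (k * wse))) rfl
    ((1 / 2) * (R2 + 2 * ((8521 / 2048) * (k * wse)))) (congrArg (fun y : ℝ => y * (R2 + 2 * ((8521 / 2048) * (k * wse)))) zc_549755813888_0)
    DP e_DP
    (4 : ℝ) zc_4398046511104_0
    (be + (4 : ℝ)) rfl).2
    ((be + (4 : ℝ))⁻¹) rfl
    (DP * (be + (4 : ℝ))⁻¹) rfl
    ((705 / 8192) * (DP * (be + (4 : ℝ))⁻¹)) (congrArg (fun y : ℝ => y * (DP * (be + (4 : ℝ))⁻¹)) zc_94623498240_0)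
    XS (e_XS.trans (congrArg (fun y : ℝ => y * ((705 / 8192) * (DP * (be + (4 : ℝ))⁻¹))) zc_4398046511104_0))
    X e_X
    ((1 : ℝ) - X) rfl
  change 0 < (1 : ℝ) - X at p_X1
  obtain ⟨p_q20, ch3⟩ := (((ch2).2
    iX e_iX
    (2 : ℝ) zc_2199023255552_0
    ((1 / 4) * y2) (congrArg (fun y : ℝ => y * y2) zc_274877906944_0)
    ((2 : ℝ) - (1 / 4) * y2) rfl
    (y2 * y2) rfl
    ((2731 / 524288) * (y2 * y2)) (congrArg (fun y : ℝ => y * (y2 * y2)) zc_5727322112_0)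
    ((2 : ℝ) - (1 / 4) * y2 + (2731 / 524288) * (y2 * y2)) rfl
    ((1 / 4) * y2 * ((1 / 4) * y2)) rfl
    ((1 / 4) * y2 * ((1 / 4) * y2) * ((1 / 4) * y2)) rfl
    ((1 / 4) * y2 * ((1 / 4) * y2) * ((1 / 4) * y2) * ((1 / 4) * y2 * ((1 / 4) * y2) * ((1 / 4) * y2))) rfl
    ((859 / 1048576) * ((1 / 4) * y2 * ((1 / 4) * y2) * ((1 / 4) * y2) * ((1 / 4) * y2 * ((1 / 4) * y2) * ((1 / 4) * y2)))) (congrArg (fun y : ℝ => y * ((1 / 4) * y2 * ((1 / 4) * y2) * ((1 / 4) * y2) * ((1 / 4) * y2 * ((1 / 4) * y2) * ((1 / 4) * y2)))) zc_900726784_0)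
    G e_G
    ((8521 / 2048) * W) (congrArg (fun y : ℝ => y * W) zc_4574677041152_0)
    (G + (8521 / 2048) * W) rfl
    (W * V1) rfl
    ((314573 / 524288) * (W * V1)) (congrArg (fun y : ℝ => y * (W * V1)) zc_659707396096_0)
    (ls + (314573 / 524288) * (W * V1)) rfl
    (Real.exp (ls + (314573 / 524288) * (W * V1))) rfl
    (G + (8521 / 2048) * W + Real.exp (ls + (314573 / 524288) * (W * V1))) rfl
    n1 e_n1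
    (sg * V1) rfl
    (sg * V1 * wMo) rfl
    (XS * iX) rfl
    (n1 * (XS * iX)) rfl
    lspS e_lspS
    lsp e_lsp
    ((9 / 2) * ie) (congrArg (fun y : ℝ => y * ie) zc_4947802324992_0)
    ((43691 / 524288) * sg) (congrArg (fun y : ℝ => y * sg) zc_91626668032_0)
    ielf e_ielf
    uX e_uX
    ((1 : ℝ) - uX) rfl).2
    (((1 : ℝ) - uX)⁻¹) rfl
    (uX * ((1 : ℝ) - uX)⁻¹) rfl
    (ie * (uX * ((1 : ℝ) - uX)⁻¹)) rfl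
    ielfp e_ielfp
    (R2 - k2) rfl
    (129 / 128 : ℝ) zc_1108101562368_0
    (R2 - k2 + (129 / 128 : ℝ)) rfl).2
    (Real.log (R2 - k2 + (129 / 128 : ℝ))) rfl
    ((1 / 2) * Real.log (R2 - k2 + (129 / 128 : ℝ))) (congrArg (fun y : ℝ => y * Real.log (R2 - k2 + (129 / 128 : ℝ))) zc_549755813888_0)
    zbS e_zbS
    zb e_zb
    (zb * ie) rfl
    ((1 / 2) * (zb * ie)) (congrArg (fun y : ℝ => y * (zb * ie)) zc_549755813888_0)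
    (1064305 / 1048576 : ℝ) zc_1116004679680_0
    fac e_fac
    ((1 / 2) * wse) (congrArg (fun y : ℝ => y * wse) zc_549755813888_0)
    ((1 / 2) * wse * D2) rfl
    ((2149581 / 1048576) * k) (congrArg (fun y : ℝ => y * k) zc_2253999046656_0)
    (zbS + (2149581 / 1048576) * k) rfl
    ((1 / 2) * wse * D2 * (zbS + (2149581 / 1048576) * k)) rfl
    ((5243 / 1048576) * k) (congrArg (fun y : ℝ => y * k) zc_5497683968_0)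
    (zbS + (5243 / 1048576) * k) rfl
    ((zbS + (5243 / 1048576) * k) * lspS) rfl
    ((1 / 2) * wse * D2 * (zbS + (2149581 / 1048576) * k) + (zbS + (5243 / 1048576) * k) * lspS) rfl
    (ie * lsp) rfl
    ((445645 / 262144) * (ie * lsp)) (congrArg (fun y : ℝ => y * (ie * lsp)) zc_1869170606080_0)
    ((576717 / 262144) * ielfp) (congrArg (fun y : ℝ => y * ielfp) zc_2418926419968_0)
    ((445645 / 262144) * (ie * lsp) + (576717 / 262144) * ielfp) rfl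
    (k2 * ((445645 / 262144) * (ie * lsp) + (576717 / 262144) * ielfp)) rfl
    ((1 / 2) * wse * D2 * (zbS + (2149581 / 1048576) * k) + (zbS + (5243 / 1048576) * k) * lspS + k2 * ((445645 / 262144) * (ie * lsp) + (576717 / 262144) * ielfp)) rfl
    Q e_Q
    E e_E
    Qw e_Qw
    (4087 / 4096 : ℝ) zc_1097095708672_0
    (2 * Qw) (congrArg (fun y : ℝ => y * Qw) zc_2199023255552_0)
    c2 e_c2
  change 0 < q2 at p_q20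
  obtain ⟨p_Es, ch4⟩ := ch3
    ((1 : ℝ) - Qw) rfl
  change 0 < (1 : ℝ) - Qw at p_Es
  obtain ⟨p_c20, ch5⟩ := ch4
  change 0 < c2 at p_c20
  obtain ⟨p_RH, ch6⟩ := ch5
    (5499 / 1024 : ℝ) zc_5904506290176_0
    (8521 / 2048 : ℝ) zc_4574677041152_0
    ((5499 / 1024 : ℝ) - (8521 / 2048 : ℝ)) rfl
    ((5499 / 1024 : ℝ) - (8521 / 2048 : ℝ) - Q) rfl
    (Qw + (1 : ℝ)) rfl
    ((Qw + (1 : ℝ)) * (Qw + (1 : ℝ))) rfl
    ((5499 / 1024 : ℝ) - (8521 / 2048 : ℝ) - Q - (Qw + (1 : ℝ)) * (Qw + (1 : ℝ))) rfl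
  change 0 < (5499 / 1024 : ℝ) - (8521 / 2048 : ℝ) - Q - (Qw + (1 : ℝ)) * (Qw + (1 : ℝ)) at p_RH
  obtain ⟨p_h9, ch7⟩ := ch6
    ((9646899 / 1048576) * c2) (congrArg (fun y : ℝ => y * c2) zc_10115506765824_0)
    ((9646899 / 1048576) * c2 - (5499 / 1024 : ℝ)) rfl
  change 0 < (9646899 / 1048576) * c2 - (5499 / 1024 : ℝ) at p_h9
  obtain ⟨p_h2, ch8⟩ := ch7
    ((471859 / 524288) * c2) (congrArg (fun y : ℝ => y * c2) zc_989560045568_0)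
    ((59061 / 2048) * Wie) (congrArg (fun y : ℝ => y * Wie) zc_31708132933632_0)
    ((471859 / 524288) * c2 - (59061 / 2048) * Wie) rfl
  change 0 < (471859 / 524288) * c2 - (59061 / 2048) * Wie at p_h2
  obtain ⟨p_Er, ch9⟩ := ch8
    (31083 / 16384 : ℝ) zc_2085944819712_0
    ((31083 / 16384 : ℝ) - Q) rfl
  change 0 < (31083 / 16384 : ℝ) - Q at p_Er
  obtain ⟨p_dr, ch10⟩ := ch9
    ((12479 / 65536) * ((1 : ℝ) - Qw)) (congrArg (fun y : ℝ => y * ((1 : ℝ) - Qw)) zc_209362878464_0)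
    ((4255 / 4096) * Q) (congrArg (fun y : ℝ => y * Q) zc_1142192865280_0)
    ((12479 / 65536) * ((1 : ℝ) - Qw) - (4255 / 4096) * Q) rfl
  change 0 < (12479 / 65536) * ((1 : ℝ) - Qw) - (4255 / 4096) * Q at p_dr
  obtain ⟨p_La, ch11⟩ := ch10
    ((1 : ℝ) - 2 * Qw) rfl
    ((4475 / 1024) * ((1 : ℝ) - 2 * Qw)) (congrArg (fun y : ℝ => y * ((1 : ℝ) - 2 * Qw)) zc_4804994662400_0)
    ((4475 / 1024) * ((1 : ℝ) - 2 * Qw) - (8521 / 2048 : ℝ)) rfl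
    ((4475 / 1024) * ((1 : ℝ) - 2 * Qw) - (8521 / 2048 : ℝ) - Q) rfl
  change 0 < (4475 / 1024) * ((1 : ℝ) - 2 * Qw) - (8521 / 2048 : ℝ) - Q at p_La
  obtain ⟨p_l1, ch12⟩ := ch11
    (-(ie * lsp)) rfl
    (10485 / 1048576 : ℝ) zc_10994319360_0
    ((-(ie * lsp)) + (10485 / 1048576 : ℝ)) rfl
  change 0 < (-(ie * lsp)) + (10485 / 1048576 : ℝ) at p_l1
  obtain ⟨p_l2, ch13⟩ := ch12
    (-ielfp) rfl
    (20971 / 1048576 : ℝ) zc_21989687296_0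
    ((-ielfp) + (20971 / 1048576 : ℝ)) rfl
  change 0 < (-ielfp) + (20971 / 1048576 : ℝ) at p_l2
  obtain ⟨p_z1, ch14⟩ := ch13
    (-(zb * ie)) rfl
    (104857 / 1048576 : ℝ) zc_109950533632_0
    ((-(zb * ie)) + (104857 / 1048576 : ℝ)) rfl
  change 0 < (-(zb * ie)) + (104857 / 1048576 : ℝ) at p_z1
  obtain ⟨p_E1, ch15⟩ := ch14
    (E * ie) rfl
    (-(E * ie)) rfl
    (2621 / 524288 : ℝ) zc_5496635392_0
    ((-(E * ie)) + (2621 / 524288 : ℝ)) rfl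
  change 0 < (-(E * ie)) + (2621 / 524288 : ℝ) at p_E1
  obtain ⟨p_y, ch16⟩ := ch15
    (-E) rfl
    (41 / 4096 : ℝ) zc_11005853696_0
    ((-E) + (41 / 4096 : ℝ)) rfl
  change 0 < (-E) + (41 / 4096 : ℝ) at p_y
  obtain ⟨p_EM2, ch17⟩ := ch16
    (W * c2) rfl
    ((2840815 / 1048576) * (W * c2)) (congrArg (fun y : ℝ => y * (W * c2)) zc_2978810429440_0)
    (q2 * ((2840815 / 1048576) * (W * c2))) rfl
    (-(q2 * ((2840815 / 1048576) * (W * c2)))) rfl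
    u1 e_u1
    ((383 / 64) * E) (congrArg (fun y : ℝ => y * E) zc_6579889897472_0)
    EM e_EM
    ((383 / 64) * Qw) (congrArg (fun y : ℝ => y * Qw) zc_6579889897472_0)
    EMs e_EMs
    ((1 / 2) * EM) (congrArg (fun y : ℝ => y * EM) zc_549755813888_0)
    ((1 : ℝ) - (1 / 2) * EM) rfl
  change 0 < (1 : ℝ) - (1 / 2) * EM at p_EM2
  obtain ⟨p_cl, ch18⟩ := (ch17).2
    i2 e_i2
    ((1 / 2) * EM + (1 : ℝ)) rfl
    eta e_eta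
    (EMs * i2) rfl
    ((1 / 4) * be) (congrArg (fun y : ℝ => y * be) zc_274877906944_0)
    ((1 / 4) * be + (1 : ℝ)) rfl
    t1 e_t1
    ((151 / 2048) * u1) (congrArg (fun y : ℝ => y * u1) zc_81067507712_0)
    (eta * ((151 / 2048) * u1)) rfl
    (V1 + Q) rfl
    (wse * (V1 + Q)) rfl
    (wse * (V1 + Q) + (1 : ℝ)) rfl
    (eta * ((151 / 2048) * u1) * (wse * (V1 + Q) + (1 : ℝ))) rfl
    (t1 + eta * ((151 / 2048) * u1) * (wse * (V1 + Q) + (1 : ℝ))) rfl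
    (-(t1 + eta * ((151 / 2048) * u1) * (wse * (V1 + Q) + (1 : ℝ)))) rfl
    (90239 / 1048576 : ℝ) zc_94622449664_0
    ((-(t1 + eta * ((151 / 2048) * u1) * (wse * (V1 + Q) + (1 : ℝ)))) + (90239 / 1048576 : ℝ)) rfl
  change 0 < (-(t1 + eta * ((151 / 2048) * u1) * (wse * (V1 + Q) + (1 : ℝ)))) + (90239 / 1048576 : ℝ) at p_cl
  exact ⟨wMo, EM, EMs,
    ⟨ie, be, k2, w, W, wse, y2, Wie, q, sp, q2, R2, V1, u, ls, D2, DP, XS, X, iX, G, n1, lspS,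
    lsp, ielf, uX, ielfp, zbS, zb, fac, Q, E, Qw, c2, u1, i2, eta, t1, e_ie, e_be, e_k2, e_w,
    e_W, e_wse, e_y2, e_Wie, e_q, e_sp, e_q2, e_R2, e_V1, e_u, e_ls, e_D2, e_DP, e_XS, e_X,
    e_iX, e_G, e_n1, e_lspS, e_lsp, e_ielf, e_uX, e_ielfp, e_zbS, e_zb, e_fac, e_Q, e_E, e_Qw,
    e_c2, e_u1, e_i2, e_eta, e_t1, p_X1, p_q20, p_Es, p_c20, p_RH, p_h9, p_h2, p_Er, p_dr, p_La,
    p_l1, p_l2, p_z1, p_E1, p_y, p_EM2, p_cl⟩,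
    ⟨⟨e_wMo, e_EM, e_EMs, p_row_y, p_row_b⟩⟩⟩

theorem ex_LA1_r7 {sg s k : ℝ} (h : RAs Cert.LA1.prog8 [sg, s, k]) :
    ∃ wMo EM EMs : ℝ, ∃ P : PLA (cA 1) sg s k wMo EM EMs, Nonempty (PLAr (rA 1 7) P) := by
  obtain ⟨ie, e_ie⟩ : ∃ zz : ℝ, zz = sg * sg := ⟨_, rfl⟩
  obtain ⟨be, e_be⟩ : ∃ zz : ℝ, zz = k * s := ⟨_, rfl⟩
  obtain ⟨k2, e_k2⟩ : ∃ zz : ℝ, zz = k * k := ⟨_, rfl⟩
  obtain ⟨w, e_w⟩ : ∃ zz : ℝ, zz = sg * s := ⟨_, rfl⟩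
  obtain ⟨W, e_W⟩ : ∃ zz : ℝ, zz = w * w := ⟨_, rfl⟩
  obtain ⟨wse, e_wse⟩ : ∃ zz : ℝ, zz = w * sg := ⟨_, rfl⟩
  obtain ⟨y2, e_y2⟩ : ∃ zz : ℝ, zz = s * s * ((-k2) + (1 : ℝ)) := ⟨_, rfl⟩
  obtain ⟨Wie, e_Wie⟩ : ∃ zz : ℝ, zz = W * ie := ⟨_, rfl⟩
  obtain ⟨q, e_q⟩ : ∃ zz : ℝ, zz = (4095 / 4096 : ℝ) - (1449 / 512) * sg - 30 * ie := ⟨_, rfl⟩
  obtain ⟨sp, e_sp⟩ : ∃ zz : ℝ, zz = (4095 / 4096 : ℝ) - (2899 / 2048) * sg - 24 * ie := ⟨_, rfl⟩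
  obtain ⟨q2, e_q2⟩ : ∃ zz : ℝ, zz = q - 8 * ie - (27495 / 2048) * Wie := ⟨_, rfl⟩
  obtain ⟨R2, e_R2⟩ : ∃ zz : ℝ, zz = (8521 / 2048) * ((8521 / 2048) * Wie) := ⟨_, rfl⟩
  obtain ⟨V1, e_V1⟩ : ∃ zz : ℝ, zz = R2 + (1 : ℝ) := ⟨_, rfl⟩
  obtain ⟨u, e_u⟩ : ∃ zz : ℝ, zz = Real.exp (-(q2 * ((31083 / 16384) * W))) := ⟨_, rfl⟩
  obtain ⟨wMo, e_wMo⟩ : ∃ zz : ℝ, zz = (245 / 32) * w := ⟨_, rfl⟩
  obtain ⟨ls, e_ls⟩ : ∃ zz : ℝ, zz = w * V1 * wMo := ⟨_, rfl⟩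
  obtain ⟨D2, e_D2⟩ : ∃ zz : ℝ, zz = V1 - 2 * ((31083 / 16384) * (k * wse)) := ⟨_, rfl⟩
  obtain ⟨DP, e_DP⟩ : ∃ zz : ℝ, zz = (1 : ℝ) + (1 / 2) * (R2 + 2 * ((8521 / 2048) * (k * wse))) := ⟨_, rfl⟩
  obtain ⟨XS, e_XS⟩ : ∃ zz : ℝ, zz = 4 * ((705 / 8192) * (DP * (be + (4 : ℝ))⁻¹)) := ⟨_, rfl⟩
  obtain ⟨X, e_X⟩ : ∃ zz : ℝ, zz = XS * s := ⟨_, rfl⟩
  obtain ⟨iX, e_iX⟩ : ∃ zz : ℝ, zz = ((1 : ℝ) - X)⁻¹ := ⟨_, rfl⟩
  obtain ⟨G, e_G⟩ : ∃ zz : ℝ, zz = (2 : ℝ) - (1 / 4) * y2 + (2731 / 524288) * (y2 * y2) + (859 / 1048576) * ((1 / 4) * y2 * ((1 / 4) * y2) * ((1 / 4) * y2) * ((1 / 4) * y2 * ((1 / 4) * y2) * ((1 / 4) * y2))) := ⟨_, rfl⟩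
  obtain ⟨n1, e_n1⟩ : ∃ zz : ℝ, zz = G + (8521 / 2048) * W + Real.exp (ls + (314573 / 524288) * (W * V1)) - (1 : ℝ) := ⟨_, rfl⟩
  obtain ⟨lspS, e_lspS⟩ : ∃ zz : ℝ, zz = sg * V1 * wMo + n1 * (XS * iX) := ⟨_, rfl⟩
  obtain ⟨lsp, e_lsp⟩ : ∃ zz : ℝ, zz = lspS * s := ⟨_, rfl⟩
  obtain ⟨ielf, e_ielf⟩ : ∃ zz : ℝ, zz = (9 / 2) * ie + (43691 / 524288) * sg := ⟨_, rfl⟩
  obtain ⟨uX, e_uX⟩ : ∃ zz : ℝ, zz = u * X := ⟨_, rfl⟩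
  obtain ⟨ielfp, e_ielfp⟩ : ∃ zz : ℝ, zz = ielf + ie * (uX * ((1 : ℝ) - uX)⁻¹) := ⟨_, rfl⟩
  obtain ⟨zbS, e_zbS⟩ : ∃ zz : ℝ, zz = Real.exp ((1 / 2) * Real.log (R2 - k2 + (129 / 128 : ℝ))) := ⟨_, rfl⟩
  obtain ⟨zb, e_zb⟩ : ∃ zz : ℝ, zz = zbS * s := ⟨_, rfl⟩
  obtain ⟨fac, e_fac⟩ : ∃ zz : ℝ, zz = (1 / 2) * (zb * ie) + (1064305 / 1048576 : ℝ) := ⟨_, rfl⟩
  obtain ⟨Q, e_Q⟩ : ∃ zz : ℝ, zz = fac * ((1 / 2) * wse * D2 * (zbS + (2149581 / 1048576) * k) + (zbS + (5243 / 1048576) * k) * lspS + k2 * ((445645 / 262144) * (ie * lsp) + (576717 / 262144) * ielfp)) := ⟨_, rfl⟩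
  obtain ⟨E, e_E⟩ : ∃ zz : ℝ, zz = Q * W := ⟨_, rfl⟩
  obtain ⟨Qw, e_Qw⟩ : ∃ zz : ℝ, zz = Q * wse := ⟨_, rfl⟩
  obtain ⟨c2, e_c2⟩ : ∃ zz : ℝ, zz = (4087 / 4096 : ℝ) - 2 * Qw := ⟨_, rfl⟩
  obtain ⟨u1, e_u1⟩ : ∃ zz : ℝ, zz = Real.exp (-(q2 * ((2840815 / 1048576) * (W * c2)))) := ⟨_, rfl⟩
  obtain ⟨EM, e_EM⟩ : ∃ zz : ℝ, zz = (245 / 32) * E + E := ⟨_, rfl⟩
  obtain ⟨EMs, e_EMs⟩ : ∃ zz : ℝ, zz = (245 / 32) * Qw + Qw := ⟨_, rfl⟩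
  obtain ⟨i2, e_i2⟩ : ∃ zz : ℝ, zz = ((1 : ℝ) - (1 / 2) * EM)⁻¹ := ⟨_, rfl⟩
  obtain ⟨eta, e_eta⟩ : ∃ zz : ℝ, zz = ((1 / 2) * EM + (1 : ℝ)) * i2 := ⟨_, rfl⟩
  obtain ⟨t1, e_t1⟩ : ∃ zz : ℝ, zz = EMs * i2 * ((1 / 4) * be + (1 : ℝ)) := ⟨_, rfl⟩
  obtain ⟨p_row_y, ch0⟩ := h
    (1 : ℝ) zc_1099511627776_0
    ie e_ie
    be e_be
    k2 e_k2
    w e_w
    W e_W
    wse e_wse
    (s * s) rfl
    (-k2) rfl
    ((-k2) + (1 : ℝ)) rfl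
    y2 e_y2
    Wie e_Wie
    (4095 / 4096 : ℝ) zc_1099243192320_0
    ((1449 / 512) * sg) (congrArg (fun y : ℝ => y * sg) zc_3111703805952_0)
    ((4095 / 4096 : ℝ) - (1449 / 512) * sg) rfl
    (30 * ie) (congrArg (fun y : ℝ => y * ie) zc_32985348833280_0)
    q e_q
    ((2899 / 2048) * sg) (congrArg (fun y : ℝ => y * sg) zc_1556388773888_0)
    ((4095 / 4096 : ℝ) - (2899 / 2048) * sg) rfl
    (24 * ie) (congrArg (fun y : ℝ => y * ie) zc_26388279066624_0)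
    sp e_sp
    (8 * ie) (congrArg (fun y : ℝ => y * ie) zc_8796093022208_0)
    (q - 8 * ie) rfl
    ((27495 / 2048) * Wie) (congrArg (fun y : ℝ => y * Wie) zc_14761265725440_0)
    q2 e_q2
    ((8521 / 2048) * Wie) (congrArg (fun y : ℝ => y * Wie) zc_4574677041152_0)
    R2 (e_R2.trans (congrArg (fun y : ℝ => y * ((8521 / 2048) * Wie)) zc_4574677041152_0))
    V1 e_V1
    ((31083 / 16384) * W) (congrArg (fun y : ℝ => y * W) zc_2085944819712_0)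
    (q2 * ((31083 / 16384) * W)) rfl
    (-(q2 * ((31083 / 16384) * W))) rfl
    u e_u
    (6869 / 1024 : ℝ) zc_7375532589056_0
    ((6869 / 1024 : ℝ) - y2) rfl
  change 0 < (6869 / 1024 : ℝ) - y2 at p_row_y
  obtain ⟨p_row_b, ch1⟩ := ch0
    (3 / 2 : ℝ) zc_1649267441664_0
    ((3 / 2 : ℝ) - be) rfl
  change 0 < (3 / 2 : ℝ) - be at p_row_b
  obtain ⟨p_X1, ch2⟩ := (ch1
    wMo (e_wMo.trans (congrArg (fun y : ℝ => y * w) zc_8418135900160_0))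
    (w * V1) rfl
    ls e_ls
    (k * wse) rfl
    ((31083 / 16384) * (k * wse)) (congrArg (fun y : ℝ => y * (k * wse)) zc_2085944819712_0)
    (2 * ((31083 / 16384) * (k * wse))) (congrArg (fun y : ℝ => y * ((31083 / 16384) * (k * wse))) zc_2199023255552_0)
    D2 e_D2
    ((8521 / 2048) * (k * wse)) (congrArg (fun y : ℝ => y * (k * wse)) zc_4574677041152_0)
    (2 * ((8521 / 2048) * (k * wse))) (congrArg (fun y : ℝ => y * ((8521 / 2048) * (k * wse))) zc_2199023255552_0)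
    (R2 + 2 * ((8521 / 2048) * (k * wse))) rfl
    ((1 / 2) * (R2 + 2 * ((8521 / 2048) * (k * wse)))) (congrArg (fun y : ℝ => y * (R2 + 2 * ((8521 / 2048) * (k * wse)))) zc_549755813888_0)
    DP e_DP
    (4 : ℝ) zc_4398046511104_0
    (be + (4 : ℝ)) rfl).2
    ((be + (4 : ℝ))⁻¹) rfl
    (DP * (be + (4 : ℝ))⁻¹) rfl
    ((705 / 8192) * (DP * (be + (4 : ℝ))⁻¹)) (congrArg (fun y : ℝ => y * (DP * (be + (4 : ℝ))⁻¹)) zc_94623498240_0)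
    XS (e_XS.trans (congrArg (fun y : ℝ => y * ((705 / 8192) * (DP * (be + (4 : ℝ))⁻¹))) zc_4398046511104_0))
    X e_X
    ((1 : ℝ) - X) rfl
  change 0 < (1 : ℝ) - X at p_X1
  obtain ⟨p_q20, ch3⟩ := (((ch2).2
    iX e_iX
    (2 : ℝ) zc_2199023255552_0
    ((1 / 4) * y2) (congrArg (fun y : ℝ => y * y2) zc_274877906944_0)
    ((2 : ℝ) - (1 / 4) * y2) rfl
    (y2 * y2) rfl
    ((2731 / 524288) * (y2 * y2)) (congrArg (fun y : ℝ => y * (y2 * y2)) zc_5727322112_0)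
    ((2 : ℝ) - (1 / 4) * y2 + (2731 / 524288) * (y2 * y2)) rfl
    ((1 / 4) * y2 * ((1 / 4) * y2)) rfl
    ((1 / 4) * y2 * ((1 / 4) * y2) * ((1 / 4) * y2)) rfl
    ((1 / 4) * y2 * ((1 / 4) * y2) * ((1 / 4) * y2) * ((1 / 4) * y2 * ((1 / 4) * y2) * ((1 / 4) * y2))) rfl
    ((859 / 1048576) * ((1 / 4) * y2 * ((1 / 4) * y2) * ((1 / 4) * y2) * ((1 / 4) * y2 * ((1 / 4) * y2) * ((1 / 4) * y2)))) (congrArg (fun y : ℝ => y * ((1 / 4) * y2 * ((1 / 4) * y2) * ((1 / 4) * y2) * ((1 / 4) * y2 * ((1 / 4) * y2) * ((1 / 4) * y2)))) zc_900726784_0)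
    G e_G
    ((8521 / 2048) * W) (congrArg (fun y : ℝ => y * W) zc_4574677041152_0)
    (G + (8521 / 2048) * W) rfl
    (W * V1) rfl
    ((314573 / 524288) * (W * V1)) (congrArg (fun y : ℝ => y * (W * V1)) zc_659707396096_0)
    (ls + (314573 / 524288) * (W * V1)) rfl
    (Real.exp (ls + (314573 / 524288) * (W * V1))) rfl
    (G + (8521 / 2048) * W + Real.exp (ls + (314573 / 524288) * (W * V1))) rfl
    n1 e_n1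
    (sg * V1) rfl
    (sg * V1 * wMo) rfl
    (XS * iX) rfl
    (n1 * (XS * iX)) rfl
    lspS e_lspS
    lsp e_lsp
    ((9 / 2) * ie) (congrArg (fun y : ℝ => y * ie) zc_4947802324992_0)
    ((43691 / 524288) * sg) (congrArg (fun y : ℝ => y * sg) zc_91626668032_0)
    ielf e_ielf
    uX e_uX
    ((1 : ℝ) - uX) rfl).2
    (((1 : ℝ) - uX)⁻¹) rfl
    (uX * ((1 : ℝ) - uX)⁻¹) rfl
    (ie * (uX * ((1 : ℝ) - uX)⁻¹)) rfl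
    ielfp e_ielfp
    (R2 - k2) rfl
    (129 / 128 : ℝ) zc_1108101562368_0
    (R2 - k2 + (129 / 128 : ℝ)) rfl).2
    (Real.log (R2 - k2 + (129 / 128 : ℝ))) rfl
    ((1 / 2) * Real.log (R2 - k2 + (129 / 128 : ℝ))) (congrArg (fun y : ℝ => y * Real.log (R2 - k2 + (129 / 128 : ℝ))) zc_549755813888_0)
    zbS e_zbS
    zb e_zb
    (zb * ie) rfl
    ((1 / 2) * (zb * ie)) (congrArg (fun y : ℝ => y * (zb * ie)) zc_549755813888_0)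
    (1064305 / 1048576 : ℝ) zc_1116004679680_0
    fac e_fac
    ((1 / 2) * wse) (congrArg (fun y : ℝ => y * wse) zc_549755813888_0)
    ((1 / 2) * wse * D2) rfl
    ((2149581 / 1048576) * k) (congrArg (fun y : ℝ => y * k) zc_2253999046656_0)
    (zbS + (2149581 / 1048576) * k) rfl
    ((1 / 2) * wse * D2 * (zbS + (2149581 / 1048576) * k)) rfl
    ((5243 / 1048576) * k) (congrArg (fun y : ℝ => y * k) zc_5497683968_0)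
    (zbS + (5243 / 1048576) * k) rfl
    ((zbS + (5243 / 1048576) * k) * lspS) rfl
    ((1 / 2) * wse * D2 * (zbS + (2149581 / 1048576) * k) + (zbS + (5243 / 1048576) * k) * lspS) rfl
    (ie * lsp) rfl
    ((445645 / 262144) * (ie * lsp)) (congrArg (fun y : ℝ => y * (ie * lsp)) zc_1869170606080_0)
    ((576717 / 262144) * ielfp) (congrArg (fun y : ℝ => y * ielfp) zc_2418926419968_0)
    ((445645 / 262144) * (ie * lsp) + (576717 / 262144) * ielfp) rfl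
    (k2 * ((445645 / 262144) * (ie * lsp) + (576717 / 262144) * ielfp)) rfl
    ((1 / 2) * wse * D2 * (zbS + (2149581 / 1048576) * k) + (zbS + (5243 / 1048576) * k) * lspS + k2 * ((445645 / 262144) * (ie * lsp) + (576717 / 262144) * ielfp)) rfl
    Q e_Q
    E e_E
    Qw e_Qw
    (4087 / 4096 : ℝ) zc_1097095708672_0
    (2 * Qw) (congrArg (fun y : ℝ => y * Qw) zc_2199023255552_0)
    c2 e_c2
  change 0 < q2 at p_q20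
  obtain ⟨p_Es, ch4⟩ := ch3
    ((1 : ℝ) - Qw) rfl
  change 0 < (1 : ℝ) - Qw at p_Es
  obtain ⟨p_c20, ch5⟩ := ch4
  change 0 < c2 at p_c20
  obtain ⟨p_RH, ch6⟩ := ch5
    (5499 / 1024 : ℝ) zc_5904506290176_0
    (8521 / 2048 : ℝ) zc_4574677041152_0
    ((5499 / 1024 : ℝ) - (8521 / 2048 : ℝ)) rfl
    ((5499 / 1024 : ℝ) - (8521 / 2048 : ℝ) - Q) rfl
    (Qw + (1 : ℝ)) rfl
    ((Qw + (1 : ℝ)) * (Qw + (1 : ℝ))) rfl
    ((5499 / 1024 : ℝ) - (8521 / 2048 : ℝ) - Q - (Qw + (1 : ℝ)) * (Qw + (1 : ℝ))) rfl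
  change 0 < (5499 / 1024 : ℝ) - (8521 / 2048 : ℝ) - Q - (Qw + (1 : ℝ)) * (Qw + (1 : ℝ)) at p_RH
  obtain ⟨p_h9, ch7⟩ := ch6
    ((9646899 / 1048576) * c2) (congrArg (fun y : ℝ => y * c2) zc_10115506765824_0)
    ((9646899 / 1048576) * c2 - (5499 / 1024 : ℝ)) rfl
  change 0 < (9646899 / 1048576) * c2 - (5499 / 1024 : ℝ) at p_h9
  obtain ⟨p_h2, ch8⟩ := ch7
    ((471859 / 524288) * c2) (congrArg (fun y : ℝ => y * c2) zc_989560045568_0)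
    ((59061 / 2048) * Wie) (congrArg (fun y : ℝ => y * Wie) zc_31708132933632_0)
    ((471859 / 524288) * c2 - (59061 / 2048) * Wie) rfl
  change 0 < (471859 / 524288) * c2 - (59061 / 2048) * Wie at p_h2
  obtain ⟨p_Er, ch9⟩ := ch8
    (31083 / 16384 : ℝ) zc_2085944819712_0
    ((31083 / 16384 : ℝ) - Q) rfl
  change 0 < (31083 / 16384 : ℝ) - Q at p_Er
  obtain ⟨p_dr, ch10⟩ := ch9
    ((12479 / 65536) * ((1 : ℝ) - Qw)) (congrArg (fun y : ℝ => y * ((1 : ℝ) - Qw)) zc_209362878464_0)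
    ((4255 / 4096) * Q) (congrArg (fun y : ℝ => y * Q) zc_1142192865280_0)
    ((12479 / 65536) * ((1 : ℝ) - Qw) - (4255 / 4096) * Q) rfl
  change 0 < (12479 / 65536) * ((1 : ℝ) - Qw) - (4255 / 4096) * Q at p_dr
  obtain ⟨p_La, ch11⟩ := ch10
    ((1 : ℝ) - 2 * Qw) rfl
    ((4475 / 1024) * ((1 : ℝ) - 2 * Qw)) (congrArg (fun y : ℝ => y * ((1 : ℝ) - 2 * Qw)) zc_4804994662400_0)
    ((4475 / 1024) * ((1 : ℝ) - 2 * Qw) - (8521 / 2048 : ℝ)) rfl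
    ((4475 / 1024) * ((1 : ℝ) - 2 * Qw) - (8521 / 2048 : ℝ) - Q) rfl
  change 0 < (4475 / 1024) * ((1 : ℝ) - 2 * Qw) - (8521 / 2048 : ℝ) - Q at p_La
  obtain ⟨p_l1, ch12⟩ := ch11
    (-(ie * lsp)) rfl
    (10485 / 1048576 : ℝ) zc_10994319360_0
    ((-(ie * lsp)) + (10485 / 1048576 : ℝ)) rfl
  change 0 < (-(ie * lsp)) + (10485 / 1048576 : ℝ) at p_l1
  obtain ⟨p_l2, ch13⟩ := ch12
    (-ielfp) rfl
    (20971 / 1048576 : ℝ) zc_21989687296_0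
    ((-ielfp) + (20971 / 1048576 : ℝ)) rfl
  change 0 < (-ielfp) + (20971 / 1048576 : ℝ) at p_l2
  obtain ⟨p_z1, ch14⟩ := ch13
    (-(zb * ie)) rfl
    (104857 / 1048576 : ℝ) zc_109950533632_0
    ((-(zb * ie)) + (104857 / 1048576 : ℝ)) rfl
  change 0 < (-(zb * ie)) + (104857 / 1048576 : ℝ) at p_z1
  obtain ⟨p_E1, ch15⟩ := ch14
    (E * ie) rfl
    (-(E * ie)) rfl
    (2621 / 524288 : ℝ) zc_5496635392_0
    ((-(E * ie)) + (2621 / 524288 : ℝ)) rfl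
  change 0 < (-(E * ie)) + (2621 / 524288 : ℝ) at p_E1
  obtain ⟨p_y, ch16⟩ := ch15
    (-E) rfl
    (41 / 4096 : ℝ) zc_11005853696_0
    ((-E) + (41 / 4096 : ℝ)) rfl
  change 0 < (-E) + (41 / 4096 : ℝ) at p_y
  obtain ⟨p_EM2, ch17⟩ := ch16
    (W * c2) rfl
    ((2840815 / 1048576) * (W * c2)) (congrArg (fun y : ℝ => y * (W * c2)) zc_2978810429440_0)
    (q2 * ((2840815 / 1048576) * (W * c2))) rfl
    (-(q2 * ((2840815 / 1048576) * (W * c2)))) rfl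
    u1 e_u1
    ((245 / 32) * E) (congrArg (fun y : ℝ => y * E) zc_8418135900160_0)
    EM e_EM
    ((245 / 32) * Qw) (congrArg (fun y : ℝ => y * Qw) zc_8418135900160_0)
    EMs e_EMs
    ((1 / 2) * EM) (congrArg (fun y : ℝ => y * EM) zc_549755813888_0)
    ((1 : ℝ) - (1 / 2) * EM) rfl
  change 0 < (1 : ℝ) - (1 / 2) * EM at p_EM2
  obtain ⟨p_cl, ch18⟩ := (ch17).2
    i2 e_i2
    ((1 / 2) * EM + (1 : ℝ)) rfl
    eta e_eta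
    (EMs * i2) rfl
    ((1 / 4) * be) (congrArg (fun y : ℝ => y * be) zc_274877906944_0)
    ((1 / 4) * be + (1 : ℝ)) rfl
    t1 e_t1
    ((151 / 2048) * u1) (congrArg (fun y : ℝ => y * u1) zc_81067507712_0)
    (eta * ((151 / 2048) * u1)) rfl
    (V1 + Q) rfl
    (wse * (V1 + Q)) rfl
    (wse * (V1 + Q) + (1 : ℝ)) rfl
    (eta * ((151 / 2048) * u1) * (wse * (V1 + Q) + (1 : ℝ))) rfl
    (t1 + eta * ((151 / 2048) * u1) * (wse * (V1 + Q) + (1 : ℝ))) rfl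
    (-(t1 + eta * ((151 / 2048) * u1) * (wse * (V1 + Q) + (1 : ℝ)))) rfl
    (90239 / 1048576 : ℝ) zc_94622449664_0
    ((-(t1 + eta * ((151 / 2048) * u1) * (wse * (V1 + Q) + (1 : ℝ)))) + (90239 / 1048576 : ℝ)) rfl
  change 0 < (-(t1 + eta * ((151 / 2048) * u1) * (wse * (V1 + Q) + (1 : ℝ)))) + (90239 / 1048576 : ℝ) at p_cl
  exact ⟨wMo, EM, EMs,
    ⟨ie, be, k2, w, W, wse, y2, Wie, q, sp, q2, R2, V1, u, ls, D2, DP, XS, X, iX, G, n1, lspS,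
    lsp, ielf, uX, ielfp, zbS, zb, fac, Q, E, Qw, c2, u1, i2, eta, t1, e_ie, e_be, e_k2, e_w,
    e_W, e_wse, e_y2, e_Wie, e_q, e_sp, e_q2, e_R2, e_V1, e_u, e_ls, e_D2, e_DP, e_XS, e_X,
    e_iX, e_G, e_n1, e_lspS, e_lsp, e_ielf, e_uX, e_ielfp, e_zbS, e_zb, e_fac, e_Q, e_E, e_Qw,
    e_c2, e_u1, e_i2, e_eta, e_t1, p_X1, p_q20, p_Es, p_c20, p_RH, p_h9, p_h2, p_Er, p_dr, p_La,
    p_l1, p_l2, p_z1, p_E1, p_y, p_EM2, p_cl⟩,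
    ⟨⟨e_wMo, e_EM, e_EMs, p_row_y, p_row_b⟩⟩⟩

theorem ex_LA1_gb {sg s k : ℝ} (h : RAs Cert.LA1.prog9 [sg, s, k]) :
    0 < k * s - (5243509 / 1048576 : ℝ) := by
  obtain ⟨p_g, ch0⟩ := h
    (k * s) rfl
    (5243509 / 1048576 : ℝ) zc_5498217693184_0
    (k * s - (5243509 / 1048576 : ℝ)) rfl
  change 0 < k * s - (5243509 / 1048576 : ℝ) at p_g
  exact p_g

theorem ex_LA1_gy {sg s k : ℝ} (h : RAs Cert.LA1.prog10 [sg, s, k]) :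
    0 < s * s * ((-(k * k)) + (1 : ℝ)) - (42211 / 4096 : ℝ) := by
  obtain ⟨p_g, ch0⟩ := h
    (s * s) rfl
    (k * k) rfl
    (-(k * k)) rfl
    (1 : ℝ) zc_1099511627776_0
    ((-(k * k)) + (1 : ℝ)) rfl
    (s * s * ((-(k * k)) + (1 : ℝ))) rfl
    (42211 / 4096 : ℝ) zc_11330929033216_0
    (s * s * ((-(k * k)) + (1 : ℝ)) - (42211 / 4096 : ℝ)) rfl
  change 0 < s * s * ((-(k * k)) + (1 : ℝ)) - (42211 / 4096 : ℝ) at p_g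
  exact p_g

end Pool.Agent.helper31.EQB
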