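import Pool.Agent.helper31.EQB.Cst
import Pool.Agent.helper31.EQB.Cert.MAP
import Pool.Agent.helper31.EQB.Cert.MBP
import Pool.Agent.helper71.FF.Real

/-!
Generated: meaning of the programs.
-/

namespace Pool.Agent.helper31.EQB

open Pool.Agent.helper71.FF (RAs zv)
open Pool.Agent.helper31.IA (Z Op)

set_option maxRecDepth 100000

private theorem zc_18874368_0 : (9 / 524288 : ℝ) = zv 18874368 0 := by unfold zv; norm_num

private theorem zc_110100480_0 : (105 / 1048576 : ℝ) = zv 110100480 0 := by unfold zv; norm_num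

private theorem zc_1073741824_0 : (1 / 1024 : ℝ) = zv 1073741824 0 := by unfold zv; norm_num

private theorem zc_77763444736_0 : (74161 / 1048576 : ℝ) = zv 77763444736 0 := by unfold zv; norm_num

private theorem zc_137438953472_0 : (1 / 8 : ℝ) = zv 137438953472 0 := by unfold zv; norm_num

private theorem zc_183252287488_0 : (174763 / 1048576 : ℝ) = zv 183252287488 0 := by unfold zv; norm_num

private theorem zc_549755813888_0 : (1 / 2 : ℝ) = zv 549755813888 0 := by unfold zv; norm_num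

private theorem zc_593779228672_0 : (553 / 1024 : ℝ) = zv 593779228672 0 := by unfold zv; norm_num

private theorem zc_659707396096_0 : (314573 / 524288 : ℝ) = zv 659707396096 0 := by unfold zv; norm_num

private theorem zc_769657929728_0 : (734003 / 1048576 : ℝ) = zv 769657929728 0 := by unfold zv; norm_num

private theorem zc_1099243192320_0 : (4095 / 4096 : ℝ) = zv 1099243192320 0 := by unfold zv; norm_num

private theorem zc_1099456053248_0 : (1048523 / 1048576 : ℝ) = zv 1099456053248 0 := by unfold zv; norm_num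

private theorem zc_1099511627776_0 : (1 : ℝ) = zv 1099511627776 0 := by unfold zv; norm_num

private theorem zc_1524363165696_0 : (726873 / 524288 : ℝ) = zv 1524363165696 0 := by unfold zv; norm_num

private theorem zc_1556388773888_0 : (2899 / 2048 : ℝ) = zv 1556388773888 0 := by unfold zv; norm_num

private theorem zc_1924145348608_0 : (7 / 4 : ℝ) = zv 1924145348608 0 := by unfold zv; norm_num

private theorem zc_2199023255552_0 : (2 : ℝ) = zv 2199023255552 0 := by unfold zv; norm_num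

private theorem zc_3109889769472_0 : (1482911 / 524288 : ℝ) = zv 3109889769472 0 := by unfold zv; norm_num

private theorem zc_3111703805952_0 : (1449 / 512 : ℝ) = zv 3111703805952 0 := by unfold zv; norm_num

private theorem zc_3298534883328_0 : (3 : ℝ) = zv 3298534883328 0 := by unfold zv; norm_num

private theorem zc_3848290697216_0 : (7 / 2 : ℝ) = zv 3848290697216 0 := by unfold zv; norm_num

private theorem zc_4617949675520_0 : (1101005 / 262144 : ℝ) = zv 4617949675520 0 := by unfold zv; norm_num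

private theorem zc_6597069766656_0 : (6 : ℝ) = zv 6597069766656 0 := by unfold zv; norm_num

private theorem zc_13084188999680_0 : (12478055 / 1048576 : ℝ) = zv 13084188999680 0 := by unfold zv; norm_num

private theorem zc_13194139533312_0 : (12 : ℝ) = zv 13194139533312 0 := by unfold zv; norm_num

private theorem zc_17592186044416_0 : (16 : ℝ) = zv 17592186044416 0 := by unfold zv; norm_num

private theorem zc_20890720927744_0 : (19 : ℝ) = zv 20890720927744 0 := by unfold zv; norm_num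

private theorem zc_25288767438848_0 : (23 : ℝ) = zv 25288767438848 0 := by unfold zv; norm_num

private theorem zc_26388279066624_0 : (24 : ℝ) = zv 26388279066624 0 := by unfold zv; norm_num

private theorem zc_32985348833280_0 : (30 : ℝ) = zv 32985348833280 0 := by unfold zv; norm_num

theorem ex_MA {sg : ℝ} (h : RAs Cert.MA.prog0 [sg]) :
    Nonempty (PMA sg) := by
  obtain ⟨ie, e_ie⟩ : ∃ zz : ℝ, zz = sg * sg := ⟨_, rfl⟩
  obtain ⟨q, e_q⟩ : ∃ zz : ℝ, zz = (4095 / 4096 : ℝ) - (1449 / 512) * sg - 30 * ie := ⟨_, rfl⟩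
  obtain ⟨sp, e_sp⟩ : ∃ zz : ℝ, zz = (4095 / 4096 : ℝ) - (2899 / 2048) * sg - 24 * ie := ⟨_, rfl⟩
  obtain ⟨p, e_p⟩ : ∃ zz : ℝ, zz = sp * sp := ⟨_, rfl⟩
  obtain ⟨isp, e_isp⟩ : ∃ zz : ℝ, zz = sp⁻¹ := ⟨_, rfl⟩
  obtain ⟨p_sp, ch0⟩ := (h
    ie e_ie
    (4095 / 4096 : ℝ) zc_1099243192320_0
    ((1449 / 512) * sg) (congrArg (fun y : ℝ => y * sg) zc_3111703805952_0)
    ((4095 / 4096 : ℝ) - (1449 / 512) * sg) rfl
    (30 * ie) (congrArg (fun y : ℝ => y * ie) zc_32985348833280_0)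
    q e_q
    ((2899 / 2048) * sg) (congrArg (fun y : ℝ => y * sg) zc_1556388773888_0)
    ((4095 / 4096 : ℝ) - (2899 / 2048) * sg) rfl
    (24 * ie) (congrArg (fun y : ℝ => y * ie) zc_26388279066624_0)
    sp e_sp
    (1 : ℝ) zc_1099511627776_0
    p e_p).2
    isp e_isp
  change 0 < sp at p_sp
  obtain ⟨p_q7, ch1⟩ := ch0
    (734003 / 1048576 : ℝ) zc_769657929728_0
    (q - (734003 / 1048576 : ℝ)) rfl
    (1 / 1024 : ℝ) zc_1073741824_0
    (q - (734003 / 1048576 : ℝ) - (1 / 1024 : ℝ)) rfl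
  change 0 < q - (734003 / 1048576 : ℝ) - (1 / 1024 : ℝ) at p_q7
  obtain ⟨p_p6, ch2⟩ := ch1
    (314573 / 524288 : ℝ) zc_659707396096_0
    (p - (314573 / 524288 : ℝ)) rfl
  change 0 < p - (314573 / 524288 : ℝ) at p_p6
  obtain ⟨p_hp, ch3⟩ := ch2
    (1048523 / 1048576 : ℝ) zc_1099456053248_0
    (12 * ie) (congrArg (fun y : ℝ => y * ie) zc_13194139533312_0)
    ((1048523 / 1048576 : ℝ) - 12 * ie) rfl
    (q * ((1048523 / 1048576 : ℝ) - 12 * ie)) rfl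
    (q * ((1048523 / 1048576 : ℝ) - 12 * ie) - p) rfl
  change 0 < q * ((1048523 / 1048576 : ℝ) - 12 * ie) - p at p_hp
  obtain ⟨p_hq, ch4⟩ := ch3
    (2 * ie) (congrArg (fun y : ℝ => y * ie) zc_2199023255552_0)
    ((1101005 / 262144) * ie) (congrArg (fun y : ℝ => y * ie) zc_4617949675520_0)
    (105 / 1048576 : ℝ) zc_110100480_0
    ((1101005 / 262144) * ie + (105 / 1048576 : ℝ)) rfl
    (2 * ie + ((1101005 / 262144) * ie + (105 / 1048576 : ℝ))) rfl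
    (9 / 524288 : ℝ) zc_18874368_0
    (2 * ie + ((1101005 / 262144) * ie + (105 / 1048576 : ℝ)) + (9 / 524288 : ℝ)) rfl
    (sg * isp) rfl
    (16 * ie) (congrArg (fun y : ℝ => y * ie) zc_17592186044416_0)
    (16 * ie + (1 : ℝ)) rfl
    (sg * isp * (16 * ie + (1 : ℝ))) rfl
    ((1482911 / 524288) * (sg * isp * (16 * ie + (1 : ℝ)))) (congrArg (fun y : ℝ => y * (sg * isp * (16 * ie + (1 : ℝ)))) zc_3109889769472_0)
    (2 * ie + ((1101005 / 262144) * ie + (105 / 1048576 : ℝ)) + (9 / 524288 : ℝ) + (1482911 / 524288) * (sg * isp * (16 * ie + (1 : ℝ)))) rfl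
    ((12478055 / 1048576) * ie) (congrArg (fun y : ℝ => y * ie) zc_13084188999680_0)
    (2 * ie + ((1101005 / 262144) * ie + (105 / 1048576 : ℝ)) + (9 / 524288 : ℝ) + (1482911 / 524288) * (sg * isp * (16 * ie + (1 : ℝ))) + (12478055 / 1048576) * ie) rfl
    (2 * ie + ((1101005 / 262144) * ie + (105 / 1048576 : ℝ)) + (9 / 524288 : ℝ) + (1482911 / 524288) * (sg * isp * (16 * ie + (1 : ℝ))) + (12478055 / 1048576) * ie + q) rfl
    (-(2 * ie + ((1101005 / 262144) * ie + (105 / 1048576 : ℝ)) + (9 / 524288 : ℝ) + (1482911 / 524288) * (sg * isp * (16 * ie + (1 : ℝ))) + (12478055 / 1048576) * ie + q)) rfl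
    ((-(2 * ie + ((1101005 / 262144) * ie + (105 / 1048576 : ℝ)) + (9 / 524288 : ℝ) + (1482911 / 524288) * (sg * isp * (16 * ie + (1 : ℝ))) + (12478055 / 1048576) * ie + q)) + (1 : ℝ)) rfl
  change 0 < (-(2 * ie + ((1101005 / 262144) * ie + (105 / 1048576 : ℝ)) + (9 / 524288 : ℝ) + (1482911 / 524288) * (sg * isp * (16 * ie + (1 : ℝ))) + (12478055 / 1048576) * ie + q)) + (1 : ℝ) at p_hq
  exact ⟨⟨ie, q, sp, p, isp, e_ie, e_q, e_sp, e_p, e_isp, p_sp, p_q7, p_p6, p_hp, p_hq⟩⟩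

theorem ex_MB {om ta : ℝ} (h : RAs Cert.MB.prog0 [om, ta]) :
    Nonempty (PMB om ta) := by
  obtain ⟨se, e_se⟩ : ∃ zz : ℝ, zz = om * ta := ⟨_, rfl⟩
  obtain ⟨ie, e_ie⟩ : ∃ zz : ℝ, zz = se * se := ⟨_, rfl⟩
  obtain ⟨K, e_K⟩ : ∃ zz : ℝ, zz = om * se := ⟨_, rfl⟩
  obtain ⟨K2, e_K2⟩ : ∃ zz : ℝ, zz = K * K := ⟨_, rfl⟩
  obtain ⟨q6, e_q6⟩ : ∃ zz : ℝ, zz = (1 : ℝ) - K2 * ((1 : ℝ) * (6 : ℝ)⁻¹) := ⟨_, rfl⟩
  obtain ⟨Kq, e_Kq⟩ : ∃ zz : ℝ, zz = K * q6 := ⟨_, rfl⟩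
  obtain ⟨Yt, e_Yt⟩ : ∃ zz : ℝ, zz = (7 / 2) * ta := ⟨_, rfl⟩
  obtain ⟨Y2, e_Y2⟩ : ∃ zz : ℝ, zz = Yt * Yt := ⟨_, rfl⟩
  obtain ⟨wm, e_wm⟩ : ∃ zz : ℝ, zz = Yt * ((1 : ℝ) + Y2 * ((1 / 2 : ℝ) - (1 / 8) * Y2))⁻¹ := ⟨_, rfl⟩
  obtain ⟨wm2, e_wm2⟩ : ∃ zz : ℝ, zz = wm * wm := ⟨_, rfl⟩
  obtain ⟨wse0, e_wse0⟩ : ∃ zz : ℝ, zz = wm * se := ⟨_, rfl⟩
  obtain ⟨q, e_q⟩ : ∃ zz : ℝ, zz = (4095 / 4096 : ℝ) - (1449 / 512) * wse0 - 23 * ie - (1 / 2) * K2 := ⟨_, rfl⟩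
  obtain ⟨sp, e_sp⟩ : ∃ zz : ℝ, zz = (4095 / 4096 : ℝ) - (2899 / 2048) * wse0 - 19 * ie - (553 / 1024) * K2 := ⟨_, rfl⟩
  obtain ⟨p, e_p⟩ : ∃ zz : ℝ, zz = sp * sp := ⟨_, rfl⟩
  obtain ⟨isp, e_isp⟩ : ∃ zz : ℝ, zz = sp⁻¹ := ⟨_, rfl⟩
  obtain ⟨p_sp, ch0⟩ := ((((h
    (1 : ℝ) zc_1099511627776_0
    (3 : ℝ) zc_3298534883328_0).2
    ((3 : ℝ)⁻¹) rfl
    ((1 : ℝ) * (3 : ℝ)⁻¹) rfl
    se e_se
    ie e_ie
    K e_K
    K2 e_K2
    (6 : ℝ) zc_6597069766656_0).2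
    ((6 : ℝ)⁻¹) rfl
    ((1 : ℝ) * (6 : ℝ)⁻¹) rfl
    (K2 * ((1 : ℝ) * (6 : ℝ)⁻¹)) rfl
    q6 e_q6
    Kq e_Kq
    Yt (e_Yt.trans (congrArg (fun y : ℝ => y * ta) zc_3848290697216_0))
    Y2 e_Y2
    (1 / 2 : ℝ) zc_549755813888_0
    ((1 / 8) * Y2) (congrArg (fun y : ℝ => y * Y2) zc_137438953472_0)
    ((1 / 2 : ℝ) - (1 / 8) * Y2) rfl
    (Y2 * ((1 / 2 : ℝ) - (1 / 8) * Y2)) rfl
    ((1 : ℝ) + Y2 * ((1 / 2 : ℝ) - (1 / 8) * Y2)) rfl).2
    (((1 : ℝ) + Y2 * ((1 / 2 : ℝ) - (1 / 8) * Y2))⁻¹) rfl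
    wm e_wm
    wm2 e_wm2
    wse0 e_wse0
    (4095 / 4096 : ℝ) zc_1099243192320_0
    ((1449 / 512) * wse0) (congrArg (fun y : ℝ => y * wse0) zc_3111703805952_0)
    ((4095 / 4096 : ℝ) - (1449 / 512) * wse0) rfl
    (23 * ie) (congrArg (fun y : ℝ => y * ie) zc_25288767438848_0)
    ((4095 / 4096 : ℝ) - (1449 / 512) * wse0 - 23 * ie) rfl
    ((1 / 2) * K2) (congrArg (fun y : ℝ => y * K2) zc_549755813888_0)
    q e_q
    ((2899 / 2048) * wse0) (congrArg (fun y : ℝ => y * wse0) zc_1556388773888_0)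
    ((4095 / 4096 : ℝ) - (2899 / 2048) * wse0) rfl
    (19 * ie) (congrArg (fun y : ℝ => y * ie) zc_20890720927744_0)
    ((4095 / 4096 : ℝ) - (2899 / 2048) * wse0 - 19 * ie) rfl
    ((553 / 1024) * K2) (congrArg (fun y : ℝ => y * K2) zc_593779228672_0)
    sp e_sp
    p e_p).2
    isp e_isp
  change 0 < sp at p_sp
  obtain ⟨p_q7, ch1⟩ := ch0
    (734003 / 1048576 : ℝ) zc_769657929728_0
    (q - (734003 / 1048576 : ℝ)) rfl
    (1 / 1024 : ℝ) zc_1073741824_0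
    (q - (734003 / 1048576 : ℝ) - (1 / 1024 : ℝ)) rfl
  change 0 < q - (734003 / 1048576 : ℝ) - (1 / 1024 : ℝ) at p_q7
  obtain ⟨p_p6, ch2⟩ := ch1
    (314573 / 524288 : ℝ) zc_659707396096_0
    (p - (314573 / 524288 : ℝ)) rfl
  change 0 < p - (314573 / 524288 : ℝ) at p_p6
  obtain ⟨p_hp, ch3⟩ := ch2
    ((1 : ℝ) - (1 / 2) * K2) rfl
    (12 * ie) (congrArg (fun y : ℝ => y * ie) zc_13194139533312_0)
    ((1 : ℝ) - (1 / 2) * K2 - 12 * ie) rfl
    (q * ((1 : ℝ) - (1 / 2) * K2 - 12 * ie)) rfl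
    (q * ((1 : ℝ) - (1 / 2) * K2 - 12 * ie) - p) rfl
  change 0 < q * ((1 : ℝ) - (1 / 2) * K2 - 12 * ie) - p at p_hp
  obtain ⟨p_hq, ch4⟩ := ch3
    (2 * ie) (congrArg (fun y : ℝ => y * ie) zc_2199023255552_0)
    ((1101005 / 262144) * ie) (congrArg (fun y : ℝ => y * ie) zc_4617949675520_0)
    (K2 + (1101005 / 262144) * ie) rfl
    ((K2 + (1101005 / 262144) * ie) * wm2) rfl
    (2 * ie + (K2 + (1101005 / 262144) * ie) * wm2) rfl
    ((174763 / 1048576) * K2) (congrArg (fun y : ℝ => y * K2) zc_183252287488_0)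
    (2 * ie + (K2 + (1101005 / 262144) * ie) * wm2 + (174763 / 1048576) * K2) rfl
    (wse0 * isp) rfl
    (16 * ie) (congrArg (fun y : ℝ => y * ie) zc_17592186044416_0)
    (16 * ie + (1 : ℝ)) rfl
    (wse0 * isp * (16 * ie + (1 : ℝ))) rfl
    ((1482911 / 524288) * (wse0 * isp * (16 * ie + (1 : ℝ)))) (congrArg (fun y : ℝ => y * (wse0 * isp * (16 * ie + (1 : ℝ)))) zc_3109889769472_0)
    (2 * ie + (K2 + (1101005 / 262144) * ie) * wm2 + (174763 / 1048576) * K2 + (1482911 / 524288) * (wse0 * isp * (16 * ie + (1 : ℝ)))) rfl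
    ((12478055 / 1048576) * ie) (congrArg (fun y : ℝ => y * ie) zc_13084188999680_0)
    (2 * ie + (K2 + (1101005 / 262144) * ie) * wm2 + (174763 / 1048576) * K2 + (1482911 / 524288) * (wse0 * isp * (16 * ie + (1 : ℝ))) + (12478055 / 1048576) * ie) rfl
    (2 * ie + (K2 + (1101005 / 262144) * ie) * wm2 + (174763 / 1048576) * K2 + (1482911 / 524288) * (wse0 * isp * (16 * ie + (1 : ℝ))) + (12478055 / 1048576) * ie + q) rfl
    (-(2 * ie + (K2 + (1101005 / 262144) * ie) * wm2 + (174763 / 1048576) * K2 + (1482911 / 524288) * (wse0 * isp * (16 * ie + (1 : ℝ))) + (12478055 / 1048576) * ie + q)) rfl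
    ((-(2 * ie + (K2 + (1101005 / 262144) * ie) * wm2 + (174763 / 1048576) * K2 + (1482911 / 524288) * (wse0 * isp * (16 * ie + (1 : ℝ))) + (12478055 / 1048576) * ie + q)) + (1 : ℝ)) rfl
  change 0 < (-(2 * ie + (K2 + (1101005 / 262144) * ie) * wm2 + (174763 / 1048576) * K2 + (1482911 / 524288) * (wse0 * isp * (16 * ie + (1 : ℝ))) + (12478055 / 1048576) * ie + q)) + (1 : ℝ) at p_hq
  exact ⟨⟨se, ie, K, K2, q6, Kq, Yt, Y2, wm, wm2, wse0, q, sp, p, isp, e_se, e_ie, e_K, e_K2, e_q6,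
    e_Kq, e_Yt, e_Y2, e_wm, e_wm2, e_wse0, e_q, e_sp, e_p, e_isp, p_sp, p_q7, p_p6, p_hp, p_hq⟩⟩

theorem ex_MB_gE {om ta : ℝ} (h : RAs Cert.MB.prog1 [om, ta]) :
    0 < om * ta - (74161 / 1048576 : ℝ) := by
  obtain ⟨p_gE, ch0⟩ := h
    (om * ta) rfl
    (74161 / 1048576 : ℝ) zc_77763444736_0
    (om * ta - (74161 / 1048576 : ℝ)) rfl
  change 0 < om * ta - (74161 / 1048576 : ℝ) at p_gE
  exact p_gE

theorem ex_MB_gK {om ta : ℝ} (h : RAs Cert.MB.prog2 [om, ta]) :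
    0 < om * om - (7 / 4) * (om * ta) - (726873 / 524288 : ℝ) := by
  obtain ⟨p_gK, ch0⟩ := h
    (om * om) rfl
    (om * ta) rfl
    ((7 / 4) * (om * ta)) (congrArg (fun y : ℝ => y * (om * ta)) zc_1924145348608_0)
    (om * om - (7 / 4) * (om * ta)) rfl
    (726873 / 524288 : ℝ) zc_1524363165696_0
    (om * om - (7 / 4) * (om * ta) - (726873 / 524288 : ℝ)) rfl
  change 0 < om * om - (7 / 4) * (om * ta) - (726873 / 524288 : ℝ) at p_gK
  exact p_gK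

end Pool.Agent.helper31.EQB
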