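import Pool.Agent.helper31.EQB.NLA2
import Pool.Agent.helper31.EQB.VLA
import Pool.Agent.helper31.EQB.XLA0
import Pool.Agent.helper31.EQB.XLA1
import Pool.Agent.helper31.EQB.XLA2
import Pool.Agent.helper31.EQB.XLA3
import Pool.Agent.helper31.EQB.XLA4
import Pool.Agent.helper31.EQB.XM

/-!
# EQB-40: links of chart A for all `n < 5`, from the covers
-/

namespace Pool.Agent.helper31.EQB

open Complex ComplexConjugate Set Filter Topology
open Pool.Agent.helper31.EQ.Y Pool.Agent.helper31.EQ.R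
open Pool.Agent.helper12.EQL Pool.Agent.helper12.RP Pool.Agent.helper12.FF Pool.Agent.helper12.RS
open Pool.Agent.helper63.FF
open Pool.Agent.helper71.FF (RAs)

variable {e κ : ℝ}

theorem sg_A (he : 500 ≤ e) : 0 ≤ (√e)⁻¹ ∧ (√e)⁻¹ ≤ 28 / 625 := by
  have he0 : 0 < e := by linarith
  have hs : 0 < √e := Real.sqrt_pos.2 he0
  refine ⟨by positivity, ?_⟩
  rw [inv_le_comm₀ hs (by norm_num)]
  rw [show ((28 / 625 : ℝ))⁻¹ = 625 / 28 by norm_num]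
  apply Real.le_sqrt_of_sq_le
  norm_num
  linarith

theorem PMA_all (he : 500 ≤ e) : Nonempty (PMA (√e)⁻¹) := by
  obtain ⟨s0, s1⟩ := sg_A he
  obtain ⟨ops, ho, hr⟩ := cov_MA (sg := (√e)⁻¹) s0 s1
  simp only [Cert.MA.progs, List.mem_cons, List.not_mem_nil, or_false] at ho
  subst ho
  exact ex_MA hr

private theorem linkA_0 (he : 500 ≤ e) (hκ : 0 < κ) (hb : bet e κ ≤ 5) (M : PMA (√e)⁻¹)
    {τ : ℂ} (T : St e κ (xA 0) (LamA 0) (ynA 0) τ) :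
    LinkOK e κ (aA 0) (xA (0 + 1)) (LamA (0 + 1)) (ynA (0 + 1)) (aA (0 + 1)) τ := by
  have he0 : 0 < e := by linarith
  obtain ⟨s0, s1⟩ := sg_A he
  have hβ : 0 < bet e κ := bet_pos he0 hκ
  have hS0 : 0 < Sz e κ (shf κ τ) := Sz_pos he0 hκ _
  have hy : |yz e κ (shf κ τ)| ≤ ynA 0 := (yz_shf_le he0 hκ T.re).trans T.y
  have hy2 : yz e κ (shf κ τ) ^ 2 ≤ ynA 0 ^ 2 := sq_le_sq' (neg_le_of_abs_le hy) (le_of_abs_le hy)
  have hyn : ynA 0 = 3277 / 1024 := rfl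
  rw [hyn] at hy2
  have hSe : Sz e κ (shf κ τ) = bet e κ ^ 2 + yz e κ (shf κ τ) ^ 2 := rfl
  obtain ⟨s, hs⟩ : ∃ s, s = √(Sz e κ (shf κ τ)) := ⟨_, rfl⟩
  have hs0 : 0 < s := by rw [hs]; exact Real.sqrt_pos.2 hS0
  have hss : s * s = Sz e κ (shf κ τ) := by rw [hs]; exact Real.mul_self_sqrt hS0.le
  have hs6 : s ≤ 6 := by
    rw [hs]
    apply Real.sqrt_le_iff.2 ⟨by norm_num, ?_⟩
    rw [hSe]
    nlinarith
  obtain ⟨k, hk⟩ : ∃ k, k = bet e κ / s := ⟨_, rfl⟩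
  have hks : k * s = bet e κ := by rw [hk]; field_simp
  have hk0 : 0 ≤ k := by rw [hk]; positivity
  have hk1 : k ≤ 1 := by
    rw [hk, div_le_one hs0]
    nlinarith [sq_nonneg (yz e κ (shf κ τ))]
  have hyk : s * s * (-(k * k) + 1) = yz e κ (shf κ τ) ^ 2 := by
    have : s * s * (-(k * k) + 1) = s * s - (k * s) ^ 2 := by ring
    rw [this, hks, hss, hSe]
    ring
  obtain ⟨ops, ho, hr⟩ := cov_LA0 s0 s1 hs0.le hs6 hk0 hk1
  simp only [Cert.LA0.progs, List.mem_cons, List.not_mem_nil, or_false] at ho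
  rcases ho with rfl | rfl | rfl | rfl | rfl | rfl | rfl | rfl | rfl | rfl | rfl
  · obtain ⟨wMo, EM, EMs, P, ⟨Pq⟩⟩ := ex_LA0_q hr
    subst hk
    subst hs
    exact linkA_q he hκ hb M (by norm_num) T P Pq
  · obtain ⟨wMo, EM, EMs, P, ⟨Pr⟩⟩ := ex_LA0_r0 hr
    subst hk
    subst hs
    exact linkA_r he hκ hb M (by norm_num) T P (j := 0) (by norm_num) Pr
  · obtain ⟨wMo, EM, EMs, P, ⟨Pr⟩⟩ := ex_LA0_r1 hr
    subst hk
    subst hs
    exact linkA_r he hκ hb M (by norm_num) T P (j := 1) (by norm_num) Pr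
  · obtain ⟨wMo, EM, EMs, P, ⟨Pr⟩⟩ := ex_LA0_r2 hr
    subst hk
    subst hs
    exact linkA_r he hκ hb M (by norm_num) T P (j := 2) (by norm_num) Pr
  · obtain ⟨wMo, EM, EMs, P, ⟨Pr⟩⟩ := ex_LA0_r3 hr
    subst hk
    subst hs
    exact linkA_r he hκ hb M (by norm_num) T P (j := 3) (by norm_num) Pr
  · obtain ⟨wMo, EM, EMs, P, ⟨Pr⟩⟩ := ex_LA0_r4 hr
    subst hk
    subst hs
    exact linkA_r he hκ hb M (by norm_num) T P (j := 4) (by norm_num) Pr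
  · obtain ⟨wMo, EM, EMs, P, ⟨Pr⟩⟩ := ex_LA0_r5 hr
    subst hk
    subst hs
    exact linkA_r he hκ hb M (by norm_num) T P (j := 5) (by norm_num) Pr
  · obtain ⟨wMo, EM, EMs, P, ⟨Pr⟩⟩ := ex_LA0_r6 hr
    subst hk
    subst hs
    exact linkA_r he hκ hb M (by norm_num) T P (j := 6) (by norm_num) Pr
  · obtain ⟨wMo, EM, EMs, P, ⟨Pr⟩⟩ := ex_LA0_r7 hr
    subst hk
    subst hs
    exact linkA_r he hκ hb M (by norm_num) T P (j := 7) (by norm_num) Pr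
  · have := ex_LA0_gb hr
    rw [hks] at this
    linarith
  · have := ex_LA0_gy hr
    rw [hyk] at this
    linarith

private theorem linkA_1 (he : 500 ≤ e) (hκ : 0 < κ) (hb : bet e κ ≤ 5) (M : PMA (√e)⁻¹)
    {τ : ℂ} (T : St e κ (xA 1) (LamA 1) (ynA 1) τ) :
    LinkOK e κ (aA 1) (xA (1 + 1)) (LamA (1 + 1)) (ynA (1 + 1)) (aA (1 + 1)) τ := by
  have he0 : 0 < e := by linarith
  obtain ⟨s0, s1⟩ := sg_A he
  have hβ : 0 < bet e κ := bet_pos he0 hκ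
  have hS0 : 0 < Sz e κ (shf κ τ) := Sz_pos he0 hκ _
  have hy : |yz e κ (shf κ τ)| ≤ ynA 1 := (yz_shf_le he0 hκ T.re).trans T.y
  have hy2 : yz e κ (shf κ τ) ^ 2 ≤ ynA 1 ^ 2 := sq_le_sq' (neg_le_of_abs_le hy) (le_of_abs_le hy)
  have hyn : ynA 1 = 13149 / 4096 := rfl
  rw [hyn] at hy2
  have hSe : Sz e κ (shf κ τ) = bet e κ ^ 2 + yz e κ (shf κ τ) ^ 2 := rfl
  obtain ⟨s, hs⟩ : ∃ s, s = √(Sz e κ (shf κ τ)) := ⟨_, rfl⟩
  have hs0 : 0 < s := by rw [hs]; exact Real.sqrt_pos.2 hS0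
  have hss : s * s = Sz e κ (shf κ τ) := by rw [hs]; exact Real.mul_self_sqrt hS0.le
  have hs6 : s ≤ 6 := by
    rw [hs]
    apply Real.sqrt_le_iff.2 ⟨by norm_num, ?_⟩
    rw [hSe]
    nlinarith
  obtain ⟨k, hk⟩ : ∃ k, k = bet e κ / s := ⟨_, rfl⟩
  have hks : k * s = bet e κ := by rw [hk]; field_simp
  have hk0 : 0 ≤ k := by rw [hk]; positivity
  have hk1 : k ≤ 1 := by
    rw [hk, div_le_one hs0]
    nlinarith [sq_nonneg (yz e κ (shf κ τ))]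
  have hyk : s * s * (-(k * k) + 1) = yz e κ (shf κ τ) ^ 2 := by
    have : s * s * (-(k * k) + 1) = s * s - (k * s) ^ 2 := by ring
    rw [this, hks, hss, hSe]
    ring
  obtain ⟨ops, ho, hr⟩ := cov_LA1 s0 s1 hs0.le hs6 hk0 hk1
  simp only [Cert.LA1.progs, List.mem_cons, List.not_mem_nil, or_false] at ho
  rcases ho with rfl | rfl | rfl | rfl | rfl | rfl | rfl | rfl | rfl | rfl | rfl
  · obtain ⟨wMo, EM, EMs, P, ⟨Pq⟩⟩ := ex_LA1_q hr
    subst hk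
    subst hs
    exact linkA_q he hκ hb M (by norm_num) T P Pq
  · obtain ⟨wMo, EM, EMs, P, ⟨Pr⟩⟩ := ex_LA1_r0 hr
    subst hk
    subst hs
    exact linkA_r he hκ hb M (by norm_num) T P (j := 0) (by norm_num) Pr
  · obtain ⟨wMo, EM, EMs, P, ⟨Pr⟩⟩ := ex_LA1_r1 hr
    subst hk
    subst hs
    exact linkA_r he hκ hb M (by norm_num) T P (j := 1) (by norm_num) Pr
  · obtain ⟨wMo, EM, EMs, P, ⟨Pr⟩⟩ := ex_LA1_r2 hr
    subst hk
    subst hs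
    exact linkA_r he hκ hb M (by norm_num) T P (j := 2) (by norm_num) Pr
  · obtain ⟨wMo, EM, EMs, P, ⟨Pr⟩⟩ := ex_LA1_r3 hr
    subst hk
    subst hs
    exact linkA_r he hκ hb M (by norm_num) T P (j := 3) (by norm_num) Pr
  · obtain ⟨wMo, EM, EMs, P, ⟨Pr⟩⟩ := ex_LA1_r4 hr
    subst hk
    subst hs
    exact linkA_r he hκ hb M (by norm_num) T P (j := 4) (by norm_num) Pr
  · obtain ⟨wMo, EM, EMs, P, ⟨Pr⟩⟩ := ex_LA1_r5 hr
    subst hk
    subst hs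
    exact linkA_r he hκ hb M (by norm_num) T P (j := 5) (by norm_num) Pr
  · obtain ⟨wMo, EM, EMs, P, ⟨Pr⟩⟩ := ex_LA1_r6 hr
    subst hk
    subst hs
    exact linkA_r he hκ hb M (by norm_num) T P (j := 6) (by norm_num) Pr
  · obtain ⟨wMo, EM, EMs, P, ⟨Pr⟩⟩ := ex_LA1_r7 hr
    subst hk
    subst hs
    exact linkA_r he hκ hb M (by norm_num) T P (j := 7) (by norm_num) Pr
  · have := ex_LA1_gb hr
    rw [hks] at this
    linarith
  · have := ex_LA1_gy hr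
    rw [hyk] at this
    linarith

private theorem linkA_2 (he : 500 ≤ e) (hκ : 0 < κ) (hb : bet e κ ≤ 5) (M : PMA (√e)⁻¹)
    {τ : ℂ} (T : St e κ (xA 2) (LamA 2) (ynA 2) τ) :
    LinkOK e κ (aA 2) (xA (2 + 1)) (LamA (2 + 1)) (ynA (2 + 1)) (aA (2 + 1)) τ := by
  have he0 : 0 < e := by linarith
  obtain ⟨s0, s1⟩ := sg_A he
  have hβ : 0 < bet e κ := bet_pos he0 hκ
  have hS0 : 0 < Sz e κ (shf κ τ) := Sz_pos he0 hκ _
  have hy : |yz e κ (shf κ τ)| ≤ ynA 2 := (yz_shf_le he0 hκ T.re).trans T.y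
  have hy2 : yz e κ (shf κ τ) ^ 2 ≤ ynA 2 ^ 2 := sq_le_sq' (neg_le_of_abs_le hy) (le_of_abs_le hy)
  have hyn : ynA 2 = 6595 / 2048 := rfl
  rw [hyn] at hy2
  have hSe : Sz e κ (shf κ τ) = bet e κ ^ 2 + yz e κ (shf κ τ) ^ 2 := rfl
  obtain ⟨s, hs⟩ : ∃ s, s = √(Sz e κ (shf κ τ)) := ⟨_, rfl⟩
  have hs0 : 0 < s := by rw [hs]; exact Real.sqrt_pos.2 hS0
  have hss : s * s = Sz e κ (shf κ τ) := by rw [hs]; exact Real.mul_self_sqrt hS0.le
  have hs6 : s ≤ 6 := by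
    rw [hs]
    apply Real.sqrt_le_iff.2 ⟨by norm_num, ?_⟩
    rw [hSe]
    nlinarith
  obtain ⟨k, hk⟩ : ∃ k, k = bet e κ / s := ⟨_, rfl⟩
  have hks : k * s = bet e κ := by rw [hk]; field_simp
  have hk0 : 0 ≤ k := by rw [hk]; positivity
  have hk1 : k ≤ 1 := by
    rw [hk, div_le_one hs0]
    nlinarith [sq_nonneg (yz e κ (shf κ τ))]
  have hyk : s * s * (-(k * k) + 1) = yz e κ (shf κ τ) ^ 2 := by
    have : s * s * (-(k * k) + 1) = s * s - (k * s) ^ 2 := by ring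
    rw [this, hks, hss, hSe]
    ring
  obtain ⟨ops, ho, hr⟩ := cov_LA2 s0 s1 hs0.le hs6 hk0 hk1
  simp only [Cert.LA2.progs, List.mem_cons, List.not_mem_nil, or_false] at ho
  rcases ho with rfl | rfl | rfl | rfl | rfl | rfl | rfl | rfl | rfl | rfl | rfl
  · obtain ⟨wMo, EM, EMs, P, ⟨Pq⟩⟩ := ex_LA2_q hr
    subst hk
    subst hs
    exact linkA_q he hκ hb M (by norm_num) T P Pq
  · obtain ⟨wMo, EM, EMs, P, ⟨Pr⟩⟩ := ex_LA2_r0 hr
    subst hk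
    subst hs
    exact linkA_r he hκ hb M (by norm_num) T P (j := 0) (by norm_num) Pr
  · obtain ⟨wMo, EM, EMs, P, ⟨Pr⟩⟩ := ex_LA2_r1 hr
    subst hk
    subst hs
    exact linkA_r he hκ hb M (by norm_num) T P (j := 1) (by norm_num) Pr
  · obtain ⟨wMo, EM, EMs, P, ⟨Pr⟩⟩ := ex_LA2_r2 hr
    subst hk
    subst hs
    exact linkA_r he hκ hb M (by norm_num) T P (j := 2) (by norm_num) Pr
  · obtain ⟨wMo, EM, EMs, P, ⟨Pr⟩⟩ := ex_LA2_r3 hr
    subst hk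
    subst hs
    exact linkA_r he hκ hb M (by norm_num) T P (j := 3) (by norm_num) Pr
  · obtain ⟨wMo, EM, EMs, P, ⟨Pr⟩⟩ := ex_LA2_r4 hr
    subst hk
    subst hs
    exact linkA_r he hκ hb M (by norm_num) T P (j := 4) (by norm_num) Pr
  · obtain ⟨wMo, EM, EMs, P, ⟨Pr⟩⟩ := ex_LA2_r5 hr
    subst hk
    subst hs
    exact linkA_r he hκ hb M (by norm_num) T P (j := 5) (by norm_num) Pr
  · obtain ⟨wMo, EM, EMs, P, ⟨Pr⟩⟩ := ex_LA2_r6 hr
    subst hk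
    subst hs
    exact linkA_r he hκ hb M (by norm_num) T P (j := 6) (by norm_num) Pr
  · obtain ⟨wMo, EM, EMs, P, ⟨Pr⟩⟩ := ex_LA2_r7 hr
    subst hk
    subst hs
    exact linkA_r he hκ hb M (by norm_num) T P (j := 7) (by norm_num) Pr
  · have := ex_LA2_gb hr
    rw [hks] at this
    linarith
  · have := ex_LA2_gy hr
    rw [hyk] at this
    linarith

private theorem linkA_3 (he : 500 ≤ e) (hκ : 0 < κ) (hb : bet e κ ≤ 5) (M : PMA (√e)⁻¹)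
    {τ : ℂ} (T : St e κ (xA 3) (LamA 3) (ynA 3) τ) :
    LinkOK e κ (aA 3) (xA (3 + 1)) (LamA (3 + 1)) (ynA (3 + 1)) (aA (3 + 1)) τ := by
  have he0 : 0 < e := by linarith
  obtain ⟨s0, s1⟩ := sg_A he
  have hβ : 0 < bet e κ := bet_pos he0 hκ
  have hS0 : 0 < Sz e κ (shf κ τ) := Sz_pos he0 hκ _
  have hy : |yz e κ (shf κ τ)| ≤ ynA 3 := (yz_shf_le he0 hκ T.re).trans T.y
  have hy2 : yz e κ (shf κ τ) ^ 2 ≤ ynA 3 ^ 2 := sq_le_sq' (neg_le_of_abs_le hy) (le_of_abs_le hy)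
  have hyn : ynA 3 = 13231 / 4096 := rfl
  rw [hyn] at hy2
  have hSe : Sz e κ (shf κ τ) = bet e κ ^ 2 + yz e κ (shf κ τ) ^ 2 := rfl
  obtain ⟨s, hs⟩ : ∃ s, s = √(Sz e κ (shf κ τ)) := ⟨_, rfl⟩
  have hs0 : 0 < s := by rw [hs]; exact Real.sqrt_pos.2 hS0
  have hss : s * s = Sz e κ (shf κ τ) := by rw [hs]; exact Real.mul_self_sqrt hS0.le
  have hs6 : s ≤ 6 := by
    rw [hs]
    apply Real.sqrt_le_iff.2 ⟨by norm_num, ?_⟩
    rw [hSe]
    nlinarith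
  obtain ⟨k, hk⟩ : ∃ k, k = bet e κ / s := ⟨_, rfl⟩
  have hks : k * s = bet e κ := by rw [hk]; field_simp
  have hk0 : 0 ≤ k := by rw [hk]; positivity
  have hk1 : k ≤ 1 := by
    rw [hk, div_le_one hs0]
    nlinarith [sq_nonneg (yz e κ (shf κ τ))]
  have hyk : s * s * (-(k * k) + 1) = yz e κ (shf κ τ) ^ 2 := by
    have : s * s * (-(k * k) + 1) = s * s - (k * s) ^ 2 := by ring
    rw [this, hks, hss, hSe]
    ring
  obtain ⟨ops, ho, hr⟩ := cov_LA3 s0 s1 hs0.le hs6 hk0 hk1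
  simp only [Cert.LA3.progs, List.mem_cons, List.not_mem_nil, or_false] at ho
  rcases ho with rfl | rfl | rfl | rfl | rfl | rfl | rfl | rfl | rfl | rfl | rfl
  · obtain ⟨wMo, EM, EMs, P, ⟨Pq⟩⟩ := ex_LA3_q hr
    subst hk
    subst hs
    exact linkA_q he hκ hb M (by norm_num) T P Pq
  · obtain ⟨wMo, EM, EMs, P, ⟨Pr⟩⟩ := ex_LA3_r0 hr
    subst hk
    subst hs
    exact linkA_r he hκ hb M (by norm_num) T P (j := 0) (by norm_num) Pr
  · obtain ⟨wMo, EM, EMs, P, ⟨Pr⟩⟩ := ex_LA3_r1 hr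
    subst hk
    subst hs
    exact linkA_r he hκ hb M (by norm_num) T P (j := 1) (by norm_num) Pr
  · obtain ⟨wMo, EM, EMs, P, ⟨Pr⟩⟩ := ex_LA3_r2 hr
    subst hk
    subst hs
    exact linkA_r he hκ hb M (by norm_num) T P (j := 2) (by norm_num) Pr
  · obtain ⟨wMo, EM, EMs, P, ⟨Pr⟩⟩ := ex_LA3_r3 hr
    subst hk
    subst hs
    exact linkA_r he hκ hb M (by norm_num) T P (j := 3) (by norm_num) Pr
  · obtain ⟨wMo, EM, EMs, P, ⟨Pr⟩⟩ := ex_LA3_r4 hr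
    subst hk
    subst hs
    exact linkA_r he hκ hb M (by norm_num) T P (j := 4) (by norm_num) Pr
  · obtain ⟨wMo, EM, EMs, P, ⟨Pr⟩⟩ := ex_LA3_r5 hr
    subst hk
    subst hs
    exact linkA_r he hκ hb M (by norm_num) T P (j := 5) (by norm_num) Pr
  · obtain ⟨wMo, EM, EMs, P, ⟨Pr⟩⟩ := ex_LA3_r6 hr
    subst hk
    subst hs
    exact linkA_r he hκ hb M (by norm_num) T P (j := 6) (by norm_num) Pr
  · obtain ⟨wMo, EM, EMs, P, ⟨Pr⟩⟩ := ex_LA3_r7 hr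
    subst hk
    subst hs
    exact linkA_r he hκ hb M (by norm_num) T P (j := 7) (by norm_num) Pr
  · have := ex_LA3_gb hr
    rw [hks] at this
    linarith
  · have := ex_LA3_gy hr
    rw [hyk] at this
    linarith

private theorem linkA_4 (he : 500 ≤ e) (hκ : 0 < κ) (hb : bet e κ ≤ 5) (M : PMA (√e)⁻¹)
    {τ : ℂ} (T : St e κ (xA 4) (LamA 4) (ynA 4) τ) :
    LinkOK e κ (aA 4) (xA (4 + 1)) (LamA (4 + 1)) (ynA (4 + 1)) (aA (4 + 1)) τ := by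
  have he0 : 0 < e := by linarith
  obtain ⟨s0, s1⟩ := sg_A he
  have hβ : 0 < bet e κ := bet_pos he0 hκ
  have hS0 : 0 < Sz e κ (shf κ τ) := Sz_pos he0 hκ _
  have hy : |yz e κ (shf κ τ)| ≤ ynA 4 := (yz_shf_le he0 hκ T.re).trans T.y
  have hy2 : yz e κ (shf κ τ) ^ 2 ≤ ynA 4 ^ 2 := sq_le_sq' (neg_le_of_abs_le hy) (le_of_abs_le hy)
  have hyn : ynA 4 = 1659 / 512 := rfl
  rw [hyn] at hy2
  have hSe : Sz e κ (shf κ τ) = bet e κ ^ 2 + yz e κ (shf κ τ) ^ 2 := rfl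
  obtain ⟨s, hs⟩ : ∃ s, s = √(Sz e κ (shf κ τ)) := ⟨_, rfl⟩
  have hs0 : 0 < s := by rw [hs]; exact Real.sqrt_pos.2 hS0
  have hss : s * s = Sz e κ (shf κ τ) := by rw [hs]; exact Real.mul_self_sqrt hS0.le
  have hs6 : s ≤ 6 := by
    rw [hs]
    apply Real.sqrt_le_iff.2 ⟨by norm_num, ?_⟩
    rw [hSe]
    nlinarith
  obtain ⟨k, hk⟩ : ∃ k, k = bet e κ / s := ⟨_, rfl⟩
  have hks : k * s = bet e κ := by rw [hk]; field_simp
  have hk0 : 0 ≤ k := by rw [hk]; positivity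
  have hk1 : k ≤ 1 := by
    rw [hk, div_le_one hs0]
    nlinarith [sq_nonneg (yz e κ (shf κ τ))]
  have hyk : s * s * (-(k * k) + 1) = yz e κ (shf κ τ) ^ 2 := by
    have : s * s * (-(k * k) + 1) = s * s - (k * s) ^ 2 := by ring
    rw [this, hks, hss, hSe]
    ring
  obtain ⟨ops, ho, hr⟩ := cov_LA4 s0 s1 hs0.le hs6 hk0 hk1
  simp only [Cert.LA4.progs, List.mem_cons, List.not_mem_nil, or_false] at ho
  rcases ho with rfl | rfl | rfl | rfl | rfl | rfl | rfl | rfl | rfl | rfl | rfl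
  · obtain ⟨wMo, EM, EMs, P, ⟨Pq⟩⟩ := ex_LA4_q hr
    subst hk
    subst hs
    exact linkA_q he hκ hb M (by norm_num) T P Pq
  · obtain ⟨wMo, EM, EMs, P, ⟨Pr⟩⟩ := ex_LA4_r0 hr
    subst hk
    subst hs
    exact linkA_r he hκ hb M (by norm_num) T P (j := 0) (by norm_num) Pr
  · obtain ⟨wMo, EM, EMs, P, ⟨Pr⟩⟩ := ex_LA4_r1 hr
    subst hk
    subst hs
    exact linkA_r he hκ hb M (by norm_num) T P (j := 1) (by norm_num) Pr
  · obtain ⟨wMo, EM, EMs, P, ⟨Pr⟩⟩ := ex_LA4_r2 hr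
    subst hk
    subst hs
    exact linkA_r he hκ hb M (by norm_num) T P (j := 2) (by norm_num) Pr
  · obtain ⟨wMo, EM, EMs, P, ⟨Pr⟩⟩ := ex_LA4_r3 hr
    subst hk
    subst hs
    exact linkA_r he hκ hb M (by norm_num) T P (j := 3) (by norm_num) Pr
  · obtain ⟨wMo, EM, EMs, P, ⟨Pr⟩⟩ := ex_LA4_r4 hr
    subst hk
    subst hs
    exact linkA_r he hκ hb M (by norm_num) T P (j := 4) (by norm_num) Pr
  · obtain ⟨wMo, EM, EMs, P, ⟨Pr⟩⟩ := ex_LA4_r5 hr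
    subst hk
    subst hs
    exact linkA_r he hκ hb M (by norm_num) T P (j := 5) (by norm_num) Pr
  · obtain ⟨wMo, EM, EMs, P, ⟨Pr⟩⟩ := ex_LA4_r6 hr
    subst hk
    subst hs
    exact linkA_r he hκ hb M (by norm_num) T P (j := 6) (by norm_num) Pr
  · obtain ⟨wMo, EM, EMs, P, ⟨Pr⟩⟩ := ex_LA4_r7 hr
    subst hk
    subst hs
    exact linkA_r he hκ hb M (by norm_num) T P (j := 7) (by norm_num) Pr
  · have := ex_LA4_gb hr
    rw [hks] at this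
    linarith
  · have := ex_LA4_gy hr
    rw [hyk] at this
    linarith

/-- All links of chart A. -/
theorem linkA_all (he : 500 ≤ e) (hκ : 0 < κ) (hb : bet e κ ≤ 5) (M : PMA (√e)⁻¹)
    {n : ℕ} (hn : n < 5) {τ : ℂ} (T : St e κ (xA n) (LamA n) (ynA n) τ) :
    LinkOK e κ (aA n) (xA (n + 1)) (LamA (n + 1)) (ynA (n + 1)) (aA (n + 1)) τ := by
  interval_cases n
  · exact linkA_0 he hκ hb M T
  · exact linkA_1 he hκ hb M T
  · exact linkA_2 he hκ hb M T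
  · exact linkA_3 he hκ hb M T
  · exact linkA_4 he hκ hb M T

end Pool.Agent.helper31.EQB
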