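import Pool.Agent.helper31.EQB.Cert.FQAll
import Pool.Agent.helper31.EQB.Cert.FRAll
import Pool.Agent.helper31.EQB.Cert.FPAll
import Pool.Agent.helper31.EQB.Cert.TAAll
import Pool.Agent.helper31.EQB.Cert.FBAll
import Pool.Agent.helper31.EQB.Cert.TBAll
import Pool.Agent.helper71.FF.Real
import Pool.Agent.helper31.EQB.Cst
import Pool.Agent.helper31.EQB.Ib

/-!
Generated: covers.
-/

namespace Pool.Agent.helper31.EQB

open Complex ComplexConjugate Set Filter Topology
open Pool.Agent.helper31.EQ.Y Pool.Agent.helper31.EQ.R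
open Pool.Agent.helper12.EQL Pool.Agent.helper12.RP Pool.Agent.helper12.FF Pool.Agent.helper12.RS
open Pool.Agent.helper63.FF
open Pool.Agent.helper71.FF (RAs zv ras_of_cov)
open Pool.Agent.helper31.IA (Z Op)

theorem cov_FR {sg R t : ℝ} (l0 : 0 ≤ sg) (u0 : sg ≤ 28 / 625) (l1 : 0 ≤ R) (u1 : R ≤ 6) (l2 : 0 ≤ t) (u2 : t ≤ 1) :
    ∃ ops ∈ Cert.FR.progs, RAs ops [sg, R, t] := by
  rcases le_total R (3 / 2) with h1_0 | h1_0
  · rcases le_total t (1 / 2) with h2_0 | h2_0
    · exact ras_of_cov (by decide +kernel) Cert.FR.c0_all (List.Forall₂.cons (ib (by norm_num) (by norm_num) l0 u0) (List.Forall₂.cons (ib (by norm_num) (by norm_num) l1 h1_0) (List.Forall₂.cons (ib (by norm_num) (by norm_num) l2 h2_0) List.Forall₂.nil)))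
    · exact ras_of_cov (by decide +kernel) Cert.FR.c1_all (List.Forall₂.cons (ib (by norm_num) (by norm_num) l0 u0) (List.Forall₂.cons (ib (by norm_num) (by norm_num) l1 h1_0) (List.Forall₂.cons (ib (by norm_num) (by norm_num) h2_0 u2) List.Forall₂.nil)))
  · rcases le_total R (3) with h1_1 | h1_1
    · rcases le_total t (1 / 2) with h2_0 | h2_0
      · exact ras_of_cov (by decide +kernel) Cert.FR.c2_all (List.Forall₂.cons (ib (by norm_num) (by norm_num) l0 u0) (List.Forall₂.cons (ib (by norm_num) (by norm_num) h1_0 h1_1) (List.Forall₂.cons (ib (by norm_num) (by norm_num) l2 h2_0) List.Forall₂.nil)))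
      · exact ras_of_cov (by decide +kernel) Cert.FR.c3_all (List.Forall₂.cons (ib (by norm_num) (by norm_num) l0 u0) (List.Forall₂.cons (ib (by norm_num) (by norm_num) h1_0 h1_1) (List.Forall₂.cons (ib (by norm_num) (by norm_num) h2_0 u2) List.Forall₂.nil)))
    · rcases le_total R (9 / 2) with h1_2 | h1_2
      · rcases le_total t (1 / 2) with h2_0 | h2_0
        · exact ras_of_cov (by decide +kernel) Cert.FR.c4_all (List.Forall₂.cons (ib (by norm_num) (by norm_num) l0 u0) (List.Forall₂.cons (ib (by norm_num) (by norm_num) h1_1 h1_2) (List.Forall₂.cons (ib (by norm_num) (by norm_num) l2 h2_0) List.Forall₂.nil)))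
        · exact ras_of_cov (by decide +kernel) Cert.FR.c5_all (List.Forall₂.cons (ib (by norm_num) (by norm_num) l0 u0) (List.Forall₂.cons (ib (by norm_num) (by norm_num) h1_1 h1_2) (List.Forall₂.cons (ib (by norm_num) (by norm_num) h2_0 u2) List.Forall₂.nil)))
      · rcases le_total t (1 / 2) with h2_0 | h2_0
        · exact ras_of_cov (by decide +kernel) Cert.FR.c6_all (List.Forall₂.cons (ib (by norm_num) (by norm_num) l0 u0) (List.Forall₂.cons (ib (by norm_num) (by norm_num) h1_2 u1) (List.Forall₂.cons (ib (by norm_num) (by norm_num) l2 h2_0) List.Forall₂.nil)))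
        · exact ras_of_cov (by decide +kernel) Cert.FR.c7_all (List.Forall₂.cons (ib (by norm_num) (by norm_num) l0 u0) (List.Forall₂.cons (ib (by norm_num) (by norm_num) h1_2 u1) (List.Forall₂.cons (ib (by norm_num) (by norm_num) h2_0 u2) List.Forall₂.nil)))

theorem cov_FQ_0 {sg be v : ℝ} (l0 : 0 ≤ sg) (u0 : sg ≤ 28 / 625) (l1 : 0 ≤ be) (u1 : be ≤ 3 / 2) (l2 : 79 / 32 ≤ v) (u2 : v ≤ 3927 / 1250) :
    ∃ ops ∈ Cert.FQ.progs, RAs ops [sg, be, v] := by
  exact ras_of_cov (by decide +kernel) Cert.FQ.c0_all (List.Forall₂.cons (ib (by norm_num) (by norm_num) l0 u0) (List.Forall₂.cons (ib (by norm_num) (by norm_num) l1 u1) (List.Forall₂.cons (ib (by norm_num) (by norm_num) l2 u2) List.Forall₂.nil)))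

theorem cov_FQ_1 {sg be v : ℝ} (l0 : 0 ≤ sg) (u0 : sg ≤ 28 / 625) (l1 : 23 / 16 ≤ be) (u1 : be ≤ 5 / 2) (l2 : 71 / 32 ≤ v) (u2 : v ≤ 3927 / 1250) :
    ∃ ops ∈ Cert.FQ.progs, RAs ops [sg, be, v] := by
  exact ras_of_cov (by decide +kernel) Cert.FQ.c1_all (List.Forall₂.cons (ib (by norm_num) (by norm_num) l0 u0) (List.Forall₂.cons (ib (by norm_num) (by norm_num) l1 u1) (List.Forall₂.cons (ib (by norm_num) (by norm_num) l2 u2) List.Forall₂.nil)))

theorem cov_FQ_2 {sg be v : ℝ} (l0 : 0 ≤ sg) (u0 : sg ≤ 28 / 625) (l1 : 79 / 32 ≤ be) (u1 : be ≤ 5) (l2 : 31 / 32 ≤ v) (u2 : v ≤ 3927 / 1250) :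
    ∃ ops ∈ Cert.FQ.progs, RAs ops [sg, be, v] := by
  exact ras_of_cov (by decide +kernel) Cert.FQ.c2_all (List.Forall₂.cons (ib (by norm_num) (by norm_num) l0 u0) (List.Forall₂.cons (ib (by norm_num) (by norm_num) l1 u1) (List.Forall₂.cons (ib (by norm_num) (by norm_num) l2 u2) List.Forall₂.nil)))

theorem cov_FP_0 {sg be v : ℝ} (l0 : 0 ≤ sg) (u0 : sg ≤ 28 / 625) (l1 : 39 / 16 ≤ be) (u1 : be ≤ 5) (l2 : 0 ≤ v) (u2 : v ≤ 127 / 128) :
    ∃ ops ∈ Cert.FP.progs, RAs ops [sg, be, v] := by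
  exact ras_of_cov (by decide +kernel) Cert.FP.c0_all (List.Forall₂.cons (ib (by norm_num) (by norm_num) l0 u0) (List.Forall₂.cons (ib (by norm_num) (by norm_num) l1 u1) (List.Forall₂.cons (ib (by norm_num) (by norm_num) l2 u2) List.Forall₂.nil)))

theorem cov_TA {sg be v : ℝ} (l0 : 0 ≤ sg) (u0 : sg ≤ 28 / 625) (l1 : 0 ≤ be) (u1 : be ≤ 5) (l2 : 314159265 / 10 ^ 8 ≤ v) (u2 : v ≤ 314159266 / 10 ^ 8) :
    ∃ ops ∈ Cert.TA.progs, RAs ops [sg, be, v] := by
  rcases le_total be (5 / 2) with h1_0 | h1_0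
  · exact ras_of_cov (by decide +kernel) Cert.TA.c0_all (List.Forall₂.cons (ib (by norm_num) (by norm_num) l0 u0) (List.Forall₂.cons (ib (by norm_num) (by norm_num) l1 h1_0) (List.Forall₂.cons (ib (by norm_num) (by norm_num) l2 u2) List.Forall₂.nil)))
  · exact ras_of_cov (by decide +kernel) Cert.TA.c1_all (List.Forall₂.cons (ib (by norm_num) (by norm_num) l0 u0) (List.Forall₂.cons (ib (by norm_num) (by norm_num) h1_0 u1) (List.Forall₂.cons (ib (by norm_num) (by norm_num) l2 u2) List.Forall₂.nil)))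

theorem cov_FB {om ta v : ℝ} (l0 : 0 ≤ om) (u0 : om ≤ 5 / 4) (l1 : 0 ≤ ta) (u1 : ta ≤ 1 / 5) (l2 : 0 ≤ v) (u2 : v ≤ 3927 / 1250) :
    ∃ ops ∈ Cert.FB.progs, RAs ops [om, ta, v] := by
  rcases le_total om (5 / 8) with h0_0 | h0_0
  · rcases le_total ta (1 / 10) with h1_0 | h1_0
    · rcases le_total v (3927 / 2500) with h2_0 | h2_0
      · exact ras_of_cov (by decide +kernel) Cert.FB.c0_all (List.Forall₂.cons (ib (by norm_num) (by norm_num) l0 h0_0) (List.Forall₂.cons (ib (by norm_num) (by norm_num) l1 h1_0) (List.Forall₂.cons (ib (by norm_num) (by norm_num) l2 h2_0) List.Forall₂.nil)))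
      · exact ras_of_cov (by decide +kernel) Cert.FB.c1_all (List.Forall₂.cons (ib (by norm_num) (by norm_num) l0 h0_0) (List.Forall₂.cons (ib (by norm_num) (by norm_num) l1 h1_0) (List.Forall₂.cons (ib (by norm_num) (by norm_num) h2_0 u2) List.Forall₂.nil)))
    · rcases le_total v (3927 / 2500) with h2_0 | h2_0
      · exact ras_of_cov (by decide +kernel) Cert.FB.c2_all (List.Forall₂.cons (ib (by norm_num) (by norm_num) l0 h0_0) (List.Forall₂.cons (ib (by norm_num) (by norm_num) h1_0 u1) (List.Forall₂.cons (ib (by norm_num) (by norm_num) l2 h2_0) List.Forall₂.nil)))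
      · exact ras_of_cov (by decide +kernel) Cert.FB.c3_all (List.Forall₂.cons (ib (by norm_num) (by norm_num) l0 h0_0) (List.Forall₂.cons (ib (by norm_num) (by norm_num) h1_0 u1) (List.Forall₂.cons (ib (by norm_num) (by norm_num) h2_0 u2) List.Forall₂.nil)))
  · rcases le_total ta (1 / 10) with h1_0 | h1_0
    · rcases le_total v (3927 / 2500) with h2_0 | h2_0
      · exact ras_of_cov (by decide +kernel) Cert.FB.c4_all (List.Forall₂.cons (ib (by norm_num) (by norm_num) h0_0 u0) (List.Forall₂.cons (ib (by norm_num) (by norm_num) l1 h1_0) (List.Forall₂.cons (ib (by norm_num) (by norm_num) l2 h2_0) List.Forall₂.nil)))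
      · exact ras_of_cov (by decide +kernel) Cert.FB.c5_all (List.Forall₂.cons (ib (by norm_num) (by norm_num) h0_0 u0) (List.Forall₂.cons (ib (by norm_num) (by norm_num) l1 h1_0) (List.Forall₂.cons (ib (by norm_num) (by norm_num) h2_0 u2) List.Forall₂.nil)))
    · rcases le_total v (3927 / 2500) with h2_0 | h2_0
      · exact ras_of_cov (by decide +kernel) Cert.FB.c6_all (List.Forall₂.cons (ib (by norm_num) (by norm_num) h0_0 u0) (List.Forall₂.cons (ib (by norm_num) (by norm_num) h1_0 u1) (List.Forall₂.cons (ib (by norm_num) (by norm_num) l2 h2_0) List.Forall₂.nil)))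
      · exact ras_of_cov (by decide +kernel) Cert.FB.c7_all (List.Forall₂.cons (ib (by norm_num) (by norm_num) h0_0 u0) (List.Forall₂.cons (ib (by norm_num) (by norm_num) h1_0 u1) (List.Forall₂.cons (ib (by norm_num) (by norm_num) h2_0 u2) List.Forall₂.nil)))

theorem cov_TB {om ta v : ℝ} (l0 : 0 ≤ om) (u0 : om ≤ 5 / 4) (l1 : 0 ≤ ta) (u1 : ta ≤ 1 / 5) (l2 : 314159265 / 10 ^ 8 ≤ v) (u2 : v ≤ 314159266 / 10 ^ 8) :
    ∃ ops ∈ Cert.TB.progs, RAs ops [om, ta, v] := by
  rcases le_total om (5 / 8) with h0_0 | h0_0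
  · rcases le_total ta (1 / 10) with h1_0 | h1_0
    · exact ras_of_cov (by decide +kernel) Cert.TB.c0_all (List.Forall₂.cons (ib (by norm_num) (by norm_num) l0 h0_0) (List.Forall₂.cons (ib (by norm_num) (by norm_num) l1 h1_0) (List.Forall₂.cons (ib (by norm_num) (by norm_num) l2 u2) List.Forall₂.nil)))
    · exact ras_of_cov (by decide +kernel) Cert.TB.c1_all (List.Forall₂.cons (ib (by norm_num) (by norm_num) l0 h0_0) (List.Forall₂.cons (ib (by norm_num) (by norm_num) h1_0 u1) (List.Forall₂.cons (ib (by norm_num) (by norm_num) l2 u2) List.Forall₂.nil)))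
  · rcases le_total ta (1 / 10) with h1_0 | h1_0
    · exact ras_of_cov (by decide +kernel) Cert.TB.c2_all (List.Forall₂.cons (ib (by norm_num) (by norm_num) h0_0 u0) (List.Forall₂.cons (ib (by norm_num) (by norm_num) l1 h1_0) (List.Forall₂.cons (ib (by norm_num) (by norm_num) l2 u2) List.Forall₂.nil)))
    · exact ras_of_cov (by decide +kernel) Cert.TB.c3_all (List.Forall₂.cons (ib (by norm_num) (by norm_num) h0_0 u0) (List.Forall₂.cons (ib (by norm_num) (by norm_num) h1_0 u1) (List.Forall₂.cons (ib (by norm_num) (by norm_num) l2 u2) List.Forall₂.nil)))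

end Pool.Agent.helper31.EQB
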