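import Pool.Agent.helper31.EQB.Cert.LB0All
import Pool.Agent.helper31.EQB.Cert.LB1All
import Pool.Agent.helper31.EQB.Cert.LB2All
import Pool.Agent.helper31.EQB.Cert.LB3All
import Pool.Agent.helper31.EQB.Cert.LB4All
import Pool.Agent.helper31.EQB.Cert.MBAll
import Pool.Agent.helper71.FF.Real
import Pool.Agent.helper31.EQB.Cst
import Pool.Agent.helper31.EQB.Ib

/-!
Generated: covers.
-/

namespace Pool.Agent.helper31.EQB

open Complex ComplexConjugate Set Filter Topology
open Pool.Agent.helper31.EQ.Y Pool.Agent.helper31.EQ.R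
open Pool.Agent.helper12.EQL Pool.Agent.helper12.RP Pool.Agent.helper12.FF Pool.Agent.helper12.RS
open Pool.Agent.helper63.FF
open Pool.Agent.helper71.FF (RAs zv ras_of_cov)
open Pool.Agent.helper31.IA (Z Op)

theorem cov_LB0 {om ta y : ℝ} (l0 : 0 ≤ om) (u0 : om ≤ 5 / 4) (l1 : 0 ≤ ta) (u1 : ta ≤ 1 / 5) (l2 : 0 ≤ y) (u2 : y ≤ 7 / 2) :
    ∃ ops ∈ Cert.LB0.progs, RAs ops [om, ta, y] := by
  rcases le_total om (5 / 8) with h0_0 | h0_0
  · rcases le_total ta (1 / 10) with h1_0 | h1_0
    · rcases le_total y (7 / 4) with h2_0 | h2_0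
      · exact ras_of_cov (by decide +kernel) Cert.LB0.c0_all (List.Forall₂.cons (ib (by norm_num) (by norm_num) l0 h0_0) (List.Forall₂.cons (ib (by norm_num) (by norm_num) l1 h1_0) (List.Forall₂.cons (ib (by norm_num) (by norm_num) l2 h2_0) List.Forall₂.nil)))
      · exact ras_of_cov (by decide +kernel) Cert.LB0.c1_all (List.Forall₂.cons (ib (by norm_num) (by norm_num) l0 h0_0) (List.Forall₂.cons (ib (by norm_num) (by norm_num) l1 h1_0) (List.Forall₂.cons (ib (by norm_num) (by norm_num) h2_0 u2) List.Forall₂.nil)))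
    · rcases le_total y (7 / 4) with h2_0 | h2_0
      · exact ras_of_cov (by decide +kernel) Cert.LB0.c2_all (List.Forall₂.cons (ib (by norm_num) (by norm_num) l0 h0_0) (List.Forall₂.cons (ib (by norm_num) (by norm_num) h1_0 u1) (List.Forall₂.cons (ib (by norm_num) (by norm_num) l2 h2_0) List.Forall₂.nil)))
      · exact ras_of_cov (by decide +kernel) Cert.LB0.c3_all (List.Forall₂.cons (ib (by norm_num) (by norm_num) l0 h0_0) (List.Forall₂.cons (ib (by norm_num) (by norm_num) h1_0 u1) (List.Forall₂.cons (ib (by norm_num) (by norm_num) h2_0 u2) List.Forall₂.nil)))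
  · rcases le_total ta (1 / 10) with h1_0 | h1_0
    · rcases le_total y (7 / 4) with h2_0 | h2_0
      · exact ras_of_cov (by decide +kernel) Cert.LB0.c4_all (List.Forall₂.cons (ib (by norm_num) (by norm_num) h0_0 u0) (List.Forall₂.cons (ib (by norm_num) (by norm_num) l1 h1_0) (List.Forall₂.cons (ib (by norm_num) (by norm_num) l2 h2_0) List.Forall₂.nil)))
      · exact ras_of_cov (by decide +kernel) Cert.LB0.c5_all (List.Forall₂.cons (ib (by norm_num) (by norm_num) h0_0 u0) (List.Forall₂.cons (ib (by norm_num) (by norm_num) l1 h1_0) (List.Forall₂.cons (ib (by norm_num) (by norm_num) h2_0 u2) List.Forall₂.nil)))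
    · rcases le_total y (7 / 4) with h2_0 | h2_0
      · exact ras_of_cov (by decide +kernel) Cert.LB0.c6_all (List.Forall₂.cons (ib (by norm_num) (by norm_num) h0_0 u0) (List.Forall₂.cons (ib (by norm_num) (by norm_num) h1_0 u1) (List.Forall₂.cons (ib (by norm_num) (by norm_num) l2 h2_0) List.Forall₂.nil)))
      · exact ras_of_cov (by decide +kernel) Cert.LB0.c7_all (List.Forall₂.cons (ib (by norm_num) (by norm_num) h0_0 u0) (List.Forall₂.cons (ib (by norm_num) (by norm_num) h1_0 u1) (List.Forall₂.cons (ib (by norm_num) (by norm_num) h2_0 u2) List.Forall₂.nil)))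

theorem cov_LB1 {om ta y : ℝ} (l0 : 0 ≤ om) (u0 : om ≤ 5 / 4) (l1 : 0 ≤ ta) (u1 : ta ≤ 1 / 5) (l2 : 0 ≤ y) (u2 : y ≤ 7 / 2) :
    ∃ ops ∈ Cert.LB1.progs, RAs ops [om, ta, y] := by
  rcases le_total om (5 / 8) with h0_0 | h0_0
  · rcases le_total ta (1 / 10) with h1_0 | h1_0
    · rcases le_total y (7 / 4) with h2_0 | h2_0
      · exact ras_of_cov (by decide +kernel) Cert.LB1.c0_all (List.Forall₂.cons (ib (by norm_num) (by norm_num) l0 h0_0) (List.Forall₂.cons (ib (by norm_num) (by norm_num) l1 h1_0) (List.Forall₂.cons (ib (by norm_num) (by norm_num) l2 h2_0) List.Forall₂.nil)))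
      · exact ras_of_cov (by decide +kernel) Cert.LB1.c1_all (List.Forall₂.cons (ib (by norm_num) (by norm_num) l0 h0_0) (List.Forall₂.cons (ib (by norm_num) (by norm_num) l1 h1_0) (List.Forall₂.cons (ib (by norm_num) (by norm_num) h2_0 u2) List.Forall₂.nil)))
    · rcases le_total y (7 / 4) with h2_0 | h2_0
      · exact ras_of_cov (by decide +kernel) Cert.LB1.c2_all (List.Forall₂.cons (ib (by norm_num) (by norm_num) l0 h0_0) (List.Forall₂.cons (ib (by norm_num) (by norm_num) h1_0 u1) (List.Forall₂.cons (ib (by norm_num) (by norm_num) l2 h2_0) List.Forall₂.nil)))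
      · exact ras_of_cov (by decide +kernel) Cert.LB1.c3_all (List.Forall₂.cons (ib (by norm_num) (by norm_num) l0 h0_0) (List.Forall₂.cons (ib (by norm_num) (by norm_num) h1_0 u1) (List.Forall₂.cons (ib (by norm_num) (by norm_num) h2_0 u2) List.Forall₂.nil)))
  · rcases le_total ta (1 / 10) with h1_0 | h1_0
    · rcases le_total y (7 / 4) with h2_0 | h2_0
      · exact ras_of_cov (by decide +kernel) Cert.LB1.c4_all (List.Forall₂.cons (ib (by norm_num) (by norm_num) h0_0 u0) (List.Forall₂.cons (ib (by norm_num) (by norm_num) l1 h1_0) (List.Forall₂.cons (ib (by norm_num) (by norm_num) l2 h2_0) List.Forall₂.nil)))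
      · exact ras_of_cov (by decide +kernel) Cert.LB1.c5_all (List.Forall₂.cons (ib (by norm_num) (by norm_num) h0_0 u0) (List.Forall₂.cons (ib (by norm_num) (by norm_num) l1 h1_0) (List.Forall₂.cons (ib (by norm_num) (by norm_num) h2_0 u2) List.Forall₂.nil)))
    · rcases le_total y (7 / 4) with h2_0 | h2_0
      · exact ras_of_cov (by decide +kernel) Cert.LB1.c6_all (List.Forall₂.cons (ib (by norm_num) (by norm_num) h0_0 u0) (List.Forall₂.cons (ib (by norm_num) (by norm_num) h1_0 u1) (List.Forall₂.cons (ib (by norm_num) (by norm_num) l2 h2_0) List.Forall₂.nil)))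
      · exact ras_of_cov (by decide +kernel) Cert.LB1.c7_all (List.Forall₂.cons (ib (by norm_num) (by norm_num) h0_0 u0) (List.Forall₂.cons (ib (by norm_num) (by norm_num) h1_0 u1) (List.Forall₂.cons (ib (by norm_num) (by norm_num) h2_0 u2) List.Forall₂.nil)))

theorem cov_LB2 {om ta y : ℝ} (l0 : 0 ≤ om) (u0 : om ≤ 5 / 4) (l1 : 0 ≤ ta) (u1 : ta ≤ 1 / 5) (l2 : 0 ≤ y) (u2 : y ≤ 7 / 2) :
    ∃ ops ∈ Cert.LB2.progs, RAs ops [om, ta, y] := by
  rcases le_total om (5 / 8) with h0_0 | h0_0
  · rcases le_total ta (1 / 10) with h1_0 | h1_0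
    · rcases le_total y (7 / 4) with h2_0 | h2_0
      · exact ras_of_cov (by decide +kernel) Cert.LB2.c0_all (List.Forall₂.cons (ib (by norm_num) (by norm_num) l0 h0_0) (List.Forall₂.cons (ib (by norm_num) (by norm_num) l1 h1_0) (List.Forall₂.cons (ib (by norm_num) (by norm_num) l2 h2_0) List.Forall₂.nil)))
      · exact ras_of_cov (by decide +kernel) Cert.LB2.c1_all (List.Forall₂.cons (ib (by norm_num) (by norm_num) l0 h0_0) (List.Forall₂.cons (ib (by norm_num) (by norm_num) l1 h1_0) (List.Forall₂.cons (ib (by norm_num) (by norm_num) h2_0 u2) List.Forall₂.nil)))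
    · rcases le_total y (7 / 4) with h2_0 | h2_0
      · exact ras_of_cov (by decide +kernel) Cert.LB2.c2_all (List.Forall₂.cons (ib (by norm_num) (by norm_num) l0 h0_0) (List.Forall₂.cons (ib (by norm_num) (by norm_num) h1_0 u1) (List.Forall₂.cons (ib (by norm_num) (by norm_num) l2 h2_0) List.Forall₂.nil)))
      · exact ras_of_cov (by decide +kernel) Cert.LB2.c3_all (List.Forall₂.cons (ib (by norm_num) (by norm_num) l0 h0_0) (List.Forall₂.cons (ib (by norm_num) (by norm_num) h1_0 u1) (List.Forall₂.cons (ib (by norm_num) (by norm_num) h2_0 u2) List.Forall₂.nil)))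
  · rcases le_total ta (1 / 10) with h1_0 | h1_0
    · rcases le_total y (7 / 4) with h2_0 | h2_0
      · exact ras_of_cov (by decide +kernel) Cert.LB2.c4_all (List.Forall₂.cons (ib (by norm_num) (by norm_num) h0_0 u0) (List.Forall₂.cons (ib (by norm_num) (by norm_num) l1 h1_0) (List.Forall₂.cons (ib (by norm_num) (by norm_num) l2 h2_0) List.Forall₂.nil)))
      · exact ras_of_cov (by decide +kernel) Cert.LB2.c5_all (List.Forall₂.cons (ib (by norm_num) (by norm_num) h0_0 u0) (List.Forall₂.cons (ib (by norm_num) (by norm_num) l1 h1_0) (List.Forall₂.cons (ib (by norm_num) (by norm_num) h2_0 u2) List.Forall₂.nil)))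
    · rcases le_total y (7 / 4) with h2_0 | h2_0
      · exact ras_of_cov (by decide +kernel) Cert.LB2.c6_all (List.Forall₂.cons (ib (by norm_num) (by norm_num) h0_0 u0) (List.Forall₂.cons (ib (by norm_num) (by norm_num) h1_0 u1) (List.Forall₂.cons (ib (by norm_num) (by norm_num) l2 h2_0) List.Forall₂.nil)))
      · exact ras_of_cov (by decide +kernel) Cert.LB2.c7_all (List.Forall₂.cons (ib (by norm_num) (by norm_num) h0_0 u0) (List.Forall₂.cons (ib (by norm_num) (by norm_num) h1_0 u1) (List.Forall₂.cons (ib (by norm_num) (by norm_num) h2_0 u2) List.Forall₂.nil)))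

theorem cov_LB3 {om ta y : ℝ} (l0 : 0 ≤ om) (u0 : om ≤ 5 / 4) (l1 : 0 ≤ ta) (u1 : ta ≤ 1 / 5) (l2 : 0 ≤ y) (u2 : y ≤ 7 / 2) :
    ∃ ops ∈ Cert.LB3.progs, RAs ops [om, ta, y] := by
  rcases le_total om (5 / 8) with h0_0 | h0_0
  · rcases le_total ta (1 / 10) with h1_0 | h1_0
    · rcases le_total y (7 / 4) with h2_0 | h2_0
      · exact ras_of_cov (by decide +kernel) Cert.LB3.c0_all (List.Forall₂.cons (ib (by norm_num) (by norm_num) l0 h0_0) (List.Forall₂.cons (ib (by norm_num) (by norm_num) l1 h1_0) (List.Forall₂.cons (ib (by norm_num) (by norm_num) l2 h2_0) List.Forall₂.nil)))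
      · exact ras_of_cov (by decide +kernel) Cert.LB3.c1_all (List.Forall₂.cons (ib (by norm_num) (by norm_num) l0 h0_0) (List.Forall₂.cons (ib (by norm_num) (by norm_num) l1 h1_0) (List.Forall₂.cons (ib (by norm_num) (by norm_num) h2_0 u2) List.Forall₂.nil)))
    · rcases le_total y (7 / 4) with h2_0 | h2_0
      · exact ras_of_cov (by decide +kernel) Cert.LB3.c2_all (List.Forall₂.cons (ib (by norm_num) (by norm_num) l0 h0_0) (List.Forall₂.cons (ib (by norm_num) (by norm_num) h1_0 u1) (List.Forall₂.cons (ib (by norm_num) (by norm_num) l2 h2_0) List.Forall₂.nil)))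
      · exact ras_of_cov (by decide +kernel) Cert.LB3.c3_all (List.Forall₂.cons (ib (by norm_num) (by norm_num) l0 h0_0) (List.Forall₂.cons (ib (by norm_num) (by norm_num) h1_0 u1) (List.Forall₂.cons (ib (by norm_num) (by norm_num) h2_0 u2) List.Forall₂.nil)))
  · rcases le_total ta (1 / 10) with h1_0 | h1_0
    · rcases le_total y (7 / 4) with h2_0 | h2_0
      · exact ras_of_cov (by decide +kernel) Cert.LB3.c4_all (List.Forall₂.cons (ib (by norm_num) (by norm_num) h0_0 u0) (List.Forall₂.cons (ib (by norm_num) (by norm_num) l1 h1_0) (List.Forall₂.cons (ib (by norm_num) (by norm_num) l2 h2_0) List.Forall₂.nil)))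
      · exact ras_of_cov (by decide +kernel) Cert.LB3.c5_all (List.Forall₂.cons (ib (by norm_num) (by norm_num) h0_0 u0) (List.Forall₂.cons (ib (by norm_num) (by norm_num) l1 h1_0) (List.Forall₂.cons (ib (by norm_num) (by norm_num) h2_0 u2) List.Forall₂.nil)))
    · rcases le_total y (7 / 4) with h2_0 | h2_0
      · exact ras_of_cov (by decide +kernel) Cert.LB3.c6_all (List.Forall₂.cons (ib (by norm_num) (by norm_num) h0_0 u0) (List.Forall₂.cons (ib (by norm_num) (by norm_num) h1_0 u1) (List.Forall₂.cons (ib (by norm_num) (by norm_num) l2 h2_0) List.Forall₂.nil)))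
      · exact ras_of_cov (by decide +kernel) Cert.LB3.c7_all (List.Forall₂.cons (ib (by norm_num) (by norm_num) h0_0 u0) (List.Forall₂.cons (ib (by norm_num) (by norm_num) h1_0 u1) (List.Forall₂.cons (ib (by norm_num) (by norm_num) h2_0 u2) List.Forall₂.nil)))

theorem cov_LB4 {om ta y : ℝ} (l0 : 0 ≤ om) (u0 : om ≤ 5 / 4) (l1 : 0 ≤ ta) (u1 : ta ≤ 1 / 5) (l2 : 0 ≤ y) (u2 : y ≤ 7 / 2) :
    ∃ ops ∈ Cert.LB4.progs, RAs ops [om, ta, y] := by
  rcases le_total om (5 / 8) with h0_0 | h0_0
  · rcases le_total ta (1 / 10) with h1_0 | h1_0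
    · rcases le_total y (7 / 4) with h2_0 | h2_0
      · exact ras_of_cov (by decide +kernel) Cert.LB4.c0_all (List.Forall₂.cons (ib (by norm_num) (by norm_num) l0 h0_0) (List.Forall₂.cons (ib (by norm_num) (by norm_num) l1 h1_0) (List.Forall₂.cons (ib (by norm_num) (by norm_num) l2 h2_0) List.Forall₂.nil)))
      · exact ras_of_cov (by decide +kernel) Cert.LB4.c1_all (List.Forall₂.cons (ib (by norm_num) (by norm_num) l0 h0_0) (List.Forall₂.cons (ib (by norm_num) (by norm_num) l1 h1_0) (List.Forall₂.cons (ib (by norm_num) (by norm_num) h2_0 u2) List.Forall₂.nil)))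
    · rcases le_total y (7 / 4) with h2_0 | h2_0
      · exact ras_of_cov (by decide +kernel) Cert.LB4.c2_all (List.Forall₂.cons (ib (by norm_num) (by norm_num) l0 h0_0) (List.Forall₂.cons (ib (by norm_num) (by norm_num) h1_0 u1) (List.Forall₂.cons (ib (by norm_num) (by norm_num) l2 h2_0) List.Forall₂.nil)))
      · exact ras_of_cov (by decide +kernel) Cert.LB4.c3_all (List.Forall₂.cons (ib (by norm_num) (by norm_num) l0 h0_0) (List.Forall₂.cons (ib (by norm_num) (by norm_num) h1_0 u1) (List.Forall₂.cons (ib (by norm_num) (by norm_num) h2_0 u2) List.Forall₂.nil)))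
  · rcases le_total ta (1 / 10) with h1_0 | h1_0
    · rcases le_total y (7 / 4) with h2_0 | h2_0
      · exact ras_of_cov (by decide +kernel) Cert.LB4.c4_all (List.Forall₂.cons (ib (by norm_num) (by norm_num) h0_0 u0) (List.Forall₂.cons (ib (by norm_num) (by norm_num) l1 h1_0) (List.Forall₂.cons (ib (by norm_num) (by norm_num) l2 h2_0) List.Forall₂.nil)))
      · exact ras_of_cov (by decide +kernel) Cert.LB4.c5_all (List.Forall₂.cons (ib (by norm_num) (by norm_num) h0_0 u0) (List.Forall₂.cons (ib (by norm_num) (by norm_num) l1 h1_0) (List.Forall₂.cons (ib (by norm_num) (by norm_num) h2_0 u2) List.Forall₂.nil)))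
    · rcases le_total y (7 / 4) with h2_0 | h2_0
      · exact ras_of_cov (by decide +kernel) Cert.LB4.c6_all (List.Forall₂.cons (ib (by norm_num) (by norm_num) h0_0 u0) (List.Forall₂.cons (ib (by norm_num) (by norm_num) h1_0 u1) (List.Forall₂.cons (ib (by norm_num) (by norm_num) l2 h2_0) List.Forall₂.nil)))
      · exact ras_of_cov (by decide +kernel) Cert.LB4.c7_all (List.Forall₂.cons (ib (by norm_num) (by norm_num) h0_0 u0) (List.Forall₂.cons (ib (by norm_num) (by norm_num) h1_0 u1) (List.Forall₂.cons (ib (by norm_num) (by norm_num) h2_0 u2) List.Forall₂.nil)))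

theorem cov_MB {om ta : ℝ} (l0 : 0 ≤ om) (u0 : om ≤ 5 / 4) (l1 : 0 ≤ ta) (u1 : ta ≤ 1 / 5) :
    ∃ ops ∈ Cert.MB.progs, RAs ops [om, ta] := by
  rcases le_total om (5 / 8) with h0_0 | h0_0
  · rcases le_total ta (1 / 10) with h1_0 | h1_0
    · exact ras_of_cov (by decide +kernel) Cert.MB.c0_all (List.Forall₂.cons (ib (by norm_num) (by norm_num) l0 h0_0) (List.Forall₂.cons (ib (by norm_num) (by norm_num) l1 h1_0) List.Forall₂.nil))
    · exact ras_of_cov (by decide +kernel) Cert.MB.c1_all (List.Forall₂.cons (ib (by norm_num) (by norm_num) l0 h0_0) (List.Forall₂.cons (ib (by norm_num) (by norm_num) h1_0 u1) List.Forall₂.nil))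
  · rcases le_total ta (1 / 10) with h1_0 | h1_0
    · exact ras_of_cov (by decide +kernel) Cert.MB.c2_all (List.Forall₂.cons (ib (by norm_num) (by norm_num) h0_0 u0) (List.Forall₂.cons (ib (by norm_num) (by norm_num) l1 h1_0) List.Forall₂.nil))
    · exact ras_of_cov (by decide +kernel) Cert.MB.c3_all (List.Forall₂.cons (ib (by norm_num) (by norm_num) h0_0 u0) (List.Forall₂.cons (ib (by norm_num) (by norm_num) h1_0 u1) List.Forall₂.nil))

end Pool.Agent.helper31.EQB
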