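import Pool.Agent.helper31.EQB.Cst
import Pool.Agent.helper31.EQB.Cert.FBP
import Pool.Agent.helper31.EQB.Cert.TBP
import Pool.Agent.helper71.FF.Real

/-!
Generated: meaning of the programs.
-/

namespace Pool.Agent.helper31.EQB

open Pool.Agent.helper71.FF (RAs zv)
open Pool.Agent.helper31.IA (Z Op)

set_option maxRecDepth 100000

private theorem zc_0_763549974528 : (-364089 / 524288 : ℝ) = zv 0 763549974528 := by unfold zv; norm_num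

private theorem zc_1073741824_0 : (1 / 1024 : ℝ) = zv 1073741824 0 := by unfold zv; norm_num

private theorem zc_59861106688_0 : (223 / 4096 : ℝ) = zv 59861106688 0 := by unfold zv; norm_num

private theorem zc_61083746304_0 : (29127 / 524288 : ℝ) = zv 61083746304 0 := by unfold zv; norm_num

private theorem zc_77763444736_0 : (74161 / 1048576 : ℝ) = zv 77763444736 0 := by unfold zv; norm_num

private theorem zc_97184055296_0 : (1482911 / 16777216 : ℝ) = zv 97184055296 0 := by unfold zv; norm_num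

private theorem zc_137438953472_0 : (1 / 8 : ℝ) = zv 137438953472 0 := by unfold zv; norm_num

private theorem zc_157073539072_0 : (149797 / 1048576 : ℝ) = zv 157073539072 0 := by unfold zv; norm_num

private theorem zc_175922741248_0 : (167773 / 1048576 : ℝ) = zv 175922741248 0 := by unfold zv; norm_num

private theorem zc_274877906944_0 : (1 / 4 : ℝ) = zv 274877906944 0 := by unfold zv; norm_num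

private theorem zc_285615325184_0 : (133 / 512 : ℝ) = zv 285615325184 0 := by unfold zv; norm_num

private theorem zc_301807435776_0 : (143913 / 524288 : ℝ) = zv 301807435776 0 := by unfold zv; norm_num

private theorem zc_307864010752_0 : (146801 / 524288 : ℝ) = zv 307864010752 0 := by unfold zv; norm_num

private theorem zc_324538466304_0 : (1209 / 4096 : ℝ) = zv 324538466304 0 := by unfold zv; norm_num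

private theorem zc_329853698048_0 : (314573 / 1048576 : ℝ) = zv 329853698048 0 := by unfold zv; norm_num

private theorem zc_366504574976_0 : (174763 / 524288 : ℝ) = zv 366504574976 0 := by unfold zv; norm_num

private theorem zc_441564790784_0 : (421109 / 1048576 : ℝ) = zv 441564790784 0 := by unfold zv; norm_num

private theorem zc_472790335488_0 : (56361 / 131072 : ℝ) = zv 472790335488 0 := by unfold zv; norm_num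

private theorem zc_498216206336_0 : (29 / 64 : ℝ) = zv 498216206336 0 := by unfold zv; norm_num

private theorem zc_549755813888_0 : (1 / 2 : ℝ) = zv 549755813888 0 := by unfold zv; norm_num

private theorem zc_582741917696_0 : (277873 / 524288 : ℝ) = zv 582741917696 0 := by unfold zv; norm_num

private theorem zc_593779228672_0 : (553 / 1024 : ℝ) = zv 593779228672 0 := by unfold zv; norm_num

private theorem zc_603614871552_0 : (143913 / 262144 : ℝ) = zv 603614871552 0 := by unfold zv; norm_num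

private theorem zc_615726972928_0 : (587203 / 1048576 : ℝ) = zv 615726972928 0 := by unfold zv; norm_num

private theorem zc_617925836800_0 : (147325 / 262144 : ℝ) = zv 617925836800 0 := by unfold zv; norm_num

private theorem zc_646392578048_0 : (301 / 512 : ℝ) = zv 646392578048 0 := by unfold zv; norm_num

private theorem zc_707090448384_0 : (337167 / 524288 : ℝ) = zv 707090448384 0 := by unfold zv; norm_num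

private theorem zc_762123911168_0 : (363409 / 524288 : ℝ) = zv 762123911168 0 := by unfold zv; norm_num

private theorem zc_767937216512_0 : (366181 / 524288 : ℝ) = zv 767937216512 0 := by unfold zv; norm_num

private theorem zc_824633720832_0 : (3 / 4 : ℝ) = zv 824633720832 0 := by unfold zv; norm_num

private theorem zc_883129581568_0 : (421109 / 524288 : ℝ) = zv 883129581568 0 := by unfold zv; norm_num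

private theorem zc_989560045568_0 : (471859 / 524288 : ℝ) = zv 989560045568 0 := by unfold zv; norm_num

private theorem zc_1056561954816_0 : (123 / 128 : ℝ) = zv 1056561954816 0 := by unfold zv; norm_num

private theorem zc_1098437885952_0 : (1023 / 1024 : ℝ) = zv 1098437885952 0 := by unfold zv; norm_num

private theorem zc_1099243192320_0 : (4095 / 4096 : ℝ) = zv 1099243192320 0 := by unfold zv; norm_num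

private theorem zc_1099511627776_0 : (1 : ℝ) = zv 1099511627776 0 := by unfold zv; norm_num

private theorem zc_1110506995712_0 : (529531 / 524288 : ℝ) = zv 1110506995712 0 := by unfold zv; norm_num

private theorem zc_1132797624320_0 : (1055 / 1024 : ℝ) = zv 1132797624320 0 := by unfold zv; norm_num

private theorem zc_1165482786816_0 : (1111491 / 1048576 : ℝ) = zv 1165482786816 0 := by unfold zv; norm_num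

private theorem zc_1347009118208_0 : (2509 / 2048 : ℝ) = zv 1347009118208 0 := by unfold zv; norm_num

private theorem zc_1414180896768_0 : (337167 / 262144 : ℝ) = zv 1414180896768 0 := by unfold zv; norm_num

private theorem zc_1524363165696_0 : (726873 / 524288 : ℝ) = zv 1524363165696 0 := by unfold zv; norm_num

private theorem zc_1535874433024_0 : (366181 / 262144 : ℝ) = zv 1535874433024 0 := by unfold zv; norm_num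

private theorem zc_1554944884736_0 : (1482911 / 1048576 : ℝ) = zv 1554944884736 0 := by unfold zv; norm_num

private theorem zc_1556388773888_0 : (2899 / 2048 : ℝ) = zv 1556388773888 0 := by unfold zv; norm_num

private theorem zc_1588869464064_0 : (5919 / 4096 : ℝ) = zv 1588869464064 0 := by unfold zv; norm_num

private theorem zc_1607391510528_0 : (1497 / 1024 : ℝ) = zv 1607391510528 0 := by unfold zv; norm_num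

private theorem zc_1649267441664_0 : (3 / 2 : ℝ) = zv 1649267441664 0 := by unfold zv; norm_num

private theorem zc_1759219023872_0 : (838861 / 524288 : ℝ) = zv 1759219023872 0 := by unfold zv; norm_num

private theorem zc_1832518680576_0 : (873813 / 524288 : ℝ) = zv 1832518680576 0 := by unfold zv; norm_num

private theorem zc_1924145348608_0 : (7 / 4 : ℝ) = zv 1924145348608 0 := by unfold zv; norm_num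

private theorem zc_2199023255552_0 : (2 : ℝ) = zv 2199023255552 0 := by unfold zv; norm_num

private theorem zc_2694018236416_0 : (2509 / 1024 : ℝ) = zv 2694018236416 0 := by unfold zv; norm_num

private theorem zc_2748779069440_0 : (5 / 2 : ℝ) = zv 2748779069440 0 := by unfold zv; norm_num

private theorem zc_3111703805952_0 : (1449 / 512 : ℝ) = zv 3111703805952 0 := by unfold zv; norm_num

private theorem zc_3298534883328_0 : (3 : ℝ) = zv 3298534883328 0 := by unfold zv; norm_num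

private theorem zc_3454218010624_0 : (3294199 / 1048576 : ℝ) = zv 3454218010624 0 := by unfold zv; norm_num

private theorem zc_3518651957248_0 : (3277 / 1024 : ℝ) = zv 3518651957248 0 := by unfold zv; norm_num

private theorem zc_3848290697216_0 : (7 / 2 : ℝ) = zv 3848290697216 0 := by unfold zv; norm_num

private theorem zc_4398046511104_0 : (4 : ℝ) = zv 4398046511104 0 := by unfold zv; norm_num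

private theorem zc_5388036472832_0 : (2509 / 512 : ℝ) = zv 5388036472832 0 := by unfold zv; norm_num

private theorem zc_6597069766656_0 : (6 : ℝ) = zv 6597069766656 0 := by unfold zv; norm_num

private theorem zc_6601096298496_0 : (24591 / 4096 : ℝ) = zv 6601096298496 0 := by unfold zv; norm_num

private theorem zc_8796093022208_0 : (8 : ℝ) = zv 8796093022208 0 := by unfold zv; norm_num

private theorem zc_10115506765824_0 : (9646899 / 1048576 : ℝ) = zv 10115506765824 0 := by unfold zv; norm_num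

private theorem zc_10851745529856_0 : (10349031 / 1048576 : ℝ) = zv 10851745529856 0 := by unfold zv; norm_num

private theorem zc_20890720927744_0 : (19 : ℝ) = zv 20890720927744 0 := by unfold zv; norm_num

private theorem zc_25288767438848_0 : (23 : ℝ) = zv 25288767438848 0 := by unfold zv; norm_num

private theorem zc_549755813888000_0 : (500 : ℝ) = zv 549755813888000 0 := by unfold zv; norm_num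

theorem ex_FB_0 {om ta v : ℝ} (h : RAs Cert.FB.prog0 [om, ta, v]) :
    Nonempty (PFB cFB1 om ta v) := by
  obtain ⟨se, e_se⟩ : ∃ zz : ℝ, zz = om * ta := ⟨_, rfl⟩
  obtain ⟨ie, e_ie⟩ : ∃ zz : ℝ, zz = se * se := ⟨_, rfl⟩
  obtain ⟨K, e_K⟩ : ∃ zz : ℝ, zz = om * se := ⟨_, rfl⟩
  obtain ⟨K2, e_K2⟩ : ∃ zz : ℝ, zz = K * K := ⟨_, rfl⟩
  obtain ⟨q6, e_q6⟩ : ∃ zz : ℝ, zz = (1 : ℝ) - K2 * ((1 : ℝ) * (6 : ℝ)⁻¹) := ⟨_, rfl⟩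
  obtain ⟨Kq, e_Kq⟩ : ∃ zz : ℝ, zz = K * q6 := ⟨_, rfl⟩
  obtain ⟨Yt, e_Yt⟩ : ∃ zz : ℝ, zz = (7 / 2) * ta := ⟨_, rfl⟩
  obtain ⟨Y2, e_Y2⟩ : ∃ zz : ℝ, zz = Yt * Yt := ⟨_, rfl⟩
  obtain ⟨wm, e_wm⟩ : ∃ zz : ℝ, zz = Yt * ((1 : ℝ) + Y2 * ((1 / 2 : ℝ) - (1 / 8) * Y2))⁻¹ := ⟨_, rfl⟩
  obtain ⟨wm2, e_wm2⟩ : ∃ zz : ℝ, zz = wm * wm := ⟨_, rfl⟩
  obtain ⟨wse0, e_wse0⟩ : ∃ zz : ℝ, zz = wm * se := ⟨_, rfl⟩
  obtain ⟨q, e_q⟩ : ∃ zz : ℝ, zz = (4095 / 4096 : ℝ) - (1449 / 512) * wse0 - 23 * ie - (1 / 2) * K2 := ⟨_, rfl⟩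
  obtain ⟨sp, e_sp⟩ : ∃ zz : ℝ, zz = (4095 / 4096 : ℝ) - (2899 / 2048) * wse0 - 19 * ie - (553 / 1024) * K2 := ⟨_, rfl⟩
  obtain ⟨v2, e_v2⟩ : ∃ zz : ℝ, zz = v * v := ⟨_, rfl⟩
  obtain ⟨sg2, e_sg2⟩ : ∃ zz : ℝ, zz = v2 * (ta * ta) + (1 : ℝ) := ⟨_, rfl⟩
  obtain ⟨L, e_L⟩ : ∃ zz : ℝ, zz = (1 / 2) * Real.log sg2 := ⟨_, rfl⟩
  obtain ⟨sR, e_sR⟩ : ∃ zz : ℝ, zz = Real.exp L := ⟨_, rfl⟩
  obtain ⟨kc, e_kc⟩ : ∃ zz : ℝ, zz = Real.exp (-L) := ⟨_, rfl⟩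
  obtain ⟨w, e_w⟩ : ∃ zz : ℝ, zz = om * sR := ⟨_, rfl⟩
  obtain ⟨V, e_V⟩ : ∃ zz : ℝ, zz = w * w := ⟨_, rfl⟩
  obtain ⟨wse, e_wse⟩ : ∃ zz : ℝ, zz = w * se := ⟨_, rfl⟩
  obtain ⟨iR, e_iR⟩ : ∃ zz : ℝ, zz = ta * kc := ⟨_, rfl⟩
  obtain ⟨vs, e_vs⟩ : ∃ zz : ℝ, zz = v * iR := ⟨_, rfl⟩
  obtain ⟨iR2, e_iR2⟩ : ∃ zz : ℝ, zz = iR * iR := ⟨_, rfl⟩
  obtain ⟨bb, e_bb⟩ : ∃ zz : ℝ, zz = om * om := ⟨_, rfl⟩
  obtain ⟨K2se, e_K2se⟩ : ∃ zz : ℝ, zz = bb * se := ⟨_, rfl⟩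
  obtain ⟨GrS, e_GrS⟩ : ∃ zz : ℝ, zz = (1 / 2) * om + (337167 / 524288) * se + (421109 / 1048576) * iR := ⟨_, rfl⟩
  obtain ⟨gd, e_gd⟩ : ∃ zz : ℝ, zz = ((-364089 / 524288) * w + (873813 / 524288 : ℝ)) * ((421109 / 524288) * ta) + (337167 / 262144) * ta + (1 : ℝ) := ⟨_, rfl⟩
  obtain ⟨svt, e_svt⟩ : ∃ zz : ℝ, zz = se * v2 * ta * gd⁻¹ := ⟨_, rfl⟩
  obtain ⟨GtS, e_GtS⟩ : ∃ zz : ℝ, zz = GrS + svt := ⟨_, rfl⟩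
  obtain ⟨G2S, e_G2S⟩ : ∃ zz : ℝ, zz = GrS + (1 / 4) * svt := ⟨_, rfl⟩
  obtain ⟨glf, e_glf⟩ : ∃ zz : ℝ, zz = Real.exp (ie * ((838861 / 524288) * V + (363409 / 524288 : ℝ)) - (1 / 2) * Kq) := ⟨_, rfl⟩
  obtain ⟨X, e_X⟩ : ∃ zz : ℝ, zz = (1209 / 4096) * sR := ⟨_, rfl⟩
  obtain ⟨rho, e_rho⟩ : ∃ zz : ℝ, zz = (2509 / 512) * wm2 + (2509 / 2048 : ℝ) := ⟨_, rfl⟩
  obtain ⟨c5, e_c5⟩ : ∃ zz : ℝ, zz = (1 : ℝ) - 500 * (ie * ie) := ⟨_, rfl⟩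
  obtain ⟨Xc, e_Xc⟩ : ∃ zz : ℝ, zz = (1 / 4) * ((1209 / 4096) * (4 * ta + (1 : ℝ))) := ⟨_, rfl⟩
  obtain ⟨rb, e_rb⟩ : ∃ zz : ℝ, zz = iR + (1 / 4) * kc := ⟨_, rfl⟩
  obtain ⟨Vie, e_Vie⟩ : ∃ zz : ℝ, zz = V * ie := ⟨_, rfl⟩
  obtain ⟨a, e_a⟩ : ∃ zz : ℝ, zz = se * GtS + (123 / 128) * ie := ⟨_, rfl⟩
  obtain ⟨ea, e_ea⟩ : ∃ zz : ℝ, zz = Real.exp a := ⟨_, rfl⟩
  obtain ⟨e2a, e_e2a⟩ : ∃ zz : ℝ, zz = ea * ea := ⟨_, rfl⟩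
  obtain ⟨er, e_er⟩ : ∃ zz : ℝ, zz = ((838861 / 524288) * V + (5 / 2) * v) * ie := ⟨_, rfl⟩
  obtain ⟨h4, e_h4⟩ : ∃ zz : ℝ, zz = (1 : ℝ) - (1 / 4) * K2 := ⟨_, rfl⟩
  obtain ⟨dzS, e_dzS⟩ : ∃ zz : ℝ, zz = vs * (G2S + ea * ((1 / 2) * (se * GtS * GtS) + (149797 / 1048576) * K2se)) + w * ((3 / 2) * e2a - (3 / 2 : ℝ) + (3 / 4) * K2 + v * ie + er) + K2se * ((1 / 8) * (v * vs * ie)) := ⟨_, rfl⟩
  obtain ⟨dzR, e_dzR⟩ : ∃ zz : ℝ, zz = dzS * se := ⟨_, rfl⟩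
  obtain ⟨r1V, e_r1V⟩ : ∃ zz : ℝ, zz = h4 * ((3 : ℝ) - (3 / 2) * e2a) - (1 / 2) * (kc * kc) - vs * vs * ea - er := ⟨_, rfl⟩
  obtain ⟨r2V, e_r2V⟩ : ∃ zz : ℝ, zz = (3 / 2) * e2a - h4 * ((1 / 2) * (kc * kc)) + er := ⟨_, rfl⟩
  obtain ⟨yc, e_yc⟩ : ∃ zz : ℝ, zz = v * glf + 2 * (Vie * v * e2a) + V * er := ⟨_, rfl⟩
  obtain ⟨ycR, e_ycR⟩ : ∃ zz : ℝ, zz = vs * glf + 2 * (Vie * vs * e2a) + wse * er := ⟨_, rfl⟩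
  obtain ⟨r1w, e_r1w⟩ : ∃ zz : ℝ, zz = r1V * wse := ⟨_, rfl⟩
  obtain ⟨kv, e_kv⟩ : ∃ zz : ℝ, zz = kc * kc + ycR * ycR := ⟨_, rfl⟩
  obtain ⟨x1, e_x1⟩ : ∃ zz : ℝ, zz = (1023 / 1024) * r1V * (kv + r1w * r1w)⁻¹ := ⟨_, rfl⟩
  obtain ⟨z, e_z⟩ : ∃ zz : ℝ, zz = 2 * (vs * vs * Vie) := ⟨_, rfl⟩
  obtain ⟨sR0, e_sR0⟩ : ∃ zz : ℝ, zz = (1 : ℝ) - z := ⟨_, rfl⟩
  obtain ⟨m, e_m⟩ : ∃ zz : ℝ, zz = sR0 - dzR - dzR * dzR := ⟨_, rfl⟩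
  obtain ⟨m2, e_m2⟩ : ∃ zz : ℝ, zz = m * m := ⟨_, rfl⟩
  obtain ⟨wn, e_wn⟩ : ∃ zz : ℝ, zz = w * m := ⟨_, rfl⟩
  obtain ⟨q2, e_q2⟩ : ∃ zz : ℝ, zz = q - 8 * ie - Vie * rho := ⟨_, rfl⟩
  obtain ⟨z1, e_z1⟩ : ∃ zz : ℝ, zz = 2 * (Kq * x1) := ⟨_, rfl⟩
  obtain ⟨iz1, e_iz1⟩ : ∃ zz : ℝ, zz = (z1 * z1 * ((1 : ℝ) * (3 : ℝ)⁻¹) + (1 : ℝ))⁻¹ := ⟨_, rfl⟩
  obtain ⟨th1, e_th1⟩ : ∃ zz : ℝ, zz = z1 * iz1 := ⟨_, rfl⟩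
  obtain ⟨l1, e_l1⟩ : ∃ zz : ℝ, zz = q6 * x1 * iz1 * ((1 / 4) * (th1 * th1) + (1 : ℝ)) := ⟨_, rfl⟩
  obtain ⟨z2, e_z2⟩ : ∃ zz : ℝ, zz = 2 * (Kq * (x1 + (1 : ℝ))) := ⟨_, rfl⟩
  obtain ⟨iz2, e_iz2⟩ : ∃ zz : ℝ, zz = (z2 * z2 * ((1 : ℝ) * (3 : ℝ)⁻¹) + (1 : ℝ))⁻¹ := ⟨_, rfl⟩
  obtain ⟨th2, e_th2⟩ : ∃ zz : ℝ, zz = z2 * iz2 := ⟨_, rfl⟩
  obtain ⟨l2, e_l2⟩ : ∃ zz : ℝ, zz = q6 * (x1 + (1 : ℝ)) * iz2 * ((1 / 4) * (th2 * th2) + (1 : ℝ)) := ⟨_, rfl⟩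
  obtain ⟨lv, e_lv⟩ : ∃ zz : ℝ, zz = l1 * V * m2 := ⟨_, rfl⟩
  obtain ⟨u, e_u⟩ : ∃ zz : ℝ, zz = Real.exp (-(q2 * lv)) := ⟨_, rfl⟩
  obtain ⟨xxa, e_xxa⟩ : ∃ zz : ℝ, zz = (-c5) + (1 : ℝ) := ⟨_, rfl⟩
  obtain ⟨rca, e_rca⟩ : ∃ zz : ℝ, zz = (1 / 2) * xxa * (-(xxa + (1 : ℝ))) + (1 : ℝ) := ⟨_, rfl⟩
  obtain ⟨bna, e_bna⟩ : ∃ zz : ℝ, zz = sp * rca := ⟨_, rfl⟩
  obtain ⟨wsa, e_wsa⟩ : ∃ zz : ℝ, zz = bna * wn := ⟨_, rfl⟩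
  obtain ⟨ba, e_ba⟩ : ∃ zz : ℝ, zz = bna * ((1 / 2) * wsa + ((1482911 / 16777216) * (wsa * wsa) + (1482911 / 1048576 : ℝ)))⁻¹ := ⟨_, rfl⟩
  obtain ⟨iba, e_iba⟩ : ∃ zz : ℝ, zz = (ba + (1 / 2) * (q * wn * c5 * l2))⁻¹ := ⟨_, rfl⟩
  obtain ⟨Maw, e_Maw⟩ : ∃ zz : ℝ, zz = u * (wn + iba) := ⟨_, rfl⟩
  obtain ⟨z3, e_z3⟩ : ∃ zz : ℝ, zz = 2 * (Kq * (x1 + (2 : ℝ))) := ⟨_, rfl⟩
  obtain ⟨iz3, e_iz3⟩ : ∃ zz : ℝ, zz = (z3 * z3 * ((1 : ℝ) * (3 : ℝ)⁻¹) + (1 : ℝ))⁻¹ := ⟨_, rfl⟩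
  obtain ⟨th3, e_th3⟩ : ∃ zz : ℝ, zz = z3 * iz3 := ⟨_, rfl⟩
  obtain ⟨l3, e_l3⟩ : ∃ zz : ℝ, zz = q6 * (x1 + (2 : ℝ)) * iz3 * ((1 / 4) * (th3 * th3) + (1 : ℝ)) := ⟨_, rfl⟩
  obtain ⟨cc5, e_cc5⟩ : ∃ zz : ℝ, zz = c5 * c5 := ⟨_, rfl⟩
  obtain ⟨xxc, e_xxc⟩ : ∃ zz : ℝ, zz = (-cc5) + (1 : ℝ) := ⟨_, rfl⟩
  obtain ⟨rcc, e_rcc⟩ : ∃ zz : ℝ, zz = (1 / 2) * xxc * (-(xxc + (1 : ℝ))) + (1 : ℝ) := ⟨_, rfl⟩
  obtain ⟨bnc, e_bnc⟩ : ∃ zz : ℝ, zz = sp * rcc := ⟨_, rfl⟩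
  obtain ⟨wsc, e_wsc⟩ : ∃ zz : ℝ, zz = bnc * wn := ⟨_, rfl⟩
  obtain ⟨bc, e_bc⟩ : ∃ zz : ℝ, zz = bnc * ((1 / 2) * wsc + ((1482911 / 16777216) * (wsc * wsc) + (1482911 / 1048576 : ℝ)))⁻¹ := ⟨_, rfl⟩
  obtain ⟨ibc, e_ibc⟩ : ∃ zz : ℝ, zz = (bc + (1 / 2) * (q * wn * cc5 * l3))⁻¹ := ⟨_, rfl⟩
  obtain ⟨ub, e_ub⟩ : ∃ zz : ℝ, zz = Real.exp (-(q2 * (l2 * V * m2 * c5))) := ⟨_, rfl⟩
  obtain ⟨Mbw, e_Mbw⟩ : ∃ zz : ℝ, zz = ub * (wn + ibc) := ⟨_, rfl⟩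
  obtain ⟨iX, e_iX⟩ : ∃ zz : ℝ, zz = ((1 : ℝ) - X)⁻¹ := ⟨_, rfl⟩
  obtain ⟨LX, e_LX⟩ : ∃ zz : ℝ, zz = (1 : ℝ) + (1 / 2) * X + (174763 / 524288) * (X * X * iX) := ⟨_, rfl⟩
  obtain ⟨uX, e_uX⟩ : ∃ zz : ℝ, zz = u * X := ⟨_, rfl⟩
  obtain ⟨LU, e_LU⟩ : ∃ zz : ℝ, zz = (1 : ℝ) + (1 / 2) * uX + (174763 / 524288) * (uX * uX * ((1 : ℝ) - uX)⁻¹) := ⟨_, rfl⟩
  obtain ⟨im, e_im⟩ : ∃ zz : ℝ, zz = m⁻¹ := ⟨_, rfl⟩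
  obtain ⟨dz, e_dz⟩ : ∃ zz : ℝ, zz = dzS * w := ⟨_, rfl⟩
  obtain ⟨DG, e_DG⟩ : ∃ zz : ℝ, zz = dz + dzS * Mbw * im + X * LX := ⟨_, rfl⟩
  obtain ⟨DF, e_DF⟩ : ∃ zz : ℝ, zz = dzS * Maw * im + uX * LU := ⟨_, rfl⟩
  obtain ⟨vDG, e_vDG⟩ : ∃ zz : ℝ, zz = v * DG * iR2 := ⟨_, rfl⟩
  obtain ⟨EQ, e_EQ⟩ : ∃ zz : ℝ, zz = (1111491 / 1048576) * e2a * (vDG + ie * (2 * DG + DF)) := ⟨_, rfl⟩
  obtain ⟨ER, e_ER⟩ : ∃ zz : ℝ, zz = EQ * wse := ⟨_, rfl⟩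
  obtain ⟨Qw, e_Qw⟩ : ∃ zz : ℝ, zz = ER * im := ⟨_, rfl⟩
  obtain ⟨c2, e_c2⟩ : ∃ zz : ℝ, zz = (-(2 * Qw)) + c5 := ⟨_, rfl⟩
  obtain ⟨s1, e_s1⟩ : ∃ zz : ℝ, zz = (1 / 2) * (kv - (1 : ℝ)) + (1 : ℝ) := ⟨_, rfl⟩
  obtain ⟨exK, e_exK⟩ : ∃ zz : ℝ, zz = Real.exp (2 * (K * x1)) := ⟨_, rfl⟩
  obtain ⟨d, e_d⟩ : ∃ zz : ℝ, zz = EQ * exK * (q6 * m2 * ((1 : ℝ) - Qw))⁻¹ := ⟨_, rfl⟩
  obtain ⟨E, e_E⟩ : ∃ zz : ℝ, zz = EQ * V := ⟨_, rfl⟩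
  obtain ⟨x2, e_x2⟩ : ∃ zz : ℝ, zz = x1 - d + (1 : ℝ) := ⟨_, rfl⟩
  obtain ⟨z4, e_z4⟩ : ∃ zz : ℝ, zz = 2 * (Kq * x2) := ⟨_, rfl⟩
  obtain ⟨iz4, e_iz4⟩ : ∃ zz : ℝ, zz = (z4 * z4 * ((1 : ℝ) * (3 : ℝ)⁻¹) + (1 : ℝ))⁻¹ := ⟨_, rfl⟩
  obtain ⟨th4, e_th4⟩ : ∃ zz : ℝ, zz = z4 * iz4 := ⟨_, rfl⟩
  obtain ⟨l4, e_l4⟩ : ∃ zz : ℝ, zz = q6 * x2 * iz4 * ((1 / 4) * (th4 * th4) + (1 : ℝ)) := ⟨_, rfl⟩
  obtain ⟨u1, e_u1⟩ : ∃ zz : ℝ, zz = Real.exp (-(q2 * (l4 * V * m2 * c2))) := ⟨_, rfl⟩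
  obtain ⟨z5, e_z5⟩ : ∃ zz : ℝ, zz = 2 * (Kq * (x2 + (1 : ℝ))) := ⟨_, rfl⟩
  obtain ⟨iz5, e_iz5⟩ : ∃ zz : ℝ, zz = (z5 * z5 * ((1 : ℝ) * (3 : ℝ)⁻¹) + (1 : ℝ))⁻¹ := ⟨_, rfl⟩
  obtain ⟨th5, e_th5⟩ : ∃ zz : ℝ, zz = z5 * iz5 := ⟨_, rfl⟩
  obtain ⟨l5, e_l5⟩ : ∃ zz : ℝ, zz = q6 * (x2 + (1 : ℝ)) * iz5 * ((1 / 4) * (th5 * th5) + (1 : ℝ)) := ⟨_, rfl⟩
  obtain ⟨cd5, e_cd5⟩ : ∃ zz : ℝ, zz = c2 * c5 := ⟨_, rfl⟩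
  obtain ⟨xxn, e_xxn⟩ : ∃ zz : ℝ, zz = (-cd5) + (1 : ℝ) := ⟨_, rfl⟩
  obtain ⟨rcn, e_rcn⟩ : ∃ zz : ℝ, zz = (1 / 2) * xxn * (-(xxn + (1 : ℝ))) + (1 : ℝ) := ⟨_, rfl⟩
  obtain ⟨bnn, e_bnn⟩ : ∃ zz : ℝ, zz = sp * rcn := ⟨_, rfl⟩
  obtain ⟨wsn, e_wsn⟩ : ∃ zz : ℝ, zz = bnn * wn := ⟨_, rfl⟩
  obtain ⟨bn, e_bn⟩ : ∃ zz : ℝ, zz = bnn * ((1 / 2) * wsn + ((1482911 / 16777216) * (wsn * wsn) + (1482911 / 1048576 : ℝ)))⁻¹ := ⟨_, rfl⟩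
  obtain ⟨ibn, e_ibn⟩ : ∃ zz : ℝ, zz = (bn + (1 / 2) * (q * wn * cd5 * l5))⁻¹ := ⟨_, rfl⟩
  obtain ⟨Mnw, e_Mnw⟩ : ∃ zz : ℝ, zz = u1 * (wn + ibn) := ⟨_, rfl⟩
  obtain ⟨EM, e_EM⟩ : ∃ zz : ℝ, zz = E + EQ * w * Mnw * im := ⟨_, rfl⟩
  obtain ⟨EMr, e_EMr⟩ : ∃ zz : ℝ, zz = EM * rb := ⟨_, rfl⟩
  obtain ⟨i2, e_i2⟩ : ∃ zz : ℝ, zz = ((1 : ℝ) - (1 / 2) * EM)⁻¹ := ⟨_, rfl⟩
  obtain ⟨eta, e_eta⟩ : ∃ zz : ℝ, zz = ((1 / 2) * EM + (1 : ℝ)) * i2 := ⟨_, rfl⟩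
  obtain ⟨r2w, e_r2w⟩ : ∃ zz : ℝ, zz = r2V * wse := ⟨_, rfl⟩
  obtain ⟨DPx, e_DPx⟩ : ∃ zz : ℝ, zz = kv + r2w * (r2w + 2 * kc) := ⟨_, rfl⟩
  obtain ⟨VcR, e_VcR⟩ : ∃ zz : ℝ, zz = wse * (kv + r2w * r2w) := ⟨_, rfl⟩
  obtain ⟨DPR, e_DPR⟩ : ∃ zz : ℝ, zz = (1 / 2) * (DPx - (1 : ℝ)) + (1 : ℝ) := ⟨_, rfl⟩
  obtain ⟨a0, e_a0⟩ : ∃ zz : ℝ, zz = (133 / 512) * ta + (223 / 4096 : ℝ) := ⟨_, rfl⟩
  obtain ⟨p_gd, ch0⟩ := ((((h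
    (1 : ℝ) zc_1099511627776_0
    (3 : ℝ) zc_3298534883328_0).2
    ((3 : ℝ)⁻¹) rfl
    ((1 : ℝ) * (3 : ℝ)⁻¹) rfl
    se e_se
    ie e_ie
    K e_K
    K2 e_K2
    (6 : ℝ) zc_6597069766656_0).2
    ((6 : ℝ)⁻¹) rfl
    ((1 : ℝ) * (6 : ℝ)⁻¹) rfl
    (K2 * ((1 : ℝ) * (6 : ℝ)⁻¹)) rfl
    q6 e_q6
    Kq e_Kq
    Yt (e_Yt.trans (congrArg (fun y : ℝ => y * ta) zc_3848290697216_0))
    Y2 e_Y2
    (1 / 2 : ℝ) zc_549755813888_0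
    ((1 / 8) * Y2) (congrArg (fun y : ℝ => y * Y2) zc_137438953472_0)
    ((1 / 2 : ℝ) - (1 / 8) * Y2) rfl
    (Y2 * ((1 / 2 : ℝ) - (1 / 8) * Y2)) rfl
    ((1 : ℝ) + Y2 * ((1 / 2 : ℝ) - (1 / 8) * Y2)) rfl).2
    (((1 : ℝ) + Y2 * ((1 / 2 : ℝ) - (1 / 8) * Y2))⁻¹) rfl
    wm e_wm
    wm2 e_wm2
    wse0 e_wse0
    (4095 / 4096 : ℝ) zc_1099243192320_0
    ((1449 / 512) * wse0) (congrArg (fun y : ℝ => y * wse0) zc_3111703805952_0)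
    ((4095 / 4096 : ℝ) - (1449 / 512) * wse0) rfl
    (23 * ie) (congrArg (fun y : ℝ => y * ie) zc_25288767438848_0)
    ((4095 / 4096 : ℝ) - (1449 / 512) * wse0 - 23 * ie) rfl
    ((1 / 2) * K2) (congrArg (fun y : ℝ => y * K2) zc_549755813888_0)
    q e_q
    ((2899 / 2048) * wse0) (congrArg (fun y : ℝ => y * wse0) zc_1556388773888_0)
    ((4095 / 4096 : ℝ) - (2899 / 2048) * wse0) rfl
    (19 * ie) (congrArg (fun y : ℝ => y * ie) zc_20890720927744_0)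
    ((4095 / 4096 : ℝ) - (2899 / 2048) * wse0 - 19 * ie) rfl
    ((553 / 1024) * K2) (congrArg (fun y : ℝ => y * K2) zc_593779228672_0)
    sp e_sp
    v2 e_v2
    (ta * ta) rfl
    (v2 * (ta * ta)) rfl
    sg2 e_sg2).2
    (Real.log sg2) rfl
    L (e_L.trans (congrArg (fun y : ℝ => y * Real.log sg2) zc_549755813888_0))
    sR e_sR
    (-L) rfl
    kc e_kc
    w e_w
    V e_V
    wse e_wse
    iR e_iR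
    vs e_vs
    iR2 e_iR2
    bb e_bb
    K2se e_K2se
    ((1 / 2) * om) (congrArg (fun y : ℝ => y * om) zc_549755813888_0)
    ((337167 / 524288) * se) (congrArg (fun y : ℝ => y * se) zc_707090448384_0)
    ((1 / 2) * om + (337167 / 524288) * se) rfl
    ((421109 / 1048576) * iR) (congrArg (fun y : ℝ => y * iR) zc_441564790784_0)
    GrS e_GrS
    ((-364089 / 524288) * w) (congrArg (fun y : ℝ => y * w) zc_0_763549974528)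
    (873813 / 524288 : ℝ) zc_1832518680576_0
    ((-364089 / 524288) * w + (873813 / 524288 : ℝ)) rfl
    ((421109 / 524288) * ta) (congrArg (fun y : ℝ => y * ta) zc_883129581568_0)
    (((-364089 / 524288) * w + (873813 / 524288 : ℝ)) * ((421109 / 524288) * ta)) rfl
    ((337167 / 262144) * ta) (congrArg (fun y : ℝ => y * ta) zc_1414180896768_0)
    (((-364089 / 524288) * w + (873813 / 524288 : ℝ)) * ((421109 / 524288) * ta) + (337167 / 262144) * ta) rfl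
    gd e_gd
  change 0 < gd at p_gd
  obtain ⟨p_a1, ch1⟩ := (ch0
    (se * v2) rfl
    (se * v2 * ta) rfl).2
    (gd⁻¹) rfl
    svt e_svt
    GtS e_GtS
    ((1 / 4) * svt) (congrArg (fun y : ℝ => y * svt) zc_274877906944_0)
    G2S e_G2S
    ((838861 / 524288) * V) (congrArg (fun y : ℝ => y * V) zc_1759219023872_0)
    (363409 / 524288 : ℝ) zc_762123911168_0
    ((838861 / 524288) * V + (363409 / 524288 : ℝ)) rfl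
    (ie * ((838861 / 524288) * V + (363409 / 524288 : ℝ))) rfl
    ((1 / 2) * Kq) (congrArg (fun y : ℝ => y * Kq) zc_549755813888_0)
    (ie * ((838861 / 524288) * V + (363409 / 524288 : ℝ)) - (1 / 2) * Kq) rfl
    glf e_glf
    X (e_X.trans (congrArg (fun y : ℝ => y * sR) zc_324538466304_0))
    ((2509 / 512) * wm2) (congrArg (fun y : ℝ => y * wm2) zc_5388036472832_0)
    (2509 / 2048 : ℝ) zc_1347009118208_0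
    rho e_rho
    (ie * ie) rfl
    (500 * (ie * ie)) (congrArg (fun y : ℝ => y * (ie * ie)) zc_549755813888000_0)
    c5 e_c5
    (4 * ta) (congrArg (fun y : ℝ => y * ta) zc_4398046511104_0)
    (4 * ta + (1 : ℝ)) rfl
    ((1209 / 4096) * (4 * ta + (1 : ℝ))) (congrArg (fun y : ℝ => y * (4 * ta + (1 : ℝ))) zc_324538466304_0)
    Xc (e_Xc.trans (congrArg (fun y : ℝ => y * ((1209 / 4096) * (4 * ta + (1 : ℝ)))) zc_274877906944_0))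
    ((1 / 4) * kc) (congrArg (fun y : ℝ => y * kc) zc_274877906944_0)
    rb e_rb
    Vie e_Vie
    (se * GtS) rfl
    ((123 / 128) * ie) (congrArg (fun y : ℝ => y * ie) zc_1056561954816_0)
    a e_a
    ea e_ea
    e2a e_e2a
    (-a) rfl
    (29127 / 524288 : ℝ) zc_61083746304_0
    ((-a) + (29127 / 524288 : ℝ)) rfl
  change 0 < (-a) + (29127 / 524288 : ℝ) at p_a1
  obtain ⟨p_x11, ch2⟩ := (ch1
    ((5 / 2) * v) (congrArg (fun y : ℝ => y * v) zc_2748779069440_0)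
    ((838861 / 524288) * V + (5 / 2) * v) rfl
    er e_er
    ((1 / 4) * K2) (congrArg (fun y : ℝ => y * K2) zc_274877906944_0)
    h4 e_h4
    (se * GtS * GtS) rfl
    ((1 / 2) * (se * GtS * GtS)) (congrArg (fun y : ℝ => y * (se * GtS * GtS)) zc_549755813888_0)
    ((149797 / 1048576) * K2se) (congrArg (fun y : ℝ => y * K2se) zc_157073539072_0)
    ((1 / 2) * (se * GtS * GtS) + (149797 / 1048576) * K2se) rfl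
    (ea * ((1 / 2) * (se * GtS * GtS) + (149797 / 1048576) * K2se)) rfl
    (G2S + ea * ((1 / 2) * (se * GtS * GtS) + (149797 / 1048576) * K2se)) rfl
    (vs * (G2S + ea * ((1 / 2) * (se * GtS * GtS) + (149797 / 1048576) * K2se))) rfl
    ((3 / 2) * e2a) (congrArg (fun y : ℝ => y * e2a) zc_1649267441664_0)
    (3 / 2 : ℝ) zc_1649267441664_0
    ((3 / 2) * e2a - (3 / 2 : ℝ)) rfl
    ((3 / 4) * K2) (congrArg (fun y : ℝ => y * K2) zc_824633720832_0)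
    ((3 / 2) * e2a - (3 / 2 : ℝ) + (3 / 4) * K2) rfl
    (v * ie) rfl
    ((3 / 2) * e2a - (3 / 2 : ℝ) + (3 / 4) * K2 + v * ie) rfl
    ((3 / 2) * e2a - (3 / 2 : ℝ) + (3 / 4) * K2 + v * ie + er) rfl
    (w * ((3 / 2) * e2a - (3 / 2 : ℝ) + (3 / 4) * K2 + v * ie + er)) rfl
    (vs * (G2S + ea * ((1 / 2) * (se * GtS * GtS) + (149797 / 1048576) * K2se)) + w * ((3 / 2) * e2a - (3 / 2 : ℝ) + (3 / 4) * K2 + v * ie + er)) rfl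
    (v * vs) rfl
    (v * vs * ie) rfl
    ((1 / 8) * (v * vs * ie)) (congrArg (fun y : ℝ => y * (v * vs * ie)) zc_137438953472_0)
    (K2se * ((1 / 8) * (v * vs * ie))) rfl
    dzS e_dzS
    dzR e_dzR
    ((3 : ℝ) - (3 / 2) * e2a) rfl
    (h4 * ((3 : ℝ) - (3 / 2) * e2a)) rfl
    (kc * kc) rfl
    ((1 / 2) * (kc * kc)) (congrArg (fun y : ℝ => y * (kc * kc)) zc_549755813888_0)
    (h4 * ((3 : ℝ) - (3 / 2) * e2a) - (1 / 2) * (kc * kc)) rfl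
    (vs * vs) rfl
    (vs * vs * ea) rfl
    (h4 * ((3 : ℝ) - (3 / 2) * e2a) - (1 / 2) * (kc * kc) - vs * vs * ea) rfl
    r1V e_r1V
    (h4 * ((1 / 2) * (kc * kc))) rfl
    ((3 / 2) * e2a - h4 * ((1 / 2) * (kc * kc))) rfl
    r2V e_r2V
    (v * glf) rfl
    (Vie * v) rfl
    (Vie * v * e2a) rfl
    (2 * (Vie * v * e2a)) (congrArg (fun y : ℝ => y * (Vie * v * e2a)) zc_2199023255552_0)
    (v * glf + 2 * (Vie * v * e2a)) rfl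
    (V * er) rfl
    yc e_yc
    (vs * glf) rfl
    (Vie * vs) rfl
    (Vie * vs * e2a) rfl
    (2 * (Vie * vs * e2a)) (congrArg (fun y : ℝ => y * (Vie * vs * e2a)) zc_2199023255552_0)
    (vs * glf + 2 * (Vie * vs * e2a)) rfl
    (wse * er) rfl
    ycR e_ycR
    r1w e_r1w
    (ycR * ycR) rfl
    kv e_kv
    ((1023 / 1024) * r1V) (congrArg (fun y : ℝ => y * r1V) zc_1098437885952_0)
    (r1w * r1w) rfl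
    (kv + r1w * r1w) rfl).2
    ((kv + r1w * r1w)⁻¹) rfl
    x1 e_x1
    (-x1) rfl
    ((-x1) + (1 : ℝ)) rfl
  change 0 < (-x1) + (1 : ℝ) at p_x11
  obtain ⟨p_X1, ch3⟩ := (((((((ch2
    (vs * vs * Vie) rfl
    z (e_z.trans (congrArg (fun y : ℝ => y * (vs * vs * Vie)) zc_2199023255552_0))
    sR0 e_sR0
    (sR0 - dzR) rfl
    (dzR * dzR) rfl
    m e_m
    m2 e_m2
    wn e_wn
    (8 * ie) (congrArg (fun y : ℝ => y * ie) zc_8796093022208_0)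
    (q - 8 * ie) rfl
    (Vie * rho) rfl
    q2 e_q2
    (Kq * x1) rfl
    z1 (e_z1.trans (congrArg (fun y : ℝ => y * (Kq * x1)) zc_2199023255552_0))
    (z1 * z1) rfl
    (z1 * z1 * ((1 : ℝ) * (3 : ℝ)⁻¹)) rfl
    (z1 * z1 * ((1 : ℝ) * (3 : ℝ)⁻¹) + (1 : ℝ)) rfl).2
    iz1 e_iz1
    th1 e_th1
    (q6 * x1) rfl
    (q6 * x1 * iz1) rfl
    (th1 * th1) rfl
    ((1 / 4) * (th1 * th1)) (congrArg (fun y : ℝ => y * (th1 * th1)) zc_274877906944_0)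
    ((1 / 4) * (th1 * th1) + (1 : ℝ)) rfl
    l1 e_l1
    (x1 + (1 : ℝ)) rfl
    (Kq * (x1 + (1 : ℝ))) rfl
    z2 (e_z2.trans (congrArg (fun y : ℝ => y * (Kq * (x1 + (1 : ℝ)))) zc_2199023255552_0))
    (z2 * z2) rfl
    (z2 * z2 * ((1 : ℝ) * (3 : ℝ)⁻¹)) rfl
    (z2 * z2 * ((1 : ℝ) * (3 : ℝ)⁻¹) + (1 : ℝ)) rfl).2
    iz2 e_iz2
    th2 e_th2
    (q6 * (x1 + (1 : ℝ))) rfl
    (q6 * (x1 + (1 : ℝ)) * iz2) rfl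
    (th2 * th2) rfl
    ((1 / 4) * (th2 * th2)) (congrArg (fun y : ℝ => y * (th2 * th2)) zc_274877906944_0)
    ((1 / 4) * (th2 * th2) + (1 : ℝ)) rfl
    l2 e_l2
    (l1 * V) rfl
    lv e_lv
    (q2 * lv) rfl
    (-(q2 * lv)) rfl
    u e_u
    (-c5) rfl
    xxa e_xxa
    ((1 / 2) * xxa) (congrArg (fun y : ℝ => y * xxa) zc_549755813888_0)
    (xxa + (1 : ℝ)) rfl
    (-(xxa + (1 : ℝ))) rfl
    ((1 / 2) * xxa * (-(xxa + (1 : ℝ)))) rfl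
    rca e_rca
    bna e_bna
    (q * wn) rfl
    (q * wn * c5) rfl
    (q * wn * c5 * l2) rfl
    ((1 / 2) * (q * wn * c5 * l2)) (congrArg (fun y : ℝ => y * (q * wn * c5 * l2)) zc_549755813888_0)
    wsa e_wsa
    ((1 / 2) * wsa) (congrArg (fun y : ℝ => y * wsa) zc_549755813888_0)
    (wsa * wsa) rfl
    ((1482911 / 16777216) * (wsa * wsa)) (congrArg (fun y : ℝ => y * (wsa * wsa)) zc_97184055296_0)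
    (1482911 / 1048576 : ℝ) zc_1554944884736_0
    ((1482911 / 16777216) * (wsa * wsa) + (1482911 / 1048576 : ℝ)) rfl
    ((1 / 2) * wsa + ((1482911 / 16777216) * (wsa * wsa) + (1482911 / 1048576 : ℝ))) rfl).2
    (((1 / 2) * wsa + ((1482911 / 16777216) * (wsa * wsa) + (1482911 / 1048576 : ℝ)))⁻¹) rfl
    ba e_ba
    (ba + (1 / 2) * (q * wn * c5 * l2)) rfl).2
    iba e_iba
    (wn + iba) rfl
    Maw e_Maw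
    (2 : ℝ) zc_2199023255552_0
    (x1 + (2 : ℝ)) rfl
    (Kq * (x1 + (2 : ℝ))) rfl
    z3 (e_z3.trans (congrArg (fun y : ℝ => y * (Kq * (x1 + (2 : ℝ)))) zc_2199023255552_0))
    (z3 * z3) rfl
    (z3 * z3 * ((1 : ℝ) * (3 : ℝ)⁻¹)) rfl
    (z3 * z3 * ((1 : ℝ) * (3 : ℝ)⁻¹) + (1 : ℝ)) rfl).2
    iz3 e_iz3
    th3 e_th3
    (q6 * (x1 + (2 : ℝ))) rfl
    (q6 * (x1 + (2 : ℝ)) * iz3) rfl
    (th3 * th3) rfl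
    ((1 / 4) * (th3 * th3)) (congrArg (fun y : ℝ => y * (th3 * th3)) zc_274877906944_0)
    ((1 / 4) * (th3 * th3) + (1 : ℝ)) rfl
    l3 e_l3
    cc5 e_cc5
    (-cc5) rfl
    xxc e_xxc
    ((1 / 2) * xxc) (congrArg (fun y : ℝ => y * xxc) zc_549755813888_0)
    (xxc + (1 : ℝ)) rfl
    (-(xxc + (1 : ℝ))) rfl
    ((1 / 2) * xxc * (-(xxc + (1 : ℝ)))) rfl
    rcc e_rcc
    bnc e_bnc
    (q * wn * cc5) rfl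
    (q * wn * cc5 * l3) rfl
    ((1 / 2) * (q * wn * cc5 * l3)) (congrArg (fun y : ℝ => y * (q * wn * cc5 * l3)) zc_549755813888_0)
    wsc e_wsc
    ((1 / 2) * wsc) (congrArg (fun y : ℝ => y * wsc) zc_549755813888_0)
    (wsc * wsc) rfl
    ((1482911 / 16777216) * (wsc * wsc)) (congrArg (fun y : ℝ => y * (wsc * wsc)) zc_97184055296_0)
    ((1482911 / 16777216) * (wsc * wsc) + (1482911 / 1048576 : ℝ)) rfl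
    ((1 / 2) * wsc + ((1482911 / 16777216) * (wsc * wsc) + (1482911 / 1048576 : ℝ))) rfl).2
    (((1 / 2) * wsc + ((1482911 / 16777216) * (wsc * wsc) + (1482911 / 1048576 : ℝ)))⁻¹) rfl
    bc e_bc
    (bc + (1 / 2) * (q * wn * cc5 * l3)) rfl).2
    ibc e_ibc
    (l2 * V) rfl
    (l2 * V * m2) rfl
    (l2 * V * m2 * c5) rfl
    (q2 * (l2 * V * m2 * c5)) rfl
    (-(q2 * (l2 * V * m2 * c5))) rfl
    ub e_ub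
    (wn + ibc) rfl
    Mbw e_Mbw
    ((1 : ℝ) - X) rfl
  change 0 < (1 : ℝ) - X at p_X1
  obtain ⟨p_cG, ch4⟩ := (((ch3).2
    iX e_iX
    ((1 / 2) * X) (congrArg (fun y : ℝ => y * X) zc_549755813888_0)
    ((1 : ℝ) + (1 / 2) * X) rfl
    (X * X) rfl
    (X * X * iX) rfl
    ((174763 / 524288) * (X * X * iX)) (congrArg (fun y : ℝ => y * (X * X * iX)) zc_366504574976_0)
    LX e_LX
    uX e_uX
    ((1 / 2) * uX) (congrArg (fun y : ℝ => y * uX) zc_549755813888_0)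
    ((1 : ℝ) + (1 / 2) * uX) rfl
    (uX * uX) rfl
    ((1 : ℝ) - uX) rfl).2
    (((1 : ℝ) - uX)⁻¹) rfl
    (uX * uX * ((1 : ℝ) - uX)⁻¹) rfl
    ((174763 / 524288) * (uX * uX * ((1 : ℝ) - uX)⁻¹)) (congrArg (fun y : ℝ => y * (uX * uX * ((1 : ℝ) - uX)⁻¹)) zc_366504574976_0)
    LU e_LU).2
    im e_im
    dz e_dz
    (dzS * Mbw) rfl
    (dzS * Mbw * im) rfl
    (dz + dzS * Mbw * im) rfl
    (X * LX) rfl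
    DG e_DG
    (dzS * Maw) rfl
    (dzS * Maw * im) rfl
    (uX * LU) rfl
    DF e_DF
    (v * DG) rfl
    vDG e_vDG
    (-DG) rfl
    (123 / 128 : ℝ) zc_1056561954816_0
    ((-DG) + (123 / 128 : ℝ)) rfl
  change 0 < (-DG) + (123 / 128 : ℝ) at p_cG
  obtain ⟨p_cF, ch5⟩ := ch4
    (-DF) rfl
    ((-DF) + (123 / 128 : ℝ)) rfl
  change 0 < (-DF) + (123 / 128 : ℝ) at p_cF
  obtain ⟨p_Es, ch6⟩ := ch5
    ((1111491 / 1048576) * e2a) (congrArg (fun y : ℝ => y * e2a) zc_1165482786816_0)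
    (2 * DG) (congrArg (fun y : ℝ => y * DG) zc_2199023255552_0)
    (2 * DG + DF) rfl
    (ie * (2 * DG + DF)) rfl
    (vDG + ie * (2 * DG + DF)) rfl
    EQ e_EQ
    ER e_ER
    Qw e_Qw
    ((1 : ℝ) - Qw) rfl
  change 0 < (1 : ℝ) - Qw at p_Es
  obtain ⟨p_R1, ch7⟩ := ch6
    (2 * Qw) (congrArg (fun y : ℝ => y * Qw) zc_2199023255552_0)
    (-(2 * Qw)) rfl
    c2 e_c2
    (kv - (1 : ℝ)) rfl
    ((1 / 2) * (kv - (1 : ℝ))) (congrArg (fun y : ℝ => y * (kv - (1 : ℝ))) zc_549755813888_0)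
    s1 e_s1
    (5919 / 4096 : ℝ) zc_1588869464064_0
    (dzR + (1 : ℝ)) rfl
    ((dzR + (1 : ℝ)) * (dzR + (1 : ℝ))) rfl
    ((5919 / 4096 : ℝ) - (dzR + (1 : ℝ)) * (dzR + (1 : ℝ))) rfl
  change 0 < (5919 / 4096 : ℝ) - (dzR + (1 : ℝ)) * (dzR + (1 : ℝ)) at p_R1
  obtain ⟨p_R2, ch8⟩ := ch7
    (2509 / 1024 : ℝ) zc_2694018236416_0
    ((2509 / 1024 : ℝ) - r2V) rfl
    ((2509 / 1024 : ℝ) - r2V - EQ) rfl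
    (s1 + dzR) rfl
    (s1 + dzR + ER) rfl
    ((s1 + dzR + ER) * (s1 + dzR + ER)) rfl
    ((2509 / 1024 : ℝ) - r2V - EQ - (s1 + dzR + ER) * (s1 + dzR + ER)) rfl
  change 0 < (2509 / 1024 : ℝ) - r2V - EQ - (s1 + dzR + ER) * (s1 + dzR + ER) at p_R2
  obtain ⟨p_h9, ch9⟩ := ch8
    (m2 * c2) rfl
    ((9646899 / 1048576) * (m2 * c2)) (congrArg (fun y : ℝ => y * (m2 * c2)) zc_10115506765824_0)
    ((9646899 / 1048576) * (m2 * c2) - (2509 / 1024 : ℝ)) rfl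
  change 0 < (9646899 / 1048576) * (m2 * c2) - (2509 / 1024 : ℝ) at p_h9
  obtain ⟨p_h2, ch10⟩ := ch9
    ((471859 / 524288) * (m2 * c2)) (congrArg (fun y : ℝ => y * (m2 * c2)) zc_989560045568_0)
    ((24591 / 4096) * Vie) (congrArg (fun y : ℝ => y * Vie) zc_6601096298496_0)
    ((471859 / 524288) * (m2 * c2) - (24591 / 4096) * Vie) rfl
  change 0 < (471859 / 524288) * (m2 * c2) - (24591 / 4096) * Vie at p_h2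
  obtain ⟨p_q20, ch11⟩ := ch10
  change 0 < q2 at p_q20
  obtain ⟨p_dzS0, ch12⟩ := ch11
  change 0 < sR0 - dzR at p_dzS0
  obtain ⟨p_m0, ch13⟩ := ch12
  change 0 < m at p_m0
  obtain ⟨p_x0, ch14⟩ := (ch13
    (K * x1) rfl
    (2 * (K * x1)) (congrArg (fun y : ℝ => y * (K * x1)) zc_2199023255552_0)
    exK e_exK
    (EQ * exK) rfl
    (q6 * m2) rfl
    (q6 * m2 * ((1 : ℝ) - Qw)) rfl).2
    ((q6 * m2 * ((1 : ℝ) - Qw))⁻¹) rfl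
    d e_d
    (x1 - d) rfl
    (301 / 512 : ℝ) zc_646392578048_0
    (x1 - d - (301 / 512 : ℝ)) rfl
  change 0 < x1 - d - (301 / 512 : ℝ) at p_x0
  obtain ⟨p_Er, ch15⟩ := ch14
    (r1V - EQ) rfl
  change 0 < r1V - EQ at p_Er
  obtain ⟨p_La, ch16⟩ := ch15
    ((1 : ℝ) - 2 * Qw) rfl
    (m2 * ((1 : ℝ) - 2 * Qw)) rfl
    ((1497 / 1024) * (m2 * ((1 : ℝ) - 2 * Qw))) (congrArg (fun y : ℝ => y * (m2 * ((1 : ℝ) - 2 * Qw))) zc_1607391510528_0)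
    ((1497 / 1024) * (m2 * ((1 : ℝ) - 2 * Qw)) - r2V) rfl
    ((1497 / 1024) * (m2 * ((1 : ℝ) - 2 * Qw)) - r2V - EQ) rfl
  change 0 < (1497 / 1024) * (m2 * ((1 : ℝ) - 2 * Qw)) - r2V - EQ at p_La
  obtain ⟨p_y0, ch17⟩ := ch16
    E e_E
    (yc + E) rfl
    (-(yc + E)) rfl
    ((29 / 64) * K) (congrArg (fun y : ℝ => y * K) zc_498216206336_0)
    ((-(yc + E)) + (29 / 64) * K) rfl
    (3277 / 1024 : ℝ) zc_3518651957248_0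
    ((-(yc + E)) + (29 / 64) * K + (3277 / 1024 : ℝ)) rfl
  change 0 < (-(yc + E)) + (29 / 64) * K + (3277 / 1024 : ℝ) at p_y0
  obtain ⟨p_EM2, ch18⟩ := ((((ch17
    x2 e_x2
    (Kq * x2) rfl
    z4 (e_z4.trans (congrArg (fun y : ℝ => y * (Kq * x2)) zc_2199023255552_0))
    (z4 * z4) rfl
    (z4 * z4 * ((1 : ℝ) * (3 : ℝ)⁻¹)) rfl
    (z4 * z4 * ((1 : ℝ) * (3 : ℝ)⁻¹) + (1 : ℝ)) rfl).2
    iz4 e_iz4
    th4 e_th4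
    (q6 * x2) rfl
    (q6 * x2 * iz4) rfl
    (th4 * th4) rfl
    ((1 / 4) * (th4 * th4)) (congrArg (fun y : ℝ => y * (th4 * th4)) zc_274877906944_0)
    ((1 / 4) * (th4 * th4) + (1 : ℝ)) rfl
    l4 e_l4
    (l4 * V) rfl
    (l4 * V * m2) rfl
    (l4 * V * m2 * c2) rfl
    (q2 * (l4 * V * m2 * c2)) rfl
    (-(q2 * (l4 * V * m2 * c2))) rfl
    u1 e_u1
    (x2 + (1 : ℝ)) rfl
    (Kq * (x2 + (1 : ℝ))) rfl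
    z5 (e_z5.trans (congrArg (fun y : ℝ => y * (Kq * (x2 + (1 : ℝ)))) zc_2199023255552_0))
    (z5 * z5) rfl
    (z5 * z5 * ((1 : ℝ) * (3 : ℝ)⁻¹)) rfl
    (z5 * z5 * ((1 : ℝ) * (3 : ℝ)⁻¹) + (1 : ℝ)) rfl).2
    iz5 e_iz5
    th5 e_th5
    (q6 * (x2 + (1 : ℝ))) rfl
    (q6 * (x2 + (1 : ℝ)) * iz5) rfl
    (th5 * th5) rfl
    ((1 / 4) * (th5 * th5)) (congrArg (fun y : ℝ => y * (th5 * th5)) zc_274877906944_0)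
    ((1 / 4) * (th5 * th5) + (1 : ℝ)) rfl
    l5 e_l5
    cd5 e_cd5
    (-cd5) rfl
    xxn e_xxn
    ((1 / 2) * xxn) (congrArg (fun y : ℝ => y * xxn) zc_549755813888_0)
    (xxn + (1 : ℝ)) rfl
    (-(xxn + (1 : ℝ))) rfl
    ((1 / 2) * xxn * (-(xxn + (1 : ℝ)))) rfl
    rcn e_rcn
    bnn e_bnn
    (q * wn * cd5) rfl
    (q * wn * cd5 * l5) rfl
    ((1 / 2) * (q * wn * cd5 * l5)) (congrArg (fun y : ℝ => y * (q * wn * cd5 * l5)) zc_549755813888_0)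
    wsn e_wsn
    ((1 / 2) * wsn) (congrArg (fun y : ℝ => y * wsn) zc_549755813888_0)
    (wsn * wsn) rfl
    ((1482911 / 16777216) * (wsn * wsn)) (congrArg (fun y : ℝ => y * (wsn * wsn)) zc_97184055296_0)
    ((1482911 / 16777216) * (wsn * wsn) + (1482911 / 1048576 : ℝ)) rfl
    ((1 / 2) * wsn + ((1482911 / 16777216) * (wsn * wsn) + (1482911 / 1048576 : ℝ))) rfl).2
    (((1 / 2) * wsn + ((1482911 / 16777216) * (wsn * wsn) + (1482911 / 1048576 : ℝ)))⁻¹) rfl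
    bn e_bn
    (bn + (1 / 2) * (q * wn * cd5 * l5)) rfl).2
    ibn e_ibn
    (wn + ibn) rfl
    Mnw e_Mnw
    (EQ * w) rfl
    (EQ * w * Mnw) rfl
    (EQ * w * Mnw * im) rfl
    EM e_EM
    EMr e_EMr
    ((1 / 2) * EM) (congrArg (fun y : ℝ => y * EM) zc_549755813888_0)
    ((1 : ℝ) - (1 / 2) * EM) rfl
  change 0 < (1 : ℝ) - (1 / 2) * EM at p_EM2
  obtain ⟨p_cl, ch19⟩ := (ch18).2
    i2 e_i2
    ((1 / 2) * EM + (1 : ℝ)) rfl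
    eta e_eta
    r2w e_r2w
    (2 * kc) (congrArg (fun y : ℝ => y * kc) zc_2199023255552_0)
    (r2w + 2 * kc) rfl
    (r2w * (r2w + 2 * kc)) rfl
    DPx e_DPx
    (r2w * r2w) rfl
    (kv + r2w * r2w) rfl
    VcR e_VcR
    (DPx - (1 : ℝ)) rfl
    ((1 / 2) * (DPx - (1 : ℝ))) (congrArg (fun y : ℝ => y * (DPx - (1 : ℝ))) zc_549755813888_0)
    DPR e_DPR
    ((133 / 512) * ta) (congrArg (fun y : ℝ => y * ta) zc_285615325184_0)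
    (223 / 4096 : ℝ) zc_59861106688_0
    a0 e_a0
    (EMr * i2) rfl
    (eta * u1) rfl
    (eta * u1 * a0) rfl
    (DPR + VcR) rfl
    (DPR + VcR + ER) rfl
    (eta * u1 * a0 * (DPR + VcR + ER)) rfl
    (EMr * i2 + eta * u1 * a0 * (DPR + VcR + ER)) rfl
    (-(EMr * i2 + eta * u1 * a0 * (DPR + VcR + ER))) rfl
    ((1 / 1024) * K) (congrArg (fun y : ℝ => y * K) zc_1073741824_0)
    ((1 : ℝ) - (1 / 1024) * K) rfl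
    (((1 : ℝ) - (1 / 1024) * K) * Xc) rfl
    ((-(EMr * i2 + eta * u1 * a0 * (DPR + VcR + ER))) + ((1 : ℝ) - (1 / 1024) * K) * Xc) rfl
  change 0 < (-(EMr * i2 + eta * u1 * a0 * (DPR + VcR + ER))) + ((1 : ℝ) - (1 / 1024) * K) * Xc at p_cl
  exact ⟨⟨se, ie, K, K2, q6, Kq, Yt, Y2, wm, wm2, wse0, q, sp, v2, sg2, L, sR, kc, w, V, wse, iR, vs,
    iR2, bb, K2se, GrS, gd, svt, GtS, G2S, glf, X, rho, c5, Xc, rb, Vie, a, ea, e2a, er, h4,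
    dzS, dzR, r1V, r2V, yc, ycR, r1w, kv, x1, z, sR0, m, m2, wn, q2, z1, iz1, th1, l1, z2, iz2,
    th2, l2, lv, u, xxa, rca, bna, wsa, ba, iba, Maw, z3, iz3, th3, l3, cc5, xxc, rcc, bnc, wsc,
    bc, ibc, ub, Mbw, iX, LX, uX, LU, im, dz, DG, DF, vDG, EQ, ER, Qw, c2, s1, exK, d, E, x2,
    z4, iz4, th4, l4, u1, z5, iz5, th5, l5, cd5, xxn, rcn, bnn, wsn, bn, ibn, Mnw, EM, EMr, i2,
    eta, r2w, DPx, VcR, DPR, a0, e_se, e_ie, e_K, e_K2, e_q6, e_Kq, e_Yt, e_Y2, e_wm, e_wm2,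
    e_wse0, e_q, e_sp, e_v2, e_sg2, e_L, e_sR, e_kc, e_w, e_V, e_wse, e_iR, e_vs, e_iR2, e_bb,
    e_K2se, e_GrS, e_gd, e_svt, e_GtS, e_G2S, e_glf, e_X, e_rho, e_c5, e_Xc, e_rb, e_Vie, e_a,
    e_ea, e_e2a, e_er, e_h4, e_dzS, e_dzR, e_r1V, e_r2V, e_yc, e_ycR, e_r1w, e_kv, e_x1, e_z,
    e_sR0, e_m, e_m2, e_wn, e_q2, e_z1, e_iz1, e_th1, e_l1, e_z2, e_iz2, e_th2, e_l2, e_lv, e_u,
    e_xxa, e_rca, e_bna, e_wsa, e_ba, e_iba, e_Maw, e_z3, e_iz3, e_th3, e_l3, e_cc5, e_xxc,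
    e_rcc, e_bnc, e_wsc, e_bc, e_ibc, e_ub, e_Mbw, e_iX, e_LX, e_uX, e_LU, e_im, e_dz, e_DG,
    e_DF, e_vDG, e_EQ, e_ER, e_Qw, e_c2, e_s1, e_exK, e_d, e_E, e_x2, e_z4, e_iz4, e_th4, e_l4,
    e_u1, e_z5, e_iz5, e_th5, e_l5, e_cd5, e_xxn, e_rcn, e_bnn, e_wsn, e_bn, e_ibn, e_Mnw, e_EM,
    e_EMr, e_i2, e_eta, e_r2w, e_DPx, e_VcR, e_DPR, e_a0, p_gd, p_a1, p_x11, p_X1, p_cG, p_cF,
    p_Es, p_R1, p_R2, p_h9, p_h2, p_q20, p_dzS0, p_m0, p_x0, p_Er, p_La, p_y0, p_EM2, p_cl⟩⟩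

theorem ex_FB_1 {om ta v : ℝ} (h : RAs Cert.FB.prog1 [om, ta, v]) :
    Nonempty (PFB cFB2 om ta v) := by
  obtain ⟨se, e_se⟩ : ∃ zz : ℝ, zz = om * ta := ⟨_, rfl⟩
  obtain ⟨ie, e_ie⟩ : ∃ zz : ℝ, zz = se * se := ⟨_, rfl⟩
  obtain ⟨K, e_K⟩ : ∃ zz : ℝ, zz = om * se := ⟨_, rfl⟩
  obtain ⟨K2, e_K2⟩ : ∃ zz : ℝ, zz = K * K := ⟨_, rfl⟩
  obtain ⟨q6, e_q6⟩ : ∃ zz : ℝ, zz = (1 : ℝ) - K2 * ((1 : ℝ) * (6 : ℝ)⁻¹) := ⟨_, rfl⟩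
  obtain ⟨Kq, e_Kq⟩ : ∃ zz : ℝ, zz = K * q6 := ⟨_, rfl⟩
  obtain ⟨Yt, e_Yt⟩ : ∃ zz : ℝ, zz = (7 / 2) * ta := ⟨_, rfl⟩
  obtain ⟨Y2, e_Y2⟩ : ∃ zz : ℝ, zz = Yt * Yt := ⟨_, rfl⟩
  obtain ⟨wm, e_wm⟩ : ∃ zz : ℝ, zz = Yt * ((1 : ℝ) + Y2 * ((1 / 2 : ℝ) - (1 / 8) * Y2))⁻¹ := ⟨_, rfl⟩
  obtain ⟨wm2, e_wm2⟩ : ∃ zz : ℝ, zz = wm * wm := ⟨_, rfl⟩
  obtain ⟨wse0, e_wse0⟩ : ∃ zz : ℝ, zz = wm * se := ⟨_, rfl⟩
  obtain ⟨q, e_q⟩ : ∃ zz : ℝ, zz = (4095 / 4096 : ℝ) - (1449 / 512) * wse0 - 23 * ie - (1 / 2) * K2 := ⟨_, rfl⟩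
  obtain ⟨sp, e_sp⟩ : ∃ zz : ℝ, zz = (4095 / 4096 : ℝ) - (2899 / 2048) * wse0 - 19 * ie - (553 / 1024) * K2 := ⟨_, rfl⟩
  obtain ⟨v2, e_v2⟩ : ∃ zz : ℝ, zz = v * v := ⟨_, rfl⟩
  obtain ⟨sg2, e_sg2⟩ : ∃ zz : ℝ, zz = v2 * (ta * ta) + (1 : ℝ) := ⟨_, rfl⟩
  obtain ⟨L, e_L⟩ : ∃ zz : ℝ, zz = (1 / 2) * Real.log sg2 := ⟨_, rfl⟩
  obtain ⟨sR, e_sR⟩ : ∃ zz : ℝ, zz = Real.exp L := ⟨_, rfl⟩
  obtain ⟨kc, e_kc⟩ : ∃ zz : ℝ, zz = Real.exp (-L) := ⟨_, rfl⟩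
  obtain ⟨w, e_w⟩ : ∃ zz : ℝ, zz = om * sR := ⟨_, rfl⟩
  obtain ⟨V, e_V⟩ : ∃ zz : ℝ, zz = w * w := ⟨_, rfl⟩
  obtain ⟨wse, e_wse⟩ : ∃ zz : ℝ, zz = w * se := ⟨_, rfl⟩
  obtain ⟨iR, e_iR⟩ : ∃ zz : ℝ, zz = ta * kc := ⟨_, rfl⟩
  obtain ⟨vs, e_vs⟩ : ∃ zz : ℝ, zz = v * iR := ⟨_, rfl⟩
  obtain ⟨iR2, e_iR2⟩ : ∃ zz : ℝ, zz = iR * iR := ⟨_, rfl⟩
  obtain ⟨bb, e_bb⟩ : ∃ zz : ℝ, zz = om * om := ⟨_, rfl⟩
  obtain ⟨K2se, e_K2se⟩ : ∃ zz : ℝ, zz = bb * se := ⟨_, rfl⟩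
  obtain ⟨GrS, e_GrS⟩ : ∃ zz : ℝ, zz = (1 / 2) * om + (143913 / 524288) * se + (366181 / 524288) * iR := ⟨_, rfl⟩
  obtain ⟨gd, e_gd⟩ : ∃ zz : ℝ, zz = ((-364089 / 524288) * w + (873813 / 524288 : ℝ)) * ((366181 / 262144) * ta) + (143913 / 262144) * ta + (1 : ℝ) := ⟨_, rfl⟩
  obtain ⟨svt, e_svt⟩ : ∃ zz : ℝ, zz = se * v2 * ta * gd⁻¹ := ⟨_, rfl⟩
  obtain ⟨GtS, e_GtS⟩ : ∃ zz : ℝ, zz = GrS + svt := ⟨_, rfl⟩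
  obtain ⟨G2S, e_G2S⟩ : ∃ zz : ℝ, zz = GrS + (1 / 4) * svt := ⟨_, rfl⟩
  obtain ⟨glf, e_glf⟩ : ∃ zz : ℝ, zz = Real.exp (ie * ((838861 / 524288) * V + (363409 / 524288 : ℝ)) - (1 / 2) * Kq) := ⟨_, rfl⟩
  obtain ⟨X, e_X⟩ : ∃ zz : ℝ, zz = (1209 / 4096) * sR := ⟨_, rfl⟩
  obtain ⟨rho, e_rho⟩ : ∃ zz : ℝ, zz = (2509 / 512) * wm2 + (2509 / 2048 : ℝ) := ⟨_, rfl⟩
  obtain ⟨c5, e_c5⟩ : ∃ zz : ℝ, zz = (1 : ℝ) - 500 * (ie * ie) := ⟨_, rfl⟩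
  obtain ⟨Xc, e_Xc⟩ : ∃ zz : ℝ, zz = (1 / 4) * ((1209 / 4096) * (4 * ta + (1 : ℝ))) := ⟨_, rfl⟩
  obtain ⟨rb, e_rb⟩ : ∃ zz : ℝ, zz = iR + (1 / 4) * kc := ⟨_, rfl⟩
  obtain ⟨Vie, e_Vie⟩ : ∃ zz : ℝ, zz = V * ie := ⟨_, rfl⟩
  obtain ⟨a, e_a⟩ : ∃ zz : ℝ, zz = se * GtS + (1055 / 1024) * ie := ⟨_, rfl⟩
  obtain ⟨ea, e_ea⟩ : ∃ zz : ℝ, zz = Real.exp a := ⟨_, rfl⟩
  obtain ⟨e2a, e_e2a⟩ : ∃ zz : ℝ, zz = ea * ea := ⟨_, rfl⟩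
  obtain ⟨er, e_er⟩ : ∃ zz : ℝ, zz = ((838861 / 524288) * V + (5 / 2) * v) * ie := ⟨_, rfl⟩
  obtain ⟨h4, e_h4⟩ : ∃ zz : ℝ, zz = (1 : ℝ) - (1 / 4) * K2 := ⟨_, rfl⟩
  obtain ⟨dzS, e_dzS⟩ : ∃ zz : ℝ, zz = vs * (G2S + ea * ((1 / 2) * (se * GtS * GtS) + (149797 / 1048576) * K2se)) + w * ((3 / 2) * e2a - (3 / 2 : ℝ) + (3 / 4) * K2 + v * ie + er) + K2se * ((1 / 8) * (v * vs * ie)) := ⟨_, rfl⟩
  obtain ⟨dzR, e_dzR⟩ : ∃ zz : ℝ, zz = dzS * se := ⟨_, rfl⟩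
  obtain ⟨r1V, e_r1V⟩ : ∃ zz : ℝ, zz = h4 * ((3 : ℝ) - (3 / 2) * e2a) - (1 / 2) * (kc * kc) - vs * vs * ea - er := ⟨_, rfl⟩
  obtain ⟨r2V, e_r2V⟩ : ∃ zz : ℝ, zz = (3 / 2) * e2a - h4 * ((1 / 2) * (kc * kc)) + er := ⟨_, rfl⟩
  obtain ⟨yc, e_yc⟩ : ∃ zz : ℝ, zz = v * glf + 2 * (Vie * v * e2a) + V * er := ⟨_, rfl⟩
  obtain ⟨ycR, e_ycR⟩ : ∃ zz : ℝ, zz = vs * glf + 2 * (Vie * vs * e2a) + wse * er := ⟨_, rfl⟩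
  obtain ⟨r1w, e_r1w⟩ : ∃ zz : ℝ, zz = r1V * wse := ⟨_, rfl⟩
  obtain ⟨kv, e_kv⟩ : ∃ zz : ℝ, zz = kc * kc + ycR * ycR := ⟨_, rfl⟩
  obtain ⟨x1, e_x1⟩ : ∃ zz : ℝ, zz = (1023 / 1024) * r1V * (kv + r1w * r1w)⁻¹ := ⟨_, rfl⟩
  obtain ⟨z, e_z⟩ : ∃ zz : ℝ, zz = 2 * (vs * vs * Vie) := ⟨_, rfl⟩
  obtain ⟨sR0, e_sR0⟩ : ∃ zz : ℝ, zz = (1 : ℝ) - z := ⟨_, rfl⟩
  obtain ⟨m, e_m⟩ : ∃ zz : ℝ, zz = sR0 - dzR - dzR * dzR := ⟨_, rfl⟩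
  obtain ⟨m2, e_m2⟩ : ∃ zz : ℝ, zz = m * m := ⟨_, rfl⟩
  obtain ⟨wn, e_wn⟩ : ∃ zz : ℝ, zz = w * m := ⟨_, rfl⟩
  obtain ⟨q2, e_q2⟩ : ∃ zz : ℝ, zz = q - 8 * ie - Vie * rho := ⟨_, rfl⟩
  obtain ⟨z1, e_z1⟩ : ∃ zz : ℝ, zz = 2 * (Kq * x1) := ⟨_, rfl⟩
  obtain ⟨iz1, e_iz1⟩ : ∃ zz : ℝ, zz = (z1 * z1 * ((1 : ℝ) * (3 : ℝ)⁻¹) + (1 : ℝ))⁻¹ := ⟨_, rfl⟩
  obtain ⟨th1, e_th1⟩ : ∃ zz : ℝ, zz = z1 * iz1 := ⟨_, rfl⟩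
  obtain ⟨l1, e_l1⟩ : ∃ zz : ℝ, zz = q6 * x1 * iz1 * ((1 / 4) * (th1 * th1) + (1 : ℝ)) := ⟨_, rfl⟩
  obtain ⟨z2, e_z2⟩ : ∃ zz : ℝ, zz = 2 * (Kq * (x1 + (1 : ℝ))) := ⟨_, rfl⟩
  obtain ⟨iz2, e_iz2⟩ : ∃ zz : ℝ, zz = (z2 * z2 * ((1 : ℝ) * (3 : ℝ)⁻¹) + (1 : ℝ))⁻¹ := ⟨_, rfl⟩
  obtain ⟨th2, e_th2⟩ : ∃ zz : ℝ, zz = z2 * iz2 := ⟨_, rfl⟩
  obtain ⟨l2, e_l2⟩ : ∃ zz : ℝ, zz = q6 * (x1 + (1 : ℝ)) * iz2 * ((1 / 4) * (th2 * th2) + (1 : ℝ)) := ⟨_, rfl⟩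
  obtain ⟨lv, e_lv⟩ : ∃ zz : ℝ, zz = l1 * V * m2 := ⟨_, rfl⟩
  obtain ⟨u, e_u⟩ : ∃ zz : ℝ, zz = Real.exp (-(q2 * lv)) := ⟨_, rfl⟩
  obtain ⟨xxa, e_xxa⟩ : ∃ zz : ℝ, zz = (-c5) + (1 : ℝ) := ⟨_, rfl⟩
  obtain ⟨rca, e_rca⟩ : ∃ zz : ℝ, zz = (1 / 2) * xxa * (-(xxa + (1 : ℝ))) + (1 : ℝ) := ⟨_, rfl⟩
  obtain ⟨bna, e_bna⟩ : ∃ zz : ℝ, zz = sp * rca := ⟨_, rfl⟩
  obtain ⟨wsa, e_wsa⟩ : ∃ zz : ℝ, zz = bna * wn := ⟨_, rfl⟩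
  obtain ⟨ba, e_ba⟩ : ∃ zz : ℝ, zz = bna * ((1 / 2) * wsa + ((1482911 / 16777216) * (wsa * wsa) + (1482911 / 1048576 : ℝ)))⁻¹ := ⟨_, rfl⟩
  obtain ⟨iba, e_iba⟩ : ∃ zz : ℝ, zz = (ba + (1 / 2) * (q * wn * c5 * l2))⁻¹ := ⟨_, rfl⟩
  obtain ⟨Maw, e_Maw⟩ : ∃ zz : ℝ, zz = u * (wn + iba) := ⟨_, rfl⟩
  obtain ⟨z3, e_z3⟩ : ∃ zz : ℝ, zz = 2 * (Kq * (x1 + (2 : ℝ))) := ⟨_, rfl⟩
  obtain ⟨iz3, e_iz3⟩ : ∃ zz : ℝ, zz = (z3 * z3 * ((1 : ℝ) * (3 : ℝ)⁻¹) + (1 : ℝ))⁻¹ := ⟨_, rfl⟩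
  obtain ⟨th3, e_th3⟩ : ∃ zz : ℝ, zz = z3 * iz3 := ⟨_, rfl⟩
  obtain ⟨l3, e_l3⟩ : ∃ zz : ℝ, zz = q6 * (x1 + (2 : ℝ)) * iz3 * ((1 / 4) * (th3 * th3) + (1 : ℝ)) := ⟨_, rfl⟩
  obtain ⟨cc5, e_cc5⟩ : ∃ zz : ℝ, zz = c5 * c5 := ⟨_, rfl⟩
  obtain ⟨xxc, e_xxc⟩ : ∃ zz : ℝ, zz = (-cc5) + (1 : ℝ) := ⟨_, rfl⟩
  obtain ⟨rcc, e_rcc⟩ : ∃ zz : ℝ, zz = (1 / 2) * xxc * (-(xxc + (1 : ℝ))) + (1 : ℝ) := ⟨_, rfl⟩
  obtain ⟨bnc, e_bnc⟩ : ∃ zz : ℝ, zz = sp * rcc := ⟨_, rfl⟩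
  obtain ⟨wsc, e_wsc⟩ : ∃ zz : ℝ, zz = bnc * wn := ⟨_, rfl⟩
  obtain ⟨bc, e_bc⟩ : ∃ zz : ℝ, zz = bnc * ((1 / 2) * wsc + ((1482911 / 16777216) * (wsc * wsc) + (1482911 / 1048576 : ℝ)))⁻¹ := ⟨_, rfl⟩
  obtain ⟨ibc, e_ibc⟩ : ∃ zz : ℝ, zz = (bc + (1 / 2) * (q * wn * cc5 * l3))⁻¹ := ⟨_, rfl⟩
  obtain ⟨ub, e_ub⟩ : ∃ zz : ℝ, zz = Real.exp (-(q2 * (l2 * V * m2 * c5))) := ⟨_, rfl⟩
  obtain ⟨Mbw, e_Mbw⟩ : ∃ zz : ℝ, zz = ub * (wn + ibc) := ⟨_, rfl⟩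
  obtain ⟨iX, e_iX⟩ : ∃ zz : ℝ, zz = ((1 : ℝ) - X)⁻¹ := ⟨_, rfl⟩
  obtain ⟨LX, e_LX⟩ : ∃ zz : ℝ, zz = (1 : ℝ) + (1 / 2) * X + (174763 / 524288) * (X * X * iX) := ⟨_, rfl⟩
  obtain ⟨uX, e_uX⟩ : ∃ zz : ℝ, zz = u * X := ⟨_, rfl⟩
  obtain ⟨LU, e_LU⟩ : ∃ zz : ℝ, zz = (1 : ℝ) + (1 / 2) * uX + (174763 / 524288) * (uX * uX * ((1 : ℝ) - uX)⁻¹) := ⟨_, rfl⟩
  obtain ⟨im, e_im⟩ : ∃ zz : ℝ, zz = m⁻¹ := ⟨_, rfl⟩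
  obtain ⟨dz, e_dz⟩ : ∃ zz : ℝ, zz = dzS * w := ⟨_, rfl⟩
  obtain ⟨DG, e_DG⟩ : ∃ zz : ℝ, zz = dz + dzS * Mbw * im + X * LX := ⟨_, rfl⟩
  obtain ⟨DF, e_DF⟩ : ∃ zz : ℝ, zz = dzS * Maw * im + uX * LU := ⟨_, rfl⟩
  obtain ⟨vDG, e_vDG⟩ : ∃ zz : ℝ, zz = v * DG * iR2 := ⟨_, rfl⟩
  obtain ⟨EQ, e_EQ⟩ : ∃ zz : ℝ, zz = (1111491 / 1048576) * e2a * (vDG + ie * (2 * DG + DF)) := ⟨_, rfl⟩
  obtain ⟨ER, e_ER⟩ : ∃ zz : ℝ, zz = EQ * wse := ⟨_, rfl⟩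
  obtain ⟨Qw, e_Qw⟩ : ∃ zz : ℝ, zz = ER * im := ⟨_, rfl⟩
  obtain ⟨c2, e_c2⟩ : ∃ zz : ℝ, zz = (-(2 * Qw)) + c5 := ⟨_, rfl⟩
  obtain ⟨s1, e_s1⟩ : ∃ zz : ℝ, zz = (1 / 2) * (kv - (1 : ℝ)) + (1 : ℝ) := ⟨_, rfl⟩
  obtain ⟨exK, e_exK⟩ : ∃ zz : ℝ, zz = Real.exp (2 * (K * x1)) := ⟨_, rfl⟩
  obtain ⟨d, e_d⟩ : ∃ zz : ℝ, zz = EQ * exK * (q6 * m2 * ((1 : ℝ) - Qw))⁻¹ := ⟨_, rfl⟩
  obtain ⟨E, e_E⟩ : ∃ zz : ℝ, zz = EQ * V := ⟨_, rfl⟩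
  obtain ⟨x2, e_x2⟩ : ∃ zz : ℝ, zz = x1 - d + (1 : ℝ) := ⟨_, rfl⟩
  obtain ⟨z4, e_z4⟩ : ∃ zz : ℝ, zz = 2 * (Kq * x2) := ⟨_, rfl⟩
  obtain ⟨iz4, e_iz4⟩ : ∃ zz : ℝ, zz = (z4 * z4 * ((1 : ℝ) * (3 : ℝ)⁻¹) + (1 : ℝ))⁻¹ := ⟨_, rfl⟩
  obtain ⟨th4, e_th4⟩ : ∃ zz : ℝ, zz = z4 * iz4 := ⟨_, rfl⟩
  obtain ⟨l4, e_l4⟩ : ∃ zz : ℝ, zz = q6 * x2 * iz4 * ((1 / 4) * (th4 * th4) + (1 : ℝ)) := ⟨_, rfl⟩
  obtain ⟨u1, e_u1⟩ : ∃ zz : ℝ, zz = Real.exp (-(q2 * (l4 * V * m2 * c2))) := ⟨_, rfl⟩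
  obtain ⟨z5, e_z5⟩ : ∃ zz : ℝ, zz = 2 * (Kq * (x2 + (1 : ℝ))) := ⟨_, rfl⟩
  obtain ⟨iz5, e_iz5⟩ : ∃ zz : ℝ, zz = (z5 * z5 * ((1 : ℝ) * (3 : ℝ)⁻¹) + (1 : ℝ))⁻¹ := ⟨_, rfl⟩
  obtain ⟨th5, e_th5⟩ : ∃ zz : ℝ, zz = z5 * iz5 := ⟨_, rfl⟩
  obtain ⟨l5, e_l5⟩ : ∃ zz : ℝ, zz = q6 * (x2 + (1 : ℝ)) * iz5 * ((1 / 4) * (th5 * th5) + (1 : ℝ)) := ⟨_, rfl⟩
  obtain ⟨cd5, e_cd5⟩ : ∃ zz : ℝ, zz = c2 * c5 := ⟨_, rfl⟩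
  obtain ⟨xxn, e_xxn⟩ : ∃ zz : ℝ, zz = (-cd5) + (1 : ℝ) := ⟨_, rfl⟩
  obtain ⟨rcn, e_rcn⟩ : ∃ zz : ℝ, zz = (1 / 2) * xxn * (-(xxn + (1 : ℝ))) + (1 : ℝ) := ⟨_, rfl⟩
  obtain ⟨bnn, e_bnn⟩ : ∃ zz : ℝ, zz = sp * rcn := ⟨_, rfl⟩
  obtain ⟨wsn, e_wsn⟩ : ∃ zz : ℝ, zz = bnn * wn := ⟨_, rfl⟩
  obtain ⟨bn, e_bn⟩ : ∃ zz : ℝ, zz = bnn * ((1 / 2) * wsn + ((1482911 / 16777216) * (wsn * wsn) + (1482911 / 1048576 : ℝ)))⁻¹ := ⟨_, rfl⟩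
  obtain ⟨ibn, e_ibn⟩ : ∃ zz : ℝ, zz = (bn + (1 / 2) * (q * wn * cd5 * l5))⁻¹ := ⟨_, rfl⟩
  obtain ⟨Mnw, e_Mnw⟩ : ∃ zz : ℝ, zz = u1 * (wn + ibn) := ⟨_, rfl⟩
  obtain ⟨EM, e_EM⟩ : ∃ zz : ℝ, zz = E + EQ * w * Mnw * im := ⟨_, rfl⟩
  obtain ⟨EMr, e_EMr⟩ : ∃ zz : ℝ, zz = EM * rb := ⟨_, rfl⟩
  obtain ⟨i2, e_i2⟩ : ∃ zz : ℝ, zz = ((1 : ℝ) - (1 / 2) * EM)⁻¹ := ⟨_, rfl⟩
  obtain ⟨eta, e_eta⟩ : ∃ zz : ℝ, zz = ((1 / 2) * EM + (1 : ℝ)) * i2 := ⟨_, rfl⟩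
  obtain ⟨r2w, e_r2w⟩ : ∃ zz : ℝ, zz = r2V * wse := ⟨_, rfl⟩
  obtain ⟨DPx, e_DPx⟩ : ∃ zz : ℝ, zz = kv + r2w * (r2w + 2 * kc) := ⟨_, rfl⟩
  obtain ⟨VcR, e_VcR⟩ : ∃ zz : ℝ, zz = wse * (kv + r2w * r2w) := ⟨_, rfl⟩
  obtain ⟨DPR, e_DPR⟩ : ∃ zz : ℝ, zz = (1 / 2) * (DPx - (1 : ℝ)) + (1 : ℝ) := ⟨_, rfl⟩
  obtain ⟨a0, e_a0⟩ : ∃ zz : ℝ, zz = (133 / 512) * ta + (223 / 4096 : ℝ) := ⟨_, rfl⟩
  obtain ⟨p_gd, ch0⟩ := ((((h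
    (1 : ℝ) zc_1099511627776_0
    (3 : ℝ) zc_3298534883328_0).2
    ((3 : ℝ)⁻¹) rfl
    ((1 : ℝ) * (3 : ℝ)⁻¹) rfl
    se e_se
    ie e_ie
    K e_K
    K2 e_K2
    (6 : ℝ) zc_6597069766656_0).2
    ((6 : ℝ)⁻¹) rfl
    ((1 : ℝ) * (6 : ℝ)⁻¹) rfl
    (K2 * ((1 : ℝ) * (6 : ℝ)⁻¹)) rfl
    q6 e_q6
    Kq e_Kq
    Yt (e_Yt.trans (congrArg (fun y : ℝ => y * ta) zc_3848290697216_0))
    Y2 e_Y2
    (1 / 2 : ℝ) zc_549755813888_0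
    ((1 / 8) * Y2) (congrArg (fun y : ℝ => y * Y2) zc_137438953472_0)
    ((1 / 2 : ℝ) - (1 / 8) * Y2) rfl
    (Y2 * ((1 / 2 : ℝ) - (1 / 8) * Y2)) rfl
    ((1 : ℝ) + Y2 * ((1 / 2 : ℝ) - (1 / 8) * Y2)) rfl).2
    (((1 : ℝ) + Y2 * ((1 / 2 : ℝ) - (1 / 8) * Y2))⁻¹) rfl
    wm e_wm
    wm2 e_wm2
    wse0 e_wse0
    (4095 / 4096 : ℝ) zc_1099243192320_0
    ((1449 / 512) * wse0) (congrArg (fun y : ℝ => y * wse0) zc_3111703805952_0)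
    ((4095 / 4096 : ℝ) - (1449 / 512) * wse0) rfl
    (23 * ie) (congrArg (fun y : ℝ => y * ie) zc_25288767438848_0)
    ((4095 / 4096 : ℝ) - (1449 / 512) * wse0 - 23 * ie) rfl
    ((1 / 2) * K2) (congrArg (fun y : ℝ => y * K2) zc_549755813888_0)
    q e_q
    ((2899 / 2048) * wse0) (congrArg (fun y : ℝ => y * wse0) zc_1556388773888_0)
    ((4095 / 4096 : ℝ) - (2899 / 2048) * wse0) rfl
    (19 * ie) (congrArg (fun y : ℝ => y * ie) zc_20890720927744_0)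
    ((4095 / 4096 : ℝ) - (2899 / 2048) * wse0 - 19 * ie) rfl
    ((553 / 1024) * K2) (congrArg (fun y : ℝ => y * K2) zc_593779228672_0)
    sp e_sp
    v2 e_v2
    (ta * ta) rfl
    (v2 * (ta * ta)) rfl
    sg2 e_sg2).2
    (Real.log sg2) rfl
    L (e_L.trans (congrArg (fun y : ℝ => y * Real.log sg2) zc_549755813888_0))
    sR e_sR
    (-L) rfl
    kc e_kc
    w e_w
    V e_V
    wse e_wse
    iR e_iR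
    vs e_vs
    iR2 e_iR2
    bb e_bb
    K2se e_K2se
    ((1 / 2) * om) (congrArg (fun y : ℝ => y * om) zc_549755813888_0)
    ((143913 / 524288) * se) (congrArg (fun y : ℝ => y * se) zc_301807435776_0)
    ((1 / 2) * om + (143913 / 524288) * se) rfl
    ((366181 / 524288) * iR) (congrArg (fun y : ℝ => y * iR) zc_767937216512_0)
    GrS e_GrS
    ((-364089 / 524288) * w) (congrArg (fun y : ℝ => y * w) zc_0_763549974528)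
    (873813 / 524288 : ℝ) zc_1832518680576_0
    ((-364089 / 524288) * w + (873813 / 524288 : ℝ)) rfl
    ((366181 / 262144) * ta) (congrArg (fun y : ℝ => y * ta) zc_1535874433024_0)
    (((-364089 / 524288) * w + (873813 / 524288 : ℝ)) * ((366181 / 262144) * ta)) rfl
    ((143913 / 262144) * ta) (congrArg (fun y : ℝ => y * ta) zc_603614871552_0)
    (((-364089 / 524288) * w + (873813 / 524288 : ℝ)) * ((366181 / 262144) * ta) + (143913 / 262144) * ta) rfl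
    gd e_gd
  change 0 < gd at p_gd
  obtain ⟨p_a1, ch1⟩ := (ch0
    (se * v2) rfl
    (se * v2 * ta) rfl).2
    (gd⁻¹) rfl
    svt e_svt
    GtS e_GtS
    ((1 / 4) * svt) (congrArg (fun y : ℝ => y * svt) zc_274877906944_0)
    G2S e_G2S
    ((838861 / 524288) * V) (congrArg (fun y : ℝ => y * V) zc_1759219023872_0)
    (363409 / 524288 : ℝ) zc_762123911168_0
    ((838861 / 524288) * V + (363409 / 524288 : ℝ)) rfl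
    (ie * ((838861 / 524288) * V + (363409 / 524288 : ℝ))) rfl
    ((1 / 2) * Kq) (congrArg (fun y : ℝ => y * Kq) zc_549755813888_0)
    (ie * ((838861 / 524288) * V + (363409 / 524288 : ℝ)) - (1 / 2) * Kq) rfl
    glf e_glf
    X (e_X.trans (congrArg (fun y : ℝ => y * sR) zc_324538466304_0))
    ((2509 / 512) * wm2) (congrArg (fun y : ℝ => y * wm2) zc_5388036472832_0)
    (2509 / 2048 : ℝ) zc_1347009118208_0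
    rho e_rho
    (ie * ie) rfl
    (500 * (ie * ie)) (congrArg (fun y : ℝ => y * (ie * ie)) zc_549755813888000_0)
    c5 e_c5
    (4 * ta) (congrArg (fun y : ℝ => y * ta) zc_4398046511104_0)
    (4 * ta + (1 : ℝ)) rfl
    ((1209 / 4096) * (4 * ta + (1 : ℝ))) (congrArg (fun y : ℝ => y * (4 * ta + (1 : ℝ))) zc_324538466304_0)
    Xc (e_Xc.trans (congrArg (fun y : ℝ => y * ((1209 / 4096) * (4 * ta + (1 : ℝ)))) zc_274877906944_0))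
    ((1 / 4) * kc) (congrArg (fun y : ℝ => y * kc) zc_274877906944_0)
    rb e_rb
    Vie e_Vie
    (se * GtS) rfl
    ((1055 / 1024) * ie) (congrArg (fun y : ℝ => y * ie) zc_1132797624320_0)
    a e_a
    ea e_ea
    e2a e_e2a
    (-a) rfl
    (29127 / 524288 : ℝ) zc_61083746304_0
    ((-a) + (29127 / 524288 : ℝ)) rfl
  change 0 < (-a) + (29127 / 524288 : ℝ) at p_a1
  obtain ⟨p_x11, ch2⟩ := (ch1
    ((5 / 2) * v) (congrArg (fun y : ℝ => y * v) zc_2748779069440_0)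
    ((838861 / 524288) * V + (5 / 2) * v) rfl
    er e_er
    ((1 / 4) * K2) (congrArg (fun y : ℝ => y * K2) zc_274877906944_0)
    h4 e_h4
    (se * GtS * GtS) rfl
    ((1 / 2) * (se * GtS * GtS)) (congrArg (fun y : ℝ => y * (se * GtS * GtS)) zc_549755813888_0)
    ((149797 / 1048576) * K2se) (congrArg (fun y : ℝ => y * K2se) zc_157073539072_0)
    ((1 / 2) * (se * GtS * GtS) + (149797 / 1048576) * K2se) rfl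
    (ea * ((1 / 2) * (se * GtS * GtS) + (149797 / 1048576) * K2se)) rfl
    (G2S + ea * ((1 / 2) * (se * GtS * GtS) + (149797 / 1048576) * K2se)) rfl
    (vs * (G2S + ea * ((1 / 2) * (se * GtS * GtS) + (149797 / 1048576) * K2se))) rfl
    ((3 / 2) * e2a) (congrArg (fun y : ℝ => y * e2a) zc_1649267441664_0)
    (3 / 2 : ℝ) zc_1649267441664_0
    ((3 / 2) * e2a - (3 / 2 : ℝ)) rfl
    ((3 / 4) * K2) (congrArg (fun y : ℝ => y * K2) zc_824633720832_0)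
    ((3 / 2) * e2a - (3 / 2 : ℝ) + (3 / 4) * K2) rfl
    (v * ie) rfl
    ((3 / 2) * e2a - (3 / 2 : ℝ) + (3 / 4) * K2 + v * ie) rfl
    ((3 / 2) * e2a - (3 / 2 : ℝ) + (3 / 4) * K2 + v * ie + er) rfl
    (w * ((3 / 2) * e2a - (3 / 2 : ℝ) + (3 / 4) * K2 + v * ie + er)) rfl
    (vs * (G2S + ea * ((1 / 2) * (se * GtS * GtS) + (149797 / 1048576) * K2se)) + w * ((3 / 2) * e2a - (3 / 2 : ℝ) + (3 / 4) * K2 + v * ie + er)) rfl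
    (v * vs) rfl
    (v * vs * ie) rfl
    ((1 / 8) * (v * vs * ie)) (congrArg (fun y : ℝ => y * (v * vs * ie)) zc_137438953472_0)
    (K2se * ((1 / 8) * (v * vs * ie))) rfl
    dzS e_dzS
    dzR e_dzR
    ((3 : ℝ) - (3 / 2) * e2a) rfl
    (h4 * ((3 : ℝ) - (3 / 2) * e2a)) rfl
    (kc * kc) rfl
    ((1 / 2) * (kc * kc)) (congrArg (fun y : ℝ => y * (kc * kc)) zc_549755813888_0)
    (h4 * ((3 : ℝ) - (3 / 2) * e2a) - (1 / 2) * (kc * kc)) rfl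
    (vs * vs) rfl
    (vs * vs * ea) rfl
    (h4 * ((3 : ℝ) - (3 / 2) * e2a) - (1 / 2) * (kc * kc) - vs * vs * ea) rfl
    r1V e_r1V
    (h4 * ((1 / 2) * (kc * kc))) rfl
    ((3 / 2) * e2a - h4 * ((1 / 2) * (kc * kc))) rfl
    r2V e_r2V
    (v * glf) rfl
    (Vie * v) rfl
    (Vie * v * e2a) rfl
    (2 * (Vie * v * e2a)) (congrArg (fun y : ℝ => y * (Vie * v * e2a)) zc_2199023255552_0)
    (v * glf + 2 * (Vie * v * e2a)) rfl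
    (V * er) rfl
    yc e_yc
    (vs * glf) rfl
    (Vie * vs) rfl
    (Vie * vs * e2a) rfl
    (2 * (Vie * vs * e2a)) (congrArg (fun y : ℝ => y * (Vie * vs * e2a)) zc_2199023255552_0)
    (vs * glf + 2 * (Vie * vs * e2a)) rfl
    (wse * er) rfl
    ycR e_ycR
    r1w e_r1w
    (ycR * ycR) rfl
    kv e_kv
    ((1023 / 1024) * r1V) (congrArg (fun y : ℝ => y * r1V) zc_1098437885952_0)
    (r1w * r1w) rfl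
    (kv + r1w * r1w) rfl).2
    ((kv + r1w * r1w)⁻¹) rfl
    x1 e_x1
    (-x1) rfl
    ((-x1) + (1 : ℝ)) rfl
  change 0 < (-x1) + (1 : ℝ) at p_x11
  obtain ⟨p_X1, ch3⟩ := (((((((ch2
    (vs * vs * Vie) rfl
    z (e_z.trans (congrArg (fun y : ℝ => y * (vs * vs * Vie)) zc_2199023255552_0))
    sR0 e_sR0
    (sR0 - dzR) rfl
    (dzR * dzR) rfl
    m e_m
    m2 e_m2
    wn e_wn
    (8 * ie) (congrArg (fun y : ℝ => y * ie) zc_8796093022208_0)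
    (q - 8 * ie) rfl
    (Vie * rho) rfl
    q2 e_q2
    (Kq * x1) rfl
    z1 (e_z1.trans (congrArg (fun y : ℝ => y * (Kq * x1)) zc_2199023255552_0))
    (z1 * z1) rfl
    (z1 * z1 * ((1 : ℝ) * (3 : ℝ)⁻¹)) rfl
    (z1 * z1 * ((1 : ℝ) * (3 : ℝ)⁻¹) + (1 : ℝ)) rfl).2
    iz1 e_iz1
    th1 e_th1
    (q6 * x1) rfl
    (q6 * x1 * iz1) rfl
    (th1 * th1) rfl
    ((1 / 4) * (th1 * th1)) (congrArg (fun y : ℝ => y * (th1 * th1)) zc_274877906944_0)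
    ((1 / 4) * (th1 * th1) + (1 : ℝ)) rfl
    l1 e_l1
    (x1 + (1 : ℝ)) rfl
    (Kq * (x1 + (1 : ℝ))) rfl
    z2 (e_z2.trans (congrArg (fun y : ℝ => y * (Kq * (x1 + (1 : ℝ)))) zc_2199023255552_0))
    (z2 * z2) rfl
    (z2 * z2 * ((1 : ℝ) * (3 : ℝ)⁻¹)) rfl
    (z2 * z2 * ((1 : ℝ) * (3 : ℝ)⁻¹) + (1 : ℝ)) rfl).2
    iz2 e_iz2
    th2 e_th2
    (q6 * (x1 + (1 : ℝ))) rfl
    (q6 * (x1 + (1 : ℝ)) * iz2) rfl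
    (th2 * th2) rfl
    ((1 / 4) * (th2 * th2)) (congrArg (fun y : ℝ => y * (th2 * th2)) zc_274877906944_0)
    ((1 / 4) * (th2 * th2) + (1 : ℝ)) rfl
    l2 e_l2
    (l1 * V) rfl
    lv e_lv
    (q2 * lv) rfl
    (-(q2 * lv)) rfl
    u e_u
    (-c5) rfl
    xxa e_xxa
    ((1 / 2) * xxa) (congrArg (fun y : ℝ => y * xxa) zc_549755813888_0)
    (xxa + (1 : ℝ)) rfl
    (-(xxa + (1 : ℝ))) rfl
    ((1 / 2) * xxa * (-(xxa + (1 : ℝ)))) rfl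
    rca e_rca
    bna e_bna
    (q * wn) rfl
    (q * wn * c5) rfl
    (q * wn * c5 * l2) rfl
    ((1 / 2) * (q * wn * c5 * l2)) (congrArg (fun y : ℝ => y * (q * wn * c5 * l2)) zc_549755813888_0)
    wsa e_wsa
    ((1 / 2) * wsa) (congrArg (fun y : ℝ => y * wsa) zc_549755813888_0)
    (wsa * wsa) rfl
    ((1482911 / 16777216) * (wsa * wsa)) (congrArg (fun y : ℝ => y * (wsa * wsa)) zc_97184055296_0)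
    (1482911 / 1048576 : ℝ) zc_1554944884736_0
    ((1482911 / 16777216) * (wsa * wsa) + (1482911 / 1048576 : ℝ)) rfl
    ((1 / 2) * wsa + ((1482911 / 16777216) * (wsa * wsa) + (1482911 / 1048576 : ℝ))) rfl).2
    (((1 / 2) * wsa + ((1482911 / 16777216) * (wsa * wsa) + (1482911 / 1048576 : ℝ)))⁻¹) rfl
    ba e_ba
    (ba + (1 / 2) * (q * wn * c5 * l2)) rfl).2
    iba e_iba
    (wn + iba) rfl
    Maw e_Maw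
    (2 : ℝ) zc_2199023255552_0
    (x1 + (2 : ℝ)) rfl
    (Kq * (x1 + (2 : ℝ))) rfl
    z3 (e_z3.trans (congrArg (fun y : ℝ => y * (Kq * (x1 + (2 : ℝ)))) zc_2199023255552_0))
    (z3 * z3) rfl
    (z3 * z3 * ((1 : ℝ) * (3 : ℝ)⁻¹)) rfl
    (z3 * z3 * ((1 : ℝ) * (3 : ℝ)⁻¹) + (1 : ℝ)) rfl).2
    iz3 e_iz3
    th3 e_th3
    (q6 * (x1 + (2 : ℝ))) rfl
    (q6 * (x1 + (2 : ℝ)) * iz3) rfl
    (th3 * th3) rfl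
    ((1 / 4) * (th3 * th3)) (congrArg (fun y : ℝ => y * (th3 * th3)) zc_274877906944_0)
    ((1 / 4) * (th3 * th3) + (1 : ℝ)) rfl
    l3 e_l3
    cc5 e_cc5
    (-cc5) rfl
    xxc e_xxc
    ((1 / 2) * xxc) (congrArg (fun y : ℝ => y * xxc) zc_549755813888_0)
    (xxc + (1 : ℝ)) rfl
    (-(xxc + (1 : ℝ))) rfl
    ((1 / 2) * xxc * (-(xxc + (1 : ℝ)))) rfl
    rcc e_rcc
    bnc e_bnc
    (q * wn * cc5) rfl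
    (q * wn * cc5 * l3) rfl
    ((1 / 2) * (q * wn * cc5 * l3)) (congrArg (fun y : ℝ => y * (q * wn * cc5 * l3)) zc_549755813888_0)
    wsc e_wsc
    ((1 / 2) * wsc) (congrArg (fun y : ℝ => y * wsc) zc_549755813888_0)
    (wsc * wsc) rfl
    ((1482911 / 16777216) * (wsc * wsc)) (congrArg (fun y : ℝ => y * (wsc * wsc)) zc_97184055296_0)
    ((1482911 / 16777216) * (wsc * wsc) + (1482911 / 1048576 : ℝ)) rfl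
    ((1 / 2) * wsc + ((1482911 / 16777216) * (wsc * wsc) + (1482911 / 1048576 : ℝ))) rfl).2
    (((1 / 2) * wsc + ((1482911 / 16777216) * (wsc * wsc) + (1482911 / 1048576 : ℝ)))⁻¹) rfl
    bc e_bc
    (bc + (1 / 2) * (q * wn * cc5 * l3)) rfl).2
    ibc e_ibc
    (l2 * V) rfl
    (l2 * V * m2) rfl
    (l2 * V * m2 * c5) rfl
    (q2 * (l2 * V * m2 * c5)) rfl
    (-(q2 * (l2 * V * m2 * c5))) rfl
    ub e_ub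
    (wn + ibc) rfl
    Mbw e_Mbw
    ((1 : ℝ) - X) rfl
  change 0 < (1 : ℝ) - X at p_X1
  obtain ⟨p_cG, ch4⟩ := (((ch3).2
    iX e_iX
    ((1 / 2) * X) (congrArg (fun y : ℝ => y * X) zc_549755813888_0)
    ((1 : ℝ) + (1 / 2) * X) rfl
    (X * X) rfl
    (X * X * iX) rfl
    ((174763 / 524288) * (X * X * iX)) (congrArg (fun y : ℝ => y * (X * X * iX)) zc_366504574976_0)
    LX e_LX
    uX e_uX
    ((1 / 2) * uX) (congrArg (fun y : ℝ => y * uX) zc_549755813888_0)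
    ((1 : ℝ) + (1 / 2) * uX) rfl
    (uX * uX) rfl
    ((1 : ℝ) - uX) rfl).2
    (((1 : ℝ) - uX)⁻¹) rfl
    (uX * uX * ((1 : ℝ) - uX)⁻¹) rfl
    ((174763 / 524288) * (uX * uX * ((1 : ℝ) - uX)⁻¹)) (congrArg (fun y : ℝ => y * (uX * uX * ((1 : ℝ) - uX)⁻¹)) zc_366504574976_0)
    LU e_LU).2
    im e_im
    dz e_dz
    (dzS * Mbw) rfl
    (dzS * Mbw * im) rfl
    (dz + dzS * Mbw * im) rfl
    (X * LX) rfl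
    DG e_DG
    (dzS * Maw) rfl
    (dzS * Maw * im) rfl
    (uX * LU) rfl
    DF e_DF
    (v * DG) rfl
    vDG e_vDG
    (-DG) rfl
    (1055 / 1024 : ℝ) zc_1132797624320_0
    ((-DG) + (1055 / 1024 : ℝ)) rfl
  change 0 < (-DG) + (1055 / 1024 : ℝ) at p_cG
  obtain ⟨p_cF, ch5⟩ := ch4
    (-DF) rfl
    ((-DF) + (1055 / 1024 : ℝ)) rfl
  change 0 < (-DF) + (1055 / 1024 : ℝ) at p_cF
  obtain ⟨p_Es, ch6⟩ := ch5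
    ((1111491 / 1048576) * e2a) (congrArg (fun y : ℝ => y * e2a) zc_1165482786816_0)
    (2 * DG) (congrArg (fun y : ℝ => y * DG) zc_2199023255552_0)
    (2 * DG + DF) rfl
    (ie * (2 * DG + DF)) rfl
    (vDG + ie * (2 * DG + DF)) rfl
    EQ e_EQ
    ER e_ER
    Qw e_Qw
    ((1 : ℝ) - Qw) rfl
  change 0 < (1 : ℝ) - Qw at p_Es
  obtain ⟨p_R1, ch7⟩ := ch6
    (2 * Qw) (congrArg (fun y : ℝ => y * Qw) zc_2199023255552_0)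
    (-(2 * Qw)) rfl
    c2 e_c2
    (kv - (1 : ℝ)) rfl
    ((1 / 2) * (kv - (1 : ℝ))) (congrArg (fun y : ℝ => y * (kv - (1 : ℝ))) zc_549755813888_0)
    s1 e_s1
    (5919 / 4096 : ℝ) zc_1588869464064_0
    (dzR + (1 : ℝ)) rfl
    ((dzR + (1 : ℝ)) * (dzR + (1 : ℝ))) rfl
    ((5919 / 4096 : ℝ) - (dzR + (1 : ℝ)) * (dzR + (1 : ℝ))) rfl
  change 0 < (5919 / 4096 : ℝ) - (dzR + (1 : ℝ)) * (dzR + (1 : ℝ)) at p_R1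
  obtain ⟨p_R2, ch8⟩ := ch7
    (2509 / 1024 : ℝ) zc_2694018236416_0
    ((2509 / 1024 : ℝ) - r2V) rfl
    ((2509 / 1024 : ℝ) - r2V - EQ) rfl
    (s1 + dzR) rfl
    (s1 + dzR + ER) rfl
    ((s1 + dzR + ER) * (s1 + dzR + ER)) rfl
    ((2509 / 1024 : ℝ) - r2V - EQ - (s1 + dzR + ER) * (s1 + dzR + ER)) rfl
  change 0 < (2509 / 1024 : ℝ) - r2V - EQ - (s1 + dzR + ER) * (s1 + dzR + ER) at p_R2
  obtain ⟨p_h9, ch9⟩ := ch8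
    (m2 * c2) rfl
    ((9646899 / 1048576) * (m2 * c2)) (congrArg (fun y : ℝ => y * (m2 * c2)) zc_10115506765824_0)
    ((9646899 / 1048576) * (m2 * c2) - (2509 / 1024 : ℝ)) rfl
  change 0 < (9646899 / 1048576) * (m2 * c2) - (2509 / 1024 : ℝ) at p_h9
  obtain ⟨p_h2, ch10⟩ := ch9
    ((471859 / 524288) * (m2 * c2)) (congrArg (fun y : ℝ => y * (m2 * c2)) zc_989560045568_0)
    ((24591 / 4096) * Vie) (congrArg (fun y : ℝ => y * Vie) zc_6601096298496_0)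
    ((471859 / 524288) * (m2 * c2) - (24591 / 4096) * Vie) rfl
  change 0 < (471859 / 524288) * (m2 * c2) - (24591 / 4096) * Vie at p_h2
  obtain ⟨p_q20, ch11⟩ := ch10
  change 0 < q2 at p_q20
  obtain ⟨p_dzS0, ch12⟩ := ch11
  change 0 < sR0 - dzR at p_dzS0
  obtain ⟨p_m0, ch13⟩ := ch12
  change 0 < m at p_m0
  obtain ⟨p_x0, ch14⟩ := (ch13
    (K * x1) rfl
    (2 * (K * x1)) (congrArg (fun y : ℝ => y * (K * x1)) zc_2199023255552_0)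
    exK e_exK
    (EQ * exK) rfl
    (q6 * m2) rfl
    (q6 * m2 * ((1 : ℝ) - Qw)) rfl).2
    ((q6 * m2 * ((1 : ℝ) - Qw))⁻¹) rfl
    d e_d
    (x1 - d) rfl
    (301 / 512 : ℝ) zc_646392578048_0
    (x1 - d - (301 / 512 : ℝ)) rfl
  change 0 < x1 - d - (301 / 512 : ℝ) at p_x0
  obtain ⟨p_Er, ch15⟩ := ch14
    (r1V - EQ) rfl
  change 0 < r1V - EQ at p_Er
  obtain ⟨p_La, ch16⟩ := ch15
    ((1 : ℝ) - 2 * Qw) rfl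
    (m2 * ((1 : ℝ) - 2 * Qw)) rfl
    ((1497 / 1024) * (m2 * ((1 : ℝ) - 2 * Qw))) (congrArg (fun y : ℝ => y * (m2 * ((1 : ℝ) - 2 * Qw))) zc_1607391510528_0)
    ((1497 / 1024) * (m2 * ((1 : ℝ) - 2 * Qw)) - r2V) rfl
    ((1497 / 1024) * (m2 * ((1 : ℝ) - 2 * Qw)) - r2V - EQ) rfl
  change 0 < (1497 / 1024) * (m2 * ((1 : ℝ) - 2 * Qw)) - r2V - EQ at p_La
  obtain ⟨p_y0, ch17⟩ := ch16
    E e_E
    (yc + E) rfl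
    (-(yc + E)) rfl
    ((29 / 64) * K) (congrArg (fun y : ℝ => y * K) zc_498216206336_0)
    ((-(yc + E)) + (29 / 64) * K) rfl
    (3277 / 1024 : ℝ) zc_3518651957248_0
    ((-(yc + E)) + (29 / 64) * K + (3277 / 1024 : ℝ)) rfl
  change 0 < (-(yc + E)) + (29 / 64) * K + (3277 / 1024 : ℝ) at p_y0
  obtain ⟨p_EM2, ch18⟩ := ((((ch17
    x2 e_x2
    (Kq * x2) rfl
    z4 (e_z4.trans (congrArg (fun y : ℝ => y * (Kq * x2)) zc_2199023255552_0))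
    (z4 * z4) rfl
    (z4 * z4 * ((1 : ℝ) * (3 : ℝ)⁻¹)) rfl
    (z4 * z4 * ((1 : ℝ) * (3 : ℝ)⁻¹) + (1 : ℝ)) rfl).2
    iz4 e_iz4
    th4 e_th4
    (q6 * x2) rfl
    (q6 * x2 * iz4) rfl
    (th4 * th4) rfl
    ((1 / 4) * (th4 * th4)) (congrArg (fun y : ℝ => y * (th4 * th4)) zc_274877906944_0)
    ((1 / 4) * (th4 * th4) + (1 : ℝ)) rfl
    l4 e_l4
    (l4 * V) rfl
    (l4 * V * m2) rfl
    (l4 * V * m2 * c2) rfl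
    (q2 * (l4 * V * m2 * c2)) rfl
    (-(q2 * (l4 * V * m2 * c2))) rfl
    u1 e_u1
    (x2 + (1 : ℝ)) rfl
    (Kq * (x2 + (1 : ℝ))) rfl
    z5 (e_z5.trans (congrArg (fun y : ℝ => y * (Kq * (x2 + (1 : ℝ)))) zc_2199023255552_0))
    (z5 * z5) rfl
    (z5 * z5 * ((1 : ℝ) * (3 : ℝ)⁻¹)) rfl
    (z5 * z5 * ((1 : ℝ) * (3 : ℝ)⁻¹) + (1 : ℝ)) rfl).2
    iz5 e_iz5
    th5 e_th5
    (q6 * (x2 + (1 : ℝ))) rfl
    (q6 * (x2 + (1 : ℝ)) * iz5) rfl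
    (th5 * th5) rfl
    ((1 / 4) * (th5 * th5)) (congrArg (fun y : ℝ => y * (th5 * th5)) zc_274877906944_0)
    ((1 / 4) * (th5 * th5) + (1 : ℝ)) rfl
    l5 e_l5
    cd5 e_cd5
    (-cd5) rfl
    xxn e_xxn
    ((1 / 2) * xxn) (congrArg (fun y : ℝ => y * xxn) zc_549755813888_0)
    (xxn + (1 : ℝ)) rfl
    (-(xxn + (1 : ℝ))) rfl
    ((1 / 2) * xxn * (-(xxn + (1 : ℝ)))) rfl
    rcn e_rcn
    bnn e_bnn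
    (q * wn * cd5) rfl
    (q * wn * cd5 * l5) rfl
    ((1 / 2) * (q * wn * cd5 * l5)) (congrArg (fun y : ℝ => y * (q * wn * cd5 * l5)) zc_549755813888_0)
    wsn e_wsn
    ((1 / 2) * wsn) (congrArg (fun y : ℝ => y * wsn) zc_549755813888_0)
    (wsn * wsn) rfl
    ((1482911 / 16777216) * (wsn * wsn)) (congrArg (fun y : ℝ => y * (wsn * wsn)) zc_97184055296_0)
    ((1482911 / 16777216) * (wsn * wsn) + (1482911 / 1048576 : ℝ)) rfl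
    ((1 / 2) * wsn + ((1482911 / 16777216) * (wsn * wsn) + (1482911 / 1048576 : ℝ))) rfl).2
    (((1 / 2) * wsn + ((1482911 / 16777216) * (wsn * wsn) + (1482911 / 1048576 : ℝ)))⁻¹) rfl
    bn e_bn
    (bn + (1 / 2) * (q * wn * cd5 * l5)) rfl).2
    ibn e_ibn
    (wn + ibn) rfl
    Mnw e_Mnw
    (EQ * w) rfl
    (EQ * w * Mnw) rfl
    (EQ * w * Mnw * im) rfl
    EM e_EM
    EMr e_EMr
    ((1 / 2) * EM) (congrArg (fun y : ℝ => y * EM) zc_549755813888_0)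
    ((1 : ℝ) - (1 / 2) * EM) rfl
  change 0 < (1 : ℝ) - (1 / 2) * EM at p_EM2
  obtain ⟨p_cl, ch19⟩ := (ch18).2
    i2 e_i2
    ((1 / 2) * EM + (1 : ℝ)) rfl
    eta e_eta
    r2w e_r2w
    (2 * kc) (congrArg (fun y : ℝ => y * kc) zc_2199023255552_0)
    (r2w + 2 * kc) rfl
    (r2w * (r2w + 2 * kc)) rfl
    DPx e_DPx
    (r2w * r2w) rfl
    (kv + r2w * r2w) rfl
    VcR e_VcR
    (DPx - (1 : ℝ)) rfl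
    ((1 / 2) * (DPx - (1 : ℝ))) (congrArg (fun y : ℝ => y * (DPx - (1 : ℝ))) zc_549755813888_0)
    DPR e_DPR
    ((133 / 512) * ta) (congrArg (fun y : ℝ => y * ta) zc_285615325184_0)
    (223 / 4096 : ℝ) zc_59861106688_0
    a0 e_a0
    (EMr * i2) rfl
    (eta * u1) rfl
    (eta * u1 * a0) rfl
    (DPR + VcR) rfl
    (DPR + VcR + ER) rfl
    (eta * u1 * a0 * (DPR + VcR + ER)) rfl
    (EMr * i2 + eta * u1 * a0 * (DPR + VcR + ER)) rfl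
    (-(EMr * i2 + eta * u1 * a0 * (DPR + VcR + ER))) rfl
    ((1 / 1024) * K) (congrArg (fun y : ℝ => y * K) zc_1073741824_0)
    ((1 : ℝ) - (1 / 1024) * K) rfl
    (((1 : ℝ) - (1 / 1024) * K) * Xc) rfl
    ((-(EMr * i2 + eta * u1 * a0 * (DPR + VcR + ER))) + ((1 : ℝ) - (1 / 1024) * K) * Xc) rfl
  change 0 < (-(EMr * i2 + eta * u1 * a0 * (DPR + VcR + ER))) + ((1 : ℝ) - (1 / 1024) * K) * Xc at p_cl
  exact ⟨⟨se, ie, K, K2, q6, Kq, Yt, Y2, wm, wm2, wse0, q, sp, v2, sg2, L, sR, kc, w, V, wse, iR, vs,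
    iR2, bb, K2se, GrS, gd, svt, GtS, G2S, glf, X, rho, c5, Xc, rb, Vie, a, ea, e2a, er, h4,
    dzS, dzR, r1V, r2V, yc, ycR, r1w, kv, x1, z, sR0, m, m2, wn, q2, z1, iz1, th1, l1, z2, iz2,
    th2, l2, lv, u, xxa, rca, bna, wsa, ba, iba, Maw, z3, iz3, th3, l3, cc5, xxc, rcc, bnc, wsc,
    bc, ibc, ub, Mbw, iX, LX, uX, LU, im, dz, DG, DF, vDG, EQ, ER, Qw, c2, s1, exK, d, E, x2,
    z4, iz4, th4, l4, u1, z5, iz5, th5, l5, cd5, xxn, rcn, bnn, wsn, bn, ibn, Mnw, EM, EMr, i2,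
    eta, r2w, DPx, VcR, DPR, a0, e_se, e_ie, e_K, e_K2, e_q6, e_Kq, e_Yt, e_Y2, e_wm, e_wm2,
    e_wse0, e_q, e_sp, e_v2, e_sg2, e_L, e_sR, e_kc, e_w, e_V, e_wse, e_iR, e_vs, e_iR2, e_bb,
    e_K2se, e_GrS, e_gd, e_svt, e_GtS, e_G2S, e_glf, e_X, e_rho, e_c5, e_Xc, e_rb, e_Vie, e_a,
    e_ea, e_e2a, e_er, e_h4, e_dzS, e_dzR, e_r1V, e_r2V, e_yc, e_ycR, e_r1w, e_kv, e_x1, e_z,
    e_sR0, e_m, e_m2, e_wn, e_q2, e_z1, e_iz1, e_th1, e_l1, e_z2, e_iz2, e_th2, e_l2, e_lv, e_u,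
    e_xxa, e_rca, e_bna, e_wsa, e_ba, e_iba, e_Maw, e_z3, e_iz3, e_th3, e_l3, e_cc5, e_xxc,
    e_rcc, e_bnc, e_wsc, e_bc, e_ibc, e_ub, e_Mbw, e_iX, e_LX, e_uX, e_LU, e_im, e_dz, e_DG,
    e_DF, e_vDG, e_EQ, e_ER, e_Qw, e_c2, e_s1, e_exK, e_d, e_E, e_x2, e_z4, e_iz4, e_th4, e_l4,
    e_u1, e_z5, e_iz5, e_th5, e_l5, e_cd5, e_xxn, e_rcn, e_bnn, e_wsn, e_bn, e_ibn, e_Mnw, e_EM,
    e_EMr, e_i2, e_eta, e_r2w, e_DPx, e_VcR, e_DPR, e_a0, p_gd, p_a1, p_x11, p_X1, p_cG, p_cF,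
    p_Es, p_R1, p_R2, p_h9, p_h2, p_q20, p_dzS0, p_m0, p_x0, p_Er, p_La, p_y0, p_EM2, p_cl⟩⟩

theorem ex_FB_gE {om ta v : ℝ} (h : RAs Cert.FB.prog2 [om, ta, v]) :
    0 < om * ta - (74161 / 1048576 : ℝ) := by
  obtain ⟨p_gE, ch0⟩ := h
    (om * ta) rfl
    (74161 / 1048576 : ℝ) zc_77763444736_0
    (om * ta - (74161 / 1048576 : ℝ)) rfl
  change 0 < om * ta - (74161 / 1048576 : ℝ) at p_gE
  exact p_gE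

theorem ex_FB_gK {om ta v : ℝ} (h : RAs Cert.FB.prog3 [om, ta, v]) :
    0 < om * om - (7 / 4) * (om * ta) - (726873 / 524288 : ℝ) := by
  obtain ⟨p_gK, ch0⟩ := h
    (om * om) rfl
    (om * ta) rfl
    ((7 / 4) * (om * ta)) (congrArg (fun y : ℝ => y * (om * ta)) zc_1924145348608_0)
    (om * om - (7 / 4) * (om * ta)) rfl
    (726873 / 524288 : ℝ) zc_1524363165696_0
    (om * om - (7 / 4) * (om * ta) - (726873 / 524288 : ℝ)) rfl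
  change 0 < om * om - (7 / 4) * (om * ta) - (726873 / 524288 : ℝ) at p_gK
  exact p_gK

theorem ex_TB_0 {om ta v : ℝ} (h : RAs Cert.TB.prog0 [om, ta, v]) :
    ∃ P : PFB cFB1 om ta v, Nonempty (PFBT P) := by
  obtain ⟨se, e_se⟩ : ∃ zz : ℝ, zz = om * ta := ⟨_, rfl⟩
  obtain ⟨ie, e_ie⟩ : ∃ zz : ℝ, zz = se * se := ⟨_, rfl⟩
  obtain ⟨K, e_K⟩ : ∃ zz : ℝ, zz = om * se := ⟨_, rfl⟩
  obtain ⟨K2, e_K2⟩ : ∃ zz : ℝ, zz = K * K := ⟨_, rfl⟩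
  obtain ⟨q6, e_q6⟩ : ∃ zz : ℝ, zz = (1 : ℝ) - K2 * ((1 : ℝ) * (6 : ℝ)⁻¹) := ⟨_, rfl⟩
  obtain ⟨Kq, e_Kq⟩ : ∃ zz : ℝ, zz = K * q6 := ⟨_, rfl⟩
  obtain ⟨Yt, e_Yt⟩ : ∃ zz : ℝ, zz = (7 / 2) * ta := ⟨_, rfl⟩
  obtain ⟨Y2, e_Y2⟩ : ∃ zz : ℝ, zz = Yt * Yt := ⟨_, rfl⟩
  obtain ⟨wm, e_wm⟩ : ∃ zz : ℝ, zz = Yt * ((1 : ℝ) + Y2 * ((1 / 2 : ℝ) - (1 / 8) * Y2))⁻¹ := ⟨_, rfl⟩
  obtain ⟨wm2, e_wm2⟩ : ∃ zz : ℝ, zz = wm * wm := ⟨_, rfl⟩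
  obtain ⟨wse0, e_wse0⟩ : ∃ zz : ℝ, zz = wm * se := ⟨_, rfl⟩
  obtain ⟨q, e_q⟩ : ∃ zz : ℝ, zz = (4095 / 4096 : ℝ) - (1449 / 512) * wse0 - 23 * ie - (1 / 2) * K2 := ⟨_, rfl⟩
  obtain ⟨sp, e_sp⟩ : ∃ zz : ℝ, zz = (4095 / 4096 : ℝ) - (2899 / 2048) * wse0 - 19 * ie - (553 / 1024) * K2 := ⟨_, rfl⟩
  obtain ⟨v2, e_v2⟩ : ∃ zz : ℝ, zz = v * v := ⟨_, rfl⟩
  obtain ⟨sg2, e_sg2⟩ : ∃ zz : ℝ, zz = v2 * (ta * ta) + (1 : ℝ) := ⟨_, rfl⟩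
  obtain ⟨L, e_L⟩ : ∃ zz : ℝ, zz = (1 / 2) * Real.log sg2 := ⟨_, rfl⟩
  obtain ⟨sR, e_sR⟩ : ∃ zz : ℝ, zz = Real.exp L := ⟨_, rfl⟩
  obtain ⟨kc, e_kc⟩ : ∃ zz : ℝ, zz = Real.exp (-L) := ⟨_, rfl⟩
  obtain ⟨w, e_w⟩ : ∃ zz : ℝ, zz = om * sR := ⟨_, rfl⟩
  obtain ⟨V, e_V⟩ : ∃ zz : ℝ, zz = w * w := ⟨_, rfl⟩
  obtain ⟨wse, e_wse⟩ : ∃ zz : ℝ, zz = w * se := ⟨_, rfl⟩
  obtain ⟨iR, e_iR⟩ : ∃ zz : ℝ, zz = ta * kc := ⟨_, rfl⟩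
  obtain ⟨vs, e_vs⟩ : ∃ zz : ℝ, zz = v * iR := ⟨_, rfl⟩
  obtain ⟨iR2, e_iR2⟩ : ∃ zz : ℝ, zz = iR * iR := ⟨_, rfl⟩
  obtain ⟨bb, e_bb⟩ : ∃ zz : ℝ, zz = om * om := ⟨_, rfl⟩
  obtain ⟨K2se, e_K2se⟩ : ∃ zz : ℝ, zz = bb * se := ⟨_, rfl⟩
  obtain ⟨GrS, e_GrS⟩ : ∃ zz : ℝ, zz = (1 / 2) * om + (337167 / 524288) * se + (421109 / 1048576) * iR := ⟨_, rfl⟩
  obtain ⟨gd, e_gd⟩ : ∃ zz : ℝ, zz = ((-364089 / 524288) * w + (873813 / 524288 : ℝ)) * ((421109 / 524288) * ta) + (337167 / 262144) * ta + (1 : ℝ) := ⟨_, rfl⟩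
  obtain ⟨svt, e_svt⟩ : ∃ zz : ℝ, zz = se * v2 * ta * gd⁻¹ := ⟨_, rfl⟩
  obtain ⟨GtS, e_GtS⟩ : ∃ zz : ℝ, zz = GrS + svt := ⟨_, rfl⟩
  obtain ⟨G2S, e_G2S⟩ : ∃ zz : ℝ, zz = GrS + (1 / 4) * svt := ⟨_, rfl⟩
  obtain ⟨glf, e_glf⟩ : ∃ zz : ℝ, zz = Real.exp (ie * ((838861 / 524288) * V + (363409 / 524288 : ℝ)) - (1 / 2) * Kq) := ⟨_, rfl⟩
  obtain ⟨X, e_X⟩ : ∃ zz : ℝ, zz = (1209 / 4096) * sR := ⟨_, rfl⟩
  obtain ⟨rho, e_rho⟩ : ∃ zz : ℝ, zz = (2509 / 512) * wm2 + (2509 / 2048 : ℝ) := ⟨_, rfl⟩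
  obtain ⟨c5, e_c5⟩ : ∃ zz : ℝ, zz = (1 : ℝ) - 500 * (ie * ie) := ⟨_, rfl⟩
  obtain ⟨Xc, e_Xc⟩ : ∃ zz : ℝ, zz = (1 / 4) * ((1209 / 4096) * (4 * ta + (1 : ℝ))) := ⟨_, rfl⟩
  obtain ⟨rb, e_rb⟩ : ∃ zz : ℝ, zz = iR + (1 / 4) * kc := ⟨_, rfl⟩
  obtain ⟨Vie, e_Vie⟩ : ∃ zz : ℝ, zz = V * ie := ⟨_, rfl⟩
  obtain ⟨a, e_a⟩ : ∃ zz : ℝ, zz = se * GtS + (123 / 128) * ie := ⟨_, rfl⟩
  obtain ⟨ea, e_ea⟩ : ∃ zz : ℝ, zz = Real.exp a := ⟨_, rfl⟩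
  obtain ⟨e2a, e_e2a⟩ : ∃ zz : ℝ, zz = ea * ea := ⟨_, rfl⟩
  obtain ⟨er, e_er⟩ : ∃ zz : ℝ, zz = ((838861 / 524288) * V + (5 / 2) * v) * ie := ⟨_, rfl⟩
  obtain ⟨h4, e_h4⟩ : ∃ zz : ℝ, zz = (1 : ℝ) - (1 / 4) * K2 := ⟨_, rfl⟩
  obtain ⟨dzS, e_dzS⟩ : ∃ zz : ℝ, zz = vs * (G2S + ea * ((1 / 2) * (se * GtS * GtS) + (149797 / 1048576) * K2se)) + w * ((3 / 2) * e2a - (3 / 2 : ℝ) + (3 / 4) * K2 + v * ie + er) + K2se * ((1 / 8) * (v * vs * ie)) := ⟨_, rfl⟩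
  obtain ⟨dzR, e_dzR⟩ : ∃ zz : ℝ, zz = dzS * se := ⟨_, rfl⟩
  obtain ⟨r1V, e_r1V⟩ : ∃ zz : ℝ, zz = h4 * ((3 : ℝ) - (3 / 2) * e2a) - (1 / 2) * (kc * kc) - vs * vs * ea - er := ⟨_, rfl⟩
  obtain ⟨r2V, e_r2V⟩ : ∃ zz : ℝ, zz = (3 / 2) * e2a - h4 * ((1 / 2) * (kc * kc)) + er := ⟨_, rfl⟩
  obtain ⟨yc, e_yc⟩ : ∃ zz : ℝ, zz = v * glf + 2 * (Vie * v * e2a) + V * er := ⟨_, rfl⟩
  obtain ⟨ycR, e_ycR⟩ : ∃ zz : ℝ, zz = vs * glf + 2 * (Vie * vs * e2a) + wse * er := ⟨_, rfl⟩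
  obtain ⟨r1w, e_r1w⟩ : ∃ zz : ℝ, zz = r1V * wse := ⟨_, rfl⟩
  obtain ⟨kv, e_kv⟩ : ∃ zz : ℝ, zz = kc * kc + ycR * ycR := ⟨_, rfl⟩
  obtain ⟨x1, e_x1⟩ : ∃ zz : ℝ, zz = (1023 / 1024) * r1V * (kv + r1w * r1w)⁻¹ := ⟨_, rfl⟩
  obtain ⟨z, e_z⟩ : ∃ zz : ℝ, zz = 2 * (vs * vs * Vie) := ⟨_, rfl⟩
  obtain ⟨sR0, e_sR0⟩ : ∃ zz : ℝ, zz = (1 : ℝ) - z := ⟨_, rfl⟩
  obtain ⟨m, e_m⟩ : ∃ zz : ℝ, zz = sR0 - dzR - dzR * dzR := ⟨_, rfl⟩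
  obtain ⟨m2, e_m2⟩ : ∃ zz : ℝ, zz = m * m := ⟨_, rfl⟩
  obtain ⟨wn, e_wn⟩ : ∃ zz : ℝ, zz = w * m := ⟨_, rfl⟩
  obtain ⟨q2, e_q2⟩ : ∃ zz : ℝ, zz = q - 8 * ie - Vie * rho := ⟨_, rfl⟩
  obtain ⟨z1, e_z1⟩ : ∃ zz : ℝ, zz = 2 * (Kq * x1) := ⟨_, rfl⟩
  obtain ⟨iz1, e_iz1⟩ : ∃ zz : ℝ, zz = (z1 * z1 * ((1 : ℝ) * (3 : ℝ)⁻¹) + (1 : ℝ))⁻¹ := ⟨_, rfl⟩
  obtain ⟨th1, e_th1⟩ : ∃ zz : ℝ, zz = z1 * iz1 := ⟨_, rfl⟩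
  obtain ⟨l1, e_l1⟩ : ∃ zz : ℝ, zz = q6 * x1 * iz1 * ((1 / 4) * (th1 * th1) + (1 : ℝ)) := ⟨_, rfl⟩
  obtain ⟨z2, e_z2⟩ : ∃ zz : ℝ, zz = 2 * (Kq * (x1 + (1 : ℝ))) := ⟨_, rfl⟩
  obtain ⟨iz2, e_iz2⟩ : ∃ zz : ℝ, zz = (z2 * z2 * ((1 : ℝ) * (3 : ℝ)⁻¹) + (1 : ℝ))⁻¹ := ⟨_, rfl⟩
  obtain ⟨th2, e_th2⟩ : ∃ zz : ℝ, zz = z2 * iz2 := ⟨_, rfl⟩
  obtain ⟨l2, e_l2⟩ : ∃ zz : ℝ, zz = q6 * (x1 + (1 : ℝ)) * iz2 * ((1 / 4) * (th2 * th2) + (1 : ℝ)) := ⟨_, rfl⟩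
  obtain ⟨lv, e_lv⟩ : ∃ zz : ℝ, zz = l1 * V * m2 := ⟨_, rfl⟩
  obtain ⟨u, e_u⟩ : ∃ zz : ℝ, zz = Real.exp (-(q2 * lv)) := ⟨_, rfl⟩
  obtain ⟨xxa, e_xxa⟩ : ∃ zz : ℝ, zz = (-c5) + (1 : ℝ) := ⟨_, rfl⟩
  obtain ⟨rca, e_rca⟩ : ∃ zz : ℝ, zz = (1 / 2) * xxa * (-(xxa + (1 : ℝ))) + (1 : ℝ) := ⟨_, rfl⟩
  obtain ⟨bna, e_bna⟩ : ∃ zz : ℝ, zz = sp * rca := ⟨_, rfl⟩
  obtain ⟨wsa, e_wsa⟩ : ∃ zz : ℝ, zz = bna * wn := ⟨_, rfl⟩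
  obtain ⟨ba, e_ba⟩ : ∃ zz : ℝ, zz = bna * ((1 / 2) * wsa + ((1482911 / 16777216) * (wsa * wsa) + (1482911 / 1048576 : ℝ)))⁻¹ := ⟨_, rfl⟩
  obtain ⟨iba, e_iba⟩ : ∃ zz : ℝ, zz = (ba + (1 / 2) * (q * wn * c5 * l2))⁻¹ := ⟨_, rfl⟩
  obtain ⟨Maw, e_Maw⟩ : ∃ zz : ℝ, zz = u * (wn + iba) := ⟨_, rfl⟩
  obtain ⟨z3, e_z3⟩ : ∃ zz : ℝ, zz = 2 * (Kq * (x1 + (2 : ℝ))) := ⟨_, rfl⟩
  obtain ⟨iz3, e_iz3⟩ : ∃ zz : ℝ, zz = (z3 * z3 * ((1 : ℝ) * (3 : ℝ)⁻¹) + (1 : ℝ))⁻¹ := ⟨_, rfl⟩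
  obtain ⟨th3, e_th3⟩ : ∃ zz : ℝ, zz = z3 * iz3 := ⟨_, rfl⟩
  obtain ⟨l3, e_l3⟩ : ∃ zz : ℝ, zz = q6 * (x1 + (2 : ℝ)) * iz3 * ((1 / 4) * (th3 * th3) + (1 : ℝ)) := ⟨_, rfl⟩
  obtain ⟨cc5, e_cc5⟩ : ∃ zz : ℝ, zz = c5 * c5 := ⟨_, rfl⟩
  obtain ⟨xxc, e_xxc⟩ : ∃ zz : ℝ, zz = (-cc5) + (1 : ℝ) := ⟨_, rfl⟩
  obtain ⟨rcc, e_rcc⟩ : ∃ zz : ℝ, zz = (1 / 2) * xxc * (-(xxc + (1 : ℝ))) + (1 : ℝ) := ⟨_, rfl⟩
  obtain ⟨bnc, e_bnc⟩ : ∃ zz : ℝ, zz = sp * rcc := ⟨_, rfl⟩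
  obtain ⟨wsc, e_wsc⟩ : ∃ zz : ℝ, zz = bnc * wn := ⟨_, rfl⟩
  obtain ⟨bc, e_bc⟩ : ∃ zz : ℝ, zz = bnc * ((1 / 2) * wsc + ((1482911 / 16777216) * (wsc * wsc) + (1482911 / 1048576 : ℝ)))⁻¹ := ⟨_, rfl⟩
  obtain ⟨ibc, e_ibc⟩ : ∃ zz : ℝ, zz = (bc + (1 / 2) * (q * wn * cc5 * l3))⁻¹ := ⟨_, rfl⟩
  obtain ⟨ub, e_ub⟩ : ∃ zz : ℝ, zz = Real.exp (-(q2 * (l2 * V * m2 * c5))) := ⟨_, rfl⟩
  obtain ⟨Mbw, e_Mbw⟩ : ∃ zz : ℝ, zz = ub * (wn + ibc) := ⟨_, rfl⟩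
  obtain ⟨iX, e_iX⟩ : ∃ zz : ℝ, zz = ((1 : ℝ) - X)⁻¹ := ⟨_, rfl⟩
  obtain ⟨LX, e_LX⟩ : ∃ zz : ℝ, zz = (1 : ℝ) + (1 / 2) * X + (174763 / 524288) * (X * X * iX) := ⟨_, rfl⟩
  obtain ⟨uX, e_uX⟩ : ∃ zz : ℝ, zz = u * X := ⟨_, rfl⟩
  obtain ⟨LU, e_LU⟩ : ∃ zz : ℝ, zz = (1 : ℝ) + (1 / 2) * uX + (174763 / 524288) * (uX * uX * ((1 : ℝ) - uX)⁻¹) := ⟨_, rfl⟩
  obtain ⟨im, e_im⟩ : ∃ zz : ℝ, zz = m⁻¹ := ⟨_, rfl⟩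
  obtain ⟨dz, e_dz⟩ : ∃ zz : ℝ, zz = dzS * w := ⟨_, rfl⟩
  obtain ⟨DG, e_DG⟩ : ∃ zz : ℝ, zz = dz + dzS * Mbw * im + X * LX := ⟨_, rfl⟩
  obtain ⟨DF, e_DF⟩ : ∃ zz : ℝ, zz = dzS * Maw * im + uX * LU := ⟨_, rfl⟩
  obtain ⟨vDG, e_vDG⟩ : ∃ zz : ℝ, zz = v * DG * iR2 := ⟨_, rfl⟩
  obtain ⟨EQ, e_EQ⟩ : ∃ zz : ℝ, zz = (1111491 / 1048576) * e2a * (vDG + ie * (2 * DG + DF)) := ⟨_, rfl⟩
  obtain ⟨ER, e_ER⟩ : ∃ zz : ℝ, zz = EQ * wse := ⟨_, rfl⟩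
  obtain ⟨Qw, e_Qw⟩ : ∃ zz : ℝ, zz = ER * im := ⟨_, rfl⟩
  obtain ⟨c2, e_c2⟩ : ∃ zz : ℝ, zz = (-(2 * Qw)) + c5 := ⟨_, rfl⟩
  obtain ⟨s1, e_s1⟩ : ∃ zz : ℝ, zz = (1 / 2) * (kv - (1 : ℝ)) + (1 : ℝ) := ⟨_, rfl⟩
  obtain ⟨exK, e_exK⟩ : ∃ zz : ℝ, zz = Real.exp (2 * (K * x1)) := ⟨_, rfl⟩
  obtain ⟨d, e_d⟩ : ∃ zz : ℝ, zz = EQ * exK * (q6 * m2 * ((1 : ℝ) - Qw))⁻¹ := ⟨_, rfl⟩
  obtain ⟨E, e_E⟩ : ∃ zz : ℝ, zz = EQ * V := ⟨_, rfl⟩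
  obtain ⟨x2, e_x2⟩ : ∃ zz : ℝ, zz = x1 - d + (1 : ℝ) := ⟨_, rfl⟩
  obtain ⟨z4, e_z4⟩ : ∃ zz : ℝ, zz = 2 * (Kq * x2) := ⟨_, rfl⟩
  obtain ⟨iz4, e_iz4⟩ : ∃ zz : ℝ, zz = (z4 * z4 * ((1 : ℝ) * (3 : ℝ)⁻¹) + (1 : ℝ))⁻¹ := ⟨_, rfl⟩
  obtain ⟨th4, e_th4⟩ : ∃ zz : ℝ, zz = z4 * iz4 := ⟨_, rfl⟩
  obtain ⟨l4, e_l4⟩ : ∃ zz : ℝ, zz = q6 * x2 * iz4 * ((1 / 4) * (th4 * th4) + (1 : ℝ)) := ⟨_, rfl⟩
  obtain ⟨u1, e_u1⟩ : ∃ zz : ℝ, zz = Real.exp (-(q2 * (l4 * V * m2 * c2))) := ⟨_, rfl⟩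
  obtain ⟨z5, e_z5⟩ : ∃ zz : ℝ, zz = 2 * (Kq * (x2 + (1 : ℝ))) := ⟨_, rfl⟩
  obtain ⟨iz5, e_iz5⟩ : ∃ zz : ℝ, zz = (z5 * z5 * ((1 : ℝ) * (3 : ℝ)⁻¹) + (1 : ℝ))⁻¹ := ⟨_, rfl⟩
  obtain ⟨th5, e_th5⟩ : ∃ zz : ℝ, zz = z5 * iz5 := ⟨_, rfl⟩
  obtain ⟨l5, e_l5⟩ : ∃ zz : ℝ, zz = q6 * (x2 + (1 : ℝ)) * iz5 * ((1 / 4) * (th5 * th5) + (1 : ℝ)) := ⟨_, rfl⟩
  obtain ⟨cd5, e_cd5⟩ : ∃ zz : ℝ, zz = c2 * c5 := ⟨_, rfl⟩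
  obtain ⟨xxn, e_xxn⟩ : ∃ zz : ℝ, zz = (-cd5) + (1 : ℝ) := ⟨_, rfl⟩
  obtain ⟨rcn, e_rcn⟩ : ∃ zz : ℝ, zz = (1 / 2) * xxn * (-(xxn + (1 : ℝ))) + (1 : ℝ) := ⟨_, rfl⟩
  obtain ⟨bnn, e_bnn⟩ : ∃ zz : ℝ, zz = sp * rcn := ⟨_, rfl⟩
  obtain ⟨wsn, e_wsn⟩ : ∃ zz : ℝ, zz = bnn * wn := ⟨_, rfl⟩
  obtain ⟨bn, e_bn⟩ : ∃ zz : ℝ, zz = bnn * ((1 / 2) * wsn + ((1482911 / 16777216) * (wsn * wsn) + (1482911 / 1048576 : ℝ)))⁻¹ := ⟨_, rfl⟩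
  obtain ⟨ibn, e_ibn⟩ : ∃ zz : ℝ, zz = (bn + (1 / 2) * (q * wn * cd5 * l5))⁻¹ := ⟨_, rfl⟩
  obtain ⟨Mnw, e_Mnw⟩ : ∃ zz : ℝ, zz = u1 * (wn + ibn) := ⟨_, rfl⟩
  obtain ⟨EM, e_EM⟩ : ∃ zz : ℝ, zz = E + EQ * w * Mnw * im := ⟨_, rfl⟩
  obtain ⟨EMr, e_EMr⟩ : ∃ zz : ℝ, zz = EM * rb := ⟨_, rfl⟩
  obtain ⟨i2, e_i2⟩ : ∃ zz : ℝ, zz = ((1 : ℝ) - (1 / 2) * EM)⁻¹ := ⟨_, rfl⟩
  obtain ⟨eta, e_eta⟩ : ∃ zz : ℝ, zz = ((1 / 2) * EM + (1 : ℝ)) * i2 := ⟨_, rfl⟩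
  obtain ⟨r2w, e_r2w⟩ : ∃ zz : ℝ, zz = r2V * wse := ⟨_, rfl⟩
  obtain ⟨DPx, e_DPx⟩ : ∃ zz : ℝ, zz = kv + r2w * (r2w + 2 * kc) := ⟨_, rfl⟩
  obtain ⟨VcR, e_VcR⟩ : ∃ zz : ℝ, zz = wse * (kv + r2w * r2w) := ⟨_, rfl⟩
  obtain ⟨DPR, e_DPR⟩ : ∃ zz : ℝ, zz = (1 / 2) * (DPx - (1 : ℝ)) + (1 : ℝ) := ⟨_, rfl⟩
  obtain ⟨a0, e_a0⟩ : ∃ zz : ℝ, zz = (133 / 512) * ta + (223 / 4096 : ℝ) := ⟨_, rfl⟩
  obtain ⟨tn, e_tn⟩ : ∃ zz : ℝ, zz = (529531 / 524288) * ((3294199 / 1048576) * ie * DF + (3294199 / 1048576) * se * G2S + (3294199 / 1048576) * ((147325 / 262144) * Vie + (277873 / 524288) * (a * a) + (56361 / 131072) * K2) + (167773 / 1048576) * (V * Vie) + bb * ((1111491 / 1048576) * a + (146801 / 524288) * K2) + (10349031 / 1048576) * ie * ((587203 / 1048576) * (a * a) + (314573 / 1048576) * K2)) := ⟨_, rfl⟩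
  obtain ⟨p_gd, ch0⟩ := ((((h
    (1 : ℝ) zc_1099511627776_0
    (3 : ℝ) zc_3298534883328_0).2
    ((3 : ℝ)⁻¹) rfl
    ((1 : ℝ) * (3 : ℝ)⁻¹) rfl
    se e_se
    ie e_ie
    K e_K
    K2 e_K2
    (6 : ℝ) zc_6597069766656_0).2
    ((6 : ℝ)⁻¹) rfl
    ((1 : ℝ) * (6 : ℝ)⁻¹) rfl
    (K2 * ((1 : ℝ) * (6 : ℝ)⁻¹)) rfl
    q6 e_q6
    Kq e_Kq
    Yt (e_Yt.trans (congrArg (fun y : ℝ => y * ta) zc_3848290697216_0))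
    Y2 e_Y2
    (1 / 2 : ℝ) zc_549755813888_0
    ((1 / 8) * Y2) (congrArg (fun y : ℝ => y * Y2) zc_137438953472_0)
    ((1 / 2 : ℝ) - (1 / 8) * Y2) rfl
    (Y2 * ((1 / 2 : ℝ) - (1 / 8) * Y2)) rfl
    ((1 : ℝ) + Y2 * ((1 / 2 : ℝ) - (1 / 8) * Y2)) rfl).2
    (((1 : ℝ) + Y2 * ((1 / 2 : ℝ) - (1 / 8) * Y2))⁻¹) rfl
    wm e_wm
    wm2 e_wm2
    wse0 e_wse0
    (4095 / 4096 : ℝ) zc_1099243192320_0
    ((1449 / 512) * wse0) (congrArg (fun y : ℝ => y * wse0) zc_3111703805952_0)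
    ((4095 / 4096 : ℝ) - (1449 / 512) * wse0) rfl
    (23 * ie) (congrArg (fun y : ℝ => y * ie) zc_25288767438848_0)
    ((4095 / 4096 : ℝ) - (1449 / 512) * wse0 - 23 * ie) rfl
    ((1 / 2) * K2) (congrArg (fun y : ℝ => y * K2) zc_549755813888_0)
    q e_q
    ((2899 / 2048) * wse0) (congrArg (fun y : ℝ => y * wse0) zc_1556388773888_0)
    ((4095 / 4096 : ℝ) - (2899 / 2048) * wse0) rfl
    (19 * ie) (congrArg (fun y : ℝ => y * ie) zc_20890720927744_0)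
    ((4095 / 4096 : ℝ) - (2899 / 2048) * wse0 - 19 * ie) rfl
    ((553 / 1024) * K2) (congrArg (fun y : ℝ => y * K2) zc_593779228672_0)
    sp e_sp
    v2 e_v2
    (ta * ta) rfl
    (v2 * (ta * ta)) rfl
    sg2 e_sg2).2
    (Real.log sg2) rfl
    L (e_L.trans (congrArg (fun y : ℝ => y * Real.log sg2) zc_549755813888_0))
    sR e_sR
    (-L) rfl
    kc e_kc
    w e_w
    V e_V
    wse e_wse
    iR e_iR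
    vs e_vs
    iR2 e_iR2
    bb e_bb
    K2se e_K2se
    ((1 / 2) * om) (congrArg (fun y : ℝ => y * om) zc_549755813888_0)
    ((337167 / 524288) * se) (congrArg (fun y : ℝ => y * se) zc_707090448384_0)
    ((1 / 2) * om + (337167 / 524288) * se) rfl
    ((421109 / 1048576) * iR) (congrArg (fun y : ℝ => y * iR) zc_441564790784_0)
    GrS e_GrS
    ((-364089 / 524288) * w) (congrArg (fun y : ℝ => y * w) zc_0_763549974528)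
    (873813 / 524288 : ℝ) zc_1832518680576_0
    ((-364089 / 524288) * w + (873813 / 524288 : ℝ)) rfl
    ((421109 / 524288) * ta) (congrArg (fun y : ℝ => y * ta) zc_883129581568_0)
    (((-364089 / 524288) * w + (873813 / 524288 : ℝ)) * ((421109 / 524288) * ta)) rfl
    ((337167 / 262144) * ta) (congrArg (fun y : ℝ => y * ta) zc_1414180896768_0)
    (((-364089 / 524288) * w + (873813 / 524288 : ℝ)) * ((421109 / 524288) * ta) + (337167 / 262144) * ta) rfl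
    gd e_gd
  change 0 < gd at p_gd
  obtain ⟨p_a1, ch1⟩ := (ch0
    (se * v2) rfl
    (se * v2 * ta) rfl).2
    (gd⁻¹) rfl
    svt e_svt
    GtS e_GtS
    ((1 / 4) * svt) (congrArg (fun y : ℝ => y * svt) zc_274877906944_0)
    G2S e_G2S
    ((838861 / 524288) * V) (congrArg (fun y : ℝ => y * V) zc_1759219023872_0)
    (363409 / 524288 : ℝ) zc_762123911168_0
    ((838861 / 524288) * V + (363409 / 524288 : ℝ)) rfl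
    (ie * ((838861 / 524288) * V + (363409 / 524288 : ℝ))) rfl
    ((1 / 2) * Kq) (congrArg (fun y : ℝ => y * Kq) zc_549755813888_0)
    (ie * ((838861 / 524288) * V + (363409 / 524288 : ℝ)) - (1 / 2) * Kq) rfl
    glf e_glf
    X (e_X.trans (congrArg (fun y : ℝ => y * sR) zc_324538466304_0))
    ((2509 / 512) * wm2) (congrArg (fun y : ℝ => y * wm2) zc_5388036472832_0)
    (2509 / 2048 : ℝ) zc_1347009118208_0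
    rho e_rho
    (ie * ie) rfl
    (500 * (ie * ie)) (congrArg (fun y : ℝ => y * (ie * ie)) zc_549755813888000_0)
    c5 e_c5
    (4 * ta) (congrArg (fun y : ℝ => y * ta) zc_4398046511104_0)
    (4 * ta + (1 : ℝ)) rfl
    ((1209 / 4096) * (4 * ta + (1 : ℝ))) (congrArg (fun y : ℝ => y * (4 * ta + (1 : ℝ))) zc_324538466304_0)
    Xc (e_Xc.trans (congrArg (fun y : ℝ => y * ((1209 / 4096) * (4 * ta + (1 : ℝ)))) zc_274877906944_0))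
    ((1 / 4) * kc) (congrArg (fun y : ℝ => y * kc) zc_274877906944_0)
    rb e_rb
    Vie e_Vie
    (se * GtS) rfl
    ((123 / 128) * ie) (congrArg (fun y : ℝ => y * ie) zc_1056561954816_0)
    a e_a
    ea e_ea
    e2a e_e2a
    (-a) rfl
    (29127 / 524288 : ℝ) zc_61083746304_0
    ((-a) + (29127 / 524288 : ℝ)) rfl
  change 0 < (-a) + (29127 / 524288 : ℝ) at p_a1
  obtain ⟨p_x11, ch2⟩ := (ch1
    ((5 / 2) * v) (congrArg (fun y : ℝ => y * v) zc_2748779069440_0)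
    ((838861 / 524288) * V + (5 / 2) * v) rfl
    er e_er
    ((1 / 4) * K2) (congrArg (fun y : ℝ => y * K2) zc_274877906944_0)
    h4 e_h4
    (se * GtS * GtS) rfl
    ((1 / 2) * (se * GtS * GtS)) (congrArg (fun y : ℝ => y * (se * GtS * GtS)) zc_549755813888_0)
    ((149797 / 1048576) * K2se) (congrArg (fun y : ℝ => y * K2se) zc_157073539072_0)
    ((1 / 2) * (se * GtS * GtS) + (149797 / 1048576) * K2se) rfl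
    (ea * ((1 / 2) * (se * GtS * GtS) + (149797 / 1048576) * K2se)) rfl
    (G2S + ea * ((1 / 2) * (se * GtS * GtS) + (149797 / 1048576) * K2se)) rfl
    (vs * (G2S + ea * ((1 / 2) * (se * GtS * GtS) + (149797 / 1048576) * K2se))) rfl
    ((3 / 2) * e2a) (congrArg (fun y : ℝ => y * e2a) zc_1649267441664_0)
    (3 / 2 : ℝ) zc_1649267441664_0
    ((3 / 2) * e2a - (3 / 2 : ℝ)) rfl
    ((3 / 4) * K2) (congrArg (fun y : ℝ => y * K2) zc_824633720832_0)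
    ((3 / 2) * e2a - (3 / 2 : ℝ) + (3 / 4) * K2) rfl
    (v * ie) rfl
    ((3 / 2) * e2a - (3 / 2 : ℝ) + (3 / 4) * K2 + v * ie) rfl
    ((3 / 2) * e2a - (3 / 2 : ℝ) + (3 / 4) * K2 + v * ie + er) rfl
    (w * ((3 / 2) * e2a - (3 / 2 : ℝ) + (3 / 4) * K2 + v * ie + er)) rfl
    (vs * (G2S + ea * ((1 / 2) * (se * GtS * GtS) + (149797 / 1048576) * K2se)) + w * ((3 / 2) * e2a - (3 / 2 : ℝ) + (3 / 4) * K2 + v * ie + er)) rfl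
    (v * vs) rfl
    (v * vs * ie) rfl
    ((1 / 8) * (v * vs * ie)) (congrArg (fun y : ℝ => y * (v * vs * ie)) zc_137438953472_0)
    (K2se * ((1 / 8) * (v * vs * ie))) rfl
    dzS e_dzS
    dzR e_dzR
    ((3 : ℝ) - (3 / 2) * e2a) rfl
    (h4 * ((3 : ℝ) - (3 / 2) * e2a)) rfl
    (kc * kc) rfl
    ((1 / 2) * (kc * kc)) (congrArg (fun y : ℝ => y * (kc * kc)) zc_549755813888_0)
    (h4 * ((3 : ℝ) - (3 / 2) * e2a) - (1 / 2) * (kc * kc)) rfl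
    (vs * vs) rfl
    (vs * vs * ea) rfl
    (h4 * ((3 : ℝ) - (3 / 2) * e2a) - (1 / 2) * (kc * kc) - vs * vs * ea) rfl
    r1V e_r1V
    (h4 * ((1 / 2) * (kc * kc))) rfl
    ((3 / 2) * e2a - h4 * ((1 / 2) * (kc * kc))) rfl
    r2V e_r2V
    (v * glf) rfl
    (Vie * v) rfl
    (Vie * v * e2a) rfl
    (2 * (Vie * v * e2a)) (congrArg (fun y : ℝ => y * (Vie * v * e2a)) zc_2199023255552_0)
    (v * glf + 2 * (Vie * v * e2a)) rfl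
    (V * er) rfl
    yc e_yc
    (vs * glf) rfl
    (Vie * vs) rfl
    (Vie * vs * e2a) rfl
    (2 * (Vie * vs * e2a)) (congrArg (fun y : ℝ => y * (Vie * vs * e2a)) zc_2199023255552_0)
    (vs * glf + 2 * (Vie * vs * e2a)) rfl
    (wse * er) rfl
    ycR e_ycR
    r1w e_r1w
    (ycR * ycR) rfl
    kv e_kv
    ((1023 / 1024) * r1V) (congrArg (fun y : ℝ => y * r1V) zc_1098437885952_0)
    (r1w * r1w) rfl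
    (kv + r1w * r1w) rfl).2
    ((kv + r1w * r1w)⁻¹) rfl
    x1 e_x1
    (-x1) rfl
    ((-x1) + (1 : ℝ)) rfl
  change 0 < (-x1) + (1 : ℝ) at p_x11
  obtain ⟨p_X1, ch3⟩ := (((((((ch2
    (vs * vs * Vie) rfl
    z (e_z.trans (congrArg (fun y : ℝ => y * (vs * vs * Vie)) zc_2199023255552_0))
    sR0 e_sR0
    (sR0 - dzR) rfl
    (dzR * dzR) rfl
    m e_m
    m2 e_m2
    wn e_wn
    (8 * ie) (congrArg (fun y : ℝ => y * ie) zc_8796093022208_0)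
    (q - 8 * ie) rfl
    (Vie * rho) rfl
    q2 e_q2
    (Kq * x1) rfl
    z1 (e_z1.trans (congrArg (fun y : ℝ => y * (Kq * x1)) zc_2199023255552_0))
    (z1 * z1) rfl
    (z1 * z1 * ((1 : ℝ) * (3 : ℝ)⁻¹)) rfl
    (z1 * z1 * ((1 : ℝ) * (3 : ℝ)⁻¹) + (1 : ℝ)) rfl).2
    iz1 e_iz1
    th1 e_th1
    (q6 * x1) rfl
    (q6 * x1 * iz1) rfl
    (th1 * th1) rfl
    ((1 / 4) * (th1 * th1)) (congrArg (fun y : ℝ => y * (th1 * th1)) zc_274877906944_0)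
    ((1 / 4) * (th1 * th1) + (1 : ℝ)) rfl
    l1 e_l1
    (x1 + (1 : ℝ)) rfl
    (Kq * (x1 + (1 : ℝ))) rfl
    z2 (e_z2.trans (congrArg (fun y : ℝ => y * (Kq * (x1 + (1 : ℝ)))) zc_2199023255552_0))
    (z2 * z2) rfl
    (z2 * z2 * ((1 : ℝ) * (3 : ℝ)⁻¹)) rfl
    (z2 * z2 * ((1 : ℝ) * (3 : ℝ)⁻¹) + (1 : ℝ)) rfl).2
    iz2 e_iz2
    th2 e_th2
    (q6 * (x1 + (1 : ℝ))) rfl
    (q6 * (x1 + (1 : ℝ)) * iz2) rfl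
    (th2 * th2) rfl
    ((1 / 4) * (th2 * th2)) (congrArg (fun y : ℝ => y * (th2 * th2)) zc_274877906944_0)
    ((1 / 4) * (th2 * th2) + (1 : ℝ)) rfl
    l2 e_l2
    (l1 * V) rfl
    lv e_lv
    (q2 * lv) rfl
    (-(q2 * lv)) rfl
    u e_u
    (-c5) rfl
    xxa e_xxa
    ((1 / 2) * xxa) (congrArg (fun y : ℝ => y * xxa) zc_549755813888_0)
    (xxa + (1 : ℝ)) rfl
    (-(xxa + (1 : ℝ))) rfl
    ((1 / 2) * xxa * (-(xxa + (1 : ℝ)))) rfl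
    rca e_rca
    bna e_bna
    (q * wn) rfl
    (q * wn * c5) rfl
    (q * wn * c5 * l2) rfl
    ((1 / 2) * (q * wn * c5 * l2)) (congrArg (fun y : ℝ => y * (q * wn * c5 * l2)) zc_549755813888_0)
    wsa e_wsa
    ((1 / 2) * wsa) (congrArg (fun y : ℝ => y * wsa) zc_549755813888_0)
    (wsa * wsa) rfl
    ((1482911 / 16777216) * (wsa * wsa)) (congrArg (fun y : ℝ => y * (wsa * wsa)) zc_97184055296_0)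
    (1482911 / 1048576 : ℝ) zc_1554944884736_0
    ((1482911 / 16777216) * (wsa * wsa) + (1482911 / 1048576 : ℝ)) rfl
    ((1 / 2) * wsa + ((1482911 / 16777216) * (wsa * wsa) + (1482911 / 1048576 : ℝ))) rfl).2
    (((1 / 2) * wsa + ((1482911 / 16777216) * (wsa * wsa) + (1482911 / 1048576 : ℝ)))⁻¹) rfl
    ba e_ba
    (ba + (1 / 2) * (q * wn * c5 * l2)) rfl).2
    iba e_iba
    (wn + iba) rfl
    Maw e_Maw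
    (2 : ℝ) zc_2199023255552_0
    (x1 + (2 : ℝ)) rfl
    (Kq * (x1 + (2 : ℝ))) rfl
    z3 (e_z3.trans (congrArg (fun y : ℝ => y * (Kq * (x1 + (2 : ℝ)))) zc_2199023255552_0))
    (z3 * z3) rfl
    (z3 * z3 * ((1 : ℝ) * (3 : ℝ)⁻¹)) rfl
    (z3 * z3 * ((1 : ℝ) * (3 : ℝ)⁻¹) + (1 : ℝ)) rfl).2
    iz3 e_iz3
    th3 e_th3
    (q6 * (x1 + (2 : ℝ))) rfl
    (q6 * (x1 + (2 : ℝ)) * iz3) rfl
    (th3 * th3) rfl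
    ((1 / 4) * (th3 * th3)) (congrArg (fun y : ℝ => y * (th3 * th3)) zc_274877906944_0)
    ((1 / 4) * (th3 * th3) + (1 : ℝ)) rfl
    l3 e_l3
    cc5 e_cc5
    (-cc5) rfl
    xxc e_xxc
    ((1 / 2) * xxc) (congrArg (fun y : ℝ => y * xxc) zc_549755813888_0)
    (xxc + (1 : ℝ)) rfl
    (-(xxc + (1 : ℝ))) rfl
    ((1 / 2) * xxc * (-(xxc + (1 : ℝ)))) rfl
    rcc e_rcc
    bnc e_bnc
    (q * wn * cc5) rfl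
    (q * wn * cc5 * l3) rfl
    ((1 / 2) * (q * wn * cc5 * l3)) (congrArg (fun y : ℝ => y * (q * wn * cc5 * l3)) zc_549755813888_0)
    wsc e_wsc
    ((1 / 2) * wsc) (congrArg (fun y : ℝ => y * wsc) zc_549755813888_0)
    (wsc * wsc) rfl
    ((1482911 / 16777216) * (wsc * wsc)) (congrArg (fun y : ℝ => y * (wsc * wsc)) zc_97184055296_0)
    ((1482911 / 16777216) * (wsc * wsc) + (1482911 / 1048576 : ℝ)) rfl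
    ((1 / 2) * wsc + ((1482911 / 16777216) * (wsc * wsc) + (1482911 / 1048576 : ℝ))) rfl).2
    (((1 / 2) * wsc + ((1482911 / 16777216) * (wsc * wsc) + (1482911 / 1048576 : ℝ)))⁻¹) rfl
    bc e_bc
    (bc + (1 / 2) * (q * wn * cc5 * l3)) rfl).2
    ibc e_ibc
    (l2 * V) rfl
    (l2 * V * m2) rfl
    (l2 * V * m2 * c5) rfl
    (q2 * (l2 * V * m2 * c5)) rfl
    (-(q2 * (l2 * V * m2 * c5))) rfl
    ub e_ub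
    (wn + ibc) rfl
    Mbw e_Mbw
    ((1 : ℝ) - X) rfl
  change 0 < (1 : ℝ) - X at p_X1
  obtain ⟨p_cG, ch4⟩ := (((ch3).2
    iX e_iX
    ((1 / 2) * X) (congrArg (fun y : ℝ => y * X) zc_549755813888_0)
    ((1 : ℝ) + (1 / 2) * X) rfl
    (X * X) rfl
    (X * X * iX) rfl
    ((174763 / 524288) * (X * X * iX)) (congrArg (fun y : ℝ => y * (X * X * iX)) zc_366504574976_0)
    LX e_LX
    uX e_uX
    ((1 / 2) * uX) (congrArg (fun y : ℝ => y * uX) zc_549755813888_0)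
    ((1 : ℝ) + (1 / 2) * uX) rfl
    (uX * uX) rfl
    ((1 : ℝ) - uX) rfl).2
    (((1 : ℝ) - uX)⁻¹) rfl
    (uX * uX * ((1 : ℝ) - uX)⁻¹) rfl
    ((174763 / 524288) * (uX * uX * ((1 : ℝ) - uX)⁻¹)) (congrArg (fun y : ℝ => y * (uX * uX * ((1 : ℝ) - uX)⁻¹)) zc_366504574976_0)
    LU e_LU).2
    im e_im
    dz e_dz
    (dzS * Mbw) rfl
    (dzS * Mbw * im) rfl
    (dz + dzS * Mbw * im) rfl
    (X * LX) rfl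
    DG e_DG
    (dzS * Maw) rfl
    (dzS * Maw * im) rfl
    (uX * LU) rfl
    DF e_DF
    (v * DG) rfl
    vDG e_vDG
    (-DG) rfl
    (123 / 128 : ℝ) zc_1056561954816_0
    ((-DG) + (123 / 128 : ℝ)) rfl
  change 0 < (-DG) + (123 / 128 : ℝ) at p_cG
  obtain ⟨p_cF, ch5⟩ := ch4
    (-DF) rfl
    ((-DF) + (123 / 128 : ℝ)) rfl
  change 0 < (-DF) + (123 / 128 : ℝ) at p_cF
  obtain ⟨p_Es, ch6⟩ := ch5
    ((1111491 / 1048576) * e2a) (congrArg (fun y : ℝ => y * e2a) zc_1165482786816_0)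
    (2 * DG) (congrArg (fun y : ℝ => y * DG) zc_2199023255552_0)
    (2 * DG + DF) rfl
    (ie * (2 * DG + DF)) rfl
    (vDG + ie * (2 * DG + DF)) rfl
    EQ e_EQ
    ER e_ER
    Qw e_Qw
    ((1 : ℝ) - Qw) rfl
  change 0 < (1 : ℝ) - Qw at p_Es
  obtain ⟨p_R1, ch7⟩ := ch6
    (2 * Qw) (congrArg (fun y : ℝ => y * Qw) zc_2199023255552_0)
    (-(2 * Qw)) rfl
    c2 e_c2
    (kv - (1 : ℝ)) rfl
    ((1 / 2) * (kv - (1 : ℝ))) (congrArg (fun y : ℝ => y * (kv - (1 : ℝ))) zc_549755813888_0)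
    s1 e_s1
    (5919 / 4096 : ℝ) zc_1588869464064_0
    (dzR + (1 : ℝ)) rfl
    ((dzR + (1 : ℝ)) * (dzR + (1 : ℝ))) rfl
    ((5919 / 4096 : ℝ) - (dzR + (1 : ℝ)) * (dzR + (1 : ℝ))) rfl
  change 0 < (5919 / 4096 : ℝ) - (dzR + (1 : ℝ)) * (dzR + (1 : ℝ)) at p_R1
  obtain ⟨p_R2, ch8⟩ := ch7
    (2509 / 1024 : ℝ) zc_2694018236416_0
    ((2509 / 1024 : ℝ) - r2V) rfl
    ((2509 / 1024 : ℝ) - r2V - EQ) rfl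
    (s1 + dzR) rfl
    (s1 + dzR + ER) rfl
    ((s1 + dzR + ER) * (s1 + dzR + ER)) rfl
    ((2509 / 1024 : ℝ) - r2V - EQ - (s1 + dzR + ER) * (s1 + dzR + ER)) rfl
  change 0 < (2509 / 1024 : ℝ) - r2V - EQ - (s1 + dzR + ER) * (s1 + dzR + ER) at p_R2
  obtain ⟨p_h9, ch9⟩ := ch8
    (m2 * c2) rfl
    ((9646899 / 1048576) * (m2 * c2)) (congrArg (fun y : ℝ => y * (m2 * c2)) zc_10115506765824_0)
    ((9646899 / 1048576) * (m2 * c2) - (2509 / 1024 : ℝ)) rfl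
  change 0 < (9646899 / 1048576) * (m2 * c2) - (2509 / 1024 : ℝ) at p_h9
  obtain ⟨p_h2, ch10⟩ := ch9
    ((471859 / 524288) * (m2 * c2)) (congrArg (fun y : ℝ => y * (m2 * c2)) zc_989560045568_0)
    ((24591 / 4096) * Vie) (congrArg (fun y : ℝ => y * Vie) zc_6601096298496_0)
    ((471859 / 524288) * (m2 * c2) - (24591 / 4096) * Vie) rfl
  change 0 < (471859 / 524288) * (m2 * c2) - (24591 / 4096) * Vie at p_h2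
  obtain ⟨p_q20, ch11⟩ := ch10
  change 0 < q2 at p_q20
  obtain ⟨p_dzS0, ch12⟩ := ch11
  change 0 < sR0 - dzR at p_dzS0
  obtain ⟨p_m0, ch13⟩ := ch12
  change 0 < m at p_m0
  obtain ⟨p_x0, ch14⟩ := (ch13
    (K * x1) rfl
    (2 * (K * x1)) (congrArg (fun y : ℝ => y * (K * x1)) zc_2199023255552_0)
    exK e_exK
    (EQ * exK) rfl
    (q6 * m2) rfl
    (q6 * m2 * ((1 : ℝ) - Qw)) rfl).2
    ((q6 * m2 * ((1 : ℝ) - Qw))⁻¹) rfl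
    d e_d
    (x1 - d) rfl
    (301 / 512 : ℝ) zc_646392578048_0
    (x1 - d - (301 / 512 : ℝ)) rfl
  change 0 < x1 - d - (301 / 512 : ℝ) at p_x0
  obtain ⟨p_Er, ch15⟩ := ch14
    (r1V - EQ) rfl
  change 0 < r1V - EQ at p_Er
  obtain ⟨p_La, ch16⟩ := ch15
    ((1 : ℝ) - 2 * Qw) rfl
    (m2 * ((1 : ℝ) - 2 * Qw)) rfl
    ((1497 / 1024) * (m2 * ((1 : ℝ) - 2 * Qw))) (congrArg (fun y : ℝ => y * (m2 * ((1 : ℝ) - 2 * Qw))) zc_1607391510528_0)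
    ((1497 / 1024) * (m2 * ((1 : ℝ) - 2 * Qw)) - r2V) rfl
    ((1497 / 1024) * (m2 * ((1 : ℝ) - 2 * Qw)) - r2V - EQ) rfl
  change 0 < (1497 / 1024) * (m2 * ((1 : ℝ) - 2 * Qw)) - r2V - EQ at p_La
  obtain ⟨p_y0, ch17⟩ := ch16
    E e_E
    (yc + E) rfl
    (-(yc + E)) rfl
    ((29 / 64) * K) (congrArg (fun y : ℝ => y * K) zc_498216206336_0)
    ((-(yc + E)) + (29 / 64) * K) rfl
    (3277 / 1024 : ℝ) zc_3518651957248_0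
    ((-(yc + E)) + (29 / 64) * K + (3277 / 1024 : ℝ)) rfl
  change 0 < (-(yc + E)) + (29 / 64) * K + (3277 / 1024 : ℝ) at p_y0
  obtain ⟨p_EM2, ch18⟩ := ((((ch17
    x2 e_x2
    (Kq * x2) rfl
    z4 (e_z4.trans (congrArg (fun y : ℝ => y * (Kq * x2)) zc_2199023255552_0))
    (z4 * z4) rfl
    (z4 * z4 * ((1 : ℝ) * (3 : ℝ)⁻¹)) rfl
    (z4 * z4 * ((1 : ℝ) * (3 : ℝ)⁻¹) + (1 : ℝ)) rfl).2
    iz4 e_iz4
    th4 e_th4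
    (q6 * x2) rfl
    (q6 * x2 * iz4) rfl
    (th4 * th4) rfl
    ((1 / 4) * (th4 * th4)) (congrArg (fun y : ℝ => y * (th4 * th4)) zc_274877906944_0)
    ((1 / 4) * (th4 * th4) + (1 : ℝ)) rfl
    l4 e_l4
    (l4 * V) rfl
    (l4 * V * m2) rfl
    (l4 * V * m2 * c2) rfl
    (q2 * (l4 * V * m2 * c2)) rfl
    (-(q2 * (l4 * V * m2 * c2))) rfl
    u1 e_u1
    (x2 + (1 : ℝ)) rfl
    (Kq * (x2 + (1 : ℝ))) rfl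
    z5 (e_z5.trans (congrArg (fun y : ℝ => y * (Kq * (x2 + (1 : ℝ)))) zc_2199023255552_0))
    (z5 * z5) rfl
    (z5 * z5 * ((1 : ℝ) * (3 : ℝ)⁻¹)) rfl
    (z5 * z5 * ((1 : ℝ) * (3 : ℝ)⁻¹) + (1 : ℝ)) rfl).2
    iz5 e_iz5
    th5 e_th5
    (q6 * (x2 + (1 : ℝ))) rfl
    (q6 * (x2 + (1 : ℝ)) * iz5) rfl
    (th5 * th5) rfl
    ((1 / 4) * (th5 * th5)) (congrArg (fun y : ℝ => y * (th5 * th5)) zc_274877906944_0)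
    ((1 / 4) * (th5 * th5) + (1 : ℝ)) rfl
    l5 e_l5
    cd5 e_cd5
    (-cd5) rfl
    xxn e_xxn
    ((1 / 2) * xxn) (congrArg (fun y : ℝ => y * xxn) zc_549755813888_0)
    (xxn + (1 : ℝ)) rfl
    (-(xxn + (1 : ℝ))) rfl
    ((1 / 2) * xxn * (-(xxn + (1 : ℝ)))) rfl
    rcn e_rcn
    bnn e_bnn
    (q * wn * cd5) rfl
    (q * wn * cd5 * l5) rfl
    ((1 / 2) * (q * wn * cd5 * l5)) (congrArg (fun y : ℝ => y * (q * wn * cd5 * l5)) zc_549755813888_0)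
    wsn e_wsn
    ((1 / 2) * wsn) (congrArg (fun y : ℝ => y * wsn) zc_549755813888_0)
    (wsn * wsn) rfl
    ((1482911 / 16777216) * (wsn * wsn)) (congrArg (fun y : ℝ => y * (wsn * wsn)) zc_97184055296_0)
    ((1482911 / 16777216) * (wsn * wsn) + (1482911 / 1048576 : ℝ)) rfl
    ((1 / 2) * wsn + ((1482911 / 16777216) * (wsn * wsn) + (1482911 / 1048576 : ℝ))) rfl).2
    (((1 / 2) * wsn + ((1482911 / 16777216) * (wsn * wsn) + (1482911 / 1048576 : ℝ)))⁻¹) rfl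
    bn e_bn
    (bn + (1 / 2) * (q * wn * cd5 * l5)) rfl).2
    ibn e_ibn
    (wn + ibn) rfl
    Mnw e_Mnw
    (EQ * w) rfl
    (EQ * w * Mnw) rfl
    (EQ * w * Mnw * im) rfl
    EM e_EM
    EMr e_EMr
    ((1 / 2) * EM) (congrArg (fun y : ℝ => y * EM) zc_549755813888_0)
    ((1 : ℝ) - (1 / 2) * EM) rfl
  change 0 < (1 : ℝ) - (1 / 2) * EM at p_EM2
  obtain ⟨p_cl, ch19⟩ := (ch18).2
    i2 e_i2
    ((1 / 2) * EM + (1 : ℝ)) rfl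
    eta e_eta
    r2w e_r2w
    (2 * kc) (congrArg (fun y : ℝ => y * kc) zc_2199023255552_0)
    (r2w + 2 * kc) rfl
    (r2w * (r2w + 2 * kc)) rfl
    DPx e_DPx
    (r2w * r2w) rfl
    (kv + r2w * r2w) rfl
    VcR e_VcR
    (DPx - (1 : ℝ)) rfl
    ((1 / 2) * (DPx - (1 : ℝ))) (congrArg (fun y : ℝ => y * (DPx - (1 : ℝ))) zc_549755813888_0)
    DPR e_DPR
    ((133 / 512) * ta) (congrArg (fun y : ℝ => y * ta) zc_285615325184_0)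
    (223 / 4096 : ℝ) zc_59861106688_0
    a0 e_a0
    (EMr * i2) rfl
    (eta * u1) rfl
    (eta * u1 * a0) rfl
    (DPR + VcR) rfl
    (DPR + VcR + ER) rfl
    (eta * u1 * a0 * (DPR + VcR + ER)) rfl
    (EMr * i2 + eta * u1 * a0 * (DPR + VcR + ER)) rfl
    (-(EMr * i2 + eta * u1 * a0 * (DPR + VcR + ER))) rfl
    ((1 / 1024) * K) (congrArg (fun y : ℝ => y * K) zc_1073741824_0)
    ((1 : ℝ) - (1 / 1024) * K) rfl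
    (((1 : ℝ) - (1 / 1024) * K) * Xc) rfl
    ((-(EMr * i2 + eta * u1 * a0 * (DPR + VcR + ER))) + ((1 : ℝ) - (1 / 1024) * K) * Xc) rfl
  change 0 < (-(EMr * i2 + eta * u1 * a0 * (DPR + VcR + ER))) + ((1 : ℝ) - (1 / 1024) * K) * Xc at p_cl
  obtain ⟨p_t9, ch20⟩ := ch19
    ((3294199 / 1048576) * ie) (congrArg (fun y : ℝ => y * ie) zc_3454218010624_0)
    ((3294199 / 1048576) * ie * DF) rfl
    ((3294199 / 1048576) * se) (congrArg (fun y : ℝ => y * se) zc_3454218010624_0)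
    ((3294199 / 1048576) * se * G2S) rfl
    ((3294199 / 1048576) * ie * DF + (3294199 / 1048576) * se * G2S) rfl
    ((147325 / 262144) * Vie) (congrArg (fun y : ℝ => y * Vie) zc_617925836800_0)
    (a * a) rfl
    ((277873 / 524288) * (a * a)) (congrArg (fun y : ℝ => y * (a * a)) zc_582741917696_0)
    ((147325 / 262144) * Vie + (277873 / 524288) * (a * a)) rfl
    ((56361 / 131072) * K2) (congrArg (fun y : ℝ => y * K2) zc_472790335488_0)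
    ((147325 / 262144) * Vie + (277873 / 524288) * (a * a) + (56361 / 131072) * K2) rfl
    ((3294199 / 1048576) * ((147325 / 262144) * Vie + (277873 / 524288) * (a * a) + (56361 / 131072) * K2)) (congrArg (fun y : ℝ => y * ((147325 / 262144) * Vie + (277873 / 524288) * (a * a) + (56361 / 131072) * K2)) zc_3454218010624_0)
    ((3294199 / 1048576) * ie * DF + (3294199 / 1048576) * se * G2S + (3294199 / 1048576) * ((147325 / 262144) * Vie + (277873 / 524288) * (a * a) + (56361 / 131072) * K2)) rfl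
    (V * Vie) rfl
    ((167773 / 1048576) * (V * Vie)) (congrArg (fun y : ℝ => y * (V * Vie)) zc_175922741248_0)
    ((3294199 / 1048576) * ie * DF + (3294199 / 1048576) * se * G2S + (3294199 / 1048576) * ((147325 / 262144) * Vie + (277873 / 524288) * (a * a) + (56361 / 131072) * K2) + (167773 / 1048576) * (V * Vie)) rfl
    ((1111491 / 1048576) * a) (congrArg (fun y : ℝ => y * a) zc_1165482786816_0)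
    ((146801 / 524288) * K2) (congrArg (fun y : ℝ => y * K2) zc_307864010752_0)
    ((1111491 / 1048576) * a + (146801 / 524288) * K2) rfl
    (bb * ((1111491 / 1048576) * a + (146801 / 524288) * K2)) rfl
    ((3294199 / 1048576) * ie * DF + (3294199 / 1048576) * se * G2S + (3294199 / 1048576) * ((147325 / 262144) * Vie + (277873 / 524288) * (a * a) + (56361 / 131072) * K2) + (167773 / 1048576) * (V * Vie) + bb * ((1111491 / 1048576) * a + (146801 / 524288) * K2)) rfl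
    ((10349031 / 1048576) * ie) (congrArg (fun y : ℝ => y * ie) zc_10851745529856_0)
    ((587203 / 1048576) * (a * a)) (congrArg (fun y : ℝ => y * (a * a)) zc_615726972928_0)
    ((314573 / 1048576) * K2) (congrArg (fun y : ℝ => y * K2) zc_329853698048_0)
    ((587203 / 1048576) * (a * a) + (314573 / 1048576) * K2) rfl
    ((10349031 / 1048576) * ie * ((587203 / 1048576) * (a * a) + (314573 / 1048576) * K2)) rfl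
    ((3294199 / 1048576) * ie * DF + (3294199 / 1048576) * se * G2S + (3294199 / 1048576) * ((147325 / 262144) * Vie + (277873 / 524288) * (a * a) + (56361 / 131072) * K2) + (167773 / 1048576) * (V * Vie) + bb * ((1111491 / 1048576) * a + (146801 / 524288) * K2) + (10349031 / 1048576) * ie * ((587203 / 1048576) * (a * a) + (314573 / 1048576) * K2)) rfl
    tn (e_tn.trans (congrArg (fun y : ℝ => y * ((3294199 / 1048576) * ie * DF + (3294199 / 1048576) * se * G2S + (3294199 / 1048576) * ((147325 / 262144) * Vie + (277873 / 524288) * (a * a) + (56361 / 131072) * K2) + (167773 / 1048576) * (V * Vie) + bb * ((1111491 / 1048576) * a + (146801 / 524288) * K2) + (10349031 / 1048576) * ie * ((587203 / 1048576) * (a * a) + (314573 / 1048576) * K2))) zc_1110506995712_0))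
    (DF + tn) rfl
    (-(DF + tn)) rfl
    (471859 / 524288 : ℝ) zc_989560045568_0
    ((-(DF + tn)) + (471859 / 524288 : ℝ)) rfl
  change 0 < (-(DF + tn)) + (471859 / 524288 : ℝ) at p_t9
  exact ⟨⟨se, ie, K, K2, q6, Kq, Yt, Y2, wm, wm2, wse0, q, sp, v2, sg2, L, sR, kc, w, V, wse, iR, vs,
    iR2, bb, K2se, GrS, gd, svt, GtS, G2S, glf, X, rho, c5, Xc, rb, Vie, a, ea, e2a, er, h4,
    dzS, dzR, r1V, r2V, yc, ycR, r1w, kv, x1, z, sR0, m, m2, wn, q2, z1, iz1, th1, l1, z2, iz2,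
    th2, l2, lv, u, xxa, rca, bna, wsa, ba, iba, Maw, z3, iz3, th3, l3, cc5, xxc, rcc, bnc, wsc,
    bc, ibc, ub, Mbw, iX, LX, uX, LU, im, dz, DG, DF, vDG, EQ, ER, Qw, c2, s1, exK, d, E, x2,
    z4, iz4, th4, l4, u1, z5, iz5, th5, l5, cd5, xxn, rcn, bnn, wsn, bn, ibn, Mnw, EM, EMr, i2,
    eta, r2w, DPx, VcR, DPR, a0, e_se, e_ie, e_K, e_K2, e_q6, e_Kq, e_Yt, e_Y2, e_wm, e_wm2,
    e_wse0, e_q, e_sp, e_v2, e_sg2, e_L, e_sR, e_kc, e_w, e_V, e_wse, e_iR, e_vs, e_iR2, e_bb,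
    e_K2se, e_GrS, e_gd, e_svt, e_GtS, e_G2S, e_glf, e_X, e_rho, e_c5, e_Xc, e_rb, e_Vie, e_a,
    e_ea, e_e2a, e_er, e_h4, e_dzS, e_dzR, e_r1V, e_r2V, e_yc, e_ycR, e_r1w, e_kv, e_x1, e_z,
    e_sR0, e_m, e_m2, e_wn, e_q2, e_z1, e_iz1, e_th1, e_l1, e_z2, e_iz2, e_th2, e_l2, e_lv, e_u,
    e_xxa, e_rca, e_bna, e_wsa, e_ba, e_iba, e_Maw, e_z3, e_iz3, e_th3, e_l3, e_cc5, e_xxc,
    e_rcc, e_bnc, e_wsc, e_bc, e_ibc, e_ub, e_Mbw, e_iX, e_LX, e_uX, e_LU, e_im, e_dz, e_DG,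
    e_DF, e_vDG, e_EQ, e_ER, e_Qw, e_c2, e_s1, e_exK, e_d, e_E, e_x2, e_z4, e_iz4, e_th4, e_l4,
    e_u1, e_z5, e_iz5, e_th5, e_l5, e_cd5, e_xxn, e_rcn, e_bnn, e_wsn, e_bn, e_ibn, e_Mnw, e_EM,
    e_EMr, e_i2, e_eta, e_r2w, e_DPx, e_VcR, e_DPR, e_a0, p_gd, p_a1, p_x11, p_X1, p_cG, p_cF,
    p_Es, p_R1, p_R2, p_h9, p_h2, p_q20, p_dzS0, p_m0, p_x0, p_Er, p_La, p_y0, p_EM2, p_cl⟩,
    ⟨tn, e_tn, p_t9⟩⟩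

theorem ex_TB_1 {om ta v : ℝ} (h : RAs Cert.TB.prog1 [om, ta, v]) :
    ∃ P : PFB cFB2 om ta v, Nonempty (PFBT P) := by
  obtain ⟨se, e_se⟩ : ∃ zz : ℝ, zz = om * ta := ⟨_, rfl⟩
  obtain ⟨ie, e_ie⟩ : ∃ zz : ℝ, zz = se * se := ⟨_, rfl⟩
  obtain ⟨K, e_K⟩ : ∃ zz : ℝ, zz = om * se := ⟨_, rfl⟩
  obtain ⟨K2, e_K2⟩ : ∃ zz : ℝ, zz = K * K := ⟨_, rfl⟩
  obtain ⟨q6, e_q6⟩ : ∃ zz : ℝ, zz = (1 : ℝ) - K2 * ((1 : ℝ) * (6 : ℝ)⁻¹) := ⟨_, rfl⟩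
  obtain ⟨Kq, e_Kq⟩ : ∃ zz : ℝ, zz = K * q6 := ⟨_, rfl⟩
  obtain ⟨Yt, e_Yt⟩ : ∃ zz : ℝ, zz = (7 / 2) * ta := ⟨_, rfl⟩
  obtain ⟨Y2, e_Y2⟩ : ∃ zz : ℝ, zz = Yt * Yt := ⟨_, rfl⟩
  obtain ⟨wm, e_wm⟩ : ∃ zz : ℝ, zz = Yt * ((1 : ℝ) + Y2 * ((1 / 2 : ℝ) - (1 / 8) * Y2))⁻¹ := ⟨_, rfl⟩
  obtain ⟨wm2, e_wm2⟩ : ∃ zz : ℝ, zz = wm * wm := ⟨_, rfl⟩
  obtain ⟨wse0, e_wse0⟩ : ∃ zz : ℝ, zz = wm * se := ⟨_, rfl⟩
  obtain ⟨q, e_q⟩ : ∃ zz : ℝ, zz = (4095 / 4096 : ℝ) - (1449 / 512) * wse0 - 23 * ie - (1 / 2) * K2 := ⟨_, rfl⟩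
  obtain ⟨sp, e_sp⟩ : ∃ zz : ℝ, zz = (4095 / 4096 : ℝ) - (2899 / 2048) * wse0 - 19 * ie - (553 / 1024) * K2 := ⟨_, rfl⟩
  obtain ⟨v2, e_v2⟩ : ∃ zz : ℝ, zz = v * v := ⟨_, rfl⟩
  obtain ⟨sg2, e_sg2⟩ : ∃ zz : ℝ, zz = v2 * (ta * ta) + (1 : ℝ) := ⟨_, rfl⟩
  obtain ⟨L, e_L⟩ : ∃ zz : ℝ, zz = (1 / 2) * Real.log sg2 := ⟨_, rfl⟩
  obtain ⟨sR, e_sR⟩ : ∃ zz : ℝ, zz = Real.exp L := ⟨_, rfl⟩
  obtain ⟨kc, e_kc⟩ : ∃ zz : ℝ, zz = Real.exp (-L) := ⟨_, rfl⟩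
  obtain ⟨w, e_w⟩ : ∃ zz : ℝ, zz = om * sR := ⟨_, rfl⟩
  obtain ⟨V, e_V⟩ : ∃ zz : ℝ, zz = w * w := ⟨_, rfl⟩
  obtain ⟨wse, e_wse⟩ : ∃ zz : ℝ, zz = w * se := ⟨_, rfl⟩
  obtain ⟨iR, e_iR⟩ : ∃ zz : ℝ, zz = ta * kc := ⟨_, rfl⟩
  obtain ⟨vs, e_vs⟩ : ∃ zz : ℝ, zz = v * iR := ⟨_, rfl⟩
  obtain ⟨iR2, e_iR2⟩ : ∃ zz : ℝ, zz = iR * iR := ⟨_, rfl⟩
  obtain ⟨bb, e_bb⟩ : ∃ zz : ℝ, zz = om * om := ⟨_, rfl⟩
  obtain ⟨K2se, e_K2se⟩ : ∃ zz : ℝ, zz = bb * se := ⟨_, rfl⟩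
  obtain ⟨GrS, e_GrS⟩ : ∃ zz : ℝ, zz = (1 / 2) * om + (143913 / 524288) * se + (366181 / 524288) * iR := ⟨_, rfl⟩
  obtain ⟨gd, e_gd⟩ : ∃ zz : ℝ, zz = ((-364089 / 524288) * w + (873813 / 524288 : ℝ)) * ((366181 / 262144) * ta) + (143913 / 262144) * ta + (1 : ℝ) := ⟨_, rfl⟩
  obtain ⟨svt, e_svt⟩ : ∃ zz : ℝ, zz = se * v2 * ta * gd⁻¹ := ⟨_, rfl⟩
  obtain ⟨GtS, e_GtS⟩ : ∃ zz : ℝ, zz = GrS + svt := ⟨_, rfl⟩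
  obtain ⟨G2S, e_G2S⟩ : ∃ zz : ℝ, zz = GrS + (1 / 4) * svt := ⟨_, rfl⟩
  obtain ⟨glf, e_glf⟩ : ∃ zz : ℝ, zz = Real.exp (ie * ((838861 / 524288) * V + (363409 / 524288 : ℝ)) - (1 / 2) * Kq) := ⟨_, rfl⟩
  obtain ⟨X, e_X⟩ : ∃ zz : ℝ, zz = (1209 / 4096) * sR := ⟨_, rfl⟩
  obtain ⟨rho, e_rho⟩ : ∃ zz : ℝ, zz = (2509 / 512) * wm2 + (2509 / 2048 : ℝ) := ⟨_, rfl⟩
  obtain ⟨c5, e_c5⟩ : ∃ zz : ℝ, zz = (1 : ℝ) - 500 * (ie * ie) := ⟨_, rfl⟩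
  obtain ⟨Xc, e_Xc⟩ : ∃ zz : ℝ, zz = (1 / 4) * ((1209 / 4096) * (4 * ta + (1 : ℝ))) := ⟨_, rfl⟩
  obtain ⟨rb, e_rb⟩ : ∃ zz : ℝ, zz = iR + (1 / 4) * kc := ⟨_, rfl⟩
  obtain ⟨Vie, e_Vie⟩ : ∃ zz : ℝ, zz = V * ie := ⟨_, rfl⟩
  obtain ⟨a, e_a⟩ : ∃ zz : ℝ, zz = se * GtS + (1055 / 1024) * ie := ⟨_, rfl⟩
  obtain ⟨ea, e_ea⟩ : ∃ zz : ℝ, zz = Real.exp a := ⟨_, rfl⟩
  obtain ⟨e2a, e_e2a⟩ : ∃ zz : ℝ, zz = ea * ea := ⟨_, rfl⟩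
  obtain ⟨er, e_er⟩ : ∃ zz : ℝ, zz = ((838861 / 524288) * V + (5 / 2) * v) * ie := ⟨_, rfl⟩
  obtain ⟨h4, e_h4⟩ : ∃ zz : ℝ, zz = (1 : ℝ) - (1 / 4) * K2 := ⟨_, rfl⟩
  obtain ⟨dzS, e_dzS⟩ : ∃ zz : ℝ, zz = vs * (G2S + ea * ((1 / 2) * (se * GtS * GtS) + (149797 / 1048576) * K2se)) + w * ((3 / 2) * e2a - (3 / 2 : ℝ) + (3 / 4) * K2 + v * ie + er) + K2se * ((1 / 8) * (v * vs * ie)) := ⟨_, rfl⟩
  obtain ⟨dzR, e_dzR⟩ : ∃ zz : ℝ, zz = dzS * se := ⟨_, rfl⟩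
  obtain ⟨r1V, e_r1V⟩ : ∃ zz : ℝ, zz = h4 * ((3 : ℝ) - (3 / 2) * e2a) - (1 / 2) * (kc * kc) - vs * vs * ea - er := ⟨_, rfl⟩
  obtain ⟨r2V, e_r2V⟩ : ∃ zz : ℝ, zz = (3 / 2) * e2a - h4 * ((1 / 2) * (kc * kc)) + er := ⟨_, rfl⟩
  obtain ⟨yc, e_yc⟩ : ∃ zz : ℝ, zz = v * glf + 2 * (Vie * v * e2a) + V * er := ⟨_, rfl⟩
  obtain ⟨ycR, e_ycR⟩ : ∃ zz : ℝ, zz = vs * glf + 2 * (Vie * vs * e2a) + wse * er := ⟨_, rfl⟩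
  obtain ⟨r1w, e_r1w⟩ : ∃ zz : ℝ, zz = r1V * wse := ⟨_, rfl⟩
  obtain ⟨kv, e_kv⟩ : ∃ zz : ℝ, zz = kc * kc + ycR * ycR := ⟨_, rfl⟩
  obtain ⟨x1, e_x1⟩ : ∃ zz : ℝ, zz = (1023 / 1024) * r1V * (kv + r1w * r1w)⁻¹ := ⟨_, rfl⟩
  obtain ⟨z, e_z⟩ : ∃ zz : ℝ, zz = 2 * (vs * vs * Vie) := ⟨_, rfl⟩
  obtain ⟨sR0, e_sR0⟩ : ∃ zz : ℝ, zz = (1 : ℝ) - z := ⟨_, rfl⟩
  obtain ⟨m, e_m⟩ : ∃ zz : ℝ, zz = sR0 - dzR - dzR * dzR := ⟨_, rfl⟩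
  obtain ⟨m2, e_m2⟩ : ∃ zz : ℝ, zz = m * m := ⟨_, rfl⟩
  obtain ⟨wn, e_wn⟩ : ∃ zz : ℝ, zz = w * m := ⟨_, rfl⟩
  obtain ⟨q2, e_q2⟩ : ∃ zz : ℝ, zz = q - 8 * ie - Vie * rho := ⟨_, rfl⟩
  obtain ⟨z1, e_z1⟩ : ∃ zz : ℝ, zz = 2 * (Kq * x1) := ⟨_, rfl⟩
  obtain ⟨iz1, e_iz1⟩ : ∃ zz : ℝ, zz = (z1 * z1 * ((1 : ℝ) * (3 : ℝ)⁻¹) + (1 : ℝ))⁻¹ := ⟨_, rfl⟩
  obtain ⟨th1, e_th1⟩ : ∃ zz : ℝ, zz = z1 * iz1 := ⟨_, rfl⟩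
  obtain ⟨l1, e_l1⟩ : ∃ zz : ℝ, zz = q6 * x1 * iz1 * ((1 / 4) * (th1 * th1) + (1 : ℝ)) := ⟨_, rfl⟩
  obtain ⟨z2, e_z2⟩ : ∃ zz : ℝ, zz = 2 * (Kq * (x1 + (1 : ℝ))) := ⟨_, rfl⟩
  obtain ⟨iz2, e_iz2⟩ : ∃ zz : ℝ, zz = (z2 * z2 * ((1 : ℝ) * (3 : ℝ)⁻¹) + (1 : ℝ))⁻¹ := ⟨_, rfl⟩
  obtain ⟨th2, e_th2⟩ : ∃ zz : ℝ, zz = z2 * iz2 := ⟨_, rfl⟩
  obtain ⟨l2, e_l2⟩ : ∃ zz : ℝ, zz = q6 * (x1 + (1 : ℝ)) * iz2 * ((1 / 4) * (th2 * th2) + (1 : ℝ)) := ⟨_, rfl⟩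
  obtain ⟨lv, e_lv⟩ : ∃ zz : ℝ, zz = l1 * V * m2 := ⟨_, rfl⟩
  obtain ⟨u, e_u⟩ : ∃ zz : ℝ, zz = Real.exp (-(q2 * lv)) := ⟨_, rfl⟩
  obtain ⟨xxa, e_xxa⟩ : ∃ zz : ℝ, zz = (-c5) + (1 : ℝ) := ⟨_, rfl⟩
  obtain ⟨rca, e_rca⟩ : ∃ zz : ℝ, zz = (1 / 2) * xxa * (-(xxa + (1 : ℝ))) + (1 : ℝ) := ⟨_, rfl⟩
  obtain ⟨bna, e_bna⟩ : ∃ zz : ℝ, zz = sp * rca := ⟨_, rfl⟩
  obtain ⟨wsa, e_wsa⟩ : ∃ zz : ℝ, zz = bna * wn := ⟨_, rfl⟩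
  obtain ⟨ba, e_ba⟩ : ∃ zz : ℝ, zz = bna * ((1 / 2) * wsa + ((1482911 / 16777216) * (wsa * wsa) + (1482911 / 1048576 : ℝ)))⁻¹ := ⟨_, rfl⟩
  obtain ⟨iba, e_iba⟩ : ∃ zz : ℝ, zz = (ba + (1 / 2) * (q * wn * c5 * l2))⁻¹ := ⟨_, rfl⟩
  obtain ⟨Maw, e_Maw⟩ : ∃ zz : ℝ, zz = u * (wn + iba) := ⟨_, rfl⟩
  obtain ⟨z3, e_z3⟩ : ∃ zz : ℝ, zz = 2 * (Kq * (x1 + (2 : ℝ))) := ⟨_, rfl⟩
  obtain ⟨iz3, e_iz3⟩ : ∃ zz : ℝ, zz = (z3 * z3 * ((1 : ℝ) * (3 : ℝ)⁻¹) + (1 : ℝ))⁻¹ := ⟨_, rfl⟩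
  obtain ⟨th3, e_th3⟩ : ∃ zz : ℝ, zz = z3 * iz3 := ⟨_, rfl⟩
  obtain ⟨l3, e_l3⟩ : ∃ zz : ℝ, zz = q6 * (x1 + (2 : ℝ)) * iz3 * ((1 / 4) * (th3 * th3) + (1 : ℝ)) := ⟨_, rfl⟩
  obtain ⟨cc5, e_cc5⟩ : ∃ zz : ℝ, zz = c5 * c5 := ⟨_, rfl⟩
  obtain ⟨xxc, e_xxc⟩ : ∃ zz : ℝ, zz = (-cc5) + (1 : ℝ) := ⟨_, rfl⟩
  obtain ⟨rcc, e_rcc⟩ : ∃ zz : ℝ, zz = (1 / 2) * xxc * (-(xxc + (1 : ℝ))) + (1 : ℝ) := ⟨_, rfl⟩
  obtain ⟨bnc, e_bnc⟩ : ∃ zz : ℝ, zz = sp * rcc := ⟨_, rfl⟩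
  obtain ⟨wsc, e_wsc⟩ : ∃ zz : ℝ, zz = bnc * wn := ⟨_, rfl⟩
  obtain ⟨bc, e_bc⟩ : ∃ zz : ℝ, zz = bnc * ((1 / 2) * wsc + ((1482911 / 16777216) * (wsc * wsc) + (1482911 / 1048576 : ℝ)))⁻¹ := ⟨_, rfl⟩
  obtain ⟨ibc, e_ibc⟩ : ∃ zz : ℝ, zz = (bc + (1 / 2) * (q * wn * cc5 * l3))⁻¹ := ⟨_, rfl⟩
  obtain ⟨ub, e_ub⟩ : ∃ zz : ℝ, zz = Real.exp (-(q2 * (l2 * V * m2 * c5))) := ⟨_, rfl⟩
  obtain ⟨Mbw, e_Mbw⟩ : ∃ zz : ℝ, zz = ub * (wn + ibc) := ⟨_, rfl⟩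
  obtain ⟨iX, e_iX⟩ : ∃ zz : ℝ, zz = ((1 : ℝ) - X)⁻¹ := ⟨_, rfl⟩
  obtain ⟨LX, e_LX⟩ : ∃ zz : ℝ, zz = (1 : ℝ) + (1 / 2) * X + (174763 / 524288) * (X * X * iX) := ⟨_, rfl⟩
  obtain ⟨uX, e_uX⟩ : ∃ zz : ℝ, zz = u * X := ⟨_, rfl⟩
  obtain ⟨LU, e_LU⟩ : ∃ zz : ℝ, zz = (1 : ℝ) + (1 / 2) * uX + (174763 / 524288) * (uX * uX * ((1 : ℝ) - uX)⁻¹) := ⟨_, rfl⟩
  obtain ⟨im, e_im⟩ : ∃ zz : ℝ, zz = m⁻¹ := ⟨_, rfl⟩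
  obtain ⟨dz, e_dz⟩ : ∃ zz : ℝ, zz = dzS * w := ⟨_, rfl⟩
  obtain ⟨DG, e_DG⟩ : ∃ zz : ℝ, zz = dz + dzS * Mbw * im + X * LX := ⟨_, rfl⟩
  obtain ⟨DF, e_DF⟩ : ∃ zz : ℝ, zz = dzS * Maw * im + uX * LU := ⟨_, rfl⟩
  obtain ⟨vDG, e_vDG⟩ : ∃ zz : ℝ, zz = v * DG * iR2 := ⟨_, rfl⟩
  obtain ⟨EQ, e_EQ⟩ : ∃ zz : ℝ, zz = (1111491 / 1048576) * e2a * (vDG + ie * (2 * DG + DF)) := ⟨_, rfl⟩
  obtain ⟨ER, e_ER⟩ : ∃ zz : ℝ, zz = EQ * wse := ⟨_, rfl⟩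
  obtain ⟨Qw, e_Qw⟩ : ∃ zz : ℝ, zz = ER * im := ⟨_, rfl⟩
  obtain ⟨c2, e_c2⟩ : ∃ zz : ℝ, zz = (-(2 * Qw)) + c5 := ⟨_, rfl⟩
  obtain ⟨s1, e_s1⟩ : ∃ zz : ℝ, zz = (1 / 2) * (kv - (1 : ℝ)) + (1 : ℝ) := ⟨_, rfl⟩
  obtain ⟨exK, e_exK⟩ : ∃ zz : ℝ, zz = Real.exp (2 * (K * x1)) := ⟨_, rfl⟩
  obtain ⟨d, e_d⟩ : ∃ zz : ℝ, zz = EQ * exK * (q6 * m2 * ((1 : ℝ) - Qw))⁻¹ := ⟨_, rfl⟩
  obtain ⟨E, e_E⟩ : ∃ zz : ℝ, zz = EQ * V := ⟨_, rfl⟩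
  obtain ⟨x2, e_x2⟩ : ∃ zz : ℝ, zz = x1 - d + (1 : ℝ) := ⟨_, rfl⟩
  obtain ⟨z4, e_z4⟩ : ∃ zz : ℝ, zz = 2 * (Kq * x2) := ⟨_, rfl⟩
  obtain ⟨iz4, e_iz4⟩ : ∃ zz : ℝ, zz = (z4 * z4 * ((1 : ℝ) * (3 : ℝ)⁻¹) + (1 : ℝ))⁻¹ := ⟨_, rfl⟩
  obtain ⟨th4, e_th4⟩ : ∃ zz : ℝ, zz = z4 * iz4 := ⟨_, rfl⟩
  obtain ⟨l4, e_l4⟩ : ∃ zz : ℝ, zz = q6 * x2 * iz4 * ((1 / 4) * (th4 * th4) + (1 : ℝ)) := ⟨_, rfl⟩
  obtain ⟨u1, e_u1⟩ : ∃ zz : ℝ, zz = Real.exp (-(q2 * (l4 * V * m2 * c2))) := ⟨_, rfl⟩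
  obtain ⟨z5, e_z5⟩ : ∃ zz : ℝ, zz = 2 * (Kq * (x2 + (1 : ℝ))) := ⟨_, rfl⟩
  obtain ⟨iz5, e_iz5⟩ : ∃ zz : ℝ, zz = (z5 * z5 * ((1 : ℝ) * (3 : ℝ)⁻¹) + (1 : ℝ))⁻¹ := ⟨_, rfl⟩
  obtain ⟨th5, e_th5⟩ : ∃ zz : ℝ, zz = z5 * iz5 := ⟨_, rfl⟩
  obtain ⟨l5, e_l5⟩ : ∃ zz : ℝ, zz = q6 * (x2 + (1 : ℝ)) * iz5 * ((1 / 4) * (th5 * th5) + (1 : ℝ)) := ⟨_, rfl⟩
  obtain ⟨cd5, e_cd5⟩ : ∃ zz : ℝ, zz = c2 * c5 := ⟨_, rfl⟩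
  obtain ⟨xxn, e_xxn⟩ : ∃ zz : ℝ, zz = (-cd5) + (1 : ℝ) := ⟨_, rfl⟩
  obtain ⟨rcn, e_rcn⟩ : ∃ zz : ℝ, zz = (1 / 2) * xxn * (-(xxn + (1 : ℝ))) + (1 : ℝ) := ⟨_, rfl⟩
  obtain ⟨bnn, e_bnn⟩ : ∃ zz : ℝ, zz = sp * rcn := ⟨_, rfl⟩
  obtain ⟨wsn, e_wsn⟩ : ∃ zz : ℝ, zz = bnn * wn := ⟨_, rfl⟩
  obtain ⟨bn, e_bn⟩ : ∃ zz : ℝ, zz = bnn * ((1 / 2) * wsn + ((1482911 / 16777216) * (wsn * wsn) + (1482911 / 1048576 : ℝ)))⁻¹ := ⟨_, rfl⟩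
  obtain ⟨ibn, e_ibn⟩ : ∃ zz : ℝ, zz = (bn + (1 / 2) * (q * wn * cd5 * l5))⁻¹ := ⟨_, rfl⟩
  obtain ⟨Mnw, e_Mnw⟩ : ∃ zz : ℝ, zz = u1 * (wn + ibn) := ⟨_, rfl⟩
  obtain ⟨EM, e_EM⟩ : ∃ zz : ℝ, zz = E + EQ * w * Mnw * im := ⟨_, rfl⟩
  obtain ⟨EMr, e_EMr⟩ : ∃ zz : ℝ, zz = EM * rb := ⟨_, rfl⟩
  obtain ⟨i2, e_i2⟩ : ∃ zz : ℝ, zz = ((1 : ℝ) - (1 / 2) * EM)⁻¹ := ⟨_, rfl⟩
  obtain ⟨eta, e_eta⟩ : ∃ zz : ℝ, zz = ((1 / 2) * EM + (1 : ℝ)) * i2 := ⟨_, rfl⟩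
  obtain ⟨r2w, e_r2w⟩ : ∃ zz : ℝ, zz = r2V * wse := ⟨_, rfl⟩
  obtain ⟨DPx, e_DPx⟩ : ∃ zz : ℝ, zz = kv + r2w * (r2w + 2 * kc) := ⟨_, rfl⟩
  obtain ⟨VcR, e_VcR⟩ : ∃ zz : ℝ, zz = wse * (kv + r2w * r2w) := ⟨_, rfl⟩
  obtain ⟨DPR, e_DPR⟩ : ∃ zz : ℝ, zz = (1 / 2) * (DPx - (1 : ℝ)) + (1 : ℝ) := ⟨_, rfl⟩
  obtain ⟨a0, e_a0⟩ : ∃ zz : ℝ, zz = (133 / 512) * ta + (223 / 4096 : ℝ) := ⟨_, rfl⟩
  obtain ⟨tn, e_tn⟩ : ∃ zz : ℝ, zz = (529531 / 524288) * ((3294199 / 1048576) * ie * DF + (3294199 / 1048576) * se * G2S + (3294199 / 1048576) * ((147325 / 262144) * Vie + (277873 / 524288) * (a * a) + (56361 / 131072) * K2) + (167773 / 1048576) * (V * Vie) + bb * ((1111491 / 1048576) * a + (146801 / 524288) * K2) + (10349031 / 1048576) * ie * ((587203 / 1048576) * (a * a) + (314573 / 1048576) * K2)) := ⟨_, rfl⟩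
  obtain ⟨p_gd, ch0⟩ := ((((h
    (1 : ℝ) zc_1099511627776_0
    (3 : ℝ) zc_3298534883328_0).2
    ((3 : ℝ)⁻¹) rfl
    ((1 : ℝ) * (3 : ℝ)⁻¹) rfl
    se e_se
    ie e_ie
    K e_K
    K2 e_K2
    (6 : ℝ) zc_6597069766656_0).2
    ((6 : ℝ)⁻¹) rfl
    ((1 : ℝ) * (6 : ℝ)⁻¹) rfl
    (K2 * ((1 : ℝ) * (6 : ℝ)⁻¹)) rfl
    q6 e_q6
    Kq e_Kq
    Yt (e_Yt.trans (congrArg (fun y : ℝ => y * ta) zc_3848290697216_0))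
    Y2 e_Y2
    (1 / 2 : ℝ) zc_549755813888_0
    ((1 / 8) * Y2) (congrArg (fun y : ℝ => y * Y2) zc_137438953472_0)
    ((1 / 2 : ℝ) - (1 / 8) * Y2) rfl
    (Y2 * ((1 / 2 : ℝ) - (1 / 8) * Y2)) rfl
    ((1 : ℝ) + Y2 * ((1 / 2 : ℝ) - (1 / 8) * Y2)) rfl).2
    (((1 : ℝ) + Y2 * ((1 / 2 : ℝ) - (1 / 8) * Y2))⁻¹) rfl
    wm e_wm
    wm2 e_wm2
    wse0 e_wse0
    (4095 / 4096 : ℝ) zc_1099243192320_0
    ((1449 / 512) * wse0) (congrArg (fun y : ℝ => y * wse0) zc_3111703805952_0)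
    ((4095 / 4096 : ℝ) - (1449 / 512) * wse0) rfl
    (23 * ie) (congrArg (fun y : ℝ => y * ie) zc_25288767438848_0)
    ((4095 / 4096 : ℝ) - (1449 / 512) * wse0 - 23 * ie) rfl
    ((1 / 2) * K2) (congrArg (fun y : ℝ => y * K2) zc_549755813888_0)
    q e_q
    ((2899 / 2048) * wse0) (congrArg (fun y : ℝ => y * wse0) zc_1556388773888_0)
    ((4095 / 4096 : ℝ) - (2899 / 2048) * wse0) rfl
    (19 * ie) (congrArg (fun y : ℝ => y * ie) zc_20890720927744_0)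
    ((4095 / 4096 : ℝ) - (2899 / 2048) * wse0 - 19 * ie) rfl
    ((553 / 1024) * K2) (congrArg (fun y : ℝ => y * K2) zc_593779228672_0)
    sp e_sp
    v2 e_v2
    (ta * ta) rfl
    (v2 * (ta * ta)) rfl
    sg2 e_sg2).2
    (Real.log sg2) rfl
    L (e_L.trans (congrArg (fun y : ℝ => y * Real.log sg2) zc_549755813888_0))
    sR e_sR
    (-L) rfl
    kc e_kc
    w e_w
    V e_V
    wse e_wse
    iR e_iR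
    vs e_vs
    iR2 e_iR2
    bb e_bb
    K2se e_K2se
    ((1 / 2) * om) (congrArg (fun y : ℝ => y * om) zc_549755813888_0)
    ((143913 / 524288) * se) (congrArg (fun y : ℝ => y * se) zc_301807435776_0)
    ((1 / 2) * om + (143913 / 524288) * se) rfl
    ((366181 / 524288) * iR) (congrArg (fun y : ℝ => y * iR) zc_767937216512_0)
    GrS e_GrS
    ((-364089 / 524288) * w) (congrArg (fun y : ℝ => y * w) zc_0_763549974528)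
    (873813 / 524288 : ℝ) zc_1832518680576_0
    ((-364089 / 524288) * w + (873813 / 524288 : ℝ)) rfl
    ((366181 / 262144) * ta) (congrArg (fun y : ℝ => y * ta) zc_1535874433024_0)
    (((-364089 / 524288) * w + (873813 / 524288 : ℝ)) * ((366181 / 262144) * ta)) rfl
    ((143913 / 262144) * ta) (congrArg (fun y : ℝ => y * ta) zc_603614871552_0)
    (((-364089 / 524288) * w + (873813 / 524288 : ℝ)) * ((366181 / 262144) * ta) + (143913 / 262144) * ta) rfl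
    gd e_gd
  change 0 < gd at p_gd
  obtain ⟨p_a1, ch1⟩ := (ch0
    (se * v2) rfl
    (se * v2 * ta) rfl).2
    (gd⁻¹) rfl
    svt e_svt
    GtS e_GtS
    ((1 / 4) * svt) (congrArg (fun y : ℝ => y * svt) zc_274877906944_0)
    G2S e_G2S
    ((838861 / 524288) * V) (congrArg (fun y : ℝ => y * V) zc_1759219023872_0)
    (363409 / 524288 : ℝ) zc_762123911168_0
    ((838861 / 524288) * V + (363409 / 524288 : ℝ)) rfl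
    (ie * ((838861 / 524288) * V + (363409 / 524288 : ℝ))) rfl
    ((1 / 2) * Kq) (congrArg (fun y : ℝ => y * Kq) zc_549755813888_0)
    (ie * ((838861 / 524288) * V + (363409 / 524288 : ℝ)) - (1 / 2) * Kq) rfl
    glf e_glf
    X (e_X.trans (congrArg (fun y : ℝ => y * sR) zc_324538466304_0))
    ((2509 / 512) * wm2) (congrArg (fun y : ℝ => y * wm2) zc_5388036472832_0)
    (2509 / 2048 : ℝ) zc_1347009118208_0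
    rho e_rho
    (ie * ie) rfl
    (500 * (ie * ie)) (congrArg (fun y : ℝ => y * (ie * ie)) zc_549755813888000_0)
    c5 e_c5
    (4 * ta) (congrArg (fun y : ℝ => y * ta) zc_4398046511104_0)
    (4 * ta + (1 : ℝ)) rfl
    ((1209 / 4096) * (4 * ta + (1 : ℝ))) (congrArg (fun y : ℝ => y * (4 * ta + (1 : ℝ))) zc_324538466304_0)
    Xc (e_Xc.trans (congrArg (fun y : ℝ => y * ((1209 / 4096) * (4 * ta + (1 : ℝ)))) zc_274877906944_0))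
    ((1 / 4) * kc) (congrArg (fun y : ℝ => y * kc) zc_274877906944_0)
    rb e_rb
    Vie e_Vie
    (se * GtS) rfl
    ((1055 / 1024) * ie) (congrArg (fun y : ℝ => y * ie) zc_1132797624320_0)
    a e_a
    ea e_ea
    e2a e_e2a
    (-a) rfl
    (29127 / 524288 : ℝ) zc_61083746304_0
    ((-a) + (29127 / 524288 : ℝ)) rfl
  change 0 < (-a) + (29127 / 524288 : ℝ) at p_a1
  obtain ⟨p_x11, ch2⟩ := (ch1
    ((5 / 2) * v) (congrArg (fun y : ℝ => y * v) zc_2748779069440_0)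
    ((838861 / 524288) * V + (5 / 2) * v) rfl
    er e_er
    ((1 / 4) * K2) (congrArg (fun y : ℝ => y * K2) zc_274877906944_0)
    h4 e_h4
    (se * GtS * GtS) rfl
    ((1 / 2) * (se * GtS * GtS)) (congrArg (fun y : ℝ => y * (se * GtS * GtS)) zc_549755813888_0)
    ((149797 / 1048576) * K2se) (congrArg (fun y : ℝ => y * K2se) zc_157073539072_0)
    ((1 / 2) * (se * GtS * GtS) + (149797 / 1048576) * K2se) rfl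
    (ea * ((1 / 2) * (se * GtS * GtS) + (149797 / 1048576) * K2se)) rfl
    (G2S + ea * ((1 / 2) * (se * GtS * GtS) + (149797 / 1048576) * K2se)) rfl
    (vs * (G2S + ea * ((1 / 2) * (se * GtS * GtS) + (149797 / 1048576) * K2se))) rfl
    ((3 / 2) * e2a) (congrArg (fun y : ℝ => y * e2a) zc_1649267441664_0)
    (3 / 2 : ℝ) zc_1649267441664_0
    ((3 / 2) * e2a - (3 / 2 : ℝ)) rfl
    ((3 / 4) * K2) (congrArg (fun y : ℝ => y * K2) zc_824633720832_0)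
    ((3 / 2) * e2a - (3 / 2 : ℝ) + (3 / 4) * K2) rfl
    (v * ie) rfl
    ((3 / 2) * e2a - (3 / 2 : ℝ) + (3 / 4) * K2 + v * ie) rfl
    ((3 / 2) * e2a - (3 / 2 : ℝ) + (3 / 4) * K2 + v * ie + er) rfl
    (w * ((3 / 2) * e2a - (3 / 2 : ℝ) + (3 / 4) * K2 + v * ie + er)) rfl
    (vs * (G2S + ea * ((1 / 2) * (se * GtS * GtS) + (149797 / 1048576) * K2se)) + w * ((3 / 2) * e2a - (3 / 2 : ℝ) + (3 / 4) * K2 + v * ie + er)) rfl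
    (v * vs) rfl
    (v * vs * ie) rfl
    ((1 / 8) * (v * vs * ie)) (congrArg (fun y : ℝ => y * (v * vs * ie)) zc_137438953472_0)
    (K2se * ((1 / 8) * (v * vs * ie))) rfl
    dzS e_dzS
    dzR e_dzR
    ((3 : ℝ) - (3 / 2) * e2a) rfl
    (h4 * ((3 : ℝ) - (3 / 2) * e2a)) rfl
    (kc * kc) rfl
    ((1 / 2) * (kc * kc)) (congrArg (fun y : ℝ => y * (kc * kc)) zc_549755813888_0)
    (h4 * ((3 : ℝ) - (3 / 2) * e2a) - (1 / 2) * (kc * kc)) rfl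
    (vs * vs) rfl
    (vs * vs * ea) rfl
    (h4 * ((3 : ℝ) - (3 / 2) * e2a) - (1 / 2) * (kc * kc) - vs * vs * ea) rfl
    r1V e_r1V
    (h4 * ((1 / 2) * (kc * kc))) rfl
    ((3 / 2) * e2a - h4 * ((1 / 2) * (kc * kc))) rfl
    r2V e_r2V
    (v * glf) rfl
    (Vie * v) rfl
    (Vie * v * e2a) rfl
    (2 * (Vie * v * e2a)) (congrArg (fun y : ℝ => y * (Vie * v * e2a)) zc_2199023255552_0)
    (v * glf + 2 * (Vie * v * e2a)) rfl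
    (V * er) rfl
    yc e_yc
    (vs * glf) rfl
    (Vie * vs) rfl
    (Vie * vs * e2a) rfl
    (2 * (Vie * vs * e2a)) (congrArg (fun y : ℝ => y * (Vie * vs * e2a)) zc_2199023255552_0)
    (vs * glf + 2 * (Vie * vs * e2a)) rfl
    (wse * er) rfl
    ycR e_ycR
    r1w e_r1w
    (ycR * ycR) rfl
    kv e_kv
    ((1023 / 1024) * r1V) (congrArg (fun y : ℝ => y * r1V) zc_1098437885952_0)
    (r1w * r1w) rfl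
    (kv + r1w * r1w) rfl).2
    ((kv + r1w * r1w)⁻¹) rfl
    x1 e_x1
    (-x1) rfl
    ((-x1) + (1 : ℝ)) rfl
  change 0 < (-x1) + (1 : ℝ) at p_x11
  obtain ⟨p_X1, ch3⟩ := (((((((ch2
    (vs * vs * Vie) rfl
    z (e_z.trans (congrArg (fun y : ℝ => y * (vs * vs * Vie)) zc_2199023255552_0))
    sR0 e_sR0
    (sR0 - dzR) rfl
    (dzR * dzR) rfl
    m e_m
    m2 e_m2
    wn e_wn
    (8 * ie) (congrArg (fun y : ℝ => y * ie) zc_8796093022208_0)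
    (q - 8 * ie) rfl
    (Vie * rho) rfl
    q2 e_q2
    (Kq * x1) rfl
    z1 (e_z1.trans (congrArg (fun y : ℝ => y * (Kq * x1)) zc_2199023255552_0))
    (z1 * z1) rfl
    (z1 * z1 * ((1 : ℝ) * (3 : ℝ)⁻¹)) rfl
    (z1 * z1 * ((1 : ℝ) * (3 : ℝ)⁻¹) + (1 : ℝ)) rfl).2
    iz1 e_iz1
    th1 e_th1
    (q6 * x1) rfl
    (q6 * x1 * iz1) rfl
    (th1 * th1) rfl
    ((1 / 4) * (th1 * th1)) (congrArg (fun y : ℝ => y * (th1 * th1)) zc_274877906944_0)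
    ((1 / 4) * (th1 * th1) + (1 : ℝ)) rfl
    l1 e_l1
    (x1 + (1 : ℝ)) rfl
    (Kq * (x1 + (1 : ℝ))) rfl
    z2 (e_z2.trans (congrArg (fun y : ℝ => y * (Kq * (x1 + (1 : ℝ)))) zc_2199023255552_0))
    (z2 * z2) rfl
    (z2 * z2 * ((1 : ℝ) * (3 : ℝ)⁻¹)) rfl
    (z2 * z2 * ((1 : ℝ) * (3 : ℝ)⁻¹) + (1 : ℝ)) rfl).2
    iz2 e_iz2
    th2 e_th2
    (q6 * (x1 + (1 : ℝ))) rfl
    (q6 * (x1 + (1 : ℝ)) * iz2) rfl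
    (th2 * th2) rfl
    ((1 / 4) * (th2 * th2)) (congrArg (fun y : ℝ => y * (th2 * th2)) zc_274877906944_0)
    ((1 / 4) * (th2 * th2) + (1 : ℝ)) rfl
    l2 e_l2
    (l1 * V) rfl
    lv e_lv
    (q2 * lv) rfl
    (-(q2 * lv)) rfl
    u e_u
    (-c5) rfl
    xxa e_xxa
    ((1 / 2) * xxa) (congrArg (fun y : ℝ => y * xxa) zc_549755813888_0)
    (xxa + (1 : ℝ)) rfl
    (-(xxa + (1 : ℝ))) rfl
    ((1 / 2) * xxa * (-(xxa + (1 : ℝ)))) rfl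
    rca e_rca
    bna e_bna
    (q * wn) rfl
    (q * wn * c5) rfl
    (q * wn * c5 * l2) rfl
    ((1 / 2) * (q * wn * c5 * l2)) (congrArg (fun y : ℝ => y * (q * wn * c5 * l2)) zc_549755813888_0)
    wsa e_wsa
    ((1 / 2) * wsa) (congrArg (fun y : ℝ => y * wsa) zc_549755813888_0)
    (wsa * wsa) rfl
    ((1482911 / 16777216) * (wsa * wsa)) (congrArg (fun y : ℝ => y * (wsa * wsa)) zc_97184055296_0)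
    (1482911 / 1048576 : ℝ) zc_1554944884736_0
    ((1482911 / 16777216) * (wsa * wsa) + (1482911 / 1048576 : ℝ)) rfl
    ((1 / 2) * wsa + ((1482911 / 16777216) * (wsa * wsa) + (1482911 / 1048576 : ℝ))) rfl).2
    (((1 / 2) * wsa + ((1482911 / 16777216) * (wsa * wsa) + (1482911 / 1048576 : ℝ)))⁻¹) rfl
    ba e_ba
    (ba + (1 / 2) * (q * wn * c5 * l2)) rfl).2
    iba e_iba
    (wn + iba) rfl
    Maw e_Maw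
    (2 : ℝ) zc_2199023255552_0
    (x1 + (2 : ℝ)) rfl
    (Kq * (x1 + (2 : ℝ))) rfl
    z3 (e_z3.trans (congrArg (fun y : ℝ => y * (Kq * (x1 + (2 : ℝ)))) zc_2199023255552_0))
    (z3 * z3) rfl
    (z3 * z3 * ((1 : ℝ) * (3 : ℝ)⁻¹)) rfl
    (z3 * z3 * ((1 : ℝ) * (3 : ℝ)⁻¹) + (1 : ℝ)) rfl).2
    iz3 e_iz3
    th3 e_th3
    (q6 * (x1 + (2 : ℝ))) rfl
    (q6 * (x1 + (2 : ℝ)) * iz3) rfl
    (th3 * th3) rfl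
    ((1 / 4) * (th3 * th3)) (congrArg (fun y : ℝ => y * (th3 * th3)) zc_274877906944_0)
    ((1 / 4) * (th3 * th3) + (1 : ℝ)) rfl
    l3 e_l3
    cc5 e_cc5
    (-cc5) rfl
    xxc e_xxc
    ((1 / 2) * xxc) (congrArg (fun y : ℝ => y * xxc) zc_549755813888_0)
    (xxc + (1 : ℝ)) rfl
    (-(xxc + (1 : ℝ))) rfl
    ((1 / 2) * xxc * (-(xxc + (1 : ℝ)))) rfl
    rcc e_rcc
    bnc e_bnc
    (q * wn * cc5) rfl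
    (q * wn * cc5 * l3) rfl
    ((1 / 2) * (q * wn * cc5 * l3)) (congrArg (fun y : ℝ => y * (q * wn * cc5 * l3)) zc_549755813888_0)
    wsc e_wsc
    ((1 / 2) * wsc) (congrArg (fun y : ℝ => y * wsc) zc_549755813888_0)
    (wsc * wsc) rfl
    ((1482911 / 16777216) * (wsc * wsc)) (congrArg (fun y : ℝ => y * (wsc * wsc)) zc_97184055296_0)
    ((1482911 / 16777216) * (wsc * wsc) + (1482911 / 1048576 : ℝ)) rfl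
    ((1 / 2) * wsc + ((1482911 / 16777216) * (wsc * wsc) + (1482911 / 1048576 : ℝ))) rfl).2
    (((1 / 2) * wsc + ((1482911 / 16777216) * (wsc * wsc) + (1482911 / 1048576 : ℝ)))⁻¹) rfl
    bc e_bc
    (bc + (1 / 2) * (q * wn * cc5 * l3)) rfl).2
    ibc e_ibc
    (l2 * V) rfl
    (l2 * V * m2) rfl
    (l2 * V * m2 * c5) rfl
    (q2 * (l2 * V * m2 * c5)) rfl
    (-(q2 * (l2 * V * m2 * c5))) rfl
    ub e_ub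
    (wn + ibc) rfl
    Mbw e_Mbw
    ((1 : ℝ) - X) rfl
  change 0 < (1 : ℝ) - X at p_X1
  obtain ⟨p_cG, ch4⟩ := (((ch3).2
    iX e_iX
    ((1 / 2) * X) (congrArg (fun y : ℝ => y * X) zc_549755813888_0)
    ((1 : ℝ) + (1 / 2) * X) rfl
    (X * X) rfl
    (X * X * iX) rfl
    ((174763 / 524288) * (X * X * iX)) (congrArg (fun y : ℝ => y * (X * X * iX)) zc_366504574976_0)
    LX e_LX
    uX e_uX
    ((1 / 2) * uX) (congrArg (fun y : ℝ => y * uX) zc_549755813888_0)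
    ((1 : ℝ) + (1 / 2) * uX) rfl
    (uX * uX) rfl
    ((1 : ℝ) - uX) rfl).2
    (((1 : ℝ) - uX)⁻¹) rfl
    (uX * uX * ((1 : ℝ) - uX)⁻¹) rfl
    ((174763 / 524288) * (uX * uX * ((1 : ℝ) - uX)⁻¹)) (congrArg (fun y : ℝ => y * (uX * uX * ((1 : ℝ) - uX)⁻¹)) zc_366504574976_0)
    LU e_LU).2
    im e_im
    dz e_dz
    (dzS * Mbw) rfl
    (dzS * Mbw * im) rfl
    (dz + dzS * Mbw * im) rfl
    (X * LX) rfl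
    DG e_DG
    (dzS * Maw) rfl
    (dzS * Maw * im) rfl
    (uX * LU) rfl
    DF e_DF
    (v * DG) rfl
    vDG e_vDG
    (-DG) rfl
    (1055 / 1024 : ℝ) zc_1132797624320_0
    ((-DG) + (1055 / 1024 : ℝ)) rfl
  change 0 < (-DG) + (1055 / 1024 : ℝ) at p_cG
  obtain ⟨p_cF, ch5⟩ := ch4
    (-DF) rfl
    ((-DF) + (1055 / 1024 : ℝ)) rfl
  change 0 < (-DF) + (1055 / 1024 : ℝ) at p_cF
  obtain ⟨p_Es, ch6⟩ := ch5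
    ((1111491 / 1048576) * e2a) (congrArg (fun y : ℝ => y * e2a) zc_1165482786816_0)
    (2 * DG) (congrArg (fun y : ℝ => y * DG) zc_2199023255552_0)
    (2 * DG + DF) rfl
    (ie * (2 * DG + DF)) rfl
    (vDG + ie * (2 * DG + DF)) rfl
    EQ e_EQ
    ER e_ER
    Qw e_Qw
    ((1 : ℝ) - Qw) rfl
  change 0 < (1 : ℝ) - Qw at p_Es
  obtain ⟨p_R1, ch7⟩ := ch6
    (2 * Qw) (congrArg (fun y : ℝ => y * Qw) zc_2199023255552_0)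
    (-(2 * Qw)) rfl
    c2 e_c2
    (kv - (1 : ℝ)) rfl
    ((1 / 2) * (kv - (1 : ℝ))) (congrArg (fun y : ℝ => y * (kv - (1 : ℝ))) zc_549755813888_0)
    s1 e_s1
    (5919 / 4096 : ℝ) zc_1588869464064_0
    (dzR + (1 : ℝ)) rfl
    ((dzR + (1 : ℝ)) * (dzR + (1 : ℝ))) rfl
    ((5919 / 4096 : ℝ) - (dzR + (1 : ℝ)) * (dzR + (1 : ℝ))) rfl
  change 0 < (5919 / 4096 : ℝ) - (dzR + (1 : ℝ)) * (dzR + (1 : ℝ)) at p_R1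
  obtain ⟨p_R2, ch8⟩ := ch7
    (2509 / 1024 : ℝ) zc_2694018236416_0
    ((2509 / 1024 : ℝ) - r2V) rfl
    ((2509 / 1024 : ℝ) - r2V - EQ) rfl
    (s1 + dzR) rfl
    (s1 + dzR + ER) rfl
    ((s1 + dzR + ER) * (s1 + dzR + ER)) rfl
    ((2509 / 1024 : ℝ) - r2V - EQ - (s1 + dzR + ER) * (s1 + dzR + ER)) rfl
  change 0 < (2509 / 1024 : ℝ) - r2V - EQ - (s1 + dzR + ER) * (s1 + dzR + ER) at p_R2
  obtain ⟨p_h9, ch9⟩ := ch8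
    (m2 * c2) rfl
    ((9646899 / 1048576) * (m2 * c2)) (congrArg (fun y : ℝ => y * (m2 * c2)) zc_10115506765824_0)
    ((9646899 / 1048576) * (m2 * c2) - (2509 / 1024 : ℝ)) rfl
  change 0 < (9646899 / 1048576) * (m2 * c2) - (2509 / 1024 : ℝ) at p_h9
  obtain ⟨p_h2, ch10⟩ := ch9
    ((471859 / 524288) * (m2 * c2)) (congrArg (fun y : ℝ => y * (m2 * c2)) zc_989560045568_0)
    ((24591 / 4096) * Vie) (congrArg (fun y : ℝ => y * Vie) zc_6601096298496_0)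
    ((471859 / 524288) * (m2 * c2) - (24591 / 4096) * Vie) rfl
  change 0 < (471859 / 524288) * (m2 * c2) - (24591 / 4096) * Vie at p_h2
  obtain ⟨p_q20, ch11⟩ := ch10
  change 0 < q2 at p_q20
  obtain ⟨p_dzS0, ch12⟩ := ch11
  change 0 < sR0 - dzR at p_dzS0
  obtain ⟨p_m0, ch13⟩ := ch12
  change 0 < m at p_m0
  obtain ⟨p_x0, ch14⟩ := (ch13
    (K * x1) rfl
    (2 * (K * x1)) (congrArg (fun y : ℝ => y * (K * x1)) zc_2199023255552_0)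
    exK e_exK
    (EQ * exK) rfl
    (q6 * m2) rfl
    (q6 * m2 * ((1 : ℝ) - Qw)) rfl).2
    ((q6 * m2 * ((1 : ℝ) - Qw))⁻¹) rfl
    d e_d
    (x1 - d) rfl
    (301 / 512 : ℝ) zc_646392578048_0
    (x1 - d - (301 / 512 : ℝ)) rfl
  change 0 < x1 - d - (301 / 512 : ℝ) at p_x0
  obtain ⟨p_Er, ch15⟩ := ch14
    (r1V - EQ) rfl
  change 0 < r1V - EQ at p_Er
  obtain ⟨p_La, ch16⟩ := ch15
    ((1 : ℝ) - 2 * Qw) rfl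
    (m2 * ((1 : ℝ) - 2 * Qw)) rfl
    ((1497 / 1024) * (m2 * ((1 : ℝ) - 2 * Qw))) (congrArg (fun y : ℝ => y * (m2 * ((1 : ℝ) - 2 * Qw))) zc_1607391510528_0)
    ((1497 / 1024) * (m2 * ((1 : ℝ) - 2 * Qw)) - r2V) rfl
    ((1497 / 1024) * (m2 * ((1 : ℝ) - 2 * Qw)) - r2V - EQ) rfl
  change 0 < (1497 / 1024) * (m2 * ((1 : ℝ) - 2 * Qw)) - r2V - EQ at p_La
  obtain ⟨p_y0, ch17⟩ := ch16
    E e_E
    (yc + E) rfl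
    (-(yc + E)) rfl
    ((29 / 64) * K) (congrArg (fun y : ℝ => y * K) zc_498216206336_0)
    ((-(yc + E)) + (29 / 64) * K) rfl
    (3277 / 1024 : ℝ) zc_3518651957248_0
    ((-(yc + E)) + (29 / 64) * K + (3277 / 1024 : ℝ)) rfl
  change 0 < (-(yc + E)) + (29 / 64) * K + (3277 / 1024 : ℝ) at p_y0
  obtain ⟨p_EM2, ch18⟩ := ((((ch17
    x2 e_x2
    (Kq * x2) rfl
    z4 (e_z4.trans (congrArg (fun y : ℝ => y * (Kq * x2)) zc_2199023255552_0))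
    (z4 * z4) rfl
    (z4 * z4 * ((1 : ℝ) * (3 : ℝ)⁻¹)) rfl
    (z4 * z4 * ((1 : ℝ) * (3 : ℝ)⁻¹) + (1 : ℝ)) rfl).2
    iz4 e_iz4
    th4 e_th4
    (q6 * x2) rfl
    (q6 * x2 * iz4) rfl
    (th4 * th4) rfl
    ((1 / 4) * (th4 * th4)) (congrArg (fun y : ℝ => y * (th4 * th4)) zc_274877906944_0)
    ((1 / 4) * (th4 * th4) + (1 : ℝ)) rfl
    l4 e_l4
    (l4 * V) rfl
    (l4 * V * m2) rfl
    (l4 * V * m2 * c2) rfl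
    (q2 * (l4 * V * m2 * c2)) rfl
    (-(q2 * (l4 * V * m2 * c2))) rfl
    u1 e_u1
    (x2 + (1 : ℝ)) rfl
    (Kq * (x2 + (1 : ℝ))) rfl
    z5 (e_z5.trans (congrArg (fun y : ℝ => y * (Kq * (x2 + (1 : ℝ)))) zc_2199023255552_0))
    (z5 * z5) rfl
    (z5 * z5 * ((1 : ℝ) * (3 : ℝ)⁻¹)) rfl
    (z5 * z5 * ((1 : ℝ) * (3 : ℝ)⁻¹) + (1 : ℝ)) rfl).2
    iz5 e_iz5
    th5 e_th5
    (q6 * (x2 + (1 : ℝ))) rfl
    (q6 * (x2 + (1 : ℝ)) * iz5) rfl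
    (th5 * th5) rfl
    ((1 / 4) * (th5 * th5)) (congrArg (fun y : ℝ => y * (th5 * th5)) zc_274877906944_0)
    ((1 / 4) * (th5 * th5) + (1 : ℝ)) rfl
    l5 e_l5
    cd5 e_cd5
    (-cd5) rfl
    xxn e_xxn
    ((1 / 2) * xxn) (congrArg (fun y : ℝ => y * xxn) zc_549755813888_0)
    (xxn + (1 : ℝ)) rfl
    (-(xxn + (1 : ℝ))) rfl
    ((1 / 2) * xxn * (-(xxn + (1 : ℝ)))) rfl
    rcn e_rcn
    bnn e_bnn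
    (q * wn * cd5) rfl
    (q * wn * cd5 * l5) rfl
    ((1 / 2) * (q * wn * cd5 * l5)) (congrArg (fun y : ℝ => y * (q * wn * cd5 * l5)) zc_549755813888_0)
    wsn e_wsn
    ((1 / 2) * wsn) (congrArg (fun y : ℝ => y * wsn) zc_549755813888_0)
    (wsn * wsn) rfl
    ((1482911 / 16777216) * (wsn * wsn)) (congrArg (fun y : ℝ => y * (wsn * wsn)) zc_97184055296_0)
    ((1482911 / 16777216) * (wsn * wsn) + (1482911 / 1048576 : ℝ)) rfl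
    ((1 / 2) * wsn + ((1482911 / 16777216) * (wsn * wsn) + (1482911 / 1048576 : ℝ))) rfl).2
    (((1 / 2) * wsn + ((1482911 / 16777216) * (wsn * wsn) + (1482911 / 1048576 : ℝ)))⁻¹) rfl
    bn e_bn
    (bn + (1 / 2) * (q * wn * cd5 * l5)) rfl).2
    ibn e_ibn
    (wn + ibn) rfl
    Mnw e_Mnw
    (EQ * w) rfl
    (EQ * w * Mnw) rfl
    (EQ * w * Mnw * im) rfl
    EM e_EM
    EMr e_EMr
    ((1 / 2) * EM) (congrArg (fun y : ℝ => y * EM) zc_549755813888_0)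
    ((1 : ℝ) - (1 / 2) * EM) rfl
  change 0 < (1 : ℝ) - (1 / 2) * EM at p_EM2
  obtain ⟨p_cl, ch19⟩ := (ch18).2
    i2 e_i2
    ((1 / 2) * EM + (1 : ℝ)) rfl
    eta e_eta
    r2w e_r2w
    (2 * kc) (congrArg (fun y : ℝ => y * kc) zc_2199023255552_0)
    (r2w + 2 * kc) rfl
    (r2w * (r2w + 2 * kc)) rfl
    DPx e_DPx
    (r2w * r2w) rfl
    (kv + r2w * r2w) rfl
    VcR e_VcR
    (DPx - (1 : ℝ)) rfl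
    ((1 / 2) * (DPx - (1 : ℝ))) (congrArg (fun y : ℝ => y * (DPx - (1 : ℝ))) zc_549755813888_0)
    DPR e_DPR
    ((133 / 512) * ta) (congrArg (fun y : ℝ => y * ta) zc_285615325184_0)
    (223 / 4096 : ℝ) zc_59861106688_0
    a0 e_a0
    (EMr * i2) rfl
    (eta * u1) rfl
    (eta * u1 * a0) rfl
    (DPR + VcR) rfl
    (DPR + VcR + ER) rfl
    (eta * u1 * a0 * (DPR + VcR + ER)) rfl
    (EMr * i2 + eta * u1 * a0 * (DPR + VcR + ER)) rfl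
    (-(EMr * i2 + eta * u1 * a0 * (DPR + VcR + ER))) rfl
    ((1 / 1024) * K) (congrArg (fun y : ℝ => y * K) zc_1073741824_0)
    ((1 : ℝ) - (1 / 1024) * K) rfl
    (((1 : ℝ) - (1 / 1024) * K) * Xc) rfl
    ((-(EMr * i2 + eta * u1 * a0 * (DPR + VcR + ER))) + ((1 : ℝ) - (1 / 1024) * K) * Xc) rfl
  change 0 < (-(EMr * i2 + eta * u1 * a0 * (DPR + VcR + ER))) + ((1 : ℝ) - (1 / 1024) * K) * Xc at p_cl
  obtain ⟨p_t9, ch20⟩ := ch19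
    ((3294199 / 1048576) * ie) (congrArg (fun y : ℝ => y * ie) zc_3454218010624_0)
    ((3294199 / 1048576) * ie * DF) rfl
    ((3294199 / 1048576) * se) (congrArg (fun y : ℝ => y * se) zc_3454218010624_0)
    ((3294199 / 1048576) * se * G2S) rfl
    ((3294199 / 1048576) * ie * DF + (3294199 / 1048576) * se * G2S) rfl
    ((147325 / 262144) * Vie) (congrArg (fun y : ℝ => y * Vie) zc_617925836800_0)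
    (a * a) rfl
    ((277873 / 524288) * (a * a)) (congrArg (fun y : ℝ => y * (a * a)) zc_582741917696_0)
    ((147325 / 262144) * Vie + (277873 / 524288) * (a * a)) rfl
    ((56361 / 131072) * K2) (congrArg (fun y : ℝ => y * K2) zc_472790335488_0)
    ((147325 / 262144) * Vie + (277873 / 524288) * (a * a) + (56361 / 131072) * K2) rfl
    ((3294199 / 1048576) * ((147325 / 262144) * Vie + (277873 / 524288) * (a * a) + (56361 / 131072) * K2)) (congrArg (fun y : ℝ => y * ((147325 / 262144) * Vie + (277873 / 524288) * (a * a) + (56361 / 131072) * K2)) zc_3454218010624_0)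
    ((3294199 / 1048576) * ie * DF + (3294199 / 1048576) * se * G2S + (3294199 / 1048576) * ((147325 / 262144) * Vie + (277873 / 524288) * (a * a) + (56361 / 131072) * K2)) rfl
    (V * Vie) rfl
    ((167773 / 1048576) * (V * Vie)) (congrArg (fun y : ℝ => y * (V * Vie)) zc_175922741248_0)
    ((3294199 / 1048576) * ie * DF + (3294199 / 1048576) * se * G2S + (3294199 / 1048576) * ((147325 / 262144) * Vie + (277873 / 524288) * (a * a) + (56361 / 131072) * K2) + (167773 / 1048576) * (V * Vie)) rfl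
    ((1111491 / 1048576) * a) (congrArg (fun y : ℝ => y * a) zc_1165482786816_0)
    ((146801 / 524288) * K2) (congrArg (fun y : ℝ => y * K2) zc_307864010752_0)
    ((1111491 / 1048576) * a + (146801 / 524288) * K2) rfl
    (bb * ((1111491 / 1048576) * a + (146801 / 524288) * K2)) rfl
    ((3294199 / 1048576) * ie * DF + (3294199 / 1048576) * se * G2S + (3294199 / 1048576) * ((147325 / 262144) * Vie + (277873 / 524288) * (a * a) + (56361 / 131072) * K2) + (167773 / 1048576) * (V * Vie) + bb * ((1111491 / 1048576) * a + (146801 / 524288) * K2)) rfl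
    ((10349031 / 1048576) * ie) (congrArg (fun y : ℝ => y * ie) zc_10851745529856_0)
    ((587203 / 1048576) * (a * a)) (congrArg (fun y : ℝ => y * (a * a)) zc_615726972928_0)
    ((314573 / 1048576) * K2) (congrArg (fun y : ℝ => y * K2) zc_329853698048_0)
    ((587203 / 1048576) * (a * a) + (314573 / 1048576) * K2) rfl
    ((10349031 / 1048576) * ie * ((587203 / 1048576) * (a * a) + (314573 / 1048576) * K2)) rfl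
    ((3294199 / 1048576) * ie * DF + (3294199 / 1048576) * se * G2S + (3294199 / 1048576) * ((147325 / 262144) * Vie + (277873 / 524288) * (a * a) + (56361 / 131072) * K2) + (167773 / 1048576) * (V * Vie) + bb * ((1111491 / 1048576) * a + (146801 / 524288) * K2) + (10349031 / 1048576) * ie * ((587203 / 1048576) * (a * a) + (314573 / 1048576) * K2)) rfl
    tn (e_tn.trans (congrArg (fun y : ℝ => y * ((3294199 / 1048576) * ie * DF + (3294199 / 1048576) * se * G2S + (3294199 / 1048576) * ((147325 / 262144) * Vie + (277873 / 524288) * (a * a) + (56361 / 131072) * K2) + (167773 / 1048576) * (V * Vie) + bb * ((1111491 / 1048576) * a + (146801 / 524288) * K2) + (10349031 / 1048576) * ie * ((587203 / 1048576) * (a * a) + (314573 / 1048576) * K2))) zc_1110506995712_0))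
    (DF + tn) rfl
    (-(DF + tn)) rfl
    (471859 / 524288 : ℝ) zc_989560045568_0
    ((-(DF + tn)) + (471859 / 524288 : ℝ)) rfl
  change 0 < (-(DF + tn)) + (471859 / 524288 : ℝ) at p_t9
  exact ⟨⟨se, ie, K, K2, q6, Kq, Yt, Y2, wm, wm2, wse0, q, sp, v2, sg2, L, sR, kc, w, V, wse, iR, vs,
    iR2, bb, K2se, GrS, gd, svt, GtS, G2S, glf, X, rho, c5, Xc, rb, Vie, a, ea, e2a, er, h4,
    dzS, dzR, r1V, r2V, yc, ycR, r1w, kv, x1, z, sR0, m, m2, wn, q2, z1, iz1, th1, l1, z2, iz2,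
    th2, l2, lv, u, xxa, rca, bna, wsa, ba, iba, Maw, z3, iz3, th3, l3, cc5, xxc, rcc, bnc, wsc,
    bc, ibc, ub, Mbw, iX, LX, uX, LU, im, dz, DG, DF, vDG, EQ, ER, Qw, c2, s1, exK, d, E, x2,
    z4, iz4, th4, l4, u1, z5, iz5, th5, l5, cd5, xxn, rcn, bnn, wsn, bn, ibn, Mnw, EM, EMr, i2,
    eta, r2w, DPx, VcR, DPR, a0, e_se, e_ie, e_K, e_K2, e_q6, e_Kq, e_Yt, e_Y2, e_wm, e_wm2,
    e_wse0, e_q, e_sp, e_v2, e_sg2, e_L, e_sR, e_kc, e_w, e_V, e_wse, e_iR, e_vs, e_iR2, e_bb,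
    e_K2se, e_GrS, e_gd, e_svt, e_GtS, e_G2S, e_glf, e_X, e_rho, e_c5, e_Xc, e_rb, e_Vie, e_a,
    e_ea, e_e2a, e_er, e_h4, e_dzS, e_dzR, e_r1V, e_r2V, e_yc, e_ycR, e_r1w, e_kv, e_x1, e_z,
    e_sR0, e_m, e_m2, e_wn, e_q2, e_z1, e_iz1, e_th1, e_l1, e_z2, e_iz2, e_th2, e_l2, e_lv, e_u,
    e_xxa, e_rca, e_bna, e_wsa, e_ba, e_iba, e_Maw, e_z3, e_iz3, e_th3, e_l3, e_cc5, e_xxc,
    e_rcc, e_bnc, e_wsc, e_bc, e_ibc, e_ub, e_Mbw, e_iX, e_LX, e_uX, e_LU, e_im, e_dz, e_DG,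
    e_DF, e_vDG, e_EQ, e_ER, e_Qw, e_c2, e_s1, e_exK, e_d, e_E, e_x2, e_z4, e_iz4, e_th4, e_l4,
    e_u1, e_z5, e_iz5, e_th5, e_l5, e_cd5, e_xxn, e_rcn, e_bnn, e_wsn, e_bn, e_ibn, e_Mnw, e_EM,
    e_EMr, e_i2, e_eta, e_r2w, e_DPx, e_VcR, e_DPR, e_a0, p_gd, p_a1, p_x11, p_X1, p_cG, p_cF,
    p_Es, p_R1, p_R2, p_h9, p_h2, p_q20, p_dzS0, p_m0, p_x0, p_Er, p_La, p_y0, p_EM2, p_cl⟩,
    ⟨tn, e_tn, p_t9⟩⟩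

theorem ex_TB_gE {om ta v : ℝ} (h : RAs Cert.TB.prog2 [om, ta, v]) :
    0 < om * ta - (74161 / 1048576 : ℝ) := by
  obtain ⟨p_gE, ch0⟩ := h
    (om * ta) rfl
    (74161 / 1048576 : ℝ) zc_77763444736_0
    (om * ta - (74161 / 1048576 : ℝ)) rfl
  change 0 < om * ta - (74161 / 1048576 : ℝ) at p_gE
  exact p_gE

theorem ex_TB_gK {om ta v : ℝ} (h : RAs Cert.TB.prog3 [om, ta, v]) :
    0 < om * om - (7 / 4) * (om * ta) - (726873 / 524288 : ℝ) := by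
  obtain ⟨p_gK, ch0⟩ := h
    (om * om) rfl
    (om * ta) rfl
    ((7 / 4) * (om * ta)) (congrArg (fun y : ℝ => y * (om * ta)) zc_1924145348608_0)
    (om * om - (7 / 4) * (om * ta)) rfl
    (726873 / 524288 : ℝ) zc_1524363165696_0
    (om * om - (7 / 4) * (om * ta) - (726873 / 524288 : ℝ)) rfl
  change 0 < om * om - (7 / 4) * (om * ta) - (726873 / 524288 : ℝ) at p_gK
  exact p_gK

end Pool.Agent.helper31.EQB
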