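import Pool.Agent.helper31.EQB.Cst
import Pool.Agent.helper31.EQB.Cert.LB0P
import Pool.Agent.helper71.FF.Real

/-!
Generated: meaning of the programs.
-/

namespace Pool.Agent.helper31.EQB

open Pool.Agent.helper71.FF (RAs zv)
open Pool.Agent.helper31.IA (Z Op)

set_option maxRecDepth 100000

private theorem zc_900726784_0 : (859 / 1048576 : ℝ) = zv 900726784 0 := by unfold zv; norm_num

private theorem zc_1073741824_0 : (1 / 1024 : ℝ) = zv 1073741824 0 := by unfold zv; norm_num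

private theorem zc_5496635392_0 : (2621 / 524288 : ℝ) = zv 5496635392 0 := by unfold zv; norm_num

private theorem zc_5727322112_0 : (2731 / 524288 : ℝ) = zv 5727322112 0 := by unfold zv; norm_num

private theorem zc_10994319360_0 : (10485 / 1048576 : ℝ) = zv 10994319360 0 := by unfold zv; norm_num

private theorem zc_17179869184_0 : (1 / 64 : ℝ) = zv 17179869184 0 := by unfold zv; norm_num

private theorem zc_21989687296_0 : (20971 / 1048576 : ℝ) = zv 21989687296 0 := by unfold zv; norm_num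

private theorem zc_59122909184_0 : (881 / 16384 : ℝ) = zv 59122909184 0 := by unfold zv; norm_num

private theorem zc_59861106688_0 : (223 / 4096 : ℝ) = zv 59861106688 0 := by unfold zv; norm_num

private theorem zc_68719476736_0 : (1 / 16 : ℝ) = zv 68719476736 0 := by unfold zv; norm_num

private theorem zc_77763444736_0 : (74161 / 1048576 : ℝ) = zv 77763444736 0 := by unfold zv; norm_num

private theorem zc_91626668032_0 : (43691 / 524288 : ℝ) = zv 91626668032 0 := by unfold zv; norm_num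

private theorem zc_97184055296_0 : (1482911 / 16777216 : ℝ) = zv 97184055296 0 := by unfold zv; norm_num

private theorem zc_107642617856_0 : (401 / 4096 : ℝ) = zv 107642617856 0 := by unfold zv; norm_num

private theorem zc_109950533632_0 : (104857 / 1048576 : ℝ) = zv 109950533632 0 := by unfold zv; norm_num

private theorem zc_137438953472_0 : (1 / 8 : ℝ) = zv 137438953472 0 := by unfold zv; norm_num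

private theorem zc_221459251200_0 : (825 / 4096 : ℝ) = zv 221459251200 0 := by unfold zv; norm_num

private theorem zc_274877906944_0 : (1 / 4 : ℝ) = zv 274877906944 0 := by unfold zv; norm_num

private theorem zc_285615325184_0 : (133 / 512 : ℝ) = zv 285615325184 0 := by unfold zv; norm_num

private theorem zc_498216206336_0 : (29 / 64 : ℝ) = zv 498216206336 0 := by unfold zv; norm_num

private theorem zc_549755813888_0 : (1 / 2 : ℝ) = zv 549755813888 0 := by unfold zv; norm_num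

private theorem zc_593779228672_0 : (553 / 1024 : ℝ) = zv 593779228672 0 := by unfold zv; norm_num

private theorem zc_646392578048_0 : (301 / 512 : ℝ) = zv 646392578048 0 := by unfold zv; norm_num

private theorem zc_659707396096_0 : (314573 / 524288 : ℝ) = zv 659707396096 0 := by unfold zv; norm_num

private theorem zc_769658978304_0 : (183501 / 262144 : ℝ) = zv 769658978304 0 := by unfold zv; norm_num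

private theorem zc_989560045568_0 : (471859 / 524288 : ℝ) = zv 989560045568 0 := by unfold zv; norm_num

private theorem zc_1099243192320_0 : (4095 / 4096 : ℝ) = zv 1099243192320 0 := by unfold zv; norm_num

private theorem zc_1099511627776_0 : (1 : ℝ) = zv 1099511627776 0 := by unfold zv; norm_num

private theorem zc_1116004679680_0 : (1064305 / 1048576 : ℝ) = zv 1116004679680 0 := by unfold zv; norm_num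

private theorem zc_1524363165696_0 : (726873 / 524288 : ℝ) = zv 1524363165696 0 := by unfold zv; norm_num

private theorem zc_1554944884736_0 : (1482911 / 1048576 : ℝ) = zv 1554944884736 0 := by unfold zv; norm_num

private theorem zc_1556388773888_0 : (2899 / 2048 : ℝ) = zv 1556388773888 0 := by unfold zv; norm_num

private theorem zc_1745904205824_0 : (813 / 512 : ℝ) = zv 1745904205824 0 := by unfold zv; norm_num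

private theorem zc_1869170606080_0 : (445645 / 262144 : ℝ) = zv 1869170606080 0 := by unfold zv; norm_num

private theorem zc_1924145348608_0 : (7 / 4 : ℝ) = zv 1924145348608 0 := by unfold zv; norm_num

private theorem zc_2022929596416_0 : (471 / 256 : ℝ) = zv 2022929596416 0 := by unfold zv; norm_num

private theorem zc_2029908918272_0 : (3781 / 2048 : ℝ) = zv 2029908918272 0 := by unfold zv; norm_num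

private theorem zc_2199023255552_0 : (2 : ℝ) = zv 2199023255552 0 := by unfold zv; norm_num

private theorem zc_2253999046656_0 : (2149581 / 1048576 : ℝ) = zv 2253999046656 0 := by unfold zv; norm_num

private theorem zc_2418926419968_0 : (576717 / 262144 : ℝ) = zv 2418926419968 0 := by unfold zv; norm_num

private theorem zc_2623956582400_0 : (9775 / 4096 : ℝ) = zv 2623956582400 0 := by unfold zv; norm_num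

private theorem zc_2706903138304_0 : (2521 / 1024 : ℝ) = zv 2706903138304 0 := by unfold zv; norm_num

private theorem zc_2845415833600_0 : (1325 / 512 : ℝ) = zv 2845415833600 0 := by unfold zv; norm_num

private theorem zc_2979633561600_0 : (2775 / 1024 : ℝ) = zv 2979633561600 0 := by unfold zv; norm_num

private theorem zc_3111703805952_0 : (1449 / 512 : ℝ) = zv 3111703805952 0 := by unfold zv; norm_num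

private theorem zc_3298534883328_0 : (3 : ℝ) = zv 3298534883328 0 := by unfold zv; norm_num

private theorem zc_3518651957248_0 : (3277 / 1024 : ℝ) = zv 3518651957248 0 := by unfold zv; norm_num

private theorem zc_3523483795456_0 : (6563 / 2048 : ℝ) = zv 3523483795456 0 := by unfold zv; norm_num

private theorem zc_3723468210176_0 : (13871 / 4096 : ℝ) = zv 3723468210176 0 := by unfold zv; norm_num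

private theorem zc_3848290697216_0 : (7 / 2 : ℝ) = zv 3848290697216 0 := by unfold zv; norm_num

private theorem zc_4059817836544_0 : (3781 / 1024 : ℝ) = zv 4059817836544 0 := by unfold zv; norm_num

private theorem zc_4398046511104_0 : (4 : ℝ) = zv 4398046511104 0 := by unfold zv; norm_num

private theorem zc_4947802324992_0 : (9 / 2 : ℝ) = zv 4947802324992 0 := by unfold zv; norm_num

private theorem zc_6597069766656_0 : (6 : ℝ) = zv 6597069766656 0 := by unfold zv; norm_num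

private theorem zc_8119635673088_0 : (3781 / 512 : ℝ) = zv 8119635673088 0 := by unfold zv; norm_num

private theorem zc_8796093022208_0 : (8 : ℝ) = zv 8796093022208 0 := by unfold zv; norm_num

private theorem zc_10115506765824_0 : (9646899 / 1048576 : ℝ) = zv 10115506765824 0 := by unfold zv; norm_num

private theorem zc_14990509604864_0 : (13961 / 1024 : ℝ) = zv 14990509604864 0 := by unfold zv; norm_num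

private theorem zc_20890720927744_0 : (19 : ℝ) = zv 20890720927744 0 := by unfold zv; norm_num

private theorem zc_25288767438848_0 : (23 : ℝ) = zv 25288767438848 0 := by unfold zv; norm_num

private theorem zc_549755813888000_0 : (500 : ℝ) = zv 549755813888000 0 := by unfold zv; norm_num

private theorem zc_615726511554560_0 : (560 : ℝ) = zv 615726511554560 0 := by unfold zv; norm_num

theorem ex_LB0_g {om ta y : ℝ} (h : RAs Cert.LB0.prog0 [om, ta, y]) :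
    ∃ n1 ielf : ℝ, ∃ P : PLB (cB 0) om ta y n1 ielf, Nonempty (PLBn P) ∧ Nonempty (PLBf P) := by
  obtain ⟨se, e_se⟩ : ∃ zz : ℝ, zz = om * ta := ⟨_, rfl⟩
  obtain ⟨ie, e_ie⟩ : ∃ zz : ℝ, zz = se * se := ⟨_, rfl⟩
  obtain ⟨K, e_K⟩ : ∃ zz : ℝ, zz = om * se := ⟨_, rfl⟩
  obtain ⟨K2, e_K2⟩ : ∃ zz : ℝ, zz = K * K := ⟨_, rfl⟩
  obtain ⟨q6, e_q6⟩ : ∃ zz : ℝ, zz = (1 : ℝ) - K2 * ((1 : ℝ) * (6 : ℝ)⁻¹) := ⟨_, rfl⟩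
  obtain ⟨Kq, e_Kq⟩ : ∃ zz : ℝ, zz = K * q6 := ⟨_, rfl⟩
  obtain ⟨Yt, e_Yt⟩ : ∃ zz : ℝ, zz = (7 / 2) * ta := ⟨_, rfl⟩
  obtain ⟨Y2, e_Y2⟩ : ∃ zz : ℝ, zz = Yt * Yt := ⟨_, rfl⟩
  obtain ⟨wm, e_wm⟩ : ∃ zz : ℝ, zz = Yt * ((1 : ℝ) + Y2 * ((1 / 2 : ℝ) - (1 / 8) * Y2))⁻¹ := ⟨_, rfl⟩
  obtain ⟨wm2, e_wm2⟩ : ∃ zz : ℝ, zz = wm * wm := ⟨_, rfl⟩
  obtain ⟨wse0, e_wse0⟩ : ∃ zz : ℝ, zz = wm * se := ⟨_, rfl⟩
  obtain ⟨q, e_q⟩ : ∃ zz : ℝ, zz = (4095 / 4096 : ℝ) - (1449 / 512) * wse0 - 23 * ie - (1 / 2) * K2 := ⟨_, rfl⟩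
  obtain ⟨sp, e_sp⟩ : ∃ zz : ℝ, zz = (4095 / 4096 : ℝ) - (2899 / 2048) * wse0 - 19 * ie - (553 / 1024) * K2 := ⟨_, rfl⟩
  obtain ⟨y2, e_y2⟩ : ∃ zz : ℝ, zz = y * y := ⟨_, rfl⟩
  obtain ⟨sg2, e_sg2⟩ : ∃ zz : ℝ, zz = y2 * (ta * ta) + (1 : ℝ) := ⟨_, rfl⟩
  obtain ⟨lsg, e_lsg⟩ : ∃ zz : ℝ, zz = (1 / 2) * Real.log sg2 := ⟨_, rfl⟩
  obtain ⟨w, e_w⟩ : ∃ zz : ℝ, zz = om * Real.exp lsg := ⟨_, rfl⟩
  obtain ⟨k, e_k⟩ : ∃ zz : ℝ, zz = Real.exp (-lsg) := ⟨_, rfl⟩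
  obtain ⟨W, e_W⟩ : ∃ zz : ℝ, zz = w * w := ⟨_, rfl⟩
  obtain ⟨it, e_it⟩ : ∃ zz : ℝ, zz = ta * k := ⟨_, rfl⟩
  obtain ⟨k2, e_k2⟩ : ∃ zz : ℝ, zz = k * k := ⟨_, rfl⟩
  obtain ⟨wse, e_wse⟩ : ∃ zz : ℝ, zz = w * se := ⟨_, rfl⟩
  obtain ⟨Wie, e_Wie⟩ : ∃ zz : ℝ, zz = W * ie := ⟨_, rfl⟩
  obtain ⟨q2, e_q2⟩ : ∃ zz : ℝ, zz = q - 8 * ie - Wie * ((3781 / 512) * wm2 + (3781 / 2048 : ℝ)) := ⟨_, rfl⟩
  obtain ⟨ie2, e_ie2⟩ : ∃ zz : ℝ, zz = ie * ie := ⟨_, rfl⟩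
  obtain ⟨c5, e_c5⟩ : ∃ zz : ℝ, zz = (1 : ℝ) - 500 * ie2 := ⟨_, rfl⟩
  obtain ⟨RW, e_RW⟩ : ∃ zz : ℝ, zz = (2521 / 1024) * (560 * ie2 + (1 : ℝ)) := ⟨_, rfl⟩
  obtain ⟨R2, e_R2⟩ : ∃ zz : ℝ, zz = RW * RW * Wie := ⟨_, rfl⟩
  obtain ⟨V1, e_V1⟩ : ∃ zz : ℝ, zz = R2 + (1 : ℝ) := ⟨_, rfl⟩
  obtain ⟨z1, e_z1⟩ : ∃ zz : ℝ, zz = 2 * (Kq * (813 / 512 : ℝ)) := ⟨_, rfl⟩
  obtain ⟨iz1, e_iz1⟩ : ∃ zz : ℝ, zz = (z1 * z1 * ((1 : ℝ) * (3 : ℝ)⁻¹) + (1 : ℝ))⁻¹ := ⟨_, rfl⟩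
  obtain ⟨th1, e_th1⟩ : ∃ zz : ℝ, zz = z1 * iz1 := ⟨_, rfl⟩
  obtain ⟨l1, e_l1⟩ : ∃ zz : ℝ, zz = q6 * (813 / 512 : ℝ) * iz1 * ((1 / 4) * (th1 * th1) + (1 : ℝ)) := ⟨_, rfl⟩
  obtain ⟨z2, e_z2⟩ : ∃ zz : ℝ, zz = 2 * (Kq * (1325 / 512 : ℝ)) := ⟨_, rfl⟩
  obtain ⟨iz2, e_iz2⟩ : ∃ zz : ℝ, zz = (z2 * z2 * ((1 : ℝ) * (3 : ℝ)⁻¹) + (1 : ℝ))⁻¹ := ⟨_, rfl⟩
  obtain ⟨th2, e_th2⟩ : ∃ zz : ℝ, zz = z2 * iz2 := ⟨_, rfl⟩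
  obtain ⟨l2, e_l2⟩ : ∃ zz : ℝ, zz = q6 * (1325 / 512 : ℝ) * iz2 * ((1 / 4) * (th2 * th2) + (1 : ℝ)) := ⟨_, rfl⟩
  obtain ⟨rl, e_rl⟩ : ∃ zz : ℝ, zz = W * l1 := ⟨_, rfl⟩
  obtain ⟨cc5, e_cc5⟩ : ∃ zz : ℝ, zz = c5 * c5 := ⟨_, rfl⟩
  obtain ⟨xxo, e_xxo⟩ : ∃ zz : ℝ, zz = (-cc5) + (1 : ℝ) := ⟨_, rfl⟩
  obtain ⟨rco, e_rco⟩ : ∃ zz : ℝ, zz = (1 / 2) * xxo * (-(xxo + (1 : ℝ))) + (1 : ℝ) := ⟨_, rfl⟩
  obtain ⟨bno, e_bno⟩ : ∃ zz : ℝ, zz = sp * rco := ⟨_, rfl⟩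
  obtain ⟨wso, e_wso⟩ : ∃ zz : ℝ, zz = bno * w := ⟨_, rfl⟩
  obtain ⟨bo, e_bo⟩ : ∃ zz : ℝ, zz = bno * ((1 / 2) * wso + ((1482911 / 16777216) * (wso * wso) + (1482911 / 1048576 : ℝ)))⁻¹ := ⟨_, rfl⟩
  obtain ⟨ibo, e_ibo⟩ : ∃ zz : ℝ, zz = (bo + (1 / 2) * (q * w * cc5 * l2))⁻¹ := ⟨_, rfl⟩
  obtain ⟨eo, e_eo⟩ : ∃ zz : ℝ, zz = Real.exp (-(q2 * rl * c5)) := ⟨_, rfl⟩
  obtain ⟨wMo, e_wMo⟩ : ∃ zz : ℝ, zz = eo * (w + ibo) := ⟨_, rfl⟩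
  obtain ⟨u, e_u⟩ : ∃ zz : ℝ, zz = Real.exp (-(q2 * rl)) := ⟨_, rfl⟩
  obtain ⟨ls, e_ls⟩ : ∃ zz : ℝ, zz = w * V1 * wMo := ⟨_, rfl⟩
  obtain ⟨D2, e_D2⟩ : ∃ zz : ℝ, zz = l1 * l1 * Wie + ((1 : ℝ) - 2 * (k * l1 * wse)) := ⟨_, rfl⟩
  obtain ⟨xP, e_xP⟩ : ∃ zz : ℝ, zz = R2 + 2 * (k * RW * wse) := ⟨_, rfl⟩
  obtain ⟨DP, e_DP⟩ : ∃ zz : ℝ, zz = (1 : ℝ) + xP * ((1 / 2 : ℝ) - xP * ((1 / 8 : ℝ) - (1 / 16) * xP)) := ⟨_, rfl⟩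
  obtain ⟨an, e_an⟩ : ∃ zz : ℝ, zz = (133 / 512) * ta + (223 / 4096 : ℝ) := ⟨_, rfl⟩
  obtain ⟨an1, e_an1⟩ : ∃ zz : ℝ, zz = (401 / 4096) * ta + (881 / 16384 : ℝ) := ⟨_, rfl⟩
  obtain ⟨X, e_X⟩ : ∃ zz : ℝ, zz = 4 * (an * (4 * it + k)⁻¹ * DP) := ⟨_, rfl⟩
  obtain ⟨iX, e_iX⟩ : ∃ zz : ℝ, zz = ((1 : ℝ) - X)⁻¹ := ⟨_, rfl⟩
  obtain ⟨G, e_G⟩ : ∃ zz : ℝ, zz = (2 : ℝ) - (1 / 4) * y2 + (2731 / 524288) * (y2 * y2) + (859 / 1048576) * ((1 / 4) * y2 * ((1 / 4) * y2) * ((1 / 4) * y2) * ((1 / 4) * y2 * ((1 / 4) * y2) * ((1 / 4) * y2))) := ⟨_, rfl⟩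
  obtain ⟨n1, e_n1⟩ : ∃ zz : ℝ, zz = G + W * RW + Real.exp (ls + (314573 / 524288) * (W * V1)) - (1 : ℝ) := ⟨_, rfl⟩
  obtain ⟨lsp, e_lsp⟩ : ∃ zz : ℝ, zz = ls + n1 * (X * iX) := ⟨_, rfl⟩
  obtain ⟨lspS, e_lspS⟩ : ∃ zz : ℝ, zz = lsp * it := ⟨_, rfl⟩
  obtain ⟨ielf, e_ielf⟩ : ∃ zz : ℝ, zz = (9 / 2) * ie + (43691 / 524288) * se := ⟨_, rfl⟩
  obtain ⟨uX, e_uX⟩ : ∃ zz : ℝ, zz = u * X := ⟨_, rfl⟩
  obtain ⟨ielfp, e_ielfp⟩ : ∃ zz : ℝ, zz = ielf + ie * (uX * ((1 : ℝ) - uX)⁻¹) := ⟨_, rfl⟩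
  obtain ⟨rh, e_rh⟩ : ∃ zz : ℝ, zz = RW * W := ⟨_, rfl⟩
  obtain ⟨zb, e_zb⟩ : ∃ zz : ℝ, zz = Real.exp ((1 / 2) * Real.log (rh * rh + y2 + (1 / 64 : ℝ))) := ⟨_, rfl⟩
  obtain ⟨zbS, e_zbS⟩ : ∃ zz : ℝ, zz = zb * it := ⟨_, rfl⟩
  obtain ⟨fac, e_fac⟩ : ∃ zz : ℝ, zz = (1 / 2) * (zb * ie) + (1064305 / 1048576 : ℝ) := ⟨_, rfl⟩
  obtain ⟨Q, e_Q⟩ : ∃ zz : ℝ, zz = fac * ((1 / 2) * wse * D2 * (zbS + (2149581 / 1048576) * k) + (zbS + (1 / 2) * (k * K)) * lspS + k2 * ((445645 / 262144) * (ie * lsp) + (576717 / 262144) * ielfp)) := ⟨_, rfl⟩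
  obtain ⟨E, e_E⟩ : ∃ zz : ℝ, zz = Q * W := ⟨_, rfl⟩
  obtain ⟨Qw, e_Qw⟩ : ∃ zz : ℝ, zz = Q * wse := ⟨_, rfl⟩
  obtain ⟨c2, e_c2⟩ : ∃ zz : ℝ, zz = c5 - 2 * Qw := ⟨_, rfl⟩
  obtain ⟨zd, e_zd⟩ : ∃ zz : ℝ, zz = 2 * (Kq * (9775 / 4096 : ℝ)) := ⟨_, rfl⟩
  obtain ⟨izd, e_izd⟩ : ∃ zz : ℝ, zz = (zd * zd * ((1 : ℝ) * (3 : ℝ)⁻¹) + (1 : ℝ))⁻¹ := ⟨_, rfl⟩
  obtain ⟨thd, e_thd⟩ : ∃ zz : ℝ, zz = zd * izd := ⟨_, rfl⟩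
  obtain ⟨ld, e_ld⟩ : ∃ zz : ℝ, zz = q6 * (9775 / 4096 : ℝ) * izd * ((1 / 4) * (thd * thd) + (1 : ℝ)) := ⟨_, rfl⟩
  obtain ⟨ze, e_ze⟩ : ∃ zz : ℝ, zz = 2 * (Kq * (13871 / 4096 : ℝ)) := ⟨_, rfl⟩
  obtain ⟨ize, e_ize⟩ : ∃ zz : ℝ, zz = (ze * ze * ((1 : ℝ) * (3 : ℝ)⁻¹) + (1 : ℝ))⁻¹ := ⟨_, rfl⟩
  obtain ⟨the, e_the⟩ : ∃ zz : ℝ, zz = ze * ize := ⟨_, rfl⟩
  obtain ⟨le, e_le⟩ : ∃ zz : ℝ, zz = q6 * (13871 / 4096 : ℝ) * ize * ((1 / 4) * (the * the) + (1 : ℝ)) := ⟨_, rfl⟩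
  obtain ⟨cd5, e_cd5⟩ : ∃ zz : ℝ, zz = c2 * c5 := ⟨_, rfl⟩
  obtain ⟨xxn, e_xxn⟩ : ∃ zz : ℝ, zz = (-cd5) + (1 : ℝ) := ⟨_, rfl⟩
  obtain ⟨rcn, e_rcn⟩ : ∃ zz : ℝ, zz = (1 / 2) * xxn * (-(xxn + (1 : ℝ))) + (1 : ℝ) := ⟨_, rfl⟩
  obtain ⟨bnn, e_bnn⟩ : ∃ zz : ℝ, zz = sp * rcn := ⟨_, rfl⟩
  obtain ⟨wsn, e_wsn⟩ : ∃ zz : ℝ, zz = bnn * w := ⟨_, rfl⟩
  obtain ⟨bn, e_bn⟩ : ∃ zz : ℝ, zz = bnn * ((1 / 2) * wsn + ((1482911 / 16777216) * (wsn * wsn) + (1482911 / 1048576 : ℝ)))⁻¹ := ⟨_, rfl⟩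
  obtain ⟨ibn, e_ibn⟩ : ∃ zz : ℝ, zz = (bn + (1 / 2) * (q * w * cd5 * le))⁻¹ := ⟨_, rfl⟩
  obtain ⟨u1, e_u1⟩ : ∃ zz : ℝ, zz = Real.exp (-(q2 * ld * W * c2)) := ⟨_, rfl⟩
  obtain ⟨m1, e_m1⟩ : ∃ zz : ℝ, zz = u1 * (w + ibn) := ⟨_, rfl⟩
  obtain ⟨EM, e_EM⟩ : ∃ zz : ℝ, zz = Q * (W + w * m1) := ⟨_, rfl⟩
  obtain ⟨i2, e_i2⟩ : ∃ zz : ℝ, zz = ((1 : ℝ) - (1 / 2) * EM)⁻¹ := ⟨_, rfl⟩
  obtain ⟨eta, e_eta⟩ : ∃ zz : ℝ, zz = ((1 / 2) * EM + (1 : ℝ)) * i2 := ⟨_, rfl⟩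
  obtain ⟨t1, e_t1⟩ : ∃ zz : ℝ, zz = EM * i2 * (it + (1 / 4) * k) := ⟨_, rfl⟩
  obtain ⟨p_rr, ch0⟩ := ((((((((h
    (1 : ℝ) zc_1099511627776_0
    (3 : ℝ) zc_3298534883328_0).2
    ((3 : ℝ)⁻¹) rfl
    ((1 : ℝ) * (3 : ℝ)⁻¹) rfl
    se e_se
    ie e_ie
    K e_K
    K2 e_K2
    (6 : ℝ) zc_6597069766656_0).2
    ((6 : ℝ)⁻¹) rfl
    ((1 : ℝ) * (6 : ℝ)⁻¹) rfl
    (K2 * ((1 : ℝ) * (6 : ℝ)⁻¹)) rfl
    q6 e_q6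
    Kq e_Kq
    Yt (e_Yt.trans (congrArg (fun y : ℝ => y * ta) zc_3848290697216_0))
    Y2 e_Y2
    (1 / 2 : ℝ) zc_549755813888_0
    ((1 / 8) * Y2) (congrArg (fun y : ℝ => y * Y2) zc_137438953472_0)
    ((1 / 2 : ℝ) - (1 / 8) * Y2) rfl
    (Y2 * ((1 / 2 : ℝ) - (1 / 8) * Y2)) rfl
    ((1 : ℝ) + Y2 * ((1 / 2 : ℝ) - (1 / 8) * Y2)) rfl).2
    (((1 : ℝ) + Y2 * ((1 / 2 : ℝ) - (1 / 8) * Y2))⁻¹) rfl
    wm e_wm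
    wm2 e_wm2
    wse0 e_wse0
    (4095 / 4096 : ℝ) zc_1099243192320_0
    ((1449 / 512) * wse0) (congrArg (fun y : ℝ => y * wse0) zc_3111703805952_0)
    ((4095 / 4096 : ℝ) - (1449 / 512) * wse0) rfl
    (23 * ie) (congrArg (fun y : ℝ => y * ie) zc_25288767438848_0)
    ((4095 / 4096 : ℝ) - (1449 / 512) * wse0 - 23 * ie) rfl
    ((1 / 2) * K2) (congrArg (fun y : ℝ => y * K2) zc_549755813888_0)
    q e_q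
    ((2899 / 2048) * wse0) (congrArg (fun y : ℝ => y * wse0) zc_1556388773888_0)
    ((4095 / 4096 : ℝ) - (2899 / 2048) * wse0) rfl
    (19 * ie) (congrArg (fun y : ℝ => y * ie) zc_20890720927744_0)
    ((4095 / 4096 : ℝ) - (2899 / 2048) * wse0 - 19 * ie) rfl
    ((553 / 1024) * K2) (congrArg (fun y : ℝ => y * K2) zc_593779228672_0)
    sp e_sp
    y2 e_y2
    (ta * ta) rfl
    (y2 * (ta * ta)) rfl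
    sg2 e_sg2).2
    (Real.log sg2) rfl
    lsg (e_lsg.trans (congrArg (fun y : ℝ => y * Real.log sg2) zc_549755813888_0))
    (Real.exp lsg) rfl
    w e_w
    (-lsg) rfl
    k e_k
    W e_W
    it e_it
    k2 e_k2
    wse e_wse
    Wie e_Wie
    (8 * ie) (congrArg (fun y : ℝ => y * ie) zc_8796093022208_0)
    (q - 8 * ie) rfl
    ((3781 / 512) * wm2) (congrArg (fun y : ℝ => y * wm2) zc_8119635673088_0)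
    (3781 / 2048 : ℝ) zc_2029908918272_0
    ((3781 / 512) * wm2 + (3781 / 2048 : ℝ)) rfl
    (Wie * ((3781 / 512) * wm2 + (3781 / 2048 : ℝ))) rfl
    q2 e_q2
    ie2 e_ie2
    (500 * ie2) (congrArg (fun y : ℝ => y * ie2) zc_549755813888000_0)
    c5 e_c5
    (560 * ie2) (congrArg (fun y : ℝ => y * ie2) zc_615726511554560_0)
    (560 * ie2 + (1 : ℝ)) rfl
    RW (e_RW.trans (congrArg (fun y : ℝ => y * (560 * ie2 + (1 : ℝ))) zc_2706903138304_0))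
    (RW * RW) rfl
    R2 e_R2
    V1 e_V1
    (813 / 512 : ℝ) zc_1745904205824_0
    (Kq * (813 / 512 : ℝ)) rfl
    z1 (e_z1.trans (congrArg (fun y : ℝ => y * (Kq * (813 / 512 : ℝ))) zc_2199023255552_0))
    (z1 * z1) rfl
    (z1 * z1 * ((1 : ℝ) * (3 : ℝ)⁻¹)) rfl
    (z1 * z1 * ((1 : ℝ) * (3 : ℝ)⁻¹) + (1 : ℝ)) rfl).2
    iz1 e_iz1
    th1 e_th1
    (q6 * (813 / 512 : ℝ)) rfl
    (q6 * (813 / 512 : ℝ) * iz1) rfl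
    (th1 * th1) rfl
    ((1 / 4) * (th1 * th1)) (congrArg (fun y : ℝ => y * (th1 * th1)) zc_274877906944_0)
    ((1 / 4) * (th1 * th1) + (1 : ℝ)) rfl
    l1 e_l1
    (1325 / 512 : ℝ) zc_2845415833600_0
    (Kq * (1325 / 512 : ℝ)) rfl
    z2 (e_z2.trans (congrArg (fun y : ℝ => y * (Kq * (1325 / 512 : ℝ))) zc_2199023255552_0))
    (z2 * z2) rfl
    (z2 * z2 * ((1 : ℝ) * (3 : ℝ)⁻¹)) rfl
    (z2 * z2 * ((1 : ℝ) * (3 : ℝ)⁻¹) + (1 : ℝ)) rfl).2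
    iz2 e_iz2
    th2 e_th2
    (q6 * (1325 / 512 : ℝ)) rfl
    (q6 * (1325 / 512 : ℝ) * iz2) rfl
    (th2 * th2) rfl
    ((1 / 4) * (th2 * th2)) (congrArg (fun y : ℝ => y * (th2 * th2)) zc_274877906944_0)
    ((1 / 4) * (th2 * th2) + (1 : ℝ)) rfl
    l2 e_l2
    rl e_rl
    cc5 e_cc5
    (-cc5) rfl
    xxo e_xxo
    ((1 / 2) * xxo) (congrArg (fun y : ℝ => y * xxo) zc_549755813888_0)
    (xxo + (1 : ℝ)) rfl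
    (-(xxo + (1 : ℝ))) rfl
    ((1 / 2) * xxo * (-(xxo + (1 : ℝ)))) rfl
    rco e_rco
    bno e_bno
    (q * w) rfl
    (q * w * cc5) rfl
    (q * w * cc5 * l2) rfl
    ((1 / 2) * (q * w * cc5 * l2)) (congrArg (fun y : ℝ => y * (q * w * cc5 * l2)) zc_549755813888_0)
    wso e_wso
    ((1 / 2) * wso) (congrArg (fun y : ℝ => y * wso) zc_549755813888_0)
    (wso * wso) rfl
    ((1482911 / 16777216) * (wso * wso)) (congrArg (fun y : ℝ => y * (wso * wso)) zc_97184055296_0)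
    (1482911 / 1048576 : ℝ) zc_1554944884736_0
    ((1482911 / 16777216) * (wso * wso) + (1482911 / 1048576 : ℝ)) rfl
    ((1 / 2) * wso + ((1482911 / 16777216) * (wso * wso) + (1482911 / 1048576 : ℝ))) rfl).2
    (((1 / 2) * wso + ((1482911 / 16777216) * (wso * wso) + (1482911 / 1048576 : ℝ)))⁻¹) rfl
    bo e_bo
    (bo + (1 / 2) * (q * w * cc5 * l2)) rfl).2
    ibo e_ibo
    (q2 * rl) rfl
    (q2 * rl * c5) rfl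
    (-(q2 * rl * c5)) rfl
    eo e_eo
    (w + ibo) rfl
    wMo e_wMo
    (-(q2 * rl)) rfl
    u e_u
    (w * V1) rfl
    ls e_ls
    (l1 * l1) rfl
    (l1 * l1 * Wie) rfl
    (k * l1) rfl
    (k * l1 * wse) rfl
    (2 * (k * l1 * wse)) (congrArg (fun y : ℝ => y * (k * l1 * wse)) zc_2199023255552_0)
    ((1 : ℝ) - 2 * (k * l1 * wse)) rfl
    D2 e_D2
    (2 * k) (congrArg (fun y : ℝ => y * k) zc_2199023255552_0)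
    (RW + l1) rfl
    (wse * (RW + l1)) rfl
    (2 * k - wse * (RW + l1)) rfl
  change 0 < 2 * k - wse * (RW + l1) at p_rr
  obtain ⟨p_X1, ch1⟩ := (ch0
    (k * RW) rfl
    (k * RW * wse) rfl
    (2 * (k * RW * wse)) (congrArg (fun y : ℝ => y * (k * RW * wse)) zc_2199023255552_0)
    xP e_xP
    (1 / 8 : ℝ) zc_137438953472_0
    ((1 / 16) * xP) (congrArg (fun y : ℝ => y * xP) zc_68719476736_0)
    ((1 / 8 : ℝ) - (1 / 16) * xP) rfl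
    (xP * ((1 / 8 : ℝ) - (1 / 16) * xP)) rfl
    ((1 / 2 : ℝ) - xP * ((1 / 8 : ℝ) - (1 / 16) * xP)) rfl
    (xP * ((1 / 2 : ℝ) - xP * ((1 / 8 : ℝ) - (1 / 16) * xP))) rfl
    DP e_DP
    ((133 / 512) * ta) (congrArg (fun y : ℝ => y * ta) zc_285615325184_0)
    (223 / 4096 : ℝ) zc_59861106688_0
    an e_an
    ((401 / 4096) * ta) (congrArg (fun y : ℝ => y * ta) zc_107642617856_0)
    (881 / 16384 : ℝ) zc_59122909184_0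
    an1 e_an1
    (4 * it) (congrArg (fun y : ℝ => y * it) zc_4398046511104_0)
    (4 * it + k) rfl).2
    ((4 * it + k)⁻¹) rfl
    (an * (4 * it + k)⁻¹) rfl
    (an * (4 * it + k)⁻¹ * DP) rfl
    X (e_X.trans (congrArg (fun y : ℝ => y * (an * (4 * it + k)⁻¹ * DP)) zc_4398046511104_0))
    ((1 : ℝ) - X) rfl
  change 0 < (1 : ℝ) - X at p_X1
  obtain ⟨p_q20, ch2⟩ := (((ch1).2
    iX e_iX
    (2 : ℝ) zc_2199023255552_0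
    ((1 / 4) * y2) (congrArg (fun y : ℝ => y * y2) zc_274877906944_0)
    ((2 : ℝ) - (1 / 4) * y2) rfl
    (y2 * y2) rfl
    ((2731 / 524288) * (y2 * y2)) (congrArg (fun y : ℝ => y * (y2 * y2)) zc_5727322112_0)
    ((2 : ℝ) - (1 / 4) * y2 + (2731 / 524288) * (y2 * y2)) rfl
    ((1 / 4) * y2 * ((1 / 4) * y2)) rfl
    ((1 / 4) * y2 * ((1 / 4) * y2) * ((1 / 4) * y2)) rfl
    ((1 / 4) * y2 * ((1 / 4) * y2) * ((1 / 4) * y2) * ((1 / 4) * y2 * ((1 / 4) * y2) * ((1 / 4) * y2))) rfl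
    ((859 / 1048576) * ((1 / 4) * y2 * ((1 / 4) * y2) * ((1 / 4) * y2) * ((1 / 4) * y2 * ((1 / 4) * y2) * ((1 / 4) * y2)))) (congrArg (fun y : ℝ => y * ((1 / 4) * y2 * ((1 / 4) * y2) * ((1 / 4) * y2) * ((1 / 4) * y2 * ((1 / 4) * y2) * ((1 / 4) * y2)))) zc_900726784_0)
    G e_G
    (W * RW) rfl
    (G + W * RW) rfl
    (W * V1) rfl
    ((314573 / 524288) * (W * V1)) (congrArg (fun y : ℝ => y * (W * V1)) zc_659707396096_0)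
    (ls + (314573 / 524288) * (W * V1)) rfl
    (Real.exp (ls + (314573 / 524288) * (W * V1))) rfl
    (G + W * RW + Real.exp (ls + (314573 / 524288) * (W * V1))) rfl
    n1 e_n1
    (X * iX) rfl
    (n1 * (X * iX)) rfl
    lsp e_lsp
    lspS e_lspS
    ((9 / 2) * ie) (congrArg (fun y : ℝ => y * ie) zc_4947802324992_0)
    ((43691 / 524288) * se) (congrArg (fun y : ℝ => y * se) zc_91626668032_0)
    ielf e_ielf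
    uX e_uX
    ((1 : ℝ) - uX) rfl).2
    (((1 : ℝ) - uX)⁻¹) rfl
    (uX * ((1 : ℝ) - uX)⁻¹) rfl
    (ie * (uX * ((1 : ℝ) - uX)⁻¹)) rfl
    ielfp e_ielfp
    rh e_rh
    (rh * rh) rfl
    (rh * rh + y2) rfl
    (1 / 64 : ℝ) zc_17179869184_0
    (rh * rh + y2 + (1 / 64 : ℝ)) rfl).2
    (Real.log (rh * rh + y2 + (1 / 64 : ℝ))) rfl
    ((1 / 2) * Real.log (rh * rh + y2 + (1 / 64 : ℝ))) (congrArg (fun y : ℝ => y * Real.log (rh * rh + y2 + (1 / 64 : ℝ))) zc_549755813888_0)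
    zb e_zb
    zbS e_zbS
    (zb * ie) rfl
    ((1 / 2) * (zb * ie)) (congrArg (fun y : ℝ => y * (zb * ie)) zc_549755813888_0)
    (1064305 / 1048576 : ℝ) zc_1116004679680_0
    fac e_fac
    ((1 / 2) * wse) (congrArg (fun y : ℝ => y * wse) zc_549755813888_0)
    ((1 / 2) * wse * D2) rfl
    ((2149581 / 1048576) * k) (congrArg (fun y : ℝ => y * k) zc_2253999046656_0)
    (zbS + (2149581 / 1048576) * k) rfl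
    ((1 / 2) * wse * D2 * (zbS + (2149581 / 1048576) * k)) rfl
    (k * K) rfl
    ((1 / 2) * (k * K)) (congrArg (fun y : ℝ => y * (k * K)) zc_549755813888_0)
    (zbS + (1 / 2) * (k * K)) rfl
    ((zbS + (1 / 2) * (k * K)) * lspS) rfl
    ((1 / 2) * wse * D2 * (zbS + (2149581 / 1048576) * k) + (zbS + (1 / 2) * (k * K)) * lspS) rfl
    (ie * lsp) rfl
    ((445645 / 262144) * (ie * lsp)) (congrArg (fun y : ℝ => y * (ie * lsp)) zc_1869170606080_0)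
    ((576717 / 262144) * ielfp) (congrArg (fun y : ℝ => y * ielfp) zc_2418926419968_0)
    ((445645 / 262144) * (ie * lsp) + (576717 / 262144) * ielfp) rfl
    (k2 * ((445645 / 262144) * (ie * lsp) + (576717 / 262144) * ielfp)) rfl
    ((1 / 2) * wse * D2 * (zbS + (2149581 / 1048576) * k) + (zbS + (1 / 2) * (k * K)) * lspS + k2 * ((445645 / 262144) * (ie * lsp) + (576717 / 262144) * ielfp)) rfl
    Q e_Q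
    E e_E
    Qw e_Qw
    (2 * Qw) (congrArg (fun y : ℝ => y * Qw) zc_2199023255552_0)
    c2 e_c2
  change 0 < q2 at p_q20
  obtain ⟨p_Es, ch3⟩ := ch2
    ((1 : ℝ) - Qw) rfl
  change 0 < (1 : ℝ) - Qw at p_Es
  obtain ⟨p_c20, ch4⟩ := ch3
  change 0 < c2 at p_c20
  obtain ⟨p_RH, ch5⟩ := ch4
    (3781 / 1024 : ℝ) zc_4059817836544_0
    ((3781 / 1024 : ℝ) - RW) rfl
    ((3781 / 1024 : ℝ) - RW - Q) rfl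
    (Qw + (1 : ℝ)) rfl
    ((Qw + (1 : ℝ)) * (Qw + (1 : ℝ))) rfl
    ((3781 / 1024 : ℝ) - RW - Q - (Qw + (1 : ℝ)) * (Qw + (1 : ℝ))) rfl
  change 0 < (3781 / 1024 : ℝ) - RW - Q - (Qw + (1 : ℝ)) * (Qw + (1 : ℝ)) at p_RH
  obtain ⟨p_h9, ch6⟩ := ch5
    ((9646899 / 1048576) * c2) (congrArg (fun y : ℝ => y * c2) zc_10115506765824_0)
    ((9646899 / 1048576) * c2 - (3781 / 1024 : ℝ)) rfl
  change 0 < (9646899 / 1048576) * c2 - (3781 / 1024 : ℝ) at p_h9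
  obtain ⟨p_h2, ch7⟩ := ch6
    ((471859 / 524288) * c2) (congrArg (fun y : ℝ => y * c2) zc_989560045568_0)
    ((13961 / 1024) * Wie) (congrArg (fun y : ℝ => y * Wie) zc_14990509604864_0)
    ((471859 / 524288) * c2 - (13961 / 1024) * Wie) rfl
  change 0 < (471859 / 524288) * c2 - (13961 / 1024) * Wie at p_h2
  obtain ⟨p_Er, ch8⟩ := ch7
    (l1 - Q) rfl
  change 0 < l1 - Q at p_Er
  obtain ⟨p_dr, ch9⟩ := ch8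
    ((825 / 4096) * q6) (congrArg (fun y : ℝ => y * q6) zc_221459251200_0)
    ((825 / 4096) * q6 * ((1 : ℝ) - Qw)) rfl
    ((813 / 512) * K) (congrArg (fun y : ℝ => y * K) zc_1745904205824_0)
    (2 * ((813 / 512) * K)) (congrArg (fun y : ℝ => y * ((813 / 512) * K)) zc_2199023255552_0)
    (Real.exp (2 * ((813 / 512) * K))) rfl
    (Q * Real.exp (2 * ((813 / 512) * K))) rfl
    ((825 / 4096) * q6 * ((1 : ℝ) - Qw) - Q * Real.exp (2 * ((813 / 512) * K))) rfl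
  change 0 < (825 / 4096) * q6 * ((1 : ℝ) - Qw) - Q * Real.exp (2 * ((813 / 512) * K)) at p_dr
  obtain ⟨p_La, ch10⟩ := ch9
    ((1 : ℝ) - 2 * Qw) rfl
    ((2775 / 1024) * ((1 : ℝ) - 2 * Qw)) (congrArg (fun y : ℝ => y * ((1 : ℝ) - 2 * Qw)) zc_2979633561600_0)
    ((2775 / 1024) * ((1 : ℝ) - 2 * Qw) - RW) rfl
    ((2775 / 1024) * ((1 : ℝ) - 2 * Qw) - RW - Q) rfl
  change 0 < (2775 / 1024) * ((1 : ℝ) - 2 * Qw) - RW - Q at p_La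
  obtain ⟨p_l1, ch11⟩ := ch10
    (-(ie * lsp)) rfl
    (10485 / 1048576 : ℝ) zc_10994319360_0
    ((-(ie * lsp)) + (10485 / 1048576 : ℝ)) rfl
  change 0 < (-(ie * lsp)) + (10485 / 1048576 : ℝ) at p_l1
  obtain ⟨p_l2, ch12⟩ := ch11
    (-ielfp) rfl
    (20971 / 1048576 : ℝ) zc_21989687296_0
    ((-ielfp) + (20971 / 1048576 : ℝ)) rfl
  change 0 < (-ielfp) + (20971 / 1048576 : ℝ) at p_l2
  obtain ⟨p_z1, ch13⟩ := ch12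
    (-(zb * ie)) rfl
    (104857 / 1048576 : ℝ) zc_109950533632_0
    ((-(zb * ie)) + (104857 / 1048576 : ℝ)) rfl
  change 0 < (-(zb * ie)) + (104857 / 1048576 : ℝ) at p_z1
  obtain ⟨p_E1, ch14⟩ := ch13
    (E * ie) rfl
    (-(E * ie)) rfl
    (2621 / 524288 : ℝ) zc_5496635392_0
    ((-(E * ie)) + (2621 / 524288 : ℝ)) rfl
  change 0 < (-(E * ie)) + (2621 / 524288 : ℝ) at p_E1
  obtain ⟨p_y, ch15⟩ := ch14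
    (-E) rfl
    ((-E) - y) rfl
    ((471 / 256) * K) (congrArg (fun y : ℝ => y * K) zc_2022929596416_0)
    ((-E) - y + (471 / 256) * K) rfl
    (6563 / 2048 : ℝ) zc_3523483795456_0
    ((-E) - y + (471 / 256) * K + (6563 / 2048 : ℝ)) rfl
  change 0 < (-E) - y + (471 / 256) * K + (6563 / 2048 : ℝ) at p_y
  obtain ⟨p_yY, ch16⟩ := ch15
    (7 / 2 : ℝ) zc_3848290697216_0
    ((-E) - y + (7 / 2 : ℝ)) rfl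
  change 0 < (-E) - y + (7 / 2 : ℝ) at p_yY
  obtain ⟨p_EM2, ch17⟩ := ((((ch16
    (9775 / 4096 : ℝ) zc_2623956582400_0
    (Kq * (9775 / 4096 : ℝ)) rfl
    zd (e_zd.trans (congrArg (fun y : ℝ => y * (Kq * (9775 / 4096 : ℝ))) zc_2199023255552_0))
    (zd * zd) rfl
    (zd * zd * ((1 : ℝ) * (3 : ℝ)⁻¹)) rfl
    (zd * zd * ((1 : ℝ) * (3 : ℝ)⁻¹) + (1 : ℝ)) rfl).2
    izd e_izd
    thd e_thd
    (q6 * (9775 / 4096 : ℝ)) rfl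
    (q6 * (9775 / 4096 : ℝ) * izd) rfl
    (thd * thd) rfl
    ((1 / 4) * (thd * thd)) (congrArg (fun y : ℝ => y * (thd * thd)) zc_274877906944_0)
    ((1 / 4) * (thd * thd) + (1 : ℝ)) rfl
    ld e_ld
    (13871 / 4096 : ℝ) zc_3723468210176_0
    (Kq * (13871 / 4096 : ℝ)) rfl
    ze (e_ze.trans (congrArg (fun y : ℝ => y * (Kq * (13871 / 4096 : ℝ))) zc_2199023255552_0))
    (ze * ze) rfl
    (ze * ze * ((1 : ℝ) * (3 : ℝ)⁻¹)) rfl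
    (ze * ze * ((1 : ℝ) * (3 : ℝ)⁻¹) + (1 : ℝ)) rfl).2
    ize e_ize
    the e_the
    (q6 * (13871 / 4096 : ℝ)) rfl
    (q6 * (13871 / 4096 : ℝ) * ize) rfl
    (the * the) rfl
    ((1 / 4) * (the * the)) (congrArg (fun y : ℝ => y * (the * the)) zc_274877906944_0)
    ((1 / 4) * (the * the) + (1 : ℝ)) rfl
    le e_le
    cd5 e_cd5
    (-cd5) rfl
    xxn e_xxn
    ((1 / 2) * xxn) (congrArg (fun y : ℝ => y * xxn) zc_549755813888_0)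
    (xxn + (1 : ℝ)) rfl
    (-(xxn + (1 : ℝ))) rfl
    ((1 / 2) * xxn * (-(xxn + (1 : ℝ)))) rfl
    rcn e_rcn
    bnn e_bnn
    (q * w * cd5) rfl
    (q * w * cd5 * le) rfl
    ((1 / 2) * (q * w * cd5 * le)) (congrArg (fun y : ℝ => y * (q * w * cd5 * le)) zc_549755813888_0)
    wsn e_wsn
    ((1 / 2) * wsn) (congrArg (fun y : ℝ => y * wsn) zc_549755813888_0)
    (wsn * wsn) rfl
    ((1482911 / 16777216) * (wsn * wsn)) (congrArg (fun y : ℝ => y * (wsn * wsn)) zc_97184055296_0)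
    ((1482911 / 16777216) * (wsn * wsn) + (1482911 / 1048576 : ℝ)) rfl
    ((1 / 2) * wsn + ((1482911 / 16777216) * (wsn * wsn) + (1482911 / 1048576 : ℝ))) rfl).2
    (((1 / 2) * wsn + ((1482911 / 16777216) * (wsn * wsn) + (1482911 / 1048576 : ℝ)))⁻¹) rfl
    bn e_bn
    (bn + (1 / 2) * (q * w * cd5 * le)) rfl).2
    ibn e_ibn
    (q2 * ld) rfl
    (q2 * ld * W) rfl
    (q2 * ld * W * c2) rfl
    (-(q2 * ld * W * c2)) rfl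
    u1 e_u1
    (w + ibn) rfl
    m1 e_m1
    (w * m1) rfl
    (W + w * m1) rfl
    EM e_EM
    ((1 / 2) * EM) (congrArg (fun y : ℝ => y * EM) zc_549755813888_0)
    ((1 : ℝ) - (1 / 2) * EM) rfl
  change 0 < (1 : ℝ) - (1 / 2) * EM at p_EM2
  obtain ⟨p_cl, ch18⟩ := (ch17).2
    i2 e_i2
    ((1 / 2) * EM + (1 : ℝ)) rfl
    eta e_eta
    (EM * i2) rfl
    ((1 / 4) * k) (congrArg (fun y : ℝ => y * k) zc_274877906944_0)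
    (it + (1 / 4) * k) rfl
    t1 e_t1
    ((1 / 1024) * K) (congrArg (fun y : ℝ => y * K) zc_1073741824_0)
    ((1 : ℝ) - (1 / 1024) * K) rfl
    (((1 : ℝ) - (1 / 1024) * K) * an) rfl
    (((1 : ℝ) - (1 / 1024) * K) * an - t1) rfl
    (u1 * an1) rfl
    (eta * (u1 * an1)) rfl
    (V1 + Q) rfl
    (wse * (V1 + Q)) rfl
    (wse * (V1 + Q) + (1 : ℝ)) rfl
    (eta * (u1 * an1) * (wse * (V1 + Q) + (1 : ℝ))) rfl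
    (((1 : ℝ) - (1 / 1024) * K) * an - t1 - eta * (u1 * an1) * (wse * (V1 + Q) + (1 : ℝ))) rfl
  change 0 < ((1 : ℝ) - (1 / 1024) * K) * an - t1 - eta * (u1 * an1) * (wse * (V1 + Q) + (1 : ℝ)) at p_cl
  exact ⟨n1, ielf,
    ⟨se, ie, K, K2, q6, Kq, Yt, Y2, wm, wm2, wse0, q, sp, y2, sg2, lsg, w, k, W, it, k2, wse,
    Wie, q2, ie2, c5, RW, R2, V1, z1, iz1, th1, l1, z2, iz2, th2, l2, rl, cc5, xxo, rco, bno,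
    wso, bo, ibo, eo, wMo, u, ls, D2, xP, DP, an, an1, X, iX, lsp, lspS, uX, ielfp, rh, zb, zbS,
    fac, Q, E, Qw, c2, zd, izd, thd, ld, ze, ize, the, le, cd5, xxn, rcn, bnn, wsn, bn, ibn, u1,
    m1, EM, i2, eta, t1, e_se, e_ie, e_K, e_K2, e_q6, e_Kq, e_Yt, e_Y2, e_wm, e_wm2, e_wse0,
    e_q, e_sp, e_y2, e_sg2, e_lsg, e_w, e_k, e_W, e_it, e_k2, e_wse, e_Wie, e_q2, e_ie2, e_c5,
    e_RW, e_R2, e_V1, e_z1, e_iz1, e_th1, e_l1, e_z2, e_iz2, e_th2, e_l2, e_rl, e_cc5, e_xxo,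
    e_rco, e_bno, e_wso, e_bo, e_ibo, e_eo, e_wMo, e_u, e_ls, e_D2, e_xP, e_DP, e_an, e_an1,
    e_X, e_iX, e_lsp, e_lspS, e_uX, e_ielfp, e_rh, e_zb, e_zbS, e_fac, e_Q, e_E, e_Qw, e_c2,
    e_zd, e_izd, e_thd, e_ld, e_ze, e_ize, e_the, e_le, e_cd5, e_xxn, e_rcn, e_bnn, e_wsn, e_bn,
    e_ibn, e_u1, e_m1, e_EM, e_i2, e_eta, e_t1, p_rr, p_X1, p_q20, p_Es, p_c20, p_RH, p_h9,
    p_h2, p_Er, p_dr, p_La, p_l1, p_l2, p_z1, p_E1, p_y, p_yY, p_EM2, p_cl⟩,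
    ⟨⟨G, e_G, e_n1⟩⟩, ⟨⟨e_ielf⟩⟩⟩

theorem ex_LB0_u {om ta y : ℝ} (h : RAs Cert.LB0.prog1 [om, ta, y]) :
    ∃ n1 ielf : ℝ, ∃ P : PLB (cB 0) om ta y n1 ielf, Nonempty (PLBu P) ∧ Nonempty (PLBv P) := by
  obtain ⟨se, e_se⟩ : ∃ zz : ℝ, zz = om * ta := ⟨_, rfl⟩
  obtain ⟨ie, e_ie⟩ : ∃ zz : ℝ, zz = se * se := ⟨_, rfl⟩
  obtain ⟨K, e_K⟩ : ∃ zz : ℝ, zz = om * se := ⟨_, rfl⟩
  obtain ⟨K2, e_K2⟩ : ∃ zz : ℝ, zz = K * K := ⟨_, rfl⟩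
  obtain ⟨q6, e_q6⟩ : ∃ zz : ℝ, zz = (1 : ℝ) - K2 * ((1 : ℝ) * (6 : ℝ)⁻¹) := ⟨_, rfl⟩
  obtain ⟨Kq, e_Kq⟩ : ∃ zz : ℝ, zz = K * q6 := ⟨_, rfl⟩
  obtain ⟨Yt, e_Yt⟩ : ∃ zz : ℝ, zz = (7 / 2) * ta := ⟨_, rfl⟩
  obtain ⟨Y2, e_Y2⟩ : ∃ zz : ℝ, zz = Yt * Yt := ⟨_, rfl⟩
  obtain ⟨wm, e_wm⟩ : ∃ zz : ℝ, zz = Yt * ((1 : ℝ) + Y2 * ((1 / 2 : ℝ) - (1 / 8) * Y2))⁻¹ := ⟨_, rfl⟩
  obtain ⟨wm2, e_wm2⟩ : ∃ zz : ℝ, zz = wm * wm := ⟨_, rfl⟩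
  obtain ⟨wse0, e_wse0⟩ : ∃ zz : ℝ, zz = wm * se := ⟨_, rfl⟩
  obtain ⟨q, e_q⟩ : ∃ zz : ℝ, zz = (4095 / 4096 : ℝ) - (1449 / 512) * wse0 - 23 * ie - (1 / 2) * K2 := ⟨_, rfl⟩
  obtain ⟨sp, e_sp⟩ : ∃ zz : ℝ, zz = (4095 / 4096 : ℝ) - (2899 / 2048) * wse0 - 19 * ie - (553 / 1024) * K2 := ⟨_, rfl⟩
  obtain ⟨y2, e_y2⟩ : ∃ zz : ℝ, zz = y * y := ⟨_, rfl⟩
  obtain ⟨sg2, e_sg2⟩ : ∃ zz : ℝ, zz = y2 * (ta * ta) + (1 : ℝ) := ⟨_, rfl⟩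
  obtain ⟨lsg, e_lsg⟩ : ∃ zz : ℝ, zz = (1 / 2) * Real.log sg2 := ⟨_, rfl⟩
  obtain ⟨w, e_w⟩ : ∃ zz : ℝ, zz = om * Real.exp lsg := ⟨_, rfl⟩
  obtain ⟨k, e_k⟩ : ∃ zz : ℝ, zz = Real.exp (-lsg) := ⟨_, rfl⟩
  obtain ⟨W, e_W⟩ : ∃ zz : ℝ, zz = w * w := ⟨_, rfl⟩
  obtain ⟨it, e_it⟩ : ∃ zz : ℝ, zz = ta * k := ⟨_, rfl⟩
  obtain ⟨k2, e_k2⟩ : ∃ zz : ℝ, zz = k * k := ⟨_, rfl⟩
  obtain ⟨wse, e_wse⟩ : ∃ zz : ℝ, zz = w * se := ⟨_, rfl⟩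
  obtain ⟨Wie, e_Wie⟩ : ∃ zz : ℝ, zz = W * ie := ⟨_, rfl⟩
  obtain ⟨q2, e_q2⟩ : ∃ zz : ℝ, zz = q - 8 * ie - Wie * ((3781 / 512) * wm2 + (3781 / 2048 : ℝ)) := ⟨_, rfl⟩
  obtain ⟨ie2, e_ie2⟩ : ∃ zz : ℝ, zz = ie * ie := ⟨_, rfl⟩
  obtain ⟨c5, e_c5⟩ : ∃ zz : ℝ, zz = (1 : ℝ) - 500 * ie2 := ⟨_, rfl⟩
  obtain ⟨RW, e_RW⟩ : ∃ zz : ℝ, zz = (2521 / 1024) * (560 * ie2 + (1 : ℝ)) := ⟨_, rfl⟩
  obtain ⟨R2, e_R2⟩ : ∃ zz : ℝ, zz = RW * RW * Wie := ⟨_, rfl⟩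
  obtain ⟨V1, e_V1⟩ : ∃ zz : ℝ, zz = R2 + (1 : ℝ) := ⟨_, rfl⟩
  obtain ⟨z1, e_z1⟩ : ∃ zz : ℝ, zz = 2 * (Kq * (813 / 512 : ℝ)) := ⟨_, rfl⟩
  obtain ⟨iz1, e_iz1⟩ : ∃ zz : ℝ, zz = (z1 * z1 * ((1 : ℝ) * (3 : ℝ)⁻¹) + (1 : ℝ))⁻¹ := ⟨_, rfl⟩
  obtain ⟨th1, e_th1⟩ : ∃ zz : ℝ, zz = z1 * iz1 := ⟨_, rfl⟩
  obtain ⟨l1, e_l1⟩ : ∃ zz : ℝ, zz = q6 * (813 / 512 : ℝ) * iz1 * ((1 / 4) * (th1 * th1) + (1 : ℝ)) := ⟨_, rfl⟩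
  obtain ⟨z2, e_z2⟩ : ∃ zz : ℝ, zz = 2 * (Kq * (1325 / 512 : ℝ)) := ⟨_, rfl⟩
  obtain ⟨iz2, e_iz2⟩ : ∃ zz : ℝ, zz = (z2 * z2 * ((1 : ℝ) * (3 : ℝ)⁻¹) + (1 : ℝ))⁻¹ := ⟨_, rfl⟩
  obtain ⟨th2, e_th2⟩ : ∃ zz : ℝ, zz = z2 * iz2 := ⟨_, rfl⟩
  obtain ⟨l2, e_l2⟩ : ∃ zz : ℝ, zz = q6 * (1325 / 512 : ℝ) * iz2 * ((1 / 4) * (th2 * th2) + (1 : ℝ)) := ⟨_, rfl⟩
  obtain ⟨rl, e_rl⟩ : ∃ zz : ℝ, zz = W * l1 := ⟨_, rfl⟩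
  obtain ⟨cc5, e_cc5⟩ : ∃ zz : ℝ, zz = c5 * c5 := ⟨_, rfl⟩
  obtain ⟨xxo, e_xxo⟩ : ∃ zz : ℝ, zz = (-cc5) + (1 : ℝ) := ⟨_, rfl⟩
  obtain ⟨rco, e_rco⟩ : ∃ zz : ℝ, zz = (1 / 2) * xxo * (-(xxo + (1 : ℝ))) + (1 : ℝ) := ⟨_, rfl⟩
  obtain ⟨bno, e_bno⟩ : ∃ zz : ℝ, zz = sp * rco := ⟨_, rfl⟩
  obtain ⟨wso, e_wso⟩ : ∃ zz : ℝ, zz = bno * w := ⟨_, rfl⟩
  obtain ⟨bo, e_bo⟩ : ∃ zz : ℝ, zz = bno * ((1 / 2) * wso + ((1482911 / 16777216) * (wso * wso) + (1482911 / 1048576 : ℝ)))⁻¹ := ⟨_, rfl⟩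
  obtain ⟨ibo, e_ibo⟩ : ∃ zz : ℝ, zz = (bo + (1 / 2) * (q * w * cc5 * l2))⁻¹ := ⟨_, rfl⟩
  obtain ⟨eo, e_eo⟩ : ∃ zz : ℝ, zz = Real.exp (-(q2 * rl * c5)) := ⟨_, rfl⟩
  obtain ⟨wMo, e_wMo⟩ : ∃ zz : ℝ, zz = eo * (w + ibo) := ⟨_, rfl⟩
  obtain ⟨u, e_u⟩ : ∃ zz : ℝ, zz = Real.exp (-(q2 * rl)) := ⟨_, rfl⟩
  obtain ⟨ls, e_ls⟩ : ∃ zz : ℝ, zz = w * V1 * wMo := ⟨_, rfl⟩
  obtain ⟨D2, e_D2⟩ : ∃ zz : ℝ, zz = l1 * l1 * Wie + ((1 : ℝ) - 2 * (k * l1 * wse)) := ⟨_, rfl⟩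
  obtain ⟨xP, e_xP⟩ : ∃ zz : ℝ, zz = R2 + 2 * (k * RW * wse) := ⟨_, rfl⟩
  obtain ⟨DP, e_DP⟩ : ∃ zz : ℝ, zz = (1 : ℝ) + xP * ((1 / 2 : ℝ) - xP * ((1 / 8 : ℝ) - (1 / 16) * xP)) := ⟨_, rfl⟩
  obtain ⟨an, e_an⟩ : ∃ zz : ℝ, zz = (133 / 512) * ta + (223 / 4096 : ℝ) := ⟨_, rfl⟩
  obtain ⟨an1, e_an1⟩ : ∃ zz : ℝ, zz = (401 / 4096) * ta + (881 / 16384 : ℝ) := ⟨_, rfl⟩
  obtain ⟨X, e_X⟩ : ∃ zz : ℝ, zz = 4 * (an * (4 * it + k)⁻¹ * DP) := ⟨_, rfl⟩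
  obtain ⟨iX, e_iX⟩ : ∃ zz : ℝ, zz = ((1 : ℝ) - X)⁻¹ := ⟨_, rfl⟩
  obtain ⟨n1, e_n1⟩ : ∃ zz : ℝ, zz = u + (1 : ℝ) := ⟨_, rfl⟩
  obtain ⟨lsp, e_lsp⟩ : ∃ zz : ℝ, zz = ls + n1 * (X * iX) := ⟨_, rfl⟩
  obtain ⟨lspS, e_lspS⟩ : ∃ zz : ℝ, zz = lsp * it := ⟨_, rfl⟩
  obtain ⟨ielf, e_ielf⟩ : ∃ zz : ℝ, zz = ie * ((183501 / 262144 : ℝ) - Real.log ((1 : ℝ) - u)) := ⟨_, rfl⟩
  obtain ⟨uX, e_uX⟩ : ∃ zz : ℝ, zz = u * X := ⟨_, rfl⟩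
  obtain ⟨ielfp, e_ielfp⟩ : ∃ zz : ℝ, zz = ielf + ie * (uX * ((1 : ℝ) - uX)⁻¹) := ⟨_, rfl⟩
  obtain ⟨rh, e_rh⟩ : ∃ zz : ℝ, zz = RW * W := ⟨_, rfl⟩
  obtain ⟨zb, e_zb⟩ : ∃ zz : ℝ, zz = Real.exp ((1 / 2) * Real.log (rh * rh + y2 + (1 / 64 : ℝ))) := ⟨_, rfl⟩
  obtain ⟨zbS, e_zbS⟩ : ∃ zz : ℝ, zz = zb * it := ⟨_, rfl⟩
  obtain ⟨fac, e_fac⟩ : ∃ zz : ℝ, zz = (1 / 2) * (zb * ie) + (1064305 / 1048576 : ℝ) := ⟨_, rfl⟩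
  obtain ⟨Q, e_Q⟩ : ∃ zz : ℝ, zz = fac * ((1 / 2) * wse * D2 * (zbS + (2149581 / 1048576) * k) + (zbS + (1 / 2) * (k * K)) * lspS + k2 * ((445645 / 262144) * (ie * lsp) + (576717 / 262144) * ielfp)) := ⟨_, rfl⟩
  obtain ⟨E, e_E⟩ : ∃ zz : ℝ, zz = Q * W := ⟨_, rfl⟩
  obtain ⟨Qw, e_Qw⟩ : ∃ zz : ℝ, zz = Q * wse := ⟨_, rfl⟩
  obtain ⟨c2, e_c2⟩ : ∃ zz : ℝ, zz = c5 - 2 * Qw := ⟨_, rfl⟩
  obtain ⟨zd, e_zd⟩ : ∃ zz : ℝ, zz = 2 * (Kq * (9775 / 4096 : ℝ)) := ⟨_, rfl⟩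
  obtain ⟨izd, e_izd⟩ : ∃ zz : ℝ, zz = (zd * zd * ((1 : ℝ) * (3 : ℝ)⁻¹) + (1 : ℝ))⁻¹ := ⟨_, rfl⟩
  obtain ⟨thd, e_thd⟩ : ∃ zz : ℝ, zz = zd * izd := ⟨_, rfl⟩
  obtain ⟨ld, e_ld⟩ : ∃ zz : ℝ, zz = q6 * (9775 / 4096 : ℝ) * izd * ((1 / 4) * (thd * thd) + (1 : ℝ)) := ⟨_, rfl⟩
  obtain ⟨ze, e_ze⟩ : ∃ zz : ℝ, zz = 2 * (Kq * (13871 / 4096 : ℝ)) := ⟨_, rfl⟩
  obtain ⟨ize, e_ize⟩ : ∃ zz : ℝ, zz = (ze * ze * ((1 : ℝ) * (3 : ℝ)⁻¹) + (1 : ℝ))⁻¹ := ⟨_, rfl⟩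
  obtain ⟨the, e_the⟩ : ∃ zz : ℝ, zz = ze * ize := ⟨_, rfl⟩
  obtain ⟨le, e_le⟩ : ∃ zz : ℝ, zz = q6 * (13871 / 4096 : ℝ) * ize * ((1 / 4) * (the * the) + (1 : ℝ)) := ⟨_, rfl⟩
  obtain ⟨cd5, e_cd5⟩ : ∃ zz : ℝ, zz = c2 * c5 := ⟨_, rfl⟩
  obtain ⟨xxn, e_xxn⟩ : ∃ zz : ℝ, zz = (-cd5) + (1 : ℝ) := ⟨_, rfl⟩
  obtain ⟨rcn, e_rcn⟩ : ∃ zz : ℝ, zz = (1 / 2) * xxn * (-(xxn + (1 : ℝ))) + (1 : ℝ) := ⟨_, rfl⟩
  obtain ⟨bnn, e_bnn⟩ : ∃ zz : ℝ, zz = sp * rcn := ⟨_, rfl⟩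
  obtain ⟨wsn, e_wsn⟩ : ∃ zz : ℝ, zz = bnn * w := ⟨_, rfl⟩
  obtain ⟨bn, e_bn⟩ : ∃ zz : ℝ, zz = bnn * ((1 / 2) * wsn + ((1482911 / 16777216) * (wsn * wsn) + (1482911 / 1048576 : ℝ)))⁻¹ := ⟨_, rfl⟩
  obtain ⟨ibn, e_ibn⟩ : ∃ zz : ℝ, zz = (bn + (1 / 2) * (q * w * cd5 * le))⁻¹ := ⟨_, rfl⟩
  obtain ⟨u1, e_u1⟩ : ∃ zz : ℝ, zz = Real.exp (-(q2 * ld * W * c2)) := ⟨_, rfl⟩
  obtain ⟨m1, e_m1⟩ : ∃ zz : ℝ, zz = u1 * (w + ibn) := ⟨_, rfl⟩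
  obtain ⟨EM, e_EM⟩ : ∃ zz : ℝ, zz = Q * (W + w * m1) := ⟨_, rfl⟩
  obtain ⟨i2, e_i2⟩ : ∃ zz : ℝ, zz = ((1 : ℝ) - (1 / 2) * EM)⁻¹ := ⟨_, rfl⟩
  obtain ⟨eta, e_eta⟩ : ∃ zz : ℝ, zz = ((1 / 2) * EM + (1 : ℝ)) * i2 := ⟨_, rfl⟩
  obtain ⟨t1, e_t1⟩ : ∃ zz : ℝ, zz = EM * i2 * (it + (1 / 4) * k) := ⟨_, rfl⟩
  obtain ⟨p_rr, ch0⟩ := ((((((((h
    (1 : ℝ) zc_1099511627776_0
    (3 : ℝ) zc_3298534883328_0).2
    ((3 : ℝ)⁻¹) rfl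
    ((1 : ℝ) * (3 : ℝ)⁻¹) rfl
    se e_se
    ie e_ie
    K e_K
    K2 e_K2
    (6 : ℝ) zc_6597069766656_0).2
    ((6 : ℝ)⁻¹) rfl
    ((1 : ℝ) * (6 : ℝ)⁻¹) rfl
    (K2 * ((1 : ℝ) * (6 : ℝ)⁻¹)) rfl
    q6 e_q6
    Kq e_Kq
    Yt (e_Yt.trans (congrArg (fun y : ℝ => y * ta) zc_3848290697216_0))
    Y2 e_Y2
    (1 / 2 : ℝ) zc_549755813888_0
    ((1 / 8) * Y2) (congrArg (fun y : ℝ => y * Y2) zc_137438953472_0)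
    ((1 / 2 : ℝ) - (1 / 8) * Y2) rfl
    (Y2 * ((1 / 2 : ℝ) - (1 / 8) * Y2)) rfl
    ((1 : ℝ) + Y2 * ((1 / 2 : ℝ) - (1 / 8) * Y2)) rfl).2
    (((1 : ℝ) + Y2 * ((1 / 2 : ℝ) - (1 / 8) * Y2))⁻¹) rfl
    wm e_wm
    wm2 e_wm2
    wse0 e_wse0
    (4095 / 4096 : ℝ) zc_1099243192320_0
    ((1449 / 512) * wse0) (congrArg (fun y : ℝ => y * wse0) zc_3111703805952_0)
    ((4095 / 4096 : ℝ) - (1449 / 512) * wse0) rfl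
    (23 * ie) (congrArg (fun y : ℝ => y * ie) zc_25288767438848_0)
    ((4095 / 4096 : ℝ) - (1449 / 512) * wse0 - 23 * ie) rfl
    ((1 / 2) * K2) (congrArg (fun y : ℝ => y * K2) zc_549755813888_0)
    q e_q
    ((2899 / 2048) * wse0) (congrArg (fun y : ℝ => y * wse0) zc_1556388773888_0)
    ((4095 / 4096 : ℝ) - (2899 / 2048) * wse0) rfl
    (19 * ie) (congrArg (fun y : ℝ => y * ie) zc_20890720927744_0)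
    ((4095 / 4096 : ℝ) - (2899 / 2048) * wse0 - 19 * ie) rfl
    ((553 / 1024) * K2) (congrArg (fun y : ℝ => y * K2) zc_593779228672_0)
    sp e_sp
    y2 e_y2
    (ta * ta) rfl
    (y2 * (ta * ta)) rfl
    sg2 e_sg2).2
    (Real.log sg2) rfl
    lsg (e_lsg.trans (congrArg (fun y : ℝ => y * Real.log sg2) zc_549755813888_0))
    (Real.exp lsg) rfl
    w e_w
    (-lsg) rfl
    k e_k
    W e_W
    it e_it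
    k2 e_k2
    wse e_wse
    Wie e_Wie
    (8 * ie) (congrArg (fun y : ℝ => y * ie) zc_8796093022208_0)
    (q - 8 * ie) rfl
    ((3781 / 512) * wm2) (congrArg (fun y : ℝ => y * wm2) zc_8119635673088_0)
    (3781 / 2048 : ℝ) zc_2029908918272_0
    ((3781 / 512) * wm2 + (3781 / 2048 : ℝ)) rfl
    (Wie * ((3781 / 512) * wm2 + (3781 / 2048 : ℝ))) rfl
    q2 e_q2
    ie2 e_ie2
    (500 * ie2) (congrArg (fun y : ℝ => y * ie2) zc_549755813888000_0)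
    c5 e_c5
    (560 * ie2) (congrArg (fun y : ℝ => y * ie2) zc_615726511554560_0)
    (560 * ie2 + (1 : ℝ)) rfl
    RW (e_RW.trans (congrArg (fun y : ℝ => y * (560 * ie2 + (1 : ℝ))) zc_2706903138304_0))
    (RW * RW) rfl
    R2 e_R2
    V1 e_V1
    (813 / 512 : ℝ) zc_1745904205824_0
    (Kq * (813 / 512 : ℝ)) rfl
    z1 (e_z1.trans (congrArg (fun y : ℝ => y * (Kq * (813 / 512 : ℝ))) zc_2199023255552_0))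
    (z1 * z1) rfl
    (z1 * z1 * ((1 : ℝ) * (3 : ℝ)⁻¹)) rfl
    (z1 * z1 * ((1 : ℝ) * (3 : ℝ)⁻¹) + (1 : ℝ)) rfl).2
    iz1 e_iz1
    th1 e_th1
    (q6 * (813 / 512 : ℝ)) rfl
    (q6 * (813 / 512 : ℝ) * iz1) rfl
    (th1 * th1) rfl
    ((1 / 4) * (th1 * th1)) (congrArg (fun y : ℝ => y * (th1 * th1)) zc_274877906944_0)
    ((1 / 4) * (th1 * th1) + (1 : ℝ)) rfl
    l1 e_l1
    (1325 / 512 : ℝ) zc_2845415833600_0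
    (Kq * (1325 / 512 : ℝ)) rfl
    z2 (e_z2.trans (congrArg (fun y : ℝ => y * (Kq * (1325 / 512 : ℝ))) zc_2199023255552_0))
    (z2 * z2) rfl
    (z2 * z2 * ((1 : ℝ) * (3 : ℝ)⁻¹)) rfl
    (z2 * z2 * ((1 : ℝ) * (3 : ℝ)⁻¹) + (1 : ℝ)) rfl).2
    iz2 e_iz2
    th2 e_th2
    (q6 * (1325 / 512 : ℝ)) rfl
    (q6 * (1325 / 512 : ℝ) * iz2) rfl
    (th2 * th2) rfl
    ((1 / 4) * (th2 * th2)) (congrArg (fun y : ℝ => y * (th2 * th2)) zc_274877906944_0)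
    ((1 / 4) * (th2 * th2) + (1 : ℝ)) rfl
    l2 e_l2
    rl e_rl
    cc5 e_cc5
    (-cc5) rfl
    xxo e_xxo
    ((1 / 2) * xxo) (congrArg (fun y : ℝ => y * xxo) zc_549755813888_0)
    (xxo + (1 : ℝ)) rfl
    (-(xxo + (1 : ℝ))) rfl
    ((1 / 2) * xxo * (-(xxo + (1 : ℝ)))) rfl
    rco e_rco
    bno e_bno
    (q * w) rfl
    (q * w * cc5) rfl
    (q * w * cc5 * l2) rfl
    ((1 / 2) * (q * w * cc5 * l2)) (congrArg (fun y : ℝ => y * (q * w * cc5 * l2)) zc_549755813888_0)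
    wso e_wso
    ((1 / 2) * wso) (congrArg (fun y : ℝ => y * wso) zc_549755813888_0)
    (wso * wso) rfl
    ((1482911 / 16777216) * (wso * wso)) (congrArg (fun y : ℝ => y * (wso * wso)) zc_97184055296_0)
    (1482911 / 1048576 : ℝ) zc_1554944884736_0
    ((1482911 / 16777216) * (wso * wso) + (1482911 / 1048576 : ℝ)) rfl
    ((1 / 2) * wso + ((1482911 / 16777216) * (wso * wso) + (1482911 / 1048576 : ℝ))) rfl).2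
    (((1 / 2) * wso + ((1482911 / 16777216) * (wso * wso) + (1482911 / 1048576 : ℝ)))⁻¹) rfl
    bo e_bo
    (bo + (1 / 2) * (q * w * cc5 * l2)) rfl).2
    ibo e_ibo
    (q2 * rl) rfl
    (q2 * rl * c5) rfl
    (-(q2 * rl * c5)) rfl
    eo e_eo
    (w + ibo) rfl
    wMo e_wMo
    (-(q2 * rl)) rfl
    u e_u
    (w * V1) rfl
    ls e_ls
    (l1 * l1) rfl
    (l1 * l1 * Wie) rfl
    (k * l1) rfl
    (k * l1 * wse) rfl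
    (2 * (k * l1 * wse)) (congrArg (fun y : ℝ => y * (k * l1 * wse)) zc_2199023255552_0)
    ((1 : ℝ) - 2 * (k * l1 * wse)) rfl
    D2 e_D2
    (2 * k) (congrArg (fun y : ℝ => y * k) zc_2199023255552_0)
    (RW + l1) rfl
    (wse * (RW + l1)) rfl
    (2 * k - wse * (RW + l1)) rfl
  change 0 < 2 * k - wse * (RW + l1) at p_rr
  obtain ⟨p_X1, ch1⟩ := (ch0
    (k * RW) rfl
    (k * RW * wse) rfl
    (2 * (k * RW * wse)) (congrArg (fun y : ℝ => y * (k * RW * wse)) zc_2199023255552_0)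
    xP e_xP
    (1 / 8 : ℝ) zc_137438953472_0
    ((1 / 16) * xP) (congrArg (fun y : ℝ => y * xP) zc_68719476736_0)
    ((1 / 8 : ℝ) - (1 / 16) * xP) rfl
    (xP * ((1 / 8 : ℝ) - (1 / 16) * xP)) rfl
    ((1 / 2 : ℝ) - xP * ((1 / 8 : ℝ) - (1 / 16) * xP)) rfl
    (xP * ((1 / 2 : ℝ) - xP * ((1 / 8 : ℝ) - (1 / 16) * xP))) rfl
    DP e_DP
    ((133 / 512) * ta) (congrArg (fun y : ℝ => y * ta) zc_285615325184_0)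
    (223 / 4096 : ℝ) zc_59861106688_0
    an e_an
    ((401 / 4096) * ta) (congrArg (fun y : ℝ => y * ta) zc_107642617856_0)
    (881 / 16384 : ℝ) zc_59122909184_0
    an1 e_an1
    (4 * it) (congrArg (fun y : ℝ => y * it) zc_4398046511104_0)
    (4 * it + k) rfl).2
    ((4 * it + k)⁻¹) rfl
    (an * (4 * it + k)⁻¹) rfl
    (an * (4 * it + k)⁻¹ * DP) rfl
    X (e_X.trans (congrArg (fun y : ℝ => y * (an * (4 * it + k)⁻¹ * DP)) zc_4398046511104_0))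
    ((1 : ℝ) - X) rfl
  change 0 < (1 : ℝ) - X at p_X1
  obtain ⟨p_u1, ch2⟩ := (ch1).2
    iX e_iX
    n1 e_n1
    (X * iX) rfl
    (n1 * (X * iX)) rfl
    lsp e_lsp
    lspS e_lspS
    ((1 : ℝ) - u) rfl
  change 0 < (1 : ℝ) - u at p_u1
  obtain ⟨p_q20, ch3⟩ := (((ch2
    (183501 / 262144 : ℝ) zc_769658978304_0).2
    (Real.log ((1 : ℝ) - u)) rfl
    ((183501 / 262144 : ℝ) - Real.log ((1 : ℝ) - u)) rfl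
    ielf e_ielf
    uX e_uX
    ((1 : ℝ) - uX) rfl).2
    (((1 : ℝ) - uX)⁻¹) rfl
    (uX * ((1 : ℝ) - uX)⁻¹) rfl
    (ie * (uX * ((1 : ℝ) - uX)⁻¹)) rfl
    ielfp e_ielfp
    rh e_rh
    (rh * rh) rfl
    (rh * rh + y2) rfl
    (1 / 64 : ℝ) zc_17179869184_0
    (rh * rh + y2 + (1 / 64 : ℝ)) rfl).2
    (Real.log (rh * rh + y2 + (1 / 64 : ℝ))) rfl
    ((1 / 2) * Real.log (rh * rh + y2 + (1 / 64 : ℝ))) (congrArg (fun y : ℝ => y * Real.log (rh * rh + y2 + (1 / 64 : ℝ))) zc_549755813888_0)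
    zb e_zb
    zbS e_zbS
    (zb * ie) rfl
    ((1 / 2) * (zb * ie)) (congrArg (fun y : ℝ => y * (zb * ie)) zc_549755813888_0)
    (1064305 / 1048576 : ℝ) zc_1116004679680_0
    fac e_fac
    ((1 / 2) * wse) (congrArg (fun y : ℝ => y * wse) zc_549755813888_0)
    ((1 / 2) * wse * D2) rfl
    ((2149581 / 1048576) * k) (congrArg (fun y : ℝ => y * k) zc_2253999046656_0)
    (zbS + (2149581 / 1048576) * k) rfl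
    ((1 / 2) * wse * D2 * (zbS + (2149581 / 1048576) * k)) rfl
    (k * K) rfl
    ((1 / 2) * (k * K)) (congrArg (fun y : ℝ => y * (k * K)) zc_549755813888_0)
    (zbS + (1 / 2) * (k * K)) rfl
    ((zbS + (1 / 2) * (k * K)) * lspS) rfl
    ((1 / 2) * wse * D2 * (zbS + (2149581 / 1048576) * k) + (zbS + (1 / 2) * (k * K)) * lspS) rfl
    (ie * lsp) rfl
    ((445645 / 262144) * (ie * lsp)) (congrArg (fun y : ℝ => y * (ie * lsp)) zc_1869170606080_0)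
    ((576717 / 262144) * ielfp) (congrArg (fun y : ℝ => y * ielfp) zc_2418926419968_0)
    ((445645 / 262144) * (ie * lsp) + (576717 / 262144) * ielfp) rfl
    (k2 * ((445645 / 262144) * (ie * lsp) + (576717 / 262144) * ielfp)) rfl
    ((1 / 2) * wse * D2 * (zbS + (2149581 / 1048576) * k) + (zbS + (1 / 2) * (k * K)) * lspS + k2 * ((445645 / 262144) * (ie * lsp) + (576717 / 262144) * ielfp)) rfl
    Q e_Q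
    E e_E
    Qw e_Qw
    (2 * Qw) (congrArg (fun y : ℝ => y * Qw) zc_2199023255552_0)
    c2 e_c2
  change 0 < q2 at p_q20
  obtain ⟨p_Es, ch4⟩ := ch3
    ((1 : ℝ) - Qw) rfl
  change 0 < (1 : ℝ) - Qw at p_Es
  obtain ⟨p_c20, ch5⟩ := ch4
  change 0 < c2 at p_c20
  obtain ⟨p_RH, ch6⟩ := ch5
    (3781 / 1024 : ℝ) zc_4059817836544_0
    ((3781 / 1024 : ℝ) - RW) rfl
    ((3781 / 1024 : ℝ) - RW - Q) rfl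
    (Qw + (1 : ℝ)) rfl
    ((Qw + (1 : ℝ)) * (Qw + (1 : ℝ))) rfl
    ((3781 / 1024 : ℝ) - RW - Q - (Qw + (1 : ℝ)) * (Qw + (1 : ℝ))) rfl
  change 0 < (3781 / 1024 : ℝ) - RW - Q - (Qw + (1 : ℝ)) * (Qw + (1 : ℝ)) at p_RH
  obtain ⟨p_h9, ch7⟩ := ch6
    ((9646899 / 1048576) * c2) (congrArg (fun y : ℝ => y * c2) zc_10115506765824_0)
    ((9646899 / 1048576) * c2 - (3781 / 1024 : ℝ)) rfl
  change 0 < (9646899 / 1048576) * c2 - (3781 / 1024 : ℝ) at p_h9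
  obtain ⟨p_h2, ch8⟩ := ch7
    ((471859 / 524288) * c2) (congrArg (fun y : ℝ => y * c2) zc_989560045568_0)
    ((13961 / 1024) * Wie) (congrArg (fun y : ℝ => y * Wie) zc_14990509604864_0)
    ((471859 / 524288) * c2 - (13961 / 1024) * Wie) rfl
  change 0 < (471859 / 524288) * c2 - (13961 / 1024) * Wie at p_h2
  obtain ⟨p_Er, ch9⟩ := ch8
    (l1 - Q) rfl
  change 0 < l1 - Q at p_Er
  obtain ⟨p_dr, ch10⟩ := ch9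
    ((825 / 4096) * q6) (congrArg (fun y : ℝ => y * q6) zc_221459251200_0)
    ((825 / 4096) * q6 * ((1 : ℝ) - Qw)) rfl
    ((813 / 512) * K) (congrArg (fun y : ℝ => y * K) zc_1745904205824_0)
    (2 * ((813 / 512) * K)) (congrArg (fun y : ℝ => y * ((813 / 512) * K)) zc_2199023255552_0)
    (Real.exp (2 * ((813 / 512) * K))) rfl
    (Q * Real.exp (2 * ((813 / 512) * K))) rfl
    ((825 / 4096) * q6 * ((1 : ℝ) - Qw) - Q * Real.exp (2 * ((813 / 512) * K))) rfl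
  change 0 < (825 / 4096) * q6 * ((1 : ℝ) - Qw) - Q * Real.exp (2 * ((813 / 512) * K)) at p_dr
  obtain ⟨p_La, ch11⟩ := ch10
    ((1 : ℝ) - 2 * Qw) rfl
    ((2775 / 1024) * ((1 : ℝ) - 2 * Qw)) (congrArg (fun y : ℝ => y * ((1 : ℝ) - 2 * Qw)) zc_2979633561600_0)
    ((2775 / 1024) * ((1 : ℝ) - 2 * Qw) - RW) rfl
    ((2775 / 1024) * ((1 : ℝ) - 2 * Qw) - RW - Q) rfl
  change 0 < (2775 / 1024) * ((1 : ℝ) - 2 * Qw) - RW - Q at p_La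
  obtain ⟨p_l1, ch12⟩ := ch11
    (-(ie * lsp)) rfl
    (10485 / 1048576 : ℝ) zc_10994319360_0
    ((-(ie * lsp)) + (10485 / 1048576 : ℝ)) rfl
  change 0 < (-(ie * lsp)) + (10485 / 1048576 : ℝ) at p_l1
  obtain ⟨p_l2, ch13⟩ := ch12
    (-ielfp) rfl
    (20971 / 1048576 : ℝ) zc_21989687296_0
    ((-ielfp) + (20971 / 1048576 : ℝ)) rfl
  change 0 < (-ielfp) + (20971 / 1048576 : ℝ) at p_l2
  obtain ⟨p_z1, ch14⟩ := ch13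
    (-(zb * ie)) rfl
    (104857 / 1048576 : ℝ) zc_109950533632_0
    ((-(zb * ie)) + (104857 / 1048576 : ℝ)) rfl
  change 0 < (-(zb * ie)) + (104857 / 1048576 : ℝ) at p_z1
  obtain ⟨p_E1, ch15⟩ := ch14
    (E * ie) rfl
    (-(E * ie)) rfl
    (2621 / 524288 : ℝ) zc_5496635392_0
    ((-(E * ie)) + (2621 / 524288 : ℝ)) rfl
  change 0 < (-(E * ie)) + (2621 / 524288 : ℝ) at p_E1
  obtain ⟨p_y, ch16⟩ := ch15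
    (-E) rfl
    ((-E) - y) rfl
    ((471 / 256) * K) (congrArg (fun y : ℝ => y * K) zc_2022929596416_0)
    ((-E) - y + (471 / 256) * K) rfl
    (6563 / 2048 : ℝ) zc_3523483795456_0
    ((-E) - y + (471 / 256) * K + (6563 / 2048 : ℝ)) rfl
  change 0 < (-E) - y + (471 / 256) * K + (6563 / 2048 : ℝ) at p_y
  obtain ⟨p_yY, ch17⟩ := ch16
    (7 / 2 : ℝ) zc_3848290697216_0
    ((-E) - y + (7 / 2 : ℝ)) rfl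
  change 0 < (-E) - y + (7 / 2 : ℝ) at p_yY
  obtain ⟨p_EM2, ch18⟩ := ((((ch17
    (9775 / 4096 : ℝ) zc_2623956582400_0
    (Kq * (9775 / 4096 : ℝ)) rfl
    zd (e_zd.trans (congrArg (fun y : ℝ => y * (Kq * (9775 / 4096 : ℝ))) zc_2199023255552_0))
    (zd * zd) rfl
    (zd * zd * ((1 : ℝ) * (3 : ℝ)⁻¹)) rfl
    (zd * zd * ((1 : ℝ) * (3 : ℝ)⁻¹) + (1 : ℝ)) rfl).2
    izd e_izd
    thd e_thd
    (q6 * (9775 / 4096 : ℝ)) rfl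
    (q6 * (9775 / 4096 : ℝ) * izd) rfl
    (thd * thd) rfl
    ((1 / 4) * (thd * thd)) (congrArg (fun y : ℝ => y * (thd * thd)) zc_274877906944_0)
    ((1 / 4) * (thd * thd) + (1 : ℝ)) rfl
    ld e_ld
    (13871 / 4096 : ℝ) zc_3723468210176_0
    (Kq * (13871 / 4096 : ℝ)) rfl
    ze (e_ze.trans (congrArg (fun y : ℝ => y * (Kq * (13871 / 4096 : ℝ))) zc_2199023255552_0))
    (ze * ze) rfl
    (ze * ze * ((1 : ℝ) * (3 : ℝ)⁻¹)) rfl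
    (ze * ze * ((1 : ℝ) * (3 : ℝ)⁻¹) + (1 : ℝ)) rfl).2
    ize e_ize
    the e_the
    (q6 * (13871 / 4096 : ℝ)) rfl
    (q6 * (13871 / 4096 : ℝ) * ize) rfl
    (the * the) rfl
    ((1 / 4) * (the * the)) (congrArg (fun y : ℝ => y * (the * the)) zc_274877906944_0)
    ((1 / 4) * (the * the) + (1 : ℝ)) rfl
    le e_le
    cd5 e_cd5
    (-cd5) rfl
    xxn e_xxn
    ((1 / 2) * xxn) (congrArg (fun y : ℝ => y * xxn) zc_549755813888_0)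
    (xxn + (1 : ℝ)) rfl
    (-(xxn + (1 : ℝ))) rfl
    ((1 / 2) * xxn * (-(xxn + (1 : ℝ)))) rfl
    rcn e_rcn
    bnn e_bnn
    (q * w * cd5) rfl
    (q * w * cd5 * le) rfl
    ((1 / 2) * (q * w * cd5 * le)) (congrArg (fun y : ℝ => y * (q * w * cd5 * le)) zc_549755813888_0)
    wsn e_wsn
    ((1 / 2) * wsn) (congrArg (fun y : ℝ => y * wsn) zc_549755813888_0)
    (wsn * wsn) rfl
    ((1482911 / 16777216) * (wsn * wsn)) (congrArg (fun y : ℝ => y * (wsn * wsn)) zc_97184055296_0)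
    ((1482911 / 16777216) * (wsn * wsn) + (1482911 / 1048576 : ℝ)) rfl
    ((1 / 2) * wsn + ((1482911 / 16777216) * (wsn * wsn) + (1482911 / 1048576 : ℝ))) rfl).2
    (((1 / 2) * wsn + ((1482911 / 16777216) * (wsn * wsn) + (1482911 / 1048576 : ℝ)))⁻¹) rfl
    bn e_bn
    (bn + (1 / 2) * (q * w * cd5 * le)) rfl).2
    ibn e_ibn
    (q2 * ld) rfl
    (q2 * ld * W) rfl
    (q2 * ld * W * c2) rfl
    (-(q2 * ld * W * c2)) rfl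
    u1 e_u1
    (w + ibn) rfl
    m1 e_m1
    (w * m1) rfl
    (W + w * m1) rfl
    EM e_EM
    ((1 / 2) * EM) (congrArg (fun y : ℝ => y * EM) zc_549755813888_0)
    ((1 : ℝ) - (1 / 2) * EM) rfl
  change 0 < (1 : ℝ) - (1 / 2) * EM at p_EM2
  obtain ⟨p_cl, ch19⟩ := (ch18).2
    i2 e_i2
    ((1 / 2) * EM + (1 : ℝ)) rfl
    eta e_eta
    (EM * i2) rfl
    ((1 / 4) * k) (congrArg (fun y : ℝ => y * k) zc_274877906944_0)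
    (it + (1 / 4) * k) rfl
    t1 e_t1
    ((1 / 1024) * K) (congrArg (fun y : ℝ => y * K) zc_1073741824_0)
    ((1 : ℝ) - (1 / 1024) * K) rfl
    (((1 : ℝ) - (1 / 1024) * K) * an) rfl
    (((1 : ℝ) - (1 / 1024) * K) * an - t1) rfl
    (u1 * an1) rfl
    (eta * (u1 * an1)) rfl
    (V1 + Q) rfl
    (wse * (V1 + Q)) rfl
    (wse * (V1 + Q) + (1 : ℝ)) rfl
    (eta * (u1 * an1) * (wse * (V1 + Q) + (1 : ℝ))) rfl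
    (((1 : ℝ) - (1 / 1024) * K) * an - t1 - eta * (u1 * an1) * (wse * (V1 + Q) + (1 : ℝ))) rfl
  change 0 < ((1 : ℝ) - (1 / 1024) * K) * an - t1 - eta * (u1 * an1) * (wse * (V1 + Q) + (1 : ℝ)) at p_cl
  exact ⟨n1, ielf,
    ⟨se, ie, K, K2, q6, Kq, Yt, Y2, wm, wm2, wse0, q, sp, y2, sg2, lsg, w, k, W, it, k2, wse,
    Wie, q2, ie2, c5, RW, R2, V1, z1, iz1, th1, l1, z2, iz2, th2, l2, rl, cc5, xxo, rco, bno,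
    wso, bo, ibo, eo, wMo, u, ls, D2, xP, DP, an, an1, X, iX, lsp, lspS, uX, ielfp, rh, zb, zbS,
    fac, Q, E, Qw, c2, zd, izd, thd, ld, ze, ize, the, le, cd5, xxn, rcn, bnn, wsn, bn, ibn, u1,
    m1, EM, i2, eta, t1, e_se, e_ie, e_K, e_K2, e_q6, e_Kq, e_Yt, e_Y2, e_wm, e_wm2, e_wse0,
    e_q, e_sp, e_y2, e_sg2, e_lsg, e_w, e_k, e_W, e_it, e_k2, e_wse, e_Wie, e_q2, e_ie2, e_c5,
    e_RW, e_R2, e_V1, e_z1, e_iz1, e_th1, e_l1, e_z2, e_iz2, e_th2, e_l2, e_rl, e_cc5, e_xxo,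
    e_rco, e_bno, e_wso, e_bo, e_ibo, e_eo, e_wMo, e_u, e_ls, e_D2, e_xP, e_DP, e_an, e_an1,
    e_X, e_iX, e_lsp, e_lspS, e_uX, e_ielfp, e_rh, e_zb, e_zbS, e_fac, e_Q, e_E, e_Qw, e_c2,
    e_zd, e_izd, e_thd, e_ld, e_ze, e_ize, e_the, e_le, e_cd5, e_xxn, e_rcn, e_bnn, e_wsn, e_bn,
    e_ibn, e_u1, e_m1, e_EM, e_i2, e_eta, e_t1, p_rr, p_X1, p_q20, p_Es, p_c20, p_RH, p_h9,
    p_h2, p_Er, p_dr, p_La, p_l1, p_l2, p_z1, p_E1, p_y, p_yY, p_EM2, p_cl⟩,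
    ⟨⟨e_n1⟩⟩, ⟨⟨e_ielf, p_u1⟩⟩⟩

theorem ex_LB0_h {om ta y : ℝ} (h : RAs Cert.LB0.prog2 [om, ta, y]) :
    ∃ n1 ielf : ℝ, ∃ P : PLB (cB 0) om ta y n1 ielf, Nonempty (PLBn P) ∧ Nonempty (PLBv P) := by
  obtain ⟨se, e_se⟩ : ∃ zz : ℝ, zz = om * ta := ⟨_, rfl⟩
  obtain ⟨ie, e_ie⟩ : ∃ zz : ℝ, zz = se * se := ⟨_, rfl⟩
  obtain ⟨K, e_K⟩ : ∃ zz : ℝ, zz = om * se := ⟨_, rfl⟩
  obtain ⟨K2, e_K2⟩ : ∃ zz : ℝ, zz = K * K := ⟨_, rfl⟩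
  obtain ⟨q6, e_q6⟩ : ∃ zz : ℝ, zz = (1 : ℝ) - K2 * ((1 : ℝ) * (6 : ℝ)⁻¹) := ⟨_, rfl⟩
  obtain ⟨Kq, e_Kq⟩ : ∃ zz : ℝ, zz = K * q6 := ⟨_, rfl⟩
  obtain ⟨Yt, e_Yt⟩ : ∃ zz : ℝ, zz = (7 / 2) * ta := ⟨_, rfl⟩
  obtain ⟨Y2, e_Y2⟩ : ∃ zz : ℝ, zz = Yt * Yt := ⟨_, rfl⟩
  obtain ⟨wm, e_wm⟩ : ∃ zz : ℝ, zz = Yt * ((1 : ℝ) + Y2 * ((1 / 2 : ℝ) - (1 / 8) * Y2))⁻¹ := ⟨_, rfl⟩
  obtain ⟨wm2, e_wm2⟩ : ∃ zz : ℝ, zz = wm * wm := ⟨_, rfl⟩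
  obtain ⟨wse0, e_wse0⟩ : ∃ zz : ℝ, zz = wm * se := ⟨_, rfl⟩
  obtain ⟨q, e_q⟩ : ∃ zz : ℝ, zz = (4095 / 4096 : ℝ) - (1449 / 512) * wse0 - 23 * ie - (1 / 2) * K2 := ⟨_, rfl⟩
  obtain ⟨sp, e_sp⟩ : ∃ zz : ℝ, zz = (4095 / 4096 : ℝ) - (2899 / 2048) * wse0 - 19 * ie - (553 / 1024) * K2 := ⟨_, rfl⟩
  obtain ⟨y2, e_y2⟩ : ∃ zz : ℝ, zz = y * y := ⟨_, rfl⟩
  obtain ⟨sg2, e_sg2⟩ : ∃ zz : ℝ, zz = y2 * (ta * ta) + (1 : ℝ) := ⟨_, rfl⟩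
  obtain ⟨lsg, e_lsg⟩ : ∃ zz : ℝ, zz = (1 / 2) * Real.log sg2 := ⟨_, rfl⟩
  obtain ⟨w, e_w⟩ : ∃ zz : ℝ, zz = om * Real.exp lsg := ⟨_, rfl⟩
  obtain ⟨k, e_k⟩ : ∃ zz : ℝ, zz = Real.exp (-lsg) := ⟨_, rfl⟩
  obtain ⟨W, e_W⟩ : ∃ zz : ℝ, zz = w * w := ⟨_, rfl⟩
  obtain ⟨it, e_it⟩ : ∃ zz : ℝ, zz = ta * k := ⟨_, rfl⟩
  obtain ⟨k2, e_k2⟩ : ∃ zz : ℝ, zz = k * k := ⟨_, rfl⟩
  obtain ⟨wse, e_wse⟩ : ∃ zz : ℝ, zz = w * se := ⟨_, rfl⟩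
  obtain ⟨Wie, e_Wie⟩ : ∃ zz : ℝ, zz = W * ie := ⟨_, rfl⟩
  obtain ⟨q2, e_q2⟩ : ∃ zz : ℝ, zz = q - 8 * ie - Wie * ((3781 / 512) * wm2 + (3781 / 2048 : ℝ)) := ⟨_, rfl⟩
  obtain ⟨ie2, e_ie2⟩ : ∃ zz : ℝ, zz = ie * ie := ⟨_, rfl⟩
  obtain ⟨c5, e_c5⟩ : ∃ zz : ℝ, zz = (1 : ℝ) - 500 * ie2 := ⟨_, rfl⟩
  obtain ⟨RW, e_RW⟩ : ∃ zz : ℝ, zz = (2521 / 1024) * (560 * ie2 + (1 : ℝ)) := ⟨_, rfl⟩
  obtain ⟨R2, e_R2⟩ : ∃ zz : ℝ, zz = RW * RW * Wie := ⟨_, rfl⟩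
  obtain ⟨V1, e_V1⟩ : ∃ zz : ℝ, zz = R2 + (1 : ℝ) := ⟨_, rfl⟩
  obtain ⟨z1, e_z1⟩ : ∃ zz : ℝ, zz = 2 * (Kq * (813 / 512 : ℝ)) := ⟨_, rfl⟩
  obtain ⟨iz1, e_iz1⟩ : ∃ zz : ℝ, zz = (z1 * z1 * ((1 : ℝ) * (3 : ℝ)⁻¹) + (1 : ℝ))⁻¹ := ⟨_, rfl⟩
  obtain ⟨th1, e_th1⟩ : ∃ zz : ℝ, zz = z1 * iz1 := ⟨_, rfl⟩
  obtain ⟨l1, e_l1⟩ : ∃ zz : ℝ, zz = q6 * (813 / 512 : ℝ) * iz1 * ((1 / 4) * (th1 * th1) + (1 : ℝ)) := ⟨_, rfl⟩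
  obtain ⟨z2, e_z2⟩ : ∃ zz : ℝ, zz = 2 * (Kq * (1325 / 512 : ℝ)) := ⟨_, rfl⟩
  obtain ⟨iz2, e_iz2⟩ : ∃ zz : ℝ, zz = (z2 * z2 * ((1 : ℝ) * (3 : ℝ)⁻¹) + (1 : ℝ))⁻¹ := ⟨_, rfl⟩
  obtain ⟨th2, e_th2⟩ : ∃ zz : ℝ, zz = z2 * iz2 := ⟨_, rfl⟩
  obtain ⟨l2, e_l2⟩ : ∃ zz : ℝ, zz = q6 * (1325 / 512 : ℝ) * iz2 * ((1 / 4) * (th2 * th2) + (1 : ℝ)) := ⟨_, rfl⟩
  obtain ⟨rl, e_rl⟩ : ∃ zz : ℝ, zz = W * l1 := ⟨_, rfl⟩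
  obtain ⟨cc5, e_cc5⟩ : ∃ zz : ℝ, zz = c5 * c5 := ⟨_, rfl⟩
  obtain ⟨xxo, e_xxo⟩ : ∃ zz : ℝ, zz = (-cc5) + (1 : ℝ) := ⟨_, rfl⟩
  obtain ⟨rco, e_rco⟩ : ∃ zz : ℝ, zz = (1 / 2) * xxo * (-(xxo + (1 : ℝ))) + (1 : ℝ) := ⟨_, rfl⟩
  obtain ⟨bno, e_bno⟩ : ∃ zz : ℝ, zz = sp * rco := ⟨_, rfl⟩
  obtain ⟨wso, e_wso⟩ : ∃ zz : ℝ, zz = bno * w := ⟨_, rfl⟩
  obtain ⟨bo, e_bo⟩ : ∃ zz : ℝ, zz = bno * ((1 / 2) * wso + ((1482911 / 16777216) * (wso * wso) + (1482911 / 1048576 : ℝ)))⁻¹ := ⟨_, rfl⟩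
  obtain ⟨ibo, e_ibo⟩ : ∃ zz : ℝ, zz = (bo + (1 / 2) * (q * w * cc5 * l2))⁻¹ := ⟨_, rfl⟩
  obtain ⟨eo, e_eo⟩ : ∃ zz : ℝ, zz = Real.exp (-(q2 * rl * c5)) := ⟨_, rfl⟩
  obtain ⟨wMo, e_wMo⟩ : ∃ zz : ℝ, zz = eo * (w + ibo) := ⟨_, rfl⟩
  obtain ⟨u, e_u⟩ : ∃ zz : ℝ, zz = Real.exp (-(q2 * rl)) := ⟨_, rfl⟩
  obtain ⟨ls, e_ls⟩ : ∃ zz : ℝ, zz = w * V1 * wMo := ⟨_, rfl⟩
  obtain ⟨D2, e_D2⟩ : ∃ zz : ℝ, zz = l1 * l1 * Wie + ((1 : ℝ) - 2 * (k * l1 * wse)) := ⟨_, rfl⟩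
  obtain ⟨xP, e_xP⟩ : ∃ zz : ℝ, zz = R2 + 2 * (k * RW * wse) := ⟨_, rfl⟩
  obtain ⟨DP, e_DP⟩ : ∃ zz : ℝ, zz = (1 : ℝ) + xP * ((1 / 2 : ℝ) - xP * ((1 / 8 : ℝ) - (1 / 16) * xP)) := ⟨_, rfl⟩
  obtain ⟨an, e_an⟩ : ∃ zz : ℝ, zz = (133 / 512) * ta + (223 / 4096 : ℝ) := ⟨_, rfl⟩
  obtain ⟨an1, e_an1⟩ : ∃ zz : ℝ, zz = (401 / 4096) * ta + (881 / 16384 : ℝ) := ⟨_, rfl⟩
  obtain ⟨X, e_X⟩ : ∃ zz : ℝ, zz = 4 * (an * (4 * it + k)⁻¹ * DP) := ⟨_, rfl⟩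
  obtain ⟨iX, e_iX⟩ : ∃ zz : ℝ, zz = ((1 : ℝ) - X)⁻¹ := ⟨_, rfl⟩
  obtain ⟨G, e_G⟩ : ∃ zz : ℝ, zz = (2 : ℝ) - (1 / 4) * y2 + (2731 / 524288) * (y2 * y2) + (859 / 1048576) * ((1 / 4) * y2 * ((1 / 4) * y2) * ((1 / 4) * y2) * ((1 / 4) * y2 * ((1 / 4) * y2) * ((1 / 4) * y2))) := ⟨_, rfl⟩
  obtain ⟨n1, e_n1⟩ : ∃ zz : ℝ, zz = G + W * RW + Real.exp (ls + (314573 / 524288) * (W * V1)) - (1 : ℝ) := ⟨_, rfl⟩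
  obtain ⟨lsp, e_lsp⟩ : ∃ zz : ℝ, zz = ls + n1 * (X * iX) := ⟨_, rfl⟩
  obtain ⟨lspS, e_lspS⟩ : ∃ zz : ℝ, zz = lsp * it := ⟨_, rfl⟩
  obtain ⟨ielf, e_ielf⟩ : ∃ zz : ℝ, zz = ie * ((183501 / 262144 : ℝ) - Real.log ((1 : ℝ) - u)) := ⟨_, rfl⟩
  obtain ⟨uX, e_uX⟩ : ∃ zz : ℝ, zz = u * X := ⟨_, rfl⟩
  obtain ⟨ielfp, e_ielfp⟩ : ∃ zz : ℝ, zz = ielf + ie * (uX * ((1 : ℝ) - uX)⁻¹) := ⟨_, rfl⟩
  obtain ⟨rh, e_rh⟩ : ∃ zz : ℝ, zz = RW * W := ⟨_, rfl⟩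
  obtain ⟨zb, e_zb⟩ : ∃ zz : ℝ, zz = Real.exp ((1 / 2) * Real.log (rh * rh + y2 + (1 / 64 : ℝ))) := ⟨_, rfl⟩
  obtain ⟨zbS, e_zbS⟩ : ∃ zz : ℝ, zz = zb * it := ⟨_, rfl⟩
  obtain ⟨fac, e_fac⟩ : ∃ zz : ℝ, zz = (1 / 2) * (zb * ie) + (1064305 / 1048576 : ℝ) := ⟨_, rfl⟩
  obtain ⟨Q, e_Q⟩ : ∃ zz : ℝ, zz = fac * ((1 / 2) * wse * D2 * (zbS + (2149581 / 1048576) * k) + (zbS + (1 / 2) * (k * K)) * lspS + k2 * ((445645 / 262144) * (ie * lsp) + (576717 / 262144) * ielfp)) := ⟨_, rfl⟩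
  obtain ⟨E, e_E⟩ : ∃ zz : ℝ, zz = Q * W := ⟨_, rfl⟩
  obtain ⟨Qw, e_Qw⟩ : ∃ zz : ℝ, zz = Q * wse := ⟨_, rfl⟩
  obtain ⟨c2, e_c2⟩ : ∃ zz : ℝ, zz = c5 - 2 * Qw := ⟨_, rfl⟩
  obtain ⟨zd, e_zd⟩ : ∃ zz : ℝ, zz = 2 * (Kq * (9775 / 4096 : ℝ)) := ⟨_, rfl⟩
  obtain ⟨izd, e_izd⟩ : ∃ zz : ℝ, zz = (zd * zd * ((1 : ℝ) * (3 : ℝ)⁻¹) + (1 : ℝ))⁻¹ := ⟨_, rfl⟩
  obtain ⟨thd, e_thd⟩ : ∃ zz : ℝ, zz = zd * izd := ⟨_, rfl⟩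
  obtain ⟨ld, e_ld⟩ : ∃ zz : ℝ, zz = q6 * (9775 / 4096 : ℝ) * izd * ((1 / 4) * (thd * thd) + (1 : ℝ)) := ⟨_, rfl⟩
  obtain ⟨ze, e_ze⟩ : ∃ zz : ℝ, zz = 2 * (Kq * (13871 / 4096 : ℝ)) := ⟨_, rfl⟩
  obtain ⟨ize, e_ize⟩ : ∃ zz : ℝ, zz = (ze * ze * ((1 : ℝ) * (3 : ℝ)⁻¹) + (1 : ℝ))⁻¹ := ⟨_, rfl⟩
  obtain ⟨the, e_the⟩ : ∃ zz : ℝ, zz = ze * ize := ⟨_, rfl⟩
  obtain ⟨le, e_le⟩ : ∃ zz : ℝ, zz = q6 * (13871 / 4096 : ℝ) * ize * ((1 / 4) * (the * the) + (1 : ℝ)) := ⟨_, rfl⟩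
  obtain ⟨cd5, e_cd5⟩ : ∃ zz : ℝ, zz = c2 * c5 := ⟨_, rfl⟩
  obtain ⟨xxn, e_xxn⟩ : ∃ zz : ℝ, zz = (-cd5) + (1 : ℝ) := ⟨_, rfl⟩
  obtain ⟨rcn, e_rcn⟩ : ∃ zz : ℝ, zz = (1 / 2) * xxn * (-(xxn + (1 : ℝ))) + (1 : ℝ) := ⟨_, rfl⟩
  obtain ⟨bnn, e_bnn⟩ : ∃ zz : ℝ, zz = sp * rcn := ⟨_, rfl⟩
  obtain ⟨wsn, e_wsn⟩ : ∃ zz : ℝ, zz = bnn * w := ⟨_, rfl⟩
  obtain ⟨bn, e_bn⟩ : ∃ zz : ℝ, zz = bnn * ((1 / 2) * wsn + ((1482911 / 16777216) * (wsn * wsn) + (1482911 / 1048576 : ℝ)))⁻¹ := ⟨_, rfl⟩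
  obtain ⟨ibn, e_ibn⟩ : ∃ zz : ℝ, zz = (bn + (1 / 2) * (q * w * cd5 * le))⁻¹ := ⟨_, rfl⟩
  obtain ⟨u1, e_u1⟩ : ∃ zz : ℝ, zz = Real.exp (-(q2 * ld * W * c2)) := ⟨_, rfl⟩
  obtain ⟨m1, e_m1⟩ : ∃ zz : ℝ, zz = u1 * (w + ibn) := ⟨_, rfl⟩
  obtain ⟨EM, e_EM⟩ : ∃ zz : ℝ, zz = Q * (W + w * m1) := ⟨_, rfl⟩
  obtain ⟨i2, e_i2⟩ : ∃ zz : ℝ, zz = ((1 : ℝ) - (1 / 2) * EM)⁻¹ := ⟨_, rfl⟩
  obtain ⟨eta, e_eta⟩ : ∃ zz : ℝ, zz = ((1 / 2) * EM + (1 : ℝ)) * i2 := ⟨_, rfl⟩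
  obtain ⟨t1, e_t1⟩ : ∃ zz : ℝ, zz = EM * i2 * (it + (1 / 4) * k) := ⟨_, rfl⟩
  obtain ⟨p_rr, ch0⟩ := ((((((((h
    (1 : ℝ) zc_1099511627776_0
    (3 : ℝ) zc_3298534883328_0).2
    ((3 : ℝ)⁻¹) rfl
    ((1 : ℝ) * (3 : ℝ)⁻¹) rfl
    se e_se
    ie e_ie
    K e_K
    K2 e_K2
    (6 : ℝ) zc_6597069766656_0).2
    ((6 : ℝ)⁻¹) rfl
    ((1 : ℝ) * (6 : ℝ)⁻¹) rfl
    (K2 * ((1 : ℝ) * (6 : ℝ)⁻¹)) rfl
    q6 e_q6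
    Kq e_Kq
    Yt (e_Yt.trans (congrArg (fun y : ℝ => y * ta) zc_3848290697216_0))
    Y2 e_Y2
    (1 / 2 : ℝ) zc_549755813888_0
    ((1 / 8) * Y2) (congrArg (fun y : ℝ => y * Y2) zc_137438953472_0)
    ((1 / 2 : ℝ) - (1 / 8) * Y2) rfl
    (Y2 * ((1 / 2 : ℝ) - (1 / 8) * Y2)) rfl
    ((1 : ℝ) + Y2 * ((1 / 2 : ℝ) - (1 / 8) * Y2)) rfl).2
    (((1 : ℝ) + Y2 * ((1 / 2 : ℝ) - (1 / 8) * Y2))⁻¹) rfl
    wm e_wm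
    wm2 e_wm2
    wse0 e_wse0
    (4095 / 4096 : ℝ) zc_1099243192320_0
    ((1449 / 512) * wse0) (congrArg (fun y : ℝ => y * wse0) zc_3111703805952_0)
    ((4095 / 4096 : ℝ) - (1449 / 512) * wse0) rfl
    (23 * ie) (congrArg (fun y : ℝ => y * ie) zc_25288767438848_0)
    ((4095 / 4096 : ℝ) - (1449 / 512) * wse0 - 23 * ie) rfl
    ((1 / 2) * K2) (congrArg (fun y : ℝ => y * K2) zc_549755813888_0)
    q e_q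
    ((2899 / 2048) * wse0) (congrArg (fun y : ℝ => y * wse0) zc_1556388773888_0)
    ((4095 / 4096 : ℝ) - (2899 / 2048) * wse0) rfl
    (19 * ie) (congrArg (fun y : ℝ => y * ie) zc_20890720927744_0)
    ((4095 / 4096 : ℝ) - (2899 / 2048) * wse0 - 19 * ie) rfl
    ((553 / 1024) * K2) (congrArg (fun y : ℝ => y * K2) zc_593779228672_0)
    sp e_sp
    y2 e_y2
    (ta * ta) rfl
    (y2 * (ta * ta)) rfl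
    sg2 e_sg2).2
    (Real.log sg2) rfl
    lsg (e_lsg.trans (congrArg (fun y : ℝ => y * Real.log sg2) zc_549755813888_0))
    (Real.exp lsg) rfl
    w e_w
    (-lsg) rfl
    k e_k
    W e_W
    it e_it
    k2 e_k2
    wse e_wse
    Wie e_Wie
    (8 * ie) (congrArg (fun y : ℝ => y * ie) zc_8796093022208_0)
    (q - 8 * ie) rfl
    ((3781 / 512) * wm2) (congrArg (fun y : ℝ => y * wm2) zc_8119635673088_0)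
    (3781 / 2048 : ℝ) zc_2029908918272_0
    ((3781 / 512) * wm2 + (3781 / 2048 : ℝ)) rfl
    (Wie * ((3781 / 512) * wm2 + (3781 / 2048 : ℝ))) rfl
    q2 e_q2
    ie2 e_ie2
    (500 * ie2) (congrArg (fun y : ℝ => y * ie2) zc_549755813888000_0)
    c5 e_c5
    (560 * ie2) (congrArg (fun y : ℝ => y * ie2) zc_615726511554560_0)
    (560 * ie2 + (1 : ℝ)) rfl
    RW (e_RW.trans (congrArg (fun y : ℝ => y * (560 * ie2 + (1 : ℝ))) zc_2706903138304_0))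
    (RW * RW) rfl
    R2 e_R2
    V1 e_V1
    (813 / 512 : ℝ) zc_1745904205824_0
    (Kq * (813 / 512 : ℝ)) rfl
    z1 (e_z1.trans (congrArg (fun y : ℝ => y * (Kq * (813 / 512 : ℝ))) zc_2199023255552_0))
    (z1 * z1) rfl
    (z1 * z1 * ((1 : ℝ) * (3 : ℝ)⁻¹)) rfl
    (z1 * z1 * ((1 : ℝ) * (3 : ℝ)⁻¹) + (1 : ℝ)) rfl).2
    iz1 e_iz1
    th1 e_th1
    (q6 * (813 / 512 : ℝ)) rfl
    (q6 * (813 / 512 : ℝ) * iz1) rfl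
    (th1 * th1) rfl
    ((1 / 4) * (th1 * th1)) (congrArg (fun y : ℝ => y * (th1 * th1)) zc_274877906944_0)
    ((1 / 4) * (th1 * th1) + (1 : ℝ)) rfl
    l1 e_l1
    (1325 / 512 : ℝ) zc_2845415833600_0
    (Kq * (1325 / 512 : ℝ)) rfl
    z2 (e_z2.trans (congrArg (fun y : ℝ => y * (Kq * (1325 / 512 : ℝ))) zc_2199023255552_0))
    (z2 * z2) rfl
    (z2 * z2 * ((1 : ℝ) * (3 : ℝ)⁻¹)) rfl
    (z2 * z2 * ((1 : ℝ) * (3 : ℝ)⁻¹) + (1 : ℝ)) rfl).2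
    iz2 e_iz2
    th2 e_th2
    (q6 * (1325 / 512 : ℝ)) rfl
    (q6 * (1325 / 512 : ℝ) * iz2) rfl
    (th2 * th2) rfl
    ((1 / 4) * (th2 * th2)) (congrArg (fun y : ℝ => y * (th2 * th2)) zc_274877906944_0)
    ((1 / 4) * (th2 * th2) + (1 : ℝ)) rfl
    l2 e_l2
    rl e_rl
    cc5 e_cc5
    (-cc5) rfl
    xxo e_xxo
    ((1 / 2) * xxo) (congrArg (fun y : ℝ => y * xxo) zc_549755813888_0)
    (xxo + (1 : ℝ)) rfl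
    (-(xxo + (1 : ℝ))) rfl
    ((1 / 2) * xxo * (-(xxo + (1 : ℝ)))) rfl
    rco e_rco
    bno e_bno
    (q * w) rfl
    (q * w * cc5) rfl
    (q * w * cc5 * l2) rfl
    ((1 / 2) * (q * w * cc5 * l2)) (congrArg (fun y : ℝ => y * (q * w * cc5 * l2)) zc_549755813888_0)
    wso e_wso
    ((1 / 2) * wso) (congrArg (fun y : ℝ => y * wso) zc_549755813888_0)
    (wso * wso) rfl
    ((1482911 / 16777216) * (wso * wso)) (congrArg (fun y : ℝ => y * (wso * wso)) zc_97184055296_0)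
    (1482911 / 1048576 : ℝ) zc_1554944884736_0
    ((1482911 / 16777216) * (wso * wso) + (1482911 / 1048576 : ℝ)) rfl
    ((1 / 2) * wso + ((1482911 / 16777216) * (wso * wso) + (1482911 / 1048576 : ℝ))) rfl).2
    (((1 / 2) * wso + ((1482911 / 16777216) * (wso * wso) + (1482911 / 1048576 : ℝ)))⁻¹) rfl
    bo e_bo
    (bo + (1 / 2) * (q * w * cc5 * l2)) rfl).2
    ibo e_ibo
    (q2 * rl) rfl
    (q2 * rl * c5) rfl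
    (-(q2 * rl * c5)) rfl
    eo e_eo
    (w + ibo) rfl
    wMo e_wMo
    (-(q2 * rl)) rfl
    u e_u
    (w * V1) rfl
    ls e_ls
    (l1 * l1) rfl
    (l1 * l1 * Wie) rfl
    (k * l1) rfl
    (k * l1 * wse) rfl
    (2 * (k * l1 * wse)) (congrArg (fun y : ℝ => y * (k * l1 * wse)) zc_2199023255552_0)
    ((1 : ℝ) - 2 * (k * l1 * wse)) rfl
    D2 e_D2
    (2 * k) (congrArg (fun y : ℝ => y * k) zc_2199023255552_0)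
    (RW + l1) rfl
    (wse * (RW + l1)) rfl
    (2 * k - wse * (RW + l1)) rfl
  change 0 < 2 * k - wse * (RW + l1) at p_rr
  obtain ⟨p_X1, ch1⟩ := (ch0
    (k * RW) rfl
    (k * RW * wse) rfl
    (2 * (k * RW * wse)) (congrArg (fun y : ℝ => y * (k * RW * wse)) zc_2199023255552_0)
    xP e_xP
    (1 / 8 : ℝ) zc_137438953472_0
    ((1 / 16) * xP) (congrArg (fun y : ℝ => y * xP) zc_68719476736_0)
    ((1 / 8 : ℝ) - (1 / 16) * xP) rfl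
    (xP * ((1 / 8 : ℝ) - (1 / 16) * xP)) rfl
    ((1 / 2 : ℝ) - xP * ((1 / 8 : ℝ) - (1 / 16) * xP)) rfl
    (xP * ((1 / 2 : ℝ) - xP * ((1 / 8 : ℝ) - (1 / 16) * xP))) rfl
    DP e_DP
    ((133 / 512) * ta) (congrArg (fun y : ℝ => y * ta) zc_285615325184_0)
    (223 / 4096 : ℝ) zc_59861106688_0
    an e_an
    ((401 / 4096) * ta) (congrArg (fun y : ℝ => y * ta) zc_107642617856_0)
    (881 / 16384 : ℝ) zc_59122909184_0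
    an1 e_an1
    (4 * it) (congrArg (fun y : ℝ => y * it) zc_4398046511104_0)
    (4 * it + k) rfl).2
    ((4 * it + k)⁻¹) rfl
    (an * (4 * it + k)⁻¹) rfl
    (an * (4 * it + k)⁻¹ * DP) rfl
    X (e_X.trans (congrArg (fun y : ℝ => y * (an * (4 * it + k)⁻¹ * DP)) zc_4398046511104_0))
    ((1 : ℝ) - X) rfl
  change 0 < (1 : ℝ) - X at p_X1
  obtain ⟨p_u1, ch2⟩ := (ch1).2
    iX e_iX
    (2 : ℝ) zc_2199023255552_0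
    ((1 / 4) * y2) (congrArg (fun y : ℝ => y * y2) zc_274877906944_0)
    ((2 : ℝ) - (1 / 4) * y2) rfl
    (y2 * y2) rfl
    ((2731 / 524288) * (y2 * y2)) (congrArg (fun y : ℝ => y * (y2 * y2)) zc_5727322112_0)
    ((2 : ℝ) - (1 / 4) * y2 + (2731 / 524288) * (y2 * y2)) rfl
    ((1 / 4) * y2 * ((1 / 4) * y2)) rfl
    ((1 / 4) * y2 * ((1 / 4) * y2) * ((1 / 4) * y2)) rfl
    ((1 / 4) * y2 * ((1 / 4) * y2) * ((1 / 4) * y2) * ((1 / 4) * y2 * ((1 / 4) * y2) * ((1 / 4) * y2))) rfl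
    ((859 / 1048576) * ((1 / 4) * y2 * ((1 / 4) * y2) * ((1 / 4) * y2) * ((1 / 4) * y2 * ((1 / 4) * y2) * ((1 / 4) * y2)))) (congrArg (fun y : ℝ => y * ((1 / 4) * y2 * ((1 / 4) * y2) * ((1 / 4) * y2) * ((1 / 4) * y2 * ((1 / 4) * y2) * ((1 / 4) * y2)))) zc_900726784_0)
    G e_G
    (W * RW) rfl
    (G + W * RW) rfl
    (W * V1) rfl
    ((314573 / 524288) * (W * V1)) (congrArg (fun y : ℝ => y * (W * V1)) zc_659707396096_0)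
    (ls + (314573 / 524288) * (W * V1)) rfl
    (Real.exp (ls + (314573 / 524288) * (W * V1))) rfl
    (G + W * RW + Real.exp (ls + (314573 / 524288) * (W * V1))) rfl
    n1 e_n1
    (X * iX) rfl
    (n1 * (X * iX)) rfl
    lsp e_lsp
    lspS e_lspS
    ((1 : ℝ) - u) rfl
  change 0 < (1 : ℝ) - u at p_u1
  obtain ⟨p_q20, ch3⟩ := (((ch2
    (183501 / 262144 : ℝ) zc_769658978304_0).2
    (Real.log ((1 : ℝ) - u)) rfl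
    ((183501 / 262144 : ℝ) - Real.log ((1 : ℝ) - u)) rfl
    ielf e_ielf
    uX e_uX
    ((1 : ℝ) - uX) rfl).2
    (((1 : ℝ) - uX)⁻¹) rfl
    (uX * ((1 : ℝ) - uX)⁻¹) rfl
    (ie * (uX * ((1 : ℝ) - uX)⁻¹)) rfl
    ielfp e_ielfp
    rh e_rh
    (rh * rh) rfl
    (rh * rh + y2) rfl
    (1 / 64 : ℝ) zc_17179869184_0
    (rh * rh + y2 + (1 / 64 : ℝ)) rfl).2
    (Real.log (rh * rh + y2 + (1 / 64 : ℝ))) rfl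
    ((1 / 2) * Real.log (rh * rh + y2 + (1 / 64 : ℝ))) (congrArg (fun y : ℝ => y * Real.log (rh * rh + y2 + (1 / 64 : ℝ))) zc_549755813888_0)
    zb e_zb
    zbS e_zbS
    (zb * ie) rfl
    ((1 / 2) * (zb * ie)) (congrArg (fun y : ℝ => y * (zb * ie)) zc_549755813888_0)
    (1064305 / 1048576 : ℝ) zc_1116004679680_0
    fac e_fac
    ((1 / 2) * wse) (congrArg (fun y : ℝ => y * wse) zc_549755813888_0)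
    ((1 / 2) * wse * D2) rfl
    ((2149581 / 1048576) * k) (congrArg (fun y : ℝ => y * k) zc_2253999046656_0)
    (zbS + (2149581 / 1048576) * k) rfl
    ((1 / 2) * wse * D2 * (zbS + (2149581 / 1048576) * k)) rfl
    (k * K) rfl
    ((1 / 2) * (k * K)) (congrArg (fun y : ℝ => y * (k * K)) zc_549755813888_0)
    (zbS + (1 / 2) * (k * K)) rfl
    ((zbS + (1 / 2) * (k * K)) * lspS) rfl
    ((1 / 2) * wse * D2 * (zbS + (2149581 / 1048576) * k) + (zbS + (1 / 2) * (k * K)) * lspS) rfl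
    (ie * lsp) rfl
    ((445645 / 262144) * (ie * lsp)) (congrArg (fun y : ℝ => y * (ie * lsp)) zc_1869170606080_0)
    ((576717 / 262144) * ielfp) (congrArg (fun y : ℝ => y * ielfp) zc_2418926419968_0)
    ((445645 / 262144) * (ie * lsp) + (576717 / 262144) * ielfp) rfl
    (k2 * ((445645 / 262144) * (ie * lsp) + (576717 / 262144) * ielfp)) rfl
    ((1 / 2) * wse * D2 * (zbS + (2149581 / 1048576) * k) + (zbS + (1 / 2) * (k * K)) * lspS + k2 * ((445645 / 262144) * (ie * lsp) + (576717 / 262144) * ielfp)) rfl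
    Q e_Q
    E e_E
    Qw e_Qw
    (2 * Qw) (congrArg (fun y : ℝ => y * Qw) zc_2199023255552_0)
    c2 e_c2
  change 0 < q2 at p_q20
  obtain ⟨p_Es, ch4⟩ := ch3
    ((1 : ℝ) - Qw) rfl
  change 0 < (1 : ℝ) - Qw at p_Es
  obtain ⟨p_c20, ch5⟩ := ch4
  change 0 < c2 at p_c20
  obtain ⟨p_RH, ch6⟩ := ch5
    (3781 / 1024 : ℝ) zc_4059817836544_0
    ((3781 / 1024 : ℝ) - RW) rfl
    ((3781 / 1024 : ℝ) - RW - Q) rfl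
    (Qw + (1 : ℝ)) rfl
    ((Qw + (1 : ℝ)) * (Qw + (1 : ℝ))) rfl
    ((3781 / 1024 : ℝ) - RW - Q - (Qw + (1 : ℝ)) * (Qw + (1 : ℝ))) rfl
  change 0 < (3781 / 1024 : ℝ) - RW - Q - (Qw + (1 : ℝ)) * (Qw + (1 : ℝ)) at p_RH
  obtain ⟨p_h9, ch7⟩ := ch6
    ((9646899 / 1048576) * c2) (congrArg (fun y : ℝ => y * c2) zc_10115506765824_0)
    ((9646899 / 1048576) * c2 - (3781 / 1024 : ℝ)) rfl
  change 0 < (9646899 / 1048576) * c2 - (3781 / 1024 : ℝ) at p_h9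
  obtain ⟨p_h2, ch8⟩ := ch7
    ((471859 / 524288) * c2) (congrArg (fun y : ℝ => y * c2) zc_989560045568_0)
    ((13961 / 1024) * Wie) (congrArg (fun y : ℝ => y * Wie) zc_14990509604864_0)
    ((471859 / 524288) * c2 - (13961 / 1024) * Wie) rfl
  change 0 < (471859 / 524288) * c2 - (13961 / 1024) * Wie at p_h2
  obtain ⟨p_Er, ch9⟩ := ch8
    (l1 - Q) rfl
  change 0 < l1 - Q at p_Er
  obtain ⟨p_dr, ch10⟩ := ch9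
    ((825 / 4096) * q6) (congrArg (fun y : ℝ => y * q6) zc_221459251200_0)
    ((825 / 4096) * q6 * ((1 : ℝ) - Qw)) rfl
    ((813 / 512) * K) (congrArg (fun y : ℝ => y * K) zc_1745904205824_0)
    (2 * ((813 / 512) * K)) (congrArg (fun y : ℝ => y * ((813 / 512) * K)) zc_2199023255552_0)
    (Real.exp (2 * ((813 / 512) * K))) rfl
    (Q * Real.exp (2 * ((813 / 512) * K))) rfl
    ((825 / 4096) * q6 * ((1 : ℝ) - Qw) - Q * Real.exp (2 * ((813 / 512) * K))) rfl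
  change 0 < (825 / 4096) * q6 * ((1 : ℝ) - Qw) - Q * Real.exp (2 * ((813 / 512) * K)) at p_dr
  obtain ⟨p_La, ch11⟩ := ch10
    ((1 : ℝ) - 2 * Qw) rfl
    ((2775 / 1024) * ((1 : ℝ) - 2 * Qw)) (congrArg (fun y : ℝ => y * ((1 : ℝ) - 2 * Qw)) zc_2979633561600_0)
    ((2775 / 1024) * ((1 : ℝ) - 2 * Qw) - RW) rfl
    ((2775 / 1024) * ((1 : ℝ) - 2 * Qw) - RW - Q) rfl
  change 0 < (2775 / 1024) * ((1 : ℝ) - 2 * Qw) - RW - Q at p_La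
  obtain ⟨p_l1, ch12⟩ := ch11
    (-(ie * lsp)) rfl
    (10485 / 1048576 : ℝ) zc_10994319360_0
    ((-(ie * lsp)) + (10485 / 1048576 : ℝ)) rfl
  change 0 < (-(ie * lsp)) + (10485 / 1048576 : ℝ) at p_l1
  obtain ⟨p_l2, ch13⟩ := ch12
    (-ielfp) rfl
    (20971 / 1048576 : ℝ) zc_21989687296_0
    ((-ielfp) + (20971 / 1048576 : ℝ)) rfl
  change 0 < (-ielfp) + (20971 / 1048576 : ℝ) at p_l2
  obtain ⟨p_z1, ch14⟩ := ch13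
    (-(zb * ie)) rfl
    (104857 / 1048576 : ℝ) zc_109950533632_0
    ((-(zb * ie)) + (104857 / 1048576 : ℝ)) rfl
  change 0 < (-(zb * ie)) + (104857 / 1048576 : ℝ) at p_z1
  obtain ⟨p_E1, ch15⟩ := ch14
    (E * ie) rfl
    (-(E * ie)) rfl
    (2621 / 524288 : ℝ) zc_5496635392_0
    ((-(E * ie)) + (2621 / 524288 : ℝ)) rfl
  change 0 < (-(E * ie)) + (2621 / 524288 : ℝ) at p_E1
  obtain ⟨p_y, ch16⟩ := ch15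
    (-E) rfl
    ((-E) - y) rfl
    ((471 / 256) * K) (congrArg (fun y : ℝ => y * K) zc_2022929596416_0)
    ((-E) - y + (471 / 256) * K) rfl
    (6563 / 2048 : ℝ) zc_3523483795456_0
    ((-E) - y + (471 / 256) * K + (6563 / 2048 : ℝ)) rfl
  change 0 < (-E) - y + (471 / 256) * K + (6563 / 2048 : ℝ) at p_y
  obtain ⟨p_yY, ch17⟩ := ch16
    (7 / 2 : ℝ) zc_3848290697216_0
    ((-E) - y + (7 / 2 : ℝ)) rfl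
  change 0 < (-E) - y + (7 / 2 : ℝ) at p_yY
  obtain ⟨p_EM2, ch18⟩ := ((((ch17
    (9775 / 4096 : ℝ) zc_2623956582400_0
    (Kq * (9775 / 4096 : ℝ)) rfl
    zd (e_zd.trans (congrArg (fun y : ℝ => y * (Kq * (9775 / 4096 : ℝ))) zc_2199023255552_0))
    (zd * zd) rfl
    (zd * zd * ((1 : ℝ) * (3 : ℝ)⁻¹)) rfl
    (zd * zd * ((1 : ℝ) * (3 : ℝ)⁻¹) + (1 : ℝ)) rfl).2
    izd e_izd
    thd e_thd
    (q6 * (9775 / 4096 : ℝ)) rfl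
    (q6 * (9775 / 4096 : ℝ) * izd) rfl
    (thd * thd) rfl
    ((1 / 4) * (thd * thd)) (congrArg (fun y : ℝ => y * (thd * thd)) zc_274877906944_0)
    ((1 / 4) * (thd * thd) + (1 : ℝ)) rfl
    ld e_ld
    (13871 / 4096 : ℝ) zc_3723468210176_0
    (Kq * (13871 / 4096 : ℝ)) rfl
    ze (e_ze.trans (congrArg (fun y : ℝ => y * (Kq * (13871 / 4096 : ℝ))) zc_2199023255552_0))
    (ze * ze) rfl
    (ze * ze * ((1 : ℝ) * (3 : ℝ)⁻¹)) rfl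
    (ze * ze * ((1 : ℝ) * (3 : ℝ)⁻¹) + (1 : ℝ)) rfl).2
    ize e_ize
    the e_the
    (q6 * (13871 / 4096 : ℝ)) rfl
    (q6 * (13871 / 4096 : ℝ) * ize) rfl
    (the * the) rfl
    ((1 / 4) * (the * the)) (congrArg (fun y : ℝ => y * (the * the)) zc_274877906944_0)
    ((1 / 4) * (the * the) + (1 : ℝ)) rfl
    le e_le
    cd5 e_cd5
    (-cd5) rfl
    xxn e_xxn
    ((1 / 2) * xxn) (congrArg (fun y : ℝ => y * xxn) zc_549755813888_0)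
    (xxn + (1 : ℝ)) rfl
    (-(xxn + (1 : ℝ))) rfl
    ((1 / 2) * xxn * (-(xxn + (1 : ℝ)))) rfl
    rcn e_rcn
    bnn e_bnn
    (q * w * cd5) rfl
    (q * w * cd5 * le) rfl
    ((1 / 2) * (q * w * cd5 * le)) (congrArg (fun y : ℝ => y * (q * w * cd5 * le)) zc_549755813888_0)
    wsn e_wsn
    ((1 / 2) * wsn) (congrArg (fun y : ℝ => y * wsn) zc_549755813888_0)
    (wsn * wsn) rfl
    ((1482911 / 16777216) * (wsn * wsn)) (congrArg (fun y : ℝ => y * (wsn * wsn)) zc_97184055296_0)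
    ((1482911 / 16777216) * (wsn * wsn) + (1482911 / 1048576 : ℝ)) rfl
    ((1 / 2) * wsn + ((1482911 / 16777216) * (wsn * wsn) + (1482911 / 1048576 : ℝ))) rfl).2
    (((1 / 2) * wsn + ((1482911 / 16777216) * (wsn * wsn) + (1482911 / 1048576 : ℝ)))⁻¹) rfl
    bn e_bn
    (bn + (1 / 2) * (q * w * cd5 * le)) rfl).2
    ibn e_ibn
    (q2 * ld) rfl
    (q2 * ld * W) rfl
    (q2 * ld * W * c2) rfl
    (-(q2 * ld * W * c2)) rfl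
    u1 e_u1
    (w + ibn) rfl
    m1 e_m1
    (w * m1) rfl
    (W + w * m1) rfl
    EM e_EM
    ((1 / 2) * EM) (congrArg (fun y : ℝ => y * EM) zc_549755813888_0)
    ((1 : ℝ) - (1 / 2) * EM) rfl
  change 0 < (1 : ℝ) - (1 / 2) * EM at p_EM2
  obtain ⟨p_cl, ch19⟩ := (ch18).2
    i2 e_i2
    ((1 / 2) * EM + (1 : ℝ)) rfl
    eta e_eta
    (EM * i2) rfl
    ((1 / 4) * k) (congrArg (fun y : ℝ => y * k) zc_274877906944_0)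
    (it + (1 / 4) * k) rfl
    t1 e_t1
    ((1 / 1024) * K) (congrArg (fun y : ℝ => y * K) zc_1073741824_0)
    ((1 : ℝ) - (1 / 1024) * K) rfl
    (((1 : ℝ) - (1 / 1024) * K) * an) rfl
    (((1 : ℝ) - (1 / 1024) * K) * an - t1) rfl
    (u1 * an1) rfl
    (eta * (u1 * an1)) rfl
    (V1 + Q) rfl
    (wse * (V1 + Q)) rfl
    (wse * (V1 + Q) + (1 : ℝ)) rfl
    (eta * (u1 * an1) * (wse * (V1 + Q) + (1 : ℝ))) rfl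
    (((1 : ℝ) - (1 / 1024) * K) * an - t1 - eta * (u1 * an1) * (wse * (V1 + Q) + (1 : ℝ))) rfl
  change 0 < ((1 : ℝ) - (1 / 1024) * K) * an - t1 - eta * (u1 * an1) * (wse * (V1 + Q) + (1 : ℝ)) at p_cl
  exact ⟨n1, ielf,
    ⟨se, ie, K, K2, q6, Kq, Yt, Y2, wm, wm2, wse0, q, sp, y2, sg2, lsg, w, k, W, it, k2, wse,
    Wie, q2, ie2, c5, RW, R2, V1, z1, iz1, th1, l1, z2, iz2, th2, l2, rl, cc5, xxo, rco, bno,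
    wso, bo, ibo, eo, wMo, u, ls, D2, xP, DP, an, an1, X, iX, lsp, lspS, uX, ielfp, rh, zb, zbS,
    fac, Q, E, Qw, c2, zd, izd, thd, ld, ze, ize, the, le, cd5, xxn, rcn, bnn, wsn, bn, ibn, u1,
    m1, EM, i2, eta, t1, e_se, e_ie, e_K, e_K2, e_q6, e_Kq, e_Yt, e_Y2, e_wm, e_wm2, e_wse0,
    e_q, e_sp, e_y2, e_sg2, e_lsg, e_w, e_k, e_W, e_it, e_k2, e_wse, e_Wie, e_q2, e_ie2, e_c5,
    e_RW, e_R2, e_V1, e_z1, e_iz1, e_th1, e_l1, e_z2, e_iz2, e_th2, e_l2, e_rl, e_cc5, e_xxo,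
    e_rco, e_bno, e_wso, e_bo, e_ibo, e_eo, e_wMo, e_u, e_ls, e_D2, e_xP, e_DP, e_an, e_an1,
    e_X, e_iX, e_lsp, e_lspS, e_uX, e_ielfp, e_rh, e_zb, e_zbS, e_fac, e_Q, e_E, e_Qw, e_c2,
    e_zd, e_izd, e_thd, e_ld, e_ze, e_ize, e_the, e_le, e_cd5, e_xxn, e_rcn, e_bnn, e_wsn, e_bn,
    e_ibn, e_u1, e_m1, e_EM, e_i2, e_eta, e_t1, p_rr, p_X1, p_q20, p_Es, p_c20, p_RH, p_h9,
    p_h2, p_Er, p_dr, p_La, p_l1, p_l2, p_z1, p_E1, p_y, p_yY, p_EM2, p_cl⟩,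
    ⟨⟨G, e_G, e_n1⟩⟩, ⟨⟨e_ielf, p_u1⟩⟩⟩

theorem ex_LB0_gE {om ta y : ℝ} (h : RAs Cert.LB0.prog3 [om, ta, y]) :
    0 < om * ta - (74161 / 1048576 : ℝ) := by
  obtain ⟨p_gE, ch0⟩ := h
    (om * ta) rfl
    (74161 / 1048576 : ℝ) zc_77763444736_0
    (om * ta - (74161 / 1048576 : ℝ)) rfl
  change 0 < om * ta - (74161 / 1048576 : ℝ) at p_gE
  exact p_gE

theorem ex_LB0_gK {om ta y : ℝ} (h : RAs Cert.LB0.prog4 [om, ta, y]) :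
    0 < om * om - (7 / 4) * (om * ta) - (726873 / 524288 : ℝ) := by
  obtain ⟨p_gK, ch0⟩ := h
    (om * om) rfl
    (om * ta) rfl
    ((7 / 4) * (om * ta)) (congrArg (fun y : ℝ => y * (om * ta)) zc_1924145348608_0)
    (om * om - (7 / 4) * (om * ta)) rfl
    (726873 / 524288 : ℝ) zc_1524363165696_0
    (om * om - (7 / 4) * (om * ta) - (726873 / 524288 : ℝ)) rfl
  change 0 < om * om - (7 / 4) * (om * ta) - (726873 / 524288 : ℝ) at p_gK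
  exact p_gK

theorem ex_LB0_gY {om ta y : ℝ} (h : RAs Cert.LB0.prog5 [om, ta, y]) :
    Nonempty (PLBg om ta y (xB 0) (ynB1 0) (ynB0 0)) := by
  obtain ⟨se, e_se⟩ : ∃ zz : ℝ, zz = om * ta := ⟨_, rfl⟩
  obtain ⟨ie, e_ie⟩ : ∃ zz : ℝ, zz = se * se := ⟨_, rfl⟩
  obtain ⟨K, e_K⟩ : ∃ zz : ℝ, zz = om * se := ⟨_, rfl⟩
  obtain ⟨K2, e_K2⟩ : ∃ zz : ℝ, zz = K * K := ⟨_, rfl⟩
  obtain ⟨q6, e_q6⟩ : ∃ zz : ℝ, zz = (1 : ℝ) - K2 * ((1 : ℝ) * (6 : ℝ)⁻¹) := ⟨_, rfl⟩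
  obtain ⟨Kq, e_Kq⟩ : ∃ zz : ℝ, zz = K * q6 := ⟨_, rfl⟩
  obtain ⟨Yt, e_Yt⟩ : ∃ zz : ℝ, zz = (7 / 2) * ta := ⟨_, rfl⟩
  obtain ⟨Y2, e_Y2⟩ : ∃ zz : ℝ, zz = Yt * Yt := ⟨_, rfl⟩
  obtain ⟨wm, e_wm⟩ : ∃ zz : ℝ, zz = Yt * ((1 : ℝ) + Y2 * ((1 / 2 : ℝ) - (1 / 8) * Y2))⁻¹ := ⟨_, rfl⟩
  obtain ⟨wm2, e_wm2⟩ : ∃ zz : ℝ, zz = wm * wm := ⟨_, rfl⟩
  obtain ⟨wse0, e_wse0⟩ : ∃ zz : ℝ, zz = wm * se := ⟨_, rfl⟩
  obtain ⟨q, e_q⟩ : ∃ zz : ℝ, zz = (4095 / 4096 : ℝ) - (1449 / 512) * wse0 - 23 * ie - (1 / 2) * K2 := ⟨_, rfl⟩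
  obtain ⟨sp, e_sp⟩ : ∃ zz : ℝ, zz = (4095 / 4096 : ℝ) - (2899 / 2048) * wse0 - 19 * ie - (553 / 1024) * K2 := ⟨_, rfl⟩
  obtain ⟨z0, e_z0⟩ : ∃ zz : ℝ, zz = 2 * (Kq * (301 / 512 : ℝ)) := ⟨_, rfl⟩
  obtain ⟨iz0, e_iz0⟩ : ∃ zz : ℝ, zz = (z0 * z0 * ((1 : ℝ) * (3 : ℝ)⁻¹) + (1 : ℝ))⁻¹ := ⟨_, rfl⟩
  obtain ⟨th0, e_th0⟩ : ∃ zz : ℝ, zz = z0 * iz0 := ⟨_, rfl⟩
  obtain ⟨l0, e_l0⟩ : ∃ zz : ℝ, zz = q6 * (301 / 512 : ℝ) * iz0 * ((1 / 4) * (th0 * th0) + (1 : ℝ)) := ⟨_, rfl⟩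
  obtain ⟨W, e_W⟩ : ∃ zz : ℝ, zz = om * om * (y * y * (ta * ta) + (1 : ℝ)) := ⟨_, rfl⟩
  obtain ⟨p_gY, ch0⟩ := ((((h
    (1 : ℝ) zc_1099511627776_0
    (3 : ℝ) zc_3298534883328_0).2
    ((3 : ℝ)⁻¹) rfl
    ((1 : ℝ) * (3 : ℝ)⁻¹) rfl
    se e_se
    ie e_ie
    K e_K
    K2 e_K2
    (6 : ℝ) zc_6597069766656_0).2
    ((6 : ℝ)⁻¹) rfl
    ((1 : ℝ) * (6 : ℝ)⁻¹) rfl
    (K2 * ((1 : ℝ) * (6 : ℝ)⁻¹)) rfl
    q6 e_q6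
    Kq e_Kq
    Yt (e_Yt.trans (congrArg (fun y : ℝ => y * ta) zc_3848290697216_0))
    Y2 e_Y2
    (1 / 2 : ℝ) zc_549755813888_0
    ((1 / 8) * Y2) (congrArg (fun y : ℝ => y * Y2) zc_137438953472_0)
    ((1 / 2 : ℝ) - (1 / 8) * Y2) rfl
    (Y2 * ((1 / 2 : ℝ) - (1 / 8) * Y2)) rfl
    ((1 : ℝ) + Y2 * ((1 / 2 : ℝ) - (1 / 8) * Y2)) rfl).2
    (((1 : ℝ) + Y2 * ((1 / 2 : ℝ) - (1 / 8) * Y2))⁻¹) rfl
    wm e_wm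
    wm2 e_wm2
    wse0 e_wse0
    (4095 / 4096 : ℝ) zc_1099243192320_0
    ((1449 / 512) * wse0) (congrArg (fun y : ℝ => y * wse0) zc_3111703805952_0)
    ((4095 / 4096 : ℝ) - (1449 / 512) * wse0) rfl
    (23 * ie) (congrArg (fun y : ℝ => y * ie) zc_25288767438848_0)
    ((4095 / 4096 : ℝ) - (1449 / 512) * wse0 - 23 * ie) rfl
    ((1 / 2) * K2) (congrArg (fun y : ℝ => y * K2) zc_549755813888_0)
    q e_q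
    ((2899 / 2048) * wse0) (congrArg (fun y : ℝ => y * wse0) zc_1556388773888_0)
    ((4095 / 4096 : ℝ) - (2899 / 2048) * wse0) rfl
    (19 * ie) (congrArg (fun y : ℝ => y * ie) zc_20890720927744_0)
    ((4095 / 4096 : ℝ) - (2899 / 2048) * wse0 - 19 * ie) rfl
    ((553 / 1024) * K2) (congrArg (fun y : ℝ => y * K2) zc_593779228672_0)
    sp e_sp
    (301 / 512 : ℝ) zc_646392578048_0
    (Kq * (301 / 512 : ℝ)) rfl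
    z0 (e_z0.trans (congrArg (fun y : ℝ => y * (Kq * (301 / 512 : ℝ))) zc_2199023255552_0))
    (z0 * z0) rfl
    (z0 * z0 * ((1 : ℝ) * (3 : ℝ)⁻¹)) rfl
    (z0 * z0 * ((1 : ℝ) * (3 : ℝ)⁻¹) + (1 : ℝ)) rfl).2
    iz0 e_iz0
    th0 e_th0
    (q6 * (301 / 512 : ℝ)) rfl
    (q6 * (301 / 512 : ℝ) * iz0) rfl
    (th0 * th0) rfl
    ((1 / 4) * (th0 * th0)) (congrArg (fun y : ℝ => y * (th0 * th0)) zc_274877906944_0)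
    ((1 / 4) * (th0 * th0) + (1 : ℝ)) rfl
    l0 e_l0
    (om * om) rfl
    (y * y) rfl
    (ta * ta) rfl
    (y * y * (ta * ta)) rfl
    (y * y * (ta * ta) + (1 : ℝ)) rfl
    W e_W
    (W * ie) rfl
    (2 * l0) (congrArg (fun y : ℝ => y * l0) zc_2199023255552_0)
    (2 * l0 + (1 : ℝ)) rfl
    (W * ie * (2 * l0 + (1 : ℝ))) rfl
    (W * ie * (2 * l0 + (1 : ℝ)) + (1 : ℝ)) rfl
    (y * (W * ie * (2 * l0 + (1 : ℝ)) + (1 : ℝ))) rfl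
    ((29 / 64) * K) (congrArg (fun y : ℝ => y * K) zc_498216206336_0)
    (y * (W * ie * (2 * l0 + (1 : ℝ)) + (1 : ℝ)) - (29 / 64) * K) rfl
    (3277 / 1024 : ℝ) zc_3518651957248_0
    (y * (W * ie * (2 * l0 + (1 : ℝ)) + (1 : ℝ)) - (29 / 64) * K - (3277 / 1024 : ℝ)) rfl
  change 0 < y * (W * ie * (2 * l0 + (1 : ℝ)) + (1 : ℝ)) - (29 / 64) * K - (3277 / 1024 : ℝ) at p_gY
  exact ⟨⟨se, ie, K, K2, q6, Kq, z0, iz0, th0, l0, W, e_se, e_ie, e_K, e_K2, e_q6, e_Kq, e_z0, e_iz0,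
    e_th0, e_l0, e_W, p_gY⟩⟩

end Pool.Agent.helper31.EQB
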