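import Pool.Agent.helper31.EQB.Cst
import Pool.Agent.helper31.EQB.Cert.LB2P
import Pool.Agent.helper71.FF.Real

/-!
Generated: meaning of the programs.
-/

namespace Pool.Agent.helper31.EQB

open Pool.Agent.helper71.FF (RAs zv)
open Pool.Agent.helper31.IA (Z Op)

set_option maxRecDepth 100000

private theorem zc_805306368_0 : (3 / 4096 : ℝ) = zv 805306368 0 := by unfold zv; norm_num

private theorem zc_900726784_0 : (859 / 1048576 : ℝ) = zv 900726784 0 := by unfold zv; norm_num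

private theorem zc_1073741824_0 : (1 / 1024 : ℝ) = zv 1073741824 0 := by unfold zv; norm_num

private theorem zc_5496635392_0 : (2621 / 524288 : ℝ) = zv 5496635392 0 := by unfold zv; norm_num

private theorem zc_5727322112_0 : (2731 / 524288 : ℝ) = zv 5727322112 0 := by unfold zv; norm_num

private theorem zc_10994319360_0 : (10485 / 1048576 : ℝ) = zv 10994319360 0 := by unfold zv; norm_num

private theorem zc_17179869184_0 : (1 / 64 : ℝ) = zv 17179869184 0 := by unfold zv; norm_num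

private theorem zc_21989687296_0 : (20971 / 1048576 : ℝ) = zv 21989687296 0 := by unfold zv; norm_num

private theorem zc_27380416512_0 : (51 / 2048 : ℝ) = zv 27380416512 0 := by unfold zv; norm_num

private theorem zc_57780731904_0 : (861 / 16384 : ℝ) = zv 57780731904 0 := by unfold zv; norm_num

private theorem zc_58451820544_0 : (871 / 16384 : ℝ) = zv 58451820544 0 := by unfold zv; norm_num

private theorem zc_68719476736_0 : (1 / 16 : ℝ) = zv 68719476736 0 := by unfold zv; norm_num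

private theorem zc_77763444736_0 : (74161 / 1048576 : ℝ) = zv 77763444736 0 := by unfold zv; norm_num

private theorem zc_91626668032_0 : (43691 / 524288 : ℝ) = zv 91626668032 0 := by unfold zv; norm_num

private theorem zc_97184055296_0 : (1482911 / 16777216 : ℝ) = zv 97184055296 0 := by unfold zv; norm_num

private theorem zc_109950533632_0 : (104857 / 1048576 : ℝ) = zv 109950533632 0 := by unfold zv; norm_num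

private theorem zc_137438953472_0 : (1 / 8 : ℝ) = zv 137438953472 0 := by unfold zv; norm_num

private theorem zc_181730803712_0 : (677 / 4096 : ℝ) = zv 181730803712 0 := by unfold zv; norm_num

private theorem zc_274877906944_0 : (1 / 4 : ℝ) = zv 274877906944 0 := by unfold zv; norm_num

private theorem zc_549755813888_0 : (1 / 2 : ℝ) = zv 549755813888 0 := by unfold zv; norm_num

private theorem zc_593779228672_0 : (553 / 1024 : ℝ) = zv 593779228672 0 := by unfold zv; norm_num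

private theorem zc_659707396096_0 : (314573 / 524288 : ℝ) = zv 659707396096 0 := by unfold zv; norm_num

private theorem zc_769658978304_0 : (183501 / 262144 : ℝ) = zv 769658978304 0 := by unfold zv; norm_num

private theorem zc_989560045568_0 : (471859 / 524288 : ℝ) = zv 989560045568 0 := by unfold zv; norm_num

private theorem zc_1099243192320_0 : (4095 / 4096 : ℝ) = zv 1099243192320 0 := by unfold zv; norm_num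

private theorem zc_1099511627776_0 : (1 : ℝ) = zv 1099511627776 0 := by unfold zv; norm_num

private theorem zc_1116004679680_0 : (1064305 / 1048576 : ℝ) = zv 1116004679680 0 := by unfold zv; norm_num

private theorem zc_1524363165696_0 : (726873 / 524288 : ℝ) = zv 1524363165696 0 := by unfold zv; norm_num

private theorem zc_1554944884736_0 : (1482911 / 1048576 : ℝ) = zv 1554944884736 0 := by unfold zv; norm_num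

private theorem zc_1556388773888_0 : (2899 / 2048 : ℝ) = zv 1556388773888 0 := by unfold zv; norm_num

private theorem zc_1869170606080_0 : (445645 / 262144 : ℝ) = zv 1869170606080 0 := by unfold zv; norm_num

private theorem zc_1924145348608_0 : (7 / 4 : ℝ) = zv 1924145348608 0 := by unfold zv; norm_num

private theorem zc_2199023255552_0 : (2 : ℝ) = zv 2199023255552 0 := by unfold zv; norm_num

private theorem zc_2220498092032_0 : (517 / 256 : ℝ) = zv 2220498092032 0 := by unfold zv; norm_num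

private theorem zc_2253999046656_0 : (2149581 / 1048576 : ℝ) = zv 2253999046656 0 := by unfold zv; norm_num

private theorem zc_2418926419968_0 : (576717 / 262144 : ℝ) = zv 2418926419968 0 := by unfold zv; norm_num

private theorem zc_2436588634112_0 : (9077 / 4096 : ℝ) = zv 2436588634112 0 := by unfold zv; norm_num

private theorem zc_2542620639232_0 : (37 / 16 : ℝ) = zv 2542620639232 0 := by unfold zv; norm_num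

private theorem zc_3111703805952_0 : (1449 / 512 : ℝ) = zv 3111703805952 0 := by unfold zv; norm_num

private theorem zc_3298534883328_0 : (3 : ℝ) = zv 3298534883328 0 := by unfold zv; norm_num

private theorem zc_3381213003776_0 : (3149 / 1024 : ℝ) = zv 3381213003776 0 := by unfold zv; norm_num

private theorem zc_3536100261888_0 : (13173 / 4096 : ℝ) = zv 3536100261888 0 := by unfold zv; norm_num

private theorem zc_3556501356544_0 : (13249 / 4096 : ℝ) = zv 3556501356544 0 := by unfold zv; norm_num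

private theorem zc_3613946544128_0 : (13463 / 4096 : ℝ) = zv 3613946544128 0 := by unfold zv; norm_num

private theorem zc_3848290697216_0 : (7 / 2 : ℝ) = zv 3848290697216 0 := by unfold zv; norm_num

private theorem zc_4398046511104_0 : (4 : ℝ) = zv 4398046511104 0 := by unfold zv; norm_num

private theorem zc_4453881085952_0 : (1037 / 256 : ℝ) = zv 4453881085952 0 := by unfold zv; norm_num

private theorem zc_4635611889664_0 : (17269 / 4096 : ℝ) = zv 4635611889664 0 := by unfold zv; norm_num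

private theorem zc_4947802324992_0 : (9 / 2 : ℝ) = zv 4947802324992 0 := by unfold zv; norm_num

private theorem zc_5435281113088_0 : (2531 / 512 : ℝ) = zv 5435281113088 0 := by unfold zv; norm_num

private theorem zc_5553392713728_0 : (1293 / 256 : ℝ) = zv 5553392713728 0 := by unfold zv; norm_num

private theorem zc_5703716569088_0 : (83 / 16 : ℝ) = zv 5703716569088 0 := by unfold zv; norm_num

private theorem zc_6597069766656_0 : (6 : ℝ) = zv 6597069766656 0 := by unfold zv; norm_num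

private theorem zc_6762426007552_0 : (3149 / 512 : ℝ) = zv 6762426007552 0 := by unfold zv; norm_num

private theorem zc_8796093022208_0 : (8 : ℝ) = zv 8796093022208 0 := by unfold zv; norm_num

private theorem zc_10115506765824_0 : (9646899 / 1048576 : ℝ) = zv 10115506765824 0 := by unfold zv; norm_num

private theorem zc_13524852015104_0 : (3149 / 256 : ℝ) = zv 13524852015104 0 := by unfold zv; norm_num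

private theorem zc_20890720927744_0 : (19 : ℝ) = zv 20890720927744 0 := by unfold zv; norm_num

private theorem zc_25288767438848_0 : (23 : ℝ) = zv 25288767438848 0 := by unfold zv; norm_num

private theorem zc_41591657988096_0 : (154941 / 4096 : ℝ) = zv 41591657988096 0 := by unfold zv; norm_num

private theorem zc_549755813888000_0 : (500 : ℝ) = zv 549755813888000 0 := by unfold zv; norm_num

private theorem zc_615726511554560_0 : (560 : ℝ) = zv 615726511554560 0 := by unfold zv; norm_num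

theorem ex_LB2_g {om ta y : ℝ} (h : RAs Cert.LB2.prog0 [om, ta, y]) :
    ∃ n1 ielf : ℝ, ∃ P : PLB (cB 2) om ta y n1 ielf, Nonempty (PLBn P) ∧ Nonempty (PLBf P) := by
  obtain ⟨se, e_se⟩ : ∃ zz : ℝ, zz = om * ta := ⟨_, rfl⟩
  obtain ⟨ie, e_ie⟩ : ∃ zz : ℝ, zz = se * se := ⟨_, rfl⟩
  obtain ⟨K, e_K⟩ : ∃ zz : ℝ, zz = om * se := ⟨_, rfl⟩
  obtain ⟨K2, e_K2⟩ : ∃ zz : ℝ, zz = K * K := ⟨_, rfl⟩
  obtain ⟨q6, e_q6⟩ : ∃ zz : ℝ, zz = (1 : ℝ) - K2 * ((1 : ℝ) * (6 : ℝ)⁻¹) := ⟨_, rfl⟩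
  obtain ⟨Kq, e_Kq⟩ : ∃ zz : ℝ, zz = K * q6 := ⟨_, rfl⟩
  obtain ⟨Yt, e_Yt⟩ : ∃ zz : ℝ, zz = (7 / 2) * ta := ⟨_, rfl⟩
  obtain ⟨Y2, e_Y2⟩ : ∃ zz : ℝ, zz = Yt * Yt := ⟨_, rfl⟩
  obtain ⟨wm, e_wm⟩ : ∃ zz : ℝ, zz = Yt * ((1 : ℝ) + Y2 * ((1 / 2 : ℝ) - (1 / 8) * Y2))⁻¹ := ⟨_, rfl⟩
  obtain ⟨wm2, e_wm2⟩ : ∃ zz : ℝ, zz = wm * wm := ⟨_, rfl⟩
  obtain ⟨wse0, e_wse0⟩ : ∃ zz : ℝ, zz = wm * se := ⟨_, rfl⟩
  obtain ⟨q, e_q⟩ : ∃ zz : ℝ, zz = (4095 / 4096 : ℝ) - (1449 / 512) * wse0 - 23 * ie - (1 / 2) * K2 := ⟨_, rfl⟩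
  obtain ⟨sp, e_sp⟩ : ∃ zz : ℝ, zz = (4095 / 4096 : ℝ) - (2899 / 2048) * wse0 - 19 * ie - (553 / 1024) * K2 := ⟨_, rfl⟩
  obtain ⟨y2, e_y2⟩ : ∃ zz : ℝ, zz = y * y := ⟨_, rfl⟩
  obtain ⟨sg2, e_sg2⟩ : ∃ zz : ℝ, zz = y2 * (ta * ta) + (1 : ℝ) := ⟨_, rfl⟩
  obtain ⟨lsg, e_lsg⟩ : ∃ zz : ℝ, zz = (1 / 2) * Real.log sg2 := ⟨_, rfl⟩
  obtain ⟨w, e_w⟩ : ∃ zz : ℝ, zz = om * Real.exp lsg := ⟨_, rfl⟩
  obtain ⟨k, e_k⟩ : ∃ zz : ℝ, zz = Real.exp (-lsg) := ⟨_, rfl⟩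
  obtain ⟨W, e_W⟩ : ∃ zz : ℝ, zz = w * w := ⟨_, rfl⟩
  obtain ⟨it, e_it⟩ : ∃ zz : ℝ, zz = ta * k := ⟨_, rfl⟩
  obtain ⟨k2, e_k2⟩ : ∃ zz : ℝ, zz = k * k := ⟨_, rfl⟩
  obtain ⟨wse, e_wse⟩ : ∃ zz : ℝ, zz = w * se := ⟨_, rfl⟩
  obtain ⟨Wie, e_Wie⟩ : ∃ zz : ℝ, zz = W * ie := ⟨_, rfl⟩
  obtain ⟨q2, e_q2⟩ : ∃ zz : ℝ, zz = q - 8 * ie - Wie * ((3149 / 256) * wm2 + (3149 / 1024 : ℝ)) := ⟨_, rfl⟩
  obtain ⟨ie2, e_ie2⟩ : ∃ zz : ℝ, zz = ie * ie := ⟨_, rfl⟩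
  obtain ⟨c5, e_c5⟩ : ∃ zz : ℝ, zz = (1 : ℝ) - 500 * ie2 := ⟨_, rfl⟩
  obtain ⟨RW, e_RW⟩ : ∃ zz : ℝ, zz = (2531 / 512) * (560 * ie2 + (1 : ℝ)) := ⟨_, rfl⟩
  obtain ⟨R2, e_R2⟩ : ∃ zz : ℝ, zz = RW * RW * Wie := ⟨_, rfl⟩
  obtain ⟨V1, e_V1⟩ : ∃ zz : ℝ, zz = R2 + (1 : ℝ) := ⟨_, rfl⟩
  obtain ⟨z1, e_z1⟩ : ∃ zz : ℝ, zz = 2 * (Kq * (13173 / 4096 : ℝ)) := ⟨_, rfl⟩
  obtain ⟨iz1, e_iz1⟩ : ∃ zz : ℝ, zz = (z1 * z1 * ((1 : ℝ) * (3 : ℝ)⁻¹) + (1 : ℝ))⁻¹ := ⟨_, rfl⟩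
  obtain ⟨th1, e_th1⟩ : ∃ zz : ℝ, zz = z1 * iz1 := ⟨_, rfl⟩
  obtain ⟨l1, e_l1⟩ : ∃ zz : ℝ, zz = q6 * (13173 / 4096 : ℝ) * iz1 * ((1 / 4) * (th1 * th1) + (1 : ℝ)) := ⟨_, rfl⟩
  obtain ⟨z2, e_z2⟩ : ∃ zz : ℝ, zz = 2 * (Kq * (17269 / 4096 : ℝ)) := ⟨_, rfl⟩
  obtain ⟨iz2, e_iz2⟩ : ∃ zz : ℝ, zz = (z2 * z2 * ((1 : ℝ) * (3 : ℝ)⁻¹) + (1 : ℝ))⁻¹ := ⟨_, rfl⟩
  obtain ⟨th2, e_th2⟩ : ∃ zz : ℝ, zz = z2 * iz2 := ⟨_, rfl⟩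
  obtain ⟨l2, e_l2⟩ : ∃ zz : ℝ, zz = q6 * (17269 / 4096 : ℝ) * iz2 * ((1 / 4) * (th2 * th2) + (1 : ℝ)) := ⟨_, rfl⟩
  obtain ⟨rl, e_rl⟩ : ∃ zz : ℝ, zz = W * l1 := ⟨_, rfl⟩
  obtain ⟨cc5, e_cc5⟩ : ∃ zz : ℝ, zz = c5 * c5 := ⟨_, rfl⟩
  obtain ⟨xxo, e_xxo⟩ : ∃ zz : ℝ, zz = (-cc5) + (1 : ℝ) := ⟨_, rfl⟩
  obtain ⟨rco, e_rco⟩ : ∃ zz : ℝ, zz = (1 / 2) * xxo * (-(xxo + (1 : ℝ))) + (1 : ℝ) := ⟨_, rfl⟩
  obtain ⟨bno, e_bno⟩ : ∃ zz : ℝ, zz = sp * rco := ⟨_, rfl⟩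
  obtain ⟨wso, e_wso⟩ : ∃ zz : ℝ, zz = bno * w := ⟨_, rfl⟩
  obtain ⟨bo, e_bo⟩ : ∃ zz : ℝ, zz = bno * ((1 / 2) * wso + ((1482911 / 16777216) * (wso * wso) + (1482911 / 1048576 : ℝ)))⁻¹ := ⟨_, rfl⟩
  obtain ⟨ibo, e_ibo⟩ : ∃ zz : ℝ, zz = (bo + (1 / 2) * (q * w * cc5 * l2))⁻¹ := ⟨_, rfl⟩
  obtain ⟨eo, e_eo⟩ : ∃ zz : ℝ, zz = Real.exp (-(q2 * rl * c5)) := ⟨_, rfl⟩
  obtain ⟨wMo, e_wMo⟩ : ∃ zz : ℝ, zz = eo * (w + ibo) := ⟨_, rfl⟩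
  obtain ⟨u, e_u⟩ : ∃ zz : ℝ, zz = Real.exp (-(q2 * rl)) := ⟨_, rfl⟩
  obtain ⟨ls, e_ls⟩ : ∃ zz : ℝ, zz = w * V1 * wMo := ⟨_, rfl⟩
  obtain ⟨D2, e_D2⟩ : ∃ zz : ℝ, zz = l1 * l1 * Wie + ((1 : ℝ) - 2 * (k * l1 * wse)) := ⟨_, rfl⟩
  obtain ⟨xP, e_xP⟩ : ∃ zz : ℝ, zz = R2 + 2 * (k * RW * wse) := ⟨_, rfl⟩
  obtain ⟨DP, e_DP⟩ : ∃ zz : ℝ, zz = (1 : ℝ) + xP * ((1 / 2 : ℝ) - xP * ((1 / 8 : ℝ) - (1 / 16) * xP)) := ⟨_, rfl⟩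
  obtain ⟨an, e_an⟩ : ∃ zz : ℝ, zz = (51 / 2048) * ta + (871 / 16384 : ℝ) := ⟨_, rfl⟩
  obtain ⟨an1, e_an1⟩ : ∃ zz : ℝ, zz = (3 / 4096) * ta + (861 / 16384 : ℝ) := ⟨_, rfl⟩
  obtain ⟨X, e_X⟩ : ∃ zz : ℝ, zz = 4 * (an * (4 * it + k)⁻¹ * DP) := ⟨_, rfl⟩
  obtain ⟨iX, e_iX⟩ : ∃ zz : ℝ, zz = ((1 : ℝ) - X)⁻¹ := ⟨_, rfl⟩
  obtain ⟨G, e_G⟩ : ∃ zz : ℝ, zz = (2 : ℝ) - (1 / 4) * y2 + (2731 / 524288) * (y2 * y2) + (859 / 1048576) * ((1 / 4) * y2 * ((1 / 4) * y2) * ((1 / 4) * y2) * ((1 / 4) * y2 * ((1 / 4) * y2) * ((1 / 4) * y2))) := ⟨_, rfl⟩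
  obtain ⟨n1, e_n1⟩ : ∃ zz : ℝ, zz = G + W * RW + Real.exp (ls + (314573 / 524288) * (W * V1)) - (1 : ℝ) := ⟨_, rfl⟩
  obtain ⟨lsp, e_lsp⟩ : ∃ zz : ℝ, zz = ls + n1 * (X * iX) := ⟨_, rfl⟩
  obtain ⟨lspS, e_lspS⟩ : ∃ zz : ℝ, zz = lsp * it := ⟨_, rfl⟩
  obtain ⟨ielf, e_ielf⟩ : ∃ zz : ℝ, zz = (9 / 2) * ie + (43691 / 524288) * se := ⟨_, rfl⟩
  obtain ⟨uX, e_uX⟩ : ∃ zz : ℝ, zz = u * X := ⟨_, rfl⟩
  obtain ⟨ielfp, e_ielfp⟩ : ∃ zz : ℝ, zz = ielf + ie * (uX * ((1 : ℝ) - uX)⁻¹) := ⟨_, rfl⟩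
  obtain ⟨rh, e_rh⟩ : ∃ zz : ℝ, zz = RW * W := ⟨_, rfl⟩
  obtain ⟨zb, e_zb⟩ : ∃ zz : ℝ, zz = Real.exp ((1 / 2) * Real.log (rh * rh + y2 + (1 / 64 : ℝ))) := ⟨_, rfl⟩
  obtain ⟨zbS, e_zbS⟩ : ∃ zz : ℝ, zz = zb * it := ⟨_, rfl⟩
  obtain ⟨fac, e_fac⟩ : ∃ zz : ℝ, zz = (1 / 2) * (zb * ie) + (1064305 / 1048576 : ℝ) := ⟨_, rfl⟩
  obtain ⟨Q, e_Q⟩ : ∃ zz : ℝ, zz = fac * ((1 / 2) * wse * D2 * (zbS + (2149581 / 1048576) * k) + (zbS + (1 / 2) * (k * K)) * lspS + k2 * ((445645 / 262144) * (ie * lsp) + (576717 / 262144) * ielfp)) := ⟨_, rfl⟩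
  obtain ⟨E, e_E⟩ : ∃ zz : ℝ, zz = Q * W := ⟨_, rfl⟩
  obtain ⟨Qw, e_Qw⟩ : ∃ zz : ℝ, zz = Q * wse := ⟨_, rfl⟩
  obtain ⟨c2, e_c2⟩ : ∃ zz : ℝ, zz = c5 - 2 * Qw := ⟨_, rfl⟩
  obtain ⟨zd, e_zd⟩ : ∃ zz : ℝ, zz = 2 * (Kq * (1037 / 256 : ℝ)) := ⟨_, rfl⟩
  obtain ⟨izd, e_izd⟩ : ∃ zz : ℝ, zz = (zd * zd * ((1 : ℝ) * (3 : ℝ)⁻¹) + (1 : ℝ))⁻¹ := ⟨_, rfl⟩
  obtain ⟨thd, e_thd⟩ : ∃ zz : ℝ, zz = zd * izd := ⟨_, rfl⟩
  obtain ⟨ld, e_ld⟩ : ∃ zz : ℝ, zz = q6 * (1037 / 256 : ℝ) * izd * ((1 / 4) * (thd * thd) + (1 : ℝ)) := ⟨_, rfl⟩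
  obtain ⟨ze, e_ze⟩ : ∃ zz : ℝ, zz = 2 * (Kq * (1293 / 256 : ℝ)) := ⟨_, rfl⟩
  obtain ⟨ize, e_ize⟩ : ∃ zz : ℝ, zz = (ze * ze * ((1 : ℝ) * (3 : ℝ)⁻¹) + (1 : ℝ))⁻¹ := ⟨_, rfl⟩
  obtain ⟨the, e_the⟩ : ∃ zz : ℝ, zz = ze * ize := ⟨_, rfl⟩
  obtain ⟨le, e_le⟩ : ∃ zz : ℝ, zz = q6 * (1293 / 256 : ℝ) * ize * ((1 / 4) * (the * the) + (1 : ℝ)) := ⟨_, rfl⟩
  obtain ⟨cd5, e_cd5⟩ : ∃ zz : ℝ, zz = c2 * c5 := ⟨_, rfl⟩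
  obtain ⟨xxn, e_xxn⟩ : ∃ zz : ℝ, zz = (-cd5) + (1 : ℝ) := ⟨_, rfl⟩
  obtain ⟨rcn, e_rcn⟩ : ∃ zz : ℝ, zz = (1 / 2) * xxn * (-(xxn + (1 : ℝ))) + (1 : ℝ) := ⟨_, rfl⟩
  obtain ⟨bnn, e_bnn⟩ : ∃ zz : ℝ, zz = sp * rcn := ⟨_, rfl⟩
  obtain ⟨wsn, e_wsn⟩ : ∃ zz : ℝ, zz = bnn * w := ⟨_, rfl⟩
  obtain ⟨bn, e_bn⟩ : ∃ zz : ℝ, zz = bnn * ((1 / 2) * wsn + ((1482911 / 16777216) * (wsn * wsn) + (1482911 / 1048576 : ℝ)))⁻¹ := ⟨_, rfl⟩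
  obtain ⟨ibn, e_ibn⟩ : ∃ zz : ℝ, zz = (bn + (1 / 2) * (q * w * cd5 * le))⁻¹ := ⟨_, rfl⟩
  obtain ⟨u1, e_u1⟩ : ∃ zz : ℝ, zz = Real.exp (-(q2 * ld * W * c2)) := ⟨_, rfl⟩
  obtain ⟨m1, e_m1⟩ : ∃ zz : ℝ, zz = u1 * (w + ibn) := ⟨_, rfl⟩
  obtain ⟨EM, e_EM⟩ : ∃ zz : ℝ, zz = Q * (W + w * m1) := ⟨_, rfl⟩
  obtain ⟨i2, e_i2⟩ : ∃ zz : ℝ, zz = ((1 : ℝ) - (1 / 2) * EM)⁻¹ := ⟨_, rfl⟩
  obtain ⟨eta, e_eta⟩ : ∃ zz : ℝ, zz = ((1 / 2) * EM + (1 : ℝ)) * i2 := ⟨_, rfl⟩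
  obtain ⟨t1, e_t1⟩ : ∃ zz : ℝ, zz = EM * i2 * (it + (1 / 4) * k) := ⟨_, rfl⟩
  obtain ⟨p_rr, ch0⟩ := ((((((((h
    (1 : ℝ) zc_1099511627776_0
    (3 : ℝ) zc_3298534883328_0).2
    ((3 : ℝ)⁻¹) rfl
    ((1 : ℝ) * (3 : ℝ)⁻¹) rfl
    se e_se
    ie e_ie
    K e_K
    K2 e_K2
    (6 : ℝ) zc_6597069766656_0).2
    ((6 : ℝ)⁻¹) rfl
    ((1 : ℝ) * (6 : ℝ)⁻¹) rfl
    (K2 * ((1 : ℝ) * (6 : ℝ)⁻¹)) rfl
    q6 e_q6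
    Kq e_Kq
    Yt (e_Yt.trans (congrArg (fun y : ℝ => y * ta) zc_3848290697216_0))
    Y2 e_Y2
    (1 / 2 : ℝ) zc_549755813888_0
    ((1 / 8) * Y2) (congrArg (fun y : ℝ => y * Y2) zc_137438953472_0)
    ((1 / 2 : ℝ) - (1 / 8) * Y2) rfl
    (Y2 * ((1 / 2 : ℝ) - (1 / 8) * Y2)) rfl
    ((1 : ℝ) + Y2 * ((1 / 2 : ℝ) - (1 / 8) * Y2)) rfl).2
    (((1 : ℝ) + Y2 * ((1 / 2 : ℝ) - (1 / 8) * Y2))⁻¹) rfl
    wm e_wm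
    wm2 e_wm2
    wse0 e_wse0
    (4095 / 4096 : ℝ) zc_1099243192320_0
    ((1449 / 512) * wse0) (congrArg (fun y : ℝ => y * wse0) zc_3111703805952_0)
    ((4095 / 4096 : ℝ) - (1449 / 512) * wse0) rfl
    (23 * ie) (congrArg (fun y : ℝ => y * ie) zc_25288767438848_0)
    ((4095 / 4096 : ℝ) - (1449 / 512) * wse0 - 23 * ie) rfl
    ((1 / 2) * K2) (congrArg (fun y : ℝ => y * K2) zc_549755813888_0)
    q e_q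
    ((2899 / 2048) * wse0) (congrArg (fun y : ℝ => y * wse0) zc_1556388773888_0)
    ((4095 / 4096 : ℝ) - (2899 / 2048) * wse0) rfl
    (19 * ie) (congrArg (fun y : ℝ => y * ie) zc_20890720927744_0)
    ((4095 / 4096 : ℝ) - (2899 / 2048) * wse0 - 19 * ie) rfl
    ((553 / 1024) * K2) (congrArg (fun y : ℝ => y * K2) zc_593779228672_0)
    sp e_sp
    y2 e_y2
    (ta * ta) rfl
    (y2 * (ta * ta)) rfl
    sg2 e_sg2).2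
    (Real.log sg2) rfl
    lsg (e_lsg.trans (congrArg (fun y : ℝ => y * Real.log sg2) zc_549755813888_0))
    (Real.exp lsg) rfl
    w e_w
    (-lsg) rfl
    k e_k
    W e_W
    it e_it
    k2 e_k2
    wse e_wse
    Wie e_Wie
    (8 * ie) (congrArg (fun y : ℝ => y * ie) zc_8796093022208_0)
    (q - 8 * ie) rfl
    ((3149 / 256) * wm2) (congrArg (fun y : ℝ => y * wm2) zc_13524852015104_0)
    (3149 / 1024 : ℝ) zc_3381213003776_0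
    ((3149 / 256) * wm2 + (3149 / 1024 : ℝ)) rfl
    (Wie * ((3149 / 256) * wm2 + (3149 / 1024 : ℝ))) rfl
    q2 e_q2
    ie2 e_ie2
    (500 * ie2) (congrArg (fun y : ℝ => y * ie2) zc_549755813888000_0)
    c5 e_c5
    (560 * ie2) (congrArg (fun y : ℝ => y * ie2) zc_615726511554560_0)
    (560 * ie2 + (1 : ℝ)) rfl
    RW (e_RW.trans (congrArg (fun y : ℝ => y * (560 * ie2 + (1 : ℝ))) zc_5435281113088_0))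
    (RW * RW) rfl
    R2 e_R2
    V1 e_V1
    (13173 / 4096 : ℝ) zc_3536100261888_0
    (Kq * (13173 / 4096 : ℝ)) rfl
    z1 (e_z1.trans (congrArg (fun y : ℝ => y * (Kq * (13173 / 4096 : ℝ))) zc_2199023255552_0))
    (z1 * z1) rfl
    (z1 * z1 * ((1 : ℝ) * (3 : ℝ)⁻¹)) rfl
    (z1 * z1 * ((1 : ℝ) * (3 : ℝ)⁻¹) + (1 : ℝ)) rfl).2
    iz1 e_iz1
    th1 e_th1
    (q6 * (13173 / 4096 : ℝ)) rfl
    (q6 * (13173 / 4096 : ℝ) * iz1) rfl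
    (th1 * th1) rfl
    ((1 / 4) * (th1 * th1)) (congrArg (fun y : ℝ => y * (th1 * th1)) zc_274877906944_0)
    ((1 / 4) * (th1 * th1) + (1 : ℝ)) rfl
    l1 e_l1
    (17269 / 4096 : ℝ) zc_4635611889664_0
    (Kq * (17269 / 4096 : ℝ)) rfl
    z2 (e_z2.trans (congrArg (fun y : ℝ => y * (Kq * (17269 / 4096 : ℝ))) zc_2199023255552_0))
    (z2 * z2) rfl
    (z2 * z2 * ((1 : ℝ) * (3 : ℝ)⁻¹)) rfl
    (z2 * z2 * ((1 : ℝ) * (3 : ℝ)⁻¹) + (1 : ℝ)) rfl).2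
    iz2 e_iz2
    th2 e_th2
    (q6 * (17269 / 4096 : ℝ)) rfl
    (q6 * (17269 / 4096 : ℝ) * iz2) rfl
    (th2 * th2) rfl
    ((1 / 4) * (th2 * th2)) (congrArg (fun y : ℝ => y * (th2 * th2)) zc_274877906944_0)
    ((1 / 4) * (th2 * th2) + (1 : ℝ)) rfl
    l2 e_l2
    rl e_rl
    cc5 e_cc5
    (-cc5) rfl
    xxo e_xxo
    ((1 / 2) * xxo) (congrArg (fun y : ℝ => y * xxo) zc_549755813888_0)
    (xxo + (1 : ℝ)) rfl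
    (-(xxo + (1 : ℝ))) rfl
    ((1 / 2) * xxo * (-(xxo + (1 : ℝ)))) rfl
    rco e_rco
    bno e_bno
    (q * w) rfl
    (q * w * cc5) rfl
    (q * w * cc5 * l2) rfl
    ((1 / 2) * (q * w * cc5 * l2)) (congrArg (fun y : ℝ => y * (q * w * cc5 * l2)) zc_549755813888_0)
    wso e_wso
    ((1 / 2) * wso) (congrArg (fun y : ℝ => y * wso) zc_549755813888_0)
    (wso * wso) rfl
    ((1482911 / 16777216) * (wso * wso)) (congrArg (fun y : ℝ => y * (wso * wso)) zc_97184055296_0)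
    (1482911 / 1048576 : ℝ) zc_1554944884736_0
    ((1482911 / 16777216) * (wso * wso) + (1482911 / 1048576 : ℝ)) rfl
    ((1 / 2) * wso + ((1482911 / 16777216) * (wso * wso) + (1482911 / 1048576 : ℝ))) rfl).2
    (((1 / 2) * wso + ((1482911 / 16777216) * (wso * wso) + (1482911 / 1048576 : ℝ)))⁻¹) rfl
    bo e_bo
    (bo + (1 / 2) * (q * w * cc5 * l2)) rfl).2
    ibo e_ibo
    (q2 * rl) rfl
    (q2 * rl * c5) rfl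
    (-(q2 * rl * c5)) rfl
    eo e_eo
    (w + ibo) rfl
    wMo e_wMo
    (-(q2 * rl)) rfl
    u e_u
    (w * V1) rfl
    ls e_ls
    (l1 * l1) rfl
    (l1 * l1 * Wie) rfl
    (k * l1) rfl
    (k * l1 * wse) rfl
    (2 * (k * l1 * wse)) (congrArg (fun y : ℝ => y * (k * l1 * wse)) zc_2199023255552_0)
    ((1 : ℝ) - 2 * (k * l1 * wse)) rfl
    D2 e_D2
    (2 * k) (congrArg (fun y : ℝ => y * k) zc_2199023255552_0)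
    (RW + l1) rfl
    (wse * (RW + l1)) rfl
    (2 * k - wse * (RW + l1)) rfl
  change 0 < 2 * k - wse * (RW + l1) at p_rr
  obtain ⟨p_X1, ch1⟩ := (ch0
    (k * RW) rfl
    (k * RW * wse) rfl
    (2 * (k * RW * wse)) (congrArg (fun y : ℝ => y * (k * RW * wse)) zc_2199023255552_0)
    xP e_xP
    (1 / 8 : ℝ) zc_137438953472_0
    ((1 / 16) * xP) (congrArg (fun y : ℝ => y * xP) zc_68719476736_0)
    ((1 / 8 : ℝ) - (1 / 16) * xP) rfl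
    (xP * ((1 / 8 : ℝ) - (1 / 16) * xP)) rfl
    ((1 / 2 : ℝ) - xP * ((1 / 8 : ℝ) - (1 / 16) * xP)) rfl
    (xP * ((1 / 2 : ℝ) - xP * ((1 / 8 : ℝ) - (1 / 16) * xP))) rfl
    DP e_DP
    ((51 / 2048) * ta) (congrArg (fun y : ℝ => y * ta) zc_27380416512_0)
    (871 / 16384 : ℝ) zc_58451820544_0
    an e_an
    ((3 / 4096) * ta) (congrArg (fun y : ℝ => y * ta) zc_805306368_0)
    (861 / 16384 : ℝ) zc_57780731904_0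
    an1 e_an1
    (4 * it) (congrArg (fun y : ℝ => y * it) zc_4398046511104_0)
    (4 * it + k) rfl).2
    ((4 * it + k)⁻¹) rfl
    (an * (4 * it + k)⁻¹) rfl
    (an * (4 * it + k)⁻¹ * DP) rfl
    X (e_X.trans (congrArg (fun y : ℝ => y * (an * (4 * it + k)⁻¹ * DP)) zc_4398046511104_0))
    ((1 : ℝ) - X) rfl
  change 0 < (1 : ℝ) - X at p_X1
  obtain ⟨p_q20, ch2⟩ := (((ch1).2
    iX e_iX
    (2 : ℝ) zc_2199023255552_0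
    ((1 / 4) * y2) (congrArg (fun y : ℝ => y * y2) zc_274877906944_0)
    ((2 : ℝ) - (1 / 4) * y2) rfl
    (y2 * y2) rfl
    ((2731 / 524288) * (y2 * y2)) (congrArg (fun y : ℝ => y * (y2 * y2)) zc_5727322112_0)
    ((2 : ℝ) - (1 / 4) * y2 + (2731 / 524288) * (y2 * y2)) rfl
    ((1 / 4) * y2 * ((1 / 4) * y2)) rfl
    ((1 / 4) * y2 * ((1 / 4) * y2) * ((1 / 4) * y2)) rfl
    ((1 / 4) * y2 * ((1 / 4) * y2) * ((1 / 4) * y2) * ((1 / 4) * y2 * ((1 / 4) * y2) * ((1 / 4) * y2))) rfl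
    ((859 / 1048576) * ((1 / 4) * y2 * ((1 / 4) * y2) * ((1 / 4) * y2) * ((1 / 4) * y2 * ((1 / 4) * y2) * ((1 / 4) * y2)))) (congrArg (fun y : ℝ => y * ((1 / 4) * y2 * ((1 / 4) * y2) * ((1 / 4) * y2) * ((1 / 4) * y2 * ((1 / 4) * y2) * ((1 / 4) * y2)))) zc_900726784_0)
    G e_G
    (W * RW) rfl
    (G + W * RW) rfl
    (W * V1) rfl
    ((314573 / 524288) * (W * V1)) (congrArg (fun y : ℝ => y * (W * V1)) zc_659707396096_0)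
    (ls + (314573 / 524288) * (W * V1)) rfl
    (Real.exp (ls + (314573 / 524288) * (W * V1))) rfl
    (G + W * RW + Real.exp (ls + (314573 / 524288) * (W * V1))) rfl
    n1 e_n1
    (X * iX) rfl
    (n1 * (X * iX)) rfl
    lsp e_lsp
    lspS e_lspS
    ((9 / 2) * ie) (congrArg (fun y : ℝ => y * ie) zc_4947802324992_0)
    ((43691 / 524288) * se) (congrArg (fun y : ℝ => y * se) zc_91626668032_0)
    ielf e_ielf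
    uX e_uX
    ((1 : ℝ) - uX) rfl).2
    (((1 : ℝ) - uX)⁻¹) rfl
    (uX * ((1 : ℝ) - uX)⁻¹) rfl
    (ie * (uX * ((1 : ℝ) - uX)⁻¹)) rfl
    ielfp e_ielfp
    rh e_rh
    (rh * rh) rfl
    (rh * rh + y2) rfl
    (1 / 64 : ℝ) zc_17179869184_0
    (rh * rh + y2 + (1 / 64 : ℝ)) rfl).2
    (Real.log (rh * rh + y2 + (1 / 64 : ℝ))) rfl
    ((1 / 2) * Real.log (rh * rh + y2 + (1 / 64 : ℝ))) (congrArg (fun y : ℝ => y * Real.log (rh * rh + y2 + (1 / 64 : ℝ))) zc_549755813888_0)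
    zb e_zb
    zbS e_zbS
    (zb * ie) rfl
    ((1 / 2) * (zb * ie)) (congrArg (fun y : ℝ => y * (zb * ie)) zc_549755813888_0)
    (1064305 / 1048576 : ℝ) zc_1116004679680_0
    fac e_fac
    ((1 / 2) * wse) (congrArg (fun y : ℝ => y * wse) zc_549755813888_0)
    ((1 / 2) * wse * D2) rfl
    ((2149581 / 1048576) * k) (congrArg (fun y : ℝ => y * k) zc_2253999046656_0)
    (zbS + (2149581 / 1048576) * k) rfl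
    ((1 / 2) * wse * D2 * (zbS + (2149581 / 1048576) * k)) rfl
    (k * K) rfl
    ((1 / 2) * (k * K)) (congrArg (fun y : ℝ => y * (k * K)) zc_549755813888_0)
    (zbS + (1 / 2) * (k * K)) rfl
    ((zbS + (1 / 2) * (k * K)) * lspS) rfl
    ((1 / 2) * wse * D2 * (zbS + (2149581 / 1048576) * k) + (zbS + (1 / 2) * (k * K)) * lspS) rfl
    (ie * lsp) rfl
    ((445645 / 262144) * (ie * lsp)) (congrArg (fun y : ℝ => y * (ie * lsp)) zc_1869170606080_0)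
    ((576717 / 262144) * ielfp) (congrArg (fun y : ℝ => y * ielfp) zc_2418926419968_0)
    ((445645 / 262144) * (ie * lsp) + (576717 / 262144) * ielfp) rfl
    (k2 * ((445645 / 262144) * (ie * lsp) + (576717 / 262144) * ielfp)) rfl
    ((1 / 2) * wse * D2 * (zbS + (2149581 / 1048576) * k) + (zbS + (1 / 2) * (k * K)) * lspS + k2 * ((445645 / 262144) * (ie * lsp) + (576717 / 262144) * ielfp)) rfl
    Q e_Q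
    E e_E
    Qw e_Qw
    (2 * Qw) (congrArg (fun y : ℝ => y * Qw) zc_2199023255552_0)
    c2 e_c2
  change 0 < q2 at p_q20
  obtain ⟨p_Es, ch3⟩ := ch2
    ((1 : ℝ) - Qw) rfl
  change 0 < (1 : ℝ) - Qw at p_Es
  obtain ⟨p_c20, ch4⟩ := ch3
  change 0 < c2 at p_c20
  obtain ⟨p_RH, ch5⟩ := ch4
    (3149 / 512 : ℝ) zc_6762426007552_0
    ((3149 / 512 : ℝ) - RW) rfl
    ((3149 / 512 : ℝ) - RW - Q) rfl
    (Qw + (1 : ℝ)) rfl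
    ((Qw + (1 : ℝ)) * (Qw + (1 : ℝ))) rfl
    ((3149 / 512 : ℝ) - RW - Q - (Qw + (1 : ℝ)) * (Qw + (1 : ℝ))) rfl
  change 0 < (3149 / 512 : ℝ) - RW - Q - (Qw + (1 : ℝ)) * (Qw + (1 : ℝ)) at p_RH
  obtain ⟨p_h9, ch6⟩ := ch5
    ((9646899 / 1048576) * c2) (congrArg (fun y : ℝ => y * c2) zc_10115506765824_0)
    ((9646899 / 1048576) * c2 - (3149 / 512 : ℝ)) rfl
  change 0 < (9646899 / 1048576) * c2 - (3149 / 512 : ℝ) at p_h9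
  obtain ⟨p_h2, ch7⟩ := ch6
    ((471859 / 524288) * c2) (congrArg (fun y : ℝ => y * c2) zc_989560045568_0)
    ((154941 / 4096) * Wie) (congrArg (fun y : ℝ => y * Wie) zc_41591657988096_0)
    ((471859 / 524288) * c2 - (154941 / 4096) * Wie) rfl
  change 0 < (471859 / 524288) * c2 - (154941 / 4096) * Wie at p_h2
  obtain ⟨p_Er, ch8⟩ := ch7
    (l1 - Q) rfl
  change 0 < l1 - Q at p_Er
  obtain ⟨p_dr, ch9⟩ := ch8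
    ((677 / 4096) * q6) (congrArg (fun y : ℝ => y * q6) zc_181730803712_0)
    ((677 / 4096) * q6 * ((1 : ℝ) - Qw)) rfl
    ((13173 / 4096) * K) (congrArg (fun y : ℝ => y * K) zc_3536100261888_0)
    (2 * ((13173 / 4096) * K)) (congrArg (fun y : ℝ => y * ((13173 / 4096) * K)) zc_2199023255552_0)
    (Real.exp (2 * ((13173 / 4096) * K))) rfl
    (Q * Real.exp (2 * ((13173 / 4096) * K))) rfl
    ((677 / 4096) * q6 * ((1 : ℝ) - Qw) - Q * Real.exp (2 * ((13173 / 4096) * K))) rfl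
  change 0 < (677 / 4096) * q6 * ((1 : ℝ) - Qw) - Q * Real.exp (2 * ((13173 / 4096) * K)) at p_dr
  obtain ⟨p_La, ch10⟩ := ch9
    ((1 : ℝ) - 2 * Qw) rfl
    ((83 / 16) * ((1 : ℝ) - 2 * Qw)) (congrArg (fun y : ℝ => y * ((1 : ℝ) - 2 * Qw)) zc_5703716569088_0)
    ((83 / 16) * ((1 : ℝ) - 2 * Qw) - RW) rfl
    ((83 / 16) * ((1 : ℝ) - 2 * Qw) - RW - Q) rfl
  change 0 < (83 / 16) * ((1 : ℝ) - 2 * Qw) - RW - Q at p_La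
  obtain ⟨p_l1, ch11⟩ := ch10
    (-(ie * lsp)) rfl
    (10485 / 1048576 : ℝ) zc_10994319360_0
    ((-(ie * lsp)) + (10485 / 1048576 : ℝ)) rfl
  change 0 < (-(ie * lsp)) + (10485 / 1048576 : ℝ) at p_l1
  obtain ⟨p_l2, ch12⟩ := ch11
    (-ielfp) rfl
    (20971 / 1048576 : ℝ) zc_21989687296_0
    ((-ielfp) + (20971 / 1048576 : ℝ)) rfl
  change 0 < (-ielfp) + (20971 / 1048576 : ℝ) at p_l2
  obtain ⟨p_z1, ch13⟩ := ch12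
    (-(zb * ie)) rfl
    (104857 / 1048576 : ℝ) zc_109950533632_0
    ((-(zb * ie)) + (104857 / 1048576 : ℝ)) rfl
  change 0 < (-(zb * ie)) + (104857 / 1048576 : ℝ) at p_z1
  obtain ⟨p_E1, ch14⟩ := ch13
    (E * ie) rfl
    (-(E * ie)) rfl
    (2621 / 524288 : ℝ) zc_5496635392_0
    ((-(E * ie)) + (2621 / 524288 : ℝ)) rfl
  change 0 < (-(E * ie)) + (2621 / 524288 : ℝ) at p_E1
  obtain ⟨p_y, ch15⟩ := ch14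
    (-E) rfl
    ((-E) - y) rfl
    ((517 / 256) * K) (congrArg (fun y : ℝ => y * K) zc_2220498092032_0)
    ((-E) - y + (517 / 256) * K) rfl
    (13463 / 4096 : ℝ) zc_3613946544128_0
    ((-E) - y + (517 / 256) * K + (13463 / 4096 : ℝ)) rfl
  change 0 < (-E) - y + (517 / 256) * K + (13463 / 4096 : ℝ) at p_y
  obtain ⟨p_yY, ch16⟩ := ch15
    (7 / 2 : ℝ) zc_3848290697216_0
    ((-E) - y + (7 / 2 : ℝ)) rfl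
  change 0 < (-E) - y + (7 / 2 : ℝ) at p_yY
  obtain ⟨p_EM2, ch17⟩ := ((((ch16
    (1037 / 256 : ℝ) zc_4453881085952_0
    (Kq * (1037 / 256 : ℝ)) rfl
    zd (e_zd.trans (congrArg (fun y : ℝ => y * (Kq * (1037 / 256 : ℝ))) zc_2199023255552_0))
    (zd * zd) rfl
    (zd * zd * ((1 : ℝ) * (3 : ℝ)⁻¹)) rfl
    (zd * zd * ((1 : ℝ) * (3 : ℝ)⁻¹) + (1 : ℝ)) rfl).2
    izd e_izd
    thd e_thd
    (q6 * (1037 / 256 : ℝ)) rfl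
    (q6 * (1037 / 256 : ℝ) * izd) rfl
    (thd * thd) rfl
    ((1 / 4) * (thd * thd)) (congrArg (fun y : ℝ => y * (thd * thd)) zc_274877906944_0)
    ((1 / 4) * (thd * thd) + (1 : ℝ)) rfl
    ld e_ld
    (1293 / 256 : ℝ) zc_5553392713728_0
    (Kq * (1293 / 256 : ℝ)) rfl
    ze (e_ze.trans (congrArg (fun y : ℝ => y * (Kq * (1293 / 256 : ℝ))) zc_2199023255552_0))
    (ze * ze) rfl
    (ze * ze * ((1 : ℝ) * (3 : ℝ)⁻¹)) rfl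
    (ze * ze * ((1 : ℝ) * (3 : ℝ)⁻¹) + (1 : ℝ)) rfl).2
    ize e_ize
    the e_the
    (q6 * (1293 / 256 : ℝ)) rfl
    (q6 * (1293 / 256 : ℝ) * ize) rfl
    (the * the) rfl
    ((1 / 4) * (the * the)) (congrArg (fun y : ℝ => y * (the * the)) zc_274877906944_0)
    ((1 / 4) * (the * the) + (1 : ℝ)) rfl
    le e_le
    cd5 e_cd5
    (-cd5) rfl
    xxn e_xxn
    ((1 / 2) * xxn) (congrArg (fun y : ℝ => y * xxn) zc_549755813888_0)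
    (xxn + (1 : ℝ)) rfl
    (-(xxn + (1 : ℝ))) rfl
    ((1 / 2) * xxn * (-(xxn + (1 : ℝ)))) rfl
    rcn e_rcn
    bnn e_bnn
    (q * w * cd5) rfl
    (q * w * cd5 * le) rfl
    ((1 / 2) * (q * w * cd5 * le)) (congrArg (fun y : ℝ => y * (q * w * cd5 * le)) zc_549755813888_0)
    wsn e_wsn
    ((1 / 2) * wsn) (congrArg (fun y : ℝ => y * wsn) zc_549755813888_0)
    (wsn * wsn) rfl
    ((1482911 / 16777216) * (wsn * wsn)) (congrArg (fun y : ℝ => y * (wsn * wsn)) zc_97184055296_0)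
    ((1482911 / 16777216) * (wsn * wsn) + (1482911 / 1048576 : ℝ)) rfl
    ((1 / 2) * wsn + ((1482911 / 16777216) * (wsn * wsn) + (1482911 / 1048576 : ℝ))) rfl).2
    (((1 / 2) * wsn + ((1482911 / 16777216) * (wsn * wsn) + (1482911 / 1048576 : ℝ)))⁻¹) rfl
    bn e_bn
    (bn + (1 / 2) * (q * w * cd5 * le)) rfl).2
    ibn e_ibn
    (q2 * ld) rfl
    (q2 * ld * W) rfl
    (q2 * ld * W * c2) rfl
    (-(q2 * ld * W * c2)) rfl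
    u1 e_u1
    (w + ibn) rfl
    m1 e_m1
    (w * m1) rfl
    (W + w * m1) rfl
    EM e_EM
    ((1 / 2) * EM) (congrArg (fun y : ℝ => y * EM) zc_549755813888_0)
    ((1 : ℝ) - (1 / 2) * EM) rfl
  change 0 < (1 : ℝ) - (1 / 2) * EM at p_EM2
  obtain ⟨p_cl, ch18⟩ := (ch17).2
    i2 e_i2
    ((1 / 2) * EM + (1 : ℝ)) rfl
    eta e_eta
    (EM * i2) rfl
    ((1 / 4) * k) (congrArg (fun y : ℝ => y * k) zc_274877906944_0)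
    (it + (1 / 4) * k) rfl
    t1 e_t1
    ((1 / 1024) * K) (congrArg (fun y : ℝ => y * K) zc_1073741824_0)
    ((1 : ℝ) - (1 / 1024) * K) rfl
    (((1 : ℝ) - (1 / 1024) * K) * an) rfl
    (((1 : ℝ) - (1 / 1024) * K) * an - t1) rfl
    (u1 * an1) rfl
    (eta * (u1 * an1)) rfl
    (V1 + Q) rfl
    (wse * (V1 + Q)) rfl
    (wse * (V1 + Q) + (1 : ℝ)) rfl
    (eta * (u1 * an1) * (wse * (V1 + Q) + (1 : ℝ))) rfl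
    (((1 : ℝ) - (1 / 1024) * K) * an - t1 - eta * (u1 * an1) * (wse * (V1 + Q) + (1 : ℝ))) rfl
  change 0 < ((1 : ℝ) - (1 / 1024) * K) * an - t1 - eta * (u1 * an1) * (wse * (V1 + Q) + (1 : ℝ)) at p_cl
  exact ⟨n1, ielf,
    ⟨se, ie, K, K2, q6, Kq, Yt, Y2, wm, wm2, wse0, q, sp, y2, sg2, lsg, w, k, W, it, k2, wse,
    Wie, q2, ie2, c5, RW, R2, V1, z1, iz1, th1, l1, z2, iz2, th2, l2, rl, cc5, xxo, rco, bno,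
    wso, bo, ibo, eo, wMo, u, ls, D2, xP, DP, an, an1, X, iX, lsp, lspS, uX, ielfp, rh, zb, zbS,
    fac, Q, E, Qw, c2, zd, izd, thd, ld, ze, ize, the, le, cd5, xxn, rcn, bnn, wsn, bn, ibn, u1,
    m1, EM, i2, eta, t1, e_se, e_ie, e_K, e_K2, e_q6, e_Kq, e_Yt, e_Y2, e_wm, e_wm2, e_wse0,
    e_q, e_sp, e_y2, e_sg2, e_lsg, e_w, e_k, e_W, e_it, e_k2, e_wse, e_Wie, e_q2, e_ie2, e_c5,
    e_RW, e_R2, e_V1, e_z1, e_iz1, e_th1, e_l1, e_z2, e_iz2, e_th2, e_l2, e_rl, e_cc5, e_xxo,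
    e_rco, e_bno, e_wso, e_bo, e_ibo, e_eo, e_wMo, e_u, e_ls, e_D2, e_xP, e_DP, e_an, e_an1,
    e_X, e_iX, e_lsp, e_lspS, e_uX, e_ielfp, e_rh, e_zb, e_zbS, e_fac, e_Q, e_E, e_Qw, e_c2,
    e_zd, e_izd, e_thd, e_ld, e_ze, e_ize, e_the, e_le, e_cd5, e_xxn, e_rcn, e_bnn, e_wsn, e_bn,
    e_ibn, e_u1, e_m1, e_EM, e_i2, e_eta, e_t1, p_rr, p_X1, p_q20, p_Es, p_c20, p_RH, p_h9,
    p_h2, p_Er, p_dr, p_La, p_l1, p_l2, p_z1, p_E1, p_y, p_yY, p_EM2, p_cl⟩,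
    ⟨⟨G, e_G, e_n1⟩⟩, ⟨⟨e_ielf⟩⟩⟩

theorem ex_LB2_u {om ta y : ℝ} (h : RAs Cert.LB2.prog1 [om, ta, y]) :
    ∃ n1 ielf : ℝ, ∃ P : PLB (cB 2) om ta y n1 ielf, Nonempty (PLBu P) ∧ Nonempty (PLBv P) := by
  obtain ⟨se, e_se⟩ : ∃ zz : ℝ, zz = om * ta := ⟨_, rfl⟩
  obtain ⟨ie, e_ie⟩ : ∃ zz : ℝ, zz = se * se := ⟨_, rfl⟩
  obtain ⟨K, e_K⟩ : ∃ zz : ℝ, zz = om * se := ⟨_, rfl⟩
  obtain ⟨K2, e_K2⟩ : ∃ zz : ℝ, zz = K * K := ⟨_, rfl⟩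
  obtain ⟨q6, e_q6⟩ : ∃ zz : ℝ, zz = (1 : ℝ) - K2 * ((1 : ℝ) * (6 : ℝ)⁻¹) := ⟨_, rfl⟩
  obtain ⟨Kq, e_Kq⟩ : ∃ zz : ℝ, zz = K * q6 := ⟨_, rfl⟩
  obtain ⟨Yt, e_Yt⟩ : ∃ zz : ℝ, zz = (7 / 2) * ta := ⟨_, rfl⟩
  obtain ⟨Y2, e_Y2⟩ : ∃ zz : ℝ, zz = Yt * Yt := ⟨_, rfl⟩
  obtain ⟨wm, e_wm⟩ : ∃ zz : ℝ, zz = Yt * ((1 : ℝ) + Y2 * ((1 / 2 : ℝ) - (1 / 8) * Y2))⁻¹ := ⟨_, rfl⟩
  obtain ⟨wm2, e_wm2⟩ : ∃ zz : ℝ, zz = wm * wm := ⟨_, rfl⟩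
  obtain ⟨wse0, e_wse0⟩ : ∃ zz : ℝ, zz = wm * se := ⟨_, rfl⟩
  obtain ⟨q, e_q⟩ : ∃ zz : ℝ, zz = (4095 / 4096 : ℝ) - (1449 / 512) * wse0 - 23 * ie - (1 / 2) * K2 := ⟨_, rfl⟩
  obtain ⟨sp, e_sp⟩ : ∃ zz : ℝ, zz = (4095 / 4096 : ℝ) - (2899 / 2048) * wse0 - 19 * ie - (553 / 1024) * K2 := ⟨_, rfl⟩
  obtain ⟨y2, e_y2⟩ : ∃ zz : ℝ, zz = y * y := ⟨_, rfl⟩
  obtain ⟨sg2, e_sg2⟩ : ∃ zz : ℝ, zz = y2 * (ta * ta) + (1 : ℝ) := ⟨_, rfl⟩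
  obtain ⟨lsg, e_lsg⟩ : ∃ zz : ℝ, zz = (1 / 2) * Real.log sg2 := ⟨_, rfl⟩
  obtain ⟨w, e_w⟩ : ∃ zz : ℝ, zz = om * Real.exp lsg := ⟨_, rfl⟩
  obtain ⟨k, e_k⟩ : ∃ zz : ℝ, zz = Real.exp (-lsg) := ⟨_, rfl⟩
  obtain ⟨W, e_W⟩ : ∃ zz : ℝ, zz = w * w := ⟨_, rfl⟩
  obtain ⟨it, e_it⟩ : ∃ zz : ℝ, zz = ta * k := ⟨_, rfl⟩
  obtain ⟨k2, e_k2⟩ : ∃ zz : ℝ, zz = k * k := ⟨_, rfl⟩
  obtain ⟨wse, e_wse⟩ : ∃ zz : ℝ, zz = w * se := ⟨_, rfl⟩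
  obtain ⟨Wie, e_Wie⟩ : ∃ zz : ℝ, zz = W * ie := ⟨_, rfl⟩
  obtain ⟨q2, e_q2⟩ : ∃ zz : ℝ, zz = q - 8 * ie - Wie * ((3149 / 256) * wm2 + (3149 / 1024 : ℝ)) := ⟨_, rfl⟩
  obtain ⟨ie2, e_ie2⟩ : ∃ zz : ℝ, zz = ie * ie := ⟨_, rfl⟩
  obtain ⟨c5, e_c5⟩ : ∃ zz : ℝ, zz = (1 : ℝ) - 500 * ie2 := ⟨_, rfl⟩
  obtain ⟨RW, e_RW⟩ : ∃ zz : ℝ, zz = (2531 / 512) * (560 * ie2 + (1 : ℝ)) := ⟨_, rfl⟩
  obtain ⟨R2, e_R2⟩ : ∃ zz : ℝ, zz = RW * RW * Wie := ⟨_, rfl⟩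
  obtain ⟨V1, e_V1⟩ : ∃ zz : ℝ, zz = R2 + (1 : ℝ) := ⟨_, rfl⟩
  obtain ⟨z1, e_z1⟩ : ∃ zz : ℝ, zz = 2 * (Kq * (13173 / 4096 : ℝ)) := ⟨_, rfl⟩
  obtain ⟨iz1, e_iz1⟩ : ∃ zz : ℝ, zz = (z1 * z1 * ((1 : ℝ) * (3 : ℝ)⁻¹) + (1 : ℝ))⁻¹ := ⟨_, rfl⟩
  obtain ⟨th1, e_th1⟩ : ∃ zz : ℝ, zz = z1 * iz1 := ⟨_, rfl⟩
  obtain ⟨l1, e_l1⟩ : ∃ zz : ℝ, zz = q6 * (13173 / 4096 : ℝ) * iz1 * ((1 / 4) * (th1 * th1) + (1 : ℝ)) := ⟨_, rfl⟩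
  obtain ⟨z2, e_z2⟩ : ∃ zz : ℝ, zz = 2 * (Kq * (17269 / 4096 : ℝ)) := ⟨_, rfl⟩
  obtain ⟨iz2, e_iz2⟩ : ∃ zz : ℝ, zz = (z2 * z2 * ((1 : ℝ) * (3 : ℝ)⁻¹) + (1 : ℝ))⁻¹ := ⟨_, rfl⟩
  obtain ⟨th2, e_th2⟩ : ∃ zz : ℝ, zz = z2 * iz2 := ⟨_, rfl⟩
  obtain ⟨l2, e_l2⟩ : ∃ zz : ℝ, zz = q6 * (17269 / 4096 : ℝ) * iz2 * ((1 / 4) * (th2 * th2) + (1 : ℝ)) := ⟨_, rfl⟩
  obtain ⟨rl, e_rl⟩ : ∃ zz : ℝ, zz = W * l1 := ⟨_, rfl⟩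
  obtain ⟨cc5, e_cc5⟩ : ∃ zz : ℝ, zz = c5 * c5 := ⟨_, rfl⟩
  obtain ⟨xxo, e_xxo⟩ : ∃ zz : ℝ, zz = (-cc5) + (1 : ℝ) := ⟨_, rfl⟩
  obtain ⟨rco, e_rco⟩ : ∃ zz : ℝ, zz = (1 / 2) * xxo * (-(xxo + (1 : ℝ))) + (1 : ℝ) := ⟨_, rfl⟩
  obtain ⟨bno, e_bno⟩ : ∃ zz : ℝ, zz = sp * rco := ⟨_, rfl⟩
  obtain ⟨wso, e_wso⟩ : ∃ zz : ℝ, zz = bno * w := ⟨_, rfl⟩
  obtain ⟨bo, e_bo⟩ : ∃ zz : ℝ, zz = bno * ((1 / 2) * wso + ((1482911 / 16777216) * (wso * wso) + (1482911 / 1048576 : ℝ)))⁻¹ := ⟨_, rfl⟩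
  obtain ⟨ibo, e_ibo⟩ : ∃ zz : ℝ, zz = (bo + (1 / 2) * (q * w * cc5 * l2))⁻¹ := ⟨_, rfl⟩
  obtain ⟨eo, e_eo⟩ : ∃ zz : ℝ, zz = Real.exp (-(q2 * rl * c5)) := ⟨_, rfl⟩
  obtain ⟨wMo, e_wMo⟩ : ∃ zz : ℝ, zz = eo * (w + ibo) := ⟨_, rfl⟩
  obtain ⟨u, e_u⟩ : ∃ zz : ℝ, zz = Real.exp (-(q2 * rl)) := ⟨_, rfl⟩
  obtain ⟨ls, e_ls⟩ : ∃ zz : ℝ, zz = w * V1 * wMo := ⟨_, rfl⟩
  obtain ⟨D2, e_D2⟩ : ∃ zz : ℝ, zz = l1 * l1 * Wie + ((1 : ℝ) - 2 * (k * l1 * wse)) := ⟨_, rfl⟩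
  obtain ⟨xP, e_xP⟩ : ∃ zz : ℝ, zz = R2 + 2 * (k * RW * wse) := ⟨_, rfl⟩
  obtain ⟨DP, e_DP⟩ : ∃ zz : ℝ, zz = (1 : ℝ) + xP * ((1 / 2 : ℝ) - xP * ((1 / 8 : ℝ) - (1 / 16) * xP)) := ⟨_, rfl⟩
  obtain ⟨an, e_an⟩ : ∃ zz : ℝ, zz = (51 / 2048) * ta + (871 / 16384 : ℝ) := ⟨_, rfl⟩
  obtain ⟨an1, e_an1⟩ : ∃ zz : ℝ, zz = (3 / 4096) * ta + (861 / 16384 : ℝ) := ⟨_, rfl⟩
  obtain ⟨X, e_X⟩ : ∃ zz : ℝ, zz = 4 * (an * (4 * it + k)⁻¹ * DP) := ⟨_, rfl⟩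
  obtain ⟨iX, e_iX⟩ : ∃ zz : ℝ, zz = ((1 : ℝ) - X)⁻¹ := ⟨_, rfl⟩
  obtain ⟨n1, e_n1⟩ : ∃ zz : ℝ, zz = u + (1 : ℝ) := ⟨_, rfl⟩
  obtain ⟨lsp, e_lsp⟩ : ∃ zz : ℝ, zz = ls + n1 * (X * iX) := ⟨_, rfl⟩
  obtain ⟨lspS, e_lspS⟩ : ∃ zz : ℝ, zz = lsp * it := ⟨_, rfl⟩
  obtain ⟨ielf, e_ielf⟩ : ∃ zz : ℝ, zz = ie * ((183501 / 262144 : ℝ) - Real.log ((1 : ℝ) - u)) := ⟨_, rfl⟩
  obtain ⟨uX, e_uX⟩ : ∃ zz : ℝ, zz = u * X := ⟨_, rfl⟩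
  obtain ⟨ielfp, e_ielfp⟩ : ∃ zz : ℝ, zz = ielf + ie * (uX * ((1 : ℝ) - uX)⁻¹) := ⟨_, rfl⟩
  obtain ⟨rh, e_rh⟩ : ∃ zz : ℝ, zz = RW * W := ⟨_, rfl⟩
  obtain ⟨zb, e_zb⟩ : ∃ zz : ℝ, zz = Real.exp ((1 / 2) * Real.log (rh * rh + y2 + (1 / 64 : ℝ))) := ⟨_, rfl⟩
  obtain ⟨zbS, e_zbS⟩ : ∃ zz : ℝ, zz = zb * it := ⟨_, rfl⟩
  obtain ⟨fac, e_fac⟩ : ∃ zz : ℝ, zz = (1 / 2) * (zb * ie) + (1064305 / 1048576 : ℝ) := ⟨_, rfl⟩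
  obtain ⟨Q, e_Q⟩ : ∃ zz : ℝ, zz = fac * ((1 / 2) * wse * D2 * (zbS + (2149581 / 1048576) * k) + (zbS + (1 / 2) * (k * K)) * lspS + k2 * ((445645 / 262144) * (ie * lsp) + (576717 / 262144) * ielfp)) := ⟨_, rfl⟩
  obtain ⟨E, e_E⟩ : ∃ zz : ℝ, zz = Q * W := ⟨_, rfl⟩
  obtain ⟨Qw, e_Qw⟩ : ∃ zz : ℝ, zz = Q * wse := ⟨_, rfl⟩
  obtain ⟨c2, e_c2⟩ : ∃ zz : ℝ, zz = c5 - 2 * Qw := ⟨_, rfl⟩
  obtain ⟨zd, e_zd⟩ : ∃ zz : ℝ, zz = 2 * (Kq * (1037 / 256 : ℝ)) := ⟨_, rfl⟩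
  obtain ⟨izd, e_izd⟩ : ∃ zz : ℝ, zz = (zd * zd * ((1 : ℝ) * (3 : ℝ)⁻¹) + (1 : ℝ))⁻¹ := ⟨_, rfl⟩
  obtain ⟨thd, e_thd⟩ : ∃ zz : ℝ, zz = zd * izd := ⟨_, rfl⟩
  obtain ⟨ld, e_ld⟩ : ∃ zz : ℝ, zz = q6 * (1037 / 256 : ℝ) * izd * ((1 / 4) * (thd * thd) + (1 : ℝ)) := ⟨_, rfl⟩
  obtain ⟨ze, e_ze⟩ : ∃ zz : ℝ, zz = 2 * (Kq * (1293 / 256 : ℝ)) := ⟨_, rfl⟩
  obtain ⟨ize, e_ize⟩ : ∃ zz : ℝ, zz = (ze * ze * ((1 : ℝ) * (3 : ℝ)⁻¹) + (1 : ℝ))⁻¹ := ⟨_, rfl⟩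
  obtain ⟨the, e_the⟩ : ∃ zz : ℝ, zz = ze * ize := ⟨_, rfl⟩
  obtain ⟨le, e_le⟩ : ∃ zz : ℝ, zz = q6 * (1293 / 256 : ℝ) * ize * ((1 / 4) * (the * the) + (1 : ℝ)) := ⟨_, rfl⟩
  obtain ⟨cd5, e_cd5⟩ : ∃ zz : ℝ, zz = c2 * c5 := ⟨_, rfl⟩
  obtain ⟨xxn, e_xxn⟩ : ∃ zz : ℝ, zz = (-cd5) + (1 : ℝ) := ⟨_, rfl⟩
  obtain ⟨rcn, e_rcn⟩ : ∃ zz : ℝ, zz = (1 / 2) * xxn * (-(xxn + (1 : ℝ))) + (1 : ℝ) := ⟨_, rfl⟩
  obtain ⟨bnn, e_bnn⟩ : ∃ zz : ℝ, zz = sp * rcn := ⟨_, rfl⟩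
  obtain ⟨wsn, e_wsn⟩ : ∃ zz : ℝ, zz = bnn * w := ⟨_, rfl⟩
  obtain ⟨bn, e_bn⟩ : ∃ zz : ℝ, zz = bnn * ((1 / 2) * wsn + ((1482911 / 16777216) * (wsn * wsn) + (1482911 / 1048576 : ℝ)))⁻¹ := ⟨_, rfl⟩
  obtain ⟨ibn, e_ibn⟩ : ∃ zz : ℝ, zz = (bn + (1 / 2) * (q * w * cd5 * le))⁻¹ := ⟨_, rfl⟩
  obtain ⟨u1, e_u1⟩ : ∃ zz : ℝ, zz = Real.exp (-(q2 * ld * W * c2)) := ⟨_, rfl⟩
  obtain ⟨m1, e_m1⟩ : ∃ zz : ℝ, zz = u1 * (w + ibn) := ⟨_, rfl⟩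
  obtain ⟨EM, e_EM⟩ : ∃ zz : ℝ, zz = Q * (W + w * m1) := ⟨_, rfl⟩
  obtain ⟨i2, e_i2⟩ : ∃ zz : ℝ, zz = ((1 : ℝ) - (1 / 2) * EM)⁻¹ := ⟨_, rfl⟩
  obtain ⟨eta, e_eta⟩ : ∃ zz : ℝ, zz = ((1 / 2) * EM + (1 : ℝ)) * i2 := ⟨_, rfl⟩
  obtain ⟨t1, e_t1⟩ : ∃ zz : ℝ, zz = EM * i2 * (it + (1 / 4) * k) := ⟨_, rfl⟩
  obtain ⟨p_rr, ch0⟩ := ((((((((h
    (1 : ℝ) zc_1099511627776_0
    (3 : ℝ) zc_3298534883328_0).2
    ((3 : ℝ)⁻¹) rfl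
    ((1 : ℝ) * (3 : ℝ)⁻¹) rfl
    se e_se
    ie e_ie
    K e_K
    K2 e_K2
    (6 : ℝ) zc_6597069766656_0).2
    ((6 : ℝ)⁻¹) rfl
    ((1 : ℝ) * (6 : ℝ)⁻¹) rfl
    (K2 * ((1 : ℝ) * (6 : ℝ)⁻¹)) rfl
    q6 e_q6
    Kq e_Kq
    Yt (e_Yt.trans (congrArg (fun y : ℝ => y * ta) zc_3848290697216_0))
    Y2 e_Y2
    (1 / 2 : ℝ) zc_549755813888_0
    ((1 / 8) * Y2) (congrArg (fun y : ℝ => y * Y2) zc_137438953472_0)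
    ((1 / 2 : ℝ) - (1 / 8) * Y2) rfl
    (Y2 * ((1 / 2 : ℝ) - (1 / 8) * Y2)) rfl
    ((1 : ℝ) + Y2 * ((1 / 2 : ℝ) - (1 / 8) * Y2)) rfl).2
    (((1 : ℝ) + Y2 * ((1 / 2 : ℝ) - (1 / 8) * Y2))⁻¹) rfl
    wm e_wm
    wm2 e_wm2
    wse0 e_wse0
    (4095 / 4096 : ℝ) zc_1099243192320_0
    ((1449 / 512) * wse0) (congrArg (fun y : ℝ => y * wse0) zc_3111703805952_0)
    ((4095 / 4096 : ℝ) - (1449 / 512) * wse0) rfl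
    (23 * ie) (congrArg (fun y : ℝ => y * ie) zc_25288767438848_0)
    ((4095 / 4096 : ℝ) - (1449 / 512) * wse0 - 23 * ie) rfl
    ((1 / 2) * K2) (congrArg (fun y : ℝ => y * K2) zc_549755813888_0)
    q e_q
    ((2899 / 2048) * wse0) (congrArg (fun y : ℝ => y * wse0) zc_1556388773888_0)
    ((4095 / 4096 : ℝ) - (2899 / 2048) * wse0) rfl
    (19 * ie) (congrArg (fun y : ℝ => y * ie) zc_20890720927744_0)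
    ((4095 / 4096 : ℝ) - (2899 / 2048) * wse0 - 19 * ie) rfl
    ((553 / 1024) * K2) (congrArg (fun y : ℝ => y * K2) zc_593779228672_0)
    sp e_sp
    y2 e_y2
    (ta * ta) rfl
    (y2 * (ta * ta)) rfl
    sg2 e_sg2).2
    (Real.log sg2) rfl
    lsg (e_lsg.trans (congrArg (fun y : ℝ => y * Real.log sg2) zc_549755813888_0))
    (Real.exp lsg) rfl
    w e_w
    (-lsg) rfl
    k e_k
    W e_W
    it e_it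
    k2 e_k2
    wse e_wse
    Wie e_Wie
    (8 * ie) (congrArg (fun y : ℝ => y * ie) zc_8796093022208_0)
    (q - 8 * ie) rfl
    ((3149 / 256) * wm2) (congrArg (fun y : ℝ => y * wm2) zc_13524852015104_0)
    (3149 / 1024 : ℝ) zc_3381213003776_0
    ((3149 / 256) * wm2 + (3149 / 1024 : ℝ)) rfl
    (Wie * ((3149 / 256) * wm2 + (3149 / 1024 : ℝ))) rfl
    q2 e_q2
    ie2 e_ie2
    (500 * ie2) (congrArg (fun y : ℝ => y * ie2) zc_549755813888000_0)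
    c5 e_c5
    (560 * ie2) (congrArg (fun y : ℝ => y * ie2) zc_615726511554560_0)
    (560 * ie2 + (1 : ℝ)) rfl
    RW (e_RW.trans (congrArg (fun y : ℝ => y * (560 * ie2 + (1 : ℝ))) zc_5435281113088_0))
    (RW * RW) rfl
    R2 e_R2
    V1 e_V1
    (13173 / 4096 : ℝ) zc_3536100261888_0
    (Kq * (13173 / 4096 : ℝ)) rfl
    z1 (e_z1.trans (congrArg (fun y : ℝ => y * (Kq * (13173 / 4096 : ℝ))) zc_2199023255552_0))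
    (z1 * z1) rfl
    (z1 * z1 * ((1 : ℝ) * (3 : ℝ)⁻¹)) rfl
    (z1 * z1 * ((1 : ℝ) * (3 : ℝ)⁻¹) + (1 : ℝ)) rfl).2
    iz1 e_iz1
    th1 e_th1
    (q6 * (13173 / 4096 : ℝ)) rfl
    (q6 * (13173 / 4096 : ℝ) * iz1) rfl
    (th1 * th1) rfl
    ((1 / 4) * (th1 * th1)) (congrArg (fun y : ℝ => y * (th1 * th1)) zc_274877906944_0)
    ((1 / 4) * (th1 * th1) + (1 : ℝ)) rfl
    l1 e_l1
    (17269 / 4096 : ℝ) zc_4635611889664_0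
    (Kq * (17269 / 4096 : ℝ)) rfl
    z2 (e_z2.trans (congrArg (fun y : ℝ => y * (Kq * (17269 / 4096 : ℝ))) zc_2199023255552_0))
    (z2 * z2) rfl
    (z2 * z2 * ((1 : ℝ) * (3 : ℝ)⁻¹)) rfl
    (z2 * z2 * ((1 : ℝ) * (3 : ℝ)⁻¹) + (1 : ℝ)) rfl).2
    iz2 e_iz2
    th2 e_th2
    (q6 * (17269 / 4096 : ℝ)) rfl
    (q6 * (17269 / 4096 : ℝ) * iz2) rfl
    (th2 * th2) rfl
    ((1 / 4) * (th2 * th2)) (congrArg (fun y : ℝ => y * (th2 * th2)) zc_274877906944_0)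
    ((1 / 4) * (th2 * th2) + (1 : ℝ)) rfl
    l2 e_l2
    rl e_rl
    cc5 e_cc5
    (-cc5) rfl
    xxo e_xxo
    ((1 / 2) * xxo) (congrArg (fun y : ℝ => y * xxo) zc_549755813888_0)
    (xxo + (1 : ℝ)) rfl
    (-(xxo + (1 : ℝ))) rfl
    ((1 / 2) * xxo * (-(xxo + (1 : ℝ)))) rfl
    rco e_rco
    bno e_bno
    (q * w) rfl
    (q * w * cc5) rfl
    (q * w * cc5 * l2) rfl
    ((1 / 2) * (q * w * cc5 * l2)) (congrArg (fun y : ℝ => y * (q * w * cc5 * l2)) zc_549755813888_0)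
    wso e_wso
    ((1 / 2) * wso) (congrArg (fun y : ℝ => y * wso) zc_549755813888_0)
    (wso * wso) rfl
    ((1482911 / 16777216) * (wso * wso)) (congrArg (fun y : ℝ => y * (wso * wso)) zc_97184055296_0)
    (1482911 / 1048576 : ℝ) zc_1554944884736_0
    ((1482911 / 16777216) * (wso * wso) + (1482911 / 1048576 : ℝ)) rfl
    ((1 / 2) * wso + ((1482911 / 16777216) * (wso * wso) + (1482911 / 1048576 : ℝ))) rfl).2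
    (((1 / 2) * wso + ((1482911 / 16777216) * (wso * wso) + (1482911 / 1048576 : ℝ)))⁻¹) rfl
    bo e_bo
    (bo + (1 / 2) * (q * w * cc5 * l2)) rfl).2
    ibo e_ibo
    (q2 * rl) rfl
    (q2 * rl * c5) rfl
    (-(q2 * rl * c5)) rfl
    eo e_eo
    (w + ibo) rfl
    wMo e_wMo
    (-(q2 * rl)) rfl
    u e_u
    (w * V1) rfl
    ls e_ls
    (l1 * l1) rfl
    (l1 * l1 * Wie) rfl
    (k * l1) rfl
    (k * l1 * wse) rfl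
    (2 * (k * l1 * wse)) (congrArg (fun y : ℝ => y * (k * l1 * wse)) zc_2199023255552_0)
    ((1 : ℝ) - 2 * (k * l1 * wse)) rfl
    D2 e_D2
    (2 * k) (congrArg (fun y : ℝ => y * k) zc_2199023255552_0)
    (RW + l1) rfl
    (wse * (RW + l1)) rfl
    (2 * k - wse * (RW + l1)) rfl
  change 0 < 2 * k - wse * (RW + l1) at p_rr
  obtain ⟨p_X1, ch1⟩ := (ch0
    (k * RW) rfl
    (k * RW * wse) rfl
    (2 * (k * RW * wse)) (congrArg (fun y : ℝ => y * (k * RW * wse)) zc_2199023255552_0)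
    xP e_xP
    (1 / 8 : ℝ) zc_137438953472_0
    ((1 / 16) * xP) (congrArg (fun y : ℝ => y * xP) zc_68719476736_0)
    ((1 / 8 : ℝ) - (1 / 16) * xP) rfl
    (xP * ((1 / 8 : ℝ) - (1 / 16) * xP)) rfl
    ((1 / 2 : ℝ) - xP * ((1 / 8 : ℝ) - (1 / 16) * xP)) rfl
    (xP * ((1 / 2 : ℝ) - xP * ((1 / 8 : ℝ) - (1 / 16) * xP))) rfl
    DP e_DP
    ((51 / 2048) * ta) (congrArg (fun y : ℝ => y * ta) zc_27380416512_0)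
    (871 / 16384 : ℝ) zc_58451820544_0
    an e_an
    ((3 / 4096) * ta) (congrArg (fun y : ℝ => y * ta) zc_805306368_0)
    (861 / 16384 : ℝ) zc_57780731904_0
    an1 e_an1
    (4 * it) (congrArg (fun y : ℝ => y * it) zc_4398046511104_0)
    (4 * it + k) rfl).2
    ((4 * it + k)⁻¹) rfl
    (an * (4 * it + k)⁻¹) rfl
    (an * (4 * it + k)⁻¹ * DP) rfl
    X (e_X.trans (congrArg (fun y : ℝ => y * (an * (4 * it + k)⁻¹ * DP)) zc_4398046511104_0))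
    ((1 : ℝ) - X) rfl
  change 0 < (1 : ℝ) - X at p_X1
  obtain ⟨p_u1, ch2⟩ := (ch1).2
    iX e_iX
    n1 e_n1
    (X * iX) rfl
    (n1 * (X * iX)) rfl
    lsp e_lsp
    lspS e_lspS
    ((1 : ℝ) - u) rfl
  change 0 < (1 : ℝ) - u at p_u1
  obtain ⟨p_q20, ch3⟩ := (((ch2
    (183501 / 262144 : ℝ) zc_769658978304_0).2
    (Real.log ((1 : ℝ) - u)) rfl
    ((183501 / 262144 : ℝ) - Real.log ((1 : ℝ) - u)) rfl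
    ielf e_ielf
    uX e_uX
    ((1 : ℝ) - uX) rfl).2
    (((1 : ℝ) - uX)⁻¹) rfl
    (uX * ((1 : ℝ) - uX)⁻¹) rfl
    (ie * (uX * ((1 : ℝ) - uX)⁻¹)) rfl
    ielfp e_ielfp
    rh e_rh
    (rh * rh) rfl
    (rh * rh + y2) rfl
    (1 / 64 : ℝ) zc_17179869184_0
    (rh * rh + y2 + (1 / 64 : ℝ)) rfl).2
    (Real.log (rh * rh + y2 + (1 / 64 : ℝ))) rfl
    ((1 / 2) * Real.log (rh * rh + y2 + (1 / 64 : ℝ))) (congrArg (fun y : ℝ => y * Real.log (rh * rh + y2 + (1 / 64 : ℝ))) zc_549755813888_0)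
    zb e_zb
    zbS e_zbS
    (zb * ie) rfl
    ((1 / 2) * (zb * ie)) (congrArg (fun y : ℝ => y * (zb * ie)) zc_549755813888_0)
    (1064305 / 1048576 : ℝ) zc_1116004679680_0
    fac e_fac
    ((1 / 2) * wse) (congrArg (fun y : ℝ => y * wse) zc_549755813888_0)
    ((1 / 2) * wse * D2) rfl
    ((2149581 / 1048576) * k) (congrArg (fun y : ℝ => y * k) zc_2253999046656_0)
    (zbS + (2149581 / 1048576) * k) rfl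
    ((1 / 2) * wse * D2 * (zbS + (2149581 / 1048576) * k)) rfl
    (k * K) rfl
    ((1 / 2) * (k * K)) (congrArg (fun y : ℝ => y * (k * K)) zc_549755813888_0)
    (zbS + (1 / 2) * (k * K)) rfl
    ((zbS + (1 / 2) * (k * K)) * lspS) rfl
    ((1 / 2) * wse * D2 * (zbS + (2149581 / 1048576) * k) + (zbS + (1 / 2) * (k * K)) * lspS) rfl
    (ie * lsp) rfl
    ((445645 / 262144) * (ie * lsp)) (congrArg (fun y : ℝ => y * (ie * lsp)) zc_1869170606080_0)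
    ((576717 / 262144) * ielfp) (congrArg (fun y : ℝ => y * ielfp) zc_2418926419968_0)
    ((445645 / 262144) * (ie * lsp) + (576717 / 262144) * ielfp) rfl
    (k2 * ((445645 / 262144) * (ie * lsp) + (576717 / 262144) * ielfp)) rfl
    ((1 / 2) * wse * D2 * (zbS + (2149581 / 1048576) * k) + (zbS + (1 / 2) * (k * K)) * lspS + k2 * ((445645 / 262144) * (ie * lsp) + (576717 / 262144) * ielfp)) rfl
    Q e_Q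
    E e_E
    Qw e_Qw
    (2 * Qw) (congrArg (fun y : ℝ => y * Qw) zc_2199023255552_0)
    c2 e_c2
  change 0 < q2 at p_q20
  obtain ⟨p_Es, ch4⟩ := ch3
    ((1 : ℝ) - Qw) rfl
  change 0 < (1 : ℝ) - Qw at p_Es
  obtain ⟨p_c20, ch5⟩ := ch4
  change 0 < c2 at p_c20
  obtain ⟨p_RH, ch6⟩ := ch5
    (3149 / 512 : ℝ) zc_6762426007552_0
    ((3149 / 512 : ℝ) - RW) rfl
    ((3149 / 512 : ℝ) - RW - Q) rfl
    (Qw + (1 : ℝ)) rfl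
    ((Qw + (1 : ℝ)) * (Qw + (1 : ℝ))) rfl
    ((3149 / 512 : ℝ) - RW - Q - (Qw + (1 : ℝ)) * (Qw + (1 : ℝ))) rfl
  change 0 < (3149 / 512 : ℝ) - RW - Q - (Qw + (1 : ℝ)) * (Qw + (1 : ℝ)) at p_RH
  obtain ⟨p_h9, ch7⟩ := ch6
    ((9646899 / 1048576) * c2) (congrArg (fun y : ℝ => y * c2) zc_10115506765824_0)
    ((9646899 / 1048576) * c2 - (3149 / 512 : ℝ)) rfl
  change 0 < (9646899 / 1048576) * c2 - (3149 / 512 : ℝ) at p_h9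
  obtain ⟨p_h2, ch8⟩ := ch7
    ((471859 / 524288) * c2) (congrArg (fun y : ℝ => y * c2) zc_989560045568_0)
    ((154941 / 4096) * Wie) (congrArg (fun y : ℝ => y * Wie) zc_41591657988096_0)
    ((471859 / 524288) * c2 - (154941 / 4096) * Wie) rfl
  change 0 < (471859 / 524288) * c2 - (154941 / 4096) * Wie at p_h2
  obtain ⟨p_Er, ch9⟩ := ch8
    (l1 - Q) rfl
  change 0 < l1 - Q at p_Er
  obtain ⟨p_dr, ch10⟩ := ch9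
    ((677 / 4096) * q6) (congrArg (fun y : ℝ => y * q6) zc_181730803712_0)
    ((677 / 4096) * q6 * ((1 : ℝ) - Qw)) rfl
    ((13173 / 4096) * K) (congrArg (fun y : ℝ => y * K) zc_3536100261888_0)
    (2 * ((13173 / 4096) * K)) (congrArg (fun y : ℝ => y * ((13173 / 4096) * K)) zc_2199023255552_0)
    (Real.exp (2 * ((13173 / 4096) * K))) rfl
    (Q * Real.exp (2 * ((13173 / 4096) * K))) rfl
    ((677 / 4096) * q6 * ((1 : ℝ) - Qw) - Q * Real.exp (2 * ((13173 / 4096) * K))) rfl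
  change 0 < (677 / 4096) * q6 * ((1 : ℝ) - Qw) - Q * Real.exp (2 * ((13173 / 4096) * K)) at p_dr
  obtain ⟨p_La, ch11⟩ := ch10
    ((1 : ℝ) - 2 * Qw) rfl
    ((83 / 16) * ((1 : ℝ) - 2 * Qw)) (congrArg (fun y : ℝ => y * ((1 : ℝ) - 2 * Qw)) zc_5703716569088_0)
    ((83 / 16) * ((1 : ℝ) - 2 * Qw) - RW) rfl
    ((83 / 16) * ((1 : ℝ) - 2 * Qw) - RW - Q) rfl
  change 0 < (83 / 16) * ((1 : ℝ) - 2 * Qw) - RW - Q at p_La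
  obtain ⟨p_l1, ch12⟩ := ch11
    (-(ie * lsp)) rfl
    (10485 / 1048576 : ℝ) zc_10994319360_0
    ((-(ie * lsp)) + (10485 / 1048576 : ℝ)) rfl
  change 0 < (-(ie * lsp)) + (10485 / 1048576 : ℝ) at p_l1
  obtain ⟨p_l2, ch13⟩ := ch12
    (-ielfp) rfl
    (20971 / 1048576 : ℝ) zc_21989687296_0
    ((-ielfp) + (20971 / 1048576 : ℝ)) rfl
  change 0 < (-ielfp) + (20971 / 1048576 : ℝ) at p_l2
  obtain ⟨p_z1, ch14⟩ := ch13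
    (-(zb * ie)) rfl
    (104857 / 1048576 : ℝ) zc_109950533632_0
    ((-(zb * ie)) + (104857 / 1048576 : ℝ)) rfl
  change 0 < (-(zb * ie)) + (104857 / 1048576 : ℝ) at p_z1
  obtain ⟨p_E1, ch15⟩ := ch14
    (E * ie) rfl
    (-(E * ie)) rfl
    (2621 / 524288 : ℝ) zc_5496635392_0
    ((-(E * ie)) + (2621 / 524288 : ℝ)) rfl
  change 0 < (-(E * ie)) + (2621 / 524288 : ℝ) at p_E1
  obtain ⟨p_y, ch16⟩ := ch15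
    (-E) rfl
    ((-E) - y) rfl
    ((517 / 256) * K) (congrArg (fun y : ℝ => y * K) zc_2220498092032_0)
    ((-E) - y + (517 / 256) * K) rfl
    (13463 / 4096 : ℝ) zc_3613946544128_0
    ((-E) - y + (517 / 256) * K + (13463 / 4096 : ℝ)) rfl
  change 0 < (-E) - y + (517 / 256) * K + (13463 / 4096 : ℝ) at p_y
  obtain ⟨p_yY, ch17⟩ := ch16
    (7 / 2 : ℝ) zc_3848290697216_0
    ((-E) - y + (7 / 2 : ℝ)) rfl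
  change 0 < (-E) - y + (7 / 2 : ℝ) at p_yY
  obtain ⟨p_EM2, ch18⟩ := ((((ch17
    (1037 / 256 : ℝ) zc_4453881085952_0
    (Kq * (1037 / 256 : ℝ)) rfl
    zd (e_zd.trans (congrArg (fun y : ℝ => y * (Kq * (1037 / 256 : ℝ))) zc_2199023255552_0))
    (zd * zd) rfl
    (zd * zd * ((1 : ℝ) * (3 : ℝ)⁻¹)) rfl
    (zd * zd * ((1 : ℝ) * (3 : ℝ)⁻¹) + (1 : ℝ)) rfl).2
    izd e_izd
    thd e_thd
    (q6 * (1037 / 256 : ℝ)) rfl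
    (q6 * (1037 / 256 : ℝ) * izd) rfl
    (thd * thd) rfl
    ((1 / 4) * (thd * thd)) (congrArg (fun y : ℝ => y * (thd * thd)) zc_274877906944_0)
    ((1 / 4) * (thd * thd) + (1 : ℝ)) rfl
    ld e_ld
    (1293 / 256 : ℝ) zc_5553392713728_0
    (Kq * (1293 / 256 : ℝ)) rfl
    ze (e_ze.trans (congrArg (fun y : ℝ => y * (Kq * (1293 / 256 : ℝ))) zc_2199023255552_0))
    (ze * ze) rfl
    (ze * ze * ((1 : ℝ) * (3 : ℝ)⁻¹)) rfl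
    (ze * ze * ((1 : ℝ) * (3 : ℝ)⁻¹) + (1 : ℝ)) rfl).2
    ize e_ize
    the e_the
    (q6 * (1293 / 256 : ℝ)) rfl
    (q6 * (1293 / 256 : ℝ) * ize) rfl
    (the * the) rfl
    ((1 / 4) * (the * the)) (congrArg (fun y : ℝ => y * (the * the)) zc_274877906944_0)
    ((1 / 4) * (the * the) + (1 : ℝ)) rfl
    le e_le
    cd5 e_cd5
    (-cd5) rfl
    xxn e_xxn
    ((1 / 2) * xxn) (congrArg (fun y : ℝ => y * xxn) zc_549755813888_0)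
    (xxn + (1 : ℝ)) rfl
    (-(xxn + (1 : ℝ))) rfl
    ((1 / 2) * xxn * (-(xxn + (1 : ℝ)))) rfl
    rcn e_rcn
    bnn e_bnn
    (q * w * cd5) rfl
    (q * w * cd5 * le) rfl
    ((1 / 2) * (q * w * cd5 * le)) (congrArg (fun y : ℝ => y * (q * w * cd5 * le)) zc_549755813888_0)
    wsn e_wsn
    ((1 / 2) * wsn) (congrArg (fun y : ℝ => y * wsn) zc_549755813888_0)
    (wsn * wsn) rfl
    ((1482911 / 16777216) * (wsn * wsn)) (congrArg (fun y : ℝ => y * (wsn * wsn)) zc_97184055296_0)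
    ((1482911 / 16777216) * (wsn * wsn) + (1482911 / 1048576 : ℝ)) rfl
    ((1 / 2) * wsn + ((1482911 / 16777216) * (wsn * wsn) + (1482911 / 1048576 : ℝ))) rfl).2
    (((1 / 2) * wsn + ((1482911 / 16777216) * (wsn * wsn) + (1482911 / 1048576 : ℝ)))⁻¹) rfl
    bn e_bn
    (bn + (1 / 2) * (q * w * cd5 * le)) rfl).2
    ibn e_ibn
    (q2 * ld) rfl
    (q2 * ld * W) rfl
    (q2 * ld * W * c2) rfl
    (-(q2 * ld * W * c2)) rfl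
    u1 e_u1
    (w + ibn) rfl
    m1 e_m1
    (w * m1) rfl
    (W + w * m1) rfl
    EM e_EM
    ((1 / 2) * EM) (congrArg (fun y : ℝ => y * EM) zc_549755813888_0)
    ((1 : ℝ) - (1 / 2) * EM) rfl
  change 0 < (1 : ℝ) - (1 / 2) * EM at p_EM2
  obtain ⟨p_cl, ch19⟩ := (ch18).2
    i2 e_i2
    ((1 / 2) * EM + (1 : ℝ)) rfl
    eta e_eta
    (EM * i2) rfl
    ((1 / 4) * k) (congrArg (fun y : ℝ => y * k) zc_274877906944_0)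
    (it + (1 / 4) * k) rfl
    t1 e_t1
    ((1 / 1024) * K) (congrArg (fun y : ℝ => y * K) zc_1073741824_0)
    ((1 : ℝ) - (1 / 1024) * K) rfl
    (((1 : ℝ) - (1 / 1024) * K) * an) rfl
    (((1 : ℝ) - (1 / 1024) * K) * an - t1) rfl
    (u1 * an1) rfl
    (eta * (u1 * an1)) rfl
    (V1 + Q) rfl
    (wse * (V1 + Q)) rfl
    (wse * (V1 + Q) + (1 : ℝ)) rfl
    (eta * (u1 * an1) * (wse * (V1 + Q) + (1 : ℝ))) rfl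
    (((1 : ℝ) - (1 / 1024) * K) * an - t1 - eta * (u1 * an1) * (wse * (V1 + Q) + (1 : ℝ))) rfl
  change 0 < ((1 : ℝ) - (1 / 1024) * K) * an - t1 - eta * (u1 * an1) * (wse * (V1 + Q) + (1 : ℝ)) at p_cl
  exact ⟨n1, ielf,
    ⟨se, ie, K, K2, q6, Kq, Yt, Y2, wm, wm2, wse0, q, sp, y2, sg2, lsg, w, k, W, it, k2, wse,
    Wie, q2, ie2, c5, RW, R2, V1, z1, iz1, th1, l1, z2, iz2, th2, l2, rl, cc5, xxo, rco, bno,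
    wso, bo, ibo, eo, wMo, u, ls, D2, xP, DP, an, an1, X, iX, lsp, lspS, uX, ielfp, rh, zb, zbS,
    fac, Q, E, Qw, c2, zd, izd, thd, ld, ze, ize, the, le, cd5, xxn, rcn, bnn, wsn, bn, ibn, u1,
    m1, EM, i2, eta, t1, e_se, e_ie, e_K, e_K2, e_q6, e_Kq, e_Yt, e_Y2, e_wm, e_wm2, e_wse0,
    e_q, e_sp, e_y2, e_sg2, e_lsg, e_w, e_k, e_W, e_it, e_k2, e_wse, e_Wie, e_q2, e_ie2, e_c5,
    e_RW, e_R2, e_V1, e_z1, e_iz1, e_th1, e_l1, e_z2, e_iz2, e_th2, e_l2, e_rl, e_cc5, e_xxo,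
    e_rco, e_bno, e_wso, e_bo, e_ibo, e_eo, e_wMo, e_u, e_ls, e_D2, e_xP, e_DP, e_an, e_an1,
    e_X, e_iX, e_lsp, e_lspS, e_uX, e_ielfp, e_rh, e_zb, e_zbS, e_fac, e_Q, e_E, e_Qw, e_c2,
    e_zd, e_izd, e_thd, e_ld, e_ze, e_ize, e_the, e_le, e_cd5, e_xxn, e_rcn, e_bnn, e_wsn, e_bn,
    e_ibn, e_u1, e_m1, e_EM, e_i2, e_eta, e_t1, p_rr, p_X1, p_q20, p_Es, p_c20, p_RH, p_h9,
    p_h2, p_Er, p_dr, p_La, p_l1, p_l2, p_z1, p_E1, p_y, p_yY, p_EM2, p_cl⟩,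
    ⟨⟨e_n1⟩⟩, ⟨⟨e_ielf, p_u1⟩⟩⟩

theorem ex_LB2_gE {om ta y : ℝ} (h : RAs Cert.LB2.prog2 [om, ta, y]) :
    0 < om * ta - (74161 / 1048576 : ℝ) := by
  obtain ⟨p_gE, ch0⟩ := h
    (om * ta) rfl
    (74161 / 1048576 : ℝ) zc_77763444736_0
    (om * ta - (74161 / 1048576 : ℝ)) rfl
  change 0 < om * ta - (74161 / 1048576 : ℝ) at p_gE
  exact p_gE

theorem ex_LB2_gK {om ta y : ℝ} (h : RAs Cert.LB2.prog3 [om, ta, y]) :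
    0 < om * om - (7 / 4) * (om * ta) - (726873 / 524288 : ℝ) := by
  obtain ⟨p_gK, ch0⟩ := h
    (om * om) rfl
    (om * ta) rfl
    ((7 / 4) * (om * ta)) (congrArg (fun y : ℝ => y * (om * ta)) zc_1924145348608_0)
    (om * om - (7 / 4) * (om * ta)) rfl
    (726873 / 524288 : ℝ) zc_1524363165696_0
    (om * om - (7 / 4) * (om * ta) - (726873 / 524288 : ℝ)) rfl
  change 0 < om * om - (7 / 4) * (om * ta) - (726873 / 524288 : ℝ) at p_gK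
  exact p_gK

theorem ex_LB2_gY {om ta y : ℝ} (h : RAs Cert.LB2.prog4 [om, ta, y]) :
    Nonempty (PLBg om ta y (xB 2) (ynB1 2) (ynB0 2)) := by
  obtain ⟨se, e_se⟩ : ∃ zz : ℝ, zz = om * ta := ⟨_, rfl⟩
  obtain ⟨ie, e_ie⟩ : ∃ zz : ℝ, zz = se * se := ⟨_, rfl⟩
  obtain ⟨K, e_K⟩ : ∃ zz : ℝ, zz = om * se := ⟨_, rfl⟩
  obtain ⟨K2, e_K2⟩ : ∃ zz : ℝ, zz = K * K := ⟨_, rfl⟩
  obtain ⟨q6, e_q6⟩ : ∃ zz : ℝ, zz = (1 : ℝ) - K2 * ((1 : ℝ) * (6 : ℝ)⁻¹) := ⟨_, rfl⟩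
  obtain ⟨Kq, e_Kq⟩ : ∃ zz : ℝ, zz = K * q6 := ⟨_, rfl⟩
  obtain ⟨Yt, e_Yt⟩ : ∃ zz : ℝ, zz = (7 / 2) * ta := ⟨_, rfl⟩
  obtain ⟨Y2, e_Y2⟩ : ∃ zz : ℝ, zz = Yt * Yt := ⟨_, rfl⟩
  obtain ⟨wm, e_wm⟩ : ∃ zz : ℝ, zz = Yt * ((1 : ℝ) + Y2 * ((1 / 2 : ℝ) - (1 / 8) * Y2))⁻¹ := ⟨_, rfl⟩
  obtain ⟨wm2, e_wm2⟩ : ∃ zz : ℝ, zz = wm * wm := ⟨_, rfl⟩
  obtain ⟨wse0, e_wse0⟩ : ∃ zz : ℝ, zz = wm * se := ⟨_, rfl⟩
  obtain ⟨q, e_q⟩ : ∃ zz : ℝ, zz = (4095 / 4096 : ℝ) - (1449 / 512) * wse0 - 23 * ie - (1 / 2) * K2 := ⟨_, rfl⟩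
  obtain ⟨sp, e_sp⟩ : ∃ zz : ℝ, zz = (4095 / 4096 : ℝ) - (2899 / 2048) * wse0 - 19 * ie - (553 / 1024) * K2 := ⟨_, rfl⟩
  obtain ⟨z0, e_z0⟩ : ∃ zz : ℝ, zz = 2 * (Kq * (9077 / 4096 : ℝ)) := ⟨_, rfl⟩
  obtain ⟨iz0, e_iz0⟩ : ∃ zz : ℝ, zz = (z0 * z0 * ((1 : ℝ) * (3 : ℝ)⁻¹) + (1 : ℝ))⁻¹ := ⟨_, rfl⟩
  obtain ⟨th0, e_th0⟩ : ∃ zz : ℝ, zz = z0 * iz0 := ⟨_, rfl⟩
  obtain ⟨l0, e_l0⟩ : ∃ zz : ℝ, zz = q6 * (9077 / 4096 : ℝ) * iz0 * ((1 / 4) * (th0 * th0) + (1 : ℝ)) := ⟨_, rfl⟩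
  obtain ⟨W, e_W⟩ : ∃ zz : ℝ, zz = om * om * (y * y * (ta * ta) + (1 : ℝ)) := ⟨_, rfl⟩
  obtain ⟨p_gY, ch0⟩ := ((((h
    (1 : ℝ) zc_1099511627776_0
    (3 : ℝ) zc_3298534883328_0).2
    ((3 : ℝ)⁻¹) rfl
    ((1 : ℝ) * (3 : ℝ)⁻¹) rfl
    se e_se
    ie e_ie
    K e_K
    K2 e_K2
    (6 : ℝ) zc_6597069766656_0).2
    ((6 : ℝ)⁻¹) rfl
    ((1 : ℝ) * (6 : ℝ)⁻¹) rfl
    (K2 * ((1 : ℝ) * (6 : ℝ)⁻¹)) rfl
    q6 e_q6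
    Kq e_Kq
    Yt (e_Yt.trans (congrArg (fun y : ℝ => y * ta) zc_3848290697216_0))
    Y2 e_Y2
    (1 / 2 : ℝ) zc_549755813888_0
    ((1 / 8) * Y2) (congrArg (fun y : ℝ => y * Y2) zc_137438953472_0)
    ((1 / 2 : ℝ) - (1 / 8) * Y2) rfl
    (Y2 * ((1 / 2 : ℝ) - (1 / 8) * Y2)) rfl
    ((1 : ℝ) + Y2 * ((1 / 2 : ℝ) - (1 / 8) * Y2)) rfl).2
    (((1 : ℝ) + Y2 * ((1 / 2 : ℝ) - (1 / 8) * Y2))⁻¹) rfl
    wm e_wm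
    wm2 e_wm2
    wse0 e_wse0
    (4095 / 4096 : ℝ) zc_1099243192320_0
    ((1449 / 512) * wse0) (congrArg (fun y : ℝ => y * wse0) zc_3111703805952_0)
    ((4095 / 4096 : ℝ) - (1449 / 512) * wse0) rfl
    (23 * ie) (congrArg (fun y : ℝ => y * ie) zc_25288767438848_0)
    ((4095 / 4096 : ℝ) - (1449 / 512) * wse0 - 23 * ie) rfl
    ((1 / 2) * K2) (congrArg (fun y : ℝ => y * K2) zc_549755813888_0)
    q e_q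
    ((2899 / 2048) * wse0) (congrArg (fun y : ℝ => y * wse0) zc_1556388773888_0)
    ((4095 / 4096 : ℝ) - (2899 / 2048) * wse0) rfl
    (19 * ie) (congrArg (fun y : ℝ => y * ie) zc_20890720927744_0)
    ((4095 / 4096 : ℝ) - (2899 / 2048) * wse0 - 19 * ie) rfl
    ((553 / 1024) * K2) (congrArg (fun y : ℝ => y * K2) zc_593779228672_0)
    sp e_sp
    (9077 / 4096 : ℝ) zc_2436588634112_0
    (Kq * (9077 / 4096 : ℝ)) rfl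
    z0 (e_z0.trans (congrArg (fun y : ℝ => y * (Kq * (9077 / 4096 : ℝ))) zc_2199023255552_0))
    (z0 * z0) rfl
    (z0 * z0 * ((1 : ℝ) * (3 : ℝ)⁻¹)) rfl
    (z0 * z0 * ((1 : ℝ) * (3 : ℝ)⁻¹) + (1 : ℝ)) rfl).2
    iz0 e_iz0
    th0 e_th0
    (q6 * (9077 / 4096 : ℝ)) rfl
    (q6 * (9077 / 4096 : ℝ) * iz0) rfl
    (th0 * th0) rfl
    ((1 / 4) * (th0 * th0)) (congrArg (fun y : ℝ => y * (th0 * th0)) zc_274877906944_0)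
    ((1 / 4) * (th0 * th0) + (1 : ℝ)) rfl
    l0 e_l0
    (om * om) rfl
    (y * y) rfl
    (ta * ta) rfl
    (y * y * (ta * ta)) rfl
    (y * y * (ta * ta) + (1 : ℝ)) rfl
    W e_W
    (W * ie) rfl
    (2 * l0) (congrArg (fun y : ℝ => y * l0) zc_2199023255552_0)
    (2 * l0 + (1 : ℝ)) rfl
    (W * ie * (2 * l0 + (1 : ℝ))) rfl
    (W * ie * (2 * l0 + (1 : ℝ)) + (1 : ℝ)) rfl
    (y * (W * ie * (2 * l0 + (1 : ℝ)) + (1 : ℝ))) rfl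
    ((37 / 16) * K) (congrArg (fun y : ℝ => y * K) zc_2542620639232_0)
    (y * (W * ie * (2 * l0 + (1 : ℝ)) + (1 : ℝ)) - (37 / 16) * K) rfl
    (13249 / 4096 : ℝ) zc_3556501356544_0
    (y * (W * ie * (2 * l0 + (1 : ℝ)) + (1 : ℝ)) - (37 / 16) * K - (13249 / 4096 : ℝ)) rfl
  change 0 < y * (W * ie * (2 * l0 + (1 : ℝ)) + (1 : ℝ)) - (37 / 16) * K - (13249 / 4096 : ℝ) at p_gY
  exact ⟨⟨se, ie, K, K2, q6, Kq, z0, iz0, th0, l0, W, e_se, e_ie, e_K, e_K2, e_q6, e_Kq, e_z0, e_iz0,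
    e_th0, e_l0, e_W, p_gY⟩⟩

end Pool.Agent.helper31.EQB
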