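import Pool.Agent.helper31.EQB.NLB2
import Pool.Agent.helper31.EQB.NFB2
import Pool.Agent.helper31.EQB.NT
import Pool.Agent.helper31.EQB.DecY
import Pool.Agent.helper31.EQB.VLB
import Pool.Agent.helper31.EQB.VF
import Pool.Agent.helper31.EQB.XLB0
import Pool.Agent.helper31.EQB.XLB1
import Pool.Agent.helper31.EQB.XLB2
import Pool.Agent.helper31.EQB.XLB3
import Pool.Agent.helper31.EQB.XLB4
import Pool.Agent.helper31.EQB.XFB
import Pool.Agent.helper31.EQB.XM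

/-!
# EQB-42: chart B, from the covers
-/

namespace Pool.Agent.helper31.EQB

open Complex ComplexConjugate Set Filter Topology
open Pool.Agent.helper31.EQ.Y Pool.Agent.helper31.EQ.R
open Pool.Agent.helper12.EQL Pool.Agent.helper12.RP Pool.Agent.helper12.FF Pool.Agent.helper12.RS
open Pool.Agent.helper63.FF
open Pool.Agent.helper71.FF (RAs)

variable {e κ : ℝ}

/-- the chart: `om = β/√e`, `ta = 1/β` -/
structure ChB (e κ om ta : ℝ) : Prop where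
  o0 : 0 ≤ om
  o1 : om ≤ 5 / 4
  t0 : 0 ≤ ta
  t1 : ta ≤ 1 / 5
  gE : om * ta ≤ 74161 / 1048576
  gK : om * om - 7 / 4 * (om * ta) ≤ 726873 / 524288
  K : Real.sinh κ ≤ 1 / 10

theorem chB (he : 200 ≤ e) (hκ : 0 < κ) (hb : 5 ≤ bet e κ)
    (hD : bet e κ ^ 2 ≤ e * (13864 / 10000 + 7 / 4 * (√e)⁻¹)) :
    ChB e κ (bet e κ / √e) (bet e κ)⁻¹ := by
  have he0 : 0 < e := by linarith
  have hs : 0 < √e := Real.sqrt_pos.2 he0
  have hs2 : √e ^ 2 = e := Real.sq_sqrt he0.le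
  have hb0 : 0 < bet e κ := by linarith
  have hot : bet e κ / √e * (bet e κ)⁻¹ = (√e)⁻¹ := by field_simp
  have hx : (√e)⁻¹ ≤ 74161 / 1048576 := by
    rw [inv_le_comm₀ hs (by norm_num)]
    apply Real.le_sqrt_of_sq_le
    norm_num
    linarith
  have hoo : (bet e κ / √e) * (bet e κ / √e) = bet e κ ^ 2 / e := by
    rw [div_mul_div_comm, Real.mul_self_sqrt he0.le, sq]
  have h1 : bet e κ ^ 2 / e ≤ 13864 / 10000 + 7 / 4 * (√e)⁻¹ := by
    rw [div_le_iff₀ he0]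
    linarith
  refine ⟨by positivity, ?_, by positivity, ?_, by rw [hot]; exact hx, ?_, ?_⟩
  · have h2 : (bet e κ / √e) * (bet e κ / √e) ≤ (5 / 4) * (5 / 4) := by
      rw [hoo]
      linarith
    have h3 : 0 ≤ bet e κ / √e := by positivity
    nlinarith
  · rw [inv_le_comm₀ hb0 (by norm_num)]
    linarith
  · rw [hot, hoo]
    linarith
  · have hK : 0 < Real.sinh κ := Real.sinh_pos_iff.2 hκ
    have h2 : bet e κ ^ 2 / e = e * Real.sinh κ ^ 2 := by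
      unfold bet
      field_simp
    rw [h2] at h1
    have h3 : 200 * Real.sinh κ ^ 2 ≤ e * Real.sinh κ ^ 2 := by gcongr
    nlinarith

theorem PMB_all (he : 200 ≤ e) (hκ : 0 < κ) (hb : 5 ≤ bet e κ)
    (hD : bet e κ ^ 2 ≤ e * (13864 / 10000 + 7 / 4 * (√e)⁻¹)) :
    Nonempty (PMB (bet e κ / √e) (bet e κ)⁻¹) := by
  have C := chB he hκ hb hD
  obtain ⟨ops, ho, hr⟩ := cov_MB C.o0 C.o1 C.t0 C.t1
  simp only [Cert.MB.progs, List.mem_cons, List.not_mem_nil, or_false] at ho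
  rcases ho with rfl | rfl | rfl
  · exact ex_MB hr
  · have := ex_MB_gE hr
    have := C.gE
    linarith
  · have := ex_MB_gK hr
    have := C.gK
    linarith

theorem ynB_le {n : ℕ} (hn : n < 5) (hK0 : 0 ≤ Real.sinh κ) (hK : Real.sinh κ ≤ 1 / 10) :
    ynB κ n ≤ 7 / 2 := by
  unfold ynB
  interval_cases n <;> norm_num [ynB0, ynB1] <;> linarith

private theorem linkB_0 (he : 200 ≤ e) (hκ : 0 < κ) (hb : 5 ≤ bet e κ)
    (hD : bet e κ ^ 2 ≤ e * (13864 / 10000 + 7 / 4 * (√e)⁻¹))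
    (M : PMB (bet e κ / √e) (bet e κ)⁻¹) {τ : ℂ}
    (T : St e κ (xB 0) (LamB 0) (ynB κ 0) τ) :
    LinkOK e κ (aB e κ 0) (xB (0 + 1)) (LamB (0 + 1)) (ynB κ (0 + 1))
      (aB e κ (0 + 1)) τ := by
  have he0 : 0 < e := by linarith
  have C := chB he hκ hb hD
  have hK0 : 0 < Real.sinh κ := Real.sinh_pos_iff.2 hκ
  have hy : |yz e κ (shf κ τ)| ≤ 7 / 2 :=
    ((yz_shf_le he0 hκ T.re).trans T.y).trans (ynB_le (by norm_num) hK0.le C.K)
  obtain ⟨ops, ho, hr⟩ := cov_LB0 C.o0 C.o1 C.t0 C.t1 (abs_nonneg _) hy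
  simp only [Cert.LB0.progs, List.mem_cons, List.not_mem_nil, or_false] at ho
  rcases ho with rfl | rfl | rfl | rfl | rfl | rfl
  · obtain ⟨n1, ielf, P, h1, h2⟩ := ex_LB0_g hr
    exact linkB he hκ hb hD M (by norm_num) T P (Or.inl h1) (Or.inl h2)
  · obtain ⟨n1, ielf, P, h1, h2⟩ := ex_LB0_u hr
    exact linkB he hκ hb hD M (by norm_num) T P (Or.inr h1) (Or.inr h2)
  · obtain ⟨n1, ielf, P, h1, h2⟩ := ex_LB0_h hr
    exact linkB he hκ hb hD M (by norm_num) T P (Or.inl h1) (Or.inr h2)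
  · have := ex_LB0_gE hr
    have := C.gE
    linarith
  · have := ex_LB0_gK hr
    have := C.gK
    linarith
  · obtain ⟨G⟩ := ex_LB0_gY hr
    exact (guard_y he hκ C.K (by norm_num) T G).elim

private theorem linkB_1 (he : 200 ≤ e) (hκ : 0 < κ) (hb : 5 ≤ bet e κ)
    (hD : bet e κ ^ 2 ≤ e * (13864 / 10000 + 7 / 4 * (√e)⁻¹))
    (M : PMB (bet e κ / √e) (bet e κ)⁻¹) {τ : ℂ}
    (T : St e κ (xB 1) (LamB 1) (ynB κ 1) τ) :
    LinkOK e κ (aB e κ 1) (xB (1 + 1)) (LamB (1 + 1)) (ynB κ (1 + 1))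
      (aB e κ (1 + 1)) τ := by
  have he0 : 0 < e := by linarith
  have C := chB he hκ hb hD
  have hK0 : 0 < Real.sinh κ := Real.sinh_pos_iff.2 hκ
  have hy : |yz e κ (shf κ τ)| ≤ 7 / 2 :=
    ((yz_shf_le he0 hκ T.re).trans T.y).trans (ynB_le (by norm_num) hK0.le C.K)
  obtain ⟨ops, ho, hr⟩ := cov_LB1 C.o0 C.o1 C.t0 C.t1 (abs_nonneg _) hy
  simp only [Cert.LB1.progs, List.mem_cons, List.not_mem_nil, or_false] at ho
  rcases ho with rfl | rfl | rfl | rfl | rfl | rfl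
  · obtain ⟨n1, ielf, P, h1, h2⟩ := ex_LB1_g hr
    exact linkB he hκ hb hD M (by norm_num) T P (Or.inl h1) (Or.inl h2)
  · obtain ⟨n1, ielf, P, h1, h2⟩ := ex_LB1_u hr
    exact linkB he hκ hb hD M (by norm_num) T P (Or.inr h1) (Or.inr h2)
  · obtain ⟨n1, ielf, P, h1, h2⟩ := ex_LB1_h hr
    exact linkB he hκ hb hD M (by norm_num) T P (Or.inl h1) (Or.inr h2)
  · have := ex_LB1_gE hr
    have := C.gE
    linarith
  · have := ex_LB1_gK hr
    have := C.gK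
    linarith
  · obtain ⟨G⟩ := ex_LB1_gY hr
    exact (guard_y he hκ C.K (by norm_num) T G).elim

private theorem linkB_2 (he : 200 ≤ e) (hκ : 0 < κ) (hb : 5 ≤ bet e κ)
    (hD : bet e κ ^ 2 ≤ e * (13864 / 10000 + 7 / 4 * (√e)⁻¹))
    (M : PMB (bet e κ / √e) (bet e κ)⁻¹) {τ : ℂ}
    (T : St e κ (xB 2) (LamB 2) (ynB κ 2) τ) :
    LinkOK e κ (aB e κ 2) (xB (2 + 1)) (LamB (2 + 1)) (ynB κ (2 + 1))
      (aB e κ (2 + 1)) τ := by
  have he0 : 0 < e := by linarith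
  have C := chB he hκ hb hD
  have hK0 : 0 < Real.sinh κ := Real.sinh_pos_iff.2 hκ
  have hy : |yz e κ (shf κ τ)| ≤ 7 / 2 :=
    ((yz_shf_le he0 hκ T.re).trans T.y).trans (ynB_le (by norm_num) hK0.le C.K)
  obtain ⟨ops, ho, hr⟩ := cov_LB2 C.o0 C.o1 C.t0 C.t1 (abs_nonneg _) hy
  simp only [Cert.LB2.progs, List.mem_cons, List.not_mem_nil, or_false] at ho
  rcases ho with rfl | rfl | rfl | rfl | rfl
  · obtain ⟨n1, ielf, P, h1, h2⟩ := ex_LB2_g hr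
    exact linkB he hκ hb hD M (by norm_num) T P (Or.inl h1) (Or.inl h2)
  · obtain ⟨n1, ielf, P, h1, h2⟩ := ex_LB2_u hr
    exact linkB he hκ hb hD M (by norm_num) T P (Or.inr h1) (Or.inr h2)
  · have := ex_LB2_gE hr
    have := C.gE
    linarith
  · have := ex_LB2_gK hr
    have := C.gK
    linarith
  · obtain ⟨G⟩ := ex_LB2_gY hr
    exact (guard_y he hκ C.K (by norm_num) T G).elim

private theorem linkB_3 (he : 200 ≤ e) (hκ : 0 < κ) (hb : 5 ≤ bet e κ)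
    (hD : bet e κ ^ 2 ≤ e * (13864 / 10000 + 7 / 4 * (√e)⁻¹))
    (M : PMB (bet e κ / √e) (bet e κ)⁻¹) {τ : ℂ}
    (T : St e κ (xB 3) (LamB 3) (ynB κ 3) τ) :
    LinkOK e κ (aB e κ 3) (xB (3 + 1)) (LamB (3 + 1)) (ynB κ (3 + 1))
      (aB e κ (3 + 1)) τ := by
  have he0 : 0 < e := by linarith
  have C := chB he hκ hb hD
  have hK0 : 0 < Real.sinh κ := Real.sinh_pos_iff.2 hκ
  have hy : |yz e κ (shf κ τ)| ≤ 7 / 2 :=
    ((yz_shf_le he0 hκ T.re).trans T.y).trans (ynB_le (by norm_num) hK0.le C.K)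
  obtain ⟨ops, ho, hr⟩ := cov_LB3 C.o0 C.o1 C.t0 C.t1 (abs_nonneg _) hy
  simp only [Cert.LB3.progs, List.mem_cons, List.not_mem_nil, or_false] at ho
  rcases ho with rfl | rfl | rfl | rfl | rfl
  · obtain ⟨n1, ielf, P, h1, h2⟩ := ex_LB3_g hr
    exact linkB he hκ hb hD M (by norm_num) T P (Or.inl h1) (Or.inl h2)
  · obtain ⟨n1, ielf, P, h1, h2⟩ := ex_LB3_u hr
    exact linkB he hκ hb hD M (by norm_num) T P (Or.inr h1) (Or.inr h2)
  · have := ex_LB3_gE hr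
    have := C.gE
    linarith
  · have := ex_LB3_gK hr
    have := C.gK
    linarith
  · obtain ⟨G⟩ := ex_LB3_gY hr
    exact (guard_y he hκ C.K (by norm_num) T G).elim

private theorem linkB_4 (he : 200 ≤ e) (hκ : 0 < κ) (hb : 5 ≤ bet e κ)
    (hD : bet e κ ^ 2 ≤ e * (13864 / 10000 + 7 / 4 * (√e)⁻¹))
    (M : PMB (bet e κ / √e) (bet e κ)⁻¹) {τ : ℂ}
    (T : St e κ (xB 4) (LamB 4) (ynB κ 4) τ) :
    LinkOK e κ (aB e κ 4) (xB (4 + 1)) (LamB (4 + 1)) (ynB κ (4 + 1))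
      (aB e κ (4 + 1)) τ := by
  have he0 : 0 < e := by linarith
  have C := chB he hκ hb hD
  have hK0 : 0 < Real.sinh κ := Real.sinh_pos_iff.2 hκ
  have hy : |yz e κ (shf κ τ)| ≤ 7 / 2 :=
    ((yz_shf_le he0 hκ T.re).trans T.y).trans (ynB_le (by norm_num) hK0.le C.K)
  obtain ⟨ops, ho, hr⟩ := cov_LB4 C.o0 C.o1 C.t0 C.t1 (abs_nonneg _) hy
  simp only [Cert.LB4.progs, List.mem_cons, List.not_mem_nil, or_false] at ho
  rcases ho with rfl | rfl | rfl | rfl | rfl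
  · obtain ⟨n1, ielf, P, h1, h2⟩ := ex_LB4_g hr
    exact linkB he hκ hb hD M (by norm_num) T P (Or.inl h1) (Or.inl h2)
  · obtain ⟨n1, ielf, P, h1, h2⟩ := ex_LB4_u hr
    exact linkB he hκ hb hD M (by norm_num) T P (Or.inr h1) (Or.inr h2)
  · have := ex_LB4_gE hr
    have := C.gE
    linarith
  · have := ex_LB4_gK hr
    have := C.gK
    linarith
  · obtain ⟨G⟩ := ex_LB4_gY hr
    exact (guard_y he hκ C.K (by norm_num) T G).elim

/-- All links of chart B. -/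
theorem linkB_all (he : 200 ≤ e) (hκ : 0 < κ) (hb : 5 ≤ bet e κ)
    (hD : bet e κ ^ 2 ≤ e * (13864 / 10000 + 7 / 4 * (√e)⁻¹))
    (M : PMB (bet e κ / √e) (bet e κ)⁻¹) {n : ℕ} (hn : n < 5) {τ : ℂ}
    (T : St e κ (xB n) (LamB n) (ynB κ n) τ) :
    LinkOK e κ (aB e κ n) (xB (n + 1)) (LamB (n + 1)) (ynB κ (n + 1)) (aB e κ (n + 1)) τ := by
  interval_cases n
  · exact linkB_0 he hκ hb hD M T
  · exact linkB_1 he hκ hb hD M T
  · exact linkB_2 he hκ hb hD M T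
  · exact linkB_3 he hκ hb hD M T
  · exact linkB_4 he hκ hb hD M T

theorem cFB_C : cFB1.C = cFB2.C := by norm_num [cFB1, cFB2]

/-- The first node, chart B. -/
theorem firstB_all (he : 200 ≤ e) (hκ : 0 < κ) (hb : 5 ≤ bet e κ)
    (hD : bet e κ ^ 2 ≤ e * (13864 / 10000 + 7 / 4 * (√e)⁻¹))
    (M : PMB (bet e κ / √e) (bet e κ)⁻¹) {v : ℝ} (hv0 : 0 ≤ v) (hv1 : v ≤ Real.pi) :
    FirstOK e κ cFB1.C (xB 0) (LamB 0) (ynB κ 0) (aB e κ 0) v := by
  have C := chB he hκ hb hD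
  have hv2 : v ≤ 3927 / 1250 := by
    have := Real.pi_lt_d4
    norm_num at this ⊢
    linarith
  obtain ⟨ops, ho, hr⟩ := cov_FB C.o0 C.o1 C.t0 C.t1 hv0 hv2
  simp only [Cert.FB.progs, List.mem_cons, List.not_mem_nil, or_false] at ho
  rcases ho with rfl | rfl | rfl | rfl
  · obtain ⟨P⟩ := ex_FB_0 hr
    exact firstB he hκ hb hD M hv0 hv1 (Or.inl rfl) P
  · obtain ⟨P⟩ := ex_FB_1 hr
    rw [cFB_C]
    exact firstB he hκ hb hD M hv0 hv1 (Or.inr rfl) P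
  · have := ex_FB_gE hr
    have := C.gE
    linarith
  · have := ex_FB_gK hr
    have := C.gK
    linarith

/-- The test, chart B. -/
theorem testB_all (he : 200 ≤ e) (hκ : 0 < κ) (hb : 5 ≤ bet e κ)
    (hD : bet e κ ^ 2 ≤ e * (13864 / 10000 + 7 / 4 * (√e)⁻¹))
    (M : PMB (bet e κ / √e) (bet e κ)⁻¹) : TestOK e κ cFB1.C := by
  have C := chB he hκ hb hD
  have p1 : 314159265 / 10 ^ 8 ≤ Real.pi := by
    have := Real.pi_gt_d20
    norm_num at this ⊢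
    linarith
  have p2 : Real.pi ≤ 314159266 / 10 ^ 8 := by
    have := Real.pi_lt_d20
    norm_num at this ⊢
    linarith
  obtain ⟨ops, ho, hr⟩ := cov_TB C.o0 C.o1 C.t0 C.t1 p1 p2
  simp only [Cert.TB.progs, List.mem_cons, List.not_mem_nil, or_false] at ho
  rcases ho with rfl | rfl | rfl | rfl
  · obtain ⟨P, ⟨PT⟩⟩ := ex_TB_0 hr
    exact testB he hκ hb hD M (Or.inl rfl) P PT
  · obtain ⟨P, ⟨PT⟩⟩ := ex_TB_1 hr
    rw [cFB_C]
    exact testB he hκ hb hD M (Or.inr rfl) P PT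
  · have := ex_TB_gE hr
    have := C.gE
    linarith
  · have := ex_TB_gK hr
    have := C.gK
    linarith

end Pool.Agent.helper31.EQB
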