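import Pool.Agent.helper31.EQB.Cst
import Pool.Agent.helper31.EQB.Cert.FQP
import Pool.Agent.helper31.EQB.Cert.TAP
import Pool.Agent.helper31.EQB.Cert.FPP
import Pool.Agent.helper71.FF.Real

/-!
Generated: meaning of the programs.
-/

namespace Pool.Agent.helper31.EQB

open Pool.Agent.helper71.FF (RAs zv)
open Pool.Agent.helper31.IA (Z Op)

set_option maxRecDepth 100000

private theorem zc_61083746304_0 : (29127 / 524288 : ℝ) = zv 61083746304 0 := by unfold zv; norm_num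

private theorem zc_97184055296_0 : (1482911 / 16777216 : ℝ) = zv 97184055296 0 := by unfold zv; norm_num

private theorem zc_112608673792_0 : (839 / 8192 : ℝ) = zv 112608673792 0 := by unfold zv; norm_num

private theorem zc_136096776192_0 : (507 / 4096 : ℝ) = zv 136096776192 0 := by unfold zv; norm_num

private theorem zc_137438953472_0 : (1 / 8 : ℝ) = zv 137438953472 0 := by unfold zv; norm_num

private theorem zc_147041812480_0 : (70115 / 524288 : ℝ) = zv 147041812480 0 := by unfold zv; norm_num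

private theorem zc_151731044352_0 : (72351 / 524288 : ℝ) = zv 151731044352 0 := by unfold zv; norm_num

private theorem zc_151733141504_0 : (2261 / 16384 : ℝ) = zv 151733141504 0 := by unfold zv; norm_num

private theorem zc_157073539072_0 : (149797 / 1048576 : ℝ) = zv 157073539072 0 := by unfold zv; norm_num

private theorem zc_175922741248_0 : (167773 / 1048576 : ℝ) = zv 175922741248 0 := by unfold zv; norm_num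

private theorem zc_274877906944_0 : (1 / 4 : ℝ) = zv 274877906944 0 := by unfold zv; norm_num

private theorem zc_307864010752_0 : (146801 / 524288 : ℝ) = zv 307864010752 0 := by unfold zv; norm_num

private theorem zc_329853698048_0 : (314573 / 1048576 : ℝ) = zv 329853698048 0 := by unfold zv; norm_num

private theorem zc_366504574976_0 : (174763 / 524288 : ℝ) = zv 366504574976 0 := by unfold zv; norm_num

private theorem zc_472790335488_0 : (56361 / 131072 : ℝ) = zv 472790335488 0 := by unfold zv; norm_num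

private theorem zc_547341991936_0 : (260993 / 524288 : ℝ) = zv 547341991936 0 := by unfold zv; norm_num

private theorem zc_548547854336_0 : (4087 / 8192 : ℝ) = zv 548547854336 0 := by unfold zv; norm_num

private theorem zc_549755813888_0 : (1 / 2 : ℝ) = zv 549755813888 0 := by unfold zv; norm_num

private theorem zc_582741917696_0 : (277873 / 524288 : ℝ) = zv 582741917696 0 := by unfold zv; norm_num

private theorem zc_615726972928_0 : (587203 / 1048576 : ℝ) = zv 615726972928 0 := by unfold zv; norm_num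

private theorem zc_617925836800_0 : (147325 / 262144 : ℝ) = zv 617925836800 0 := by unfold zv; norm_num

private theorem zc_824633720832_0 : (3 / 4 : ℝ) = zv 824633720832 0 := by unfold zv; norm_num

private theorem zc_989560045568_0 : (471859 / 524288 : ℝ) = zv 989560045568 0 := by unfold zv; norm_num

private theorem zc_989989961728_0 : (461 / 512 : ℝ) = zv 989989961728 0 := by unfold zv; norm_num

private theorem zc_1097093611520_0 : (523135 / 524288 : ℝ) = zv 1097093611520 0 := by unfold zv; norm_num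

private theorem zc_1097095708672_0 : (4087 / 4096 : ℝ) = zv 1097095708672 0 := by unfold zv; norm_num

private theorem zc_1097968123904_0 : (16361 / 16384 : ℝ) = zv 1097968123904 0 := by unfold zv; norm_num

private theorem zc_1098301571072_0 : (523711 / 524288 : ℝ) = zv 1098301571072 0 := by unfold zv; norm_num

private theorem zc_1098437885952_0 : (1023 / 1024 : ℝ) = zv 1098437885952 0 := by unfold zv; norm_num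

private theorem zc_1099243192320_0 : (4095 / 4096 : ℝ) = zv 1099243192320 0 := by unfold zv; norm_num

private theorem zc_1099511627776_0 : (1 : ℝ) = zv 1099511627776 0 := by unfold zv; norm_num

private theorem zc_1110506995712_0 : (529531 / 524288 : ℝ) = zv 1110506995712 0 := by unfold zv; norm_num

private theorem zc_1121502363648_0 : (267387 / 262144 : ℝ) = zv 1121502363648 0 := by unfold zv; norm_num

private theorem zc_1121758216192_0 : (33431 / 32768 : ℝ) = zv 1121758216192 0 := by unfold zv; norm_num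

private theorem zc_1165482786816_0 : (1111491 / 1048576 : ℝ) = zv 1165482786816 0 := by unfold zv; norm_num

private theorem zc_1554944884736_0 : (1482911 / 1048576 : ℝ) = zv 1554944884736 0 := by unfold zv; norm_num

private theorem zc_1556388773888_0 : (2899 / 2048 : ℝ) = zv 1556388773888 0 := by unfold zv; norm_num

private theorem zc_1649267441664_0 : (3 / 2 : ℝ) = zv 1649267441664 0 := by unfold zv; norm_num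

private theorem zc_1724298297344_0 : (1644419 / 1048576 : ℝ) = zv 1724298297344 0 := by unfold zv; norm_num

private theorem zc_1759219023872_0 : (838861 / 524288 : ℝ) = zv 1759219023872 0 := by unfold zv; norm_num

private theorem zc_1992864825344_0 : (29 / 16 : ℝ) = zv 1992864825344 0 := by unfold zv; norm_num

private theorem zc_2083864444928_0 : (7763 / 4096 : ℝ) = zv 2083864444928 0 := by unfold zv; norm_num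

private theorem zc_2100239007744_0 : (489 / 256 : ℝ) = zv 2100239007744 0 := by unfold zv; norm_num

private theorem zc_2199023255552_0 : (2 : ℝ) = zv 2199023255552 0 := by unfold zv; norm_num

private theorem zc_2748779069440_0 : (5 / 2 : ℝ) = zv 2748779069440 0 := by unfold zv; norm_num

private theorem zc_3092376453120_0 : (45 / 16 : ℝ) = zv 3092376453120 0 := by unfold zv; norm_num

private theorem zc_3111703805952_0 : (1449 / 512 : ℝ) = zv 3111703805952 0 := by unfold zv; norm_num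

private theorem zc_3189013217280_0 : (1485 / 512 : ℝ) = zv 3189013217280 0 := by unfold zv; norm_num

private theorem zc_3298534883328_0 : (3 : ℝ) = zv 3298534883328 0 := by unfold zv; norm_num

private theorem zc_3454218010624_0 : (3294199 / 1048576 : ℝ) = zv 3454218010624 0 := by unfold zv; norm_num

private theorem zc_3518651957248_0 : (3277 / 1024 : ℝ) = zv 3518651957248 0 := by unfold zv; norm_num

private theorem zc_4398046511104_0 : (4 : ℝ) = zv 4398046511104 0 := by unfold zv; norm_num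

private theorem zc_5498631880704_0 : (5121 / 1024 : ℝ) = zv 5498631880704 0 := by unfold zv; norm_num

private theorem zc_7972533043200_0 : (7425 / 1024 : ℝ) = zv 7972533043200 0 := by unfold zv; norm_num

private theorem zc_8796093022208_0 : (8 : ℝ) = zv 8796093022208 0 := by unfold zv; norm_num

private theorem zc_9249480507392_0 : (34457 / 4096 : ℝ) = zv 9249480507392 0 := by unfold zv; norm_num

private theorem zc_10115506765824_0 : (9646899 / 1048576 : ℝ) = zv 10115506765824 0 := by unfold zv; norm_num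

private theorem zc_10851745529856_0 : (10349031 / 1048576 : ℝ) = zv 10851745529856 0 := by unfold zv; norm_num

private theorem zc_26388279066624_0 : (24 : ℝ) = zv 26388279066624 0 := by unfold zv; norm_num

private theorem zc_32985348833280_0 : (30 : ℝ) = zv 32985348833280 0 := by unfold zv; norm_num

theorem ex_FQ {sg be v : ℝ} (h : RAs Cert.FQ.prog0 [sg, be, v]) :
    ∃ R kc vs iR GrS GtS G2S DG DF vDG EM EMr : ℝ, Nonempty (PFAv be v R kc vs iR) ∧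
    ∃ P : PFA cFA sg be v R kc vs GrS GtS G2S DG DF vDG EM EMr, Nonempty (PFAg iR P) ∧ Nonempty (PFAq iR P) := by
  obtain ⟨ie, e_ie⟩ : ∃ zz : ℝ, zz = sg * sg := ⟨_, rfl⟩
  obtain ⟨L, e_L⟩ : ∃ zz : ℝ, zz = (1 / 2) * Real.log (be * be + v * v) := ⟨_, rfl⟩
  obtain ⟨R, e_R⟩ : ∃ zz : ℝ, zz = Real.exp L := ⟨_, rfl⟩
  obtain ⟨iR, e_iR⟩ : ∃ zz : ℝ, zz = Real.exp (-L) := ⟨_, rfl⟩
  obtain ⟨kc, e_kc⟩ : ∃ zz : ℝ, zz = be * iR := ⟨_, rfl⟩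
  obtain ⟨vs, e_vs⟩ : ∃ zz : ℝ, zz = v * iR := ⟨_, rfl⟩
  obtain ⟨w, e_w⟩ : ∃ zz : ℝ, zz = sg * R := ⟨_, rfl⟩
  obtain ⟨V, e_V⟩ : ∃ zz : ℝ, zz = w * w := ⟨_, rfl⟩
  obtain ⟨wse, e_wse⟩ : ∃ zz : ℝ, zz = w * sg := ⟨_, rfl⟩
  obtain ⟨K, e_K⟩ : ∃ zz : ℝ, zz = be * ie := ⟨_, rfl⟩
  obtain ⟨K2, e_K2⟩ : ∃ zz : ℝ, zz = K * K := ⟨_, rfl⟩
  obtain ⟨K2se, e_K2se⟩ : ∃ zz : ℝ, zz = K * be * sg := ⟨_, rfl⟩
  obtain ⟨q, e_q⟩ : ∃ zz : ℝ, zz = (4095 / 4096 : ℝ) - (1449 / 512) * sg - 30 * ie := ⟨_, rfl⟩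
  obtain ⟨sp, e_sp⟩ : ∃ zz : ℝ, zz = (4095 / 4096 : ℝ) - (2899 / 2048) * sg - 24 * ie := ⟨_, rfl⟩
  obtain ⟨lau, e_lau⟩ : ∃ zz : ℝ, zz = (1 / 2) * be + Real.log (Real.exp (-be) + (1 : ℝ)) := ⟨_, rfl⟩
  obtain ⟨GrS, e_GrS⟩ : ∃ zz : ℝ, zz = sg * (lau + (1644419 / 1048576 : ℝ)) + (70115 / 524288) * iR := ⟨_, rfl⟩
  obtain ⟨sv, e_sv⟩ : ∃ zz : ℝ, zz = sg * v := ⟨_, rfl⟩
  obtain ⟨GtS, e_GtS⟩ : ∃ zz : ℝ, zz = Real.exp ((1 / 2) * Real.log (GrS * GrS + sv * sv)) := ⟨_, rfl⟩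
  obtain ⟨G2S, e_G2S⟩ : ∃ zz : ℝ, zz = Real.exp ((1 / 2) * Real.log (GrS * GrS + (1 / 4) * (sv * sv))) := ⟨_, rfl⟩
  obtain ⟨i4, e_i4⟩ : ∃ zz : ℝ, zz = (be + (4 : ℝ))⁻¹ := ⟨_, rfl⟩
  obtain ⟨XS, e_XS⟩ : ∃ zz : ℝ, zz = 4 * ((2261 / 16384) * i4) := ⟨_, rfl⟩
  obtain ⟨X, e_X⟩ : ∃ zz : ℝ, zz = R * XS := ⟨_, rfl⟩
  obtain ⟨bb, e_bb⟩ : ∃ zz : ℝ, zz = be * be * ie := ⟨_, rfl⟩
  obtain ⟨iR2, e_iR2⟩ : ∃ zz : ℝ, zz = iR * iR := ⟨_, rfl⟩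
  obtain ⟨rb, e_rb⟩ : ∃ zz : ℝ, zz = iR + (1 / 4) * kc := ⟨_, rfl⟩
  obtain ⟨Vie, e_Vie⟩ : ∃ zz : ℝ, zz = V * ie := ⟨_, rfl⟩
  obtain ⟨a, e_a⟩ : ∃ zz : ℝ, zz = sg * GtS + (461 / 512) * ie := ⟨_, rfl⟩
  obtain ⟨ea, e_ea⟩ : ∃ zz : ℝ, zz = Real.exp a := ⟨_, rfl⟩
  obtain ⟨e2a, e_e2a⟩ : ∃ zz : ℝ, zz = ea * ea := ⟨_, rfl⟩
  obtain ⟨er, e_er⟩ : ∃ zz : ℝ, zz = ((838861 / 524288) * V + (5 / 2) * v) * ie := ⟨_, rfl⟩
  obtain ⟨h4, e_h4⟩ : ∃ zz : ℝ, zz = (1 : ℝ) - (1 / 4) * K2 := ⟨_, rfl⟩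
  obtain ⟨dzS, e_dzS⟩ : ∃ zz : ℝ, zz = vs * (G2S + ea * ((1 / 2) * (sg * GtS * GtS) + (149797 / 1048576) * K2se)) + w * ((3 / 2) * e2a - (3 / 2 : ℝ) + (3 / 4) * K2 + v * ie + er) + K2se * ((1 / 8) * (v * vs * ie)) := ⟨_, rfl⟩
  obtain ⟨dzR, e_dzR⟩ : ∃ zz : ℝ, zz = dzS * sg := ⟨_, rfl⟩
  obtain ⟨r1V, e_r1V⟩ : ∃ zz : ℝ, zz = h4 * ((3 : ℝ) - (3 / 2) * e2a) - (1 / 2) * (kc * kc) - vs * vs * ea - er := ⟨_, rfl⟩
  obtain ⟨r2V, e_r2V⟩ : ∃ zz : ℝ, zz = (3 / 2) * e2a - h4 * ((1 / 2) * (kc * kc)) + er := ⟨_, rfl⟩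
  obtain ⟨glf, e_glf⟩ : ∃ zz : ℝ, zz = (1 : ℝ) + (267387 / 262144) * ((838861 / 524288) * V * ie) := ⟨_, rfl⟩
  obtain ⟨ycR, e_ycR⟩ : ∃ zz : ℝ, zz = vs * (glf + 2 * (Vie * e2a)) + wse * er := ⟨_, rfl⟩
  obtain ⟨r1w, e_r1w⟩ : ∃ zz : ℝ, zz = r1V * wse := ⟨_, rfl⟩
  obtain ⟨kv, e_kv⟩ : ∃ zz : ℝ, zz = kc * kc + ycR * ycR := ⟨_, rfl⟩
  obtain ⟨x1, e_x1⟩ : ∃ zz : ℝ, zz = (1023 / 1024) * r1V * (kv + r1w * r1w)⁻¹ := ⟨_, rfl⟩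
  obtain ⟨z, e_z⟩ : ∃ zz : ℝ, zz = 2 * (vs * vs * Vie) := ⟨_, rfl⟩
  obtain ⟨sR0, e_sR0⟩ : ∃ zz : ℝ, zz = (1 : ℝ) - z := ⟨_, rfl⟩
  obtain ⟨m, e_m⟩ : ∃ zz : ℝ, zz = sR0 - dzR - dzR * dzR := ⟨_, rfl⟩
  obtain ⟨m2, e_m2⟩ : ∃ zz : ℝ, zz = m * m := ⟨_, rfl⟩
  obtain ⟨wn, e_wn⟩ : ∃ zz : ℝ, zz = w * m := ⟨_, rfl⟩
  obtain ⟨q2, e_q2⟩ : ∃ zz : ℝ, zz = q - 8 * ie - (7425 / 1024) * Vie := ⟨_, rfl⟩
  obtain ⟨l1, e_l1⟩ : ∃ zz : ℝ, zz = (16361 / 16384) * x1 := ⟨_, rfl⟩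
  obtain ⟨l2, e_l2⟩ : ∃ zz : ℝ, zz = (16361 / 16384) * (x1 + (1 : ℝ)) := ⟨_, rfl⟩
  obtain ⟨lv, e_lv⟩ : ∃ zz : ℝ, zz = l1 * V * m2 := ⟨_, rfl⟩
  obtain ⟨u, e_u⟩ : ∃ zz : ℝ, zz = Real.exp (-(q2 * lv)) := ⟨_, rfl⟩
  obtain ⟨bna, e_bna⟩ : ∃ zz : ℝ, zz = (523711 / 524288) * sp := ⟨_, rfl⟩
  obtain ⟨wsa, e_wsa⟩ : ∃ zz : ℝ, zz = bna * wn := ⟨_, rfl⟩
  obtain ⟨ba, e_ba⟩ : ∃ zz : ℝ, zz = bna * ((1 / 2) * wsa + ((1482911 / 16777216) * (wsa * wsa) + (1482911 / 1048576 : ℝ)))⁻¹ := ⟨_, rfl⟩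
  obtain ⟨iba, e_iba⟩ : ∃ zz : ℝ, zz = (ba + (4087 / 8192) * (q * wn * l2))⁻¹ := ⟨_, rfl⟩
  obtain ⟨Maw, e_Maw⟩ : ∃ zz : ℝ, zz = u * (wn + iba) := ⟨_, rfl⟩
  obtain ⟨l3, e_l3⟩ : ∃ zz : ℝ, zz = (16361 / 16384) * (x1 + (2 : ℝ)) := ⟨_, rfl⟩
  obtain ⟨bnc, e_bnc⟩ : ∃ zz : ℝ, zz = (523135 / 524288) * sp := ⟨_, rfl⟩
  obtain ⟨wsc, e_wsc⟩ : ∃ zz : ℝ, zz = bnc * wn := ⟨_, rfl⟩
  obtain ⟨bc, e_bc⟩ : ∃ zz : ℝ, zz = bnc * ((1 / 2) * wsc + ((1482911 / 16777216) * (wsc * wsc) + (1482911 / 1048576 : ℝ)))⁻¹ := ⟨_, rfl⟩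
  obtain ⟨ibc, e_ibc⟩ : ∃ zz : ℝ, zz = (bc + (260993 / 524288) * (q * wn * l3))⁻¹ := ⟨_, rfl⟩
  obtain ⟨ub, e_ub⟩ : ∃ zz : ℝ, zz = Real.exp (-(q2 * ((4087 / 4096) * (l2 * V * m2)))) := ⟨_, rfl⟩
  obtain ⟨Mbw, e_Mbw⟩ : ∃ zz : ℝ, zz = ub * (wn + ibc) := ⟨_, rfl⟩
  obtain ⟨iX, e_iX⟩ : ∃ zz : ℝ, zz = ((1 : ℝ) - X)⁻¹ := ⟨_, rfl⟩
  obtain ⟨LX, e_LX⟩ : ∃ zz : ℝ, zz = (1 : ℝ) + (1 / 2) * X + (174763 / 524288) * (X * X * iX) := ⟨_, rfl⟩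
  obtain ⟨uX, e_uX⟩ : ∃ zz : ℝ, zz = u * X := ⟨_, rfl⟩
  obtain ⟨LU, e_LU⟩ : ∃ zz : ℝ, zz = (1 : ℝ) + (1 / 2) * uX + (174763 / 524288) * (uX * uX * ((1 : ℝ) - uX)⁻¹) := ⟨_, rfl⟩
  obtain ⟨im, e_im⟩ : ∃ zz : ℝ, zz = m⁻¹ := ⟨_, rfl⟩
  obtain ⟨dz, e_dz⟩ : ∃ zz : ℝ, zz = dzS * w := ⟨_, rfl⟩
  obtain ⟨DG, e_DG⟩ : ∃ zz : ℝ, zz = dz + dzS * Mbw * im + X * LX := ⟨_, rfl⟩
  obtain ⟨DF, e_DF⟩ : ∃ zz : ℝ, zz = dzS * Maw * im + uX * LU := ⟨_, rfl⟩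
  obtain ⟨vDG, e_vDG⟩ : ∃ zz : ℝ, zz = v * DG * iR2 := ⟨_, rfl⟩
  obtain ⟨EQ, e_EQ⟩ : ∃ zz : ℝ, zz = (1111491 / 1048576) * e2a * (vDG + ie * (2 * DG + DF)) := ⟨_, rfl⟩
  obtain ⟨ER, e_ER⟩ : ∃ zz : ℝ, zz = EQ * wse := ⟨_, rfl⟩
  obtain ⟨Qw, e_Qw⟩ : ∃ zz : ℝ, zz = ER * im := ⟨_, rfl⟩
  obtain ⟨c2, e_c2⟩ : ∃ zz : ℝ, zz = (-(2 * Qw)) + (4087 / 4096 : ℝ) := ⟨_, rfl⟩
  obtain ⟨s1, e_s1⟩ : ∃ zz : ℝ, zz = (1 / 2) * (kv - (1 : ℝ)) + (1 : ℝ) := ⟨_, rfl⟩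
  obtain ⟨d, e_d⟩ : ∃ zz : ℝ, zz = (33431 / 32768) * (EQ * (m2 * ((1 : ℝ) - Qw))⁻¹) := ⟨_, rfl⟩
  obtain ⟨E, e_E⟩ : ∃ zz : ℝ, zz = EQ * V := ⟨_, rfl⟩
  obtain ⟨yE, e_yE⟩ : ∃ zz : ℝ, zz = ycR * R + E := ⟨_, rfl⟩
  obtain ⟨x2, e_x2⟩ : ∃ zz : ℝ, zz = x1 - d + (1 : ℝ) := ⟨_, rfl⟩
  obtain ⟨l4, e_l4⟩ : ∃ zz : ℝ, zz = (16361 / 16384) * x2 := ⟨_, rfl⟩
  obtain ⟨u1, e_u1⟩ : ∃ zz : ℝ, zz = Real.exp (-(q2 * (l4 * V * m2 * c2))) := ⟨_, rfl⟩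
  obtain ⟨l5, e_l5⟩ : ∃ zz : ℝ, zz = (16361 / 16384) * (x2 + (1 : ℝ)) := ⟨_, rfl⟩
  obtain ⟨cd5, e_cd5⟩ : ∃ zz : ℝ, zz = (4087 / 4096) * c2 := ⟨_, rfl⟩
  obtain ⟨xxn, e_xxn⟩ : ∃ zz : ℝ, zz = (-cd5) + (1 : ℝ) := ⟨_, rfl⟩
  obtain ⟨rcn, e_rcn⟩ : ∃ zz : ℝ, zz = (1 / 2) * xxn * (-(xxn + (1 : ℝ))) + (1 : ℝ) := ⟨_, rfl⟩
  obtain ⟨bnn, e_bnn⟩ : ∃ zz : ℝ, zz = sp * rcn := ⟨_, rfl⟩
  obtain ⟨wsn, e_wsn⟩ : ∃ zz : ℝ, zz = bnn * wn := ⟨_, rfl⟩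
  obtain ⟨bn, e_bn⟩ : ∃ zz : ℝ, zz = bnn * ((1 / 2) * wsn + ((1482911 / 16777216) * (wsn * wsn) + (1482911 / 1048576 : ℝ)))⁻¹ := ⟨_, rfl⟩
  obtain ⟨ibn, e_ibn⟩ : ∃ zz : ℝ, zz = (bn + (1 / 2) * (q * wn * cd5 * l5))⁻¹ := ⟨_, rfl⟩
  obtain ⟨Mnw, e_Mnw⟩ : ∃ zz : ℝ, zz = u1 * (wn + ibn) := ⟨_, rfl⟩
  obtain ⟨EM, e_EM⟩ : ∃ zz : ℝ, zz = E + EQ * w * Mnw * im := ⟨_, rfl⟩
  obtain ⟨EMr, e_EMr⟩ : ∃ zz : ℝ, zz = EM * rb := ⟨_, rfl⟩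
  obtain ⟨i2, e_i2⟩ : ∃ zz : ℝ, zz = ((1 : ℝ) - (1 / 2) * EM)⁻¹ := ⟨_, rfl⟩
  obtain ⟨eta, e_eta⟩ : ∃ zz : ℝ, zz = ((1 / 2) * EM + (1 : ℝ)) * i2 := ⟨_, rfl⟩
  obtain ⟨r2w, e_r2w⟩ : ∃ zz : ℝ, zz = r2V * wse := ⟨_, rfl⟩
  obtain ⟨DPx, e_DPx⟩ : ∃ zz : ℝ, zz = kv + r2w * (r2w + 2 * kc) := ⟨_, rfl⟩
  obtain ⟨VcR, e_VcR⟩ : ∃ zz : ℝ, zz = wse * (kv + r2w * r2w) := ⟨_, rfl⟩
  obtain ⟨DPR, e_DPR⟩ : ∃ zz : ℝ, zz = (1 / 2) * (DPx - (1 : ℝ)) + (1 : ℝ) := ⟨_, rfl⟩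
  obtain ⟨p_a1, ch0⟩ := (((((h
    (1 : ℝ) zc_1099511627776_0
    ie e_ie
    (be * be) rfl
    (v * v) rfl
    (be * be + v * v) rfl).2
    (Real.log (be * be + v * v)) rfl
    L (e_L.trans (congrArg (fun y : ℝ => y * Real.log (be * be + v * v)) zc_549755813888_0))
    R e_R
    (-L) rfl
    iR e_iR
    kc e_kc
    vs e_vs
    w e_w
    V e_V
    wse e_wse
    K e_K
    K2 e_K2
    (K * be) rfl
    K2se e_K2se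
    (4095 / 4096 : ℝ) zc_1099243192320_0
    ((1449 / 512) * sg) (congrArg (fun y : ℝ => y * sg) zc_3111703805952_0)
    ((4095 / 4096 : ℝ) - (1449 / 512) * sg) rfl
    (30 * ie) (congrArg (fun y : ℝ => y * ie) zc_32985348833280_0)
    q e_q
    ((2899 / 2048) * sg) (congrArg (fun y : ℝ => y * sg) zc_1556388773888_0)
    ((4095 / 4096 : ℝ) - (2899 / 2048) * sg) rfl
    (24 * ie) (congrArg (fun y : ℝ => y * ie) zc_26388279066624_0)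
    sp e_sp
    ((1 / 2) * be) (congrArg (fun y : ℝ => y * be) zc_549755813888_0)
    (-be) rfl
    (Real.exp (-be)) rfl
    (Real.exp (-be) + (1 : ℝ)) rfl).2
    (Real.log (Real.exp (-be) + (1 : ℝ))) rfl
    lau e_lau
    (1644419 / 1048576 : ℝ) zc_1724298297344_0
    (lau + (1644419 / 1048576 : ℝ)) rfl
    (sg * (lau + (1644419 / 1048576 : ℝ))) rfl
    ((70115 / 524288) * iR) (congrArg (fun y : ℝ => y * iR) zc_147041812480_0)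
    GrS e_GrS
    sv e_sv
    (GrS * GrS) rfl
    (sv * sv) rfl
    (GrS * GrS + sv * sv) rfl).2
    (Real.log (GrS * GrS + sv * sv)) rfl
    ((1 / 2) * Real.log (GrS * GrS + sv * sv)) (congrArg (fun y : ℝ => y * Real.log (GrS * GrS + sv * sv)) zc_549755813888_0)
    GtS e_GtS
    ((1 / 4) * (sv * sv)) (congrArg (fun y : ℝ => y * (sv * sv)) zc_274877906944_0)
    (GrS * GrS + (1 / 4) * (sv * sv)) rfl).2
    (Real.log (GrS * GrS + (1 / 4) * (sv * sv))) rfl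
    ((1 / 2) * Real.log (GrS * GrS + (1 / 4) * (sv * sv))) (congrArg (fun y : ℝ => y * Real.log (GrS * GrS + (1 / 4) * (sv * sv))) zc_549755813888_0)
    G2S e_G2S
    (4 : ℝ) zc_4398046511104_0
    (be + (4 : ℝ)) rfl).2
    i4 e_i4
    ((2261 / 16384) * i4) (congrArg (fun y : ℝ => y * i4) zc_151733141504_0)
    XS (e_XS.trans (congrArg (fun y : ℝ => y * ((2261 / 16384) * i4)) zc_4398046511104_0))
    X e_X
    bb e_bb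
    iR2 e_iR2
    ((1 / 4) * kc) (congrArg (fun y : ℝ => y * kc) zc_274877906944_0)
    rb e_rb
    Vie e_Vie
    (sg * GtS) rfl
    ((461 / 512) * ie) (congrArg (fun y : ℝ => y * ie) zc_989989961728_0)
    a e_a
    ea e_ea
    e2a e_e2a
    (-a) rfl
    (29127 / 524288 : ℝ) zc_61083746304_0
    ((-a) + (29127 / 524288 : ℝ)) rfl
  change 0 < (-a) + (29127 / 524288 : ℝ) at p_a1
  obtain ⟨p_x11, ch1⟩ := (ch0
    ((838861 / 524288) * V) (congrArg (fun y : ℝ => y * V) zc_1759219023872_0)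
    ((5 / 2) * v) (congrArg (fun y : ℝ => y * v) zc_2748779069440_0)
    ((838861 / 524288) * V + (5 / 2) * v) rfl
    er e_er
    ((1 / 4) * K2) (congrArg (fun y : ℝ => y * K2) zc_274877906944_0)
    h4 e_h4
    (sg * GtS * GtS) rfl
    ((1 / 2) * (sg * GtS * GtS)) (congrArg (fun y : ℝ => y * (sg * GtS * GtS)) zc_549755813888_0)
    ((149797 / 1048576) * K2se) (congrArg (fun y : ℝ => y * K2se) zc_157073539072_0)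
    ((1 / 2) * (sg * GtS * GtS) + (149797 / 1048576) * K2se) rfl
    (ea * ((1 / 2) * (sg * GtS * GtS) + (149797 / 1048576) * K2se)) rfl
    (G2S + ea * ((1 / 2) * (sg * GtS * GtS) + (149797 / 1048576) * K2se)) rfl
    (vs * (G2S + ea * ((1 / 2) * (sg * GtS * GtS) + (149797 / 1048576) * K2se))) rfl
    ((3 / 2) * e2a) (congrArg (fun y : ℝ => y * e2a) zc_1649267441664_0)
    (3 / 2 : ℝ) zc_1649267441664_0
    ((3 / 2) * e2a - (3 / 2 : ℝ)) rfl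
    ((3 / 4) * K2) (congrArg (fun y : ℝ => y * K2) zc_824633720832_0)
    ((3 / 2) * e2a - (3 / 2 : ℝ) + (3 / 4) * K2) rfl
    (v * ie) rfl
    ((3 / 2) * e2a - (3 / 2 : ℝ) + (3 / 4) * K2 + v * ie) rfl
    ((3 / 2) * e2a - (3 / 2 : ℝ) + (3 / 4) * K2 + v * ie + er) rfl
    (w * ((3 / 2) * e2a - (3 / 2 : ℝ) + (3 / 4) * K2 + v * ie + er)) rfl
    (vs * (G2S + ea * ((1 / 2) * (sg * GtS * GtS) + (149797 / 1048576) * K2se)) + w * ((3 / 2) * e2a - (3 / 2 : ℝ) + (3 / 4) * K2 + v * ie + er)) rfl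
    (v * vs) rfl
    (v * vs * ie) rfl
    ((1 / 8) * (v * vs * ie)) (congrArg (fun y : ℝ => y * (v * vs * ie)) zc_137438953472_0)
    (K2se * ((1 / 8) * (v * vs * ie))) rfl
    dzS e_dzS
    dzR e_dzR
    (3 : ℝ) zc_3298534883328_0
    ((3 : ℝ) - (3 / 2) * e2a) rfl
    (h4 * ((3 : ℝ) - (3 / 2) * e2a)) rfl
    (kc * kc) rfl
    ((1 / 2) * (kc * kc)) (congrArg (fun y : ℝ => y * (kc * kc)) zc_549755813888_0)
    (h4 * ((3 : ℝ) - (3 / 2) * e2a) - (1 / 2) * (kc * kc)) rfl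
    (vs * vs) rfl
    (vs * vs * ea) rfl
    (h4 * ((3 : ℝ) - (3 / 2) * e2a) - (1 / 2) * (kc * kc) - vs * vs * ea) rfl
    r1V e_r1V
    (h4 * ((1 / 2) * (kc * kc))) rfl
    ((3 / 2) * e2a - h4 * ((1 / 2) * (kc * kc))) rfl
    r2V e_r2V
    ((838861 / 524288) * V * ie) rfl
    ((267387 / 262144) * ((838861 / 524288) * V * ie)) (congrArg (fun y : ℝ => y * ((838861 / 524288) * V * ie)) zc_1121502363648_0)
    glf e_glf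
    (Vie * e2a) rfl
    (2 * (Vie * e2a)) (congrArg (fun y : ℝ => y * (Vie * e2a)) zc_2199023255552_0)
    (glf + 2 * (Vie * e2a)) rfl
    (vs * (glf + 2 * (Vie * e2a))) rfl
    (wse * er) rfl
    ycR e_ycR
    r1w e_r1w
    (ycR * ycR) rfl
    kv e_kv
    ((1023 / 1024) * r1V) (congrArg (fun y : ℝ => y * r1V) zc_1098437885952_0)
    (r1w * r1w) rfl
    (kv + r1w * r1w) rfl).2
    ((kv + r1w * r1w)⁻¹) rfl
    x1 e_x1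
    (-x1) rfl
    ((-x1) + (1 : ℝ)) rfl
  change 0 < (-x1) + (1 : ℝ) at p_x11
  obtain ⟨p_X1, ch2⟩ := ((((ch1
    (vs * vs * Vie) rfl
    z (e_z.trans (congrArg (fun y : ℝ => y * (vs * vs * Vie)) zc_2199023255552_0))
    sR0 e_sR0
    (sR0 - dzR) rfl
    (dzR * dzR) rfl
    m e_m
    m2 e_m2
    wn e_wn
    (8 * ie) (congrArg (fun y : ℝ => y * ie) zc_8796093022208_0)
    (q - 8 * ie) rfl
    ((7425 / 1024) * Vie) (congrArg (fun y : ℝ => y * Vie) zc_7972533043200_0)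
    q2 e_q2
    l1 (e_l1.trans (congrArg (fun y : ℝ => y * x1) zc_1097968123904_0))
    (x1 + (1 : ℝ)) rfl
    l2 (e_l2.trans (congrArg (fun y : ℝ => y * (x1 + (1 : ℝ))) zc_1097968123904_0))
    (l1 * V) rfl
    lv e_lv
    (q2 * lv) rfl
    (-(q2 * lv)) rfl
    u e_u
    bna (e_bna.trans (congrArg (fun y : ℝ => y * sp) zc_1098301571072_0))
    (q * wn) rfl
    (q * wn * l2) rfl
    ((4087 / 8192) * (q * wn * l2)) (congrArg (fun y : ℝ => y * (q * wn * l2)) zc_548547854336_0)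
    wsa e_wsa
    ((1 / 2) * wsa) (congrArg (fun y : ℝ => y * wsa) zc_549755813888_0)
    (wsa * wsa) rfl
    ((1482911 / 16777216) * (wsa * wsa)) (congrArg (fun y : ℝ => y * (wsa * wsa)) zc_97184055296_0)
    (1482911 / 1048576 : ℝ) zc_1554944884736_0
    ((1482911 / 16777216) * (wsa * wsa) + (1482911 / 1048576 : ℝ)) rfl
    ((1 / 2) * wsa + ((1482911 / 16777216) * (wsa * wsa) + (1482911 / 1048576 : ℝ))) rfl).2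
    (((1 / 2) * wsa + ((1482911 / 16777216) * (wsa * wsa) + (1482911 / 1048576 : ℝ)))⁻¹) rfl
    ba e_ba
    (ba + (4087 / 8192) * (q * wn * l2)) rfl).2
    iba e_iba
    (wn + iba) rfl
    Maw e_Maw
    (2 : ℝ) zc_2199023255552_0
    (x1 + (2 : ℝ)) rfl
    l3 (e_l3.trans (congrArg (fun y : ℝ => y * (x1 + (2 : ℝ))) zc_1097968123904_0))
    bnc (e_bnc.trans (congrArg (fun y : ℝ => y * sp) zc_1097093611520_0))
    (q * wn * l3) rfl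
    ((260993 / 524288) * (q * wn * l3)) (congrArg (fun y : ℝ => y * (q * wn * l3)) zc_547341991936_0)
    wsc e_wsc
    ((1 / 2) * wsc) (congrArg (fun y : ℝ => y * wsc) zc_549755813888_0)
    (wsc * wsc) rfl
    ((1482911 / 16777216) * (wsc * wsc)) (congrArg (fun y : ℝ => y * (wsc * wsc)) zc_97184055296_0)
    ((1482911 / 16777216) * (wsc * wsc) + (1482911 / 1048576 : ℝ)) rfl
    ((1 / 2) * wsc + ((1482911 / 16777216) * (wsc * wsc) + (1482911 / 1048576 : ℝ))) rfl).2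
    (((1 / 2) * wsc + ((1482911 / 16777216) * (wsc * wsc) + (1482911 / 1048576 : ℝ)))⁻¹) rfl
    bc e_bc
    (bc + (260993 / 524288) * (q * wn * l3)) rfl).2
    ibc e_ibc
    (l2 * V) rfl
    (l2 * V * m2) rfl
    ((4087 / 4096) * (l2 * V * m2)) (congrArg (fun y : ℝ => y * (l2 * V * m2)) zc_1097095708672_0)
    (q2 * ((4087 / 4096) * (l2 * V * m2))) rfl
    (-(q2 * ((4087 / 4096) * (l2 * V * m2)))) rfl
    ub e_ub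
    (wn + ibc) rfl
    Mbw e_Mbw
    ((1 : ℝ) - X) rfl
  change 0 < (1 : ℝ) - X at p_X1
  obtain ⟨p_cG, ch3⟩ := (((ch2).2
    iX e_iX
    ((1 / 2) * X) (congrArg (fun y : ℝ => y * X) zc_549755813888_0)
    ((1 : ℝ) + (1 / 2) * X) rfl
    (X * X) rfl
    (X * X * iX) rfl
    ((174763 / 524288) * (X * X * iX)) (congrArg (fun y : ℝ => y * (X * X * iX)) zc_366504574976_0)
    LX e_LX
    uX e_uX
    ((1 / 2) * uX) (congrArg (fun y : ℝ => y * uX) zc_549755813888_0)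
    ((1 : ℝ) + (1 / 2) * uX) rfl
    (uX * uX) rfl
    ((1 : ℝ) - uX) rfl).2
    (((1 : ℝ) - uX)⁻¹) rfl
    (uX * uX * ((1 : ℝ) - uX)⁻¹) rfl
    ((174763 / 524288) * (uX * uX * ((1 : ℝ) - uX)⁻¹)) (congrArg (fun y : ℝ => y * (uX * uX * ((1 : ℝ) - uX)⁻¹)) zc_366504574976_0)
    LU e_LU).2
    im e_im
    dz e_dz
    (dzS * Mbw) rfl
    (dzS * Mbw * im) rfl
    (dz + dzS * Mbw * im) rfl
    (X * LX) rfl
    DG e_DG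
    (dzS * Maw) rfl
    (dzS * Maw * im) rfl
    (uX * LU) rfl
    DF e_DF
    (v * DG) rfl
    vDG e_vDG
    (-DG) rfl
    (461 / 512 : ℝ) zc_989989961728_0
    ((-DG) + (461 / 512 : ℝ)) rfl
  change 0 < (-DG) + (461 / 512 : ℝ) at p_cG
  obtain ⟨p_cF, ch4⟩ := ch3
    (-DF) rfl
    ((-DF) + (461 / 512 : ℝ)) rfl
  change 0 < (-DF) + (461 / 512 : ℝ) at p_cF
  obtain ⟨p_Es, ch5⟩ := ch4
    ((1111491 / 1048576) * e2a) (congrArg (fun y : ℝ => y * e2a) zc_1165482786816_0)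
    (2 * DG) (congrArg (fun y : ℝ => y * DG) zc_2199023255552_0)
    (2 * DG + DF) rfl
    (ie * (2 * DG + DF)) rfl
    (vDG + ie * (2 * DG + DF)) rfl
    EQ e_EQ
    ER e_ER
    Qw e_Qw
    ((1 : ℝ) - Qw) rfl
  change 0 < (1 : ℝ) - Qw at p_Es
  obtain ⟨p_R1, ch6⟩ := ch5
    (2 * Qw) (congrArg (fun y : ℝ => y * Qw) zc_2199023255552_0)
    (-(2 * Qw)) rfl
    (4087 / 4096 : ℝ) zc_1097095708672_0
    c2 e_c2
    (kv - (1 : ℝ)) rfl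
    ((1 / 2) * (kv - (1 : ℝ))) (congrArg (fun y : ℝ => y * (kv - (1 : ℝ))) zc_549755813888_0)
    s1 e_s1
    (7763 / 4096 : ℝ) zc_2083864444928_0
    (dzR + (1 : ℝ)) rfl
    ((dzR + (1 : ℝ)) * (dzR + (1 : ℝ))) rfl
    ((7763 / 4096 : ℝ) - (dzR + (1 : ℝ)) * (dzR + (1 : ℝ))) rfl
  change 0 < (7763 / 4096 : ℝ) - (dzR + (1 : ℝ)) * (dzR + (1 : ℝ)) at p_R1
  obtain ⟨p_R2, ch7⟩ := ch6
    (1485 / 512 : ℝ) zc_3189013217280_0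
    ((1485 / 512 : ℝ) - r2V) rfl
    ((1485 / 512 : ℝ) - r2V - EQ) rfl
    (s1 + dzR) rfl
    (s1 + dzR + ER) rfl
    ((s1 + dzR + ER) * (s1 + dzR + ER)) rfl
    ((1485 / 512 : ℝ) - r2V - EQ - (s1 + dzR + ER) * (s1 + dzR + ER)) rfl
  change 0 < (1485 / 512 : ℝ) - r2V - EQ - (s1 + dzR + ER) * (s1 + dzR + ER) at p_R2
  obtain ⟨p_h9, ch8⟩ := ch7
    (m2 * c2) rfl
    ((9646899 / 1048576) * (m2 * c2)) (congrArg (fun y : ℝ => y * (m2 * c2)) zc_10115506765824_0)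
    ((9646899 / 1048576) * (m2 * c2) - (1485 / 512 : ℝ)) rfl
  change 0 < (9646899 / 1048576) * (m2 * c2) - (1485 / 512 : ℝ) at p_h9
  obtain ⟨p_h2, ch9⟩ := ch8
    ((471859 / 524288) * (m2 * c2)) (congrArg (fun y : ℝ => y * (m2 * c2)) zc_989560045568_0)
    ((34457 / 4096) * Vie) (congrArg (fun y : ℝ => y * Vie) zc_9249480507392_0)
    ((471859 / 524288) * (m2 * c2) - (34457 / 4096) * Vie) rfl
  change 0 < (471859 / 524288) * (m2 * c2) - (34457 / 4096) * Vie at p_h2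
  obtain ⟨p_q20, ch10⟩ := ch9
  change 0 < q2 at p_q20
  obtain ⟨p_dzS0, ch11⟩ := ch10
  change 0 < sR0 - dzR at p_dzS0
  obtain ⟨p_m0, ch12⟩ := ch11
  change 0 < m at p_m0
  obtain ⟨p_x0, ch13⟩ := (ch12
    (m2 * ((1 : ℝ) - Qw)) rfl).2
    ((m2 * ((1 : ℝ) - Qw))⁻¹) rfl
    (EQ * (m2 * ((1 : ℝ) - Qw))⁻¹) rfl
    d (e_d.trans (congrArg (fun y : ℝ => y * (EQ * (m2 * ((1 : ℝ) - Qw))⁻¹)) zc_1121758216192_0))
    (x1 - d) rfl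
    (507 / 4096 : ℝ) zc_136096776192_0
    (x1 - d - (507 / 4096 : ℝ)) rfl
  change 0 < x1 - d - (507 / 4096 : ℝ) at p_x0
  obtain ⟨p_Er, ch14⟩ := ch13
    (r1V - EQ) rfl
  change 0 < r1V - EQ at p_Er
  obtain ⟨p_La, ch15⟩ := ch14
    ((1 : ℝ) - 2 * Qw) rfl
    (m2 * ((1 : ℝ) - 2 * Qw)) rfl
    ((489 / 256) * (m2 * ((1 : ℝ) - 2 * Qw))) (congrArg (fun y : ℝ => y * (m2 * ((1 : ℝ) - 2 * Qw))) zc_2100239007744_0)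
    ((489 / 256) * (m2 * ((1 : ℝ) - 2 * Qw)) - r2V) rfl
    ((489 / 256) * (m2 * ((1 : ℝ) - 2 * Qw)) - r2V - EQ) rfl
  change 0 < (489 / 256) * (m2 * ((1 : ℝ) - 2 * Qw)) - r2V - EQ at p_La
  obtain ⟨p_y0, ch16⟩ := ch15
    E e_E
    (ycR * R) rfl
    yE e_yE
    (-yE) rfl
    (3277 / 1024 : ℝ) zc_3518651957248_0
    ((-yE) + (3277 / 1024 : ℝ)) rfl
  change 0 < (-yE) + (3277 / 1024 : ℝ) at p_y0
  obtain ⟨p_EM2, ch17⟩ := ((ch16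
    x2 e_x2
    l4 (e_l4.trans (congrArg (fun y : ℝ => y * x2) zc_1097968123904_0))
    (l4 * V) rfl
    (l4 * V * m2) rfl
    (l4 * V * m2 * c2) rfl
    (q2 * (l4 * V * m2 * c2)) rfl
    (-(q2 * (l4 * V * m2 * c2))) rfl
    u1 e_u1
    (x2 + (1 : ℝ)) rfl
    l5 (e_l5.trans (congrArg (fun y : ℝ => y * (x2 + (1 : ℝ))) zc_1097968123904_0))
    cd5 (e_cd5.trans (congrArg (fun y : ℝ => y * c2) zc_1097095708672_0))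
    (-cd5) rfl
    xxn e_xxn
    ((1 / 2) * xxn) (congrArg (fun y : ℝ => y * xxn) zc_549755813888_0)
    (xxn + (1 : ℝ)) rfl
    (-(xxn + (1 : ℝ))) rfl
    ((1 / 2) * xxn * (-(xxn + (1 : ℝ)))) rfl
    rcn e_rcn
    bnn e_bnn
    (q * wn * cd5) rfl
    (q * wn * cd5 * l5) rfl
    ((1 / 2) * (q * wn * cd5 * l5)) (congrArg (fun y : ℝ => y * (q * wn * cd5 * l5)) zc_549755813888_0)
    wsn e_wsn
    ((1 / 2) * wsn) (congrArg (fun y : ℝ => y * wsn) zc_549755813888_0)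
    (wsn * wsn) rfl
    ((1482911 / 16777216) * (wsn * wsn)) (congrArg (fun y : ℝ => y * (wsn * wsn)) zc_97184055296_0)
    ((1482911 / 16777216) * (wsn * wsn) + (1482911 / 1048576 : ℝ)) rfl
    ((1 / 2) * wsn + ((1482911 / 16777216) * (wsn * wsn) + (1482911 / 1048576 : ℝ))) rfl).2
    (((1 / 2) * wsn + ((1482911 / 16777216) * (wsn * wsn) + (1482911 / 1048576 : ℝ)))⁻¹) rfl
    bn e_bn
    (bn + (1 / 2) * (q * wn * cd5 * l5)) rfl).2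
    ibn e_ibn
    (wn + ibn) rfl
    Mnw e_Mnw
    (EQ * w) rfl
    (EQ * w * Mnw) rfl
    (EQ * w * Mnw * im) rfl
    EM e_EM
    EMr e_EMr
    ((1 / 2) * EM) (congrArg (fun y : ℝ => y * EM) zc_549755813888_0)
    ((1 : ℝ) - (1 / 2) * EM) rfl
  change 0 < (1 : ℝ) - (1 / 2) * EM at p_EM2
  obtain ⟨p_cl, ch18⟩ := (ch17).2
    i2 e_i2
    ((1 / 2) * EM + (1 : ℝ)) rfl
    eta e_eta
    r2w e_r2w
    (2 * kc) (congrArg (fun y : ℝ => y * kc) zc_2199023255552_0)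
    (r2w + 2 * kc) rfl
    (r2w * (r2w + 2 * kc)) rfl
    DPx e_DPx
    (r2w * r2w) rfl
    (kv + r2w * r2w) rfl
    VcR e_VcR
    (DPx - (1 : ℝ)) rfl
    ((1 / 2) * (DPx - (1 : ℝ))) (congrArg (fun y : ℝ => y * (DPx - (1 : ℝ))) zc_549755813888_0)
    DPR e_DPR
    (EMr * i2) rfl
    (eta * u1) rfl
    ((839 / 8192) * (eta * u1)) (congrArg (fun y : ℝ => y * (eta * u1)) zc_112608673792_0)
    (DPR + VcR) rfl
    (DPR + VcR + ER) rfl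
    ((839 / 8192) * (eta * u1) * (DPR + VcR + ER)) rfl
    (EMr * i2 + (839 / 8192) * (eta * u1) * (DPR + VcR + ER)) rfl
    (-(EMr * i2 + (839 / 8192) * (eta * u1) * (DPR + VcR + ER))) rfl
    (72351 / 524288 : ℝ) zc_151731044352_0
    ((-(EMr * i2 + (839 / 8192) * (eta * u1) * (DPR + VcR + ER))) + (72351 / 524288 : ℝ)) rfl
  change 0 < (-(EMr * i2 + (839 / 8192) * (eta * u1) * (DPR + VcR + ER))) + (72351 / 524288 : ℝ) at p_cl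
  exact ⟨R, kc, vs, iR, GrS, GtS, G2S, DG, DF, vDG, EM, EMr, ⟨⟨L, e_L, e_R, e_iR, e_kc, e_vs⟩⟩,
    ⟨ie, w, V, wse, K, K2, K2se, q, sp, lau, i4, XS, X, Vie, a, ea, e2a, er, h4, dzS, dzR, r1V,
    r2V, glf, ycR, r1w, kv, x1, z, sR0, m, m2, wn, q2, l1, l2, lv, u, iX, LX, uX, LU, im, dz,
    EQ, ER, Qw, c2, s1, d, E, yE, x2, l4, u1, i2, eta, r2w, DPx, VcR, DPR, e_ie, e_w, e_V,
    e_wse, e_K, e_K2, e_K2se, e_q, e_sp, e_lau, e_i4, e_XS, e_X, e_Vie, e_a, e_ea, e_e2a, e_er,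
    e_h4, e_dzS, e_dzR, e_r1V, e_r2V, e_glf, e_ycR, e_r1w, e_kv, e_x1, e_z, e_sR0, e_m, e_m2,
    e_wn, e_q2, e_l1, e_l2, e_lv, e_u, e_iX, e_LX, e_uX, e_LU, e_im, e_dz, e_EQ, e_ER, e_Qw,
    e_c2, e_s1, e_d, e_E, e_yE, e_x2, e_l4, e_u1, e_i2, e_eta, e_r2w, e_DPx, e_VcR, e_DPR, p_a1,
    p_x11, p_X1, p_cG, p_cF, p_Es, p_R1, p_R2, p_h9, p_h2, p_q20, p_dzS0, p_m0, p_x0, p_Er,
    p_La, p_y0, p_EM2, p_cl⟩,
    ⟨⟨sv, e_GrS, e_sv, e_GtS, e_G2S⟩⟩, ⟨⟨iR2, rb, bna, wsa, ba, iba, Maw, l3, bnc, wsc, bc, ibc, ub, Mbw, l5, cd5, xxn, rcn, bnn,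
    wsn, bn, ibn, Mnw, e_iR2, e_rb, e_bna, e_wsa, e_ba, e_iba, e_Maw, e_l3, e_bnc, e_wsc, e_bc,
    e_ibc, e_ub, e_Mbw, e_DG, e_DF, e_vDG, e_l5, e_cd5, e_xxn, e_rcn, e_bnn, e_wsn, e_bn, e_ibn,
    e_Mnw, e_EM, e_EMr⟩⟩⟩

theorem ex_TA {sg be v : ℝ} (h : RAs Cert.TA.prog0 [sg, be, v]) :
    ∃ R kc vs iR GrS GtS G2S DG DF vDG EM EMr : ℝ, Nonempty (PFAv be v R kc vs iR) ∧
    ∃ P : PFA cFA sg be v R kc vs GrS GtS G2S DG DF vDG EM EMr, Nonempty (PFAg iR P) ∧ Nonempty (PFAq iR P) ∧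
    Nonempty (PFAT P) := by
  obtain ⟨ie, e_ie⟩ : ∃ zz : ℝ, zz = sg * sg := ⟨_, rfl⟩
  obtain ⟨L, e_L⟩ : ∃ zz : ℝ, zz = (1 / 2) * Real.log (be * be + v * v) := ⟨_, rfl⟩
  obtain ⟨R, e_R⟩ : ∃ zz : ℝ, zz = Real.exp L := ⟨_, rfl⟩
  obtain ⟨iR, e_iR⟩ : ∃ zz : ℝ, zz = Real.exp (-L) := ⟨_, rfl⟩
  obtain ⟨kc, e_kc⟩ : ∃ zz : ℝ, zz = be * iR := ⟨_, rfl⟩
  obtain ⟨vs, e_vs⟩ : ∃ zz : ℝ, zz = v * iR := ⟨_, rfl⟩
  obtain ⟨w, e_w⟩ : ∃ zz : ℝ, zz = sg * R := ⟨_, rfl⟩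
  obtain ⟨V, e_V⟩ : ∃ zz : ℝ, zz = w * w := ⟨_, rfl⟩
  obtain ⟨wse, e_wse⟩ : ∃ zz : ℝ, zz = w * sg := ⟨_, rfl⟩
  obtain ⟨K, e_K⟩ : ∃ zz : ℝ, zz = be * ie := ⟨_, rfl⟩
  obtain ⟨K2, e_K2⟩ : ∃ zz : ℝ, zz = K * K := ⟨_, rfl⟩
  obtain ⟨K2se, e_K2se⟩ : ∃ zz : ℝ, zz = K * be * sg := ⟨_, rfl⟩
  obtain ⟨q, e_q⟩ : ∃ zz : ℝ, zz = (4095 / 4096 : ℝ) - (1449 / 512) * sg - 30 * ie := ⟨_, rfl⟩
  obtain ⟨sp, e_sp⟩ : ∃ zz : ℝ, zz = (4095 / 4096 : ℝ) - (2899 / 2048) * sg - 24 * ie := ⟨_, rfl⟩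
  obtain ⟨lau, e_lau⟩ : ∃ zz : ℝ, zz = (1 / 2) * be + Real.log (Real.exp (-be) + (1 : ℝ)) := ⟨_, rfl⟩
  obtain ⟨GrS, e_GrS⟩ : ∃ zz : ℝ, zz = sg * (lau + (1644419 / 1048576 : ℝ)) + (70115 / 524288) * iR := ⟨_, rfl⟩
  obtain ⟨sv, e_sv⟩ : ∃ zz : ℝ, zz = sg * v := ⟨_, rfl⟩
  obtain ⟨GtS, e_GtS⟩ : ∃ zz : ℝ, zz = Real.exp ((1 / 2) * Real.log (GrS * GrS + sv * sv)) := ⟨_, rfl⟩
  obtain ⟨G2S, e_G2S⟩ : ∃ zz : ℝ, zz = Real.exp ((1 / 2) * Real.log (GrS * GrS + (1 / 4) * (sv * sv))) := ⟨_, rfl⟩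
  obtain ⟨i4, e_i4⟩ : ∃ zz : ℝ, zz = (be + (4 : ℝ))⁻¹ := ⟨_, rfl⟩
  obtain ⟨XS, e_XS⟩ : ∃ zz : ℝ, zz = 4 * ((2261 / 16384) * i4) := ⟨_, rfl⟩
  obtain ⟨X, e_X⟩ : ∃ zz : ℝ, zz = R * XS := ⟨_, rfl⟩
  obtain ⟨bb, e_bb⟩ : ∃ zz : ℝ, zz = be * be * ie := ⟨_, rfl⟩
  obtain ⟨iR2, e_iR2⟩ : ∃ zz : ℝ, zz = iR * iR := ⟨_, rfl⟩
  obtain ⟨rb, e_rb⟩ : ∃ zz : ℝ, zz = iR + (1 / 4) * kc := ⟨_, rfl⟩
  obtain ⟨Vie, e_Vie⟩ : ∃ zz : ℝ, zz = V * ie := ⟨_, rfl⟩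
  obtain ⟨a, e_a⟩ : ∃ zz : ℝ, zz = sg * GtS + (461 / 512) * ie := ⟨_, rfl⟩
  obtain ⟨ea, e_ea⟩ : ∃ zz : ℝ, zz = Real.exp a := ⟨_, rfl⟩
  obtain ⟨e2a, e_e2a⟩ : ∃ zz : ℝ, zz = ea * ea := ⟨_, rfl⟩
  obtain ⟨er, e_er⟩ : ∃ zz : ℝ, zz = ((838861 / 524288) * V + (5 / 2) * v) * ie := ⟨_, rfl⟩
  obtain ⟨h4, e_h4⟩ : ∃ zz : ℝ, zz = (1 : ℝ) - (1 / 4) * K2 := ⟨_, rfl⟩
  obtain ⟨dzS, e_dzS⟩ : ∃ zz : ℝ, zz = vs * (G2S + ea * ((1 / 2) * (sg * GtS * GtS) + (149797 / 1048576) * K2se)) + w * ((3 / 2) * e2a - (3 / 2 : ℝ) + (3 / 4) * K2 + v * ie + er) + K2se * ((1 / 8) * (v * vs * ie)) := ⟨_, rfl⟩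
  obtain ⟨dzR, e_dzR⟩ : ∃ zz : ℝ, zz = dzS * sg := ⟨_, rfl⟩
  obtain ⟨r1V, e_r1V⟩ : ∃ zz : ℝ, zz = h4 * ((3 : ℝ) - (3 / 2) * e2a) - (1 / 2) * (kc * kc) - vs * vs * ea - er := ⟨_, rfl⟩
  obtain ⟨r2V, e_r2V⟩ : ∃ zz : ℝ, zz = (3 / 2) * e2a - h4 * ((1 / 2) * (kc * kc)) + er := ⟨_, rfl⟩
  obtain ⟨glf, e_glf⟩ : ∃ zz : ℝ, zz = (1 : ℝ) + (267387 / 262144) * ((838861 / 524288) * V * ie) := ⟨_, rfl⟩
  obtain ⟨ycR, e_ycR⟩ : ∃ zz : ℝ, zz = vs * (glf + 2 * (Vie * e2a)) + wse * er := ⟨_, rfl⟩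
  obtain ⟨r1w, e_r1w⟩ : ∃ zz : ℝ, zz = r1V * wse := ⟨_, rfl⟩
  obtain ⟨kv, e_kv⟩ : ∃ zz : ℝ, zz = kc * kc + ycR * ycR := ⟨_, rfl⟩
  obtain ⟨x1, e_x1⟩ : ∃ zz : ℝ, zz = (1023 / 1024) * r1V * (kv + r1w * r1w)⁻¹ := ⟨_, rfl⟩
  obtain ⟨z, e_z⟩ : ∃ zz : ℝ, zz = 2 * (vs * vs * Vie) := ⟨_, rfl⟩
  obtain ⟨sR0, e_sR0⟩ : ∃ zz : ℝ, zz = (1 : ℝ) - z := ⟨_, rfl⟩
  obtain ⟨m, e_m⟩ : ∃ zz : ℝ, zz = sR0 - dzR - dzR * dzR := ⟨_, rfl⟩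
  obtain ⟨m2, e_m2⟩ : ∃ zz : ℝ, zz = m * m := ⟨_, rfl⟩
  obtain ⟨wn, e_wn⟩ : ∃ zz : ℝ, zz = w * m := ⟨_, rfl⟩
  obtain ⟨q2, e_q2⟩ : ∃ zz : ℝ, zz = q - 8 * ie - (7425 / 1024) * Vie := ⟨_, rfl⟩
  obtain ⟨l1, e_l1⟩ : ∃ zz : ℝ, zz = (16361 / 16384) * x1 := ⟨_, rfl⟩
  obtain ⟨l2, e_l2⟩ : ∃ zz : ℝ, zz = (16361 / 16384) * (x1 + (1 : ℝ)) := ⟨_, rfl⟩
  obtain ⟨lv, e_lv⟩ : ∃ zz : ℝ, zz = l1 * V * m2 := ⟨_, rfl⟩
  obtain ⟨u, e_u⟩ : ∃ zz : ℝ, zz = Real.exp (-(q2 * lv)) := ⟨_, rfl⟩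
  obtain ⟨bna, e_bna⟩ : ∃ zz : ℝ, zz = (523711 / 524288) * sp := ⟨_, rfl⟩
  obtain ⟨wsa, e_wsa⟩ : ∃ zz : ℝ, zz = bna * wn := ⟨_, rfl⟩
  obtain ⟨ba, e_ba⟩ : ∃ zz : ℝ, zz = bna * ((1 / 2) * wsa + ((1482911 / 16777216) * (wsa * wsa) + (1482911 / 1048576 : ℝ)))⁻¹ := ⟨_, rfl⟩
  obtain ⟨iba, e_iba⟩ : ∃ zz : ℝ, zz = (ba + (4087 / 8192) * (q * wn * l2))⁻¹ := ⟨_, rfl⟩
  obtain ⟨Maw, e_Maw⟩ : ∃ zz : ℝ, zz = u * (wn + iba) := ⟨_, rfl⟩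
  obtain ⟨l3, e_l3⟩ : ∃ zz : ℝ, zz = (16361 / 16384) * (x1 + (2 : ℝ)) := ⟨_, rfl⟩
  obtain ⟨bnc, e_bnc⟩ : ∃ zz : ℝ, zz = (523135 / 524288) * sp := ⟨_, rfl⟩
  obtain ⟨wsc, e_wsc⟩ : ∃ zz : ℝ, zz = bnc * wn := ⟨_, rfl⟩
  obtain ⟨bc, e_bc⟩ : ∃ zz : ℝ, zz = bnc * ((1 / 2) * wsc + ((1482911 / 16777216) * (wsc * wsc) + (1482911 / 1048576 : ℝ)))⁻¹ := ⟨_, rfl⟩
  obtain ⟨ibc, e_ibc⟩ : ∃ zz : ℝ, zz = (bc + (260993 / 524288) * (q * wn * l3))⁻¹ := ⟨_, rfl⟩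
  obtain ⟨ub, e_ub⟩ : ∃ zz : ℝ, zz = Real.exp (-(q2 * ((4087 / 4096) * (l2 * V * m2)))) := ⟨_, rfl⟩
  obtain ⟨Mbw, e_Mbw⟩ : ∃ zz : ℝ, zz = ub * (wn + ibc) := ⟨_, rfl⟩
  obtain ⟨iX, e_iX⟩ : ∃ zz : ℝ, zz = ((1 : ℝ) - X)⁻¹ := ⟨_, rfl⟩
  obtain ⟨LX, e_LX⟩ : ∃ zz : ℝ, zz = (1 : ℝ) + (1 / 2) * X + (174763 / 524288) * (X * X * iX) := ⟨_, rfl⟩
  obtain ⟨uX, e_uX⟩ : ∃ zz : ℝ, zz = u * X := ⟨_, rfl⟩
  obtain ⟨LU, e_LU⟩ : ∃ zz : ℝ, zz = (1 : ℝ) + (1 / 2) * uX + (174763 / 524288) * (uX * uX * ((1 : ℝ) - uX)⁻¹) := ⟨_, rfl⟩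
  obtain ⟨im, e_im⟩ : ∃ zz : ℝ, zz = m⁻¹ := ⟨_, rfl⟩
  obtain ⟨dz, e_dz⟩ : ∃ zz : ℝ, zz = dzS * w := ⟨_, rfl⟩
  obtain ⟨DG, e_DG⟩ : ∃ zz : ℝ, zz = dz + dzS * Mbw * im + X * LX := ⟨_, rfl⟩
  obtain ⟨DF, e_DF⟩ : ∃ zz : ℝ, zz = dzS * Maw * im + uX * LU := ⟨_, rfl⟩
  obtain ⟨vDG, e_vDG⟩ : ∃ zz : ℝ, zz = v * DG * iR2 := ⟨_, rfl⟩
  obtain ⟨EQ, e_EQ⟩ : ∃ zz : ℝ, zz = (1111491 / 1048576) * e2a * (vDG + ie * (2 * DG + DF)) := ⟨_, rfl⟩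
  obtain ⟨ER, e_ER⟩ : ∃ zz : ℝ, zz = EQ * wse := ⟨_, rfl⟩
  obtain ⟨Qw, e_Qw⟩ : ∃ zz : ℝ, zz = ER * im := ⟨_, rfl⟩
  obtain ⟨c2, e_c2⟩ : ∃ zz : ℝ, zz = (-(2 * Qw)) + (4087 / 4096 : ℝ) := ⟨_, rfl⟩
  obtain ⟨s1, e_s1⟩ : ∃ zz : ℝ, zz = (1 / 2) * (kv - (1 : ℝ)) + (1 : ℝ) := ⟨_, rfl⟩
  obtain ⟨d, e_d⟩ : ∃ zz : ℝ, zz = (33431 / 32768) * (EQ * (m2 * ((1 : ℝ) - Qw))⁻¹) := ⟨_, rfl⟩
  obtain ⟨E, e_E⟩ : ∃ zz : ℝ, zz = EQ * V := ⟨_, rfl⟩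
  obtain ⟨yE, e_yE⟩ : ∃ zz : ℝ, zz = ycR * R + E := ⟨_, rfl⟩
  obtain ⟨x2, e_x2⟩ : ∃ zz : ℝ, zz = x1 - d + (1 : ℝ) := ⟨_, rfl⟩
  obtain ⟨l4, e_l4⟩ : ∃ zz : ℝ, zz = (16361 / 16384) * x2 := ⟨_, rfl⟩
  obtain ⟨u1, e_u1⟩ : ∃ zz : ℝ, zz = Real.exp (-(q2 * (l4 * V * m2 * c2))) := ⟨_, rfl⟩
  obtain ⟨l5, e_l5⟩ : ∃ zz : ℝ, zz = (16361 / 16384) * (x2 + (1 : ℝ)) := ⟨_, rfl⟩
  obtain ⟨cd5, e_cd5⟩ : ∃ zz : ℝ, zz = (4087 / 4096) * c2 := ⟨_, rfl⟩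
  obtain ⟨xxn, e_xxn⟩ : ∃ zz : ℝ, zz = (-cd5) + (1 : ℝ) := ⟨_, rfl⟩
  obtain ⟨rcn, e_rcn⟩ : ∃ zz : ℝ, zz = (1 / 2) * xxn * (-(xxn + (1 : ℝ))) + (1 : ℝ) := ⟨_, rfl⟩
  obtain ⟨bnn, e_bnn⟩ : ∃ zz : ℝ, zz = sp * rcn := ⟨_, rfl⟩
  obtain ⟨wsn, e_wsn⟩ : ∃ zz : ℝ, zz = bnn * wn := ⟨_, rfl⟩
  obtain ⟨bn, e_bn⟩ : ∃ zz : ℝ, zz = bnn * ((1 / 2) * wsn + ((1482911 / 16777216) * (wsn * wsn) + (1482911 / 1048576 : ℝ)))⁻¹ := ⟨_, rfl⟩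
  obtain ⟨ibn, e_ibn⟩ : ∃ zz : ℝ, zz = (bn + (1 / 2) * (q * wn * cd5 * l5))⁻¹ := ⟨_, rfl⟩
  obtain ⟨Mnw, e_Mnw⟩ : ∃ zz : ℝ, zz = u1 * (wn + ibn) := ⟨_, rfl⟩
  obtain ⟨EM, e_EM⟩ : ∃ zz : ℝ, zz = E + EQ * w * Mnw * im := ⟨_, rfl⟩
  obtain ⟨EMr, e_EMr⟩ : ∃ zz : ℝ, zz = EM * rb := ⟨_, rfl⟩
  obtain ⟨i2, e_i2⟩ : ∃ zz : ℝ, zz = ((1 : ℝ) - (1 / 2) * EM)⁻¹ := ⟨_, rfl⟩
  obtain ⟨eta, e_eta⟩ : ∃ zz : ℝ, zz = ((1 / 2) * EM + (1 : ℝ)) * i2 := ⟨_, rfl⟩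
  obtain ⟨r2w, e_r2w⟩ : ∃ zz : ℝ, zz = r2V * wse := ⟨_, rfl⟩
  obtain ⟨DPx, e_DPx⟩ : ∃ zz : ℝ, zz = kv + r2w * (r2w + 2 * kc) := ⟨_, rfl⟩
  obtain ⟨VcR, e_VcR⟩ : ∃ zz : ℝ, zz = wse * (kv + r2w * r2w) := ⟨_, rfl⟩
  obtain ⟨DPR, e_DPR⟩ : ∃ zz : ℝ, zz = (1 / 2) * (DPx - (1 : ℝ)) + (1 : ℝ) := ⟨_, rfl⟩
  obtain ⟨tn, e_tn⟩ : ∃ zz : ℝ, zz = (529531 / 524288) * ((3294199 / 1048576) * ie * DF + (3294199 / 1048576) * sg * G2S + (3294199 / 1048576) * ((147325 / 262144) * Vie + (277873 / 524288) * (a * a) + (56361 / 131072) * K2) + (167773 / 1048576) * (V * Vie) + bb * ((1111491 / 1048576) * a + (146801 / 524288) * K2) + (10349031 / 1048576) * ie * ((587203 / 1048576) * (a * a) + (314573 / 1048576) * K2)) := ⟨_, rfl⟩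
  obtain ⟨p_a1, ch0⟩ := (((((h
    (1 : ℝ) zc_1099511627776_0
    ie e_ie
    (be * be) rfl
    (v * v) rfl
    (be * be + v * v) rfl).2
    (Real.log (be * be + v * v)) rfl
    L (e_L.trans (congrArg (fun y : ℝ => y * Real.log (be * be + v * v)) zc_549755813888_0))
    R e_R
    (-L) rfl
    iR e_iR
    kc e_kc
    vs e_vs
    w e_w
    V e_V
    wse e_wse
    K e_K
    K2 e_K2
    (K * be) rfl
    K2se e_K2se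
    (4095 / 4096 : ℝ) zc_1099243192320_0
    ((1449 / 512) * sg) (congrArg (fun y : ℝ => y * sg) zc_3111703805952_0)
    ((4095 / 4096 : ℝ) - (1449 / 512) * sg) rfl
    (30 * ie) (congrArg (fun y : ℝ => y * ie) zc_32985348833280_0)
    q e_q
    ((2899 / 2048) * sg) (congrArg (fun y : ℝ => y * sg) zc_1556388773888_0)
    ((4095 / 4096 : ℝ) - (2899 / 2048) * sg) rfl
    (24 * ie) (congrArg (fun y : ℝ => y * ie) zc_26388279066624_0)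
    sp e_sp
    ((1 / 2) * be) (congrArg (fun y : ℝ => y * be) zc_549755813888_0)
    (-be) rfl
    (Real.exp (-be)) rfl
    (Real.exp (-be) + (1 : ℝ)) rfl).2
    (Real.log (Real.exp (-be) + (1 : ℝ))) rfl
    lau e_lau
    (1644419 / 1048576 : ℝ) zc_1724298297344_0
    (lau + (1644419 / 1048576 : ℝ)) rfl
    (sg * (lau + (1644419 / 1048576 : ℝ))) rfl
    ((70115 / 524288) * iR) (congrArg (fun y : ℝ => y * iR) zc_147041812480_0)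
    GrS e_GrS
    sv e_sv
    (GrS * GrS) rfl
    (sv * sv) rfl
    (GrS * GrS + sv * sv) rfl).2
    (Real.log (GrS * GrS + sv * sv)) rfl
    ((1 / 2) * Real.log (GrS * GrS + sv * sv)) (congrArg (fun y : ℝ => y * Real.log (GrS * GrS + sv * sv)) zc_549755813888_0)
    GtS e_GtS
    ((1 / 4) * (sv * sv)) (congrArg (fun y : ℝ => y * (sv * sv)) zc_274877906944_0)
    (GrS * GrS + (1 / 4) * (sv * sv)) rfl).2
    (Real.log (GrS * GrS + (1 / 4) * (sv * sv))) rfl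
    ((1 / 2) * Real.log (GrS * GrS + (1 / 4) * (sv * sv))) (congrArg (fun y : ℝ => y * Real.log (GrS * GrS + (1 / 4) * (sv * sv))) zc_549755813888_0)
    G2S e_G2S
    (4 : ℝ) zc_4398046511104_0
    (be + (4 : ℝ)) rfl).2
    i4 e_i4
    ((2261 / 16384) * i4) (congrArg (fun y : ℝ => y * i4) zc_151733141504_0)
    XS (e_XS.trans (congrArg (fun y : ℝ => y * ((2261 / 16384) * i4)) zc_4398046511104_0))
    X e_X
    bb e_bb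
    iR2 e_iR2
    ((1 / 4) * kc) (congrArg (fun y : ℝ => y * kc) zc_274877906944_0)
    rb e_rb
    Vie e_Vie
    (sg * GtS) rfl
    ((461 / 512) * ie) (congrArg (fun y : ℝ => y * ie) zc_989989961728_0)
    a e_a
    ea e_ea
    e2a e_e2a
    (-a) rfl
    (29127 / 524288 : ℝ) zc_61083746304_0
    ((-a) + (29127 / 524288 : ℝ)) rfl
  change 0 < (-a) + (29127 / 524288 : ℝ) at p_a1
  obtain ⟨p_x11, ch1⟩ := (ch0
    ((838861 / 524288) * V) (congrArg (fun y : ℝ => y * V) zc_1759219023872_0)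
    ((5 / 2) * v) (congrArg (fun y : ℝ => y * v) zc_2748779069440_0)
    ((838861 / 524288) * V + (5 / 2) * v) rfl
    er e_er
    ((1 / 4) * K2) (congrArg (fun y : ℝ => y * K2) zc_274877906944_0)
    h4 e_h4
    (sg * GtS * GtS) rfl
    ((1 / 2) * (sg * GtS * GtS)) (congrArg (fun y : ℝ => y * (sg * GtS * GtS)) zc_549755813888_0)
    ((149797 / 1048576) * K2se) (congrArg (fun y : ℝ => y * K2se) zc_157073539072_0)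
    ((1 / 2) * (sg * GtS * GtS) + (149797 / 1048576) * K2se) rfl
    (ea * ((1 / 2) * (sg * GtS * GtS) + (149797 / 1048576) * K2se)) rfl
    (G2S + ea * ((1 / 2) * (sg * GtS * GtS) + (149797 / 1048576) * K2se)) rfl
    (vs * (G2S + ea * ((1 / 2) * (sg * GtS * GtS) + (149797 / 1048576) * K2se))) rfl
    ((3 / 2) * e2a) (congrArg (fun y : ℝ => y * e2a) zc_1649267441664_0)
    (3 / 2 : ℝ) zc_1649267441664_0
    ((3 / 2) * e2a - (3 / 2 : ℝ)) rfl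
    ((3 / 4) * K2) (congrArg (fun y : ℝ => y * K2) zc_824633720832_0)
    ((3 / 2) * e2a - (3 / 2 : ℝ) + (3 / 4) * K2) rfl
    (v * ie) rfl
    ((3 / 2) * e2a - (3 / 2 : ℝ) + (3 / 4) * K2 + v * ie) rfl
    ((3 / 2) * e2a - (3 / 2 : ℝ) + (3 / 4) * K2 + v * ie + er) rfl
    (w * ((3 / 2) * e2a - (3 / 2 : ℝ) + (3 / 4) * K2 + v * ie + er)) rfl
    (vs * (G2S + ea * ((1 / 2) * (sg * GtS * GtS) + (149797 / 1048576) * K2se)) + w * ((3 / 2) * e2a - (3 / 2 : ℝ) + (3 / 4) * K2 + v * ie + er)) rfl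
    (v * vs) rfl
    (v * vs * ie) rfl
    ((1 / 8) * (v * vs * ie)) (congrArg (fun y : ℝ => y * (v * vs * ie)) zc_137438953472_0)
    (K2se * ((1 / 8) * (v * vs * ie))) rfl
    dzS e_dzS
    dzR e_dzR
    (3 : ℝ) zc_3298534883328_0
    ((3 : ℝ) - (3 / 2) * e2a) rfl
    (h4 * ((3 : ℝ) - (3 / 2) * e2a)) rfl
    (kc * kc) rfl
    ((1 / 2) * (kc * kc)) (congrArg (fun y : ℝ => y * (kc * kc)) zc_549755813888_0)
    (h4 * ((3 : ℝ) - (3 / 2) * e2a) - (1 / 2) * (kc * kc)) rfl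
    (vs * vs) rfl
    (vs * vs * ea) rfl
    (h4 * ((3 : ℝ) - (3 / 2) * e2a) - (1 / 2) * (kc * kc) - vs * vs * ea) rfl
    r1V e_r1V
    (h4 * ((1 / 2) * (kc * kc))) rfl
    ((3 / 2) * e2a - h4 * ((1 / 2) * (kc * kc))) rfl
    r2V e_r2V
    ((838861 / 524288) * V * ie) rfl
    ((267387 / 262144) * ((838861 / 524288) * V * ie)) (congrArg (fun y : ℝ => y * ((838861 / 524288) * V * ie)) zc_1121502363648_0)
    glf e_glf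
    (Vie * e2a) rfl
    (2 * (Vie * e2a)) (congrArg (fun y : ℝ => y * (Vie * e2a)) zc_2199023255552_0)
    (glf + 2 * (Vie * e2a)) rfl
    (vs * (glf + 2 * (Vie * e2a))) rfl
    (wse * er) rfl
    ycR e_ycR
    r1w e_r1w
    (ycR * ycR) rfl
    kv e_kv
    ((1023 / 1024) * r1V) (congrArg (fun y : ℝ => y * r1V) zc_1098437885952_0)
    (r1w * r1w) rfl
    (kv + r1w * r1w) rfl).2
    ((kv + r1w * r1w)⁻¹) rfl
    x1 e_x1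
    (-x1) rfl
    ((-x1) + (1 : ℝ)) rfl
  change 0 < (-x1) + (1 : ℝ) at p_x11
  obtain ⟨p_X1, ch2⟩ := ((((ch1
    (vs * vs * Vie) rfl
    z (e_z.trans (congrArg (fun y : ℝ => y * (vs * vs * Vie)) zc_2199023255552_0))
    sR0 e_sR0
    (sR0 - dzR) rfl
    (dzR * dzR) rfl
    m e_m
    m2 e_m2
    wn e_wn
    (8 * ie) (congrArg (fun y : ℝ => y * ie) zc_8796093022208_0)
    (q - 8 * ie) rfl
    ((7425 / 1024) * Vie) (congrArg (fun y : ℝ => y * Vie) zc_7972533043200_0)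
    q2 e_q2
    l1 (e_l1.trans (congrArg (fun y : ℝ => y * x1) zc_1097968123904_0))
    (x1 + (1 : ℝ)) rfl
    l2 (e_l2.trans (congrArg (fun y : ℝ => y * (x1 + (1 : ℝ))) zc_1097968123904_0))
    (l1 * V) rfl
    lv e_lv
    (q2 * lv) rfl
    (-(q2 * lv)) rfl
    u e_u
    bna (e_bna.trans (congrArg (fun y : ℝ => y * sp) zc_1098301571072_0))
    (q * wn) rfl
    (q * wn * l2) rfl
    ((4087 / 8192) * (q * wn * l2)) (congrArg (fun y : ℝ => y * (q * wn * l2)) zc_548547854336_0)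
    wsa e_wsa
    ((1 / 2) * wsa) (congrArg (fun y : ℝ => y * wsa) zc_549755813888_0)
    (wsa * wsa) rfl
    ((1482911 / 16777216) * (wsa * wsa)) (congrArg (fun y : ℝ => y * (wsa * wsa)) zc_97184055296_0)
    (1482911 / 1048576 : ℝ) zc_1554944884736_0
    ((1482911 / 16777216) * (wsa * wsa) + (1482911 / 1048576 : ℝ)) rfl
    ((1 / 2) * wsa + ((1482911 / 16777216) * (wsa * wsa) + (1482911 / 1048576 : ℝ))) rfl).2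
    (((1 / 2) * wsa + ((1482911 / 16777216) * (wsa * wsa) + (1482911 / 1048576 : ℝ)))⁻¹) rfl
    ba e_ba
    (ba + (4087 / 8192) * (q * wn * l2)) rfl).2
    iba e_iba
    (wn + iba) rfl
    Maw e_Maw
    (2 : ℝ) zc_2199023255552_0
    (x1 + (2 : ℝ)) rfl
    l3 (e_l3.trans (congrArg (fun y : ℝ => y * (x1 + (2 : ℝ))) zc_1097968123904_0))
    bnc (e_bnc.trans (congrArg (fun y : ℝ => y * sp) zc_1097093611520_0))
    (q * wn * l3) rfl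
    ((260993 / 524288) * (q * wn * l3)) (congrArg (fun y : ℝ => y * (q * wn * l3)) zc_547341991936_0)
    wsc e_wsc
    ((1 / 2) * wsc) (congrArg (fun y : ℝ => y * wsc) zc_549755813888_0)
    (wsc * wsc) rfl
    ((1482911 / 16777216) * (wsc * wsc)) (congrArg (fun y : ℝ => y * (wsc * wsc)) zc_97184055296_0)
    ((1482911 / 16777216) * (wsc * wsc) + (1482911 / 1048576 : ℝ)) rfl
    ((1 / 2) * wsc + ((1482911 / 16777216) * (wsc * wsc) + (1482911 / 1048576 : ℝ))) rfl).2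
    (((1 / 2) * wsc + ((1482911 / 16777216) * (wsc * wsc) + (1482911 / 1048576 : ℝ)))⁻¹) rfl
    bc e_bc
    (bc + (260993 / 524288) * (q * wn * l3)) rfl).2
    ibc e_ibc
    (l2 * V) rfl
    (l2 * V * m2) rfl
    ((4087 / 4096) * (l2 * V * m2)) (congrArg (fun y : ℝ => y * (l2 * V * m2)) zc_1097095708672_0)
    (q2 * ((4087 / 4096) * (l2 * V * m2))) rfl
    (-(q2 * ((4087 / 4096) * (l2 * V * m2)))) rfl
    ub e_ub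
    (wn + ibc) rfl
    Mbw e_Mbw
    ((1 : ℝ) - X) rfl
  change 0 < (1 : ℝ) - X at p_X1
  obtain ⟨p_cG, ch3⟩ := (((ch2).2
    iX e_iX
    ((1 / 2) * X) (congrArg (fun y : ℝ => y * X) zc_549755813888_0)
    ((1 : ℝ) + (1 / 2) * X) rfl
    (X * X) rfl
    (X * X * iX) rfl
    ((174763 / 524288) * (X * X * iX)) (congrArg (fun y : ℝ => y * (X * X * iX)) zc_366504574976_0)
    LX e_LX
    uX e_uX
    ((1 / 2) * uX) (congrArg (fun y : ℝ => y * uX) zc_549755813888_0)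
    ((1 : ℝ) + (1 / 2) * uX) rfl
    (uX * uX) rfl
    ((1 : ℝ) - uX) rfl).2
    (((1 : ℝ) - uX)⁻¹) rfl
    (uX * uX * ((1 : ℝ) - uX)⁻¹) rfl
    ((174763 / 524288) * (uX * uX * ((1 : ℝ) - uX)⁻¹)) (congrArg (fun y : ℝ => y * (uX * uX * ((1 : ℝ) - uX)⁻¹)) zc_366504574976_0)
    LU e_LU).2
    im e_im
    dz e_dz
    (dzS * Mbw) rfl
    (dzS * Mbw * im) rfl
    (dz + dzS * Mbw * im) rfl
    (X * LX) rfl
    DG e_DG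
    (dzS * Maw) rfl
    (dzS * Maw * im) rfl
    (uX * LU) rfl
    DF e_DF
    (v * DG) rfl
    vDG e_vDG
    (-DG) rfl
    (461 / 512 : ℝ) zc_989989961728_0
    ((-DG) + (461 / 512 : ℝ)) rfl
  change 0 < (-DG) + (461 / 512 : ℝ) at p_cG
  obtain ⟨p_cF, ch4⟩ := ch3
    (-DF) rfl
    ((-DF) + (461 / 512 : ℝ)) rfl
  change 0 < (-DF) + (461 / 512 : ℝ) at p_cF
  obtain ⟨p_Es, ch5⟩ := ch4
    ((1111491 / 1048576) * e2a) (congrArg (fun y : ℝ => y * e2a) zc_1165482786816_0)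
    (2 * DG) (congrArg (fun y : ℝ => y * DG) zc_2199023255552_0)
    (2 * DG + DF) rfl
    (ie * (2 * DG + DF)) rfl
    (vDG + ie * (2 * DG + DF)) rfl
    EQ e_EQ
    ER e_ER
    Qw e_Qw
    ((1 : ℝ) - Qw) rfl
  change 0 < (1 : ℝ) - Qw at p_Es
  obtain ⟨p_R1, ch6⟩ := ch5
    (2 * Qw) (congrArg (fun y : ℝ => y * Qw) zc_2199023255552_0)
    (-(2 * Qw)) rfl
    (4087 / 4096 : ℝ) zc_1097095708672_0
    c2 e_c2
    (kv - (1 : ℝ)) rfl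
    ((1 / 2) * (kv - (1 : ℝ))) (congrArg (fun y : ℝ => y * (kv - (1 : ℝ))) zc_549755813888_0)
    s1 e_s1
    (7763 / 4096 : ℝ) zc_2083864444928_0
    (dzR + (1 : ℝ)) rfl
    ((dzR + (1 : ℝ)) * (dzR + (1 : ℝ))) rfl
    ((7763 / 4096 : ℝ) - (dzR + (1 : ℝ)) * (dzR + (1 : ℝ))) rfl
  change 0 < (7763 / 4096 : ℝ) - (dzR + (1 : ℝ)) * (dzR + (1 : ℝ)) at p_R1
  obtain ⟨p_R2, ch7⟩ := ch6
    (1485 / 512 : ℝ) zc_3189013217280_0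
    ((1485 / 512 : ℝ) - r2V) rfl
    ((1485 / 512 : ℝ) - r2V - EQ) rfl
    (s1 + dzR) rfl
    (s1 + dzR + ER) rfl
    ((s1 + dzR + ER) * (s1 + dzR + ER)) rfl
    ((1485 / 512 : ℝ) - r2V - EQ - (s1 + dzR + ER) * (s1 + dzR + ER)) rfl
  change 0 < (1485 / 512 : ℝ) - r2V - EQ - (s1 + dzR + ER) * (s1 + dzR + ER) at p_R2
  obtain ⟨p_h9, ch8⟩ := ch7
    (m2 * c2) rfl
    ((9646899 / 1048576) * (m2 * c2)) (congrArg (fun y : ℝ => y * (m2 * c2)) zc_10115506765824_0)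
    ((9646899 / 1048576) * (m2 * c2) - (1485 / 512 : ℝ)) rfl
  change 0 < (9646899 / 1048576) * (m2 * c2) - (1485 / 512 : ℝ) at p_h9
  obtain ⟨p_h2, ch9⟩ := ch8
    ((471859 / 524288) * (m2 * c2)) (congrArg (fun y : ℝ => y * (m2 * c2)) zc_989560045568_0)
    ((34457 / 4096) * Vie) (congrArg (fun y : ℝ => y * Vie) zc_9249480507392_0)
    ((471859 / 524288) * (m2 * c2) - (34457 / 4096) * Vie) rfl
  change 0 < (471859 / 524288) * (m2 * c2) - (34457 / 4096) * Vie at p_h2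
  obtain ⟨p_q20, ch10⟩ := ch9
  change 0 < q2 at p_q20
  obtain ⟨p_dzS0, ch11⟩ := ch10
  change 0 < sR0 - dzR at p_dzS0
  obtain ⟨p_m0, ch12⟩ := ch11
  change 0 < m at p_m0
  obtain ⟨p_x0, ch13⟩ := (ch12
    (m2 * ((1 : ℝ) - Qw)) rfl).2
    ((m2 * ((1 : ℝ) - Qw))⁻¹) rfl
    (EQ * (m2 * ((1 : ℝ) - Qw))⁻¹) rfl
    d (e_d.trans (congrArg (fun y : ℝ => y * (EQ * (m2 * ((1 : ℝ) - Qw))⁻¹)) zc_1121758216192_0))
    (x1 - d) rfl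
    (507 / 4096 : ℝ) zc_136096776192_0
    (x1 - d - (507 / 4096 : ℝ)) rfl
  change 0 < x1 - d - (507 / 4096 : ℝ) at p_x0
  obtain ⟨p_Er, ch14⟩ := ch13
    (r1V - EQ) rfl
  change 0 < r1V - EQ at p_Er
  obtain ⟨p_La, ch15⟩ := ch14
    ((1 : ℝ) - 2 * Qw) rfl
    (m2 * ((1 : ℝ) - 2 * Qw)) rfl
    ((489 / 256) * (m2 * ((1 : ℝ) - 2 * Qw))) (congrArg (fun y : ℝ => y * (m2 * ((1 : ℝ) - 2 * Qw))) zc_2100239007744_0)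
    ((489 / 256) * (m2 * ((1 : ℝ) - 2 * Qw)) - r2V) rfl
    ((489 / 256) * (m2 * ((1 : ℝ) - 2 * Qw)) - r2V - EQ) rfl
  change 0 < (489 / 256) * (m2 * ((1 : ℝ) - 2 * Qw)) - r2V - EQ at p_La
  obtain ⟨p_y0, ch16⟩ := ch15
    E e_E
    (ycR * R) rfl
    yE e_yE
    (-yE) rfl
    (3277 / 1024 : ℝ) zc_3518651957248_0
    ((-yE) + (3277 / 1024 : ℝ)) rfl
  change 0 < (-yE) + (3277 / 1024 : ℝ) at p_y0
  obtain ⟨p_EM2, ch17⟩ := ((ch16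
    x2 e_x2
    l4 (e_l4.trans (congrArg (fun y : ℝ => y * x2) zc_1097968123904_0))
    (l4 * V) rfl
    (l4 * V * m2) rfl
    (l4 * V * m2 * c2) rfl
    (q2 * (l4 * V * m2 * c2)) rfl
    (-(q2 * (l4 * V * m2 * c2))) rfl
    u1 e_u1
    (x2 + (1 : ℝ)) rfl
    l5 (e_l5.trans (congrArg (fun y : ℝ => y * (x2 + (1 : ℝ))) zc_1097968123904_0))
    cd5 (e_cd5.trans (congrArg (fun y : ℝ => y * c2) zc_1097095708672_0))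
    (-cd5) rfl
    xxn e_xxn
    ((1 / 2) * xxn) (congrArg (fun y : ℝ => y * xxn) zc_549755813888_0)
    (xxn + (1 : ℝ)) rfl
    (-(xxn + (1 : ℝ))) rfl
    ((1 / 2) * xxn * (-(xxn + (1 : ℝ)))) rfl
    rcn e_rcn
    bnn e_bnn
    (q * wn * cd5) rfl
    (q * wn * cd5 * l5) rfl
    ((1 / 2) * (q * wn * cd5 * l5)) (congrArg (fun y : ℝ => y * (q * wn * cd5 * l5)) zc_549755813888_0)
    wsn e_wsn
    ((1 / 2) * wsn) (congrArg (fun y : ℝ => y * wsn) zc_549755813888_0)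
    (wsn * wsn) rfl
    ((1482911 / 16777216) * (wsn * wsn)) (congrArg (fun y : ℝ => y * (wsn * wsn)) zc_97184055296_0)
    ((1482911 / 16777216) * (wsn * wsn) + (1482911 / 1048576 : ℝ)) rfl
    ((1 / 2) * wsn + ((1482911 / 16777216) * (wsn * wsn) + (1482911 / 1048576 : ℝ))) rfl).2
    (((1 / 2) * wsn + ((1482911 / 16777216) * (wsn * wsn) + (1482911 / 1048576 : ℝ)))⁻¹) rfl
    bn e_bn
    (bn + (1 / 2) * (q * wn * cd5 * l5)) rfl).2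
    ibn e_ibn
    (wn + ibn) rfl
    Mnw e_Mnw
    (EQ * w) rfl
    (EQ * w * Mnw) rfl
    (EQ * w * Mnw * im) rfl
    EM e_EM
    EMr e_EMr
    ((1 / 2) * EM) (congrArg (fun y : ℝ => y * EM) zc_549755813888_0)
    ((1 : ℝ) - (1 / 2) * EM) rfl
  change 0 < (1 : ℝ) - (1 / 2) * EM at p_EM2
  obtain ⟨p_cl, ch18⟩ := (ch17).2
    i2 e_i2
    ((1 / 2) * EM + (1 : ℝ)) rfl
    eta e_eta
    r2w e_r2w
    (2 * kc) (congrArg (fun y : ℝ => y * kc) zc_2199023255552_0)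
    (r2w + 2 * kc) rfl
    (r2w * (r2w + 2 * kc)) rfl
    DPx e_DPx
    (r2w * r2w) rfl
    (kv + r2w * r2w) rfl
    VcR e_VcR
    (DPx - (1 : ℝ)) rfl
    ((1 / 2) * (DPx - (1 : ℝ))) (congrArg (fun y : ℝ => y * (DPx - (1 : ℝ))) zc_549755813888_0)
    DPR e_DPR
    (EMr * i2) rfl
    (eta * u1) rfl
    ((839 / 8192) * (eta * u1)) (congrArg (fun y : ℝ => y * (eta * u1)) zc_112608673792_0)
    (DPR + VcR) rfl
    (DPR + VcR + ER) rfl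
    ((839 / 8192) * (eta * u1) * (DPR + VcR + ER)) rfl
    (EMr * i2 + (839 / 8192) * (eta * u1) * (DPR + VcR + ER)) rfl
    (-(EMr * i2 + (839 / 8192) * (eta * u1) * (DPR + VcR + ER))) rfl
    (72351 / 524288 : ℝ) zc_151731044352_0
    ((-(EMr * i2 + (839 / 8192) * (eta * u1) * (DPR + VcR + ER))) + (72351 / 524288 : ℝ)) rfl
  change 0 < (-(EMr * i2 + (839 / 8192) * (eta * u1) * (DPR + VcR + ER))) + (72351 / 524288 : ℝ) at p_cl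
  obtain ⟨p_t9, ch19⟩ := ch18
    ((3294199 / 1048576) * ie) (congrArg (fun y : ℝ => y * ie) zc_3454218010624_0)
    ((3294199 / 1048576) * ie * DF) rfl
    ((3294199 / 1048576) * sg) (congrArg (fun y : ℝ => y * sg) zc_3454218010624_0)
    ((3294199 / 1048576) * sg * G2S) rfl
    ((3294199 / 1048576) * ie * DF + (3294199 / 1048576) * sg * G2S) rfl
    ((147325 / 262144) * Vie) (congrArg (fun y : ℝ => y * Vie) zc_617925836800_0)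
    (a * a) rfl
    ((277873 / 524288) * (a * a)) (congrArg (fun y : ℝ => y * (a * a)) zc_582741917696_0)
    ((147325 / 262144) * Vie + (277873 / 524288) * (a * a)) rfl
    ((56361 / 131072) * K2) (congrArg (fun y : ℝ => y * K2) zc_472790335488_0)
    ((147325 / 262144) * Vie + (277873 / 524288) * (a * a) + (56361 / 131072) * K2) rfl
    ((3294199 / 1048576) * ((147325 / 262144) * Vie + (277873 / 524288) * (a * a) + (56361 / 131072) * K2)) (congrArg (fun y : ℝ => y * ((147325 / 262144) * Vie + (277873 / 524288) * (a * a) + (56361 / 131072) * K2)) zc_3454218010624_0)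
    ((3294199 / 1048576) * ie * DF + (3294199 / 1048576) * sg * G2S + (3294199 / 1048576) * ((147325 / 262144) * Vie + (277873 / 524288) * (a * a) + (56361 / 131072) * K2)) rfl
    (V * Vie) rfl
    ((167773 / 1048576) * (V * Vie)) (congrArg (fun y : ℝ => y * (V * Vie)) zc_175922741248_0)
    ((3294199 / 1048576) * ie * DF + (3294199 / 1048576) * sg * G2S + (3294199 / 1048576) * ((147325 / 262144) * Vie + (277873 / 524288) * (a * a) + (56361 / 131072) * K2) + (167773 / 1048576) * (V * Vie)) rfl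
    ((1111491 / 1048576) * a) (congrArg (fun y : ℝ => y * a) zc_1165482786816_0)
    ((146801 / 524288) * K2) (congrArg (fun y : ℝ => y * K2) zc_307864010752_0)
    ((1111491 / 1048576) * a + (146801 / 524288) * K2) rfl
    (bb * ((1111491 / 1048576) * a + (146801 / 524288) * K2)) rfl
    ((3294199 / 1048576) * ie * DF + (3294199 / 1048576) * sg * G2S + (3294199 / 1048576) * ((147325 / 262144) * Vie + (277873 / 524288) * (a * a) + (56361 / 131072) * K2) + (167773 / 1048576) * (V * Vie) + bb * ((1111491 / 1048576) * a + (146801 / 524288) * K2)) rfl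
    ((10349031 / 1048576) * ie) (congrArg (fun y : ℝ => y * ie) zc_10851745529856_0)
    ((587203 / 1048576) * (a * a)) (congrArg (fun y : ℝ => y * (a * a)) zc_615726972928_0)
    ((314573 / 1048576) * K2) (congrArg (fun y : ℝ => y * K2) zc_329853698048_0)
    ((587203 / 1048576) * (a * a) + (314573 / 1048576) * K2) rfl
    ((10349031 / 1048576) * ie * ((587203 / 1048576) * (a * a) + (314573 / 1048576) * K2)) rfl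
    ((3294199 / 1048576) * ie * DF + (3294199 / 1048576) * sg * G2S + (3294199 / 1048576) * ((147325 / 262144) * Vie + (277873 / 524288) * (a * a) + (56361 / 131072) * K2) + (167773 / 1048576) * (V * Vie) + bb * ((1111491 / 1048576) * a + (146801 / 524288) * K2) + (10349031 / 1048576) * ie * ((587203 / 1048576) * (a * a) + (314573 / 1048576) * K2)) rfl
    tn (e_tn.trans (congrArg (fun y : ℝ => y * ((3294199 / 1048576) * ie * DF + (3294199 / 1048576) * sg * G2S + (3294199 / 1048576) * ((147325 / 262144) * Vie + (277873 / 524288) * (a * a) + (56361 / 131072) * K2) + (167773 / 1048576) * (V * Vie) + bb * ((1111491 / 1048576) * a + (146801 / 524288) * K2) + (10349031 / 1048576) * ie * ((587203 / 1048576) * (a * a) + (314573 / 1048576) * K2))) zc_1110506995712_0))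
    (DF + tn) rfl
    (-(DF + tn)) rfl
    (471859 / 524288 : ℝ) zc_989560045568_0
    ((-(DF + tn)) + (471859 / 524288 : ℝ)) rfl
  change 0 < (-(DF + tn)) + (471859 / 524288 : ℝ) at p_t9
  exact ⟨R, kc, vs, iR, GrS, GtS, G2S, DG, DF, vDG, EM, EMr, ⟨⟨L, e_L, e_R, e_iR, e_kc, e_vs⟩⟩,
    ⟨ie, w, V, wse, K, K2, K2se, q, sp, lau, i4, XS, X, Vie, a, ea, e2a, er, h4, dzS, dzR, r1V,
    r2V, glf, ycR, r1w, kv, x1, z, sR0, m, m2, wn, q2, l1, l2, lv, u, iX, LX, uX, LU, im, dz,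
    EQ, ER, Qw, c2, s1, d, E, yE, x2, l4, u1, i2, eta, r2w, DPx, VcR, DPR, e_ie, e_w, e_V,
    e_wse, e_K, e_K2, e_K2se, e_q, e_sp, e_lau, e_i4, e_XS, e_X, e_Vie, e_a, e_ea, e_e2a, e_er,
    e_h4, e_dzS, e_dzR, e_r1V, e_r2V, e_glf, e_ycR, e_r1w, e_kv, e_x1, e_z, e_sR0, e_m, e_m2,
    e_wn, e_q2, e_l1, e_l2, e_lv, e_u, e_iX, e_LX, e_uX, e_LU, e_im, e_dz, e_EQ, e_ER, e_Qw,
    e_c2, e_s1, e_d, e_E, e_yE, e_x2, e_l4, e_u1, e_i2, e_eta, e_r2w, e_DPx, e_VcR, e_DPR, p_a1,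
    p_x11, p_X1, p_cG, p_cF, p_Es, p_R1, p_R2, p_h9, p_h2, p_q20, p_dzS0, p_m0, p_x0, p_Er,
    p_La, p_y0, p_EM2, p_cl⟩,
    ⟨⟨sv, e_GrS, e_sv, e_GtS, e_G2S⟩⟩, ⟨⟨iR2, rb, bna, wsa, ba, iba, Maw, l3, bnc, wsc, bc, ibc, ub, Mbw, l5, cd5, xxn, rcn, bnn,
    wsn, bn, ibn, Mnw, e_iR2, e_rb, e_bna, e_wsa, e_ba, e_iba, e_Maw, e_l3, e_bnc, e_wsc, e_bc,
    e_ibc, e_ub, e_Mbw, e_DG, e_DF, e_vDG, e_l5, e_cd5, e_xxn, e_rcn, e_bnn, e_wsn, e_bn, e_ibn,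
    e_Mnw, e_EM, e_EMr⟩⟩, ⟨⟨bb, tn, e_bb, e_tn, p_t9⟩⟩⟩

theorem ex_FP {sg be v : ℝ} (h : RAs Cert.FP.prog0 [sg, be, v]) :
    ∃ R kc vs iR GrS GtS G2S DG DF vDG EM EMr : ℝ, Nonempty (PFAv be v R kc vs iR) ∧
    ∃ P : PFA cFA sg be v R kc vs GrS GtS G2S DG DF vDG EM EMr, Nonempty (PFAh P) ∧ Nonempty (PFAr (rF 0) P) := by
  obtain ⟨ie, e_ie⟩ : ∃ zz : ℝ, zz = sg * sg := ⟨_, rfl⟩
  obtain ⟨L, e_L⟩ : ∃ zz : ℝ, zz = (1 / 2) * Real.log (be * be + v * v) := ⟨_, rfl⟩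
  obtain ⟨R, e_R⟩ : ∃ zz : ℝ, zz = Real.exp L := ⟨_, rfl⟩
  obtain ⟨iR, e_iR⟩ : ∃ zz : ℝ, zz = Real.exp (-L) := ⟨_, rfl⟩
  obtain ⟨kc, e_kc⟩ : ∃ zz : ℝ, zz = be * iR := ⟨_, rfl⟩
  obtain ⟨vs, e_vs⟩ : ∃ zz : ℝ, zz = v * iR := ⟨_, rfl⟩
  obtain ⟨w, e_w⟩ : ∃ zz : ℝ, zz = sg * R := ⟨_, rfl⟩
  obtain ⟨V, e_V⟩ : ∃ zz : ℝ, zz = w * w := ⟨_, rfl⟩
  obtain ⟨wse, e_wse⟩ : ∃ zz : ℝ, zz = w * sg := ⟨_, rfl⟩
  obtain ⟨K, e_K⟩ : ∃ zz : ℝ, zz = be * ie := ⟨_, rfl⟩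
  obtain ⟨K2, e_K2⟩ : ∃ zz : ℝ, zz = K * K := ⟨_, rfl⟩
  obtain ⟨K2se, e_K2se⟩ : ∃ zz : ℝ, zz = K * be * sg := ⟨_, rfl⟩
  obtain ⟨q, e_q⟩ : ∃ zz : ℝ, zz = (4095 / 4096 : ℝ) - (1449 / 512) * sg - 30 * ie := ⟨_, rfl⟩
  obtain ⟨sp, e_sp⟩ : ∃ zz : ℝ, zz = (4095 / 4096 : ℝ) - (2899 / 2048) * sg - 24 * ie := ⟨_, rfl⟩
  obtain ⟨lau, e_lau⟩ : ∃ zz : ℝ, zz = (1 / 2) * be + Real.log (Real.exp (-be) + (1 : ℝ)) := ⟨_, rfl⟩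
  obtain ⟨GrS, e_GrS⟩ : ∃ zz : ℝ, zz = sg * lau := ⟨_, rfl⟩
  obtain ⟨GtS, e_GtS⟩ : ∃ zz : ℝ, zz = sg * Real.exp ((1 / 2) * Real.log (lau * lau + v * v)) := ⟨_, rfl⟩
  obtain ⟨G2S, e_G2S⟩ : ∃ zz : ℝ, zz = sg * Real.exp ((1 / 2) * Real.log (lau * lau + (1 / 4) * (v * v))) := ⟨_, rfl⟩
  obtain ⟨i4, e_i4⟩ : ∃ zz : ℝ, zz = (be + (4 : ℝ))⁻¹ := ⟨_, rfl⟩
  obtain ⟨XS, e_XS⟩ : ∃ zz : ℝ, zz = 4 * ((2261 / 16384) * i4) := ⟨_, rfl⟩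
  obtain ⟨X, e_X⟩ : ∃ zz : ℝ, zz = R * XS := ⟨_, rfl⟩
  obtain ⟨bb, e_bb⟩ : ∃ zz : ℝ, zz = be * be * ie := ⟨_, rfl⟩
  obtain ⟨Vie, e_Vie⟩ : ∃ zz : ℝ, zz = V * ie := ⟨_, rfl⟩
  obtain ⟨a, e_a⟩ : ∃ zz : ℝ, zz = sg * GtS + (461 / 512) * ie := ⟨_, rfl⟩
  obtain ⟨ea, e_ea⟩ : ∃ zz : ℝ, zz = Real.exp a := ⟨_, rfl⟩
  obtain ⟨e2a, e_e2a⟩ : ∃ zz : ℝ, zz = ea * ea := ⟨_, rfl⟩
  obtain ⟨er, e_er⟩ : ∃ zz : ℝ, zz = ((838861 / 524288) * V + (5 / 2) * v) * ie := ⟨_, rfl⟩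
  obtain ⟨h4, e_h4⟩ : ∃ zz : ℝ, zz = (1 : ℝ) - (1 / 4) * K2 := ⟨_, rfl⟩
  obtain ⟨dzS, e_dzS⟩ : ∃ zz : ℝ, zz = vs * (G2S + ea * ((1 / 2) * (sg * GtS * GtS) + (149797 / 1048576) * K2se)) + w * ((3 / 2) * e2a - (3 / 2 : ℝ) + (3 / 4) * K2 + v * ie + er) + K2se * ((1 / 8) * (v * vs * ie)) := ⟨_, rfl⟩
  obtain ⟨dzR, e_dzR⟩ : ∃ zz : ℝ, zz = dzS * sg := ⟨_, rfl⟩
  obtain ⟨r1V, e_r1V⟩ : ∃ zz : ℝ, zz = h4 * ((3 : ℝ) - (3 / 2) * e2a) - (1 / 2) * (kc * kc) - vs * vs * ea - er := ⟨_, rfl⟩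
  obtain ⟨r2V, e_r2V⟩ : ∃ zz : ℝ, zz = (3 / 2) * e2a - h4 * ((1 / 2) * (kc * kc)) + er := ⟨_, rfl⟩
  obtain ⟨glf, e_glf⟩ : ∃ zz : ℝ, zz = (1 : ℝ) + (267387 / 262144) * ((838861 / 524288) * V * ie) := ⟨_, rfl⟩
  obtain ⟨ycR, e_ycR⟩ : ∃ zz : ℝ, zz = vs * (glf + 2 * (Vie * e2a)) + wse * er := ⟨_, rfl⟩
  obtain ⟨r1w, e_r1w⟩ : ∃ zz : ℝ, zz = r1V * wse := ⟨_, rfl⟩
  obtain ⟨kv, e_kv⟩ : ∃ zz : ℝ, zz = kc * kc + ycR * ycR := ⟨_, rfl⟩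
  obtain ⟨x1, e_x1⟩ : ∃ zz : ℝ, zz = (1023 / 1024) * r1V * (kv + r1w * r1w)⁻¹ := ⟨_, rfl⟩
  obtain ⟨z, e_z⟩ : ∃ zz : ℝ, zz = 2 * (vs * vs * Vie) := ⟨_, rfl⟩
  obtain ⟨sR0, e_sR0⟩ : ∃ zz : ℝ, zz = (1 : ℝ) - z := ⟨_, rfl⟩
  obtain ⟨m, e_m⟩ : ∃ zz : ℝ, zz = sR0 - dzR - dzR * dzR := ⟨_, rfl⟩
  obtain ⟨m2, e_m2⟩ : ∃ zz : ℝ, zz = m * m := ⟨_, rfl⟩
  obtain ⟨wn, e_wn⟩ : ∃ zz : ℝ, zz = w * m := ⟨_, rfl⟩
  obtain ⟨q2, e_q2⟩ : ∃ zz : ℝ, zz = q - 8 * ie - (7425 / 1024) * Vie := ⟨_, rfl⟩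
  obtain ⟨l1, e_l1⟩ : ∃ zz : ℝ, zz = (16361 / 16384) * x1 := ⟨_, rfl⟩
  obtain ⟨l2, e_l2⟩ : ∃ zz : ℝ, zz = (16361 / 16384) * (x1 + (1 : ℝ)) := ⟨_, rfl⟩
  obtain ⟨lv, e_lv⟩ : ∃ zz : ℝ, zz = l1 * V * m2 := ⟨_, rfl⟩
  obtain ⟨u, e_u⟩ : ∃ zz : ℝ, zz = Real.exp (-(q2 * lv)) := ⟨_, rfl⟩
  obtain ⟨iX, e_iX⟩ : ∃ zz : ℝ, zz = ((1 : ℝ) - X)⁻¹ := ⟨_, rfl⟩
  obtain ⟨LX, e_LX⟩ : ∃ zz : ℝ, zz = (1 : ℝ) + (1 / 2) * X + (174763 / 524288) * (X * X * iX) := ⟨_, rfl⟩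
  obtain ⟨uX, e_uX⟩ : ∃ zz : ℝ, zz = u * X := ⟨_, rfl⟩
  obtain ⟨LU, e_LU⟩ : ∃ zz : ℝ, zz = (1 : ℝ) + (1 / 2) * uX + (174763 / 524288) * (uX * uX * ((1 : ℝ) - uX)⁻¹) := ⟨_, rfl⟩
  obtain ⟨im, e_im⟩ : ∃ zz : ℝ, zz = m⁻¹ := ⟨_, rfl⟩
  obtain ⟨dz, e_dz⟩ : ∃ zz : ℝ, zz = dzS * w := ⟨_, rfl⟩
  obtain ⟨DG, e_DG⟩ : ∃ zz : ℝ, zz = dz + (29 / 16) * dz + X * LX := ⟨_, rfl⟩
  obtain ⟨DF, e_DF⟩ : ∃ zz : ℝ, zz = (45 / 16) * dz + uX * LU := ⟨_, rfl⟩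
  obtain ⟨vDG, e_vDG⟩ : ∃ zz : ℝ, zz = vs * ((29 / 16) * dzR + dzR + XS * LX) := ⟨_, rfl⟩
  obtain ⟨EQ, e_EQ⟩ : ∃ zz : ℝ, zz = (1111491 / 1048576) * e2a * (vDG + ie * (2 * DG + DF)) := ⟨_, rfl⟩
  obtain ⟨ER, e_ER⟩ : ∃ zz : ℝ, zz = EQ * wse := ⟨_, rfl⟩
  obtain ⟨Qw, e_Qw⟩ : ∃ zz : ℝ, zz = ER * im := ⟨_, rfl⟩
  obtain ⟨c2, e_c2⟩ : ∃ zz : ℝ, zz = (-(2 * Qw)) + (4087 / 4096 : ℝ) := ⟨_, rfl⟩
  obtain ⟨s1, e_s1⟩ : ∃ zz : ℝ, zz = (1 / 2) * (kv - (1 : ℝ)) + (1 : ℝ) := ⟨_, rfl⟩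
  obtain ⟨d, e_d⟩ : ∃ zz : ℝ, zz = (33431 / 32768) * (EQ * (m2 * ((1 : ℝ) - Qw))⁻¹) := ⟨_, rfl⟩
  obtain ⟨E, e_E⟩ : ∃ zz : ℝ, zz = EQ * V := ⟨_, rfl⟩
  obtain ⟨yE, e_yE⟩ : ∃ zz : ℝ, zz = ycR * R + E := ⟨_, rfl⟩
  obtain ⟨x2, e_x2⟩ : ∃ zz : ℝ, zz = x1 - d + (1 : ℝ) := ⟨_, rfl⟩
  obtain ⟨l4, e_l4⟩ : ∃ zz : ℝ, zz = (16361 / 16384) * x2 := ⟨_, rfl⟩
  obtain ⟨u1, e_u1⟩ : ∃ zz : ℝ, zz = Real.exp (-(q2 * (l4 * V * m2 * c2))) := ⟨_, rfl⟩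
  obtain ⟨EM, e_EM⟩ : ∃ zz : ℝ, zz = (29 / 16) * E + E := ⟨_, rfl⟩
  obtain ⟨EMr, e_EMr⟩ : ∃ zz : ℝ, zz = ((29 / 16) * ER + ER) * ((1 / 4) * be + (1 : ℝ)) := ⟨_, rfl⟩
  obtain ⟨i2, e_i2⟩ : ∃ zz : ℝ, zz = ((1 : ℝ) - (1 / 2) * EM)⁻¹ := ⟨_, rfl⟩
  obtain ⟨eta, e_eta⟩ : ∃ zz : ℝ, zz = ((1 / 2) * EM + (1 : ℝ)) * i2 := ⟨_, rfl⟩
  obtain ⟨r2w, e_r2w⟩ : ∃ zz : ℝ, zz = r2V * wse := ⟨_, rfl⟩
  obtain ⟨DPx, e_DPx⟩ : ∃ zz : ℝ, zz = kv + r2w * (r2w + 2 * kc) := ⟨_, rfl⟩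
  obtain ⟨VcR, e_VcR⟩ : ∃ zz : ℝ, zz = wse * (kv + r2w * r2w) := ⟨_, rfl⟩
  obtain ⟨DPR, e_DPR⟩ : ∃ zz : ℝ, zz = (1 / 2) * (DPx - (1 : ℝ)) + (1 : ℝ) := ⟨_, rfl⟩
  obtain ⟨p_a1, ch0⟩ := (((((h
    (1 : ℝ) zc_1099511627776_0
    ie e_ie
    (be * be) rfl
    (v * v) rfl
    (be * be + v * v) rfl).2
    (Real.log (be * be + v * v)) rfl
    L (e_L.trans (congrArg (fun y : ℝ => y * Real.log (be * be + v * v)) zc_549755813888_0))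
    R e_R
    (-L) rfl
    iR e_iR
    kc e_kc
    vs e_vs
    w e_w
    V e_V
    wse e_wse
    K e_K
    K2 e_K2
    (K * be) rfl
    K2se e_K2se
    (4095 / 4096 : ℝ) zc_1099243192320_0
    ((1449 / 512) * sg) (congrArg (fun y : ℝ => y * sg) zc_3111703805952_0)
    ((4095 / 4096 : ℝ) - (1449 / 512) * sg) rfl
    (30 * ie) (congrArg (fun y : ℝ => y * ie) zc_32985348833280_0)
    q e_q
    ((2899 / 2048) * sg) (congrArg (fun y : ℝ => y * sg) zc_1556388773888_0)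
    ((4095 / 4096 : ℝ) - (2899 / 2048) * sg) rfl
    (24 * ie) (congrArg (fun y : ℝ => y * ie) zc_26388279066624_0)
    sp e_sp
    ((1 / 2) * be) (congrArg (fun y : ℝ => y * be) zc_549755813888_0)
    (-be) rfl
    (Real.exp (-be)) rfl
    (Real.exp (-be) + (1 : ℝ)) rfl).2
    (Real.log (Real.exp (-be) + (1 : ℝ))) rfl
    lau e_lau
    GrS e_GrS
    (lau * lau) rfl
    (lau * lau + v * v) rfl).2
    (Real.log (lau * lau + v * v)) rfl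
    ((1 / 2) * Real.log (lau * lau + v * v)) (congrArg (fun y : ℝ => y * Real.log (lau * lau + v * v)) zc_549755813888_0)
    (Real.exp ((1 / 2) * Real.log (lau * lau + v * v))) rfl
    GtS e_GtS
    ((1 / 4) * (v * v)) (congrArg (fun y : ℝ => y * (v * v)) zc_274877906944_0)
    (lau * lau + (1 / 4) * (v * v)) rfl).2
    (Real.log (lau * lau + (1 / 4) * (v * v))) rfl
    ((1 / 2) * Real.log (lau * lau + (1 / 4) * (v * v))) (congrArg (fun y : ℝ => y * Real.log (lau * lau + (1 / 4) * (v * v))) zc_549755813888_0)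
    (Real.exp ((1 / 2) * Real.log (lau * lau + (1 / 4) * (v * v)))) rfl
    G2S e_G2S
    (4 : ℝ) zc_4398046511104_0
    (be + (4 : ℝ)) rfl).2
    i4 e_i4
    ((2261 / 16384) * i4) (congrArg (fun y : ℝ => y * i4) zc_151733141504_0)
    XS (e_XS.trans (congrArg (fun y : ℝ => y * ((2261 / 16384) * i4)) zc_4398046511104_0))
    X e_X
    bb e_bb
    Vie e_Vie
    (sg * GtS) rfl
    ((461 / 512) * ie) (congrArg (fun y : ℝ => y * ie) zc_989989961728_0)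
    a e_a
    ea e_ea
    e2a e_e2a
    (-a) rfl
    (29127 / 524288 : ℝ) zc_61083746304_0
    ((-a) + (29127 / 524288 : ℝ)) rfl
  change 0 < (-a) + (29127 / 524288 : ℝ) at p_a1
  obtain ⟨p_x11, ch1⟩ := (ch0
    ((838861 / 524288) * V) (congrArg (fun y : ℝ => y * V) zc_1759219023872_0)
    ((5 / 2) * v) (congrArg (fun y : ℝ => y * v) zc_2748779069440_0)
    ((838861 / 524288) * V + (5 / 2) * v) rfl
    er e_er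
    ((1 / 4) * K2) (congrArg (fun y : ℝ => y * K2) zc_274877906944_0)
    h4 e_h4
    (sg * GtS * GtS) rfl
    ((1 / 2) * (sg * GtS * GtS)) (congrArg (fun y : ℝ => y * (sg * GtS * GtS)) zc_549755813888_0)
    ((149797 / 1048576) * K2se) (congrArg (fun y : ℝ => y * K2se) zc_157073539072_0)
    ((1 / 2) * (sg * GtS * GtS) + (149797 / 1048576) * K2se) rfl
    (ea * ((1 / 2) * (sg * GtS * GtS) + (149797 / 1048576) * K2se)) rfl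
    (G2S + ea * ((1 / 2) * (sg * GtS * GtS) + (149797 / 1048576) * K2se)) rfl
    (vs * (G2S + ea * ((1 / 2) * (sg * GtS * GtS) + (149797 / 1048576) * K2se))) rfl
    ((3 / 2) * e2a) (congrArg (fun y : ℝ => y * e2a) zc_1649267441664_0)
    (3 / 2 : ℝ) zc_1649267441664_0
    ((3 / 2) * e2a - (3 / 2 : ℝ)) rfl
    ((3 / 4) * K2) (congrArg (fun y : ℝ => y * K2) zc_824633720832_0)
    ((3 / 2) * e2a - (3 / 2 : ℝ) + (3 / 4) * K2) rfl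
    (v * ie) rfl
    ((3 / 2) * e2a - (3 / 2 : ℝ) + (3 / 4) * K2 + v * ie) rfl
    ((3 / 2) * e2a - (3 / 2 : ℝ) + (3 / 4) * K2 + v * ie + er) rfl
    (w * ((3 / 2) * e2a - (3 / 2 : ℝ) + (3 / 4) * K2 + v * ie + er)) rfl
    (vs * (G2S + ea * ((1 / 2) * (sg * GtS * GtS) + (149797 / 1048576) * K2se)) + w * ((3 / 2) * e2a - (3 / 2 : ℝ) + (3 / 4) * K2 + v * ie + er)) rfl
    (v * vs) rfl
    (v * vs * ie) rfl
    ((1 / 8) * (v * vs * ie)) (congrArg (fun y : ℝ => y * (v * vs * ie)) zc_137438953472_0)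
    (K2se * ((1 / 8) * (v * vs * ie))) rfl
    dzS e_dzS
    dzR e_dzR
    (3 : ℝ) zc_3298534883328_0
    ((3 : ℝ) - (3 / 2) * e2a) rfl
    (h4 * ((3 : ℝ) - (3 / 2) * e2a)) rfl
    (kc * kc) rfl
    ((1 / 2) * (kc * kc)) (congrArg (fun y : ℝ => y * (kc * kc)) zc_549755813888_0)
    (h4 * ((3 : ℝ) - (3 / 2) * e2a) - (1 / 2) * (kc * kc)) rfl
    (vs * vs) rfl
    (vs * vs * ea) rfl
    (h4 * ((3 : ℝ) - (3 / 2) * e2a) - (1 / 2) * (kc * kc) - vs * vs * ea) rfl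
    r1V e_r1V
    (h4 * ((1 / 2) * (kc * kc))) rfl
    ((3 / 2) * e2a - h4 * ((1 / 2) * (kc * kc))) rfl
    r2V e_r2V
    ((838861 / 524288) * V * ie) rfl
    ((267387 / 262144) * ((838861 / 524288) * V * ie)) (congrArg (fun y : ℝ => y * ((838861 / 524288) * V * ie)) zc_1121502363648_0)
    glf e_glf
    (Vie * e2a) rfl
    (2 * (Vie * e2a)) (congrArg (fun y : ℝ => y * (Vie * e2a)) zc_2199023255552_0)
    (glf + 2 * (Vie * e2a)) rfl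
    (vs * (glf + 2 * (Vie * e2a))) rfl
    (wse * er) rfl
    ycR e_ycR
    r1w e_r1w
    (ycR * ycR) rfl
    kv e_kv
    ((1023 / 1024) * r1V) (congrArg (fun y : ℝ => y * r1V) zc_1098437885952_0)
    (r1w * r1w) rfl
    (kv + r1w * r1w) rfl).2
    ((kv + r1w * r1w)⁻¹) rfl
    x1 e_x1
    (-x1) rfl
    ((-x1) + (1 : ℝ)) rfl
  change 0 < (-x1) + (1 : ℝ) at p_x11
  obtain ⟨p_X1, ch2⟩ := ch1
    (vs * vs * Vie) rfl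
    z (e_z.trans (congrArg (fun y : ℝ => y * (vs * vs * Vie)) zc_2199023255552_0))
    sR0 e_sR0
    (sR0 - dzR) rfl
    (dzR * dzR) rfl
    m e_m
    m2 e_m2
    wn e_wn
    (8 * ie) (congrArg (fun y : ℝ => y * ie) zc_8796093022208_0)
    (q - 8 * ie) rfl
    ((7425 / 1024) * Vie) (congrArg (fun y : ℝ => y * Vie) zc_7972533043200_0)
    q2 e_q2
    l1 (e_l1.trans (congrArg (fun y : ℝ => y * x1) zc_1097968123904_0))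
    (x1 + (1 : ℝ)) rfl
    l2 (e_l2.trans (congrArg (fun y : ℝ => y * (x1 + (1 : ℝ))) zc_1097968123904_0))
    (l1 * V) rfl
    lv e_lv
    (q2 * lv) rfl
    (-(q2 * lv)) rfl
    u e_u
    ((1 : ℝ) - X) rfl
  change 0 < (1 : ℝ) - X at p_X1
  obtain ⟨p_cG, ch3⟩ := (((ch2).2
    iX e_iX
    ((1 / 2) * X) (congrArg (fun y : ℝ => y * X) zc_549755813888_0)
    ((1 : ℝ) + (1 / 2) * X) rfl
    (X * X) rfl
    (X * X * iX) rfl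
    ((174763 / 524288) * (X * X * iX)) (congrArg (fun y : ℝ => y * (X * X * iX)) zc_366504574976_0)
    LX e_LX
    uX e_uX
    ((1 / 2) * uX) (congrArg (fun y : ℝ => y * uX) zc_549755813888_0)
    ((1 : ℝ) + (1 / 2) * uX) rfl
    (uX * uX) rfl
    ((1 : ℝ) - uX) rfl).2
    (((1 : ℝ) - uX)⁻¹) rfl
    (uX * uX * ((1 : ℝ) - uX)⁻¹) rfl
    ((174763 / 524288) * (uX * uX * ((1 : ℝ) - uX)⁻¹)) (congrArg (fun y : ℝ => y * (uX * uX * ((1 : ℝ) - uX)⁻¹)) zc_366504574976_0)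
    LU e_LU).2
    im e_im
    dz e_dz
    ((29 / 16) * dz) (congrArg (fun y : ℝ => y * dz) zc_1992864825344_0)
    (dz + (29 / 16) * dz) rfl
    (X * LX) rfl
    DG e_DG
    ((45 / 16) * dz) (congrArg (fun y : ℝ => y * dz) zc_3092376453120_0)
    (uX * LU) rfl
    DF e_DF
    ((29 / 16) * dzR) (congrArg (fun y : ℝ => y * dzR) zc_1992864825344_0)
    ((29 / 16) * dzR + dzR) rfl
    (XS * LX) rfl
    ((29 / 16) * dzR + dzR + XS * LX) rfl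
    vDG e_vDG
    (-DG) rfl
    (461 / 512 : ℝ) zc_989989961728_0
    ((-DG) + (461 / 512 : ℝ)) rfl
  change 0 < (-DG) + (461 / 512 : ℝ) at p_cG
  obtain ⟨p_cF, ch4⟩ := ch3
    (-DF) rfl
    ((-DF) + (461 / 512 : ℝ)) rfl
  change 0 < (-DF) + (461 / 512 : ℝ) at p_cF
  obtain ⟨p_Es, ch5⟩ := ch4
    ((1111491 / 1048576) * e2a) (congrArg (fun y : ℝ => y * e2a) zc_1165482786816_0)
    (2 * DG) (congrArg (fun y : ℝ => y * DG) zc_2199023255552_0)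
    (2 * DG + DF) rfl
    (ie * (2 * DG + DF)) rfl
    (vDG + ie * (2 * DG + DF)) rfl
    EQ e_EQ
    ER e_ER
    Qw e_Qw
    ((1 : ℝ) - Qw) rfl
  change 0 < (1 : ℝ) - Qw at p_Es
  obtain ⟨p_R1, ch6⟩ := ch5
    (2 * Qw) (congrArg (fun y : ℝ => y * Qw) zc_2199023255552_0)
    (-(2 * Qw)) rfl
    (4087 / 4096 : ℝ) zc_1097095708672_0
    c2 e_c2
    (kv - (1 : ℝ)) rfl
    ((1 / 2) * (kv - (1 : ℝ))) (congrArg (fun y : ℝ => y * (kv - (1 : ℝ))) zc_549755813888_0)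
    s1 e_s1
    (7763 / 4096 : ℝ) zc_2083864444928_0
    (dzR + (1 : ℝ)) rfl
    ((dzR + (1 : ℝ)) * (dzR + (1 : ℝ))) rfl
    ((7763 / 4096 : ℝ) - (dzR + (1 : ℝ)) * (dzR + (1 : ℝ))) rfl
  change 0 < (7763 / 4096 : ℝ) - (dzR + (1 : ℝ)) * (dzR + (1 : ℝ)) at p_R1
  obtain ⟨p_R2, ch7⟩ := ch6
    (1485 / 512 : ℝ) zc_3189013217280_0
    ((1485 / 512 : ℝ) - r2V) rfl
    ((1485 / 512 : ℝ) - r2V - EQ) rfl
    (s1 + dzR) rfl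
    (s1 + dzR + ER) rfl
    ((s1 + dzR + ER) * (s1 + dzR + ER)) rfl
    ((1485 / 512 : ℝ) - r2V - EQ - (s1 + dzR + ER) * (s1 + dzR + ER)) rfl
  change 0 < (1485 / 512 : ℝ) - r2V - EQ - (s1 + dzR + ER) * (s1 + dzR + ER) at p_R2
  obtain ⟨p_h9, ch8⟩ := ch7
    (m2 * c2) rfl
    ((9646899 / 1048576) * (m2 * c2)) (congrArg (fun y : ℝ => y * (m2 * c2)) zc_10115506765824_0)
    ((9646899 / 1048576) * (m2 * c2) - (1485 / 512 : ℝ)) rfl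
  change 0 < (9646899 / 1048576) * (m2 * c2) - (1485 / 512 : ℝ) at p_h9
  obtain ⟨p_h2, ch9⟩ := ch8
    ((471859 / 524288) * (m2 * c2)) (congrArg (fun y : ℝ => y * (m2 * c2)) zc_989560045568_0)
    ((34457 / 4096) * Vie) (congrArg (fun y : ℝ => y * Vie) zc_9249480507392_0)
    ((471859 / 524288) * (m2 * c2) - (34457 / 4096) * Vie) rfl
  change 0 < (471859 / 524288) * (m2 * c2) - (34457 / 4096) * Vie at p_h2
  obtain ⟨p_q20, ch10⟩ := ch9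
  change 0 < q2 at p_q20
  obtain ⟨p_dzS0, ch11⟩ := ch10
  change 0 < sR0 - dzR at p_dzS0
  obtain ⟨p_m0, ch12⟩ := ch11
  change 0 < m at p_m0
  obtain ⟨p_x0, ch13⟩ := (ch12
    (m2 * ((1 : ℝ) - Qw)) rfl).2
    ((m2 * ((1 : ℝ) - Qw))⁻¹) rfl
    (EQ * (m2 * ((1 : ℝ) - Qw))⁻¹) rfl
    d (e_d.trans (congrArg (fun y : ℝ => y * (EQ * (m2 * ((1 : ℝ) - Qw))⁻¹)) zc_1121758216192_0))
    (x1 - d) rfl
    (507 / 4096 : ℝ) zc_136096776192_0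
    (x1 - d - (507 / 4096 : ℝ)) rfl
  change 0 < x1 - d - (507 / 4096 : ℝ) at p_x0
  obtain ⟨p_Er, ch14⟩ := ch13
    (r1V - EQ) rfl
  change 0 < r1V - EQ at p_Er
  obtain ⟨p_La, ch15⟩ := ch14
    ((1 : ℝ) - 2 * Qw) rfl
    (m2 * ((1 : ℝ) - 2 * Qw)) rfl
    ((489 / 256) * (m2 * ((1 : ℝ) - 2 * Qw))) (congrArg (fun y : ℝ => y * (m2 * ((1 : ℝ) - 2 * Qw))) zc_2100239007744_0)
    ((489 / 256) * (m2 * ((1 : ℝ) - 2 * Qw)) - r2V) rfl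
    ((489 / 256) * (m2 * ((1 : ℝ) - 2 * Qw)) - r2V - EQ) rfl
  change 0 < (489 / 256) * (m2 * ((1 : ℝ) - 2 * Qw)) - r2V - EQ at p_La
  obtain ⟨p_y0, ch16⟩ := ch15
    E e_E
    (ycR * R) rfl
    yE e_yE
    (-yE) rfl
    (3277 / 1024 : ℝ) zc_3518651957248_0
    ((-yE) + (3277 / 1024 : ℝ)) rfl
  change 0 < (-yE) + (3277 / 1024 : ℝ) at p_y0
  obtain ⟨p_yr, ch17⟩ := ch16
    (1 : ℝ) zc_1099511627776_0
    ((-yE) + (1 : ℝ)) rfl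
  change 0 < (-yE) + (1 : ℝ) at p_yr
  obtain ⟨p_vr, ch18⟩ := ch17
    (-v) rfl
    ((-v) + (1 : ℝ)) rfl
  change 0 < (-v) + (1 : ℝ) at p_vr
  obtain ⟨p_br, ch19⟩ := ch18
    (5121 / 1024 : ℝ) zc_5498631880704_0
    ((-be) + (5121 / 1024 : ℝ)) rfl
  change 0 < (-be) + (5121 / 1024 : ℝ) at p_br
  obtain ⟨p_EM2, ch20⟩ := ch19
    x2 e_x2
    l4 (e_l4.trans (congrArg (fun y : ℝ => y * x2) zc_1097968123904_0))
    (l4 * V) rfl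
    (l4 * V * m2) rfl
    (l4 * V * m2 * c2) rfl
    (q2 * (l4 * V * m2 * c2)) rfl
    (-(q2 * (l4 * V * m2 * c2))) rfl
    u1 e_u1
    ((29 / 16) * E) (congrArg (fun y : ℝ => y * E) zc_1992864825344_0)
    EM e_EM
    ((29 / 16) * ER) (congrArg (fun y : ℝ => y * ER) zc_1992864825344_0)
    ((29 / 16) * ER + ER) rfl
    ((1 / 4) * be) (congrArg (fun y : ℝ => y * be) zc_274877906944_0)
    ((1 / 4) * be + (1 : ℝ)) rfl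
    EMr e_EMr
    ((1 / 2) * EM) (congrArg (fun y : ℝ => y * EM) zc_549755813888_0)
    ((1 : ℝ) - (1 / 2) * EM) rfl
  change 0 < (1 : ℝ) - (1 / 2) * EM at p_EM2
  obtain ⟨p_cl, ch21⟩ := (ch20).2
    i2 e_i2
    ((1 / 2) * EM + (1 : ℝ)) rfl
    eta e_eta
    r2w e_r2w
    (2 * kc) (congrArg (fun y : ℝ => y * kc) zc_2199023255552_0)
    (r2w + 2 * kc) rfl
    (r2w * (r2w + 2 * kc)) rfl
    DPx e_DPx
    (r2w * r2w) rfl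
    (kv + r2w * r2w) rfl
    VcR e_VcR
    (DPx - (1 : ℝ)) rfl
    ((1 / 2) * (DPx - (1 : ℝ))) (congrArg (fun y : ℝ => y * (DPx - (1 : ℝ))) zc_549755813888_0)
    DPR e_DPR
    (EMr * i2) rfl
    (eta * u1) rfl
    ((839 / 8192) * (eta * u1)) (congrArg (fun y : ℝ => y * (eta * u1)) zc_112608673792_0)
    (DPR + VcR) rfl
    (DPR + VcR + ER) rfl
    ((839 / 8192) * (eta * u1) * (DPR + VcR + ER)) rfl
    (EMr * i2 + (839 / 8192) * (eta * u1) * (DPR + VcR + ER)) rfl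
    (-(EMr * i2 + (839 / 8192) * (eta * u1) * (DPR + VcR + ER))) rfl
    (72351 / 524288 : ℝ) zc_151731044352_0
    ((-(EMr * i2 + (839 / 8192) * (eta * u1) * (DPR + VcR + ER))) + (72351 / 524288 : ℝ)) rfl
  change 0 < (-(EMr * i2 + (839 / 8192) * (eta * u1) * (DPR + VcR + ER))) + (72351 / 524288 : ℝ) at p_cl
  exact ⟨R, kc, vs, iR, GrS, GtS, G2S, DG, DF, vDG, EM, EMr, ⟨⟨L, e_L, e_R, e_iR, e_kc, e_vs⟩⟩,
    ⟨ie, w, V, wse, K, K2, K2se, q, sp, lau, i4, XS, X, Vie, a, ea, e2a, er, h4, dzS, dzR, r1V,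
    r2V, glf, ycR, r1w, kv, x1, z, sR0, m, m2, wn, q2, l1, l2, lv, u, iX, LX, uX, LU, im, dz,
    EQ, ER, Qw, c2, s1, d, E, yE, x2, l4, u1, i2, eta, r2w, DPx, VcR, DPR, e_ie, e_w, e_V,
    e_wse, e_K, e_K2, e_K2se, e_q, e_sp, e_lau, e_i4, e_XS, e_X, e_Vie, e_a, e_ea, e_e2a, e_er,
    e_h4, e_dzS, e_dzR, e_r1V, e_r2V, e_glf, e_ycR, e_r1w, e_kv, e_x1, e_z, e_sR0, e_m, e_m2,
    e_wn, e_q2, e_l1, e_l2, e_lv, e_u, e_iX, e_LX, e_uX, e_LU, e_im, e_dz, e_EQ, e_ER, e_Qw,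
    e_c2, e_s1, e_d, e_E, e_yE, e_x2, e_l4, e_u1, e_i2, e_eta, e_r2w, e_DPx, e_VcR, e_DPR, p_a1,
    p_x11, p_X1, p_cG, p_cF, p_Es, p_R1, p_R2, p_h9, p_h2, p_q20, p_dzS0, p_m0, p_x0, p_Er,
    p_La, p_y0, p_EM2, p_cl⟩,
    ⟨⟨e_GrS, e_GtS, e_G2S⟩⟩, ⟨⟨e_DG, e_DF, e_vDG, e_EM, e_EMr, p_yr, p_vr, p_br⟩⟩⟩

end Pool.Agent.helper31.EQB
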