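import Pool.Agent.helper31.EQB.NFA2
import Pool.Agent.helper31.EQB.NT
import Pool.Agent.helper31.EQB.VF
import Pool.Agent.helper31.EQB.XFA
import Pool.Agent.helper31.EQB.XFR
import Pool.Agent.helper31.EQB.PA

/-!
# EQB-41: first node of chart A and the test, from the covers
-/

namespace Pool.Agent.helper31.EQB

open Complex ComplexConjugate Set Filter Topology
open Pool.Agent.helper31.EQ.Y Pool.Agent.helper31.EQ.R
open Pool.Agent.helper12.EQL Pool.Agent.helper12.RP Pool.Agent.helper12.FF Pool.Agent.helper12.RS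
open Pool.Agent.helper63.FF
open Pool.Agent.helper71.FF (RAs)

variable {e κ : ℝ}

/-- `R`, `1/R` from the logarithm -/
theorem PFAv.facts {be v R kc vs iR : ℝ} (hbe : 0 < be) (P : PFAv be v R kc vs iR) :
    0 < R ∧ R ^ 2 = be ^ 2 + v ^ 2 ∧ kc = be / R ∧ vs = v / R ∧ iR = R⁻¹ := by
  have h0 : 0 < be * be + v * v := add_pos_of_pos_of_nonneg (mul_pos hbe hbe) (mul_self_nonneg v)
  obtain ⟨L, eL, eR, eiR, ekc, evs⟩ := P
  have hR : 0 < R := by rw [eR]; exact Real.exp_pos _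
  have hiR : iR = R⁻¹ := by rw [eiR, eR, Real.exp_neg]
  refine ⟨hR, ?_, ?_, ?_, hiR⟩
  · rw [eR, eL, ← Real.exp_nat_mul]
    rw [show ((2 : ℕ) : ℝ) * (1 / 2 * Real.log (be * be + v * v)) =
      Real.log (be * be + v * v) by push_cast; ring]
    rw [Real.exp_log h0]
    ring
  · rw [ekc, hiR, div_eq_mul_inv]
  · rw [evs, hiR, div_eq_mul_inv]

/-- the parametrization of the circle -/
theorem circ {be v R : ℝ} (hbe : 0 < be) (hv : 0 ≤ v) (hR : 0 < R) (hR2 : R ^ 2 = be ^ 2 + v ^ 2) :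
    0 ≤ v / (R + be) ∧ v / (R + be) ≤ 1 ∧
    (1 - v / (R + be) * (v / (R + be))) * (v / (R + be) * (v / (R + be)) + 1)⁻¹ = be / R ∧
    2 * (v / (R + be) * (v / (R + be) * (v / (R + be)) + 1)⁻¹) = v / R := by
  have h1 : 0 < R + be := by positivity
  have hvR : v ≤ R := abs_le_of_sq_le_sq' (by nlinarith) hR.le |>.2
  have h2 : v / (R + be) * (v / (R + be)) + 1 = 2 * R / (R + be) := by
    field_simp
    nlinarith
  have h3 : 1 - v / (R + be) * (v / (R + be)) = 2 * be / (R + be) := by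
    field_simp
    nlinarith
  refine ⟨by positivity, ?_, ?_, ?_⟩
  · rw [div_le_one h1]
    linarith
  · rw [h2, h3, inv_div]
    field_simp
  · rw [h2, inv_div]
    field_simp

/-- programs with `q` -/
private theorem first_fq (he : 500 ≤ e) (hκ : 0 < κ) (hb : bet e κ ≤ 5) (M : PMA (√e)⁻¹)
    {v : ℝ} (hv0 : 0 ≤ v) (hv1 : v ≤ Real.pi)
    (h : ∃ ops ∈ Cert.FQ.progs, RAs ops [(√e)⁻¹, bet e κ, v]) :
    FirstOK e κ (CA e κ) (xA 0) (LamA 0) (ynA 0) (aA 0) v := by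
  obtain ⟨ops, ho, hr⟩ := h
  simp only [Cert.FQ.progs, List.mem_cons, List.not_mem_nil, or_false] at ho
  subst ho
  obtain ⟨R, kc, vs, iR, GrS, GtS, G2S, DG, DF, vDG, EM, EMr, ⟨Pv⟩, P, ⟨Pg⟩, ⟨Pq⟩⟩ := ex_FQ hr
  obtain ⟨hR, hR2, hkc, hvs, hiR⟩ := Pv.facts (bet_pos (by linarith) hκ)
  exact firstA_q he hκ hb M hv0 hv1 hR hR2 hkc hvs P hiR Pg Pq

private theorem first_fr (he : 500 ≤ e) (hκ : 0 < κ) (hb : bet e κ ≤ 79 / 32) (M : PMA (√e)⁻¹)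
    {v : ℝ} (hv0 : 0 ≤ v) (hv1 : v ≤ 79 / 32) (hbv : bet e κ ≤ 23 / 16 ∨ v ≤ 71 / 32) :
    FirstOK e κ (CA e κ) (xA 0) (LamA 0) (ynA 0) (aA 0) v := by
  have hβ : 0 < bet e κ := bet_pos (by linarith) hκ
  have hπ : (79 / 32 : ℝ) ≤ Real.pi := by linarith [Real.pi_gt_three]
  obtain ⟨s0, s1⟩ := sg_A he
  obtain ⟨R, hRd⟩ : ∃ R, R = √(bet e κ ^ 2 + v ^ 2) := ⟨_, rfl⟩
  have hR : 0 < R := by rw [hRd]; positivity
  have hR2 : R ^ 2 = bet e κ ^ 2 + v ^ 2 := by rw [hRd]; exact Real.sq_sqrt (by positivity)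
  have hR6 : R ≤ 6 := by
    rw [hRd]
    apply Real.sqrt_le_iff.2 ⟨by norm_num, ?_⟩
    nlinarith
  obtain ⟨t0, t1, k1, k2⟩ := circ hβ hv0 hR hR2
  obtain ⟨t, ht⟩ : ∃ t, t = v / (R + bet e κ) := ⟨_, rfl⟩
  rw [← ht] at t0 t1 k1 k2
  obtain ⟨ops, ho, hr⟩ := cov_FR s0 s1 hR.le hR6 t0 t1
  have hfin : ∀ {be v' kc vs : ℝ}, be = R * kc → v' = R * vs → kc = bet e κ / R → vs = v / R →
      be = bet e κ ∧ v' = v := by
    intro be v' kc vs h1 h2 h3 h4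
    rw [h1, h2, h3, h4]
    constructor <;> field_simp
  have hrow : ∀ {j : ℕ}, j < 8 → (∃ be v kc vs iR GrS GtS G2S DG DF vDG EM EMr : ℝ,
      Nonempty (PFAt R t be v kc vs iR) ∧
      ∃ P : PFA cFA (√e)⁻¹ be v R kc vs GrS GtS G2S DG DF vDG EM EMr, Nonempty (PFAg iR P) ∧
      Nonempty (PFAr (rF j) P)) → FirstOK e κ (CA e κ) (xA 0) (LamA 0) (ynA 0) (aA 0) v := by
    intro j hj h
    obtain ⟨be, v', kc, vs, iR, GrS, GtS, G2S, DG, DF, vDG, EM, EMr, ⟨Pt⟩, P, ⟨Pg⟩, ⟨Pr⟩⟩ := h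
    have hkc : kc = bet e κ / R := by
      rw [Pt.e_kc, Pt.e_it, Pt.e_t2]; exact k1
    have hvs : vs = v / R := by
      rw [Pt.e_vs, Pt.e_it, Pt.e_t2]; exact k2
    obtain ⟨rfl, rfl⟩ := hfin Pt.e_be Pt.e_v hkc hvs
    exact firstA_r he hκ (by linarith) M hv0 (by linarith) hR hR2 hkc hvs P Pt.e_iR Pg hj Pr
  simp only [Cert.FR.progs, List.mem_cons, List.not_mem_nil, or_false] at ho
  rcases ho with rfl | rfl | rfl | rfl | rfl | rfl | rfl | rfl | rfl | rfl | rfl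
  · obtain ⟨be, v', kc, vs, GrS, GtS, G2S, DG, DF, vDG, EM, EMr, ⟨Pt⟩, P, ⟨Pg⟩, ⟨Pr⟩⟩ :=
      ex_FR_0 hr
    have hkc : kc = bet e κ / R := by
      rw [Pt.e_kc, Pt.e_it, Pt.e_t2]; exact k1
    have hvs : vs = v / R := by
      rw [Pt.e_vs, Pt.e_it, Pt.e_t2]; exact k2
    obtain ⟨rfl, rfl⟩ := hfin Pt.e_be Pt.e_v hkc hvs
    exact firstA_s he hκ (by linarith) M hv0 (by linarith) hR hR2 hkc hvs P Pg Pr
  · exact hrow (j := 1) (by norm_num) (ex_FR_1 hr)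
  · exact hrow (j := 2) (by norm_num) (ex_FR_2 hr)
  · exact hrow (j := 3) (by norm_num) (ex_FR_3 hr)
  · exact hrow (j := 4) (by norm_num) (ex_FR_4 hr)
  · exact hrow (j := 5) (by norm_num) (ex_FR_5 hr)
  · exact hrow (j := 6) (by norm_num) (ex_FR_6 hr)
  · exact hrow (j := 7) (by norm_num) (ex_FR_7 hr)
  · have h := ex_FR_gv hr
    rw [k2, mul_div_cancel₀ _ hR.ne'] at h
    linarith
  · obtain ⟨h, h'⟩ := ex_FR_gbv hr
    rw [k1, mul_div_cancel₀ _ hR.ne'] at h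
    rw [k2, mul_div_cancel₀ _ hR.ne'] at h'
    rcases hbv with h1 | h1 <;> linarith
  · have h := ex_FR_gb hr
    rw [k1, mul_div_cancel₀ _ hR.ne'] at h
    linarith

private theorem first_fp (he : 500 ≤ e) (hκ : 0 < κ) (hb : bet e κ ≤ 5) (M : PMA (√e)⁻¹)
    {v : ℝ} (hv0 : 0 ≤ v) (hv1 : v ≤ 127 / 128) (hb2 : 39 / 16 ≤ bet e κ) :
    FirstOK e κ (CA e κ) (xA 0) (LamA 0) (ynA 0) (aA 0) v := by
  obtain ⟨s0, s1⟩ := sg_A he
  obtain ⟨ops, ho, hr⟩ := cov_FP_0 s0 s1 hb2 hb hv0 hv1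
  simp only [Cert.FP.progs, List.mem_cons, List.not_mem_nil, or_false] at ho
  subst ho
  obtain ⟨R, kc, vs, iR, GrS, GtS, G2S, DG, DF, vDG, EM, EMr, ⟨Pv⟩, P, ⟨Ph⟩, ⟨Pr⟩⟩ := ex_FP hr
  obtain ⟨hR, hR2, hkc, hvs, hiR⟩ := Pv.facts (bet_pos (by linarith) hκ)
  exact firstA_s he hκ hb M hv0 (by linarith [Real.pi_gt_three]) hR hR2 hkc hvs P Ph Pr

/-- The first node, chart A. -/
theorem firstA_all (he : 500 ≤ e) (hκ : 0 < κ) (hb : bet e κ ≤ 5) (M : PMA (√e)⁻¹)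
    {v : ℝ} (hv0 : 0 ≤ v) (hv1 : v ≤ Real.pi) :
    FirstOK e κ (CA e κ) (xA 0) (LamA 0) (ynA 0) (aA 0) v := by
  obtain ⟨s0, s1⟩ := sg_A he
  have hβ : 0 < bet e κ := bet_pos (by linarith) hκ
  have hv2 : v ≤ 3927 / 1250 := by
    have := Real.pi_lt_d4
    norm_num at this ⊢
    linarith
  rcases lt_or_ge (79 / 32) v with h1 | h1
  · rcases le_or_gt (bet e κ) (3 / 2) with h2 | h2
    · exact first_fq he hκ hb M hv0 hv1 (cov_FQ_0 s0 s1 hβ.le h2 h1.le hv2)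
    · rcases le_or_gt (bet e κ) (5 / 2) with h3 | h3
      · exact first_fq he hκ hb M hv0 hv1 (cov_FQ_1 s0 s1 (by linarith) h3 (by linarith) hv2)
      · exact first_fq he hκ hb M hv0 hv1 (cov_FQ_2 s0 s1 (by linarith) hb (by linarith) hv2)
  · rcases lt_or_ge (79 / 32) (bet e κ) with h2 | h2
    · rcases le_or_gt v (127 / 128) with h3 | h3
      · exact first_fp he hκ hb M hv0 h3 (by linarith)
      · exact first_fq he hκ hb M hv0 hv1 (cov_FQ_2 s0 s1 h2.le hb (by linarith) hv2)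
    · rcases le_or_gt (bet e κ) (23 / 16) with h3 | h3
      · exact first_fr he hκ h2 M hv0 h1 (Or.inl h3)
      · rcases le_or_gt v (71 / 32) with h4 | h4
        · exact first_fr he hκ h2 M hv0 h1 (Or.inr h4)
        · exact first_fq he hκ hb M hv0 hv1 (cov_FQ_1 s0 s1 h3.le (by linarith) h4.le hv2)

/-- The test, chart A. -/
theorem testA_all (he : 500 ≤ e) (hκ : 0 < κ) (hb : bet e κ ≤ 5) (M : PMA (√e)⁻¹) :
    TestOK e κ (CA e κ) := by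
  obtain ⟨s0, s1⟩ := sg_A he
  have hβ : 0 < bet e κ := bet_pos (by linarith) hκ
  have p1 : 314159265 / 10 ^ 8 ≤ Real.pi := by
    have := Real.pi_gt_d20
    norm_num at this ⊢
    linarith
  have p2 : Real.pi ≤ 314159266 / 10 ^ 8 := by
    have := Real.pi_lt_d20
    norm_num at this ⊢
    linarith
  obtain ⟨ops, ho, hr⟩ := cov_TA s0 s1 hβ.le hb p1 p2
  simp only [Cert.TA.progs, List.mem_cons, List.not_mem_nil, or_false] at ho
  subst ho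
  obtain ⟨R, kc, vs, iR, GrS, GtS, G2S, DG, DF, vDG, EM, EMr, ⟨Pv⟩, P, ⟨Pg⟩, ⟨Pq⟩, ⟨PT⟩⟩ := ex_TA hr
  obtain ⟨hR, hR2, hkc, hvs, hiR⟩ := Pv.facts hβ
  exact testA he hκ hb M hR hR2 hkc hvs P hiR Pg Pq PT

end Pool.Agent.helper31.EQB
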