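import Pool.Agent.helper31.EQB.MBx2

/-!
# EQB-17: number table of `PX`

`pick_row`, `unif_row`, `dn_row`: numerical forms of `PX_pick`, `PX_unif`, `PX_dn` for `e ≥ 500`, `bet e κ ≤ b`.
`row1`, ..., `row8`: `PX` at `x ≥ 28/25` and `x ≥ 47/25`.
-/

namespace Pool.Agent.helper31.EQB

open Complex ComplexConjugate Set Filter Topology
open Pool.Agent.helper31.EQ.Y Pool.Agent.helper31.EQ.R
open Pool.Agent.helper12.EQL Pool.Agent.helper12.RP Pool.Agent.helper12.FF

variable {e κ x y0 M : ℝ}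

/-! ### `cos` -/

private theorem rm_mono {f f' : ℝ → ℝ} (hd : ∀ u, HasDerivAt f (f' u) u) (h0 : f 0 = 0)
    (hp : ∀ u, 0 ≤ u → 0 ≤ f' u) {x : ℝ} (hx : 0 ≤ x) : 0 ≤ f x := by
  have hm : MonotoneOn f (Ici 0) := by
    refine monotoneOn_of_deriv_nonneg (convex_Ici 0)
      (fun u _ => (hd u).continuousAt.continuousWithinAt)
      (fun u _ => (hd u).differentiableAt.differentiableWithinAt) (fun u hu => ?_)
    rw [(hd u).deriv]
    rw [interior_Ici] at hu
    exact hp u (le_of_lt hu)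
  have h := hm (mem_Ici.2 le_rfl) (mem_Ici.2 hx) hx
  rwa [h0] at h

private theorem rm_pow (n : ℕ) (c u : ℝ) :
    HasDerivAt (fun v : ℝ => v ^ (n + 1) / c) (((n : ℝ) + 1) * u ^ n / c) u := by
  have := ((hasDerivAt_id u).pow (n + 1)).div_const c
  refine this.congr_deriv ?_
  simp only [id, mul_one]
  push_cast
  simp

private theorem rm_sin3 {x : ℝ} (hx : 0 ≤ x) : 0 ≤ Real.sin x - x + x ^ 3 / 6 := by
  refine rm_mono (f := fun v => Real.sin v - v + v ^ 3 / 6)
    (f' := fun u => Real.cos u - 1 + ((2 : ℕ) + 1 : ℝ) * u ^ 2 / 6) (fun u => ?_) (by simp)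
    (fun u _ => ?_) hx
  · exact ((Real.hasDerivAt_sin u).sub (hasDerivAt_id u)).add (rm_pow 2 6 u)
  · have := Real.one_sub_sq_div_two_le_cos (x := u)
    push_cast
    linarith

private theorem rm_cos4 {x : ℝ} (hx : 0 ≤ x) : 0 ≤ 1 - x ^ 2 / 2 + x ^ 4 / 24 - Real.cos x := by
  refine rm_mono (f := fun v => 1 - v ^ 2 / 2 + v ^ 4 / 24 - Real.cos v)
    (f' := fun u => 0 - ((1 : ℕ) + 1 : ℝ) * u ^ 1 / 2 + ((3 : ℕ) + 1 : ℝ) * u ^ 3 / 24 - (-Real.sin u))
    (fun u => ?_) (by simp) (fun u hu => ?_) hx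
  · exact ((((hasDerivAt_const u (1:ℝ)).sub (rm_pow 1 2 u))).add (rm_pow 3 24 u)).sub
      (Real.hasDerivAt_cos u)
  · have := rm_sin3 hu
    push_cast
    rw [pow_one]
    linarith

private theorem rm_sin5 {x : ℝ} (hx : 0 ≤ x) : 0 ≤ x - x ^ 3 / 6 + x ^ 5 / 120 - Real.sin x := by
  refine rm_mono (f := fun v => v - v ^ 3 / 6 + v ^ 5 / 120 - Real.sin v)
    (f' := fun u => 1 - ((2 : ℕ) + 1 : ℝ) * u ^ 2 / 6 + ((4 : ℕ) + 1 : ℝ) * u ^ 4 / 120 - Real.cos u)
    (fun u => ?_) (by simp) (fun u hu => ?_) hx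
  · exact (((hasDerivAt_id u).sub (rm_pow 2 6 u)).add (rm_pow 4 120 u)).sub (Real.hasDerivAt_sin u)
  · have := rm_cos4 hu
    push_cast
    linarith

private theorem rm_cos6 {x : ℝ} (hx : 0 ≤ x) :
    0 ≤ Real.cos x - (1 - x ^ 2 / 2 + x ^ 4 / 24) + x ^ 6 / 720 := by
  refine rm_mono (f := fun v => Real.cos v - (1 - v ^ 2 / 2 + v ^ 4 / 24) + v ^ 6 / 720)
    (f' := fun u => -Real.sin u - (0 - ((1 : ℕ) + 1 : ℝ) * u ^ 1 / 2 +
      ((3 : ℕ) + 1 : ℝ) * u ^ 3 / 24) + ((5 : ℕ) + 1 : ℝ) * u ^ 5 / 720)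
    (fun u => ?_) (by simp) (fun u hu => ?_) hx
  · exact ((Real.hasDerivAt_cos u).sub (((hasDerivAt_const u (1:ℝ)).sub (rm_pow 1 2 u)).add
      (rm_pow 3 24 u))).add (rm_pow 5 720 u)
  · have := rm_sin5 hu
    push_cast
    rw [pow_one]
    linarith

/-! ### numerical forms -/

/-- the angle -/
noncomputable def thq (b y0 M0 : ℝ) : ℝ := y0 + (b ^ 2 + y0 ^ 2 + 1) / 500 * M0

/-- lower bound of `2 cos (θ/2)` -/
noncomputable def nuq (θ : ℝ) : ℝ := 2 - (θ / 2) ^ 2 + (θ / 2) ^ 4 / 12 - (θ / 2) ^ 6 / 360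

/-- upper bound of `1/lam` -/
noncomputable def liq (b X : ℝ) : ℝ := (1 + (2 * (b / 500) * X) ^ 2 / 3) / (X * (1 - (b / 500) ^ 2 / 6))

theorem nuq_le {θ : ℝ} (h : 0 ≤ θ) : nuq θ ≤ 2 * Real.cos (θ / 2) := by
  have := rm_cos6 (x := θ / 2) (by linarith)
  unfold nuq
  linarith

theorem liq_ge {K b X : ℝ} (hK0 : 0 ≤ K) (hKb : K ≤ b / 500) (hb : b ≤ 5001 / 1000) (hX : 0 < X) :
    1 / lam K X ≤ liq b X := by
  have hb0 : 0 ≤ b / 500 := hK0.trans hKb
  have hb1 : b / 500 ≤ 1 / 10 := by linarith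
  have h1 : 0 < 1 - (b / 500) ^ 2 / 6 := by nlinarith
  have hKK : K ^ 2 ≤ (b / 500) ^ 2 := pow_le_pow_left₀ hK0 hKb 2
  have h2 : 1 - (b / 500) ^ 2 / 6 ≤ 1 - K ^ 2 / 6 := by linarith
  have h3 : K * (1 - K ^ 2 / 6) ≤ b / 500 := by
    have : K * (1 - K ^ 2 / 6) ≤ K * 1 := mul_le_mul_of_nonneg_left (by nlinarith) hK0
    linarith
  have h3' : 0 ≤ K * (1 - K ^ 2 / 6) := mul_nonneg hK0 (by linarith)
  have h4 : (2 * (K * (1 - K ^ 2 / 6)) * X) ^ 2 ≤ (2 * (b / 500) * X) ^ 2 := by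
    apply pow_le_pow_left₀ (by positivity)
    exact mul_le_mul_of_nonneg_right (by linarith) hX.le
  have h5 : (1 - (b / 500) ^ 2 / 6) * X / (1 + (2 * (b / 500) * X) ^ 2 / 3) ≤ lam K X := by
    unfold lam
    have a1 : (1 - (b / 500) ^ 2 / 6) * X / (1 + (2 * (b / 500) * X) ^ 2 / 3) ≤
        (1 - K ^ 2 / 6) * X / (1 + (2 * (K * (1 - K ^ 2 / 6)) * X) ^ 2 / 3) := by
      apply div_le_div₀
      · exact mul_nonneg (by linarith) hX.le
      · exact mul_le_mul_of_nonneg_right h2 hX.le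
      · positivity
      · linarith
    refine a1.trans ?_
    apply le_mul_of_one_le_right
    · apply div_nonneg (mul_nonneg (by linarith) hX.le)
      positivity
    · have := sq_nonneg (thf K X)
      linarith
  have h6 : 0 < (1 - (b / 500) ^ 2 / 6) * X / (1 + (2 * (b / 500) * X) ^ 2 / 3) := by positivity
  calc 1 / lam K X ≤ 1 / ((1 - (b / 500) ^ 2 / 6) * X / (1 + (2 * (b / 500) * X) ^ 2 / 3)) :=
        one_div_le_one_div_of_le h6 h5
    _ = liq b X := by unfold liq; rw [one_div_div]; ring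

/-- numerical conditions of a step -/
structure PC (b y0 X M0 M : ℝ) : Prop where
  X0 : 0 < X
  M1 : 1 ≤ M
  m0 : 0 ≤ M0
  R : (b ^ 2 + y0 ^ 2 + 1) / 500 * (1 / 2 + M0) ≤ 19 / 10
  T : thq b y0 M0 ≤ 314 / 100
  N : 1 + (b / 500) ^ 2 / 2 + (1 / 2 + M0) * (liq b X + 1 / 500) ≤ nuq (thq b y0 M0) * M

theorem PC.facts {b X M0 : ℝ} (he : 500 ≤ e) (hκ : 0 < κ) (hb : bet e κ ≤ b)
    (hb5 : b ≤ 5001 / 1000) (hy0 : 0 ≤ y0) (P : PC b y0 X M0 M) :
    Real.sinh κ ≤ 1 / 10 ∧ bet e κ ^ 2 + y0 ^ 2 ≤ b ^ 2 + y0 ^ 2 ∧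
    (b ^ 2 + y0 ^ 2 + 1) / e * (1 / 2 + M0) ≤ 19 / 10 ∧
    y0 + (b ^ 2 + y0 ^ 2 + 1) / e * M0 < Real.pi ∧
    nuq (thq b y0 M0) ≤ 2 * Real.cos ((y0 + (b ^ 2 + y0 ^ 2 + 1) / e * M0) / 2) ∧
    0 < nuq (thq b y0 M0) ∧
    1 + Real.sinh κ ^ 2 / 2 + (1 / 2 + M0) * (1 / lam (Real.sinh κ) X + 1 / e) ≤
      nuq (thq b y0 M0) * M := by
  have he0 : 0 < e := by linarith
  have hK0 : 0 < Real.sinh κ := Real.sinh_pos_iff.2 hκ
  have hb0 : 0 < bet e κ := bet_pos he0 hκ
  have hKb : Real.sinh κ ≤ b / 500 := by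
    rw [le_div_iff₀ (by norm_num)]
    unfold bet at hb
    nlinarith
  have hS : bet e κ ^ 2 ≤ b ^ 2 := pow_le_pow_left₀ hb0.le hb 2
  have hm0 := P.m0
  have hSe : (b ^ 2 + y0 ^ 2 + 1) / e ≤ (b ^ 2 + y0 ^ 2 + 1) / 500 :=
    div_le_div_of_nonneg_left (by positivity) (by norm_num) he
  have hSe0 : 0 ≤ (b ^ 2 + y0 ^ 2 + 1) / e := by positivity
  have hθ : y0 + (b ^ 2 + y0 ^ 2 + 1) / e * M0 ≤ thq b y0 M0 := by
    unfold thq
    have := mul_le_mul_of_nonneg_right hSe hm0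
    linarith
  have hθ0 : 0 ≤ y0 + (b ^ 2 + y0 ^ 2 + 1) / e * M0 := by positivity
  have hπ := Real.pi_gt_d2
  have hN : 1 + Real.sinh κ ^ 2 / 2 + (1 / 2 + M0) * (1 / lam (Real.sinh κ) X + 1 / e) ≤
      nuq (thq b y0 M0) * M := by
    refine le_trans ?_ P.N
    have a1 := liq_ge hK0.le hKb hb5 P.X0
    have a2 : 1 / e ≤ 1 / 500 := one_div_le_one_div_of_le (by norm_num) he
    have a3 : Real.sinh κ ^ 2 ≤ (b / 500) ^ 2 := pow_le_pow_left₀ hK0.le hKb 2
    have a4 : (1 / 2 + M0) * (1 / lam (Real.sinh κ) X + 1 / e) ≤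
        (1 / 2 + M0) * (liq b X + 1 / 500) :=
      mul_le_mul_of_nonneg_left (by linarith) (by linarith)
    linarith
  have hl := lam_pos2 hK0.le (by linarith : Real.sinh κ ≤ 1) P.X0
  refine ⟨by linarith, by linarith, ?_, ?_, ?_, ?_, hN⟩
  · exact (mul_le_mul_of_nonneg_right hSe (by linarith)).trans P.R
  · linarith [P.T]
  · refine (nuq_le (hθ0.trans hθ)).trans ?_
    have := Real.cos_le_cos_of_nonneg_of_le_pi (x := (y0 + (b ^ 2 + y0 ^ 2 + 1) / e * M0) / 2)
      (y := thq b y0 M0 / 2) (by linarith) (by linarith [P.T]) (by linarith)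
    linarith
  · have h1 : 0 < nuq (thq b y0 M0) * M := by
      refine lt_of_lt_of_le ?_ hN
      positivity
    exact (mul_pos_iff_of_pos_right (by linarith [P.M1])).1 h1

theorem pick_row {b X M0 : ℝ} (he : 500 ≤ e) (hκ : 0 < κ) (hb : bet e κ ≤ b)
    (hb5 : b ≤ 5001 / 1000) (hy0 : 0 ≤ y0) (P : PC b y0 X M0 M) (h : PX e κ X y0 M0) :
    PX e κ X y0 M := by
  obtain ⟨h1, h2, h3, h4, h5, h6, h7⟩ := P.facts he hκ hb hb5 hy0
  exact PX_pick (by linarith) hκ h1 P.X0 le_rfl h2 P.m0 hy0 h h3 h4 h6 h5 P.M1 h7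

theorem unif_row {b X : ℝ} (he : 500 ≤ e) (hκ : 0 < κ) (hb : bet e κ ≤ b)
    (hb5 : b ≤ 5001 / 1000) (hy0 : 0 ≤ y0) (P : PC b y0 X (1 + M) M) : PX e κ X y0 M := by
  obtain ⟨h1, h2, h3, h4, h5, h6, h7⟩ := P.facts he hκ hb hb5 hy0
  refine PX_unif (by linarith) hκ h1 P.X0 h2 hy0 ?_ h4 h6 h5 P.M1 ?_
  · rw [show (3:ℝ) / 2 + M = 1 / 2 + (1 + M) by ring]; exact h3
  · rw [show (3:ℝ) / 2 + M = 1 / 2 + (1 + M) by ring]; exact h7

theorem dn_row {x' M' : ℝ} (he : 500 ≤ e) (hκ : 0 < κ) (hM : 0 ≤ M) (hx : x' + 1 = x)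
    (hM' : 1 + M = M') (h : PX e κ x y0 M) : PX e κ x' y0 M' := by
  rw [← hM']
  exact PX_dn (by linarith) hκ hM (by rw [hx]; exact h)

/-! ### the table -/

theorem row1a (he : 500 ≤ e) (hκ : 0 < κ) (hb : bet e κ ≤ 5001 / 1000) :
    PX e κ (28 / 25) 1 (29 / 16) := by
  have hb5 : (5001 / 1000 : ℝ) ≤ 5001 / 1000 := by norm_num
  have hy0 : (0:ℝ) ≤ 1 := by norm_num
  have h0 : PX e κ (28 / 25) 1 (203 / 64) := unif_row he hκ hb hb5 hy0
    (by constructor <;> norm_num [thq, nuq, liq])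
  have h1 : PX e κ (28 / 25) 1 (165 / 64) := pick_row he hκ hb hb5 hy0
    (by constructor <;> norm_num [thq, nuq, liq]) h0
  have h2 : PX e κ (28 / 25) 1 (143 / 64) := pick_row he hκ hb hb5 hy0
    (by constructor <;> norm_num [thq, nuq, liq]) h1
  have h3 : PX e κ (28 / 25) 1 (131 / 64) := pick_row he hκ hb hb5 hy0
    (by constructor <;> norm_num [thq, nuq, liq]) h2
  have h4 : PX e κ (28 / 25) 1 (31 / 16) := pick_row he hκ hb hb5 hy0
    (by constructor <;> norm_num [thq, nuq, liq]) h3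
  have h5 : PX e κ (28 / 25) 1 (15 / 8) := pick_row he hκ hb hb5 hy0
    (by constructor <;> norm_num [thq, nuq, liq]) h4
  have h6 : PX e κ (28 / 25) 1 (59 / 32) := pick_row he hκ hb hb5 hy0
    (by constructor <;> norm_num [thq, nuq, liq]) h5
  have h7 : PX e κ (28 / 25) 1 (117 / 64) := pick_row he hκ hb hb5 hy0
    (by constructor <;> norm_num [thq, nuq, liq]) h6
  have h8 : PX e κ (28 / 25) 1 (29 / 16) := pick_row he hκ hb hb5 hy0
    (by constructor <;> norm_num [thq, nuq, liq]) h7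
  exact h8.mono (by linarith) hκ (by norm_num)

theorem row1b (he : 500 ≤ e) (hκ : 0 < κ) (hb : bet e κ ≤ 5001 / 1000) :
    PX e κ (47 / 25) 1 (35 / 32) := by
  have hb5 : (5001 / 1000 : ℝ) ≤ 5001 / 1000 := by norm_num
  have hy0 : (0:ℝ) ≤ 1 := by norm_num
  have h0 : PX e κ (47 / 25) 1 (101 / 64) := unif_row he hκ hb hb5 hy0
    (by constructor <;> norm_num [thq, nuq, liq])
  have h1 : PX e κ (47 / 25) 1 (79 / 64) := pick_row he hκ hb hb5 hy0
    (by constructor <;> norm_num [thq, nuq, liq]) h0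
  have h2 : PX e κ (47 / 25) 1 (9 / 8) := pick_row he hκ hb hb5 hy0
    (by constructor <;> norm_num [thq, nuq, liq]) h1
  have h3 : PX e κ (47 / 25) 1 (35 / 32) := pick_row he hκ hb hb5 hy0
    (by constructor <;> norm_num [thq, nuq, liq]) h2
  exact h3.mono (by linarith) hκ (by norm_num)

/-- row 1 -/
theorem row1 (he : 500 ≤ e) (hκ : 0 < κ) (hb : bet e κ ≤ 5001 / 1000) :
    PX e κ (28 / 25) 1 (29 / 16) ∧ PX e κ (47 / 25) 1 (35 / 32) :=
  ⟨row1a he hκ hb, row1b he hκ hb⟩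

theorem row2a (he : 500 ≤ e) (hκ : 0 < κ) (hb : bet e κ ≤ 5001 / 1000) :
    PX e κ (28 / 25) (3 / 2) (75 / 32) := by
  have hb5 : (5001 / 1000 : ℝ) ≤ 5001 / 1000 := by norm_num
  have hy0 : (0:ℝ) ≤ 3 / 2 := by norm_num
  have h0 : PX e κ (53 / 25) (3 / 2) (63 / 32) := unif_row he hκ hb hb5 hy0
    (by constructor <;> norm_num [thq, nuq, liq])
  have h1 : PX e κ (53 / 25) (3 / 2) (101 / 64) := pick_row he hκ hb hb5 hy0
    (by constructor <;> norm_num [thq, nuq, liq]) h0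
  have h2 : PX e κ (53 / 25) (3 / 2) (91 / 64) := pick_row he hκ hb hb5 hy0
    (by constructor <;> norm_num [thq, nuq, liq]) h1
  have h3 : PX e κ (53 / 25) (3 / 2) (87 / 64) := pick_row he hκ hb hb5 hy0
    (by constructor <;> norm_num [thq, nuq, liq]) h2
  have h4 : PX e κ (53 / 25) (3 / 2) (43 / 32) := pick_row he hκ hb hb5 hy0
    (by constructor <;> norm_num [thq, nuq, liq]) h3
  have h5 : PX e κ (28 / 25) (3 / 2) (75 / 32) := dn_row he hκ (by norm_num) (by norm_num) (by norm_num) h4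
  exact h5.mono (by linarith) hκ (by norm_num)

theorem row2b (he : 500 ≤ e) (hκ : 0 < κ) (hb : bet e κ ≤ 5001 / 1000) :
    PX e κ (47 / 25) (3 / 2) (95 / 64) := by
  have hb5 : (5001 / 1000 : ℝ) ≤ 5001 / 1000 := by norm_num
  have hy0 : (0:ℝ) ≤ 3 / 2 := by norm_num
  have h0 : PX e κ (47 / 25) (3 / 2) (145 / 64) := unif_row he hκ hb hb5 hy0
    (by constructor <;> norm_num [thq, nuq, liq])
  have h1 : PX e κ (47 / 25) (3 / 2) (29 / 16) := pick_row he hκ hb hb5 hy0
    (by constructor <;> norm_num [thq, nuq, liq]) h0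
  have h2 : PX e κ (47 / 25) (3 / 2) (103 / 64) := pick_row he hκ hb hb5 hy0
    (by constructor <;> norm_num [thq, nuq, liq]) h1
  have h3 : PX e κ (47 / 25) (3 / 2) (49 / 32) := pick_row he hκ hb hb5 hy0
    (by constructor <;> norm_num [thq, nuq, liq]) h2
  have h4 : PX e κ (47 / 25) (3 / 2) (3 / 2) := pick_row he hκ hb hb5 hy0
    (by constructor <;> norm_num [thq, nuq, liq]) h3
  have h5 : PX e κ (47 / 25) (3 / 2) (95 / 64) := pick_row he hκ hb hb5 hy0
    (by constructor <;> norm_num [thq, nuq, liq]) h4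
  exact h5.mono (by linarith) hκ (by norm_num)

/-- row 2 -/
theorem row2 (he : 500 ≤ e) (hκ : 0 < κ) (hb : bet e κ ≤ 5001 / 1000) :
    PX e κ (28 / 25) (3 / 2) (75 / 32) ∧ PX e κ (47 / 25) (3 / 2) (95 / 64) :=
  ⟨row2a he hκ hb, row2b he hκ hb⟩

theorem row3a (he : 500 ≤ e) (hκ : 0 < κ) (hb : bet e κ ≤ 5001 / 1000) :
    PX e κ (28 / 25) 2 (117 / 32) := by
  have hb5 : (5001 / 1000 : ℝ) ≤ 5001 / 1000 := by norm_num
  have hy0 : (0:ℝ) ≤ 2 := by norm_num
  have h0 : PX e κ (78 / 25) 2 (167 / 64) := unif_row he hκ hb hb5 hy0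
    (by constructor <;> norm_num [thq, nuq, liq])
  have h1 : PX e κ (78 / 25) 2 (17 / 8) := pick_row he hκ hb hb5 hy0
    (by constructor <;> norm_num [thq, nuq, liq]) h0
  have h2 : PX e κ (78 / 25) 2 (61 / 32) := pick_row he hκ hb hb5 hy0
    (by constructor <;> norm_num [thq, nuq, liq]) h1
  have h3 : PX e κ (78 / 25) 2 (29 / 16) := pick_row he hκ hb hb5 hy0
    (by constructor <;> norm_num [thq, nuq, liq]) h2
  have h4 : PX e κ (78 / 25) 2 (227 / 128) := pick_row he hκ hb hb5 hy0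
    (by constructor <;> norm_num [thq, nuq, liq]) h3
  have h5 : PX e κ (78 / 25) 2 (225 / 128) := pick_row he hκ hb hb5 hy0
    (by constructor <;> norm_num [thq, nuq, liq]) h4
  have h6 : PX e κ (78 / 25) 2 (7 / 4) := pick_row he hκ hb hb5 hy0
    (by constructor <;> norm_num [thq, nuq, liq]) h5
  have h7 : PX e κ (53 / 25) 2 (11 / 4) := dn_row he hκ (by norm_num) (by norm_num) (by norm_num) h6
  have h8 : PX e κ (53 / 25) 2 (347 / 128) := pick_row he hκ hb hb5 hy0
    (by constructor <;> norm_num [thq, nuq, liq]) h7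
  have h9 : PX e κ (53 / 25) 2 (43 / 16) := pick_row he hκ hb hb5 hy0
    (by constructor <;> norm_num [thq, nuq, liq]) h8
  have h10 : PX e κ (53 / 25) 2 (171 / 64) := pick_row he hκ hb hb5 hy0
    (by constructor <;> norm_num [thq, nuq, liq]) h9
  have h11 : PX e κ (53 / 25) 2 (341 / 128) := pick_row he hκ hb hb5 hy0
    (by constructor <;> norm_num [thq, nuq, liq]) h10
  have h12 : PX e κ (53 / 25) 2 (85 / 32) := pick_row he hκ hb hb5 hy0
    (by constructor <;> norm_num [thq, nuq, liq]) h11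
  have h13 : PX e κ (53 / 25) 2 (339 / 128) := pick_row he hκ hb hb5 hy0
    (by constructor <;> norm_num [thq, nuq, liq]) h12
  have h14 : PX e κ (28 / 25) 2 (467 / 128) := dn_row he hκ (by norm_num) (by norm_num) (by norm_num) h13
  exact h14.mono (by linarith) hκ (by norm_num)

theorem row3b (he : 500 ≤ e) (hκ : 0 < κ) (hb : bet e κ ≤ 5001 / 1000) :
    PX e κ (47 / 25) 2 (23 / 8) := by
  have hb5 : (5001 / 1000 : ℝ) ≤ 5001 / 1000 := by norm_num
  have hy0 : (0:ℝ) ≤ 2 := by norm_num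
  have h0 : PX e κ (72 / 25) 2 (185 / 64) := unif_row he hκ hb hb5 hy0
    (by constructor <;> norm_num [thq, nuq, liq])
  have h1 : PX e κ (72 / 25) 2 (151 / 64) := pick_row he hκ hb hb5 hy0
    (by constructor <;> norm_num [thq, nuq, liq]) h0
  have h2 : PX e κ (72 / 25) 2 (67 / 32) := pick_row he hκ hb hb5 hy0
    (by constructor <;> norm_num [thq, nuq, liq]) h1
  have h3 : PX e κ (72 / 25) 2 (63 / 32) := pick_row he hκ hb hb5 hy0
    (by constructor <;> norm_num [thq, nuq, liq]) h2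
  have h4 : PX e κ (72 / 25) 2 (61 / 32) := pick_row he hκ hb hb5 hy0
    (by constructor <;> norm_num [thq, nuq, liq]) h3
  have h5 : PX e κ (72 / 25) 2 (15 / 8) := pick_row he hκ hb hb5 hy0
    (by constructor <;> norm_num [thq, nuq, liq]) h4
  have h6 : PX e κ (47 / 25) 2 (23 / 8) := dn_row he hκ (by norm_num) (by norm_num) (by norm_num) h5
  exact h6.mono (by linarith) hκ (by norm_num)

/-- row 3 -/
theorem row3 (he : 500 ≤ e) (hκ : 0 < κ) (hb : bet e κ ≤ 5001 / 1000) :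
    PX e κ (28 / 25) 2 (117 / 32) ∧ PX e κ (47 / 25) 2 (23 / 8) :=
  ⟨row3a he hκ hb, row3b he hκ hb⟩

theorem row4a (he : 500 ≤ e) (hκ : 0 < κ) (hb : bet e κ ≤ 5001 / 1000) :
    PX e κ (28 / 25) (9 / 4) (171 / 32) := by
  have hb5 : (5001 / 1000 : ℝ) ≤ 5001 / 1000 := by norm_num
  have hy0 : (0:ℝ) ≤ 9 / 4 := by norm_num
  have h0 : PX e κ (128 / 25) (9 / 4) (191 / 64) := unif_row he hκ hb hb5 hy0
    (by constructor <;> norm_num [thq, nuq, liq])
  have h1 : PX e κ (128 / 25) (9 / 4) (157 / 64) := pick_row he hκ hb hb5 hy0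
    (by constructor <;> norm_num [thq, nuq, liq]) h0
  have h2 : PX e κ (128 / 25) (9 / 4) (141 / 64) := pick_row he hκ hb hb5 hy0
    (by constructor <;> norm_num [thq, nuq, liq]) h1
  have h3 : PX e κ (128 / 25) (9 / 4) (67 / 32) := pick_row he hκ hb hb5 hy0
    (by constructor <;> norm_num [thq, nuq, liq]) h2
  have h4 : PX e κ (128 / 25) (9 / 4) (131 / 64) := pick_row he hκ hb hb5 hy0
    (by constructor <;> norm_num [thq, nuq, liq]) h3
  have h5 : PX e κ (128 / 25) (9 / 4) (65 / 32) := pick_row he hκ hb hb5 hy0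
    (by constructor <;> norm_num [thq, nuq, liq]) h4
  have h6 : PX e κ (128 / 25) (9 / 4) (129 / 64) := pick_row he hκ hb hb5 hy0
    (by constructor <;> norm_num [thq, nuq, liq]) h5
  have h7 : PX e κ (103 / 25) (9 / 4) (193 / 64) := dn_row he hκ (by norm_num) (by norm_num) (by norm_num) h6
  have h8 : PX e κ (103 / 25) (9 / 4) (173 / 64) := pick_row he hκ hb hb5 hy0
    (by constructor <;> norm_num [thq, nuq, liq]) h7
  have h9 : PX e κ (103 / 25) (9 / 4) (81 / 32) := pick_row he hκ hb hb5 hy0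
    (by constructor <;> norm_num [thq, nuq, liq]) h8
  have h10 : PX e κ (103 / 25) (9 / 4) (39 / 16) := pick_row he hκ hb hb5 hy0
    (by constructor <;> norm_num [thq, nuq, liq]) h9
  have h11 : PX e κ (103 / 25) (9 / 4) (153 / 64) := pick_row he hκ hb hb5 hy0
    (by constructor <;> norm_num [thq, nuq, liq]) h10
  have h12 : PX e κ (103 / 25) (9 / 4) (151 / 64) := pick_row he hκ hb hb5 hy0
    (by constructor <;> norm_num [thq, nuq, liq]) h11
  have h13 : PX e κ (103 / 25) (9 / 4) (75 / 32) := pick_row he hκ hb hb5 hy0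
    (by constructor <;> norm_num [thq, nuq, liq]) h12
  have h14 : PX e κ (78 / 25) (9 / 4) (107 / 32) := dn_row he hκ (by norm_num) (by norm_num) (by norm_num) h13
  have h15 : PX e κ (53 / 25) (9 / 4) (139 / 32) := dn_row he hκ (by norm_num) (by norm_num) (by norm_num) h14
  have h16 : PX e κ (28 / 25) (9 / 4) (171 / 32) := dn_row he hκ (by norm_num) (by norm_num) (by norm_num) h15
  exact h16.mono (by linarith) hκ (by norm_num)

theorem row4b (he : 500 ≤ e) (hκ : 0 < κ) (hb : bet e κ ≤ 5001 / 1000) :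
    PX e κ (47 / 25) (9 / 4) (143 / 32) := by
  have hb5 : (5001 / 1000 : ℝ) ≤ 5001 / 1000 := by norm_num
  have hy0 : (0:ℝ) ≤ 9 / 4 := by norm_num
  have h0 : PX e κ (122 / 25) (9 / 4) (203 / 64) := unif_row he hκ hb hb5 hy0
    (by constructor <;> norm_num [thq, nuq, liq])
  have h1 : PX e κ (122 / 25) (9 / 4) (83 / 32) := pick_row he hκ hb hb5 hy0
    (by constructor <;> norm_num [thq, nuq, liq]) h0
  have h2 : PX e κ (122 / 25) (9 / 4) (37 / 16) := pick_row he hκ hb hb5 hy0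
    (by constructor <;> norm_num [thq, nuq, liq]) h1
  have h3 : PX e κ (122 / 25) (9 / 4) (139 / 64) := pick_row he hκ hb hb5 hy0
    (by constructor <;> norm_num [thq, nuq, liq]) h2
  have h4 : PX e κ (122 / 25) (9 / 4) (135 / 64) := pick_row he hκ hb hb5 hy0
    (by constructor <;> norm_num [thq, nuq, liq]) h3
  have h5 : PX e κ (122 / 25) (9 / 4) (133 / 64) := pick_row he hκ hb hb5 hy0
    (by constructor <;> norm_num [thq, nuq, liq]) h4
  have h6 : PX e κ (97 / 25) (9 / 4) (197 / 64) := dn_row he hκ (by norm_num) (by norm_num) (by norm_num) h5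
  have h7 : PX e κ (97 / 25) (9 / 4) (181 / 64) := pick_row he hκ hb hb5 hy0
    (by constructor <;> norm_num [thq, nuq, liq]) h6
  have h8 : PX e κ (97 / 25) (9 / 4) (171 / 64) := pick_row he hκ hb hb5 hy0
    (by constructor <;> norm_num [thq, nuq, liq]) h7
  have h9 : PX e κ (97 / 25) (9 / 4) (165 / 64) := pick_row he hκ hb hb5 hy0
    (by constructor <;> norm_num [thq, nuq, liq]) h8
  have h10 : PX e κ (97 / 25) (9 / 4) (81 / 32) := pick_row he hκ hb hb5 hy0
    (by constructor <;> norm_num [thq, nuq, liq]) h9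
  have h11 : PX e κ (97 / 25) (9 / 4) (5 / 2) := pick_row he hκ hb hb5 hy0
    (by constructor <;> norm_num [thq, nuq, liq]) h10
  have h12 : PX e κ (97 / 25) (9 / 4) (159 / 64) := pick_row he hκ hb hb5 hy0
    (by constructor <;> norm_num [thq, nuq, liq]) h11
  have h13 : PX e κ (97 / 25) (9 / 4) (79 / 32) := pick_row he hκ hb hb5 hy0
    (by constructor <;> norm_num [thq, nuq, liq]) h12
  have h14 : PX e κ (72 / 25) (9 / 4) (111 / 32) := dn_row he hκ (by norm_num) (by norm_num) (by norm_num) h13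
  have h15 : PX e κ (47 / 25) (9 / 4) (143 / 32) := dn_row he hκ (by norm_num) (by norm_num) (by norm_num) h14
  exact h15.mono (by linarith) hκ (by norm_num)

/-- row 4 -/
theorem row4 (he : 500 ≤ e) (hκ : 0 < κ) (hb : bet e κ ≤ 5001 / 1000) :
    PX e κ (28 / 25) (9 / 4) (171 / 32) ∧ PX e κ (47 / 25) (9 / 4) (143 / 32) :=
  ⟨row4a he hκ hb, row4b he hκ hb⟩

theorem row5a (he : 500 ≤ e) (hκ : 0 < κ) (hb : bet e κ ≤ 5 / 2) :
    PX e κ (28 / 25) (9 / 4) (283 / 64) := by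
  have hb5 : (5 / 2 : ℝ) ≤ 5001 / 1000 := by norm_num
  have hy0 : (0:ℝ) ≤ 9 / 4 := by norm_num
  have h0 : PX e κ (78 / 25) (9 / 4) (27 / 8) := unif_row he hκ hb hb5 hy0
    (by constructor <;> norm_num [thq, nuq, liq])
  have h1 : PX e κ (78 / 25) (9 / 4) (23 / 8) := pick_row he hκ hb hb5 hy0
    (by constructor <;> norm_num [thq, nuq, liq]) h0
  have h2 : PX e κ (78 / 25) (9 / 4) (21 / 8) := pick_row he hκ hb hb5 hy0
    (by constructor <;> norm_num [thq, nuq, liq]) h1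
  have h3 : PX e κ (78 / 25) (9 / 4) (5 / 2) := pick_row he hκ hb hb5 hy0
    (by constructor <;> norm_num [thq, nuq, liq]) h2
  have h4 : PX e κ (78 / 25) (9 / 4) (157 / 64) := pick_row he hκ hb hb5 hy0
    (by constructor <;> norm_num [thq, nuq, liq]) h3
  have h5 : PX e κ (78 / 25) (9 / 4) (155 / 64) := pick_row he hκ hb hb5 hy0
    (by constructor <;> norm_num [thq, nuq, liq]) h4
  have h6 : PX e κ (53 / 25) (9 / 4) (219 / 64) := dn_row he hκ (by norm_num) (by norm_num) (by norm_num) h5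
  have h7 : PX e κ (28 / 25) (9 / 4) (283 / 64) := dn_row he hκ (by norm_num) (by norm_num) (by norm_num) h6
  exact h7.mono (by linarith) hκ (by norm_num)

theorem row5b (he : 500 ≤ e) (hκ : 0 < κ) (hb : bet e κ ≤ 5 / 2) :
    PX e κ (47 / 25) (9 / 4) (231 / 64) := by
  have hb5 : (5 / 2 : ℝ) ≤ 5001 / 1000 := by norm_num
  have hy0 : (0:ℝ) ≤ 9 / 4 := by norm_num
  have h0 : PX e κ (72 / 25) (9 / 4) (241 / 64) := unif_row he hκ hb hb5 hy0
    (by constructor <;> norm_num [thq, nuq, liq])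
  have h1 : PX e κ (72 / 25) (9 / 4) (205 / 64) := pick_row he hκ hb hb5 hy0
    (by constructor <;> norm_num [thq, nuq, liq]) h0
  have h2 : PX e κ (72 / 25) (9 / 4) (93 / 32) := pick_row he hκ hb hb5 hy0
    (by constructor <;> norm_num [thq, nuq, liq]) h1
  have h3 : PX e κ (72 / 25) (9 / 4) (11 / 4) := pick_row he hκ hb hb5 hy0
    (by constructor <;> norm_num [thq, nuq, liq]) h2
  have h4 : PX e κ (72 / 25) (9 / 4) (171 / 64) := pick_row he hκ hb hb5 hy0
    (by constructor <;> norm_num [thq, nuq, liq]) h3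
  have h5 : PX e κ (72 / 25) (9 / 4) (169 / 64) := pick_row he hκ hb hb5 hy0
    (by constructor <;> norm_num [thq, nuq, liq]) h4
  have h6 : PX e κ (72 / 25) (9 / 4) (21 / 8) := pick_row he hκ hb hb5 hy0
    (by constructor <;> norm_num [thq, nuq, liq]) h5
  have h7 : PX e κ (72 / 25) (9 / 4) (167 / 64) := pick_row he hκ hb hb5 hy0
    (by constructor <;> norm_num [thq, nuq, liq]) h6
  have h8 : PX e κ (47 / 25) (9 / 4) (231 / 64) := dn_row he hκ (by norm_num) (by norm_num) (by norm_num) h7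
  exact h8.mono (by linarith) hκ (by norm_num)

/-- row 5 -/
theorem row5 (he : 500 ≤ e) (hκ : 0 < κ) (hb : bet e κ ≤ 5 / 2) :
    PX e κ (28 / 25) (9 / 4) (283 / 64) ∧ PX e κ (47 / 25) (9 / 4) (231 / 64) :=
  ⟨row5a he hκ hb, row5b he hκ hb⟩

theorem row6a (he : 500 ≤ e) (hκ : 0 < κ) (hb : bet e κ ≤ 3) :
    PX e κ (28 / 25) (12 / 5) (375 / 64) := by
  have hb5 : (3 : ℝ) ≤ 5001 / 1000 := by norm_num
  have hy0 : (0:ℝ) ≤ 12 / 5 := by norm_num
  have h0 : PX e κ (103 / 25) (12 / 5) (271 / 64) := unif_row he hκ hb hb5 hy0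
    (by constructor <;> norm_num [thq, nuq, liq])
  have h1 : PX e κ (103 / 25) (12 / 5) (231 / 64) := pick_row he hκ hb hb5 hy0
    (by constructor <;> norm_num [thq, nuq, liq]) h0
  have h2 : PX e κ (103 / 25) (12 / 5) (209 / 64) := pick_row he hκ hb hb5 hy0
    (by constructor <;> norm_num [thq, nuq, liq]) h1
  have h3 : PX e κ (103 / 25) (12 / 5) (197 / 64) := pick_row he hκ hb hb5 hy0
    (by constructor <;> norm_num [thq, nuq, liq]) h2
  have h4 : PX e κ (103 / 25) (12 / 5) (95 / 32) := pick_row he hκ hb hb5 hy0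
    (by constructor <;> norm_num [thq, nuq, liq]) h3
  have h5 : PX e κ (103 / 25) (12 / 5) (93 / 32) := pick_row he hκ hb hb5 hy0
    (by constructor <;> norm_num [thq, nuq, liq]) h4
  have h6 : PX e κ (103 / 25) (12 / 5) (23 / 8) := pick_row he hκ hb hb5 hy0
    (by constructor <;> norm_num [thq, nuq, liq]) h5
  have h7 : PX e κ (103 / 25) (12 / 5) (183 / 64) := pick_row he hκ hb hb5 hy0
    (by constructor <;> norm_num [thq, nuq, liq]) h6
  have h8 : PX e κ (78 / 25) (12 / 5) (247 / 64) := dn_row he hκ (by norm_num) (by norm_num) (by norm_num) h7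
  have h9 : PX e κ (53 / 25) (12 / 5) (311 / 64) := dn_row he hκ (by norm_num) (by norm_num) (by norm_num) h8
  have h10 : PX e κ (28 / 25) (12 / 5) (375 / 64) := dn_row he hκ (by norm_num) (by norm_num) (by norm_num) h9
  exact h10.mono (by linarith) hκ (by norm_num)

theorem row6b (he : 500 ≤ e) (hκ : 0 < κ) (hb : bet e κ ≤ 3) :
    PX e κ (47 / 25) (12 / 5) (161 / 32) := by
  have hb5 : (3 : ℝ) ≤ 5001 / 1000 := by norm_num
  have hy0 : (0:ℝ) ≤ 12 / 5 := by norm_num
  have h0 : PX e κ (97 / 25) (12 / 5) (19 / 4) := unif_row he hκ hb hb5 hy0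
    (by constructor <;> norm_num [thq, nuq, liq])
  have h1 : PX e κ (97 / 25) (12 / 5) (65 / 16) := pick_row he hκ hb hb5 hy0
    (by constructor <;> norm_num [thq, nuq, liq]) h0
  have h2 : PX e κ (97 / 25) (12 / 5) (29 / 8) := pick_row he hκ hb hb5 hy0
    (by constructor <;> norm_num [thq, nuq, liq]) h1
  have h3 : PX e κ (97 / 25) (12 / 5) (27 / 8) := pick_row he hκ hb hb5 hy0
    (by constructor <;> norm_num [thq, nuq, liq]) h2
  have h4 : PX e κ (97 / 25) (12 / 5) (103 / 32) := pick_row he hκ hb hb5 hy0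
    (by constructor <;> norm_num [thq, nuq, liq]) h3
  have h5 : PX e κ (97 / 25) (12 / 5) (201 / 64) := pick_row he hκ hb hb5 hy0
    (by constructor <;> norm_num [thq, nuq, liq]) h4
  have h6 : PX e κ (97 / 25) (12 / 5) (99 / 32) := pick_row he hκ hb hb5 hy0
    (by constructor <;> norm_num [thq, nuq, liq]) h5
  have h7 : PX e κ (97 / 25) (12 / 5) (49 / 16) := pick_row he hκ hb hb5 hy0
    (by constructor <;> norm_num [thq, nuq, liq]) h6
  have h8 : PX e κ (97 / 25) (12 / 5) (195 / 64) := pick_row he hκ hb hb5 hy0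
    (by constructor <;> norm_num [thq, nuq, liq]) h7
  have h9 : PX e κ (97 / 25) (12 / 5) (97 / 32) := pick_row he hκ hb hb5 hy0
    (by constructor <;> norm_num [thq, nuq, liq]) h8
  have h10 : PX e κ (72 / 25) (12 / 5) (129 / 32) := dn_row he hκ (by norm_num) (by norm_num) (by norm_num) h9
  have h11 : PX e κ (47 / 25) (12 / 5) (161 / 32) := dn_row he hκ (by norm_num) (by norm_num) (by norm_num) h10
  exact h11.mono (by linarith) hκ (by norm_num)

/-- row 6 -/
theorem row6 (he : 500 ≤ e) (hκ : 0 < κ) (hb : bet e κ ≤ 3) :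
    PX e κ (28 / 25) (12 / 5) (375 / 64) ∧ PX e κ (47 / 25) (12 / 5) (161 / 32) :=
  ⟨row6a he hκ hb, row6b he hκ hb⟩

theorem row7a (he : 500 ≤ e) (hκ : 0 < κ) (hb : bet e κ ≤ 2) :
    PX e κ (28 / 25) (5 / 2) (427 / 64) := by
  have hb5 : (2 : ℝ) ≤ 5001 / 1000 := by norm_num
  have hy0 : (0:ℝ) ≤ 5 / 2 := by norm_num
  have h0 : PX e κ (103 / 25) (5 / 2) (725 / 128) := unif_row he hκ hb hb5 hy0
    (by constructor <;> norm_num [thq, nuq, liq])
  have h1 : PX e κ (103 / 25) (5 / 2) (633 / 128) := pick_row he hκ hb hb5 hy0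
    (by constructor <;> norm_num [thq, nuq, liq]) h0
  have h2 : PX e κ (103 / 25) (5 / 2) (571 / 128) := pick_row he hκ hb hb5 hy0
    (by constructor <;> norm_num [thq, nuq, liq]) h1
  have h3 : PX e κ (103 / 25) (5 / 2) (531 / 128) := pick_row he hκ hb hb5 hy0
    (by constructor <;> norm_num [thq, nuq, liq]) h2
  have h4 : PX e κ (103 / 25) (5 / 2) (253 / 64) := pick_row he hκ hb hb5 hy0
    (by constructor <;> norm_num [thq, nuq, liq]) h3
  have h5 : PX e κ (103 / 25) (5 / 2) (491 / 128) := pick_row he hκ hb hb5 hy0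
    (by constructor <;> norm_num [thq, nuq, liq]) h4
  have h6 : PX e κ (103 / 25) (5 / 2) (241 / 64) := pick_row he hκ hb hb5 hy0
    (by constructor <;> norm_num [thq, nuq, liq]) h5
  have h7 : PX e κ (103 / 25) (5 / 2) (477 / 128) := pick_row he hκ hb hb5 hy0
    (by constructor <;> norm_num [thq, nuq, liq]) h6
  have h8 : PX e κ (103 / 25) (5 / 2) (237 / 64) := pick_row he hκ hb hb5 hy0
    (by constructor <;> norm_num [thq, nuq, liq]) h7
  have h9 : PX e κ (103 / 25) (5 / 2) (59 / 16) := pick_row he hκ hb hb5 hy0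
    (by constructor <;> norm_num [thq, nuq, liq]) h8
  have h10 : PX e κ (103 / 25) (5 / 2) (471 / 128) := pick_row he hκ hb hb5 hy0
    (by constructor <;> norm_num [thq, nuq, liq]) h9
  have h11 : PX e κ (103 / 25) (5 / 2) (235 / 64) := pick_row he hκ hb hb5 hy0
    (by constructor <;> norm_num [thq, nuq, liq]) h10
  have h12 : PX e κ (78 / 25) (5 / 2) (299 / 64) := dn_row he hκ (by norm_num) (by norm_num) (by norm_num) h11
  have h13 : PX e κ (53 / 25) (5 / 2) (363 / 64) := dn_row he hκ (by norm_num) (by norm_num) (by norm_num) h12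
  have h14 : PX e κ (28 / 25) (5 / 2) (427 / 64) := dn_row he hκ (by norm_num) (by norm_num) (by norm_num) h13
  exact h14.mono (by linarith) hκ (by norm_num)

theorem row7b (he : 500 ≤ e) (hκ : 0 < κ) (hb : bet e κ ≤ 2) :
    PX e κ (47 / 25) (5 / 2) (383 / 64) := by
  have hb5 : (2 : ℝ) ≤ 5001 / 1000 := by norm_num
  have hy0 : (0:ℝ) ≤ 5 / 2 := by norm_num
  have h0 : PX e κ (97 / 25) (5 / 2) (29 / 4) := unif_row he hκ hb hb5 hy0
    (by constructor <;> norm_num [thq, nuq, liq])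
  have h1 : PX e κ (97 / 25) (5 / 2) (815 / 128) := pick_row he hκ hb hb5 hy0
    (by constructor <;> norm_num [thq, nuq, liq]) h0
  have h2 : PX e κ (97 / 25) (5 / 2) (181 / 32) := pick_row he hκ hb hb5 hy0
    (by constructor <;> norm_num [thq, nuq, liq]) h1
  have h3 : PX e κ (97 / 25) (5 / 2) (655 / 128) := pick_row he hκ hb hb5 hy0
    (by constructor <;> norm_num [thq, nuq, liq]) h2
  have h4 : PX e κ (97 / 25) (5 / 2) (303 / 64) := pick_row he hκ hb hb5 hy0
    (by constructor <;> norm_num [thq, nuq, liq]) h3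
  have h5 : PX e κ (97 / 25) (5 / 2) (143 / 32) := pick_row he hκ hb hb5 hy0
    (by constructor <;> norm_num [thq, nuq, liq]) h4
  have h6 : PX e κ (97 / 25) (5 / 2) (275 / 64) := pick_row he hκ hb hb5 hy0
    (by constructor <;> norm_num [thq, nuq, liq]) h5
  have h7 : PX e κ (97 / 25) (5 / 2) (535 / 128) := pick_row he hκ hb hb5 hy0
    (by constructor <;> norm_num [thq, nuq, liq]) h6
  have h8 : PX e κ (97 / 25) (5 / 2) (525 / 128) := pick_row he hκ hb hb5 hy0
    (by constructor <;> norm_num [thq, nuq, liq]) h7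
  have h9 : PX e κ (97 / 25) (5 / 2) (519 / 128) := pick_row he hκ hb hb5 hy0
    (by constructor <;> norm_num [thq, nuq, liq]) h8
  have h10 : PX e κ (97 / 25) (5 / 2) (515 / 128) := pick_row he hκ hb hb5 hy0
    (by constructor <;> norm_num [thq, nuq, liq]) h9
  have h11 : PX e κ (97 / 25) (5 / 2) (513 / 128) := pick_row he hκ hb hb5 hy0
    (by constructor <;> norm_num [thq, nuq, liq]) h10
  have h12 : PX e κ (97 / 25) (5 / 2) (511 / 128) := pick_row he hκ hb hb5 hy0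
    (by constructor <;> norm_num [thq, nuq, liq]) h11
  have h13 : PX e κ (97 / 25) (5 / 2) (255 / 64) := pick_row he hκ hb hb5 hy0
    (by constructor <;> norm_num [thq, nuq, liq]) h12
  have h14 : PX e κ (97 / 25) (5 / 2) (509 / 128) := pick_row he hκ hb hb5 hy0
    (by constructor <;> norm_num [thq, nuq, liq]) h13
  have h15 : PX e κ (72 / 25) (5 / 2) (637 / 128) := dn_row he hκ (by norm_num) (by norm_num) (by norm_num) h14
  have h16 : PX e κ (47 / 25) (5 / 2) (765 / 128) := dn_row he hκ (by norm_num) (by norm_num) (by norm_num) h15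
  exact h16.mono (by linarith) hκ (by norm_num)

/-- row 7 -/
theorem row7 (he : 500 ≤ e) (hκ : 0 < κ) (hb : bet e κ ≤ 2) :
    PX e κ (28 / 25) (5 / 2) (427 / 64) ∧ PX e κ (47 / 25) (5 / 2) (383 / 64) :=
  ⟨row7a he hκ hb, row7b he hκ hb⟩

theorem row8a (he : 500 ≤ e) (hκ : 0 < κ) (hb : bet e κ ≤ 3 / 2) :
    PX e κ (28 / 25) (13 / 5) (535 / 64) := by
  have hb5 : (3 / 2 : ℝ) ≤ 5001 / 1000 := by norm_num
  have hy0 : (0:ℝ) ≤ 13 / 5 := by norm_num
  have h0 : PX e κ (153 / 25) (13 / 5) (1259 / 256) := unif_row he hκ hb hb5 hy0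
    (by constructor <;> norm_num [thq, nuq, liq])
  have h1 : PX e κ (153 / 25) (13 / 5) (553 / 128) := pick_row he hκ hb hb5 hy0
    (by constructor <;> norm_num [thq, nuq, liq]) h0
  have h2 : PX e κ (153 / 25) (13 / 5) (511 / 128) := pick_row he hκ hb hb5 hy0
    (by constructor <;> norm_num [thq, nuq, liq]) h1
  have h3 : PX e κ (153 / 25) (13 / 5) (977 / 256) := pick_row he hκ hb hb5 hy0
    (by constructor <;> norm_num [thq, nuq, liq]) h2
  have h4 : PX e κ (153 / 25) (13 / 5) (953 / 256) := pick_row he hκ hb hb5 hy0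
    (by constructor <;> norm_num [thq, nuq, liq]) h3
  have h5 : PX e κ (153 / 25) (13 / 5) (941 / 256) := pick_row he hκ hb hb5 hy0
    (by constructor <;> norm_num [thq, nuq, liq]) h4
  have h6 : PX e κ (153 / 25) (13 / 5) (935 / 256) := pick_row he hκ hb hb5 hy0
    (by constructor <;> norm_num [thq, nuq, liq]) h5
  have h7 : PX e κ (153 / 25) (13 / 5) (233 / 64) := pick_row he hκ hb hb5 hy0
    (by constructor <;> norm_num [thq, nuq, liq]) h6
  have h8 : PX e κ (153 / 25) (13 / 5) (465 / 128) := pick_row he hκ hb hb5 hy0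
    (by constructor <;> norm_num [thq, nuq, liq]) h7
  have h9 : PX e κ (153 / 25) (13 / 5) (929 / 256) := pick_row he hκ hb hb5 hy0
    (by constructor <;> norm_num [thq, nuq, liq]) h8
  have h10 : PX e κ (128 / 25) (13 / 5) (1185 / 256) := dn_row he hκ (by norm_num) (by norm_num) (by norm_num) h9
  have h11 : PX e κ (128 / 25) (13 / 5) (1159 / 256) := pick_row he hκ hb hb5 hy0
    (by constructor <;> norm_num [thq, nuq, liq]) h10
  have h12 : PX e κ (128 / 25) (13 / 5) (571 / 128) := pick_row he hκ hb hb5 hy0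
    (by constructor <;> norm_num [thq, nuq, liq]) h11
  have h13 : PX e κ (128 / 25) (13 / 5) (283 / 64) := pick_row he hκ hb hb5 hy0
    (by constructor <;> norm_num [thq, nuq, liq]) h12
  have h14 : PX e κ (128 / 25) (13 / 5) (1125 / 256) := pick_row he hκ hb hb5 hy0
    (by constructor <;> norm_num [thq, nuq, liq]) h13
  have h15 : PX e κ (128 / 25) (13 / 5) (1121 / 256) := pick_row he hκ hb hb5 hy0
    (by constructor <;> norm_num [thq, nuq, liq]) h14
  have h16 : PX e κ (128 / 25) (13 / 5) (559 / 128) := pick_row he hκ hb hb5 hy0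
    (by constructor <;> norm_num [thq, nuq, liq]) h15
  have h17 : PX e κ (128 / 25) (13 / 5) (1117 / 256) := pick_row he hκ hb hb5 hy0
    (by constructor <;> norm_num [thq, nuq, liq]) h16
  have h18 : PX e κ (128 / 25) (13 / 5) (279 / 64) := pick_row he hκ hb hb5 hy0
    (by constructor <;> norm_num [thq, nuq, liq]) h17
  have h19 : PX e κ (128 / 25) (13 / 5) (1115 / 256) := pick_row he hκ hb hb5 hy0
    (by constructor <;> norm_num [thq, nuq, liq]) h18
  have h20 : PX e κ (103 / 25) (13 / 5) (1371 / 256) := dn_row he hκ (by norm_num) (by norm_num) (by norm_num) h19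
  have h21 : PX e κ (78 / 25) (13 / 5) (1627 / 256) := dn_row he hκ (by norm_num) (by norm_num) (by norm_num) h20
  have h22 : PX e κ (53 / 25) (13 / 5) (1883 / 256) := dn_row he hκ (by norm_num) (by norm_num) (by norm_num) h21
  have h23 : PX e κ (28 / 25) (13 / 5) (2139 / 256) := dn_row he hκ (by norm_num) (by norm_num) (by norm_num) h22
  exact h23.mono (by linarith) hκ (by norm_num)

theorem row8b (he : 500 ≤ e) (hκ : 0 < κ) (hb : bet e κ ≤ 3 / 2) :
    PX e κ (47 / 25) (13 / 5) (245 / 32) := by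
  have hb5 : (3 / 2 : ℝ) ≤ 5001 / 1000 := by norm_num
  have hy0 : (0:ℝ) ≤ 13 / 5 := by norm_num
  have h0 : PX e κ (147 / 25) (13 / 5) (2667 / 512) := unif_row he hκ hb hb5 hy0
    (by constructor <;> norm_num [thq, nuq, liq])
  have h1 : PX e κ (147 / 25) (13 / 5) (2343 / 512) := pick_row he hκ hb hb5 hy0
    (by constructor <;> norm_num [thq, nuq, liq]) h0
  have h2 : PX e κ (147 / 25) (13 / 5) (2153 / 512) := pick_row he hκ hb hb5 hy0
    (by constructor <;> norm_num [thq, nuq, liq]) h1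
  have h3 : PX e κ (147 / 25) (13 / 5) (2047 / 512) := pick_row he hκ hb hb5 hy0
    (by constructor <;> norm_num [thq, nuq, liq]) h2
  have h4 : PX e κ (147 / 25) (13 / 5) (1989 / 512) := pick_row he hκ hb hb5 hy0
    (by constructor <;> norm_num [thq, nuq, liq]) h3
  have h5 : PX e κ (147 / 25) (13 / 5) (1957 / 512) := pick_row he hκ hb hb5 hy0
    (by constructor <;> norm_num [thq, nuq, liq]) h4
  have h6 : PX e κ (147 / 25) (13 / 5) (485 / 128) := pick_row he hκ hb hb5 hy0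
    (by constructor <;> norm_num [thq, nuq, liq]) h5
  have h7 : PX e κ (147 / 25) (13 / 5) (1931 / 512) := pick_row he hκ hb hb5 hy0
    (by constructor <;> norm_num [thq, nuq, liq]) h6
  have h8 : PX e κ (147 / 25) (13 / 5) (963 / 256) := pick_row he hκ hb hb5 hy0
    (by constructor <;> norm_num [thq, nuq, liq]) h7
  have h9 : PX e κ (147 / 25) (13 / 5) (481 / 128) := pick_row he hκ hb hb5 hy0
    (by constructor <;> norm_num [thq, nuq, liq]) h8
  have h10 : PX e κ (147 / 25) (13 / 5) (961 / 256) := pick_row he hκ hb hb5 hy0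
    (by constructor <;> norm_num [thq, nuq, liq]) h9
  have h11 : PX e κ (147 / 25) (13 / 5) (1921 / 512) := pick_row he hκ hb hb5 hy0
    (by constructor <;> norm_num [thq, nuq, liq]) h10
  have h12 : PX e κ (122 / 25) (13 / 5) (2433 / 512) := dn_row he hκ (by norm_num) (by norm_num) (by norm_num) h11
  have h13 : PX e κ (122 / 25) (13 / 5) (2417 / 512) := pick_row he hκ hb hb5 hy0
    (by constructor <;> norm_num [thq, nuq, liq]) h12
  have h14 : PX e κ (122 / 25) (13 / 5) (1203 / 256) := pick_row he hκ hb hb5 hy0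
    (by constructor <;> norm_num [thq, nuq, liq]) h13
  have h15 : PX e κ (122 / 25) (13 / 5) (2399 / 512) := pick_row he hκ hb hb5 hy0
    (by constructor <;> norm_num [thq, nuq, liq]) h14
  have h16 : PX e κ (122 / 25) (13 / 5) (1197 / 256) := pick_row he hκ hb hb5 hy0
    (by constructor <;> norm_num [thq, nuq, liq]) h15
  have h17 : PX e κ (122 / 25) (13 / 5) (1195 / 256) := pick_row he hκ hb hb5 hy0
    (by constructor <;> norm_num [thq, nuq, liq]) h16
  have h18 : PX e κ (122 / 25) (13 / 5) (597 / 128) := pick_row he hκ hb hb5 hy0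
    (by constructor <;> norm_num [thq, nuq, liq]) h17
  have h19 : PX e κ (122 / 25) (13 / 5) (1193 / 256) := pick_row he hκ hb hb5 hy0
    (by constructor <;> norm_num [thq, nuq, liq]) h18
  have h20 : PX e κ (122 / 25) (13 / 5) (2385 / 512) := pick_row he hκ hb hb5 hy0
    (by constructor <;> norm_num [thq, nuq, liq]) h19
  have h21 : PX e κ (122 / 25) (13 / 5) (149 / 32) := pick_row he hκ hb hb5 hy0
    (by constructor <;> norm_num [thq, nuq, liq]) h20
  have h22 : PX e κ (97 / 25) (13 / 5) (181 / 32) := dn_row he hκ (by norm_num) (by norm_num) (by norm_num) h21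
  have h23 : PX e κ (72 / 25) (13 / 5) (213 / 32) := dn_row he hκ (by norm_num) (by norm_num) (by norm_num) h22
  have h24 : PX e κ (47 / 25) (13 / 5) (245 / 32) := dn_row he hκ (by norm_num) (by norm_num) (by norm_num) h23
  exact h24.mono (by linarith) hκ (by norm_num)

/-- row 8 -/
theorem row8 (he : 500 ≤ e) (hκ : 0 < κ) (hb : bet e κ ≤ 3 / 2) :
    PX e κ (28 / 25) (13 / 5) (535 / 64) ∧ PX e κ (47 / 25) (13 / 5) (245 / 32) :=
  ⟨row8a he hκ hb, row8b he hκ hb⟩

end Pool.Agent.helper31.EQB
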