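import Pool.Agent.helper31.EQB.Asm
import Pool.Agent.helper31.EQB.FirstC4
import Pool.Agent.helper31.EQB.RowM
import Pool.Agent.helper31.EQB.Nu
import Pool.Agent.helper31.EQB.Fb

/-!
# EQB programs: named values

Generated. Every structure lists the named values of a straight line number program, their defining equations `e_x` and
the assertions `p_x`; the numeric constants are fields of a bundle `c`.

Meaning (`K = sinh κ`, `β = e K`):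
* chart A (`500 ≤ e`, `β ≤ 5`): `sg = 1/√e`.
  Links: `s = √S`, `k = β/s`; scaled values: `X = XS s`, `lsp = lspS s`, `zb = zbS s`, `E = Q W`, `Qw = E/s`, `W = S/e`,
  `w = √W`, `Mo = wMo/w`, `EM = E (1 + M1)`, `EMs = EM/s`; `RH` of `LN` is `c.RH W`, `rh = c.RW W`, `rl = c.L1 W`.
  First node: `R = √(β²+v²)`, `kc = β/R`, `vs = v/R`, `V = w²`, `GrS = sg Gr`, `GtS = sg √(Gr²+v²)`,
  `G2S = sg √(Gr²+v²/4)`, `err = V er`, `dz = dzS w = dzR R`, `r1 = r1V V`, `r2 = r2V V`, `yc = ycR R`, `S0l = (R sR0)²`, `Sl = R² m2`,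
  `√Sl = R m`, `E = EQ V`, `E/√Sl = Qw`, `E/R = ER`, `RH` of `FN` is `c.RH V`, `Ma = Maw/(w m)` and so on, `vDG = v ΔG/R²`.
* chart B (`200 ≤ e`, `5 ≤ β`): `om = β/√e`, `ta = 1/β`, `se = 1/√e`, `y = |Im z|` (or `v`), `it = 1/√S`, `iR = 1/R`.
-/

namespace Pool.Agent.helper31.EQB

/-- constants of a link, chart A -/
structure CLA where
  (x d La rho RW L1 a hL2 Ld hLe RH RHq dq ex0 La1 Yd a1 tha : ℝ)

/-- constants of a row, links -/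
structure CRA where
  (Mo M1 ym bm : ℝ)

/-- constants of a link, chart B -/
structure CLB where
  (x d L0 rho2 rho1 La x1 x2 a a1 b b1 xd xe RH RHq La1 Yn Y2n Y0n Y20 : ℝ)

/-- constants of the first node, chart A -/
structure CFA where
  (cD RH RH1 RHq rho x0 Lam0 Y0 exK a0 tha aS lc0 lc1 : ℝ)

/-- constants of a row, first node -/
structure CRF where
  (Ma Mb M1 yr br : ℝ)

/-- constants of the first node, chart B -/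
structure CFB where
  (cD RH RH1 RHq rho2 rho1 x0 Lam0 Y0 Y02 a00 a01 C lc0 lc1 lc02 lc12 : ℝ)

/-- link, chart A -/
structure PLA (c : CLA) (sg s k wMo EM EMs : ℝ) where
  (ie be k2 w W wse y2 Wie q sp q2 R2 V1 u ls D2 : ℝ)
  (DP XS X iX G n1 lspS lsp ielf uX ielfp zbS zb fac Q E : ℝ)
  (Qw c2 u1 i2 eta t1 : ℝ)
  e_ie : ie = sg * sg
  e_be : be = k * s
  e_k2 : k2 = k * k
  e_w : w = sg * s
  e_W : W = w * w
  e_wse : wse = w * sg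
  e_y2 : y2 = s * s * ((-k2) + 1)
  e_Wie : Wie = W * ie
  e_q : q = (4095 / 4096) - (1449 / 512) * sg - 30 * ie
  e_sp : sp = (4095 / 4096) - (2899 / 2048) * sg - 24 * ie
  e_q2 : q2 = q - 8 * ie - c.rho * Wie
  e_R2 : R2 = c.RW * (c.RW * Wie)
  e_V1 : V1 = R2 + 1
  e_u : u = Real.exp (-(q2 * (c.L1 * W)))
  e_ls : ls = w * V1 * wMo
  e_D2 : D2 = V1 - 2 * (c.L1 * (k * wse))
  e_DP : DP = 1 + (1 / 2) * (R2 + 2 * (c.RW * (k * wse)))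
  e_XS : XS = 4 * (c.a * (DP * (be + 4)⁻¹))
  e_X : X = XS * s
  e_iX : iX = (1 - X)⁻¹
  e_G : G = 2 - (1 / 4) * y2 + (2731 / 524288) * (y2 * y2) + (859 / 1048576) * ((1 / 4) * y2 * ((1 / 4) * y2) * ((1 / 4) * y2) * ((1 / 4) * y2 * ((1 / 4) * y2) * ((1 / 4) * y2)))
  e_n1 : n1 = G + c.RW * W + Real.exp (ls + (314573 / 524288) * (W * V1)) - 1
  e_lspS : lspS = sg * V1 * wMo + n1 * (XS * iX)
  e_lsp : lsp = lspS * s
  e_ielf : ielf = (9 / 2) * ie + (43691 / 524288) * sg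
  e_uX : uX = u * X
  e_ielfp : ielfp = ielf + ie * (uX * (1 - uX)⁻¹)
  e_zbS : zbS = Real.exp ((1 / 2) * Real.log (R2 - k2 + (129 / 128)))
  e_zb : zb = zbS * s
  e_fac : fac = (1 / 2) * (zb * ie) + (1064305 / 1048576)
  e_Q : Q = fac * ((1 / 2) * wse * D2 * (zbS + (2149581 / 1048576) * k) + (zbS + (5243 / 1048576) * k) * lspS + k2 * ((445645 / 262144) * (ie * lsp) + (576717 / 262144) * ielfp))
  e_E : E = Q * W
  e_Qw : Qw = Q * wse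
  e_c2 : c2 = (4087 / 4096) - 2 * Qw
  e_u1 : u1 = Real.exp (-(q2 * (c.Ld * (W * c2))))
  e_i2 : i2 = (1 - (1 / 2) * EM)⁻¹
  e_eta : eta = ((1 / 2) * EM + 1) * i2
  e_t1 : t1 = EMs * i2 * ((1 / 4) * be + 1)
  p_X1 : 0 < 1 - X
  p_q20 : 0 < q2
  p_Es : 0 < 1 - Qw
  p_c20 : 0 < c2
  p_RH : 0 < c.RH - c.RW - Q - (Qw + 1) * (Qw + 1)
  p_h9 : 0 < (9646899 / 1048576) * c2 - c.RH
  p_h2 : 0 < (471859 / 524288) * c2 - c.RHq * Wie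
  p_Er : 0 < c.L1 - Q
  p_dr : 0 < c.dq * (1 - Qw) - c.ex0 * Q
  p_La : 0 < c.La1 * (1 - 2 * Qw) - c.RW - Q
  p_l1 : 0 < (-(ie * lsp)) + (10485 / 1048576)
  p_l2 : 0 < (-ielfp) + (20971 / 1048576)
  p_z1 : 0 < (-(zb * ie)) + (104857 / 1048576)
  p_E1 : 0 < (-(E * ie)) + (2621 / 524288)
  p_y : 0 < (-E) + c.Yd
  p_EM2 : 0 < 1 - (1 / 2) * EM
  p_cl : 0 < (-(t1 + eta * (c.a1 * u1) * (wse * (V1 + Q) + 1))) + c.tha

/-- `Mo`, `M1` from `Mq` -/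
structure PLAq {c : CLA} {sg s k wMo EM EMs : ℝ}
    (P : PLA c sg s k wMo EM EMs) where
  (bno wso bo ibo cc5 xxn rcn bnn wsn bn ibn m1 : ℝ)
  e_bno : bno = (523135 / 524288) * P.sp
  e_wso : wso = bno * P.w
  e_bo : bo = bno * ((1 / 2) * wso + ((1482911 / 16777216) * (wso * wso) + (1482911 / 1048576)))⁻¹
  e_ibo : ibo = (bo + c.hL2 * (P.q * P.w))⁻¹
  e_wMo : wMo = P.u * (P.w + ibo)
  e_cc5 : cc5 = (4087 / 4096) * P.c2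
  e_xxn : xxn = (-cc5) + 1
  e_rcn : rcn = (1 / 2) * xxn * (-(xxn + 1)) + 1
  e_bnn : bnn = P.sp * rcn
  e_wsn : wsn = bnn * P.w
  e_bn : bn = bnn * ((1 / 2) * wsn + ((1482911 / 16777216) * (wsn * wsn) + (1482911 / 1048576)))⁻¹
  e_ibn : ibn = (bn + c.hLe * (P.q * P.w * cc5))⁻¹
  e_m1 : m1 = P.u1 * (P.w + ibn)
  e_EM : EM = P.Q * (P.W + P.w * m1)
  e_EMs : EMs = P.Q * (P.wse + sg * m1)

/-- `Mo`, `M1` from a row `r` -/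
structure PLAr {c : CLA} {sg s k wMo EM EMs : ℝ} (r : CRA)
    (P : PLA c sg s k wMo EM EMs) where
  e_wMo : wMo = r.Mo * P.w
  e_EM : EM = r.M1 * P.E + P.E
  e_EMs : EMs = r.M1 * P.Qw + P.Qw
  p_row_y : 0 < r.ym - P.y2
  p_row_b : 0 < r.bm - P.be

/-- link, chart B -/
structure PLB (c : CLB) (om ta y n1 ielf : ℝ) where
  (se ie K K2 q6 Kq Yt Y2 wm wm2 wse0 q sp y2 sg2 lsg : ℝ)
  (w k W it k2 wse Wie q2 ie2 c5 RW R2 V1 z1 iz1 th1 : ℝ)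
  (l1 z2 iz2 th2 l2 rl cc5 xxo rco bno wso bo ibo eo wMo u : ℝ)
  (ls D2 xP DP an an1 X iX lsp lspS uX ielfp rh zb zbS fac : ℝ)
  (Q E Qw c2 zd izd thd ld ze ize the le cd5 xxn rcn bnn : ℝ)
  (wsn bn ibn u1 m1 EM i2 eta t1 : ℝ)
  e_se : se = om * ta
  e_ie : ie = se * se
  e_K : K = om * se
  e_K2 : K2 = K * K
  e_q6 : q6 = 1 - K2 * (1 * 6⁻¹)
  e_Kq : Kq = K * q6
  e_Yt : Yt = (7 / 2) * ta
  e_Y2 : Y2 = Yt * Yt
  e_wm : wm = Yt * (1 + Y2 * ((1 / 2) - (1 / 8) * Y2))⁻¹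
  e_wm2 : wm2 = wm * wm
  e_wse0 : wse0 = wm * se
  e_q : q = (4095 / 4096) - (1449 / 512) * wse0 - 23 * ie - (1 / 2) * K2
  e_sp : sp = (4095 / 4096) - (2899 / 2048) * wse0 - 19 * ie - (553 / 1024) * K2
  e_y2 : y2 = y * y
  e_sg2 : sg2 = y2 * (ta * ta) + 1
  e_lsg : lsg = (1 / 2) * Real.log sg2
  e_w : w = om * Real.exp lsg
  e_k : k = Real.exp (-lsg)
  e_W : W = w * w
  e_it : it = ta * k
  e_k2 : k2 = k * k
  e_wse : wse = w * se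
  e_Wie : Wie = W * ie
  e_q2 : q2 = q - 8 * ie - Wie * (c.rho2 * wm2 + c.rho1)
  e_ie2 : ie2 = ie * ie
  e_c5 : c5 = 1 - 500 * ie2
  e_RW : RW = c.La * (560 * ie2 + 1)
  e_R2 : R2 = RW * RW * Wie
  e_V1 : V1 = R2 + 1
  e_z1 : z1 = 2 * (Kq * c.x1)
  e_iz1 : iz1 = (z1 * z1 * (1 * 3⁻¹) + 1)⁻¹
  e_th1 : th1 = z1 * iz1
  e_l1 : l1 = q6 * c.x1 * iz1 * ((1 / 4) * (th1 * th1) + 1)
  e_z2 : z2 = 2 * (Kq * c.x2)
  e_iz2 : iz2 = (z2 * z2 * (1 * 3⁻¹) + 1)⁻¹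
  e_th2 : th2 = z2 * iz2
  e_l2 : l2 = q6 * c.x2 * iz2 * ((1 / 4) * (th2 * th2) + 1)
  e_rl : rl = W * l1
  e_cc5 : cc5 = c5 * c5
  e_xxo : xxo = (-cc5) + 1
  e_rco : rco = (1 / 2) * xxo * (-(xxo + 1)) + 1
  e_bno : bno = sp * rco
  e_wso : wso = bno * w
  e_bo : bo = bno * ((1 / 2) * wso + ((1482911 / 16777216) * (wso * wso) + (1482911 / 1048576)))⁻¹
  e_ibo : ibo = (bo + (1 / 2) * (q * w * cc5 * l2))⁻¹
  e_eo : eo = Real.exp (-(q2 * rl * c5))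
  e_wMo : wMo = eo * (w + ibo)
  e_u : u = Real.exp (-(q2 * rl))
  e_ls : ls = w * V1 * wMo
  e_D2 : D2 = l1 * l1 * Wie + (1 - 2 * (k * l1 * wse))
  e_xP : xP = R2 + 2 * (k * RW * wse)
  e_DP : DP = 1 + xP * ((1 / 2) - xP * ((1 / 8) - (1 / 16) * xP))
  e_an : an = c.a1 * ta + c.a
  e_an1 : an1 = c.b1 * ta + c.b
  e_X : X = 4 * (an * (4 * it + k)⁻¹ * DP)
  e_iX : iX = (1 - X)⁻¹
  e_lsp : lsp = ls + n1 * (X * iX)
  e_lspS : lspS = lsp * it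
  e_uX : uX = u * X
  e_ielfp : ielfp = ielf + ie * (uX * (1 - uX)⁻¹)
  e_rh : rh = RW * W
  e_zb : zb = Real.exp ((1 / 2) * Real.log (rh * rh + y2 + (1 / 64)))
  e_zbS : zbS = zb * it
  e_fac : fac = (1 / 2) * (zb * ie) + (1064305 / 1048576)
  e_Q : Q = fac * ((1 / 2) * wse * D2 * (zbS + (2149581 / 1048576) * k) + (zbS + (1 / 2) * (k * K)) * lspS + k2 * ((445645 / 262144) * (ie * lsp) + (576717 / 262144) * ielfp))
  e_E : E = Q * W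
  e_Qw : Qw = Q * wse
  e_c2 : c2 = c5 - 2 * Qw
  e_zd : zd = 2 * (Kq * c.xd)
  e_izd : izd = (zd * zd * (1 * 3⁻¹) + 1)⁻¹
  e_thd : thd = zd * izd
  e_ld : ld = q6 * c.xd * izd * ((1 / 4) * (thd * thd) + 1)
  e_ze : ze = 2 * (Kq * c.xe)
  e_ize : ize = (ze * ze * (1 * 3⁻¹) + 1)⁻¹
  e_the : the = ze * ize
  e_le : le = q6 * c.xe * ize * ((1 / 4) * (the * the) + 1)
  e_cd5 : cd5 = c2 * c5
  e_xxn : xxn = (-cd5) + 1
  e_rcn : rcn = (1 / 2) * xxn * (-(xxn + 1)) + 1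
  e_bnn : bnn = sp * rcn
  e_wsn : wsn = bnn * w
  e_bn : bn = bnn * ((1 / 2) * wsn + ((1482911 / 16777216) * (wsn * wsn) + (1482911 / 1048576)))⁻¹
  e_ibn : ibn = (bn + (1 / 2) * (q * w * cd5 * le))⁻¹
  e_u1 : u1 = Real.exp (-(q2 * ld * W * c2))
  e_m1 : m1 = u1 * (w + ibn)
  e_EM : EM = Q * (W + w * m1)
  e_i2 : i2 = (1 - (1 / 2) * EM)⁻¹
  e_eta : eta = ((1 / 2) * EM + 1) * i2
  e_t1 : t1 = EM * i2 * (it + (1 / 4) * k)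
  p_rr : 0 < 2 * k - wse * (RW + l1)
  p_X1 : 0 < 1 - X
  p_q20 : 0 < q2
  p_Es : 0 < 1 - Qw
  p_c20 : 0 < c2
  p_RH : 0 < c.RH - RW - Q - (Qw + 1) * (Qw + 1)
  p_h9 : 0 < (9646899 / 1048576) * c2 - c.RH
  p_h2 : 0 < (471859 / 524288) * c2 - c.RHq * Wie
  p_Er : 0 < l1 - Q
  p_dr : 0 < c.d * q6 * (1 - Qw) - Q * Real.exp (2 * (c.x1 * K))
  p_La : 0 < c.La1 * (1 - 2 * Qw) - RW - Q
  p_l1 : 0 < (-(ie * lsp)) + (10485 / 1048576)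
  p_l2 : 0 < (-ielfp) + (20971 / 1048576)
  p_z1 : 0 < (-(zb * ie)) + (104857 / 1048576)
  p_E1 : 0 < (-(E * ie)) + (2621 / 524288)
  p_y : 0 < (-E) - y + c.Y2n * K + c.Yn
  p_yY : 0 < (-E) - y + (7 / 2)
  p_EM2 : 0 < 1 - (1 / 2) * EM
  p_cl : 0 < (1 - (1 / 1024) * K) * an - t1 - eta * (u1 * an1) * (wse * (V1 + Q) + 1)

/-- `n1` by `2 cos (y/2)` -/
structure PLBn {c : CLB} {om ta y n1 ielf : ℝ}
    (P : PLB c om ta y n1 ielf) where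
  (G : ℝ)
  e_G : G = 2 - (1 / 4) * P.y2 + (2731 / 524288) * (P.y2 * P.y2) + (859 / 1048576) * ((1 / 4) * P.y2 * ((1 / 4) * P.y2) * ((1 / 4) * P.y2) * ((1 / 4) * P.y2 * ((1 / 4) * P.y2) * ((1 / 4) * P.y2)))
  e_n1 : n1 = G + P.W * P.RW + Real.exp (P.ls + (314573 / 524288) * (P.W * P.V1)) - 1

/-- `n1 = u + 1` -/
structure PLBu {c : CLB} {om ta y n1 ielf : ℝ}
    (P : PLB c om ta y n1 ielf) where
  e_n1 : n1 = P.u + 1

/-- `lf` by `√e` -/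
structure PLBf {c : CLB} {om ta y n1 ielf : ℝ}
    (P : PLB c om ta y n1 ielf) where
  e_ielf : ielf = (9 / 2) * P.ie + (43691 / 524288) * P.se

/-- `lf` by `-log (1 - u)` -/
structure PLBv {c : CLB} {om ta y n1 ielf : ℝ}
    (P : PLB c om ta y n1 ielf) where
  e_ielf : ielf = P.ie * ((183501 / 262144) - Real.log (1 - P.u))
  p_u1 : 0 < 1 - P.u

/-- guard of chart B: `y` is larger than possible (`x`, `Yk`, `Yn`: node) -/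
structure PLBg (om ta y x Yk Yn : ℝ) where
  (se ie K K2 q6 Kq z0 iz0 th0 l0 W : ℝ)
  e_se : se = om * ta
  e_ie : ie = se * se
  e_K : K = om * se
  e_K2 : K2 = K * K
  e_q6 : q6 = 1 - K2 * (1 * 6⁻¹)
  e_Kq : Kq = K * q6
  e_z0 : z0 = 2 * (Kq * x)
  e_iz0 : iz0 = (z0 * z0 * (1 * 3⁻¹) + 1)⁻¹
  e_th0 : th0 = z0 * iz0
  e_l0 : l0 = q6 * x * iz0 * ((1 / 4) * (th0 * th0) + 1)
  e_W : W = om * om * (y * y * (ta * ta) + 1)
  p_gY : 0 < y * (W * ie * (2 * l0 + 1) + 1) - Yk * K - Yn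

/-- first node, chart A -/
structure PFA (c : CFA) (sg be v R kc vs GrS GtS G2S DG DF vDG EM EMr : ℝ) where
  (ie w V wse K K2 K2se q sp lau i4 XS X Vie a ea : ℝ)
  (e2a er h4 dzS dzR r1V r2V glf ycR r1w kv x1 z sR0 m m2 : ℝ)
  (wn q2 l1 l2 lv u iX LX uX LU im dz EQ ER Qw c2 : ℝ)
  (s1 d E yE x2 l4 u1 i2 eta r2w DPx VcR DPR : ℝ)
  e_ie : ie = sg * sg
  e_w : w = sg * R
  e_V : V = w * w
  e_wse : wse = w * sg
  e_K : K = be * ie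
  e_K2 : K2 = K * K
  e_K2se : K2se = K * be * sg
  e_q : q = (4095 / 4096) - (1449 / 512) * sg - 30 * ie
  e_sp : sp = (4095 / 4096) - (2899 / 2048) * sg - 24 * ie
  e_lau : lau = (1 / 2) * be + Real.log (Real.exp (-be) + 1)
  e_i4 : i4 = (be + 4)⁻¹
  e_XS : XS = 4 * (c.aS * i4)
  e_X : X = R * XS
  e_Vie : Vie = V * ie
  e_a : a = sg * GtS + c.cD * ie
  e_ea : ea = Real.exp a
  e_e2a : e2a = ea * ea
  e_er : er = ((838861 / 524288) * V + (5 / 2) * v) * ie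
  e_h4 : h4 = 1 - (1 / 4) * K2
  e_dzS : dzS = vs * (G2S + ea * ((1 / 2) * (sg * GtS * GtS) + (149797 / 1048576) * K2se)) + w * ((3 / 2) * e2a - (3 / 2) + (3 / 4) * K2 + v * ie + er) + K2se * ((1 / 8) * (v * vs * ie))
  e_dzR : dzR = dzS * sg
  e_r1V : r1V = h4 * (3 - (3 / 2) * e2a) - (1 / 2) * (kc * kc) - vs * vs * ea - er
  e_r2V : r2V = (3 / 2) * e2a - h4 * ((1 / 2) * (kc * kc)) + er
  e_glf : glf = 1 + (267387 / 262144) * ((838861 / 524288) * V * ie)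
  e_ycR : ycR = vs * (glf + 2 * (Vie * e2a)) + wse * er
  e_r1w : r1w = r1V * wse
  e_kv : kv = kc * kc + ycR * ycR
  e_x1 : x1 = (1023 / 1024) * r1V * (kv + r1w * r1w)⁻¹
  e_z : z = 2 * (vs * vs * Vie)
  e_sR0 : sR0 = 1 - z
  e_m : m = sR0 - dzR - dzR * dzR
  e_m2 : m2 = m * m
  e_wn : wn = w * m
  e_q2 : q2 = q - 8 * ie - c.rho * Vie
  e_l1 : l1 = (16361 / 16384) * x1
  e_l2 : l2 = (16361 / 16384) * (x1 + 1)
  e_lv : lv = l1 * V * m2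
  e_u : u = Real.exp (-(q2 * lv))
  e_iX : iX = (1 - X)⁻¹
  e_LX : LX = 1 + (1 / 2) * X + (174763 / 524288) * (X * X * iX)
  e_uX : uX = u * X
  e_LU : LU = 1 + (1 / 2) * uX + (174763 / 524288) * (uX * uX * (1 - uX)⁻¹)
  e_im : im = m⁻¹
  e_dz : dz = dzS * w
  e_EQ : EQ = (1111491 / 1048576) * e2a * (vDG + ie * (2 * DG + DF))
  e_ER : ER = EQ * wse
  e_Qw : Qw = ER * im
  e_c2 : c2 = (-(2 * Qw)) + (4087 / 4096)
  e_s1 : s1 = (1 / 2) * (kv - 1) + 1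
  e_d : d = c.exK * (EQ * (m2 * (1 - Qw))⁻¹)
  e_E : E = EQ * V
  e_yE : yE = ycR * R + E
  e_x2 : x2 = x1 - d + 1
  e_l4 : l4 = (16361 / 16384) * x2
  e_u1 : u1 = Real.exp (-(q2 * (l4 * V * m2 * c2)))
  e_i2 : i2 = (1 - (1 / 2) * EM)⁻¹
  e_eta : eta = ((1 / 2) * EM + 1) * i2
  e_r2w : r2w = r2V * wse
  e_DPx : DPx = kv + r2w * (r2w + 2 * kc)
  e_VcR : VcR = wse * (kv + r2w * r2w)
  e_DPR : DPR = (1 / 2) * (DPx - 1) + 1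
  p_a1 : 0 < (-a) + (29127 / 524288)
  p_x11 : 0 < (-x1) + 1
  p_X1 : 0 < 1 - X
  p_cG : 0 < (-DG) + c.cD
  p_cF : 0 < (-DF) + c.cD
  p_Es : 0 < 1 - Qw
  p_R1 : 0 < c.RH1 - (dzR + 1) * (dzR + 1)
  p_R2 : 0 < c.RH - r2V - EQ - (s1 + dzR + ER) * (s1 + dzR + ER)
  p_h9 : 0 < (9646899 / 1048576) * (m2 * c2) - c.RH
  p_h2 : 0 < (471859 / 524288) * (m2 * c2) - c.RHq * Vie
  p_q20 : 0 < q2
  p_dzS0 : 0 < sR0 - dzR
  p_m0 : 0 < m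
  p_x0 : 0 < x1 - d - c.x0
  p_Er : 0 < r1V - EQ
  p_La : 0 < c.Lam0 * (m2 * (1 - 2 * Qw)) - r2V - EQ
  p_y0 : 0 < (-yE) + c.Y0
  p_EM2 : 0 < 1 - (1 / 2) * EM
  p_cl : 0 < (-(EMr * i2 + c.a0 * (eta * u1) * (DPR + VcR + ER))) + c.tha

/-- variables `β`, `v` -/
structure PFAv (be v R kc vs iR : ℝ) where
  (L : ℝ)
  e_L : L = (1 / 2) * Real.log (be * be + v * v)
  e_R : R = Real.exp L
  e_iR : iR = Real.exp (-L)
  e_kc : kc = be * iR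
  e_vs : vs = v * iR

/-- variables `R`, `t` -/
structure PFAt (R t be v kc vs iR : ℝ) where
  (t2 it : ℝ)
  e_t2 : t2 = t * t
  e_it : it = (t2 + 1)⁻¹
  e_kc : kc = (1 - t2) * it
  e_vs : vs = 2 * (t * it)
  e_be : be = R * kc
  e_v : v = R * vs
  e_iR : iR = R⁻¹

/-- variables `R`, `t`, without `1/R` -/
structure PFAu (R t be v kc vs : ℝ) where
  (t2 it : ℝ)
  e_t2 : t2 = t * t
  e_it : it = (t2 + 1)⁻¹
  e_kc : kc = (1 - t2) * it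
  e_vs : vs = 2 * (t * it)
  e_be : be = R * kc
  e_v : v = R * vs

/-- `Gr` with the bound of `log |f|` -/
structure PFAg {c : CFA} {sg be v R kc vs GrS GtS G2S DG DF vDG EM EMr : ℝ} (iR : ℝ)
    (P : PFA c sg be v R kc vs GrS GtS G2S DG DF vDG EM EMr) where
  (sv : ℝ)
  e_GrS : GrS = sg * (P.lau + c.lc0) + c.lc1 * iR
  e_sv : sv = sg * v
  e_GtS : GtS = Real.exp ((1 / 2) * Real.log (GrS * GrS + sv * sv))
  e_G2S : G2S = Real.exp ((1 / 2) * Real.log (GrS * GrS + (1 / 4) * (sv * sv)))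

/-- `Gr = lau` (`v ≤ 1`) -/
structure PFAh {c : CFA} {sg be v R kc vs GrS GtS G2S DG DF vDG EM EMr : ℝ}
    (P : PFA c sg be v R kc vs GrS GtS G2S DG DF vDG EM EMr) where
  e_GrS : GrS = sg * P.lau
  e_GtS : GtS = sg * Real.exp ((1 / 2) * Real.log (P.lau * P.lau + v * v))
  e_G2S : G2S = sg * Real.exp ((1 / 2) * Real.log (P.lau * P.lau + (1 / 4) * (v * v)))

/-- `Ma`, `Mb`, `M1` from `Mq`; `iR = 1/R` -/
structure PFAq {c : CFA} {sg be v R kc vs GrS GtS G2S DG DF vDG EM EMr : ℝ} (iR : ℝ)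
    (P : PFA c sg be v R kc vs GrS GtS G2S DG DF vDG EM EMr) where
  (iR2 rb bna wsa ba iba Maw l3 bnc wsc bc ibc ub Mbw l5 cd5 : ℝ)
  (xxn rcn bnn wsn bn ibn Mnw : ℝ)
  e_iR2 : iR2 = iR * iR
  e_rb : rb = iR + (1 / 4) * kc
  e_bna : bna = (523711 / 524288) * P.sp
  e_wsa : wsa = bna * P.wn
  e_ba : ba = bna * ((1 / 2) * wsa + ((1482911 / 16777216) * (wsa * wsa) + (1482911 / 1048576)))⁻¹
  e_iba : iba = (ba + (4087 / 8192) * (P.q * P.wn * P.l2))⁻¹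
  e_Maw : Maw = P.u * (P.wn + iba)
  e_l3 : l3 = (16361 / 16384) * (P.x1 + 2)
  e_bnc : bnc = (523135 / 524288) * P.sp
  e_wsc : wsc = bnc * P.wn
  e_bc : bc = bnc * ((1 / 2) * wsc + ((1482911 / 16777216) * (wsc * wsc) + (1482911 / 1048576)))⁻¹
  e_ibc : ibc = (bc + (260993 / 524288) * (P.q * P.wn * l3))⁻¹
  e_ub : ub = Real.exp (-(P.q2 * ((4087 / 4096) * (P.l2 * P.V * P.m2))))
  e_Mbw : Mbw = ub * (P.wn + ibc)
  e_DG : DG = P.dz + P.dzS * Mbw * P.im + P.X * P.LX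
  e_DF : DF = P.dzS * Maw * P.im + P.uX * P.LU
  e_vDG : vDG = v * DG * iR2
  e_l5 : l5 = (16361 / 16384) * (P.x2 + 1)
  e_cd5 : cd5 = (4087 / 4096) * P.c2
  e_xxn : xxn = (-cd5) + 1
  e_rcn : rcn = (1 / 2) * xxn * (-(xxn + 1)) + 1
  e_bnn : bnn = P.sp * rcn
  e_wsn : wsn = bnn * P.wn
  e_bn : bn = bnn * ((1 / 2) * wsn + ((1482911 / 16777216) * (wsn * wsn) + (1482911 / 1048576)))⁻¹
  e_ibn : ibn = (bn + (1 / 2) * (P.q * P.wn * cd5 * l5))⁻¹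
  e_Mnw : Mnw = P.u1 * (P.wn + ibn)
  e_EM : EM = P.E + P.EQ * P.w * Mnw * P.im
  e_EMr : EMr = EM * rb

/-- `Ma`, `Mb`, `M1` from a row `r` -/
structure PFAr {c : CFA} {sg be v R kc vs GrS GtS G2S DG DF vDG EM EMr : ℝ} (r : CRF)
    (P : PFA c sg be v R kc vs GrS GtS G2S DG DF vDG EM EMr) where
  e_DG : DG = P.dz + r.Mb * P.dz + P.X * P.LX
  e_DF : DF = r.Ma * P.dz + P.uX * P.LU
  e_vDG : vDG = vs * (r.Mb * P.dzR + P.dzR + P.XS * P.LX)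
  e_EM : EM = r.M1 * P.E + P.E
  e_EMr : EMr = (r.M1 * P.ER + P.ER) * ((1 / 4) * be + 1)
  p_yr : 0 < (-P.yE) + r.yr
  p_vr : 0 < (-v) + r.yr
  p_br : 0 < (-be) + r.br

/-- test, chart A -/
structure PFAT {c : CFA} {sg be v R kc vs GrS GtS G2S DG DF vDG EM EMr : ℝ}
    (P : PFA c sg be v R kc vs GrS GtS G2S DG DF vDG EM EMr) where
  (bb tn : ℝ)
  e_bb : bb = be * be * P.ie
  e_tn : tn = (529531 / 524288) * ((3294199 / 1048576) * P.ie * DF + (3294199 / 1048576) * sg * G2S + (3294199 / 1048576) * ((147325 / 262144) * P.Vie + (277873 / 524288) * (P.a * P.a) + (56361 / 131072) * P.K2) + (167773 / 1048576) * (P.V * P.Vie) + bb * ((1111491 / 1048576) * P.a + (146801 / 524288) * P.K2) + (10349031 / 1048576) * P.ie * ((587203 / 1048576) * (P.a * P.a) + (314573 / 1048576) * P.K2))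
  p_t9 : 0 < (-(DF + tn)) + (471859 / 524288)

/-- first node, chart B -/
structure PFB (c : CFB) (om ta v : ℝ) where
  (se ie K K2 q6 Kq Yt Y2 wm wm2 wse0 q sp v2 sg2 L : ℝ)
  (sR kc w V wse iR vs iR2 bb K2se GrS gd svt GtS G2S glf : ℝ)
  (X rho c5 Xc rb Vie a ea e2a er h4 dzS dzR r1V r2V yc : ℝ)
  (ycR r1w kv x1 z sR0 m m2 wn q2 z1 iz1 th1 l1 z2 iz2 : ℝ)
  (th2 l2 lv u xxa rca bna wsa ba iba Maw z3 iz3 th3 l3 cc5 : ℝ)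
  (xxc rcc bnc wsc bc ibc ub Mbw iX LX uX LU im dz DG DF : ℝ)
  (vDG EQ ER Qw c2 s1 exK d E x2 z4 iz4 th4 l4 u1 z5 : ℝ)
  (iz5 th5 l5 cd5 xxn rcn bnn wsn bn ibn Mnw EM EMr i2 eta r2w : ℝ)
  (DPx VcR DPR a0 : ℝ)
  e_se : se = om * ta
  e_ie : ie = se * se
  e_K : K = om * se
  e_K2 : K2 = K * K
  e_q6 : q6 = 1 - K2 * (1 * 6⁻¹)
  e_Kq : Kq = K * q6
  e_Yt : Yt = (7 / 2) * ta
  e_Y2 : Y2 = Yt * Yt
  e_wm : wm = Yt * (1 + Y2 * ((1 / 2) - (1 / 8) * Y2))⁻¹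
  e_wm2 : wm2 = wm * wm
  e_wse0 : wse0 = wm * se
  e_q : q = (4095 / 4096) - (1449 / 512) * wse0 - 23 * ie - (1 / 2) * K2
  e_sp : sp = (4095 / 4096) - (2899 / 2048) * wse0 - 19 * ie - (553 / 1024) * K2
  e_v2 : v2 = v * v
  e_sg2 : sg2 = v2 * (ta * ta) + 1
  e_L : L = (1 / 2) * Real.log sg2
  e_sR : sR = Real.exp L
  e_kc : kc = Real.exp (-L)
  e_w : w = om * sR
  e_V : V = w * w
  e_wse : wse = w * se
  e_iR : iR = ta * kc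
  e_vs : vs = v * iR
  e_iR2 : iR2 = iR * iR
  e_bb : bb = om * om
  e_K2se : K2se = bb * se
  e_GrS : GrS = (1 / 2) * om + c.lc0 * se + c.lc1 * iR
  e_gd : gd = ((-364089 / 524288) * w + (873813 / 524288)) * (c.lc12 * ta) + c.lc02 * ta + 1
  e_svt : svt = se * v2 * ta * gd⁻¹
  e_GtS : GtS = GrS + svt
  e_G2S : G2S = GrS + (1 / 4) * svt
  e_glf : glf = Real.exp (ie * ((838861 / 524288) * V + (363409 / 524288)) - (1 / 2) * Kq)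
  e_X : X = c.C * sR
  e_rho : rho = c.rho2 * wm2 + c.rho1
  e_c5 : c5 = 1 - 500 * (ie * ie)
  e_Xc : Xc = (1 / 4) * (c.C * (4 * ta + 1))
  e_rb : rb = iR + (1 / 4) * kc
  e_Vie : Vie = V * ie
  e_a : a = se * GtS + c.cD * ie
  e_ea : ea = Real.exp a
  e_e2a : e2a = ea * ea
  e_er : er = ((838861 / 524288) * V + (5 / 2) * v) * ie
  e_h4 : h4 = 1 - (1 / 4) * K2
  e_dzS : dzS = vs * (G2S + ea * ((1 / 2) * (se * GtS * GtS) + (149797 / 1048576) * K2se)) + w * ((3 / 2) * e2a - (3 / 2) + (3 / 4) * K2 + v * ie + er) + K2se * ((1 / 8) * (v * vs * ie))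
  e_dzR : dzR = dzS * se
  e_r1V : r1V = h4 * (3 - (3 / 2) * e2a) - (1 / 2) * (kc * kc) - vs * vs * ea - er
  e_r2V : r2V = (3 / 2) * e2a - h4 * ((1 / 2) * (kc * kc)) + er
  e_yc : yc = v * glf + 2 * (Vie * v * e2a) + V * er
  e_ycR : ycR = vs * glf + 2 * (Vie * vs * e2a) + wse * er
  e_r1w : r1w = r1V * wse
  e_kv : kv = kc * kc + ycR * ycR
  e_x1 : x1 = (1023 / 1024) * r1V * (kv + r1w * r1w)⁻¹
  e_z : z = 2 * (vs * vs * Vie)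
  e_sR0 : sR0 = 1 - z
  e_m : m = sR0 - dzR - dzR * dzR
  e_m2 : m2 = m * m
  e_wn : wn = w * m
  e_q2 : q2 = q - 8 * ie - Vie * rho
  e_z1 : z1 = 2 * (Kq * x1)
  e_iz1 : iz1 = (z1 * z1 * (1 * 3⁻¹) + 1)⁻¹
  e_th1 : th1 = z1 * iz1
  e_l1 : l1 = q6 * x1 * iz1 * ((1 / 4) * (th1 * th1) + 1)
  e_z2 : z2 = 2 * (Kq * (x1 + 1))
  e_iz2 : iz2 = (z2 * z2 * (1 * 3⁻¹) + 1)⁻¹
  e_th2 : th2 = z2 * iz2
  e_l2 : l2 = q6 * (x1 + 1) * iz2 * ((1 / 4) * (th2 * th2) + 1)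
  e_lv : lv = l1 * V * m2
  e_u : u = Real.exp (-(q2 * lv))
  e_xxa : xxa = (-c5) + 1
  e_rca : rca = (1 / 2) * xxa * (-(xxa + 1)) + 1
  e_bna : bna = sp * rca
  e_wsa : wsa = bna * wn
  e_ba : ba = bna * ((1 / 2) * wsa + ((1482911 / 16777216) * (wsa * wsa) + (1482911 / 1048576)))⁻¹
  e_iba : iba = (ba + (1 / 2) * (q * wn * c5 * l2))⁻¹
  e_Maw : Maw = u * (wn + iba)
  e_z3 : z3 = 2 * (Kq * (x1 + 2))
  e_iz3 : iz3 = (z3 * z3 * (1 * 3⁻¹) + 1)⁻¹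
  e_th3 : th3 = z3 * iz3
  e_l3 : l3 = q6 * (x1 + 2) * iz3 * ((1 / 4) * (th3 * th3) + 1)
  e_cc5 : cc5 = c5 * c5
  e_xxc : xxc = (-cc5) + 1
  e_rcc : rcc = (1 / 2) * xxc * (-(xxc + 1)) + 1
  e_bnc : bnc = sp * rcc
  e_wsc : wsc = bnc * wn
  e_bc : bc = bnc * ((1 / 2) * wsc + ((1482911 / 16777216) * (wsc * wsc) + (1482911 / 1048576)))⁻¹
  e_ibc : ibc = (bc + (1 / 2) * (q * wn * cc5 * l3))⁻¹
  e_ub : ub = Real.exp (-(q2 * (l2 * V * m2 * c5)))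
  e_Mbw : Mbw = ub * (wn + ibc)
  e_iX : iX = (1 - X)⁻¹
  e_LX : LX = 1 + (1 / 2) * X + (174763 / 524288) * (X * X * iX)
  e_uX : uX = u * X
  e_LU : LU = 1 + (1 / 2) * uX + (174763 / 524288) * (uX * uX * (1 - uX)⁻¹)
  e_im : im = m⁻¹
  e_dz : dz = dzS * w
  e_DG : DG = dz + dzS * Mbw * im + X * LX
  e_DF : DF = dzS * Maw * im + uX * LU
  e_vDG : vDG = v * DG * iR2
  e_EQ : EQ = (1111491 / 1048576) * e2a * (vDG + ie * (2 * DG + DF))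
  e_ER : ER = EQ * wse
  e_Qw : Qw = ER * im
  e_c2 : c2 = (-(2 * Qw)) + c5
  e_s1 : s1 = (1 / 2) * (kv - 1) + 1
  e_exK : exK = Real.exp (2 * (K * x1))
  e_d : d = EQ * exK * (q6 * m2 * (1 - Qw))⁻¹
  e_E : E = EQ * V
  e_x2 : x2 = x1 - d + 1
  e_z4 : z4 = 2 * (Kq * x2)
  e_iz4 : iz4 = (z4 * z4 * (1 * 3⁻¹) + 1)⁻¹
  e_th4 : th4 = z4 * iz4
  e_l4 : l4 = q6 * x2 * iz4 * ((1 / 4) * (th4 * th4) + 1)
  e_u1 : u1 = Real.exp (-(q2 * (l4 * V * m2 * c2)))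
  e_z5 : z5 = 2 * (Kq * (x2 + 1))
  e_iz5 : iz5 = (z5 * z5 * (1 * 3⁻¹) + 1)⁻¹
  e_th5 : th5 = z5 * iz5
  e_l5 : l5 = q6 * (x2 + 1) * iz5 * ((1 / 4) * (th5 * th5) + 1)
  e_cd5 : cd5 = c2 * c5
  e_xxn : xxn = (-cd5) + 1
  e_rcn : rcn = (1 / 2) * xxn * (-(xxn + 1)) + 1
  e_bnn : bnn = sp * rcn
  e_wsn : wsn = bnn * wn
  e_bn : bn = bnn * ((1 / 2) * wsn + ((1482911 / 16777216) * (wsn * wsn) + (1482911 / 1048576)))⁻¹
  e_ibn : ibn = (bn + (1 / 2) * (q * wn * cd5 * l5))⁻¹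
  e_Mnw : Mnw = u1 * (wn + ibn)
  e_EM : EM = E + EQ * w * Mnw * im
  e_EMr : EMr = EM * rb
  e_i2 : i2 = (1 - (1 / 2) * EM)⁻¹
  e_eta : eta = ((1 / 2) * EM + 1) * i2
  e_r2w : r2w = r2V * wse
  e_DPx : DPx = kv + r2w * (r2w + 2 * kc)
  e_VcR : VcR = wse * (kv + r2w * r2w)
  e_DPR : DPR = (1 / 2) * (DPx - 1) + 1
  e_a0 : a0 = c.a01 * ta + c.a00
  p_gd : 0 < gd
  p_a1 : 0 < (-a) + (29127 / 524288)
  p_x11 : 0 < (-x1) + 1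
  p_X1 : 0 < 1 - X
  p_cG : 0 < (-DG) + c.cD
  p_cF : 0 < (-DF) + c.cD
  p_Es : 0 < 1 - Qw
  p_R1 : 0 < c.RH1 - (dzR + 1) * (dzR + 1)
  p_R2 : 0 < c.RH - r2V - EQ - (s1 + dzR + ER) * (s1 + dzR + ER)
  p_h9 : 0 < (9646899 / 1048576) * (m2 * c2) - c.RH
  p_h2 : 0 < (471859 / 524288) * (m2 * c2) - c.RHq * Vie
  p_q20 : 0 < q2
  p_dzS0 : 0 < sR0 - dzR
  p_m0 : 0 < m
  p_x0 : 0 < x1 - d - c.x0
  p_Er : 0 < r1V - EQ
  p_La : 0 < c.Lam0 * (m2 * (1 - 2 * Qw)) - r2V - EQ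
  p_y0 : 0 < (-(yc + E)) + c.Y02 * K + c.Y0
  p_EM2 : 0 < 1 - (1 / 2) * EM
  p_cl : 0 < (-(EMr * i2 + eta * u1 * a0 * (DPR + VcR + ER))) + (1 - (1 / 1024) * K) * Xc

/-- test, chart B -/
structure PFBT {c : CFB} {om ta v : ℝ}
    (P : PFB c om ta v) where
  (tn : ℝ)
  e_tn : tn = (529531 / 524288) * ((3294199 / 1048576) * P.ie * P.DF + (3294199 / 1048576) * P.se * P.G2S + (3294199 / 1048576) * ((147325 / 262144) * P.Vie + (277873 / 524288) * (P.a * P.a) + (56361 / 131072) * P.K2) + (167773 / 1048576) * (P.V * P.Vie) + P.bb * ((1111491 / 1048576) * P.a + (146801 / 524288) * P.K2) + (10349031 / 1048576) * P.ie * ((587203 / 1048576) * (P.a * P.a) + (314573 / 1048576) * P.K2))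
  p_t9 : 0 < (-(P.DF + tn)) + (471859 / 524288)

/-- constants of the bound of `M`, chart A -/
structure PMA (sg : ℝ) where
  (ie q sp p isp : ℝ)
  e_ie : ie = sg * sg
  e_q : q = (4095 / 4096) - (1449 / 512) * sg - 30 * ie
  e_sp : sp = (4095 / 4096) - (2899 / 2048) * sg - 24 * ie
  e_p : p = sp * sp
  e_isp : isp = sp⁻¹
  p_sp : 0 < sp
  p_q7 : 0 < q - (734003 / 1048576) - (1 / 1024)
  p_p6 : 0 < p - (314573 / 524288)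
  p_hp : 0 < q * ((1048523 / 1048576) - 12 * ie) - p
  p_hq : 0 < (-(2 * ie + ((1101005 / 262144) * ie + (105 / 1048576)) + (9 / 524288) + (1482911 / 524288) * (sg * isp * (16 * ie + 1)) + (12478055 / 1048576) * ie + q)) + 1

/-- constants of the bound of `M`, chart B -/
structure PMB (om ta : ℝ) where
  (se ie K K2 q6 Kq Yt Y2 wm wm2 wse0 q sp p isp : ℝ)
  e_se : se = om * ta
  e_ie : ie = se * se
  e_K : K = om * se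
  e_K2 : K2 = K * K
  e_q6 : q6 = 1 - K2 * (1 * 6⁻¹)
  e_Kq : Kq = K * q6
  e_Yt : Yt = (7 / 2) * ta
  e_Y2 : Y2 = Yt * Yt
  e_wm : wm = Yt * (1 + Y2 * ((1 / 2) - (1 / 8) * Y2))⁻¹
  e_wm2 : wm2 = wm * wm
  e_wse0 : wse0 = wm * se
  e_q : q = (4095 / 4096) - (1449 / 512) * wse0 - 23 * ie - (1 / 2) * K2
  e_sp : sp = (4095 / 4096) - (2899 / 2048) * wse0 - 19 * ie - (553 / 1024) * K2
  e_p : p = sp * sp
  e_isp : isp = sp⁻¹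
  p_sp : 0 < sp
  p_q7 : 0 < q - (734003 / 1048576) - (1 / 1024)
  p_p6 : 0 < p - (314573 / 524288)
  p_hp : 0 < q * (1 - (1 / 2) * K2 - 12 * ie) - p
  p_hq : 0 < (-(2 * ie + (K2 + (1101005 / 262144) * ie) * wm2 + (174763 / 1048576) * K2 + (1482911 / 524288) * (wse0 * isp * (16 * ie + 1)) + (12478055 / 1048576) * ie + q)) + 1

end Pool.Agent.helper31.EQB
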