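import Pool.Agent.helper31.EQB.PFA
import Pool.Agent.helper31.EQB.PB
import Pool.Agent.helper31.EQB.DomK
import Pool.Agent.helper31.EQB.Asm

/-!
# EQB-43: the two charts, from any far field with the entry property
-/

namespace Pool.Agent.helper31.EQB

open Complex ComplexConjugate Set Filter Topology
open Pool.Agent.helper31.EQ.Y Pool.Agent.helper31.EQ.R
open Pool.Agent.helper12.EQL Pool.Agent.helper12.RP Pool.Agent.helper12.FF Pool.Agent.helper12.RS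

variable {e κ : ℝ}

/-- Chart A: `e ≥ 500`, `e sinh κ ≤ 5`. -/
theorem trap_A (he : 500 ≤ e) (hκ : 0 < κ) (hb : bet e κ ≤ 5)
    (far : FarN e κ (1 - Real.sinh κ / 1024))
    (hent : ∀ τ : ℂ, St e κ (xA 5) (LamA 5) (ynA 5) τ →
      τ ∈ far.Ω 0 ∧ ‖far.X 0 τ‖ ≤ ‖Rx e κ (aA 5) τ‖) :
    Nonempty (Pool.Agent.helper31.EQ.SeqTrap e (Real.exp κ)) := by
  have he0 : 0 < e := by linarith
  have hβ : 0 < bet e κ := bet_pos he0 hκ
  have hK : Real.sinh κ ≤ 1 / 10 := by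
    have h1 : e * Real.sinh κ ≤ 5 := hb
    have h2 : 0 < Real.sinh κ := Real.sinh_pos_iff.2 hκ
    nlinarith
  obtain ⟨M⟩ := PMA_all he
  refine trap_of_all (by linarith) hκ hK far (C := CA e κ) (x := xA) (Λ := LamA) (yn := ynA)
    (a := fun n => aA (min n 5)) ?_
  refine ⟨?_, ?_, ?_, ?_, ?_, ?_, ?_⟩
  · unfold CA
    have : 0 < cFA.aS := by norm_num [cFA]
    positivity
  · intro n
    have hn : min n 5 ≤ 5 := min_le_right _ _
    obtain ⟨m, hm⟩ : ∃ m, m = min n 5 := ⟨_, rfl⟩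
    rw [← hm] at hn
    show 0 < aA (min n 5)
    rw [← hm]
    interval_cases m <;> norm_num [aA]
  · intro v hv0 hv1
    have hv2 : v ≤ 32 / 10 := by
      have := Real.pi_lt_d2
      norm_num at this ⊢
      linarith
    have h1 : √(bet e κ ^ 2 + v ^ 2) ≤ bet e κ + v := by
      apply Real.sqrt_le_iff.2 ⟨by positivity, ?_⟩
      nlinarith
    have h2 : CA e κ * √(bet e κ ^ 2 + v ^ 2) / bet e κ =
        cFA.aS * 4 * √(bet e κ ^ 2 + v ^ 2) / (4 + bet e κ) := by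
      unfold CA
      field_simp
    rw [h2, div_lt_one (by positivity)]
    have h3 : cFA.aS ≤ 14 / 100 := by norm_num [cFA]
    have h4 : 0 ≤ √(bet e κ ^ 2 + v ^ 2) := Real.sqrt_nonneg _
    nlinarith
  · intro v hv0 hv1
    exact firstA_all he hκ hb M hv0 hv1
  · exact testA_all he hκ hb M
  · intro n hn τ T
    have h1 : min n 5 = n := min_eq_left (by omega)
    have h2 : min (n + 1) 5 = n + 1 := min_eq_left (by omega)
    show ‖Rx e κ (aA (min n 5)) τ‖ < 1 ∧ ∀ χ : ℂ, ‖χ‖ ≤ ‖Rx e κ (aA (min n 5)) τ‖ →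
      rd e κ τ χ ∈ slitPlane ∧
      St e κ (xA (n + 1)) (LamA (n + 1)) (ynA (n + 1)) (nxt e κ τ χ) ∧
      ∀ χ' : ℂ, ‖χ'‖ ≤ ‖Rx e κ (aA (min (n + 1) 5)) (nxt e κ τ χ)‖ → _
    rw [h1, h2]
    exact linkA_all he hκ hb M hn T
  · intro τ T
    exact hent τ T

/-- Chart B: `e ≥ 200`, `e sinh κ ≥ 5`. -/
theorem trap_B (he : 200 ≤ e) (hκ : 0 < κ) (hb : 5 ≤ bet e κ)
    (h : 2 * (Real.cosh κ - 1) / Real.cosh (e * κ / 2) ^ (2 / e) < 4 ^ (1 / e) - 1)
    (far : FarN e κ (1 - Real.sinh κ / 1024))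
    (hent : ∀ τ : ℂ, St e κ (xB 5) (LamB 5) (ynB κ 5) τ →
      τ ∈ far.Ω 0 ∧ ‖far.X 0 τ‖ ≤ ‖Rx e κ (aB e κ 5) τ‖) :
    Nonempty (Pool.Agent.helper31.EQ.SeqTrap e (Real.exp κ)) := by
  have he0 : 0 < e := by linarith
  have hβ : 0 < bet e κ := bet_pos he0 hκ
  have hD := dom_B he hκ h
  have C := chB he hκ hb hD
  obtain ⟨M⟩ := PMB_all he hκ hb hD
  refine trap_of_all he hκ C.K far (C := cFB1.C) (x := xB) (Λ := LamB) (yn := ynB κ)
    (a := fun n => aB e κ (min n 5)) ?_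
  refine ⟨?_, ?_, ?_, ?_, ?_, ?_, ?_⟩
  · norm_num [cFB1]
  · intro n
    have hn : min n 5 ≤ 5 := min_le_right _ _
    obtain ⟨m, hm⟩ : ∃ m, m = min n 5 := ⟨_, rfl⟩
    rw [← hm] at hn
    show 0 < aB e κ (min n 5)
    rw [← hm]
    have hi : 0 < (bet e κ)⁻¹ := by positivity
    unfold aB
    interval_cases m <;> norm_num [aB0, aB1] <;> linarith
  · intro v hv0 hv1
    have hv2 : v ≤ 32 / 10 := by
      have := Real.pi_lt_d2
      norm_num at this ⊢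
      linarith
    have h1 : √(bet e κ ^ 2 + v ^ 2) ≤ bet e κ + v := by
      apply Real.sqrt_le_iff.2 ⟨by positivity, ?_⟩
      nlinarith
    rw [div_lt_one hβ]
    have h3 : cFB1.C ≤ 30 / 100 := by norm_num [cFB1]
    have h4 : 0 ≤ √(bet e κ ^ 2 + v ^ 2) := Real.sqrt_nonneg _
    nlinarith
  · intro v hv0 hv1
    exact firstB_all he hκ hb hD M hv0 hv1
  · exact testB_all he hκ hb hD M
  · intro n hn τ T
    have h1 : min n 5 = n := min_eq_left (by omega)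
    have h2 : min (n + 1) 5 = n + 1 := min_eq_left (by omega)
    show ‖Rx e κ (aB e κ (min n 5)) τ‖ < 1 ∧ ∀ χ : ℂ, ‖χ‖ ≤ ‖Rx e κ (aB e κ (min n 5)) τ‖ →
      rd e κ τ χ ∈ slitPlane ∧
      St e κ (xB (n + 1)) (LamB (n + 1)) (ynB κ (n + 1)) (nxt e κ τ χ) ∧
      ∀ χ' : ℂ, ‖χ'‖ ≤ ‖Rx e κ (aB e κ (min (n + 1) 5)) (nxt e κ τ χ)‖ → _
    rw [h1, h2]
    exact linkB_all he hκ hb hD M hn T
  · intro τ T
    exact hent τ T

end Pool.Agent.helper31.EQB
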