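import Pool.Agent.helper31.EQB.Lam

/-!
# EQB: the coordinate `z = e K t = β t`, `K = sinh κ`, `β = e K`

`r = Re z`, `y = Im z`, `S = β² + y²`, `V = e |T² - K²|` (`T = K t`), `x` by `|t - 1| ≤ e^(-2κx) |t + 1|`.
-/

namespace Pool.Agent.helper31.EQB

open Complex ComplexConjugate Set Filter Topology
open Pool.Agent.helper31.EQ.Y Pool.Agent.helper31.EQ.R
open Pool.Agent.helper12.EQL Pool.Agent.helper12.RP Pool.Agent.helper12.FF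

noncomputable section

/-- `β = e sinh κ` -/
def bet (e κ : ℝ) : ℝ := e * Real.sinh κ

/-- `r = Re z` -/
def rz (e κ : ℝ) (t : ℂ) : ℝ := bet e κ * t.re

/-- `y = Im z` -/
def yz (e κ : ℝ) (t : ℂ) : ℝ := bet e κ * t.im

/-- `S = β² + y²` -/
def Sz (e κ : ℝ) (t : ℂ) : ℝ := bet e κ ^ 2 + yz e κ t ^ 2

/-- `V = e |T² - K²|` -/
def Vz (e κ : ℝ) (t : ℂ) : ℝ := e * Real.sinh κ ^ 2 * ‖t ^ 2 - 1‖

/-- `b` with `b² = (1 - b) s / 2` -/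
def Bs (s : ℝ) : ℝ := (1 / 2 + √(1 / 4 + 2 / s))⁻¹

/-- `Ψ`: the bound is `M ≤ Ψ⁻¹` -/
def Ps (e κ p q : ℝ) (t : ℂ) : ℝ := Bs (p * (Sz e κ t / e)) + q * rz e κ t / 2

/-- position bound `x` -/
def om (κ x : ℝ) (t : ℂ) : Prop := ‖t - 1‖ ≤ Real.exp (-(2 * κ * x)) * ‖t + 1‖

end

/-- Constants of the bound. -/
structure MC (e κ Y w p q : ℝ) : Prop where
  e200 : 200 ≤ e
  κ0 : 0 < κ
  K1 : Real.sinh κ ≤ 1 / 10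
  Y0 : 0 ≤ Y
  Y4 : Y ≤ 11 / 2
  W2 : bet e κ ^ 2 + Y ^ 2 ≤ 2 * e
  w0 : 0 ≤ w
  hw : Y ≤ w * √(bet e κ ^ 2 + Y ^ 2)
  q7 : 7 / 10 ≤ q
  q1 : q ≤ 1
  p6 : 3 / 5 ≤ p
  hp : p ≤ q * (1 - Real.sinh κ ^ 2 / 2 - 12 / e)
  hq : 2 / e + (Real.sinh κ ^ 2 + 21 / (5 * e)) * w ^ 2 + Real.sinh κ ^ 2 / 6 +
    2 * w * √(2 / (p * e)) * (1 + 16 / e) + 17 * Y / (5 * e) ≤ 1 - q

end Pool.Agent.helper31.EQB
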